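import Mathlib

/-!
The directed polymer in random environment: partition function, free energy, critical point.
-/

set_option autoImplicit false

open MeasureTheory Filter

namespace Pool.Agent.Lib.MP_153faa_pr

/-- Sites of the lattice `ℤ^d`. -/
abbrev Site (d : ℕ) := Fin d → ℤ

/-- The `2 d` steps `± e_i` of simple random walk. -/
def stepVec {d : ℕ} (s : Fin d × Bool) : Site d :=
  if s.2 then Pi.single s.1 1 else -Pi.single s.1 1

/-- Position after `j` steps of the walk started at the origin with step sequence `s`. -/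
def pos {d n : ℕ} (s : Fin n → Fin d × Bool) (j : ℕ) : Site d :=
  ∑ i : Fin n with i.val < j, stepVec (s i)

/-- The cumulant generating function `λ(β) = log E exp(β ω)` of the law `ν`. -/
noncomputable def lam (ν : Measure ℝ) (β : ℝ) : ℝ := Real.log (∫ t, Real.exp (β * t) ∂ν)

/-- The normalized partition function `W_n^β` in the environment `ω`: the average over the
`(2 d)^n` step sequences of `exp (∑_{j=1}^n (β ω(j, X_j) - λ(β)))`. -/
noncomputable def W {d : ℕ} (ν : Measure ℝ) (β : ℝ) (n : ℕ) (ω : ℕ × Site d → ℝ) : ℝ :=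
  (∑ s : Fin n → Fin d × Bool,
    Real.exp (∑ j ∈ Finset.Icc 1 n, (β * ω (j, pos s j) - lam ν β))) / (2 * d) ^ n

/-- The law of the i.i.d. environment with one-site law `ν`. -/
noncomputable def envLaw (d : ℕ) (ν : Measure ℝ) [IsProbabilityMeasure ν] :
    Measure (ℕ × Site d → ℝ) := Measure.infinitePi fun _ => ν

/-- The free energy, as the upper limit of `E[log W_n] / n`. -/
noncomputable def freeEnergy (d : ℕ) (ν : Measure ℝ) [IsProbabilityMeasure ν] (β : ℝ) : ℝ :=
  limsup (fun n : ℕ => (∫ ω, Real.log (W ν β n ω) ∂envLaw d ν) / n) atTop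

/-- The critical inverse temperature. -/
noncomputable def betaC (d : ℕ) (ν : Measure ℝ) [IsProbabilityMeasure ν] : ℝ :=
  sInf {β | 0 ≤ β ∧ freeEnergy d ν β < 0}

end Pool.Agent.Lib.MP_153faa_pr
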