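import Mathlib
import Pool.Agent.Lib.MP_153faa_pr.Defs

/-!
Directed polymer as a Markov chain on mass profiles: definitions.
-/

set_option autoImplicit false

open MeasureTheory
open scoped ENNReal NNReal

namespace Pool.Agent.Lib.MP_153faa_pr

/-- Mass profiles. -/
abbrev Prof (d : ℕ) := Site d → ℝ≥0∞

/-- One layer of positive weights. -/
abbrev Layer (d : ℕ) := Site d → ℝ≥0

variable {d : ℕ}

/-- The averaging operator of simple random walk. -/
noncomputable def avg (f : Prof d) : Prof d := fun x =>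
  (2 * d : ℝ≥0∞)⁻¹ * ∑ i : Fin d, (f (x - Pi.single i 1) + f (x + Pi.single i 1))

/-- Total mass. -/
noncomputable def mass (f : Prof d) : ℝ≥0∞ := ∑' x, f x

/-- One step of the evolution in the layer `ξ`. -/
noncomputable def step (f : Prof d) (ξ : Layer d) : Prof d := fun x => ξ x * avg f x

/-- Evolution of the profile `f` through the layers `ω 0, …, ω (n-1)`. -/
noncomputable def ev : ℕ → (ℕ → Layer d) → Prof d → Prof d
  | 0, _, f => f
  | n + 1, ω, f => ev n (fun k => ω (k + 1)) (step f (ω 0))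

/-- Unit mass at `y`. -/
noncomputable def dlt (y : Site d) : Prof d := fun x => if x = y then 1 else 0

/-- Law of a layer. -/
noncomputable def lay (d : ℕ) (ρ : Measure ℝ≥0) [IsProbabilityMeasure ρ] : Measure (Layer d) :=
  Measure.infinitePi fun _ => ρ

instance (ρ : Measure ℝ≥0) [IsProbabilityMeasure ρ] : IsProbabilityMeasure (lay d ρ) := by
  unfold lay; infer_instance

/-- Law of the sequence of layers. -/
noncomputable def env (d : ℕ) (ρ : Measure ℝ≥0) [IsProbabilityMeasure ρ] :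
    Measure (ℕ → Layer d) := Measure.infinitePi fun _ => lay d ρ

instance (ρ : Measure ℝ≥0) [IsProbabilityMeasure ρ] : IsProbabilityMeasure (env d ρ) := by
  unfold env; infer_instance

/-- The Markov operator. -/
noncomputable def T (ρ : Measure ℝ≥0) [IsProbabilityMeasure ρ] (Φ : Prof d → ℝ≥0∞) :
    Prof d → ℝ≥0∞ := fun f => ∫⁻ ξ, Φ (step f ξ) ∂lay d ρ

/-- Power of the mass. -/
noncomputable def mq (q : ℝ) (f : Prof d) : ℝ≥0∞ := mass f ^ q

/-- Sum of powers. -/
noncomputable def nq (q : ℝ) (f : Prof d) : ℝ≥0∞ := ∑' x, f x ^ q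

/-- Moments of the point-to-line partition function. -/
noncomputable def Mom (d : ℕ) (ρ : Measure ℝ≥0) [IsProbabilityMeasure ρ] (q : ℝ) (n : ℕ) :
    ℝ≥0∞ := (T ρ)^[n] (mq q) (dlt (0 : Site d))

/-- Summed moments of the point-to-point partition functions. -/
noncomputable def Am (d : ℕ) (ρ : Measure ℝ≥0) [IsProbabilityMeasure ρ] (q : ℝ) (n : ℕ) :
    ℝ≥0∞ := (T ρ)^[n] (nq q) (dlt (0 : Site d))

/-- Moment of order `r` of the one-site law. -/
noncomputable def mom (ρ : Measure ℝ≥0) (r : ℝ) : ℝ≥0∞ := ∫⁻ t, (t : ℝ≥0∞) ^ r ∂ρ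

/-- The one-site law has mean one. -/
def Mean1 (ρ : Measure ℝ≥0) : Prop := ∫⁻ t, (t : ℝ≥0∞) ∂ρ = 1

/-- One-site comparison of moments of affine functions. -/
def Comp (ρ₁ ρ₂ : Measure ℝ≥0) (q p : ℝ) : Prop :=
  ∀ A c : ℝ≥0∞, ∫⁻ t, (A + c * t) ^ q ∂ρ₁ ≤ (∫⁻ t, (A + c * t) ^ p ∂ρ₂) ^ (q / p)

/-- One-site strict convexity. -/
def Strict (ρ : Measure ℝ≥0) (q : ℝ) (c₂ : ℝ≥0∞) : Prop :=
  ∀ A c : ℝ≥0∞, (A + c) ^ 2 + c₂ * c ^ 2 ≤ (A + c) ^ (2 - q) * ∫⁻ t, (A + c * t) ^ q ∂ρ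

/-- The law of the weight `exp (β ω - λ(β))`. -/
noncomputable def rho (ν : Measure ℝ) (β : ℝ) : Measure ℝ≥0 :=
  ν.map fun t => Real.toNNReal (Real.exp (β * t - lam ν β))

instance (ν : Measure ℝ) [IsProbabilityMeasure ν] (β : ℝ) : IsProbabilityMeasure (rho ν β) :=
  Measure.isProbabilityMeasure_map (Measurable.aemeasurable (by fun_prop))

/-- Sum of the collision probabilities. -/
noncomputable def gsum (d : ℕ) : ℝ≥0∞ := ∑' j : ℕ, nq 2 (avg^[j + 1] (dlt (0 : Site d)))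

/-- The Green quadratic form. -/
noncomputable def Qf (f : Prof d) : ℝ≥0∞ := ∑' j : ℕ, nq 2 (avg^[j + 1] f)

open Classical in
/-- Probability that the chain started at `f` visits the set `S` within `n` steps. -/
noncomputable def hit (ρ : Measure ℝ≥0) [IsProbabilityMeasure ρ] (S : Set (Prof d)) :
    ℕ → Prof d → ℝ≥0∞
  | 0, f => if f ∈ S then 1 else 0
  | n + 1, f => if f ∈ S then 1 else T ρ (hit ρ S n) f

/-- Profiles of mass at least `t`. -/
def setW (d : ℕ) (t : ℝ≥0∞) : Set (Prof d) := {f | t ≤ mass f}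

/-- Profiles with a value at least `t`. -/
def setY (d : ℕ) (t : ℝ≥0∞) : Set (Prof d) := {f | ∃ x, t ≤ f x}

end Pool.Agent.Lib.MP_153faa_pr
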