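import Mathlib
import Pool.Agent.Lib.MP_153faa_pr.Core
import Pool.Agent.Lib.MP_db3298_pr.Prelim

/-!
Linearity, measurability and translation invariance of the evolution of mass profiles.
-/

set_option autoImplicit false

open MeasureTheory
open scoped ENNReal NNReal

namespace Pool.Agent.Lib.MP_153faa_pr

variable {d : ℕ}

/-! ### Algebra -/

theorem avg_mono {f g : Prof d} (h : f ≤ g) : avg f ≤ avg g := fun x => by
  unfold avg
  gcongr with i <;> exact h _

theorem avg_add (f g : Prof d) : avg (f + g) = avg f + avg g := by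
  funext x
  simp only [avg, Pi.add_apply, ← mul_add, ← Finset.sum_add_distrib]
  congr 1
  exact Finset.sum_congr rfl fun i _ => by ring

theorem avg_smul (c : ℝ≥0∞) (f : Prof d) : avg (fun x => c * f x) = fun x => c * avg f x := by
  funext x
  simp only [avg, ← mul_add, ← Finset.mul_sum]
  ring

theorem avg_tsum {ι : Type*} (F : ι → Prof d) :
    avg (fun x => ∑' i, F i x) = fun x => ∑' i, avg (F i) x := by
  funext x
  simp only [avg, ENNReal.tsum_mul_left, ← ENNReal.tsum_add]
  congr 1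
  rw [Summable.tsum_finsetSum fun _ _ => ENNReal.summable]

theorem avg_zero : avg (0 : Prof d) = 0 := by
  funext x; simp [avg]

theorem mass_mono {f g : Prof d} (h : f ≤ g) : mass f ≤ mass g := ENNReal.tsum_le_tsum h

theorem mass_add (f g : Prof d) : mass (f + g) = mass f + mass g := by
  simp only [mass, Pi.add_apply, ENNReal.tsum_add]

theorem mass_smul (c : ℝ≥0∞) (f : Prof d) : mass (fun x => c * f x) = c * mass f := by
  simp only [mass, ENNReal.tsum_mul_left]

theorem mass_tsum {ι : Type*} (F : ι → Prof d) :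
    mass (fun x => ∑' i, F i x) = ∑' i, mass (F i) := by
  simp only [mass]; exact ENNReal.tsum_comm

theorem mass_dlt (y : Site d) : mass (dlt y) = 1 := by
  simp [mass, dlt]

theorem le_mass (f : Prof d) (x : Site d) : f x ≤ mass f := ENNReal.le_tsum x

theorem tsum_shift (f : Prof d) (v : Site d) : ∑' x, f (x + v) = ∑' x, f x :=
  (Equiv.addRight v).tsum_eq f

theorem tsum_shift_sub (f : Prof d) (v : Site d) : ∑' x, f (x - v) = ∑' x, f x :=
  (Equiv.subRight v).tsum_eq f

theorem two_d_mul (hd : 1 ≤ d) : (2 * d : ℝ≥0∞)⁻¹ * (2 * d) = 1 := by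
  refine ENNReal.inv_mul_cancel ?_ ?_
  · have : (d : ℝ≥0∞) ≠ 0 := by exact_mod_cast (by omega : d ≠ 0)
    simp [this]
  · exact ENNReal.mul_ne_top (by simp) (by simp)

theorem mass_avg (hd : 1 ≤ d) (f : Prof d) : mass (avg f) = mass f := by
  simp only [mass, avg, ENNReal.tsum_mul_left]
  rw [Summable.tsum_finsetSum fun _ _ => ENNReal.summable]
  simp only [ENNReal.tsum_add, tsum_shift, tsum_shift_sub, Finset.sum_const, Finset.card_univ,
    Fintype.card_fin, nsmul_eq_mul]
  calc (2 * d : ℝ≥0∞)⁻¹ * (d * (∑' x, f x + ∑' x, f x))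
      = (2 * d : ℝ≥0∞)⁻¹ * (2 * d) * ∑' x, f x := by ring
    _ = ∑' x, f x := by rw [two_d_mul hd, one_mul]

theorem avg_le (hd : 1 ≤ d) {f : Prof d} {c : ℝ≥0∞} (h : ∀ x, f x ≤ c) (x : Site d) :
    avg f x ≤ c := by
  unfold avg
  calc (2 * d : ℝ≥0∞)⁻¹ * ∑ i : Fin d, (f (x - Pi.single i 1) + f (x + Pi.single i 1))
      ≤ (2 * d : ℝ≥0∞)⁻¹ * ∑ _i : Fin d, (c + c) := by gcongr <;> exact h _
    _ = (2 * d : ℝ≥0∞)⁻¹ * (2 * d) * c := by
        simp only [Finset.sum_const, Finset.card_univ, Fintype.card_fin, nsmul_eq_mul]; ring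
    _ = c := by rw [two_d_mul hd, one_mul]

theorem avg_one (hd : 1 ≤ d) : avg (fun _ : Site d => (1 : ℝ≥0∞)) = fun _ => 1 := by
  funext x
  simp only [avg, Finset.sum_const, Finset.card_univ, Fintype.card_fin, nsmul_eq_mul]
  calc (2 * d : ℝ≥0∞)⁻¹ * (d * (1 + 1)) = (2 * d : ℝ≥0∞)⁻¹ * (2 * d) := by ring
    _ = 1 := two_d_mul hd

/-- The averaging operator is symmetric. -/
theorem tsum_avg_mul (f g : Prof d) : ∑' x, avg f x * g x = ∑' x, f x * avg g x := by
  have h1 : ∀ v : Site d, ∑' x, f (x - v) * g x = ∑' x, f x * g (x + v) := fun v => by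
    rw [← tsum_shift (fun x => f (x - v) * g x) v]; simp
  have h2 : ∀ v : Site d, ∑' x, f (x + v) * g x = ∑' x, f x * g (x - v) := fun v => by
    rw [← tsum_shift_sub (fun x => f (x + v) * g x) v]; simp
  simp only [avg, mul_assoc, Finset.sum_mul, add_mul, mul_left_comm (f _),
    Finset.mul_sum, mul_add]
  rw [Summable.tsum_finsetSum fun _ _ => ENNReal.summable,
    Summable.tsum_finsetSum fun _ _ => ENNReal.summable]
  refine Finset.sum_congr rfl fun i _ => ?_
  simp only [ENNReal.tsum_add, ENNReal.tsum_mul_left, h1, h2]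
  ring

theorem avg_iter_mono (n : ℕ) {f g : Prof d} (h : f ≤ g) : avg^[n] f ≤ avg^[n] g := by
  induction n generalizing f g with
  | zero => exact h
  | succ n ih => simp only [Function.iterate_succ_apply]; exact ih (avg_mono h)

theorem avg_iter_add (n : ℕ) (f g : Prof d) : avg^[n] (f + g) = avg^[n] f + avg^[n] g := by
  induction n generalizing f g with
  | zero => rfl
  | succ n ih => simp only [Function.iterate_succ_apply, avg_add, ih]

theorem avg_iter_smul (n : ℕ) (c : ℝ≥0∞) (f : Prof d) :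
    avg^[n] (fun x => c * f x) = fun x => c * avg^[n] f x := by
  induction n generalizing f with
  | zero => rfl
  | succ n ih => simp only [Function.iterate_succ_apply, avg_smul, ih]

theorem avg_iter_tsum {ι : Type*} (n : ℕ) (F : ι → Prof d) :
    avg^[n] (fun x => ∑' i, F i x) = fun x => ∑' i, avg^[n] (F i) x := by
  induction n generalizing F with
  | zero => rfl
  | succ n ih => simp only [Function.iterate_succ_apply, avg_tsum, ih]

theorem mass_avg_iter (hd : 1 ≤ d) (n : ℕ) (f : Prof d) : mass (avg^[n] f) = mass f := by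
  induction n generalizing f with
  | zero => rfl
  | succ n ih => simp only [Function.iterate_succ_apply, ih, mass_avg hd]

theorem avg_iter_le (hd : 1 ≤ d) (n : ℕ) {f : Prof d} {c : ℝ≥0∞} (h : ∀ x, f x ≤ c)
    (x : Site d) : avg^[n] f x ≤ c := by
  induction n generalizing f with
  | zero => exact h x
  | succ n ih => simp only [Function.iterate_succ_apply]; exact ih (avg_le hd h)

theorem eq_tsum_dlt (f : Prof d) : f = fun x => ∑' y, f y * dlt y x := by
  funext x
  rw [tsum_eq_single x]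
  · simp [dlt]
  · intro y hy; simp [dlt, Ne.symm hy]

theorem avg_iter_eq_tsum (n : ℕ) (f : Prof d) (x : Site d) :
    avg^[n] f x = ∑' y, f y * avg^[n] (dlt y) x := by
  conv_lhs => rw [eq_tsum_dlt f]
  rw [avg_iter_tsum n (fun y x => f y * dlt y x)]
  simp only [avg_iter_smul]

theorem step_mono {f g : Prof d} (h : f ≤ g) (ξ : Layer d) : step f ξ ≤ step g ξ := fun x => by
  unfold step; gcongr; exact avg_mono h x

theorem step_add (f g : Prof d) (ξ : Layer d) : step (f + g) ξ = step f ξ + step g ξ := by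
  funext x; simp only [step, avg_add, Pi.add_apply, mul_add]

theorem step_smul (c : ℝ≥0∞) (f : Prof d) (ξ : Layer d) :
    step (fun x => c * f x) ξ = fun x => c * step f ξ x := by
  funext x; simp only [step, avg_smul]; ring

theorem step_tsum {ι : Type*} (F : ι → Prof d) (ξ : Layer d) :
    step (fun x => ∑' i, F i x) ξ = fun x => ∑' i, step (F i) ξ x := by
  funext x; simp only [step, avg_tsum, ENNReal.tsum_mul_left]

theorem mass_step (f : Prof d) (ξ : Layer d) : mass (step f ξ) = ∑' x, avg f x * ξ x := by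
  simp only [mass, step, mul_comm]

@[simp] theorem ev_zero (ω : ℕ → Layer d) (f : Prof d) : ev 0 ω f = f := rfl

theorem ev_succ (n : ℕ) (ω : ℕ → Layer d) (f : Prof d) :
    ev (n + 1) ω f = ev n (fun k => ω (k + 1)) (step f (ω 0)) := rfl

theorem ev_succ' (n : ℕ) (ω : ℕ → Layer d) (f : Prof d) :
    ev (n + 1) ω f = step (ev n ω f) (ω n) := by
  induction n generalizing ω f with
  | zero => rfl
  | succ n ih => rw [ev_succ, ih, ev_succ n ω f]

theorem ev_mono (n : ℕ) (ω : ℕ → Layer d) {f g : Prof d} (h : f ≤ g) : ev n ω f ≤ ev n ω g := by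
  induction n generalizing ω f g with
  | zero => exact h
  | succ n ih => exact ih _ (step_mono h _)

theorem ev_add (n : ℕ) (ω : ℕ → Layer d) (f g : Prof d) :
    ev n ω (f + g) = ev n ω f + ev n ω g := by
  induction n generalizing ω f g with
  | zero => rfl
  | succ n ih => simp only [ev_succ, step_add, ih]

theorem ev_smul (n : ℕ) (ω : ℕ → Layer d) (c : ℝ≥0∞) (f : Prof d) :
    ev n ω (fun x => c * f x) = fun x => c * ev n ω f x := by
  induction n generalizing ω f with
  | zero => rfl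
  | succ n ih => simp only [ev_succ, step_smul, ih]

theorem ev_tsum {ι : Type*} (n : ℕ) (ω : ℕ → Layer d) (F : ι → Prof d) :
    ev n ω (fun x => ∑' i, F i x) = fun x => ∑' i, ev n ω (F i) x := by
  induction n generalizing ω F with
  | zero => rfl
  | succ n ih => simp only [ev_succ, step_tsum, ih]

theorem ev_eq_tsum (n : ℕ) (ω : ℕ → Layer d) (f : Prof d) (x : Site d) :
    ev n ω f x = ∑' y, f y * ev n ω (dlt y) x := by
  conv_lhs => rw [eq_tsum_dlt f]
  rw [ev_tsum n ω (fun y x => f y * dlt y x)]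
  simp only [ev_smul]

theorem mass_ev_eq_tsum (n : ℕ) (ω : ℕ → Layer d) (f : Prof d) :
    mass (ev n ω f) = ∑' y, f y * mass (ev n ω (dlt y)) := by
  have : ev n ω f = fun x => ∑' y, f y * ev n ω (dlt y) x := funext (ev_eq_tsum n ω f)
  rw [this, mass_tsum (fun y x => f y * ev n ω (dlt y) x)]
  simp only [mass_smul]

/-! ### Translations -/

/-- Translation of a profile by `v`. -/
def sh (v : Site d) (f : Prof d) : Prof d := fun x => f (x - v)

theorem avg_sh (v : Site d) (f : Prof d) : avg (sh v f) = sh v (avg f) := by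
  funext x
  simp only [avg, sh, sub_right_comm _ _ v, add_sub_right_comm _ _ v]

theorem avg_iter_sh (n : ℕ) (v : Site d) (f : Prof d) : avg^[n] (sh v f) = sh v (avg^[n] f) := by
  induction n generalizing f with
  | zero => rfl
  | succ n ih => simp only [Function.iterate_succ_apply, avg_sh, ih]

theorem sh_dlt (v : Site d) : sh v (dlt 0) = dlt v := by
  funext x; simp [sh, dlt, sub_eq_zero]

theorem avg_iter_dlt (n : ℕ) (y x : Site d) : avg^[n] (dlt y) x = avg^[n] (dlt 0) (x - y) := by
  rw [← sh_dlt y, avg_iter_sh]; rfl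

theorem mass_sh (v : Site d) (f : Prof d) : mass (sh v f) = mass f := tsum_shift_sub f v

theorem mq_sh (q : ℝ) (v : Site d) (f : Prof d) : mq q (sh v f) = mq q f := by
  simp only [mq, mass_sh]

theorem nq_sh (q : ℝ) (v : Site d) (f : Prof d) : nq q (sh v f) = nq q f :=
  tsum_shift_sub (fun x => f x ^ q) v

theorem step_sh (v : Site d) (f : Prof d) (ξ : Layer d) :
    step (sh v f) ξ = sh v (step f fun x => ξ (x + v)) := by
  funext x; simp only [step, avg_sh, sh, sub_add_cancel]

theorem ev_sh (n : ℕ) (v : Site d) (ω : ℕ → Layer d) (f : Prof d) :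
    ev n ω (sh v f) = sh v (ev n (fun k x => ω k (x + v)) f) := by
  induction n generalizing ω f with
  | zero => rfl
  | succ n ih => simp only [ev_succ, step_sh, ih]

/-! ### Measurability -/

theorem measurable_avg : Measurable (avg : Prof d → Prof d) := by
  unfold avg; fun_prop

theorem measurable_avg_iter (n : ℕ) : Measurable (avg^[n] : Prof d → Prof d) :=
  measurable_avg.iterate n

theorem measurable_mass : Measurable (mass : Prof d → ℝ≥0∞) :=
  Measurable.tsum fun x => measurable_pi_apply x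

theorem measurable_mq (q : ℝ) : Measurable (mq q : Prof d → ℝ≥0∞) :=
  measurable_mass.pow_const q

theorem measurable_nq (q : ℝ) : Measurable (nq q : Prof d → ℝ≥0∞) :=
  Measurable.tsum fun x => (measurable_pi_apply x).pow_const q

theorem measurable_step2 : Measurable fun p : Prof d × Layer d => step p.1 p.2 := by
  refine measurable_pi_lambda _ fun x => ?_
  exact (((measurable_pi_apply x).comp measurable_snd).coe_nnreal_ennreal).mul
    ((measurable_pi_apply x).comp (measurable_avg.comp measurable_fst))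

theorem measurable_step (f : Prof d) : Measurable (step f) :=
  measurable_step2.comp (measurable_const.prodMk measurable_id)

theorem measurable_ev2 (n : ℕ) :
    Measurable fun p : (ℕ → Layer d) × Prof d => ev n p.1 p.2 := by
  induction n with
  | zero => exact measurable_snd
  | succ n ih =>
    simp only [ev_succ']
    exact measurable_step2.comp (ih.prodMk ((measurable_pi_apply n).comp measurable_fst))

theorem measurable_ev (n : ℕ) (f : Prof d) : Measurable fun ω : ℕ → Layer d => ev n ω f :=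
  (measurable_ev2 n).comp (measurable_id.prodMk measurable_const)

theorem measurable_sh (v : Site d) : Measurable (sh v : Prof d → Prof d) :=
  measurable_pi_lambda _ fun x => measurable_pi_apply (x - v)

theorem measurableSet_setW (t : ℝ≥0∞) : MeasurableSet (setW d t) :=
  measurableSet_le measurable_const measurable_mass

theorem measurableSet_setY (t : ℝ≥0∞) : MeasurableSet (setY d t) := by
  have : setY d t = ⋃ x, {f : Prof d | t ≤ f x} := by ext f; simp [setY]
  rw [this]
  exact MeasurableSet.iUnion fun x => measurableSet_le measurable_const (measurable_pi_apply x)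

variable {ρ : Measure ℝ≥0} [IsProbabilityMeasure ρ]

theorem measurable_T {Φ : Prof d → ℝ≥0∞} (hΦ : Measurable Φ) : Measurable (T ρ Φ) :=
  (hΦ.comp measurable_step2).lintegral_prod_right'

theorem measurable_T_iter (n : ℕ) {Φ : Prof d → ℝ≥0∞} (hΦ : Measurable Φ) :
    Measurable ((T ρ)^[n] Φ) := by
  induction n with
  | zero => exact hΦ
  | succ n ih => rw [Function.iterate_succ_apply']; exact measurable_T ih

theorem measurable_hit {S : Set (Prof d)} (hS : MeasurableSet S) (n : ℕ) :
    Measurable (hit ρ S n) := by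
  induction n with
  | zero => exact Measurable.ite hS measurable_const measurable_const
  | succ n ih => exact Measurable.ite hS measurable_const (measurable_T ih)

/-! ### The Markov operator -/

theorem T_mono {Φ Ψ : Prof d → ℝ≥0∞} (h : ∀ g, Φ g ≤ Ψ g) (f : Prof d) : T ρ Φ f ≤ T ρ Ψ f :=
  lintegral_mono fun _ => h _

theorem T_mono' {Φ Ψ : Prof d → ℝ≥0∞} {f : Prof d} (h : ∀ ξ, Φ (step f ξ) ≤ Ψ (step f ξ)) :
    T ρ Φ f ≤ T ρ Ψ f := lintegral_mono h

theorem T_const (c : ℝ≥0∞) (f : Prof d) : T ρ (fun _ => c) f = c := by simp [T]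

theorem T_add {Φ Ψ : Prof d → ℝ≥0∞} (hΦ : Measurable Φ) (f : Prof d) :
    T ρ (fun g => Φ g + Ψ g) f = T ρ Φ f + T ρ Ψ f :=
  lintegral_add_left (hΦ.comp (measurable_step f)) _

theorem T_const_mul (c : ℝ≥0∞) {Φ : Prof d → ℝ≥0∞} (hΦ : Measurable Φ) (f : Prof d) :
    T ρ (fun g => c * Φ g) f = c * T ρ Φ f :=
  lintegral_const_mul c (hΦ.comp (measurable_step f))

theorem T_tsum {ι : Type*} [Countable ι] {Φ : ι → Prof d → ℝ≥0∞} (hΦ : ∀ i, Measurable (Φ i))
    (f : Prof d) : T ρ (fun g => ∑' i, Φ i g) f = ∑' i, T ρ (Φ i) f :=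
  lintegral_tsum fun i => ((hΦ i).comp (measurable_step f)).aemeasurable

theorem T_iter_succ (n : ℕ) (Φ : Prof d → ℝ≥0∞) (f : Prof d) :
    (T ρ)^[n + 1] Φ f = ∫⁻ ξ, (T ρ)^[n] Φ (step f ξ) ∂lay d ρ := by
  rw [Function.iterate_succ_apply']; rfl

theorem T_iter_mono (n : ℕ) {Φ Ψ : Prof d → ℝ≥0∞} (h : ∀ g, Φ g ≤ Ψ g) (f : Prof d) :
    (T ρ)^[n] Φ f ≤ (T ρ)^[n] Ψ f := by
  induction n generalizing f with
  | zero => exact h f
  | succ n ih => simp only [Function.iterate_succ_apply']; exact T_mono ih f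

theorem T_iter_const (n : ℕ) (c : ℝ≥0∞) (f : Prof d) : (T ρ)^[n] (fun _ => c) f = c := by
  induction n generalizing f with
  | zero => rfl
  | succ n ih => rw [T_iter_succ]; simp [ih]

theorem T_iter_add (n : ℕ) {Φ Ψ : Prof d → ℝ≥0∞} (hΦ : Measurable Φ) (f : Prof d) :
    (T ρ)^[n] (fun g => Φ g + Ψ g) f = (T ρ)^[n] Φ f + (T ρ)^[n] Ψ f := by
  induction n generalizing f with
  | zero => rfl
  | succ n ih =>
    simp only [T_iter_succ, ih]
    exact lintegral_add_left ((measurable_T_iter n hΦ).comp (measurable_step f)) _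

theorem T_iter_const_mul (n : ℕ) (c : ℝ≥0∞) {Φ : Prof d → ℝ≥0∞} (hΦ : Measurable Φ)
    (f : Prof d) : (T ρ)^[n] (fun g => c * Φ g) f = c * (T ρ)^[n] Φ f := by
  induction n generalizing f with
  | zero => rfl
  | succ n ih =>
    simp only [T_iter_succ, ih]
    exact lintegral_const_mul c ((measurable_T_iter n hΦ).comp (measurable_step f))

theorem T_iter_sum {ι : Type*} (n : ℕ) (s : Finset ι) {Φ : ι → Prof d → ℝ≥0∞}
    (hΦ : ∀ i, Measurable (Φ i)) (f : Prof d) :
    (T ρ)^[n] (fun g => ∑ i ∈ s, Φ i g) f = ∑ i ∈ s, (T ρ)^[n] (Φ i) f := by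
  classical
  induction s using Finset.induction_on with
  | empty => simpa using T_iter_const n 0 f
  | insert a s ha ih => simp only [Finset.sum_insert ha, T_iter_add n (hΦ a), ih]

/-- Splitting off the first layer. -/
theorem lintegral_env {F : (ℕ → Layer d) → ℝ≥0∞} (hF : Measurable F) :
    ∫⁻ ω, F ω ∂env d ρ =
      ∫⁻ ξ, ∫⁻ ω, F (Pool.Agent.Lib.MP_db3298_pr.consSeq ξ ω) ∂env d ρ ∂lay d ρ :=
  Pool.Agent.Lib.MP_db3298_pr.lintegral_consSeq (lay d ρ) hF

theorem T_iter_eq (n : ℕ) {Φ : Prof d → ℝ≥0∞} (hΦ : Measurable Φ) (f : Prof d) :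
    (T ρ)^[n] Φ f = ∫⁻ ω, Φ (ev n ω f) ∂env d ρ := by
  induction n generalizing f with
  | zero => simp
  | succ n ih =>
    rw [T_iter_succ, lintegral_env (F := fun ω => Φ (ev (n + 1) ω f))
      (hΦ.comp (measurable_ev (n + 1) f))]
    simp only [ih]
    rfl

/-- Resampling one coordinate of a product measure. -/
theorem map_update {ι X : Type*} [DecidableEq ι] [MeasurableSpace X] (μ : Measure X)
    [IsProbabilityMeasure μ] (i : ι) :
    (μ.prod (Measure.infinitePi fun _ : ι => μ)).map
      (fun p : X × (ι → X) => Function.update p.2 i p.1) = Measure.infinitePi fun _ : ι => μ := by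
  have hm : Measurable fun p : X × (ι → X) => Function.update p.2 i p.1 :=
    measurable_update'.comp (measurable_snd.prodMk measurable_fst)
  refine Measure.eq_infinitePi (fun _ : ι => μ) fun s t ht => ?_
  rw [Measure.map_apply hm (MeasurableSet.pi s.countable_toSet fun i _ => ht i)]
  have hpre : (fun p : X × (ι → X) => Function.update p.2 i p.1) ⁻¹' (Set.pi (s : Set ι) t)
      = (if i ∈ s then t i else Set.univ) ×ˢ (Set.pi (s.erase i : Set ι) t) := by
    ext ⟨x, ω⟩
    simp only [Set.mem_preimage, Set.mem_pi, Finset.mem_coe, Set.mem_prod, Finset.mem_erase]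
    constructor
    · intro h
      refine ⟨?_, fun j hj => ?_⟩
      · split_ifs with h0
        · simpa using h i h0
        · trivial
      · simpa [Function.update_of_ne hj.1] using h j hj.2
    · rintro ⟨h0, h1⟩ j hj
      by_cases hji : j = i
      · subst hji; simpa [hj] using h0
      · rw [Function.update_of_ne hji]; exact h1 j ⟨hji, hj⟩
  rw [hpre, Measure.prod_prod, Measure.infinitePi_pi _ fun i _ => ht i]
  split_ifs with h0
  · rw [Finset.mul_prod_erase s (fun i => μ (t i)) h0]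
  · rw [measure_univ, one_mul, Finset.erase_eq_of_notMem h0]

theorem lintegral_update {F : Layer d → ℝ≥0∞} (hF : Measurable F) (x : Site d) :
    ∫⁻ ξ, F ξ ∂lay d ρ = ∫⁻ t, ∫⁻ ξ, F (Function.update ξ x t) ∂lay d ρ ∂ρ := by
  have hm : Measurable fun p : ℝ≥0 × Layer d => Function.update p.2 x p.1 :=
    measurable_update'.comp (measurable_snd.prodMk measurable_fst)
  unfold lay
  conv_lhs => rw [← map_update ρ x]
  rw [lintegral_map hF hm]
  exact lintegral_prod _ (hF.comp hm).aemeasurable

theorem lintegral_update' {F : Layer d → ℝ≥0∞} (hF : Measurable F) (x : Site d) :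
    ∫⁻ ξ, F ξ ∂lay d ρ = ∫⁻ ξ, ∫⁻ t, F (Function.update ξ x t) ∂ρ ∂lay d ρ := by
  have hm : Measurable fun p : ℝ≥0 × Layer d => Function.update p.2 x p.1 :=
    measurable_update'.comp (measurable_snd.prodMk measurable_fst)
  rw [lintegral_update hF x]
  exact lintegral_lintegral_swap (hF.comp hm).aemeasurable

theorem lintegral_coord {g : ℝ≥0 → ℝ≥0∞} (hg : Measurable g) (x : Site d) :
    ∫⁻ ξ, g (ξ x) ∂lay d ρ = ∫⁻ t, g t ∂ρ :=
  (measurePreserving_eval_infinitePi (fun _ : Site d => ρ) x).lintegral_comp hg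

theorem lintegral_lay_sh {F : Layer d → ℝ≥0∞} (hF : Measurable F) (v : Site d) :
    ∫⁻ ξ, F (fun x => ξ (x + v)) ∂lay d ρ = ∫⁻ ξ, F ξ ∂lay d ρ := by
  have h := Measure.map_infinitePi_infinitePi_of_inj (P := fun _ : Site d => ρ)
    (f := fun x : Site d => x + v) (add_left_injective v)
  unfold lay
  conv_rhs => rw [← h]
  rw [lintegral_map hF (by fun_prop)]

theorem T_sh {Φ : Prof d → ℝ≥0∞} (hΦ : Measurable Φ) (v : Site d) (f : Prof d) :
    T ρ Φ (sh v f) = T ρ (fun g => Φ (sh v g)) f := by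
  unfold T
  simp only [step_sh]
  exact lintegral_lay_sh (F := fun ξ => Φ (sh v (step f ξ)))
    (hΦ.comp ((measurable_sh v).comp (measurable_step f))) v

theorem T_iter_sh (n : ℕ) {Φ : Prof d → ℝ≥0∞} (hΦ : Measurable Φ) (v : Site d) (f : Prof d) :
    (T ρ)^[n] Φ (sh v f) = (T ρ)^[n] (fun g => Φ (sh v g)) f := by
  induction n generalizing f with
  | zero => rfl
  | succ n ih =>
    simp only [Function.iterate_succ_apply']
    rw [T_sh (measurable_T_iter n hΦ)]
    simp only [ih]

theorem T_iter_dlt (n : ℕ) {Φ : Prof d → ℝ≥0∞} (hΦ : Measurable Φ)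
    (hs : ∀ v g, Φ (sh v g) = Φ g) (y : Site d) :
    (T ρ)^[n] Φ (dlt y) = (T ρ)^[n] Φ (dlt 0) := by
  rw [← sh_dlt y, T_iter_sh n hΦ]; simp only [hs]

theorem lintegral_mq_dlt (q : ℝ) (n : ℕ) (y : Site d) :
    ∫⁻ ω, mass (ev n ω (dlt y)) ^ q ∂env d ρ = Mom d ρ q n := by
  unfold Mom
  rw [← T_iter_dlt n (measurable_mq q) (mq_sh q) y, T_iter_eq n (measurable_mq q)]; rfl

theorem lintegral_nq_dlt (q : ℝ) (n : ℕ) (y : Site d) :
    ∫⁻ ω, nq q (ev n ω (dlt y)) ∂env d ρ = Am d ρ q n := by
  unfold Am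
  rw [← T_iter_dlt n (measurable_nq q) (nq_sh q) y, T_iter_eq n (measurable_nq q)]

theorem measurable_lin (c : Site d → ℝ≥0∞) :
    Measurable fun ξ : Layer d => ∑' x, c x * (ξ x : ℝ≥0∞) :=
  Measurable.tsum fun x => ((measurable_pi_apply x).coe_nnreal_ennreal).const_mul _

theorem lintegral_lin (h1 : Mean1 ρ) (c : Site d → ℝ≥0∞) :
    ∫⁻ ξ, ∑' x, c x * (ξ x : ℝ≥0∞) ∂lay d ρ = ∑' x, c x := by
  rw [lintegral_tsum fun x =>
    (((measurable_pi_apply x).coe_nnreal_ennreal).const_mul _).aemeasurable]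
  refine tsum_congr fun x => ?_
  rw [lintegral_const_mul _ (measurable_pi_apply x).coe_nnreal_ennreal,
    lintegral_coord (g := fun t => (t : ℝ≥0∞)) measurable_coe_nnreal_ennreal, h1, mul_one]

theorem T_lin (h1 : Mean1 ρ) (c : Site d → ℝ≥0∞) (f : Prof d) :
    T ρ (fun g => ∑' x, c x * g x) f = ∑' x, c x * avg f x := by
  unfold T
  rw [← lintegral_lin h1 (fun x => c x * avg f x)]
  refine lintegral_congr fun ξ => tsum_congr fun x => ?_
  simp only [step]; ring

theorem T_iter_lin (h1 : Mean1 ρ) (n : ℕ) (c : Site d → ℝ≥0∞) (f : Prof d) :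
    (T ρ)^[n] (fun g => ∑' x, c x * g x) f = ∑' x, c x * avg^[n] f x := by
  induction n generalizing c with
  | zero => rfl
  | succ n ih =>
    rw [Function.iterate_succ_apply]
    have : T ρ (fun g : Prof d => ∑' x, c x * g x) = fun g => ∑' x, avg c x * g x := by
      funext g; rw [T_lin h1, tsum_avg_mul]
    rw [this, ih, tsum_avg_mul, Function.iterate_succ_apply']

theorem T_mass (hd : 1 ≤ d) (h1 : Mean1 ρ) (f : Prof d) : T ρ mass f = mass f := by
  have := T_lin h1 (fun _ => 1) f
  simp only [one_mul] at this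
  exact this.trans (mass_avg hd f)

theorem T_iter_mass (hd : 1 ≤ d) (h1 : Mean1 ρ) (n : ℕ) (f : Prof d) :
    (T ρ)^[n] mass f = mass f := by
  have := T_iter_lin h1 n (fun _ => 1) f
  simp only [one_mul] at this
  exact this.trans (mass_avg_iter hd n f)

theorem lintegral_mass_ev (hd : 1 ≤ d) (h1 : Mean1 ρ) (n : ℕ) (f : Prof d) :
    ∫⁻ ω, mass (ev n ω f) ∂env d ρ = mass f := by
  rw [← T_iter_eq n measurable_mass, T_iter_mass hd h1]

theorem ae_lay_le {H : ℝ≥0} (hH : ∀ᵐ t ∂ρ, t ≤ H) : ∀ᵐ ξ ∂lay d ρ, ∀ x, ξ x ≤ H := by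
  rw [ae_all_iff]
  intro x
  exact (measurePreserving_eval_infinitePi (fun _ : Site d => ρ) x).quasiMeasurePreserving.ae hH

/-- For a bounded environment the mass grows by a bounded factor in one step. -/
theorem T_mono_bdd (hd : 1 ≤ d) {H : ℝ≥0} (hH : ∀ᵐ t ∂ρ, t ≤ H) {Φ Ψ : Prof d → ℝ≥0∞}
    {f : Prof d} (h : ∀ g, mass g ≤ H * mass f → Φ g ≤ Ψ g) : T ρ Φ f ≤ T ρ Ψ f := by
  refine lintegral_mono_ae ((ae_lay_le hH).mono fun ξ hξ => h _ ?_)
  rw [mass_step, ← mass_avg hd f, mass, ← ENNReal.tsum_mul_left]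
  refine ENNReal.tsum_le_tsum fun x => ?_
  rw [mul_comm]
  gcongr
  exact hξ x

/-! ### Hitting probabilities -/

theorem hit_le_one (S : Set (Prof d)) (n : ℕ) (f : Prof d) : hit ρ S n f ≤ 1 := by
  induction n generalizing f with
  | zero => unfold hit; split_ifs <;> simp
  | succ n ih =>
    unfold hit
    split_ifs
    · exact le_rfl
    · exact (T_mono ih f).trans (T_const 1 f).le

theorem hit_of_mem {S : Set (Prof d)} (n : ℕ) {f : Prof d} (hf : f ∈ S) : hit ρ S n f = 1 := by
  cases n <;> simp [hit, hf]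

theorem hit_zero_of_not_mem {S : Set (Prof d)} {f : Prof d} (hf : f ∉ S) : hit ρ S 0 f = 0 := by
  simp [hit, hf]

theorem hit_succ_of_not_mem {S : Set (Prof d)} (n : ℕ) {f : Prof d} (hf : f ∉ S) :
    hit ρ S (n + 1) f = T ρ (hit ρ S n) f := by
  simp [hit, hf]

theorem T_hit_le (S : Set (Prof d)) (n : ℕ) (f : Prof d) :
    T ρ (hit ρ S n) f ≤ hit ρ S (n + 1) f := by
  by_cases hf : f ∈ S
  · rw [hit_of_mem _ hf]
    exact (T_mono (hit_le_one S n) f).trans (T_const 1 f).le
  · rw [hit_succ_of_not_mem n hf]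

theorem hit_mono_set {S S' : Set (Prof d)} (h : S ⊆ S') (n : ℕ) (f : Prof d) :
    hit ρ S n f ≤ hit ρ S' n f := by
  induction n generalizing f with
  | zero =>
    by_cases hf : f ∈ S
    · rw [hit_of_mem _ hf, hit_of_mem _ (h hf)]
    · rw [hit_zero_of_not_mem hf]; exact zero_le
  | succ n ih =>
    by_cases hf : f ∈ S
    · rw [hit_of_mem _ hf, hit_of_mem _ (h hf)]
    · rw [hit_succ_of_not_mem n hf]; exact (T_mono ih f).trans (T_hit_le S' n f)

theorem hit_le_succ (S : Set (Prof d)) (n : ℕ) (f : Prof d) :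
    hit ρ S n f ≤ hit ρ S (n + 1) f := by
  induction n generalizing f with
  | zero =>
    by_cases hf : f ∈ S
    · rw [hit_of_mem _ hf, hit_of_mem _ hf]
    · rw [hit_zero_of_not_mem hf]; exact zero_le
  | succ n ih =>
    by_cases hf : f ∈ S
    · rw [hit_of_mem _ hf, hit_of_mem _ hf]
    · rw [hit_succ_of_not_mem _ hf, hit_succ_of_not_mem _ hf]; exact T_mono ih f

theorem hit_mono_time (S : Set (Prof d)) {m n : ℕ} (h : m ≤ n) (f : Prof d) :
    hit ρ S m f ≤ hit ρ S n f :=
  monotone_nat_of_le_succ (f := fun n => hit ρ S n f) (fun n => hit_le_succ S n f) h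

end Pool.Agent.Lib.MP_153faa_pr
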