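import Mathlib
import Pool.Agent.Lib.MP_153faa_pr.Core

set_option autoImplicit false

open MeasureTheory
open scoped ENNReal NNReal

namespace Pool.Agent.Lib.MP_153faa_pr

/-- Jensen for concave powers on a probability space. -/
theorem jensen_concave {X : Type*} [MeasurableSpace X] (μ : Measure X) [IsProbabilityMeasure μ]
    {g : X → ℝ≥0∞} (hg : AEMeasurable g μ) {θ : ℝ} (h0 : 0 < θ) (h1 : θ ≤ 1) :
    ∫⁻ x, g x ^ θ ∂μ ≤ (∫⁻ x, g x ∂μ) ^ θ := by
  have h := ENNReal.lintegral_mul_norm_pow_le (μ := μ) (f := g) (g := fun _ => 1) hg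
    aemeasurable_const (p := θ) (q := 1 - θ) h0.le (by linarith) (by ring)
  simpa using h

/-- Jensen for convex powers on a probability space. -/
theorem jensen_convex {X : Type*} [MeasurableSpace X] (μ : Measure X) [IsProbabilityMeasure μ]
    {g : X → ℝ≥0∞} (hg : AEMeasurable g μ) {q : ℝ} (hq : 1 ≤ q) :
    (∫⁻ x, g x ∂μ) ^ q ≤ ∫⁻ x, g x ^ q ∂μ := by
  have hq0 : 0 < q := by linarith
  have h := jensen_concave μ (g := fun x => g x ^ q) (hg.pow_const q) (θ := q⁻¹)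
    (inv_pos.2 hq0) (inv_le_one_of_one_le₀ hq)
  simp only [ENNReal.rpow_rpow_inv hq0.ne'] at h
  exact (ENNReal.le_rpow_inv_iff hq0).1 h

theorem onea_holder {ι : Type*} [Countable ι] (a b : ι → ℝ≥0∞) {p q : ℝ} (hp : 0 ≤ p)
    (hq : 0 ≤ q) (hpq : p + q = 1) :
    ∑' i, a i ^ p * b i ^ q ≤ (∑' i, a i) ^ p * (∑' i, b i) ^ q := by
  let _ : MeasurableSpace ι := ⊤
  have h := ENNReal.lintegral_mul_norm_pow_le (μ := (Measure.count : Measure ι)) (f := a) (g := b)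
    (measurable_from_top.aemeasurable) (measurable_from_top.aemeasurable) hp hq hpq
  simpa only [lintegral_count] using h

/-- Weighted power mean inequality. -/
theorem tsum_pow_le {ι : Type*} [Countable ι] (w g : ι → ℝ≥0∞) {q : ℝ} (hq : 1 ≤ q) :
    (∑' i, w i * g i) ^ q ≤ (∑' i, w i) ^ (q - 1) * ∑' i, w i * g i ^ q := by
  have hq0 : 0 < q := by linarith
  have hi0 : 0 ≤ q⁻¹ := (inv_pos.2 hq0).le
  have hi1 : 0 ≤ 1 - q⁻¹ := by have := inv_le_one_of_one_le₀ hq; linarith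
  have h := onea_holder (fun i => w i * g i ^ q) w hi0 hi1 (by ring)
  have e : ∀ i, (w i * g i ^ q) ^ q⁻¹ * w i ^ (1 - q⁻¹) = w i * g i := by
    intro i
    rw [ENNReal.mul_rpow_of_nonneg _ _ hi0, ENNReal.rpow_rpow_inv hq0.ne', mul_right_comm,
      ← ENNReal.rpow_add_of_nonneg _ _ hi0 hi1]
    simp
  simp only [e] at h
  refine (ENNReal.rpow_le_rpow h hq0.le).trans (le_of_eq ?_)
  rw [ENNReal.mul_rpow_of_nonneg _ _ hq0.le, ENNReal.rpow_inv_rpow hq0.ne', ← ENNReal.rpow_mul,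
    mul_comm]
  have : (1 - q⁻¹) * q = q - 1 := by field_simp
  rw [this]

/-- Weighted power mean inequality, negative exponent. -/
theorem tsum_neg_pow_le {ι : Type*} [Countable ι] (w g : ι → ℝ≥0∞) {θ : ℝ} (hθ : 0 < θ)
    (h0 : ∑' i, w i ≠ 0) (ht : ∑' i, w i ≠ ⊤) :
    (∑' i, w i * g i) ^ (-θ) ≤ (∑' i, w i) ^ (-θ - 1) * ∑' i, w i * g i ^ (-θ) := by
  have hW0 : (∑' i, w i) ^ (-θ - 1) ≠ 0 := by
    simp [ENNReal.rpow_eq_zero_iff, h0, ht]
  by_cases hS : ∑' i, w i * g i = ⊤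
  · rw [hS, ENNReal.top_rpow_of_neg (by linarith)]; exact zero_le
  by_cases hR : ∑' i, w i * g i ^ (-θ) = ⊤
  · rw [hR, ENNReal.mul_top hW0]; exact le_top
  have h1 : 0 < 1 + θ := by linarith
  have hp : 0 ≤ (1 + θ)⁻¹ := (inv_pos.2 h1).le
  have hq : 0 ≤ θ * (1 + θ)⁻¹ := mul_nonneg hθ.le hp
  have hpq : (1 + θ)⁻¹ + θ * (1 + θ)⁻¹ = 1 := by field_simp
  have h := onea_holder (fun i => w i * g i ^ (-θ)) (fun i => w i * g i) hp hq hpq
  have e : ∀ i, (w i * g i ^ (-θ)) ^ (1 + θ)⁻¹ * (w i * g i) ^ (θ * (1 + θ)⁻¹) = w i := by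
    intro i
    by_cases hw : w i = 0
    · simp [hw, ENNReal.zero_rpow_of_pos (inv_pos.2 h1)]
    have hg0 : g i ≠ 0 := by
      intro hg
      apply hR
      refine top_le_iff.1 (le_trans ?_ (ENNReal.le_tsum i))
      rw [hg, ENNReal.zero_rpow_of_neg (by linarith), ENNReal.mul_top hw]
    have hgt : g i ≠ ⊤ := by
      intro hg
      apply hS
      refine top_le_iff.1 (le_trans ?_ (ENNReal.le_tsum i))
      rw [hg, ENNReal.mul_top hw]
    rw [ENNReal.mul_rpow_of_nonneg _ _ hp, ENNReal.mul_rpow_of_nonneg _ _ hq, mul_mul_mul_comm,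
      ← ENNReal.rpow_add_of_nonneg _ _ hp hq, hpq, ← ENNReal.rpow_mul,
      ← ENNReal.rpow_add _ _ hg0 hgt]
    have : -θ * (1 + θ)⁻¹ + θ * (1 + θ)⁻¹ = 0 := by ring
    rw [this]; simp
  simp only [e] at h
  have h2 := ENNReal.rpow_le_rpow h h1.le
  rw [ENNReal.mul_rpow_of_nonneg _ _ h1.le, ENNReal.rpow_inv_rpow h1.ne', ← ENNReal.rpow_mul] at h2
  have e2 : θ * (1 + θ)⁻¹ * (1 + θ) = θ := by field_simp
  rw [e2] at h2
  have hS0 : ∑' i, w i * g i ≠ 0 := by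
    intro hz
    rw [hz, ENNReal.zero_rpow_of_pos hθ, mul_zero] at h2
    have := le_antisymm h2 zero_le
    simp [ENNReal.rpow_eq_zero_iff, h0, ht] at this
  calc (∑' i, w i * g i) ^ (-θ)
      = (∑' i, w i) ^ (-θ - 1) * (∑' i, w i) ^ (1 + θ) * (∑' i, w i * g i) ^ (-θ) := by
        rw [← ENNReal.rpow_add _ _ h0 ht]
        have : -θ - 1 + (1 + θ) = 0 := by ring
        rw [this]; simp
    _ ≤ (∑' i, w i) ^ (-θ - 1) * ((∑' i, w i * g i ^ (-θ)) * (∑' i, w i * g i) ^ θ) *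
          (∑' i, w i * g i) ^ (-θ) := by gcongr
    _ = (∑' i, w i) ^ (-θ - 1) * ∑' i, w i * g i ^ (-θ) := by
        rw [mul_assoc, mul_assoc, ← ENNReal.rpow_add _ _ hS0 hS]
        simp

/-- Subadditivity of concave powers. -/
theorem tsum_rpow_le {ι : Type*} [Countable ι] (g : ι → ℝ≥0∞) {θ : ℝ} (h0 : 0 < θ)
    (h1 : θ ≤ 1) : (∑' i, g i) ^ θ ≤ ∑' i, g i ^ θ := by
  classical
  have fin : ∀ s : Finset ι, (∑ i ∈ s, g i) ^ θ ≤ ∑ i ∈ s, g i ^ θ := by
    intro s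
    induction s using Finset.induction_on with
    | empty => simp [ENNReal.zero_rpow_of_pos h0]
    | insert a s ha ih =>
      rw [Finset.sum_insert ha, Finset.sum_insert ha]
      exact (ENNReal.rpow_add_le_add_rpow _ _ h0.le h1).trans (by gcongr)
  rw [← ENNReal.le_rpow_inv_iff h0, ENNReal.tsum_eq_iSup_sum]
  refine iSup_le fun s => ?_
  rw [ENNReal.le_rpow_inv_iff h0]
  exact (fin s).trans (ENNReal.sum_le_tsum s)

/-- Concave power mean over a finite support. -/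
theorem tsum_rpow_le_card {ι : Type*} [Countable ι] (g : ι → ℝ≥0∞) (S : Finset ι)
    (hS : ∀ i, i ∉ S → g i = 0) {θ : ℝ} (h0 : 0 < θ) (h1 : θ ≤ 1) :
    ∑' i, g i ^ θ ≤ (S.card : ℝ≥0∞) ^ (1 - θ) * (∑' i, g i) ^ θ := by
  classical
  have h := onea_holder g (fun i => if i ∈ S then 1 else 0) h0.le (q := 1 - θ) (by linarith)
    (by ring)
  have e : ∑' i, (if i ∈ S then (1 : ℝ≥0∞) else 0) = S.card := by
    rw [tsum_eq_sum (s := S) (fun i hi => if_neg hi)]
    rw [Finset.sum_congr rfl (fun i hi => if_pos hi)]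
    simp
  rw [e, mul_comm] at h
  refine le_trans (ENNReal.tsum_le_tsum fun i => ?_) h
  by_cases hi : i ∈ S
  · simp [hi]
  · simp [hS i hi, ENNReal.zero_rpow_of_pos h0]

/-- Minkowski integral inequality. -/
theorem minkowski {X Y : Type*} [MeasurableSpace X] [MeasurableSpace Y] (μ : Measure X)
    (κ : Measure Y) [IsProbabilityMeasure μ] [IsProbabilityMeasure κ] {G : X → Y → ℝ≥0∞}
    (hG : Measurable (Function.uncurry G)) {r : ℝ} (hr : 1 ≤ r) :
    ∫⁻ x, (∫⁻ y, G x y ∂κ) ^ r ∂μ ≤ (∫⁻ y, (∫⁻ x, G x y ^ r ∂μ) ^ (1 / r) ∂κ) ^ r := by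
  have hr0 : 0 < r := by linarith
  have hi0 : 0 ≤ r⁻¹ := (inv_pos.2 hr0).le
  have hi1 : 0 ≤ 1 - r⁻¹ := by have := inv_le_one_of_one_le₀ hr; linarith
  set H : X → ℝ≥0∞ := fun x => ∫⁻ y, G x y ∂κ with hH
  have hHm : Measurable H := hG.lintegral_prod_right
  set B : ℝ≥0∞ := ∫⁻ y, (∫⁻ x, G x y ^ r ∂μ) ^ (1 / r) ∂κ with hB
  have key : ∀ n : ℕ, ∫⁻ x, (min (H x) n) ^ r ∂μ ≤ B ^ r := by
    intro n
    set Hn : X → ℝ≥0∞ := fun x => min (H x) n with hHn
    have hHnm : Measurable Hn := hHm.min measurable_const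
    set I : ℝ≥0∞ := ∫⁻ x, Hn x ^ r ∂μ with hI
    have hIt : I ≠ ⊤ := by
      have : I ≤ ∫⁻ _ : X, (n : ℝ≥0∞) ^ r ∂μ :=
        lintegral_mono fun x => ENNReal.rpow_le_rpow (min_le_right _ _) hr0.le
      refine ne_top_of_le_ne_top ?_ this
      rw [lintegral_const, measure_univ, mul_one]
      exact ENNReal.rpow_ne_top_of_nonneg hr0.le (ENNReal.natCast_ne_top n)
    by_cases hI0 : I = 0
    · rw [hI0]; exact zero_le
    have h1 : I ≤ I ^ (1 - r⁻¹) * B := by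
      calc I ≤ ∫⁻ x, ∫⁻ y, Hn x ^ (r - 1) * G x y ∂κ ∂μ := by
            refine lintegral_mono fun x => ?_
            have hx : Measurable (G x) := hG.of_uncurry_left
            show Hn x ^ r ≤ _
            rw [lintegral_const_mul _ hx]
            calc Hn x ^ r = Hn x ^ (r - 1) * Hn x := by
                  conv_lhs => rw [show r = (r - 1) + 1 by ring]
                  rw [ENNReal.rpow_add_of_nonneg _ _ (by linarith) zero_le_one, ENNReal.rpow_one]
              _ ≤ Hn x ^ (r - 1) * H x := by gcongr; exact min_le_left _ _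
        _ = ∫⁻ y, ∫⁻ x, Hn x ^ (r - 1) * G x y ∂μ ∂κ := by
            refine lintegral_lintegral_swap (Measurable.aemeasurable ?_)
            exact ((hHnm.comp measurable_fst).pow_const _).mul hG
        _ ≤ ∫⁻ y, I ^ (1 - r⁻¹) * (∫⁻ x, G x y ^ r ∂μ) ^ (1 / r) ∂κ := by
            refine lintegral_mono fun y => ?_
            have hy : Measurable fun x => G x y := hG.of_uncurry_right
            have h := ENNReal.lintegral_mul_norm_pow_le (μ := μ) (f := fun x => Hn x ^ r)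
              (g := fun x => G x y ^ r) (hHnm.pow_const r).aemeasurable
              (hy.pow_const r).aemeasurable hi1 hi0 (by ring)
            have e : r * (1 - r⁻¹) = r - 1 := by field_simp
            simp only [ENNReal.rpow_rpow_inv hr0.ne', ← ENNReal.rpow_mul, e] at h
            rw [one_div]
            exact h
        _ = I ^ (1 - r⁻¹) * B := by
            rw [lintegral_const_mul]
            refine Measurable.pow_const ?_ _
            have : Measurable (Function.uncurry fun x y => G x y ^ r) := hG.pow_const r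
            exact this.lintegral_prod_left
    have h2 : I ^ r⁻¹ ≤ B := by
      have hp0 : I ^ (1 - r⁻¹) ≠ 0 := by simp [ENNReal.rpow_eq_zero_iff, hI0, hIt]
      have hpt : I ^ (1 - r⁻¹) ≠ ⊤ := by simp [ENNReal.rpow_eq_top_iff, hI0, hIt]
      refine (ENNReal.mul_le_mul_iff_right hp0 hpt).1 ?_
      rw [← ENNReal.rpow_add_of_nonneg _ _ hi1 hi0]
      simpa using h1
    exact (ENNReal.rpow_inv_le_iff hr0).1 h2
  have hsup : ∀ x, H x ^ r = ⨆ n : ℕ, (min (H x) n) ^ r := by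
    intro x
    refine le_antisymm ?_ (iSup_le fun n => ENNReal.rpow_le_rpow (min_le_left _ _) hr0.le)
    rw [← ENNReal.le_rpow_inv_iff hr0]
    have : H x = ⨆ n : ℕ, min (H x) n := by
      rw [← inf_iSup_eq (H x) (fun n : ℕ => (n : ℝ≥0∞)), ENNReal.iSup_natCast]; simp
    rw [this]
    refine iSup_le fun n => ?_
    rw [ENNReal.le_rpow_inv_iff hr0, ← this]
    exact le_iSup (fun n : ℕ => (min (H x) n) ^ r) n
  calc ∫⁻ x, H x ^ r ∂μ = ∫⁻ x, ⨆ n : ℕ, (min (H x) n) ^ r ∂μ := by simp only [← hsup]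
    _ = ⨆ n : ℕ, ∫⁻ x, (min (H x) n) ^ r ∂μ := by
        refine lintegral_iSup (fun n => (hHm.min measurable_const).pow_const r) ?_
        intro m n hmn x
        exact ENNReal.rpow_le_rpow (min_le_min le_rfl (by exact_mod_cast hmn)) hr0.le
    _ ≤ B ^ r := iSup_le key

theorem one_le_mom_two {ρ : Measure ℝ≥0} [IsProbabilityMeasure ρ] (h1 : Mean1 ρ) :
    1 ≤ mom ρ 2 := by
  have h := jensen_convex ρ (g := fun t : ℝ≥0 => (t : ℝ≥0∞))
    measurable_coe_nnreal_ennreal.aemeasurable (q := 2) (by norm_num)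
  unfold Mean1 at h1
  rw [h1, ENNReal.one_rpow] at h
  exact h

/-- Lower moments from the fifth one. -/
theorem mom_two_le {ρ : Measure ℝ≥0} [IsProbabilityMeasure ρ] {K : ℝ} (hK : 1 ≤ K)
    (h5 : mom ρ 5 ≤ ENNReal.ofReal K) : mom ρ 2 ≤ ENNReal.ofReal (2 * K) := by
  have h : mom ρ 2 ≤ 1 + mom ρ 5 := by
    unfold mom
    calc ∫⁻ t, (t : ℝ≥0∞) ^ (2 : ℝ) ∂ρ ≤ ∫⁻ t, 1 + (t : ℝ≥0∞) ^ (5 : ℝ) ∂ρ := by
          refine lintegral_mono fun t => ?_
          rcases le_total (t : ℝ≥0∞) 1 with ht | ht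
          · exact (ENNReal.rpow_le_one ht (by norm_num)).trans le_self_add
          · exact (ENNReal.rpow_le_rpow_of_exponent_le ht (by norm_num)).trans le_add_self
      _ = 1 + ∫⁻ t, (t : ℝ≥0∞) ^ (5 : ℝ) ∂ρ := by
          rw [lintegral_add_left measurable_const]; simp
  refine h.trans ?_
  rw [two_mul, ENNReal.ofReal_add (by linarith) (by linarith)]
  exact add_le_add (ENNReal.one_le_ofReal.2 hK) h5

theorem onea_mom (ρ : Measure ℝ≥0) (n : ℕ) (h : mom ρ n ≠ ⊤) :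
    Integrable (fun t : ℝ≥0 => (t : ℝ) ^ n) ρ ∧ ∫ t, (t : ℝ) ^ n ∂ρ = (mom ρ n).toReal := by
  have e : mom ρ n = ∫⁻ t : ℝ≥0, ENNReal.ofReal ((t : ℝ) ^ n) ∂ρ := by
    unfold mom
    refine lintegral_congr fun t => ?_
    rw [ENNReal.rpow_natCast, ENNReal.ofReal_pow t.coe_nonneg, ENNReal.ofReal_coe_nnreal]
  have hm : AEStronglyMeasurable (fun t : ℝ≥0 => (t : ℝ) ^ n) ρ :=
    (measurable_coe_nnreal_real.pow_const n).aestronglyMeasurable
  have hn : 0 ≤ᵐ[ρ] fun t : ℝ≥0 => (t : ℝ) ^ n :=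
    Filter.Eventually.of_forall fun t => pow_nonneg t.coe_nonneg n
  refine ⟨(lintegral_ofReal_ne_top_iff_integrable hm hn).1 (e ▸ h), ?_⟩
  rw [integral_eq_lintegral_of_nonneg_ae hn hm, e]

theorem onea_mean {ρ : Measure ℝ≥0} (h1 : Mean1 ρ) :
    Integrable (fun t : ℝ≥0 => (t : ℝ)) ρ ∧ ∫ t, (t : ℝ) ∂ρ = 1 := by
  have e : mom ρ (1 : ℕ) = 1 := by
    unfold mom; unfold Mean1 at h1; simpa using h1
  have h := onea_mom ρ 1 (by rw [e]; exact ENNReal.one_ne_top)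
  rw [e] at h
  simpa using h

theorem onea_ofReal_integral_le {X : Type*} [MeasurableSpace X] {μ : Measure X} {f : X → ℝ}
    (hf : Integrable f μ) : ENNReal.ofReal (∫ x, f x ∂μ) ≤ ∫⁻ x, ENNReal.ofReal (f x) ∂μ := by
  have h1 : ∫ x, f x ∂μ ≤ ∫ x, max (f x) 0 ∂μ :=
    integral_mono hf hf.pos_part fun x => le_max_left _ _
  refine (ENNReal.ofReal_le_ofReal h1).trans (le_of_eq ?_)
  rw [ofReal_integral_eq_lintegral_ofReal hf.pos_part
    (Filter.Eventually.of_forall fun x => le_max_right _ _)]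
  refine lintegral_congr fun x => ?_
  rcases le_total (f x) 0 with h | h
  · rw [max_eq_right h, ENNReal.ofReal_of_nonpos h, ENNReal.ofReal_zero]
  · rw [max_eq_left h]

theorem onea_upper {u q : ℝ} (hu : -1 ≤ u) (hq1 : 1 ≤ q) (hq2 : q ≤ 2) :
    (1 + u) ^ q ≤ 1 + q * u + 4 * |u| ^ q := by
  have h0 : 0 ≤ 1 + u := by linarith
  have hq : 0 ≤ |u| ^ q := Real.rpow_nonneg (abs_nonneg u) q
  rcases le_total u 1 with h | h
  · have hw := Real.geom_mean_le_arith_mean2_weighted (w₁ := q - 1) (w₂ := 2 - q)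
      (p₁ := (1 + u) ^ (2 : ℝ)) (p₂ := 1 + u) (by linarith) (by linarith)
      (Real.rpow_nonneg h0 _) h0 (by ring)
    rw [← Real.rpow_mul h0, ← Real.rpow_add_of_nonneg h0 (by linarith) (by linarith)] at hw
    have e : 2 * (q - 1) + (2 - q) = q := by ring
    rw [e, Real.rpow_two] at hw
    have h2 : |u| ^ (2 : ℝ) ≤ |u| ^ q :=
      Real.rpow_le_rpow_of_exponent_ge' (abs_nonneg u) (abs_le.2 ⟨hu, h⟩) (by linarith) hq2
    rw [Real.rpow_two, sq_abs] at h2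
    nlinarith [sq_nonneg u]
  · have h1 : (1 + u) ^ q ≤ (2 * u) ^ q := Real.rpow_le_rpow h0 (by linarith) (by linarith)
    rw [Real.mul_rpow (by norm_num) (by linarith)] at h1
    have h2 : (2 : ℝ) ^ q ≤ 2 ^ (2 : ℝ) := Real.rpow_le_rpow_of_exponent_le (by norm_num) hq2
    rw [Real.rpow_two] at h2
    rw [abs_of_nonneg (by linarith : 0 ≤ u)] at hq ⊢
    have h3 : 0 ≤ q * u := mul_nonneg (by linarith) (by linarith)
    nlinarith

theorem onea_abs {t q : ℝ} (ht : 0 ≤ t) (hq1 : 1 ≤ q) (hq2 : q ≤ 2) :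
    |t - 1| ^ q ≤ 1 + t ^ 2 := by
  rcases le_total |t - 1| 1 with h | h
  · have := Real.rpow_le_one (abs_nonneg _) h (by linarith : 0 ≤ q)
    nlinarith [sq_nonneg t]
  · have := Real.rpow_le_rpow_of_exponent_le h hq2
    rw [Real.rpow_two, sq_abs] at this
    nlinarith

theorem onea_lower {x q : ℝ} (hx : 0 ≤ x) (hq1 : 1 ≤ q) :
    1 + q * (x - 1) + (q - 1) * (√x - 1) ^ 2 ≤ x ^ q := by
  have hd : 0 < 2 * q - 1 := by linarith
  have hw := Real.geom_mean_le_arith_mean2_weighted (w₁ := 1 / (2 * q - 1))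
    (w₂ := 2 * (q - 1) / (2 * q - 1)) (p₁ := x ^ q) (p₂ := x ^ (1 / 2 : ℝ)) (by positivity)
    (div_nonneg (by linarith) hd.le) (Real.rpow_nonneg hx _) (Real.rpow_nonneg hx _)
    (by field_simp; ring)
  rw [← Real.rpow_mul hx, ← Real.rpow_mul hx, ← Real.rpow_add_of_nonneg hx (by positivity)
    (mul_nonneg (by norm_num) (div_nonneg (by linarith) hd.le))] at hw
  have e : q * (1 / (2 * q - 1)) + 1 / 2 * (2 * (q - 1) / (2 * q - 1)) = 1 := by
    have hi : (2 * q - 1) * (2 * q - 1)⁻¹ = 1 := mul_inv_cancel₀ hd.ne'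
    rw [div_eq_mul_inv 1 (2 * q - 1), div_eq_mul_inv (2 * (q - 1))]
    linear_combination hi
  rw [e, Real.rpow_one, ← Real.sqrt_eq_rpow] at hw
  have h2 : (2 * q - 1) * x ≤ x ^ q + 2 * (q - 1) * √x := by
    have := mul_le_mul_of_nonneg_left hw hd.le
    have e2 : (2 * q - 1) * (1 / (2 * q - 1) * x ^ q + 2 * (q - 1) / (2 * q - 1) * √x) =
        x ^ q + 2 * (q - 1) * √x := by field_simp
    rwa [e2] at this
  have hs : √x ^ 2 = x := Real.sq_sqrt hx
  nlinarith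

theorem onea_sq {s t a : ℝ} (hs0 : 0 ≤ s) (hs1 : s ≤ 1) (ht : 0 ≤ t) :
    s ^ 2 / 2 * (2 * a * (t - 1) ^ 2 - a ^ 2 * (t ^ 5 + 3)) ≤ (√(1 + s * (t - 1)) - 1) ^ 2 := by
  have hx : 0 ≤ 1 + s * (t - 1) := by nlinarith [mul_nonneg hs0 ht]
  set y := √(1 + s * (t - 1)) with hy
  have hs : y ^ 2 = 1 + s * (t - 1) := Real.sq_sqrt hx
  have hY : 0 < 2 + t := by linarith
  have h1 : (y + 1) ^ 2 ≤ 2 * (2 + t) := by
    have : s * (t - 1) ≤ t := by nlinarith
    nlinarith [sq_nonneg (y - 1)]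
  have h2 : s ^ 2 * (t - 1) ^ 2 ≤ (y - 1) ^ 2 * (2 * (2 + t)) := by
    have e : s ^ 2 * (t - 1) ^ 2 = (y - 1) ^ 2 * (y + 1) ^ 2 := by
      have : s * (t - 1) = (y - 1) * (y + 1) := by nlinarith
      rw [← mul_pow, this, mul_pow]
    rw [e]
    exact mul_le_mul_of_nonneg_left h1 (sq_nonneg _)
  have h3 : (t - 1) ^ 2 * (2 + t) ≤ t ^ 5 + 3 := by
    have : t ^ 3 ≤ t ^ 5 + 1 := by
      rcases le_total t 1 with h | h
      · have := pow_le_one₀ (n := 3) ht h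
        have := pow_nonneg ht 5
        linarith
      · have := pow_le_pow_right₀ h (by norm_num : 3 ≤ 5)
        linarith
    nlinarith
  have h4 : s ^ 2 * (t - 1) ^ 2 / 2 * (2 * a - a ^ 2 * (2 + t)) ≤ (y - 1) ^ 2 := by
    refine le_of_mul_le_mul_right ?_ hY
    have h5 : (2 * a - a ^ 2 * (2 + t)) * (2 + t) ≤ 1 := by
      nlinarith [sq_nonneg (a * (2 + t) - 1)]
    have h6 : 0 ≤ s ^ 2 * (t - 1) ^ 2 / 2 := by positivity
    have h7 := mul_le_mul_of_nonneg_left h5 h6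
    nlinarith
  have h8 := mul_le_mul_of_nonneg_left h3 (show 0 ≤ s ^ 2 / 2 * a ^ 2 by positivity)
  nlinarith

theorem onea_scale (a c t : ℝ≥0) (hS : 0 < (a : ℝ) + c) {q : ℝ} (hq : 0 ≤ q) :
    ((a : ℝ≥0∞) + c * t) ^ q =
      ENNReal.ofReal (((a : ℝ) + c) ^ q * (1 + c / (a + c) * (t - 1)) ^ q) := by
  have e : ((a : ℝ) + c) * (1 + c / (a + c) * (t - 1)) = a + c * t := by field_simp; ring
  have hx : 0 ≤ 1 + (c : ℝ) / (a + c) * (t - 1) := by
    refine le_of_mul_le_mul_left ?_ hS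
    rw [e, mul_zero]; positivity
  rw [← Real.mul_rpow hS.le hx, e, ← ENNReal.ofReal_rpow_of_nonneg (by positivity) hq]
  congr 1
  rw [ENNReal.ofReal_add a.coe_nonneg (by positivity), ENNReal.ofReal_mul c.coe_nonneg]
  simp

theorem onea_poly {ρ : Measure ℝ≥0} [IsProbabilityMeasure ρ] {f g h : ℝ≥0 → ℝ}
    (hf : Integrable f ρ) (hg : Integrable g ρ) (hh : Integrable h ρ) (α β γ δ : ℝ) :
    ∫ t, (α + β * f t + γ * g t + δ * h t) ∂ρ =
      α + β * ∫ t, f t ∂ρ + γ * ∫ t, g t ∂ρ + δ * ∫ t, h t ∂ρ := by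
  have j0 : Integrable (fun _ : ℝ≥0 => α) ρ := integrable_const _
  have j1 : Integrable (fun t : ℝ≥0 => β * f t) ρ := hf.const_mul _
  have j2 : Integrable (fun t : ℝ≥0 => γ * g t) ρ := hg.const_mul _
  have j3 : Integrable (fun t : ℝ≥0 => δ * h t) ρ := hh.const_mul _
  have k1 : Integrable (fun t : ℝ≥0 => α + β * f t) ρ := j0.add j1
  have k2 : Integrable (fun t : ℝ≥0 => α + β * f t + γ * g t) ρ := k1.add j2
  rw [integral_add k2 j3, integral_add k1 j2, integral_add j0 j1, integral_const_mul,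
    integral_const_mul, integral_const_mul]
  simp

/-- One-site upper bound for moments of order between one and two. -/
theorem l1_site {ρ : Measure ℝ≥0} [IsProbabilityMeasure ρ] (h1 : Mean1 ρ) {K : ℝ≥0∞}
    (hK : mom ρ 2 ≤ K) {q : ℝ} (hq1 : 1 ≤ q) (hq2 : q ≤ 2) (A c : ℝ≥0∞) :
    ∫⁻ t, (A + c * t) ^ q ∂ρ ≤ (A + c) ^ q + 8 * K * c ^ q := by
  have hq0 : 0 < q := by linarith
  by_cases hA : A = ⊤
  · simp [hA, ENNReal.top_rpow_of_pos hq0]
  by_cases hc : c = ⊤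
  · simp [hc, ENNReal.top_rpow_of_pos hq0]
  by_cases hc0 : c = 0
  · simp [hc0]
  by_cases hKt : K = ⊤
  · have : c ^ q ≠ 0 := by simp [ENNReal.rpow_eq_zero_iff, hc, hc0]
    rw [hKt, ENNReal.mul_top (by norm_num), ENNReal.top_mul this]
    simp
  lift A to ℝ≥0 using hA
  lift c to ℝ≥0 using hc
  have hcp : 0 < (c : ℝ) := by
    have : c ≠ 0 := fun h => hc0 (by simp [h])
    positivity
  have hS : 0 < (A : ℝ) + c := by positivity
  have hm2 : mom ρ (2 : ℕ) ≠ ⊤ := by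
    rw [Nat.cast_ofNat]; exact ne_top_of_le_ne_top hKt hK
  obtain ⟨i2, e2⟩ := onea_mom ρ 2 hm2
  rw [Nat.cast_ofNat] at e2 hm2
  obtain ⟨i1, e1⟩ := onea_mean h1
  set S : ℝ := (A : ℝ) + c with hSd
  set s : ℝ := (c : ℝ) / S with hsd
  have hs0 : 0 ≤ s := by positivity
  have hs1 : s ≤ 1 := by rw [hsd, div_le_one hS, hSd]; linarith [A.coe_nonneg]
  have hSq : 0 ≤ S ^ q := Real.rpow_nonneg hS.le q
  have hsq : 0 ≤ s ^ q := Real.rpow_nonneg hs0 q
  set F : ℝ≥0 → ℝ := fun t => S ^ q * (1 - q * s + 4 * s ^ q) + S ^ q * (q * s) * t +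
    S ^ q * (4 * s ^ q) * (t : ℝ) ^ 2 with hF
  have hpt : ∀ t : ℝ≥0, S ^ q * (1 + s * (t - 1)) ^ q ≤ F t := by
    intro t
    have hu : -1 ≤ s * (t - 1) := by nlinarith [mul_nonneg hs0 t.coe_nonneg]
    have h := onea_upper hu hq1 hq2
    rw [abs_mul, abs_of_nonneg hs0, Real.mul_rpow hs0 (abs_nonneg _)] at h
    have h2 := mul_le_mul_of_nonneg_left (onea_abs t.coe_nonneg hq1 hq2) hsq
    have h3 : (1 + s * (t - 1)) ^ q ≤ 1 + q * (s * (t - 1)) + 4 * (s ^ q * (1 + (t : ℝ) ^ 2)) := by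
      linarith
    have h4 := mul_le_mul_of_nonneg_left h3 hSq
    simp only [hF]
    linarith
  have hFi : Integrable F ρ :=
    ((integrable_const _).add (i1.const_mul _)).add (i2.const_mul _)
  have hF0 : 0 ≤ᵐ[ρ] F := Filter.Eventually.of_forall fun t => by
    refine le_trans (mul_nonneg hSq (Real.rpow_nonneg ?_ q)) (hpt t)
    nlinarith [mul_nonneg hs0 t.coe_nonneg]
  have hFe : ∫ t, F t ∂ρ = S ^ q + 4 * (c : ℝ) ^ q * (1 + (mom ρ 2).toReal) := by
    have hp := onea_poly i1 i2 i2 (S ^ q * (1 - q * s + 4 * s ^ q)) (S ^ q * (q * s))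
      (S ^ q * (4 * s ^ q)) 0
    simp only [zero_mul, add_zero] at hp
    simp only [hF]
    rw [hp, e1, e2]
    have : (c : ℝ) ^ q = S ^ q * s ^ q := by
      rw [← Real.mul_rpow hS.le hs0, hsd, mul_div_cancel₀ _ hS.ne']
    rw [this]
    ring
  have hm1 : 1 ≤ (mom ρ 2).toReal := by
    have := ENNReal.toReal_mono hm2 (one_le_mom_two h1)
    simpa using this
  have hmK : (mom ρ 2).toReal ≤ K.toReal := ENNReal.toReal_mono hKt hK
  have hcq : 0 ≤ (c : ℝ) ^ q := Real.rpow_nonneg c.coe_nonneg q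
  calc ∫⁻ t, ((A : ℝ≥0∞) + c * t) ^ q ∂ρ ≤ ∫⁻ t, ENNReal.ofReal (F t) ∂ρ := by
        refine lintegral_mono fun t => ?_
        rw [onea_scale A c t hS hq0.le]
        exact ENNReal.ofReal_le_ofReal (hpt t)
    _ = ENNReal.ofReal (S ^ q + 4 * (c : ℝ) ^ q * (1 + (mom ρ 2).toReal)) := by
        rw [← ofReal_integral_eq_lintegral_ofReal hFi hF0, hFe]
    _ ≤ ENNReal.ofReal (S ^ q + 8 * K.toReal * (c : ℝ) ^ q) :=
        ENNReal.ofReal_le_ofReal (by nlinarith)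
    _ = ((A : ℝ≥0∞) + c) ^ q + 8 * K * (c : ℝ≥0∞) ^ q := by
        rw [ENNReal.ofReal_add hSq (by positivity), ENNReal.ofReal_mul (by positivity),
          ENNReal.ofReal_mul (by norm_num), ENNReal.ofReal_toReal hKt,
          ← ENNReal.ofReal_rpow_of_nonneg hS.le hq0.le,
          ← ENNReal.ofReal_rpow_of_nonneg c.coe_nonneg hq0.le, hSd, ENNReal.ofReal_add A.coe_nonneg c.coe_nonneg]
        simp

/-- One-site strict convexity. -/
theorem strict_site {ρ : Measure ℝ≥0} [IsProbabilityMeasure ρ] (h1 : Mean1 ρ) {K c₀ : ℝ}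
    (hK : 1 ≤ K) (hc₀ : 0 < c₀) (h5 : mom ρ 5 ≤ ENNReal.ofReal K)
    (hv : 1 + ENNReal.ofReal c₀ ≤ mom ρ 2) {q : ℝ} (hq1 : 1 ≤ q) (hq2 : q ≤ 2) :
    Strict ρ q (ENNReal.ofReal ((q - 1) * c₀ ^ 2 / (8 * K))) := by
  intro A c
  have hq0 : 0 < q := by linarith
  by_cases htop : A + c = ⊤
  · have hm : Measurable fun t : ℝ≥0 => c * (t : ℝ≥0∞) :=
      measurable_coe_nnreal_ennreal.const_mul c
    have h := jensen_convex ρ (g := fun t : ℝ≥0 => A + c * t)
      (measurable_const.add hm).aemeasurable hq1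
    unfold Mean1 at h1
    rw [lintegral_add_left measurable_const, lintegral_const_mul _ measurable_coe_nnreal_ennreal,
      h1, lintegral_const, measure_univ, mul_one, mul_one, htop,
      ENNReal.top_rpow_of_pos hq0] at h
    rw [top_le_iff.1 h, ENNReal.mul_top]
    · exact le_top
    · rw [htop]; simp [ENNReal.rpow_eq_zero_iff, hq2]
  by_cases hz : A + c = 0
  · have hc : c = 0 := (add_eq_zero.1 hz).2
    rw [hz, hc]; simp
  obtain ⟨hA, hc⟩ := ENNReal.add_ne_top.1 htop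
  lift A to ℝ≥0 using hA
  lift c to ℝ≥0 using hc
  have hS : 0 < (A : ℝ) + c := by
    have : A + c ≠ 0 := fun h => hz (by rw [← ENNReal.coe_add, h]; simp)
    have h' : 0 < A + c := pos_iff_ne_zero.2 this
    exact_mod_cast h'
  have hm5 : mom ρ (5 : ℕ) ≠ ⊤ := by
    rw [Nat.cast_ofNat]; exact ne_top_of_le_ne_top ENNReal.ofReal_ne_top h5
  have hm2 : mom ρ (2 : ℕ) ≠ ⊤ := by
    rw [Nat.cast_ofNat]; exact ne_top_of_le_ne_top ENNReal.ofReal_ne_top (mom_two_le hK h5)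
  obtain ⟨i2, e2⟩ := onea_mom ρ 2 hm2
  obtain ⟨i5, e5⟩ := onea_mom ρ 5 hm5
  rw [Nat.cast_ofNat] at e2 hm2 e5 hm5
  obtain ⟨i1, e1⟩ := onea_mean h1
  set S : ℝ := (A : ℝ) + c with hSd
  set s : ℝ := (c : ℝ) / S with hsd
  set a : ℝ := c₀ / (4 * K) with had
  have hs0 : 0 ≤ s := by positivity
  have hs1 : s ≤ 1 := by rw [hsd, div_le_one hS, hSd]; linarith [A.coe_nonneg]
  have hSq : 0 ≤ S ^ q := Real.rpow_nonneg hS.le q
  set b : ℝ := (q - 1) * (s ^ 2 / 2) with hb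
  have hb0 : 0 ≤ b := mul_nonneg (by linarith) (by positivity)
  set F : ℝ≥0 → ℝ := fun t => S ^ q * (1 - q * s + b * (2 * a - 3 * a ^ 2)) +
    S ^ q * (q * s - 4 * a * b) * t + S ^ q * (2 * a * b) * (t : ℝ) ^ 2 +
    S ^ q * (-(a ^ 2 * b)) * (t : ℝ) ^ 5 with hF
  have hpt : ∀ t : ℝ≥0, F t ≤ S ^ q * (1 + s * (t - 1)) ^ q := by
    intro t
    have hx : 0 ≤ 1 + s * (t - 1) := by nlinarith [mul_nonneg hs0 t.coe_nonneg]
    have h := onea_lower hx hq1
    have h2 := mul_le_mul_of_nonneg_left (onea_sq (a := a) hs0 hs1 t.coe_nonneg)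
      (show 0 ≤ q - 1 by linarith)
    have h3 : 1 + q * (s * (t - 1)) + (q - 1) * (s ^ 2 / 2 * (2 * a * ((t : ℝ) - 1) ^ 2 -
        a ^ 2 * ((t : ℝ) ^ 5 + 3))) ≤ (1 + s * (t - 1)) ^ q := by
      have e : 1 + s * (t - 1) - 1 = s * (t - 1) := by ring
      rw [e] at h
      linarith
    have h4 := mul_le_mul_of_nonneg_left h3 hSq
    refine le_trans (le_of_eq ?_) h4
    simp only [hF, hb]
    ring
  have hFi : Integrable F ρ :=
    (((integrable_const _).add (i1.const_mul _)).add (i2.const_mul _)).add (i5.const_mul _)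
  have hFe : ∫ t, F t ∂ρ = S ^ q * (1 + b * (2 * a * ((mom ρ 2).toReal - 1) -
      a ^ 2 * ((mom ρ 5).toReal + 3))) := by
    simp only [hF]
    rw [onea_poly i1 i2 i5, e1, e2, e5]
    ring
  have hv' : 1 + c₀ ≤ (mom ρ 2).toReal := by
    have := ENNReal.toReal_mono hm2 hv
    rwa [ENNReal.toReal_add ENNReal.one_ne_top ENNReal.ofReal_ne_top, ENNReal.toReal_one,
      ENNReal.toReal_ofReal hc₀.le] at this
  have h5' : (mom ρ 5).toReal ≤ K := by
    have := ENNReal.toReal_mono ENNReal.ofReal_ne_top h5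
    rwa [ENNReal.toReal_ofReal (by linarith)] at this
  have ha0 : 0 ≤ a := by positivity
  have hlow : c₀ ^ 2 / (4 * K) ≤ 2 * a * ((mom ρ 2).toReal - 1) -
      a ^ 2 * ((mom ρ 5).toReal + 3) := by
    have e : c₀ ^ 2 / (4 * K) = 2 * a * c₀ - a ^ 2 * (4 * K) := by
      rw [had]; field_simp; ring
    have g1 := mul_le_mul_of_nonneg_left (show c₀ ≤ (mom ρ 2).toReal - 1 by linarith)
      (show 0 ≤ 2 * a by positivity)
    have g2 := mul_le_mul_of_nonneg_left (show (mom ρ 5).toReal + 3 ≤ 4 * K by linarith)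
      (sq_nonneg a)
    linarith
  have hI : ENNReal.ofReal (S ^ q * (1 + b * (c₀ ^ 2 / (4 * K)))) ≤
      ∫⁻ t, ((A : ℝ≥0∞) + c * t) ^ q ∂ρ := by
    calc _ ≤ ENNReal.ofReal (∫ t, F t ∂ρ) := by
          rw [hFe]
          refine ENNReal.ofReal_le_ofReal (mul_le_mul_of_nonneg_left ?_ hSq)
          have := mul_le_mul_of_nonneg_left hlow hb0
          linarith
      _ ≤ ∫⁻ t, ENNReal.ofReal (F t) ∂ρ := onea_ofReal_integral_le hFi
      _ ≤ _ := by
          refine lintegral_mono fun t => ?_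
          rw [onea_scale A c t hS hq0.le]
          exact ENNReal.ofReal_le_ofReal (hpt t)
  have hSe : (A : ℝ≥0∞) + c = ENNReal.ofReal S := by
    rw [hSd, ENNReal.ofReal_add A.coe_nonneg c.coe_nonneg]; simp
  have hk0 : 0 ≤ (q - 1) * c₀ ^ 2 / (8 * K) :=
    div_nonneg (mul_nonneg (by linarith) (sq_nonneg _)) (by linarith)
  refine le_trans (le_of_eq ?_) (mul_le_mul_right hI _)
  rw [hSe, ENNReal.ofReal_rpow_of_pos hS, ← ENNReal.ofReal_mul (Real.rpow_nonneg hS.le _),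
    ← ENNReal.ofReal_pow hS.le, ← ENNReal.ofReal_coe_nnreal, ← ENNReal.ofReal_pow c.coe_nonneg,
    ← ENNReal.ofReal_mul hk0, ← ENNReal.ofReal_add (sq_nonneg _) (by positivity)]
  congr 1
  rw [← mul_assoc, ← Real.rpow_add hS]
  have e : 2 - q + q = 2 := by ring
  rw [e, Real.rpow_two, hb, hsd]
  have hK0 : K ≠ 0 := by linarith
  field_simp
  ring

end Pool.Agent.Lib.MP_153faa_pr
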