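import Mathlib
import Pool.Agent.Lib.MP_153faa_pr.Basic
import Pool.Agent.Lib.MP_153faa_pr.OneA

/-!
Moment inequalities for linear functionals of one layer of independent weights.
-/

set_option autoImplicit false

open MeasureTheory
open scoped ENNReal NNReal

namespace Pool.Agent.Lib.MP_153faa_pr

variable {d : ℕ} {ρ : Measure ℝ≥0} [IsProbabilityMeasure ρ]

theorem layerl_meas (A : ℝ≥0∞) (c : Site d → ℝ≥0∞) (S : Finset (Site d)) :
    Measurable fun ξ : Layer d => A + ∑ x ∈ S, c x * (ξ x : ℝ≥0∞) :=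
  measurable_const.add (Finset.measurable_sum S fun x _ =>
    ((measurable_pi_apply x).coe_nnreal_ennreal).const_mul _)

theorem layerl_update (A : ℝ≥0∞) (c : Site d → ℝ≥0∞) {S : Finset (Site d)} {a : Site d}
    (ha : a ∉ S) (ξ : Layer d) (t : ℝ≥0) :
    A + ∑ x ∈ insert a S, c x * (Function.update ξ a t x : ℝ≥0∞) =
      A + ∑ x ∈ S, c x * (ξ x : ℝ≥0∞) + c a * t := by
  rw [Finset.sum_insert ha, Function.update_self]
  have : ∑ x ∈ S, c x * (Function.update ξ a t x : ℝ≥0∞) = ∑ x ∈ S, c x * (ξ x : ℝ≥0∞) :=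
    Finset.sum_congr rfl fun x hx => by
      rw [Function.update_of_ne (fun h : x = a => ha (h ▸ hx))]
  rw [this]; ring

theorem lay_le_of_finset {q : ℝ} (hq : 0 < q) (c : Site d → ℝ≥0∞) {B : ℝ≥0∞}
    (h : ∀ S : Finset (Site d), ∫⁻ ξ, (∑ x ∈ S, c x * (ξ x : ℝ≥0∞)) ^ q ∂lay d ρ ≤ B) :
    ∫⁻ ξ, (∑' x, c x * (ξ x : ℝ≥0∞)) ^ q ∂lay d ρ ≤ B := by
  have e : ∀ ξ : Layer d, (∑' x, c x * (ξ x : ℝ≥0∞)) ^ q =
      ⨆ S : Finset (Site d), (∑ x ∈ S, c x * (ξ x : ℝ≥0∞)) ^ q := by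
    intro ξ
    rw [ENNReal.tsum_eq_iSup_sum]
    exact (ENNReal.orderIsoRpow q hq).map_iSup _
  simp only [e]
  rw [lintegral_iSup_directed_of_measurable]
  · exact iSup_le h
  · intro S
    have := (layerl_meas 0 c S).pow_const q
    simpa only [zero_add] using this
  · intro S S'
    refine ⟨S ∪ S', fun ξ => ?_, fun ξ => ?_⟩
    · exact ENNReal.rpow_le_rpow (Finset.sum_le_sum_of_subset Finset.subset_union_left) hq.le
    · exact ENNReal.rpow_le_rpow (Finset.sum_le_sum_of_subset Finset.subset_union_right) hq.le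

theorem layerl_l1_fin (h1 : Mean1 ρ) {K : ℝ≥0∞} (hK : mom ρ 2 ≤ K) {q : ℝ} (hq1 : 1 ≤ q)
    (hq2 : q ≤ 2) (c : Site d → ℝ≥0∞) (S : Finset (Site d)) (A : ℝ≥0∞) :
    ∫⁻ ξ, (A + ∑ x ∈ S, c x * (ξ x : ℝ≥0∞)) ^ q ∂lay d ρ ≤
      (A + ∑ x ∈ S, c x) ^ q + 8 * K * ∑ x ∈ S, c x ^ q := by
  induction S using Finset.induction_on generalizing A with
  | empty => simp
  | insert a S ha ih =>
    rw [lintegral_update' ((layerl_meas A c (insert a S)).pow_const q) a]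
    simp only [layerl_update A c ha]
    calc ∫⁻ ξ, ∫⁻ t : ℝ≥0, (A + ∑ x ∈ S, c x * (ξ x : ℝ≥0∞) + c a * t) ^ q ∂ρ ∂lay d ρ
        ≤ ∫⁻ ξ, ((A + c a + ∑ x ∈ S, c x * (ξ x : ℝ≥0∞)) ^ q + 8 * K * c a ^ q) ∂lay d ρ := by
          refine lintegral_mono fun ξ => ?_
          have := l1_site h1 hK hq1 hq2 (A + ∑ x ∈ S, c x * (ξ x : ℝ≥0∞)) (c a)
          rwa [add_right_comm A _ (c a)] at this
      _ = ∫⁻ ξ, (A + c a + ∑ x ∈ S, c x * (ξ x : ℝ≥0∞)) ^ q ∂lay d ρ + 8 * K * c a ^ q := by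
          rw [lintegral_add_right _ measurable_const]; simp
      _ ≤ (A + c a + ∑ x ∈ S, c x) ^ q + 8 * K * ∑ x ∈ S, c x ^ q + 8 * K * c a ^ q := by
          gcongr; exact ih _
      _ = _ := by
          rw [Finset.sum_insert ha, Finset.sum_insert ha, add_assoc A]; ring

theorem lay_l1 (h1 : Mean1 ρ) {K : ℝ≥0∞} (hK : mom ρ 2 ≤ K) {q : ℝ} (hq1 : 1 ≤ q) (hq2 : q ≤ 2)
    (c : Site d → ℝ≥0∞) :
    ∫⁻ ξ, (∑' x, c x * (ξ x : ℝ≥0∞)) ^ q ∂lay d ρ ≤ (∑' x, c x) ^ q + 8 * K * ∑' x, c x ^ q := by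
  have hq0 : 0 < q := by linarith
  refine lay_le_of_finset hq0 c fun S => ?_
  have h := layerl_l1_fin h1 hK hq1 hq2 c S 0
  simp only [zero_add] at h
  refine h.trans (add_le_add ?_ ?_)
  · exact ENNReal.rpow_le_rpow (ENNReal.sum_le_tsum S) hq0.le
  · exact mul_le_mul_right (ENNReal.sum_le_tsum S) _

theorem layerl_pair (h1 : Mean1 ρ) {χ : ℝ≥0∞} (hχ : mom ρ 2 = 1 + χ) (x y : Site d) :
    ∫⁻ ξ, (ξ x : ℝ≥0∞) * (ξ y : ℝ≥0∞) ∂lay d ρ = 1 + if y = x then χ else 0 := by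
  by_cases h : y = x
  · subst h
    rw [if_pos rfl, ← hχ]
    unfold mom
    rw [← lintegral_coord (d := d) (ρ := ρ) (g := fun t => (t : ℝ≥0∞) ^ (2 : ℝ))
      (measurable_coe_nnreal_ennreal.pow_const _) y]
    refine lintegral_congr fun ξ => ?_
    rw [ENNReal.rpow_two, sq]
  · rw [if_neg h, add_zero, lintegral_update' (F := fun ξ => (ξ x : ℝ≥0∞) * (ξ y : ℝ≥0∞))
      (((measurable_pi_apply x).coe_nnreal_ennreal).mul
        ((measurable_pi_apply y).coe_nnreal_ennreal)) x]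
    simp only [Function.update_self, Function.update_of_ne h]
    have e : ∀ ξ : Layer d, ∫⁻ t : ℝ≥0, (t : ℝ≥0∞) * (ξ y : ℝ≥0∞) ∂ρ = ξ y := by
      intro ξ
      rw [lintegral_mul_const _ measurable_coe_nnreal_ennreal, h1, one_mul]
    simp only [e]
    rw [lintegral_coord (g := fun t => (t : ℝ≥0∞)) measurable_coe_nnreal_ennreal, h1]

theorem lay_sq (h1 : Mean1 ρ) {χ : ℝ≥0∞} (hχ : mom ρ 2 = 1 + χ) (c : Site d → ℝ≥0∞) :
    ∫⁻ ξ, (∑' x, c x * (ξ x : ℝ≥0∞)) ^ (2 : ℝ) ∂lay d ρ =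
      (∑' x, c x) ^ (2 : ℝ) + χ * ∑' x, c x ^ (2 : ℝ) := by
  have hm : ∀ x y : Site d, Measurable fun ξ : Layer d => (ξ x : ℝ≥0∞) * (ξ y : ℝ≥0∞) :=
    fun x y => ((measurable_pi_apply x).coe_nnreal_ennreal).mul
      ((measurable_pi_apply y).coe_nnreal_ennreal)
  have e : ∀ ξ : Layer d, (∑' x, c x * (ξ x : ℝ≥0∞)) ^ (2 : ℝ) =
      ∑' x, ∑' y, c x * c y * ((ξ x : ℝ≥0∞) * (ξ y : ℝ≥0∞)) := by
    intro ξ
    rw [ENNReal.rpow_two, sq, ← ENNReal.tsum_mul_right]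
    refine tsum_congr fun x => ?_
    rw [← ENNReal.tsum_mul_left]
    exact tsum_congr fun y => by ring
  simp only [e]
  rw [lintegral_tsum fun x => (Measurable.tsum fun y => (hm x y).const_mul _).aemeasurable]
  have e2 : ∀ x : Site d, ∫⁻ ξ, ∑' y, c x * c y * ((ξ x : ℝ≥0∞) * (ξ y : ℝ≥0∞)) ∂lay d ρ =
      c x * ∑' y, c y + χ * c x ^ (2 : ℝ) := by
    intro x
    rw [lintegral_tsum fun y => ((hm x y).const_mul _).aemeasurable]
    simp only [lintegral_const_mul _ (hm x _), layerl_pair h1 hχ, mul_add, mul_one,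
      ENNReal.tsum_add, ENNReal.tsum_mul_left]
    congr 1
    rw [tsum_eq_single x]
    · rw [if_pos rfl, ENNReal.rpow_two]; ring
    · intro y hy; rw [if_neg hy, mul_zero]
  simp only [e2, ENNReal.tsum_add, ENNReal.tsum_mul_left, ENNReal.tsum_mul_right]
  rw [ENNReal.rpow_two, sq]

theorem lay_jensen (h1 : Mean1 ρ) {q : ℝ} (hq : 1 ≤ q) (c : Site d → ℝ≥0∞) :
    (∑' x, c x) ^ q ≤ ∫⁻ ξ, (∑' x, c x * (ξ x : ℝ≥0∞)) ^ q ∂lay d ρ := by
  rw [← lintegral_lin h1 c]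
  exact jensen_convex (lay d ρ) (measurable_lin c).aemeasurable hq

theorem lay_jensen_concave (h1 : Mean1 ρ) {θ : ℝ} (h0 : 0 < θ) (hθ : θ ≤ 1)
    (c : Site d → ℝ≥0∞) :
    ∫⁻ ξ, (∑' x, c x * (ξ x : ℝ≥0∞)) ^ θ ∂lay d ρ ≤ (∑' x, c x) ^ θ := by
  rw [← lintegral_lin h1 c]
  exact jensen_concave (lay d ρ) (measurable_lin c).aemeasurable h0 hθ

theorem layerl_inv_fin (c : Site d → ℝ≥0∞) (h0 : ∑' x, c x ≠ 0) (ht : ∑' x, c x ≠ ⊤) :
    ∫⁻ ξ, (∑' x, c x * (ξ x : ℝ≥0∞)) ^ (-1 : ℝ) ∂lay d ρ ≤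
      mom ρ (-1) * (∑' x, c x) ^ (-1 : ℝ) := by
  have hm : ∀ x : Site d, Measurable fun ξ : Layer d => (ξ x : ℝ≥0∞) ^ (-1 : ℝ) :=
    fun x => ((measurable_pi_apply x).coe_nnreal_ennreal).pow_const _
  calc ∫⁻ ξ, (∑' x, c x * (ξ x : ℝ≥0∞)) ^ (-1 : ℝ) ∂lay d ρ
      ≤ ∫⁻ ξ, (∑' x, c x) ^ (-1 - 1 : ℝ) * ∑' x, c x * (ξ x : ℝ≥0∞) ^ (-1 : ℝ) ∂lay d ρ :=
        lintegral_mono fun ξ => tsum_neg_pow_le c (fun x => (ξ x : ℝ≥0∞)) one_pos h0 ht
    _ = (∑' x, c x) ^ (-1 - 1 : ℝ) * ((∑' x, c x) * mom ρ (-1)) := by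
        rw [lintegral_const_mul _ (Measurable.tsum fun x => (hm x).const_mul _),
          lintegral_tsum fun x => ((hm x).const_mul _).aemeasurable, ← ENNReal.tsum_mul_right]
        congr 1
        refine tsum_congr fun x => ?_
        rw [lintegral_const_mul _ (hm x), lintegral_coord (g := fun t => (t : ℝ≥0∞) ^ (-1 : ℝ))
          (measurable_coe_nnreal_ennreal.pow_const _)]
        rfl
    _ = mom ρ (-1) * (∑' x, c x) ^ (-1 : ℝ) := by
        have : (∑' x, c x) ^ (-1 : ℝ) = (∑' x, c x) ^ (-1 - 1 : ℝ) * ∑' x, c x := by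
          conv_rhs => enter [2]; rw [← ENNReal.rpow_one (∑' x, c x)]
          rw [← ENNReal.rpow_add _ _ h0 ht]; norm_num
        rw [this]; ring

theorem layerl_trunc (c : Site d → ℝ≥0∞) (ht : ∑' x, c x = ⊤) {M : ℝ≥0∞} (hM : M ≠ ⊤) :
    ∃ c' : Site d → ℝ≥0∞, (∀ x, c' x ≤ c x) ∧ M ≤ ∑' x, c' x ∧ ∑' x, c' x ≠ ⊤ := by
  by_cases h : ∃ x, M ≤ c x
  · obtain ⟨x, hx⟩ := h
    refine ⟨fun y => if y = x then M else 0, fun y => ?_, ?_, ?_⟩
    · by_cases hy : y = x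
      · simp [hy, hx]
      · simp [hy]
    · simp
    · simpa using hM
  · push Not at h
    have : M < ⨆ S : Finset (Site d), ∑ x ∈ S, c x := by
      rw [← ENNReal.tsum_eq_iSup_sum, ht]; exact hM.lt_top
    obtain ⟨S, hS⟩ := lt_iSup_iff.1 this
    have e : ∑' x, (if x ∈ S then c x else 0) = ∑ x ∈ S, c x := by
      rw [tsum_eq_sum (s := S) fun x hx => if_neg hx]
      exact Finset.sum_congr rfl fun x hx => if_pos hx
    refine ⟨fun y => if y ∈ S then c y else 0, fun y => ?_, ?_, ?_⟩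
    · by_cases hy : y ∈ S <;> simp [hy]
    · rw [e]; exact hS.le
    · rw [e]; exact ENNReal.sum_ne_top.2 fun x _ => ((h x).trans hM.lt_top).ne

theorem layerl_mom_neg_ne_zero : mom ρ (-1) ≠ 0 := by
  intro h
  unfold mom at h
  rw [lintegral_eq_zero_iff (measurable_coe_nnreal_ennreal.pow_const _)] at h
  obtain ⟨t, ht⟩ := h.exists
  simp [ENNReal.rpow_neg_one] at ht

theorem lay_inv (hK : mom ρ (-1) ≠ ⊤) (c : Site d → ℝ≥0∞) :
    ∫⁻ ξ, (∑' x, c x * (ξ x : ℝ≥0∞)) ^ (-1 : ℝ) ∂lay d ρ ≤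
      mom ρ (-1) * (∑' x, c x) ^ (-1 : ℝ) := by
  by_cases h0 : ∑' x, c x = 0
  · rw [h0, ENNReal.zero_rpow_of_neg (by norm_num), ENNReal.mul_top layerl_mom_neg_ne_zero]
    exact le_top
  by_cases ht : ∑' x, c x = ⊤
  · have lim : Filter.Tendsto (fun n : ℕ => mom ρ (-1) * (n : ℝ≥0∞)⁻¹) Filter.atTop
        (nhds (mom ρ (-1) * 0)) :=
      ENNReal.Tendsto.const_mul ENNReal.tendsto_inv_nat_nhds_zero (Or.inr hK)
    rw [mul_zero] at lim
    refine le_trans (ge_of_tendsto lim ?_) zero_le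
    filter_upwards [Filter.eventually_ge_atTop 1] with n hn
    obtain ⟨c', h1, h2, h3⟩ := layerl_trunc c ht (M := n) (ENNReal.natCast_ne_top n)
    have hn0 : (n : ℝ≥0∞) ≠ 0 := by exact_mod_cast (by omega : n ≠ 0)
    have h4 : ∑' x, c' x ≠ 0 := fun h => hn0 (le_antisymm (h ▸ h2) zero_le)
    calc ∫⁻ ξ, (∑' x, c x * (ξ x : ℝ≥0∞)) ^ (-1 : ℝ) ∂lay d ρ
        ≤ ∫⁻ ξ, (∑' x, c' x * (ξ x : ℝ≥0∞)) ^ (-1 : ℝ) ∂lay d ρ := by
          refine lintegral_mono fun ξ => ?_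
          simp only [ENNReal.rpow_neg_one]
          exact ENNReal.inv_le_inv.2 (ENNReal.tsum_le_tsum fun x => mul_le_mul_left (h1 x) _)
      _ ≤ mom ρ (-1) * (∑' x, c' x) ^ (-1 : ℝ) := layerl_inv_fin c' h4 h3
      _ ≤ mom ρ (-1) * (n : ℝ≥0∞)⁻¹ := by
          rw [ENNReal.rpow_neg_one]
          exact mul_le_mul_right (ENNReal.inv_le_inv.2 h2) _
  · exact layerl_inv_fin c h0 ht

theorem lay_strict (h1 : Mean1 ρ) {q : ℝ} (hq1 : 1 ≤ q) (hq2 : q ≤ 2) {c₂ : ℝ≥0∞}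
    (hS : Strict ρ q c₂) (c : Site d → ℝ≥0∞) (x₀ : Site d) :
    (∑' x, c x) ^ 2 + c₂ * c x₀ ^ 2 ≤
      (∑' x, c x) ^ (2 - q) * ∫⁻ ξ, (∑' x, c x * (ξ x : ℝ≥0∞)) ^ q ∂lay d ρ := by
  have _h := hq2
  set c' : Site d → ℝ≥0∞ := fun x => if x = x₀ then 0 else c x with hc'
  have e1 : ∑' x, c x = ∑' x, c' x + c x₀ := by
    rw [ENNReal.tsum_eq_add_tsum_ite x₀, add_comm]
    congr 1
    refine tsum_congr fun x => ?_
    by_cases hx : x = x₀
    · simp [hc', hx]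
    · simp [hc', hx]
  have e2 : ∀ (ξ : Layer d) (t : ℝ≥0), ∑' x, c x * (Function.update ξ x₀ t x : ℝ≥0∞) =
      ∑' x, c' x * (ξ x : ℝ≥0∞) + c x₀ * t := by
    intro ξ t
    rw [ENNReal.tsum_eq_add_tsum_ite x₀, add_comm, Function.update_self]
    congr 1
    refine tsum_congr fun x => ?_
    by_cases hx : x = x₀
    · simp [hc', hx]
    · simp [hc', hx]
  rw [lintegral_update ((measurable_lin c).pow_const q) x₀]
  simp only [e2]
  rw [e1]
  refine (hS _ _).trans (mul_le_mul_right (lintegral_mono fun t => ?_) _)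
  have h := jensen_convex (lay d ρ)
    (g := fun ξ : Layer d => ∑' x, c' x * (ξ x : ℝ≥0∞) + c x₀ * t)
    ((measurable_lin c').add measurable_const).aemeasurable hq1
  rw [lintegral_add_right _ measurable_const, lintegral_lin h1 c'] at h
  simpa using h

/-- The tensorisation step of the comparison of moments. -/
theorem layerl_tensor {X Y : Type*} [MeasurableSpace X] [MeasurableSpace Y] (μ₁ μ₂ : Measure X)
    (κ : Measure Y) [IsProbabilityMeasure μ₁] [IsProbabilityMeasure κ] {F : X → Y → ℝ≥0∞}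
    (hF : Measurable (Function.uncurry F)) {p q : ℝ} (hp : 0 < p) (hpq : p ≤ q)
    (h : ∀ y, ∫⁻ x, F x y ^ q ∂μ₁ ≤ (∫⁻ x, F x y ^ p ∂μ₂) ^ (q / p)) :
    ∫⁻ x, (∫⁻ y, F x y ^ p ∂κ) ^ (q / p) ∂μ₁ ≤ (∫⁻ y, ∫⁻ x, F x y ^ p ∂μ₂ ∂κ) ^ (q / p) := by
  have hr : 1 ≤ q / p := (one_le_div hp).2 hpq
  have hr0 : 0 < q / p := by linarith
  have hm := minkowski μ₁ κ (G := fun x y => F x y ^ p) (hF.pow_const p) hr
  refine hm.trans (ENNReal.rpow_le_rpow (lintegral_mono fun y => ?_) hr0.le)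
  have e : ∀ x, (F x y ^ p) ^ (q / p) = F x y ^ q := fun x => by
    rw [← ENNReal.rpow_mul, mul_div_cancel₀ q hp.ne']
  simp only [e]
  refine (ENNReal.rpow_le_rpow (h y) (by positivity)).trans (le_of_eq ?_)
  rw [← ENNReal.rpow_mul, mul_one_div_cancel hr0.ne', ENNReal.rpow_one]

theorem layerl_comp_fin {ρ₁ ρ₂ : Measure ℝ≥0} [IsProbabilityMeasure ρ₁]
    [IsProbabilityMeasure ρ₂] {p q : ℝ} (hp : 0 < p) (hpq : p ≤ q) (h : Comp ρ₁ ρ₂ q p)
    (c : Site d → ℝ≥0∞) (S : Finset (Site d)) (A : ℝ≥0∞) :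
    ∫⁻ ξ, (A + ∑ x ∈ S, c x * (ξ x : ℝ≥0∞)) ^ q ∂lay d ρ₁ ≤
      (∫⁻ ξ, (A + ∑ x ∈ S, c x * (ξ x : ℝ≥0∞)) ^ p ∂lay d ρ₂) ^ (q / p) := by
  induction S using Finset.induction_on generalizing A with
  | empty =>
    simp only [Finset.sum_empty, add_zero, lintegral_const, measure_univ, mul_one]
    rw [← ENNReal.rpow_mul, mul_div_cancel₀ q hp.ne']
  | insert a S ha ih =>
    rw [lintegral_update ((layerl_meas A c (insert a S)).pow_const q) a,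
      lintegral_update' ((layerl_meas A c (insert a S)).pow_const p) a]
    simp only [layerl_update A c ha]
    have hF : Measurable (Function.uncurry fun (t : ℝ≥0) (ξ : Layer d) =>
        A + ∑ x ∈ S, c x * (ξ x : ℝ≥0∞) + c a * t) :=
      ((layerl_meas A c S).comp measurable_snd).add
        (measurable_fst.coe_nnreal_ennreal.const_mul _)
    refine le_trans (lintegral_mono fun t => ?_)
      (layerl_tensor ρ₁ ρ₂ (lay d ρ₂) hF hp hpq fun ξ => h _ _)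
    have := ih (A + c a * t)
    simpa only [add_right_comm A (c a * t)] using this

theorem lay_comp {ρ₁ ρ₂ : Measure ℝ≥0} [IsProbabilityMeasure ρ₁] [IsProbabilityMeasure ρ₂]
    {p q : ℝ} (hp : 0 < p) (hpq : p ≤ q) (h : Comp ρ₁ ρ₂ q p) (c : Site d → ℝ≥0∞) :
    ∫⁻ ξ, (∑' x, c x * (ξ x : ℝ≥0∞)) ^ q ∂lay d ρ₁ ≤
      (∫⁻ ξ, (∑' x, c x * (ξ x : ℝ≥0∞)) ^ p ∂lay d ρ₂) ^ (q / p) := by
  have hq : 0 < q := by linarith
  refine lay_le_of_finset hq c fun S => ?_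
  have h2 := layerl_comp_fin hp hpq h c S 0
  simp only [zero_add] at h2
  refine h2.trans (ENNReal.rpow_le_rpow (lintegral_mono fun ξ => ?_) (by positivity))
  exact ENNReal.rpow_le_rpow (ENNReal.sum_le_tsum S) hp.le

theorem layerl_iter_comp {ρ₁ ρ₂ : Measure ℝ≥0} [IsProbabilityMeasure ρ₁]
    [IsProbabilityMeasure ρ₂] {p q : ℝ} (hp : 0 < p) (hpq : p ≤ q) (h : Comp ρ₁ ρ₂ q p) (n : ℕ)
    (f : Prof d) : (T ρ₁)^[n] (mq q) f ≤ ((T ρ₂)^[n] (mq p) f) ^ (q / p) := by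
  induction n generalizing f with
  | zero =>
    simp only [Function.iterate_zero, id_eq, mq]
    rw [← ENNReal.rpow_mul, mul_div_cancel₀ q hp.ne']
  | succ n ih =>
    rw [T_iter_succ, T_iter_succ]
    refine (lintegral_mono fun ξ => ih _).trans ?_
    simp only [T_iter_eq n (measurable_mq p), mq]
    have hF : Measurable (Function.uncurry fun (ξ : Layer d) (ω : ℕ → Layer d) =>
        mass (ev n ω (step f ξ))) :=
      measurable_mass.comp ((measurable_ev2 n).comp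
        (measurable_snd.prodMk ((measurable_step f).comp measurable_fst)))
    have e : ∀ (ξ : Layer d) (ω : ℕ → Layer d), mass (ev n ω (step f ξ)) =
        ∑' z, (avg f z * mass (ev n ω (dlt z))) * (ξ z : ℝ≥0∞) := by
      intro ξ ω
      rw [mass_ev_eq_tsum]
      exact tsum_congr fun z => by simp only [step]; ring
    have key := layerl_tensor (lay d ρ₁) (lay d ρ₂) (env d ρ₂) hF hp hpq fun ω => by
      simp only [e]
      exact lay_comp hp hpq h _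
    refine key.trans (le_of_eq ?_)
    congr 1
    exact (lintegral_lintegral_swap (hF.pow_const p).aemeasurable).symm

theorem Mom_comp {ρ₁ ρ₂ : Measure ℝ≥0} [IsProbabilityMeasure ρ₁] [IsProbabilityMeasure ρ₂]
    {p q : ℝ} (hp : 0 < p) (hpq : p ≤ q) (h : Comp ρ₁ ρ₂ q p) (n : ℕ) :
    Mom d ρ₁ q n ≤ Mom d ρ₂ p n ^ (q / p) :=
  layerl_iter_comp hp hpq h n _

end Pool.Agent.Lib.MP_153faa_pr
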