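import Mathlib
import Pool.Agent.Lib.MP_153faa_pr.LayerL

/-!
Monotonicity of moments, convexity in the starting profile, time reversal.
-/

set_option autoImplicit false

open MeasureTheory
open scoped ENNReal NNReal

namespace Pool.Agent.Lib.MP_153faa_pr

variable {d : ℕ} {ρ : Measure ℝ≥0} [IsProbabilityMeasure ρ]

theorem conv_T_mq (q : ℝ) (f : Prof d) :
    T ρ (mq q) f = ∫⁻ ξ, (∑' x, avg f x * (ξ x : ℝ≥0∞)) ^ q ∂lay d ρ := by
  simp only [T, mq, mass_step]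

theorem mq_le_T (hd : 1 ≤ d) (h1 : Mean1 ρ) {q : ℝ} (hq : 1 ≤ q) (f : Prof d) :
    mq q f ≤ T ρ (mq q) f := by
  rw [conv_T_mq, mq, ← mass_avg hd f]
  exact lay_jensen h1 hq (avg f)

theorem T_mq_le_concave (hd : 1 ≤ d) (h1 : Mean1 ρ) {θ : ℝ} (h0 : 0 < θ) (hθ : θ ≤ 1)
    (f : Prof d) : T ρ (mq θ) f ≤ mq θ f := by
  rw [conv_T_mq, mq, ← mass_avg hd f]
  exact lay_jensen_concave h1 h0 hθ (avg f)

theorem Mom_zero (q : ℝ) : Mom d ρ q 0 = 1 := by
  simp [Mom, mq, mass_dlt]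

theorem Mom_mono (hd : 1 ≤ d) (h1 : Mean1 ρ) {q : ℝ} (hq : 1 ≤ q) : Monotone (Mom d ρ q) :=
  monotone_nat_of_le_succ fun n => T_iter_mono n (mq_le_T hd h1 hq) _

theorem Mom_anti (hd : 1 ≤ d) (h1 : Mean1 ρ) {θ : ℝ} (h0 : 0 < θ) (hθ : θ ≤ 1) :
    Antitone (Mom d ρ θ) :=
  antitone_nat_of_succ_le fun n => T_iter_mono n (T_mq_le_concave hd h1 h0 hθ) _

theorem conv_jensen_neg {X : Type*} [MeasurableSpace X] (μ : Measure X) [IsProbabilityMeasure μ]
    {g : X → ℝ≥0∞} (hg : Measurable g) {θ : ℝ} (hθ : 0 < θ) :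
    (∫⁻ x, g x ∂μ) ^ (-θ) ≤ ∫⁻ x, g x ^ (-θ) ∂μ := by
  by_cases hS : ∫⁻ x, g x ∂μ = ⊤
  · rw [hS, ENNReal.top_rpow_of_neg (by linarith)]; exact zero_le
  by_cases hR : ∫⁻ x, g x ^ (-θ) ∂μ = ⊤
  · rw [hR]; exact le_top
  have h1 : 0 < 1 + θ := by linarith
  have hp : 0 ≤ (1 + θ)⁻¹ := (inv_pos.2 h1).le
  have hq : 0 ≤ θ * (1 + θ)⁻¹ := mul_nonneg hθ.le hp
  have hpq : (1 + θ)⁻¹ + θ * (1 + θ)⁻¹ = 1 := by field_simp
  have h := ENNReal.lintegral_mul_norm_pow_le (μ := μ) (f := fun x => g x ^ (-θ)) (g := g)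
    (hg.pow_const _).aemeasurable hg.aemeasurable hp hq hpq
  have e : ∫⁻ x, (g x ^ (-θ)) ^ (1 + θ)⁻¹ * g x ^ (θ * (1 + θ)⁻¹) ∂μ = ∫⁻ _, 1 ∂μ := by
    refine lintegral_congr_ae ?_
    filter_upwards [ae_lt_top hg hS, ae_lt_top (hg.pow_const _) hR] with x a1 a2
    have hg0 : g x ≠ 0 := fun hx => by
      rw [hx, ENNReal.zero_rpow_of_neg (by linarith)] at a2
      exact lt_irrefl _ a2
    rw [← ENNReal.rpow_mul, ← ENNReal.rpow_add _ _ hg0 a1.ne,
      show -θ * (1 + θ)⁻¹ + θ * (1 + θ)⁻¹ = 0 by ring, ENNReal.rpow_zero]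
  rw [e, lintegral_one, measure_univ] at h
  have h2 := ENNReal.rpow_le_rpow h h1.le
  rw [ENNReal.one_rpow, ENNReal.mul_rpow_of_nonneg _ _ h1.le, ENNReal.rpow_inv_rpow h1.ne',
    ← ENNReal.rpow_mul, show θ * (1 + θ)⁻¹ * (1 + θ) = θ by field_simp, mul_comm] at h2
  have h3 := ENNReal.rpow_ne_top_of_nonneg hθ.le hS
  rw [ENNReal.rpow_neg]
  exact (ENNReal.inv_le_iff_le_mul (fun h => absurd h hR) fun h => absurd h h3).2 h2

theorem Mom_neg_mono (hd : 1 ≤ d) (h1 : Mean1 ρ) {θ : ℝ} (h0 : 0 < θ) :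
    Monotone (Mom d ρ (-θ)) := by
  refine monotone_nat_of_le_succ fun n => T_iter_mono n (fun f => ?_) _
  rw [conv_T_mq, mq, ← mass_avg hd f, mass, ← lintegral_lin h1]
  exact conv_jensen_neg _ (measurable_lin _) h0

theorem Mom_neg_one_le (hd : 1 ≤ d) (n : ℕ) : Mom d ρ (-1) n ≤ mom ρ (-1) ^ n := by
  induction n with
  | zero => rw [Mom_zero, pow_zero]
  | succ n ih =>
    by_cases hK : mom ρ (-1) = ⊤
    · rw [hK, ENNReal.top_pow (Nat.succ_ne_zero n)]; exact le_top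
    refine (T_iter_mono n (Ψ := fun f => mom ρ (-1) * mq (-1) f) (fun f => ?_) _).trans ?_
    · rw [conv_T_mq, mq, ← mass_avg hd f]
      exact lay_inv hK (avg f)
    · rw [T_iter_const_mul n _ (measurable_mq _), pow_succ']
      exact mul_le_mul_right ih _

theorem Mom_neg_ne_top (hd : 1 ≤ d) (hK : mom ρ (-1) ≠ ⊤) {θ : ℝ} (h0 : 0 < θ) (hθ : θ ≤ 1)
    (n : ℕ) : Mom d ρ (-θ) n ≠ ⊤ := by
  have h : Mom d ρ (-θ) n ≤ 1 + mom ρ (-1) ^ n := by
    refine (T_iter_mono n (Ψ := fun f => 1 + mq (-1) f) (fun f => ?_) _).trans ?_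
    · rcases le_total 1 (mass f) with h | h
      · exact le_add_right (ENNReal.rpow_le_one_of_one_le_of_neg h (by linarith))
      · exact le_add_left (ENNReal.rpow_le_rpow_of_exponent_ge h (by linarith))
    · rw [T_iter_add n measurable_const, T_iter_const]
      exact add_le_add le_rfl (Mom_neg_one_le hd n)
  exact ne_top_of_le_ne_top (ENNReal.add_ne_top.2 ⟨ENNReal.one_ne_top, ENNReal.pow_ne_top hK⟩) h

theorem conv_lin {Φ : Prof d → ℝ≥0∞} (hΦ : Measurable Φ) (n : ℕ) (C B : ℝ≥0∞)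
    (c : Site d → ℝ≥0∞) (h : ∀ y, ∫⁻ ω, Φ (ev n ω (dlt y)) ∂env d ρ = B) :
    ∫⁻ ω, C * ∑' y, c y * Φ (ev n ω (dlt y)) ∂env d ρ = C * (∑' y, c y) * B := by
  have hm : ∀ y, Measurable fun ω : ℕ → Layer d => Φ (ev n ω (dlt y)) := fun y =>
    hΦ.comp (measurable_ev n _)
  rw [lintegral_const_mul _ (Measurable.tsum fun y => (hm y).const_mul _),
    lintegral_tsum fun y => ((hm y).const_mul _).aemeasurable]
  simp only [lintegral_const_mul _ (hm _), h, ENNReal.tsum_mul_right, mul_assoc]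

theorem conv_rpow (x : ℝ≥0∞) {q : ℝ} (hq : 1 ≤ q) : x ^ (q - 1) * x = x ^ q := by
  have h := ENNReal.rpow_add_of_nonneg (x := x) (q - 1) 1 (by linarith) zero_le_one
  rw [sub_add_cancel, ENNReal.rpow_one] at h
  exact h.symm

theorem T_iter_mq_le {q : ℝ} (hq : 1 ≤ q) (n : ℕ) (f : Prof d) :
    (T ρ)^[n] (mq q) f ≤ mass f ^ q * Mom d ρ q n := by
  rw [T_iter_eq n (measurable_mq q), ← conv_rpow _ hq]
  refine le_trans (lintegral_mono fun ω => ?_) (conv_lin (measurable_mq q) n (mass f ^ (q - 1)) _ f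
    (lintegral_mq_dlt q n)).le
  rw [mq, mass_ev_eq_tsum]
  exact tsum_pow_le f _ hq

theorem T_iter_nq_le {q : ℝ} (hq : 1 ≤ q) (n : ℕ) (f : Prof d) :
    (T ρ)^[n] (nq q) f ≤ mass f ^ q * Am d ρ q n := by
  rw [T_iter_eq n (measurable_nq q), ← conv_rpow _ hq]
  refine le_trans (lintegral_mono fun ω => ?_) (conv_lin (measurable_nq q) n (mass f ^ (q - 1)) _ f
    (lintegral_nq_dlt q n)).le
  simp only [nq, ← ENNReal.tsum_mul_left (a := f _)]
  rw [ENNReal.tsum_comm, ← ENNReal.tsum_mul_left]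
  refine ENNReal.tsum_le_tsum fun x => ?_
  rw [ev_eq_tsum]
  exact tsum_pow_le f _ hq

theorem T_iter_mq_neg_le {θ : ℝ} (h0 : 0 < θ) (n : ℕ) {f : Prof d} (hf0 : mass f ≠ 0)
    (hft : mass f ≠ ⊤) : (T ρ)^[n] (mq (-θ)) f ≤ mass f ^ (-θ) * Mom d ρ (-θ) n := by
  have e : mass f ^ (-θ - 1) * mass f = mass f ^ (-θ) := by
    have h := ENNReal.rpow_add (-θ - 1) 1 hf0 hft
    rw [sub_add_cancel, ENNReal.rpow_one] at h
    exact h.symm
  rw [T_iter_eq n (measurable_mq _), ← e]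
  refine le_trans (lintegral_mono fun ω => ?_) (conv_lin (measurable_mq _) n
    (mass f ^ (-θ - 1)) _ f (lintegral_mq_dlt (-θ) n)).le
  rw [mq, mass_ev_eq_tsum]
  exact tsum_neg_pow_le f _ h0 hf0 hft

theorem T_iter_nq_concave {θ : ℝ} (h0 : 0 < θ) (hθ : θ ≤ 1) (n : ℕ) (f : Prof d) :
    (T ρ)^[n] (nq θ) f ≤ nq θ f * Am d ρ θ n := by
  rw [T_iter_eq n (measurable_nq θ), ← one_mul (nq θ f)]
  refine le_trans (lintegral_mono fun ω => ?_) (conv_lin (measurable_nq θ) n 1 _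
    (fun y => f y ^ θ) (lintegral_nq_dlt θ n)).le
  simp only [nq, ← ENNReal.tsum_mul_left (a := f _ ^ θ)]
  rw [ENNReal.tsum_comm, one_mul]
  refine ENNReal.tsum_le_tsum fun x => ?_
  rw [ev_eq_tsum]
  simp only [← ENNReal.mul_rpow_of_nonneg _ _ h0.le]
  exact tsum_rpow_le _ h0 hθ

theorem nq_avg_le (hd : 1 ≤ d) {q : ℝ} (hq : 1 ≤ q) (f : Prof d) : nq q (avg f) ≤ nq q f := by
  have h1 : ∀ (g : Prof d) x, avg g x = ∑' y, avg (dlt y) x * g y := fun g x => by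
    simpa only [Function.iterate_one, mul_comm] using avg_iter_eq_tsum 1 g x
  have h2 : ∀ x : Site d, ∑' y, avg (dlt y) x = 1 := fun x => by
    have h := h1 (fun _ => 1) x
    simp only [avg_one hd, mul_one] at h
    exact h.symm
  refine (ENNReal.tsum_le_tsum (g := avg fun y => f y ^ q) fun x => ?_).trans
    (mass_avg hd fun y => f y ^ q).le
  have h := tsum_pow_le (fun y => avg (dlt y) x) f hq
  rwa [h2, ENNReal.one_rpow, one_mul, ← h1, ← h1 fun y => f y ^ q] at h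

theorem T_nq {q : ℝ} (hq : 0 < q) (f : Prof d) : T ρ (nq q) f = mom ρ q * nq q (avg f) := by
  have hm : ∀ x : Site d, Measurable fun ξ : Layer d => (ξ x : ℝ≥0∞) ^ q := fun x =>
    (measurable_pi_apply x).coe_nnreal_ennreal.pow_const q
  simp only [T, nq, step, ENNReal.mul_rpow_of_nonneg _ _ hq.le]
  rw [lintegral_tsum fun x => ((hm x).mul_const _).aemeasurable, ← ENNReal.tsum_mul_left]
  refine tsum_congr fun x => ?_
  rw [lintegral_mul_const _ (hm x), lintegral_coord (g := fun t => (t : ℝ≥0∞) ^ q)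
    (measurable_coe_nnreal_ennreal.pow_const q), mom]

theorem mom_le_mom_two (h1 : Mean1 ρ) {q : ℝ} (hq1 : 1 ≤ q) (hq2 : q ≤ 2) :
    mom ρ q ≤ mom ρ 2 := by
  have h := jensen_concave ρ (g := fun t : ℝ≥0 => (t : ℝ≥0∞) ^ (2 : ℝ))
    (measurable_coe_nnreal_ennreal.pow_const _).aemeasurable (θ := q / 2) (by linarith)
    (by linarith)
  simp only [← ENNReal.rpow_mul, show 2 * (q / 2) = q by ring] at h
  refine h.trans ((ENNReal.rpow_le_rpow_of_exponent_le (one_le_mom_two h1)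
    (show q / 2 ≤ 1 by linarith)).trans (ENNReal.rpow_one _).le)

theorem conv_env_sh {F : (ℕ → Layer d) → ℝ≥0∞} (hF : Measurable F) (v : Site d) :
    ∫⁻ ω, F (fun k x => ω k (x + v)) ∂env d ρ = ∫⁻ ω, F ω ∂env d ρ := by
  have h : (lay d ρ).map (fun (ξ : Layer d) x => ξ (x + v)) = lay d ρ :=
    Measure.map_infinitePi_infinitePi_of_inj (P := fun _ : Site d => ρ)
      (f := fun x : Site d => x + v) (add_left_injective v)
  have h2 := Measure.infinitePi_map_pi (fun _ : ℕ => lay d ρ)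
    (f := fun _ (ξ : Layer d) x => ξ (x + v)) fun _ => by fun_prop
  simp only [h] at h2
  unfold env
  conv_rhs => rw [← h2]
  rw [lintegral_map hF (by fun_prop)]

theorem conv_dual (n : ℕ) (ω ω' : ℕ → Layer d) (h : ∀ k, k < n → ω' k = ω (n - 1 - k))
    (f g : Prof d) : ∑' x, avg (ev n ω f) x * g x = ∑' x, f x * avg (ev n ω' g) x := by
  induction n generalizing ω' g with
  | zero => exact tsum_avg_mul f g
  | succ n ih =>
    rw [ev_succ' n ω, ev_succ n ω', tsum_avg_mul, ← ih (fun k => ω' (k + 1)) fun k hk => by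
      rw [h (k + 1) (by omega), show n + 1 - 1 - (k + 1) = n - 1 - k by omega]]
    refine tsum_congr fun x => ?_
    rw [h 0 (by omega)]
    simp only [step, Nat.add_sub_cancel, Nat.sub_zero]
    ring

theorem conv_rev (hd : 1 ≤ d) {q : ℝ} (hq : 0 ≤ q) (n : ℕ) :
    ∫⁻ ω, ev (n + 1) ω (fun _ => 1) (0 : Site d) ^ q ∂env d ρ = mom ρ q * Mom d ρ q n := by
  obtain ⟨σ, hσ⟩ : ∃ σ : ℕ → ℕ, σ = fun k => if k ≤ n then n - k else k := ⟨_, rfl⟩
  have hi : Function.Injective σ := fun a b h => by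
    simp only [hσ] at h
    split_ifs at h <;> omega
  have hm : Measurable fun ω : ℕ → Layer d => mass (ev n ω (dlt 0)) ^ q :=
    (measurable_mq q).comp (measurable_ev n _)
  have hc : Measurable fun ξ : Layer d => (ξ 0 : ℝ≥0∞) ^ q :=
    (measurable_pi_apply 0).coe_nnreal_ennreal.pow_const q
  obtain ⟨F, hF⟩ : ∃ F : (ℕ → Layer d) → ℝ≥0∞, F = fun ω =>
    (ω 0 0 : ℝ≥0∞) ^ q * mass (ev n (fun k => ω (k + 1)) (dlt 0)) ^ q := ⟨_, rfl⟩
  have mF : Measurable F := by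
    rw [hF]
    exact (hc.comp (measurable_pi_apply 0)).mul
      (hm.comp (measurable_pi_lambda _ fun k => measurable_pi_apply (k + 1)))
  have e : ∀ ω : ℕ → Layer d, ev (n + 1) ω (fun _ => 1) 0 ^ q = F fun k => ω (σ k) := fun ω => by
    have h := conv_dual n ω (fun k => ω (σ (k + 1))) (fun k hk => by
      rw [hσ]
      simp only
      rw [if_pos (by omega), show n - (k + 1) = n - 1 - k by omega]) (fun _ => 1) (dlt 0)
    rw [tsum_eq_single 0 fun y hy => by simp [dlt, hy]] at h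
    simp only [dlt, if_true, mul_one, one_mul] at h
    rw [ev_succ', step, h, hF, ENNReal.mul_rpow_of_nonneg _ _ hq]
    have h0 : σ 0 = n := by simp [hσ]
    simp only [h0]
    rw [← mass_avg hd]
    rfl
  have h := Measure.map_infinitePi_infinitePi_of_inj (P := fun _ : ℕ => lay d ρ) (f := σ) hi
  have h2 : ∫⁻ ω, F (fun k => ω (σ k)) ∂env d ρ = ∫⁻ ω, F ω ∂env d ρ := by
    unfold env
    conv_rhs => rw [← h]
    rw [lintegral_map mF (by fun_prop)]
  simp only [e]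
  rw [h2, lintegral_env mF]
  simp only [hF, MP_db3298_pr.consSeq_zero, MP_db3298_pr.consSeq_succ]
  simp only [lintegral_const_mul _ hm, lintegral_mq_dlt]
  rw [lintegral_mul_const _ hc, lintegral_coord (g := fun t => (t : ℝ≥0∞) ^ q)
    (measurable_coe_nnreal_ennreal.pow_const q), mom]

/-- Time reversal. -/
theorem T_iter_nq_le_rev (hd : 1 ≤ d) {q : ℝ} (hq : 1 ≤ q) (n : ℕ) (f : Prof d) :
    (T ρ)^[n + 1] (nq q) f ≤ mom ρ q * Mom d ρ q n * nq q f := by
  obtain ⟨G, hG⟩ : ∃ G : Site d → Site d → (ℕ → Layer d) → ℝ≥0∞, G = fun y x ω =>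
    ev (n + 1) ω (fun _ => 1) x ^ (q - 1) * ev (n + 1) ω (dlt y) x := ⟨_, rfl⟩
  have mG : ∀ y x, Measurable (G y x) := fun y x => by
    have hm : ∀ g : Prof d, Measurable fun ω : ℕ → Layer d => ev (n + 1) ω g x := fun g =>
      (measurable_pi_apply x).comp (measurable_ev (n + 1) g)
    rw [hG]
    exact ((hm _).pow_const _).mul (hm _)
  have hU : ∀ (ω : ℕ → Layer d) x, ∑' y, ev (n + 1) ω (dlt y) x = ev (n + 1) ω (fun _ => 1) x :=
    fun ω x => by simp only [ev_eq_tsum (n + 1) ω (fun _ => 1) x, one_mul]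
  have h1 : ∀ y x, ∫⁻ ω, G y x ω ∂env d ρ = ∫⁻ ω, G (y - x) 0 ω ∂env d ρ := fun y x => by
    rw [← conv_env_sh (mG (y - x) 0) x]
    refine lintegral_congr fun ω => ?_
    have a1 := congrFun (ev_sh (n + 1) x ω fun _ => 1) x
    have a2 := congrFun (ev_sh (n + 1) x ω (dlt (y - x))) x
    have a3 : sh x (dlt (y - x)) = dlt y := by
      funext z
      simp [sh, dlt]
    rw [a3] at a2
    simp only [hG]
    rw [a2, sh, sub_self]
    congr 2
    refine a1.trans ?_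
    rw [sh, sub_self]
  have h2 : ∀ y, ∑' x, ∫⁻ ω, G y x ω ∂env d ρ = mom ρ q * Mom d ρ q n := fun y => by
    simp only [h1 y]
    refine ((Equiv.subLeft y).tsum_eq fun z => ∫⁻ ω, G z 0 ω ∂env d ρ).trans ?_
    rw [← lintegral_tsum fun z => (mG z 0).aemeasurable, ← conv_rev hd (by linarith) n]
    refine lintegral_congr fun ω => ?_
    simp only [hG]
    rw [ENNReal.tsum_mul_left, hU, conv_rpow _ hq]
  rw [T_iter_eq _ (measurable_nq q)]
  refine (lintegral_mono (g := fun ω => ∑' y, ∑' x, G y x ω * f y ^ q) fun ω => ?_).trans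
    (le_of_eq ?_)
  · simp only
    rw [ENNReal.tsum_comm]
    refine ENNReal.tsum_le_tsum fun x => ?_
    have h := tsum_pow_le (fun y => ev (n + 1) ω (dlt y) x) f hq
    rw [hU, ← ENNReal.tsum_mul_left] at h
    rw [ev_eq_tsum]
    simpa only [hG, mul_assoc, mul_comm (f _)] using h
  · rw [lintegral_tsum fun y => (Measurable.tsum fun x => (mG y x).mul_const _).aemeasurable,
      nq, ← ENNReal.tsum_mul_left]
    refine tsum_congr fun y => ?_
    rw [lintegral_tsum fun x => ((mG y x).mul_const _).aemeasurable, ← h2 y,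
      ← ENNReal.tsum_mul_right]
    exact tsum_congr fun x => lintegral_mul_const _ (mG y x)

/-- The fractional moment criterion. -/
theorem Mom_le_of_Am (hd : 1 ≤ d) (h1 : Mean1 ρ) {θ : ℝ} (h0 : 0 < θ) (hθ : θ ≤ 1) {L : ℕ}
    (h : Am d ρ θ L ≤ 2⁻¹) (m : ℕ) : Mom d ρ θ m ≤ 2⁻¹ ^ (m / L) := by
  have h2 : ∀ i : ℕ, Am d ρ θ (i * L) ≤ 2⁻¹ ^ i := fun i => by
    induction i with
    | zero =>
      rw [zero_mul, pow_zero, Am, Function.iterate_zero_apply, nq,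
        tsum_eq_single 0 fun y hy => by simp [dlt, hy, ENNReal.zero_rpow_of_pos h0]]
      simp [dlt]
    | succ i ih =>
      rw [add_mul, one_mul, Am, Function.iterate_add_apply]
      refine (T_iter_mono _ (Ψ := fun f => 2⁻¹ * nq θ f) (fun f => ?_) _).trans ?_
      · rw [mul_comm]
        exact (T_iter_nq_concave h0 hθ L f).trans (mul_le_mul_right h _)
      · rw [T_iter_const_mul _ _ (measurable_nq θ), pow_succ']
        exact mul_le_mul_right ih _
  refine (Mom_anti hd h1 h0 hθ (Nat.div_mul_le_self m L)).trans (le_trans ?_ (h2 _))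
  exact T_iter_mono _ (fun f => tsum_rpow_le f h0 hθ) _

end Pool.Agent.Lib.MP_153faa_pr
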