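import Mathlib
import Pool.Agent.Lib.MP_153faa_pr.Conv

set_option autoImplicit false

open MeasureTheory
open scoped ENNReal NNReal

namespace Pool.Agent.Lib.MP_153faa_pr

variable {d : ℕ} {ρ : Measure ℝ≥0} [IsProbabilityMeasure ρ]

/-- Profiles of small mass. -/
def negmom_Dr (d : ℕ) : Set (Prof d) := {f | mass f < 4⁻¹}

theorem negmom_meas : MeasurableSet (negmom_Dr d) :=
  measurableSet_lt measurable_mass measurable_const

theorem negmom_anti {x y : ℝ≥0∞} (h : x ≤ y) {s : ℝ} (hs : 0 ≤ s) : y ^ (-s) ≤ x ^ (-s) := by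
  rw [ENNReal.rpow_neg, ENNReal.rpow_neg]
  exact ENNReal.inv_le_inv.2 (ENNReal.rpow_le_rpow h hs)

theorem negmom_pt1 {q : ℝ} (hq : 1 < q) {B : ℝ≥0∞} (hBt : B ≠ ⊤) (w : ℝ≥0∞) :
    w ≤ B + B ^ (-(q - 1)) * w ^ q := by
  by_cases h : w ≤ B
  · exact h.trans le_self_add
  · have h' : B < w := not_le.1 h
    refine le_trans ?_ le_add_self
    by_cases hw : w = ⊤
    · have h0 : B ^ (-(q - 1)) ≠ 0 := by
        rw [ENNReal.rpow_neg]
        exact ENNReal.inv_ne_zero.2 (ENNReal.rpow_ne_top_of_nonneg (by linarith) hBt)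
      rw [hw, ENNReal.top_rpow_of_pos (by linarith), ENNReal.mul_top h0]
    · have hw0 : w ≠ 0 := (lt_of_le_of_lt zero_le h').ne'
      calc w = w ^ (-(q - 1)) * w ^ q := by
            rw [← ENNReal.rpow_add _ _ hw0 hw, show -(q - 1) + q = (1 : ℝ) by ring,
              ENNReal.rpow_one]
        _ ≤ B ^ (-(q - 1)) * w ^ q := by
            gcongr ?_ * _
            exact negmom_anti h'.le (by linarith)

theorem negmom_hit (hd : 1 ≤ d) (h1 : Mean1 ρ) {q : ℝ} (hq : 1 < q) {B : ℝ≥0∞} (hBt : B ≠ ⊤)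
    (n : ℕ) (f : Prof d) :
    mass f + B * hit ρ (negmom_Dr d) n f ≤
      4⁻¹ + B + B ^ (-(q - 1)) * (T ρ)^[n] (mq q) f := by
  induction n generalizing f with
  | zero =>
    by_cases hf : f ∈ negmom_Dr d
    · rw [hit_of_mem _ hf, mul_one]
      exact le_trans (add_le_add (le_of_lt hf) le_rfl) le_self_add
    · rw [hit_zero_of_not_mem hf, mul_zero, add_zero, add_assoc]
      exact (negmom_pt1 hq hBt _).trans le_add_self
  | succ n ih =>
    by_cases hf : f ∈ negmom_Dr d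
    · rw [hit_of_mem _ hf, mul_one]
      exact le_trans (add_le_add (le_of_lt hf) le_rfl) le_self_add
    · rw [hit_succ_of_not_mem _ hf, Function.iterate_succ_apply']
      have hm := measurable_hit (ρ := ρ) (negmom_meas (d := d)) n
      have hT := measurable_T_iter (ρ := ρ) n (measurable_mq (d := d) q)
      calc mass f + B * T ρ (hit ρ (negmom_Dr d) n) f
          = T ρ (fun g => mass g + B * hit ρ (negmom_Dr d) n g) f := by
            rw [T_add measurable_mass, T_mass hd h1, T_const_mul B hm]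
        _ ≤ T ρ (fun g => (4⁻¹ + B) + B ^ (-(q - 1)) * (T ρ)^[n] (mq q) g) f := T_mono ih f
        _ = _ := by
            rw [T_add measurable_const, T_const, T_const_mul _ hT]

theorem negmom_pt2 {θ : ℝ} (h0 : 0 < θ) (h1 : θ ≤ 1) {A : ℝ≥0∞} (hA0 : A ≠ 0) (hAt : A ≠ ⊤)
    (w : ℝ≥0∞) : w ^ (-θ) ≤ A ^ θ * (1 + A⁻¹ * w ^ (-1 : ℝ)) := by
  rw [ENNReal.rpow_neg_one, ENNReal.rpow_neg, ← ENNReal.inv_rpow]
  have he : w⁻¹ = A * (A⁻¹ * w⁻¹) := by
    rw [← mul_assoc, ENNReal.mul_inv_cancel hA0 hAt, one_mul]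
  generalize hu : A⁻¹ * w⁻¹ = u at he
  rw [he, ENNReal.mul_rpow_of_nonneg _ _ h0.le]
  gcongr ?_ * ?_
  · exact le_rfl
  · by_cases hu1 : u ≤ 1
    · exact (ENNReal.rpow_le_one hu1 h0.le).trans le_self_add
    · have : u ^ θ ≤ u ^ (1 : ℝ) :=
        ENNReal.rpow_le_rpow_of_exponent_le (not_le.1 hu1).le h1
      rw [ENNReal.rpow_one] at this
      exact this.trans le_add_self

theorem negmom_four {θ : ℝ} (h0 : 0 < θ) (h1 : θ ≤ 1) {f : Prof d} (hf : f ∉ negmom_Dr d) :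
    mass f ^ (-θ) ≤ 4 := by
  have hf' : (4 : ℝ≥0∞)⁻¹ ≤ mass f := not_lt.1 hf
  refine (negmom_anti hf' h0.le).trans ?_
  rw [ENNReal.rpow_neg, ENNReal.inv_rpow, inv_inv]
  have : (4 : ℝ≥0∞) ^ θ ≤ 4 ^ (1 : ℝ) := ENNReal.rpow_le_rpow_of_exponent_le (by norm_num) h1
  rwa [ENNReal.rpow_one] at this

theorem negmom_T_inv (hd : 1 ≤ d) (hK : mom ρ (-1) ≠ ⊤) {f : Prof d} (hf : f ∉ negmom_Dr d) :
    T ρ (mq (-1)) f ≤ 4 * mom ρ (-1) := by
  have h := lay_inv hK (avg f)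
  have e : T ρ (mq (-1)) f = ∫⁻ ξ, (∑' x, avg f x * (ξ x : ℝ≥0∞)) ^ (-1 : ℝ) ∂lay d ρ := by
    unfold T mq
    simp only [mass_step]
  rw [e]
  refine h.trans ?_
  have e2 : ∑' x, avg f x = mass f := mass_avg hd f
  rw [e2, mul_comm]
  gcongr ?_ * _
  exact negmom_four one_pos le_rfl hf

theorem negmom_rec (hd : 1 ≤ d) (h1 : Mean1 ρ) (hK : mom ρ (-1) ≠ ⊤) {θ : ℝ} (h0 : 0 < θ)
    (hθ : θ ≤ 1) {A : ℝ≥0∞} (hA0 : A ≠ 0) (hAt : A ≠ ⊤) (n m : ℕ) (hm : m ≤ n) {f : Prof d}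
    (hf : f ∉ negmom_Dr d) :
    (T ρ)^[m] (mq (-θ)) f ≤ 4 + Mom d ρ (-θ) n * A ^ θ *
      (hit ρ (negmom_Dr d) m f + m * (A⁻¹ * (4 * mom ρ (-1)))) := by
  induction m generalizing f with
  | zero => exact (negmom_four h0 hθ hf).trans le_self_add
  | succ m ih =>
    have hmn : m ≤ n := by omega
    have hN : Mom d ρ (-θ) m ≤ Mom d ρ (-θ) n := Mom_neg_mono hd h1 h0 hmn
    have hN1 : 1 ≤ Mom d ρ (-θ) n := by
      rw [← Mom_zero (d := d) (ρ := ρ) (-θ)]
      exact Mom_neg_mono hd h1 h0 (Nat.zero_le n)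
    have hAθ : A ^ θ ≠ 0 := by
      intro h
      rcases ENNReal.rpow_eq_zero_iff.1 h with h | h
      · exact hA0 h.1
      · exact hAt h.1
    set N := Mom d ρ (-θ) n with hNdef
    set κ := A⁻¹ * (4 * mom ρ (-1)) with hκ
    have hpt : ∀ g : Prof d, (T ρ)^[m] (mq (-θ)) g ≤
        4 + N * A ^ θ * (hit ρ (negmom_Dr d) m g + (m * κ + A⁻¹ * mq (-1) g)) := by
      intro g
      by_cases hg : g ∈ negmom_Dr d
      · rw [hit_of_mem _ hg]
        refine le_trans ?_ le_add_self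
        by_cases hg0 : mass g = 0
        · have : A⁻¹ * mq (-1) g = ⊤ := by
            unfold mq
            rw [hg0, ENNReal.zero_rpow_of_neg (by norm_num),
              ENNReal.mul_top (ENNReal.inv_ne_zero.2 hAt)]
          rw [this, add_top, add_top, ENNReal.mul_top]
          · exact le_top
          · exact mul_ne_zero (lt_of_lt_of_le one_pos hN1).ne' hAθ
        · have hgt : mass g ≠ ⊤ := ne_top_of_lt (show mass g < 4⁻¹ from hg)
          calc (T ρ)^[m] (mq (-θ)) g ≤ mass g ^ (-θ) * Mom d ρ (-θ) m :=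
                T_iter_mq_neg_le h0 m hg0 hgt
            _ ≤ A ^ θ * (1 + A⁻¹ * mass g ^ (-1 : ℝ)) * N :=
                mul_le_mul' (negmom_pt2 h0 hθ hA0 hAt _) hN
            _ = N * A ^ θ * (1 + A⁻¹ * mq (-1) g) := by unfold mq; ring
            _ ≤ _ := by
                gcongr
                exact le_add_self
      · refine (ih hmn hg).trans ?_
        gcongr
        exact le_self_add
    have hmh := measurable_hit (ρ := ρ) (negmom_meas (d := d)) m
    have hmq := measurable_mq (d := d) (-1)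
    rw [Function.iterate_succ_apply', hit_succ_of_not_mem _ hf]
    refine (T_mono hpt f).trans ?_
    have hm3 : Measurable fun g : Prof d =>
        hit ρ (negmom_Dr d) m g + (m * κ + A⁻¹ * mq (-1) g) :=
      hmh.add (measurable_const.add (hmq.const_mul _))
    rw [T_add measurable_const, T_const, T_const_mul _ hm3, T_add hmh, T_add measurable_const,
      T_const, T_const_mul _ hmq]
    have h2 : A⁻¹ * T ρ (mq (-1)) f ≤ κ := by
      rw [hκ]
      gcongr
      exact negmom_T_inv hd hK hf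
    push_cast
    rw [add_mul (m : ℝ≥0∞) 1 κ, one_mul]
    gcongr

theorem negmom_dlt : dlt (0 : Site d) ∉ negmom_Dr d := by
  intro h
  have h' : mass (dlt (0 : Site d)) < 4⁻¹ := h
  rw [mass_dlt] at h'
  exact absurd h' (by simp)

theorem negmom_escape (hd : 1 ≤ d) (h1 : Mean1 ρ) {q : ℝ} (hq : 1 < q)
    {M : ℝ≥0∞} (hM : M ≠ ⊤) (h : ∀ n, Mom d ρ q n ≤ M) :
    ∃ c : ℝ, 0 < c ∧ c ≤ 1 ∧
      ∀ n, hit ρ (negmom_Dr d) n (dlt (0 : Site d)) ≤ ENNReal.ofReal (1 - c) := by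
  have hM1 : 1 ≤ M := by
    rw [← Mom_zero (d := d) (ρ := ρ) q]; exact h 0
  have hm1 : 1 ≤ M.toReal := by
    have := ENNReal.toReal_mono hM hM1
    simpa using this
  set m := M.toReal with hm
  have hMm : M = ENNReal.ofReal m := (ENNReal.ofReal_toReal hM).symm
  have hq0 : 0 < q - 1 := by linarith
  set b : ℝ := (4 * m) ^ (q - 1)⁻¹ with hb
  have hb1 : 1 ≤ b := Real.one_le_rpow (by linarith) (by positivity)
  have hbq : b ^ (q - 1) = 4 * m := Real.rpow_inv_rpow (by linarith) hq0.ne'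
  refine ⟨1 / (2 * b), by positivity, ?_, fun n => ?_⟩
  · rw [div_le_one (by positivity)]; linarith
  · have key := negmom_hit hd h1 hq (B := ENNReal.ofReal b) ENNReal.ofReal_ne_top n
      (dlt (0 : Site d))
    have hD1 := hit_le_one (ρ := ρ) (negmom_Dr d) n (dlt (0 : Site d))
    have hDt : hit ρ (negmom_Dr d) n (dlt (0 : Site d)) ≠ ⊤ := ne_top_of_le_ne_top (by simp) hD1
    obtain ⟨D, hD0, hD⟩ : ∃ D : ℝ, 0 ≤ D ∧
        hit ρ (negmom_Dr d) n (dlt (0 : Site d)) = ENNReal.ofReal D :=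
      ⟨_, ENNReal.toReal_nonneg, (ENNReal.ofReal_toReal hDt).symm⟩
    rw [hD] at key ⊢
    rw [mass_dlt] at key
    have h3 : ENNReal.ofReal b ^ (-(q - 1)) * (T ρ)^[n] (mq q) (dlt (0 : Site d)) ≤
        ENNReal.ofReal (1 / 4) := by
      have h4 : (T ρ)^[n] (mq q) (dlt (0 : Site d)) ≤ ENNReal.ofReal m := hMm ▸ h n
      refine (mul_le_mul' le_rfl h4).trans (le_of_eq ?_)
      rw [ENNReal.ofReal_rpow_of_pos (by linarith), ← ENNReal.ofReal_mul (by positivity),
        Real.rpow_neg (by linarith), hbq]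
      congr 1
      field_simp
    have h5 : (4 : ℝ≥0∞)⁻¹ = ENNReal.ofReal (1 / 4) := by
      rw [one_div, ENNReal.ofReal_inv_of_pos (by norm_num)]; simp
    have h6 := key.trans (add_le_add le_rfl h3)
    rw [h5, ← ENNReal.ofReal_one, ← ENNReal.ofReal_mul (by linarith),
      ← ENNReal.ofReal_add (by norm_num) (by positivity),
      ← ENNReal.ofReal_add (by norm_num) (by positivity),
      ← ENNReal.ofReal_add (by positivity) (by positivity),
      ENNReal.ofReal_le_ofReal_iff (by positivity)] at h6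
    refine ENNReal.ofReal_le_ofReal ?_
    have : D ≤ (b - 1 / 2) / b := by rw [le_div_iff₀ (by linarith)]; linarith
    refine this.trans (le_of_eq ?_)
    field_simp

/-- Bounded moments of some order above one give almost bounded negative moments. -/
theorem neg_mom (hd : 1 ≤ d) (h1 : Mean1 ρ) (hK : mom ρ (-1) ≠ ⊤) {q : ℝ} (hq : 1 < q)
    {M : ℝ≥0∞} (hM : M ≠ ⊤) (h : ∀ n, Mom d ρ q n ≤ M) :
    ∃ C : ℝ, 0 ≤ C ∧ ∀ n : ℕ, ∃ θ : ℝ, 0 < θ ∧
      Mom d ρ (-θ) n ≤ ENNReal.ofReal (C * θ * Real.sqrt (n + 1)) := by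
  obtain ⟨c, hc0, hc1, hc⟩ := negmom_escape hd h1 hq hM h
  obtain ⟨K, hK0, hKe⟩ : ∃ K : ℝ, 0 ≤ K ∧ mom ρ (-1) = ENNReal.ofReal K :=
    ⟨_, ENNReal.toReal_nonneg, (ENNReal.ofReal_toReal hK).symm⟩
  set a : ℝ := 1 + 16 * K / c with ha
  have ha1 : 1 ≤ a := by rw [ha]; have : 0 ≤ 16 * K / c := by positivity
                         linarith
  have hsa : 1 ≤ Real.sqrt a := Real.one_le_sqrt.2 ha1
  have hl0 : 0 < Real.log (1 + c / 4) := Real.log_pos (by linarith)
  have hl1 : Real.log (1 + c / 4) ≤ 1 := by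
    have := Real.log_le_sub_one_of_pos (show 0 < 1 + c / 4 by linarith)
    linarith
  set κ : ℝ := Real.log (1 + c / 4) / (2 * Real.sqrt a) with hκ
  have hκ0 : 0 < κ := by positivity
  have hκ1 : κ ≤ 1 := by rw [hκ, div_le_one (by positivity)]; linarith
  refine ⟨8 / (c * κ), by positivity, fun n => ?_⟩
  have hn1 : (1 : ℝ) ≤ n + 1 := by have : (0 : ℝ) ≤ n := n.cast_nonneg
                                   linarith
  have hs : 1 ≤ Real.sqrt (n + 1) := Real.one_le_sqrt.2 hn1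
  set θ : ℝ := κ / Real.sqrt (n + 1) with hθ
  have hθ0 : 0 < θ := by positivity
  have hθ1 : θ ≤ 1 := by rw [hθ, div_le_one (by positivity)]; linarith
  refine ⟨θ, hθ0, ?_⟩
  have hC : 8 / (c * κ) * θ * Real.sqrt (n + 1) = 8 / c := by
    rw [hθ]; field_simp
  rw [hC]
  set A : ℝ := a * (n + 1) with hA
  have hA0 : 0 < A := by positivity
  have hAθ : A ^ θ ≤ 1 + c / 4 := by
    rw [Real.rpow_def_of_pos hA0, ← Real.exp_log (show 0 < 1 + c / 4 by linarith)]
    refine Real.exp_le_exp.2 ?_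
    have hsA : Real.sqrt A = Real.sqrt a * Real.sqrt (n + 1) := Real.sqrt_mul (by linarith) _
    have hlog : Real.log A ≤ 2 * Real.sqrt A := by
      have h2 := Real.log_le_sub_one_of_pos (Real.sqrt_pos.2 hA0)
      rw [Real.log_sqrt hA0.le] at h2
      linarith
    calc Real.log A * θ ≤ 2 * Real.sqrt A * θ := by gcongr
      _ = Real.log (1 + c / 4) := by rw [hsA, hθ, hκ]; field_simp
  have hnK : n * (A⁻¹ * (4 * K)) ≤ c / 4 := by
    have h2 : 16 * K / c * n ≤ A := by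
      rw [hA]
      have : 16 * K / c ≤ a := by rw [ha]; linarith
      have h3 : 0 ≤ 16 * K / c := by positivity
      have h4 : (0 : ℝ) ≤ n := n.cast_nonneg
      nlinarith
    have h3 : n * (A⁻¹ * (4 * K)) = c / 4 * (16 * K / c * n / A) := by field_simp; ring
    rw [h3]
    have h4 : 16 * K / c * n / A ≤ 1 := (div_le_one hA0).2 h2
    nlinarith
  have key := negmom_rec hd h1 hK hθ0 hθ1 (A := ENNReal.ofReal A)
    (ENNReal.ofReal_pos.2 hA0).ne' ENNReal.ofReal_ne_top n n le_rfl negmom_dlt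
  obtain ⟨N, hN0, hN⟩ : ∃ N : ℝ, 0 ≤ N ∧ Mom d ρ (-θ) n = ENNReal.ofReal N :=
    ⟨_, ENNReal.toReal_nonneg, (ENNReal.ofReal_toReal (Mom_neg_ne_top hd hK hθ0 hθ1 n)).symm⟩
  change Mom d ρ (-θ) n ≤ _ at key
  rw [hN] at key ⊢
  have h7 : ENNReal.ofReal A ^ θ ≤ ENNReal.ofReal (1 + c / 4) := by
    rw [ENNReal.ofReal_rpow_of_pos hA0]; exact ENNReal.ofReal_le_ofReal hAθ
  have h8 : (n : ℝ≥0∞) * ((ENNReal.ofReal A)⁻¹ * (4 * mom ρ (-1))) ≤ ENNReal.ofReal (c / 4) := by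
    refine le_trans (le_of_eq ?_) (ENNReal.ofReal_le_ofReal hnK)
    rw [hKe, ENNReal.ofReal_mul n.cast_nonneg, ENNReal.ofReal_mul (inv_nonneg.2 hA0.le),
      ENNReal.ofReal_mul (show (0 : ℝ) ≤ 4 by norm_num), ENNReal.ofReal_inv_of_pos hA0,
      ENNReal.ofReal_natCast, ENNReal.ofReal_ofNat]
  have h9 := key.trans (add_le_add le_rfl
    (mul_le_mul' (mul_le_mul' le_rfl h7) (add_le_add (hc n) h8)))
  have h4 : (4 : ℝ≥0∞) = ENNReal.ofReal 4 := by simp
  rw [h4, ← ENNReal.ofReal_add (by linarith) (by positivity), ← ENNReal.ofReal_mul hN0,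
    ← ENNReal.ofReal_mul (by positivity),
    ← ENNReal.ofReal_add (by norm_num) (mul_nonneg (by positivity) (by linarith)),
    ENNReal.ofReal_le_ofReal_iff
      (add_nonneg (by norm_num) (mul_nonneg (by positivity) (by linarith)))] at h9
  refine ENNReal.ofReal_le_ofReal ?_
  rw [le_div_iff₀ hc0]
  nlinarith [mul_nonneg hN0 (mul_pos hc0 hc0).le]

end Pool.Agent.Lib.MP_153faa_pr
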