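import Mathlib
import Pool.Agent.Lib.MP_153faa_pr.Core

set_option autoImplicit false

open MeasureTheory
open scoped ENNReal NNReal

namespace Pool.Agent.Lib.MP_153faa_pr

variable {ν : Measure ℝ} [IsProbabilityMeasure ν]

theorem onec_pos (hν : ∀ β : ℝ, Integrable (fun t => Real.exp (β * t)) ν) (β : ℝ) :
    0 < ∫ t, Real.exp (β * t) ∂ν :=
  ProbabilityTheory.mgf_pos (X := fun t : ℝ => t) (hν β)

theorem onec_cont (hν : ∀ β : ℝ, Integrable (fun t => Real.exp (β * t)) ν) :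
    Continuous (lam ν) :=
  (ProbabilityTheory.continuous_mgf (X := fun t : ℝ => t) hν).log fun β => (onec_pos hν β).ne'

theorem onec_mom (hν : ∀ β : ℝ, Integrable (fun t => Real.exp (β * t)) ν) (β r : ℝ) :
    mom (rho ν β) r = ENNReal.ofReal (Real.exp (lam ν (r * β) - r * lam ν β)) := by
  have e : ∀ t : ℝ, ((Real.toNNReal (Real.exp (β * t - lam ν β)) : ℝ≥0) : ℝ≥0∞) ^ r
      = ENNReal.ofReal (Real.exp (r * β * t) * Real.exp (-(r * lam ν β))) := by
    intro t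
    change ENNReal.ofReal _ ^ r = _
    rw [ENNReal.ofReal_rpow_of_pos (Real.exp_pos _), ← Real.exp_mul, ← Real.exp_add]
    congr 2
    ring
  rw [mom, rho, lintegral_map (by fun_prop) (by fun_prop)]
  simp only [e]
  rw [← ofReal_integral_eq_lintegral_ofReal ((hν (r * β)).mul_const _)
    (Filter.Eventually.of_forall fun t => by positivity), integral_mul_const, sub_eq_add_neg,
    Real.exp_add, show Real.exp (lam ν (r * β)) = _ from Real.exp_log (onec_pos hν _)]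

theorem mean1_rho (hν : ∀ β : ℝ, Integrable (fun t => Real.exp (β * t)) ν) (β : ℝ) :
    Mean1 (rho ν β) := by
  have h := onec_mom hν β 1
  simpa [mom, Mean1] using h

theorem mom_rho_le (hν : ∀ β : ℝ, Integrable (fun t => Real.exp (β * t)) ν) (B : ℝ) :
    ∃ K : ℝ, 1 ≤ K ∧ ∀ β, 0 ≤ β → β ≤ B →
      mom (rho ν β) 5 ≤ ENNReal.ofReal K ∧ mom (rho ν β) (-1) ≤ ENNReal.ofReal K := by
  have hc := onec_cont hν
  have key : ∀ r : ℝ, ∃ K : ℝ, ∀ β ∈ Set.Icc 0 B,
      Real.exp (lam ν (r * β) - r * lam ν β) ≤ K := by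
    intro r
    obtain ⟨K, hK⟩ := (isCompact_Icc (a := (0 : ℝ)) (b := B)).bddAbove_image
      (f := fun β => Real.exp (lam ν (r * β) - r * lam ν β)) (by fun_prop)
    exact ⟨K, fun β hβ => hK ⟨β, hβ, rfl⟩⟩
  obtain ⟨K₁, h₁⟩ := key 5
  obtain ⟨K₂, h₂⟩ := key (-1)
  refine ⟨max 1 (max K₁ K₂), le_max_left _ _, fun β h0 hB => ⟨?_, ?_⟩⟩
  · rw [onec_mom hν]
    exact ENNReal.ofReal_le_ofReal
      ((h₁ β ⟨h0, hB⟩).trans ((le_max_left _ _).trans (le_max_right _ _)))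
  · rw [onec_mom hν]
    exact ENNReal.ofReal_le_ofReal
      ((h₂ β ⟨h0, hB⟩).trans ((le_max_right _ _).trans (le_max_right _ _)))

theorem mom_rho_small (hν : ∀ β : ℝ, Integrable (fun t => Real.exp (β * t)) ν) {c₀ : ℝ}
    (hc₀ : 0 < c₀) :
    ∃ b : ℝ, 0 < b ∧ ∀ β, 0 ≤ β → β ≤ b → mom (rho ν β) 2 < 1 + ENNReal.ofReal c₀ := by
  have hc := onec_cont hν
  have h1 : ContinuousAt (fun β => Real.exp (lam ν (2 * β) - 2 * lam ν β)) 0 := by fun_prop
  have h2 : Real.exp (lam ν (2 * 0) - 2 * lam ν 0) < 1 + c₀ := by simpa [lam] using hc₀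
  obtain ⟨δ, hδ, h3⟩ := Metric.eventually_nhds_iff.1 (h1.eventually_lt_const h2)
  refine ⟨δ / 2, half_pos hδ, fun β h0 hb => ?_⟩
  rw [onec_mom hν, ← ENNReal.ofReal_one, ← ENNReal.ofReal_add zero_le_one hc₀.le,
    ENNReal.ofReal_lt_ofReal_iff (by linarith)]
  refine h3 ?_
  rw [Real.dist_eq, sub_zero, abs_of_nonneg h0]
  linarith

theorem rho_tilt (hν : ∀ β : ℝ, Integrable (fun t => Real.exp (β * t)) ν) (β a : ℝ) :
    rho ν ((1 + a) * β) =
      (rho ν β).map fun t => t ^ (1 + a) / (mom (rho ν β) (1 + a)).toNNReal := by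
  rw [onec_mom hν, rho, rho, Measure.map_map (by fun_prop) (by fun_prop)]
  congr 1
  funext t
  refine NNReal.eq ?_
  rw [Function.comp_apply, NNReal.coe_div, NNReal.coe_rpow, ENNReal.ofReal, ENNReal.toNNReal_coe,
    Real.coe_toNNReal _ (Real.exp_pos _).le, Real.coe_toNNReal _ (Real.exp_pos _).le,
    Real.coe_toNNReal _ (Real.exp_pos _).le, ← Real.exp_mul, ← Real.exp_sub]
  congr 1
  ring

end Pool.Agent.Lib.MP_153faa_pr
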