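import Mathlib
import Pool.Agent.Lib.MP_153faa_pr.NegMom
import Pool.Agent.Lib.MP_153faa_pr.OneC

/-!
From the Markov chain on mass profiles to the partition function and the free energy.
-/

set_option autoImplicit false

open MeasureTheory
open scoped ENNReal NNReal

namespace Pool.Agent.Lib.MP_153faa_pr

variable {d : ℕ} {ν : Measure ℝ} [IsProbabilityMeasure ν]

/-- The layers of weights attached to an environment. -/
noncomputable def bridgeW (ν : Measure ℝ) (β : ℝ) (ω : ℕ × Site d → ℝ) : ℕ → Layer d :=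
  fun k x => Real.toNNReal (Real.exp (β * ω (k + 1, x) - lam ν β))

omit [IsProbabilityMeasure ν] in
theorem bridge_meas (β : ℝ) : Measurable (bridgeW ν β : (ℕ × Site d → ℝ) → ℕ → Layer d) := by
  unfold bridgeW; fun_prop

theorem bridge_map (β : ℝ) : (envLaw d ν).map (bridgeW ν β) = env d (rho ν β) := by
  have hg : Measurable fun t : ℝ => Real.toNNReal (Real.exp (β * t - lam ν β)) := by fun_prop
  have h1 := Measure.map_infinitePi_infinitePi_of_inj (P := fun _ : ℕ × Site d => ν)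
    (f := fun p : ℕ × Site d => (p.1 + 1, p.2))
    (fun p q h => by
      simp only [Prod.mk.injEq, add_left_inj] at h
      exact Prod.ext h.1 h.2)
  have h2 := Measure.infinitePi_map_pi (fun _ : ℕ × Site d => ν)
    (f := fun _ t => Real.toNNReal (Real.exp (β * t - lam ν β))) fun _ => hg
  have h3 := Measure.infinitePi_map_curry (fun (_ : ℕ) (_ : Site d) => rho ν β)
  have e : (bridgeW ν β : (ℕ × Site d → ℝ) → ℕ → Layer d) =
      (MeasurableEquiv.curry ℕ (Site d) ℝ≥0) ∘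
        (fun (x : ℕ × Site d → ℝ) p => Real.toNNReal (Real.exp (β * x p - lam ν β))) ∘
        fun (ω : ℕ × Site d → ℝ) (p : ℕ × Site d) => ω (p.1 + 1, p.2) := rfl
  unfold envLaw env lay
  rw [e, ← Measure.map_map (MeasurableEquiv.measurable _) (by fun_prop),
    ← Measure.map_map (by fun_prop) (by fun_prop), h1, h2]
  exact h3

theorem bridge_pos {n : ℕ} (s₀ : Fin d × Bool) (s : Fin n → Fin d × Bool) (j : ℕ) :
    pos (Fin.cons s₀ s : Fin (n + 1) → Fin d × Bool) (j + 1) = stepVec s₀ + pos s j := by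
  simp only [pos, Finset.sum_filter, Fin.sum_univ_succ, Fin.val_zero, Nat.zero_lt_succ, if_true,
    Fin.cons_zero, Fin.val_succ, Nat.add_lt_add_iff_right, Fin.cons_succ]

theorem bridge_avg (y : Site d) (G : Prof d) :
    ∑' z, avg (dlt y) z * G z = (2 * d : ℝ≥0∞)⁻¹ * ∑ s₀ : Fin d × Bool, G (y + stepVec s₀) := by
  rw [tsum_avg_mul, tsum_eq_single y fun z hz => by simp [dlt, hz]]
  simp only [dlt, if_true, one_mul, avg, Fintype.sum_prod_type, Fintype.sum_bool, stepVec]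
  congr 1
  refine Finset.sum_congr rfl fun i _ => ?_
  simp [sub_eq_add_neg, add_comm]

theorem bridge_mass (n : ℕ) (w : ℕ → Layer d) (y : Site d) :
    mass (ev n w (dlt y)) = (2 * d : ℝ≥0∞)⁻¹ ^ n *
      ∑ s : Fin n → Fin d × Bool, ∏ j ∈ Finset.range n, (w j (y + pos s (j + 1)) : ℝ≥0∞) := by
  induction n generalizing w y with
  | zero => simp [mass_dlt]
  | succ n ih =>
    rw [ev_succ, mass_ev_eq_tsum]
    have e : ∀ z, step (dlt y) (w 0) z * mass (ev n (fun k => w (k + 1)) (dlt z)) =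
        avg (dlt y) z * (w 0 z * mass (ev n (fun k => w (k + 1)) (dlt z))) := fun z => by
      simp only [step]; ring
    simp only [e]
    have e2 : ∀ F : (Fin (n + 1) → Fin d × Bool) → ℝ≥0∞,
        ∑ s, F s = ∑ s₀ : Fin d × Bool, ∑ s : Fin n → Fin d × Bool, F (Fin.cons s₀ s) := by
      intro F
      rw [← (Fin.consEquiv fun _ : Fin (n + 1) => Fin d × Bool).sum_comp, Fintype.sum_prod_type]
      rfl
    rw [bridge_avg y fun z => w 0 z * mass (ev n (fun k => w (k + 1)) (dlt z)), e2,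
      pow_succ', mul_assoc, Finset.mul_sum _ _ ((2 * d : ℝ≥0∞)⁻¹ ^ n)]
    refine congrArg _ (Finset.sum_congr rfl fun s₀ _ => ?_)
    rw [ih, mul_left_comm, Finset.mul_sum _ _ (w 0 _ : ℝ≥0∞)]
    refine congrArg _ (Finset.sum_congr rfl fun s _ => ?_)
    rw [Finset.prod_range_succ', mul_comm]
    have h0 : pos s 0 = 0 := by simp [pos]
    congr 1
    · refine Finset.prod_congr rfl fun j _ => ?_
      rw [bridge_pos s₀ s (j + 1), add_assoc]
    · rw [bridge_pos s₀ s 0, h0, add_zero]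

omit [IsProbabilityMeasure ν] in
theorem bridge_W (hd : 1 ≤ d) (β : ℝ) (n : ℕ) (ω : ℕ × Site d → ℝ) :
    ENNReal.ofReal (W ν β n ω) = mass (ev n (bridgeW ν β ω) (dlt 0)) := by
  have hd' : (0 : ℝ) < 2 * d := by
    have : (1 : ℝ) ≤ d := by exact_mod_cast hd
    linarith
  have hs : ∀ f : ℕ → ℝ, ∑ j ∈ Finset.Icc 1 n, f j = ∑ j ∈ Finset.range n, f (j + 1) := by
    intro f
    induction n with
    | zero => simp
    | succ n ih => rw [Finset.sum_Icc_succ_top (by omega), ih, Finset.sum_range_succ]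
  rw [bridge_mass, W, ENNReal.ofReal_div_of_pos (pow_pos hd' n),
    ENNReal.ofReal_sum_of_nonneg fun _ _ => (Real.exp_pos _).le, ENNReal.ofReal_pow hd'.le,
    ENNReal.ofReal_mul (by norm_num), ENNReal.ofReal_natCast, ENNReal.ofReal_ofNat,
    div_eq_mul_inv, mul_comm, ENNReal.inv_pow]
  congr 1
  refine Finset.sum_congr rfl fun s _ => ?_
  rw [hs, Real.exp_sum, ENNReal.ofReal_prod_of_nonneg fun _ _ => (Real.exp_pos _).le]
  simp only [zero_add]
  rfl

theorem lintegral_W (hd : 1 ≤ d) (β : ℝ) (n : ℕ) {φ : ℝ≥0∞ → ℝ≥0∞} (hφ : Measurable φ) :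
    ∫⁻ ω, φ (ENNReal.ofReal (W ν β n ω)) ∂envLaw d ν =
      (T (rho ν β))^[n] (fun f => φ (mass f)) (dlt (0 : Site d)) := by
  have hm : Measurable fun f : Prof d => φ (mass f) := hφ.comp measurable_mass
  rw [T_iter_eq n hm, ← bridge_map β,
    lintegral_map (f := fun w => φ (mass (ev n w (dlt 0)))) (hm.comp (measurable_ev n _))
      (bridge_meas β)]
  simp only [bridge_W hd]

omit [IsProbabilityMeasure ν] in
theorem bridge_W_pos (hd : 1 ≤ d) (β : ℝ) (n : ℕ) (ω : ℕ × Site d → ℝ) : 0 < W ν β n ω := by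
  have hd' : (0 : ℝ) < 2 * d := by
    have : (1 : ℝ) ≤ d := by exact_mod_cast hd
    linarith
  have : Nonempty (Fin d) := ⟨⟨0, hd⟩⟩
  exact div_pos (Finset.sum_pos (fun _ _ => Real.exp_pos _) Finset.univ_nonempty) (pow_pos hd' n)

omit [IsProbabilityMeasure ν] in
theorem bridge_W_meas (β : ℝ) (n : ℕ) : Measurable (W ν β n : (ℕ × Site d → ℝ) → ℝ) := by
  unfold W; fun_prop

theorem bridge_rpow (hd : 1 ≤ d) (β : ℝ) (n : ℕ) (r : ℝ) (h : Mom d (rho ν β) r n ≠ ⊤) :
    Integrable (fun ω => W ν β n ω ^ r) (envLaw d ν) ∧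
      ∫ ω, W ν β n ω ^ r ∂envLaw d ν = (Mom d (rho ν β) r n).toReal := by
  have e : ∫⁻ ω, ENNReal.ofReal (W ν β n ω ^ r) ∂envLaw d ν = Mom d (rho ν β) r n := by
    have := lintegral_W (ν := ν) hd β n (φ := fun t => t ^ r) (measurable_id.pow_const r)
    simp only [ENNReal.ofReal_rpow_of_pos (bridge_W_pos hd β n _)] at this
    exact this
  have hm : AEStronglyMeasurable (fun ω => W ν β n ω ^ r) (envLaw d ν) :=
    ((bridge_W_meas β n).pow_const r).aestronglyMeasurable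
  have h0 : 0 ≤ᵐ[envLaw d ν] fun ω => W ν β n ω ^ r :=
    Filter.Eventually.of_forall fun ω => Real.rpow_nonneg (bridge_W_pos hd β n ω).le r
  refine ⟨(lintegral_ofReal_ne_top_iff_integrable hm h0).1 (by rw [e]; exact h), ?_⟩
  rw [integral_eq_lintegral_of_nonneg_ae h0 hm, e]

theorem bridge_mom_one (hd : 1 ≤ d)
    (hν : ∀ β : ℝ, Integrable (fun t => Real.exp (β * t)) ν) (β : ℝ) (n : ℕ) :
    Mom d (rho ν β) 1 n = 1 := by
  have e : (mq 1 : Prof d → ℝ≥0∞) = mass := by funext f; simp [mq]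
  rw [Mom, e, T_iter_mass hd (mean1_rho hν β), mass_dlt]

theorem bridge_mom_neg (hd : 1 ≤ d)
    (hν : ∀ β : ℝ, Integrable (fun t => Real.exp (β * t)) ν) (β : ℝ) :
    ∃ K : ℝ, 0 < K ∧ mom (rho ν β) (-1) = ENNReal.ofReal K ∧
      ∀ n, Mom d (rho ν β) (-1) n ≤ ENNReal.ofReal (K ^ n) := by
  refine ⟨_, Real.exp_pos _, onec_mom hν β (-1), fun n => ?_⟩
  rw [ENNReal.ofReal_pow (Real.exp_pos _).le, ← onec_mom hν β (-1)]
  exact Mom_neg_one_le hd n

theorem bridge_log_int (hd : 1 ≤ d)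
    (hν : ∀ β : ℝ, Integrable (fun t => Real.exp (β * t)) ν) (β : ℝ) (n : ℕ) :
    Integrable (fun ω => Real.log (W ν β n ω)) (envLaw d ν) := by
  obtain ⟨K, -, -, hK⟩ := bridge_mom_neg hd hν β
  have h1 := (bridge_rpow (ν := ν) hd β n 1 (by rw [bridge_mom_one hd hν]; simp)).1
  have h2 := (bridge_rpow (ν := ν) hd β n (-1)
    (ne_top_of_le_ne_top ENNReal.ofReal_ne_top (hK n))).1
  refine (h1.add h2).mono' (bridge_W_meas β n).log.aestronglyMeasurable
    (Filter.Eventually.of_forall fun ω => ?_)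
  have hw := bridge_W_pos (ν := ν) hd β n ω
  have a1 := Real.log_le_sub_one_of_pos hw
  have a2 := Real.log_le_sub_one_of_pos (inv_pos.2 hw)
  rw [Real.log_inv] at a2
  have a3 := inv_pos.2 hw
  simp only [Pi.add_apply, Real.rpow_one, Real.rpow_neg_one, Real.norm_eq_abs]
  rw [abs_le]
  constructor <;> linarith

theorem bridge_log (hd : 1 ≤ d)
    (hν : ∀ β : ℝ, Integrable (fun t => Real.exp (β * t)) ν) (β : ℝ) (n : ℕ) {r c : ℝ}
    (hc : 0 < c) (h : Mom d (rho ν β) r n ≤ ENNReal.ofReal c) :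
    r * ∫ ω, Real.log (W ν β n ω) ∂envLaw d ν ≤ Real.log c := by
  have : IsProbabilityMeasure (envLaw d ν) := by unfold envLaw; infer_instance
  obtain ⟨h1, h2⟩ := bridge_rpow (ν := ν) hd β n r (ne_top_of_le_ne_top ENNReal.ofReal_ne_top h)
  have h3 : (Mom d (rho ν β) r n).toReal ≤ c := ENNReal.toReal_le_of_le_ofReal hc.le h
  have h4 : ∫ ω, r * Real.log (W ν β n ω) ∂envLaw d ν ≤
      ∫ ω, (c⁻¹ * W ν β n ω ^ r + (Real.log c - 1)) ∂envLaw d ν := by
    refine integral_mono ((bridge_log_int hd hν β n).const_mul r)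
      ((h1.const_mul _).add (integrable_const _)) fun ω => ?_
    have hw := bridge_W_pos (ν := ν) hd β n ω
    have hr := Real.rpow_pos_of_pos hw r
    have a1 := Real.log_le_sub_one_of_pos (mul_pos (inv_pos.2 hc) hr)
    rw [Real.log_mul (inv_pos.2 hc).ne' hr.ne', Real.log_inv, Real.log_rpow hw] at a1
    simp only
    linarith
  rw [integral_const_mul, integral_add (h1.const_mul _) (integrable_const _), integral_const_mul,
    h2, integral_const] at h4
  have h5 : c⁻¹ * (Mom d (rho ν β) r n).toReal ≤ 1 := by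
    rw [inv_mul_le_iff₀ hc]; simpa using h3
  simp only [probReal_univ, smul_eq_mul, one_mul] at h4
  linarith

/-- Bounded moments of some order above one force a nonnegative free energy. -/
theorem freeEnergy_nonneg (hd : 1 ≤ d)
    (hν : ∀ β : ℝ, Integrable (fun t => Real.exp (β * t)) ν) {β : ℝ} (hβ : 0 ≤ β) {q : ℝ}
    (hq : 1 < q) {M : ℝ≥0∞} (hM : M ≠ ⊤) (h : ∀ n, Mom d (rho ν β) q n ≤ M) :
    0 ≤ freeEnergy d ν β := by
  have _ := hβ
  obtain ⟨K, -, hK, -⟩ := bridge_mom_neg hd hν β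
  obtain ⟨C, hC, H⟩ := neg_mom hd (mean1_rho hν β) (by rw [hK]; exact ENNReal.ofReal_ne_top)
    hq hM h
  have low : ∀ n : ℕ, -(C * Real.sqrt (n + 1)) ≤ ∫ ω, Real.log (W ν β n ω) ∂envLaw d ν := by
    intro n
    obtain ⟨θ, hθ, hn⟩ := H n
    have hc : 0 ≤ C * θ * Real.sqrt (n + 1) := by positivity
    have a1 := bridge_log hd hν β n (r := -θ) (c := C * θ * Real.sqrt (n + 1) + 1) (by linarith)
      (hn.trans (ENNReal.ofReal_le_ofReal (by linarith)))
    have a2 := Real.log_le_sub_one_of_pos (show 0 < C * θ * Real.sqrt (n + 1) + 1 by linarith)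
    refine le_of_mul_le_mul_left ?_ hθ
    nlinarith
  have up : ∀ n : ℕ, (∫ ω, Real.log (W ν β n ω) ∂envLaw d ν) / n ≤ 0 := by
    intro n
    have a1 := bridge_log hd hν β n (r := 1) (c := 1) one_pos (by rw [bridge_mom_one hd hν]; simp)
    rw [one_mul, Real.log_one] at a1
    exact div_nonpos_of_nonpos_of_nonneg a1 (Nat.cast_nonneg n)
  have lim : Filter.Tendsto (fun n : ℕ => -(C * Real.sqrt ((n : ℝ)⁻¹ + (n : ℝ)⁻¹ ^ 2)))
      Filter.atTop (nhds 0) := by
    have t := tendsto_inv_atTop_nhds_zero_nat (𝕜 := ℝ)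
    have := ((t.add (t.pow 2)).sqrt.const_mul C).neg
    simpa using this
  unfold freeEnergy
  rw [← lim.limsup_eq]
  refine Filter.limsup_le_limsup ?_ lim.isCoboundedUnder_le
    (Filter.isBoundedUnder_of ⟨0, up⟩)
  filter_upwards [Filter.eventually_gt_atTop 0] with n hn
  have hn' : (0 : ℝ) < n := by exact_mod_cast hn
  have e : Real.sqrt ((n : ℝ)⁻¹ + (n : ℝ)⁻¹ ^ 2) = Real.sqrt (n + 1) / n := by
    rw [show (n : ℝ)⁻¹ + (n : ℝ)⁻¹ ^ 2 = (n + 1) / n ^ 2 by field_simp,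
      Real.sqrt_div (by positivity), Real.sqrt_sq hn'.le]
  rw [e, ← mul_div_assoc, ← neg_div]
  exact div_le_div_of_nonneg_right (low n) hn'.le

/-- Exponential decay of a fractional moment bounds the free energy. -/
theorem freeEnergy_le (hd : 1 ≤ d)
    (hν : ∀ β : ℝ, Integrable (fun t => Real.exp (β * t)) ν) {β : ℝ} (hβ : 0 ≤ β) {θ : ℝ}
    (h0 : 0 < θ) (hθ : θ ≤ 1) {L : ℕ} (hL : 1 ≤ L)
    (h : ∀ m, Mom d (rho ν β) θ m ≤ 2⁻¹ ^ (m / L)) :
    freeEnergy d ν β ≤ -(Real.log 2 / L) := by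
  have _ := hβ
  obtain ⟨K, hK0, -, hK⟩ := bridge_mom_neg hd hν β
  have hl : 0 < Real.log 2 := Real.log_pos (by norm_num)
  have hL' : (0 : ℝ) < L := by exact_mod_cast hL
  have low : ∀ᶠ n : ℕ in Filter.atTop,
      -Real.log K ≤ (∫ ω, Real.log (W ν β n ω) ∂envLaw d ν) / n := by
    filter_upwards [Filter.eventually_gt_atTop 0] with n hn
    have hn' : (0 : ℝ) < n := by exact_mod_cast hn
    have a1 := bridge_log hd hν β n (pow_pos hK0 n) (hK n)
    rw [Real.log_pow] at a1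
    rw [le_div_iff₀ hn']
    linarith
  have lim : Filter.Tendsto (fun n : ℕ => -(Real.log 2 / L) + Real.log 2 * (n : ℝ)⁻¹)
      Filter.atTop (nhds (-(Real.log 2 / L))) := by
    have t := tendsto_inv_atTop_nhds_zero_nat (𝕜 := ℝ)
    have := (t.const_mul (Real.log 2)).const_add (-(Real.log 2 / L))
    simpa using this
  unfold freeEnergy
  rw [← lim.limsup_eq]
  refine Filter.limsup_le_limsup ?_ (Filter.isCoboundedUnder_le_of_eventually_le _ low)
    lim.isBoundedUnder_le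
  filter_upwards [Filter.eventually_gt_atTop 0] with m hm
  have hm' : (0 : ℝ) < m := by exact_mod_cast hm
  have a1 := bridge_log hd hν β m (r := θ) (c := 2⁻¹ ^ (m / L)) (by positivity)
    ((h m).trans (le_of_eq (by
      rw [ENNReal.ofReal_pow (by norm_num), ENNReal.ofReal_inv_of_pos (by norm_num),
        ENNReal.ofReal_ofNat])))
  rw [Real.log_pow, Real.log_inv] at a1
  have hk : (0 : ℝ) ≤ (m / L : ℕ) := Nat.cast_nonneg _
  have a2 : ∫ ω, Real.log (W ν β m ω) ∂envLaw d ν ≤ -(((m / L : ℕ) : ℝ) * Real.log 2) := by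
    refine le_of_mul_le_mul_left (a1.trans ?_) h0
    nlinarith [mul_nonneg hk hl.le]
  have a3 : (m : ℝ) < L * (((m / L : ℕ) : ℝ) + 1) := by
    exact_mod_cast Nat.lt_mul_div_succ m hL
  have a4 : (m : ℝ) / L ≤ ((m / L : ℕ) : ℝ) + 1 := by
    rw [div_le_iff₀ hL']; linarith
  rw [div_le_iff₀ hm']
  have e : (-(Real.log 2 / L) + Real.log 2 * (m : ℝ)⁻¹) * m = -(m / L * Real.log 2) + Real.log 2 := by
    field_simp
  rw [e]
  nlinarith

end Pool.Agent.Lib.MP_153faa_pr
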