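import Mathlib
import Pool.Agent.Lib.MP_153faa_pr.Basic
import Pool.Agent.Lib.MP_a3b629_pr.KernelD
import Pool.Agent.Lib.MP_a3b629_pr.Conv

/-!
Heat kernel bounds for simple random walk.
-/

set_option autoImplicit false

open MeasureTheory
open scoped ENNReal NNReal

namespace Pool.Agent.Lib.MP_153faa_pr

variable {d : ℕ}

open Pool.Agent.Lib.MP_a3b629_pr (srw pE WD Q egf)

theorem heat_pE (hd : 1 ≤ d) (n : ℕ) : avg^[n] (dlt (0 : Site d)) = pE d n := by
  induction n with
  | zero => funext x; rw [MP_a3b629_pr.pE_zero]; rfl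
  | succ n ih =>
    funext x
    rw [Function.iterate_succ_apply', ih, MP_a3b629_pr.pE_succ hd]; rfl

theorem heat_amgm (a b : ℝ≥0∞) (ha : a ≠ ⊤) (hb : b ≠ ⊤) : 2 * (a * b) ≤ a * a + b * b := by
  lift a to ℝ≥0 using ha
  lift b to ℝ≥0 using hb
  have h : (2 : ℝ) * (a * b) ≤ a * a + b * b := by nlinarith [sq_nonneg ((a : ℝ) - b)]
  exact_mod_cast h

theorem heat_sq (hd : 1 ≤ d) (a : ℕ) : ∑' y, pE d a y * pE d a y = pE d (a + a) 0 := by
  rw [MP_a3b629_pr.pE_add hd]
  refine tsum_congr fun y => ?_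
  rw [zero_sub, MP_a3b629_pr.pE_neg]

theorem heat_conv (hd : 1 ≤ d) (a b : ℕ) (x : Site d) :
    2 * srw d (a + b) x ≤ srw d (a + a) 0 + srw d (b + b) 0 := by
  have h : 2 * pE d (a + b) x ≤ pE d (a + a) 0 + pE d (b + b) 0 := by
    rw [MP_a3b629_pr.pE_add hd a b x, ← heat_sq hd a, ← heat_sq hd b, ← ENNReal.tsum_mul_left,
      ← (Equiv.subLeft x).tsum_eq (fun y => pE d b y * pE d b y), ← ENNReal.tsum_add]
    exact ENNReal.tsum_le_tsum fun y =>
      heat_amgm _ _ (MP_a3b629_pr.pE_ne_top _ _ _) (MP_a3b629_pr.pE_ne_top _ _ _)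
  unfold pE at h
  have h0 := MP_a3b629_pr.srw_nonneg d (a + a) 0
  have h1 := MP_a3b629_pr.srw_nonneg d (b + b) 0
  rw [← ENNReal.ofReal_add h0 h1, ← ENNReal.ofReal_ofNat 2,
    ← ENNReal.ofReal_mul (by norm_num)] at h
  exact (ENNReal.ofReal_le_ofReal_iff (add_nonneg h0 h1)).1 h

theorem heat_succ_le (hd : 1 ≤ d) (j : ℕ) :
    srw d (j + 1 + (j + 1)) 0 ≤ srw d (j + j) 0 := by
  have hd' : (0 : ℝ) < d := by exact_mod_cast hd
  have h : srw d (j + (j + 1) + 1) 0 ≤
      (srw d (j + j) 0 + srw d (j + 1 + (j + 1)) 0) / 2 := by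
    rw [srw, div_le_iff₀ (by positivity)]
    calc ∑ i : Fin d, (srw d (j + (j + 1)) (0 - Pi.single i 1) +
          srw d (j + (j + 1)) (0 + Pi.single i 1))
        ≤ ∑ _i : Fin d, (srw d (j + j) 0 + srw d (j + 1 + (j + 1)) 0) := by
          refine Finset.sum_le_sum fun i _ => ?_
          have h1 := heat_conv hd j (j + 1) (0 - Pi.single i 1)
          have h2 := heat_conv hd j (j + 1) (0 + Pi.single i 1)
          linarith
      _ = _ := by simp; ring
  rw [show j + (j + 1) + 1 = j + 1 + (j + 1) by ring] at h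
  linarith

theorem heat_anti (hd : 1 ≤ d) {i j : ℕ} (h : i ≤ j) : srw d (j + j) 0 ≤ srw d (i + i) 0 :=
  antitone_nat_of_succ_le (f := fun j => srw d (j + j) 0) (fun j => heat_succ_le hd j) h

theorem heat_hasSum (x : Site d) (s : ℝ) :
    HasSum (fun n => s ^ n / (n.factorial : ℝ) * WD d n x) (egf (fun n => WD d n x) s) :=
  (MP_a3b629_pr.summable_egf (MP_a3b629_pr.abs_WD_le d x) s).hasSum

theorem heat_hasSum_pow {c : ℝ} (hc : 0 ≤ c) (s : ℝ) :
    HasSum (fun n => s ^ n / (n.factorial : ℝ) * c ^ n) (Real.exp (c * s)) := by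
  rw [← MP_a3b629_pr.egf_pow]
  exact (MP_a3b629_pr.summable_egf (f := fun n => c ^ n) (C := c)
    (fun n => by rw [abs_of_nonneg (pow_nonneg hc n)]) s).hasSum

theorem heat_egf_le {s : ℝ} (hs : 0 < s) (x : Site d) :
    egf (fun n => WD d n x) s ≤ Real.exp (2 * d * s) * (3 ^ d * s ^ (-(d : ℝ) / 2)) := by
  have h := MP_a3b629_pr.Q_le_rpow hs x
  rw [MP_a3b629_pr.Q_eq, Real.exp_neg, inv_mul_le_iff₀ (Real.exp_pos _)] at h
  exact h

theorem heat_diag (hd : 1 ≤ d) {j : ℕ} (hj : 1 ≤ j) :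
    srw d (j + j) 0 ≤ 4 * (3 ^ d * ((j : ℝ) / (4 * d)) ^ (-(d : ℝ) / 2)) := by
  have hd' : (0 : ℝ) < d := by exact_mod_cast hd
  have hj' : (0 : ℝ) < j := by exact_mod_cast hj
  set s : ℝ := (j : ℝ) / (4 * d) with hs
  have hs0 : 0 < s := by positivity
  set B : ℝ := 3 ^ d * s ^ (-(d : ℝ) / 2) with hB
  set r : ℝ := srw d (j + j) 0 with hr
  have hr0 : 0 ≤ r := MP_a3b629_pr.srw_nonneg _ _ _
  have h1 := (heat_hasSum (0 : Site d) s).add
    ((hasSum_sum (s := Finset.univ) fun (i : Fin d) _ =>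
      (heat_hasSum ((0 : Site d) - Pi.single i 1) s).add
        (heat_hasSum ((0 : Site d) + Pi.single i 1) s)).div_const (2 * d))
  have h2 := ((heat_hasSum_pow (c := 2 * d) (by positivity) s).sub
    ((heat_hasSum_pow (c := 4 * d) (by positivity) s).div_const (4 ^ j))).mul_left r
  have h3 := hasSum_le (fun n => ?_) h2 h1
  · have h4 : ∑ i : Fin d, (egf (fun n => WD d n ((0 : Site d) - Pi.single i 1)) s +
        egf (fun n => WD d n ((0 : Site d) + Pi.single i 1)) s) ≤
        ∑ _i : Fin d, 2 * (Real.exp (2 * d * s) * B) := by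
      refine Finset.sum_le_sum fun i _ => ?_
      have a1 := heat_egf_le hs0 ((0 : Site d) - Pi.single i 1)
      have a2 := heat_egf_le hs0 ((0 : Site d) + Pi.single i 1)
      linarith
    have h5 : (∑ i : Fin d, (egf (fun n => WD d n ((0 : Site d) - Pi.single i 1)) s +
        egf (fun n => WD d n ((0 : Site d) + Pi.single i 1)) s)) / (2 * d) ≤
        Real.exp (2 * d * s) * B := by
      rw [div_le_iff₀ (by positivity)]
      refine h4.trans (le_of_eq ?_)
      simp; ring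
    have h6 := heat_egf_le hs0 (0 : Site d)
    have h7 : Real.exp (4 * d * s) / 4 ^ j ≤ Real.exp (2 * d * s) / 2 := by
      have e1 : 4 * d * s = 2 * d * s + j * (1 / 2) := by rw [hs]; field_simp; ring
      rw [e1, Real.exp_add, Real.exp_nat_mul, mul_div_assoc, ← div_pow,
        div_eq_mul_inv (Real.exp (2 * d * s)) 2]
      refine mul_le_mul_of_nonneg_left ?_ (Real.exp_pos _).le
      have e2 : Real.exp (1 / 2) ≤ 2 := by
        have e3 : Real.exp (1 / 2) * Real.exp (1 / 2) = Real.exp 1 := by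
          rw [← Real.exp_add]; norm_num
        nlinarith [Real.exp_one_lt_d9, Real.exp_pos (1 / 2 : ℝ)]
      calc (Real.exp (1 / 2) / 4) ^ j ≤ (2⁻¹ : ℝ) ^ j := by
            gcongr; linarith
        _ ≤ 2⁻¹ ^ 1 := pow_le_pow_of_le_one (by norm_num) (by norm_num) hj
        _ = 2⁻¹ := pow_one _
    have h8 : Real.exp (2 * d * s) * r ≤ Real.exp (2 * d * s) * (4 * B) := by
      nlinarith [mul_le_mul_of_nonneg_left h7 hr0]
    exact le_of_mul_le_mul_left h8 (Real.exp_pos _)
  · have hw : 0 ≤ s ^ n / (n.factorial : ℝ) := by positivity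
    have key : r * ((2 * d : ℝ) ^ n - (4 * d) ^ n / 4 ^ j) ≤
        WD d n 0 + WD d (n + 1) 0 / (2 * d) := by
      have p0 := MP_a3b629_pr.WD_nonneg d n 0
      have p1 : 0 ≤ WD d (n + 1) 0 / (2 * d) :=
        div_nonneg (MP_a3b629_pr.WD_nonneg d (n + 1) 0) (by positivity)
      by_cases hn : j + j ≤ n
      · have : (2 * d : ℝ) ^ n ≤ (4 * d) ^ n / 4 ^ j := by
          rw [le_div_iff₀ (by positivity), show (4 * d : ℝ) = 2 * d * 2 by ring, mul_pow _ 2,
            show (4 : ℝ) ^ j = 2 ^ (j + j) by rw [pow_add, ← mul_pow]; norm_num]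
          gcongr; norm_num
        nlinarith
      · have e0 : WD d n 0 = (2 * d) ^ n * srw d n 0 := by
          rw [MP_a3b629_pr.srw_eq]; field_simp
        have e1 : WD d (n + 1) 0 / (2 * d) = (2 * d) ^ n * srw d (n + 1) 0 := by
          rw [MP_a3b629_pr.srw_eq]; field_simp; ring
        have q0 := MP_a3b629_pr.srw_nonneg d n 0
        have q1 := MP_a3b629_pr.srw_nonneg d (n + 1) 0
        have e2 : r ≤ srw d n 0 + srw d (n + 1) 0 := by
          rcases Nat.even_or_odd' n with ⟨i, rfl | rfl⟩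
          · have := heat_anti hd (show i ≤ j by omega)
            rw [← two_mul i] at this
            linarith
          · have := heat_anti hd (show i + 1 ≤ j by omega)
            rw [show i + 1 + (i + 1) = 2 * i + 1 + 1 by ring] at this
            linarith
        have e3 : 0 ≤ r * ((4 * d : ℝ) ^ n / 4 ^ j) := by positivity
        have e4 : (0 : ℝ) ≤ (2 * d) ^ n := by positivity
        rw [e0, e1]
        nlinarith [mul_le_mul_of_nonneg_left e2 e4]
    have e5 : (∑ i : Fin d, (s ^ n / (n.factorial : ℝ) * WD d n ((0 : Site d) - Pi.single i 1) +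
        s ^ n / (n.factorial : ℝ) * WD d n ((0 : Site d) + Pi.single i 1))) =
        s ^ n / (n.factorial : ℝ) * WD d (n + 1) 0 := by
      rw [WD, Finset.mul_sum]
      exact Finset.sum_congr rfl fun i _ => by ring
    rw [e5]
    have := mul_le_mul_of_nonneg_left key hw
    calc _ = s ^ n / (n.factorial : ℝ) * (r * ((2 * d : ℝ) ^ n - (4 * d) ^ n / 4 ^ j)) := by ring
      _ ≤ _ := this
      _ = _ := by ring

theorem heat_srw (hd : 1 ≤ d) (n : ℕ) (x : Site d) :
    srw d n x ≤ 4 * (3 ^ d * (((n : ℝ) + 1) / (16 * d)) ^ (-(d : ℝ) / 2)) := by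
  have hd' : (1 : ℝ) ≤ d := by exact_mod_cast hd
  have hneg : -(d : ℝ) / 2 ≤ 0 := by linarith
  have h1 : srw d n x ≤ srw d (n / 2 + n / 2) 0 := by
    have a1 := heat_conv hd (n / 2) (n - n / 2) x
    rw [show n / 2 + (n - n / 2) = n by omega] at a1
    have a2 := heat_anti hd (show n / 2 ≤ n - n / 2 by omega)
    linarith
  by_cases hn : n / 2 = 0
  · have a1 : srw d (n / 2 + n / 2) 0 = 1 := by rw [hn]; simp [srw]
    have a2 : (n : ℝ) ≤ 1 := by exact_mod_cast (by omega : n ≤ 1)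
    have a3 : 1 ≤ (((n : ℝ) + 1) / (16 * d)) ^ (-(d : ℝ) / 2) := by
      refine Real.one_le_rpow_of_pos_of_le_one_of_nonpos (by positivity) ?_ hneg
      rw [div_le_one (by positivity)]; linarith
    have a4 : (1 : ℝ) ≤ 3 ^ d := one_le_pow₀ (by norm_num)
    nlinarith
  · refine h1.trans ((heat_diag hd (by omega)).trans ?_)
    have a1 : ((n : ℝ) + 1) / (16 * d) ≤ ((n / 2 : ℕ) : ℝ) / (4 * d) := by
      have a2 : (n : ℝ) + 1 ≤ 4 * ((n / 2 : ℕ) : ℝ) := by
        exact_mod_cast (by omega : n + 1 ≤ 4 * (n / 2))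
      rw [div_le_div_iff₀ (by positivity) (by positivity)]
      nlinarith
    have a3 := Real.rpow_le_rpow_of_nonpos (by positivity) a1 hneg
    gcongr

theorem heat_dlt (hd : 1 ≤ d) : ∃ C : ℝ, 1 ≤ C ∧ ∀ (n : ℕ) (x : Site d),
    avg^[n] (dlt 0) x ≤ ENNReal.ofReal (C * ((n : ℝ) + 1) ^ (-(d : ℝ) / 2)) := by
  have hd' : (1 : ℝ) ≤ d := by exact_mod_cast hd
  refine ⟨4 * (3 ^ d * (16 * d : ℝ) ^ ((d : ℝ) / 2)), ?_, fun n x => ?_⟩
  · have a4 : (1 : ℝ) ≤ 3 ^ d := one_le_pow₀ (by norm_num)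
    have a5 : (1 : ℝ) ≤ (16 * d : ℝ) ^ ((d : ℝ) / 2) :=
      Real.one_le_rpow (by linarith) (by linarith)
    nlinarith
  · rw [heat_pE hd]
    refine ENNReal.ofReal_le_ofReal ((heat_srw hd n x).trans (le_of_eq ?_))
    rw [Real.div_rpow (by positivity) (by positivity), neg_div,
      Real.rpow_neg (x := 16 * d) (by positivity)]
    field_simp

theorem heat (hd : 1 ≤ d) : ∃ C : ℝ, 1 ≤ C ∧ ∀ (n : ℕ) (f : Prof d) (x : Site d),
    avg^[n] f x ≤ ENNReal.ofReal (C * ((n : ℝ) + 1) ^ (-(d : ℝ) / 2)) * mass f := by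
  obtain ⟨C, hC, h⟩ := heat_dlt hd
  refine ⟨C, hC, fun n f x => ?_⟩
  rw [avg_iter_eq_tsum, mass, ← ENNReal.tsum_mul_left]
  refine ENNReal.tsum_le_tsum fun y => ?_
  rw [avg_iter_dlt, mul_comm]
  gcongr
  exact h n _

theorem heat_tail {θ : ℝ} (hθ : 0 < θ) {k : ℝ} (hk : 0 < k) :
    (k + 1) ^ (-1 - θ) ≤ (k ^ (-θ) - (k + 1) ^ (-θ)) / θ := by
  have hk1 : 0 < k + 1 := by linarith
  have h1 : Real.log (k / (k + 1)) ≤ -(1 / (k + 1)) := by
    have := Real.log_le_sub_one_of_pos (div_pos hk hk1)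
    refine this.trans (le_of_eq ?_)
    field_simp; ring
  have h2 : 1 + θ * (1 / (k + 1)) ≤ (k / (k + 1)) ^ (-θ) := by
    rw [Real.rpow_def_of_pos (div_pos hk hk1)]
    have := Real.add_one_le_exp (Real.log (k / (k + 1)) * -θ)
    nlinarith
  have h3 : k ^ (-θ) = (k + 1) ^ (-θ) * (k / (k + 1)) ^ (-θ) := by
    rw [← Real.mul_rpow hk1.le (div_pos hk hk1).le]
    congr 1; field_simp
  have h4 : (k + 1) ^ (-1 - θ) = (k + 1) ^ (-θ) * (1 / (k + 1)) := by
    rw [show -1 - θ = -θ + -1 by ring, Real.rpow_add hk1, Real.rpow_neg_one, one_div]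
  have h5 : 0 < (k + 1) ^ (-θ) := Real.rpow_pos_of_pos hk1 _
  rw [le_div_iff₀ hθ, h4, h3]
  nlinarith [mul_le_mul_of_nonneg_left h2 h5.le]

theorem tail_sum {θ : ℝ} (hθ : 0 < θ) {m : ℕ} (hm : 1 ≤ m) :
    ∑' i : ℕ, ENNReal.ofReal ((((i + m : ℕ) : ℝ) + 1) ^ (-1 - θ)) ≤
      ENNReal.ofReal ((m : ℝ) ^ (-θ) / θ) := by
  have hm' : (0 : ℝ) < m := by exact_mod_cast hm
  have h : ∀ N : ℕ, ∑ i ∈ Finset.range N, (((i + m : ℕ) : ℝ) + 1) ^ (-1 - θ) ≤
      ((m : ℝ) ^ (-θ) - ((N + m : ℕ) : ℝ) ^ (-θ)) / θ := by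
    intro N
    induction N with
    | zero => simp
    | succ N ih =>
      rw [Finset.sum_range_succ]
      have a1 := heat_tail hθ (k := ((N + m : ℕ) : ℝ)) (by positivity)
      have a2 : ((N + 1 + m : ℕ) : ℝ) = ((N + m : ℕ) : ℝ) + 1 := by push_cast; ring
      rw [a2]
      refine (add_le_add ih a1).trans (le_of_eq ?_)
      ring
  refine ENNReal.tsum_le_of_sum_range_le fun N => ?_
  rw [← ENNReal.ofReal_sum_of_nonneg fun i _ => by positivity]
  refine ENNReal.ofReal_le_ofReal ((h N).trans ?_)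
  have : 0 ≤ ((N + m : ℕ) : ℝ) ^ (-θ) := by positivity
  gcongr
  linarith

/-- The box of radius `R`. -/
noncomputable def box (d R : ℕ) : Finset (Site d) :=
  Fintype.piFinset fun _ => Finset.Icc (-(R : ℤ)) R

theorem card_box (R : ℕ) : (box d R).card = (2 * R + 1) ^ d := by
  have h : ((R : ℤ) + 1 - -(R : ℤ)).toNat = 2 * R + 1 := by omega
  simp only [box, Fintype.card_piFinset, Int.card_Icc, h, Finset.prod_const, Finset.card_univ,
    Fintype.card_fin]

theorem heat_mem_box {R : ℕ} {x : Site d} : x ∈ box d R ↔ ∀ i, -(R : ℤ) ≤ x i ∧ x i ≤ R := by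
  simp only [box, Fintype.mem_piFinset, Finset.mem_Icc]

theorem heat_dual (k : ℕ) (f g : Prof d) :
    ∑' x, f x * avg^[k] g x = ∑' x, avg^[k] f x * g x := by
  induction k generalizing f with
  | zero => rfl
  | succ k ih =>
    rw [Function.iterate_succ_apply', Function.iterate_succ_apply, ← tsum_avg_mul, ih]

theorem heat_avg_exp (hd : 1 ≤ d) (s : ℝ) (i : Fin d) (x : Site d) :
    avg (fun y : Site d => ENNReal.ofReal (Real.exp (s * y i))) x ≤
      ENNReal.ofReal (Real.exp (s ^ 2 / 2)) * ENNReal.ofReal (Real.exp (s * x i)) := by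
  unfold avg
  have h : ∀ j : Fin d, ENNReal.ofReal (Real.exp (s * ((x - Pi.single j 1 : Site d) i : ℤ))) +
      ENNReal.ofReal (Real.exp (s * ((x + Pi.single j 1 : Site d) i : ℤ))) ≤
      2 * (ENNReal.ofReal (Real.exp (s ^ 2 / 2)) * ENNReal.ofReal (Real.exp (s * x i))) := by
    intro j
    rw [← ENNReal.ofReal_add (Real.exp_pos _).le (Real.exp_pos _).le,
      ← ENNReal.ofReal_mul (Real.exp_pos _).le, ← ENNReal.ofReal_ofNat 2,
      ← ENNReal.ofReal_mul (by norm_num)]
    refine ENNReal.ofReal_le_ofReal ?_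
    have hx := Real.exp_pos (s * x i)
    by_cases hij : i = j
    · subst hij
      have a1 := Real.cosh_le_exp_half_sq s
      rw [Real.cosh_eq] at a1
      simp only [Pi.sub_apply, Pi.add_apply, Pi.single_eq_same, Int.cast_sub, Int.cast_add,
        Int.cast_one, mul_sub, mul_add, mul_one]
      rw [sub_eq_add_neg, Real.exp_add, Real.exp_add]
      nlinarith
    · have a1 : 1 ≤ Real.exp (s ^ 2 / 2) := Real.one_le_exp (by positivity)
      simp only [Pi.sub_apply, Pi.add_apply, Pi.single_eq_of_ne hij, sub_zero, add_zero]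
      nlinarith
  calc _ ≤ (2 * d : ℝ≥0∞)⁻¹ * ∑ _j : Fin d, 2 * (ENNReal.ofReal (Real.exp (s ^ 2 / 2)) *
        ENNReal.ofReal (Real.exp (s * x i))) := by
        gcongr with j
        exact h j
    _ = (2 * d : ℝ≥0∞)⁻¹ * (2 * d) * (ENNReal.ofReal (Real.exp (s ^ 2 / 2)) *
        ENNReal.ofReal (Real.exp (s * x i))) := by
        simp only [Finset.sum_const, Finset.card_univ, Fintype.card_fin, nsmul_eq_mul]; ring
    _ = _ := by rw [two_d_mul hd, one_mul]

theorem heat_iter_exp (hd : 1 ≤ d) (s : ℝ) (i : Fin d) (k : ℕ) (x : Site d) :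
    avg^[k] (fun y : Site d => ENNReal.ofReal (Real.exp (s * y i))) x ≤
      ENNReal.ofReal (Real.exp (s ^ 2 / 2)) ^ k * ENNReal.ofReal (Real.exp (s * x i)) := by
  induction k generalizing x with
  | zero => simp
  | succ k ih =>
    rw [Function.iterate_succ_apply]
    refine (avg_iter_mono k (fun y => heat_avg_exp hd s i y) x).trans ?_
    rw [avg_iter_smul, pow_succ' _ k, mul_assoc]
    exact mul_le_mul_right (ih x) _

theorem heat_mgf (hd : 1 ≤ d) (s : ℝ) (i : Fin d) (k : ℕ) :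
    ∑' x : Site d, ENNReal.ofReal (Real.exp (s * x i)) * avg^[k] (dlt 0) x ≤
      ENNReal.ofReal (Real.exp (k * (s ^ 2 / 2))) := by
  rw [heat_dual k (fun y : Site d => ENNReal.ofReal (Real.exp (s * y i))) (dlt 0),
    tsum_eq_single 0 fun y hy => by simp [dlt, hy]]
  have h := heat_iter_exp hd s i k 0
  rw [Real.exp_nat_mul, ENNReal.ofReal_pow (Real.exp_pos _).le]
  simpa [dlt] using h

theorem escape (hd : 1 ≤ d) (R : ℕ) {k L : ℕ} (hk : k ≤ L) (hL : 0 < L) :
    ∑' x, (if x ∈ box d R then 0 else 1) * avg^[k] (dlt 0) x ≤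
      ENNReal.ofReal (2 * d * Real.exp (-(R : ℝ) ^ 2 / (2 * L))) := by
  have hL' : (0 : ℝ) < L := by exact_mod_cast hL
  have hk' : (k : ℝ) ≤ L := by exact_mod_cast hk
  set s : ℝ := R / L with hs
  have hs0 : 0 ≤ s := by positivity
  set c : ℝ≥0∞ := ENNReal.ofReal (Real.exp (-(s * R))) with hc
  have h1 : ∀ x : Site d, (if x ∈ box d R then (0 : ℝ≥0∞) else 1) ≤
      c * ∑ i : Fin d, (ENNReal.ofReal (Real.exp (s * x i)) +
        ENNReal.ofReal (Real.exp (-s * x i))) := by
    intro x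
    split_ifs with hx
    · exact zero_le
    · rw [heat_mem_box, not_forall] at hx
      obtain ⟨i, hi⟩ := hx
      refine le_trans ?_ (mul_le_mul_right (Finset.single_le_sum
        (f := fun i : Fin d => ENNReal.ofReal (Real.exp (s * x i)) +
          ENNReal.ofReal (Real.exp (-s * x i))) (fun _ _ => zero_le) (Finset.mem_univ i)) c)
      rw [mul_add, hc, ← ENNReal.ofReal_mul (Real.exp_pos _).le,
        ← ENNReal.ofReal_mul (Real.exp_pos _).le, ← Real.exp_add, ← Real.exp_add]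
      by_cases h : x i ≤ R
      · have a1 : x i ≤ -(R : ℤ) := by omega
        have a2 : (x i : ℝ) ≤ -(R : ℝ) := by exact_mod_cast a1
        refine le_trans ?_ le_add_self
        rw [← ENNReal.ofReal_one]
        exact ENNReal.ofReal_le_ofReal (Real.one_le_exp (by nlinarith))
      · have a1 : (R : ℤ) ≤ x i := by omega
        have a2 : (R : ℝ) ≤ (x i : ℝ) := by exact_mod_cast a1
        refine le_trans ?_ le_self_add
        rw [← ENNReal.ofReal_one]
        exact ENNReal.ofReal_le_ofReal (Real.one_le_exp (by nlinarith))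
  set M : ℝ≥0∞ := ENNReal.ofReal (Real.exp (k * (s ^ 2 / 2))) with hM
  calc _ ≤ ∑' x : Site d, (c * ∑ i : Fin d, (ENNReal.ofReal (Real.exp (s * x i)) +
        ENNReal.ofReal (Real.exp (-s * x i)))) * avg^[k] (dlt 0) x := by
        refine ENNReal.tsum_le_tsum fun x => ?_
        gcongr
        exact h1 x
    _ = c * ∑ i : Fin d, (∑' x : Site d, ENNReal.ofReal (Real.exp (s * x i)) * avg^[k] (dlt 0) x +
        ∑' x : Site d, ENNReal.ofReal (Real.exp (-s * x i)) * avg^[k] (dlt 0) x) := by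
        simp only [mul_assoc, Finset.sum_mul, add_mul, ENNReal.tsum_mul_left, ← ENNReal.tsum_add]
        rw [Summable.tsum_finsetSum fun _ _ => ENNReal.summable]
    _ ≤ c * ∑ _i : Fin d, (M + M) := by
        gcongr with i
        · exact heat_mgf hd s i k
        · have := heat_mgf hd (-s) i k
          rwa [neg_sq] at this
    _ = ENNReal.ofReal (2 * d * Real.exp (-(s * R) + k * (s ^ 2 / 2))) := by
        rw [Real.exp_add, ENNReal.ofReal_mul (by positivity), ENNReal.ofReal_mul (by positivity),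
          ENNReal.ofReal_mul (Real.exp_pos _).le]
        simp only [Finset.sum_const, Finset.card_univ, Fintype.card_fin, nsmul_eq_mul,
          ENNReal.ofReal_ofNat, ENNReal.ofReal_natCast]
        ring
    _ ≤ _ := by
        refine ENNReal.ofReal_le_ofReal ?_
        have a1 : -(s * R) + k * (s ^ 2 / 2) ≤ -(R : ℝ) ^ 2 / (2 * L) := by
          have a2 : -(R : ℝ) ^ 2 / (2 * L) = -(s * R) + L * (s ^ 2 / 2) := by
            rw [hs]; field_simp; ring
          rw [a2]
          gcongr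
        gcongr

theorem ev_eq_zero (n : ℕ) (ω : ℕ → Layer d) {x : Site d} (hx : x ∉ box d n) :
    ev n ω (dlt 0) x = 0 := by
  induction n generalizing x with
  | zero =>
    have : x ≠ 0 := by
      rintro rfl
      exact hx (heat_mem_box.2 fun i => by simp)
    simp [dlt, this]
  | succ n ih =>
    rw [ev_succ']
    simp only [step, avg]
    rw [Finset.sum_eq_zero, mul_zero, mul_zero]
    intro j _
    have hs : ∀ i : Fin d, (0 : ℤ) ≤ (Pi.single j 1 : Site d) i ∧
        (Pi.single j 1 : Site d) i ≤ 1 := by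
      intro i
      by_cases h : i = j
      · subst h; simp
      · simp [Pi.single_eq_of_ne h]
    rw [ih, ih, add_zero]
    · intro h
      refine hx (heat_mem_box.2 fun i => ?_)
      have a1 := heat_mem_box.1 h i
      have a2 := hs i
      rw [Pi.add_apply] at a1
      push_cast
      omega
    · intro h
      refine hx (heat_mem_box.2 fun i => ?_)
      have a1 := heat_mem_box.1 h i
      have a2 := hs i
      rw [Pi.sub_apply] at a1
      push_cast
      omega

end Pool.Agent.Lib.MP_153faa_pr
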