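import Mathlib
import Pool.Agent.Lib.MP_153faa_pr.LayerL
import Pool.Agent.Lib.MP_153faa_pr.Heat

/-!
The Green quadratic form and the region of bounded second moments.
-/

set_option autoImplicit false

open MeasureTheory
open scoped ENNReal NNReal

namespace Pool.Agent.Lib.MP_153faa_pr

variable {d : ℕ} {ρ : Measure ℝ≥0} [IsProbabilityMeasure ρ]

theorem greenq_meas (j : ℕ) : Measurable fun g : Prof d => nq 2 (avg^[j] g) :=
  (measurable_nq 2).comp (measurable_avg_iter j)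

theorem measurable_Qf : Measurable (Qf : Prof d → ℝ≥0∞) :=
  Measurable.tsum fun j => greenq_meas (j + 1)

theorem greenq_le {g : Prof d} {Y : ℝ≥0∞} (h : ∀ x, g x ≤ Y) : nq 2 g ≤ Y * mass g := by
  rw [mass, ← ENNReal.tsum_mul_left]
  refine ENNReal.tsum_le_tsum fun x => ?_
  rw [ENNReal.rpow_two, sq]
  gcongr
  exact h x

theorem greenq_tail (hd : 3 ≤ d) : ∃ C : ℝ, 1 ≤ C ∧ ∀ (f : Prof d) (J : ℕ), 1 ≤ J →
    ∑' i : ℕ, nq 2 (avg^[i + J + 1] f) ≤
      ENNReal.ofReal (C * (J : ℝ) ^ (-(1 / 2) : ℝ)) * mass f ^ 2 := by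
  have h1 : 1 ≤ d := by omega
  obtain ⟨C, hC, h⟩ := heat h1
  refine ⟨C * 2, by linarith, fun f J hJ => ?_⟩
  have C0 : 0 ≤ C := by linarith
  calc ∑' i : ℕ, nq 2 (avg^[i + J + 1] f)
      ≤ ∑' i : ℕ, ENNReal.ofReal C * ENNReal.ofReal ((((i + J : ℕ) : ℝ) + 1) ^ (-1 - 1 / 2 : ℝ)) *
          mass f ^ 2 := ENNReal.tsum_le_tsum fun i => by
        refine (greenq_le (h _ f)).trans ?_
        rw [mass_avg_iter h1, mul_assoc, ← sq, ← ENNReal.ofReal_mul C0]
        have a : (1 : ℝ) ≤ ((i + J : ℕ) : ℝ) + 1 := by linarith [Nat.cast_nonneg (α := ℝ) (i + J)]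
        have b : (3 : ℝ) ≤ d := by exact_mod_cast hd
        gcongr
        refine (Real.rpow_le_rpow_of_nonpos (by linarith) (by push_cast; linarith)
          (by linarith)).trans (Real.rpow_le_rpow_of_exponent_le a (by linarith))
    _ ≤ ENNReal.ofReal C * ENNReal.ofReal ((J : ℝ) ^ (-(1 / 2) : ℝ) / (1 / 2)) * mass f ^ 2 := by
        rw [ENNReal.tsum_mul_right, ENNReal.tsum_mul_left]
        gcongr
        exact tail_sum (by norm_num) hJ
    _ = _ := by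
        rw [← ENNReal.ofReal_mul C0]
        congr 2
        ring

theorem greenq_split (f : Prof d) (J : ℕ) : Qf f = ∑ j ∈ Finset.range J, nq 2 (avg^[j + 1] f) +
    ∑' i : ℕ, nq 2 (avg^[i + J + 1] f) :=
  (Summable.sum_add_tsum_nat_add' (f := fun j => nq 2 (avg^[j + 1] f)) ENNReal.summable).symm

theorem nq_two_avg_le (hd : 1 ≤ d) (f : Prof d) : nq 2 (avg f) ≤ mass f ^ 2 := by
  simpa only [mass_avg hd, sq] using greenq_le (le_mass (avg f))

theorem gsum_ne_top (hd : 3 ≤ d) : gsum d ≠ ⊤ := by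
  obtain ⟨C, -, h⟩ := greenq_tail hd
  have a := h (dlt 0) 1 le_rfl
  have b := nq_two_avg_le (by omega) (dlt (0 : Site d))
  rw [mass_dlt, one_pow] at a b
  rw [show gsum d = Qf (dlt 0) from rfl, greenq_split _ 1, Finset.sum_range_one]
  exact ENNReal.add_ne_top.2 ⟨ne_top_of_le_ne_top ENNReal.one_ne_top b,
    ne_top_of_le_ne_top (by simp) a⟩

theorem T_mq_two (hd : 1 ≤ d) (h1 : Mean1 ρ) {χ : ℝ≥0∞} (hχ : mom ρ 2 = 1 + χ) (f : Prof d) :
    T ρ (mq 2) f = mq 2 f + χ * nq 2 (avg f) := by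
  simp only [T, mq, mass_step, lay_sq h1 hχ]
  rw [← mass_avg hd f]
  rfl

theorem greenq_shift (j : ℕ) (y : Site d) :
    ∑' x, avg^[j] (dlt y) x ^ (2 : ℝ) = nq 2 (avg^[j] (dlt (0 : Site d))) := by
  simp only [avg_iter_dlt j y]
  exact tsum_shift_sub (fun x => avg^[j] (dlt 0) x ^ (2 : ℝ)) y

theorem greenq_T (h1 : Mean1 ρ) {χ : ℝ≥0∞} (hχ : mom ρ 2 = 1 + χ) (j : ℕ) (f : Prof d) :
    T ρ (fun g => nq 2 (avg^[j] g)) f =
      nq 2 (avg^[j + 1] f) + χ * nq 2 (avg^[j] (dlt (0 : Site d))) * nq 2 (avg f) := by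
  have e : ∀ ξ x, avg^[j] (step f ξ) x = ∑' y, avg f y * avg^[j] (dlt y) x * (ξ y : ℝ≥0∞) :=
    fun ξ x => (avg_iter_eq_tsum j _ x).trans (tsum_congr fun y => by simp only [step]; ring)
  simp only [T, nq, e]
  rw [lintegral_tsum fun x => ((measurable_lin _).pow_const _).aemeasurable]
  simp only [lay_sq h1 hχ, ENNReal.tsum_add, ← avg_iter_eq_tsum, ENNReal.tsum_mul_left]
  rw [ENNReal.tsum_comm]
  simp only [ENNReal.mul_rpow_of_nonneg _ _ zero_le_two, ENNReal.tsum_mul_left, greenq_shift,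
    ENNReal.tsum_mul_right, Function.iterate_succ_apply]
  rw [mul_assoc, mul_comm (nq 2 _)]

theorem T_Qf (h1 : Mean1 ρ) {χ : ℝ≥0∞} (hχ : mom ρ 2 = 1 + χ) (f : Prof d) :
    T ρ Qf f + nq 2 (avg f) = Qf f + χ * gsum d * nq 2 (avg f) := by
  have := T_tsum (ρ := ρ) (fun j => greenq_meas (j + 1)) f
  simp only [greenq_T h1 hχ, ENNReal.tsum_add, ENNReal.tsum_mul_right,
    ENNReal.tsum_mul_left] at this
  rw [show T ρ Qf f = _ from this, greenq_split f 1, Finset.sum_range_one, add_right_comm,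
    add_comm _ (nq 2 (avg f))]
  rfl

theorem Qf_le_gsum (f : Prof d) : Qf f ≤ gsum d * mass f ^ 2 := by
  rw [gsum, ← ENNReal.tsum_mul_right]
  refine ENNReal.tsum_le_tsum fun j => ?_
  calc nq 2 (avg^[j + 1] f) ≤ ∑' x, mass f * ∑' y, f y * avg^[j + 1] (dlt y) x ^ (2 : ℝ) :=
        ENNReal.tsum_le_tsum fun x => by
          have := tsum_pow_le f (fun y => avg^[j + 1] (dlt y) x) one_le_two
          rwa [← avg_iter_eq_tsum, show (2 : ℝ) - 1 = 1 by norm_num, ENNReal.rpow_one] at this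
    _ = _ := by
        rw [ENNReal.tsum_mul_left, ENNReal.tsum_comm]
        simp only [ENNReal.tsum_mul_left, greenq_shift, ENNReal.tsum_mul_right]
        rw [sq, ← mul_assoc, mul_comm]
        rfl

theorem Qf_le (hd : 3 ≤ d) : ∃ C : ℝ, 1 ≤ C ∧ ∀ (f : Prof d) (J : ℕ) (Y : ℝ≥0∞), 1 ≤ J →
    (∀ x, f x ≤ Y) →
    Qf f ≤ J * Y * mass f + ENNReal.ofReal (C * (J : ℝ) ^ (-(1 / 2) : ℝ)) * mass f ^ 2 := by
  have h1 : 1 ≤ d := by omega
  obtain ⟨C, hC, h⟩ := greenq_tail hd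
  refine ⟨C, hC, fun f J Y hJ hY => ?_⟩
  rw [greenq_split f J]
  refine add_le_add ?_ (h f J hJ)
  refine (Finset.sum_le_card_nsmul _ _ (Y * mass f) fun j _ => ?_).trans_eq (by simp [mul_assoc])
  exact mass_avg_iter h1 (j + 1) f ▸ greenq_le (avg_iter_le h1 _ hY)

theorem L2_bdd (hd : 3 ≤ d) (h1 : Mean1 ρ) {χ : ℝ≥0∞} (hχ : mom ρ 2 = 1 + χ)
    (hlt : χ * gsum d < 1) : ∃ M : ℝ≥0∞, M ≠ ⊤ ∧ ∀ n, Mom d ρ 2 n ≤ M := by
  have hd1 : 1 ≤ d := by omega
  have mS : Measurable fun g : Prof d => nq 2 (avg g) := greenq_meas 1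
  set a : ℕ → ℝ≥0∞ := fun n => (T ρ)^[n] (fun g => nq 2 (avg g)) (dlt (0 : Site d)) with ha
  have g0 : gsum d ≠ 0 := fun e => by
    have : mass (avg (dlt (0 : Site d))) = 0 := ENNReal.tsum_eq_zero.2 fun x => by
      simpa using ENNReal.tsum_eq_zero.1 (ENNReal.tsum_eq_zero.1 e 0) x
    simp [mass_avg hd1, mass_dlt] at this
  have χt : χ ≠ ⊤ := by rintro rfl; simp [g0] at hlt
  have M1 : ∀ n, Mom d ρ 2 (n + 1) = Mom d ρ 2 n + χ * a n := fun n => by
    rw [Mom, Function.iterate_succ_apply, funext (T_mq_two hd1 h1 hχ),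
      T_iter_add n (measurable_mq 2), T_iter_const_mul n χ mS]
    rfl
  have le : ∀ n, a n ≤ Mom d ρ 2 n := fun n => T_iter_mono n (fun g =>
    (nq_two_avg_le hd1 g).trans_eq (ENNReal.rpow_two _).symm) _
  have M0 : Mom d ρ 2 0 = 1 := by simp [Mom, mq, mass_dlt]
  have fin : ∀ n, Mom d ρ 2 n ≠ ⊤ := fun n => by
    induction n with
    | zero => simp [M0]
    | succ n ih =>
      exact M1 n ▸ ENNReal.add_ne_top.2 ⟨ih, ENNReal.mul_ne_top χt (ne_top_of_le_ne_top ih (le n))⟩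
  have M2 : ∀ n, Mom d ρ 2 n = 1 + χ * ∑ i ∈ Finset.range n, a i := fun n => by
    induction n with
    | zero => simp [M0]
    | succ n ih => rw [M1, ih, Finset.sum_range_succ, mul_add, add_assoc]
  have Q : ∀ n, (T ρ)^[n] Qf (dlt (0 : Site d)) + ∑ i ∈ Finset.range n, a i =
      gsum d + χ * gsum d * ∑ i ∈ Finset.range n, a i := fun n => by
    induction n with
    | zero => simp [Qf, gsum]
    | succ n ih =>
      have := T_iter_add (ρ := ρ) n (Ψ := fun g => nq 2 (avg g)) (measurable_T (ρ := ρ) measurable_Qf)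
        (dlt (0 : Site d))
      rw [funext (T_Qf h1 hχ), T_iter_add n measurable_Qf, T_iter_const_mul n _ mS] at this
      rw [Finset.sum_range_succ, Function.iterate_succ_apply, add_comm _ (a n), ← add_assoc, ← this,
        add_right_comm, ih]
      ring
  have k0 : 1 - χ * gsum d ≠ 0 := (tsub_pos_of_lt hlt).ne'
  refine ⟨1 + χ * (gsum d / (1 - χ * gsum d)), ENNReal.add_ne_top.2 ⟨ENNReal.one_ne_top,
    ENNReal.mul_ne_top χt (ENNReal.div_ne_top (gsum_ne_top hd) k0)⟩, fun n => ?_⟩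
  rw [M2]
  gcongr
  have sf : ∑ i ∈ Finset.range n, a i ≠ ⊤ :=
    ENNReal.sum_ne_top.2 fun i _ => ne_top_of_le_ne_top (fin i) (le i)
  rw [ENNReal.le_div_iff_mul_le (.inl k0) (.inl (by simp)), mul_comm,
    ENNReal.sub_mul fun _ _ => sf, one_mul, tsub_le_iff_right, ← Q]
  exact le_add_self

end Pool.Agent.Lib.MP_153faa_pr
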