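import Mathlib
import Pool.Agent.Lib.MP_153faa_pr.Conv

/-!
Renewal inequality for the summed point-to-point moments.
-/

set_option autoImplicit false

open MeasureTheory
open scoped ENNReal NNReal

namespace Pool.Agent.Lib.MP_153faa_pr

variable {d : ℕ} {ρ : Measure ℝ≥0} [IsProbabilityMeasure ρ]

theorem telescope_up {Φ A B : Prof d → ℝ≥0∞} (hΦ : Measurable Φ)
    (h : ∀ f, T ρ Φ f + A f ≤ Φ f + B f) (N : ℕ) (f : Prof d) :
    (T ρ)^[N] Φ f + ∑ m ∈ Finset.range N, (T ρ)^[m] A f ≤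
      Φ f + ∑ m ∈ Finset.range N, (T ρ)^[m] B f := by
  induction N with
  | zero => simp
  | succ N ih =>
    have h1 : (T ρ)^[N + 1] Φ f + (T ρ)^[N] A f ≤ (T ρ)^[N] Φ f + (T ρ)^[N] B f := by
      rw [Function.iterate_succ_apply, ← T_iter_add N (measurable_T hΦ), ← T_iter_add N hΦ]
      exact T_iter_mono N h f
    rw [Finset.sum_range_succ, Finset.sum_range_succ]
    calc (T ρ)^[N + 1] Φ f + (∑ m ∈ Finset.range N, (T ρ)^[m] A f + (T ρ)^[N] A f)
        = ((T ρ)^[N + 1] Φ f + (T ρ)^[N] A f) + ∑ m ∈ Finset.range N, (T ρ)^[m] A f := by ring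
      _ ≤ ((T ρ)^[N] Φ f + (T ρ)^[N] B f) + ∑ m ∈ Finset.range N, (T ρ)^[m] A f := by gcongr
      _ = ((T ρ)^[N] Φ f + ∑ m ∈ Finset.range N, (T ρ)^[m] A f) + (T ρ)^[N] B f := by ring
      _ ≤ (Φ f + ∑ m ∈ Finset.range N, (T ρ)^[m] B f) + (T ρ)^[N] B f := by gcongr
      _ = _ := by ring

theorem telescope_down {Φ A B : Prof d → ℝ≥0∞} (hA : Measurable A) (hB : Measurable B)
    (h : ∀ f, A f + Φ f ≤ B f + T ρ Φ f) (N : ℕ) (f : Prof d) :
    ∑ m ∈ Finset.range N, (T ρ)^[m] A f + Φ f ≤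
      ∑ m ∈ Finset.range N, (T ρ)^[m] B f + (T ρ)^[N] Φ f := by
  induction N with
  | zero => simp
  | succ N ih =>
    have h1 : (T ρ)^[N] A f + (T ρ)^[N] Φ f ≤ (T ρ)^[N] B f + (T ρ)^[N + 1] Φ f := by
      rw [Function.iterate_succ_apply, ← T_iter_add N hA, ← T_iter_add N hB]
      exact T_iter_mono N h f
    rw [Finset.sum_range_succ, Finset.sum_range_succ]
    calc ∑ m ∈ Finset.range N, (T ρ)^[m] A f + (T ρ)^[N] A f + Φ f
        = (∑ m ∈ Finset.range N, (T ρ)^[m] A f + Φ f) + (T ρ)^[N] A f := by ring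
      _ ≤ (∑ m ∈ Finset.range N, (T ρ)^[m] B f + (T ρ)^[N] Φ f) + (T ρ)^[N] A f := by gcongr
      _ = ∑ m ∈ Finset.range N, (T ρ)^[m] B f + ((T ρ)^[N] A f + (T ρ)^[N] Φ f) := by ring
      _ ≤ ∑ m ∈ Finset.range N, (T ρ)^[m] B f + ((T ρ)^[N] B f + (T ρ)^[N + 1] Φ f) := by gcongr
      _ = _ := by ring

theorem T_mq_le (hd : 1 ≤ d) (h1 : Mean1 ρ) {K : ℝ≥0∞} (hK : mom ρ 2 ≤ K) {q : ℝ} (hq1 : 1 ≤ q)
    (hq2 : q ≤ 2) (f : Prof d) : T ρ (mq q) f ≤ mq q f + 8 * K * nq q (avg f) := by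
  have := lay_l1 h1 hK hq1 hq2 (avg f)
  unfold T mq
  simp only [mass_step]
  rw [← mass_avg hd f]
  exact this

theorem nq_le_mq {q : ℝ} (hq : 1 ≤ q) (f : Prof d) : nq q f ≤ mq q f := by
  unfold nq mq
  calc ∑' x, f x ^ q ≤ ∑' x, mass f ^ (q - 1) * f x := by
        refine ENNReal.tsum_le_tsum fun x => ?_
        have : f x ^ q = f x ^ (q - 1) * f x := by
          conv_lhs => rw [show q = (q - 1) + 1 by ring]
          rw [ENNReal.rpow_add_of_nonneg _ _ (by linarith) zero_le_one, ENNReal.rpow_one]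
        rw [this]
        exact mul_le_mul_left (ENNReal.rpow_le_rpow (le_mass f x) (by linarith)) _
    _ = mass f ^ q := by
        rw [ENNReal.tsum_mul_left]
        conv_rhs => rw [show q = (q - 1) + 1 by ring]
        rw [ENNReal.rpow_add_of_nonneg _ _ (by linarith) zero_le_one, ENNReal.rpow_one]
        rfl

theorem Am_le_Mom {q : ℝ} (hq : 1 ≤ q) (n : ℕ) : Am d ρ q n ≤ Mom d ρ q n :=
  T_iter_mono n (nq_le_mq hq) _

theorem Mom_le_sum (hd : 1 ≤ d) (h1 : Mean1 ρ) {K : ℝ≥0∞} (hK : mom ρ 2 ≤ K) {q : ℝ}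
    (hq1 : 1 ≤ q) (hq2 : q ≤ 2) (n : ℕ) :
    Mom d ρ q n ≤ 1 + 8 * K * ∑ k ∈ Finset.range n, Am d ρ q k := by
  have h := telescope_up (ρ := ρ) (A := fun _ => 0) (B := fun f => 8 * K * nq q f)
    (measurable_mq q) (fun f => by
      rw [add_zero]
      exact (T_mq_le hd h1 hK hq1 hq2 f).trans (by gcongr; exact nq_avg_le hd hq1 f)) n (dlt 0)
  refine le_trans (le_self_add.trans h) (le_of_eq ?_)
  simp only [T_iter_const_mul _ _ (measurable_nq q), ← Finset.mul_sum]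
  simp [mq, mass_dlt, Am]

theorem Mom_ne_top (hd : 1 ≤ d) (h1 : Mean1 ρ) (hK : mom ρ 2 ≠ ⊤) {q : ℝ}
    (hq1 : 1 ≤ q) (hq2 : q ≤ 2) (n : ℕ) : Mom d ρ q n ≠ ⊤ := by
  induction n using Nat.strong_induction_on with
  | _ n ih =>
    refine ne_top_of_le_ne_top ?_ (Mom_le_sum hd h1 le_rfl hq1 hq2 n)
    refine ENNReal.add_ne_top.2 ⟨by simp, ENNReal.mul_ne_top (ENNReal.mul_ne_top (by simp) hK) ?_⟩
    exact ENNReal.sum_ne_top.2 fun k hk =>
      ne_top_of_le_ne_top (ih k (Finset.mem_range.1 hk)) (Am_le_Mom hq1 k)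

/-- `i` averaged steps followed by `r` true steps. -/
noncomputable def Psi (ρ : Measure ℝ≥0) [IsProbabilityMeasure ρ] (q : ℝ) (r i : ℕ)
    (f : Prof d) : ℝ≥0∞ := (T ρ)^[r] (nq q) (avg^[i] f)

theorem measurable_Psi (q : ℝ) (r i : ℕ) : Measurable (Psi ρ q r i : Prof d → ℝ≥0∞) :=
  (measurable_T_iter r (measurable_nq q)).comp (measurable_avg_iter i)

theorem ev_avg_iter (r i : ℕ) (ω : ℕ → Layer d) (g : Prof d) (x : Site d) :
    ev r ω (avg^[i] g) x = ∑' z, g z * ev r ω (avg^[i] (dlt z)) x := by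
  have : avg^[i] g = fun y => ∑' z, g z * avg^[i] (dlt z) y := funext (avg_iter_eq_tsum i g)
  rw [this, ev_tsum r ω (fun z y => g z * avg^[i] (dlt z) y)]
  simp only [ev_smul]

theorem Psi_dlt (q : ℝ) (r i : ℕ) (z : Site d) :
    Psi ρ q r i (dlt z) = Psi ρ q r i (dlt (0 : Site d)) := by
  unfold Psi
  rw [← sh_dlt z, avg_iter_sh, T_iter_sh r (measurable_nq q)]
  simp only [nq_sh]

theorem T_Psi (h1 : Mean1 ρ) {K : ℝ≥0∞} (hK : mom ρ 2 ≤ K) {q : ℝ} (hq1 : 1 ≤ q)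
    (hq2 : q ≤ 2) (r i : ℕ) (f : Prof d) :
    T ρ (Psi ρ q r i) f ≤
      Psi ρ q r (i + 1) f + 8 * K * (nq q (avg f) * Psi ρ q r i (dlt (0 : Site d))) := by
  have hq0 : 0 ≤ q := by linarith
  set B : (ℕ → Layer d) → Site d → Site d → ℝ≥0∞ := fun ω z x => ev r ω (avg^[i] (dlt z)) x with hB
  have hBm : ∀ z x, Measurable fun ω => B ω z x := fun z x =>
    (measurable_pi_apply x).comp (measurable_ev r _)
  have hm : ∀ x, Measurable fun p : Layer d × (ℕ → Layer d) =>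
      (∑' z, (avg f z * B p.2 z x) * (p.1 z : ℝ≥0∞)) ^ q := fun x =>
    (Measurable.tsum fun z => (((hBm z x).comp measurable_snd).const_mul _).mul
      ((measurable_pi_apply z).comp measurable_fst).coe_nnreal_ennreal).pow_const q
  have e1 : T ρ (Psi ρ q r i) f = ∫⁻ ξ, ∫⁻ ω, ∑' x,
      (∑' z, (avg f z * B ω z x) * (ξ z : ℝ≥0∞)) ^ q ∂env d ρ ∂lay d ρ := by
    unfold T Psi
    refine lintegral_congr fun ξ => ?_
    rw [T_iter_eq r (measurable_nq q)]
    refine lintegral_congr fun ω => tsum_congr fun x => ?_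
    rw [ev_avg_iter]
    congr 1
    refine tsum_congr fun z => ?_
    simp only [step, hB]; ring
  have e2 : Psi ρ q r (i + 1) f = ∫⁻ ω, ∑' x, (∑' z, avg f z * B ω z x) ^ q ∂env d ρ := by
    unfold Psi
    rw [T_iter_eq r (measurable_nq q), Function.iterate_succ_apply]
    refine lintegral_congr fun ω => tsum_congr fun x => ?_
    rw [ev_avg_iter]
  have e3 : nq q (avg f) * Psi ρ q r i (dlt (0 : Site d)) =
      ∫⁻ ω, ∑' x, ∑' z, (avg f z * B ω z x) ^ q ∂env d ρ := by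
    have : ∀ ω, ∑' x, ∑' z, (avg f z * B ω z x) ^ q =
        ∑' z, avg f z ^ q * nq q (ev r ω (avg^[i] (dlt z))) := fun ω => by
      rw [ENNReal.tsum_comm]
      refine tsum_congr fun z => ?_
      simp only [nq, ← ENNReal.tsum_mul_left, ENNReal.mul_rpow_of_nonneg _ _ hq0, hB]
    have hn : ∀ z : Site d, Measurable fun ω => nq q (ev r ω (avg^[i] (dlt z))) := fun z =>
      (measurable_nq q).comp (measurable_ev r _)
    simp only [this]
    rw [lintegral_tsum fun z => ((hn z).const_mul _).aemeasurable]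
    rw [nq, ← ENNReal.tsum_mul_right]
    refine tsum_congr fun z => ?_
    rw [lintegral_const_mul _ (hn z), ← Psi_dlt q r i z, Psi, T_iter_eq r (measurable_nq q)]
  have hm3 : Measurable fun ω => ∑' x, ∑' z, (avg f z * B ω z x) ^ q :=
    Measurable.tsum fun x => Measurable.tsum fun z => ((hBm z x).const_mul _).pow_const q
  rw [e1, e2, e3, lintegral_lintegral_swap (Measurable.tsum hm).aemeasurable,
    ← lintegral_const_mul _ hm3, ← lintegral_add_right _ (hm3.const_mul _)]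
  refine lintegral_mono fun ω => ?_
  have hm4 : ∀ x, Measurable fun ξ : Layer d =>
      (∑' z, (avg f z * B ω z x) * (ξ z : ℝ≥0∞)) ^ q := fun x => (measurable_lin _).pow_const q
  rw [lintegral_tsum fun x => (hm4 x).aemeasurable,
    ← ENNReal.tsum_mul_left, ← ENNReal.tsum_add]
  exact ENNReal.tsum_le_tsum fun x => lay_l1 h1 hK hq1 hq2 _

/-- The renewal criterion for bounded moments. -/
theorem weak_core (hd : 1 ≤ d) (h1 : Mean1 ρ) {K : ℝ≥0∞} (hK : mom ρ 2 ≤ K) (hKt : K ≠ ⊤)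
    {q : ℝ} (hq1 : 1 ≤ q) (hq2 : q ≤ 2) (r : ℕ)
    (hβ : 8 * K * ∑' i, Psi ρ q r i (dlt (0 : Site d)) ≤ 2⁻¹) :
    ∃ M : ℝ≥0∞, M ≠ ⊤ ∧ ∀ n, Mom d ρ q n ≤ M := by
  set b := ∑' i, Psi ρ q r i (dlt (0 : Site d)) with hb
  have hK1 : 1 ≤ K := (one_le_mom_two h1).trans hK
  have hbt : b ≠ ⊤ := by
    refine ne_top_of_le_ne_top (by simp : (2⁻¹ : ℝ≥0∞) ≠ ⊤) (le_trans ?_ hβ)
    calc b = 1 * 1 * b := by ring
      _ ≤ 8 * K * b := by gcongr; norm_num
  have hAt : ∀ k, Am d ρ q k ≠ ⊤ := fun k => ne_top_of_le_ne_top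
    (Mom_ne_top hd h1 (ne_top_of_le_ne_top hKt hK) hq1 hq2 k) (Am_le_Mom hq1 k)
  have key : ∀ f : Prof d, T ρ (fun g => ∑' i, Psi ρ q r i g) f + Psi ρ q r 0 f ≤
      ∑' i, Psi ρ q r i f + 2⁻¹ * nq q f := fun f => by
    rw [T_tsum (measurable_Psi q r), tsum_eq_zero_add' (f := fun i => Psi ρ q r i f)
      ENNReal.summable]
    calc ∑' i, T ρ (Psi ρ q r i) f + Psi ρ q r 0 f
        ≤ ∑' i, (Psi ρ q r (i + 1) f +
            8 * K * (nq q (avg f) * Psi ρ q r i (dlt (0 : Site d)))) + Psi ρ q r 0 f := by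
          gcongr with i; exact T_Psi h1 hK hq1 hq2 r i f
      _ = Psi ρ q r 0 f + ∑' i, Psi ρ q r (i + 1) f + 8 * K * b * nq q (avg f) := by
          rw [ENNReal.tsum_add, ENNReal.tsum_mul_left, ENNReal.tsum_mul_left]; ring
      _ ≤ _ := by gcongr; exact nq_avg_le hd hq1 f
  have hsum : ∀ N, ∑ m ∈ Finset.range N, Am d ρ q (r + m) ≤
      2 * b + ∑ m ∈ Finset.range r, Am d ρ q m := fun N => by
    have h := telescope_up (ρ := ρ) (Measurable.tsum (measurable_Psi q r)) key N (dlt 0)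
    have e1 : ∀ m, (T ρ)^[m] (Psi ρ q r 0) (dlt (0 : Site d)) = Am d ρ q (r + m) := fun m => by
      rw [Am, add_comm, Function.iterate_add_apply]; rfl
    simp only [e1, T_iter_const_mul _ _ (measurable_nq q), ← Finset.mul_sum] at h
    set S := ∑ m ∈ Finset.range N, Am d ρ q (r + m) with hS
    have hSt : S ≠ ⊤ := ENNReal.sum_ne_top.2 fun k _ => hAt _
    have h2 : ∑ m ∈ Finset.range N, (T ρ)^[m] (nq q) (dlt (0 : Site d)) ≤
        ∑ m ∈ Finset.range r, Am d ρ q m + S := by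
      rw [hS, ← Finset.sum_range_add]
      exact Finset.sum_le_sum_of_subset (Finset.range_mono (Nat.le_add_left _ _))
    have h3 : S ≤ b + 2⁻¹ * (∑ m ∈ Finset.range r, Am d ρ q m + S) :=
      (le_add_self.trans h).trans (by gcongr)
    have h4 : S + S ≤ (2 * b + ∑ m ∈ Finset.range r, Am d ρ q m) + S := by
      calc S + S = 2 * S := by ring
        _ ≤ 2 * (b + 2⁻¹ * (∑ m ∈ Finset.range r, Am d ρ q m + S)) := by gcongr
        _ = _ := by
          rw [mul_add, ← mul_assoc, ENNReal.mul_inv_cancel (by simp) (by simp)]; ring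
    exact (ENNReal.add_le_add_iff_right hSt).1 h4
  refine ⟨1 + 8 * K * (∑ m ∈ Finset.range r, Am d ρ q m +
    (2 * b + ∑ m ∈ Finset.range r, Am d ρ q m)), ?_, fun n => ?_⟩
  · have : ∑ m ∈ Finset.range r, Am d ρ q m ≠ ⊤ := ENNReal.sum_ne_top.2 fun k _ => hAt _
    finiteness
  · refine (Mom_le_sum hd h1 hK hq1 hq2 n).trans ?_
    gcongr
    calc ∑ k ∈ Finset.range n, Am d ρ q k ≤ ∑ k ∈ Finset.range (r + n), Am d ρ q k :=
          Finset.sum_le_sum_of_subset (Finset.range_mono (Nat.le_add_left _ _))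
      _ ≤ _ := by rw [Finset.sum_range_add]; gcongr; exact hsum n

end Pool.Agent.Lib.MP_153faa_pr
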