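import Mathlib
import Pool.Agent.Lib.MP_153faa_pr.WeakA
import Pool.Agent.Lib.MP_153faa_pr.GreenQ

/-!
A good lambda inequality: large mass forces localization.
-/

set_option autoImplicit false

open MeasureTheory
open scoped ENNReal NNReal

namespace Pool.Agent.Lib.MP_153faa_pr

variable {d : ℕ} {ρ : Measure ℝ≥0} [IsProbabilityMeasure ρ]

theorem two_mul_le_sq (a b : ℝ≥0∞) : 2 * a * b ≤ b ^ 2 + a ^ 2 := by
  rcases le_total a b with h | h
  · obtain ⟨s, rfl⟩ := exists_add_of_le h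
    calc 2 * a * (a + s) ≤ 2 * a * (a + s) + s ^ 2 := le_self_add
      _ = _ := by ring
  · obtain ⟨s, rfl⟩ := exists_add_of_le h
    calc 2 * (b + s) * b ≤ 2 * (b + s) * b + s ^ 2 := le_self_add
      _ = _ := by ring

theorem gap_le_sq {a b c : ℝ≥0∞} (h : a + c ≤ b) : c ^ 2 + 2 * a * b ≤ b ^ 2 + a ^ 2 := by
  obtain ⟨s, rfl⟩ := exists_add_of_le h
  calc c ^ 2 + 2 * a * (a + c + s) ≤ c ^ 2 + 2 * a * (a + c + s) + (s ^ 2 + 2 * c * s) :=
        le_self_add
    _ = _ := by ring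

theorem phase_two (hd : 1 ≤ d) (h1 : Mean1 ρ) {H : ℝ≥0} (hH : ∀ᵐ t ∂ρ, t ≤ H)
    {χ κ : ℝ≥0∞} (hχ : mom ρ 2 = 1 + χ) (hχt : χ ≠ ⊤) (hκt : κ ≠ ⊤) (hκ : 1 + κ ≤ χ * gsum d)
    {s u w A B : ℝ≥0∞} (hs : s ≠ ⊤) (hw : w ≤ s)
    (hA : ∀ f : Prof d, mass f ≤ H * (2 * s) → f ∉ setY d u → χ * Qf f ≤ A)
    (hB : ∀ f : Prof d, mass f ≤ H * (2 * s) → χ * Qf f + κ * s ^ 2 ≤ B) (n : ℕ) (f : Prof d)
    (hf : mass f ≤ H * (2 * s)) :
    κ * s ^ 2 * hit ρ (setW d (2 * s)) n f + (χ * Qf f + 2 * κ * w * mass f) ≤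
      κ * mq 2 f + (κ * w ^ 2 + A + B * hit ρ (setY d u) n f) := by
  have e2 : ∀ g : Prof d, mq 2 g = mass g ^ 2 := fun g => ENNReal.rpow_two _
  have caseY : ∀ (m : ℕ) (g : Prof d), mass g ≤ H * (2 * s) → g ∈ setY d u →
      κ * s ^ 2 * hit ρ (setW d (2 * s)) m g + (χ * Qf g + 2 * κ * w * mass g) ≤
        κ * mq 2 g + (κ * w ^ 2 + A + B * hit ρ (setY d u) m g) := fun m g hg hY => by
    rw [hit_of_mem m hY, e2]
    calc _ ≤ κ * s ^ 2 * 1 + (χ * Qf g + 2 * κ * w * mass g) := by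
          gcongr; exact hit_le_one _ _ _
      _ = κ * (2 * w * mass g) + (χ * Qf g + κ * s ^ 2) := by ring
      _ ≤ κ * (mass g ^ 2 + w ^ 2) + B := by
          gcongr
          · exact two_mul_le_sq _ _
          · exact hB g hg
      _ ≤ κ * (mass g ^ 2 + w ^ 2) + B + A := le_self_add
      _ = _ := by ring
  have caseW : ∀ (m : ℕ) (g : Prof d), mass g ≤ H * (2 * s) → g ∉ setY d u →
      g ∈ setW d (2 * s) →
      κ * s ^ 2 * hit ρ (setW d (2 * s)) m g + (χ * Qf g + 2 * κ * w * mass g) ≤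
        κ * mq 2 g + (κ * w ^ 2 + A + B * hit ρ (setY d u) m g) := fun m g hg hY hW => by
    rw [hit_of_mem m hW, e2]
    have hgap : w + s ≤ mass g := le_trans (by rw [two_mul]; gcongr) hW
    calc _ = κ * (s ^ 2 + 2 * w * mass g) + χ * Qf g := by ring
      _ ≤ κ * (mass g ^ 2 + w ^ 2) + A :=
          add_le_add (mul_le_mul_right (gap_le_sq hgap) _) (hA g hg hY)
      _ ≤ κ * (mass g ^ 2 + w ^ 2) + A + B * hit ρ (setY d u) m g := le_self_add
      _ = _ := by ring
  induction n generalizing f with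
  | zero =>
    by_cases hY : f ∈ setY d u
    · exact caseY 0 f hf hY
    by_cases hW : f ∈ setW d (2 * s)
    · exact caseW 0 f hf hY hW
    rw [hit_zero_of_not_mem hW, e2]
    calc _ = κ * (2 * w * mass f) + χ * Qf f := by ring
      _ ≤ κ * (mass f ^ 2 + w ^ 2) + A := by
          gcongr
          · exact two_mul_le_sq _ _
          · exact hA f hf hY
      _ ≤ κ * (mass f ^ 2 + w ^ 2) + A + B * hit ρ (setY d u) 0 f := le_self_add
      _ = _ := by ring
  | succ n ih =>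
    by_cases hY : f ∈ setY d u
    · exact caseY _ f hf hY
    by_cases hW : f ∈ setW d (2 * s)
    · exact caseW _ f hf hY hW
    have hlt : mass f ≤ 2 * s := (not_le.1 hW).le
    have hmt : mass f ≠ ⊤ := ne_top_of_le_ne_top (by finiteness) hlt
    have hmW := measurable_hit (ρ := ρ) (measurableSet_setW (d := d) (2 * s)) n
    have hmY := measurable_hit (ρ := ρ) (measurableSet_setY (d := d) u) n
    have h := T_mono_bdd hd hH (f := f)
      (Φ := fun g => κ * s ^ 2 * hit ρ (setW d (2 * s)) n g + (χ * Qf g + 2 * κ * w * mass g))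
      (Ψ := fun g => κ * mq 2 g + (κ * w ^ 2 + A + B * hit ρ (setY d u) n g))
      fun g hg => ih g (hg.trans (by gcongr))
    rw [T_add (hmW.const_mul _), T_add (measurable_Qf.const_mul _),
      T_add ((measurable_mq 2).const_mul _), T_add measurable_const, T_const_mul _ hmW,
      T_const_mul _ measurable_Qf, T_const_mul _ measurable_mass, T_const_mul _ (measurable_mq 2),
      T_const, T_const_mul _ hmY, T_mass hd h1, T_mq_two hd h1 hχ,
      ← hit_succ_of_not_mem n hW, ← hit_succ_of_not_mem n hY] at h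
    set S := nq 2 (avg f) with hS
    have hSt : S ≠ ⊤ := ne_top_of_le_ne_top (by finiteness) (nq_two_avg_le hd f)
    have hQ : Qf f + κ * S ≤ T ρ Qf f := by
      refine (ENNReal.add_le_add_iff_right hSt).1 ?_
      rw [T_Qf h1 hχ]
      calc Qf f + κ * S + S = Qf f + (1 + κ) * S := by ring
        _ ≤ _ := by gcongr
    refine (ENNReal.add_le_add_iff_right (a := χ * κ * S) (by finiteness)).1 ?_
    calc _ = κ * s ^ 2 * hit ρ (setW d (2 * s)) (n + 1) f +
          (χ * (Qf f + κ * S) + 2 * κ * w * mass f) := by ring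
      _ ≤ κ * s ^ 2 * hit ρ (setW d (2 * s)) (n + 1) f +
          (χ * T ρ Qf f + 2 * κ * w * mass f) := by gcongr
      _ ≤ _ := h
      _ = _ := by ring

theorem good_lambda (hd : 1 ≤ d) (h1 : Mean1 ρ) {H : ℝ≥0} (hH : ∀ᵐ t ∂ρ, t ≤ H) (hH1 : 1 ≤ H)
    {χ κ : ℝ≥0∞} (hχ : mom ρ 2 = 1 + χ) (hχt : χ ≠ ⊤) (hκt : κ ≠ ⊤) (hκ0 : κ ≠ 0)
    (hκ : 1 + κ ≤ χ * gsum d) {J E δ θ₀ C₂ : ℝ≥0∞}
    (hQ : ∀ (f : Prof d) (Y : ℝ≥0∞), (∀ x, f x ≤ Y) → Qf f ≤ J * Y * mass f + E * mass f ^ 2)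
    (hA : χ * (J * δ * (2 * H ^ 2) + E * (2 * H ^ 2) ^ 2) ≤ θ₀ * (κ * H ^ 2))
    (hB : χ * gsum d * (2 * H ^ 2) ^ 2 + κ * H ^ 2 ≤ C₂ * (κ * H ^ 2))
    {t : ℝ≥0∞} (ht0 : t ≠ 0) (htt : t ≠ ⊤) (n : ℕ) (f : Prof d) (hf : mass f ≤ H * t) :
    hit ρ (setW d (2 * (H * t))) n f ≤
      θ₀ * hit ρ (setW d t) n f + C₂ * hit ρ (setY d (δ * t)) n f := by
  have hH1' : (1 : ℝ≥0∞) ≤ H := by exact_mod_cast hH1
  have hH0 : (H : ℝ≥0∞) ≠ 0 := (zero_lt_one.trans_le hH1').ne'
  have p2 : ∀ (m : ℕ) (g : Prof d), mass g ≤ H * t →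
      hit ρ (setW d (2 * (H * t))) m g ≤ θ₀ + C₂ * hit ρ (setY d (δ * t)) m g := by
    intro m g hg
    have hgt : mass g ≠ ⊤ := ne_top_of_le_ne_top (by finiteness) hg
    have h := phase_two hd h1 hH hχ hχt hκt hκ (s := H * t) (u := δ * t) (w := mass g)
      (A := θ₀ * (κ * (H * t) ^ 2)) (B := C₂ * (κ * (H * t) ^ 2)) (by finiteness) hg
      (fun f hf hY => by
        have hY' : ∀ x, f x ≤ δ * t := fun x => (not_le.1 fun h => hY ⟨x, h⟩).le
        calc χ * Qf f ≤ χ * (J * (δ * t) * (H * (2 * (H * t))) + E * (H * (2 * (H * t))) ^ 2) :=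
              mul_le_mul_right ((hQ f _ hY').trans (by gcongr)) _
          _ = χ * (J * δ * (2 * H ^ 2) + E * (2 * H ^ 2) ^ 2) * t ^ 2 := by ring
          _ ≤ θ₀ * (κ * H ^ 2) * t ^ 2 := by gcongr
          _ = _ := by ring)
      (fun f hf => by
        calc χ * Qf f + κ * (H * t) ^ 2
            ≤ χ * (gsum d * (H * (2 * (H * t))) ^ 2) + κ * (H * t) ^ 2 := by
              gcongr; exact (Qf_le_gsum f).trans (by gcongr)
          _ = (χ * gsum d * (2 * H ^ 2) ^ 2 + κ * H ^ 2) * t ^ 2 := by ring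
          _ ≤ C₂ * (κ * H ^ 2) * t ^ 2 := by gcongr
          _ = _ := by ring) m g
      (hg.trans (by
        calc (H : ℝ≥0∞) * t = 1 * (1 * (H * t)) := by ring
          _ ≤ H * (2 * (H * t)) := by gcongr; norm_num))
    rw [show mq 2 g = mass g ^ 2 from ENNReal.rpow_two _] at h
    have h2 : κ * (H * t) ^ 2 * hit ρ (setW d (2 * (H * t))) m g ≤
        κ * (H * t) ^ 2 * (θ₀ + C₂ * hit ρ (setY d (δ * t)) m g) := by
      refine (ENNReal.add_le_add_iff_right (a := 2 * κ * mass g * mass g) (by finiteness)).1 ?_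
      calc _ ≤ κ * (H * t) ^ 2 * hit ρ (setW d (2 * (H * t))) m g +
            (χ * Qf g + 2 * κ * mass g * mass g) := by gcongr; exact le_add_self
        _ ≤ _ := h
        _ = _ := by ring
    exact (ENNReal.mul_le_mul_iff_right (by simp [hκ0, hH0, ht0]) (by finiteness)).1 h2
  induction n generalizing f with
  | zero =>
    by_cases hW : f ∈ setW d t
    · rw [hit_of_mem 0 hW, mul_one]; exact p2 0 f hf
    · have hW2 : f ∉ setW d (2 * (H * t)) := fun h => hW (le_trans (by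
        calc t = 1 * (1 * t) := by ring
          _ ≤ 2 * (H * t) := by gcongr; norm_num) h)
      rw [hit_zero_of_not_mem hW2]; exact zero_le
  | succ n ih =>
    by_cases hW : f ∈ setW d t
    · rw [hit_of_mem _ hW, mul_one]; exact p2 _ f hf
    have hW2 : f ∉ setW d (2 * (H * t)) := fun h => hW (le_trans (by
        calc t = 1 * (1 * t) := by ring
          _ ≤ 2 * (H * t) := by gcongr; norm_num) h)
    have hlt : mass f ≤ t := (not_le.1 hW).le
    have hmW := measurable_hit (ρ := ρ) (measurableSet_setW (d := d) t) n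
    have hmY := measurable_hit (ρ := ρ) (measurableSet_setY (d := d) (δ * t)) n
    rw [hit_succ_of_not_mem n hW2, hit_succ_of_not_mem n hW]
    refine (T_mono_bdd hd hH (Ψ := fun g => θ₀ * hit ρ (setW d t) n g +
      C₂ * hit ρ (setY d (δ * t)) n g) fun g hg => ih g (hg.trans (by gcongr))).trans ?_
    rw [T_add (hmW.const_mul _), T_const_mul _ hmW, T_const_mul _ hmY]
    gcongr
    exact T_hit_le _ _ _

open Classical in
theorem T_iter_ind_le (S : Set (Prof d)) (n : ℕ) (f : Prof d) :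
    (T ρ)^[n] (fun g => if g ∈ S then 1 else 0) f ≤ hit ρ S n f := by
  induction n generalizing f with
  | zero => exact le_rfl
  | succ n ih =>
    rw [Function.iterate_succ_apply']
    exact (T_mono ih f).trans (T_hit_le S n f)

theorem stop_bound (hd : 1 ≤ d) (h1 : Mean1 ρ) {H : ℝ≥0} (hH : ∀ᵐ t ∂ρ, t ≤ H)
    {p : ℝ} (hp : 1 ≤ p) (s : ℝ≥0∞) {N : ℕ} (n : ℕ) (hn : n ≤ N) (f : Prof d)
    (hf : mass f ≤ H * s) :
    (T ρ)^[n] (mq p) f ≤ (T ρ)^[n] (fun g => if mass g < s then mq p g else 0) f +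
      Mom d ρ p N * (H * s) ^ p * hit ρ (setW d s) n f := by
  have hm : Measurable fun g : Prof d => if mass g < s then mq p g else 0 :=
    Measurable.ite (measurableSet_lt measurable_mass measurable_const) (measurable_mq p)
      measurable_const
  have caseW : ∀ m ≤ N, ∀ g : Prof d, mass g ≤ H * s → g ∈ setW d s →
      (T ρ)^[m] (mq p) g ≤ (T ρ)^[m] (fun g => if mass g < s then mq p g else 0) g +
        Mom d ρ p N * (H * s) ^ p * hit ρ (setW d s) m g := fun m hm g hg hW => by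
    rw [hit_of_mem m hW, mul_one]
    refine le_add_left ((T_iter_mq_le hp m g).trans ?_)
    rw [mul_comm]
    exact mul_le_mul' (Mom_mono hd h1 hp hm) (ENNReal.rpow_le_rpow hg (by linarith))
  induction n generalizing f with
  | zero =>
    by_cases hW : f ∈ setW d s
    · exact caseW 0 hn f hf hW
    · have : mass f < s := not_le.1 hW
      simp [this]
  | succ n ih =>
    by_cases hW : f ∈ setW d s
    · exact caseW _ hn f hf hW
    have hlt : mass f ≤ s := (not_le.1 hW).le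
    have hmW := measurable_hit (ρ := ρ) (measurableSet_setW (d := d) s) n
    rw [Function.iterate_succ_apply', Function.iterate_succ_apply', hit_succ_of_not_mem n hW,
      ← T_const_mul _ hmW, ← T_add (measurable_T_iter n hm)]
    exact T_mono_bdd hd hH fun g hg => ih (by omega) g (hg.trans (by gcongr))

theorem layer_cake {l : ℝ≥0∞} (hl : 1 ≤ l) {p : ℝ} (hp : 0 ≤ p) (I : ℕ) (w : ℝ≥0∞) :
    (if w < l ^ I then w ^ p else 0) ≤
      1 + ∑ i ∈ Finset.range I, (l ^ (i + 1)) ^ p * (if l ^ i ≤ w then 1 else 0) := by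
  induction I with
  | zero =>
    split_ifs with h
    · simp only [pow_zero] at h
      simpa using ENNReal.rpow_le_one h.le hp
    · exact zero_le
  | succ I ih =>
    rw [Finset.sum_range_succ, ← add_assoc]
    by_cases h : w < l ^ I
    · have h2 : w < l ^ (I + 1) := h.trans_le (pow_le_pow_right₀ hl (by omega))
      rw [if_pos h] at ih
      rw [if_pos h2]
      exact ih.trans le_self_add
    · rw [if_pos (not_lt.1 h), mul_one]
      split_ifs with h2
      · exact le_add_left (ENNReal.rpow_le_rpow h2.le hp)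
      · exact zero_le

end Pool.Agent.Lib.MP_153faa_pr
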