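import Mathlib
import Pool.Agent.Lib.MP_153faa_pr.GoodA

/-!
Large moments of order below `1 + 2 / d` force a localized large value with a heavy tail.
-/

set_option autoImplicit false

open MeasureTheory
open scoped ENNReal NNReal

namespace Pool.Agent.Lib.MP_153faa_pr

variable {d : ℕ} {ρ : Measure ℝ≥0} [IsProbabilityMeasure ρ]

theorem tail_iter {a y : ℝ → ℝ≥0∞} {l δ C₂ C₃ p s₀ : ℝ} (hl : 1 ≤ l) (hδ0 : 0 < δ) (hδ1 : δ ≤ 1)
    (hC₂ : 0 ≤ C₂) (hp2 : p ≤ 2) (hC1 : 1 ≤ C₃)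
    (hC₃ : 8 * C₂ * l ^ 2 / δ ^ 2 ≤ C₃) (ha1 : a 1 ≤ 1)
    (hgl : ∀ t, 1 ≤ t → a (l * t) ≤ ENNReal.ofReal (1 / (2 * l ^ 2)) * a t +
      ENNReal.ofReal C₂ * y (δ * t))
    (hy : ∀ u, 0 < u → u ≤ s₀ → y u ≤ ENNReal.ofReal (4 * u ^ (-p))) (i : ℕ) (hi : l ^ i ≤ s₀) :
    a (l ^ i) ≤ ENNReal.ofReal (C₃ * (l ^ i) ^ (-p)) := by
  have hl0 : 0 < l := by linarith
  induction i with
  | zero => simpa using ha1.trans (by simpa using hC1)
  | succ i ih =>
    have hli : l ^ i ≤ s₀ := (pow_le_pow_right₀ hl (by omega)).trans hi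
    have hp : 0 < l ^ i := pow_pos hl0 i
    rw [pow_succ']
    refine (hgl _ (one_le_pow₀ hl)).trans ?_
    refine (add_le_add (mul_le_mul_right (ih hli) _) (mul_le_mul_right
      (hy _ (by positivity) ((mul_le_of_le_one_left hp.le hδ1).trans hli)) _)).trans ?_
    rw [← ENNReal.ofReal_mul (by positivity), ← ENNReal.ofReal_mul hC₂,
      ← ENNReal.ofReal_add (by positivity) (by positivity)]
    refine ENNReal.ofReal_le_ofReal ?_
    rw [Real.mul_rpow hδ0.le hp.le, Real.mul_rpow hl0.le hp.le]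
    have b1 : δ ^ (-p) ≤ 1 / δ ^ 2 := by
      rw [one_div, ← Real.rpow_natCast, ← Real.rpow_neg hδ0.le]
      exact Real.rpow_le_rpow_of_exponent_ge hδ0 hδ1 (by push_cast; linarith)
    have b2 : 1 / l ^ 2 ≤ l ^ (-p) := by
      rw [one_div, ← Real.rpow_natCast, ← Real.rpow_neg hl0.le]
      exact Real.rpow_le_rpow_of_exponent_le hl (by push_cast; linarith)
    have b3 : C₂ * (4 * (1 / δ ^ 2)) ≤ C₃ * (1 / (2 * l ^ 2)) := by
      calc C₂ * (4 * (1 / δ ^ 2)) = (8 * C₂ * l ^ 2 / δ ^ 2) * (1 / (2 * l ^ 2)) := by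
            field_simp; ring
        _ ≤ _ := by gcongr
    have hz : 0 ≤ (l ^ i) ^ (-p) := by positivity
    calc 1 / (2 * l ^ 2) * (C₃ * (l ^ i) ^ (-p)) + C₂ * (4 * (δ ^ (-p) * (l ^ i) ^ (-p)))
        ≤ 1 / (2 * l ^ 2) * (C₃ * (l ^ i) ^ (-p)) + C₂ * (4 * ((1 / δ ^ 2) * (l ^ i) ^ (-p))) := by
          gcongr
      _ = (C₃ * (1 / (2 * l ^ 2)) + C₂ * (4 * (1 / δ ^ 2))) * (l ^ i) ^ (-p) := by ring
      _ ≤ (C₃ * (1 / (2 * l ^ 2)) + C₃ * (1 / (2 * l ^ 2))) * (l ^ i) ^ (-p) := by gcongr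
      _ = C₃ * ((1 / l ^ 2) * (l ^ i) ^ (-p)) := by field_simp; ring
      _ ≤ _ := by gcongr

theorem mom_of_tail (hd : 1 ≤ d) (h1 : Mean1 ρ) {H : ℝ≥0} (hH : ∀ᵐ t ∂ρ, t ≤ H) (hH1 : 1 ≤ H)
    (hK : mom ρ 2 ≠ ⊤) {p p' l C₃ : ℝ} (hp1 : 1 ≤ p) (hpp : p ≤ p') (hp2 : p ≤ 2) (hl : 1 ≤ l)
    (hC₃ : 0 ≤ C₃) (I n : ℕ)
    (ha : ∀ i ≤ I, hit ρ (setW d (ENNReal.ofReal (l ^ i))) n (dlt 0) ≤
      ENNReal.ofReal (C₃ * (l ^ i) ^ (-p')))
    (hs : (H : ℝ) ^ 2 * C₃ * (l ^ I) ^ (p - p') ≤ 1 / 2) :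
    Mom d ρ p n ≤ ENNReal.ofReal (2 * (1 + I * (l ^ 2 * C₃))) := by
  classical
  have hl0 : 0 < l := by linarith
  have hH1' : (1 : ℝ) ≤ H := by exact_mod_cast hH1
  have hL : 1 ≤ ENNReal.ofReal l := ENNReal.one_le_ofReal.2 hl
  have hMt := Mom_ne_top hd h1 hK hp1 hp2 n
  have hlI : 1 ≤ l ^ I := one_le_pow₀ hl
  have h := stop_bound hd h1 hH hp1 (ENNReal.ofReal (l ^ I)) n le_rfl (dlt (0 : Site d)) (by
    rw [mass_dlt]
    exact one_le_mul_of_one_le_of_one_le (by exact_mod_cast hH1) (ENNReal.one_le_ofReal.2 hlI))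
  have t1 : (T ρ)^[n] (fun g => if mass g < ENNReal.ofReal (l ^ I) then mq p g else 0)
      (dlt (0 : Site d)) ≤ ENNReal.ofReal (1 + I * (l ^ 2 * C₃)) := by
    have hm : ∀ i : ℕ, Measurable fun g : Prof d =>
        if g ∈ setW d (ENNReal.ofReal (l ^ i)) then (1 : ℝ≥0∞) else 0 := fun i =>
      Measurable.ite (measurableSet_setW _) measurable_const measurable_const
    calc _ ≤ (T ρ)^[n] (fun g => 1 + ∑ i ∈ Finset.range I, ENNReal.ofReal ((l ^ (i + 1)) ^ p) *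
            if g ∈ setW d (ENNReal.ofReal (l ^ i)) then (1 : ℝ≥0∞) else 0) (dlt (0 : Site d)) := by
          refine T_iter_mono n (fun g => ?_) _
          have := layer_cake hL (by linarith : 0 ≤ p) I (mass g)
          simp only [← ENNReal.ofReal_pow hl0.le,
            ENNReal.ofReal_rpow_of_pos (pow_pos hl0 _)] at this
          refine this.trans (le_of_eq ?_)
          congr 1
          refine Finset.sum_congr rfl fun i _ => ?_
          simp only [setW, Set.mem_ofPred_eq]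
          split_ifs <;> rfl
      _ ≤ 1 + ∑ i ∈ Finset.range I, ENNReal.ofReal (l ^ 2 * C₃) := by
          rw [T_iter_add n measurable_const, T_iter_const,
            T_iter_sum n _ fun i => (hm i).const_mul _]
          gcongr with i hi
          rw [T_iter_const_mul _ _ (hm i)]
          refine (mul_le_mul_right ((T_iter_ind_le _ n _).trans
            (ha i (Finset.mem_range.1 hi).le)) _).trans ?_
          rw [← ENNReal.ofReal_mul (by positivity)]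
          refine ENNReal.ofReal_le_ofReal ?_
          have hi0 : 1 ≤ l ^ i := one_le_pow₀ hl
          have b1 : (l ^ i) ^ p * (l ^ i) ^ (-p') ≤ 1 := by
            rw [← Real.rpow_add (by linarith)]
            exact Real.rpow_le_one_of_one_le_of_nonpos hi0 (by linarith)
          have b2 : l ^ p ≤ l ^ 2 := by
            rw [← Real.rpow_natCast]
            exact Real.rpow_le_rpow_of_exponent_le hl (by push_cast; linarith)
          rw [pow_succ, Real.mul_rpow (by positivity) hl0.le]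
          calc (l ^ i) ^ p * l ^ p * (C₃ * (l ^ i) ^ (-p'))
              = ((l ^ i) ^ p * (l ^ i) ^ (-p')) * l ^ p * C₃ := by ring
            _ ≤ 1 * l ^ 2 * C₃ := by gcongr
            _ = _ := by ring
      _ = _ := by
          rw [ENNReal.ofReal_add zero_le_one (by positivity),
            ENNReal.ofReal_mul (Nat.cast_nonneg I), ENNReal.ofReal_natCast]
          simp
  have t2 : ((H : ℝ≥0∞) * ENNReal.ofReal (l ^ I)) ^ p *
      hit ρ (setW d (ENNReal.ofReal (l ^ I))) n (dlt 0) ≤ 2⁻¹ := by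
    refine (mul_le_mul_right (ha I le_rfl) _).trans ?_
    rw [← ENNReal.ofReal_coe_nnreal, ← ENNReal.ofReal_mul (by positivity),
      ENNReal.ofReal_rpow_of_pos (by positivity), ← ENNReal.ofReal_mul (by positivity),
      show (2⁻¹ : ℝ≥0∞) = ENNReal.ofReal (1 / 2) by
        rw [one_div, ENNReal.ofReal_inv_of_pos (by norm_num)]; simp]
    refine ENNReal.ofReal_le_ofReal (le_trans ?_ hs)
    rw [Real.mul_rpow (by positivity) (by positivity), sub_eq_add_neg,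
      Real.rpow_add (by positivity)]
    have b2 : (H : ℝ) ^ p ≤ (H : ℝ) ^ 2 := by
      rw [← Real.rpow_natCast]
      exact Real.rpow_le_rpow_of_exponent_le hH1' (by push_cast; linarith)
    calc (H : ℝ) ^ p * (l ^ I) ^ p * (C₃ * (l ^ I) ^ (-p'))
        ≤ (H : ℝ) ^ 2 * (l ^ I) ^ p * (C₃ * (l ^ I) ^ (-p')) := by gcongr
      _ = _ := by ring
  have t3 : Mom d ρ p n ≤ ENNReal.ofReal (1 + I * (l ^ 2 * C₃)) + Mom d ρ p n * 2⁻¹ := by
    refine h.trans ?_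
    rw [mul_assoc]
    gcongr
  refine (ENNReal.add_le_add_iff_right hMt).1 ?_
  calc Mom d ρ p n + Mom d ρ p n = 2 * Mom d ρ p n := by ring
    _ ≤ 2 * (ENNReal.ofReal (1 + I * (l ^ 2 * C₃)) + Mom d ρ p n * 2⁻¹) := by gcongr
    _ = _ := by
        rw [mul_add, mul_left_comm 2 (Mom d ρ p n), ENNReal.mul_inv_cancel (by simp) (by simp),
          mul_one, ENNReal.ofReal_mul zero_le_two]
        simp

/-- Localization of large moments. -/
theorem goodl (hd : 3 ≤ d) : ∃ x₀ : ℝ, ∀ x : ℝ, x₀ ≤ x →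
    ∀ (ρ : Measure ℝ≥0) [IsProbabilityMeasure ρ], Mean1 ρ →
      (∀ᵐ t ∂ρ, ((t : ℝ≥0) : ℝ) ≤ x ^ 2) → ∀ χ : ℝ≥0∞, mom ρ 2 = 1 + χ →
      χ ≤ ENNReal.ofReal x → 1 + ENNReal.ofReal (1 / x ^ 2) ≤ χ * gsum d → ∀ n : ℕ,
      ENNReal.ofReal (x ^ 81) < Mom d ρ (1 + 2 / d - 2 / x) n →
      ∃ u : ℝ, 2 ≤ u ∧ u ≤ Real.exp (117 * x * Real.log x) ∧
        ENNReal.ofReal (u ^ (-(1 + 2 / d - 1 / x))) <
          hit ρ (setY d (ENNReal.ofReal u)) n (dlt 0) := by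
  obtain ⟨C, hC, hQ⟩ := Qf_le hd
  obtain ⟨G, hG1, hG⟩ : ∃ G : ℝ, 1 ≤ G ∧ gsum d ≤ ENNReal.ofReal G :=
    ⟨max 1 (gsum d).toReal, le_max_left _ _, by
      conv_lhs => rw [← ENNReal.ofReal_toReal (gsum_ne_top hd)]
      exact ENNReal.ofReal_le_ofReal (le_max_right _ _)⟩
  refine ⟨max (d : ℝ) (160 * 2 ^ 36 * G * C ^ 4), fun x hx ρ _ h1 hH χ hχ hχx hκ n hM => ?_⟩
  have hd1 : 1 ≤ d := by omega
  have hdR : (3 : ℝ) ≤ d := by exact_mod_cast hd
  have hxd : (d : ℝ) ≤ x := (le_max_left _ _).trans hx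
  have hxc : 160 * 2 ^ 36 * G * C ^ 4 ≤ x := (le_max_right _ _).trans hx
  have hx3 : 3 ≤ x := by linarith
  have hx0 : 0 < x := by linarith
  have hx1 : 1 ≤ x := by linarith
  by_contra hcon
  push Not at hcon
  set H : ℝ≥0 := ⟨x ^ 2, by positivity⟩ with hHdef
  have hHR : (H : ℝ) = x ^ 2 := rfl
  have hHE : (H : ℝ≥0∞) = ENNReal.ofReal (x ^ 2) := by rw [← hHR, ENNReal.ofReal_coe_nnreal]
  have hH' : ∀ᵐ t ∂ρ, t ≤ H := hH
  have hx2 : 1 ≤ x ^ 2 := one_le_pow₀ hx1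
  have hH1 : 1 ≤ H := hx2
  set J : ℕ := ⌈(64 * C * x ^ 11) ^ 2⌉₊ with hJ
  have hx11 : 1 ≤ x ^ 11 := one_le_pow₀ hx1
  have hb : 1 ≤ 64 * C * x ^ 11 := by nlinarith
  have hb2 : 1 ≤ (64 * C * x ^ 11) ^ 2 := one_le_pow₀ hb
  have hJ1 : (64 * C * x ^ 11) ^ 2 ≤ J := Nat.le_ceil _
  have hJ2 : (J : ℝ) ≤ 2 * (64 * C * x ^ 11) ^ 2 := by
    have := Nat.ceil_lt_add_one (show 0 ≤ (64 * C * x ^ 11) ^ 2 by positivity)
    linarith
  have hJ0 : (1 : ℝ) ≤ J := hb2.trans hJ1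
  set δ : ℝ := 1 / (32 * J * x ^ 7) with hδ
  have hδ0 : 0 < δ := by positivity
  have hx7 : 1 ≤ x ^ 7 := one_le_pow₀ hx1
  have hδ1 : δ ≤ 1 := by rw [hδ, div_le_one (by positivity)]; nlinarith
  set l : ℝ := 2 * x ^ 2 with hl
  have hl1 : 1 ≤ l := by linarith
  have hJE : C * (J : ℝ) ^ (-(1 / 2) : ℝ) ≤ 1 / (64 * x ^ 11) := by
    have : (J : ℝ) ^ (-(1 / 2) : ℝ) ≤ 1 / (64 * C * x ^ 11) := by
      calc (J : ℝ) ^ (-(1 / 2) : ℝ) ≤ ((64 * C * x ^ 11) ^ 2) ^ (-(1 / 2) : ℝ) :=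
            Real.rpow_le_rpow_of_nonpos (by positivity) hJ1 (by norm_num)
        _ = _ := by
            rw [← Real.rpow_natCast, ← Real.rpow_mul (by positivity), one_div (64 * C * x ^ 11),
              ← Real.rpow_neg_one]; norm_num
    calc C * (J : ℝ) ^ (-(1 / 2) : ℝ) ≤ C * (1 / (64 * C * x ^ 11)) := by gcongr
      _ = _ := by field_simp
  have hχt : χ ≠ ⊤ := ne_top_of_le_ne_top ENNReal.ofReal_ne_top hχx
  have gl := fun (t : ℝ) (ht : 0 < t) (hf : mass (dlt (0 : Site d)) ≤ H * ENNReal.ofReal t) =>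
    good_lambda hd1 h1 hH' hH1 hχ hχt ENNReal.ofReal_ne_top
    (by simpa using hx0.ne') hκ (J := J) (E := ENNReal.ofReal (1 / (64 * x ^ 11)))
    (δ := ENNReal.ofReal δ) (θ₀ := ENNReal.ofReal (1 / (2 * l ^ 2)))
    (C₂ := ENNReal.ofReal (5 * G * x ^ 7))
    (fun f Y hY => (hQ f J Y (by exact_mod_cast hJ0) hY).trans (by
      gcongr))
    (by
      refine (mul_le_mul_left hχx _).trans ?_
      rw [hHE, ← ENNReal.ofReal_natCast J, show (2 : ℝ≥0∞) = ENNReal.ofReal 2 by simp]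
      simp (disch := positivity) only [← ENNReal.ofReal_pow, ← ENNReal.ofReal_mul,
        ← ENNReal.ofReal_add]
      refine ENNReal.ofReal_le_ofReal (le_of_eq ?_)
      rw [hδ, hl]; field_simp; ring)
    (by
      refine (add_le_add_left (mul_le_mul_left (mul_le_mul' hχx hG) _) _).trans ?_
      rw [hHE, show (2 : ℝ≥0∞) = ENNReal.ofReal 2 by simp]
      simp (disch := positivity) only [← ENNReal.ofReal_pow, ← ENNReal.ofReal_mul,
        ← ENNReal.ofReal_add]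
      refine ENNReal.ofReal_le_ofReal ?_
      have e1 : 1 / x ^ 2 * (x ^ 2) ^ 2 = x ^ 2 := by field_simp
      rw [e1]
      have : 1 * 1 * x ^ 2 ≤ G * x ^ 7 * x ^ 2 := by gcongr
      nlinarith)
    (t := ENNReal.ofReal t) (by simpa using ht) ENNReal.ofReal_ne_top n (dlt 0) hf
  set I : ℕ := ⌈38 * x⌉₊ with hI
  have hI1 : 38 * x ≤ I := Nat.le_ceil _
  have hI2 : (I : ℝ) ≤ 39 * x := by
    have := Nat.ceil_lt_add_one (show 0 ≤ 38 * x by positivity)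
    linarith
  have hlx : 1 ≤ Real.log x := by
    rw [Real.le_log_iff_exp_le hx0]; linarith [Real.exp_one_lt_d9]
  have hlI : l ^ I ≤ Real.exp (117 * x * Real.log x) := by
    have : l ≤ x ^ 3 := by rw [hl]; nlinarith
    calc l ^ I ≤ (x ^ 3) ^ I := by gcongr
      _ = Real.exp (3 * I * Real.log x) := by
          rw [← pow_mul, ← Real.exp_log (pow_pos hx0 (3 * I)), Real.log_pow]; push_cast; rfl
      _ ≤ _ := Real.exp_le_exp.2 (by nlinarith)
  have hdx : 1 / x ≤ 1 / d := by gcongr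
  have e2d : (2 : ℝ) / d = 2 * (1 / d) := by ring
  have e2x : (2 : ℝ) / x = 2 * (1 / x) := by ring
  have hxi : 0 < 1 / x := by positivity
  have hd3 : 1 / (d : ℝ) ≤ 1 / 3 := by gcongr
  have hx70 : 1 ≤ x ^ 70 := one_le_pow₀ hx1
  have ha : ∀ i ≤ I, hit ρ (setW d (ENNReal.ofReal (l ^ i))) n (dlt 0) ≤
      ENNReal.ofReal (x ^ 70 * (l ^ i) ^ (-(1 + 2 / d - 1 / x))) := by
    intro i hi
    refine tail_iter (a := fun t => hit ρ (setW d (ENNReal.ofReal t)) n (dlt 0))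
      (y := fun u => hit ρ (setY d (ENNReal.ofReal u)) n (dlt 0)) (C₂ := 5 * G * x ^ 7)
      (C₃ := x ^ 70) (p := 1 + 2 / d - 1 / x) (s₀ := Real.exp (117 * x * Real.log x)) hl1 hδ0 hδ1
      (by positivity) (by linarith) hx70 ?_ ?_ ?_ ?_ i
      ((pow_le_pow_right₀ hl1 hi).trans hlI)
    · have e : 8 * (5 * G * x ^ 7) * l ^ 2 / δ ^ 2 = 160 * G * x ^ 11 * (32 * J * x ^ 7) ^ 2 := by
        rw [hδ, hl]; field_simp; ring
      rw [e]
      calc 160 * G * x ^ 11 * (32 * J * x ^ 7) ^ 2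
          ≤ 160 * G * x ^ 11 * (32 * (2 * (64 * C * x ^ 11) ^ 2) * x ^ 7) ^ 2 := by gcongr
        _ = (160 * 2 ^ 36 * G * C ^ 4) * x ^ 69 := by ring
        _ ≤ x * x ^ 69 := by gcongr
        _ = _ := by ring
    · exact hit_le_one _ _ _
    · intro t ht
      have := gl t (by linarith) (by
        rw [mass_dlt]
        exact one_le_mul_of_one_le_of_one_le (by exact_mod_cast hH1) (ENNReal.one_le_ofReal.2 ht))
      rw [hHE, show (2 : ℝ≥0∞) = ENNReal.ofReal 2 by simp, ← ENNReal.ofReal_mul (by positivity),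
        ← ENNReal.ofReal_mul (by positivity), ← ENNReal.ofReal_mul hδ0.le, ← mul_assoc] at this
      exact this
    · intro u hu hus
      by_cases hu2 : 2 ≤ u
      · refine (hcon u hu2 hus).trans (ENNReal.ofReal_le_ofReal ?_)
        have : 0 ≤ u ^ (-(1 + 2 / (d : ℝ) - 1 / x)) := by positivity
        linarith
      · refine (hit_le_one _ _ _).trans (ENNReal.one_le_ofReal.2 ?_)
        have b1 : (2 : ℝ) ^ (-(2 : ℝ)) ≤ (2 : ℝ) ^ (-(1 + 2 / (d : ℝ) - 1 / x)) :=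
          Real.rpow_le_rpow_of_exponent_le one_le_two (by linarith)
        have b2 : (2 : ℝ) ^ (-(1 + 2 / (d : ℝ) - 1 / x)) ≤ u ^ (-(1 + 2 / (d : ℝ) - 1 / x)) :=
          Real.rpow_le_rpow_of_nonpos hu (not_le.1 hu2).le (by linarith)
        have b3 : (2 : ℝ) ^ (-(2 : ℝ)) = 1 / 4 := by
          rw [Real.rpow_neg zero_le_two, Real.rpow_two]; norm_num
        linarith
  have hm := mom_of_tail hd1 h1 hH' hH1 (by rw [hχ]; finiteness) (p := 1 + 2 / d - 2 / x)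
    (by linarith) (by linarith) (by linarith) hl1 (by positivity) I n ha ?_
  · refine absurd (hM.trans_le hm) (not_lt.2 (ENNReal.ofReal_le_ofReal ?_))
    have hx75 : 1 ≤ x ^ 75 := one_le_pow₀ hx1
    have hx6 : 3 ^ 6 ≤ x ^ 6 := by gcongr
    calc 2 * (1 + I * (l ^ 2 * x ^ 70)) ≤ 2 * (x ^ 75 + 39 * x * (l ^ 2 * x ^ 70)) := by gcongr
      _ = 314 * x ^ 75 := by rw [hl]; ring
      _ ≤ x ^ 6 * x ^ 75 := by gcongr; linarith
      _ = _ := by ring
  · have e : 1 + 2 / (d : ℝ) - 2 / x - (1 + 2 / d - 1 / x) = -(1 / x) := by ring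
    rw [e, hHR]
    have b1 : (l ^ I) ^ (-(1 / x)) ≤ (x ^ 76)⁻¹ := by
      have b2 : x ^ (76 * x) ≤ l ^ I := by
        calc x ^ (76 * x) ≤ x ^ ((2 * I : ℕ) : ℝ) :=
              Real.rpow_le_rpow_of_exponent_le hx1 (by push_cast; linarith)
          _ = (x ^ 2) ^ I := by rw [Real.rpow_natCast, pow_mul]
          _ ≤ l ^ I := by gcongr; linarith
      calc (l ^ I) ^ (-(1 / x)) ≤ (x ^ (76 * x)) ^ (-(1 / x)) :=
            Real.rpow_le_rpow_of_nonpos (by positivity) b2 (by linarith)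
        _ = _ := by
            rw [← Real.rpow_mul hx0.le, ← Real.rpow_natCast, ← Real.rpow_neg hx0.le]
            congr 1; field_simp; norm_num
    calc (x ^ 2) ^ 2 * x ^ 70 * (l ^ I) ^ (-(1 / x)) ≤ (x ^ 2) ^ 2 * x ^ 70 * (x ^ 76)⁻¹ := by gcongr
      _ = 1 / x ^ 2 := by field_simp
      _ ≤ 1 / 2 := by gcongr; nlinarith

end Pool.Agent.Lib.MP_153faa_pr
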