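import Mathlib

/-!
Pointwise inequalities for the tilting and truncation of the one-site law.
-/

set_option autoImplicit false

namespace Pool.Agent.Lib.MP_153faa_pr

theorem oneb_bern {u p : ℝ} (hu : 0 ≤ u) (hp : 1 ≤ p) : 1 + p * (u - 1) ≤ u ^ p := by
  have := one_add_mul_self_le_rpow_one_add (s := u - 1) (by linarith) hp
  rwa [add_sub_cancel] at this

theorem oneb_bern' {u p : ℝ} (hu : 0 ≤ u) (hp0 : 0 ≤ p) (hp : p ≤ 1) :
    u ^ p ≤ 1 + p * (u - 1) := by
  have := rpow_one_add_le_one_add_mul_self (s := u - 1) (by linarith) hp0 hp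
  rwa [add_sub_cancel] at this

theorem oneb_tan {x y p : ℝ} (hx : 0 < x) (hy : 0 ≤ y) (hp : 1 ≤ p) :
    x ^ p + p * x ^ (p - 1) * (y - x) ≤ y ^ p := by
  have h := oneb_bern (div_nonneg hy hx.le) hp
  have hxp : 0 < x ^ p := Real.rpow_pos_of_pos hx p
  rw [Real.div_rpow hy hx.le, le_div_iff₀ hxp] at h
  rw [Real.rpow_sub_one hx.ne']
  refine le_of_eq_of_le ?_ h
  field_simp

theorem oneb_tan' {x y p : ℝ} (hx : 0 < x) (hy : 0 ≤ y) (hp0 : 0 ≤ p) (hp : p ≤ 1) :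
    y ^ p ≤ x ^ p + p * x ^ (p - 1) * (y - x) := by
  have h := oneb_bern' (div_nonneg hy hx.le) hp0 hp
  have hxp : 0 < x ^ p := Real.rpow_pos_of_pos hx p
  rw [Real.div_rpow hy hx.le, div_le_iff₀ hxp] at h
  rw [Real.rpow_sub_one hx.ne']
  refine h.trans (le_of_eq ?_)
  field_simp

theorem oneb_diff {x y r D : ℝ} (hr0 : 0 ≤ r) (hr : r ≤ 1) (hy : 0 ≤ y) (hyx : y ≤ x)
    (hx : 1 ≤ x) (hD : x ≤ D) : r * (x - y) / D ≤ x ^ r - y ^ r := by
  have hx0 : 0 < x := by linarith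
  have h := oneb_tan' hx0 hy hr0 hr
  have h1 : 1 ≤ x ^ r := Real.one_le_rpow hx hr0
  rw [Real.rpow_sub_one hx0.ne'] at h
  have h2 : 1 / D ≤ x ^ r / x := div_le_div₀ (by linarith) h1 hx0 hD
  have h3 : 0 ≤ r * (x - y) := mul_nonneg hr0 (by linarith)
  have h4 := mul_le_mul_of_nonneg_left h2 h3
  have h5 : r * (x - y) / D = r * (x - y) * (1 / D) := by ring
  rw [h5]
  nlinarith

theorem oneb_pow_le {z e : ℝ} (hz : 0 ≤ z) (he0 : 0 ≤ e) (he : e ≤ 5) : z ^ e ≤ 1 + z ^ 5 := by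
  have h5 : 0 ≤ z ^ 5 := by positivity
  rcases le_total z 1 with h | h
  · have := Real.rpow_le_one hz h he0
    linarith
  · have := Real.rpow_le_rpow_of_exponent_le h he
    rw [show (5 : ℝ) = ((5 : ℕ) : ℝ) by norm_num, Real.rpow_natCast] at this
    linarith

theorem oneb_npow_le {z : ℝ} (hz : 0 ≤ z) {n : ℕ} (hn : n ≤ 5) : z ^ n ≤ 1 + z ^ 5 := by
  have := oneb_pow_le hz (Nat.cast_nonneg n) (by exact_mod_cast hn)
  rwa [Real.rpow_natCast] at this

/-- The covariance term. -/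
theorem oneb_cov {s r a z w : ℝ} (hs0 : 0 ≤ s) (hs : s ≤ 1) (hr0 : 0 ≤ r) (hr : r ≤ 1)
    (ha0 : 0 ≤ a) (ha : a ≤ 1) (hz : 0 < z) (hw : 1 ≤ w) :
    r * s * a * (z * (z - w) ^ 2 / (2 * (z + w) ^ 2)) ≤
      ((1 - s + s * z) ^ r - (1 - s + s * w) ^ r) * (z ^ (1 + a) / w ^ a - z) := by
  have hw0 : 0 < w := by linarith
  have hzw : 0 < z + w := by linarith
  have e1 : z ^ (1 + a) / w ^ a - z = z * ((z / w) ^ a - 1) := by
    rw [Real.rpow_add hz, Real.rpow_one, Real.div_rpow hz.le hw0.le]; ring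
  have hy0 : 1 ≤ 1 - s + s * w := by nlinarith
  have hX : 0 ≤ 1 - s + s * z := by nlinarith
  rw [e1]
  rcases le_total w z with h | h
  · have hA := oneb_diff (x := 1 - s + s * z) (y := 1 - s + s * w) (D := 2 * (z + w)) hr0 hr
      (by linarith) (by nlinarith) (by nlinarith) (by nlinarith)
    have hu : 1 ≤ z / w := by rw [le_div_iff₀ hw0]; linarith
    have hB := oneb_diff (x := z / w) (y := 1) (D := (z + w) / w) ha0 ha zero_le_one hu hu
      (div_le_div_of_nonneg_right (by linarith) hw0.le)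
    rw [Real.one_rpow] at hB
    have hA' : r * (1 - s + s * z - (1 - s + s * w)) / (2 * (z + w)) =
        r * s * (z - w) / (2 * (z + w)) := by ring
    have hB' : a * (z / w - 1) / ((z + w) / w) = a * (z - w) / (z + w) := by field_simp
    rw [hA'] at hA
    rw [hB'] at hB
    have hzw' : 0 ≤ z - w := by linarith
    have h1 : 0 ≤ r * s * (z - w) / (2 * (z + w)) := by positivity
    have h2 : 0 ≤ a * (z - w) / (z + w) := by positivity
    have h3 := mul_le_mul hA (mul_le_mul_of_nonneg_left hB hz.le) (by positivity) (h1.trans hA)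
    refine le_of_eq_of_le ?_ h3
    field_simp
  · have hA := oneb_diff (x := 1 - s + s * w) (y := 1 - s + s * z) (D := 2 * (z + w)) hr0 hr
      hX (by nlinarith) hy0 (by nlinarith)
    have hu : z / w ≤ 1 := by rw [div_le_iff₀ hw0]; linarith
    have hB := oneb_diff (x := 1) (y := z / w) (D := (z + w) / w) ha0 ha (by positivity) hu le_rfl
      (by rw [le_div_iff₀ hw0]; linarith)
    rw [Real.one_rpow] at hB
    have hA' : r * (1 - s + s * w - (1 - s + s * z)) / (2 * (z + w)) =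
        r * s * (w - z) / (2 * (z + w)) := by ring
    have hB' : a * (1 - z / w) / ((z + w) / w) = a * (w - z) / (z + w) := by field_simp
    rw [hA'] at hA
    rw [hB'] at hB
    have hzw' : 0 ≤ w - z := by linarith
    have h1 : 0 ≤ r * s * (w - z) / (2 * (z + w)) := by positivity
    have h2 : 0 ≤ a * (w - z) / (z + w) := by positivity
    have h3 := mul_le_mul hA (mul_le_mul_of_nonneg_left hB hz.le) (by positivity) (h1.trans hA)
    refine le_of_eq_of_le ?_ (h3.trans (le_of_eq (by ring)))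
    field_simp
    ring

theorem oneb_quad {z w α : ℝ} (hz : 0 < z) (hw : 1 ≤ w) :
    2 * α * (z - w) ^ 2 - 16 * α ^ 2 * (1 + z ^ 5 + w ^ 4 * z⁻¹) ≤
      z * (z - w) ^ 2 / (2 * (z + w) ^ 2) := by
  have hzw : 0 < z + w := by linarith
  have hw0 : 0 < w := by linarith
  set v := 2 * (z + w) ^ 2 / z with hv
  have hv0 : 0 < v := by positivity
  have h1 : 2 * α - α ^ 2 * v ≤ 1 / v := by
    rw [le_div_iff₀ hv0]; nlinarith [sq_nonneg (α * v - 1)]
  have h2 : z * (z - w) ^ 2 / (2 * (z + w) ^ 2) = (z - w) ^ 2 * (1 / v) := by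
    rw [hv]; field_simp
  have h3 := mul_le_mul_of_nonneg_left h1 (sq_nonneg (z - w))
  have h4 : (z - w) ^ 2 * v ≤ 16 * (1 + z ^ 5 + w ^ 4 * z⁻¹) := by
    have a1 : (z - w) ^ 2 ≤ (z + w) ^ 2 := by nlinarith [mul_pos hz hw0]
    have a2 : (z + w) ^ 4 ≤ 8 * (z ^ 4 + w ^ 4) := by
      nlinarith [sq_nonneg (z - w), sq_nonneg (z + w), sq_nonneg (z ^ 2 - w ^ 2),
        mul_nonneg (sq_nonneg (z - w)) (sq_nonneg (z + w)), sq_nonneg ((z - w) ^ 2),
        mul_nonneg (sq_nonneg (z - w)) (add_pos (mul_pos hz hz) (mul_pos hw0 hw0)).le]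
    have a3 := oneb_npow_le hz.le (n := 3) (by norm_num)
    calc (z - w) ^ 2 * v ≤ (z + w) ^ 2 * v := mul_le_mul_of_nonneg_right a1 hv0.le
      _ = 2 * (z + w) ^ 4 / z := by rw [hv]; ring
      _ ≤ 2 * (8 * (z ^ 4 + w ^ 4)) / z := by gcongr
      _ = 16 * (z ^ 3 + w ^ 4 * z⁻¹) := by field_simp; ring
      _ ≤ _ := by linarith
  have h5 := mul_le_mul_of_nonneg_left h4 (sq_nonneg α)
  rw [h2]
  nlinarith

theorem oneb_up {X p q : ℝ} (hX : 0 < X) (hp : 1 ≤ p) (hpq : p ≤ q) (hq : q ≤ 2) :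
    X ^ q ≤ X ^ p + (q - p) * ((X - 1) + (X + 1) * (X - 1) ^ 2) := by
  have h1 := oneb_bern' hX.le (p := q - p) (by linarith) (by linarith)
  have hXp : 0 < X ^ p := Real.rpow_pos_of_pos hX p
  have h2 : X ^ q = X ^ p * X ^ (q - p) := by rw [← Real.rpow_add hX]; congr 1; ring
  have h3 : (X ^ p - 1) * (X - 1) ≤ (X + 1) * (X - 1) ^ 2 := by
    have e2 : X ^ (2 : ℝ) = X ^ 2 := by norm_cast
    rcases le_total X 1 with h | h
    · have := Real.rpow_le_rpow_of_exponent_ge hX h (show p ≤ 2 by linarith)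
      rw [e2] at this
      nlinarith [mul_nonneg (sub_nonneg.2 this) (sub_nonneg.2 h)]
    · have := Real.rpow_le_rpow_of_exponent_le h (show p ≤ 2 by linarith)
      rw [e2] at this
      nlinarith [mul_nonneg (sub_nonneg.2 this) (sub_nonneg.2 h)]
  have h4 := mul_le_mul_of_nonneg_left h1 hXp.le
  have h5 := mul_le_mul_of_nonneg_left h3 (sub_nonneg.2 hpq)
  rw [h2]
  nlinarith

theorem oneb_psi {s r z w : ℝ} (hs0 : 0 ≤ s) (hs : s ≤ 1) (hr0 : 0 ≤ r) (hr : r ≤ 1)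
    (hz : 0 < z) (hw : 1 ≤ w) :
    (1 - s + s * z) ^ r - (1 - s + s * w) ^ r ≤ s * z ∧
      (1 - s + s * w) ^ r - (1 - s + s * z) ^ r ≤ s * w := by
  have hy0 : 1 ≤ 1 - s + s * w := by nlinarith
  have hsz : 0 ≤ s * z := by positivity
  have hX : 0 < 1 - s + s * z := by
    rcases eq_or_lt_of_le hs with h | h
    · rw [h]; linarith
    · linarith
  have h1 : 1 ≤ (1 - s + s * w) ^ r := Real.one_le_rpow hy0 hr0
  have h2 : (1 - s + s * w) ^ r ≤ 1 - s + s * w := Real.rpow_le_self_of_one_le hy0 hr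
  rcases le_total (1 - s + s * z) 1 with h | h
  · have h3 := Real.rpow_le_one hX.le h hr0
    have h4 := Real.self_le_rpow_of_le_one hX.le h hr
    constructor <;> linarith
  · have h3 := Real.one_le_rpow h hr0
    have h4 := Real.rpow_le_self_of_one_le h hr
    constructor <;> linarith

theorem oneb_tail {a z m H : ℝ} (ha0 : 0 ≤ a) (ha : a ≤ 1) (hz : 0 < z) (hm : 1 ≤ m)
    (hH : 0 < H) : max (z ^ (1 + a) / m - H) 0 ≤ (1 + z ^ 5) / H ∧
      z * max (z ^ (1 + a) / m - H) 0 ≤ (1 + z ^ 5) / H := by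
  have hu : 0 < z ^ (1 + a) := Real.rpow_pos_of_pos hz _
  have h1 : z ^ (1 + a) / m ≤ z ^ (1 + a) := div_le_self hu.le hm
  have h2 : max (z ^ (1 + a) / m - H) 0 ≤ (z ^ (1 + a)) ^ 2 / H := by
    refine max_le ?_ (by positivity)
    rw [le_div_iff₀ hH]
    nlinarith [sq_nonneg (z ^ (1 + a) - H), mul_pos hu hH]
  have e1 : (z ^ (1 + a)) ^ 2 = z ^ (2 + 2 * a) := by
    rw [sq, ← Real.rpow_add hz]; congr 1; ring
  have e2 : z * z ^ (2 + 2 * a) = z ^ (3 + 2 * a) := by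
    rw [show 3 + 2 * a = 1 + (2 + 2 * a) by ring, Real.rpow_add hz 1, Real.rpow_one]
  rw [e1] at h2
  have h3 := oneb_pow_le hz.le (e := 2 + 2 * a) (by linarith) (by linarith)
  have h4 := oneb_pow_le hz.le (e := 3 + 2 * a) (by linarith) (by linarith)
  refine ⟨h2.trans (by gcongr), ?_⟩
  calc z * max (z ^ (1 + a) / m - H) 0 ≤ z * (z ^ (2 + 2 * a) / H) := by gcongr
    _ = z ^ (3 + 2 * a) / H := by rw [← e2]; ring
    _ ≤ _ := by gcongr

/-- The main pointwise inequality. -/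
theorem oneb_pt {s p q a z w H c : ℝ} (α : ℝ) (hs0 : 0 ≤ s) (hs : s ≤ 1) (hp : 1 ≤ p)
    (hpq : p ≤ q) (hq : q ≤ 2) (ha0 : 0 ≤ a) (ha : a ≤ 1) (hz : 0 < z) (hw : 1 ≤ w)
    (hH : 0 < H) (hc : 0 ≤ c) :
    (1 - s + s * z) ^ q +
        p * s * (1 - s + s * w) ^ (p - 1) * ((min (z ^ (1 + a) / w ^ a) H + c) - z) +
        p * s ^ 2 * ((p - 1) * a * (2 * α * (z - w) ^ 2 -
          16 * α ^ 2 * (1 + z ^ 5 + w ^ 4 * z⁻¹)) - (1 + z ^ 5) / H - w * c) ≤
      (1 - s + s * (min (z ^ (1 + a) / w ^ a) H + c)) ^ p +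
        (q - p) * (s * (z - 1) + s ^ 2 * (6 + 4 * z ^ 5)) := by
  have hsz : 0 ≤ s * z := by positivity
  have hX : 0 < 1 - s + s * z := by
    rcases eq_or_lt_of_le hs with h | h
    · rw [h]; linarith
    · linarith
  have hm : 1 ≤ w ^ a := Real.one_le_rpow hw ha0
  have hzp : 0 ≤ z ^ (1 + a) / w ^ a := by positivity
  have hr0 : 0 ≤ p - 1 := by linarith
  have hr : p - 1 ≤ 1 := by linarith
  have hcov := oneb_cov hs0 hs hr0 hr ha0 ha hz hw
  have hquad := oneb_quad (α := α) hz hw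
  have hpsi := oneb_psi hs0 hs hr0 hr hz hw
  have htail := (oneb_tail ha0 ha hz hm hH).2
  have hup := oneb_up hX hp hpq hq
  have hmin : min (z ^ (1 + a) / w ^ a) H =
      z ^ (1 + a) / w ^ a - max (z ^ (1 + a) / w ^ a - H) 0 := by
    rcases le_total (z ^ (1 + a) / w ^ a) H with h | h
    · rw [min_eq_left h, max_eq_right (by linarith)]; ring
    · rw [min_eq_right h, max_eq_left (by linarith)]; ring
  have hmin0 : 0 ≤ min (z ^ (1 + a) / w ^ a) H := le_min hzp hH.le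
  have hXt : 0 ≤ 1 - s + s * (min (z ^ (1 + a) / w ^ a) H + c) := by
    have : 0 ≤ s * (min (z ^ (1 + a) / w ^ a) H + c) := by positivity
    linarith
  have htan := oneb_tan hX hXt hp
  have hP0 : 0 ≤ max (z ^ (1 + a) / w ^ a - H) 0 := le_max_right _ _
  generalize (1 - s + s * (min (z ^ (1 + a) / w ^ a) H + c)) ^ p = Y at *
  rw [hmin] at *
  generalize max (z ^ (1 + a) / w ^ a - H) 0 = P at *
  generalize z ^ (1 + a) / w ^ a = zp at *
  generalize (1 - s + s * z) ^ (p - 1) = ψ at *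
  generalize (1 - s + s * w) ^ (p - 1) = ψ₀ at *
  generalize 2 * α * (z - w) ^ 2 - 16 * α ^ 2 * (1 + z ^ 5 + w ^ 4 * z⁻¹) = G at *
  generalize z * (z - w) ^ 2 / (2 * (z + w) ^ 2) = g at *
  generalize (1 + z ^ 5) / H = U at *
  have k1 : (p - 1) * s * a * G ≤ (ψ - ψ₀) * (zp - z) :=
    (mul_le_mul_of_nonneg_left hquad (by positivity)).trans hcov
  have k2 : (ψ - ψ₀) * P ≤ s * U :=
    (mul_le_mul_of_nonneg_right hpsi.1 hP0).trans
      (by rw [mul_assoc]; exact mul_le_mul_of_nonneg_left htail hs0)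
  have k3 : (ψ₀ - ψ) * c ≤ s * w * c := mul_le_mul_of_nonneg_right hpsi.2 hc
  have k4 : s * ((p - 1) * a * G - U - w * c) ≤ (ψ - ψ₀) * (zp - P + c - z) := by nlinarith
  have k5 := mul_le_mul_of_nonneg_left k4 (show 0 ≤ p * s by positivity)
  have k6 : (1 - s + s * z - 1) + (1 - s + s * z + 1) * (1 - s + s * z - 1) ^ 2 ≤
      s * (z - 1) + s ^ 2 * (6 + 4 * z ^ 5) := by
    have b1 := oneb_npow_le hz.le (n := 1) (by norm_num)
    have b2 := oneb_npow_le hz.le (n := 2) (by norm_num)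
    have b3 := oneb_npow_le hz.le (n := 3) (by norm_num)
    have b4 : (1 - s + s * z + 1) * (z - 1) ^ 2 ≤ (2 + z) * (1 + z ^ 2) :=
      mul_le_mul (by nlinarith) (by nlinarith) (sq_nonneg _) (by linarith)
    have b5 : (1 - s + s * z + 1) * (z - 1) ^ 2 ≤ 6 + 4 * z ^ 5 := by nlinarith
    have b6 := mul_le_mul_of_nonneg_left b5 (sq_nonneg s)
    nlinarith
  have k7 := mul_le_mul_of_nonneg_left k6 (sub_nonneg.2 hpq)
  nlinarith

/-- The concave pointwise inequality. -/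
theorem oneb_conc {s θ u H c : ℝ} (hs0 : 0 ≤ s) (hs : s ≤ 1) (hθ0 : 0 ≤ θ) (hθ : θ ≤ 1)
    (hu : 0 < u) (hH : 0 < H) (hc : 0 ≤ c) :
    (1 - s + s * u) ^ θ ≤ (1 - s + s * (min u H + c)) ^ θ +
      θ * (1 - s + s * (H + c)) ^ (θ - 1) * s * (u - (min u H + c)) := by
  have hpos : ∀ v : ℝ, 0 < v → 0 < 1 - s + s * v := fun v hv => by
    have : 0 ≤ s * v := by positivity
    rcases eq_or_lt_of_le hs with h | h
    · rw [h]; linarith
    · linarith
  rcases le_total u H with h | h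
  · rw [min_eq_left h]
    have h1 := oneb_tan' (hpos (u + c) (by linarith)) (hpos u hu).le hθ0 hθ
    have h2 : (1 - s + s * (H + c)) ^ (θ - 1) ≤ (1 - s + s * (u + c)) ^ (θ - 1) :=
      Real.rpow_le_rpow_of_nonpos (hpos (u + c) (by linarith)) (by nlinarith) (by linarith)
    have h3 := mul_le_mul_of_nonneg_left h2 (show 0 ≤ θ * s * c by positivity)
    nlinarith
  · rw [min_eq_right h]
    have h1 := oneb_tan' (hpos (H + c) (by linarith)) (hpos u hu).le hθ0 hθ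
    refine h1.trans (le_of_eq (by ring))

end Pool.Agent.Lib.MP_153faa_pr
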