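import Mathlib
import Pool.Agent.Lib.MP_153faa_pr.Core
import Pool.Agent.Lib.MP_153faa_pr.OneB1

set_option autoImplicit false

open MeasureTheory
open scoped ENNReal NNReal

namespace Pool.Agent.Lib.MP_153faa_pr

theorem oneb_coe_rpow (t : ℝ≥0) {r : ℝ} (hr : 0 ≤ r) :
    (t : ℝ≥0∞) ^ r = ENNReal.ofReal ((t : ℝ) ^ r) := by
  rw [← ENNReal.ofReal_rpow_of_nonneg (NNReal.coe_nonneg t) hr, ENNReal.ofReal_coe_nnreal]

theorem oneb_lint {ρ : Measure ℝ≥0} {f : ℝ≥0 → ℝ} (hf : Integrable f ρ) (h0 : ∀ t, 0 ≤ f t) :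
    ∫⁻ t, ENNReal.ofReal (f t) ∂ρ = ENNReal.ofReal (∫ t, f t ∂ρ) :=
  (ofReal_integral_eq_lintegral_ofReal hf (Filter.Eventually.of_forall h0)).symm

theorem oneb_of_lint {ρ : Measure ℝ≥0} {f : ℝ≥0 → ℝ} {K : ℝ} (hK : 0 ≤ K) (hf : Measurable f)
    (h0 : ∀ t, 0 ≤ f t) (h : ∫⁻ t, ENNReal.ofReal (f t) ∂ρ ≤ ENNReal.ofReal K) :
    Integrable f ρ ∧ ∫ t, f t ∂ρ ≤ K := by
  have hi : Integrable f ρ :=
    ⟨hf.aestronglyMeasurable, (hasFiniteIntegral_iff_ofReal (Filter.Eventually.of_forall h0)).2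
      (h.trans_lt ENNReal.ofReal_lt_top)⟩
  rw [oneb_lint hi h0] at h
  exact ⟨hi, (ENNReal.ofReal_le_ofReal_iff hK).1 h⟩

theorem oneb_scale (A c t : ℝ≥0) (hAc : 0 < (A : ℝ) + c) {q : ℝ} (hq : 0 ≤ q) :
    ((A : ℝ≥0∞) + c * t) ^ q = ((A + c : ℝ≥0) : ℝ≥0∞) ^ q *
      ENNReal.ofReal ((1 - c / (A + c) + c / (A + c) * t : ℝ) ^ q) := by
  have h0 : 0 ≤ (1 - c / (A + c) + c / (A + c) * t : ℝ) := by
    have h1 : (c : ℝ) / (A + c) ≤ 1 := by
      rw [div_le_one hAc]; linarith [A.2]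
    have h2 : 0 ≤ (c : ℝ) / (A + c) * t := by positivity
    linarith
  rw [← ENNReal.coe_mul, ← ENNReal.coe_add, oneb_coe_rpow _ hq, oneb_coe_rpow _ hq,
    ← ENNReal.ofReal_mul (by positivity), ← Real.mul_rpow (by positivity) h0]
  congr 2
  push_cast
  field_simp
  ring

theorem oneb_comp {ρ : Measure ℝ≥0} [IsProbabilityMeasure ρ] {f g : ℝ≥0 → ℝ≥0}
    (hf : Measurable f) (hg : Measurable g) (hg1 : ∫⁻ t, (g t : ℝ≥0∞) ∂ρ = 1) {p q : ℝ}
    (hp : 0 < p) (hq : 0 < q)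
    (h : ∀ s : ℝ, 0 ≤ s → s ≤ 1 → ∫⁻ t, ENNReal.ofReal ((1 - s + s * f t) ^ q) ∂ρ ≤
      (∫⁻ t, ENNReal.ofReal ((1 - s + s * g t) ^ p) ∂ρ) ^ (q / p)) :
    Comp (ρ.map f) (ρ.map g) q p := by
  intro A c
  have hqp : 0 < q / p := div_pos hq hp
  rw [lintegral_map (by fun_prop) hf, lintegral_map (by fun_prop) hg]
  by_cases hfin : ∫⁻ t, (A + c * g t) ^ p ∂ρ = ⊤
  · rw [hfin, ENNReal.top_rpow_of_pos hqp]; exact le_top
  have hae : ∀ᵐ t ∂ρ, (A + c * g t) ^ p < ⊤ := ae_lt_top (by fun_prop) hfin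
  have hA : A ≠ ⊤ := by
    rintro rfl
    obtain ⟨t, ht⟩ := hae.exists
    simp [ENNReal.top_rpow_of_pos hp] at ht
  have hc : c ≠ ⊤ := by
    rintro rfl
    have : ∀ᵐ t ∂ρ, (g t : ℝ≥0∞) = 0 := by
      filter_upwards [hae] with t ht
      by_contra h0
      rw [ENNReal.top_mul h0] at ht
      simp [ENNReal.top_rpow_of_pos hp] at ht
    rw [lintegral_congr_ae this] at hg1
    simp at hg1
  lift A to ℝ≥0 using hA
  lift c to ℝ≥0 using hc
  rcases eq_or_lt_of_le (show (0 : ℝ) ≤ A + c by positivity) with h0 | h0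
  · have hA0 : A = 0 := by
      apply NNReal.coe_injective; have := A.2; have := c.2; simp only [NNReal.coe_zero]
      change (0 : ℝ) ≤ A at *; linarith
    have hc0 : c = 0 := by
      apply NNReal.coe_injective; have := A.2; have := c.2; simp only [NNReal.coe_zero]
      change (0 : ℝ) ≤ c at *; linarith
    simp [hA0, hc0, ENNReal.zero_rpow_of_pos hq]
  simp only [oneb_scale A c _ h0 hq.le, oneb_scale A c _ h0 hp.le]
  rw [lintegral_const_mul _ (by fun_prop), lintegral_const_mul _ (by fun_prop),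
    ENNReal.mul_rpow_of_nonneg _ _ hqp.le, ← ENNReal.rpow_mul, mul_div_cancel₀ _ hp.ne']
  gcongr
  exact h _ (by positivity) (by rw [div_le_one h0]; linarith [A.2])

/-- The real form of the hypotheses on the one-site law. -/
structure OnebHyp (ρ : Measure ℝ≥0) (K c₀ : ℝ) : Prop where
  pos : ∀ᵐ t ∂ρ, (0 : ℝ) < ((t : ℝ≥0) : ℝ)
  i5 : Integrable (fun t : ℝ≥0 => (t : ℝ) ^ 5) ρ
  b5 : ∫ t, (t : ℝ) ^ 5 ∂ρ ≤ K
  im : Integrable (fun t : ℝ≥0 => (t : ℝ)⁻¹) ρ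
  bm : ∫ t, (t : ℝ)⁻¹ ∂ρ ≤ K
  m1 : ∫ t, (t : ℝ) ∂ρ = 1
  b2 : 1 + c₀ ≤ ∫ t, (t : ℝ) ^ 2 ∂ρ

theorem oneb_int {ρ : Measure ℝ≥0} [IsProbabilityMeasure ρ]
    (i5 : Integrable (fun t : ℝ≥0 => (t : ℝ) ^ 5) ρ) {f : ℝ≥0 → ℝ} (hf : Measurable f) (C : ℝ)
    (h0 : ∀ t, 0 ≤ f t) (h : ∀ t, f t ≤ C * (1 + (t : ℝ) ^ 5)) : Integrable f ρ :=
  Integrable.mono' (((integrable_const (1 : ℝ)).add i5).const_mul C) hf.aestronglyMeasurable
    (Filter.Eventually.of_forall fun t => by rw [Real.norm_of_nonneg (h0 t)]; exact h t)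

theorem oneb_int_rpow {ρ : Measure ℝ≥0} [IsProbabilityMeasure ρ]
    (i5 : Integrable (fun t : ℝ≥0 => (t : ℝ) ^ 5) ρ) {e : ℝ} (he0 : 0 ≤ e) (he : e ≤ 5) :
    Integrable (fun t : ℝ≥0 => (t : ℝ) ^ e) ρ :=
  oneb_int i5 (by fun_prop) 1 (fun t => by positivity)
    (fun t => by rw [one_mul]; exact oneb_pow_le t.2 he0 he)

theorem oneb_int_pow {ρ : Measure ℝ≥0} [IsProbabilityMeasure ρ]
    (i5 : Integrable (fun t : ℝ≥0 => (t : ℝ) ^ 5) ρ) {n : ℕ} (hn : n ≤ 5) :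
    Integrable (fun t : ℝ≥0 => (t : ℝ) ^ n) ρ :=
  oneb_int i5 (by fun_prop) 1 (fun t => by positivity)
    (fun t => by rw [one_mul]; exact oneb_npow_le t.2 hn)

theorem oneb_mom {ρ : Measure ℝ≥0} {r : ℝ} (hr : 0 ≤ r) :
    mom ρ r = ∫⁻ t, ENNReal.ofReal ((t : ℝ) ^ r) ∂ρ := by
  simp only [mom, oneb_coe_rpow _ hr]

theorem oneb_hyp {ρ : Measure ℝ≥0} [IsProbabilityMeasure ρ] {K c₀ : ℝ} (hK : 1 ≤ K)
    (hc₀ : 0 < c₀) (h1 : Mean1 ρ) (h5 : mom ρ 5 ≤ ENNReal.ofReal K)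
    (hm : mom ρ (-1) ≤ ENNReal.ofReal K) (h2 : 1 + ENNReal.ofReal c₀ ≤ mom ρ 2) :
    OnebHyp ρ K c₀ := by
  have hK0 : 0 ≤ K := by linarith
  rw [oneb_mom (by norm_num)] at h5 h2
  simp only [show (5 : ℝ) = ((5 : ℕ) : ℝ) by norm_num, Real.rpow_natCast] at h5
  simp only [Real.rpow_two] at h2
  obtain ⟨i5, b5⟩ := oneb_of_lint hK0 (by fun_prop) (fun t => by positivity) h5
  have hm' : ∫⁻ t, ENNReal.ofReal ((t : ℝ)⁻¹) ∂ρ ≤ ENNReal.ofReal K := by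
    refine (lintegral_mono fun t => ?_).trans hm
    rw [ENNReal.rpow_neg_one, ← ENNReal.ofReal_coe_nnreal]
    exact ENNReal.ofReal_inv_le
  obtain ⟨im, bm⟩ := oneb_of_lint hK0 (by fun_prop) (fun t => by positivity) hm'
  have i1 : Integrable (fun t : ℝ≥0 => (t : ℝ)) ρ := by
    simpa using oneb_int_pow i5 (n := 1) (by norm_num)
  refine ⟨?_, i5, b5, im, bm, ?_, ?_⟩
  · have hae : ∀ᵐ t ∂ρ, ((t : ℝ≥0) : ℝ≥0∞) ^ (-1 : ℝ) < ⊤ :=
      ae_lt_top (by fun_prop) (hm.trans_lt ENNReal.ofReal_lt_top).ne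
    filter_upwards [hae] with t ht
    rcases eq_or_lt_of_le (NNReal.coe_nonneg t) with h | h
    · have : t = 0 := NNReal.coe_injective h.symm
      simp [this] at ht
    · exact h
  · have := oneb_lint i1 (fun t => t.2)
    simp only [ENNReal.ofReal_coe_nnreal] at this
    rw [Mean1, this] at h1
    exact ENNReal.ofReal_eq_one.1 h1
  · rw [oneb_lint (oneb_int_pow i5 (by norm_num)) (fun t => by positivity),
      ← ENNReal.ofReal_one, ← ENNReal.ofReal_add zero_le_one hc₀.le] at h2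
    exact (ENNReal.ofReal_le_ofReal_iff (integral_nonneg fun t => by positivity)).1 h2

theorem oneb_lin {ρ : Measure ℝ≥0} [IsProbabilityMeasure ρ] {K c₀ : ℝ} (hρ : OnebHyp ρ K c₀)
    {g : ℝ≥0 → ℝ} (hg : Integrable g ρ) (b0 b1 b2 b5 bm bt : ℝ) :
    Integrable (fun t : ℝ≥0 => b0 + b1 * t + b2 * (t : ℝ) ^ 2 + b5 * (t : ℝ) ^ 5 +
      bm * (t : ℝ)⁻¹ + bt * g t) ρ ∧
    ∫ t : ℝ≥0, (b0 + b1 * t + b2 * (t : ℝ) ^ 2 + b5 * (t : ℝ) ^ 5 + bm * (t : ℝ)⁻¹ +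
      bt * g t) ∂ρ = b0 + b1 + b2 * ∫ t, (t : ℝ) ^ 2 ∂ρ + b5 * ∫ t, (t : ℝ) ^ 5 ∂ρ +
        bm * ∫ t, (t : ℝ)⁻¹ ∂ρ + bt * ∫ t, g t ∂ρ := by
  have i0 : Integrable (fun _ : ℝ≥0 => b0) ρ := integrable_const _
  have i1 : Integrable (fun t : ℝ≥0 => b1 * t) ρ :=
    Integrable.const_mul (by simpa using oneb_int_pow hρ.i5 (n := 1) (by norm_num)) _
  have i2 : Integrable (fun t : ℝ≥0 => b2 * (t : ℝ) ^ 2) ρ :=
    (oneb_int_pow hρ.i5 (by norm_num)).const_mul _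
  have i5 := hρ.i5.const_mul b5
  have im := hρ.im.const_mul bm
  have it := hg.const_mul bt
  have j1 : Integrable (fun t : ℝ≥0 => b0 + b1 * t) ρ := i0.add i1
  have j2 : Integrable (fun t : ℝ≥0 => b0 + b1 * t + b2 * (t : ℝ) ^ 2) ρ := j1.add i2
  have j3 : Integrable (fun t : ℝ≥0 => b0 + b1 * t + b2 * (t : ℝ) ^ 2 + b5 * (t : ℝ) ^ 5) ρ :=
    j2.add i5
  have j4 : Integrable (fun t : ℝ≥0 => b0 + b1 * t + b2 * (t : ℝ) ^ 2 + b5 * (t : ℝ) ^ 5 +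
      bm * (t : ℝ)⁻¹) ρ := j3.add im
  refine ⟨j4.add it, ?_⟩
  rw [integral_add j4 it, integral_add j3 im, integral_add j2 i5, integral_add j1 i2,
    integral_add i0 i1]
  simp only [integral_const_mul, hρ.m1, integral_const, probReal_univ, smul_eq_mul, one_mul,
    mul_one]

theorem oneb_int_aff {ρ : Measure ℝ≥0} [IsProbabilityMeasure ρ]
    (i5 : Integrable (fun t : ℝ≥0 => (t : ℝ) ^ 5) ρ) {g : ℝ≥0 → ℝ} (hg : Measurable g)
    (h0 : ∀ t, 0 ≤ g t) {C : ℝ} (h2 : ∀ t, g t ^ 2 ≤ C * (1 + (t : ℝ) ^ 5)) {s q : ℝ}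
    (hs0 : 0 ≤ s) (hs : s ≤ 1) (hq0 : 0 ≤ q) (hq : q ≤ 2) :
    Integrable (fun t => (1 - s + s * g t) ^ q) ρ := by
  have hX : ∀ t, 0 ≤ 1 - s + s * g t := fun t => by
    have := mul_nonneg hs0 (h0 t); linarith
  refine oneb_int i5 (by fun_prop) (3 + 2 * C) (fun t => Real.rpow_nonneg (hX t) _) fun t => ?_
  have h5 : 0 ≤ (t : ℝ) ^ 5 := by positivity
  have hle : 1 - s + s * g t ≤ 1 + g t := by nlinarith [h0 t]
  have hsq : (1 - s + s * g t) ^ 2 ≤ (1 + g t) ^ 2 := pow_le_pow_left₀ (hX t) hle 2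
  have : (1 - s + s * g t) ^ q ≤ 1 + (1 - s + s * g t) ^ 2 := by
    rcases le_total (1 - s + s * g t) 1 with h | h
    · have := Real.rpow_le_one (hX t) h hq0
      nlinarith [sq_nonneg (1 - s + s * g t)]
    · have := Real.rpow_le_rpow_of_exponent_le h hq
      rw [Real.rpow_two] at this
      linarith
  nlinarith [h2 t, sq_nonneg (g t - 1)]

theorem oneb_main {ρ : Measure ℝ≥0} [IsProbabilityMeasure ρ] {K c₀ : ℝ} (hρ : OnebHyp ρ K c₀)
    (hK : 1 ≤ K) (hc₀ : 0 < c₀) {a H w c : ℝ} (ha0 : 0 ≤ a) (ha : a ≤ 1) (hH : 0 < H)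
    (hw : 1 ≤ w) (hwK : w ≤ 2 * K) (hc : 0 ≤ c) (hcH : c ≤ 2 * K / H)
    (hmean : ∫ t : ℝ≥0, (min ((t : ℝ) ^ (1 + a) / w ^ a) H + c) ∂ρ = 1) {s p q : ℝ}
    (hs0 : 0 ≤ s) (hs : s ≤ 1) (hp : 1 ≤ p) (hpq : p ≤ q) (hq : q ≤ 2) :
    ∫ t : ℝ≥0, (1 - s + s * t) ^ q ∂ρ +
        p * s ^ 2 * ((p - 1) * a * (c₀ ^ 2 / (288 * K ^ 5)) - 6 * K ^ 2 / H) ≤
      ∫ t : ℝ≥0, (1 - s + s * (min ((t : ℝ) ^ (1 + a) / w ^ a) H + c)) ^ p ∂ρ +
        (q - p) * s ^ 2 * (10 * K) := by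
  have hK0 : 0 < K := by linarith
  have hw0 : 0 < w := by linarith
  have hg0 : ∀ t : ℝ≥0, 0 ≤ min ((t : ℝ) ^ (1 + a) / w ^ a) H + c := fun t =>
    add_nonneg (le_min (by positivity) hH.le) hc
  have hgb : ∀ t : ℝ≥0, min ((t : ℝ) ^ (1 + a) / w ^ a) H + c ≤ H + c := fun t => by
    linarith [min_le_right ((t : ℝ) ^ (1 + a) / w ^ a) H]
  have hgi : Integrable (fun t : ℝ≥0 => min ((t : ℝ) ^ (1 + a) / w ^ a) H + c) ρ :=
    oneb_int hρ.i5 (by fun_prop) (H + c) hg0 fun t => (hgb t).trans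
      (le_mul_of_one_le_right (by linarith) (by simp))
  have iF : Integrable (fun t : ℝ≥0 => (1 - s + s * t) ^ q) ρ :=
    oneb_int_aff hρ.i5 (g := fun t => (t : ℝ)) (by fun_prop) (fun t => t.2) (C := 1)
      (fun t => by rw [one_mul]; exact oneb_npow_le t.2 (by norm_num)) hs0 hs (by linarith) hq
  have iY : Integrable
      (fun t : ℝ≥0 => (1 - s + s * (min ((t : ℝ) ^ (1 + a) / w ^ a) H + c)) ^ p) ρ :=
    oneb_int_aff hρ.i5 (by fun_prop) hg0 (C := (H + c) ^ 2)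
      (fun t => (pow_le_pow_left₀ (hg0 t) (hgb t) 2).trans
        (le_mul_of_one_le_right (by positivity) (by simp))) hs0 hs (by linarith) (by linarith)
  set α := c₀ / (288 * K ^ 5) with hα
  set β := p * s ^ 2 * ((p - 1) * a) with hβ
  obtain ⟨iL, eL⟩ := oneb_lin hρ hgi
    (β * (2 * α * w ^ 2 - 16 * α ^ 2) - p * s ^ 2 / H - p * s ^ 2 * w * c + (q - p) * s -
      6 * (q - p) * s ^ 2)
    (-(p * s * (1 - s + s * w) ^ (p - 1)) - 4 * α * β * w - (q - p) * s) (2 * α * β)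
    (-(16 * α ^ 2 * β) - p * s ^ 2 / H - 4 * (q - p) * s ^ 2) (-(16 * α ^ 2 * β * w ^ 4))
    (p * s * (1 - s + s * w) ^ (p - 1))
  have hle := integral_mono_ae (iF.add iL) iY (by
    filter_upwards [hρ.pos] with t ht
    have := oneb_pt α hs0 hs hp hpq hq ha0 ha ht hw hH hc
    simp only [Pi.add_apply]
    refine le_of_sub_nonneg (le_of_le_of_eq (sub_nonneg.2 this) ?_)
    rw [hβ]
    ring)
  rw [integral_add' iF iL, eL, hmean] at hle
  have b2 := hρ.b2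
  have b5 := hρ.b5
  have bm := hρ.bm
  have m0 : 0 ≤ ∫ t : ℝ≥0, (t : ℝ)⁻¹ ∂ρ := integral_nonneg fun t => by positivity
  generalize ∫ t : ℝ≥0, (t : ℝ) ^ 2 ∂ρ = M2 at *
  generalize ∫ t : ℝ≥0, (t : ℝ) ^ 5 ∂ρ = M5 at *
  generalize ∫ t : ℝ≥0, (t : ℝ)⁻¹ ∂ρ = Mm at *
  generalize ∫ t : ℝ≥0, (1 - s + s * t) ^ q ∂ρ = F at *
  generalize ∫ t : ℝ≥0, (1 - s + s * (min ((t : ℝ) ^ (1 + a) / w ^ a) H + c)) ^ p ∂ρ = Y at *
  have hα0 : 0 < α := by positivity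
  have hβ0 : 0 ≤ β := by
    have : 0 ≤ p - 1 := by linarith
    positivity
  have k1 : c₀ ≤ w ^ 2 - 2 * w + M2 := by nlinarith [sq_nonneg (w - 1)]
  have k2 : 16 * (1 + M5 + w ^ 4 * Mm) ≤ 288 * K ^ 5 := by
    have a1 : w ^ 4 ≤ (2 * K) ^ 4 := pow_le_pow_left₀ hw0.le hwK 4
    have a2 : w ^ 4 * Mm ≤ (2 * K) ^ 4 * K := mul_le_mul a1 bm m0 (by positivity)
    have a3 : K ≤ K ^ 5 := le_self_pow₀ hK (by norm_num)
    nlinarith
  have k3 : c₀ ^ 2 / (288 * K ^ 5) ≤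
      2 * α * (w ^ 2 - 2 * w + M2) - α ^ 2 * (16 * (1 + M5 + w ^ 4 * Mm)) := by
    have a1 := mul_le_mul_of_nonneg_left k1 (show 0 ≤ 2 * α by positivity)
    have a2 := mul_le_mul_of_nonneg_left k2 (sq_nonneg α)
    have a3 : c₀ ^ 2 / (288 * K ^ 5) = 2 * α * c₀ - α ^ 2 * (288 * K ^ 5) := by
      rw [hα]; field_simp; ring
    linarith
  have k4 := mul_le_mul_of_nonneg_left k3 hβ0
  have k5 : (1 + M5) / H + w * c ≤ 6 * K ^ 2 / H := by
    have a1 : w * c ≤ 2 * K * (2 * K / H) := mul_le_mul hwK hcH hc (by positivity)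
    have a2 : (1 + M5) / H ≤ 2 * K ^ 2 / H := by
      gcongr; nlinarith
    have a3 : 6 * K ^ 2 / H = 2 * K ^ 2 / H + 2 * K * (2 * K / H) := by ring
    linarith
  have k6 := mul_le_mul_of_nonneg_left k5 (show 0 ≤ p * s ^ 2 by positivity)
  have k7 := mul_le_mul_of_nonneg_left (show 6 + 4 * M5 ≤ 10 * K by linarith)
    (mul_nonneg (sub_nonneg.2 hpq) (sq_nonneg s))
  have e1 : p * s ^ 2 * ((p - 1) * a * (c₀ ^ 2 / (288 * K ^ 5)) - 6 * K ^ 2 / H) =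
      β * (c₀ ^ 2 / (288 * K ^ 5)) - p * s ^ 2 * (6 * K ^ 2 / H) := by rw [hβ]; ring
  have e2 : p * s ^ 2 * ((1 + M5) / H + w * c) =
      p * s ^ 2 / H + p * s ^ 2 / H * M5 + p * s ^ 2 * w * c := by ring
  rw [e1]
  rw [e2] at k6
  nlinarith

theorem oneb_m {ρ : Measure ℝ≥0} [IsProbabilityMeasure ρ] {K c₀ : ℝ} (hρ : OnebHyp ρ K c₀)
    (hK : 1 ≤ K) (hc₀ : 0 < c₀) {a : ℝ} (ha0 : 0 < a) (ha : a ≤ 1) :
    ∃ w : ℝ, 1 ≤ w ∧ w ≤ 2 * K ∧ ∫ t : ℝ≥0, (t : ℝ) ^ (1 + a) ∂ρ = w ^ a := by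
  have im := oneb_int_rpow hρ.i5 (e := 1 + a) (by linarith) (by linarith)
  set m := ∫ t : ℝ≥0, (t : ℝ) ^ (1 + a) ∂ρ with hm
  set M := ∫ t : ℝ≥0, (t : ℝ) ^ 2 ∂ρ with hM
  have hM0 : 0 < M := by linarith [hρ.b2]
  have h1 : 1 ≤ m := by
    obtain ⟨iL, eL⟩ := oneb_lin hρ im (-a) (1 + a) 0 0 0 0
    have := integral_mono iL im fun t => by
      have := oneb_bern (NNReal.coe_nonneg t) (show 1 ≤ 1 + a by linarith)
      simp only; linarith
    rw [eL] at this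
    linarith
  have h2 : m ≤ M ^ a := by
    obtain ⟨iL, eL⟩ := oneb_lin hρ im 0 (M ^ a - a * M ^ (a - 1) * M) (a * M ^ (a - 1)) 0 0 0
    have := integral_mono_ae im iL (by
      filter_upwards [hρ.pos] with t ht
      have := mul_le_mul_of_nonneg_left (oneb_tan' hM0 ht.le ha0.le ha) ht.le
      rw [Real.rpow_add ht, Real.rpow_one]
      linarith)
    rw [eL] at this
    linarith
  have h3 : M ≤ 2 * K := by
    obtain ⟨iL, eL⟩ := oneb_lin hρ im 1 0 0 1 0 0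
    have := integral_mono (oneb_int_pow hρ.i5 (n := 2) (by norm_num)) iL fun t => by
      have := oneb_npow_le (NNReal.coe_nonneg t) (n := 2) (by norm_num)
      simp only; linarith
    rw [eL] at this
    linarith [hρ.b5]
  refine ⟨m ^ a⁻¹, Real.one_le_rpow h1 (by positivity), ?_, ?_⟩
  · calc m ^ a⁻¹ ≤ (M ^ a) ^ a⁻¹ := Real.rpow_le_rpow (by linarith) h2 (by positivity)
      _ = M := Real.rpow_rpow_inv hM0.le ha0.ne'
      _ ≤ _ := h3
  · rw [Real.rpow_inv_rpow (by linarith) ha0.ne']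

theorem oneb_one_le {ρ : Measure ℝ≥0} [IsProbabilityMeasure ρ] {g : ℝ≥0 → ℝ}
    (hg : Integrable g ρ) (h0 : ∀ t, 0 ≤ g t) (h1 : ∫ t, g t ∂ρ = 1) {s p : ℝ} (hs0 : 0 ≤ s)
    (hs : s ≤ 1) (hp : 1 ≤ p) (hi : Integrable (fun t => (1 - s + s * g t) ^ p) ρ) :
    1 ≤ ∫ t, (1 - s + s * g t) ^ p ∂ρ := by
  have i1 : Integrable (fun _ : ℝ≥0 => 1 - p * s) ρ := integrable_const _
  have i2 := hg.const_mul (p * s)
  have := integral_mono (i1.add i2) hi fun t => by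
    have hX : 0 ≤ 1 - s + s * g t := by
      have := mul_nonneg hs0 (h0 t); linarith
    have := oneb_bern hX hp
    simp only [Pi.add_apply]; linarith
  rw [integral_add' i1 i2, integral_const_mul, h1] at this
  simpa using this

/-- Tilting and truncating the one-site law. -/
theorem trunc_comp {K c₀ τ : ℝ} (hK : 1 ≤ K) (hc₀ : 0 < c₀) (hτ : 0 < τ) :
    ∃ c₁ : ℝ, 0 < c₁ ∧ c₁ ≤ 1 ∧ ∀ (ρ₁ : Measure ℝ≥0) [IsProbabilityMeasure ρ₁], Mean1 ρ₁ →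
      mom ρ₁ 5 ≤ ENNReal.ofReal K → mom ρ₁ (-1) ≤ ENNReal.ofReal K →
      1 + ENNReal.ofReal c₀ ≤ mom ρ₁ 2 → ∀ a : ℝ, 0 < a → a ≤ 1 → ∀ H : ℝ, 1 / (c₁ * a) ≤ H →
      ∃ ρ₂ : Measure ℝ≥0, ∃ _ : IsProbabilityMeasure ρ₂, Mean1 ρ₂ ∧
        (∀ᵐ t ∂ρ₂, ((t : ℝ≥0) : ℝ) ≤ 2 * H) ∧
        mom ρ₁ 2 + ENNReal.ofReal (c₁ * a) ≤ mom ρ₂ 2 ∧
        mom ρ₂ 2 ≤ ENNReal.ofReal (1 / c₁) ∧
        (∀ p q : ℝ, 1 + τ ≤ p → p ≤ q → q ≤ 2 → q - p ≤ c₁ * a → Comp ρ₁ ρ₂ q p) ∧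
        ∀ θ : ℝ, 0 < θ → θ ≤ 1 →
          Comp (ρ₁.map fun t => t ^ (1 + a) / (mom ρ₁ (1 + a)).toNNReal) ρ₂ θ θ := by
  have hK0 : 0 < K := by linarith
  set τ' := min τ 1 with hτ'
  have hτ0 : 0 < τ' := lt_min hτ one_pos
  set b := c₀ ^ 2 / (288 * K ^ 5) with hb
  have hb0 : 0 < b := by positivity
  set c₁ := min (1 / (6 * K)) (τ' * b / (16 * K ^ 2)) with hc₁
  have hc₁0 : 0 < c₁ := lt_min (by positivity) (by positivity)
  have hc₁a : 6 * K * c₁ ≤ 1 := by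
    have : c₁ ≤ 1 / (6 * K) := min_le_left _ _
    rwa [le_div_iff₀' (by positivity)] at this
  have hc₁b : 16 * K ^ 2 * c₁ ≤ τ' * b := by
    have : c₁ ≤ τ' * b / (16 * K ^ 2) := min_le_right _ _
    rwa [le_div_iff₀' (by positivity)] at this
  have hc₁1 : c₁ ≤ 1 := by nlinarith
  refine ⟨c₁, hc₁0, hc₁1, fun ρ _ h1 h5 hm h2 a ha0 ha H hH => ?_⟩
  have hρ := oneb_hyp hK hc₀ h1 h5 hm h2
  have hca : 0 < c₁ * a := mul_pos hc₁0 ha0
  have hH1 : 1 ≤ H := le_trans (by rw [le_div_iff₀ hca]; nlinarith) hH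
  have hH0 : 0 < H := by linarith
  have hHi : 1 / H ≤ c₁ * a := by
    rw [div_le_iff₀ hca] at hH
    rw [div_le_iff₀ hH0]; linarith
  obtain ⟨w, hw, hwK, hwm⟩ := oneb_m hρ hK hc₀ ha0 ha
  have hw0 : 0 < w := by linarith
  have hm1 : 1 ≤ w ^ a := Real.one_le_rpow hw ha0.le
  have im := oneb_int_rpow hρ.i5 (e := 1 + a) (by linarith) (by linarith)
  set zp : ℝ≥0 → ℝ := fun t => (t : ℝ) ^ (1 + a) / w ^ a with hzp
  have mzp : Measurable zp := by rw [hzp]; fun_prop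
  have zp0 : ∀ t, 0 ≤ zp t := fun t => by rw [hzp]; positivity
  have izp : Integrable zp ρ := im.div_const _
  have ezp : ∫ t, zp t ∂ρ = 1 := by
    rw [hzp]; simp only [integral_div, hwm]; exact div_self (by positivity)
  have zp2 : ∀ t, zp t ^ 2 ≤ 1 * (1 + (t : ℝ) ^ 5) := fun t => by
    have h0 : (0 : ℝ) ≤ t := t.2
    have e1 : ((t : ℝ) ^ (1 + a)) ^ 2 = (t : ℝ) ^ ((1 + a) * 2) := by
      rw [Real.rpow_mul h0, Real.rpow_two]
    have e2 : zp t ≤ (t : ℝ) ^ (1 + a) := div_le_self (by positivity) hm1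
    have e3 := oneb_pow_le h0 (e := (1 + a) * 2) (by linarith) (by linarith)
    have e4 := pow_le_pow_left₀ (zp0 t) e2 2
    linarith
  have iP : Integrable (fun t => max (zp t - H) 0) ρ :=
    (izp.sub (integrable_const H)).pos_part
  set c := ∫ t, max (zp t - H) 0 ∂ρ with hcdef
  have hc : 0 ≤ c := integral_nonneg fun t => le_max_right _ _
  have hc1 : c ≤ 1 := by
    rw [← ezp]
    exact integral_mono iP izp fun t => max_le (by linarith) (zp0 t)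
  have hcH : c ≤ 2 * K / H := by
    obtain ⟨iL, eL⟩ := oneb_lin hρ izp (1 / H) 0 0 (1 / H) 0 0
    have := integral_mono_ae iP iL (by
      filter_upwards [hρ.pos] with t ht
      have := (oneb_tail ha0.le ha ht hm1 hH0).1
      refine this.trans (le_of_eq (by ring)))
    rw [eL] at this
    have h3 := mul_le_mul_of_nonneg_left hρ.b5 (show 0 ≤ 1 / H by positivity)
    have h4 := mul_le_mul_of_nonneg_left hK (show 0 ≤ 1 / H by positivity)
    have h5 : 2 * K / H = 2 * (1 / H * K) := by ring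
    linarith
  set zt : ℝ≥0 → ℝ := fun t => min (zp t) H + c with hzt
  have mzt : Measurable zt := by rw [hzt]; fun_prop
  have zt0 : ∀ t, 0 ≤ zt t := fun t => add_nonneg (le_min (zp0 t) hH0.le) hc
  have ztH : ∀ t, zt t ≤ 2 * H := fun t => by
    have := min_le_right (zp t) H
    simp only [hzt]; linarith
  have zt2 : ∀ t, zt t ^ 2 ≤ 4 + 2 * (t : ℝ) ^ 5 := fun t => by
    have h3 : zt t ≤ zp t + 1 := by
      have := min_le_left (zp t) H
      simp only [hzt]; linarith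
    have h4 := pow_le_pow_left₀ (zt0 t) h3 2
    nlinarith [zp2 t, sq_nonneg (zp t - 1)]
  have zt2' : ∀ t, zt t ^ 2 ≤ 4 * (1 + (t : ℝ) ^ 5) := fun t => by
    have : 0 ≤ (t : ℝ) ^ 5 := by positivity
    linarith [zt2 t]
  have ezt' : zt = fun t => zp t - max (zp t - H) 0 + c := by
    funext t
    simp only [hzt]
    rcases le_total (zp t) H with h | h
    · rw [min_eq_left h, max_eq_right (by linarith)]; ring
    · rw [min_eq_right h, max_eq_left (by linarith)]; ring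
  have izt : Integrable zt ρ := by
    rw [ezt']; exact (izp.sub iP).add (integrable_const c)
  have ezt : ∫ t, zt t ∂ρ = 1 := by
    have j : Integrable (fun t => zp t - max (zp t - H) 0) ρ := izp.sub iP
    rw [ezt']
    simp only
    rw [integral_add j (integrable_const c), integral_sub izp iP, ezp]
    simp [hcdef]
  have iY : ∀ s p : ℝ, 0 ≤ s → s ≤ 1 → 0 ≤ p → p ≤ 2 →
      Integrable (fun t => (1 - s + s * zt t) ^ p) ρ := fun s p hs0 hs hp0 hp =>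
    oneb_int_aff hρ.i5 mzt zt0 zt2' hs0 hs hp0 hp
  have hX : ∀ s u : ℝ, 0 ≤ s → s ≤ 1 → 0 ≤ u → 0 ≤ 1 - s + s * u := fun s u hs0 hs hu => by
    have := mul_nonneg hs0 hu; linarith
  have key : ∀ s p q : ℝ, 0 ≤ s → s ≤ 1 → 1 + τ' ≤ p → p ≤ q → q ≤ 2 →
      ∫ t : ℝ≥0, (1 - s + s * t) ^ q ∂ρ + s ^ 2 * (10 * K) * (c₁ * a - (q - p)) ≤
        ∫ t, (1 - s + s * zt t) ^ p ∂ρ := fun s p q hs0 hs hp hpq hq => by
    have h3 := oneb_main hρ hK hc₀ ha0.le ha hH0 hw hwK hc hcH ezt hs0 hs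
      (show 1 ≤ p by linarith) hpq hq
    rw [← hb] at h3
    have h4 : 6 * K ^ 2 / H ≤ 6 * K ^ 2 * (c₁ * a) := by
      rw [div_eq_mul_one_div]; gcongr
    have h5 : τ' * (a * b) ≤ (p - 1) * (a * b) := by gcongr; linarith
    have h6 := mul_le_mul_of_nonneg_left hc₁b ha0.le
    have h7 : K * (c₁ * a) ≤ K ^ 2 * (c₁ * a) := by gcongr; nlinarith
    have h8 : 10 * K * (c₁ * a) ≤ (p - 1) * a * b - 6 * K ^ 2 / H := by nlinarith
    have h9 : s ^ 2 * (10 * K * (c₁ * a)) ≤ p * s ^ 2 * ((p - 1) * a * b - 6 * K ^ 2 / H) :=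
      mul_le_mul (le_mul_of_one_le_left (sq_nonneg s) (by linarith)) h8 (by positivity)
        (by have : 0 ≤ p := by linarith
            positivity)
    have h10 : ∫ t : ℝ≥0, (1 - s + s * (min ((t : ℝ) ^ (1 + a) / w ^ a) H + c)) ^ p ∂ρ =
      ∫ t, (1 - s + s * zt t) ^ p ∂ρ := rfl
    rw [h10] at h3
    nlinarith
  set g : ℝ≥0 → ℝ≥0 := fun t => (zt t).toNNReal with hg
  have mg : Measurable g := measurable_real_toNNReal.comp mzt
  have cg : ∀ t, (g t : ℝ) = zt t := fun t => Real.coe_toNNReal _ (zt0 t)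
  have hg1 : ∫⁻ t, (g t : ℝ≥0∞) ∂ρ = 1 := by
    have := oneb_lint izt zt0
    rw [ezt, ENNReal.ofReal_one] at this
    exact this
  have i2 : Integrable (fun t => zt t ^ 2) ρ :=
    oneb_int hρ.i5 (by fun_prop) 4 (fun t => by positivity) zt2'
  have emom : mom (ρ.map g) 2 = ENNReal.ofReal (∫ t, zt t ^ 2 ∂ρ) := by
    rw [oneb_mom (by norm_num), lintegral_map (by fun_prop) mg]
    simp only [cg, Real.rpow_two]
    exact oneb_lint i2 fun t => by positivity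
  refine ⟨ρ.map g, Measure.isProbabilityMeasure_map mg.aemeasurable, ?_, ?_, ?_, ?_, ?_, ?_⟩
  · rw [Mean1, lintegral_map (by fun_prop) mg, hg1]
  · rw [ae_map_iff mg.aemeasurable (measurableSet_le (by fun_prop) (by fun_prop))]
    exact Filter.Eventually.of_forall fun t => by rw [cg]; exact ztH t
  · have h3 := key 1 2 2 zero_le_one le_rfl (by linarith [min_le_right τ 1]) le_rfl le_rfl
    simp only [sub_self, zero_add, one_mul, Real.rpow_two, one_pow, sub_zero] at h3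
    rw [emom, oneb_mom (by norm_num)]
    simp only [Real.rpow_two]
    rw [oneb_lint (oneb_int_pow hρ.i5 (by norm_num)) fun t => by positivity,
      ← ENNReal.ofReal_add (integral_nonneg fun t => by positivity) hca.le]
    exact ENNReal.ofReal_le_ofReal (by nlinarith)
  · rw [emom]
    refine ENNReal.ofReal_le_ofReal ?_
    obtain ⟨iL, eL⟩ := oneb_lin hρ izp 4 0 0 2 0 0
    have := integral_mono i2 iL fun t => by simp only; linarith [zt2 t]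
    rw [eL] at this
    rw [le_div_iff₀ hc₁0]
    have h3 : ∫ t, zt t ^ 2 ∂ρ ≤ 6 * K := by linarith [hρ.b5]
    nlinarith
  · intro p q hp hpq hq hqp
    have hp1 : 1 ≤ p := by linarith
    have := oneb_comp (ρ := ρ) (f := id) measurable_id mg hg1 (p := p) (q := q) (by linarith)
      (by linarith) fun s hs0 hs => by
      have iF : Integrable (fun t : ℝ≥0 => (1 - s + s * t) ^ q) ρ :=
        oneb_int_aff hρ.i5 (g := fun t => (t : ℝ)) (by fun_prop) (fun t => t.2) (C := 1)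
          (fun t => by rw [one_mul]; exact oneb_npow_le t.2 (by norm_num)) hs0 hs (by linarith) hq
      have h3 := key s p q hs0 hs (by linarith [min_le_left τ 1]) hpq hq
      have h4 : 0 ≤ s ^ 2 * (10 * K) * (c₁ * a - (q - p)) :=
        mul_nonneg (by positivity) (by linarith)
      have iY' := iY s p hs0 hs (by linarith) (by linarith)
      have h5 := oneb_one_le izt zt0 ezt hs0 hs hp1 iY'
      simp only [cg, id]
      rw [oneb_lint iF fun t => Real.rpow_nonneg (hX s t hs0 hs t.2) _,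
        oneb_lint iY' fun t => Real.rpow_nonneg (hX s _ hs0 hs (zt0 t)) _,
        ENNReal.ofReal_rpow_of_nonneg (by linarith) (div_nonneg (by linarith) (by linarith))]
      refine ENNReal.ofReal_le_ofReal (le_trans (by linarith) (Real.self_le_rpow_of_one_le h5 ?_))
      rw [le_div_iff₀ (by linarith)]; linarith
    rwa [Measure.map_id] at this
  · intro θ hθ0 hθ
    have emom1 : ((mom ρ (1 + a)).toNNReal : ℝ) = w ^ a := by
      rw [oneb_mom (by linarith), oneb_lint im fun t => by positivity, hwm]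
      exact ENNReal.toReal_ofReal (by positivity)
    refine oneb_comp (by fun_prop) mg hg1 hθ0 hθ0 fun s hs0 hs => ?_
    have iF := oneb_int_aff hρ.i5 mzp zp0 zp2 hs0 hs hθ0.le (show θ ≤ 2 by linarith)
    have iY' := iY s θ hs0 hs hθ0.le (by linarith)
    have cf : ∀ t : ℝ≥0, ((t ^ (1 + a) / (mom ρ (1 + a)).toNNReal : ℝ≥0) : ℝ) = zp t := fun t => by
      rw [NNReal.coe_div, NNReal.coe_rpow, emom1]
    simp only [cg, cf]
    rw [div_self hθ0.ne', ENNReal.rpow_one,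
      oneb_lint iF fun t => Real.rpow_nonneg (hX s _ hs0 hs (zp0 t)) _,
      oneb_lint iY' fun t => Real.rpow_nonneg (hX s _ hs0 hs (zt0 t)) _]
    refine ENNReal.ofReal_le_ofReal ?_
    have iD := (izp.sub izt).const_mul (θ * (1 - s + s * (H + c)) ^ (θ - 1) * s)
    have := integral_mono_ae iF (iY'.add iD) (by
      filter_upwards [hρ.pos] with t ht
      exact oneb_conc hs0 hs hθ0.le hθ (show 0 < zp t by rw [hzp]; positivity) hH0 hc)
    rw [integral_add' iY' iD, integral_const_mul, integral_sub' izp izt, ezp, ezt] at this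
    simpa using this

end Pool.Agent.Lib.MP_153faa_pr
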