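import Mathlib
import Pool.Agent.Lib.MP_153faa_pr.GoodA

/-!
Concatenation of localized large values and the change of measure on one block.
-/

set_option autoImplicit false

open MeasureTheory
open scoped ENNReal NNReal

namespace Pool.Agent.Lib.MP_153faa_pr

variable {d : ℕ} {ρ : Measure ℝ≥0} [IsProbabilityMeasure ρ]

theorem hitY_le {t c : ℝ≥0∞} (n : ℕ) {f g : Prof d} (h : ∀ x, c * f x ≤ g x) :
    hit ρ (setY d t) n f ≤ hit ρ (setY d (c * t)) n g := by
  have hmem : ∀ {f g : Prof d}, (∀ x, c * f x ≤ g x) → f ∈ setY d t → g ∈ setY d (c * t) :=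
    fun h ⟨x, hx⟩ => ⟨x, (mul_le_mul_right hx c).trans (h x)⟩
  induction n generalizing f g with
  | zero =>
    by_cases hf : f ∈ setY d t
    · rw [hit_of_mem _ hf, hit_of_mem _ (hmem h hf)]
    · rw [hit_zero_of_not_mem hf]; exact zero_le
  | succ n ih =>
    by_cases hf : f ∈ setY d t
    · rw [hit_of_mem _ hf, hit_of_mem _ (hmem h hf)]
    · rw [hit_succ_of_not_mem n hf]
      refine le_trans (lintegral_mono fun ξ => ih fun x => ?_) (T_hit_le _ n g)
      have h2 := step_mono (f := fun x => c * f x) h ξ x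
      rwa [step_smul] at h2

theorem hitY_sh (t : ℝ≥0∞) (n : ℕ) (v : Site d) (f : Prof d) :
    hit ρ (setY d t) n (sh v f) = hit ρ (setY d t) n f := by
  have hmem : ∀ f : Prof d, sh v f ∈ setY d t ↔ f ∈ setY d t := fun f =>
    ⟨fun ⟨x, hx⟩ => ⟨x - v, hx⟩, fun ⟨x, hx⟩ => ⟨x + v, by simpa [sh] using hx⟩⟩
  induction n generalizing f with
  | zero =>
    by_cases hf : f ∈ setY d t
    · rw [hit_of_mem _ hf, hit_of_mem _ ((hmem f).2 hf)]
    · rw [hit_zero_of_not_mem hf, hit_zero_of_not_mem fun h => hf ((hmem f).1 h)]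
  | succ n ih =>
    by_cases hf : f ∈ setY d t
    · rw [hit_of_mem _ hf, hit_of_mem _ ((hmem f).2 hf)]
    · rw [hit_succ_of_not_mem n hf, hit_succ_of_not_mem n fun h => hf ((hmem f).1 h),
        T_sh (measurable_hit (measurableSet_setY t) n)]
      simp only [ih]

theorem hitY_mul (t u : ℝ≥0∞) (n m : ℕ) (f : Prof d) :
    hit ρ (setY d t) n f * hit ρ (setY d u) m (dlt 0) ≤ hit ρ (setY d (t * u)) (n + m) f := by
  have hc : ∀ (k : ℕ) (g : Prof d), g ∈ setY d t →
      hit ρ (setY d t) k g * hit ρ (setY d u) m (dlt 0) ≤ hit ρ (setY d (t * u)) (k + m) g := by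
    rintro k g ⟨x, hx⟩
    rw [hit_of_mem k (show g ∈ setY d t from ⟨x, hx⟩), one_mul, ← hitY_sh u m x, sh_dlt]
    refine (hitY_le m fun y => ?_).trans (hit_mono_time _ (Nat.le_add_left m k) g)
    unfold dlt
    split_ifs with h
    · rw [mul_one, h]; exact hx
    · simp
  induction n generalizing f with
  | zero =>
    by_cases hf : f ∈ setY d t
    · exact hc 0 f hf
    · rw [hit_zero_of_not_mem hf, zero_mul]; exact zero_le
  | succ n ih =>
    by_cases hf : f ∈ setY d t
    · exact hc _ f hf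
    · rw [hit_succ_of_not_mem n hf, mul_comm,
        ← T_const_mul _ (measurable_hit (measurableSet_setY t) n), add_right_comm]
      refine le_trans (T_mono (fun g => ?_) f) (T_hit_le _ _ f)
      rw [mul_comm]; exact ih g

theorem hitY_pow (u : ℝ≥0∞) (n r : ℕ) :
    hit ρ (setY d u) n (dlt 0) ^ r ≤ hit ρ (setY d (u ^ r)) (r * n) (dlt 0) := by
  induction r with
  | zero => rw [pow_zero, pow_zero, 
      hit_of_mem _ (show dlt 0 ∈ setY d 1 from ⟨0, by simp [dlt]⟩)]
  | succ r ih =>
    rw [pow_succ, pow_succ, add_mul, one_mul]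
    exact (mul_le_mul_left ih _).trans (hitY_mul _ _ _ _ _)

theorem setY_subset (t : ℝ≥0∞) : setY d t ⊆ setW d t :=
  fun f ⟨x, hx⟩ => hx.trans (le_mass f x)

open Classical in
theorem hit_le_sum {S : Set (Prof d)} (hS : MeasurableSet S) (n : ℕ) (f : Prof d) :
    hit ρ S n f ≤ ∑ k ∈ Finset.range (n + 1), (T ρ)^[k] (fun g => if g ∈ S then 1 else 0) f := by
  have hm : Measurable fun g : Prof d => if g ∈ S then (1 : ℝ≥0∞) else 0 :=
    Measurable.ite hS measurable_const measurable_const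
  induction n generalizing f with
  | zero => simp [hit]
  | succ n ih =>
    rw [Finset.sum_range_succ']
    by_cases hf : f ∈ S
    · rw [hit_of_mem _ hf]; simp [hf]
    · rw [hit_succ_of_not_mem n hf]
      refine le_add_right ((T_mono ih f).trans (le_of_eq ?_))
      have := T_iter_sum (ρ := ρ) 1 (Finset.range (n + 1)) (fun k => measurable_T_iter (ρ := ρ) k hm) f
      simp only [Function.iterate_succ_apply']
      exact this

open Classical in
theorem exists_time {S : Set (Prof d)} (hS : MeasurableSet S) (n : ℕ) (f : Prof d) {a : ℝ}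
    (h : ENNReal.ofReal a ≤ hit ρ S n f) :
    ∃ k ≤ n, ENNReal.ofReal (a / (n + 1)) ≤ (T ρ)^[k] (fun g => if g ∈ S then 1 else 0) f := by
  by_contra hcon
  push Not at hcon
  have h2 := ENNReal.sum_lt_sum_of_nonempty (s := Finset.range (n + 1)) ⟨0, by simp⟩
    fun k hk => hcon k (Nat.lt_succ_iff.1 (Finset.mem_range.1 hk))
  refine absurd (h.trans (hit_le_sum hS n f)) (not_le.2 (h2.trans_le (le_of_eq ?_)))
  rw [Finset.sum_const, Finset.card_range, nsmul_eq_mul, ← ENNReal.ofReal_natCast,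
    ← ENNReal.ofReal_mul (by positivity)]
  congr 1
  push_cast
  field_simp

open Classical in
theorem one_block (hd : 1 ≤ d) (h1 : Mean1 ρ) {t : ℝ≥0∞} (htt : t ≠ ⊤) (k : ℕ)
    (B : Finset (Site d)) (hB : 4 * (B.card : ℝ≥0∞) ≤ t) {a : ℝ} (ha0 : 0 ≤ a)
    (ha : ENNReal.ofReal a ≤
      t * (T ρ)^[k] (fun g => if g ∈ setW d t then 1 else 0) (dlt (0 : Site d)))
    (g : Prof d) (hg : ∀ x, x ∉ B → g x = 0) :
    (T ρ)^[k] (mq (1 / 2)) g ≤ ENNReal.ofReal (Real.exp (-a / 8)) * mq (1 / 2) g := by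
  set π := (T ρ)^[k] (fun g => if g ∈ setW d t then 1 else 0) (dlt (0 : Site d)) with hπ
  have hmI : Measurable fun g : Prof d => if g ∈ setW d t then (1 : ℝ≥0∞) else 0 :=
    Measurable.ite (measurableSet_setW t) measurable_const measurable_const
  have hπv : ∀ v : Site d, ∫⁻ ω, (if t ≤ mass (ev k ω (dlt v)) then 1 else 0) ∂env d ρ = π := by
    intro v
    rw [hπ, ← T_iter_dlt k hmI (fun v g => by
        simp only [setW, Set.mem_ofPred_eq, mass_sh]; split_ifs <;> rfl) v,
      T_iter_eq k hmI]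
    refine lintegral_congr fun ω => ?_
    simp only [setW, Set.mem_ofPred_eq]
    split_ifs <;> rfl
  have hπt : π ≠ ⊤ := ne_top_of_le_ne_top ENNReal.one_ne_top
    ((T_iter_ind_le _ k _).trans (hit_le_one _ _ _))
  have hXc : (T ρ)^[k] (mq (1 / 2)) g ≤ mq (1 / 2) g := by
    rw [T_iter_eq k (measurable_mq _), mq, ← lintegral_mass_ev hd h1 k g]
    exact jensen_concave _ (measurable_mass.comp (measurable_ev k g)).aemeasurable (by norm_num)
      (by norm_num)
  set c := mq (1 / 2) g with hc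
  set X := (T ρ)^[k] (mq (1 / 2)) g with hX
  by_cases hct : c = ⊤
  · rw [hct, ENNReal.mul_top (by simpa using Real.exp_pos _)]; exact le_top
  by_cases hc0 : c = 0
  · rw [hc0] at hXc; exact hXc.trans zero_le
  have hsq : ∀ w : ℝ≥0∞, (w ^ (1 / 2 : ℝ)) ^ 2 = w := fun w => by
    rw [← ENNReal.rpow_natCast, ← ENNReal.rpow_mul]; norm_num
  have hm : mass g = c ^ 2 := (hsq _).symm
  have hmv : ∀ v : Site d, Measurable fun ω : ℕ → Layer d => mass (ev k ω (dlt v)) := fun v =>
    measurable_mass.comp (measurable_ev k _)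
  have hIv : ∀ v : Site d, Measurable fun ω : ℕ → Layer d =>
      if t ≤ mass (ev k ω (dlt v)) then (1 : ℝ≥0∞) else 0 := fun v =>
    Measurable.ite (measurableSet_le measurable_const (hmv v)) measurable_const measurable_const
  have hpt : ∀ ω : ℕ → Layer d, 4 * c * mq (1 / 2) (ev k ω g) +
      ∑' v, g v * (t * if t ≤ mass (ev k ω (dlt v)) then 1 else 0) ≤
      2 * mass (ev k ω g) + (2 * c ^ 2 +
        2 * c ^ 2 * ∑ v ∈ B, if t ≤ mass (ev k ω (dlt v)) then 1 else 0) := by
    intro ω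
    set s := mq (1 / 2) (ev k ω g) with hs
    have hw : mass (ev k ω g) = s ^ 2 := (hsq _).symm
    by_cases hA : ∃ v ∈ B, t ≤ mass (ev k ω (dlt v))
    · obtain ⟨v, hv, hvt⟩ := hA
      have b1 : (1 : ℝ≥0∞) ≤ ∑ v ∈ B, if t ≤ mass (ev k ω (dlt v)) then 1 else 0 := by
        refine le_trans ?_ (Finset.single_le_sum
          (f := fun v => if t ≤ mass (ev k ω (dlt v)) then (1 : ℝ≥0∞) else 0)
          (fun _ _ => zero_le) hv)
        simp [hvt]
      have b2 : ∑' v, g v * (t * if t ≤ mass (ev k ω (dlt v)) then 1 else 0) ≤ s ^ 2 := by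
        rw [← hw, mass_ev_eq_tsum]
        refine ENNReal.tsum_le_tsum fun v => mul_le_mul_right ?_ _
        split_ifs with h
        · simpa using h
        · simp
      rw [hw]
      calc _ ≤ 2 * (2 * c) * s + s ^ 2 := add_le_add (le_of_eq (by ring)) b2
        _ ≤ (s ^ 2 + (2 * c) ^ 2) + s ^ 2 := by gcongr; exact two_mul_le_sq _ _
        _ = 2 * s ^ 2 + (2 * c ^ 2 + 2 * c ^ 2 * 1) := by ring
        _ ≤ _ := by gcongr
    · push Not at hA
      have b2 : ∑' v, g v * (t * if t ≤ mass (ev k ω (dlt v)) then 1 else 0) = 0 := by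
        refine ENNReal.tsum_eq_zero.2 fun v => ?_
        by_cases hv : v ∈ B
        · simp [not_le.2 (hA v hv)]
        · simp [hg v hv]
      rw [b2, hw, add_zero]
      calc 4 * c * s = 2 * (2 * c * s) := by ring
        _ ≤ 2 * (s ^ 2 + c ^ 2) := by gcongr; exact two_mul_le_sq _ _
        _ = 2 * s ^ 2 + 2 * c ^ 2 := by ring
        _ ≤ _ := by gcongr; exact le_self_add
  have hint := lintegral_mono (μ := env d ρ) hpt
  have m1 : Measurable fun ω : ℕ → Layer d => mq (1 / 2) (ev k ω g) :=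
    (measurable_mq _).comp (measurable_ev k g)
  have m2 : Measurable fun ω : ℕ → Layer d => mass (ev k ω g) :=
    measurable_mass.comp (measurable_ev k g)
  rw [lintegral_add_left (m1.const_mul _), lintegral_add_left (m2.const_mul _),
    lintegral_add_left measurable_const, lintegral_const_mul _ m1, lintegral_const_mul _ m2,
    lintegral_const_mul _ (Finset.measurable_sum _ fun v _ => hIv v),
    lintegral_finsetSum _ fun v _ => hIv v, lintegral_mass_ev hd h1,
    lintegral_tsum fun v => (((hIv v).const_mul _).const_mul _).aemeasurable,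
    ← T_iter_eq k (measurable_mq _), ← hX] at hint
  simp only [lintegral_const_mul _ ((hIv _).const_mul _), lintegral_const_mul _ (hIv _), hπv,
    ENNReal.tsum_mul_right, lintegral_const, measure_univ, mul_one, Finset.sum_const,
    nsmul_eq_mul] at hint
  rw [show ∑' v, g v = c ^ 2 from hm, hm] at hint
  have h2 : c * (8 * X + c * (t * π)) + c ^ 2 * (t * π) ≤ c * (8 * c) + c ^ 2 * (t * π) := by
    calc _ = 2 * (4 * c * X + c ^ 2 * (t * π)) := by ring
      _ ≤ 2 * (2 * c ^ 2 + (2 * c ^ 2 + 2 * c ^ 2 * (B.card * π))) := by gcongr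
      _ = c * (8 * c) + c ^ 2 * ((4 * B.card) * π) := by ring
      _ ≤ _ := by gcongr
  have h3 : 8 * X + c * ENNReal.ofReal a ≤ 8 * c :=
    le_trans (by gcongr) ((ENNReal.mul_le_mul_iff_right hc0 hct).1
      ((ENNReal.add_le_add_iff_right (by finiteness)).1 h2))
  have hXt : X ≠ ⊤ := ne_top_of_le_ne_top hct hXc
  lift X to ℝ≥0 using hXt with X'
  lift c to ℝ≥0 using hct with c'
  rw [← ENNReal.ofReal_coe_nnreal, ← ENNReal.ofReal_coe_nnreal (p := c'),
    show (8 : ℝ≥0∞) = ENNReal.ofReal 8 by simp] at h3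
  rw [← ENNReal.ofReal_coe_nnreal, ← ENNReal.ofReal_coe_nnreal (p := c')]
  simp (disch := positivity) only [← ENNReal.ofReal_mul, ← ENNReal.ofReal_add] at h3 ⊢
  rw [ENNReal.ofReal_le_ofReal_iff (by positivity)] at h3 ⊢
  have := Real.add_one_le_exp (-a / 8)
  have hc' : (0 : ℝ) ≤ c' := c'.2
  nlinarith

end Pool.Agent.Lib.MP_153faa_pr
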