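import Mathlib
import Pool.Agent.Lib.MP_153faa_pr.StrongA

/-!
Iteration of the one block estimate and the fractional moment bound.
-/

set_option autoImplicit false

open MeasureTheory
open scoped ENNReal NNReal

namespace Pool.Agent.Lib.MP_153faa_pr

variable {d : ℕ} {ρ : Measure ℝ≥0} [IsProbabilityMeasure ρ]

theorem tsum_avg_iter_mul (n : ℕ) (f g : Prof d) :
    ∑' x, avg^[n] f x * g x = ∑' x, f x * avg^[n] g x := by
  induction n generalizing f with
  | zero => rfl
  | succ n ih => rw [Function.iterate_succ_apply, ih, tsum_avg_mul, Function.iterate_succ_apply']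

/-- Expected number of visits outside the box at block times. -/
noncomputable def escW (c : Prof d) (k : ℕ) : ℕ → Prof d
  | 0 => 0
  | j + 1 => c + avg^[k] (escW c k j)

theorem avg_iter_zero (n : ℕ) : avg^[n] (0 : Prof d) = 0 :=
  Function.iterate_fixed avg_zero n

theorem escW_le {c : Prof d} {k L : ℕ} {ε : ℝ≥0∞} (h : ∀ n ≤ L, avg^[n] c 0 ≤ ε) (j n : ℕ)
    (hn : n + j * k ≤ L) : avg^[n] (escW c k j) 0 ≤ j * ε := by
  induction j generalizing n with
  | zero => simp [escW, avg_iter_zero]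
  | succ j ih =>
    rw [escW, avg_iter_add, ← Function.iterate_add_apply, Pi.add_apply]
    have h1 := h n (by omega)
    have h2 := ih (n + k) (by rw [add_mul, one_mul] at hn; omega)
    calc _ ≤ ε + j * ε := add_le_add h1 h2
      _ = _ := by push_cast; ring

theorem block_iter (hd : 1 ≤ d) (h1 : Mean1 ρ) (B : Finset (Site d)) (k : ℕ)
    {r α β' β γ : ℝ≥0∞} {θ : ℝ}
    (hblock : ∀ g : Prof d, (∀ x, x ∉ B → g x = 0) →
      (T ρ)^[k] (mq (1 / 2)) g ≤ r * mq (1 / 2) g)
    (hbase : ∀ a b : ℝ≥0∞, (a + b) ^ θ ≤ α * a ^ (1 / 2 : ℝ) + (β' * a + (β * b + γ)))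
    (j : ℕ) (f₁ f₂ : Prof d) :
    (T ρ)^[j * k] (mq θ) (f₁ + f₂) ≤ α * r ^ j * mq (1 / 2) f₁ + (β' * mass f₁ +
      (β * (mass f₂ + ∑' x, escW (fun x => if x ∈ B then 0 else 1) k j x * f₁ x) + γ)) := by
  set c : Prof d := fun x => if x ∈ B then 0 else 1 with hc
  induction j generalizing f₁ f₂ with
  | zero => simpa [escW, mq, mass_add] using hbase (mass f₁) (mass f₂)
  | succ j ih =>
    set g₁ : Prof d := fun x => if x ∈ B then f₁ x else 0 with hg₁
    set g₂ : Prof d := (fun x => c x * f₁ x) + f₂ with hg₂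
    have hsplit : f₁ + f₂ = g₁ + g₂ := by
      funext x; simp only [hg₁, hg₂, hc, Pi.add_apply]; split_ifs <;> simp
    have hle : g₁ ≤ f₁ := fun x => by simp only [hg₁]; split_ifs <;> simp
    have hlin : Measurable fun g : Prof d => ∑' x, escW c k j x * g x :=
      Measurable.tsum fun x => (measurable_pi_apply x).const_mul _
    have m1 : Measurable fun ω : ℕ → Layer d => mq (1 / 2) (ev k ω g₁) :=
      (measurable_mq _).comp (measurable_ev k _)
    have m2 : ∀ g : Prof d, Measurable fun ω : ℕ → Layer d => mass (ev k ω g) := fun g =>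
      measurable_mass.comp (measurable_ev k g)
    have m3 : Measurable fun ω : ℕ → Layer d => ∑' x, escW c k j x * ev k ω g₁ x :=
      hlin.comp (measurable_ev k _)
    rw [add_mul, one_mul, add_comm (j * k), Function.iterate_add_apply,
      T_iter_eq k (measurable_T_iter _ (measurable_mq θ)), hsplit]
    simp only [ev_add]
    refine (lintegral_mono fun ω => ih (ev k ω g₁) (ev k ω g₂)).trans ?_
    rw [lintegral_add_left (m1.const_mul _), lintegral_add_left ((m2 _).const_mul _),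
      lintegral_add_right _ measurable_const, lintegral_const_mul _ m1,
      lintegral_const_mul _ (m2 _), lintegral_const_mul _ ((m2 _).fun_add m3),
      lintegral_add_left (m2 _), lintegral_mass_ev hd h1, lintegral_mass_ev hd h1,
      ← T_iter_eq k (measurable_mq _), ← T_iter_eq k hlin, T_iter_lin h1, lintegral_const,
      measure_univ, mul_one]
    refine add_le_add ?_ (add_le_add (mul_le_mul_right (mass_mono hle) _)
      (add_le_add (mul_le_mul_right ?_ _) le_rfl))
    · rw [pow_succ, mul_assoc, mul_assoc, mul_assoc]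
      refine mul_le_mul_right (mul_le_mul_right ((hblock g₁ fun x hx => by simp [hg₁, hx]).trans
        (mul_le_mul_right ?_ _)) _) _
      exact ENNReal.rpow_le_rpow (mass_mono hle) (by norm_num)
    · rw [hg₂, mass_add, ← tsum_avg_iter_mul]
      simp only [escW, Pi.add_apply, add_mul, ENNReal.tsum_add]
      calc _ = mass f₂ + (∑' x, c x * f₁ x + ∑' x, avg^[k] (escW c k j) x * g₁ x) := by
            rw [mass]; ring
        _ ≤ _ := by gcongr with x; exact hle x

theorem base_ineq {θ α : ℝ} (h0 : 1 / 2 ≤ θ) (h1 : θ ≤ 1) (hα1 : 1 ≤ α)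
    (hα : 16 ≤ α ^ (2 * (1 - θ))) (a b : ℝ≥0∞) :
    (a + b) ^ θ ≤ ENNReal.ofReal α * a ^ (1 / 2 : ℝ) +
      (ENNReal.ofReal (1 / 16) * a + (ENNReal.ofReal 16 * b + ENNReal.ofReal (1 / 16))) := by
  have hθ0 : 0 < θ := by linarith
  have hα0 : 0 < α := by linarith
  refine (ENNReal.rpow_add_le_add_rpow a b hθ0.le h1).trans ?_
  rw [← add_assoc]
  refine add_le_add ?_ ?_
  · rcases eq_or_ne a ⊤ with rfl | ha
    · rw [ENNReal.mul_top (by simp : ENNReal.ofReal (1 / 16) ≠ 0)]; simp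
    obtain ⟨w, hw, rfl⟩ : ∃ w : ℝ, 0 ≤ w ∧ a = ENNReal.ofReal w :=
      ⟨a.toReal, ENNReal.toReal_nonneg, (ENNReal.ofReal_toReal ha).symm⟩
    rw [ENNReal.ofReal_rpow_of_nonneg hw hθ0.le, ENNReal.ofReal_rpow_of_nonneg hw (by norm_num)]
    simp (disch := positivity) only [← ENNReal.ofReal_mul, ← ENNReal.ofReal_add]
    refine ENNReal.ofReal_le_ofReal ?_
    rcases eq_or_lt_of_le hw with rfl | hw0
    · rw [Real.zero_rpow hθ0.ne']; positivity
    have hs : 0 ≤ w ^ (1 / 2 : ℝ) := by positivity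
    by_cases hwa : α ^ (2 : ℝ) ≤ w
    · have e : w = w ^ θ * w ^ (1 - θ) := by rw [← Real.rpow_add hw0]; simp
      have b1 : 16 ≤ w ^ (1 - θ) := by
        refine hα.trans ?_
        rw [Real.rpow_mul hα0.le]
        exact Real.rpow_le_rpow (by positivity) hwa (by linarith)
      have b2 : w ^ θ * 16 ≤ w := by
        conv_rhs => rw [e]
        gcongr
      nlinarith [mul_nonneg hα0.le hs]
    · have e : w ^ θ = w ^ (θ - 1 / 2) * w ^ (1 / 2 : ℝ) := by rw [← Real.rpow_add hw0]; simp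
      have b1 : w ^ (θ - 1 / 2) ≤ α := by
        calc w ^ (θ - 1 / 2) ≤ (α ^ (2 : ℝ)) ^ (θ - 1 / 2) :=
              Real.rpow_le_rpow hw (not_le.1 hwa).le (by linarith)
          _ = α ^ (2 * (θ - 1 / 2)) := by rw [Real.rpow_mul hα0.le]
          _ ≤ α ^ (1 : ℝ) := Real.rpow_le_rpow_of_exponent_le hα1 (by linarith)
          _ = α := Real.rpow_one α
      rw [e]
      have : w ^ (θ - 1 / 2) * w ^ (1 / 2 : ℝ) ≤ α * w ^ (1 / 2 : ℝ) := by gcongr
      linarith
  · rcases eq_or_ne b ⊤ with rfl | hb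
    · rw [ENNReal.mul_top (by simp : ENNReal.ofReal 16 ≠ 0)]; simp
    obtain ⟨w, hw, rfl⟩ : ∃ w : ℝ, 0 ≤ w ∧ b = ENNReal.ofReal w :=
      ⟨b.toReal, ENNReal.toReal_nonneg, (ENNReal.ofReal_toReal hb).symm⟩
    rw [ENNReal.ofReal_rpow_of_nonneg hw hθ0.le]
    simp (disch := positivity) only [← ENNReal.ofReal_mul, ← ENNReal.ofReal_add]
    refine ENNReal.ofReal_le_ofReal ?_
    have e256 : (1 / 256 : ℝ) ^ (1 / 2 : ℝ) = 1 / 16 := by
      rw [show (1 / 256 : ℝ) = (1 / 16) ^ (2 : ℝ) by norm_num, ← Real.rpow_mul (by norm_num)]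
      norm_num
    by_cases hw1 : w ≤ 1 / 256
    · have : w ^ θ ≤ 1 / 16 := by
        calc w ^ θ ≤ (1 / 256 : ℝ) ^ θ := Real.rpow_le_rpow hw hw1 hθ0.le
          _ ≤ (1 / 256 : ℝ) ^ (1 / 2 : ℝ) :=
              Real.rpow_le_rpow_of_exponent_ge (by norm_num) (by norm_num) h0
          _ = _ := e256
      linarith
    · have hw2 := (not_le.1 hw1).le
      have hw0 : 0 < w := by linarith
      have e : w = w ^ θ * w ^ (1 - θ) := by rw [← Real.rpow_add hw0]; simp
      have b1 : 1 / 16 ≤ w ^ (1 - θ) := by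
        calc (1 / 16 : ℝ) = (1 / 256 : ℝ) ^ (1 / 2 : ℝ) := e256.symm
          _ ≤ (1 / 256 : ℝ) ^ (1 - θ) :=
              Real.rpow_le_rpow_of_exponent_ge (by norm_num) (by norm_num) (by linarith)
          _ ≤ _ := Real.rpow_le_rpow (by norm_num) hw2 (by linarith)
      have b2 : w ^ θ * (1 / 16) ≤ w := by
        conv_rhs => rw [e]
        gcongr
      linarith

theorem Am_le_card {θ : ℝ} (h0 : 0 < θ) (h1 : θ ≤ 1) (L : ℕ) :
    Am d ρ θ L ≤ (((2 * L + 1) ^ d : ℕ) : ℝ≥0∞) ^ (1 - θ) * Mom d ρ θ L := by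
  rw [Am, Mom, T_iter_eq L (measurable_nq θ), T_iter_eq L (measurable_mq θ),
    ← lintegral_const_mul _ (show Measurable fun ω => mq θ (ev L ω (dlt (0 : Site d))) from
      (measurable_mq θ).comp (measurable_ev L _)), ← card_box]
  exact lintegral_mono fun ω =>
    tsum_rpow_le_card _ (box d L) (fun x hx => ev_eq_zero L ω hx) h0 h1

open Classical in
theorem strong_param (hd : 2 ≤ d) (h1 : Mean1 ρ) {t a : ℝ} (ha0 : 0 ≤ a) {k j R : ℕ}
    (hk : 1 ≤ k) (hj : 1 ≤ j)
    (ha : ENNReal.ofReal a ≤ ENNReal.ofReal t *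
      (T ρ)^[k] (fun g => if g ∈ setW d (ENNReal.ofReal t) then 1 else 0) (dlt (0 : Site d)))
    (hR : 4 * (2 * R + 1 : ℝ) ^ d ≤ t)
    (hdec : 16 * ((2 * (j * k : ℕ) + 1 : ℝ) ^ d) ^ 2 * Real.exp (-a / 8) ^ j ≤ 1)
    (hesc : 512 * d * j * Real.exp (-(R : ℝ) ^ 2 / (2 * (j * k : ℕ))) ≤ 1) :
    ∃ θ : ℝ, 0 < θ ∧ θ ≤ 1 ∧ ∀ m, Mom d ρ θ m ≤ 2⁻¹ ^ (m / (j * k)) := by
  have hd1 : 1 ≤ d := by omega
  set L := j * k with hL
  have hL1 : 1 ≤ L := Nat.mul_pos hj hk
  have hLR : (1 : ℝ) ≤ L := by exact_mod_cast hL1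
  set D : ℝ := (2 * L + 1 : ℝ) ^ d with hD
  have hD4 : 4 ≤ D := by
    calc (4 : ℝ) ≤ 3 ^ 2 := by norm_num
      _ ≤ 3 ^ d := pow_le_pow_right₀ (by norm_num) hd
      _ ≤ D := by rw [hD]; gcongr; linarith
  have hl2 : 0 < Real.log 2 := Real.log_pos one_lt_two
  have hlD : 2 * Real.log 2 ≤ Real.log D := by
    have : Real.log 4 = 2 * Real.log 2 := by
      rw [show (4 : ℝ) = 2 ^ 2 by norm_num, Real.log_pow]; norm_num
    rw [← this]; exact Real.log_le_log (by norm_num) hD4
  set η := Real.log 2 / Real.log D with hη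
  have hη0 : 0 < η := div_pos hl2 (by linarith)
  have hη1 : η ≤ 1 / 2 := by rw [hη, div_le_iff₀ (by linarith)]; linarith
  have hDη : D ^ η = 2 := by
    rw [Real.rpow_def_of_pos (by linarith), hη, mul_div_cancel₀ _ (by linarith),
      Real.exp_log two_pos]
  refine ⟨1 - η, by linarith, by linarith,
    Mom_le_of_Am hd1 h1 (by linarith) (by linarith) ?_⟩
  refine (Am_le_card (by linarith) (by linarith) L).trans ?_
  have hb := block_iter hd1 h1 (box d R) k
    (one_block hd1 h1 ENNReal.ofReal_ne_top k (box d R) (by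
      rw [card_box, ← ENNReal.ofReal_natCast, show (4 : ℝ≥0∞) = ENNReal.ofReal 4 by simp,
        ← ENNReal.ofReal_mul (by norm_num)]
      exact ENNReal.ofReal_le_ofReal (by push_cast; exact hR)) ha0 ha)
    (base_ineq (θ := 1 - η) (α := D ^ 2) (by linarith) (by linarith) (by nlinarith) (by
      rw [← Real.rpow_natCast, ← Real.rpow_mul (by linarith),
        show ((2 : ℕ) : ℝ) * (2 * (1 - (1 - η))) = η * (4 : ℕ) by push_cast; ring,
        Real.rpow_mul (by linarith), hDη, Real.rpow_natCast]; norm_num)) j (dlt 0) 0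
  have he : ∑' x, escW (fun x => if x ∈ box d R then 0 else 1) k j x * dlt (0 : Site d) x ≤
      j * ENNReal.ofReal (2 * d * Real.exp (-(R : ℝ) ^ 2 / (2 * L))) := by
    rw [tsum_eq_single 0 fun y hy => by simp [dlt, hy]]
    simp only [dlt, if_true, mul_one]
    refine escW_le (L := L) (fun n hn => ?_) j 0 (by simp [hL])
    refine le_trans (le_of_eq ?_) (escape hd1 R hn hL1)
    rw [← tsum_avg_iter_mul, tsum_eq_single 0 fun y hy => by simp [dlt, hy]]
    simp [dlt]
  rw [add_zero] at hb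
  have hz : mass (0 : Prof d) = 0 := by simp [mass]
  rw [mq, mass_dlt, hz, ENNReal.one_rpow, mul_one, mul_one, zero_add] at hb
  have hb2 : Mom d ρ (1 - η) L ≤ ENNReal.ofReal (1 / 4) := by
    refine hb.trans ((add_le_add_right (add_le_add_right (add_le_add_left
      (mul_le_mul_right he _) _) _) _).trans ?_)
    rw [← ENNReal.ofReal_natCast j]
    simp (disch := positivity) only [← ENNReal.ofReal_mul, ← ENNReal.ofReal_add,
      ← ENNReal.ofReal_pow]
    refine ENNReal.ofReal_le_ofReal ?_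
    nlinarith
  refine (mul_le_mul_right hb2 _).trans (le_of_eq ?_)
  rw [← ENNReal.ofReal_natCast, ENNReal.ofReal_rpow_of_pos (by positivity),
    ← ENNReal.ofReal_mul (by positivity)]
  push_cast
  rw [← hD, sub_sub_cancel, hDη, show (2 : ℝ) * (1 / 4) = 2⁻¹ by norm_num,
    ENNReal.ofReal_inv_of_pos two_pos]
  simp

end Pool.Agent.Lib.MP_153faa_pr
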