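import Mathlib
import Pool.Agent.Lib.MP_153faa_pr.StrongB

/-!
A heavy tail for localized large values forces exponential decay of a fractional moment.
-/

set_option autoImplicit false

open MeasureTheory
open scoped ENNReal NNReal

namespace Pool.Agent.Lib.MP_153faa_pr

variable {d : ℕ} {ρ : Measure ℝ≥0} [IsProbabilityMeasure ρ]

/-- The choice of the scales, given a level `exp l` reached in time `N`. -/
theorem strong_level (hd : 3 ≤ d) (h1 : Mean1 ρ) {l η : ℝ} (hη : 0 < η) (hη1 : η ≤ 1 / d)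
    (hl : 512 * d ≤ l) {N : ℕ}
    (hN : ENNReal.ofReal (Real.exp (-((1 + 2 / d - η) * l))) ≤
      hit ρ (setW d (ENNReal.ofReal (Real.exp l))) N (dlt 0))
    (hc : 16384 * (4 * d + 1) * l ^ 2 * (N + 1) ^ 2 ≤ Real.exp (η * l)) :
    ∃ L : ℕ, 1 ≤ L ∧ (L : ℝ) ≤ Real.exp l ∧
      ∃ θ : ℝ, 0 < θ ∧ θ ≤ 1 ∧ ∀ m, Mom d ρ θ m ≤ 2⁻¹ ^ (m / L) := by
  classical
  have hdR : (3 : ℝ) ≤ d := by exact_mod_cast hd
  have hl1 : 16 ≤ l := by linarith
  have hl0 : 0 < l := by linarith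
  have hlt : l ≤ Real.exp l := by linarith [Real.add_one_le_exp l]
  obtain ⟨k, hkN, hk⟩ := exists_time (measurableSet_setW _) N _ hN
  have hN0 : (0 : ℝ) < N + 1 := by positivity
  have hk1 : 1 ≤ k := by
    rcases Nat.eq_zero_or_pos k with rfl | h
    · exfalso
      have hnm : dlt (0 : Site d) ∉ setW d (ENNReal.ofReal (Real.exp l)) := by
        simp only [setW, Set.mem_ofPred_eq, mass_dlt, not_le, ENNReal.one_lt_ofReal]
        linarith
      simp only [Function.iterate_zero, id, if_neg hnm, nonpos_iff_eq_zero,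
        ENNReal.ofReal_eq_zero] at hk
      exact absurd hk (not_le.2 (by positivity))
    · exact h
  set a : ℝ := Real.exp (-((2 / d - η) * l)) / (N + 1) with ha
  have ha0 : 0 < a := by positivity
  set Λ : ℝ := (4 * d + 1) * l with hΛ
  have hΛ1 : 1 ≤ Λ := by rw [hΛ]; nlinarith
  have e2d : (2 : ℝ) / d = 2 * (1 / d) := by ring
  have hdi : 0 < 1 / (d : ℝ) := by positivity
  have hd3 : 1 / (d : ℝ) ≤ 1 / 3 := by gcongr
  have ha1 : a ≤ 1 := by
    rw [ha, div_le_one hN0]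
    have : Real.exp (-((2 / d - η) * l)) ≤ 1 :=
      Real.exp_le_one_iff.2 (by rw [e2d]; nlinarith)
    linarith [Nat.cast_nonneg (α := ℝ) N]
  set j := ⌈8 * Λ / a⌉₊ with hj
  have hj1 : 8 * Λ / a ≤ j := Nat.le_ceil _
  have hq1 : 1 ≤ 8 * Λ / a := by rw [le_div_iff₀ ha0]; linarith
  have hj2 : (j : ℝ) ≤ 16 * Λ / a := by
    have := Nat.ceil_lt_add_one (show 0 ≤ 8 * Λ / a by positivity)
    have e : 16 * Λ / a = 8 * Λ / a + 8 * Λ / a := by ring
    linarith
  have hjR : (1 : ℝ) ≤ j := hq1.trans hj1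
  have hj0 : 1 ≤ j := by exact_mod_cast hjR
  have hkR : (k : ℝ) ≤ N + 1 := by
    have : (k : ℝ) ≤ N := by exact_mod_cast hkN
    linarith
  have hk1R : (1 : ℝ) ≤ k := by exact_mod_cast hk1
  set s : ℝ := Real.exp (l / d) with hs
  have hs16 : 16 ≤ s := by
    have : 16 ≤ l / d := by rw [le_div_iff₀ (by linarith)]; linarith
    linarith [Real.add_one_le_exp (l / d)]
  have hL : ((j * k : ℕ) : ℝ) * (1024 * l) ≤ s ^ 2 := by
    have e : s ^ 2 = Real.exp ((2 / d - η) * l) * Real.exp (η * l) := by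
      rw [hs, ← Real.exp_nat_mul, ← Real.exp_add]; congr 1; push_cast; ring
    have e2 : 16 * Λ / a = 16 * Λ * (N + 1) * Real.exp ((2 / d - η) * l) := by
      rw [ha, Real.exp_neg]; field_simp
    rw [e]
    push_cast
    calc (j : ℝ) * k * (1024 * l) ≤ (16 * Λ / a) * (N + 1) * (1024 * l) := by gcongr
      _ = Real.exp ((2 / d - η) * l) * (16384 * (4 * d + 1) * l ^ 2 * (N + 1) ^ 2) := by
          rw [e2, hΛ]; ring
      _ ≤ _ := by gcongr
  have hsd : s ^ d = Real.exp l := by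
    rw [hs, ← Real.exp_nat_mul]; congr 1; field_simp
  have hL0 : (1 : ℝ) ≤ ((j * k : ℕ) : ℝ) := by exact_mod_cast Nat.mul_pos hj0 hk1
  have hLt : ((j * k : ℕ) : ℝ) ≤ Real.exp l := by
    calc ((j * k : ℕ) : ℝ) ≤ ((j * k : ℕ) : ℝ) * (1024 * l) :=
          le_mul_of_one_le_right (by positivity) (by linarith)
      _ ≤ s ^ 2 := hL
      _ ≤ s ^ d := pow_le_pow_right₀ (by linarith) (by omega)
      _ = _ := hsd
  set R := ⌊s / 8⌋₊ with hR
  have hR1 : (R : ℝ) ≤ s / 8 := Nat.floor_le (by positivity)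
  have hR2 : s / 16 ≤ R := by
    have := Nat.lt_floor_add_one (s / 8)
    linarith
  refine ⟨j * k, Nat.mul_pos hj0 hk1, hLt, strong_param (t := Real.exp l) (a := a) (R := R)
    (by omega) h1 ha0.le hk1 hj0 ?_ ?_ ?_ ?_⟩
  · refine le_trans (le_of_eq ?_) (mul_le_mul_right hk _)
    rw [← ENNReal.ofReal_mul (Real.exp_pos _).le, ha, ← mul_div_assoc, ← Real.exp_add]
    congr 3; ring
  · calc 4 * (2 * R + 1 : ℝ) ^ d ≤ 2 ^ d * (s / 2) ^ d := by
          gcongr
          · calc (4 : ℝ) = 2 ^ 2 := by norm_num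
              _ ≤ 2 ^ d := pow_le_pow_right₀ one_le_two (by omega)
          · linarith
      _ = Real.exp l := by rw [← mul_pow, ← hsd]; congr 1; ring
  · have b1 : (2 * (j * k : ℕ) + 1 : ℝ) ≤ Real.exp l ^ 2 := by nlinarith
    have b2 : Real.exp (-a / 8) ^ j ≤ Real.exp (-Λ) := by
      rw [← Real.exp_nat_mul]
      refine Real.exp_le_exp.2 ?_
      rw [div_le_iff₀ ha0] at hj1
      linarith
    calc 16 * ((2 * (j * k : ℕ) + 1 : ℝ) ^ d) ^ 2 * Real.exp (-a / 8) ^ j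
        ≤ Real.exp l * ((Real.exp l ^ 2) ^ d) ^ 2 * Real.exp (-Λ) := by
          gcongr; linarith
      _ = 1 := by
          simp only [← Real.exp_nat_mul, ← Real.exp_add]
          rw [Real.exp_eq_one_iff, hΛ]; push_cast; ring
  · have b1 : Real.exp (-(R : ℝ) ^ 2 / (2 * (j * k : ℕ))) ≤ Real.exp (-(2 * l)) := by
      refine Real.exp_le_exp.2 ?_
      rw [neg_div, neg_le_neg_iff, le_div_iff₀ (by positivity)]
      have : (s / 16) ^ 2 ≤ (R : ℝ) ^ 2 := by gcongr
      nlinarith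
    have b2 : (j : ℝ) ≤ Real.exp l := by
      refine le_trans ?_ hLt
      push_cast
      exact le_mul_of_one_le_right (by positivity) hk1R
    calc 512 * d * j * Real.exp (-(R : ℝ) ^ 2 / (2 * (j * k : ℕ)))
        ≤ Real.exp l * Real.exp l * Real.exp (-(2 * l)) := by gcongr; linarith
      _ = 1 := by simp only [← Real.exp_add]; rw [← Real.exp_zero]; congr 1; ring

theorem strong (hd : 3 ≤ d) {B : ℝ} (hB : 1 ≤ B) : ∃ x₀ : ℝ, ∀ x : ℝ, x₀ ≤ x →
    ∀ (ρ : Measure ℝ≥0) [IsProbabilityMeasure ρ], Mean1 ρ → ∀ (n : ℕ) (u : ℝ),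
      (n : ℝ) ≤ Real.exp (B * x * Real.log x) → 2 ≤ u → u ≤ Real.exp (B * x * Real.log x) →
      ENNReal.ofReal (u ^ (-(1 + 2 / d - 1 / x))) ≤ hit ρ (setY d (ENNReal.ofReal u)) n (dlt 0) →
      ∃ L : ℕ, 1 ≤ L ∧ (L : ℝ) ≤ Real.exp ((3 * B + 1) * x ^ 2 * Real.log x) ∧
        ∃ θ : ℝ, 0 < θ ∧ θ ≤ 1 ∧ ∀ m, Mom d ρ θ m ≤ 2⁻¹ ^ (m / L) := by
  refine ⟨147456 * (4 * d + 1) * (3 * B + 1) ^ 4, fun x hx ρ _ h1 n u hn hu2 hu hhit => ?_⟩
  have hdR : (3 : ℝ) ≤ d := by exact_mod_cast hd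
  have hB4 : 1 ≤ (3 * B + 1) ^ 4 := one_le_pow₀ (by linarith)
  have hxd : 147456 * (4 * d + 1) ≤ x := le_trans (le_mul_of_one_le_right (by positivity) hB4) hx
  have hx0 : 0 < x := by linarith
  have hx1 : 1 ≤ x := by linarith
  have hlx : 1 ≤ Real.log x := by
    rw [Real.le_log_iff_exp_le hx0]; linarith [Real.exp_one_lt_d9]
  have hlx2 : Real.log x ≤ x := by linarith [Real.log_le_sub_one_of_pos hx0]
  have hu0 : 0 < u := by linarith
  have hlu : 1 / 2 ≤ Real.log u := by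
    have := Real.log_le_log two_pos hu2
    linarith [Real.log_two_gt_d9]
  have hlu2 : Real.log u ≤ B * x * Real.log x := by rwa [Real.log_le_iff_le_exp hu0]
  set l₀ : ℝ := (2 * B + 1) * x ^ 2 * Real.log x with hl₀
  have hxx : x ≤ x ^ 2 * Real.log x := by nlinarith
  have hxl : 0 ≤ x * Real.log x := by positivity
  have hl₀x : x ≤ l₀ := by rw [hl₀]; nlinarith
  set r := ⌈l₀ / Real.log u⌉₊ with hr
  set l : ℝ := r * Real.log u with hl
  have hr1 : l₀ ≤ l := by
    have := Nat.le_ceil (l₀ / Real.log u)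
    rwa [div_le_iff₀ (by linarith)] at this
  have hr2 : l ≤ (3 * B + 1) * x ^ 2 * Real.log x := by
    have h2 := (Nat.ceil_lt_add_one (show 0 ≤ l₀ / Real.log u from
      div_nonneg (by linarith) (by linarith))).le
    have h3 : l ≤ (l₀ / Real.log u + 1) * Real.log u := by rw [hl]; gcongr
    rw [add_mul, div_mul_cancel₀ _ (by linarith), one_mul] at h3
    have h4 : B * x * Real.log x ≤ B * x ^ 2 * Real.log x := by gcongr; nlinarith
    rw [hl₀] at h3
    linarith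
  have hul : u ^ r = Real.exp l := by rw [hl, Real.exp_nat_mul, Real.exp_log hu0]
  have hrl : (r : ℝ) ≤ 2 * l := by
    rw [hl]; nlinarith [Nat.cast_nonneg (α := ℝ) r]
  refine Exists.imp (fun L h => ⟨h.1, h.2.1.trans (Real.exp_le_exp.2 hr2), h.2.2⟩)
    (strong_level hd h1 (l := l) (η := 1 / x) (by positivity)
      (by gcongr; linarith) (by linarith) (N := r * n) ?_ ?_)
  · refine le_trans ?_ (hit_mono_set (setY_subset _) _ _)
    rw [← hul, ENNReal.ofReal_pow hu0.le]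
    refine le_trans (le_of_eq ?_) ((pow_le_pow_left' hhit r).trans (hitY_pow _ _ _))
    rw [← ENNReal.ofReal_pow (by positivity), Real.rpow_def_of_pos hu0, ← Real.exp_nat_mul, hl]
    congr 2; ring
  · set E := Real.exp (B * x * Real.log x) with hE
    have hE1 : 1 ≤ E := Real.one_le_exp (by positivity)
    have hl1 : 1 ≤ l := by linarith
    have b1 : ((r * n : ℕ) : ℝ) + 1 ≤ 3 * l * E := by
      push_cast
      have : (r : ℝ) * n ≤ 2 * l * E := by gcongr
      nlinarith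
    have b2 : l ≤ (3 * B + 1) * x ^ 3 := by
      refine hr2.trans ?_
      rw [mul_assoc, pow_succ x 2]; gcongr
    have b3 : x ^ 13 ≤ Real.exp (x * Real.log x) := by
      rw [← Real.exp_log (pow_pos hx0 13), Real.log_pow]
      refine Real.exp_le_exp.2 ?_
      push_cast; gcongr; linarith
    have b4 : E ^ 2 * Real.exp (x * Real.log x) ≤ Real.exp (1 / x * l) := by
      rw [hE, ← Real.exp_nat_mul, ← Real.exp_add]
      refine Real.exp_le_exp.2 (le_trans (le_of_eq ?_) (mul_le_mul_of_nonneg_left hr1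
        (by positivity : 0 ≤ 1 / x)))
      rw [hl₀]; push_cast; field_simp
    calc 16384 * (4 * d + 1) * l ^ 2 * (((r * n : ℕ) : ℝ) + 1) ^ 2
        ≤ 16384 * (4 * d + 1) * l ^ 2 * (3 * l * E) ^ 2 := by gcongr
      _ = E ^ 2 * (147456 * (4 * d + 1) * l ^ 4) := by ring
      _ ≤ E ^ 2 * (147456 * (4 * d + 1) * ((3 * B + 1) * x ^ 3) ^ 4) := by gcongr
      _ = E ^ 2 * ((147456 * (4 * d + 1) * (3 * B + 1) ^ 4) * x ^ 12) := by ring
      _ ≤ E ^ 2 * (x * x ^ 12) := by gcongr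
      _ = E ^ 2 * x ^ 13 := by ring
      _ ≤ E ^ 2 * Real.exp (x * Real.log x) := by gcongr
      _ ≤ _ := b4

end Pool.Agent.Lib.MP_153faa_pr
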