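import Mathlib
import Pool.Agent.Lib.MP_153faa_pr.WeakA
import Pool.Agent.Lib.MP_153faa_pr.Heat

/-!
Finite size criterion for bounded moments of order above `1 + 2 / d`.
-/

set_option autoImplicit false

open MeasureTheory
open scoped ENNReal NNReal

namespace Pool.Agent.Lib.MP_153faa_pr

variable {d : ℕ} {ρ : Measure ℝ≥0} [IsProbabilityMeasure ρ]

theorem weak_real {c v w Δ r q : ℝ} (hc : 0 ≤ c) (hv : 0 ≤ v) (hw : 0 < w) (hΔ : 0 ≤ Δ)
    (hr : 0 < r) (hq1 : 1 ≤ q) (hq2 : q ≤ 2) (h : c * v ^ 2 ≤ w ^ (2 - q) * Δ) :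
    c * v ^ q ≤ (c * r ^ (q - 1) * w ^ (q - 1) + r ^ (q - 3) * Δ / w) * v := by
  have hrw : 0 < r * w := mul_pos hr hw
  rcases eq_or_lt_of_le hv with rfl | hv0
  · rw [Real.zero_rpow (by linarith)]; simp
  by_cases hvr : v ≤ r * w
  · have h1 : v ^ q = v ^ (q - 1) * v := by
      rw [← Real.rpow_add_one hv0.ne']; ring_nf
    have h2 : v ^ (q - 1) ≤ r ^ (q - 1) * w ^ (q - 1) := by
      rw [← Real.mul_rpow hr.le hw.le]; exact Real.rpow_le_rpow hv hvr (by linarith)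
    have h3 : 0 ≤ r ^ (q - 3) * Δ / w * v := by positivity
    calc c * v ^ q = c * v ^ (q - 1) * v := by rw [h1]; ring
      _ ≤ c * (r ^ (q - 1) * w ^ (q - 1)) * v := by gcongr
      _ ≤ _ := by nlinarith
  · push Not at hvr
    have h1 : v ^ q = v ^ 2 * v ^ (q - 3) * v := by
      rw [← Real.rpow_natCast v 2, ← Real.rpow_add hv0, ← Real.rpow_add_one hv0.ne']
      norm_num; ring_nf
    have h2 : v ^ (q - 3) ≤ r ^ (q - 3) * w ^ (q - 3) := by
      rw [← Real.mul_rpow hr.le hw.le]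
      exact Real.rpow_le_rpow_of_nonpos hrw hvr.le (by linarith)
    have h3 : w ^ (2 - q) * w ^ (q - 3) = w⁻¹ := by
      rw [← Real.rpow_add hw, ← Real.rpow_neg_one]; ring_nf
    have h4 : 0 ≤ c * r ^ (q - 1) * w ^ (q - 1) * v := by positivity
    calc c * v ^ q = (c * v ^ 2) * v ^ (q - 3) * v := by rw [h1]; ring
      _ ≤ (w ^ (2 - q) * Δ) * (r ^ (q - 3) * w ^ (q - 3)) * v := by gcongr
      _ = r ^ (q - 3) * Δ * (w ^ (2 - q) * w ^ (q - 3)) * v := by ring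
      _ = r ^ (q - 3) * Δ / w * v := by rw [h3]; ring
      _ ≤ _ := by nlinarith

theorem strict_step (hd : 1 ≤ d) (h1 : Mean1 ρ) {q : ℝ} (hq1 : 1 ≤ q) (hq2 : q ≤ 2) {c : ℝ}
    (hc : 0 ≤ c) (hS : Strict ρ q (ENNReal.ofReal c)) {r : ℝ} (hr : 0 < r) (f : Prof d) :
    ENNReal.ofReal c * nq q (avg f) + ENNReal.ofReal (r ^ (q - 3)) * mq q f ≤
      ENNReal.ofReal (c * r ^ (q - 1)) * mq q f + ENNReal.ofReal (r ^ (q - 3)) * T ρ (mq q) f := by
  have hq0 : 0 < q := by linarith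
  by_cases hT : T ρ (mq q) f = ⊤
  · rw [hT, ENNReal.mul_top (by simpa using Real.rpow_pos_of_pos hr _)]; simp
  obtain ⟨Δ, hΔ⟩ := exists_add_of_le (mq_le_T hd h1 hq1 f)
  rw [hΔ] at hT
  have hΔt : Δ ≠ ⊤ := (ENNReal.add_ne_top.1 hT).2
  have hwt : mass f ≠ ⊤ := by
    intro h
    exact (ENNReal.add_ne_top.1 hT).1 (by rw [mq, h, ENNReal.top_rpow_of_pos hq0])
  have hV : ∀ x, avg f x ≤ mass f := fun x => (le_mass _ x).trans (mass_avg hd f).le
  by_cases hw0 : mass f = 0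
  · have : nq q (avg f) = 0 := by
      unfold nq
      refine ENNReal.tsum_eq_zero.2 fun x => ?_
      rw [le_antisymm ((hV x).trans hw0.le) zero_le, ENNReal.zero_rpow_of_pos hq0]
    rw [this, hΔ, mul_zero, zero_add]
    exact le_add_left (by gcongr; exact le_self_add)
  obtain ⟨w, hw⟩ : ∃ w : ℝ, 0 < w ∧ mass f = ENNReal.ofReal w :=
    ⟨(mass f).toReal, ENNReal.toReal_pos hw0 hwt, (ENNReal.ofReal_toReal hwt).symm⟩
  obtain ⟨D, hD⟩ : ∃ D : ℝ, 0 ≤ D ∧ Δ = ENNReal.ofReal D :=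
    ⟨Δ.toReal, ENNReal.toReal_nonneg, (ENNReal.ofReal_toReal hΔt).symm⟩
  have key : ∀ x, ENNReal.ofReal c * avg f x ^ q ≤
      ENNReal.ofReal (c * r ^ (q - 1) * w ^ (q - 1) + r ^ (q - 3) * D / w) * avg f x := by
    intro x
    have hxt : avg f x ≠ ⊤ := ne_top_of_le_ne_top hwt (hV x)
    obtain ⟨v, hv0, hv⟩ : ∃ v : ℝ, 0 ≤ v ∧ avg f x = ENNReal.ofReal v :=
      ⟨(avg f x).toReal, ENNReal.toReal_nonneg, (ENNReal.ofReal_toReal hxt).symm⟩
    have h2 := lay_strict h1 hq1 hq2 hS (avg f) x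
    have e1 : ∑' x, avg f x = ENNReal.ofReal w := (mass_avg hd f).trans hw.2
    have e2 : ∫⁻ ξ, (∑' x, avg f x * (ξ x : ℝ≥0∞)) ^ q ∂lay d ρ =
        ENNReal.ofReal w ^ q + ENNReal.ofReal D := by
      rw [← hw.2, ← hD.2]
      refine Eq.trans ?_ hΔ
      simp only [T, mq, mass_step]
    have hw0' := hw.1.le
    have hD0 := hD.1
    rw [e1, e2, hv, ENNReal.ofReal_rpow_of_pos hw.1, ENNReal.ofReal_rpow_of_pos hw.1,
      ← ENNReal.ofReal_pow hw0', ← ENNReal.ofReal_pow hv0, ← ENNReal.ofReal_mul hc,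
      ← ENNReal.ofReal_add (by positivity) (by positivity),
      ← ENNReal.ofReal_add (by positivity) hD0, ← ENNReal.ofReal_mul (by positivity),
      ENNReal.ofReal_le_ofReal_iff (by positivity)] at h2
    have e3 : w ^ (2 - q) * w ^ q = w ^ 2 := by
      rw [← Real.rpow_add hw.1, ← Real.rpow_natCast]; norm_num
    have h3 : c * v ^ 2 ≤ w ^ (2 - q) * D := by nlinarith
    rw [hv, ENNReal.ofReal_rpow_of_nonneg hv0 hq0.le, ← ENNReal.ofReal_mul hc,
      ← ENNReal.ofReal_mul (by have := hw.1; positivity)]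
    exact ENNReal.ofReal_le_ofReal (weak_real hc hv0 hw.1 hD0 hr hq1 hq2 h3)
  have h4 : ENNReal.ofReal c * nq q (avg f) ≤
      ENNReal.ofReal (c * r ^ (q - 1)) * mq q f + ENNReal.ofReal (r ^ (q - 3)) * Δ := by
    calc ENNReal.ofReal c * nq q (avg f) = ∑' x, ENNReal.ofReal c * avg f x ^ q := by
          rw [nq, ENNReal.tsum_mul_left]
      _ ≤ ∑' x, ENNReal.ofReal (c * r ^ (q - 1) * w ^ (q - 1) + r ^ (q - 3) * D / w) * avg f x :=
          ENNReal.tsum_le_tsum key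
      _ = ENNReal.ofReal (c * r ^ (q - 1) * w ^ (q - 1) + r ^ (q - 3) * D / w) *
            ENNReal.ofReal w := by
          rw [ENNReal.tsum_mul_left, ← hw.2, ← mass_avg hd f]; rfl
      _ = _ := by
          have hw1 := hw.1
          have hD0 := hD.1
          rw [mq, hw.2, hD.2, ENNReal.ofReal_rpow_of_pos hw.1,
            ← ENNReal.ofReal_mul (by positivity), ← ENNReal.ofReal_mul (by positivity),
            ← ENNReal.ofReal_mul (by positivity),
            ← ENNReal.ofReal_add (by positivity) (by positivity)]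
          congr 1
          have : w ^ q = w ^ (q - 1) * w := by rw [← Real.rpow_add_one hw1.ne']; ring_nf
          rw [this]; field_simp
  rw [hΔ, mul_add]
  calc _ ≤ ENNReal.ofReal (c * r ^ (q - 1)) * mq q f + ENNReal.ofReal (r ^ (q - 3)) * Δ +
        ENNReal.ofReal (r ^ (q - 3)) * mq q f := by gcongr
    _ = _ := by ring

theorem small_a (hd : 1 ≤ d) (h1 : Mean1 ρ) {q : ℝ} (hq1 : 1 ≤ q) (hq2 : q ≤ 2) {c : ℝ}
    (hc : 0 < c) (hS : Strict ρ q (ENNReal.ofReal c)) {n : ℕ} (hn : 1 ≤ n) {M : ℝ} (hM0 : 0 ≤ M)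
    (hM : Mom d ρ q n ≤ ENNReal.ofReal M) :
    ∃ k < n, (T ρ)^[k] (fun f => nq q (avg f)) (dlt (0 : Site d)) ≤
      ENNReal.ofReal ((1 + 1 / c) * (n : ℝ) ^ (-(q - 1) / 2) * M) := by
  have hn0 : (0 : ℝ) < n := by exact_mod_cast hn
  set r : ℝ := (n : ℝ) ^ (-(1 / 2) : ℝ) with hr
  have hr0 : 0 < r := Real.rpow_pos_of_pos hn0 _
  have hmA : Measurable fun f : Prof d => nq q (avg f) := (measurable_nq q).comp measurable_avg
  have h := telescope_down (ρ := ρ) (Φ := fun f => ENNReal.ofReal (r ^ (q - 3)) * mq q f)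
    (hmA.const_mul (ENNReal.ofReal c))
    ((measurable_mq q).const_mul (ENNReal.ofReal (c * r ^ (q - 1))))
    (fun f => by
      rw [T_const_mul _ (measurable_mq q)]; exact strict_step hd h1 hq1 hq2 hc.le hS hr0 f) n
    (dlt (0 : Site d))
  simp only [T_iter_const_mul _ _ hmA, T_iter_const_mul _ _ (measurable_mq q),
    ← Finset.mul_sum] at h
  have h2 : ∑ m ∈ Finset.range n, (T ρ)^[m] (mq q) (dlt (0 : Site d)) ≤ n * ENNReal.ofReal M := by
    calc _ ≤ ∑ _m ∈ Finset.range n, ENNReal.ofReal M :=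
          Finset.sum_le_sum fun m hm =>
            (Mom_mono hd h1 hq1 (Finset.mem_range.1 hm).le).trans hM
      _ = _ := by simp
  by_contra hcon
  push Not at hcon
  set a := (1 + 1 / c) * (n : ℝ) ^ (-(q - 1) / 2) * M with ha
  have ha0 : 0 ≤ a := by positivity
  have h3 : (n : ℝ≥0∞) * ENNReal.ofReal a <
      ∑ m ∈ Finset.range n, (T ρ)^[m] (fun f => nq q (avg f)) (dlt (0 : Site d)) := by
    calc (n : ℝ≥0∞) * ENNReal.ofReal a = ∑ _m ∈ Finset.range n, ENNReal.ofReal a := by simp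
      _ < _ := ENNReal.sum_lt_sum_of_nonempty ⟨0, Finset.mem_range.2 hn⟩ fun m hm =>
          hcon m (Finset.mem_range.1 hm)
  have h4 : ENNReal.ofReal c * ((n : ℝ≥0∞) * ENNReal.ofReal a) <
      ENNReal.ofReal (c * r ^ (q - 1)) * (n * ENNReal.ofReal M) +
        ENNReal.ofReal (r ^ (q - 3)) * ENNReal.ofReal M := by
    refine lt_of_lt_of_le (ENNReal.mul_lt_mul_right (by simpa using hc) (by simp) h3) ?_
    refine (le_self_add.trans h).trans ?_
    gcongr
    exact hM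
  rw [← ENNReal.ofReal_natCast, ← ENNReal.ofReal_mul hn0.le, ← ENNReal.ofReal_mul hc.le,
    ← ENNReal.ofReal_mul hn0.le, ← ENNReal.ofReal_mul (by positivity),
    ← ENNReal.ofReal_mul (by positivity),
    ← ENNReal.ofReal_add (by positivity) (by positivity)] at h4
  have h5 := (ENNReal.ofReal_lt_ofReal_iff_of_nonneg (by positivity)).1 h4
  have e1 : r ^ (q - 1) = (n : ℝ) ^ (-(q - 1) / 2) := by
    rw [hr, ← Real.rpow_mul hn0.le]; ring_nf
  have e2 : r ^ (q - 3) = (n : ℝ) ^ (-(q - 1) / 2) * n := by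
    rw [hr, ← Real.rpow_mul hn0.le, ← Real.rpow_add_one hn0.ne']; ring_nf
  rw [e1, e2, ha] at h5
  have : c * (n * ((1 + 1 / c) * (n : ℝ) ^ (-(q - 1) / 2) * M)) =
      c * (n : ℝ) ^ (-(q - 1) / 2) * (n * M) + (n : ℝ) ^ (-(q - 1) / 2) * n * M := by
    field_simp
  linarith

theorem nq_avg_iter_le (hd : 1 ≤ d) {q : ℝ} (hq : 1 ≤ q) (i : ℕ) {p : ℝ≥0∞}
    (h : ∀ x : Site d, avg^[i] (dlt 0) x ≤ p) : nq q (avg^[i] (dlt (0 : Site d))) ≤ p ^ (q - 1) := by
  calc nq q (avg^[i] (dlt (0 : Site d))) ≤ ∑' x : Site d, p ^ (q - 1) * avg^[i] (dlt 0) x := by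
        refine ENNReal.tsum_le_tsum fun x => ?_
        have : avg^[i] (dlt 0) x ^ q = avg^[i] (dlt 0) x ^ (q - 1) * avg^[i] (dlt 0) x := by
          conv_lhs => rw [show q = (q - 1) + 1 by ring]
          rw [ENNReal.rpow_add_of_nonneg _ _ (by linarith) zero_le_one, ENNReal.rpow_one]
        rw [this]
        exact mul_le_mul_left (ENNReal.rpow_le_rpow (h x) (by linarith)) _
    _ = p ^ (q - 1) := by
        rw [ENNReal.tsum_mul_left]
        have := mass_avg_iter hd i (dlt (0 : Site d))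
        rw [mass_dlt, mass] at this
        rw [this, mul_one]

theorem weak_param (hd : 3 ≤ d) {C : ℝ} (hC : 1 ≤ C) (hh : ∀ (n : ℕ) (x : Site d),
      avg^[n] (dlt 0) x ≤ ENNReal.ofReal (C * ((n : ℝ) + 1) ^ (-(d : ℝ) / 2)))
    {x : ℝ} (hx : 3 ≤ x) (h1 : Mean1 ρ) (hK : mom ρ 2 ≤ ENNReal.ofReal x)
    (hS : Strict ρ (1 + 2 / d + 1 / x) (ENNReal.ofReal (1 / x))) {M : ℝ} (hM0 : 0 ≤ M) {n i : ℕ}
    (hn : 1 ≤ n) (hi : 1 ≤ i) (hM : Mom d ρ (1 + 2 / d + 1 / x) n ≤ ENNReal.ofReal M)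
    (c1 : 32 * x ^ 3 * M * C * (i : ℝ) ^ (-(1 / x)) ≤ 1)
    (c2 : 64 * x ^ 3 * M * i * (n : ℝ) ^ (-(1 / d : ℝ)) ≤ 1) :
    ∃ M' : ℝ≥0∞, M' ≠ ⊤ ∧ ∀ n, Mom d ρ (1 + 2 / d + 1 / x) n ≤ M' := by
  have hd1 : 1 ≤ d := by omega
  have hdR : (3 : ℝ) ≤ d := by exact_mod_cast hd
  have hx0 : 0 < x := by linarith
  set q : ℝ := 1 + 2 / d + 1 / x with hq
  have hq1 : 1 ≤ q := by rw [hq, add_assoc]; exact le_add_of_nonneg_right (by positivity)
  have hq2 : q ≤ 2 := by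
    have a1 : (2 : ℝ) / d ≤ 2 / 3 := by gcongr
    have a2 : 1 / x ≤ 1 / 3 := by gcongr
    linarith
  obtain ⟨k, hk, hak⟩ := small_a hd1 h1 hq1 hq2 (by positivity) hS hn hM0 hM
  have hmq : mom ρ q ≤ ENNReal.ofReal x := (mom_le_mom_two h1 hq1 hq2).trans hK
  have hn1 : (1 : ℝ) ≤ n := by exact_mod_cast hn
  have hA : Am d ρ q (k + 1) ≤ ENNReal.ofReal (2 * x ^ 2 * M * (n : ℝ) ^ (-(1 / d : ℝ))) := by
    have e : T ρ (nq q) = fun f : Prof d => mom ρ q * nq q (avg f) :=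
      funext (T_nq (by linarith))
    have hmA : Measurable fun f : Prof d => nq q (avg f) := (measurable_nq q).comp measurable_avg
    rw [Am, Function.iterate_succ_apply, e, T_iter_const_mul _ _ hmA]
    refine (mul_le_mul' hmq hak).trans ?_
    rw [← ENNReal.ofReal_mul hx0.le]
    refine ENNReal.ofReal_le_ofReal ?_
    have a1 : (n : ℝ) ^ (-(q - 1) / 2) ≤ (n : ℝ) ^ (-(1 / d : ℝ)) := by
      refine Real.rpow_le_rpow_of_exponent_le hn1 ?_
      have : 0 ≤ 1 / x := by positivity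
      have e : (2 : ℝ) / d = 2 * (1 / d) := by ring
      rw [hq]; linarith
    have a2 : 1 + 1 / (1 / x) ≤ 2 * x := by rw [one_div_one_div]; linarith
    calc x * ((1 + 1 / (1 / x)) * (n : ℝ) ^ (-(q - 1) / 2) * M)
        ≤ x * ((2 * x) * (n : ℝ) ^ (-(1 / d : ℝ)) * M) := by gcongr
      _ = _ := by ring
  have b1 : ∀ j, Psi ρ q (k + 1) j (dlt (0 : Site d)) ≤
      ENNReal.ofReal (2 * x ^ 2 * M * (n : ℝ) ^ (-(1 / d : ℝ))) := fun j => by
    refine (T_iter_nq_le hq1 _ _).trans ?_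
    rw [mass_avg_iter hd1, mass_dlt, ENNReal.one_rpow, one_mul]
    exact hA
  have b2 : ∀ j : ℕ, Psi ρ q (k + 1) j (dlt (0 : Site d)) ≤
      ENNReal.ofReal (x * M * C) * ENNReal.ofReal (((j : ℝ) + 1) ^ (-1 - 1 / x)) := fun j => by
    refine (T_iter_nq_le_rev hd1 hq1 _ _).trans ?_
    have hj : (1 : ℝ) ≤ (j : ℝ) + 1 := by linarith [Nat.cast_nonneg (α := ℝ) j]
    refine (mul_le_mul' (mul_le_mul' hmq ((Mom_mono hd1 h1 hq1 hk.le).trans hM))
      (nq_avg_iter_le hd1 hq1 j (hh j))).trans ?_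
    rw [ENNReal.ofReal_rpow_of_pos (by positivity), ← ENNReal.ofReal_mul hx0.le,
      ← ENNReal.ofReal_mul (by positivity), ← ENNReal.ofReal_mul (by positivity)]
    refine ENNReal.ofReal_le_ofReal ?_
    rw [Real.mul_rpow (by positivity) (by positivity), ← Real.rpow_mul (by positivity)]
    have a1 : C ^ (q - 1) ≤ C := by
      conv_rhs => rw [← Real.rpow_one C]
      exact Real.rpow_le_rpow_of_exponent_le hC (by linarith)
    have a2 : ((j : ℝ) + 1) ^ (-(d : ℝ) / 2 * (q - 1)) ≤ ((j : ℝ) + 1) ^ (-1 - 1 / x) := by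
      refine Real.rpow_le_rpow_of_exponent_le hj ?_
      have e : -(d : ℝ) / 2 * (q - 1) = -1 - d / 2 * (1 / x) := by
        rw [hq]; field_simp; ring
      have : 1 * (1 / x) ≤ d / 2 * (1 / x) := by gcongr; linarith
      rw [e]; linarith
    calc x * M * (C ^ (q - 1) * ((j : ℝ) + 1) ^ (-(d : ℝ) / 2 * (q - 1)))
        ≤ x * M * (C * ((j : ℝ) + 1) ^ (-1 - 1 / x)) := by gcongr
      _ = _ := by ring
  refine weak_core hd1 h1 hK ENNReal.ofReal_ne_top hq1 hq2 (k + 1) ?_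
  have hi0 : (0 : ℝ) < i := by exact_mod_cast hi
  have hsum : ∑' j, Psi ρ q (k + 1) j (dlt (0 : Site d)) ≤
      ENNReal.ofReal (i * (2 * x ^ 2 * M * (n : ℝ) ^ (-(1 / d : ℝ))) +
        x * M * C * ((i : ℝ) ^ (-(1 / x)) / (1 / x))) := by
    rw [← Summable.sum_add_tsum_nat_add' (k := i) ENNReal.summable,
      ENNReal.ofReal_add (by positivity) (by positivity)]
    refine add_le_add ?_ ?_
    · calc _ ≤ ∑ _j ∈ Finset.range i,
            ENNReal.ofReal (2 * x ^ 2 * M * (n : ℝ) ^ (-(1 / d : ℝ))) :=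
            Finset.sum_le_sum fun j _ => b1 j
        _ = _ := by
            rw [ENNReal.ofReal_mul hi0.le, ENNReal.ofReal_natCast]; simp
    · refine (ENNReal.tsum_le_tsum fun j => b2 (j + i)).trans ?_
      rw [ENNReal.tsum_mul_left, ENNReal.ofReal_mul (by positivity : 0 ≤ x * M * C)]
      gcongr
      exact tail_sum (by positivity) hi
  refine (mul_le_mul_right hsum _).trans ?_
  rw [show (8 : ℝ≥0∞) = ENNReal.ofReal 8 by simp, ← ENNReal.ofReal_mul (by norm_num),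
    ← ENNReal.ofReal_mul (by positivity), show (2⁻¹ : ℝ≥0∞) = ENNReal.ofReal (1 / 2) by
      rw [one_div, ENNReal.ofReal_inv_of_pos (by norm_num)]; simp]
  refine ENNReal.ofReal_le_ofReal ?_
  have e : 8 * x * (i * (2 * x ^ 2 * M * (n : ℝ) ^ (-(1 / d : ℝ))) +
        x * M * C * ((i : ℝ) ^ (-(1 / x)) / (1 / x))) =
      (64 * x ^ 3 * M * i * (n : ℝ) ^ (-(1 / d : ℝ))) / 4 +
        (32 * x ^ 3 * M * C * (i : ℝ) ^ (-(1 / x))) / 4 := by
    field_simp; ring
  rw [e]; linarith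

/-- The finite size criterion. -/
theorem weak (hd : 3 ≤ d) (A : ℕ) : ∃ B : ℝ, 0 < B ∧ ∀ x : ℝ, 3 ≤ x →
    ∀ (ρ : Measure ℝ≥0) [IsProbabilityMeasure ρ], Mean1 ρ → mom ρ 2 ≤ ENNReal.ofReal x →
      Strict ρ (1 + 2 / d + 1 / x) (ENNReal.ofReal (1 / x)) → ∀ n : ℕ,
      Real.exp (B * x * Real.log x) ≤ n →
      Mom d ρ (1 + 2 / d + 1 / x) n ≤ ENNReal.ofReal (x ^ A) →
      ∃ M' : ℝ≥0∞, M' ≠ ⊤ ∧ ∀ n, Mom d ρ (1 + 2 / d + 1 / x) n ≤ M' := by
  obtain ⟨C, hC, hh⟩ := heat_dlt (d := d) (by omega)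
  have hdR : (3 : ℝ) ≤ d := by exact_mod_cast hd
  have hL : 0 ≤ Real.log (32 * C) := Real.log_nonneg (by linarith)
  refine ⟨d * (2 * A + 11 + Real.log (32 * C)), by positivity,
    fun x hx ρ _ h1 hK hS n hn hM => ?_⟩
  have hx0 : 0 < x := by linarith
  have hlx : 1 ≤ Real.log x := by
    rw [Real.le_log_iff_exp_le hx0]; linarith [Real.exp_one_lt_d9]
  set G : ℝ := 32 * C * x ^ (A + 3) with hG
  have hxp : 1 ≤ x ^ (A + 3) := one_le_pow₀ (by linarith)
  have hG1 : 1 ≤ G := by rw [hG]; nlinarith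
  have hGx : 1 ≤ G ^ x := Real.one_le_rpow hG1 hx0.le
  set i := ⌈G ^ x⌉₊ with hi
  have hi1 : G ^ x ≤ i := Nat.le_ceil _
  have hi2 : (i : ℝ) ≤ 2 * G ^ x := by
    have := Nat.ceil_lt_add_one (show 0 ≤ G ^ x by linarith)
    linarith
  have hexp : 1 ≤ Real.exp (d * (2 * A + 11 + Real.log (32 * C)) * x * Real.log x) :=
    Real.one_le_exp (by positivity)
  have hn1 : (1 : ℝ) ≤ n := hexp.trans hn
  refine weak_param hd hC hh hx h1 hK hS (by positivity) (i := i) (by exact_mod_cast hn1)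
    (by exact_mod_cast hGx.trans hi1) hM ?_ ?_
  · have a1 : (i : ℝ) ^ (-(1 / x)) ≤ G⁻¹ := by
      calc (i : ℝ) ^ (-(1 / x)) ≤ (G ^ x) ^ (-(1 / x)) :=
            Real.rpow_le_rpow_of_nonpos (by linarith) hi1 (by simp [hx0.le])
        _ = G⁻¹ := by
            rw [← Real.rpow_mul (by linarith), ← Real.rpow_neg_one]; congr 1; field_simp
    calc 32 * x ^ 3 * x ^ A * C * (i : ℝ) ^ (-(1 / x)) ≤ 32 * x ^ 3 * x ^ A * C * G⁻¹ := by gcongr
      _ = 1 := by rw [hG]; field_simp; ring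
  · have a1 : (n : ℝ) ^ (-(1 / d : ℝ)) ≤
        Real.exp (-((2 * A + 11 + Real.log (32 * C)) * x * Real.log x)) := by
      calc (n : ℝ) ^ (-(1 / d : ℝ)) ≤
          (Real.exp (d * (2 * A + 11 + Real.log (32 * C)) * x * Real.log x)) ^ (-(1 / d : ℝ)) :=
            Real.rpow_le_rpow_of_nonpos (Real.exp_pos _) hn (by simp)
        _ = _ := by rw [← Real.exp_mul]; congr 1; field_simp
    have a2 : 128 * x ^ (A + 3) * G ^ x ≤
        Real.exp ((2 * A + 11 + Real.log (32 * C)) * x * Real.log x) := by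
      have e1 : x ^ (A + 3) = Real.exp ((A + 3) * Real.log x) := by
        rw [← Real.exp_log (pow_pos hx0 (A + 3)), Real.log_pow]; push_cast; rfl
      have e2 : G ^ x = Real.exp ((Real.log (32 * C) + (A + 3) * Real.log x) * x) := by
        rw [Real.rpow_def_of_pos (by linarith), hG, Real.log_mul (by positivity) (by positivity),
          Real.log_pow]; push_cast; rfl
      have e3 : (128 : ℝ) ≤ Real.exp 5 := by
        have := Real.exp_one_gt_d9
        have h2 : Real.exp 5 = Real.exp 1 ^ 5 := by rw [← Real.exp_nat_mul]; norm_num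
        rw [h2]
        calc (128 : ℝ) ≤ 2.7 ^ 5 := by norm_num
          _ ≤ _ := by gcongr; linarith
      rw [e1, e2]
      refine (mul_le_mul_of_nonneg_right (mul_le_mul_of_nonneg_right e3 (Real.exp_pos _).le)
        (Real.exp_pos _).le).trans ?_
      rw [← Real.exp_add, ← Real.exp_add]
      refine Real.exp_le_exp.2 ?_
      have hA : (0 : ℝ) ≤ A := by positivity
      have t1 : 1 ≤ x * Real.log x := by nlinarith
      have t2 : Real.log x ≤ x * Real.log x := by nlinarith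
      have t3 : x ≤ x * Real.log x := by nlinarith
      have t4 := mul_le_mul_of_nonneg_left t2 (show 0 ≤ (A : ℝ) + 3 by positivity)
      have t5 := mul_le_mul_of_nonneg_left t3 hL
      nlinarith
    calc 64 * x ^ 3 * x ^ A * i * (n : ℝ) ^ (-(1 / d : ℝ))
        ≤ 64 * x ^ 3 * x ^ A * (2 * G ^ x) *
          Real.exp (-((2 * A + 11 + Real.log (32 * C)) * x * Real.log x)) := by gcongr
      _ = (128 * x ^ (A + 3) * G ^ x) *
          Real.exp (-((2 * A + 11 + Real.log (32 * C)) * x * Real.log x)) := by ring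
      _ ≤ Real.exp ((2 * A + 11 + Real.log (32 * C)) * x * Real.log x) *
          Real.exp (-((2 * A + 11 + Real.log (32 * C)) * x * Real.log x)) := by gcongr
      _ = 1 := by rw [← Real.exp_add]; simp

end Pool.Agent.Lib.MP_153faa_pr
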