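import Mathlib
import Pool.Agent.Lib.MP_153faa_pr.Weak
import Pool.Agent.Lib.MP_153faa_pr.GoodL
import Pool.Agent.Lib.MP_153faa_pr.Strong
import Pool.Agent.Lib.MP_153faa_pr.Bridge
import Pool.Agent.Lib.MP_153faa_pr.OneB

/-!
Assembly: the free energy slightly above the critical point.
-/

set_option autoImplicit false

open MeasureTheory
open scoped ENNReal NNReal

namespace Pool.Agent.Lib.MP_153faa_pr

variable {d : ℕ}

theorem Strict.mono {ρ : Measure ℝ≥0} {q : ℝ} {c c' : ℝ≥0∞} (h : Strict ρ q c) (hc : c' ≤ c) :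
    Strict ρ q c' := fun A b => le_trans (by gcongr) (h A b)

/-- Two environments, the second one slightly more disordered and bounded. -/
theorem core (hd : 3 ≤ d) : ∃ B x₀ : ℝ, 0 < B ∧ ∀ x : ℝ, x₀ ≤ x →
    ∀ (ρ₁ ρ₂ : Measure ℝ≥0) [IsProbabilityMeasure ρ₁] [IsProbabilityMeasure ρ₂],
      Mean1 ρ₁ → Mean1 ρ₂ → mom ρ₁ 2 ≤ ENNReal.ofReal x →
      Strict ρ₁ (1 + 2 / d + 1 / x) (ENNReal.ofReal (1 / x)) →
      (∀ M : ℝ≥0∞, M ≠ ⊤ → ¬ ∀ n, Mom d ρ₁ (1 + 2 / d + 1 / x) n ≤ M) →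
      Comp ρ₁ ρ₂ (1 + 2 / d + 1 / x) (1 + 2 / d - 2 / x) →
      (∀ᵐ t ∂ρ₂, ((t : ℝ≥0) : ℝ) ≤ x ^ 2) → ∀ χ : ℝ≥0∞, mom ρ₂ 2 = 1 + χ →
      χ ≤ ENNReal.ofReal x → 1 + ENNReal.ofReal (1 / x ^ 2) ≤ χ * gsum d →
      ∃ L : ℕ, 1 ≤ L ∧ (L : ℝ) ≤ Real.exp (B * x ^ 2 * Real.log x) ∧
        ∃ θ : ℝ, 0 < θ ∧ θ ≤ 1 ∧ ∀ m, Mom d ρ₂ θ m ≤ 2⁻¹ ^ (m / L) := by
  obtain ⟨Bw, hBw, hw⟩ := weak hd 162
  obtain ⟨x₁, hg⟩ := goodl hd
  obtain ⟨x₂, hs⟩ := strong hd (B := Bw + 117) (by linarith)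
  refine ⟨3 * (Bw + 117) + 1, max (d : ℝ) (max x₁ x₂), by positivity,
    fun x hx ρ₁ ρ₂ _ _ h1 h2 hK hS hU hC hH χ hχ hχx hκ => ?_⟩
  have hdR : (3 : ℝ) ≤ d := by exact_mod_cast hd
  have hxd : (d : ℝ) ≤ x := (le_max_left _ _).trans hx
  have hx1 : x₁ ≤ x := ((le_max_left _ _).trans (le_max_right _ _)).trans hx
  have hx2 : x₂ ≤ x := ((le_max_right _ _).trans (le_max_right _ _)).trans hx
  have hx3 : 3 ≤ x := by linarith
  have hx0 : 0 < x := by linarith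
  have hlx : 1 ≤ Real.log x := by
    rw [Real.le_log_iff_exp_le hx0]; linarith [Real.exp_one_lt_d9]
  have hxl : 1 ≤ x * Real.log x := by nlinarith
  set n := ⌈Real.exp (Bw * x * Real.log x)⌉₊ with hn
  have hn2 : (n : ℝ) ≤ Real.exp ((Bw + 117) * x * Real.log x) := by
    have h3 := (Nat.ceil_lt_add_one (Real.exp_pos (Bw * x * Real.log x)).le).le
    have h4 : 1 ≤ Real.exp (Bw * x * Real.log x) := Real.one_le_exp (by positivity)
    have h5 : 2 ≤ Real.exp (117 * x * Real.log x) := by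
      linarith [Real.add_one_le_exp (117 * x * Real.log x)]
    rw [add_mul, add_mul, Real.exp_add]
    nlinarith
  have hM1 : ¬ Mom d ρ₁ (1 + 2 / d + 1 / x) n ≤ ENNReal.ofReal (x ^ 162) := fun h => by
    obtain ⟨M, hMt, hM⟩ := hw x hx3 ρ₁ h1 hK hS n (Nat.le_ceil _) h
    exact hU M hMt hM
  have hdx : 1 / x ≤ 1 / d := by gcongr
  have e2d : (2 : ℝ) / d = 2 * (1 / d) := by ring
  have e2x : (2 : ℝ) / x = 2 * (1 / x) := by ring
  have hxi : 0 < 1 / x := by positivity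
  have hd3 : 1 / (d : ℝ) ≤ 1 / 3 := by gcongr
  have hM2 : ENNReal.ofReal (x ^ 81) < Mom d ρ₂ (1 + 2 / d - 2 / x) n := by
    by_contra h
    refine hM1 ((Mom_comp (by linarith) (by linarith) hC n).trans ?_)
    have hp : 0 < 1 + 2 / (d : ℝ) - 2 / x := by linarith
    refine (ENNReal.rpow_le_rpow (not_lt.1 h) (div_nonneg (by linarith) hp.le)).trans ?_
    rw [ENNReal.ofReal_rpow_of_pos (by positivity)]
    refine ENNReal.ofReal_le_ofReal ?_
    rw [show x ^ 162 = (x ^ 81) ^ (2 : ℝ) by rw [Real.rpow_two]; ring]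
    refine Real.rpow_le_rpow_of_exponent_le (one_le_pow₀ (by linarith)) ?_
    rw [div_le_iff₀ hp]; linarith
  obtain ⟨u, hu2, hu, hhit⟩ := hg x hx1 ρ₂ h2 hH χ hχ hχx hκ n hM2
  exact hs x hx2 ρ₂ h2 n u hn2 hu2 (hu.trans (Real.exp_le_exp.2 (by nlinarith))) hhit.le

theorem main (hd : 3 ≤ d) (ν : Measure ℝ) [IsProbabilityMeasure ν]
    (hν : ∀ β : ℝ, Integrable (fun t => Real.exp (β * t)) ν)
    (hne : ∃ β : ℝ, 0 ≤ β ∧ freeEnergy d ν β < 0) :
    ∃ C ε₀ : ℝ, 0 < C ∧ 0 < ε₀ ∧ ∀ ε : ℝ, 0 < ε → ε < ε₀ →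
      freeEnergy d ν (betaC d ν + ε) ≤ -Real.exp (-(C * Real.log (1 / ε) / ε ^ 2)) := by
  have hd1 : 1 ≤ d := by omega
  have hdR : (3 : ℝ) ≤ d := by exact_mod_cast hd
  have hbdd : BddBelow {β | 0 ≤ β ∧ freeEnergy d ν β < 0} := ⟨0, fun β hβ => hβ.1⟩
  have hc0 : 0 ≤ betaC d ν := le_csInf hne fun β hβ => hβ.1
  obtain ⟨G, hG1, hG⟩ : ∃ G : ℝ, 1 ≤ G ∧ gsum d ≤ ENNReal.ofReal G :=
    ⟨max 1 (gsum d).toReal, le_max_left _ _, by
      conv_lhs => rw [← ENNReal.ofReal_toReal (gsum_ne_top hd)]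
      exact ENNReal.ofReal_le_ofReal (le_max_right _ _)⟩
  set B₀ := betaC d ν + 1 with hB₀
  have hB₀1 : 1 ≤ B₀ := by linarith
  obtain ⟨K, hK1, hK⟩ := mom_rho_le hν B₀
  have hG0 : 0 < 1 / G := by positivity
  obtain ⟨b, hb0, hb⟩ := mom_rho_small hν hG0
  obtain ⟨c₁, hc₁0, hc₁1, htr⟩ := trunc_comp hK1 hG0 (τ := 1 / d) (by positivity)
  obtain ⟨B, x₀, hB, hcore⟩ := core hd
  set c := 6 * B₀ / c₁ with hc
  have hc1 : 1 / c₁ ≤ c := by rw [hc]; gcongr; linarith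
  have hc1' : 1 ≤ c := le_trans (by rw [le_div_iff₀ hc₁0]; linarith) hc1
  set X := max (max x₀ c) (4 * d * K * G ^ 2) with hX
  have hXK : 4 * d * K * G ^ 2 ≤ X := le_max_right _ _
  have hG2 : 1 ≤ G ^ 2 := one_le_pow₀ hG1
  have hdK : 4 * d * K ≤ X := le_trans (le_mul_of_one_le_right (by positivity) hG2) hXK
  have hX12 : 12 ≤ X := by nlinarith
  refine ⟨2 * B * c ^ 2 + 1, min b (1 / X), by positivity, lt_min hb0 (by positivity),
    fun ε hε hεlt => ?_⟩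
  have hεb : ε ≤ b := (hεlt.trans_le (min_le_left _ _)).le
  have hεX : X ≤ 1 / ε := by
    have := (hεlt.trans_le (min_le_right _ _)).le
    rw [le_div_iff₀ (by linarith)] at this
    rw [le_div_iff₀ hε]; linarith
  have hε1 : ε ≤ 1 := by
    have : 1 ≤ 1 / ε := by linarith
    rwa [le_div_iff₀ hε, one_mul] at this
  obtain ⟨β, ⟨hβ0, hβf⟩, hβlt⟩ := exists_lt_of_csInf_lt hne
    (show sInf {β | 0 ≤ β ∧ freeEnergy d ν β < 0} < betaC d ν + ε / 2 by
      unfold betaC; linarith)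
  have hβc : betaC d ν ≤ β := csInf_le hbdd ⟨hβ0, hβf⟩
  have hβB : β ≤ B₀ := by linarith
  obtain ⟨h5, hm1⟩ := hK β hβ0 hβB
  have h1 := mean1_rho hν β
  have hU : ∀ q : ℝ, 1 < q → ∀ M : ℝ≥0∞, M ≠ ⊤ → ¬ ∀ n, Mom d (rho ν β) q n ≤ M :=
    fun q hq M hM h => absurd (freeEnergy_nonneg hd1 hν hβ0 hq hM h) (not_le.2 hβf)
  obtain ⟨χ₁, hχ₁⟩ := exists_add_of_le (one_le_mom_two h1)
  have hχg : 1 ≤ χ₁ * gsum d := by
    by_contra h
    obtain ⟨M, hMt, hM⟩ := L2_bdd hd h1 hχ₁ (not_le.1 h)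
    exact hU 2 one_lt_two M hMt hM
  have hv : 1 + ENNReal.ofReal (1 / G) ≤ mom (rho ν β) 2 := by
    rw [hχ₁]
    gcongr
    calc ENNReal.ofReal (1 / G) = ENNReal.ofReal (1 / G) * 1 := (mul_one _).symm
      _ ≤ ENNReal.ofReal (1 / G) * (χ₁ * ENNReal.ofReal G) := by
          gcongr; exact hχg.trans (by gcongr)
      _ = χ₁ := by
          rw [mul_left_comm, ← ENNReal.ofReal_mul hG0.le, one_div_mul_cancel (by linarith)]
          simp
  have hβb : b < β := by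
    by_contra h
    exact absurd (hb β hβ0 (not_lt.1 h)) (not_lt.2 hv)
  have hβp : 0 < β := by linarith
  set a := (betaC d ν + ε - β) / β with ha
  have ha1 : a ≤ 1 := by rw [ha, div_le_one hβp]; linarith
  have ha2 : ε / (2 * B₀) ≤ a := by
    rw [ha, ← div_div]
    gcongr
    · linarith
    · linarith
  have ha0 : 0 < a := lt_of_lt_of_le (by positivity) ha2
  set x := c / ε with hx
  have hxX : X ≤ x := hεX.trans (by rw [hx]; gcongr)
  have hx0 : 0 < x := by linarith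
  have hxa : 3 / x ≤ c₁ * a := by
    calc 3 / x = c₁ * (ε / (2 * B₀)) := by rw [hx, hc]; field_simp; norm_num
      _ ≤ _ := by gcongr
  have hxc : c ≤ x := ((le_max_right _ _).trans (le_max_left _ _)).trans hxX
  obtain ⟨ρ₂, _, h2, hH, hgain, hm2, hcomp, hconc⟩ := htr (rho ν β) h1 h5 hm1 hv a ha0 ha1
    (x ^ 2 / 2) (by
      calc 1 / (c₁ * a) ≤ 1 / (3 / x) := by gcongr
        _ = x / 3 := by field_simp
        _ ≤ x ^ 2 / 2 := by nlinarith)
  obtain ⟨χ₂, hχ₂⟩ := exists_add_of_le (one_le_mom_two h2)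
  have hK2 := mom_two_le hK1 h5
  have hxd : 4 * (d : ℝ) ≤ x := by nlinarith
  have hdx : 4 * (1 / x) ≤ 1 / d := by
    rw [mul_one_div, div_le_div_iff₀ hx0 (by linarith)]; linarith
  have e2d : (2 : ℝ) / d = 2 * (1 / d) := by ring
  have e2x : (2 : ℝ) / x = 2 * (1 / x) := by ring
  have e3x : (3 : ℝ) / x = 3 * (1 / x) := by ring
  have hxi : 0 < 1 / x := by positivity
  have hd3 : 1 / (d : ℝ) ≤ 1 / 3 := by gcongr
  obtain ⟨L, hL1, hL, θ, hθ0, hθ1, hdec⟩ := hcore x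
    (((le_max_left _ _).trans (le_max_left _ _)).trans hxX) (rho ν β) ρ₂ h1 h2
    (hK2.trans (ENNReal.ofReal_le_ofReal (by nlinarith)))
    ((strict_site h1 hK1 hG0 h5 hv (by linarith) (by linarith)).mono
      (ENNReal.ofReal_le_ofReal (by
        calc 1 / x ≤ 1 / (4 * d * K * G ^ 2) := by gcongr; linarith
          _ = (2 / d) * (1 / G) ^ 2 / (8 * K) := by field_simp; norm_num
          _ ≤ _ := by gcongr; linarith)))
    (hU _ (by linarith)) (hcomp _ _ (by linarith) (by linarith) (by linarith) (by linarith))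
    (hH.mono fun t ht => by linarith) χ₂ hχ₂
    ((le_add_self.trans (hχ₂.ge.trans hm2)).trans (ENNReal.ofReal_le_ofReal (by linarith)))
    (by
      have b1 : χ₁ + ENNReal.ofReal (c₁ * a) ≤ χ₂ := by
        rw [hχ₁, hχ₂, add_assoc] at hgain
        exact (ENNReal.add_le_add_iff_left ENNReal.one_ne_top).1 hgain
      have b2 : χ₁ ≤ ENNReal.ofReal (2 * K) := le_add_self.trans (hχ₁.ge.trans hK2)
      calc 1 + ENNReal.ofReal (1 / x ^ 2) = 1 + ENNReal.ofReal (1 / x ^ 2) * 1 := by rw [mul_one]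
        _ ≤ χ₁ * gsum d + ENNReal.ofReal (1 / x ^ 2) * (ENNReal.ofReal (2 * K) * gsum d) := by
            gcongr; exact hχg.trans (by gcongr)
        _ ≤ χ₁ * gsum d + ENNReal.ofReal (c₁ * a) * gsum d := by
            rw [← mul_assoc, ← ENNReal.ofReal_mul (by positivity)]
            refine add_le_add_right (mul_le_mul_left (ENNReal.ofReal_le_ofReal ?_) _) _
            refine le_trans ?_ hxa
            rw [div_mul_eq_mul_div, div_le_div_iff₀ (by positivity) hx0]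
            nlinarith
        _ ≤ χ₂ * gsum d := by rw [← add_mul]; gcongr)
  have hβ' : (1 + a) * β = betaC d ν + ε := by rw [ha]; field_simp; ring
  have hconc' := hconc θ hθ0 hθ1
  rw [← rho_tilt hν β a, hβ'] at hconc'
  refine (freeEnergy_le hd1 hν (by linarith) hθ0 hθ1 hL1 fun m => ?_).trans ?_
  · have := Mom_comp (d := d) hθ0 le_rfl hconc' m
    rw [div_self hθ0.ne', ENNReal.rpow_one] at this
    exact this.trans (hdec m)
  · rw [neg_le_neg_iff]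
    have hLR : (0 : ℝ) < L := by exact_mod_cast hL1
    have hεi : 0 < 1 / ε := by positivity
    have hcε : c ≤ 1 / ε := ((le_max_right _ _).trans (le_max_left _ _)).trans hεX
    have hl1 : 1 ≤ Real.log (1 / ε) := by
      rw [Real.le_log_iff_exp_le hεi]; linarith [Real.exp_one_lt_d9]
    have hlx : Real.log x ≤ 2 * Real.log (1 / ε) := by
      rw [show x = c * (1 / ε) by rw [hx]; ring, Real.log_mul (by linarith) hεi.ne']
      linarith [Real.log_le_log (by linarith) hcε]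
    have hl2 : Real.exp (-1) ≤ Real.log 2 := by
      have := Real.exp_one_gt_d9
      rw [Real.exp_neg, inv_le_comm₀ (Real.exp_pos _) (Real.log_pos one_lt_two)]
      have h2 := Real.log_two_gt_d9
      rw [inv_le_comm₀ (Real.log_pos one_lt_two) (Real.exp_pos _)]
      calc (Real.exp 1)⁻¹ ≤ (2 : ℝ)⁻¹ := by gcongr; linarith
        _ ≤ _ := by linarith
    calc Real.exp (-((2 * B * c ^ 2 + 1) * Real.log (1 / ε) / ε ^ 2))
        ≤ Real.exp (-1) / Real.exp (B * x ^ 2 * Real.log x) := by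
          rw [← Real.exp_sub]
          refine Real.exp_le_exp.2 ?_
          have e : (2 * B * c ^ 2 + 1) * Real.log (1 / ε) / ε ^ 2 =
              B * x ^ 2 * (2 * Real.log (1 / ε)) + Real.log (1 / ε) * (1 / ε) ^ 2 := by
            rw [hx]; field_simp
          have b1 : B * x ^ 2 * Real.log x ≤ B * x ^ 2 * (2 * Real.log (1 / ε)) := by gcongr
          have b2 : 1 ≤ (1 / ε) ^ 2 := one_le_pow₀ (by linarith)
          rw [e]; nlinarith
      _ ≤ Real.log 2 / L := by gcongr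

end Pool.Agent.Lib.MP_153faa_pr
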