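import Mathlib
import Pool.Agent.Lib.MP_153faa_pr.Main

/-!
Definitions for the sharp asymptotics of the free energy near the critical point.
-/

set_option autoImplicit false

open MeasureTheory
open scoped ENNReal NNReal

namespace Pool.Agent.Lib.MP_153faa_pr

variable {d : ℕ}

/-- The critical moment exponent. -/
noncomputable def q0 (d : ℕ) : ℝ := 1 + 2 / d

/-- One-site laws with uniform moment bounds, strictly outside the `L²` regime. -/
def Good (d : ℕ) (κ M : ℝ) (ρ : Measure ℝ≥0) : Prop :=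
  Mean1 ρ ∧ mom ρ 8 ≤ ENNReal.ofReal M ∧ mom ρ (-4) ≤ ENNReal.ofReal M ∧
    ∃ χ : ℝ≥0∞, mom ρ 2 = 1 + χ ∧ 1 + ENNReal.ofReal κ ≤ χ * gsum d

/-- Standing assumptions on the law, the exponent and the killing rate. -/
structure Ctx (d : ℕ) (κ M : ℝ) (ρ : Measure ℝ≥0) (p l : ℝ) : Prop where
  good : Good d κ M ρ
  p1 : 1 + 1 / d ≤ p
  p2 : p ≤ q0 d
  l0 : 0 < l
  l1 : l < 1

/-- Parity of a site. -/
def par (x : Site d) : ZMod 2 := ∑ i, (x i : ZMod 2)

/-- Finitely supported finite profiles living on one parity class. -/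
def Nice (f : Prof d) : Prop :=
  (∃ s : Finset (Site d), ∀ x, x ∉ s → f x = 0) ∧ (∀ x, f x ≠ ⊤) ∧
    ∃ b : ZMod 2, ∀ x, f x ≠ 0 → par x = b

/-- The mass as a real number. -/
noncomputable def mr (f : Prof d) : ℝ := (mass f).toReal

/-- The heat kernel profile. -/
noncomputable def phi (d m : ℕ) : Prof d := avg^[m] (dlt 0)

/-- The heat kernel as a real number. -/
noncomputable def ph (d m : ℕ) (x : Site d) : ℝ := (phi d m x).toReal

/-- Multiple of a profile. -/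
noncomputable def sca (c : ℝ≥0∞) (f : Prof d) : Prof d := fun x => c * f x

/-- Pairing with the terminal weight `g`. -/
noncomputable def lin (g f : Prof d) : ℝ≥0∞ := ∑' x, f x * g x

/-- Point-to-line partition functions from all starting points. -/
noncomputable def AW (n : ℕ) (ω : ℕ → Layer d) : Prof d := fun z => mass (ev n ω (dlt z))

/-- Restriction of a profile to a finite set. -/
noncomputable def cut (B : Finset (Site d)) (f : Prof d) : Prof d :=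
  fun x => if x ∈ B then f x else 0

/-- The even sites of the cube of radius `r`, as a profile. -/
noncomputable def cube (d r : ℕ) : Prof d := fun x => if x ∈ box d r ∧ par x = 0 then 1 else 0

/-- Geometric weights. -/
noncomputable def wt (l : ℝ) (n : ℕ) : ℝ≥0∞ := ENNReal.ofReal (l * (1 - l) ^ n)

section
variable (ρ : Measure ℝ≥0) [IsProbabilityMeasure ρ]

/-- Expectation at an independent geometric time. -/
noncomputable def Res (l : ℝ) (Φ : Prof d → ℝ≥0∞) (f : Prof d) : ℝ≥0∞ :=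
  ∑' n, wt l n * (T ρ)^[n] Φ f

open Classical in
/-- Approximations of the stopped resolvent. -/
noncomputable def Un (l : ℝ) (S : Set (Prof d)) (F R : Prof d → ℝ≥0∞) : ℕ → Prof d → ℝ≥0∞
  | 0, f => if f ∈ S then F f else 0
  | n + 1, f => if f ∈ S then F f else
      ENNReal.ofReal l * R f + ENNReal.ofReal (1 - l) * T ρ (Un l S F R n) f

/-- Stopped resolvent: reward `F` when `S` is hit before the geometric time, else reward `R`
at the geometric time. -/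
noncomputable def U (l : ℝ) (S : Set (Prof d)) (F R : Prof d → ℝ≥0∞) (f : Prof d) : ℝ≥0∞ :=
  ⨆ n, Un ρ l S F R n f

open Classical in
/-- Expectation of `Φ` at time `n` on the event that `S` has not been hit. -/
noncomputable def Tk (S : Set (Prof d)) (Φ : Prof d → ℝ≥0∞) : ℕ → Prof d → ℝ≥0∞
  | 0, f => if f ∈ S then 0 else Φ f
  | n + 1, f => if f ∈ S then 0 else T ρ (Tk S Φ n) f

open Classical in
/-- Expectation of `Φ` at time `n` on the event that `S` has been hit. -/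
noncomputable def Th (S : Set (Prof d)) (Φ : Prof d → ℝ≥0∞) : ℕ → Prof d → ℝ≥0∞
  | 0, f => if f ∈ S then Φ f else 0
  | n + 1, f => if f ∈ S then (T ρ)^[n + 1] Φ f else T ρ (Th S Φ n) f

/-- Discounted occupation functional before hitting `S`. -/
noncomputable def Occ (l : ℝ) (S : Set (Prof d)) (A : Prof d → ℝ≥0∞) (f : Prof d) : ℝ≥0∞ :=
  ∑' i, ENNReal.ofReal ((1 - l) ^ (i + 1)) * Tk ρ S A i f

end

/-- The deterministic counterpart of `Res`. -/
noncomputable def Det (l : ℝ) (Φ : Prof d → ℝ≥0∞) (f : Prof d) : ℝ≥0∞ :=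
  ∑' n, wt l n * Φ (avg^[n] f)

/-- Profiles of mass at least the real number `t`. -/
def lev (d : ℕ) (t : ℝ) : Set (Prof d) := setW d (ENNReal.ofReal t)

/-- Localised profiles at level `t`. -/
def Gd (d : ℕ) (C t : ℝ) : Set (Prof d) :=
  {g | ENNReal.ofReal t ≤ mass g ∧ mass g ≤ ENNReal.ofReal (C * t) ∧
    ∃ x, ENNReal.ofReal (t / C) ≤ g x}

/-- Bregman divergence of the `p`-th power between `x` and `M`. -/
noncomputable def br (p M x : ℝ) : ℝ := x ^ p - M ^ p - p * M ^ (p - 1) * (x - M)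

/-- The `p`-th power truncated smoothly at level `M`. -/
noncomputable def th (p M x : ℝ) : ℝ := x ^ p - br p M (M + x)

/-- A symmetric substitute for the Bregman divergence. -/
noncomputable def Lam (p M x : ℝ) : ℝ := (x - M) ^ 2 * (x + M) ^ (p - 2)

/-- Extension of a real payoff to extended reals. -/
noncomputable def lift (g : ℝ → ℝ) (w : ℝ≥0∞) : ℝ≥0∞ :=
  if w = ⊤ then ⊤ else ENNReal.ofReal (g w.toReal)

/-- The jointly convex function `u² a^(p-2)`. -/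
noncomputable def vf (p : ℝ) (a u : ℝ≥0∞) : ℝ≥0∞ := u ^ 2 * a ^ (p - 2)

/-- Monotone convex translation invariant functionals of degree at most `p`. -/
structure Fn (p : ℝ) (Φ : Prof d → ℝ≥0∞) : Prop where
  meas : Measurable Φ
  mono : ∀ f g, f ≤ g → Φ f ≤ Φ g
  shift : ∀ v f, Φ (sh v f) = Φ f
  conv : ∀ (ι : Type) [Countable ι] (w : ι → ℝ≥0∞) (F : ι → Prof d), ∑' i, w i = 1 →
    Φ (fun x => ∑' i, w i * F i x) ≤ ∑' i, w i * Φ (F i)
  scale : ∀ (c : ℝ≥0) (f : Prof d), 1 ≤ c → Φ (sca c f) ≤ (c : ℝ≥0∞) ^ p * Φ f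
  zero : Φ 0 = 0

section
variable (ρ : Measure ℝ≥0) [IsProbabilityMeasure ρ]

/-- Moment of the mass at the geometric time. -/
noncomputable def HH (p l : ℝ) : Prof d → ℝ≥0∞ := Res ρ l (mq p)

/-- Gain of the `p`-th moment on the background `c`. -/
noncomputable def XX (p l : ℝ) (c : ℝ≥0∞) (f : Prof d) : ℝ≥0∞ :=
  Res ρ l (fun g => (c + mass g) ^ p) f - (c + mass f) ^ p

/-- Gain due to one random layer. -/
noncomputable def JJ (p l : ℝ) (f : Prof d) : ℝ≥0∞ := T ρ (HH ρ p l) f - HH ρ p l (avg f)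

/-- Quadratic form of the gain due to one random layer. -/
noncomputable def VV (p l : ℝ) (ψ : Prof d) : ℝ≥0∞ :=
  ∑' n, wt l n * ∫⁻ ω, ∑' z, vf p (lin (AW n ω) ψ) (ψ z * AW n ω z) ∂env d ρ

/-- Occupation integral of the squared `ℓ²` norm below the level `t`. -/
noncomputable def II (l t : ℝ) (f : Prof d) : ℝ≥0∞ :=
  Occ ρ l (lev d t) (fun g => nq 2 (avg g)) f

/-- Probability to see a site of height `s` before the geometric time. -/
noncomputable def Yv (l : ℝ) (f : Prof d) (s : ℝ≥0∞) : ℝ≥0∞ :=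
  U ρ l (setY d s) (fun _ => 1) (fun _ => 0) f

/-- Truncated moment of the mass at the geometric time. -/
noncomputable def HT (p l M : ℝ) : Prof d → ℝ≥0∞ := Res ρ l fun g => lift (th p M) (mass g)

/-- Truncated moment with the level adapted to the mass. -/
noncomputable def HTn (p l y : ℝ) (g : Prof d) : ℝ≥0∞ :=
  mq p g * HT ρ p l (Real.exp y) (sca (mass g)⁻¹ g)

end

section
variable (d) (ρ : Measure ℝ≥0) [IsProbabilityMeasure ρ]

/-- Moment of the partition function at the geometric time. -/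
noncomputable def OO (p l : ℝ) : ℝ≥0∞ := HH ρ p l (dlt (0 : Site d))

/-- Inverse moment. -/
noncomputable def KK (p l : ℝ) : ℝ≥0∞ := (OO d ρ p l)⁻¹

/-- Inverse moment as a real number. -/
noncomputable def Kr (p l : ℝ) : ℝ := (KK d ρ p l).toReal

/-- Normalised gain from the heat kernel profile. -/
noncomputable def Ar (p l : ℝ) (m : ℕ) : ℝ := (KK d ρ p l * XX ρ p l 0 (phi d m)).toReal

/-- Normalised gain during a first stage with killing rate `l`. -/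
noncomputable def Gr (p l l' : ℝ) (m : ℕ) : ℝ :=
  (KK d ρ p l' * (Res ρ l (HH ρ p l') (phi d m) - Det l (HH ρ p l') (phi d m))).toReal

/-- Truncated moment from a point. -/
noncomputable def Br (p l y : ℝ) : ℝ := (HT ρ p l (Real.exp y) (dlt (0 : Site d))).toReal

/-- A point on a smooth background of scale `s`. -/
noncomputable def vv (p l : ℝ) (s : ℕ) : ℝ≥0∞ :=
  ∑' n, wt l n * ∫⁻ ω, vf p (lin (AW n ω) (avg^[s] (cube d s.sqrt))) (AW n ω 0) ∂env d ρ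

/-- The scale parameter `Z` dominates the moment and the logarithm of the horizon. -/
def Sc (p l Z : ℝ) : Prop := OO d ρ p l ≤ ENNReal.ofReal Z ∧ Real.log l ^ 2 ≤ Z

/-- Fractional moments decay on a scale at most `L`. -/
def Dec (L : ℝ) : Prop := ∃ n : ℕ, 1 ≤ n ∧ (n : ℝ) ≤ L ∧
  ∃ θ : ℝ, 0 < θ ∧ θ ≤ 1 ∧ ∀ m, Mom d ρ θ m ≤ 2⁻¹ ^ (m / n)

/-- The running inverse moment. -/
noncomputable def kk (σ : ℝ) : ℝ := Kr d ρ (q0 d) (Real.exp (-σ))

/-- The running creation rate. -/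
noncomputable def gg (a : ℕ) (σ : ℝ) : ℝ :=
  Real.exp (-σ) * (⌈Real.exp (σ + a * σ ^ (1 / 4 : ℝ))⌉₊ : ℝ) *
    Ar d ρ (q0 d) (Real.exp (-σ)) ⌈Real.exp (σ + a * σ ^ (1 / 4 : ℝ))⌉₊

/-- Linear lower bound on the truncated moment. -/
def BLow (b η D C σ₀ : ℝ) : Prop := ∀ σ, σ₀ ≤ σ → OO d ρ (q0 d) (Real.exp (-σ)) ≠ ⊤ →
  ∀ y, 0 ≤ y → C * y * kk d ρ σ ≤ 1 →
    (b - η) * y - D - C * kk d ρ σ * y ^ 2 ≤ Br d ρ (q0 d) (Real.exp (-σ)) y

/-- Linear upper bound on the truncated moment. -/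
def BUp (b η D C σ₀ : ℝ) : Prop := ∀ σ, σ₀ ≤ σ → OO d ρ (q0 d) (Real.exp (-σ)) ≠ ⊤ →
  ∀ y, 0 ≤ y → C * y * kk d ρ σ ≤ 1 →
    Br d ρ (q0 d) (Real.exp (-σ)) y ≤ (b + η) * y + D + C * kk d ρ σ * y ^ 2

end

/-- Local quadratic form with a background of scale `s`. -/
noncomputable def Vloc (p : ℝ) (s : ℕ) (f : Prof d) : ℝ≥0∞ :=
  ∑' z, vf p (lin (sh z (cube d s.sqrt)) (avg^[s + 1] f)) (avg f z)

/-- Approximately harmonic functionals. -/
structure Harm (ρ : Measure ℝ≥0) [IsProbabilityMeasure ρ] (p l : ℝ) (k₁ k₂ : ℕ) (C ε η : ℝ)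
    (Φ : Prof d → ℝ≥0∞) : Prop where
  meas : Measurable Φ
  up : ∀ f, Nice f → Φ f ≤ ENNReal.ofReal C * mq p f
  low : ∀ f, Nice f → ∀ x, ENNReal.ofReal C⁻¹ * f x ^ p ≤ Φ f + ENNReal.ofReal ε * mq p f
  h1u : ∀ f, Nice f →
    Φ f ≤ U ρ l (lev d (2 * mr f)) Φ (fun _ => 0) f + ENNReal.ofReal ε * mq p f
  h1l : ∀ f, Nice f →
    U ρ l (lev d (2 * mr f)) Φ (fun _ => 0) f ≤ Φ f + ENNReal.ofReal ε * mq p f
  h2u : ∀ f, Nice f → Φ f ≤ (T ρ)^[k₁ + k₂] Φ f + ENNReal.ofReal ε * mq p f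
  h2l : ∀ f, Nice f → (T ρ)^[k₁ + k₂] Φ f ≤ Φ f + ENNReal.ofReal ε * mq p f
  shu : ∀ (ν g j : Prof d) (x₀ : Site d), Nice ν → Nice g → Nice j →
    (∀ x, ν x ≠ 0 → x - x₀ ∈ box d (3 * k₁)) → (∀ x, avg^[k₂] ν x ≤ g x) →
    (∀ x, g x ≤ ENNReal.ofReal (1 + η) * avg^[k₂] ν x + j x) → mass j ≤ mass ν →
    Φ g ≤ ENNReal.ofReal (1 + 8 * η) * mq p ν * Φ (phi d k₂) +
      ENNReal.ofReal (C / η) * mq p j + ENNReal.ofReal ε * mq p ν
  shl : ∀ (ν g : Prof d) (x₀ : Site d), Nice ν → Nice g →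
    (∀ x, ν x ≠ 0 → x - x₀ ∈ box d (3 * k₁)) → (∀ x, avg^[k₂] ν x ≤ g x) →
    ENNReal.ofReal (1 - 2 * η) * mq p ν * Φ (phi d k₂) ≤ Φ g + ENNReal.ofReal ε * mq p ν

/-- Convex order between one-site laws. -/
def CxLe (ρ₁ ρ₂ : Measure ℝ≥0) : Prop := ∀ φ : ℝ≥0 → ℝ≥0∞, Measurable φ →
  (∀ s t a b : ℝ≥0, a + b = 1 → φ (a * s + b * t) ≤ a * φ s + b * φ t) →
  ∫⁻ t, φ t ∂ρ₁ ≤ ∫⁻ t, φ t ∂ρ₂

/-- The negligible error at scale `σ`. -/
noncomputable def tiny (σ : ℝ) : ℝ := Real.exp (-σ ^ (1 / 4 : ℝ))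

/-- Admissible steps of the flow. -/
def Adm (C σ₀ : ℝ) (k : ℝ → ℝ) (σ Δ : ℝ) : Prop :=
  σ₀ ≤ σ ∧ √σ ≤ Δ ∧ 64 * Δ ≤ σ ∧ C * k σ * Δ ≤ 1 ∧ Real.exp (-σ ^ (1 / 5 : ℝ)) ≤ k (σ + Δ)

/-- The three flow inequalities that hold near the critical point. -/
def FlowU (b C η σ₀ : ℝ) (k g : ℝ → ℝ) : Prop := ∀ σ Δ, Adm C σ₀ k σ Δ →
  k (σ + √σ) - k (σ + Δ) ≤
      ((1 + η) * g σ + C * (k (σ - 2 * Δ) - k (σ + Δ)) ^ 2 + tiny σ) * Δ ∧
    ((1 - η) * (1 - C * k σ * Δ) * g σ - tiny σ) * Δ ≤ k σ - k (σ + Δ) ∧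
    g (σ + Δ) ≤ g σ * (1 + η - (b - η) * k σ * Δ + C * (k σ * Δ) ^ 2) +
      C * (k (σ - 2 * Δ) - k (σ + Δ)) ^ 2 + tiny σ

/-- The fourth flow inequality. -/
def FlowL (b C η σ₀ : ℝ) (k g : ℝ → ℝ) : Prop := ∀ σ Δ, Adm C σ₀ k σ Δ →
  g σ * (1 - η - (b + η) * k σ * Δ - C * (k σ * Δ) ^ 2) - tiny σ ≤ g (σ + Δ)

/-- Regularity of the running quantities. -/
def Reg (k g : ℝ → ℝ) : Prop := ContinuousOn k (Set.Ioi 0) ∧ AntitoneOn k (Set.Ioi 0) ∧
  (∀ σ, 0 ≤ k σ) ∧ ∀ σ, 0 ≤ g σ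

end Pool.Agent.Lib.MP_153faa_pr
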