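import Mathlib
import Pool.Agent.Lib.MP_153faa_pr.GDefs

set_option autoImplicit false

open MeasureTheory Filter Topology
open scoped ENNReal NNReal

namespace Pool.Agent.Lib.MP_153faa_pr

variable {d : ℕ}

variable {ρ : Measure ℝ≥0} [IsProbabilityMeasure ρ]

theorem par_add (x y : Site d) : par (x + y) = par x + par y := by
  simp [par, Finset.sum_add_distrib]

theorem par_sub (x y : Site d) : par (x - y) = par x - par y := by
  simp [par, Finset.sum_sub_distrib]

theorem par_single (i : Fin d) : par (Pi.single i 1 : Site d) = 1 := by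
  rw [par, Finset.sum_eq_single i (fun j _ hj => by simp [Pi.single_eq_of_ne hj]) (by simp)]
  simp

theorem gnice_ne {f : Prof d} {x : Site d} (h : avg f x ≠ 0) :
    ∃ i : Fin d, f (x - Pi.single i 1) ≠ 0 ∨ f (x + Pi.single i 1) ≠ 0 := by
  obtain ⟨i, -, hi⟩ := Finset.exists_ne_zero_of_sum_ne_zero (right_ne_zero_of_mul h)
  refine ⟨i, ?_⟩
  by_contra hc
  rw [not_or, not_not, not_not] at hc
  exact hi (by rw [hc.1, hc.2, add_zero])

/-- The sites adjacent to a finite set. -/
noncomputable def gniceNb (s : Finset (Site d)) : Finset (Site d) :=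
  s.biUnion fun y => Finset.univ.biUnion fun i : Fin d => {y + Pi.single i 1, y - Pi.single i 1}

theorem gnice_supp {f : Prof d} {s : Finset (Site d)} (hs : ∀ x, x ∉ s → f x = 0) (x : Site d)
    (hx : x ∉ gniceNb s) : avg f x = 0 := by
  by_contra h
  obtain ⟨i, hi | hi⟩ := gnice_ne h
  · exact hx (Finset.mem_biUnion.2 ⟨_, by_contra fun hc => hi (hs _ hc),
      Finset.mem_biUnion.2 ⟨i, Finset.mem_univ i, by simp⟩⟩)
  · exact hx (Finset.mem_biUnion.2 ⟨_, by_contra fun hc => hi (hs _ hc),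
      Finset.mem_biUnion.2 ⟨i, Finset.mem_univ i, by simp⟩⟩)

theorem gnice_par {f : Prof d} {b : ZMod 2} (hb : ∀ x, f x ≠ 0 → par x = b) (x : Site d)
    (h : avg f x ≠ 0) : par x = b + 1 := by
  obtain ⟨i, hi | hi⟩ := gnice_ne h
  · rw [← hb _ hi, par_sub, par_single, sub_add_cancel]
  · rw [← hb _ hi, par_add, par_single, add_assoc, show (1 : ZMod 2) + 1 = 0 from rfl, add_zero]

theorem gnice_ev_one (n : ℕ) (f : Prof d) : ev n (fun _ _ => 1) f = avg^[n] f := by
  induction n with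
  | zero => rfl
  | succ n ih =>
    rw [ev_succ', ih, Function.iterate_succ_apply']
    funext x
    simp [step]

theorem gnice_dep (n : ℕ) (t : Finset (Site d)) : ∃ s : Finset (ℕ × Site d),
    ∀ f : Prof d, (∀ x, x ∉ t → f x = 0) → ∀ ω ω' : ℕ → Layer d,
      (∀ i ∈ s, ω i.1 i.2 = ω' i.1 i.2) → ev n ω f = ev n ω' f := by
  induction n generalizing t with
  | zero => exact ⟨∅, fun _ _ _ _ _ => rfl⟩
  | succ n ih =>
    obtain ⟨s, hs⟩ := ih (gniceNb t)
    refine ⟨(gniceNb t).image (fun x => (0, x)) ∪ s.image fun i => (i.1 + 1, i.2),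
      fun f hf ω ω' h => ?_⟩
    have e : step f (ω 0) = step f (ω' 0) := by
      funext x
      by_cases hx : x ∈ gniceNb t
      · rw [step, step, h (0, x) (Finset.mem_union_left _ (Finset.mem_image_of_mem _ hx))]
      · rw [step, step, gnice_supp hf x hx, mul_zero, mul_zero]
    rw [ev_succ, ev_succ, e]
    refine hs _ (fun x hx => ?_) _ _ fun i hi =>
      h (i.1 + 1, i.2) (Finset.mem_union_right _ (Finset.mem_image_of_mem _ hi))
    rw [step, gnice_supp hf x hx, mul_zero]

theorem gnice_affine (n : ℕ) (ω : ℕ × Site d → ℝ≥0) (i : ℕ × Site d) (f : Prof d) :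
    ∃ α β : Prof d, (∀ (t : ℝ≥0) (x : Site d),
      ev n (Function.curry (Function.update ω i t)) f x = α x + β x * t) ∧ (n ≤ i.1 → β = 0) := by
  induction n with
  | zero => exact ⟨f, 0, fun t x => by simp, fun _ => rfl⟩
  | succ n ih =>
    obtain ⟨α, β, h, h0⟩ := ih
    have e : ∀ (t : ℝ≥0) (x : Site d),
        ev (n + 1) (Function.curry (Function.update ω i t)) f x =
          Function.update ω i t (n, x) * (avg α x + t * avg β x) := fun t x => by
      have e1 : ev n (Function.curry (Function.update ω i t)) f = α + fun y => t * β y :=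
        funext fun y => by rw [h, mul_comm]; rfl
      rw [ev_succ', step, e1, avg_add, avg_smul]
      rfl
    by_cases hn : i.1 = n
    · refine ⟨fun x => if (n, x) = i then 0 else ω (n, x) * avg α x,
        fun x => if (n, x) = i then avg α x else 0, fun t x => ?_, fun hc => by omega⟩
      rw [e, h0 hn.ge, avg_zero]
      by_cases hx : (n, x) = i
      · simp [hx, mul_comm]
      · simp [hx]
    · refine ⟨fun x => ω (n, x) * avg α x, fun x => ω (n, x) * avg β x, fun t x => ?_,
        fun hc => ?_⟩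
      · rw [e, Function.update_of_ne fun hc => hn (by rw [← hc])]
        ring
      · funext x
        rw [h0 (by omega), avg_zero]
        simp

theorem nice_dlt (y : Site d) : Nice (dlt y) := by
  refine ⟨⟨{y}, fun x hx => ?_⟩, fun x => ?_, par y, fun x hx => ?_⟩
  · simpa [dlt] using hx
  · unfold dlt; split_ifs <;> simp
  · by_cases h : x = y
    · rw [h]
    · simp [dlt, h] at hx

theorem nice_zero : Nice (0 : Prof d) := ⟨⟨∅, fun _ _ => rfl⟩, fun _ => by simp, 0, fun _ h => (h rfl).elim⟩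

theorem Nice.of_avg {f : Prof d} (hd : 1 ≤ d) (h : Nice f) : Nice (avg f) := by
  obtain ⟨⟨s, hs⟩, ht, b, hb⟩ := h
  refine ⟨⟨gniceNb s, gnice_supp hs⟩, fun x => ?_, b + 1, gnice_par hb⟩
  refine ENNReal.mul_ne_top (ENNReal.inv_ne_top.2 ?_)
    (ENNReal.sum_ne_top.2 fun i _ => ENNReal.add_ne_top.2 ⟨ht _, ht _⟩)
  have : (d : ℝ≥0∞) ≠ 0 := by exact_mod_cast (by omega : d ≠ 0)
  simp [this]

theorem Nice.of_avg_iter {f : Prof d} (hd : 1 ≤ d) (h : Nice f) (n : ℕ) : Nice (avg^[n] f) := by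
  induction n with
  | zero => exact h
  | succ n ih => rw [Function.iterate_succ_apply']; exact ih.of_avg hd

theorem Nice.of_step {f : Prof d} (hd : 1 ≤ d) (h : Nice f) (ξ : Layer d) : Nice (step f ξ) := by
  obtain ⟨⟨s, hs⟩, ht, b, hb⟩ := h.of_avg hd
  refine ⟨⟨s, fun x hx => ?_⟩, fun x => ENNReal.mul_ne_top ENNReal.coe_ne_top (ht x), b,
    fun x hx => hb x (right_ne_zero_of_mul hx)⟩
  rw [step, hs x hx, mul_zero]

theorem Nice.of_ev {f : Prof d} (hd : 1 ≤ d) (h : Nice f) (n : ℕ) (ω : ℕ → Layer d) :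
    Nice (ev n ω f) := by
  induction n with
  | zero => exact h
  | succ n ih => rw [ev_succ']; exact ih.of_step hd _

theorem Nice.of_le {f g : Prof d} (h : Nice f) (hg : g ≤ f) : Nice g := by
  obtain ⟨⟨s, hs⟩, ht, b, hb⟩ := h
  refine ⟨⟨s, fun x hx => le_antisymm ((hg x).trans (hs x hx).le) zero_le⟩,
    fun x => ne_top_of_le_ne_top (ht x) (hg x), b, fun x hx => hb x fun e => hx ?_⟩
  exact le_antisymm ((hg x).trans e.le) zero_le

theorem Nice.of_sca {f : Prof d} (h : Nice f) {c : ℝ≥0∞} (hc : c ≠ ⊤) : Nice (sca c f) := by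
  obtain ⟨⟨s, hs⟩, ht, b, hb⟩ := h
  refine ⟨⟨s, fun x hx => ?_⟩, fun x => ENNReal.mul_ne_top hc (ht x), b,
    fun x hx => hb x (right_ne_zero_of_mul hx)⟩
  rw [sca, hs x hx, mul_zero]

theorem Nice.of_sh {f : Prof d} (h : Nice f) (v : Site d) : Nice (sh v f) := by
  obtain ⟨⟨s, hs⟩, ht, b, hb⟩ := h
  refine ⟨⟨s.image (· + v), fun x hx => hs _ fun hm => hx ?_⟩, fun x => ht _, b + par v,
    fun x hx => ?_⟩
  · exact Finset.mem_image.2 ⟨_, hm, sub_add_cancel x v⟩
  · rw [← hb _ hx, par_sub, sub_add_cancel]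

theorem Nice.mass_ne_top {f : Prof d} (h : Nice f) : mass f ≠ ⊤ := by
  obtain ⟨⟨s, hs⟩, ht, -⟩ := h
  rw [mass, tsum_eq_sum hs]
  exact ENNReal.sum_ne_top.2 fun x _ => ht x

theorem Nice.ofReal_mr {f : Prof d} (h : Nice f) : ENNReal.ofReal (mr f) = mass f :=
  ENNReal.ofReal_toReal h.mass_ne_top

theorem Nice.lin_ne_top {f g : Prof d} (h : Nice f) (hg : ∀ x, g x ≠ ⊤) : lin g f ≠ ⊤ := by
  obtain ⟨⟨s, hs⟩, ht, -⟩ := h
  rw [lin, tsum_eq_sum (s := s) fun x hx => by rw [hs x hx, zero_mul]]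
  exact ENNReal.sum_ne_top.2 fun x _ => ENNReal.mul_ne_top (ht x) (hg x)

theorem nice_phi (hd : 1 ≤ d) (m : ℕ) : Nice (phi d m) := (nice_dlt 0).of_avg_iter hd m

theorem nice_cube (r : ℕ) : Nice (cube d r) := by
  refine ⟨⟨box d r, fun x hx => ?_⟩, fun x => ?_, 0, fun x hx => ?_⟩
  · simp [cube, hx]
  · unfold cube; split_ifs <;> simp
  · unfold cube at hx
    split_ifs at hx with h
    · exact h.2
    · exact (hx rfl).elim

theorem mass_phi (hd : 1 ≤ d) (m : ℕ) : mass (phi d m) = 1 := by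
  rw [phi, mass_avg_iter hd, mass_dlt]

theorem phi_par (m : ℕ) {x : Site d} (h : phi d m x ≠ 0) : par x = (m : ZMod 2) := by
  induction m generalizing x with
  | zero =>
    by_cases e : x = 0
    · simp [e, par]
    · simp [phi, dlt, e] at h
  | succ m ih =>
    rw [phi, Function.iterate_succ_apply'] at h
    rw [Nat.cast_succ]
    exact gnice_par (fun y hy => ih hy) x h

theorem phi_box (m : ℕ) {x : Site d} (h : phi d m x ≠ 0) : x ∈ box d m := by
  by_contra hx
  exact h (by rw [phi, ← gnice_ev_one]; exact ev_eq_zero m _ hx)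

theorem phi_neg (m : ℕ) (x : Site d) : phi d m (-x) = phi d m x := by
  induction m generalizing x with
  | zero => simp [phi, dlt]
  | succ m ih =>
    have e : phi d (m + 1) = avg (phi d m) := Function.iterate_succ_apply' _ _ _
    rw [e, avg, avg]
    congr 1
    refine Finset.sum_congr rfl fun i _ => ?_
    rw [← ih (x - _), ← ih (x + _), add_comm, neg_sub, neg_add, sub_eq_add_neg (-x),
      sub_eq_neg_add]

theorem phi_le_one (hd : 1 ≤ d) (m : ℕ) (x : Site d) : phi d m x ≤ 1 :=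
  (le_mass _ x).trans (mass_phi hd m).le

theorem ofReal_ph (hd : 1 ≤ d) (m : ℕ) (x : Site d) : ENNReal.ofReal (ph d m x) = phi d m x :=
  ENNReal.ofReal_toReal ((nice_phi hd m).2.1 x)

theorem avg_iter_phi (m n : ℕ) : avg^[n] (phi d m) = phi d (m + n) := by
  rw [phi, phi, add_comm, Function.iterate_add_apply]

theorem avg_iter_eq_phi (n : ℕ) (f : Prof d) (x : Site d) :
    avg^[n] f x = ∑' y, f y * phi d n (x - y) := by
  rw [avg_iter_eq_tsum]
  exact tsum_congr fun y => by rw [avg_iter_dlt, phi]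

theorem AW_ne_top (hd : 1 ≤ d) (n : ℕ) (ω : ℕ → Layer d) (z : Site d) : AW n ω z ≠ ⊤ :=
  ((nice_dlt z).of_ev hd n ω).mass_ne_top

theorem lin_AW (n : ℕ) (ω : ℕ → Layer d) (f : Prof d) : lin (AW n ω) f = mass (ev n ω f) :=
  (mass_ev_eq_tsum n ω f).symm

theorem lin_avg_iter (n : ℕ) (f g : Prof d) : lin g (avg^[n] f) = lin (avg^[n] g) f :=
  (heat_dual n f g).symm

theorem lin_step (g f : Prof d) (ξ : Layer d) :
    lin g (step f ξ) = ∑' x, (avg f x * g x) * (ξ x : ℝ≥0∞) :=
  tsum_congr fun x => by rw [step]; ring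

theorem lin_one (f : Prof d) : lin (fun _ => 1) f = mass f := by
  simp [lin, mass]

theorem measurable_lin2 : Measurable fun q : Prof d × Prof d => lin q.1 q.2 :=
  Measurable.tsum fun x => ((measurable_pi_apply x).comp measurable_snd).mul
    ((measurable_pi_apply x).comp measurable_fst)

theorem measurable_AW (n : ℕ) : Measurable (AW n : (ℕ → Layer d) → Prof d) :=
  measurable_pi_lambda _ fun z => measurable_mass.comp (measurable_ev n (dlt z))

theorem measurable_mr : Measurable (mr : Prof d → ℝ) := measurable_mass.ennreal_toReal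

theorem measurableSet_lev (t : ℝ) : MeasurableSet (lev d t) := measurableSet_setW _

theorem measurableSet_Gd (C t : ℝ) : MeasurableSet (Gd d C t) :=
  (measurableSet_setW (ENNReal.ofReal t)).inter
    ((measurableSet_le measurable_mass measurable_const).inter
      (measurableSet_setY (ENNReal.ofReal (t / C))))

theorem mass_sca (c : ℝ≥0∞) (f : Prof d) : mass (sca c f) = c * mass f := mass_smul c f

theorem step_sca (c : ℝ≥0∞) (f : Prof d) (ξ : Layer d) : step (sca c f) ξ = sca c (step f ξ) :=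
  step_smul c f ξ

theorem ev_sca (n : ℕ) (ω : ℕ → Layer d) (c : ℝ≥0∞) (f : Prof d) :
    ev n ω (sca c f) = sca c (ev n ω f) := ev_smul n ω c f

theorem avg_iter_sca (n : ℕ) (c : ℝ≥0∞) (f : Prof d) :
    avg^[n] (sca c f) = sca c (avg^[n] f) := avg_iter_smul n c f

theorem T_mono_nice (hd : 1 ≤ d) {Φ Ψ : Prof d → ℝ≥0∞} (h : ∀ g, Nice g → Φ g ≤ Ψ g)
    {f : Prof d} (hf : Nice f) : T ρ Φ f ≤ T ρ Ψ f :=
  T_mono' fun ξ => h _ (hf.of_step hd ξ)

theorem T_iter_mono_nice (hd : 1 ≤ d) {Φ Ψ : Prof d → ℝ≥0∞} (h : ∀ g, Nice g → Φ g ≤ Ψ g)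
    (n : ℕ) {f : Prof d} (hf : Nice f) : (T ρ)^[n] Φ f ≤ (T ρ)^[n] Ψ f := by
  induction n generalizing f with
  | zero => exact h f hf
  | succ n ih =>
    simp only [Function.iterate_succ_apply']
    exact T_mono_nice hd (fun g hg => ih hg) hf

/-- Tonelli for a family of functionals. -/
theorem T_lintegral {X : Type*} [MeasurableSpace X] (μ : Measure X) [SFinite μ]
    {Φ : X → Prof d → ℝ≥0∞} (hΦ : Measurable (Function.uncurry Φ)) (f : Prof d) :
    T ρ (fun g => ∫⁻ x, Φ x g ∂μ) f = ∫⁻ x, T ρ (Φ x) f ∂μ :=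
  lintegral_lintegral_swap (hΦ.comp
    (measurable_snd.prodMk ((measurable_step f).comp measurable_fst))).aemeasurable

theorem measurable_T_iter_fam {X : Type*} [MeasurableSpace X]
    {Φ : X → Prof d → ℝ≥0∞} (hΦ : Measurable (Function.uncurry Φ)) (n : ℕ) :
    Measurable (Function.uncurry fun x => (T ρ)^[n] (Φ x)) := by
  induction n with
  | zero => exact hΦ
  | succ n ih =>
    simp only [Function.iterate_succ_apply']
    exact Measurable.lintegral_prod_right' (ν := lay d ρ)
      (f := fun q : (X × Prof d) × Layer d => (T ρ)^[n] (Φ q.1.1) (step q.1.2 q.2))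
      (ih.comp ((measurable_fst.comp measurable_fst).prodMk (measurable_step2.comp
        ((measurable_snd.comp measurable_fst).prodMk measurable_snd))))

theorem T_iter_lintegral {X : Type*} [MeasurableSpace X] (μ : Measure X) [SFinite μ]
    {Φ : X → Prof d → ℝ≥0∞} (hΦ : Measurable (Function.uncurry Φ)) (n : ℕ) (f : Prof d) :
    (T ρ)^[n] (fun g => ∫⁻ x, Φ x g ∂μ) f = ∫⁻ x, (T ρ)^[n] (Φ x) f ∂μ := by
  induction n generalizing f with
  | zero => rfl
  | succ n ih =>
    simp only [Function.iterate_succ_apply']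
    rw [← T_lintegral μ (measurable_T_iter_fam hΦ n), ← funext ih]

theorem T_iter_tsum {ι : Type*} [Countable ι] {Φ : ι → Prof d → ℝ≥0∞}
    (hΦ : ∀ i, Measurable (Φ i)) (n : ℕ) (f : Prof d) :
    (T ρ)^[n] (fun g => ∑' i, Φ i g) f = ∑' i, (T ρ)^[n] (Φ i) f := by
  induction n generalizing f with
  | zero => rfl
  | succ n ih =>
    simp only [Function.iterate_succ_apply']
    rw [← T_tsum fun i => measurable_T_iter n (hΦ i), ← funext ih]

/-- The environment as a product over space-time points. -/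
theorem lintegral_env_flat {F : (ℕ → Layer d) → ℝ≥0∞} (hF : Measurable F) :
    ∫⁻ ω, F ω ∂env d ρ =
      ∫⁻ ω, F (Function.curry ω) ∂Measure.infinitePi fun _ : ℕ × Site d => ρ := by
  unfold env lay
  rw [← Measure.infinitePi_map_curry fun (_ : ℕ) (_ : Site d) => ρ,
    lintegral_map hF (MeasurableEquiv.measurable _)]
  rfl

/-- Time reversal of the first `n` layers preserves the law. -/
theorem lintegral_env_rev {F : (ℕ → Layer d) → ℝ≥0∞} (hF : Measurable F) (n : ℕ) :
    ∫⁻ ω, F (fun k => if k < n then ω (n - 1 - k) else ω k) ∂env d ρ = ∫⁻ ω, F ω ∂env d ρ := by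
  have hi : Function.Injective fun k : ℕ => if k < n then n - 1 - k else k := fun a b h => by
    simp only at h
    split_ifs at h <;> omega
  have h := Measure.map_infinitePi_infinitePi_of_inj (P := fun _ : ℕ => lay d ρ) hi
  unfold env
  conv_rhs => rw [← h]
  rw [lintegral_map hF (by fun_prop)]
  refine lintegral_congr fun ω => congrArg F (funext fun k => ?_)
  split_ifs <;> rfl

/-- Spatial translation preserves the law. -/
theorem AW_sh (n : ℕ) (ω : ℕ → Layer d) (v z : Site d) :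
    AW n (fun k x => ω k (x + v)) z = AW n ω (z + v) := by
  have e : dlt (z + v) = sh v (dlt z) := by
    funext x
    simp only [sh, dlt, sub_eq_iff_eq_add]
  rw [AW, AW, e, ev_sh, mass_sh]

/-- Splitting the environment after `n` layers. -/
theorem lintegral_env_split {F : (ℕ → Layer d) → (ℕ → Layer d) → ℝ≥0∞}
    (hF : Measurable (Function.uncurry F)) (n : ℕ)
    (hdep : ∀ ω ω' η, (∀ k < n, ω k = ω' k) → F ω η = F ω' η) :
    ∫⁻ ω, F ω (fun k => ω (k + n)) ∂env d ρ = ∫⁻ ω, ∫⁻ η, F ω η ∂env d ρ ∂env d ρ := by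
  induction n generalizing F with
  | zero =>
    have e : ∀ ω η, F ω η = F (fun _ _ => 0) η := fun ω η =>
      hdep _ _ _ fun k hk => (Nat.not_lt_zero k hk).elim
    have e1 : ∀ ω : ℕ → Layer d, F ω (fun k => ω (k + 0)) = F (fun _ _ => 0) ω := fun ω => e _ _
    have e2 : ∀ ω, ∫⁻ η, F ω η ∂env d ρ = ∫⁻ η, F (fun _ _ => 0) η ∂env d ρ := fun ω =>
      lintegral_congr (e ω)
    rw [lintegral_congr e1, lintegral_congr e2, lintegral_const, measure_univ, mul_one]
  | succ n ih =>
    rw [lintegral_env (F := fun ω => F ω fun k => ω (k + (n + 1)))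
      (hF.comp (measurable_id.prodMk
        (measurable_pi_lambda _ fun k => measurable_pi_apply (k + (n + 1))))),
      lintegral_env (F := fun ω => ∫⁻ η, F ω η ∂env d ρ) hF.lintegral_prod_right']
    refine lintegral_congr fun ξ => ih (F := fun ω η => F (MP_db3298_pr.consSeq ξ ω) η)
      (hF.comp ((MP_db3298_pr.measurable_consSeq.comp
        (measurable_const.prodMk measurable_fst)).prodMk measurable_snd))
      fun ω ω' η h => hdep _ _ _ fun k hk => ?_
    cases k with
    | zero => rfl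
    | succ k => exact h k (by omega)

/-- The evolution of a finitely supported profile depends on finitely many weights. -/
theorem ev_dep {f : Prof d} (hf : Nice f) (n : ℕ) : ∃ s : Finset (ℕ × Site d),
    ∀ ω ω' : ℕ → Layer d, (∀ i ∈ s, ω i.1 i.2 = ω' i.1 i.2) → ev n ω f = ev n ω' f := by
  obtain ⟨⟨t, ht⟩, -⟩ := hf
  obtain ⟨s, hs⟩ := gnice_dep n t
  exact ⟨s, hs f ht⟩

/-- The evolution is affine in each single weight. -/
theorem ev_affine (n : ℕ) (ω : ℕ × Site d → ℝ≥0) (i : ℕ × Site d) (f : Prof d) :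
    ∃ α β : Prof d, ∀ (t : ℝ≥0) (x : Site d),
      ev n (Function.curry (Function.update ω i t)) f x = α x + β x * t := by
  obtain ⟨α, β, h, -⟩ := gnice_affine n ω i f
  exact ⟨α, β, h⟩

theorem ev_mono_env (n : ℕ) {ω ω' : ℕ → Layer d} (h : ∀ k x, ω k x ≤ ω' k x) (f : Prof d) :
    ev n ω f ≤ ev n ω' f := by
  induction n with
  | zero => exact le_rfl
  | succ n ih =>
    intro x
    simp only [ev_succ', step]
    exact mul_le_mul' (ENNReal.coe_le_coe.2 (h n x)) (avg_mono ih x)

/-- Elementary consequences of `Good`. -/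
theorem Good.basic {κ M : ℝ} (hd : 3 ≤ d) (hκ : 0 < κ) (h : Good d κ M ρ) :
    1 ≤ M ∧ (∀ r : ℝ, 0 ≤ r → r ≤ 8 → mom ρ r ≤ ENNReal.ofReal (2 * M)) ∧
      (∀ r : ℝ, -4 ≤ r → r ≤ 0 → mom ρ r ≤ ENNReal.ofReal (2 * M)) ∧
      1 + ENNReal.ofReal ((gsum d).toReal⁻¹) ≤ mom ρ 2 ∧ 0 < (gsum d).toReal := by
  obtain ⟨h1, h8, h4, χ, hχ, hg⟩ := h
  have hM : 1 ≤ M := by
    have := jensen_convex ρ (g := fun t : ℝ≥0 => (t : ℝ≥0∞))
      measurable_coe_nnreal_ennreal.aemeasurable (q := 8) (by norm_num)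
    rw [h1, ENNReal.one_rpow] at this
    exact ENNReal.one_le_ofReal.1 (this.trans h8)
  have key : ∀ r s : ℝ, mom ρ s ≤ ENNReal.ofReal M →
      (∀ t : ℝ≥0∞, t ^ r ≤ 1 + t ^ s) → mom ρ r ≤ ENNReal.ofReal (2 * M) := fun r s hs hp => by
    refine (lintegral_mono fun t : ℝ≥0 => hp t).trans ?_
    rw [lintegral_add_left measurable_const, lintegral_const, measure_univ, mul_one, two_mul,
      ENNReal.ofReal_add (by linarith) (by linarith)]
    exact add_le_add (ENNReal.one_le_ofReal.2 hM) hs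
  have g1 : 1 ≤ χ * gsum d := le_self_add.trans hg
  have g0 : gsum d ≠ 0 := fun e => by simp [e] at g1
  have gt := gsum_ne_top hd
  have gp : 0 < (gsum d).toReal := ENNReal.toReal_pos g0 gt
  refine ⟨hM, fun r r0 r8 => key r 8 h8 fun t => ?_, fun r r4 r0 => key r (-4) h4 fun t => ?_,
    ?_, gp⟩
  · rcases le_total t 1 with ht | ht
    · exact (ENNReal.rpow_le_one ht r0).trans le_self_add
    · exact (ENNReal.rpow_le_rpow_of_exponent_le ht r8).trans le_add_self
  · rcases le_total t 1 with ht | ht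
    · exact (ENNReal.rpow_le_rpow_of_exponent_ge ht r4).trans le_add_self
    · exact ((ENNReal.rpow_le_rpow_of_exponent_le ht r0).trans (ENNReal.rpow_zero).le).trans
        le_self_add
  · rw [hχ, ENNReal.ofReal_inv_of_pos gp, ENNReal.ofReal_toReal gt]
    refine add_le_add le_rfl ?_
    calc (gsum d)⁻¹ = 1 * (gsum d)⁻¹ := (one_mul _).symm
      _ ≤ χ * gsum d * (gsum d)⁻¹ := by gcongr
      _ = χ := by rw [mul_assoc, ENNReal.mul_inv_cancel g0 gt, mul_one]

theorem Ctx.one_lt {κ M p l : ℝ} (hd : 3 ≤ d) (h : Ctx d κ M ρ p l) : 1 < p ∧ p < 2 := by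
  have h3 : (3 : ℝ) ≤ d := by exact_mod_cast hd
  have h1 := h.p1
  have h2 := h.p2
  have a : (0 : ℝ) < 1 / d := by positivity
  have b : (2 : ℝ) / d < 1 := by rw [div_lt_one (by linarith)]; linarith
  unfold q0 at h2
  constructor <;> linarith

end Pool.Agent.Lib.MP_153faa_pr
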