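import Mathlib
import Pool.Agent.Lib.MP_153faa_pr.GDefs

set_option autoImplicit false

open MeasureTheory Filter Topology
open scoped ENNReal NNReal

namespace Pool.Agent.Lib.MP_153faa_pr

variable {d : ℕ}

theorem gone_pm1 {p M : ℝ} (hp : 1 ≤ p) (hM : 0 ≤ M) : M ^ p = M ^ (p - 1) * M := by
  rw [← Real.rpow_add_one' hM (by linarith), sub_add_cancel]

theorem gone_pm2 {M : ℝ} (p : ℝ) (hM : 0 < M) : M ^ (p - 1) = M ^ (p - 2) * M := by
  rw [← Real.rpow_add_one hM.ne']
  congr 1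
  ring

theorem gone_pm3 {p M : ℝ} (hp : 1 ≤ p) (hM : 0 ≤ M) : M ^ p = M ^ (p - 2) * M ^ 2 := by
  rcases hM.eq_or_lt with rfl | h
  · rw [Real.zero_rpow (by linarith)]
    simp
  · rw [gone_pm1 hp hM, gone_pm2 p h]
    ring

theorem gone_conc {p S T : ℝ} (hp : 1 ≤ p) (hp2 : p ≤ 2) (hS : 0 < S) (hT : 0 ≤ T) :
    T ^ (p - 1) ≤ S ^ (p - 1) + (p - 1) * S ^ (p - 2) * (T - S) := by
  have h := Real.geom_mean_le_arith_mean2_weighted (w₁ := p - 1) (w₂ := 2 - p) (p₁ := T) (p₂ := S)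
    (by linarith) (by linarith) hT hS.le (by ring)
  have e : S ^ (2 - p) * S ^ (p - 2) = 1 := by
    rw [← Real.rpow_add hS]
    simp
  have ha : 0 < S ^ (p - 2) := Real.rpow_pos_of_pos hS _
  have h2 := mul_le_mul_of_nonneg_right h ha.le
  rw [mul_assoc, e, mul_one] at h2
  rw [gone_pm2 p hS]
  linarith

theorem gone_anti {p S T : ℝ} (hp2 : p ≤ 2) (hS : 0 < S) (hT : S ≤ T) :
    T ^ (p - 2) ≤ S ^ (p - 2) :=
  Real.rpow_le_rpow_of_nonpos hS hT (by linarith)

theorem gone_scale {p c S T : ℝ} (hp : 1 ≤ p) (hp2 : p ≤ 2) (hc : 1 ≤ c) (hS : 0 < S) (hT : 0 < T)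
    (h : T ≤ c * S) : S ^ (p - 2) ≤ c * T ^ (p - 2) := by
  have h1 := gone_anti hp2 hT h
  rw [Real.mul_rpow (by linarith) hS.le] at h1
  have h2 : c ^ (-1 : ℝ) ≤ c ^ (p - 2) := Real.rpow_le_rpow_of_exponent_le hc (by linarith)
  rw [Real.rpow_neg_one] at h2
  have ha : 0 < S ^ (p - 2) := Real.rpow_pos_of_pos hS _
  have h3 := (mul_le_mul_of_nonneg_right h2 ha.le).trans h1
  rwa [inv_mul_le_iff₀ (by linarith)] at h3

theorem gone_one {f f' : ℝ → ℝ} {m x : ℝ} (hc : ContinuousOn f (Set.uIcc m x))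
    (hd : ∀ s ∈ Set.uIoo m x, HasDerivAt f (f' s) s)
    (h : ∀ s ∈ Set.uIoo m x, 0 ≤ f' s * (x - m)) : f m ≤ f x := by
  rcases lt_trichotomy m x with l | rfl | l
  · rw [Set.uIcc_of_le l.le] at hc
    rw [Set.uIoo_of_le l.le] at hd h
    obtain ⟨s, hs, e⟩ := exists_hasDerivAt_eq_slope f f' l hc hd
    have := h s hs
    rw [e, div_mul_cancel₀ _ (by linarith)] at this
    linarith
  · exact le_rfl
  · rw [Set.uIcc_of_ge l.le] at hc
    rw [Set.uIoo_of_ge l.le] at hd h
    obtain ⟨s, hs, e⟩ := exists_hasDerivAt_eq_slope f f' l hc hd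
    have := h s hs
    rw [e, show x - m = -(m - x) by ring, mul_neg, div_mul_cancel₀ _ (by linarith)] at this
    linarith

theorem gone_three (p M x y : ℝ) :
    br p M y = br p M x + br p x y + p * (x ^ (p - 1) - M ^ (p - 1)) * (y - x) := by
  unfold br
  ring

theorem br_nonneg {p M x : ℝ} (hp : 1 ≤ p) (hM : 0 ≤ M) (hx : 0 ≤ x) : 0 ≤ br p M x := by
  have hp0 : 0 < p := by linarith
  have h := Real.geom_mean_le_arith_mean2_weighted (w₁ := 1 / p) (w₂ := (p - 1) / p)
    (p₁ := x ^ p) (p₂ := M ^ p) (by positivity) (div_nonneg (by linarith) hp0.le)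
    (Real.rpow_nonneg hx _) (Real.rpow_nonneg hM _) (by field_simp; ring)
  rw [← Real.rpow_mul hx, ← Real.rpow_mul hM, mul_one_div_cancel hp0.ne', Real.rpow_one,
    mul_div_cancel₀ _ hp0.ne'] at h
  have h2 := mul_le_mul_of_nonneg_left h hp0.le
  have e : p * (1 / p * x ^ p + (p - 1) / p * M ^ p) = x ^ p + (p - 1) * M ^ p := by field_simp
  rw [e] at h2
  unfold br
  have := gone_pm1 hp hM
  nlinarith

theorem br_le_sq {p M x : ℝ} (hp : 1 ≤ p) (hp2 : p ≤ 2) (hM : 0 < M) (hx : 0 ≤ x) :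
    br p M x ≤ (x - M) ^ 2 * M ^ (p - 2) := by
  have h := mul_le_mul_of_nonneg_right (gone_conc hp hp2 hM hx) hx
  rw [← gone_pm1 hp hx] at h
  unfold br
  rw [gone_pm1 hp hM.le]
  rw [gone_pm2 p hM] at h ⊢
  have ha : 0 < M ^ (p - 2) := Real.rpow_pos_of_pos hM _
  have : 0 ≤ (2 - p) * ((x - M) ^ 2 * M ^ (p - 2)) := mul_nonneg (by linarith) (by positivity)
  nlinarith

theorem gone_br_le_pow {p M x : ℝ} (hp : 1 ≤ p) (hM : 0 ≤ M) (hx : M ≤ x) : br p M x ≤ x ^ p := by
  unfold br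
  have h1 := Real.rpow_nonneg hM p
  have h2 : 0 ≤ p * M ^ (p - 1) * (x - M) :=
    mul_nonneg (mul_nonneg (by linarith) (Real.rpow_nonneg hM _)) (by linarith)
  linarith

theorem br_le_Lam {p M x : ℝ} (hp : 1 ≤ p) (hp2 : p ≤ 2) (hM : 0 < M) (hx : 0 ≤ x) :
    br p M x ≤ 8 * Lam p M x := by
  unfold Lam
  have hS : 0 < x + M := by linarith
  have ha : 0 < (x + M) ^ (p - 2) := Real.rpow_pos_of_pos hS _
  rcases le_total x (3 * M) with h | h
  · have h1 := br_le_sq hp hp2 hM hx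
    have h2 := gone_scale (c := 4) hp hp2 (by norm_num) hM hS (by linarith)
    have h3 := mul_le_mul_of_nonneg_left h2 (sq_nonneg (x - M))
    have : 0 ≤ (x - M) ^ 2 * (x + M) ^ (p - 2) := by positivity
    linarith
  · have h1 := gone_br_le_pow hp hM.le (show M ≤ x by linarith)
    have h2 : x ^ p ≤ (x + M) ^ p := Real.rpow_le_rpow hx (by linarith) (by linarith)
    rw [gone_pm3 hp hS.le] at h2
    have h3 : (x + M) ^ 2 ≤ 8 * (x - M) ^ 2 := by nlinarith
    have h4 := mul_le_mul_of_nonneg_left h3 ha.le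
    linarith

theorem br_mul {p M x c : ℝ} (hc : 0 ≤ c) (hM : 0 ≤ M) (hx : 0 ≤ x) (hp : 1 < p) :
    br p (c * M) (c * x) = c ^ p * br p M x := by
  unfold br
  rw [Real.mul_rpow hc hx, Real.mul_rpow hc hM, Real.mul_rpow hc hM, gone_pm1 hp.le hc]
  ring

theorem br_le_abs {p M x : ℝ} (hp : 1 ≤ p) (hp2 : p ≤ 2) (hM : 0 ≤ M) (hx : 0 ≤ x) :
    br p M x ≤ 4 * |x - M| ^ p := by
  have h0 : 0 ≤ |x - M| ^ p := Real.rpow_nonneg (abs_nonneg _) _
  rcases le_total (2 * M) x with h | h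
  · have h1 := gone_br_le_pow hp hM (show M ≤ x by linarith)
    have h2 : x ^ p ≤ (2 * |x - M|) ^ p :=
      Real.rpow_le_rpow hx (by linarith [le_abs_self (x - M)]) (by linarith)
    rw [Real.mul_rpow (by norm_num) (abs_nonneg _)] at h2
    have h3 : (2 : ℝ) ^ p ≤ 2 ^ (2 : ℝ) := Real.rpow_le_rpow_of_exponent_le (by norm_num) hp2
    rw [Real.rpow_two] at h3
    nlinarith
  · rcases hM.eq_or_lt with rfl | hM
    · obtain rfl : x = 0 := by linarith
      have := gone_br_le_pow hp le_rfl (le_refl (0 : ℝ))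
      rw [Real.zero_rpow (by linarith)] at this
      linarith
    · have h1 := br_le_sq hp hp2 hM hx
      rcases (abs_nonneg (x - M)).eq_or_lt with e | hu
      · rw [← sq_abs, ← e] at h1
        linarith
      · have h2 := gone_anti hp2 hu (show |x - M| ≤ M from abs_le.2 ⟨by linarith, by linarith⟩)
        have h3 := mul_le_mul_of_nonneg_left h2 (sq_nonneg (x - M))
        rw [gone_pm3 hp hu.le, sq_abs] at h0 ⊢
        linarith

theorem gone_inc {p s t K : ℝ} (hp : 1 ≤ p) (hp2 : p ≤ 2) (hs : 0 ≤ s) (ht : 0 < t) (hst : s ≤ t)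
    (hK : t ≤ K) : (p - 1) * K ^ (p - 2) * (t - s) ≤ t ^ (p - 1) - s ^ (p - 1) := by
  have h1 := gone_conc hp hp2 ht hs
  have h2 := mul_le_mul_of_nonneg_right (mul_le_mul_of_nonneg_left (gone_anti hp2 ht hK)
    (show 0 ≤ p - 1 by linarith)) (show 0 ≤ t - s by linarith)
  linarith

theorem gone_cont {p : ℝ} (hp : 1 ≤ p) (M : ℝ) : Continuous (br p M) := by
  unfold br
  have := Real.continuous_rpow_const (show 0 ≤ p by linarith)
  fun_prop

theorem gone_der {p : ℝ} (hp : 1 ≤ p) (M s : ℝ) :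
    HasDerivAt (br p M) (p * (s ^ (p - 1) - M ^ (p - 1))) s := by
  have h1 := Real.hasDerivAt_rpow_const (x := s) (p := p) (Or.inr hp)
  have h2 := (h1.sub_const (M ^ p)).sub
    (((hasDerivAt_id s).sub_const M).const_mul (p * M ^ (p - 1)))
  exact h2.congr_deriv (by ring)

theorem Lam_le_br {p M x : ℝ} (hp : 1 ≤ p) (hp2 : p ≤ 2) (hM : 0 < M) (hx : 0 ≤ x) :
    (p - 1) / 2 * Lam p M x ≤ br p M x := by
  set c := (p - 1) * (x + M) ^ (p - 2) with hc
  have hc0 : 0 ≤ c := mul_nonneg (by linarith) (Real.rpow_nonneg (by linarith) _)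
  have h := gone_one (f := fun s => br p M s - c / 2 * (s - M) ^ 2)
    (f' := fun s => p * (s ^ (p - 1) - M ^ (p - 1)) - c * (s - M)) (m := M) (x := x)
    (by have := gone_cont hp M; fun_prop)
    (fun s _ => by
      have h2 := (gone_der hp M s).sub
        ((((hasDerivAt_id s).sub_const M).pow 2).const_mul (c / 2))
      exact h2.congr_deriv (by simp; ring))
    (fun s hs => by
      rcases le_total M x with l | l
      · rw [Set.uIoo_of_le l] at hs
        have h1 := gone_inc (K := x + M) hp hp2 hM.le (hM.trans hs.1) hs.1.le (by linarith [hs.2])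
        have h2 := mul_nonneg hc0 (show 0 ≤ s - M by linarith [hs.1])
        exact mul_nonneg (by nlinarith) (by linarith)
      · rw [Set.uIoo_of_ge l] at hs
        have h1 := gone_inc (K := x + M) hp hp2 (hx.trans hs.1.le) hM hs.2.le (by linarith)
        have h2 := mul_nonneg hc0 (show 0 ≤ M - s by linarith [hs.2])
        exact mul_nonneg_of_nonpos_of_nonpos (by nlinarith) (by linarith))
  have e : br p M M = 0 := by simp [br]
  simp only [e, sub_self] at h
  unfold Lam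
  nlinarith

theorem br_ge_big {p M x : ℝ} (hp : 1 ≤ p) (hp2 : p ≤ 2) (hM : 0 ≤ M) (hx : 2 * M ≤ x) :
    (p - 1) / 16 * x ^ p ≤ br p M x := by
  have hx0 : 0 ≤ x := by linarith
  rcases hM.eq_or_lt with rfl | hM
  · rcases hp.eq_or_lt with rfl | hp1
    · simpa using br_nonneg le_rfl le_rfl hx0
    · have := Real.rpow_nonneg hx0 p
      unfold br
      rw [Real.zero_rpow (by linarith), Real.zero_rpow (by linarith)]
      nlinarith
  · refine le_trans ?_ (Lam_le_br hp hp2 hM hx0)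
    unfold Lam
    have h1 := gone_scale (c := 2) (S := x) (T := x + M) hp hp2 (by norm_num) (by linarith)
      (by linarith) (by linarith)
    have h2 : x ^ 2 ≤ 4 * (x - M) ^ 2 := by nlinarith
    have h3 := mul_le_mul h1 h2 (sq_nonneg _) (by positivity)
    rw [← gone_pm3 hp hx0] at h3
    nlinarith

theorem br_ge_small {p M x η : ℝ} (hp : 1 ≤ p) (hp2 : p ≤ 2) (hη : 0 ≤ η) (hx0 : 0 ≤ x)
    (hx : x ≤ (1 - η) * M) (hM : 0 ≤ M) : (p - 1) / 4 * η ^ 2 * M ^ p ≤ br p M x := by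
  rcases hM.eq_or_lt with rfl | hM
  · rw [Real.zero_rpow (by linarith), mul_zero]
    exact br_nonneg hp le_rfl hx0
  · refine le_trans ?_ (Lam_le_br hp hp2 hM hx0)
    unfold Lam
    have h0 := mul_nonneg hη hM.le
    have h1 := gone_scale (c := 2) (S := M) (T := x + M) hp hp2 (by norm_num) hM
      (by linarith) (by linarith)
    have h2 : η ^ 2 * M ^ 2 ≤ (x - M) ^ 2 := by nlinarith
    have h3 := mul_le_mul h1 h2 (by positivity) (by positivity)
    rw [gone_pm3 hp hM.le]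
    nlinarith

theorem pow_le_br {p M x : ℝ} (hp : 1 ≤ p) (hp2 : p ≤ 2) (hM : 0 ≤ M) (hx : 0 ≤ x) :
    (p - 1) / 16 * x ^ p ≤ br p M x + M ^ p := by
  have h0 := Real.rpow_nonneg hM p
  rcases le_total (2 * M) x with h | h
  · linarith [br_ge_big hp hp2 hM h]
  · have h2 : x ^ p ≤ (2 * M) ^ p := Real.rpow_le_rpow hx h (by linarith)
    rw [Real.mul_rpow (by norm_num) hM] at h2
    have h3 : (2 : ℝ) ^ p ≤ 2 ^ (2 : ℝ) := Real.rpow_le_rpow_of_exponent_le (by norm_num) hp2
    rw [Real.rpow_two] at h3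
    have h4 := br_nonneg hp hM hx
    have h5 := Real.rpow_nonneg hx p
    have h6 : x ^ p ≤ 4 * M ^ p := by nlinarith
    nlinarith

theorem br_mono_right {p M x y : ℝ} (hp : 1 ≤ p) (hM : 0 ≤ M) (hx : M ≤ x) (hxy : x ≤ y) :
    br p M x ≤ br p M y := by
  rw [gone_three p M x y]
  have h1 := br_nonneg hp (hM.trans hx) (hM.trans (hx.trans hxy))
  have h2 : M ^ (p - 1) ≤ x ^ (p - 1) := Real.rpow_le_rpow hM hx (by linarith)
  have h3 : 0 ≤ p * (x ^ (p - 1) - M ^ (p - 1)) * (y - x) :=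
    mul_nonneg (mul_nonneg (by linarith) (by linarith)) (by linarith)
  linarith

/-- More background, less gain. -/
theorem br_shift_anti {p M x c : ℝ} (hp : 1 < p) (hp2 : p ≤ 2) (hM : 0 ≤ M) (hx : 0 ≤ x)
    (hc : 0 ≤ c) : br p (M + c) (x + c) ≤ br p M x := by
  have h := gone_one (f := fun s => br p (M + s) (x + s))
    (f' := fun s => p * (x + s) ^ (p - 1) - p * (M + s) ^ (p - 1) -
      p * ((p - 1) * (M + s) ^ (p - 2)) * (x - M)) (m := c) (x := 0)
    (by
      unfold br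
      have := Real.continuous_rpow_const (show 0 ≤ p by linarith)
      have := Real.continuous_rpow_const (show 0 ≤ p - 1 by linarith)
      fun_prop (disch := intros; right; linarith))
    (fun s hs => by
      rw [Set.uIoo_of_ge hc] at hs
      have h1 := ((hasDerivAt_id s).const_add x).rpow_const (p := p) (Or.inr hp.le)
      have h2 := ((hasDerivAt_id s).const_add M).rpow_const (p := p) (Or.inr hp.le)
      have h3 := ((hasDerivAt_id s).const_add M).rpow_const (p := p - 1)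
        (Or.inl (show M + s ≠ 0 by linarith [hs.1]))
      have h4 := (h1.sub h2).sub ((h3.const_mul p).mul_const (x - M))
      have e : (fun s => br p (M + s) (x + s)) = fun s =>
          (x + s) ^ p - (M + s) ^ p - p * (M + s) ^ (p - 1) * (x - M) := by
        ext u
        simp [br]
      rw [e]
      exact h4.congr_deriv (by simp only [id, one_mul, show p - 1 - 1 = p - 2 by ring]))
    (fun s hs => by
      rw [Set.uIoo_of_ge hc] at hs
      have h1 := gone_conc hp.le hp2 (show 0 < M + s by linarith [hs.1])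
        (show 0 ≤ x + s by linarith [hs.1])
      have h2 := mul_le_mul_of_nonneg_left h1 (show 0 ≤ p by linarith)
      exact mul_nonneg_of_nonpos_of_nonpos (by linarith) (by linarith))
  simpa using h

/-- Slightly less background, slightly more gain. -/
theorem br_shift_le {p M D a η : ℝ} (hp : 1 < p) (hp2 : p ≤ 2) (hη : 0 < η) (hη2 : η ≤ 1 / 4)
    (hM : 0 < M) (ha : (1 - η) * M ≤ a) (hD : -(η * M) ≤ D) :
    br p a (a + D) ≤ (1 + 4 * η) * br p M (M + D) := by
  have h0 := mul_pos hη hM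
  have h4 : η * M ≤ M / 4 := by nlinarith
  have hr : ∀ s ∈ Set.uIcc 0 D, -(η * M) ≤ s := fun s hs => by
    rcases Set.mem_uIcc.1 hs with h | h <;> linarith [h.1]
  have key : ∀ s ∈ Set.uIcc 0 D, ∀ t ∈ Set.uIcc 0 D, s ≤ t →
      (1 + 4 * η) * (M + s) ^ (p - 1) - (a + s) ^ (p - 1) ≤
        (1 + 4 * η) * (M + t) ^ (p - 1) - (a + t) ^ (p - 1) := by
    intro s hs t ht hst
    have hs' := hr s hs
    have hd : ∀ u, s ≤ u → HasDerivAt
        (fun s => (1 + 4 * η) * (M + s) ^ (p - 1) - (a + s) ^ (p - 1))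
        ((p - 1) * ((1 + 4 * η) * (M + u) ^ (p - 2) - (a + u) ^ (p - 2))) u := by
      intro u hu
      have h1 := ((hasDerivAt_id u).const_add M).rpow_const (p := p - 1)
        (Or.inl (show M + u ≠ 0 by linarith))
      have h2 := ((hasDerivAt_id u).const_add a).rpow_const (p := p - 1)
        (Or.inl (show a + u ≠ 0 by linarith))
      refine ((h1.const_mul (1 + 4 * η)).sub h2).congr_deriv ?_
      simp only [id, one_mul, show p - 1 - 1 = p - 2 by ring]
      ring
    refine gone_one (f := fun s => (1 + 4 * η) * (M + s) ^ (p - 1) - (a + s) ^ (p - 1))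
      (f' := fun u => (p - 1) * ((1 + 4 * η) * (M + u) ^ (p - 2) - (a + u) ^ (p - 2)))
      (fun u hu => ?_) (fun u hu => ?_) (fun u hu => ?_)
    · rw [Set.uIcc_of_le hst] at hu
      exact (hd u hu.1).continuousAt.continuousWithinAt
    · rw [Set.uIoo_of_le hst] at hu
      exact hd u hu.1.le
    · rw [Set.uIoo_of_le hst] at hu
      have hu1 := hu.1
      have h1 := gone_scale (c := 1 + 4 * η) (S := a + u) (T := M + u) hp.le hp2 (by linarith)
        (by linarith) (by linarith) (by nlinarith)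
      exact mul_nonneg (mul_nonneg (by linarith) (by linarith)) (by linarith)
  have h := gone_one (f := fun s => (1 + 4 * η) * br p M (M + s) - br p a (a + s))
    (f' := fun s => (1 + 4 * η) * (p * ((M + s) ^ (p - 1) - M ^ (p - 1))) -
      p * ((a + s) ^ (p - 1) - a ^ (p - 1))) (m := 0) (x := D)
    (by
      have := gone_cont hp.le M
      have := gone_cont hp.le a
      fun_prop)
    (fun s _ => (((gone_der hp.le M (M + s)).comp_const_add M s).const_mul _).sub
      ((gone_der hp.le a (a + s)).comp_const_add a s))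
    (fun s hs => by
      have hs' := Set.uIoo_subset_uIcc_self hs
      rcases le_total 0 D with l | l
      · rw [Set.uIoo_of_le l] at hs
        have h1 := key 0 Set.left_mem_uIcc s hs' hs.1.le
        rw [add_zero, add_zero] at h1
        exact mul_nonneg (by nlinarith) (by linarith)
      · rw [Set.uIoo_of_ge l] at hs
        have h1 := key s hs' 0 Set.left_mem_uIcc hs.2.le
        rw [add_zero, add_zero] at h1
        exact mul_nonneg_of_nonpos_of_nonpos (by nlinarith) (by linarith))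
  have e : ∀ M, br p M M = 0 := fun M => by simp [br]
  simp only [add_zero, e, mul_zero, sub_self] at h
  linarith

theorem Lam_nonneg {p M x : ℝ} (hM : 0 ≤ M) (hx : 0 ≤ x) : 0 ≤ Lam p M x :=
  mul_nonneg (sq_nonneg _) (Real.rpow_nonneg (by linarith) _)

theorem gone_gap {p M x : ℝ} (hp : 1 ≤ p) (hp2 : p ≤ 2) (hM : 0 < M) (hx : 0 ≤ x) :
    |x ^ (p - 1) - M ^ (p - 1)| ≤ 2 * |x - M| * (x + M) ^ (p - 2) := by
  have key : ∀ s t : ℝ, 0 ≤ s → 0 < t → s ≤ t →
      0 ≤ t ^ (p - 1) - s ^ (p - 1) ∧ t ^ (p - 1) - s ^ (p - 1) ≤ 2 * (t - s) * (s + t) ^ (p - 2) := by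
    intro s t hs ht hst
    refine ⟨sub_nonneg.2 (Real.rpow_le_rpow hs hst (by linarith)), ?_⟩
    have h1 := gone_scale (c := 2) (S := t) (T := s + t) hp hp2 (by norm_num) ht (by linarith)
      (by linarith)
    have h2 : t ^ (p - 2) * s ≤ s ^ (p - 1) := by
      rcases hs.eq_or_lt with rfl | hs'
      · rw [mul_zero]
        exact Real.rpow_nonneg le_rfl _
      · rw [gone_pm2 p hs']
        exact mul_le_mul_of_nonneg_right (gone_anti hp2 hs' hst) hs
    have h3 := mul_le_mul_of_nonneg_left h1 (show 0 ≤ t - s by linarith)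
    rw [gone_pm2 p ht]
    linarith
  rcases le_total x M with l | l
  · obtain ⟨h1, h2⟩ := key x M hx hM l
    rw [abs_sub_comm, abs_of_nonneg h1, abs_sub_comm, abs_of_nonneg (by linarith)]
    exact h2
  · obtain ⟨h1, h2⟩ := key M x hM.le (by linarith) l
    rw [abs_of_nonneg h1, abs_of_nonneg (by linarith), add_comm]
    exact h2

theorem gone_cross {p M x D δ : ℝ} (hp : 1 ≤ p) (hp2 : p ≤ 2) (hM : 0 < M) (hx : 0 ≤ x)
    (hδ : 0 < δ) : p * (x ^ (p - 1) - M ^ (p - 1)) * D ≤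
      2 * δ * Lam p M x + 2 * δ⁻¹ * (D ^ 2 * (x + M) ^ (p - 2)) ∧
    p * (x ^ (p - 1) - M ^ (p - 1)) * D ≤ 4 * ((x + M) ^ (p - 1) * |D|) := by
  have hS : 0 < x + M := by linarith
  have ha : 0 < (x + M) ^ (p - 2) := Real.rpow_pos_of_pos hS _
  have h1 : p * (x ^ (p - 1) - M ^ (p - 1)) * D ≤ 4 * (|x - M| * |D|) * (x + M) ^ (p - 2) := by
    have h2 := mul_le_mul_of_nonneg_right (gone_gap hp hp2 hM hx) (abs_nonneg D)
    have h3 : (x ^ (p - 1) - M ^ (p - 1)) * D ≤ |x ^ (p - 1) - M ^ (p - 1)| * |D| := by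
      rw [← abs_mul]
      exact le_abs_self _
    have h4 : 0 ≤ |x ^ (p - 1) - M ^ (p - 1)| * |D| := by positivity
    nlinarith
  constructor
  · have h2 : 2 * (|x - M| * |D|) ≤ δ * (x - M) ^ 2 + δ⁻¹ * D ^ 2 := by
      have h3 := mul_nonneg (inv_pos.2 hδ).le (sq_nonneg (δ * |x - M| - |D|))
      have e : δ⁻¹ * (δ * |x - M| - |D|) ^ 2 =
          δ * |x - M| ^ 2 + δ⁻¹ * |D| ^ 2 - 2 * (|x - M| * |D|) := by
        field_simp
        ring
      rw [e, sq_abs, sq_abs] at h3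
      linarith
    have h3 := mul_le_mul_of_nonneg_right h2 ha.le
    unfold Lam
    linarith
  · have h2 : |x - M| ≤ x + M := abs_le.2 ⟨by linarith, by linarith⟩
    have h3 := mul_le_mul_of_nonneg_right h2 (mul_nonneg (abs_nonneg D) ha.le)
    rw [gone_pm2 p hS]
    linarith

theorem gone_young {p M D δ : ℝ} (hp : 1 ≤ p) (hp2 : p ≤ 2) (hM : 0 < M) (hδ : 0 < δ)
    (hδ1 : δ ≤ 1) : |D| ^ p ≤ δ * M ^ p + δ⁻¹ * (D ^ 2 * M ^ (p - 2)) := by
  have h1 : 0 ≤ δ * M ^ p := by positivity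
  have h2 : 0 ≤ δ⁻¹ * (D ^ 2 * M ^ (p - 2)) := by positivity
  rcases le_total |D| (δ * M) with h | h
  · have h3 : |D| ^ p ≤ (δ * M) ^ p := Real.rpow_le_rpow (abs_nonneg _) h (by linarith)
    rw [Real.mul_rpow hδ.le hM.le] at h3
    have h4 : δ ^ p ≤ δ ^ (1 : ℝ) := Real.rpow_le_rpow_of_exponent_ge hδ hδ1 hp
    rw [Real.rpow_one] at h4
    have h5 := mul_le_mul_of_nonneg_right h4 (Real.rpow_nonneg hM.le p)
    linarith
  · have hD : 0 < |D| := lt_of_lt_of_le (by positivity) h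
    have h3 := gone_scale (c := δ⁻¹) (S := |D|) (T := M) hp hp2 (one_le_inv_iff₀.2 ⟨hδ, hδ1⟩) hD hM
      (by rwa [le_inv_mul_iff₀ hδ])
    have h4 := mul_le_mul_of_nonneg_right h3 (sq_nonneg D)
    rw [gone_pm3 hp hD.le, sq_abs]
    linarith

/-- Quasi triangle inequality. -/
theorem br_quasi {p₀ η : ℝ} (hp₀ : 1 < p₀) (hη : 0 < η) : ∃ C : ℝ, 1 ≤ C ∧
    ∀ p M x D : ℝ, p₀ ≤ p → p ≤ 2 → 0 < M → 0 ≤ x → 0 ≤ x + D →
      br p M (x + D) ≤ (1 + η) * br p M x + C * min (D ^ 2 * M ^ (p - 2)) (|D| ^ p) := by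
  obtain ⟨δ, hδ, hδ1, hδ2⟩ : ∃ δ : ℝ, 0 < δ ∧ δ ≤ 1 ∧ δ ≤ η * (p₀ - 1) / 100 :=
    ⟨min 1 (η * (p₀ - 1) / 100), lt_min one_pos (by have := sub_pos.2 hp₀; positivity),
      min_le_left _ _, min_le_right _ _⟩
  have hi : 0 < δ⁻¹ := inv_pos.2 hδ
  refine ⟨8 + 6 * δ⁻¹, by linarith, fun p M x D hpp hp2 hM hx hy => ?_⟩
  have hp : 1 ≤ p := by linarith
  have hS : 0 < x + M := by linarith
  have hδ3 : δ ≤ η * (p - 1) / 100 := by nlinarith
  rw [gone_three p M x (x + D), add_sub_cancel_left]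
  obtain ⟨c1, c2⟩ := gone_cross (D := D) hp hp2 hM hx hδ
  have b0 := br_nonneg hp hM.le hx
  have b1 : 2 * δ * Lam p M x ≤ η / 25 * br p M x := by
    have h1 := mul_le_mul_of_nonneg_left (Lam_le_br hp hp2 hM hx) hη.le
    have h2 := mul_le_mul_of_nonneg_right hδ3 (Lam_nonneg (p := p) hM.le hx)
    linarith
  have b2 := br_le_abs hp hp2 hx hy
  rw [add_sub_cancel_left] at b2
  have b3 := mul_nonneg hη.le b0
  have q0 : 0 ≤ D ^ 2 * M ^ (p - 2) := by positivity
  have r0 : 0 ≤ |D| ^ p := by positivity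
  rcases le_total (D ^ 2 * M ^ (p - 2)) (|D| ^ p) with l | l
  · rw [min_eq_left l]
    have h1 := mul_le_mul_of_nonneg_left (mul_le_mul_of_nonneg_left
      (gone_anti hp2 hM (show M ≤ x + M by linarith)) (sq_nonneg D)) hi.le
    have h0 := mul_nonneg hi.le q0
    rcases le_total x (M / 2) with h | h
    · have h2 := br_ge_small (η := 1 / 2) hp hp2 (by norm_num) hx (show x ≤ (1 - 1 / 2) * M by linarith)
        hM.le
      have h3 := gone_young (D := D) hp hp2 hM hδ hδ1
      have h4 := mul_le_mul_of_nonneg_right hδ3 (Real.rpow_nonneg hM.le p)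
      have h5 := mul_le_mul_of_nonneg_left h2 hη.le
      linarith
    · have hx' : 0 < x := by linarith
      have h2 := br_le_sq hp hp2 hx' hy
      rw [add_sub_cancel_left] at h2
      have h3 := mul_le_mul_of_nonneg_left
        (gone_scale (c := 2) hp hp2 (by norm_num) hx' hM (by linarith)) (sq_nonneg D)
      linarith
  · rw [min_eq_right l]
    have h0 := mul_nonneg hi.le r0
    rcases le_total |D| (x + M) with h | h
    · have h1 : D ^ 2 * (x + M) ^ (p - 2) ≤ |D| ^ p := by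
        rcases (abs_nonneg D).eq_or_lt with e | hD
        · have e2 : D ^ 2 = 0 := by rw [← sq_abs, ← e]; simp
          rw [e2, zero_mul]
          exact r0
        · rw [gone_pm3 hp hD.le, sq_abs, mul_comm]
          exact mul_le_mul_of_nonneg_right (gone_anti hp2 hD h) (sq_nonneg D)
      have h2 := mul_le_mul_of_nonneg_left h1 hi.le
      linarith
    · have h1 : (x + M) ^ (p - 1) ≤ |D| ^ (p - 1) := Real.rpow_le_rpow hS.le h (by linarith)
      have h2 := mul_le_mul_of_nonneg_right h1 (abs_nonneg D)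
      rw [← gone_pm1 hp (abs_nonneg D)] at h2
      linarith

theorem min_le_br {p₀ : ℝ} (hp₀ : 1 < p₀) : ∃ C : ℝ, 1 ≤ C ∧
    ∀ p M m y : ℝ, p₀ ≤ p → p ≤ 2 → 0 < M → 0 ≤ m → m ≤ M → 0 ≤ y →
      min ((y - m) ^ 2 * M ^ (p - 2)) (|y - m| ^ p) ≤ C * br p m y := by
  have hc : 0 < p₀ - 1 := by linarith
  have hi : 0 < (p₀ - 1)⁻¹ := inv_pos.2 hc
  refine ⟨1 + 16 * (p₀ - 1)⁻¹, by linarith, fun p M m y hpp hp2 hM hm hmM hy => ?_⟩
  have hp : 1 ≤ p := by linarith
  have b0 := br_nonneg hp hm hy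
  have fin : ∀ z : ℝ, 0 ≤ z → (p - 1) / 16 * z ≤ br p m y →
      z ≤ (1 + 16 * (p₀ - 1)⁻¹) * br p m y := by
    intro z hz h
    have h1 : (p₀ - 1) * z ≤ 16 * br p m y := by nlinarith
    have h2 := mul_le_mul_of_nonneg_left h1 hi.le
    rw [← mul_assoc, inv_mul_cancel₀ hc.ne'] at h2
    linarith
  rcases le_or_gt (2 * m) y with h | h
  · refine (min_le_right _ _).trans (fin _ (by positivity) (le_trans ?_ (br_ge_big hp hp2 hm h)))
    exact mul_le_mul_of_nonneg_left (Real.rpow_le_rpow (abs_nonneg _)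
      (abs_le.2 ⟨by linarith, by linarith⟩) (by linarith)) (by linarith)
  · have hm' : 0 < m := by linarith
    refine (min_le_left _ _).trans (fin _ (by positivity) (le_trans ?_ (Lam_le_br hp hp2 hm' hy)))
    have h1 := mul_le_mul_of_nonneg_left (gone_scale (c := 8) (S := M) (T := y + m) hp hp2
      (by norm_num) hM (by linarith) (by linarith)) (sq_nonneg (y - m))
    have h2 := mul_le_mul_of_nonneg_left h1 (show 0 ≤ (p - 1) / 16 by linarith)
    unfold Lam
    linarith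

/-- Second order expansion of `Lam`. -/
theorem Lam_expand {p M x : ℝ} (hp : 1 ≤ p) (hp2 : p ≤ 2) (hM : 0 < M) (hx : 0 ≤ x) :
    ∃ s : ℝ, ∀ y, 0 ≤ y → Lam p M y ≤ Lam p M x + s * (y - x) + 64 * (y - x) ^ 2 * (x + M) ^ (p - 2) := by
  have hS : 0 < x + M := by linarith
  set a := (x + M) ^ (p - 2) with ha
  have ha0 : 0 < a := Real.rpow_pos_of_pos hS _
  refine ⟨p * (x + M) * a - 4 * M * (p - 1) * a + 4 * M ^ 2 * (p - 2) * (a / (x + M)),
    fun y hy => ?_⟩
  have hT : 0 < y + M := by linarith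
  have h1 := br_le_sq hp hp2 hS hT.le
  have h2 := br_nonneg hp hS.le hT.le
  have h3 := gone_conc hp hp2 hS hT.le
  unfold br at h1 h2
  unfold Lam
  rw [gone_pm3 hp hT.le, gone_pm3 hp hS.le, gone_pm2 p hS] at h1 h2
  rw [gone_pm2 p hT, gone_pm2 p hS] at h3
  rw [← ha] at h1 h2 h3 ⊢
  set b := (y + M) ^ (p - 2)
  obtain ⟨a', ha'⟩ : ∃ a', a = a' * (x + M) := ⟨a / (x + M), by field_simp⟩
  have ha'0 : 0 < a' := by
    rw [ha'] at ha0
    exact (mul_pos_iff_of_pos_right hS).1 ha0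
  have e : a / (x + M) = a' := by rw [ha']; field_simp
  rw [e]
  have w0 : 0 ≤ (y - x) ^ 2 * a := by positivity
  have w1 : 0 ≤ (y - x) ^ 2 * a' := by positivity
  have k2 : -((y - x) ^ 2 * a) ≤ M * ((y + M) * b - (x + M) * a - (p - 1) * a * (y - x)) := by
    set E := (y + M) * b - (x + M) * a - (p - 1) * a * (y - x) with hE
    have h4 : -((y - x) ^ 2 * a) ≤ (y + M) * E := by
      have := mul_nonneg (show 0 ≤ 2 - p by linarith) w0
      rw [hE]
      linarith
    rcases le_total 0 E with l | l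
    · linarith [mul_nonneg hM.le l]
    · nlinarith
  have k3 : M ^ 2 * (b - a - (p - 2) * a' * (y - x)) ≤ (y - x) ^ 2 * a := by
    set E := b - a - (p - 2) * a' * (y - x) with hE
    have h4 : (y + M) * E ≤ (y - x) ^ 2 * a' := by
      have := mul_nonneg (show 0 ≤ p - 1 by linarith) w1
      rw [hE]
      rw [ha'] at h3 ⊢
      linarith
    rcases le_total 0 E with l | l
    · have h5 : M * E ≤ (y - x) ^ 2 * a' := by nlinarith
      have h6 := mul_le_mul_of_nonneg_left h5 hM.le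
      have h7 := mul_nonneg hx w1
      rw [ha']
      linarith
    · nlinarith [sq_nonneg M]
  linarith

end Pool.Agent.Lib.MP_153faa_pr
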