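import Mathlib
import Pool.Agent.Lib.MP_153faa_pr.GOne1

set_option autoImplicit false

open MeasureTheory Filter Topology
open scoped ENNReal NNReal

namespace Pool.Agent.Lib.MP_153faa_pr

variable {d : ℕ}

theorem gone2_eq (p M x : ℝ) :
    th p M x = x ^ p - (M + x) ^ p + M ^ p + p * M ^ (p - 1) * x := by
  unfold th br
  ring

theorem gone2_deriv {p M : ℝ} (hp : 1 < p) (x : ℝ) :
    HasDerivAt (th p M) (p * (x ^ (p - 1) - (M + x) ^ (p - 1) + M ^ (p - 1))) x := by
  have e : th p M = fun x => x ^ p - (M + x) ^ p + M ^ p + p * M ^ (p - 1) * x :=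
    funext (gone2_eq p M)
  have h1 : HasDerivAt (fun x : ℝ => x ^ p) (p * x ^ (p - 1)) x :=
    Real.hasDerivAt_rpow_const (Or.inr hp.le)
  have h2 : HasDerivAt (fun x : ℝ => (M + x) ^ p) (1 * p * (M + x) ^ (p - 1)) x :=
    ((hasDerivAt_id' x).const_add M).rpow_const (Or.inr hp.le)
  have h3 : HasDerivAt (fun x : ℝ => p * M ^ (p - 1) * x) (p * M ^ (p - 1) * 1) x :=
    (hasDerivAt_id' x).const_mul _
  have h4 := ((h1.sub h2).add_const (M ^ p)).add h3
  rw [e]
  refine h4.congr_deriv ?_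
  ring

theorem gone2_diff {p M : ℝ} (hp : 1 < p) : Differentiable ℝ (th p M) :=
  fun x => (gone2_deriv hp x).differentiableAt

theorem gone2_incr {q M x y : ℝ} (hq : 0 < q) (hq1 : q ≤ 1) (hM : 0 ≤ M) (hx : 0 < x)
    (hxy : x ≤ y) : x ^ q - (M + x) ^ q ≤ y ^ q - (M + y) ^ q := by
  have hd : ∀ t : ℝ, 0 < t → HasDerivAt (fun t : ℝ => t ^ q - (M + t) ^ q)
      (q * t ^ (q - 1) - 1 * q * (M + t) ^ (q - 1)) t := by
    intro t ht
    exact (Real.hasDerivAt_rpow_const (Or.inl ht.ne')).sub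
      (((hasDerivAt_id' t).const_add M).rpow_const (Or.inl (by positivity)))
  have hm : MonotoneOn (fun t : ℝ => t ^ q - (M + t) ^ q) (Set.Ioi 0) := by
    refine monotoneOn_of_deriv_nonneg (convex_Ioi 0)
      (fun t ht => (hd t ht).continuousAt.continuousWithinAt) ?_ ?_
    · rw [interior_Ioi]
      exact fun t ht => (hd t ht).differentiableAt.differentiableWithinAt
    · rw [interior_Ioi]
      intro t ht
      rw [(hd t ht).deriv]
      have : (M + t) ^ (q - 1) ≤ t ^ (q - 1) :=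
        Real.rpow_le_rpow_of_nonpos ht (by linarith) (by linarith)
      nlinarith
  exact hm hx (lt_of_lt_of_le hx hxy) hxy

theorem th_zero {p M : ℝ} (hp : 1 < p) : th p M 0 = 0 := by
  rw [gone2_eq, Real.zero_rpow (by linarith), add_zero]
  ring

theorem th_mono {p M : ℝ} (hp : 1 < p) (hp2 : p ≤ 2) (hM : 0 ≤ M) :
    MonotoneOn (th p M) (Set.Ici 0) := by
  refine monotoneOn_of_deriv_nonneg (convex_Ici 0) (gone2_diff hp).continuous.continuousOn
    (gone2_diff hp).differentiableOn ?_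
  rw [interior_Ici]
  intro x hx
  rw [(gone2_deriv hp x).deriv]
  have hx' : 0 ≤ x := le_of_lt hx
  have := Real.rpow_add_le_add_rpow (p := p - 1) hM hx' (by linarith) (by linarith)
  have h0 : 0 ≤ x ^ (p - 1) - (M + x) ^ (p - 1) + M ^ (p - 1) := by linarith
  positivity

theorem th_nonneg {p M x : ℝ} (hp : 1 < p) (hp2 : p ≤ 2) (hM : 0 ≤ M) (hx : 0 ≤ x) :
    0 ≤ th p M x := by
  have := th_mono hp hp2 hM (Set.mem_Ici.2 le_rfl) (Set.mem_Ici.2 hx) hx
  rwa [th_zero hp] at this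

theorem th_le_pow {p M x : ℝ} (hp : 1 < p) (hM : 0 ≤ M) (hx : 0 ≤ x) : th p M x ≤ x ^ p := by
  have := br_nonneg (p := p) (M := M) (x := M + x) hp.le hM (by linarith)
  unfold th
  linarith

theorem th_le_lin {p M x : ℝ} (hp : 1 < p) (hp2 : p ≤ 2) (hM : 0 ≤ M) (hx : 0 ≤ x) :
    th p M x ≤ p * M ^ (p - 1) * x := by
  have _h := hp2
  have := Real.add_rpow_le_rpow_add hM hx hp.le
  rw [gone2_eq]
  linarith

theorem th_convex {p M : ℝ} (hp : 1 < p) (hp2 : p ≤ 2) (hM : 0 ≤ M) :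
    ConvexOn ℝ (Set.Ici 0) (th p M) := by
  refine MonotoneOn.convexOn_of_deriv (convex_Ici 0) (gone2_diff hp).continuous.continuousOn
    (gone2_diff hp).differentiableOn ?_
  rw [interior_Ici]
  intro x hx y _ hxy
  rw [(gone2_deriv hp x).deriv, (gone2_deriv hp y).deriv]
  have := gone2_incr (q := p - 1) (M := M) (by linarith) (by linarith) hM hx hxy
  exact mul_le_mul_of_nonneg_left (by linarith) (by linarith)

theorem th_mono_lev {p M M' x : ℝ} (hp : 1 < p) (hp2 : p ≤ 2) (hM : 0 ≤ M) (h : M ≤ M')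
    (hx : 0 ≤ x) : th p M x ≤ th p M' x := by
  have := br_shift_anti (p := p) (M := M) (x := M + x) (c := M' - M) hp hp2 hM (by linarith)
    (by linarith)
  have e1 : M + (M' - M) = M' := by ring
  have e2 : M + x + (M' - M) = M' + x := by ring
  rw [e1, e2] at this
  unfold th
  linarith

theorem th_ge {p M x : ℝ} (hp : 1 < p) (hp2 : p ≤ 2) (hx : 0 ≤ x) (hM : x ≤ M) :
    (2 - p) / 8 * x ^ p ≤ th p M x := by
  refine le_trans ?_ (th_mono_lev hp hp2 hx hM hx)
  rw [gone2_eq]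
  have h1 : x ^ (p - 1) * x = x ^ p := by
    rw [← Real.rpow_add_one' hx (by linarith)]
    congr 1
    ring
  have h2 : (x + x) ^ p = 2 ^ p * x ^ p := by
    rw [← two_mul, Real.mul_rpow (by norm_num) hx]
  have h3 : (2 : ℝ) ^ p ≤ 2 * p := by
    have a1 : (2 : ℝ) ^ p = 2 ^ (p - 1) * 2 := by
      rw [← Real.rpow_add_one (by norm_num)]
      congr 1
      ring
    have a2 := rpow_one_add_le_one_add_mul_self (s := 1) (p := p - 1) (by norm_num)
      (by linarith) (by linarith)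
    have a3 : (1 : ℝ) + 1 = 2 := by norm_num
    rw [a3] at a2
    rw [a1]
    linarith
  have h4 : 0 ≤ x ^ p := Real.rpow_nonneg hx p
  rw [h2, mul_assoc p, h1]
  nlinarith [mul_le_mul_of_nonneg_right h3 h4, mul_nonneg (sub_nonneg.2 hp2) h4]

theorem th_mul {p M x c : ℝ} (hp : 1 < p) (hc : 0 ≤ c) (hM : 0 ≤ M) (hx : 0 ≤ x) :
    th p (c * M) (c * x) = c ^ p * th p M x := by
  unfold th
  rw [← mul_add, br_mul hc hM (by linarith) hp, Real.mul_rpow hc hx]
  ring

theorem pow_le_th {p M x : ℝ} (hp : 1 < p) (hp2 : p ≤ 2) (hM : 0 < M) (hx : 0 ≤ x) :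
    x ^ p ≤ th p M x + x ^ 2 * M ^ (p - 2) := by
  have := br_le_sq (p := p) (M := M) (x := M + x) hp.le hp2 hM (by linarith)
  rw [add_sub_cancel_left] at this
  unfold th
  linarith

theorem th_double {p M x : ℝ} (hp : 1 < p) (hp2 : p ≤ 2) (hM : 0 < M) (hx : 0 ≤ x) :
    th p (2 * M) x ≤ th p M x + 8 * min (x ^ 2 * M ^ (p - 2)) (M ^ (p - 1) * x) := by
  have hA : 0 ≤ x ^ 2 * M ^ (p - 2) := by positivity
  have hB : 0 ≤ M ^ (p - 1) * x := by positivity
  rcases le_total (x ^ 2 * M ^ (p - 2)) (M ^ (p - 1) * x) with h | h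
  · rw [min_eq_left h]
    have h1 := th_le_pow (M := 2 * M) hp (by linarith) hx
    have h2 := pow_le_th hp hp2 hM hx
    linarith
  · rw [min_eq_right h]
    have h1 := th_le_lin (M := 2 * M) hp hp2 (by linarith) hx
    have h2 := th_nonneg hp hp2 hM.le hx
    have h3 : (2 : ℝ) ^ (p - 1) ≤ 2 := by
      have := Real.rpow_le_rpow_of_exponent_le (x := 2) (y := p - 1) (z := 1) (by norm_num)
        (by linarith)
      rwa [Real.rpow_one] at this
    have h0 : (0 : ℝ) ≤ 2 ^ (p - 1) := by positivity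
    rw [Real.mul_rpow (by norm_num) hM.le] at h1
    have h4 : p * (2 ^ (p - 1) * M ^ (p - 1)) * x = p * 2 ^ (p - 1) * (M ^ (p - 1) * x) := by ring
    have h5 : p * 2 ^ (p - 1) ≤ 4 := by nlinarith
    have h6 := mul_le_mul_of_nonneg_right h5 hB
    linarith

theorem th_unbounded {p M : ℝ} (hp : 1 < p) (hp2 : p < 2) (hM : 0 < M) :
    Tendsto (th p M) atTop atTop := by
  have hc := th_convex hp hp2.le hM.le
  have hpos : 0 < th p M M := by
    refine lt_of_lt_of_le ?_ (th_ge hp hp2.le hM.le le_rfl)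
    have : 0 < 2 - p := by linarith
    positivity
  have hlin : Tendsto (fun x : ℝ => x * (th p M M / M)) atTop atTop :=
    tendsto_id.atTop_mul_const (by positivity)
  refine tendsto_atTop_mono' atTop ?_ hlin
  filter_upwards [eventually_ge_atTop M] with x hx
  have hx0 : 0 < x := lt_of_lt_of_le hM hx
  have h1 := hc.2 (Set.mem_Ici.2 (le_refl (0 : ℝ))) (Set.mem_Ici.2 hx0.le)
    (show 0 ≤ 1 - M / x by rw [sub_nonneg, div_le_one hx0]; exact hx)
    (show 0 ≤ M / x by positivity) (by ring)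
  rw [th_zero hp] at h1
  have e : (1 - M / x) • (0 : ℝ) + (M / x) • x = M := by
    simp only [smul_eq_mul]
    field_simp
    ring
  rw [e] at h1
  simp only [smul_eq_mul, mul_zero, zero_add] at h1
  have h2 : x * (th p M M / M) ≤ x * (M / x * th p M x / M) :=
    mul_le_mul_of_nonneg_left (div_le_div_of_nonneg_right h1 hM.le) hx0.le
  have h3 : x * (M / x * th p M x / M) = th p M x := by field_simp
  linarith

end Pool.Agent.Lib.MP_153faa_pr
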