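import Mathlib
import Pool.Agent.Lib.MP_153faa_pr.GDefs

set_option autoImplicit false

open MeasureTheory Filter Topology
open scoped ENNReal NNReal

namespace Pool.Agent.Lib.MP_153faa_pr

variable {d : ℕ}

theorem measurable_lift {g : ℝ → ℝ} (hg : Measurable g) : Measurable (lift g) := by
  unfold lift
  exact Measurable.ite (measurableSet_singleton ⊤) measurable_const
    (hg.comp ENNReal.measurable_toReal).ennreal_ofReal

theorem measurable_th (p M : ℝ) : Measurable (th p M) := by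
  unfold th br
  fun_prop

theorem measurable_br (p : ℝ) : Measurable (Function.uncurry (br p)) := by
  unfold Function.uncurry br
  fun_prop

theorem measurable_vf (p : ℝ) : Measurable (Function.uncurry (vf p)) := by
  unfold Function.uncurry vf
  fun_prop

theorem gone3_anti {q : ℝ} (hq : q ≤ 0) {a a' : ℝ≥0∞} (h : a' ≤ a) : a ^ q ≤ a' ^ q := by
  rw [← neg_neg q, ENNReal.rpow_neg a, ENNReal.rpow_neg a']
  exact ENNReal.inv_le_inv.2 (ENNReal.rpow_le_rpow h (neg_nonneg.2 hq))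

theorem gone3_sq_mul (p : ℝ) {u : ℝ≥0∞} (h0 : u ≠ 0) (ht : u ≠ ⊤) : u ^ 2 * u ^ (p - 2) = u ^ p := by
  rw [← ENNReal.rpow_two, ← ENNReal.rpow_add _ _ h0 ht]
  congr 1
  ring

theorem gone3_mul_pred {p : ℝ} (hp : 1 ≤ p) (u : ℝ≥0∞) : u * u ^ (p - 1) = u ^ p := by
  conv_rhs => rw [show p = 1 + (p - 1) by ring,
    ENNReal.rpow_add_of_nonneg _ _ zero_le_one (sub_nonneg.2 hp), ENNReal.rpow_one]

theorem vf_le {p : ℝ} (hp : 1 ≤ p) (hp2 : p ≤ 2) {a u : ℝ≥0∞} (h : u ≤ a) : vf p a u ≤ u ^ p := by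
  unfold vf
  rcases eq_or_ne u 0 with rfl | h0
  · simp
  rcases eq_or_ne u ⊤ with rfl | ht
  · rw [ENNReal.top_rpow_of_pos (by linarith)]
    exact le_top
  rw [← gone3_sq_mul p h0 ht]
  exact mul_le_mul_right (gone3_anti (by linarith) h) _

theorem vf_mono {p : ℝ} (hp2 : p ≤ 2) {a a' u u' : ℝ≥0∞} (ha : a' ≤ a) (hu : u ≤ u') :
    vf p a u ≤ vf p a' u' :=
  mul_le_mul' (pow_le_pow_left' hu 2) (gone3_anti (by linarith) ha)

theorem vf_add {p : ℝ} (a u u' : ℝ≥0∞) : vf p a (u + u') ≤ 2 * vf p a u + 2 * vf p a u' := by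
  have h := ENNReal.rpow_add_le_mul_rpow_add_rpow u u' (p := 2) one_le_two
  rw [show (2 : ℝ) - 1 = 1 by norm_num, ENNReal.rpow_one, ENNReal.rpow_two, ENNReal.rpow_two,
    ENNReal.rpow_two] at h
  unfold vf
  refine (mul_le_mul_left h _).trans (le_of_eq ?_)
  ring

theorem vf_mul {p : ℝ} {c c' : ℝ≥0∞} (hc : c ≠ 0) (hct : c ≠ ⊤) (a u : ℝ≥0∞) :
    vf p (c * a) (c' * u) = c' ^ 2 * c ^ (p - 2) * vf p a u := by
  have h : (c * a) ^ (p - 2) = c ^ (p - 2) * a ^ (p - 2) := by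
    rcases eq_or_ne a 0 with rfl | h0
    · exact ENNReal.mul_rpow_of_ne_top hct ENNReal.zero_ne_top _
    · exact ENNReal.mul_rpow_of_ne_zero hc h0 _
  unfold vf
  rw [h]
  ring

theorem vf_le' {p : ℝ} (hp : 1 ≤ p) (hp2 : p ≤ 2) {a u c : ℝ≥0∞} (hc : 1 ≤ c) (h : u ≤ c * a) :
    vf p a u ≤ c * u ^ p := by
  rcases eq_or_ne u 0 with rfl | h0
  · simp [vf]
  rcases eq_or_ne c ⊤ with rfl | hct
  · rw [ENNReal.top_mul]
    · exact le_top
    · rw [Ne, ENNReal.rpow_eq_zero_iff_of_pos (by linarith)]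
      exact h0
  have hc0 : c ≠ 0 := (zero_lt_one.trans_le hc).ne'
  have h1 : c⁻¹ * u ≤ a := by
    refine (mul_le_mul_right h _).trans (le_of_eq ?_)
    rw [← mul_assoc, ENNReal.inv_mul_cancel hc0 hct, one_mul]
  have h2 := vf_mul (p := p) (c' := 1) (ENNReal.inv_ne_zero.2 hct) (ENNReal.inv_ne_top.2 hc0) u u
  rw [one_mul, one_pow, one_mul, ENNReal.inv_rpow, ← ENNReal.rpow_neg] at h2
  refine (vf_mono hp2 h1 le_rfl).trans (h2.le.trans (mul_le_mul' ?_ (vf_le hp hp2 le_rfl)))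
  exact (ENNReal.rpow_le_rpow_of_exponent_le hc (by linarith : -(p - 2) ≤ 1)).trans_eq
    (ENNReal.rpow_one c)

theorem gone3_cs {α β x y x' y' : ℝ≥0∞} (hx : x ≠ ⊤) (hy : y ≠ ⊤) (hx' : x' ≠ ⊤) (hy' : y' ≠ ⊤)
    (h : α ^ 2 ≤ x * y) (h' : β ^ 2 ≤ x' * y') : (α + β) ^ 2 ≤ (x + x') * (y + y') := by
  have hα : α ≠ ⊤ := by
    rintro rfl
    exact ENNReal.mul_ne_top hx hy (top_le_iff.1 (by simpa using h))
  have hβ : β ≠ ⊤ := by
    rintro rfl
    exact ENNReal.mul_ne_top hx' hy' (top_le_iff.1 (by simpa using h'))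
  lift α to ℝ≥0 using hα
  lift β to ℝ≥0 using hβ
  lift x to ℝ≥0 using hx
  lift y to ℝ≥0 using hy
  lift x' to ℝ≥0 using hx'
  lift y' to ℝ≥0 using hy'
  have h1 : (α : ℝ) ^ 2 ≤ x * y := by exact_mod_cast h
  have h2 : (β : ℝ) ^ 2 ≤ x' * y' := by exact_mod_cast h'
  have h3 : 2 * ((α : ℝ) * β) ≤ x * y' + x' * y := by
    refine abs_le_of_sq_le_sq' ?_ (by positivity) |>.2
    have h4 := mul_le_mul h1 h2 (sq_nonneg _) (by positivity)
    nlinarith [sq_nonneg ((x : ℝ) * y' - x' * y)]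
  have h5 : ((α : ℝ) + β) ^ 2 ≤ (x + x') * (y + y') := by nlinarith
  exact_mod_cast h5

theorem gone3_sq_le {s u b : ℝ≥0∞} (hb : b ≠ ⊤) (h : s * (u ^ 2 * b⁻¹) ≠ ⊤) :
    (s * u) ^ 2 ≤ s * (u ^ 2 * b⁻¹) * (s * b) := by
  rcases eq_or_ne b 0 with rfl | h0
  · rcases eq_or_ne s 0 with rfl | hs
    · simp
    rcases eq_or_ne u 0 with rfl | hu
    · simp
    exact absurd (by simp [hs, hu]) h
  · refine le_of_eq ?_
    calc (s * u) ^ 2 = (s * u) ^ 2 * (b⁻¹ * b) := by rw [ENNReal.inv_mul_cancel h0 hb, mul_one]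
      _ = _ := by ring

theorem gone3_conc {q : ℝ} (hq : 0 ≤ q) (hq1 : q ≤ 1) (a a' s t : ℝ≥0∞) (hst : s + t = 1) :
    s * a ^ q + t * a' ^ q ≤ (s * a + t * a') ^ q := by
  rcases hq.eq_or_lt with rfl | hq0
  · simp [hst]
  have h := ENNReal.rpow_arith_mean_le_arith_mean2_rpow s t (a ^ q) (a' ^ q) hst
    (p := q⁻¹) ((one_le_inv₀ hq0).2 hq1)
  rw [ENNReal.rpow_rpow_inv hq0.ne', ENNReal.rpow_rpow_inv hq0.ne'] at h
  have h1 := ENNReal.rpow_le_rpow h hq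
  rwa [ENNReal.rpow_inv_rpow hq0.ne'] at h1

/-- Joint convexity of `vf`. -/
theorem vf_convex {p : ℝ} (hp : 1 ≤ p) (hp2 : p ≤ 2) (a a' u u' : ℝ≥0∞) (ha : a ≠ ⊤)
    (ha' : a' ≠ ⊤) (s t : ℝ≥0) (hst : s + t = 1) :
    vf p (s * a + t * a') (s * u + t * u') ≤ s * vf p a u + t * vf p a' u' := by
  have e : ∀ x y : ℝ≥0∞, vf p x y = y ^ 2 * (x ^ (2 - p))⁻¹ := fun x y => by
    rw [vf, ← ENNReal.rpow_neg, neg_sub]
  have hq : 0 ≤ 2 - p := by linarith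
  simp only [e]
  rcases eq_or_ne (s * (u ^ 2 * (a ^ (2 - p))⁻¹) + t * (u' ^ 2 * (a' ^ (2 - p))⁻¹)) ⊤ with h | h
  · rw [h]
    exact le_top
  obtain ⟨h1, h2⟩ := ENNReal.add_ne_top.1 h
  have hb := ENNReal.rpow_ne_top_of_nonneg hq ha
  have hb' := ENNReal.rpow_ne_top_of_nonneg hq ha'
  have h3 := gone3_cs h1 (ENNReal.mul_ne_top ENNReal.coe_ne_top hb) h2
    (ENNReal.mul_ne_top ENNReal.coe_ne_top hb') (gone3_sq_le hb h1) (gone3_sq_le hb' h2)
  have h4 := gone3_conc hq (by linarith) a a' s t (by exact_mod_cast hst)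
  exact ENNReal.div_le_of_le_mul (h3.trans (mul_le_mul_right h4 _))

theorem gone3_point {p : ℝ} (hp : 1 ≤ p) (hp2 : p ≤ 2) {a u : ℝ≥0∞} (hat : a ≠ ⊤)
    (h0 : a = 0 → vf p a u ≠ ⊤) : u ^ p ≤ vf p a u ^ (p / 2) * (a ^ p) ^ (1 - p / 2) := by
  have hp0 : 0 ≤ p / 2 := by linarith
  have e : (u ^ 2) ^ (p / 2) = u ^ p := by
    rw [← ENNReal.rpow_two, ← ENNReal.rpow_mul]
    congr 1
    ring
  rcases hp2.eq_or_lt with rfl | hp2'
  · simp [vf]
  rcases eq_or_ne a 0 with rfl | ha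
  · rcases eq_or_ne u 0 with rfl | hu
    · rw [ENNReal.zero_rpow_of_pos (by linarith)]
      exact zero_le
    · refine absurd ?_ (h0 rfl)
      rw [vf, ENNReal.zero_rpow_of_neg (by linarith), ENNReal.mul_top (pow_ne_zero 2 hu)]
  · rw [vf, ENNReal.mul_rpow_of_nonneg _ _ hp0, e, mul_assoc, ← ENNReal.rpow_mul,
      ← ENNReal.rpow_mul, ← ENNReal.rpow_add _ _ ha hat,
      show (p - 2) * (p / 2) + p * (1 - p / 2) = 0 by ring, ENNReal.rpow_zero, mul_one]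

/-- Hoelder lower bound for `vf`. -/
theorem vf_holder {X : Type*} [MeasurableSpace X] (μ : Measure X) {p : ℝ} (hp : 1 ≤ p)
    (hp2 : p ≤ 2) {a u : X → ℝ≥0∞} (ha : Measurable a) (hu : Measurable u) (hat : ∀ x, a x ≠ ⊤)
    (h0 : ∀ x, a x = 0 → u x = 0) :
    ∫⁻ x, u x ^ p ∂μ ≤
      (∫⁻ x, vf p (a x) (u x) ∂μ) ^ (p / 2) * (∫⁻ x, a x ^ p ∂μ) ^ (1 - p / 2) := by
  have hv : Measurable fun x => vf p (a x) (u x) := (measurable_vf p).comp (ha.prodMk hu)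
  refine le_trans (lintegral_mono fun x => gone3_point hp hp2 (hat x) fun h => ?_)
    (ENNReal.lintegral_mul_norm_pow_le hv.aemeasurable (ha.pow_const p).aemeasurable
      (by linarith) (by linarith) (by ring))
  simp [vf, h0 x h]

/-- Hoelder lower bound for `vf`, second form. -/
theorem vf_holder' {X : Type*} [MeasurableSpace X] (μ : Measure X) {p : ℝ} (hp : 1 ≤ p)
    (hp2 : p ≤ 2) {a u : X → ℝ≥0∞} (ha : Measurable a) (hu : Measurable u) (hat : ∀ x, a x ≠ ⊤)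
    (h0 : ∫⁻ x, a x ^ p ∂μ ≠ 0) :
    ∫⁻ x, u x ^ p ∂μ ≤
      (∫⁻ x, vf p (a x) (u x) ∂μ) ^ (p / 2) * (∫⁻ x, a x ^ p ∂μ) ^ (1 - p / 2) := by
  have hv : Measurable fun x => vf p (a x) (u x) := (measurable_vf p).comp (ha.prodMk hu)
  rcases eq_or_ne (∫⁻ x, vf p (a x) (u x) ∂μ) ⊤ with h | h
  · rw [h, ENNReal.top_rpow_of_pos (by linarith), ENNReal.top_mul]
    · exact le_top
    · rw [Ne, ENNReal.rpow_eq_zero_iff]
      rintro (⟨h1, -⟩ | ⟨-, h1⟩)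
      · exact h0 h1
      · linarith
  refine le_trans (lintegral_mono_ae ?_)
    (ENNReal.lintegral_mul_norm_pow_le hv.aemeasurable (ha.pow_const p).aemeasurable
      (by linarith) (by linarith) (by ring))
  filter_upwards [ae_lt_top hv h] with x hx using gone3_point hp hp2 (hat x) fun _ => hx.ne

theorem add_rpow_le {p : ℝ} (hp : 1 ≤ p) (hp2 : p ≤ 2) (a b : ℝ≥0∞) :
    (a + b) ^ p ≤ a ^ p + 2 * (b * (a + b) ^ (p - 1)) := by
  rcases eq_or_ne (a + b) 0 with h0 | h0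
  · rw [h0, ENNReal.zero_rpow_of_pos (by linarith)]
    exact zero_le
  rcases eq_or_ne a ⊤ with rfl | ha
  · rw [ENNReal.top_rpow_of_pos (by linarith : 0 < p), top_add]
    exact le_top
  rcases eq_or_ne b ⊤ with rfl | hb
  · rw [add_top, gone3_mul_pred hp, ENNReal.top_rpow_of_pos (by linarith : 0 < p)]
    simp
  have ht : a + b ≠ ⊤ := ENNReal.add_ne_top.2 ⟨ha, hb⟩
  have h1 : (a + b) * (a + b) ^ (p - 2) = (a + b) ^ (p - 1) := by
    conv_rhs => rw [show p - 1 = 1 + (p - 2) by ring, ENNReal.rpow_add _ _ h0 ht, ENNReal.rpow_one]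
  have h2 : (a + b) ^ 2 ≤ a ^ 2 + 2 * (b * (a + b)) :=
    le_self_add.trans (le_of_eq (show (a + b) ^ 2 + b ^ 2 = _ by ring))
  rw [← gone3_sq_mul p h0 ht, ← h1]
  refine (mul_le_mul_left h2 _).trans ?_
  rw [add_mul (a ^ 2)]
  exact add_le_add (vf_le hp hp2 le_self_add) (le_of_eq (by ring))

theorem tsum_rpow_ge {ι : Type*} [Countable ι] {p : ℝ} (hp : 1 ≤ p) (g : ι → ℝ≥0∞) :
    ∑' i, g i ^ p ≤ (∑' i, g i) ^ p := by
  rw [← gone3_mul_pred hp, ← ENNReal.tsum_mul_right]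
  refine ENNReal.tsum_le_tsum fun i => ?_
  rw [← gone3_mul_pred hp]
  exact mul_le_mul_right (ENNReal.rpow_le_rpow (ENNReal.le_tsum i) (sub_nonneg.2 hp)) _

theorem pow_mul_log_le {p x : ℝ} (hp : 1 ≤ p) (hp2 : p < 2) (hx : 0 ≤ x) :
    x ^ p * |Real.log x| ≤ (1 + 1 / (2 - p)) * (1 + x ^ 2) := by
  have hq : 0 < 2 - p := by linarith
  have hq' : 0 < 1 / (2 - p) := by positivity
  rcases hx.eq_or_lt with rfl | hx0
  · simp only [Real.log_zero, abs_zero, mul_zero]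
    positivity
  rcases le_total x 1 with h1 | h1
  · have h2 : x ^ p ≤ x := by
      simpa using Real.rpow_le_rpow_of_exponent_ge hx0 h1 hp
    have h3 := Real.abs_log_mul_self_lt x hx0 h1
    rw [abs_mul, abs_of_pos hx0] at h3
    have h4 := mul_le_mul_of_nonneg_right h2 (abs_nonneg (Real.log x))
    nlinarith [sq_nonneg x, mul_nonneg hq'.le (sq_nonneg x)]
  · rw [abs_of_nonneg (Real.log_nonneg h1)]
    have h2 := mul_le_mul_of_nonneg_left (Real.log_le_rpow_div hx hq) (Real.rpow_nonneg hx p)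
    rw [← mul_div_assoc, ← Real.rpow_add hx0, show p + (2 - p) = 2 by ring, Real.rpow_two,
      div_eq_mul_one_div] at h2
    nlinarith [sq_nonneg x]

theorem gone3_interp {p : ℝ} (hp : 1 ≤ p) (hp2 : p ≤ 2) {τ : ℝ≥0∞} (hτ : τ ≠ ⊤) (g : ℝ≥0∞) :
    g ^ p ≤ τ ^ (p - 1) * g + τ ^ (p - 2) * g ^ (2 : ℝ) := by
  rcases le_total g τ with h | h
  · refine le_trans ?_ le_self_add
    rw [← gone3_mul_pred hp, mul_comm]
    exact mul_le_mul_left (ENNReal.rpow_le_rpow h (sub_nonneg.2 hp)) _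
  · refine le_trans ?_ le_add_self
    rcases eq_or_ne g 0 with rfl | h0
    · rw [ENNReal.zero_rpow_of_pos (by linarith)]
      exact zero_le
    rcases eq_or_ne g ⊤ with rfl | ht
    · rw [ENNReal.top_rpow_of_pos two_pos, ENNReal.mul_top]
      · exact le_top
      · rw [Ne, ENNReal.rpow_eq_zero_iff]
        rintro (⟨-, h1⟩ | ⟨h1, -⟩)
        · linarith
        · exact hτ h1
    rw [← gone3_sq_mul p h0 ht, mul_comm, ENNReal.rpow_two]
    exact mul_le_mul_left (gone3_anti (by linarith) h) _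

theorem nq_interp {p ε : ℝ} (hp : 1 < p) (hp2 : p ≤ 2) (hε : 0 < ε) {t : ℝ} (ht : 0 < t)
    {g : Prof d} (hg : mass g ≤ ENNReal.ofReal t) :
    nq p g ≤ ENNReal.ofReal (ε * t ^ p) +
      ENNReal.ofReal (ε ^ (-((2 - p) / (p - 1))) * t ^ (p - 2)) * nq 2 g := by
  have hq : p - 1 ≠ 0 := by linarith
  have hτ : 0 < ε ^ (p - 1)⁻¹ * t := by positivity
  have e1 : (ε ^ (p - 1)⁻¹ * t) ^ (p - 1) * t = ε * t ^ p := by
    rw [Real.mul_rpow (by positivity) ht.le, Real.rpow_inv_rpow hε.le hq, mul_assoc,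
      ← Real.rpow_add_one ht.ne', sub_add_cancel]
  have e2 : (ε ^ (p - 1)⁻¹ * t) ^ (p - 2) = ε ^ (-((2 - p) / (p - 1))) * t ^ (p - 2) := by
    rw [Real.mul_rpow (by positivity) ht.le, ← Real.rpow_mul hε.le]
    congr 2
    ring
  unfold nq
  refine (ENNReal.tsum_le_tsum fun x => gone3_interp hp.le hp2
    (τ := ENNReal.ofReal (ε ^ (p - 1)⁻¹ * t)) ENNReal.ofReal_ne_top (g x)).trans ?_
  rw [ENNReal.tsum_add, ENNReal.tsum_mul_left, ENNReal.tsum_mul_left,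
    ENNReal.ofReal_rpow_of_pos hτ, ENNReal.ofReal_rpow_of_pos hτ, e2, ← e1,
    ENNReal.ofReal_mul (Real.rpow_nonneg hτ.le _)]
  exact add_le_add_left (mul_le_mul_right hg _) _

end Pool.Agent.Lib.MP_153faa_pr
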