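import Mathlib
import Pool.Agent.Lib.MP_153faa_pr.GNice
import Pool.Agent.Lib.MP_153faa_pr.GOne

set_option autoImplicit false

open MeasureTheory Filter Topology
open scoped ENNReal NNReal

namespace Pool.Agent.Lib.MP_153faa_pr

variable {d : ℕ}

/-- Integration of a pointwise inequality with a centred linear term. -/
theorem glayer_key {Ω : Type*} [MeasurableSpace Ω] (μ : Measure Ω) [IsProbabilityMeasure μ]
    {X : Ω → ℝ≥0∞} (hX : Measurable X) {m : ℝ≥0∞} (hm : ∫⁻ ω, X ω ∂μ = m) (hmt : m ≠ ⊤)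
    {f g : ℝ → ℝ} (hf : Measurable f) (hg : Measurable g) (f0 : ∀ y, 0 ≤ y → 0 ≤ f y)
    (g0 : ∀ y, 0 ≤ y → 0 ≤ g y) {a b s : ℝ} (ha : 0 ≤ a) (hb : 0 ≤ b)
    (h : ∀ y, 0 ≤ y → f y + a ≤ g y + b + s * (y - m.toReal)) :
    ∫⁻ ω, ENNReal.ofReal (f (X ω).toReal) ∂μ + ENNReal.ofReal a ≤
      ∫⁻ ω, ENNReal.ofReal (g (X ω).toReal) ∂μ + ENNReal.ofReal b := by
  by_cases hG : ∫⁻ ω, ENNReal.ofReal (g (X ω).toReal) ∂μ = ⊤
  · rw [hG]; simp
  have hY : Measurable fun ω => (X ω).toReal := hX.ennreal_toReal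
  have hXi : ∫⁻ ω, X ω ∂μ ≠ ⊤ := hm ▸ hmt
  have iY : Integrable (fun ω => (X ω).toReal) μ :=
    integrable_toReal_of_lintegral_ne_top hX.aemeasurable hXi
  have eY : ∫ ω, (X ω).toReal ∂μ = m.toReal := by
    rw [integral_toReal hX.aemeasurable (ae_lt_top hX hXi), hm]
  have pf : 0 ≤ᵐ[μ] fun ω => f (X ω).toReal :=
    Eventually.of_forall fun ω => f0 _ ENNReal.toReal_nonneg
  have pg : 0 ≤ᵐ[μ] fun ω => g (X ω).toReal :=
    Eventually.of_forall fun ω => g0 _ ENNReal.toReal_nonneg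
  have ig : Integrable (fun ω => g (X ω).toReal) μ :=
    (lintegral_ofReal_ne_top_iff_integrable (hg.comp hY).aestronglyMeasurable pg).1 hG
  have iL : Integrable (fun ω => s * ((X ω).toReal - m.toReal)) μ :=
    (iY.sub (integrable_const _)).const_mul s
  have iR : Integrable (fun ω => g (X ω).toReal + (b - a) + s * ((X ω).toReal - m.toReal)) μ :=
    (ig.add (integrable_const _)).add iL
  have hle : ∀ ω, f (X ω).toReal ≤ g (X ω).toReal + (b - a) + s * ((X ω).toReal - m.toReal) :=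
    fun ω => by linarith [h _ (ENNReal.toReal_nonneg (a := X ω))]
  have jf : Integrable (fun ω => f (X ω).toReal) μ :=
    iR.mono' (hf.comp hY).aestronglyMeasurable (Eventually.of_forall fun ω => by
      rw [Real.norm_of_nonneg (f0 _ ENNReal.toReal_nonneg)]; exact hle ω)
  have h1 := integral_mono jf iR hle
  have iS : Integrable (fun ω => g (X ω).toReal + (b - a)) μ := ig.add (integrable_const _)
  rw [integral_add iS iL, integral_add ig (integrable_const _),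
    integral_const_mul, integral_sub iY (integrable_const _), eY] at h1
  simp only [integral_const, probReal_univ, one_smul, sub_self, mul_zero, add_zero] at h1
  rw [← ofReal_integral_eq_lintegral_ofReal jf pf, ← ofReal_integral_eq_lintegral_ofReal ig pg,
    ← ENNReal.ofReal_add (integral_nonneg_of_ae pf) ha,
    ← ENNReal.ofReal_add (integral_nonneg_of_ae pg) hb]
  exact ENNReal.ofReal_le_ofReal (by linarith)

theorem glayer_ae {ρ : Measure ℝ≥0} [IsProbabilityMeasure ρ] (h1 : Mean1 ρ)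
    (c : Site d → ℝ≥0∞) (hc : ∑' x, c x ≠ ⊤) :
    ∀ᵐ ξ ∂lay d ρ, ∑' x, c x * (ξ x : ℝ≥0∞) ≠ ⊤ := by
  filter_upwards [ae_lt_top (μ := lay d ρ) (measurable_lin c) (by rwa [lintegral_lin h1 c])]
    with ξ h using h.ne

theorem glayer_sq_le (c : Site d → ℝ≥0∞) : ∑' x, c x ^ 2 ≤ (∑' x, c x) ^ 2 := by
  rw [sq (∑' x, c x), ← ENNReal.tsum_mul_right]
  refine ENNReal.tsum_le_tsum fun x => ?_
  rw [sq]
  exact mul_le_mul_right (ENNReal.le_tsum x) _

theorem glayer_pow {ρ : Measure ℝ≥0} [IsProbabilityMeasure ρ] (h1 : Mean1 ρ) {p : ℝ} (hp : 0 ≤ p)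
    {a : ℝ≥0∞} (ha : a ≠ ⊤) (c : Site d → ℝ≥0∞) (hc : ∑' x, c x ≠ ⊤) :
    ∫⁻ ξ, ENNReal.ofReal ((a.toReal + (∑' x, c x * (ξ x : ℝ≥0∞)).toReal) ^ p) ∂lay d ρ =
      ∫⁻ ξ, (a + ∑' x, c x * (ξ x : ℝ≥0∞)) ^ p ∂lay d ρ := by
  refine lintegral_congr_ae ?_
  filter_upwards [glayer_ae h1 c hc] with ξ h
  rw [← ENNReal.toReal_add ha h, ← ENNReal.ofReal_rpow_of_nonneg ENNReal.toReal_nonneg hp,
    ENNReal.ofReal_toReal (ENNReal.add_ne_top.2 ⟨ha, h⟩)]

/-- Centred second moment. -/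
theorem lay_var {ρ : Measure ℝ≥0} [IsProbabilityMeasure ρ] (h1 : Mean1 ρ) {χ : ℝ≥0∞}
    (hχ : mom ρ 2 = 1 + χ) (c : Site d → ℝ≥0∞) (hc : ∑' x, c x ≠ ⊤) :
    ∫⁻ ξ, ENNReal.ofReal (((∑' x, c x * (ξ x : ℝ≥0∞)).toReal - (∑' x, c x).toReal) ^ 2) ∂lay d ρ
      = χ * ∑' x, c x ^ 2 := by
  set m := ∑' x, c x with hm
  have k1 := glayer_key (lay d ρ) (measurable_lin c) (lintegral_lin h1 c) hc
    (f := fun y => (y - m.toReal) ^ 2) (g := fun y => y ^ 2) (by fun_prop) (by fun_prop)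
    (fun y _ => sq_nonneg _) (fun y _ => sq_nonneg _) (a := m.toReal ^ 2) (b := 0)
    (s := -(2 * m.toReal)) (sq_nonneg _) le_rfl fun y _ => le_of_eq (by rw [← hm]; ring)
  have k2 := glayer_key (lay d ρ) (measurable_lin c) (lintegral_lin h1 c) hc
    (f := fun y => y ^ 2) (g := fun y => (y - m.toReal) ^ 2) (by fun_prop) (by fun_prop)
    (fun y _ => sq_nonneg _) (fun y _ => sq_nonneg _) (a := 0) (b := m.toReal ^ 2)
    (s := 2 * m.toReal) le_rfl (sq_nonneg _) fun y _ => le_of_eq (by rw [← hm]; ring)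
  have e := glayer_pow h1 (p := 2) (by norm_num) ENNReal.zero_ne_top c hc
  simp only [ENNReal.toReal_zero, zero_add] at e
  rw [lay_sq h1 hχ c] at e
  simp only [Real.rpow_two, ENNReal.rpow_two] at e
  have k := le_antisymm k1 (by simpa using k2)
  rw [e, ENNReal.ofReal_zero, add_zero, ENNReal.ofReal_pow ENNReal.toReal_nonneg,
    ENNReal.ofReal_toReal hc, ← hm, add_comm] at k
  exact (ENNReal.add_right_inj (ENNReal.pow_ne_top hc)).1 k

theorem glayer_var_mul {ρ : Measure ℝ≥0} [IsProbabilityMeasure ρ] (h1 : Mean1 ρ) {χ : ℝ≥0∞}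
    (hχ : mom ρ 2 = 1 + χ) (c : Site d → ℝ≥0∞) (hc : ∑' x, c x ≠ ⊤) {θ : ℝ} (hθ : 0 ≤ θ) :
    ∫⁻ ξ, ENNReal.ofReal
      (θ * ((∑' x, c x * (ξ x : ℝ≥0∞)).toReal - (∑' x, c x).toReal) ^ 2) ∂lay d ρ
      = ENNReal.ofReal θ * (χ * ∑' x, c x ^ 2) := by
  simp only [ENNReal.ofReal_mul hθ]
  rw [lintegral_const_mul' _ _ ENNReal.ofReal_ne_top, lay_var h1 hχ c hc]

theorem glayer_vf (p : ℝ) {S : ℝ≥0∞} (h0 : S ≠ 0) (ht : S ≠ ⊤) (c : Site d → ℝ≥0∞) :
    ∑' x, vf p S (c x) = ENNReal.ofReal (S.toReal ^ (p - 2)) * ∑' x, c x ^ 2 := by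
  rw [← ENNReal.ofReal_rpow_of_pos (ENNReal.toReal_pos h0 ht), ENNReal.ofReal_toReal ht]
  simp only [vf]
  rw [ENNReal.tsum_mul_right, mul_comm]

/-- Upper second order bound for one layer. -/
theorem lay_up {ρ : Measure ℝ≥0} [IsProbabilityMeasure ρ] (h1 : Mean1 ρ) {χ : ℝ≥0∞}
    (hχ : mom ρ 2 = 1 + χ) {p : ℝ} (hp : 1 ≤ p) (hp2 : p ≤ 2) (a : ℝ≥0∞) (c : Site d → ℝ≥0∞) :
    ∫⁻ ξ, (a + ∑' x, c x * (ξ x : ℝ≥0∞)) ^ p ∂lay d ρ ≤
      (a + ∑' x, c x) ^ p + χ * ∑' x, vf p (a + ∑' y, c y) (c x) := by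
  have hp0 : 0 < p := by linarith
  by_cases ht : a + ∑' x, c x = ⊤
  · rw [ht, ENNReal.top_rpow_of_pos hp0]; simp
  by_cases h0 : a + ∑' x, c x = 0
  · obtain ⟨ha, hc⟩ := add_eq_zero.1 h0
    have hc' : ∀ x, c x = 0 := ENNReal.tsum_eq_zero.1 hc
    simp [ha, hc', ENNReal.zero_rpow_of_pos hp0]
  obtain ⟨ha, hc⟩ := ENNReal.add_ne_top.1 ht
  set m := ∑' x, c x with hm
  have hS : 0 < (a + m).toReal := ENNReal.toReal_pos h0 ht
  have k := glayer_key (lay d ρ) (measurable_lin c) (lintegral_lin h1 c) hc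
    (f := fun y => (a.toReal + y) ^ p)
    (g := fun y => (a + m).toReal ^ (p - 2) * (y - m.toReal) ^ 2) (by fun_prop) (by fun_prop)
    (fun y _ => by positivity) (fun y _ => by positivity) (a := 0) (b := (a + m).toReal ^ p)
    (s := p * (a + m).toReal ^ (p - 1)) le_rfl (by positivity) fun y hy => by
      have h2 := br_le_sq hp hp2 hS (x := a.toReal + y) (by positivity)
      have e : a.toReal + y - (a + m).toReal = y - m.toReal := by
        rw [ENNReal.toReal_add ha hc]; ring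
      unfold br at h2
      rw [e] at h2
      rw [← hm]
      linarith
  rw [glayer_pow h1 hp0.le ha c hc, glayer_var_mul h1 hχ c hc (by positivity),
    ← ENNReal.ofReal_rpow_of_nonneg hS.le hp0.le, ENNReal.ofReal_toReal ht, ENNReal.ofReal_zero,
    add_zero] at k
  rw [glayer_vf p h0 ht, add_comm, mul_left_comm]
  exact k

/-- One-site bound through the fourth moment. -/
theorem glayer_site {ρ : Measure ℝ≥0} [IsProbabilityMeasure ρ] (h1 : Mean1 ρ) {k : ℝ} (hk0 : 0 ≤ k)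
    (hk : mom ρ 4 ≤ ENNReal.ofReal k) {f : ℝ → ℝ} (hf : Measurable f)
    (f0 : ∀ y, 0 ≤ y → 0 ≤ f y) {α β s : ℝ} (hα : 0 ≤ α) (hβ : 0 ≤ β)
    (h : ∀ y, 0 ≤ y → f y ≤ α * y ^ 4 + β + s * (y - 1)) :
    ∫⁻ t : ℝ≥0, ENNReal.ofReal (f t) ∂ρ ≤ ENNReal.ofReal (α * k + β) := by
  have key := glayer_key ρ measurable_coe_nnreal_ennreal h1 ENNReal.one_ne_top hf
    (g := fun y => α * y ^ 4) (by fun_prop) f0 (fun y _ => by positivity) (a := 0) (s := s)
    le_rfl hβ fun y hy => by simpa using h y hy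
  simp only [ENNReal.coe_toReal, ENNReal.ofReal_zero, add_zero, ENNReal.ofReal_mul hα] at key
  rw [lintegral_const_mul' _ _ ENNReal.ofReal_ne_top] at key
  rw [ENNReal.ofReal_add (by positivity) hβ, ENNReal.ofReal_mul hα]
  refine key.trans (add_le_add_left (mul_le_mul_right (le_trans (le_of_eq ?_) hk) _) _)
  refine lintegral_congr fun t => ?_
  rw [ENNReal.ofReal_pow t.coe_nonneg, show (4 : ℝ) = ((4 : ℕ) : ℝ) by norm_num, ENNReal.rpow_natCast]
  simp

theorem glayer_two (y : ℝ) (hy : 0 ≤ y) : (y - 1) ^ 2 ≤ y ^ 4 + 1 := by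
  nlinarith [sq_nonneg (y ^ 2 - 1), sq_nonneg (y - 1), sq_nonneg y, mul_nonneg hy (sq_nonneg (y - 1)),
    mul_nonneg hy (sq_nonneg y)]

theorem glayer_four (y : ℝ) (hy : 0 ≤ y) : (y - 1) ^ 4 ≤ y ^ 4 + 1 := by
  nlinarith [mul_nonneg hy (sq_nonneg (y - 1)), mul_nonneg hy (sq_nonneg y)]

theorem glayer_fin {ρ : Measure ℝ≥0} [IsProbabilityMeasure ρ] (h1 : Mean1 ρ) {k : ℝ} (hk1 : 1 ≤ k)
    (hk : mom ρ 4 ≤ ENNReal.ofReal k) (r : Site d → ℝ) (S : Finset (Site d)) :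
    ∫⁻ ξ, ENNReal.ofReal ((∑ x ∈ S, r x * ((ξ x : ℝ) - 1)) ^ 2) ∂lay d ρ ≤
        ENNReal.ofReal (2 * k * ∑ x ∈ S, r x ^ 2) ∧
      ∫⁻ ξ, ENNReal.ofReal ((∑ x ∈ S, r x * ((ξ x : ℝ) - 1)) ^ 4) ∂lay d ρ ≤
        ENNReal.ofReal (16 * k ^ 2 * (∑ x ∈ S, r x ^ 2) ^ 2) := by
  have hk0 : 0 ≤ k := by linarith
  have hm : ∀ S : Finset (Site d), Measurable fun ξ : Layer d => ∑ x ∈ S, r x * ((ξ x : ℝ) - 1) :=
    fun S => Finset.measurable_sum S fun x _ => by fun_prop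
  induction S using Finset.induction_on with
  | empty => simp
  | insert a S ha ih =>
    have e : ∀ (ξ : Layer d) (t : ℝ≥0),
        ∑ x ∈ insert a S, r x * ((Function.update ξ a t x : ℝ) - 1) =
          ∑ x ∈ S, r x * ((ξ x : ℝ) - 1) + r a * ((t : ℝ) - 1) := by
      intro ξ t
      rw [Finset.sum_insert ha, Function.update_self, add_comm]
      congr 1
      exact Finset.sum_congr rfl fun x hx => by
        rw [Function.update_of_ne (fun h : x = a => ha (h ▸ hx))]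
    have hQ : 0 ≤ ∑ x ∈ S, r x ^ 2 := Finset.sum_nonneg fun x _ => sq_nonneg _
    rw [lintegral_update' ((hm (insert a S)).pow_const 2).ennreal_ofReal a,
      lintegral_update' ((hm (insert a S)).pow_const 4).ennreal_ofReal a]
    simp only [e]
    rw [Finset.sum_insert ha]
    set c := r a
    set Q := ∑ x ∈ S, r x ^ 2
    constructor
    · have s2 : ∀ A : ℝ, ∫⁻ t : ℝ≥0, ENNReal.ofReal ((A + c * ((t : ℝ) - 1)) ^ 2) ∂ρ ≤
          ENNReal.ofReal (A ^ 2) + ENNReal.ofReal (2 * k * c ^ 2) := by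
        intro A
        refine (glayer_site h1 hk0 hk (f := fun y => (A + c * (y - 1)) ^ 2) (by fun_prop)
          (fun y _ => sq_nonneg _) (α := c ^ 2) (β := A ^ 2 + c ^ 2) (s := 2 * A * c)
          (by positivity) (by positivity) fun y hy => ?_).trans ?_
        · nlinarith [mul_le_mul_of_nonneg_left (glayer_two y hy) (sq_nonneg c)]
        · rw [← ENNReal.ofReal_add (by positivity) (by positivity)]
          exact ENNReal.ofReal_le_ofReal (by nlinarith [sq_nonneg c])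
      refine (lintegral_mono fun ξ => s2 _).trans ?_
      rw [lintegral_add_right _ measurable_const, lintegral_const, measure_univ, mul_one]
      refine (add_le_add_left ih.1 _).trans ?_
      rw [← ENNReal.ofReal_add (by positivity) (by positivity)]
      exact ENNReal.ofReal_le_ofReal (le_of_eq (by ring))
    · have s4 : ∀ A : ℝ, ∫⁻ t : ℝ≥0, ENNReal.ofReal ((A + c * ((t : ℝ) - 1)) ^ 4) ∂ρ ≤
          ENNReal.ofReal (A ^ 4) + ENNReal.ofReal (16 * k * c ^ 2) * ENNReal.ofReal (A ^ 2) +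
            ENNReal.ofReal (6 * k * c ^ 4) := by
        intro A
        refine (glayer_site h1 hk0 hk (f := fun y => (A + c * (y - 1)) ^ 4) (by fun_prop)
          (fun y _ => by positivity) (α := 8 * A ^ 2 * c ^ 2 + 3 * c ^ 4)
          (β := A ^ 4 + (8 * A ^ 2 * c ^ 2 + 3 * c ^ 4)) (s := 4 * A ^ 3 * c)
          (by positivity) (by positivity) fun y hy => ?_).trans ?_
        · have h2 := mul_le_mul_of_nonneg_left (glayer_two y hy)
            (by positivity : 0 ≤ 8 * A ^ 2 * c ^ 2)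
          have h4 := mul_le_mul_of_nonneg_left (glayer_four y hy) (by positivity : 0 ≤ 3 * c ^ 4)
          nlinarith [sq_nonneg (A * c * (y - 1) - c ^ 2 * (y - 1) ^ 2)]
        · rw [← ENNReal.ofReal_mul (by positivity), ← ENNReal.ofReal_add (by positivity)
            (by positivity), ← ENNReal.ofReal_add (by positivity) (by positivity)]
          refine ENNReal.ofReal_le_ofReal ?_
          have : 0 ≤ (k - 1) * (8 * A ^ 2 * c ^ 2 + 3 * c ^ 4) :=
            mul_nonneg (by linarith) (by positivity)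
          nlinarith
      refine (lintegral_mono fun ξ => s4 _).trans ?_
      rw [lintegral_add_right _ measurable_const, lintegral_const, measure_univ, mul_one,
        lintegral_add_left ((hm S).pow_const 4).ennreal_ofReal,
        lintegral_const_mul' _ _ ENNReal.ofReal_ne_top]
      refine (add_le_add_left (add_le_add ih.2 (mul_le_mul_right ih.1 _)) _).trans ?_
      rw [← ENNReal.ofReal_mul (by positivity), ← ENNReal.ofReal_add (by positivity)
        (by positivity), ← ENNReal.ofReal_add (by positivity) (by positivity)]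
      refine ENNReal.ofReal_le_ofReal ?_
      have : 0 ≤ (16 * k ^ 2 - 6 * k) * c ^ 4 := mul_nonneg (by nlinarith) (by positivity)
      nlinarith

/-- Centred fourth moment. -/
theorem lay_four {ρ : Measure ℝ≥0} [IsProbabilityMeasure ρ] (h1 : Mean1 ρ) {K : ℝ≥0∞}
    (hK : mom ρ 4 ≤ K) (c : Site d → ℝ≥0∞) (hc : ∑' x, c x ≠ ⊤) :
    ∫⁻ ξ, ENNReal.ofReal (((∑' x, c x * (ξ x : ℝ≥0∞)).toReal - (∑' x, c x).toReal) ^ 4) ∂lay d ρ
      ≤ 32 * K ^ 2 * (∑' x, c x ^ 2) ^ 2 := by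
  have hK1 : 1 ≤ K := by
    have h := jensen_convex ρ (g := fun t : ℝ≥0 => (t : ℝ≥0∞))
      measurable_coe_nnreal_ennreal.aemeasurable (q := 4) (by norm_num)
    rw [h1, ENNReal.one_rpow] at h
    exact h.trans hK
  by_cases hQ : ∑' x, c x ^ 2 = 0
  · have hc' : ∀ x, c x = 0 := fun x => by simpa using ENNReal.tsum_eq_zero.1 hQ x
    simp [hc']
  by_cases hKt : K = ⊤
  · rw [hKt, ENNReal.top_pow (by norm_num), ENNReal.mul_top (by norm_num),
      ENNReal.top_mul (pow_ne_zero _ hQ)]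
    exact le_top
  have hct : ∀ x, c x ≠ ⊤ := fun x => ne_top_of_le_ne_top hc (ENNReal.le_tsum x)
  have hk1 : 1 ≤ K.toReal := by
    simpa using ENNReal.toReal_mono hKt hK1
  have hfin := fun S => (glayer_fin h1 hk1 (by rwa [ENNReal.ofReal_toReal hKt])
    (fun x => (c x).toReal) S).2
  have hm : ∀ S : Finset (Site d), Measurable fun ξ : Layer d =>
      ENNReal.ofReal ((∑ x ∈ S, (c x).toReal * ((ξ x : ℝ) - 1)) ^ 4) :=
    fun S => ((Finset.measurable_sum S fun x _ => by fun_prop).pow_const 4).ennreal_ofReal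
  have hlim : ∀ᵐ ξ ∂lay d ρ,
      ENNReal.ofReal (((∑' x, c x * (ξ x : ℝ≥0∞)).toReal - (∑' x, c x).toReal) ^ 4) =
        liminf (fun S : Finset (Site d) =>
          ENNReal.ofReal ((∑ x ∈ S, (c x).toReal * ((ξ x : ℝ) - 1)) ^ 4)) atTop := by
    filter_upwards [glayer_ae h1 c hc] with ξ h
    have a1 := ENNReal.hasSum_toReal h
    have a2 := ENNReal.hasSum_toReal hc
    rw [← ENNReal.tsum_toReal_eq fun x => ENNReal.mul_ne_top (hct x) ENNReal.coe_ne_top] at a1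
    rw [← ENNReal.tsum_toReal_eq hct] at a2
    have a3 : Tendsto (fun S : Finset (Site d) => ∑ x ∈ S, (c x).toReal * ((ξ x : ℝ) - 1)) atTop
        (𝓝 ((∑' x, c x * (ξ x : ℝ≥0∞)).toReal - (∑' x, c x).toReal)) := by
      have := a1.sub a2
      simp only [ENNReal.toReal_mul, ENNReal.coe_toReal, ← mul_sub_one] at this
      exact this
    exact (ENNReal.tendsto_ofReal (a3.pow 4)).liminf_eq.symm
  rw [lintegral_congr_ae hlim]
  refine (lintegral_liminf_le hm).trans (liminf_le_of_frequently_le' (Frequently.of_forall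
    fun S => (hfin S).trans ?_))
  rw [ENNReal.ofReal_mul (by positivity), ENNReal.ofReal_mul (by positivity),
    ENNReal.ofReal_pow ENNReal.toReal_nonneg, ENNReal.ofReal_toReal hKt,
    ENNReal.ofReal_pow (Finset.sum_nonneg fun x _ => sq_nonneg _),
    ENNReal.ofReal_sum_of_nonneg fun x _ => sq_nonneg _]
  simp only [ENNReal.ofReal_pow ENNReal.toReal_nonneg, ENNReal.ofReal_toReal (hct _)]
  gcongr
  · rw [ENNReal.ofReal_ofNat]; norm_num
  · exact ENNReal.sum_le_tsum S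

theorem glayer_four_mul {ρ : Measure ℝ≥0} [IsProbabilityMeasure ρ] (h1 : Mean1 ρ) {k : ℝ}
    (hk0 : 0 ≤ k) (hk : mom ρ 4 ≤ ENNReal.ofReal k) (c : Site d → ℝ≥0∞) {t : ℝ} (ht : 0 ≤ t)
    (hc : ∑' x, c x ≤ ENNReal.ofReal t) {θ : ℝ} (hθ : 0 ≤ θ) :
    ∫⁻ ξ, ENNReal.ofReal
      (θ * ((∑' x, c x * (ξ x : ℝ≥0∞)).toReal - (∑' x, c x).toReal) ^ 4) ∂lay d ρ
      ≤ ENNReal.ofReal (θ * (32 * k ^ 2 * t ^ 2)) * ∑' x, c x ^ 2 := by
  simp only [ENNReal.ofReal_mul hθ]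
  rw [lintegral_const_mul' _ _ ENNReal.ofReal_ne_top, mul_assoc]
  refine mul_le_mul_right ((lay_four h1 hk c
    (ne_top_of_le_ne_top ENNReal.ofReal_ne_top hc)).trans ?_) _
  rw [ENNReal.ofReal_mul (by positivity), ENNReal.ofReal_mul (by positivity),
    ENNReal.ofReal_pow hk0, ENNReal.ofReal_pow ht, ENNReal.ofReal_ofNat, sq (∑' x, c x ^ 2),
    ← mul_assoc]
  gcongr
  exact (glayer_sq_le c).trans (by gcongr)

/-- Lower second order bound for one layer. -/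
theorem lay_low (hd : 3 ≤ d) {κ M : ℝ} (hκ : 0 < κ) : ∃ C : ℝ, 1 ≤ C ∧
    ∀ (ρ : Measure ℝ≥0) [IsProbabilityMeasure ρ], Good d κ M ρ →
      ∀ p : ℝ, 1 + 1 / d ≤ p → p ≤ 2 → ∀ (a : ℝ≥0∞) (c : Site d → ℝ≥0∞),
        (a + ∑' x, c x) ^ p + ENNReal.ofReal C⁻¹ * ∑' x, vf p (a + ∑' y, c y) (c x) ≤
          ∫⁻ ξ, (a + ∑' x, c x * (ξ x : ℝ≥0∞)) ^ p ∂lay d ρ := by
  set g := (gsum d).toReal with hg
  have hg0 : 0 ≤ g := ENNReal.toReal_nonneg
  set N := 1 + 256 * M ^ 2 * g with hN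
  have hN1 : 1 ≤ N := by rw [hN]; nlinarith [mul_nonneg (sq_nonneg M) hg0]
  have hd' : (3 : ℝ) ≤ d := by exact_mod_cast hd
  refine ⟨1 + 4 * d * (N + 2) * g, by nlinarith [mul_nonneg (by positivity : 0 ≤ 4 * (d : ℝ) * (N + 2)) hg0],
    fun ρ _ hρ p hp1 hp2 a c => ?_⟩
  obtain ⟨hM, hmom, -, hχ', hgp⟩ := hρ.basic hd hκ
  obtain ⟨h1, -, -, χ, hχ, -⟩ := hρ
  rw [← hg] at hχ' hgp
  have hχg : ENNReal.ofReal g⁻¹ ≤ χ := by
    rw [hχ] at hχ'
    exact (ENNReal.add_le_add_iff_left ENNReal.one_ne_top).1 hχ'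
  have hdp : (0 : ℝ) < 1 / d := by positivity
  have hp : 1 ≤ p := by linarith
  have hp0 : 0 < p := by linarith
  by_cases ht : a + ∑' x, c x = ⊤
  · have h := jensen_convex (lay d ρ) (g := fun ξ => a + ∑' x, c x * (ξ x : ℝ≥0∞))
      (measurable_const.add (measurable_lin c)).aemeasurable hp
    rw [lintegral_add_left measurable_const, lintegral_lin h1 c, lintegral_const, measure_univ,
      mul_one, ht, ENNReal.top_rpow_of_pos hp0] at h
    exact le_top.trans h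
  by_cases h0 : a + ∑' x, c x = 0
  · obtain ⟨ha, hc⟩ := add_eq_zero.1 h0
    have hc' : ∀ x, c x = 0 := ENNReal.tsum_eq_zero.1 hc
    simp [ha, hc', ENNReal.zero_rpow_of_pos hp0, vf]
  obtain ⟨ha, hc⟩ := ENNReal.add_ne_top.1 ht
  rw [glayer_vf p h0 ht]
  set m := ∑' x, c x with hm
  set S := (a + m).toReal with hSd
  have hS : 0 < S := ENNReal.toReal_pos h0 ht
  have hSe : S = a.toReal + m.toReal := ENNReal.toReal_add ha hc
  set θ := (p - 1) / 2 * (S ^ (p - 2) / (N + 2)) with hθ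
  have hθ0 : 0 ≤ θ := mul_nonneg (by linarith) (by positivity)
  have k := glayer_key (lay d ρ) (measurable_lin c) (lintegral_lin h1 c) hc
    (f := fun y => θ * (y - m.toReal) ^ 2)
    (g := fun y => (a.toReal + y) ^ p + θ / (N * S) ^ 2 * (y - m.toReal) ^ 4)
    (by fun_prop) (by fun_prop) (fun y _ => by positivity) (fun y _ => by positivity)
    (a := S ^ p) (b := 0) (s := -(p * S ^ (p - 1))) (by positivity) le_rfl fun y hy => by
      have hx : 0 ≤ a.toReal + y := by positivity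
      have e : a.toReal + y - S = y - m.toReal := by rw [hSe]; ring
      have h2 := Lam_le_br hp hp2 hS hx
      have h3 := br_nonneg hp hS.le hx
      unfold br Lam at h2
      unfold br at h3
      rw [e] at h2 h3
      rw [← hm]
      set D := y - m.toReal with hD
      by_cases hc : D ≤ N * S
      · have h4 : a.toReal + y + S ≤ (N + 2) * S := by linarith
        have h5 : ((N + 2) * S) ^ (p - 2) ≤ (a.toReal + y + S) ^ (p - 2) :=
          Real.rpow_le_rpow_of_nonpos (by positivity) h4 (by linarith)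
        have h6 : (N + 2)⁻¹ ≤ (N + 2) ^ (p - 2) := by
          rw [← Real.rpow_neg_one]
          exact Real.rpow_le_rpow_of_exponent_le (by linarith) (by linarith)
        rw [Real.mul_rpow (by positivity) hS.le] at h5
        have h7 : S ^ (p - 2) / (N + 2) ≤ (a.toReal + y + S) ^ (p - 2) := by
          rw [div_eq_inv_mul]
          exact (mul_le_mul_of_nonneg_right h6 (by positivity)).trans h5
        have h8 : θ * D ^ 2 ≤ (p - 1) / 2 * (D ^ 2 * (a.toReal + y + S) ^ (p - 2)) := by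
          rw [hθ, mul_assoc, mul_comm _ (D ^ 2)]
          exact mul_le_mul_of_nonneg_left (mul_le_mul_of_nonneg_left h7 (sq_nonneg _))
            (by linarith)
        have h9 : 0 ≤ θ / (N * S) ^ 2 * D ^ 4 := by positivity
        linarith
      · have h4 : (N * S) ^ 2 ≤ D ^ 2 := by
          have : 0 ≤ N * S := by positivity
          gcongr
          linarith
        have h5 : θ * D ^ 2 ≤ θ / (N * S) ^ 2 * D ^ 4 := by
          rw [div_mul_eq_mul_div, le_div_iff₀ (by positivity)]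
          calc θ * D ^ 2 * (N * S) ^ 2 ≤ θ * D ^ 2 * D ^ 2 := by gcongr
            _ = θ * D ^ 4 := by ring
        linarith
  have k4 := glayer_four_mul h1 (by linarith) (hmom 4 (by norm_num) (by norm_num)) c hS.le
    (by rw [hSd, ENNReal.ofReal_toReal ht]; exact le_add_self)
    (θ := θ / (N * S) ^ 2) (by positivity)
  have k5 : ∫⁻ ξ, ENNReal.ofReal ((a.toReal + (∑' x, c x * (ξ x : ℝ≥0∞)).toReal) ^ p +
      θ / (N * S) ^ 2 * ((∑' x, c x * (ξ x : ℝ≥0∞)).toReal - m.toReal) ^ 4) ∂lay d ρ ≤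
      ∫⁻ ξ, (a + ∑' x, c x * (ξ x : ℝ≥0∞)) ^ p ∂lay d ρ +
        ENNReal.ofReal (θ * g⁻¹ / 2) * ∑' x, c x ^ 2 := by
    refine (lintegral_mono fun ξ => ENNReal.ofReal_add_le).trans ?_
    have hme : Measurable fun ξ : Layer d =>
        ENNReal.ofReal ((a.toReal + (∑' x, c x * (ξ x : ℝ≥0∞)).toReal) ^ p) :=
      ((measurable_const.add (measurable_lin c).ennreal_toReal).pow_const p).ennreal_ofReal
    rw [lintegral_add_left hme, glayer_pow h1 hp0.le ha c hc]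
    refine add_le_add_right (k4.trans (mul_le_mul_left (ENNReal.ofReal_le_ofReal ?_) _)) _
    have e : θ / (N * S) ^ 2 * (32 * (2 * M) ^ 2 * S ^ 2) = θ * (128 * M ^ 2 / N ^ 2) := by
      field_simp; ring
    rw [e, mul_div_assoc θ]
    refine mul_le_mul_of_nonneg_left ?_ hθ0
    rw [div_le_div_iff₀ (by positivity) (by positivity), ← sub_nonneg]
    have e2 : g⁻¹ * N ^ 2 - 128 * M ^ 2 * 2 = g⁻¹ * (N ^ 2 - 256 * M ^ 2 * g) := by
      field_simp; ring
    rw [e2]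
    exact mul_nonneg (by positivity) (by nlinarith)
  rw [glayer_var_mul h1 hχ c hc hθ0, ENNReal.ofReal_zero, add_zero,
    ← ENNReal.ofReal_rpow_of_nonneg hS.le hp0.le, hSd, ENNReal.ofReal_toReal ht] at k
  have hQt : ∑' x, c x ^ 2 ≠ ⊤ := ne_top_of_le_ne_top (ENNReal.pow_ne_top hc) (glayer_sq_le c)
  set Q := ∑' x, c x ^ 2
  have k6 : (a + m) ^ p + ENNReal.ofReal (θ * g⁻¹ / 2) * Q + ENNReal.ofReal (θ * g⁻¹ / 2) * Q ≤
      ENNReal.ofReal θ * (χ * Q) + (a + m) ^ p := by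
    rw [add_assoc, ← add_mul, ← ENNReal.ofReal_add (by positivity) (by positivity), add_halves,
      ENNReal.ofReal_mul hθ0, add_comm, mul_assoc]
    gcongr
  have k7 := (ENNReal.add_le_add_iff_right (ENNReal.mul_ne_top ENNReal.ofReal_ne_top hQt)).1
    (k6.trans (k.trans k5))
  refine le_trans (add_le_add_right ?_ _) k7
  rw [← mul_assoc, ← ENNReal.ofReal_mul (by positivity)]
  refine mul_le_mul_left (ENNReal.ofReal_le_ofReal ?_) _
  have e3 : θ * g⁻¹ / 2 = (p - 1) * (4 * (N + 2) * g)⁻¹ * S ^ (p - 2) := by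
    rw [hθ]; field_simp; ring
  rw [e3]
  refine mul_le_mul_of_nonneg_right ?_ (by positivity)
  calc (1 + 4 * d * (N + 2) * g)⁻¹ ≤ (4 * d * (N + 2) * g)⁻¹ :=
        inv_anti₀ (by positivity) (by linarith)
    _ = 1 / d * (4 * (N + 2) * g)⁻¹ := by field_simp
    _ ≤ _ := mul_le_mul_of_nonneg_right (by linarith) (by positivity)

/-- Overshoot bound. -/
theorem T_over (hd : 3 ≤ d) {κ M : ℝ} (hκ : 0 < κ) : ∃ C : ℝ, 1 ≤ C ∧
    ∀ (ρ : Measure ℝ≥0) [IsProbabilityMeasure ρ], Good d κ M ρ →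
      ∀ A t : ℝ, 2 ≤ A → 0 < t → ∀ f : Prof d, mass f ≤ ENNReal.ofReal t →
        T ρ ((lev d (A * t)).indicator (mq 2)) f ≤ ENNReal.ofReal (C / A) * nq 2 (avg f) := by
  refine ⟨1 + 2048 * M ^ 2, by nlinarith [sq_nonneg M], fun ρ _ hρ A t hA ht f hf => ?_⟩
  obtain ⟨hM, hmom, -, -, -⟩ := hρ.basic hd hκ
  have h1 := hρ.1
  have hc : ∑' x, avg f x ≤ ENNReal.ofReal t := (mass_avg (by omega) f).le.trans hf
  have hct : ∑' x, avg f x ≠ ⊤ := ne_top_of_le_ne_top ENNReal.ofReal_ne_top hc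
  have hm : (∑' x, avg f x).toReal ≤ t := ENNReal.toReal_le_of_le_ofReal ht.le hc
  have k4 := glayer_four_mul h1 (by linarith) (hmom 4 (by norm_num) (by norm_num)) (avg f) ht.le
    hc (θ := 16 / (A * t) ^ 2) (by positivity)
  have hA0 : 0 < A := by linarith
  refine le_trans (lintegral_mono_ae ?_) (k4.trans ?_)
  · filter_upwards [glayer_ae h1 (avg f) hct] with ξ h
    by_cases hξ : step f ξ ∈ lev d (A * t)
    · rw [Set.indicator_of_mem hξ, mq, mass_step, ENNReal.rpow_two]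
      have h2 : ENNReal.ofReal (A * t) ≤ mass (step f ξ) := hξ
      rw [mass_step] at h2
      have h3 := (ENNReal.ofReal_le_iff_le_toReal h).1 h2
      rw [← ENNReal.ofReal_toReal h, ← ENNReal.ofReal_pow ENNReal.toReal_nonneg,
        ENNReal.toReal_ofReal ENNReal.toReal_nonneg]
      refine ENNReal.ofReal_le_ofReal ?_
      set y := (∑' x, avg f x * (ξ x : ℝ≥0∞)).toReal
      set m := (∑' x, avg f x).toReal
      have h4 : 2 * t ≤ A * t := by gcongr
      have h5 : y ^ 2 ≤ (2 * (y - m)) ^ 2 := by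
        have : 0 ≤ y := ENNReal.toReal_nonneg
        exact pow_le_pow_left₀ this (by linarith) 2
      have h6 : (A * t) ^ 2 ≤ (2 * (y - m)) ^ 2 :=
        pow_le_pow_left₀ (by positivity) (by linarith) 2
      rw [div_mul_eq_mul_div, le_div_iff₀ (by positivity)]
      calc y ^ 2 * (A * t) ^ 2 ≤ (2 * (y - m)) ^ 2 * (2 * (y - m)) ^ 2 := by gcongr
        _ = 16 * (y - m) ^ 4 := by ring
    · rw [Set.indicator_of_notMem hξ]
      exact zero_le
  · simp only [nq, ENNReal.rpow_two]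
    refine mul_le_mul_left (ENNReal.ofReal_le_ofReal ?_) _
    have e : 16 / (A * t) ^ 2 * (32 * (2 * M) ^ 2 * t ^ 2) = 2048 * M ^ 2 / A / A := by
      field_simp; ring
    rw [e]
    refine div_le_div_of_nonneg_right ?_ hA0.le
    have : 2048 * M ^ 2 / A ≤ 2048 * M ^ 2 := div_le_self (by positivity) (by linarith)
    linarith

/-- One layer bound for `Lam`. -/
theorem lay_Lam {ρ : Measure ℝ≥0} [IsProbabilityMeasure ρ] (h1 : Mean1 ρ) {χ : ℝ≥0∞}
    (hχ : mom ρ 2 = 1 + χ) (hχt : χ ≠ ⊤) {p S : ℝ} (hp : 1 ≤ p) (hp2 : p ≤ 2) (hS : 0 < S)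
    (c : Site d → ℝ≥0∞) (hc : ∑' x, c x ≠ ⊤) :
    ∫⁻ ξ, ENNReal.ofReal (Lam p S (∑' x, c x * (ξ x : ℝ≥0∞)).toReal) ∂lay d ρ ≤
      ENNReal.ofReal (Lam p S (∑' x, c x).toReal) +
        64 * χ * ∑' x, vf p (ENNReal.ofReal S + ∑' y, c y) (c x) := by
  have _h := hχt
  set m := ∑' x, c x with hm
  have hm0 : 0 ≤ m.toReal := ENNReal.toReal_nonneg
  obtain ⟨s, hs⟩ := Lam_expand hp hp2 hS hm0
  have k := glayer_key (lay d ρ) (measurable_lin c) (lintegral_lin h1 c) hc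
    (f := Lam p S) (g := fun y => 64 * (m.toReal + S) ^ (p - 2) * (y - m.toReal) ^ 2)
    (by unfold Lam; fun_prop) (by fun_prop) (fun y hy => Lam_nonneg hS.le hy)
    (fun y _ => by positivity) (a := 0) (b := Lam p S m.toReal) (s := s) le_rfl
    (Lam_nonneg hS.le hm0) fun y hy => by
      have := hs y hy
      rw [← hm]
      linarith
  rw [glayer_var_mul h1 hχ c hc (by positivity), ENNReal.ofReal_zero, add_zero] at k
  rw [glayer_vf p (by simp [hS]) (ENNReal.add_ne_top.2 ⟨ENNReal.ofReal_ne_top, hc⟩),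
    ENNReal.toReal_add ENNReal.ofReal_ne_top hc, ENNReal.toReal_ofReal hS.le, add_comm S, add_comm]
  refine k.trans (le_of_eq ?_)
  rw [ENNReal.ofReal_mul (by norm_num), ENNReal.ofReal_ofNat]
  ring

theorem glayer_support {g : ℝ → ℝ} (hg : ConvexOn ℝ (Set.Ici 0) g) {m : ℝ} (hm : 0 < m) :
    ∃ s : ℝ, ∀ y, 0 ≤ y → g m + s * (y - m) ≤ g y := by
  set A : Set ℝ := (fun y => (g m - g y) / (m - y)) '' Set.Ico 0 m with hA
  have hub : ∀ z, m < z → (g z - g m) / (z - m) ∈ upperBounds A := by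
    rintro z hz _ ⟨y, hy, rfl⟩
    exact hg.slope_mono_adjacent hy.1 (hm.trans hz).le hy.2 hz
  have hne : A.Nonempty := ⟨_, 0, ⟨le_rfl, hm⟩, rfl⟩
  refine ⟨sSup A, fun y hy => ?_⟩
  rcases lt_trichotomy y m with h | rfl | h
  · have h1 : (g m - g y) / (m - y) ≤ sSup A :=
      le_csSup ⟨_, hub (m + 1) (by linarith)⟩ ⟨y, ⟨hy, h⟩, rfl⟩
    rw [div_le_iff₀ (by linarith)] at h1
    linarith
  · simp
  · have h1 : sSup A ≤ (g y - g m) / (y - m) := csSup_le hne (hub y h)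
    rw [le_div_iff₀ (by linarith)] at h1
    linarith

/-- Jensen for a convex payoff of a linear form. -/
theorem lay_jensen_pay {ρ : Measure ℝ≥0} [IsProbabilityMeasure ρ] (h1 : Mean1 ρ) {g : ℝ → ℝ}
    (hg : ConvexOn ℝ (Set.Ici 0) g) (hm : Measurable g) (h0 : ∀ x, 0 ≤ x → 0 ≤ g x)
    (c : Site d → ℝ≥0∞) (hc : ∑' x, c x ≠ ⊤) :
    lift g (∑' x, c x) ≤ ∫⁻ ξ, lift g (∑' x, c x * (ξ x : ℝ≥0∞)) ∂lay d ρ := by
  by_cases hz : ∑' x, c x = 0
  · have hc' : ∀ x, c x = 0 := ENNReal.tsum_eq_zero.1 hz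
    simp [hc']
  obtain ⟨s, hs⟩ := glayer_support hg (ENNReal.toReal_pos hz hc)
  have k := glayer_key (lay d ρ) (measurable_lin c) (lintegral_lin h1 c) hc
    (f := fun _ => 0) (g := g) measurable_const hm (fun _ _ => le_rfl) h0
    (a := g (∑' x, c x).toReal) (b := 0) (s := -s) (h0 _ ENNReal.toReal_nonneg) le_rfl
    fun y hy => by linarith [hs y hy]
  simp only [ENNReal.ofReal_zero, lintegral_zero, zero_add, add_zero] at k
  rw [lift, if_neg hc]
  refine k.trans (lintegral_mono fun ξ => ?_)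
  unfold lift
  split_ifs
  · exact le_top
  · exact le_rfl

theorem glayer_cover (ρ : Measure ℝ≥0) {u R η : ℝ} (hu : 1 ≤ u) (hR : u ≤ R) (hη : 0 < η)
    (hη1 : η ≤ 1) {e : ℝ} (he : 0 ≤ e)
    (h : ∀ a : ℝ≥0, u ≤ (a : ℝ) → (a : ℝ) ≤ R →
      ρ {t | (a : ℝ) ≤ t ∧ (t : ℝ) ≤ a * (1 + η)} ≤ ENNReal.ofReal (e * η)) :
    ρ {t | u ≤ (t : ℝ) ∧ (t : ℝ) ≤ R} ≤ ENNReal.ofReal (e * R) := by
  set J := ⌊(R - u) / η⌋₊ with hJ
  have hJ0 : 0 ≤ (R - u) / η := div_nonneg (by linarith) hη.le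
  have hJ1 : (J : ℝ) * η ≤ R - u := (le_div_iff₀ hη).1 (Nat.floor_le hJ0)
  let a : ℕ → ℝ≥0 := fun j => ⟨u + j * η, by positivity⟩
  have hsub : {t : ℝ≥0 | u ≤ (t : ℝ) ∧ (t : ℝ) ≤ R} ⊆
      ⋃ j ∈ Finset.range (J + 1), {t : ℝ≥0 | (a j : ℝ) ≤ t ∧ (t : ℝ) ≤ a j * (1 + η)} := by
    rintro t ⟨h1, h2⟩
    have h3 : 0 ≤ ((t : ℝ) - u) / η := div_nonneg (by linarith) hη.le
    have h4 := (le_div_iff₀ hη).1 (Nat.floor_le h3)
    have h5 := (div_lt_iff₀ hη).1 (Nat.lt_floor_add_one (((t : ℝ) - u) / η))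
    have h6 : ⌊((t : ℝ) - u) / η⌋₊ ≤ J := Nat.floor_le_floor (by gcongr)
    simp only [Set.mem_iUnion, Finset.mem_range]
    refine ⟨⌊((t : ℝ) - u) / η⌋₊, by omega, ?_, ?_⟩
    · change u + _ * η ≤ (t : ℝ)
      linarith
    · change (t : ℝ) ≤ (u + _ * η) * (1 + η)
      have : 0 ≤ (⌊((t : ℝ) - u) / η⌋₊ : ℝ) * η * η := by positivity
      nlinarith
  refine (measure_mono hsub).trans ((measure_biUnion_finset_le _ _).trans ?_)
  refine (Finset.sum_le_card_nsmul _ _ (ENNReal.ofReal (e * η)) fun j hj => h _ ?_ ?_).trans ?_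
  · change u ≤ u + j * η
    have : 0 ≤ (j : ℝ) * η := by positivity
    linarith
  · change u + j * η ≤ R
    have h1 : (j : ℝ) ≤ J := by exact_mod_cast Nat.lt_succ_iff.1 (Finset.mem_range.1 hj)
    nlinarith
  · rw [Finset.card_range, nsmul_eq_mul, ← ENNReal.ofReal_natCast,
      ← ENNReal.ofReal_mul (by positivity)]
    refine ENNReal.ofReal_le_ofReal ?_
    push_cast
    have : ((J : ℝ) + 1) * η ≤ R := by linarith
    nlinarith

/-- A narrow window above one has positive probability. -/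
theorem window (hd : 3 ≤ d) {κ M : ℝ} (hκ : 0 < κ) : ∃ c : ℝ, 0 < c ∧ c ≤ 1 ∧
    ∀ (ρ : Measure ℝ≥0) [IsProbabilityMeasure ρ], Good d κ M ρ → ∀ η : ℝ, 0 < η → η ≤ 1 →
      ∃ a : ℝ≥0, 1 + c ≤ (a : ℝ) ∧ (a : ℝ) ≤ c⁻¹ ∧
        ENNReal.ofReal (c * η) ≤ ρ {t | (a : ℝ) ≤ t ∧ (t : ℝ) ≤ a * (1 + η)} := by
  by_cases hex : 1 ≤ M ∧ 0 < (gsum d).toReal
  swap
  · refine ⟨1, one_pos, le_rfl, fun ρ _ hρ => ?_⟩
    obtain ⟨hM, -, -, -, hg⟩ := hρ.basic hd hκ
    exact absurd ⟨hM, hg⟩ hex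
  obtain ⟨hM, hg⟩ := hex
  set γ := (gsum d).toReal⁻¹ with hγ
  have hγ0 : 0 < γ := inv_pos.2 hg
  obtain ⟨b, hb0, hb1, hb2⟩ : ∃ b : ℝ, 0 < b ∧ b ≤ 1 / 2 ∧ 8 * M * b ≤ γ := by
    refine ⟨min (1 / 2) (γ / (8 * M)), by positivity, min_le_left _ _, ?_⟩
    have := min_le_right (1 / 2) (γ / (8 * M))
    rw [le_div_iff₀ (by positivity)] at this
    linarith
  refine ⟨min b (b ^ 3 * γ / 4), by positivity, (min_le_left _ _).trans (by linarith),
    fun ρ _ hρ η hη hη1 => ?_⟩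
  obtain ⟨-, hmom, -, hχ, -⟩ := hρ.basic hd hκ
  have h1 := hρ.1
  set c := min b (b ^ 3 * γ / 4) with hc
  have hc0 : 0 < c := by positivity
  have hcb : c ≤ b := min_le_left _ _
  have hcb' : c ≤ b ^ 3 * γ / 4 := min_le_right _ _
  have hR : 2 ≤ b⁻¹ := by rw [le_inv_comm₀ two_pos hb0]; linarith
  by_contra hcon
  push Not at hcon
  have hP := glayer_cover ρ (u := 1 + b) (R := b⁻¹) (by linarith) (by linarith) hη hη1 hc0.le
    fun a h2 h3 => (hcon a (by linarith) (h3.trans (inv_anti₀ hc0 hcb))).le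
  set W : Set ℝ := {y | 1 + b ≤ y ∧ y ≤ b⁻¹} with hW
  have hWm : MeasurableSet W := measurableSet_Icc
  have k := glayer_key ρ measurable_coe_nnreal_ennreal h1 ENNReal.one_ne_top
    (f := fun y => y ^ 2) (g := fun y => W.indicator (fun _ => b⁻¹ ^ 2) y + b ^ 2 * y ^ 4)
    (by fun_prop) ((measurable_const.indicator hWm).add (by fun_prop)) (fun y _ => sq_nonneg _)
    (fun y _ => add_nonneg (Set.indicator_nonneg (fun _ _ => by positivity) _) (by positivity))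
    (a := 0) (b := 1 + 2 * b) (s := 1) le_rfl (by positivity) fun y hy => by
      simp only [ENNReal.toReal_one]
      have h4 : 0 ≤ b ^ 2 * y ^ 4 := by positivity
      by_cases hy' : y ∈ W
      · rw [Set.indicator_of_mem hy']
        have : y ^ 2 ≤ b⁻¹ ^ 2 := by gcongr; exact hy'.2
        linarith
      · rw [Set.indicator_of_notMem hy']
        rcases not_and_or.1 hy' with h | h
        · push Not at h
          nlinarith
        · push Not at h
          have h5 : 1 ≤ b * y := by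
            have := mul_lt_mul_of_pos_left h hb0
            rw [mul_inv_cancel₀ hb0.ne'] at this
            exact this.le
          have h6 : 1 ≤ (b * y) ^ 2 := one_le_pow₀ h5
          nlinarith [mul_le_mul_of_nonneg_left h6 (sq_nonneg y)]
  simp only [ENNReal.coe_toReal, ENNReal.ofReal_zero, add_zero] at k
  have e2 : ∫⁻ t : ℝ≥0, ENNReal.ofReal ((t : ℝ) ^ 2) ∂ρ = mom ρ 2 := by
    refine lintegral_congr fun t => ?_
    rw [ENNReal.ofReal_pow t.coe_nonneg, ENNReal.rpow_two]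
    simp
  have k1 : ∫⁻ t : ℝ≥0, ENNReal.ofReal (W.indicator (fun _ => b⁻¹ ^ 2) (t : ℝ)) ∂ρ ≤
      ENNReal.ofReal (γ / 4) := by
    have e : ∀ t : ℝ≥0, ENNReal.ofReal (W.indicator (fun _ => b⁻¹ ^ 2) (t : ℝ)) =
        {t : ℝ≥0 | 1 + b ≤ (t : ℝ) ∧ (t : ℝ) ≤ b⁻¹}.indicator
          (fun _ => ENNReal.ofReal (b⁻¹ ^ 2)) t := by
      intro t
      by_cases ht : (t : ℝ) ∈ W
      · rw [Set.indicator_of_mem ht,
          Set.indicator_of_mem (s := {t : ℝ≥0 | 1 + b ≤ (t : ℝ) ∧ (t : ℝ) ≤ b⁻¹}) ht]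
      · rw [Set.indicator_of_notMem ht,
          Set.indicator_of_notMem (s := {t : ℝ≥0 | 1 + b ≤ (t : ℝ) ∧ (t : ℝ) ≤ b⁻¹}) ht,
          ENNReal.ofReal_zero]
    simp only [e]
    refine (lintegral_indicator_const_le _ _).trans ((mul_le_mul_right hP _).trans ?_)
    rw [← ENNReal.ofReal_mul (by positivity)]
    refine ENNReal.ofReal_le_ofReal ?_
    calc b⁻¹ ^ 2 * (c * b⁻¹) ≤ b⁻¹ ^ 2 * (b ^ 3 * γ / 4 * b⁻¹) := by gcongr
      _ = γ / 4 := by field_simp
  have k2 := glayer_site h1 (by linarith) (hmom 4 (by norm_num) (by norm_num))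
    (f := fun y => b ^ 2 * y ^ 4) (by fun_prop) (fun y _ => by positivity) (α := b ^ 2) (β := 0)
    (s := 0) (by positivity) le_rfl fun y _ => by simp
  have k3 : ∫⁻ t : ℝ≥0, ENNReal.ofReal
      (W.indicator (fun _ => b⁻¹ ^ 2) (t : ℝ) + b ^ 2 * (t : ℝ) ^ 4) ∂ρ ≤
      ENNReal.ofReal (γ / 4) + ENNReal.ofReal (b ^ 2 * (2 * M) + 0) := by
    refine (lintegral_mono fun t => ENNReal.ofReal_add_le).trans ?_
    rw [lintegral_add_right _ (by fun_prop)]
    exact add_le_add k1 k2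
  have k4 := hχ.trans (e2 ▸ k.trans (add_le_add_left k3 _))
  rw [← ENNReal.ofReal_one, ← ENNReal.ofReal_add zero_le_one hγ0.le,
    ← ENNReal.ofReal_add (by positivity) (by positivity),
    ← ENNReal.ofReal_add (by positivity) (by positivity),
    ENNReal.ofReal_le_ofReal_iff (by positivity)] at k4
  nlinarith [mul_le_mul_of_nonneg_left hb1 (by positivity : 0 ≤ M * b),
    mul_le_mul_of_nonneg_right hM hb0.le]

end Pool.Agent.Lib.MP_153faa_pr
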