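import Mathlib
import Pool.Agent.Lib.MP_153faa_pr.GNice

/-!
Least solutions of the stopped equation `X = F` on `S`, `X = G + c T X` off `S`.
-/

set_option autoImplicit false

open MeasureTheory Filter Topology
open scoped ENNReal NNReal

namespace Pool.Agent.Lib.MP_153faa_pr

variable {d : ℕ}

open Classical in
/-- Approximations of the least solution. -/
noncomputable def gres1Ln (ρ : Measure ℝ≥0) [IsProbabilityMeasure ρ] (c : ℝ≥0∞)
    (S : Set (Prof d)) (F G : Prof d → ℝ≥0∞) : ℕ → Prof d → ℝ≥0∞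
  | 0, f => if f ∈ S then F f else 0
  | n + 1, f => if f ∈ S then F f else G f + c * T ρ (gres1Ln ρ c S F G n) f

/-- The least solution. -/
noncomputable def gres1L (ρ : Measure ℝ≥0) [IsProbabilityMeasure ρ] (c : ℝ≥0∞)
    (S : Set (Prof d)) (F G : Prof d → ℝ≥0∞) (f : Prof d) : ℝ≥0∞ :=
  ⨆ n, gres1Ln ρ c S F G n f

variable {ρ : Measure ℝ≥0} [IsProbabilityMeasure ρ] {c : ℝ≥0∞} {S : Set (Prof d)}
  {F G : Prof d → ℝ≥0∞}

theorem gres1_Ln_mem (n : ℕ) {f : Prof d} (hf : f ∈ S) : gres1Ln ρ c S F G n f = F f := by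
  cases n <;> simp [gres1Ln, hf]

theorem gres1_Ln_zero {f : Prof d} (hf : f ∉ S) : gres1Ln ρ c S F G 0 f = 0 := by
  simp [gres1Ln, hf]

theorem gres1_Ln_succ (n : ℕ) {f : Prof d} (hf : f ∉ S) :
    gres1Ln ρ c S F G (n + 1) f = G f + c * T ρ (gres1Ln ρ c S F G n) f := by
  simp [gres1Ln, hf]

theorem gres1_Un_eq (l : ℝ) (R : Prof d → ℝ≥0∞) (n : ℕ) : Un ρ l S F R n =
    gres1Ln ρ (ENNReal.ofReal (1 - l)) S F (fun g => ENNReal.ofReal l * R g) n := by
  induction n with
  | zero => funext f; simp only [Un, gres1Ln]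
  | succ n ih => funext f; simp only [Un, gres1Ln, ih]

theorem gres1_U_eq (l : ℝ) (R : Prof d → ℝ≥0∞) : U ρ l S F R =
    gres1L ρ (ENNReal.ofReal (1 - l)) S F (fun g => ENNReal.ofReal l * R g) := by
  funext f; simp only [U, gres1L, gres1_Un_eq]

theorem gres1_U_zero (l : ℝ) : U ρ l S F (fun _ => 0) =
    gres1L ρ (ENNReal.ofReal (1 - l)) S F (fun _ => 0) := by
  rw [gres1_U_eq]; simp only [mul_zero]

theorem gres1_meas_Ln (hS : MeasurableSet S) (hF : Measurable F) (hG : Measurable G) (n : ℕ) :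
    Measurable (gres1Ln ρ c S F G n) := by
  induction n with
  | zero => exact Measurable.ite hS hF measurable_const
  | succ n ih => exact Measurable.ite hS hF (hG.add ((measurable_T ih).const_mul c))

theorem gres1_meas (hS : MeasurableSet S) (hF : Measurable F) (hG : Measurable G) :
    Measurable (gres1L ρ c S F G) :=
  Measurable.iSup fun n => gres1_meas_Ln hS hF hG n

theorem gres1_Ln_le_succ (n : ℕ) (f : Prof d) :
    gres1Ln ρ c S F G n f ≤ gres1Ln ρ c S F G (n + 1) f := by
  induction n generalizing f with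
  | zero =>
    by_cases hf : f ∈ S
    · rw [gres1_Ln_mem _ hf, gres1_Ln_mem _ hf]
    · rw [gres1_Ln_zero hf]; exact zero_le
  | succ n ih =>
    by_cases hf : f ∈ S
    · rw [gres1_Ln_mem _ hf, gres1_Ln_mem _ hf]
    · rw [gres1_Ln_succ _ hf, gres1_Ln_succ _ hf]
      gcongr
      exact T_mono ih f

theorem gres1_Ln_mono (f : Prof d) : Monotone fun n => gres1Ln ρ c S F G n f :=
  monotone_nat_of_le_succ fun n => gres1_Ln_le_succ n f

theorem gres1_Ln_le (n : ℕ) (f : Prof d) : gres1Ln ρ c S F G n f ≤ gres1L ρ c S F G f :=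
  le_iSup (fun n => gres1Ln ρ c S F G n f) n

theorem gres1_mem {f : Prof d} (hf : f ∈ S) : gres1L ρ c S F G f = F f := by
  simp only [gres1L, gres1_Ln_mem _ hf, ciSup_const]

theorem gres1_not_mem (hS : MeasurableSet S) (hF : Measurable F) (hG : Measurable G)
    {f : Prof d} (hf : f ∉ S) :
    gres1L ρ c S F G f = G f + c * T ρ (gres1L ρ c S F G) f := by
  have h1 : T ρ (gres1L ρ c S F G) f = ⨆ n, T ρ (gres1Ln ρ c S F G n) f := by
    unfold T gres1L
    exact lintegral_iSup (fun n => (gres1_meas_Ln hS hF hG n).comp (measurable_step f))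
      fun m n h ξ => gres1_Ln_mono _ h
  rw [h1, ENNReal.mul_iSup, ENNReal.add_iSup]
  simp only [← gres1_Ln_succ _ hf]
  exact ((gres1_Ln_mono f).iSup_nat_add 1).symm

/-- Comparison with supersolutions on an invariant class. -/
theorem gres1_le_of_super {P : Prof d → Prop} (hP : ∀ g ξ, P g → P (step g ξ))
    {Φ : Prof d → ℝ≥0∞} (hF : ∀ g, P g → g ∈ S → F g ≤ Φ g)
    (hG : ∀ g, P g → g ∉ S → G g + c * T ρ Φ g ≤ Φ g) {f : Prof d} (hf : P f) :
    gres1L ρ c S F G f ≤ Φ f := by
  refine iSup_le fun n => ?_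
  induction n generalizing f with
  | zero =>
    by_cases h : f ∈ S
    · rw [gres1_Ln_mem _ h]; exact hF f hf h
    · rw [gres1_Ln_zero h]; exact zero_le
  | succ n ih =>
    by_cases h : f ∈ S
    · rw [gres1_Ln_mem _ h]; exact hF f hf h
    · rw [gres1_Ln_succ _ h]
      refine le_trans ?_ (hG f hf h)
      gcongr
      exact T_mono' fun ξ => ih (hP f ξ hf)

theorem gres1_le_of_super' {Φ : Prof d → ℝ≥0∞} (hF : ∀ g, g ∈ S → F g ≤ Φ g)
    (hG : ∀ g, g ∉ S → G g + c * T ρ Φ g ≤ Φ g) (f : Prof d) : gres1L ρ c S F G f ≤ Φ f :=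
  gres1_le_of_super (P := fun _ => True) (fun _ _ h => h) (fun g _ => hF g) (fun g _ => hG g)
    trivial

/-- Comparison with bounded subsolutions on an invariant class. -/
theorem gres1_le_of_sub {P : Prof d → Prop} (hP : ∀ g ξ, P g → P (step g ξ))
    (hS : MeasurableSet S) (mF : Measurable F) (mG : Measurable G) (hc : c < 1)
    {Φ : Prof d → ℝ≥0∞} (hF : ∀ g, P g → g ∈ S → Φ g ≤ F g)
    (hG : ∀ g, P g → g ∉ S → Φ g ≤ G g + c * T ρ Φ g) {B : ℝ≥0∞} (hB : B ≠ ⊤)
    (hb : ∀ g, P g → g ∉ S → Φ g ≤ B) {f : Prof d} (hf : P f) : Φ f ≤ gres1L ρ c S F G f := by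
  have key : ∀ (n : ℕ) (g : Prof d), P g → Φ g ≤ gres1Ln ρ c S F G n g + c ^ n * B := by
    intro n
    induction n with
    | zero =>
      intro g hg
      by_cases h : g ∈ S
      · rw [gres1_Ln_mem _ h]; exact le_add_right (hF g hg h)
      · rw [gres1_Ln_zero h, pow_zero, one_mul, zero_add]; exact hb g hg h
    | succ n ih =>
      intro g hg
      by_cases h : g ∈ S
      · rw [gres1_Ln_mem _ h]; exact le_add_right (hF g hg h)
      · rw [gres1_Ln_succ _ h]
        have h2 : T ρ Φ g ≤ T ρ (gres1Ln ρ c S F G n) g + c ^ n * B := by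
          rw [← T_const (ρ := ρ) (c ^ n * B) g, ← T_add (gres1_meas_Ln hS mF mG n)]
          exact T_mono' fun ξ => ih _ (hP g ξ hg)
        calc Φ g ≤ G g + c * T ρ Φ g := hG g hg h
          _ ≤ G g + c * (T ρ (gres1Ln ρ c S F G n) g + c ^ n * B) := by gcongr
          _ = _ := by ring
  have ht : Tendsto (fun n : ℕ => gres1L ρ c S F G f + c ^ n * B) atTop
      (𝓝 (gres1L ρ c S F G f + 0 * B)) :=
    tendsto_const_nhds.add (ENNReal.Tendsto.mul_const
      (ENNReal.tendsto_pow_atTop_nhds_zero_of_lt_one hc) (Or.inr hB))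
  rw [zero_mul, add_zero] at ht
  exact ge_of_tendsto' ht fun n => (key n f hf).trans (by gcongr; exact gres1_Ln_le n f)

theorem gres1_mono {P : Prof d → Prop} (hP : ∀ g ξ, P g → P (step g ξ)) {c' : ℝ≥0∞}
    {F' G' : Prof d → ℝ≥0∞} (hc : c ≤ c') (hF : ∀ g, P g → g ∈ S → F g ≤ F' g)
    (hG : ∀ g, P g → g ∉ S → G g ≤ G' g) {f : Prof d} (hf : P f) :
    gres1L ρ c S F G f ≤ gres1L ρ c' S F' G' f := by
  refine iSup_mono fun n => ?_
  induction n generalizing f with
  | zero =>
    by_cases h : f ∈ S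
    · rw [gres1_Ln_mem _ h, gres1_Ln_mem _ h]; exact hF f hf h
    · rw [gres1_Ln_zero h]; exact zero_le
  | succ n ih =>
    by_cases h : f ∈ S
    · rw [gres1_Ln_mem _ h, gres1_Ln_mem _ h]; exact hF f hf h
    · rw [gres1_Ln_succ _ h, gres1_Ln_succ _ h]
      exact add_le_add (hG f hf h) (mul_le_mul' hc (T_mono' fun ξ => ih (hP f ξ hf)))

theorem gres1_add (hS : MeasurableSet S) {F' G' : Prof d → ℝ≥0∞} (hF : Measurable F)
    (hG : Measurable G) (f : Prof d) :
    gres1L ρ c S (fun g => F g + F' g) (fun g => G g + G' g) f =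
      gres1L ρ c S F G f + gres1L ρ c S F' G' f := by
  have key : ∀ n : ℕ, gres1Ln ρ c S (fun g => F g + F' g) (fun g => G g + G' g) n =
      fun g => gres1Ln ρ c S F G n g + gres1Ln ρ c S F' G' n g := by
    intro n
    induction n with
    | zero =>
      funext g
      by_cases h : g ∈ S
      · simp only [gres1_Ln_mem _ h]
      · simp only [gres1_Ln_zero h, add_zero]
    | succ n ih =>
      funext g
      by_cases h : g ∈ S
      · simp only [gres1_Ln_mem _ h]
      · simp only [gres1_Ln_succ _ h, ih, T_add (gres1_meas_Ln hS hF hG n)]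
        ring
  simp only [gres1L, key]
  exact (ENNReal.iSup_add_iSup_of_monotone (gres1_Ln_mono f) (gres1_Ln_mono f)).symm

theorem gres1_const_mul (hS : MeasurableSet S) (hF : Measurable F) (hG : Measurable G)
    (a : ℝ≥0∞) (f : Prof d) :
    gres1L ρ c S (fun g => a * F g) (fun g => a * G g) f = a * gres1L ρ c S F G f := by
  have key : ∀ n : ℕ, gres1Ln ρ c S (fun g => a * F g) (fun g => a * G g) n =
      fun g => a * gres1Ln ρ c S F G n g := by
    intro n
    induction n with
    | zero =>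
      funext g
      by_cases h : g ∈ S
      · simp only [gres1_Ln_mem _ h]
      · simp only [gres1_Ln_zero h, mul_zero]
    | succ n ih =>
      funext g
      by_cases h : g ∈ S
      · simp only [gres1_Ln_mem _ h]
      · simp only [gres1_Ln_succ _ h, ih, T_const_mul a (gres1_meas_Ln hS hF hG n)]
        ring
  simp only [gres1L, key, ENNReal.mul_iSup]

/-- The least solution as a series. -/
theorem gres1_series (hS : MeasurableSet S) (hF : Measurable F) (hG : Measurable G)
    {a : ℕ → Prof d → ℝ≥0∞} (ha : ∀ n, Measurable (a n))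
    (h1 : ∀ g, g ∈ S → ∑' n, a n g = F g) (h2 : ∀ g, g ∉ S → a 0 g = G g)
    (h3 : ∀ n g, g ∉ S → a (n + 1) g = c * T ρ (a n) g) (f : Prof d) :
    gres1L ρ c S F G f = ∑' n, a n f := by
  apply le_antisymm
  · refine gres1_le_of_super' (Φ := fun g => ∑' n, a n g) (fun g hg => (h1 g hg).ge)
      (fun g hg => le_of_eq ?_) f
    rw [T_tsum ha, ← ENNReal.tsum_mul_left,
      tsum_eq_zero_add' (f := fun n => a n g) ENNReal.summable, h2 g hg]
    simp only [h3 _ g hg]
  · refine ENNReal.tsum_le_of_sum_range_le fun N => ?_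
    induction N generalizing f with
    | zero => simp
    | succ N ih =>
      by_cases h : f ∈ S
      · rw [gres1_mem h, ← h1 f h]; exact ENNReal.sum_le_tsum _
      · rw [Finset.sum_range_succ', gres1_not_mem hS hF hG h, h2 f h, add_comm]
        simp only [h3 _ f h]
        rw [← Finset.mul_sum]
        have h4 := T_iter_sum (ρ := ρ) 1 (Finset.range N) ha f
        simp only [Function.iterate_one] at h4
        rw [← h4]
        gcongr
        exact T_mono ih f

theorem gres1_nested {S' : Set (Prof d)} (hS : MeasurableSet S) (hS' : MeasurableSet S')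
    (h : S' ⊆ S) (hF : Measurable F) (hG : Measurable G) (f : Prof d) :
    gres1L ρ c S' F G f = gres1L ρ c S (gres1L ρ c S' F G) G f := by
  have h1 : ∀ g, gres1L ρ c S (gres1L ρ c S' F G) G g ≤ gres1L ρ c S' F G g :=
    gres1_le_of_super' (fun g _ => le_rfl)
      fun g hg => (gres1_not_mem hS' hF hG fun h' => hg (h h')).ge
  refine le_antisymm (gres1_le_of_super' (fun g hg => ?_) (fun g hg => ?_) f) (h1 f)
  · rw [gres1_mem (h hg), gres1_mem hg]
  · by_cases hgS : g ∈ S
    · rw [gres1_mem hgS, gres1_not_mem hS' hF hG hg]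
      gcongr
      exact T_mono h1 g
    · exact (gres1_not_mem hS (gres1_meas hS' hF hG) hG hgS).ge

theorem gres1_one_le (hc : c ≤ 1) (f : Prof d) :
    gres1L ρ c S (fun _ => 1) (fun _ => 0) f ≤ 1 :=
  gres1_le_of_super' (Φ := fun _ => 1) (fun _ _ => le_rfl)
    (fun g _ => by rw [T_const, zero_add, mul_one]; exact hc) f

theorem gres1_one_super (hS : MeasurableSet S) (hc : c ≤ 1) (f : Prof d) :
    c * T ρ (gres1L ρ c S (fun _ => 1) (fun _ => 0)) f ≤
      gres1L ρ c S (fun _ => 1) (fun _ => 0) f := by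
  by_cases h : f ∈ S
  · rw [gres1_mem h]
    exact mul_le_one' hc ((T_mono (gres1_one_le hc) f).trans (T_const 1 f).le)
  · rw [gres1_not_mem hS measurable_const measurable_const h, zero_add]

theorem gres1_c_le {l : ℝ} (h0 : 0 < l) : ENNReal.ofReal (1 - l) ≤ 1 :=
  ENNReal.ofReal_le_one.2 (by linarith)

theorem gres1_c_lt {l : ℝ} (h0 : 0 < l) : ENNReal.ofReal (1 - l) < 1 :=
  ENNReal.ofReal_lt_one.2 (by linarith)

theorem gres1_l_add_c {l : ℝ} (h0 : 0 < l) (h1 : l < 1) :
    ENNReal.ofReal l + ENNReal.ofReal (1 - l) = 1 := by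
  rw [← ENNReal.ofReal_add h0.le (by linarith)]; simp

end Pool.Agent.Lib.MP_153faa_pr
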