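import Mathlib
import Pool.Agent.Lib.MP_153faa_pr.GRes1a

set_option autoImplicit false

open MeasureTheory Filter Topology
open scoped ENNReal NNReal

namespace Pool.Agent.Lib.MP_153faa_pr

variable {d : ℕ}

variable {ρ : Measure ℝ≥0} [IsProbabilityMeasure ρ] {l : ℝ} {S : Set (Prof d)}

theorem gres1_Tk_mem (Φ : Prof d → ℝ≥0∞) (n : ℕ) {f : Prof d} (hf : f ∈ S) :
    Tk ρ S Φ n f = 0 := by
  cases n <;> simp [Tk, hf]

theorem gres1_Tk_zero (Φ : Prof d → ℝ≥0∞) {f : Prof d} (hf : f ∉ S) : Tk ρ S Φ 0 f = Φ f := by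
  simp [Tk, hf]

theorem gres1_Tk_succ (Φ : Prof d → ℝ≥0∞) (n : ℕ) {f : Prof d} (hf : f ∉ S) :
    Tk ρ S Φ (n + 1) f = T ρ (Tk ρ S Φ n) f := by
  simp [Tk, hf]

theorem gres1_Th_mem (Φ : Prof d → ℝ≥0∞) (n : ℕ) {f : Prof d} (hf : f ∈ S) :
    Th ρ S Φ n f = (T ρ)^[n] Φ f := by
  cases n <;> simp only [Th, hf, if_true, Function.iterate_zero, id]

theorem gres1_Th_zero (Φ : Prof d → ℝ≥0∞) {f : Prof d} (hf : f ∉ S) : Th ρ S Φ 0 f = 0 := by
  simp [Th, hf]

theorem gres1_Th_succ (Φ : Prof d → ℝ≥0∞) (n : ℕ) {f : Prof d} (hf : f ∉ S) :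
    Th ρ S Φ (n + 1) f = T ρ (Th ρ S Φ n) f := by
  simp only [Th, hf, if_false]

theorem gres1_meas_Tk_fam (hS : MeasurableSet S) {X : Type*} [MeasurableSpace X]
    {Φ : X → Prof d → ℝ≥0∞} (hΦ : Measurable (Function.uncurry Φ)) (n : ℕ) :
    Measurable (Function.uncurry fun x => Tk ρ S (Φ x) n) := by
  induction n with
  | zero => exact Measurable.ite (measurable_snd hS) measurable_const hΦ
  | succ n ih =>
    exact Measurable.ite (measurable_snd hS) measurable_const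
      (measurable_T_iter_fam (ρ := ρ) (Φ := fun x => Tk ρ S (Φ x) n) ih 1)

theorem gres1_meas_hitset (hS : MeasurableSet S) (n : ℕ) (f : Prof d) :
    MeasurableSet {ω : ℕ → Layer d | ∃ k ≤ n, ev k ω f ∈ S} := by
  have : {ω : ℕ → Layer d | ∃ k ≤ n, ev k ω f ∈ S} =
      ⋃ k, ⋃ _ : k ≤ n, (fun ω => ev k ω f) ⁻¹' S := by ext ω; simp
  rw [this]
  exact MeasurableSet.iUnion fun k => MeasurableSet.iUnion fun _ => measurable_ev k f hS

theorem gres1_hit_cons {f : Prof d} (hf : f ∉ S) (n : ℕ) (ξ : Layer d) (ω : ℕ → Layer d) :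
    (∃ k ≤ n, ev k ω (step f ξ) ∈ S) ↔
      ∃ k ≤ n + 1, ev k (Pool.Agent.Lib.MP_db3298_pr.consSeq ξ ω) f ∈ S := by
  constructor
  · rintro ⟨k, hk, h⟩
    exact ⟨k + 1, by omega, h⟩
  · rintro ⟨k, hk, h⟩
    cases k with
    | zero => exact absurd h hf
    | succ k => exact ⟨k, by omega, h⟩

theorem measurable_U (hS : MeasurableSet S) {F R : Prof d → ℝ≥0∞} (hF : Measurable F)
    (hR : Measurable R) : Measurable (U ρ l S F R) := by
  rw [gres1_U_eq]; exact gres1_meas hS hF (hR.const_mul _)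

theorem measurable_Tk (hS : MeasurableSet S) {Φ : Prof d → ℝ≥0∞} (hΦ : Measurable Φ) (n : ℕ) :
    Measurable (Tk ρ S Φ n) := by
  induction n with
  | zero => exact Measurable.ite hS measurable_const hΦ
  | succ n ih => exact Measurable.ite hS measurable_const (measurable_T ih)

theorem measurable_Th (hS : MeasurableSet S) {Φ : Prof d → ℝ≥0∞} (hΦ : Measurable Φ) (n : ℕ) :
    Measurable (Th ρ S Φ n) := by
  induction n with
  | zero => exact Measurable.ite hS hΦ measurable_const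
  | succ n ih => exact Measurable.ite hS (measurable_T_iter (n + 1) hΦ) (measurable_T ih)

theorem measurable_Occ (hS : MeasurableSet S) {A : Prof d → ℝ≥0∞} (hA : Measurable A) :
    Measurable (Occ ρ l S A) :=
  Measurable.tsum fun i => (measurable_Tk hS hA i).const_mul _

theorem measurable_Res {Φ : Prof d → ℝ≥0∞} (hΦ : Measurable Φ) : Measurable (Res ρ l Φ) :=
  Measurable.tsum fun i => (measurable_T_iter i hΦ).const_mul _

theorem wt_tsum (h0 : 0 < l) (h1 : l < 1) : ∑' n, wt l n = 1 := by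
  have h : ∀ n, wt l n = ENNReal.ofReal l * ENNReal.ofReal (1 - l) ^ n := fun n => by
    rw [wt, ENNReal.ofReal_mul h0.le, ENNReal.ofReal_pow (by linarith)]
  have h2 : 1 - ENNReal.ofReal (1 - l) = ENNReal.ofReal l := by
    rw [← gres1_l_add_c h0 h1, ENNReal.add_sub_cancel_right ENNReal.ofReal_ne_top]
  simp only [h, ENNReal.tsum_mul_left, ENNReal.tsum_geometric, h2]
  exact ENNReal.mul_inv_cancel (by simpa using h0) ENNReal.ofReal_ne_top

theorem wt_tail (h0 : 0 < l) (h1 : l < 1) (N : ℕ) :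
    ∑' n, wt l (n + N) = ENNReal.ofReal ((1 - l) ^ N) := by
  have h : ∀ n, wt l (n + N) = ENNReal.ofReal ((1 - l) ^ N) * wt l n := fun n => by
    rw [wt, wt, ← ENNReal.ofReal_mul (pow_nonneg (by linarith) _)]
    congr 1; ring
  simp only [h, ENNReal.tsum_mul_left, wt_tsum h0 h1, mul_one]

theorem wt_add (h1 : l < 1) (n k : ℕ) : wt l (n + k) = ENNReal.ofReal ((1 - l) ^ k) * wt l n := by
  rw [wt, wt, ← ENNReal.ofReal_mul (pow_nonneg (by linarith) _)]
  congr 1; ring

theorem U_mem {F R : Prof d → ℝ≥0∞} {f : Prof d} (hf : f ∈ S) : U ρ l S F R f = F f := by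
  rw [gres1_U_eq, gres1_mem hf]

theorem U_not_mem (hS : MeasurableSet S) {F R : Prof d → ℝ≥0∞} (hF : Measurable F)
    (hR : Measurable R) {f : Prof d} (hf : f ∉ S) :
    U ρ l S F R f = ENNReal.ofReal l * R f + ENNReal.ofReal (1 - l) * T ρ (U ρ l S F R) f := by
  rw [gres1_U_eq, gres1_not_mem hS hF (hR.const_mul _) hf]

theorem U_mono (hd : 1 ≤ d) {F F' R R' : Prof d → ℝ≥0∞}
    (hF : ∀ g, Nice g → g ∈ S → F g ≤ F' g) (hR : ∀ g, Nice g → g ∉ S → R g ≤ R' g)
    {f : Prof d} (hf : Nice f) : U ρ l S F R f ≤ U ρ l S F' R' f := by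
  rw [gres1_U_eq, gres1_U_eq]
  exact gres1_mono (P := Nice) (fun g ξ h => h.of_step hd ξ) le_rfl hF
    (fun g hg h => mul_le_mul_right (hR g hg h) _) hf

theorem U_add (hS : MeasurableSet S) {F F' R R' : Prof d → ℝ≥0∞} (hF : Measurable F)
    (hF' : Measurable F') (hR : Measurable R) (hR' : Measurable R') (f : Prof d) :
    U ρ l S (fun g => F g + F' g) (fun g => R g + R' g) f = U ρ l S F R f + U ρ l S F' R' f := by
  simp only [gres1_U_eq, mul_add]
  exact gres1_add hS hF (hR.const_mul _) f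

theorem U_split (hS : MeasurableSet S) {F R : Prof d → ℝ≥0∞} (hF : Measurable F)
    (hR : Measurable R) (f : Prof d) :
    U ρ l S F R f = U ρ l S F (fun _ => 0) f + U ρ l S (fun _ => 0) R f := by
  rw [← U_add hS hF measurable_const measurable_const hR]
  simp only [add_zero, zero_add]

theorem U_const_mul (hS : MeasurableSet S) {F R : Prof d → ℝ≥0∞} (hF : Measurable F)
    (hR : Measurable R) (c : ℝ≥0∞) (f : Prof d) :
    U ρ l S (fun g => c * F g) (fun g => c * R g) f = c * U ρ l S F R f := by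
  simp only [gres1_U_eq, mul_left_comm _ c]
  exact gres1_const_mul hS hF (hR.const_mul _) c f

theorem U_one (hS : MeasurableSet S) (h0 : 0 < l) (h1 : l < 1) (f : Prof d) :
    U ρ l S (fun _ => 1) (fun _ => 1) f = 1 := by
  rw [gres1_U_eq]
  have h : ∀ g : Prof d, ENNReal.ofReal l * 1 + ENNReal.ofReal (1 - l) * T ρ (fun _ => 1) g = 1 :=
    fun g => by rw [T_const, mul_one, mul_one, gres1_l_add_c h0 h1]
  refine le_antisymm (gres1_le_of_super' (Φ := fun _ => 1) (fun _ _ => le_rfl)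
    (fun g _ => (h g).le) f) ?_
  exact gres1_le_of_sub (P := fun _ => True) (Φ := fun _ => 1) (fun _ _ h => h) hS
    measurable_const measurable_const (gres1_c_lt h0) (fun _ _ _ => le_rfl)
    (fun g _ _ => (h g).ge) ENNReal.one_ne_top (fun _ _ _ => le_rfl) trivial

theorem U_le_of_super (hd : 1 ≤ d) {F R Φ : Prof d → ℝ≥0∞}
    (hF : ∀ g, Nice g → g ∈ S → F g ≤ Φ g)
    (hR : ∀ g, Nice g → g ∉ S →
      ENNReal.ofReal l * R g + ENNReal.ofReal (1 - l) * T ρ Φ g ≤ Φ g)
    {f : Prof d} (hf : Nice f) : U ρ l S F R f ≤ Φ f := by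
  rw [gres1_U_eq]
  exact gres1_le_of_super (P := Nice) (fun g ξ h => h.of_step hd ξ) hF hR hf

theorem le_U_of_sub (hd : 1 ≤ d) (hS : MeasurableSet S) (h0 : 0 < l) (h1 : l < 1)
    {F R Φ : Prof d → ℝ≥0∞} (mF : Measurable F) (mR : Measurable R)
    (hF : ∀ g, Nice g → g ∈ S → Φ g ≤ F g)
    (hR : ∀ g, Nice g → g ∉ S →
      Φ g ≤ ENNReal.ofReal l * R g + ENNReal.ofReal (1 - l) * T ρ Φ g)
    {B : ℝ≥0∞} (hB : B ≠ ⊤) (hb : ∀ g, Nice g → g ∉ S → Φ g ≤ B)
    {f : Prof d} (hf : Nice f) : Φ f ≤ U ρ l S F R f := by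
  rw [gres1_U_eq]
  exact gres1_le_of_sub (P := Nice) (fun g ξ h => h.of_step hd ξ) hS mF (mR.const_mul _)
    (gres1_c_lt h0) hF hR hB hb hf

theorem Tk_add_Th (hS : MeasurableSet S) {Φ : Prof d → ℝ≥0∞} (hΦ : Measurable Φ) (n : ℕ)
    (f : Prof d) : Tk ρ S Φ n f + Th ρ S Φ n f = (T ρ)^[n] Φ f := by
  induction n generalizing f with
  | zero => by_cases hf : f ∈ S <;> simp [Tk, Th, hf]
  | succ n ih =>
    by_cases hf : f ∈ S
    · rw [gres1_Tk_mem _ _ hf, gres1_Th_mem _ _ hf, zero_add]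
    · rw [gres1_Tk_succ _ _ hf, gres1_Th_succ _ _ hf, ← T_add (measurable_Tk hS hΦ n),
        Function.iterate_succ_apply']
      simp only [ih]

theorem Tk_succ' (Φ : Prof d → ℝ≥0∞) (n : ℕ) (f : Prof d) :
    Tk ρ S Φ (n + 1) f = Tk ρ S (T ρ (Tk ρ S Φ 0)) n f := by
  induction n generalizing f with
  | zero =>
    by_cases hf : f ∈ S
    · rw [gres1_Tk_mem _ _ hf, gres1_Tk_mem _ _ hf]
    · rw [gres1_Tk_succ _ _ hf, gres1_Tk_zero _ hf]
  | succ n ih =>
    by_cases hf : f ∈ S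
    · rw [gres1_Tk_mem _ _ hf, gres1_Tk_mem _ _ hf]
    · rw [gres1_Tk_succ _ _ hf, gres1_Tk_succ _ _ hf, funext ih]

theorem Tk_mono (hd : 1 ≤ d) {Φ Ψ : Prof d → ℝ≥0∞} (h : ∀ g, Nice g → g ∉ S → Φ g ≤ Ψ g)
    (n : ℕ) {f : Prof d} (hf : Nice f) : Tk ρ S Φ n f ≤ Tk ρ S Ψ n f := by
  induction n generalizing f with
  | zero =>
    by_cases hS : f ∈ S
    · rw [gres1_Tk_mem _ _ hS]; exact zero_le
    · rw [gres1_Tk_zero _ hS, gres1_Tk_zero _ hS]; exact h f hf hS
  | succ n ih =>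
    by_cases hS : f ∈ S
    · rw [gres1_Tk_mem _ _ hS]; exact zero_le
    · rw [gres1_Tk_succ _ _ hS, gres1_Tk_succ _ _ hS]
      exact T_mono' fun ξ => ih (hf.of_step hd ξ)

theorem Tk_add (hS : MeasurableSet S) {Φ Ψ : Prof d → ℝ≥0∞} (hΦ : Measurable Φ)
    (hΨ : Measurable Ψ) (n : ℕ) (f : Prof d) :
    Tk ρ S (fun g => Φ g + Ψ g) n f = Tk ρ S Φ n f + Tk ρ S Ψ n f := by
  induction n generalizing f with
  | zero =>
    by_cases hf : f ∈ S
    · simp only [gres1_Tk_mem _ _ hf, add_zero]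
    · simp only [gres1_Tk_zero _ hf]
  | succ n ih =>
    by_cases hf : f ∈ S
    · simp only [gres1_Tk_mem _ _ hf, add_zero]
    · simp only [gres1_Tk_succ _ _ hf]
      rw [funext ih, T_add (measurable_Tk hS hΦ n)]

theorem Tk_const_mul (hS : MeasurableSet S) {Φ : Prof d → ℝ≥0∞} (hΦ : Measurable Φ) (c : ℝ≥0∞)
    (n : ℕ) (f : Prof d) : Tk ρ S (fun g => c * Φ g) n f = c * Tk ρ S Φ n f := by
  induction n generalizing f with
  | zero =>
    by_cases hf : f ∈ S
    · simp only [gres1_Tk_mem _ _ hf, mul_zero]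
    · simp only [gres1_Tk_zero _ hf]
  | succ n ih =>
    by_cases hf : f ∈ S
    · simp only [gres1_Tk_mem _ _ hf, mul_zero]
    · simp only [gres1_Tk_succ _ _ hf]
      rw [funext ih, T_const_mul c (measurable_Tk hS hΦ n)]

theorem Tk_tsum (hS : MeasurableSet S) {ι : Type*} [Countable ι] {Φ : ι → Prof d → ℝ≥0∞}
    (hΦ : ∀ i, Measurable (Φ i)) (n : ℕ) (f : Prof d) :
    Tk ρ S (fun g => ∑' i, Φ i g) n f = ∑' i, Tk ρ S (Φ i) n f := by
  induction n generalizing f with
  | zero =>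
    by_cases hf : f ∈ S
    · simp only [gres1_Tk_mem _ _ hf, tsum_zero]
    · simp only [gres1_Tk_zero _ hf]
  | succ n ih =>
    by_cases hf : f ∈ S
    · simp only [gres1_Tk_mem _ _ hf, tsum_zero]
    · simp only [gres1_Tk_succ _ _ hf]
      rw [funext ih, T_tsum fun i => measurable_Tk hS (hΦ i) n]

theorem Tk_lintegral (hS : MeasurableSet S) {X : Type*} [MeasurableSpace X] (μ : Measure X)
    [SFinite μ] {Φ : X → Prof d → ℝ≥0∞} (hΦ : Measurable (Function.uncurry Φ)) (n : ℕ)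
    (f : Prof d) : Tk ρ S (fun g => ∫⁻ x, Φ x g ∂μ) n f = ∫⁻ x, Tk ρ S (Φ x) n f ∂μ := by
  induction n generalizing f with
  | zero =>
    by_cases hf : f ∈ S
    · simp only [gres1_Tk_mem _ _ hf, lintegral_zero]
    · simp only [gres1_Tk_zero _ hf]
  | succ n ih =>
    by_cases hf : f ∈ S
    · simp only [gres1_Tk_mem _ _ hf, lintegral_zero]
    · simp only [gres1_Tk_succ _ _ hf]
      rw [funext ih, T_lintegral μ (Φ := fun x => Tk ρ S (Φ x) n) (gres1_meas_Tk_fam hS hΦ n)]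

open Classical in
theorem Tk_env (hS : MeasurableSet S) {Φ : Prof d → ℝ≥0∞} (hΦ : Measurable Φ) (n : ℕ)
    (f : Prof d) : Tk ρ S Φ n f =
      ∫⁻ ω, if ∃ k ≤ n, ev k ω f ∈ S then 0 else Φ (ev n ω f) ∂env d ρ := by
  induction n generalizing f with
  | zero => by_cases hf : f ∈ S <;> simp [Tk, hf]
  | succ n ih =>
    by_cases hf : f ∈ S
    · rw [gres1_Tk_mem _ _ hf]
      have h : ∀ ω : ℕ → Layer d, ∃ k ≤ n + 1, ev k ω f ∈ S := fun ω => ⟨0, by omega, hf⟩
      simp only [h, if_true, lintegral_zero]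
    · rw [gres1_Tk_succ _ _ hf, lintegral_env
        (F := fun ω => if ∃ k ≤ n + 1, ev k ω f ∈ S then 0 else Φ (ev (n + 1) ω f))
        (Measurable.ite (gres1_meas_hitset hS _ f) measurable_const
          (hΦ.comp (measurable_ev (n + 1) f)))]
      refine lintegral_congr fun ξ => ?_
      rw [ih]
      refine lintegral_congr fun ω => ?_
      exact if_congr (gres1_hit_cons hf n ξ ω) rfl rfl

open Classical in
theorem Th_env (hS : MeasurableSet S) {Φ : Prof d → ℝ≥0∞} (hΦ : Measurable Φ) (n : ℕ)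
    (f : Prof d) : Th ρ S Φ n f =
      ∫⁻ ω, if ∃ k ≤ n, ev k ω f ∈ S then Φ (ev n ω f) else 0 ∂env d ρ := by
  induction n generalizing f with
  | zero => by_cases hf : f ∈ S <;> simp [Th, hf]
  | succ n ih =>
    by_cases hf : f ∈ S
    · rw [gres1_Th_mem _ _ hf, T_iter_eq _ hΦ]
      have h : ∀ ω : ℕ → Layer d, ∃ k ≤ n + 1, ev k ω f ∈ S := fun ω => ⟨0, by omega, hf⟩
      simp only [h, if_true]
    · rw [gres1_Th_succ _ _ hf, lintegral_env
        (F := fun ω => if ∃ k ≤ n + 1, ev k ω f ∈ S then Φ (ev (n + 1) ω f) else 0)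
        (Measurable.ite (gres1_meas_hitset hS _ f) (hΦ.comp (measurable_ev (n + 1) f))
          measurable_const)]
      refine lintegral_congr fun ξ => ?_
      rw [ih]
      refine lintegral_congr fun ω => ?_
      exact if_congr (gres1_hit_cons hf n ξ ω) rfl rfl

theorem Th_one (S : Set (Prof d)) (n : ℕ) (f : Prof d) :
    Th ρ S (fun _ => 1) n f = hit ρ S n f := by
  induction n generalizing f with
  | zero =>
    by_cases hf : f ∈ S
    · rw [gres1_Th_mem _ _ hf, hit_of_mem _ hf, T_iter_const]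
    · rw [gres1_Th_zero _ hf, hit_zero_of_not_mem hf]
  | succ n ih =>
    by_cases hf : f ∈ S
    · rw [gres1_Th_mem _ _ hf, hit_of_mem _ hf, T_iter_const]
    · rw [gres1_Th_succ _ _ hf, hit_succ_of_not_mem _ hf, funext ih]

theorem U_zero_eq (hS : MeasurableSet S) (h0 : 0 < l) (h1 : l < 1) {R : Prof d → ℝ≥0∞}
    (hR : Measurable R) (f : Prof d) :
    U ρ l S (fun _ => 0) R f = ∑' n, wt l n * Tk ρ S R n f := by
  rw [gres1_U_eq]
  refine gres1_series hS measurable_const (hR.const_mul _)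
    (a := fun n g => wt l n * Tk ρ S R n g) (fun n => (measurable_Tk hS hR n).const_mul _)
    (fun g hg => ?_) (fun g hg => ?_) (fun n g hg => ?_) f
  · simp only [gres1_Tk_mem _ _ hg, mul_zero, tsum_zero]
  · simp only [gres1_Tk_zero _ hg, wt, pow_zero, mul_one]
  · simp only [gres1_Tk_succ _ _ hg]
    rw [T_const_mul _ (measurable_Tk hS hR n), wt_add h1, pow_one, mul_assoc]

theorem U_Res_eq (hS : MeasurableSet S) (h0 : 0 < l) (h1 : l < 1) {Φ : Prof d → ℝ≥0∞}
    (hΦ : Measurable Φ) (f : Prof d) :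
    U ρ l S (Res ρ l Φ) (fun _ => 0) f = ∑' n, wt l n * Th ρ S Φ n f := by
  rw [gres1_U_zero]
  refine gres1_series hS (measurable_Res hΦ) measurable_const
    (a := fun n g => wt l n * Th ρ S Φ n g) (fun n => (measurable_Th hS hΦ n).const_mul _)
    (fun g hg => ?_) (fun g hg => ?_) (fun n g hg => ?_) f
  · simp only [gres1_Th_mem _ _ hg, Res]
  · simp only [gres1_Th_zero _ hg, mul_zero]
  · simp only [gres1_Th_succ _ _ hg]
    rw [T_const_mul _ (measurable_Th hS hΦ n), wt_add h1, pow_one, mul_assoc]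

theorem Res_eq_U (hS : MeasurableSet S) (h0 : 0 < l) (h1 : l < 1) {Φ : Prof d → ℝ≥0∞}
    (hΦ : Measurable Φ) (f : Prof d) : Res ρ l Φ f = U ρ l S (Res ρ l Φ) Φ f := by
  rw [gres1_U_eq]
  refine (gres1_series hS (measurable_Res hΦ) (hΦ.const_mul _)
    (a := fun n g => wt l n * (T ρ)^[n] Φ g) (fun n => (measurable_T_iter n hΦ).const_mul _)
    (fun g _ => rfl) (fun g _ => ?_) (fun n g _ => ?_) f).symm
  · simp only [wt, pow_zero, mul_one, Function.iterate_zero, id]
  · simp only [Function.iterate_succ_apply']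
    rw [T_const_mul _ (measurable_T_iter n hΦ), wt_add h1, pow_one, mul_assoc]

theorem U_hit_eq (hS : MeasurableSet S) (h0 : 0 < l) (h1 : l < 1) (f : Prof d) :
    U ρ l S (fun _ => 1) (fun _ => 0) f = ∑' n, wt l n * hit ρ S n f := by
  rw [gres1_U_zero]
  refine gres1_series hS measurable_const measurable_const
    (a := fun n g => wt l n * hit ρ S n g) (fun n => (measurable_hit hS n).const_mul _)
    (fun g hg => ?_) (fun g hg => ?_) (fun n g hg => ?_) f
  · simp only [hit_of_mem _ hg, mul_one, wt_tsum h0 h1]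
  · simp only [hit_zero_of_not_mem hg, mul_zero]
  · simp only [hit_succ_of_not_mem _ hg]
    rw [T_const_mul _ (measurable_hit hS n), wt_add h1, pow_one, mul_assoc]

theorem U_le_hit (hS : MeasurableSet S) (h0 : 0 < l) (h1 : l < 1) (n : ℕ) (f : Prof d) :
    U ρ l S (fun _ => 1) (fun _ => 0) f ≤ hit ρ S n f + ENNReal.ofReal ((1 - l) ^ (n + 1)) := by
  rw [gres1_U_zero, ENNReal.ofReal_pow (by linarith)]
  have hc := gres1_c_le h0
  induction n generalizing f with
  | zero =>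
    by_cases hf : f ∈ S
    · rw [gres1_mem hf, hit_of_mem _ hf]; exact le_self_add
    · rw [gres1_not_mem hS measurable_const measurable_const hf, zero_add, zero_add, pow_one]
      exact le_add_left (mul_le_of_le_one_right'
        ((T_mono (gres1_one_le hc) f).trans (T_const 1 f).le))
  | succ n ih =>
    by_cases hf : f ∈ S
    · rw [gres1_mem hf, hit_of_mem _ hf]; exact le_self_add
    · rw [gres1_not_mem hS measurable_const measurable_const hf, zero_add,
        hit_succ_of_not_mem _ hf]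
      refine (mul_le_mul_right (T_mono ih f) _).trans ?_
      rw [T_add (measurable_hit hS n), T_const, mul_add, ← pow_succ']
      exact add_le_add_left (mul_le_of_le_one_left' hc) _

theorem gres1_Occ_eq (hS : MeasurableSet S) (h1 : l < 1) {A : Prof d → ℝ≥0∞}
    (hA : Measurable A) : Occ ρ l S A = gres1L ρ (ENNReal.ofReal (1 - l)) S (fun _ => 0)
      (fun g => ENNReal.ofReal (1 - l) * A g) := by
  funext f
  refine (gres1_series hS measurable_const (hA.const_mul _)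
    (a := fun n g => ENNReal.ofReal ((1 - l) ^ (n + 1)) * Tk ρ S A n g)
    (fun n => (measurable_Tk hS hA n).const_mul _)
    (fun g hg => ?_) (fun g hg => ?_) (fun n g hg => ?_) f).symm
  · simp only [gres1_Tk_mem _ _ hg, mul_zero, tsum_zero]
  · simp only [gres1_Tk_zero _ hg, zero_add, pow_one]
  · simp only [gres1_Tk_succ _ _ hg]
    rw [T_const_mul _ (measurable_Tk hS hA n), ← mul_assoc,
      ← ENNReal.ofReal_mul (by linarith), ← pow_succ']

theorem Occ_mem {A : Prof d → ℝ≥0∞} {f : Prof d} (hf : f ∈ S) : Occ ρ l S A f = 0 := by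
  simp only [Occ, gres1_Tk_mem _ _ hf, mul_zero, tsum_zero]

theorem Occ_not_mem (hS : MeasurableSet S) (h1 : l < 1) {A : Prof d → ℝ≥0∞} (hA : Measurable A)
    {f : Prof d} (hf : f ∉ S) :
    Occ ρ l S A f = ENNReal.ofReal (1 - l) * (A f + T ρ (Occ ρ l S A) f) := by
  rw [gres1_Occ_eq hS h1 hA, gres1_not_mem hS measurable_const (hA.const_mul _) hf, mul_add]

theorem Occ_eq_U (hS : MeasurableSet S) (h0 : 0 < l) (h1 : l < 1) {A : Prof d → ℝ≥0∞}
    (hA : Measurable A) (f : Prof d) :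
    ENNReal.ofReal l * Occ ρ l S A f = ENNReal.ofReal (1 - l) * U ρ l S (fun _ => 0) A f := by
  rw [gres1_Occ_eq hS h1 hA, gres1_U_eq, ← gres1_const_mul hS measurable_const (hA.const_mul _),
    ← gres1_const_mul hS measurable_const (hA.const_mul _)]
  simp only [mul_zero, mul_left_comm (ENNReal.ofReal l)]

theorem Occ_mono (hd : 1 ≤ d) {A B : Prof d → ℝ≥0∞} (h : ∀ g, Nice g → g ∉ S → A g ≤ B g)
    {f : Prof d} (hf : Nice f) : Occ ρ l S A f ≤ Occ ρ l S B f :=
  ENNReal.tsum_le_tsum fun i => mul_le_mul_right (Tk_mono hd h i hf) _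

theorem Occ_add (hS : MeasurableSet S) {A B : Prof d → ℝ≥0∞} (hA : Measurable A)
    (hB : Measurable B) (f : Prof d) :
    Occ ρ l S (fun g => A g + B g) f = Occ ρ l S A f + Occ ρ l S B f := by
  simp only [Occ, Tk_add hS hA hB, mul_add, ENNReal.tsum_add]

theorem Occ_const_mul (hS : MeasurableSet S) {A : Prof d → ℝ≥0∞} (hA : Measurable A) (c : ℝ≥0∞)
    (f : Prof d) : Occ ρ l S (fun g => c * A g) f = c * Occ ρ l S A f := by
  simp only [Occ, Tk_const_mul hS hA, mul_left_comm _ c, ENNReal.tsum_mul_left]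

theorem Occ_le_const (hd : 1 ≤ d) (h0 : 0 < l) (h1 : l < 1) {A : Prof d → ℝ≥0∞} {B : ℝ≥0∞}
    (h : ∀ g, Nice g → g ∉ S → A g ≤ B) {f : Prof d} (hf : Nice f) :
    Occ ρ l S A f ≤ ENNReal.ofReal l⁻¹ * B := by
  have hk : ∀ (i : ℕ) (g : Prof d), Tk ρ S (fun _ => B) i g ≤ B := by
    intro i
    induction i with
    | zero =>
      intro g
      by_cases hg : g ∈ S
      · rw [gres1_Tk_mem _ _ hg]; exact zero_le
      · rw [gres1_Tk_zero _ hg]
    | succ i ih =>
      intro g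
      by_cases hg : g ∈ S
      · rw [gres1_Tk_mem _ _ hg]; exact zero_le
      · rw [gres1_Tk_succ _ _ hg]; exact (T_mono ih g).trans (T_const B g).le
  have hw : ∀ i : ℕ, ENNReal.ofReal ((1 - l) ^ (i + 1)) ≤ ENNReal.ofReal l⁻¹ * wt l i := by
    intro i
    rw [wt, ← ENNReal.ofReal_mul (by positivity), ← mul_assoc, inv_mul_cancel₀ h0.ne', one_mul]
    exact ENNReal.ofReal_le_ofReal
      (pow_le_pow_of_le_one (by linarith) (by linarith) (Nat.le_succ i))
  calc Occ ρ l S A f ≤ ∑' i, ENNReal.ofReal l⁻¹ * wt l i * B :=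
        ENNReal.tsum_le_tsum fun i => mul_le_mul' (hw i) ((Tk_mono hd h i hf).trans (hk i f))
    _ = _ := by rw [ENNReal.tsum_mul_right, ENNReal.tsum_mul_left, wt_tsum h0 h1, mul_one]

/-- The exit reward as an occupation integral. -/
theorem U_exit_eq (hS : MeasurableSet S) (h0 : 0 < l) (h1 : l < 1) {F : Prof d → ℝ≥0∞}
    (hF : Measurable F) {f : Prof d} (hf : f ∉ S) :
    U ρ l S F (fun _ => 0) f = Occ ρ l S (T ρ (S.indicator F)) f := by
  have hI : Measurable (S.indicator F) := hF.indicator hS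
  have hT := measurable_T (ρ := ρ) hI
  have hO := measurable_Occ (ρ := ρ) (l := l) hS hT
  apply le_antisymm
  · have h : U ρ l S F (fun _ => 0) f ≤
        S.indicator F f + Occ ρ l S (T ρ (S.indicator F)) f := by
      rw [gres1_U_zero]
      refine gres1_le_of_super' (Φ := fun g => S.indicator F g +
        Occ ρ l S (T ρ (S.indicator F)) g) (fun g hg => ?_) (fun g hg => ?_) f
      · rw [Set.indicator_of_mem hg]; exact le_self_add
      · rw [Set.indicator_of_notMem hg, T_add hI, zero_add, zero_add, Occ_not_mem hS h1 hT hg]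
    rwa [Set.indicator_of_notMem hf, zero_add] at h
  · have h : Occ ρ l S (T ρ (S.indicator F)) f ≤ Sᶜ.indicator (U ρ l S F (fun _ => 0)) f := by
      rw [gres1_Occ_eq hS h1 hT]
      refine gres1_le_of_super' (fun g _ => zero_le) (fun g hg => ?_) f
      rw [← mul_add, ← T_add hI, Set.indicator_of_mem (show g ∈ Sᶜ from hg),
        U_not_mem hS hF measurable_const hg, mul_zero, zero_add]
      refine mul_le_mul_right (T_mono (fun k => ?_) g) _
      by_cases hk : k ∈ S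
      · rw [Set.indicator_of_mem hk, Set.indicator_of_notMem (by simpa using hk), add_zero,
          U_mem hk]
      · rw [Set.indicator_of_notMem hk, Set.indicator_of_mem (show k ∈ Sᶜ from hk), zero_add]
    rwa [Set.indicator_of_mem (show f ∈ Sᶜ from hf)] at h

theorem dynkin_up (hd : 1 ≤ d) (hS : MeasurableSet S) (h0 : 0 < l) (h1 : l < 1)
    {Φ A : Prof d → ℝ≥0∞} (hΦ : Measurable Φ) (hA : Measurable A)
    (h : ∀ g, Nice g → g ∉ S → T ρ Φ g ≤ Φ g + A g) {f : Prof d} (hf : Nice f) :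
    U ρ l S Φ Φ f ≤ Φ f + Occ ρ l S A f := by
  refine U_le_of_super hd (Φ := fun g => Φ g + Occ ρ l S A g) (fun g _ _ => le_self_add)
    (fun g hg hgS => ?_) hf
  rw [T_add hΦ, Occ_not_mem hS h1 hA hgS]
  calc _ ≤ ENNReal.ofReal l * Φ g +
        ENNReal.ofReal (1 - l) * (Φ g + A g + T ρ (Occ ρ l S A) g) := by
        gcongr; exact h g hg hgS
    _ = (ENNReal.ofReal l + ENNReal.ofReal (1 - l)) * Φ g +
        ENNReal.ofReal (1 - l) * (A g + T ρ (Occ ρ l S A) g) := by ring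
    _ = _ := by rw [gres1_l_add_c h0 h1, one_mul]

theorem dynkin_down (hd : 1 ≤ d) (hS : MeasurableSet S) (h0 : 0 < l) (h1 : l < 1)
    {Φ A B : Prof d → ℝ≥0∞} (hΦ : Measurable Φ) (hA : Measurable A) (hB : Measurable B)
    (h : ∀ g, Nice g → g ∉ S → Φ g + A g ≤ T ρ Φ g + B g) {b : ℝ≥0∞} (hb : b ≠ ⊤)
    (hΦb : ∀ g, Nice g → g ∉ S → Φ g ≤ b) (hAb : ∀ g, Nice g → g ∉ S → A g ≤ b)
    {f : Prof d} (hf : Nice f) :
    Φ f + Occ ρ l S A f ≤ U ρ l S Φ Φ f + Occ ρ l S B f := by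
  rw [gres1_U_eq, gres1_Occ_eq hS h1 hB, ← gres1_add hS hΦ (hΦ.const_mul _)]
  refine gres1_le_of_sub (P := Nice) (Φ := fun g => Φ g + Occ ρ l S A g) (F := fun g => Φ g + 0)
    (G := fun g => ENNReal.ofReal l * Φ g + ENNReal.ofReal (1 - l) * B g)
    (fun g ξ h => h.of_step hd ξ) hS (hΦ.add measurable_const)
    ((hΦ.const_mul _).add (hB.const_mul _)) (gres1_c_lt h0) (fun g _ hg => ?_)
    (fun g hg hgS => ?_) (B := b + ENNReal.ofReal l⁻¹ * b) (by finiteness)
    (fun g hg hgS => add_le_add (hΦb g hg hgS) (Occ_le_const hd h0 h1 hAb hg)) hf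
  · rw [Occ_mem hg]
  · rw [T_add hΦ, Occ_not_mem hS h1 hA hgS]
    calc _ = (ENNReal.ofReal l + ENNReal.ofReal (1 - l)) * Φ g +
          ENNReal.ofReal (1 - l) * (A g + T ρ (Occ ρ l S A) g) := by
          rw [gres1_l_add_c h0 h1, one_mul]
      _ = ENNReal.ofReal l * Φ g +
          ENNReal.ofReal (1 - l) * (Φ g + A g + T ρ (Occ ρ l S A) g) := by ring
      _ ≤ ENNReal.ofReal l * Φ g +
          ENNReal.ofReal (1 - l) * (T ρ Φ g + B g + T ρ (Occ ρ l S A) g) := by
          gcongr ?_ + _ * (?_ + _)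
          · exact le_rfl
          · exact h g hg hgS
      _ = _ := by ring

theorem U_nested {S' : Set (Prof d)} (hS : MeasurableSet S) (hS' : MeasurableSet S')
    (h : S' ⊆ S) {F R : Prof d → ℝ≥0∞} (hF : Measurable F) (hR : Measurable R) (f : Prof d) :
    U ρ l S' F R f = U ρ l S (U ρ l S' F R) R f := by
  rw [gres1_U_eq l R, gres1_U_eq l R]
  exact gres1_nested hS hS' h hF (hR.const_mul _) f

theorem Occ_nested {S' : Set (Prof d)} (hS : MeasurableSet S) (hS' : MeasurableSet S')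
    (h1 : l < 1) (h : S' ⊆ S) {A : Prof d → ℝ≥0∞} (hA : Measurable A) (f : Prof d) :
    Occ ρ l S' A f = Occ ρ l S A f + U ρ l S (Occ ρ l S' A) (fun _ => 0) f := by
  rw [gres1_U_zero, gres1_Occ_eq hS h1 hA, ← gres1_add hS measurable_const (hA.const_mul _)]
  simp only [zero_add, add_zero]
  rw [gres1_Occ_eq hS' h1 hA]
  exact gres1_nested hS hS' h measurable_const (hA.const_mul _) f

theorem U_ind_le {G S' : Set (Prof d)} (hS' : MeasurableSet S') (h0 : 0 < l) (h1 : l < 1)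
    (h : G ⊆ S') (f : Prof d) :
    U ρ l S (G.indicator fun _ => 1) (fun _ => 0) f ≤ U ρ l S' (fun _ => 1) (fun _ => 0) f := by
  rw [gres1_U_zero, gres1_U_zero]
  refine gres1_le_of_super' (fun g _ => ?_) (fun g _ => ?_) f
  · by_cases hg : g ∈ G
    · rw [Set.indicator_of_mem hg, gres1_mem (h hg)]
    · rw [Set.indicator_of_notMem hg]; exact zero_le
  · rw [zero_add]; exact gres1_one_super hS' (gres1_c_le h0) g

theorem U_horizon {l' : ℝ} (h : l' ≤ l) (F : Prof d → ℝ≥0∞) (f : Prof d) :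
    U ρ l S F (fun _ => 0) f ≤ U ρ l' S F (fun _ => 0) f := by
  rw [gres1_U_zero, gres1_U_zero]
  exact gres1_mono (P := fun _ => True) (fun _ _ h => h)
    (ENNReal.ofReal_le_ofReal (by linarith)) (fun _ _ _ => le_rfl) (fun _ _ _ => le_rfl) trivial

theorem U_mass_le (hd : 1 ≤ d) (hm : Mean1 ρ) (h0 : 0 < l) (h1 : l < 1) (f : Prof d) :
    U ρ l S mass mass f ≤ mass f := by
  rw [gres1_U_eq]
  refine gres1_le_of_super' (fun _ _ => le_rfl) (fun g _ => ?_) f
  rw [T_mass hd hm, ← add_mul, gres1_l_add_c h0 h1, one_mul]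

theorem U_mass_lev (hd : 1 ≤ d) (hm : Mean1 ρ) (h0 : 0 < l) (h1 : l < 1) (t : ℝ) {f : Prof d}
    (hf : Nice f) : U ρ l (lev d t) mass mass f = mass f := by
  refine le_antisymm (U_mass_le hd hm h0 h1 f) ?_
  refine le_U_of_sub hd (measurableSet_lev t) h0 h1 measurable_mass measurable_mass
    (fun _ _ _ => le_rfl) (fun g _ _ => ?_) (B := ENNReal.ofReal t) ENNReal.ofReal_ne_top
    (fun g _ hg => (not_le.1 hg).le) hf
  rw [T_mass hd hm, ← add_mul, gres1_l_add_c h0 h1, one_mul]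

theorem Yv_le_one (h0 : 0 < l) (h1 : l < 1) (f : Prof d) (s : ℝ≥0∞) : Yv ρ l f s ≤ 1 := by
  rw [Yv, gres1_U_zero]; exact gres1_one_le (gres1_c_le h0) f

theorem Yv_markov (hd : 1 ≤ d) (hm : Mean1 ρ) (h0 : 0 < l) (h1 : l < 1) (f : Prof d) (s : ℝ≥0∞) :
    s * Yv ρ l f s ≤ mass f := by
  rw [Yv, gres1_U_zero, ← gres1_const_mul (measurableSet_setY s) measurable_const measurable_const]
  refine gres1_le_of_super' (fun g hg => ?_) (fun g _ => ?_) f
  · rw [mul_one]; exact setY_subset s hg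
  · rw [T_mass hd hm, mul_zero, zero_add]; exact mul_le_of_le_one_left' (gres1_c_le h0)

theorem Yv_le (h0 : 0 < l) (h1 : l < 1) {c t : ℝ≥0∞} {f g : Prof d} (h : ∀ x, c * f x ≤ g x) :
    Yv ρ l f t ≤ Yv ρ l g (c * t) := by
  rw [Yv, Yv, U_hit_eq (measurableSet_setY _) h0 h1, U_hit_eq (measurableSet_setY _) h0 h1]
  exact ENNReal.tsum_le_tsum fun n => mul_le_mul_right (hitY_le n h) _

theorem Yv_anti (h0 : 0 < l) (h1 : l < 1) {s t : ℝ≥0∞} (h : s ≤ t) (f : Prof d) :
    Yv ρ l f t ≤ Yv ρ l f s := by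
  rw [Yv, Yv, U_hit_eq (measurableSet_setY _) h0 h1, U_hit_eq (measurableSet_setY _) h0 h1]
  have hsub : setY d t ⊆ setY d s := fun g ⟨x, hx⟩ => ⟨x, h.trans hx⟩
  exact ENNReal.tsum_le_tsum fun n => mul_le_mul_right (hit_mono_set hsub n f) _

theorem Yv_sh (v : Site d) (f : Prof d) (s : ℝ≥0∞) : Yv ρ l (sh v f) s = Yv ρ l f s := by
  have hmem : ∀ f : Prof d, sh v f ∈ setY d s ↔ f ∈ setY d s := fun f =>
    ⟨fun ⟨x, hx⟩ => ⟨x - v, hx⟩, fun ⟨x, hx⟩ => ⟨x + v, by simpa [sh] using hx⟩⟩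
  rw [Yv, Yv, gres1_U_zero]
  refine iSup_congr fun n => ?_
  induction n generalizing f with
  | zero =>
    by_cases hf : f ∈ setY d s
    · rw [gres1_Ln_mem _ hf, gres1_Ln_mem _ ((hmem f).2 hf)]
    · rw [gres1_Ln_zero hf, gres1_Ln_zero fun h => hf ((hmem f).1 h)]
  | succ n ih =>
    by_cases hf : f ∈ setY d s
    · rw [gres1_Ln_mem _ hf, gres1_Ln_mem _ ((hmem f).2 hf)]
    · rw [gres1_Ln_succ n hf, gres1_Ln_succ n fun h => hf ((hmem f).1 h),
        T_sh (gres1_meas_Ln (measurableSet_setY s) measurable_const measurable_const n)]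
      simp only [ih]

theorem Yv_mul (h0 : 0 < l) (h1 : l < 1) (f : Prof d) (s t : ℝ≥0∞) :
    Yv ρ l f s * Yv ρ l (dlt (0 : Site d)) t ≤ Yv ρ l f (s * t) := by
  have key : ∀ g ∈ setY d s, Yv ρ l (dlt (0 : Site d)) t * 1 ≤ Yv ρ l g (s * t) := by
    rintro g ⟨x, hx⟩
    rw [mul_one, ← Yv_sh x, sh_dlt]
    refine Yv_le h0 h1 fun y => ?_
    unfold dlt
    split_ifs with h
    · rw [mul_one, h]; exact hx
    · simp
  rw [mul_comm, Yv.eq_1 ρ l f s, gres1_U_zero,
    ← gres1_const_mul (measurableSet_setY s) measurable_const measurable_const]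
  refine gres1_le_of_super' (Φ := fun g => Yv ρ l g (s * t)) key (fun g _ => ?_) f
  simp only [Yv, gres1_U_zero, mul_zero, zero_add]
  exact gres1_one_super (measurableSet_setY _) (gres1_c_le h0) g

theorem Yv_add (h0 : 0 < l) (h1 : l < 1) (f g : Prof d) (s t : ℝ≥0∞) :
    Yv ρ l (f + g) (s + t) ≤ Yv ρ l f s + Yv ρ l g t := by
  have hmem : ∀ f g : Prof d, f + g ∈ setY d (s + t) → 1 ≤
      gres1L ρ (ENNReal.ofReal (1 - l)) (setY d s) (fun _ => 1) (fun _ => 0) f +
      gres1L ρ (ENNReal.ofReal (1 - l)) (setY d t) (fun _ => 1) (fun _ => 0) g := by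
    rintro f g ⟨x, hx⟩
    by_cases hf : s ≤ f x
    · rw [gres1_mem (show f ∈ setY d s from ⟨x, hf⟩)]; exact le_self_add
    · by_cases hg : t ≤ g x
      · rw [gres1_mem (show g ∈ setY d t from ⟨x, hg⟩)]; exact le_add_self
      · exact absurd hx (not_le.2 (ENNReal.add_lt_add (not_le.1 hf) (not_le.1 hg)))
  simp only [Yv, gres1_U_zero]
  refine iSup_le fun n => ?_
  induction n generalizing f g with
  | zero =>
    by_cases h : f + g ∈ setY d (s + t)
    · rw [gres1_Ln_mem _ h]; exact hmem f g h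
    · rw [gres1_Ln_zero h]; exact zero_le
  | succ n ih =>
    by_cases h : f + g ∈ setY d (s + t)
    · rw [gres1_Ln_mem _ h]; exact hmem f g h
    · rw [gres1_Ln_succ _ h, zero_add]
      refine le_trans ?_ (add_le_add (gres1_one_super (measurableSet_setY s) (gres1_c_le h0) f)
        (gres1_one_super (measurableSet_setY t) (gres1_c_le h0) g))
      rw [← mul_add]
      refine mul_le_mul_right ?_ _
      refine le_trans (lintegral_mono fun ξ => ?_) (lintegral_add_left ((gres1_meas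
        (measurableSet_setY s) measurable_const measurable_const).comp (measurable_step f)) _).le
      simp only [step_add]
      exact ih _ _

end Pool.Agent.Lib.MP_153faa_pr
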