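import Mathlib
import Pool.Agent.Lib.MP_153faa_pr.GRes1
import Pool.Agent.Lib.MP_153faa_pr.GLayer

/-!
Resolvent identities, first part: the calculus of `Res` and the class `Fn`.
-/

set_option autoImplicit false

open MeasureTheory Filter Topology
open scoped ENNReal NNReal

namespace Pool.Agent.Lib.MP_153faa_pr

variable {d : ℕ}

variable {ρ : Measure ℝ≥0} [IsProbabilityMeasure ρ] {l p : ℝ}

theorem gres2_T_iter_Res {Φ : Prof d → ℝ≥0∞} (hΦ : Measurable Φ) (k : ℕ) (f : Prof d) :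
    (T ρ)^[k] (Res ρ l Φ) f = ∑' n, wt l n * (T ρ)^[n + k] Φ f := by
  have h : Res ρ l Φ = fun g => ∑' n, wt l n * (T ρ)^[n] Φ g := rfl
  rw [h, T_iter_tsum (fun n => (measurable_T_iter n hΦ).const_mul _)]
  refine tsum_congr fun n => ?_
  rw [T_iter_const_mul k _ (measurable_T_iter n hΦ), add_comm n k, Function.iterate_add_apply]

theorem Res_iter (h1 : l < 1) {Φ : Prof d → ℝ≥0∞} (hΦ : Measurable Φ) (k : ℕ) (f : Prof d) :
    Res ρ l Φ f = ∑ n ∈ Finset.range k, wt l n * (T ρ)^[n] Φ f +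
      ENNReal.ofReal ((1 - l) ^ k) * (T ρ)^[k] (Res ρ l Φ) f := by
  rw [gres2_T_iter_Res hΦ, ← ENNReal.tsum_mul_left]
  unfold Res
  rw [← Summable.sum_add_tsum_nat_add' (k := k) ENNReal.summable]
  congr 1
  refine tsum_congr fun n => ?_
  rw [wt_add h1, mul_assoc]

theorem Res_fix (h1 : l < 1) {Φ : Prof d → ℝ≥0∞} (hΦ : Measurable Φ) (f : Prof d) :
    Res ρ l Φ f = ENNReal.ofReal l * Φ f + ENNReal.ofReal (1 - l) * T ρ (Res ρ l Φ) f := by
  have h := Res_iter (ρ := ρ) h1 hΦ 1 f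
  simpa [wt] using h

theorem Res_add {Φ Ψ : Prof d → ℝ≥0∞} (hΦ : Measurable Φ) (f : Prof d) :
    Res ρ l (fun g => Φ g + Ψ g) f = Res ρ l Φ f + Res ρ l Ψ f := by
  unfold Res
  simp only [T_iter_add _ hΦ, mul_add, ENNReal.tsum_add]

theorem Res_const_mul {Φ : Prof d → ℝ≥0∞} (hΦ : Measurable Φ) (c : ℝ≥0∞) (f : Prof d) :
    Res ρ l (fun g => c * Φ g) f = c * Res ρ l Φ f := by
  unfold Res
  simp only [T_iter_const_mul _ c hΦ, mul_left_comm _ c, ENNReal.tsum_mul_left]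

theorem Res_const (h0 : 0 < l) (h1 : l < 1) (c : ℝ≥0∞) (f : Prof d) :
    Res ρ l (fun _ => c) f = c := by
  unfold Res
  simp only [T_iter_const, ENNReal.tsum_mul_right, wt_tsum h0 h1, one_mul]

theorem Res_mono {Φ Ψ : Prof d → ℝ≥0∞} (h : ∀ g, Φ g ≤ Ψ g) (f : Prof d) :
    Res ρ l Φ f ≤ Res ρ l Ψ f :=
  ENNReal.tsum_le_tsum fun n => by gcongr; exact T_iter_mono n h f

theorem Res_mono_nice (hd : 1 ≤ d) {Φ Ψ : Prof d → ℝ≥0∞} (h : ∀ g, Nice g → Φ g ≤ Ψ g)
    {f : Prof d} (hf : Nice f) : Res ρ l Φ f ≤ Res ρ l Ψ f :=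
  ENNReal.tsum_le_tsum fun n => by gcongr; exact T_iter_mono_nice hd h n hf

theorem gres2_Res_congr (hd : 1 ≤ d) {Φ Ψ : Prof d → ℝ≥0∞} (h : ∀ g, Nice g → Φ g = Ψ g)
    {f : Prof d} (hf : Nice f) : Res ρ l Φ f = Res ρ l Ψ f :=
  le_antisymm (Res_mono_nice hd (fun g hg => (h g hg).le) hf)
    (Res_mono_nice hd (fun g hg => (h g hg).ge) hf)

theorem Res_mass (hd : 1 ≤ d) (hm : Mean1 ρ) (h0 : 0 < l) (h1 : l < 1) (f : Prof d) :
    Res ρ l mass f = mass f := by
  unfold Res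
  simp only [T_iter_mass hd hm, ENNReal.tsum_mul_right, wt_tsum h0 h1, one_mul]

theorem Res_env {Φ : Prof d → ℝ≥0∞} (hΦ : Measurable Φ) (f : Prof d) :
    Res ρ l Φ f = ∑' n, wt l n * ∫⁻ ω, Φ (ev n ω f) ∂env d ρ := by
  unfold Res
  simp only [T_iter_eq _ hΦ]

theorem gres2_geom (x y : ℝ) (n : ℕ) :
    (y - x) * ∑ q ∈ Finset.HasAntidiagonal.antidiagonal n, x ^ q.1 * y ^ q.2 = y ^ (n + 1) - x ^ (n + 1) := by
  induction n with
  | zero => simp
  | succ n ih =>
    rw [Finset.Nat.sum_antidiagonal_succ]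
    have : ∑ q ∈ Finset.HasAntidiagonal.antidiagonal n, x ^ (q.1 + 1) * y ^ q.2 =
        x * ∑ q ∈ Finset.HasAntidiagonal.antidiagonal n, x ^ q.1 * y ^ q.2 := by
      rw [Finset.mul_sum]
      exact Finset.sum_congr rfl fun q _ => by ring
    simp only [this]
    have h2 : (y - x) * (x ^ 0 * y ^ (n + 1) +
        x * ∑ q ∈ Finset.HasAntidiagonal.antidiagonal n, x ^ q.1 * y ^ q.2) = (y - x) * y ^ (n + 1) +
        x * ((y - x) * ∑ q ∈ Finset.HasAntidiagonal.antidiagonal n, x ^ q.1 * y ^ q.2) := by ring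
    rw [h2, ih]
    ring

theorem gres2_wt_two {l' : ℝ} (h0 : 0 < l') (h : l' ≤ l) (h1 : l < 1) (n : ℕ) :
    wt l' n = ENNReal.ofReal (l' * (1 - l) / (l * (1 - l'))) * wt l n +
      ENNReal.ofReal ((l - l') / (l * (1 - l'))) *
        ∑ q ∈ Finset.HasAntidiagonal.antidiagonal n, wt l q.1 * wt l' q.2 := by
  have hl : 0 < l := h0.trans_le h
  have ha : 0 < 1 - l := by linarith
  have hb : 0 < 1 - l' := by linarith
  have hc : 0 ≤ l - l' := by linarith
  have e1 : ∑ q ∈ Finset.HasAntidiagonal.antidiagonal n, wt l q.1 * wt l' q.2 = ENNReal.ofReal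
      (l * l' * ∑ q ∈ Finset.HasAntidiagonal.antidiagonal n, (1 - l) ^ q.1 * (1 - l') ^ q.2) := by
    rw [Finset.mul_sum, ENNReal.ofReal_sum_of_nonneg fun q _ => by positivity]
    refine Finset.sum_congr rfl fun q _ => ?_
    unfold wt
    rw [← ENNReal.ofReal_mul (by positivity)]
    congr 1
    ring
  have hS : 0 ≤ ∑ q ∈ Finset.HasAntidiagonal.antidiagonal n, (1 - l) ^ q.1 * (1 - l') ^ q.2 :=
    Finset.sum_nonneg fun q _ => by positivity
  rw [e1]
  unfold wt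
  rw [← ENNReal.ofReal_mul (by positivity), ← ENNReal.ofReal_mul (by positivity),
    ← ENNReal.ofReal_add (by positivity) (by positivity)]
  congr 1
  have e2 := gres2_geom (1 - l) (1 - l') n
  have e3 : (l - l') / (l * (1 - l')) *
      (l * l' * ∑ q ∈ Finset.HasAntidiagonal.antidiagonal n, (1 - l) ^ q.1 * (1 - l') ^ q.2) =
      l' / (1 - l') * ((1 - l' - (1 - l)) *
        ∑ q ∈ Finset.HasAntidiagonal.antidiagonal n, (1 - l) ^ q.1 * (1 - l') ^ q.2) := by
    field_simp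
    ring
  rw [e3, e2]
  field_simp
  ring

theorem gres2_tsum_anti (F : ℕ × ℕ → ℝ≥0∞) :
    ∑' i, ∑' j, F (i, j) = ∑' n, ∑ q ∈ Finset.HasAntidiagonal.antidiagonal n, F q := by
  rw [← ENNReal.tsum_prod' (f := F), 
    ← Finset.HasAntidiagonal.sigmaAntidiagonalEquivProd.tsum_eq F,
    ENNReal.tsum_sigma']
  refine tsum_congr fun n => ?_
  rw [← Finset.tsum_subtype]
  rfl

/-- Resolvent identity. -/
theorem Res_two {l' : ℝ} (h0 : 0 < l') (h : l' ≤ l) (h1 : l < 1) {Φ : Prof d → ℝ≥0∞}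
    (hΦ : Measurable Φ) (f : Prof d) :
    Res ρ l' Φ f = ENNReal.ofReal (l' * (1 - l) / (l * (1 - l'))) * Res ρ l Φ f +
      ENNReal.ofReal ((l - l') / (l * (1 - l'))) * Res ρ l (Res ρ l' Φ) f := by
  have e : Res ρ l (Res ρ l' Φ) f = ∑' n,
      (∑ q ∈ Finset.HasAntidiagonal.antidiagonal n, wt l q.1 * wt l' q.2) * (T ρ)^[n] Φ f := by
    have e1 : Res ρ l (Res ρ l' Φ) f =
        ∑' i, ∑' j, wt l i * wt l' j * (T ρ)^[i + j] Φ f := by
      conv_lhs => unfold Res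
      refine tsum_congr fun i => ?_
      have := gres2_T_iter_Res (ρ := ρ) (l := l') hΦ i f
      unfold Res at this
      rw [this, ← ENNReal.tsum_mul_left]
      refine tsum_congr fun j => ?_
      rw [add_comm j i, mul_assoc]
    rw [e1, gres2_tsum_anti fun q => wt l q.1 * wt l' q.2 * (T ρ)^[q.1 + q.2] Φ f]
    refine tsum_congr fun n => ?_
    rw [Finset.sum_mul]
    refine Finset.sum_congr rfl fun q hq => ?_
    rw [Finset.HasAntidiagonal.mem_antidiagonal.1 hq]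
  rw [e]
  unfold Res
  rw [← ENNReal.tsum_mul_left, ← ENNReal.tsum_mul_left, ← ENNReal.tsum_add]
  refine tsum_congr fun n => ?_
  rw [gres2_wt_two h0 h h1 n]
  ring

theorem gres2_sub_mono (hd : 1 ≤ d) {Φ : Prof d → ℝ≥0∞}
    (hs : ∀ g, Nice g → Φ g ≤ T ρ Φ g) {f : Prof d} (hf : Nice f) :
    Monotone fun n => (T ρ)^[n] Φ f :=
  monotone_nat_of_le_succ fun n => by
    rw [Function.iterate_succ_apply]
    exact T_iter_mono_nice hd hs n hf

theorem gres2_sub_mono' {Φ : Prof d → ℝ≥0∞} (hs : ∀ g, Φ g ≤ T ρ Φ g) (f : Prof d) :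
    Monotone fun n => (T ρ)^[n] Φ f :=
  monotone_nat_of_le_succ fun n => by
    rw [Function.iterate_succ_apply]
    exact T_iter_mono n hs f

theorem gres2_tail_le (h0 : 0 < l) (h1 : l < 1) {a : ℕ → ℝ≥0∞} (ha : Monotone a) (k : ℕ) :
    ENNReal.ofReal ((1 - l) ^ k) * a k ≤ ∑' n, wt l n * a n := by
  rw [← wt_tail h0 h1, ← ENNReal.tsum_mul_right,
    ← Summable.sum_add_tsum_nat_add' (f := fun n => wt l n * a n) (k := k) ENNReal.summable]
  refine le_trans (ENNReal.tsum_le_tsum fun n => ?_) le_add_self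
  gcongr
  exact ha (Nat.le_add_left k n)

theorem le_Res (hd : 1 ≤ d) (h0 : 0 < l) (h1 : l < 1) {Φ : Prof d → ℝ≥0∞}
    (hs : ∀ g, Nice g → Φ g ≤ T ρ Φ g) (k : ℕ) {f : Prof d} (hf : Nice f) :
    ENNReal.ofReal ((1 - l) ^ k) * (T ρ)^[k] Φ f ≤ Res ρ l Φ f :=
  gres2_tail_le h0 h1 (gres2_sub_mono hd hs hf) k

theorem gres2_le_Res (h0 : 0 < l) (h1 : l < 1) {Φ : Prof d → ℝ≥0∞}
    (hs : ∀ g, Φ g ≤ T ρ Φ g) (f : Prof d) : Φ f ≤ Res ρ l Φ f := by
  have h := gres2_tail_le h0 h1 (gres2_sub_mono' hs f) 0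
  rwa [pow_zero, ENNReal.ofReal_one, one_mul] at h

theorem Res_sub (hd : 1 ≤ d) {Φ : Prof d → ℝ≥0∞} (hΦ : Measurable Φ)
    (hs : ∀ g, Nice g → Φ g ≤ T ρ Φ g) {f : Prof d} (hf : Nice f) :
    Res ρ l Φ f ≤ T ρ (Res ρ l Φ) f := by
  have h := gres2_T_iter_Res (ρ := ρ) (l := l) hΦ 1 f
  rw [Function.iterate_one] at h
  rw [h]
  refine ENNReal.tsum_le_tsum fun n => ?_
  gcongr
  exact gres2_sub_mono hd hs hf (Nat.le_succ n)

theorem gres2_Res_sub {Φ : Prof d → ℝ≥0∞} (hΦ : Measurable Φ)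
    (hs : ∀ g, Φ g ≤ T ρ Φ g) (f : Prof d) : Res ρ l Φ f ≤ T ρ (Res ρ l Φ) f := by
  have h := gres2_T_iter_Res (ρ := ρ) (l := l) hΦ 1 f
  rw [Function.iterate_one] at h
  rw [h]
  refine ENNReal.tsum_le_tsum fun n => ?_
  gcongr
  exact gres2_sub_mono' hs f (Nat.le_succ n)

theorem Res_horizon (hd : 1 ≤ d) {l' : ℝ} (h0 : 0 < l') (h : l' ≤ l) (h1 : l < 1)
    {Φ : Prof d → ℝ≥0∞} (hΦ : Measurable Φ) (hs : ∀ g, Nice g → Φ g ≤ T ρ Φ g) {f : Prof d}
    (hf : Nice f) : Res ρ l Φ f ≤ Res ρ l' Φ f := by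
  have hl : 0 < l := h0.trans_le h
  have ha : 0 < 1 - l := by linarith
  have hb : 0 < 1 - l' := by linarith
  have hc : 0 ≤ l - l' := by linarith
  have e : ENNReal.ofReal (l' * (1 - l) / (l * (1 - l'))) +
      ENNReal.ofReal ((l - l') / (l * (1 - l'))) = 1 := by
    rw [← ENNReal.ofReal_add (by positivity) (by positivity), ← ENNReal.ofReal_one]
    congr 1
    field_simp
    ring
  have hle : Res ρ l Φ f ≤ Res ρ l (Res ρ l' Φ) f := Res_mono_nice hd (fun g hg => by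
    simpa using le_Res hd h0 (h.trans_lt h1) hs 0 hg) hf
  rw [Res_two h0 h h1 hΦ f]
  calc Res ρ l Φ f = (ENNReal.ofReal (l' * (1 - l) / (l * (1 - l'))) +
      ENNReal.ofReal ((l - l') / (l * (1 - l')))) * Res ρ l Φ f := by rw [e, one_mul]
    _ ≤ _ := by rw [add_mul]; gcongr

theorem pay_sub (hd : 1 ≤ d) (hm : Mean1 ρ) {g : ℝ → ℝ} (hg : ConvexOn ℝ (Set.Ici 0) g)
    (mg : Measurable g) (h0 : ∀ x, 0 ≤ x → 0 ≤ g x) {f : Prof d} (hf : Nice f) :
    lift g (mass f) ≤ T ρ (fun u => lift g (mass u)) f := by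
  have hc : ∑' x, avg f x = mass f := mass_avg hd f
  have h := lay_jensen_pay hm hg mg h0 (avg f) (by rw [hc]; exact hf.mass_ne_top)
  rw [hc] at h
  unfold T
  simp only [mass_step]
  exact h

theorem gres2_mass_zero : mass (0 : Prof d) = 0 := by simp [mass]

theorem gres2_mass_mix {ι : Type*} (w : ι → ℝ≥0∞) (F : ι → Prof d) :
    mass (fun x => ∑' i, w i * F i x) = ∑' i, w i * mass (F i) := by
  rw [mass_tsum fun i x => w i * F i x]
  simp only [mass_smul]

theorem fn_mq (hp : 1 ≤ p) : Fn p (mq p : Prof d → ℝ≥0∞) where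
  meas := measurable_mq p
  mono f g h := ENNReal.rpow_le_rpow (mass_mono h) (by linarith)
  shift := mq_sh p
  conv ι _ w F hw := by
    unfold mq
    rw [gres2_mass_mix]
    have := tsum_pow_le w (fun i => mass (F i)) hp
    rwa [hw, ENNReal.one_rpow, one_mul] at this
  scale c f _ := by
    unfold mq
    rw [mass_sca, ENNReal.mul_rpow_of_nonneg _ _ (by linarith)]
  zero := by
    unfold mq
    rw [gres2_mass_zero, ENNReal.zero_rpow_of_pos (by linarith)]

theorem gres2_lift_top (g : ℝ → ℝ) : lift g ⊤ = ⊤ := by simp [lift]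

theorem gres2_lift_of {g : ℝ → ℝ} {w : ℝ≥0∞} (hw : w ≠ ⊤) :
    lift g w = ENNReal.ofReal (g w.toReal) := by simp [lift, hw]

theorem gres2_lift_mono {g g' : ℝ → ℝ} (h : ∀ x, 0 ≤ x → g x ≤ g' x) (w : ℝ≥0∞) :
    lift g w ≤ lift g' w := by
  by_cases hw : w = ⊤
  · rw [hw, gres2_lift_top, gres2_lift_top]
  · rw [gres2_lift_of hw, gres2_lift_of hw]
    exact ENNReal.ofReal_le_ofReal (h _ ENNReal.toReal_nonneg)

theorem gres2_affine {g : ℝ → ℝ} (hg : ∀ x, 0 ≤ x → 0 ≤ g x) {a s b : ℝ} (ha : 0 ≤ a)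
    (hs : 0 ≤ s) (hb : 0 ≤ b) (h : ∀ x, 0 ≤ x → a + s * x ≤ g x + b) {ι : Type*}
    (w m : ι → ℝ≥0∞) (hw : ∑' i, w i = 1) :
    ENNReal.ofReal a + ENNReal.ofReal s * ∑' i, w i * m i ≤
      ∑' i, w i * lift g (m i) + ENNReal.ofReal b := by
  have key : ∀ u : ℝ≥0∞, ENNReal.ofReal a + ENNReal.ofReal s * u ≤
      lift g u + ENNReal.ofReal b := fun u => by
    by_cases hu : u = ⊤
    · rw [hu, gres2_lift_top, top_add]; exact le_top
    · rw [gres2_lift_of hu]
      conv_lhs => rw [← ENNReal.ofReal_toReal hu]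
      rw [← ENNReal.ofReal_mul hs, ← ENNReal.ofReal_add ha (by positivity),
        ← ENNReal.ofReal_add (hg _ ENNReal.toReal_nonneg) hb]
      exact ENNReal.ofReal_le_ofReal (h _ ENNReal.toReal_nonneg)
  calc ENNReal.ofReal a + ENNReal.ofReal s * ∑' i, w i * m i
      = ∑' i, w i * (ENNReal.ofReal a + ENNReal.ofReal s * m i) := by
        simp only [mul_add, ENNReal.tsum_add, ENNReal.tsum_mul_right, hw, one_mul,
          mul_left_comm _ (ENNReal.ofReal s), ENNReal.tsum_mul_left]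
    _ ≤ ∑' i, w i * (lift g (m i) + ENNReal.ofReal b) :=
        ENNReal.tsum_le_tsum fun i => mul_le_mul_right (key _) _
    _ = _ := by
        simp only [mul_add, ENNReal.tsum_add, ENNReal.tsum_mul_right, hw, one_mul]

theorem gres2_subgrad {g : ℝ → ℝ} (hg : ConvexOn ℝ (Set.Ici 0) g)
    (hm : MonotoneOn g (Set.Ici 0)) {S : ℝ} (hS : 0 < S) :
    ∃ s, 0 ≤ s ∧ ∀ x, 0 ≤ x → g S + s * x ≤ g x + s * S := by
  have hne : (Set.image (fun x => (g S - g x) / (S - x)) (Set.Ico 0 S)).Nonempty :=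
    ⟨_, 0, ⟨le_rfl, hS⟩, rfl⟩
  have hub : ∀ y, S < y → (g y - g S) / (y - S) ∈
      upperBounds (Set.image (fun x => (g S - g x) / (S - x)) (Set.Ico 0 S)) := by
    rintro y hy _ ⟨x, hx, rfl⟩
    exact hg.slope_mono_adjacent hx.1 (show (0 : ℝ) ≤ y by linarith) hx.2 hy
  have hbdd : BddAbove (Set.image (fun x => (g S - g x) / (S - x)) (Set.Ico 0 S)) :=
    ⟨_, hub (S + 1) (by linarith)⟩
  refine ⟨sSup (Set.image (fun x => (g S - g x) / (S - x)) (Set.Ico 0 S)), ?_, fun x hx => ?_⟩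
  · refine le_trans ?_ (le_csSup hbdd ⟨0, ⟨le_rfl, hS⟩, rfl⟩)
    have : g 0 ≤ g S := hm (show (0 : ℝ) ≤ 0 from le_rfl) hS.le hS.le
    exact div_nonneg (by linarith) (by linarith)
  · rcases lt_trichotomy x S with h | h | h
    · have := le_csSup hbdd ⟨x, ⟨hx, h⟩, rfl⟩
      rw [div_le_iff₀ (by linarith)] at this
      linarith
    · rw [h]
    · have := csSup_le hne (hub x h)
      rw [le_div_iff₀ (by linarith)] at this
      linarith

theorem gres2_lift_jensen {g : ℝ → ℝ} (hg : ConvexOn ℝ (Set.Ici 0) g)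
    (hm : MonotoneOn g (Set.Ici 0)) (h0 : g 0 = 0) {x₀ : ℝ} (hx₀ : 0 < x₀) (hgx : 0 < g x₀)
    {ι : Type*} (w m : ι → ℝ≥0∞) (hw : ∑' i, w i = 1) :
    lift g (∑' i, w i * m i) ≤ ∑' i, w i * lift g (m i) := by
  have hpos : ∀ x, 0 ≤ x → 0 ≤ g x := fun x hx => by
    rw [← h0]; exact hm (show (0 : ℝ) ≤ 0 from le_rfl) hx hx
  by_cases hS : ∑' i, w i * m i = ⊤
  · obtain ⟨s, hs0, hs⟩ := gres2_subgrad hg hm hx₀
    have hs1 : 0 < s := by
      have := hs 0 le_rfl
      rw [h0] at this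
      by_contra hn
      have : s = 0 := le_antisymm (not_lt.1 hn) hs0
      subst this
      linarith
    have := gres2_affine hpos hgx.le hs0 (by positivity) hs w m hw
    rw [hS, ENNReal.mul_top (by simpa using hs1), add_top, top_le_iff,
      ENNReal.add_eq_top] at this
    rcases this with h | h
    · rw [h]; exact le_top
    · exact absurd h ENNReal.ofReal_ne_top
  · rw [gres2_lift_of hS]
    rcases (ENNReal.toReal_nonneg (a := ∑' i, w i * m i)).eq_or_lt with h | h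
    · rw [← h, h0, ENNReal.ofReal_zero]; exact zero_le
    · obtain ⟨s, hs0, hs⟩ := gres2_subgrad hg hm h
      have := gres2_affine hpos (hpos _ h.le) hs0 (by positivity) hs w m hw
      rw [ENNReal.ofReal_mul hs0, ENNReal.ofReal_toReal hS] at this
      exact (ENNReal.add_le_add_iff_right (ENNReal.mul_ne_top ENNReal.ofReal_ne_top hS)).1 this

theorem gres2_lift_sca (hp : 1 < p) {M c : ℝ} (hM : 0 ≤ M) (hc : 0 < c) (w : ℝ≥0∞) :
    lift (th p (c * M)) (ENNReal.ofReal c * w) = ENNReal.ofReal (c ^ p) * lift (th p M) w := by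
  by_cases hw : w = ⊤
  · rw [hw, ENNReal.mul_top (by simpa using hc), gres2_lift_top, gres2_lift_top,
      ENNReal.mul_top (by simpa using Real.rpow_pos_of_pos hc p)]
  · rw [gres2_lift_of hw, gres2_lift_of (ENNReal.mul_ne_top ENNReal.ofReal_ne_top hw),
      ENNReal.toReal_mul, ENNReal.toReal_ofReal hc.le,
      th_mul hp hc.le hM ENNReal.toReal_nonneg, ENNReal.ofReal_mul (by positivity)]

theorem fn_th (hp : 1 < p) (hp2 : p < 2) {M : ℝ} (hM : 0 < M) :
    Fn p (fun g : Prof d => lift (th p M) (mass g)) where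
  meas := (measurable_lift (measurable_th p M)).comp measurable_mass
  mono f g h := by
    have hfg := mass_mono h
    by_cases hg : mass g = ⊤
    · rw [hg, gres2_lift_top]; exact le_top
    · have hf : mass f ≠ ⊤ := ne_top_of_le_ne_top hg hfg
      rw [gres2_lift_of hg, gres2_lift_of hf]
      exact ENNReal.ofReal_le_ofReal (th_mono hp hp2.le hM.le ENNReal.toReal_nonneg
        ENNReal.toReal_nonneg (ENNReal.toReal_mono hg hfg))
  shift v f := by rw [mass_sh]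
  conv ι _ w F hw := by
    rw [gres2_mass_mix]
    obtain ⟨x₀, hx₀, hx₁⟩ := (((th_unbounded hp hp2 hM).eventually_gt_atTop 0).and
      (eventually_gt_atTop 0)).exists
    exact gres2_lift_jensen (th_convex hp hp2.le hM.le) (th_mono hp hp2.le hM.le) (th_zero hp)
      hx₁ hx₀ w _ hw
  scale c f hc := by
    have hc' : (1 : ℝ) ≤ c := hc
    have e : (c : ℝ≥0∞) = ENNReal.ofReal c := (ENNReal.ofReal_coe_nnreal).symm
    rw [mass_sca, e, ENNReal.ofReal_rpow_of_pos (by linarith),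
      ← gres2_lift_sca hp hM.le (by linarith)]
    exact gres2_lift_mono (fun x hx => th_mono_lev hp hp2.le hM.le (by nlinarith) hx) _
  zero := by
    rw [gres2_mass_zero, gres2_lift_of (by simp)]
    simp [th_zero hp]

theorem gres2_ev_zero (n : ℕ) (ω : ℕ → Layer d) : ev n ω (0 : Prof d) = 0 := by
  have h := ev_smul n ω 0 (0 : Prof d)
  simp only [zero_mul] at h
  exact h

theorem gres2_ev_mix {ι : Type*} (n : ℕ) (ω : ℕ → Layer d) (w : ι → ℝ≥0∞) (F : ι → Prof d) :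
    ev n ω (fun x => ∑' i, w i * F i x) = fun x => ∑' i, w i * ev n ω (F i) x := by
  rw [ev_tsum n ω fun i x => w i * F i x]
  simp only [ev_smul]

theorem gres2_Res_sh {Φ : Prof d → ℝ≥0∞} (hΦ : Measurable Φ) (hs : ∀ v g, Φ (sh v g) = Φ g)
    (v : Site d) (f : Prof d) : Res ρ l Φ (sh v f) = Res ρ l Φ f := by
  unfold Res
  simp only [T_iter_sh _ hΦ, hs]

theorem Fn.res {Φ : Prof d → ℝ≥0∞} (h : Fn p Φ) (l : ℝ) : Fn p (Res ρ l Φ) where
  meas := measurable_Res h.meas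
  mono f g hfg := by
    rw [Res_env h.meas, Res_env h.meas]
    refine ENNReal.tsum_le_tsum fun n => ?_
    gcongr with ω
    exact h.mono _ _ (ev_mono n ω hfg)
  shift := gres2_Res_sh h.meas h.shift
  conv ι _ w F hw := by
    simp only [Res_env h.meas, ← ENNReal.tsum_mul_left]
    rw [ENNReal.tsum_comm]
    refine ENNReal.tsum_le_tsum fun n => ?_
    simp only [mul_left_comm (w _), ENNReal.tsum_mul_left]
    gcongr
    have hme : ∀ i, Measurable fun ω => Φ (ev n ω (F i)) := fun i =>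
      h.meas.comp (measurable_ev n (F i))
    simp only [← lintegral_const_mul _ (hme _)]
    rw [← lintegral_tsum fun i => ((hme i).const_mul _).aemeasurable]
    refine lintegral_mono fun ω => ?_
    rw [gres2_ev_mix]
    exact h.conv ι w _ hw
  scale c f hc := by
    simp only [Res_env h.meas, ← ENNReal.tsum_mul_left]
    refine ENNReal.tsum_le_tsum fun n => ?_
    rw [mul_left_comm]
    gcongr
    have hme : Measurable fun ω => Φ (ev n ω f) := h.meas.comp (measurable_ev n f)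
    rw [← lintegral_const_mul _ hme]
    refine lintegral_mono fun ω => ?_
    rw [ev_sca]
    exact h.scale c _ hc
  zero := by
    simp [Res_env h.meas, gres2_ev_zero, h.zero]

theorem Fn.const_mul {Φ : Prof d → ℝ≥0∞} (h : Fn p Φ) (c : ℝ≥0∞) : Fn p fun g => c * Φ g where
  meas := h.meas.const_mul c
  mono f g hfg := by gcongr; exact h.mono f g hfg
  shift v f := by rw [h.shift]
  conv ι _ w F hw := by
    simp only [mul_left_comm (w _), ENNReal.tsum_mul_left]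
    gcongr
    exact h.conv ι w F hw
  scale a f ha := by
    rw [mul_left_comm]
    gcongr
    exact h.scale a f ha
  zero := by rw [h.zero, mul_zero]

theorem gres2_avg_iter_mix (n : ℕ) (f : Prof d) :
    avg^[n] f = fun x => ∑' v, phi d n v * sh v f x := by
  funext x
  rw [avg_iter_eq_phi, ← (Equiv.subLeft x).tsum_eq]
  refine tsum_congr fun v => ?_
  simp [sh, mul_comm]

theorem gres2_fn_avg (hd : 1 ≤ d) {Φ : Prof d → ℝ≥0∞} (h : Fn p Φ) (n : ℕ) (f : Prof d) :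
    Φ (avg^[n] f) ≤ Φ f := by
  have hw : ∑' v, phi d n v = 1 := mass_phi hd n
  have := h.conv (Site d) (phi d n) (fun v => sh v f) hw
  rw [gres2_avg_iter_mix]
  simpa only [h.shift, ENNReal.tsum_mul_right, hw, one_mul] using this

end Pool.Agent.Lib.MP_153faa_pr
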