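import Mathlib
import Pool.Agent.Lib.MP_153faa_pr.GRes1
import Pool.Agent.Lib.MP_153faa_pr.GLayer
import Pool.Agent.Lib.MP_153faa_pr.GRes2A

/-!
Resolvent identities, second part: the functionals `HH`, `XX`, `JJ`, `HT`.
-/

set_option autoImplicit false

open MeasureTheory Filter Topology
open scoped ENNReal NNReal

namespace Pool.Agent.Lib.MP_153faa_pr

variable {d : ℕ}

variable {ρ : Measure ℝ≥0} [IsProbabilityMeasure ρ] {l p : ℝ}

theorem fn_HH (hp : 1 ≤ p) : Fn p (HH ρ p l : Prof d → ℝ≥0∞) := (fn_mq hp).res l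

theorem measurable_HH : Measurable (HH ρ p l : Prof d → ℝ≥0∞) :=
  measurable_Res (measurable_mq p)

theorem HH_lin (f : Prof d) :
    HH ρ p l f = ∑' n, wt l n * ∫⁻ ω, lin (AW n ω) f ^ p ∂env d ρ := by
  unfold HH
  rw [Res_env (measurable_mq p)]
  simp only [lin_AW, mq]

theorem OO_eq : OO d ρ p l = ∑' n, wt l n * Mom d ρ p n := rfl

theorem gres2_AW_mom (n : ℕ) (z : Site d) : ∫⁻ ω, AW n ω z ^ p ∂env d ρ = Mom d ρ p n :=
  lintegral_mq_dlt p n z

theorem OO_AW (z : Site d) : ∑' n, wt l n * ∫⁻ ω, AW n ω z ^ p ∂env d ρ = OO d ρ p l := by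
  simp only [gres2_AW_mom, OO_eq]

theorem HH_le (hp : 1 ≤ p) (f : Prof d) : HH ρ p l f ≤ OO d ρ p l * mq p f := by
  rw [OO_eq, ← ENNReal.tsum_mul_right]
  refine ENNReal.tsum_le_tsum fun n => ?_
  rw [mul_assoc, mul_comm (Mom d ρ p n)]
  gcongr
  exact T_iter_mq_le hp n f

theorem mq_le_HH (hd : 1 ≤ d) (hm : Mean1 ρ) (hp : 1 ≤ p) (h0 : 0 < l) (h1 : l < 1)
    (f : Prof d) : mq p f ≤ HH ρ p l f :=
  gres2_le_Res h0 h1 (mq_le_T hd hm hp) f

theorem gres2_mq_of {f : Prof d} (h : mass f = 1) : mq p f = 1 := by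
  unfold mq; rw [h, ENNReal.one_rpow]

theorem one_le_OO (hd : 1 ≤ d) (hm : Mean1 ρ) (hp : 1 ≤ p) (h0 : 0 < l) (h1 : l < 1) :
    1 ≤ OO d ρ p l := by
  have h := mq_le_HH hd hm hp h0 h1 (dlt (0 : Site d))
  rwa [gres2_mq_of (mass_dlt 0)] at h

theorem Mom_le_OO (hd : 1 ≤ d) (hm : Mean1 ρ) (hp : 1 ≤ p) (h0 : 0 < l) (h1 : l < 1) (n : ℕ) :
    ENNReal.ofReal ((1 - l) ^ n) * Mom d ρ p n ≤ OO d ρ p l :=
  gres2_tail_le h0 h1 (Mom_mono hd hm hp) n

theorem OO_horizon (hd : 1 ≤ d) (hm : Mean1 ρ) (hp : 1 ≤ p) {l' : ℝ} (h0 : 0 < l') (h : l' ≤ l)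
    (h1 : l < 1) : OO d ρ p l ≤ OO d ρ p l' :=
  Res_horizon hd h0 h h1 (measurable_mq p) (fun g _ => mq_le_T hd hm hp g) (nice_dlt 0)

theorem OO_mono_p (hd : 1 ≤ d) (hm : Mean1 ρ) {p' : ℝ} (hp : 1 ≤ p') (h : p' ≤ p) (h0 : 0 < l)
    (h1 : l < 1) : OO d ρ p' l ≤ OO d ρ p l := by
  have _ := h0
  have _ := h1
  rw [OO_eq, OO_eq]
  refine ENNReal.tsum_le_tsum fun n => mul_le_mul_right ?_ _
  have hp0 : 0 < p' := by linarith
  have hq : 1 ≤ p / p' := (one_le_div hp0).2 h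
  have hone : 1 ≤ Mom d ρ p' n := by
    have := Mom_mono hd hm hp (Nat.zero_le n)
    rwa [Mom_zero] at this
  have hme : Measurable fun ω : ℕ → Layer d => AW n ω 0 ^ p' :=
    ((measurable_pi_apply 0).comp (measurable_AW n)).pow_const _
  have hj := jensen_convex (env d ρ) hme.aemeasurable hq
  simp only [← ENNReal.rpow_mul, mul_div_cancel₀ p hp0.ne', gres2_AW_mom] at hj
  refine le_trans ?_ hj
  simpa using ENNReal.rpow_le_rpow_of_exponent_le hone hq

theorem gres2_Res_sca {Φ Ψ : Prof d → ℝ≥0∞} (hΦ : Measurable Φ) (hΨ : Measurable Ψ)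
    {a b : ℝ≥0∞} (h : ∀ g, Φ (sca a g) = b * Ψ g) (f : Prof d) :
    Res ρ l Φ (sca a f) = b * Res ρ l Ψ f := by
  rw [← Res_const_mul hΨ, Res_env hΦ, Res_env (hΨ.const_mul b)]
  simp only [ev_sca, h]

theorem HH_sca (hp : 0 < p) (c : ℝ≥0∞) (f : Prof d) :
    HH ρ p l (sca c f) = c ^ p * HH ρ p l f :=
  gres2_Res_sca (measurable_mq p) (measurable_mq p) (fun g => by
    unfold mq; rw [mass_sca, ENNReal.mul_rpow_of_nonneg _ _ hp.le]) f

theorem site_le_HH (hp : 1 ≤ p) (f : Prof d) (x : Site d) :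
    f x ^ p * OO d ρ p l ≤ HH ρ p l f := by
  have e : OO d ρ p l = HH ρ p l (dlt x) := by
    rw [← sh_dlt x, (fn_HH hp).shift]; rfl
  rw [e, ← HH_sca (by linarith)]
  refine (fn_HH hp).mono _ _ fun y => ?_
  unfold sca dlt
  split_ifs with h
  · rw [h, mul_one]
  · rw [mul_zero]; exact zero_le

theorem gres2_meas_AWj (n j : ℕ) : Measurable fun ω : ℕ → Layer d => avg^[j] (AW n ω) :=
  (measurable_avg_iter j).comp (measurable_AW n)

theorem gres2_meas_linAW (n : ℕ) (f : Prof d) :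
    Measurable fun ω : ℕ → Layer d => lin (AW n ω) f ^ p :=
  (measurable_lin2.comp ((measurable_AW n).prodMk measurable_const)).pow_const p

theorem gres2_T_HH (j : ℕ) (f : Prof d) :
    T ρ (fun g => HH ρ p l (avg^[j] g)) f = ∑' n, wt l n * ∫⁻ ω, ∫⁻ ξ,
      (∑' x, (avg f x * avg^[j] (AW n ω) x) * (ξ x : ℝ≥0∞)) ^ p ∂lay d ρ ∂env d ρ := by
  have hme : ∀ n, Measurable (Function.uncurry
      fun (ω : ℕ → Layer d) (g : Prof d) => lin (avg^[j] (AW n ω)) g ^ p) := fun n =>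
    (measurable_lin2.comp (((gres2_meas_AWj n j).comp measurable_fst).prodMk
      measurable_snd)).pow_const p
  have hme2 : ∀ n, Measurable fun g : Prof d =>
      ∫⁻ ω, lin (avg^[j] (AW n ω)) g ^ p ∂env d ρ := fun n => (hme n).lintegral_prod_left'
  simp only [HH_lin, lin_avg_iter]
  rw [T_tsum fun n => (hme2 n).const_mul _]
  refine tsum_congr fun n => ?_
  rw [T_const_mul _ (hme2 n), T_lintegral _ (hme n)]
  unfold T
  simp only [lin_step]

theorem gres2_lin_succ (j : ℕ) (A f : Prof d) :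
    ∑' x, avg f x * avg^[j] A x = lin A (avg^[j + 1] f) := by
  rw [Function.iterate_succ_apply, lin_avg_iter]
  rfl

theorem gres2_HH_avg (hm : Mean1 ρ) (hp : 1 ≤ p) (j : ℕ) (f : Prof d) :
    HH ρ p l (avg^[j + 1] f) ≤ T ρ (fun g => HH ρ p l (avg^[j] g)) f := by
  rw [gres2_T_HH, HH_lin]
  refine ENNReal.tsum_le_tsum fun n => mul_le_mul_right (lintegral_mono fun ω => ?_) _
  have h := lay_jensen hm hp fun x => avg f x * avg^[j] (AW n ω) x
  rwa [gres2_lin_succ] at h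

theorem HH_avg_le (hm : Mean1 ρ) (hp : 1 ≤ p) (f : Prof d) :
    HH ρ p l (avg f) ≤ T ρ (HH ρ p l) f := gres2_HH_avg hm hp 0 f

theorem HH_avg_iter_le (hm : Mean1 ρ) (hp : 1 ≤ p) (n : ℕ) (f : Prof d) :
    HH ρ p l (avg^[n] f) ≤ (T ρ)^[n] (HH ρ p l) f := by
  induction n generalizing f with
  | zero => exact le_rfl
  | succ n ih =>
    rw [Function.iterate_succ_apply' (T ρ)]
    exact (gres2_HH_avg hm hp n f).trans (T_mono ih f)

theorem HH_phi_anti (hd : 1 ≤ d) (hp : 1 ≤ p) : Antitone fun m => HH ρ p l (phi d m) :=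
  antitone_nat_of_succ_le fun m => by
    rw [← avg_iter_phi]
    exact gres2_fn_avg hd (fn_HH hp) 1 _

theorem HH_avg_iter_phi (hd : 1 ≤ d) (hp : 1 ≤ p) (m : ℕ) (f : Prof d) :
    HH ρ p l (avg^[m] f) ≤ mq p f * HH ρ p l (phi d m) := by
  have _ := hd
  have e : avg^[m] f = fun x => ∑' y, f y * sh y (phi d m) x := by
    funext x; rw [avg_iter_eq_phi]; rfl
  unfold HH
  rw [Res_env (measurable_mq p), Res_env (measurable_mq p), ← ENNReal.tsum_mul_left]
  refine ENNReal.tsum_le_tsum fun n => ?_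
  rw [mul_left_comm]
  refine mul_le_mul_right ?_ _
  have hme : ∀ y, Measurable fun ω => mq p (ev n ω (sh y (phi d m))) := fun y =>
    (measurable_mq p).comp (measurable_ev n _)
  have hB : ∀ y, ∫⁻ ω, mq p (ev n ω (sh y (phi d m))) ∂env d ρ =
      ∫⁻ ω, mq p (ev n ω (phi d m)) ∂env d ρ := fun y => by
    rw [← T_iter_eq n (measurable_mq p), ← T_iter_eq n (measurable_mq p),
      T_iter_sh n (measurable_mq p)]
    simp only [mq_sh]
  calc ∫⁻ ω, mq p (ev n ω (avg^[m] f)) ∂env d ρ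
      ≤ ∫⁻ ω, mass f ^ (p - 1) * ∑' y, f y * mq p (ev n ω (sh y (phi d m))) ∂env d ρ := by
        refine lintegral_mono fun ω => ?_
        rw [e, gres2_ev_mix]
        unfold mq
        rw [gres2_mass_mix]
        exact tsum_pow_le f _ hp
    _ = mass f ^ (p - 1) * (mass f * ∫⁻ ω, mq p (ev n ω (phi d m)) ∂env d ρ) := by
        rw [lintegral_const_mul _ (Measurable.tsum fun y => (hme y).const_mul _),
          lintegral_tsum fun y => ((hme y).const_mul _).aemeasurable]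
        simp only [lintegral_const_mul _ (hme _), hB, ENNReal.tsum_mul_right]
        rfl
    _ = _ := by rw [← mul_assoc, conv_rpow _ hp]; rfl

theorem HH_le_Res (hd : 1 ≤ d) (hm : Mean1 ρ) (hp : 1 ≤ p) (h0 : 0 < l) (h1 : l < 1) {l' : ℝ}
    (h0' : 0 < l') (h1' : l' < 1) (f : Prof d) : HH ρ p l' f ≤ Res ρ l (HH ρ p l') f := by
  have _ := h0'
  have _ := h1'
  exact gres2_le_Res h0 h1 (gres2_Res_sub (measurable_mq p) (mq_le_T hd hm hp)) f

theorem Det_le_Res (hm : Mean1 ρ) (hp : 1 ≤ p) (l' : ℝ) (f : Prof d) :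
    Det l (HH ρ p l') f ≤ Res ρ l (HH ρ p l') f :=
  ENNReal.tsum_le_tsum fun n => mul_le_mul_right (HH_avg_iter_le hm hp n f) _

theorem gres2_avg_AW_mom (hd : 1 ≤ d) (hp : 1 ≤ p) (n j : ℕ) (x : Site d) :
    ∫⁻ ω, avg^[j] (AW n ω) x ^ p ∂env d ρ ≤ Mom d ρ p n := by
  have hw : ∑' v, phi d j v = 1 := mass_phi hd j
  have hme : ∀ y, Measurable fun ω : ℕ → Layer d => AW n ω y ^ p := fun y =>
    ((measurable_pi_apply y).comp (measurable_AW n)).pow_const _
  calc ∫⁻ ω, avg^[j] (AW n ω) x ^ p ∂env d ρ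
      ≤ ∫⁻ ω, ∑' v, phi d j v * AW n ω (x - v) ^ p ∂env d ρ := by
        refine lintegral_mono fun ω => ?_
        have h := tsum_pow_le (phi d j) (fun v => AW n ω (x - v)) hp
        rw [hw, ENNReal.one_rpow, one_mul] at h
        rw [gres2_avg_iter_mix]
        exact h
    _ = Mom d ρ p n := by
        rw [lintegral_tsum fun v => ((hme _).const_mul _).aemeasurable]
        simp only [lintegral_const_mul _ (hme _), gres2_AW_mom, ENNReal.tsum_mul_right, hw,
          one_mul]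

/-- The cost of averaging one layer. -/
theorem gap (hd : 1 ≤ d) (hm : Mean1 ρ) {K : ℝ≥0∞} (hK : mom ρ 2 ≤ K) (hp : 1 ≤ p) (hp2 : p ≤ 2)
    (j : ℕ) (f : Prof d) :
    T ρ (fun g => HH ρ p l (avg^[j] g)) f ≤
      HH ρ p l (avg^[j + 1] f) + 8 * K * OO d ρ p l * nq p (avg f) := by
  rw [gres2_T_HH, HH_lin, OO_eq, ← ENNReal.tsum_mul_left, ← ENNReal.tsum_mul_right,
    ← ENNReal.tsum_add]
  refine ENNReal.tsum_le_tsum fun n => ?_
  have hme : ∀ x, Measurable fun ω : ℕ → Layer d => avg^[j] (AW n ω) x ^ p := fun x =>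
    ((measurable_pi_apply x).comp (gres2_meas_AWj n j)).pow_const _
  have key : ∫⁻ ω, ∫⁻ ξ, (∑' x, (avg f x * avg^[j] (AW n ω) x) * (ξ x : ℝ≥0∞)) ^ p
      ∂lay d ρ ∂env d ρ ≤ ∫⁻ ω, lin (AW n ω) (avg^[j + 1] f) ^ p ∂env d ρ +
        8 * K * (Mom d ρ p n * nq p (avg f)) :=
    calc _ ≤ ∫⁻ ω, (lin (AW n ω) (avg^[j + 1] f) ^ p +
          8 * K * ∑' x, avg f x ^ p * avg^[j] (AW n ω) x ^ p) ∂env d ρ := by
          refine lintegral_mono fun ω => ?_
          have h := lay_l1 hm hK hp hp2 fun x => avg f x * avg^[j] (AW n ω) x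
          rw [gres2_lin_succ] at h
          simpa only [ENNReal.mul_rpow_of_nonneg _ _ (by linarith : 0 ≤ p)] using h
      _ ≤ _ := by
          rw [lintegral_add_left (gres2_meas_linAW n _),
            lintegral_const_mul _ (Measurable.tsum fun x => (hme x).const_mul _),
            lintegral_tsum fun x => ((hme x).const_mul _).aemeasurable]
          gcongr
          unfold nq
          rw [← ENNReal.tsum_mul_left]
          refine ENNReal.tsum_le_tsum fun x => ?_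
          rw [lintegral_const_mul _ (hme x), mul_comm]
          gcongr
          exact gres2_avg_AW_mom hd hp n j x
  refine (mul_le_mul_right key _).trans (le_of_eq ?_)
  ring

theorem gres2_meas_bg (c : ℝ≥0∞) : Measurable fun g : Prof d => (c + mass g) ^ p :=
  (measurable_mass.const_add c).pow_const p

theorem XX_add (hd : 1 ≤ d) (hm : Mean1 ρ) (hp : 1 ≤ p) (h0 : 0 < l) (h1 : l < 1) (c : ℝ≥0∞)
    (f : Prof d) :
    XX ρ p l c f + (c + mass f) ^ p = Res ρ l (fun g => (c + mass g) ^ p) f := by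
  refine tsub_add_cancel_of_le (gres2_le_Res (Φ := fun g => (c + mass g) ^ p) h0 h1
    (fun g => ?_) f)
  have hme : Measurable fun ξ => c + mass (step g ξ) :=
    (measurable_mass.comp (measurable_step g)).const_add c
  have h := jensen_convex (lay d ρ) hme.aemeasurable hp
  have e : ∫⁻ ξ, c + mass (step g ξ) ∂lay d ρ = c + mass g := by
    rw [lintegral_add_left measurable_const, lintegral_const, measure_univ, mul_one]
    congr 1
    exact T_mass hd hm g
  rwa [e] at h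

theorem XX_zero_add (hd : 1 ≤ d) (hm : Mean1 ρ) (hp : 1 ≤ p) (h0 : 0 < l) (h1 : l < 1)
    (f : Prof d) : XX ρ p l 0 f + mq p f = HH ρ p l f := by
  have h := XX_add hd hm hp h0 h1 0 f
  simp only [zero_add] at h
  exact h

theorem gres2_mr_nonneg (f : Prof d) : 0 ≤ mr f := ENNReal.toReal_nonneg

theorem gres2_bg_eq (hp : 0 ≤ p) {c : ℝ} (hc : 0 ≤ c) {g : Prof d} (hg : Nice g) :
    (ENNReal.ofReal c + mass g) ^ p = ENNReal.ofReal ((c + mr g) ^ p) := by
  have := gres2_mr_nonneg g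
  rw [← hg.ofReal_mr, ← ENNReal.ofReal_add hc this,
    ENNReal.ofReal_rpow_of_nonneg (by positivity) hp]

theorem XX_br (hd : 1 ≤ d) (hm : Mean1 ρ) (hp : 1 < p) (h0 : 0 < l) (h1 : l < 1) {c : ℝ}
    (hc : 0 ≤ c) {f : Prof d} (hf : Nice f) :
    XX ρ p l (ENNReal.ofReal c) f =
      Res ρ l (fun g => ENNReal.ofReal (br p (c + mr f) (c + mr g))) f := by
  have hw := gres2_mr_nonneg f
  have hp0 : 0 ≤ p := by linarith
  have hA : 0 ≤ p * (c + mr f) ^ (p - 1) := by positivity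
  have hbr : Measurable fun g : Prof d => ENNReal.ofReal (br p (c + mr f) (c + mr g)) :=
    ((measurable_br p).comp (measurable_const.prodMk (measurable_mr.const_add c))).ennreal_ofReal
  have key : ∀ g : Prof d, Nice g → (ENNReal.ofReal c + mass g) ^ p +
      ENNReal.ofReal (p * (c + mr f) ^ (p - 1)) * mass f =
      ENNReal.ofReal (br p (c + mr f) (c + mr g)) + ((ENNReal.ofReal c + mass f) ^ p +
        ENNReal.ofReal (p * (c + mr f) ^ (p - 1)) * mass g) := fun g hg => by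
    have hm := gres2_mr_nonneg g
    rw [gres2_bg_eq hp0 hc hg, gres2_bg_eq hp0 hc hf, ← hg.ofReal_mr, ← hf.ofReal_mr,
      ← ENNReal.ofReal_mul hA, ← ENNReal.ofReal_mul hA,
      ← ENNReal.ofReal_add (by positivity) (by positivity),
      ← ENNReal.ofReal_add (by positivity) (by positivity),
      ← ENNReal.ofReal_add (br_nonneg hp.le (by positivity) (by positivity)) (by positivity)]
    congr 1
    unfold br
    ring
  have h := gres2_Res_congr (ρ := ρ) (l := l) hd key hf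
  rw [Res_add (gres2_meas_bg _), Res_add hbr, Res_add measurable_const, Res_const h0 h1,
    Res_const h0 h1, Res_const_mul measurable_mass, Res_mass hd hm h0 h1,
    ← XX_add hd hm hp.le h0 h1, add_assoc] at h
  refine (ENNReal.add_left_inj ?_).1 h
  rw [gres2_bg_eq hp0 hc hf]
  exact ENNReal.add_ne_top.2 ⟨ENNReal.ofReal_ne_top,
    ENNReal.mul_ne_top ENNReal.ofReal_ne_top hf.mass_ne_top⟩

theorem XX_anti (hd : 1 ≤ d) (hm : Mean1 ρ) (hp : 1 < p) (hp2 : p ≤ 2) (h0 : 0 < l) (h1 : l < 1)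
    {c c' : ℝ≥0∞} (h : c ≤ c') {f : Prof d} (hf : Nice f) : XX ρ p l c' f ≤ XX ρ p l c f := by
  by_cases hc' : c' = ⊤
  · unfold XX
    rw [hc', top_add, ENNReal.top_rpow_of_pos (by linarith), ENNReal.sub_top]
    exact zero_le
  have hc : c ≠ ⊤ := ne_top_of_le_ne_top hc' h
  have hle : c.toReal ≤ c'.toReal := ENNReal.toReal_mono hc' h
  rw [← ENNReal.ofReal_toReal hc, ← ENNReal.ofReal_toReal hc',
    XX_br hd hm hp h0 h1 ENNReal.toReal_nonneg hf, XX_br hd hm hp h0 h1 ENNReal.toReal_nonneg hf]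
  refine Res_mono (fun g => ENNReal.ofReal_le_ofReal ?_) f
  have hw := gres2_mr_nonneg f
  have hg := gres2_mr_nonneg g
  have := br_shift_anti (M := c.toReal + mr f) (x := c.toReal + mr g)
    (c := c'.toReal - c.toReal) hp hp2 (by positivity) (by positivity) (by linarith)
  convert this using 2 <;> ring

theorem XX_sca (hp : 0 < p) {a : ℝ≥0∞} (ha : a ≠ ⊤) (c : ℝ≥0∞) (f : Prof d) :
    XX ρ p l (a * c) (sca a f) = a ^ p * XX ρ p l c f := by
  have e : ∀ g : Prof d, (a * c + mass (sca a g)) ^ p = a ^ p * (c + mass g) ^ p := fun g => by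
    rw [mass_sca, ← mul_add, ENNReal.mul_rpow_of_nonneg _ _ hp.le]
  unfold XX
  rw [gres2_Res_sca (Φ := fun g => (a * c + mass g) ^ p) (gres2_meas_bg _) (gres2_meas_bg c) e f,
    e, ENNReal.mul_sub fun _ _ => ENNReal.rpow_ne_top_of_nonneg hp.le ha]

theorem XX_sh (c : ℝ≥0∞) (v : Site d) (f : Prof d) : XX ρ p l c (sh v f) = XX ρ p l c f := by
  unfold XX
  rw [gres2_Res_sh (gres2_meas_bg c) (fun v g => by rw [mass_sh]), mass_sh]

theorem measurable_XX (c : ℝ≥0∞) : Measurable (XX ρ p l c : Prof d → ℝ≥0∞) :=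
  (measurable_Res (gres2_meas_bg c)).sub (gres2_meas_bg c)

theorem gres2_XX_zero (f : Prof d) : XX ρ p l 0 f = HH ρ p l f - mq p f := by
  unfold XX
  simp only [zero_add]
  rfl

theorem XX_phi_anti (hd : 1 ≤ d) (hp : 1 ≤ p) : Antitone fun m => XX ρ p l 0 (phi d m) := by
  intro m n h
  simp only [gres2_XX_zero, gres2_mq_of (mass_phi hd _)]
  exact tsub_le_tsub_right (HH_phi_anti hd hp h) 1

theorem gres2_mq_ne_top (hp : 1 ≤ p) {f : Prof d} (hf : Nice f) : mq p f ≠ ⊤ :=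
  ENNReal.rpow_ne_top_of_nonneg (by linarith) hf.mass_ne_top

theorem gres2_mq_avg_iter (hd : 1 ≤ d) (m : ℕ) (f : Prof d) : mq p (avg^[m] f) = mq p f := by
  unfold mq; rw [mass_avg_iter hd]

theorem XX_avg_iter (hd : 1 ≤ d) (hm : Mean1 ρ) (hp : 1 ≤ p) (h0 : 0 < l) (h1 : l < 1) (m : ℕ)
    {f : Prof d} (hf : Nice f) :
    ENNReal.ofReal ((1 - l) ^ m) * XX ρ p l 0 (avg^[m] f) ≤ XX ρ p l 0 f := by
  have hone : ∑ n ∈ Finset.range m, wt l n + ENNReal.ofReal ((1 - l) ^ m) = 1 := by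
    rw [← wt_tail h0 h1, Summable.sum_add_tsum_nat_add' ENNReal.summable, wt_tsum h0 h1]
  refine (ENNReal.add_le_add_iff_right (gres2_mq_ne_top hp hf)).1 ?_
  rw [XX_zero_add hd hm hp h0 h1]
  calc ENNReal.ofReal ((1 - l) ^ m) * XX ρ p l 0 (avg^[m] f) + mq p f
      = ∑ n ∈ Finset.range m, wt l n * mq p f + ENNReal.ofReal ((1 - l) ^ m) *
          (XX ρ p l 0 (avg^[m] f) + mq p (avg^[m] f)) := by
        rw [gres2_mq_avg_iter hd, ← Finset.sum_mul]
        conv_lhs => rw [← one_mul (mq p f), ← hone]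
        ring
    _ ≤ ∑ n ∈ Finset.range m, wt l n * (T ρ)^[n] (mq p) f +
          ENNReal.ofReal ((1 - l) ^ m) * (T ρ)^[m] (HH ρ p l) f := by
        rw [XX_zero_add hd hm hp h0 h1]
        gcongr with n
        · exact gres2_sub_mono' (mq_le_T hd hm hp) f (Nat.zero_le n)
        · exact HH_avg_iter_le hm hp m f
    _ = HH ρ p l f := (Res_iter h1 (measurable_mq p) m f).symm

theorem gres2_XX_step (hd : 1 ≤ d) (hm : Mean1 ρ) (hp : 1 ≤ p) (h0 : 0 < l) (h1 : l < 1)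
    {f : Prof d} (hf : Nice f) : XX ρ p l 0 f =
      ENNReal.ofReal (1 - l) * JJ ρ p l f + ENNReal.ofReal (1 - l) * XX ρ p l 0 (avg f) := by
  have e1 : HH ρ p l f = ENNReal.ofReal l * mq p f + ENNReal.ofReal (1 - l) * T ρ (HH ρ p l) f :=
    Res_fix h1 (measurable_mq p) f
  have e2 : JJ ρ p l f + HH ρ p l (avg f) = T ρ (HH ρ p l) f :=
    tsub_add_cancel_of_le (HH_avg_le hm hp f)
  have e3 : mq p (avg f) = mq p f := gres2_mq_avg_iter hd 1 f
  have e4 : ENNReal.ofReal l + ENNReal.ofReal (1 - l) = 1 := by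
    rw [← ENNReal.ofReal_add h0.le (by linarith), add_sub_cancel, ENNReal.ofReal_one]
  refine (ENNReal.add_left_inj (gres2_mq_ne_top hp hf)).1 ?_
  rw [XX_zero_add hd hm hp h0 h1, e1, ← e2, ← XX_zero_add hd hm hp h0 h1 (avg f), e3]
  conv_rhs => rw [← one_mul (mq p f), ← e4]
  ring

theorem XX_tele (hd : 1 ≤ d) (hm : Mean1 ρ) (hp : 1 ≤ p) (h0 : 0 < l) (h1 : l < 1)
    (hO : OO d ρ p l ≠ ⊤) {f : Prof d} (hf : Nice f) :
    XX ρ p l 0 f = ∑' i, ENNReal.ofReal ((1 - l) ^ (i + 1)) * JJ ρ p l (avg^[i] f) := by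
  have ha : 0 ≤ 1 - l := by linarith
  have hN : ∀ N, XX ρ p l 0 f = ∑ i ∈ Finset.range N,
      ENNReal.ofReal ((1 - l) ^ (i + 1)) * JJ ρ p l (avg^[i] f) +
      ENNReal.ofReal ((1 - l) ^ N) * XX ρ p l 0 (avg^[N] f) := fun N => by
    induction N with
    | zero => simp
    | succ N ih =>
      rw [Finset.sum_range_succ, Function.iterate_succ_apply', ih,
        gres2_XX_step hd hm hp h0 h1 (hf.of_avg_iter hd N), pow_succ,
        ENNReal.ofReal_mul (pow_nonneg ha N)]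
      ring
  refine le_antisymm ?_ (ENNReal.tsum_le_of_sum_range_le fun N => ?_)
  · have hB : OO d ρ p l * mq p f ≠ ⊤ := ENNReal.mul_ne_top hO (gres2_mq_ne_top hp hf)
    have t1 : Tendsto (fun N : ℕ => ENNReal.ofReal ((1 - l) ^ N)) atTop (𝓝 0) := by
      have := ENNReal.tendsto_ofReal
        (tendsto_pow_atTop_nhds_zero_of_lt_one ha (by linarith : 1 - l < 1))
      rwa [ENNReal.ofReal_zero] at this
    have t2 := (ENNReal.Tendsto.mul_const t1 (Or.inr hB)).const_add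
      (∑' i, ENNReal.ofReal ((1 - l) ^ (i + 1)) * JJ ρ p l (avg^[i] f))
    rw [zero_mul, add_zero] at t2
    refine ge_of_tendsto' t2 fun N => ?_
    rw [hN N]
    gcongr
    · exact ENNReal.sum_le_tsum _
    · rw [← gres2_mq_avg_iter hd N f, gres2_XX_zero]
      exact tsub_le_self.trans (HH_le hp _)
  · rw [hN N]
    exact le_self_add

theorem gres2_nq_avg_iter (hd : 1 ≤ d) (hp : 1 ≤ p) (n : ℕ) (f : Prof d) :
    nq p (avg^[n] f) ≤ nq p f := by
  induction n with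
  | zero => exact le_rfl
  | succ n ih => rw [Function.iterate_succ_apply']; exact (nq_avg_le hd hp _).trans ih

/-- Crude bound on the gain. -/
theorem XX_crude (hd : 1 ≤ d) (hm : Mean1 ρ) {K : ℝ≥0∞} (hK : mom ρ 2 ≤ K) (hp : 1 ≤ p)
    (hp2 : p ≤ 2) (h0 : 0 < l) (h1 : l < 1) {f : Prof d} (hf : Nice f) :
    XX ρ p l 0 f ≤ 8 * K * OO d ρ p l * ENNReal.ofReal l⁻¹ * nq p f := by
  by_cases hz : nq p f = 0
  · have hf0 : f = 0 := by
      funext x
      have := ENNReal.tsum_eq_zero.1 hz x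
      simpa [ENNReal.rpow_eq_zero_iff, (by linarith : 0 < p), (by linarith : ¬ p < 0)] using this
    rw [hf0, gres2_XX_zero, (fn_HH hp).zero, zero_tsub]
    exact zero_le
  by_cases hO : OO d ρ p l = ⊤
  · have hK0 : K ≠ 0 := (zero_lt_one.trans_le ((one_le_mom_two hm).trans hK)).ne'
    rw [hO, ENNReal.mul_top (by simpa using hK0), ENNReal.top_mul (by simpa using h0),
      ENNReal.top_mul hz]
    exact le_top
  have ha : 0 ≤ 1 - l := by linarith
  have hs : ∑' i : ℕ, ENNReal.ofReal ((1 - l) ^ (i + 1)) ≤ ENNReal.ofReal l⁻¹ := by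
    calc ∑' i : ℕ, ENNReal.ofReal ((1 - l) ^ (i + 1))
        ≤ ∑' i : ℕ, ENNReal.ofReal l⁻¹ * wt l i := by
          refine ENNReal.tsum_le_tsum fun i => ?_
          unfold wt
          rw [← ENNReal.ofReal_mul (by positivity), ← mul_assoc, inv_mul_cancel₀ h0.ne', one_mul]
          exact ENNReal.ofReal_le_ofReal
            (pow_le_pow_of_le_one ha (by linarith) (Nat.le_succ i))
      _ = _ := by rw [ENNReal.tsum_mul_left, wt_tsum h0 h1, mul_one]
  rw [XX_tele hd hm hp h0 h1 hO hf]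
  calc ∑' i, ENNReal.ofReal ((1 - l) ^ (i + 1)) * JJ ρ p l (avg^[i] f)
      ≤ ∑' i, ENNReal.ofReal ((1 - l) ^ (i + 1)) * (8 * K * OO d ρ p l * nq p f) := by
        refine ENNReal.tsum_le_tsum fun i => mul_le_mul_right ?_ _
        unfold JJ
        refine tsub_le_iff_left.2 ((gap hd hm hK hp hp2 0 (avg^[i] f)).trans ?_)
        gcongr
        · exact le_rfl
        · exact (nq_avg_le hd hp _).trans (gres2_nq_avg_iter hd hp i f)
    _ ≤ ENNReal.ofReal l⁻¹ * (8 * K * OO d ρ p l * nq p f) := by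
        rw [ENNReal.tsum_mul_right]; gcongr
    _ = _ := by ring

theorem gres2_meas_th (M : ℝ) : Measurable fun g : Prof d => lift (th p M) (mass g) :=
  (measurable_lift (measurable_th p M)).comp measurable_mass

/-- The truncated payoff is the difference of the gains without and with background. -/
theorem XX_th (hd : 1 ≤ d) (hm : Mean1 ρ) (hp : 1 < p) (hp2 : p ≤ 2) (h0 : 0 < l) (h1 : l < 1)
    {c : ℝ} (hc : 0 < c) {f : Prof d} (hf : Nice f) :
    XX ρ p l 0 f + ENNReal.ofReal (th p c (mr f)) =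
      XX ρ p l (ENNReal.ofReal c) f + HT ρ p l c f := by
  have hp0 : 0 ≤ p := by linarith
  have hA : 0 ≤ p * c ^ (p - 1) := by positivity
  have key : ∀ g : Prof d, Nice g → mq p g + (ENNReal.ofReal (c ^ p) +
      ENNReal.ofReal (p * c ^ (p - 1)) * mass g) =
      lift (th p c) (mass g) + (ENNReal.ofReal c + mass g) ^ p := fun g hg => by
    have hm := gres2_mr_nonneg g
    have e : lift (th p c) (mass g) = ENNReal.ofReal (th p c (mr g)) :=
      gres2_lift_of hg.mass_ne_top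
    unfold mq
    rw [gres2_bg_eq hp0 hc.le hg, e, ← hg.ofReal_mr, ← ENNReal.ofReal_mul hA,
      ENNReal.ofReal_rpow_of_nonneg hm hp0,
      ← ENNReal.ofReal_add (by positivity) (by positivity),
      ← ENNReal.ofReal_add (by positivity) (by positivity),
      ← ENNReal.ofReal_add (th_nonneg hp hp2 hc.le hm) (by positivity)]
    congr 1
    unfold th br
    ring
  have h := gres2_Res_congr (ρ := ρ) (l := l) hd key hf
  rw [Res_add (measurable_mq p), Res_add (gres2_meas_th c), Res_add measurable_const,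
    Res_const h0 h1, Res_const_mul measurable_mass, Res_mass hd hm h0 h1,
    ← XX_add hd hm hp.le h0 h1] at h
  have h' : HH ρ p l f + (ENNReal.ofReal (c ^ p) + ENNReal.ofReal (p * c ^ (p - 1)) * mass f) =
      HT ρ p l c f + (XX ρ p l (ENNReal.ofReal c) f + (ENNReal.ofReal c + mass f) ^ p) := h
  rw [← XX_zero_add hd hm hp.le h0 h1, add_assoc, key f hf, gres2_lift_of hf.mass_ne_top] at h'
  have hfin : (ENNReal.ofReal c + mass f) ^ p ≠ ⊤ := by
    rw [gres2_bg_eq hp0 hc.le hf]; exact ENNReal.ofReal_ne_top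
  refine (ENNReal.add_left_inj hfin).1 ?_
  rw [add_assoc]
  refine h'.trans ?_
  ring

theorem JJ_ge (hd : 3 ≤ d) {κ M : ℝ} (hκ : 0 < κ) : ∃ C : ℝ, 1 ≤ C ∧
    ∀ (ρ : Measure ℝ≥0) [IsProbabilityMeasure ρ] (p l : ℝ), Ctx d κ M ρ p l → OO d ρ p l ≠ ⊤ →
      ∀ f : Prof d, Nice f → ENNReal.ofReal C⁻¹ * VV ρ p l (avg f) ≤ JJ ρ p l f := by
  obtain ⟨C, hC, hlow⟩ := lay_low (M := M) hd hκ
  refine ⟨C, hC, fun ρ _ p l hx hO f hf => ?_⟩
  obtain ⟨hp1, hp2⟩ := hx.one_lt hd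
  have hfin : HH ρ p l (avg f) ≠ ⊤ := ne_top_of_le_ne_top
    (ENNReal.mul_ne_top hO (gres2_mq_ne_top hp1.le (hf.of_avg (by omega)))) (HH_le hp1.le _)
  refine ENNReal.le_sub_of_add_le_left hfin ?_
  have e : T ρ (HH ρ p l) f = _ := gres2_T_HH 0 f
  rw [e, HH_lin]
  unfold VV
  rw [← ENNReal.tsum_mul_left, ← ENNReal.tsum_add]
  refine ENNReal.tsum_le_tsum fun n => ?_
  rw [mul_left_comm, ← mul_add, ← lintegral_const_mul' _ _ ENNReal.ofReal_ne_top,
    ← lintegral_add_left (gres2_meas_linAW n _)]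
  refine mul_le_mul_right (lintegral_mono fun ω => ?_) _
  have h := hlow ρ hx.good p hx.p1 hp2.le 0 fun x => avg f x * AW n ω x
  simp only [zero_add] at h
  exact h

theorem HT_sca (hp : 1 < p) {M c : ℝ} (hM : 0 ≤ M) (hc : 0 < c) (f : Prof d) :
    HT ρ p l (c * M) (sca (ENNReal.ofReal c) f) = ENNReal.ofReal (c ^ p) * HT ρ p l M f :=
  gres2_Res_sca (gres2_meas_th _) (gres2_meas_th M)
    (fun g => by rw [mass_sca, gres2_lift_sca hp hM hc]) f

theorem HT_le_HH (hp : 1 < p) {M : ℝ} (hM : 0 ≤ M) (f : Prof d) : HT ρ p l M f ≤ HH ρ p l f := by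
  refine Res_mono (fun g => ?_) f
  unfold mq
  by_cases hg : mass g = ⊤
  · rw [hg, ENNReal.top_rpow_of_pos (by linarith)]; exact le_top
  · rw [gres2_lift_of hg]
    conv_rhs => rw [← ENNReal.ofReal_toReal hg]
    rw [ENNReal.ofReal_rpow_of_nonneg ENNReal.toReal_nonneg (by linarith)]
    exact ENNReal.ofReal_le_ofReal (th_le_pow hp hM ENNReal.toReal_nonneg)

theorem HT_le_lin (hd : 1 ≤ d) (hm : Mean1 ρ) (hp : 1 < p) (hp2 : p ≤ 2) (h0 : 0 < l)
    (h1 : l < 1) {M : ℝ} (hM : 0 < M) (f : Prof d) :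
    HT ρ p l M f ≤ ENNReal.ofReal (p * M ^ (p - 1)) * mass f := by
  have hA : 0 < p * M ^ (p - 1) := mul_pos (by linarith) (Real.rpow_pos_of_pos hM _)
  rw [← Res_mass (ρ := ρ) hd hm h0 h1 f, ← Res_const_mul measurable_mass]
  refine Res_mono (fun g => ?_) f
  by_cases hg : mass g = ⊤
  · rw [hg, ENNReal.mul_top (by simpa using hA)]; exact le_top
  · rw [gres2_lift_of hg]
    conv_rhs => rw [← ENNReal.ofReal_toReal hg]
    rw [← ENNReal.ofReal_mul hA.le]
    exact ENNReal.ofReal_le_ofReal (th_le_lin hp hp2 hM.le ENNReal.toReal_nonneg)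

theorem HT_mono_lev (hp : 1 < p) (hp2 : p ≤ 2) {M M' : ℝ} (hM : 0 ≤ M) (h : M ≤ M')
    (f : Prof d) : HT ρ p l M f ≤ HT ρ p l M' f :=
  Res_mono (fun _ => gres2_lift_mono (fun _ hx => th_mono_lev hp hp2 hM h hx) _) f

theorem HTn_eq (hp : 1 < p) (y : ℝ) {f : Prof d} (hf : mass f ≠ ⊤) (h0 : mass f ≠ 0) :
    HTn ρ p l y f = HT ρ p l (Real.exp y * mr f) f := by
  have hc : 0 < mr f := ENNReal.toReal_pos h0 hf
  have e : ENNReal.ofReal (mr f) = mass f := ENNReal.ofReal_toReal hf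
  have h := HT_sca (ρ := ρ) (l := l) hp (Real.exp_pos y).le hc (sca (mass f)⁻¹ f)
  have e2 : sca (ENNReal.ofReal (mr f)) (sca (mass f)⁻¹ f) = f := by
    funext x
    unfold sca
    rw [e, ← mul_assoc, ENNReal.mul_inv_cancel h0 hf, one_mul]
  rw [e2, ← ENNReal.ofReal_rpow_of_pos hc, e, mul_comm (mr f)] at h
  exact h.symm

theorem measurable_HTn (y : ℝ) : Measurable (HTn ρ p l y : Prof d → ℝ≥0∞) := by
  have hs : Measurable fun g : Prof d => sca (mass g)⁻¹ g :=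
    measurable_pi_lambda _ fun x => measurable_mass.inv.mul (measurable_pi_apply x)
  exact (measurable_mq p).mul ((measurable_Res (gres2_meas_th _)).comp hs)

theorem Kr_nonneg : 0 ≤ Kr d ρ p l := ENNReal.toReal_nonneg

theorem gres2_KK_le (hd : 1 ≤ d) (hm : Mean1 ρ) (hp : 1 ≤ p) (h0 : 0 < l) (h1 : l < 1) :
    KK d ρ p l ≤ 1 := ENNReal.inv_le_one.2 (one_le_OO hd hm hp h0 h1)

theorem Kr_le_one (hd : 1 ≤ d) (hm : Mean1 ρ) (hp : 1 ≤ p) (h0 : 0 < l) (h1 : l < 1) :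
    Kr d ρ p l ≤ 1 := by
  have h := ENNReal.toReal_mono ENNReal.one_ne_top (gres2_KK_le hd hm hp h0 h1)
  rwa [ENNReal.toReal_one] at h

theorem ofReal_Kr (hd : 1 ≤ d) (hm : Mean1 ρ) (hp : 1 ≤ p) (h0 : 0 < l) (h1 : l < 1) :
    ENNReal.ofReal (Kr d ρ p l) = KK d ρ p l :=
  ENNReal.ofReal_toReal (ne_top_of_le_ne_top ENNReal.one_ne_top (gres2_KK_le hd hm hp h0 h1))

theorem gres2_KH_le (hd : 1 ≤ d) (hp : 1 ≤ p) (m : ℕ) :
    KK d ρ p l * HH ρ p l (phi d m) ≤ 1 := by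
  have h := HH_le (ρ := ρ) (l := l) hp (phi d m)
  rw [gres2_mq_of (mass_phi hd m), mul_one] at h
  exact (mul_le_mul_right h _).trans (ENNReal.inv_mul_le_one _)

theorem gres2_KX_ne_top (hd : 1 ≤ d) (hp : 1 ≤ p) (m : ℕ) :
    KK d ρ p l * XX ρ p l 0 (phi d m) ≠ ⊤ := by
  refine ne_top_of_le_ne_top ENNReal.one_ne_top
    (le_trans (mul_le_mul_right ?_ _) (gres2_KH_le hd hp m))
  rw [gres2_XX_zero]
  exact tsub_le_self

theorem Kr_add_Ar (hd : 1 ≤ d) (hm : Mean1 ρ) (hp : 1 ≤ p) (h0 : 0 < l) (h1 : l < 1)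
    (hO : OO d ρ p l ≠ ⊤) (m : ℕ) :
    KK d ρ p l * HH ρ p l (phi d m) = ENNReal.ofReal (Kr d ρ p l + Ar d ρ p l m) ∧
      Kr d ρ p l + Ar d ρ p l m ≤ 1 ∧
      KK d ρ p l * XX ρ p l 0 (phi d m) = ENNReal.ofReal (Ar d ρ p l m) := by
  have _ := hO
  have e3 : KK d ρ p l * XX ρ p l 0 (phi d m) = ENNReal.ofReal (Ar d ρ p l m) :=
    (ENNReal.ofReal_toReal (gres2_KX_ne_top hd hp m)).symm
  have e1 : KK d ρ p l * HH ρ p l (phi d m) = ENNReal.ofReal (Kr d ρ p l + Ar d ρ p l m) := by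
    have hA : 0 ≤ Ar d ρ p l m := ENNReal.toReal_nonneg
    rw [ENNReal.ofReal_add Kr_nonneg hA, ofReal_Kr hd hm hp h0 h1,
      ← XX_zero_add hd hm hp h0 h1, gres2_mq_of (mass_phi hd m), mul_add, mul_one, e3, add_comm]
  refine ⟨e1, ?_, e3⟩
  have h := gres2_KH_le (ρ := ρ) (l := l) hd hp m
  rwa [e1, ENNReal.ofReal_le_one] at h

theorem Ar_anti (hd : 1 ≤ d) (hm : Mean1 ρ) (hp : 1 ≤ p) (h0 : 0 < l) (h1 : l < 1) :
    Antitone (Ar d ρ p l) := by
  have _ := hm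
  have _ := h0
  have _ := h1
  intro m n h
  exact ENNReal.toReal_mono (gres2_KX_ne_top hd hp m) (mul_le_mul_right (XX_phi_anti hd hp h) _)

end Pool.Agent.Lib.MP_153faa_pr
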