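import Mathlib
import Pool.Agent.Lib.MP_153faa_pr.GRes2

/-!
Smoothed overlaps along the chain.
-/

set_option autoImplicit false

open MeasureTheory Filter Topology
open scoped ENNReal NNReal

namespace Pool.Agent.Lib.MP_153faa_pr

variable {d : ℕ} {ρ : Measure ℝ≥0} [IsProbabilityMeasure ρ]

/-- The smoothed overlap. -/
noncomputable def gaaV (p : ℝ) (r : ℕ) (g : Prof d) : ℝ≥0∞ := ∑' z, vf p (mass g) (avg^[r] g z)

theorem gaa_V_eq (p : ℝ) (r : ℕ) (g : Prof d) :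
    gaaV p r g = mass g ^ (p - 2) * nq 2 (avg^[r] g) := by
  simp only [gaaV, vf, nq, ENNReal.rpow_two]
  rw [ENNReal.tsum_mul_right, mul_comm]

theorem gaa_V_meas (p : ℝ) (r : ℕ) : Measurable (gaaV p r : Prof d → ℝ≥0∞) := by
  have : (gaaV p r : Prof d → ℝ≥0∞) = fun g => mass g ^ (p - 2) * nq 2 (avg^[r] g) :=
    funext (gaa_V_eq p r)
  rw [this]
  exact (measurable_mq (p - 2)).mul (greenq_meas r)

theorem gaa_pow_succ {l : ℝ} (h1 : l < 1) (n : ℕ) :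
    ENNReal.ofReal ((1 - l) ^ (n + 1)) = ENNReal.ofReal (1 - l) * ENNReal.ofReal ((1 - l) ^ n) := by
  rw [← ENNReal.ofReal_mul (by linarith), pow_succ']

theorem gaa_pow_anti {l : ℝ} (h0 : 0 < l) (h1 : l < 1) {m n : ℕ} (h : m ≤ n) :
    ENNReal.ofReal ((1 - l) ^ n) ≤ ENNReal.ofReal ((1 - l) ^ m) :=
  ENNReal.ofReal_le_ofReal (pow_le_pow_of_le_one (by linarith) (by linarith) h)

theorem gaa_pow_split {l : ℝ} (h0 : 0 < l) (h1 : l < 1) (n : ℕ) :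
    ENNReal.ofReal ((1 - l) ^ n) = ENNReal.ofReal ((1 - l) ^ (n + 1)) + wt l n := by
  have : (0 : ℝ) ≤ 1 - l := by linarith
  rw [wt, ← ENNReal.ofReal_add (by positivity) (by positivity)]
  congr 1
  ring

/-- Discounted telescoping. -/
theorem gaa_tele (hd : 1 ≤ d) {l : ℝ} (h0 : 0 < l) (h1 : l < 1) {Φ A B : Prof d → ℝ≥0∞}
    (hΦ : Measurable Φ) (h : ∀ f, Nice f → T ρ Φ f + A f ≤ Φ f + B f) {f : Prof d} (hf : Nice f) :
    ∑' j, ENNReal.ofReal ((1 - l) ^ (j + 1)) * (T ρ)^[j] A f ≤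
      Φ f + ∑' j, ENNReal.ofReal ((1 - l) ^ (j + 1)) * (T ρ)^[j] B f := by
  have key : ∀ N, ENNReal.ofReal ((1 - l) ^ N) * (T ρ)^[N] Φ f +
      ∑ j ∈ Finset.range N, ENNReal.ofReal ((1 - l) ^ (j + 1)) * (T ρ)^[j] A f ≤
      Φ f + ∑ j ∈ Finset.range N, ENNReal.ofReal ((1 - l) ^ (j + 1)) * (T ρ)^[j] B f := by
    intro N
    induction N with
    | zero => simp
    | succ N ih =>
      have h2 : (T ρ)^[N + 1] Φ f + (T ρ)^[N] A f ≤ (T ρ)^[N] Φ f + (T ρ)^[N] B f := by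
        rw [Function.iterate_succ_apply, ← T_iter_add N (measurable_T hΦ), ← T_iter_add N hΦ]
        exact T_iter_mono_nice hd h N hf
      rw [Finset.sum_range_succ, Finset.sum_range_succ]
      calc _ = ENNReal.ofReal ((1 - l) ^ (N + 1)) * ((T ρ)^[N + 1] Φ f + (T ρ)^[N] A f) +
            ∑ j ∈ Finset.range N, ENNReal.ofReal ((1 - l) ^ (j + 1)) * (T ρ)^[j] A f := by ring
        _ ≤ ENNReal.ofReal ((1 - l) ^ (N + 1)) * ((T ρ)^[N] Φ f + (T ρ)^[N] B f) +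
            ∑ j ∈ Finset.range N, ENNReal.ofReal ((1 - l) ^ (j + 1)) * (T ρ)^[j] A f := by gcongr
        _ = (ENNReal.ofReal ((1 - l) ^ (N + 1)) * (T ρ)^[N] Φ f +
            ∑ j ∈ Finset.range N, ENNReal.ofReal ((1 - l) ^ (j + 1)) * (T ρ)^[j] A f) +
            ENNReal.ofReal ((1 - l) ^ (N + 1)) * (T ρ)^[N] B f := by ring
        _ ≤ (ENNReal.ofReal ((1 - l) ^ N) * (T ρ)^[N] Φ f +
            ∑ j ∈ Finset.range N, ENNReal.ofReal ((1 - l) ^ (j + 1)) * (T ρ)^[j] A f) +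
            ENNReal.ofReal ((1 - l) ^ (N + 1)) * (T ρ)^[N] B f := by
          gcongr (?_ * _ + _) + _
          exact gaa_pow_anti h0 h1 (Nat.le_succ N)
        _ ≤ _ := by
          rw [← add_assoc]
          gcongr
  refine ENNReal.tsum_le_of_sum_range_le fun N => ?_
  refine (le_add_self.trans (key N)).trans ?_
  gcongr
  exact ENNReal.sum_le_tsum _

/-- The base case. -/
theorem gaa_base (hd : 3 ≤ d) {κ M : ℝ} (hκ : 0 < κ) : ∃ C : ℝ, 1 ≤ C ∧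
    ∀ (ρ : Measure ℝ≥0) [IsProbabilityMeasure ρ] (p l : ℝ), Ctx d κ M ρ p l →
      ∑' j, ENNReal.ofReal ((1 - l) ^ (j + 1)) * (T ρ)^[j] (gaaV p 1) (dlt (0 : Site d)) ≤
        ENNReal.ofReal C * OO d ρ p l := by
  obtain ⟨C, hC, hlow⟩ := lay_low (M := M) hd hκ
  have hd1 : 1 ≤ d := by omega
  refine ⟨2 * C, by linarith, fun ρ _ p l hx => ?_⟩
  obtain ⟨hp1, hp2⟩ := hx.one_lt hd
  have hm := hx.good.1
  have h0 := hx.l0
  have h1 := hx.l1
  have step1 : ∀ f : Prof d, mq p f + ENNReal.ofReal C⁻¹ * gaaV p 1 f ≤ T ρ (mq p) f := by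
    intro f
    have h := hlow ρ hx.good p hx.p1 hp2.le 0 (avg f)
    simp only [zero_add] at h
    rw [conv_T_mq]
    have e : ∑' x, avg f x = mass f := mass_avg hd1 f
    rw [e] at h
    exact h
  have key : ∀ N, ENNReal.ofReal C⁻¹ * ∑ j ∈ Finset.range N,
      ENNReal.ofReal ((1 - l) ^ (j + 1)) * (T ρ)^[j] (gaaV p 1) (dlt (0 : Site d)) ≤
      ENNReal.ofReal ((1 - l) ^ N) * Mom d ρ p N + ∑ j ∈ Finset.range N, wt l j * Mom d ρ p j := by
    intro N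
    induction N with
    | zero => simp
    | succ N ih =>
      have h2 : Mom d ρ p N + ENNReal.ofReal C⁻¹ * (T ρ)^[N] (gaaV p 1) (dlt (0 : Site d)) ≤
          Mom d ρ p (N + 1) := by
        rw [Mom, Mom, Function.iterate_succ_apply, ← T_iter_const_mul N _ (gaa_V_meas p 1),
          ← T_iter_add N (measurable_mq p)]
        exact T_iter_mono N step1 _
      rw [Finset.sum_range_succ, Finset.sum_range_succ, mul_add]
      calc _ ≤ (ENNReal.ofReal ((1 - l) ^ N) * Mom d ρ p N +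
            ∑ j ∈ Finset.range N, wt l j * Mom d ρ p j) + ENNReal.ofReal C⁻¹ *
            (ENNReal.ofReal ((1 - l) ^ (N + 1)) * (T ρ)^[N] (gaaV p 1) (dlt (0 : Site d))) := by
            gcongr
        _ = ENNReal.ofReal ((1 - l) ^ (N + 1)) * (Mom d ρ p N +
            ENNReal.ofReal C⁻¹ * (T ρ)^[N] (gaaV p 1) (dlt (0 : Site d))) +
            (∑ j ∈ Finset.range N, wt l j * Mom d ρ p j + wt l N * Mom d ρ p N) := by
            rw [gaa_pow_split h0 h1 N]; ring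
        _ ≤ _ := by gcongr
  refine ENNReal.tsum_le_of_sum_range_le fun N => ?_
  have h3 : ENNReal.ofReal ((1 - l) ^ N) * Mom d ρ p N +
      ∑ j ∈ Finset.range N, wt l j * Mom d ρ p j ≤ OO d ρ p l + OO d ρ p l := by
    gcongr
    · exact Mom_le_OO hd1 hm hp1.le h0 h1 N
    · rw [OO_eq]; exact ENNReal.sum_le_tsum _
  have hC0 : 0 < C := by linarith
  calc _ = ENNReal.ofReal C * (ENNReal.ofReal C⁻¹ * ∑ j ∈ Finset.range N,
        ENNReal.ofReal ((1 - l) ^ (j + 1)) * (T ρ)^[j] (gaaV p 1) (dlt (0 : Site d))) := by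
        rw [← mul_assoc, ← ENNReal.ofReal_mul hC0.le, mul_inv_cancel₀ hC0.ne', ENNReal.ofReal_one,
          one_mul]
    _ ≤ ENNReal.ofReal C * (OO d ρ p l + OO d ρ p l) := by gcongr; exact (key N).trans h3
    _ = _ := by
        rw [ENNReal.ofReal_mul (by norm_num), ENNReal.ofReal_ofNat]; ring

/-- Tail of the Green form. -/
noncomputable def gaaQ (r : ℕ) (f : Prof d) : ℝ≥0∞ := ∑' i : ℕ, nq 2 (avg^[i + r] f)

theorem gaa_Q_meas (r : ℕ) : Measurable (gaaQ r : Prof d → ℝ≥0∞) :=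
  Measurable.tsum fun j => greenq_meas (j + r)

theorem gaa_Q_le (hd : 3 ≤ d) : ∃ C : ℝ, 1 ≤ C ∧ ∀ (f : Prof d) (r : ℕ), 1 ≤ r →
    gaaQ r f ≤ ENNReal.ofReal (C * (r : ℝ) ^ (1 - (d : ℝ) / 2)) * mass f ^ 2 := by
  have h1 : 1 ≤ d := by omega
  obtain ⟨C, hC, h⟩ := heat h1
  refine ⟨C * 2, by linarith, fun f r hr => ?_⟩
  have C0 : 0 ≤ C := by linarith
  have b : (3 : ℝ) ≤ d := by exact_mod_cast hd
  calc gaaQ r f ≤ ∑' i : ℕ, ENNReal.ofReal C *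
        ENNReal.ofReal ((((i + r : ℕ) : ℝ) + 1) ^ (-1 - ((d : ℝ) / 2 - 1))) * mass f ^ 2 :=
        ENNReal.tsum_le_tsum fun i => by
          refine (greenq_le (h _ f)).trans (le_of_eq ?_)
          rw [mass_avg_iter h1, mul_assoc, ← sq, ← ENNReal.ofReal_mul C0,
            show -1 - ((d : ℝ) / 2 - 1) = -(d : ℝ) / 2 by ring]
    _ ≤ ENNReal.ofReal C * ENNReal.ofReal ((r : ℝ) ^ (-((d : ℝ) / 2 - 1)) / ((d : ℝ) / 2 - 1)) *
          mass f ^ 2 := by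
        rw [ENNReal.tsum_mul_right, ENNReal.tsum_mul_left]
        gcongr
        exact tail_sum (by linarith) hr
    _ ≤ _ := by
        rw [← ENNReal.ofReal_mul C0, show -((d : ℝ) / 2 - 1) = 1 - (d : ℝ) / 2 by ring]
        gcongr ENNReal.ofReal ?_ * _
        rw [mul_assoc]
        gcongr
        rw [div_le_iff₀ (by linarith)]
        have : 0 ≤ (r : ℝ) ^ (1 - (d : ℝ) / 2) := by positivity
        nlinarith

theorem gaa_T_Q (h1 : Mean1 ρ) {χ : ℝ≥0∞} (hχ : mom ρ 2 = 1 + χ) (r : ℕ) (f : Prof d) :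
    T ρ (gaaQ r) f + nq 2 (avg^[r] f) =
      gaaQ r f + χ * gaaQ r (dlt (0 : Site d)) * nq 2 (avg f) := by
  have h := T_tsum (ρ := ρ) (fun j => greenq_meas (j + r)) f
  simp only [greenq_T h1 hχ, ENNReal.tsum_add, ENNReal.tsum_mul_right,
    ENNReal.tsum_mul_left] at h
  have e : gaaQ r f = nq 2 (avg^[r] f) + ∑' j, nq 2 (avg^[j + r + 1] f) := by
    rw [gaaQ, tsum_eq_zero_add' ENNReal.summable, zero_add]
    simp only [Nat.add_right_comm _ 1 r]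
  rw [show T ρ (gaaQ r) f = _ from h, e]
  unfold gaaQ
  ring

/-- Tangent line of a concave power. -/
theorem gaa_tangent {s : ℝ} (h0 : 0 < s) (h1 : s ≤ 1) (x : ℝ≥0∞) {y : ℝ≥0∞} (hy0 : y ≠ 0)
    (hyt : y ≠ ⊤) : x ^ s + ENNReal.ofReal s * y ^ s ≤
      y ^ s + ENNReal.ofReal s * y ^ (s - 1) * x := by
  by_cases hx : x = ⊤
  · have : ENNReal.ofReal s * y ^ (s - 1) ≠ 0 :=
      mul_ne_zero (ENNReal.ofReal_pos.2 h0).ne' (ENNReal.rpow_pos (pos_iff_ne_zero.2 hy0) hyt).ne'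
    rw [hx, ENNReal.mul_top this]
    simp
  obtain ⟨a, ha, rfl⟩ : ∃ a : ℝ, 0 ≤ a ∧ x = ENNReal.ofReal a :=
    ⟨x.toReal, ENNReal.toReal_nonneg, (ENNReal.ofReal_toReal hx).symm⟩
  obtain ⟨b, hb, rfl⟩ : ∃ b : ℝ, 0 < b ∧ y = ENNReal.ofReal b :=
    ⟨y.toReal, ENNReal.toReal_pos hy0 hyt, (ENNReal.ofReal_toReal hyt).symm⟩
  rw [ENNReal.ofReal_rpow_of_nonneg ha h0.le, ENNReal.ofReal_rpow_of_pos hb,
    ENNReal.ofReal_rpow_of_pos hb, ← ENNReal.ofReal_mul h0.le, ← ENNReal.ofReal_mul h0.le,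
    ← ENNReal.ofReal_mul (by positivity), ← ENNReal.ofReal_add (by positivity) (by positivity),
    ← ENNReal.ofReal_add (by positivity) (by positivity)]
  refine ENNReal.ofReal_le_ofReal ?_
  have h2 := Real.geom_mean_le_arith_mean2_weighted h0.le (sub_nonneg.2 h1) ha hb.le (by ring)
  have h3 : b ^ (1 - s) * b ^ (s - 1) = 1 := by
    rw [← Real.rpow_add hb]; simp
  have h4 : b * b ^ (s - 1) = b ^ s := by
    rw [Real.rpow_sub_one hb.ne']; field_simp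
  have h5 : 0 < b ^ (s - 1) := by positivity
  have h6 := mul_le_mul_of_nonneg_right h2 h5.le
  rw [mul_assoc, h3, mul_one, add_mul, mul_assoc (1 - s), h4] at h6
  linarith

theorem gaa_eq_zero {f : Prof d} (h : mass f = 0) : f = 0 :=
  funext fun x => le_antisymm ((le_mass f x).trans h.le) zero_le

theorem gaa_step_zero (ξ : Layer d) : step (0 : Prof d) ξ = 0 := by
  funext x
  simp [step, avg_zero]

theorem gaa_iter_zero (r : ℕ) : avg^[r] (0 : Prof d) = 0 := Function.iterate_fixed avg_zero r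

theorem gaa_drift (hd : 1 ≤ d) (h1 : Mean1 ρ) {χ : ℝ≥0∞} (hχ : mom ρ 2 = 1 + χ) {p : ℝ}
    (hp1 : 1 ≤ p) (hp2 : p ≤ 2) (r : ℕ) {G : ℝ≥0∞} (hG0 : G ≠ 0) (hGt : G ≠ ⊤)
    (hQ : ∀ f : Prof d, gaaQ r f ≤ G * mass f ^ 2) {f : Prof d} (hf : Nice f) :
    T ρ (fun g => (G⁻¹ * gaaQ r g + mq 2 g) ^ (p / 2)) f + 4⁻¹ * G⁻¹ * gaaV p r f ≤
      (G⁻¹ * gaaQ r f + mq 2 f) ^ (p / 2) + 2 * χ * gaaV p 1 f := by
  by_cases hm : mass f = 0
  · rw [gaa_eq_zero hm]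
    have e : gaaV p r (0 : Prof d) = 0 := by simp [gaaV, vf, gaa_iter_zero]
    simp only [T, gaa_step_zero, lintegral_const, measure_univ, mul_one, e, mul_zero, add_zero]
    exact le_self_add
  have hmt := hf.mass_ne_top
  have hQ' : ∀ g : Prof d, G⁻¹ * gaaQ r g ≤ mass g ^ 2 := fun g => by
    calc G⁻¹ * gaaQ r g ≤ G⁻¹ * (G * mass g ^ 2) := by gcongr; exact hQ g
      _ = _ := by rw [← mul_assoc, ENNReal.inv_mul_cancel hG0 hGt, one_mul]
  have mΨ : Measurable fun g : Prof d => G⁻¹ * gaaQ r g + mq 2 g :=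
    ((gaa_Q_meas r).const_mul _).add (measurable_mq 2)
  set y := G⁻¹ * gaaQ r f + mq 2 f with hy
  have e2 : mq 2 f = mass f ^ 2 := ENNReal.rpow_two _
  have y1 : mass f ^ 2 ≤ y := by rw [hy, e2]; exact le_add_self
  have y2 : y ≤ 2 * mass f ^ 2 := by rw [hy, e2, two_mul]; gcongr; exact hQ' f
  have hy0 : y ≠ 0 := fun h => pow_ne_zero 2 hm (le_antisymm (h ▸ y1) zero_le)
  have hyt : y ≠ ⊤ := ne_top_of_le_ne_top (by finiteness) y2
  have hs0 : 0 < p / 2 := by linarith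
  have hs1 : p / 2 ≤ 1 := by linarith
  set c := ENNReal.ofReal (p / 2) * y ^ (p / 2 - 1) with hc
  have t1 : T ρ (fun g => (G⁻¹ * gaaQ r g + mq 2 g) ^ (p / 2)) f +
      ENNReal.ofReal (p / 2) * y ^ (p / 2) ≤
      y ^ (p / 2) + c * T ρ (fun g => G⁻¹ * gaaQ r g + mq 2 g) f := by
    have a := T_mono (ρ := ρ) (fun g : Prof d =>
      gaa_tangent hs0 hs1 (G⁻¹ * gaaQ r g + mq 2 g) hy0 hyt) f
    rwa [T_add (mΨ.pow_const _), T_add measurable_const, T_const, T_const, T_const_mul _ mΨ] at a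
  have t2 : T ρ (fun g => G⁻¹ * gaaQ r g + mq 2 g) f + G⁻¹ * nq 2 (avg^[r] f) ≤
      y + 2 * χ * nq 2 (avg f) := by
    rw [T_add ((gaa_Q_meas r).const_mul _), T_const_mul _ (gaa_Q_meas r), T_mq_two hd h1 hχ,
      add_right_comm, ← mul_add, gaa_T_Q h1 hχ]
    have a := hQ' (dlt 0)
    rw [mass_dlt, one_pow] at a
    calc _ = y + χ * (G⁻¹ * gaaQ r (dlt (0 : Site d))) * nq 2 (avg f) + χ * nq 2 (avg f) := by
          rw [hy]; ring
      _ ≤ y + χ * 1 * nq 2 (avg f) + χ * nq 2 (avg f) := by gcongr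
      _ = _ := by ring
  have e3 : c * y = ENNReal.ofReal (p / 2) * y ^ (p / 2) := by
    rw [hc, mul_assoc]
    congr 1
    conv_lhs => rw [← ENNReal.rpow_one y, ← ENNReal.rpow_mul, ← ENNReal.rpow_add _ _ hy0 hyt]
    congr 1
    ring
  have t3 : T ρ (fun g => (G⁻¹ * gaaQ r g + mq 2 g) ^ (p / 2)) f +
      c * (G⁻¹ * nq 2 (avg^[r] f)) ≤ y ^ (p / 2) + c * (2 * χ * nq 2 (avg f)) := by
    have ht : ENNReal.ofReal (p / 2) * y ^ (p / 2) ≠ ⊤ :=
      ENNReal.mul_ne_top ENNReal.ofReal_ne_top (ENNReal.rpow_ne_top_of_nonneg hs0.le hyt)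
    refine (ENNReal.add_le_add_iff_right ht).1 ?_
    calc _ = (T ρ (fun g => (G⁻¹ * gaaQ r g + mq 2 g) ^ (p / 2)) f +
          ENNReal.ofReal (p / 2) * y ^ (p / 2)) + c * (G⁻¹ * nq 2 (avg^[r] f)) := by ring
      _ ≤ (y ^ (p / 2) + c * T ρ (fun g => G⁻¹ * gaaQ r g + mq 2 g) f) +
          c * (G⁻¹ * nq 2 (avg^[r] f)) := by gcongr
      _ = y ^ (p / 2) + c * (T ρ (fun g => G⁻¹ * gaaQ r g + mq 2 g) f +
          G⁻¹ * nq 2 (avg^[r] f)) := by ring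
      _ ≤ y ^ (p / 2) + c * (y + 2 * χ * nq 2 (avg f)) := by gcongr
      _ = _ := by rw [mul_add, e3]; ring
  have e4 : (mass f ^ 2) ^ (p / 2 - 1) = mass f ^ (p - 2) := by
    rw [← ENNReal.rpow_two, ← ENNReal.rpow_mul]
    congr 1
    ring
  have anti : ∀ {a b : ℝ≥0∞}, a ≤ b → b ^ (p / 2 - 1) ≤ a ^ (p / 2 - 1) := fun {a b} h => by
    rw [show p / 2 - 1 = -(1 - p / 2) by ring, ENNReal.rpow_neg, ENNReal.rpow_neg]
    exact ENNReal.inv_le_inv.2 (ENNReal.rpow_le_rpow h (by linarith))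
  have c1 : c ≤ mass f ^ (p - 2) := by
    rw [hc, ← e4]
    calc _ ≤ 1 * (mass f ^ 2) ^ (p / 2 - 1) :=
          mul_le_mul' (ENNReal.ofReal_le_one.2 hs1) (anti y1)
      _ = _ := one_mul _
  have c2 : 4⁻¹ * mass f ^ (p - 2) ≤ c := by
    have a1 : (2⁻¹ : ℝ≥0∞) ≤ ENNReal.ofReal (p / 2) := by
      rw [← ENNReal.ofReal_ofNat, ← ENNReal.ofReal_inv_of_pos (by norm_num)]
      exact ENNReal.ofReal_le_ofReal (by linarith)
    have a2 : (2⁻¹ : ℝ≥0∞) ≤ 2 ^ (p / 2 - 1) := by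
      rw [← ENNReal.rpow_neg_one]
      exact ENNReal.rpow_le_rpow_of_exponent_le (by norm_num) (by linarith)
    have a3 : (4⁻¹ : ℝ≥0∞) = 2⁻¹ * 2⁻¹ := by
      rw [← ENNReal.mul_inv (by simp) (by simp)]; norm_num
    calc 4⁻¹ * mass f ^ (p - 2) = 2⁻¹ * (2⁻¹ * (mass f ^ 2) ^ (p / 2 - 1)) := by
          rw [a3, e4, mul_assoc]
      _ ≤ ENNReal.ofReal (p / 2) * (2 ^ (p / 2 - 1) * (mass f ^ 2) ^ (p / 2 - 1)) := by gcongr
      _ = ENNReal.ofReal (p / 2) * (2 * mass f ^ 2) ^ (p / 2 - 1) := by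
          rw [ENNReal.mul_rpow_of_ne_top (by simp) (by finiteness)]
      _ ≤ c := mul_le_mul' le_rfl (anti y2)
  rw [gaa_V_eq, gaa_V_eq]
  calc _ = T ρ (fun g => (G⁻¹ * gaaQ r g + mq 2 g) ^ (p / 2)) f +
        4⁻¹ * mass f ^ (p - 2) * (G⁻¹ * nq 2 (avg^[r] f)) := by ring
    _ ≤ T ρ (fun g => (G⁻¹ * gaaQ r g + mq 2 g) ^ (p / 2)) f +
        c * (G⁻¹ * nq 2 (avg^[r] f)) := by gcongr
    _ ≤ y ^ (p / 2) + c * (2 * χ * nq 2 (avg f)) := t3
    _ ≤ y ^ (p / 2) + mass f ^ (p - 2) * (2 * χ * nq 2 (avg f)) := by gcongr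
    _ = _ := by rw [Function.iterate_one]; ring

theorem gaa_smooth' (hd : 3 ≤ d) {κ M : ℝ} (hκ : 0 < κ) : ∃ C : ℝ, 1 ≤ C ∧
    ∀ (ρ : Measure ℝ≥0) [IsProbabilityMeasure ρ] (p l : ℝ), Ctx d κ M ρ p l → ∀ r : ℕ, 1 ≤ r →
      ∑' j, ENNReal.ofReal ((1 - l) ^ (j + 1)) * (T ρ)^[j] (gaaV p r) (dlt (0 : Site d)) ≤
        ENNReal.ofReal (C * (r : ℝ) ^ (1 - (d : ℝ) / 2)) * OO d ρ p l := by
  obtain ⟨C1, hC1, hb⟩ := gaa_base (M := M) hd hκ
  obtain ⟨C2, hC2, hq⟩ := gaa_Q_le hd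
  have hd1 : 1 ≤ d := by omega
  have hM0 : 0 ≤ |M| := abs_nonneg M
  refine ⟨(8 + 16 * |M| * C1) * C2, by nlinarith [mul_nonneg hM0 (by linarith : 0 ≤ C1)],
    fun ρ _ p l hx r hr => ?_⟩
  obtain ⟨hp1, hp2⟩ := hx.one_lt hd
  obtain ⟨hm, -, -, χ, hχ, -⟩ := hx.good
  have hχM : χ ≤ ENNReal.ofReal (2 * |M|) :=
    (le_add_self.trans (hχ.symm.le.trans ((hx.good.basic hd hκ).2.1 2 (by norm_num)
      (by norm_num)))).trans (ENNReal.ofReal_le_ofReal (by linarith [le_abs_self M]))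
  have hr0 : (0 : ℝ) < r := by exact_mod_cast hr
  have hG : 0 < C2 * (r : ℝ) ^ (1 - (d : ℝ) / 2) := by positivity
  set G := ENNReal.ofReal (C2 * (r : ℝ) ^ (1 - (d : ℝ) / 2)) with hGd
  have hG0 : G ≠ 0 := (ENNReal.ofReal_pos.2 hG).ne'
  have hGt : G ≠ ⊤ := ENNReal.ofReal_ne_top
  have mΨ : Measurable fun g : Prof d => (G⁻¹ * gaaQ r g + mq 2 g) ^ (p / 2) :=
    (((gaa_Q_meas r).const_mul _).add (measurable_mq 2)).pow_const _
  have h := gaa_tele hd1 hx.l0 hx.l1 mΨ (fun f hf =>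
    gaa_drift hd1 hm hχ hp1.le hp2.le r hG0 hGt (fun f => hq f r hr) hf) (nice_dlt (0 : Site d))
  simp only [T_iter_const_mul _ _ (gaa_V_meas p _), mul_left_comm (ENNReal.ofReal _),
    ENNReal.tsum_mul_left] at h
  have hO : 1 ≤ OO d ρ p l := one_le_OO hd1 hm hp1.le hx.l0 hx.l1
  have a1 : (G⁻¹ * gaaQ r (dlt (0 : Site d)) + mq 2 (dlt (0 : Site d))) ^ (p / 2) ≤ 2 := by
    have b1 : G⁻¹ * gaaQ r (dlt (0 : Site d)) ≤ 1 := by
      have := hq (dlt 0) r hr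
      rw [mass_dlt, one_pow, mul_one] at this
      calc _ ≤ G⁻¹ * G := by gcongr
        _ = 1 := ENNReal.inv_mul_cancel hG0 hGt
    have b2 : mq 2 (dlt (0 : Site d)) = 1 := by rw [mq, mass_dlt, ENNReal.one_rpow]
    calc _ ≤ (1 + 1 : ℝ≥0∞) ^ (p / 2) := by rw [b2]; gcongr
      _ ≤ (1 + 1 : ℝ≥0∞) ^ (1 : ℝ) :=
          ENNReal.rpow_le_rpow_of_exponent_le le_self_add (by linarith)
      _ = 2 := by rw [ENNReal.rpow_one]; norm_num
  calc _ = 4 * G * (4⁻¹ * G⁻¹ * ∑' j, ENNReal.ofReal ((1 - l) ^ (j + 1)) *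
        (T ρ)^[j] (gaaV p r) (dlt (0 : Site d))) := by
        rw [← mul_assoc, mul_mul_mul_comm, ENNReal.mul_inv_cancel (by simp) (by simp),
          ENNReal.mul_inv_cancel hG0 hGt, one_mul, one_mul]
    _ ≤ 4 * G * (2 * OO d ρ p l + 2 * ENNReal.ofReal (2 * |M|) *
        (ENNReal.ofReal C1 * OO d ρ p l)) := by
        gcongr
        refine h.trans ?_
        gcongr
        · exact a1.trans (le_mul_of_one_le_right' hO)
        · exact hb ρ p l hx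
    _ = _ := by
        rw [mul_assoc (8 + 16 * |M| * C1),
          ENNReal.ofReal_mul (p := 8 + 16 * |M| * C1) (by positivity), ← hGd,
          ENNReal.ofReal_add (by norm_num) (by positivity),
          ENNReal.ofReal_mul (p := 16 * |M|) (by positivity),
          ENNReal.ofReal_mul (p := 16) (by norm_num), ENNReal.ofReal_mul (p := 2) (by norm_num)]
        simp only [ENNReal.ofReal_ofNat]
        ring

end Pool.Agent.Lib.MP_153faa_pr
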