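import Mathlib
import Pool.Agent.Lib.MP_153faa_pr.GAA1

/-!
A renewal inequality for the summed moments of the point-to-point partition functions.
-/

set_option autoImplicit false

open MeasureTheory Filter Topology
open scoped ENNReal NNReal

namespace Pool.Agent.Lib.MP_153faa_pr

variable {d : ℕ} {ρ : Measure ℝ≥0} [IsProbabilityMeasure ρ]

theorem gaa_psi (hd : 1 ≤ d) (h1 : Mean1 ρ) {K : ℝ≥0∞} (hK : mom ρ 2 ≤ K) {q : ℝ} (hq1 : 1 ≤ q)
    (hq2 : q ≤ 2) (r w : ℕ) : ∀ s : ℕ, Am d ρ q (s + w + r) ≤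
      (T ρ)^[s] (Psi ρ q r w) (dlt (0 : Site d)) + 8 * K *
        ∑ k ∈ Finset.range w, Am d ρ q (s + w - 1 - k) * Psi ρ q r k (dlt (0 : Site d)) := by
  induction w with
  | zero =>
    intro s
    rw [Am, add_zero, Function.iterate_add_apply]
    exact le_self_add
  | succ w ih =>
    intro s
    have h := ih (s + 1)
    have h2 : (T ρ)^[s + 1] (Psi ρ q r w) (dlt (0 : Site d)) ≤
        (T ρ)^[s] (Psi ρ q r (w + 1)) (dlt (0 : Site d)) +
          8 * K * (Am d ρ q s * Psi ρ q r w (dlt (0 : Site d))) := by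
      rw [Function.iterate_succ_apply]
      calc _ ≤ (T ρ)^[s] (fun f => Psi ρ q r (w + 1) f +
            8 * K * Psi ρ q r w (dlt (0 : Site d)) * nq q f) (dlt (0 : Site d)) :=
            T_iter_mono s (fun f => (T_Psi h1 hK hq1 hq2 r w f).trans (by
              rw [mul_assoc (8 * K), mul_comm (Psi ρ q r w _)]
              gcongr
              exact nq_avg_le hd hq1 f)) _
        _ = _ := by
            rw [T_iter_add s (measurable_Psi q r _), T_iter_const_mul s _ (measurable_nq q), Am]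
            ring
    rw [show s + (w + 1) = s + 1 + w by ring, Finset.sum_range_succ,
      show s + 1 + w - 1 - w = s by omega, mul_add]
    refine h.trans ?_
    rw [add_comm (8 * K * _) (8 * K * _), ← add_assoc]
    gcongr

theorem gaa_nq_le {q : ℝ} (hq : 1 ≤ q) {g : Prof d} {Y : ℝ≥0∞} (h : ∀ x, g x ≤ Y) :
    nq q g ≤ Y ^ (q - 1) * mass g := by
  rw [mass, ← ENNReal.tsum_mul_left]
  refine ENNReal.tsum_le_tsum fun x => ?_
  rw [← conv_rpow _ hq]
  gcongr
  exact h x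

theorem gaa_q0 (hd : 3 ≤ d) : 1 < q0 d ∧ q0 d < 2 := by
  have b : (3 : ℝ) ≤ d := by exact_mod_cast hd
  unfold q0
  constructor
  · have : (0 : ℝ) < 2 / d := by positivity
    linarith
  · have : (2 : ℝ) / d < 1 := by rw [div_lt_one (by linarith)]; linarith
    linarith

theorem gaa_heat (hd : 3 ≤ d) : ∃ C : ℝ, 1 ≤ C ∧ ∀ (w : ℕ) (f : Prof d),
    nq (q0 d) (avg^[w] f) ≤ ENNReal.ofReal (C / ((w : ℝ) + 1)) * mq (q0 d) f := by
  have hd1 : 1 ≤ d := by omega
  obtain ⟨C, hC, h⟩ := heat hd1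
  obtain ⟨q1, q2⟩ := gaa_q0 hd
  have b : (3 : ℝ) ≤ d := by exact_mod_cast hd
  refine ⟨C, hC, fun w f => (gaa_nq_le q1.le (h w f)).trans ?_⟩
  have hw : (0 : ℝ) < w + 1 := by positivity
  rw [mass_avg_iter hd1, ENNReal.mul_rpow_of_nonneg _ _ (by linarith), mul_assoc,
    conv_rpow _ q1.le, ENNReal.ofReal_rpow_of_nonneg (by positivity) (by linarith), mq]
  gcongr
  rw [Real.mul_rpow (by linarith) (by positivity), ← Real.rpow_mul hw.le,
    show -(d : ℝ) / 2 * (q0 d - 1) = -1 by unfold q0; field_simp; ring, Real.rpow_neg_one,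
    div_eq_mul_inv]
  gcongr
  calc C ^ (q0 d - 1) ≤ C ^ (1 : ℝ) := Real.rpow_le_rpow_of_exponent_le hC (by linarith)
    _ = C := Real.rpow_one C

/-- Time reversal. -/
theorem gaa_rev {q : ℝ} (hq : 0 < q) (r k : ℕ) : Psi ρ q (r + 1) k (dlt (0 : Site d)) =
    mom ρ q * (T ρ)^[r] (fun g => nq q (avg^[k + 1] g)) (dlt (0 : Site d)) := by
  have m1 : Measurable fun g : Prof d => nq q (avg g) := (measurable_nq q).comp measurable_avg
  have m2 : Measurable fun g : Prof d => nq q (avg^[k + 1] g) :=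
    (measurable_nq q).comp (measurable_avg_iter _)
  have m3 : ∀ (f : Prof d) (j : ℕ) (x : Site d),
      Measurable fun ω : ℕ → Layer d => avg^[j] (ev r ω f) x ^ q := fun f j x =>
    ((measurable_pi_apply x).comp ((measurable_avg_iter j).comp (measurable_ev r f))).pow_const q
  have e0 : T ρ (nq q) = fun g : Prof d => mom ρ q * nq q (avg g) := funext (T_nq hq)
  rw [Psi, Function.iterate_succ_apply, e0, T_iter_const_mul r _ m1, T_iter_eq r m1,
    T_iter_eq r m2]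
  congr 1
  simp only [nq]
  have m4 : ∀ x : Site d, Measurable fun ω : ℕ → Layer d =>
      avg (ev r ω (avg^[k] (dlt 0))) x ^ q := m3 _ 1
  rw [lintegral_tsum fun x => (m4 x).aemeasurable,
    lintegral_tsum fun x => (m3 _ (k + 1) x).aemeasurable, ← (Equiv.neg (Site d)).tsum_eq]
  refine tsum_congr fun x => ?_
  have e1 : ∀ ω : ℕ → Layer d, avg (ev r ω (avg^[k] (dlt 0))) (-x) =
      avg^[k + 1] (ev r (fun j => if j < r then ω (r - 1 - j) else ω j) (dlt (-x))) 0 := by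
    intro ω
    have h := conv_dual r ω (fun j => if j < r then ω (r - 1 - j) else ω j)
      (fun j hj => if_pos hj) (avg^[k] (dlt 0)) (dlt (-x))
    rw [tsum_eq_single (-x) fun y hy => by simp [dlt, hy], ← heat_dual,
      tsum_eq_single 0 fun y hy => by simp [dlt, hy]] at h
    simpa [dlt] using h
  simp only [Equiv.neg_apply, e1]
  rw [lintegral_env_rev (m3 (dlt (-x)) (k + 1) 0) r, ← conv_env_sh (m3 (dlt 0) (k + 1) x) (-x)]
  refine lintegral_congr fun ω => ?_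
  rw [← sh_dlt (-x), ev_sh, avg_iter_sh, sh, zero_sub, neg_neg]

theorem gaa_interp (hd : 1 ≤ d) {p ε : ℝ} (hp : 1 < p) (hp2 : p ≤ 2) (hε : 0 < ε) (k : ℕ)
    {g : Prof d} (hg : Nice g) : nq p (avg^[k] g) ≤ ENNReal.ofReal ε * mq p g +
      ENNReal.ofReal (ε ^ (-((2 - p) / (p - 1)))) * gaaV p k g := by
  by_cases hm : mass g = 0
  · rw [gaa_eq_zero hm, gaa_iter_zero]
    have : nq p (0 : Prof d) = 0 := by simp [nq, ENNReal.zero_rpow_of_pos (by linarith : 0 < p)]
    rw [this]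
    exact zero_le
  have ht : 0 < mr g := ENNReal.toReal_pos hm hg.mass_ne_top
  have h := nq_interp hp hp2 hε ht (g := avg^[k] g)
    (by rw [mass_avg_iter hd, hg.ofReal_mr])
  rw [ENNReal.ofReal_mul hε.le, ENNReal.ofReal_mul (by positivity),
    ← ENNReal.ofReal_rpow_of_pos ht, ← ENNReal.ofReal_rpow_of_pos ht, hg.ofReal_mr] at h
  rw [gaa_V_eq, ← mul_assoc]
  exact h

theorem gaa_powsum {a : ℝ} (h0 : 0 < a) (h1 : a ≤ 1) (w : ℕ) :
    ∑ k ∈ Finset.range w, ((k : ℝ) + 1) ^ (a - 1) ≤ (w : ℝ) ^ a / a := by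
  induction w with
  | zero => simp [Real.zero_rpow h0.ne']
  | succ w ih =>
    rw [Finset.sum_range_succ]
    have hw : (0 : ℝ) < w + 1 := by positivity
    have h2 := rpow_one_add_le_one_add_mul_self (s := -(1 / ((w : ℝ) + 1)))
      (by rw [neg_le_neg_iff, div_le_one hw]; linarith [Nat.cast_nonneg (α := ℝ) w]) h0.le h1
    have h3 : (w : ℝ) ^ a = ((w : ℝ) + 1) ^ a * (1 + -(1 / ((w : ℝ) + 1))) ^ a := by
      rw [← Real.mul_rpow hw.le (by
        rw [← sub_eq_add_neg, sub_nonneg, div_le_one hw]; linarith [Nat.cast_nonneg (α := ℝ) w])]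
      congr 1
      field_simp
      ring
    have h4 : ((w : ℝ) + 1) ^ (a - 1) = ((w : ℝ) + 1) ^ a / (w + 1) := Real.rpow_sub_one hw.ne' a
    have h5 : (w : ℝ) ^ a ≤ ((w : ℝ) + 1) ^ a * (1 + a * -(1 / ((w : ℝ) + 1))) := by
      rw [h3]; gcongr
    push_cast
    rw [h4, le_div_iff₀ h0] at *
    have h6 : ((w : ℝ) + 1) ^ a * (1 + a * -(1 / ((w : ℝ) + 1))) =
        ((w : ℝ) + 1) ^ a - ((w : ℝ) + 1) ^ a / (w + 1) * a := by ring
    rw [add_mul]
    linarith

/-- The choice of the interpolation parameters. -/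
theorem gaa_eps (hd : 3 ≤ d) {η : ℝ} (h0 : 0 < η) (h1 : η ≤ 1) (w : ℕ) :
    ∃ ε : ℕ → ℝ, (∀ k < w, 0 < ε k) ∧ ∑ k ∈ Finset.range w, ε k ≤ η * d / 2 ∧
      ∑ k ∈ Finset.range w, ε k ^ (-((2 - q0 d) / (q0 d - 1))) *
        ((k + 1 : ℕ) : ℝ) ^ (1 - (d : ℝ) / 2) ≤ η / η ^ d * w * d / 2 := by
  have b : (3 : ℝ) ≤ d := by exact_mod_cast hd
  rcases Nat.eq_zero_or_pos w with rfl | hw
  · exact ⟨fun _ => 1, by simp, by simp; positivity, by simp⟩
  have hw' : (0 : ℝ) < w := by exact_mod_cast hw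
  have a0 : (0 : ℝ) < 2 / d := by positivity
  have a1 : (2 : ℝ) / d ≤ 1 := by rw [div_le_one (by linarith)]; linarith
  have hs := gaa_powsum a0 a1 w
  have eβ : -((2 - q0 d) / (q0 d - 1)) = 1 - (d : ℝ) / 2 := by
    unfold q0; field_simp; ring
  refine ⟨fun k => η * (w : ℝ) ^ (-(2 / (d : ℝ))) * ((k : ℝ) + 1) ^ (2 / (d : ℝ) - 1),
    fun k _ => by positivity, ?_, ?_⟩
  · rw [← Finset.mul_sum]
    calc _ ≤ η * (w : ℝ) ^ (-(2 / (d : ℝ))) * ((w : ℝ) ^ (2 / (d : ℝ)) / (2 / d)) := by gcongr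
      _ = η * d / 2 := by
          rw [Real.rpow_neg hw'.le]
          have : (0 : ℝ) < (w : ℝ) ^ (2 / (d : ℝ)) := by positivity
          field_simp
  · rw [eβ]
    have e : ∀ k : ℕ, (η * (w : ℝ) ^ (-(2 / (d : ℝ))) * ((k : ℝ) + 1) ^ (2 / (d : ℝ) - 1)) ^
        (1 - (d : ℝ) / 2) * ((k + 1 : ℕ) : ℝ) ^ (1 - (d : ℝ) / 2) =
        η ^ (1 - (d : ℝ) / 2) * (w : ℝ) ^ (1 - 2 / (d : ℝ)) * ((k : ℝ) + 1) ^ (2 / (d : ℝ) - 1) := by
      intro k
      have hk : (0 : ℝ) < k + 1 := by positivity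
      push_cast
      rw [Real.mul_rpow (by positivity) (by positivity), Real.mul_rpow h0.le (by positivity),
        ← Real.rpow_mul hw'.le, ← Real.rpow_mul hk.le, mul_assoc, ← Real.rpow_add hk]
      congr 2
      · congr 1; field_simp; ring
      · field_simp; ring
    simp only [e]
    rw [← Finset.mul_sum]
    have e2 : η ^ (1 - (d : ℝ) / 2) ≤ η / η ^ d := by
      rw [← Real.rpow_natCast, ← Real.rpow_one η, ← Real.rpow_mul h0.le, ← Real.rpow_mul h0.le,
        ← Real.rpow_sub h0]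
      exact Real.rpow_le_rpow_of_exponent_ge h0 h1 (by linarith)
    calc _ ≤ η / η ^ d * (w : ℝ) ^ (1 - 2 / (d : ℝ)) * ((w : ℝ) ^ (2 / (d : ℝ)) / (2 / d)) := by
          gcongr
      _ = _ := by
          rw [Real.rpow_sub hw', Real.rpow_one]
          have : (0 : ℝ) < (w : ℝ) ^ (2 / (d : ℝ)) := by positivity
          field_simp

end Pool.Agent.Lib.MP_153faa_pr
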