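import Mathlib
import Pool.Agent.Lib.MP_153faa_pr.GAA2

/-!
The pointwise bound for the summed moments at the critical exponent.
-/

set_option autoImplicit false

open MeasureTheory Filter Topology
open scoped ENNReal NNReal

namespace Pool.Agent.Lib.MP_153faa_pr

variable {d : ℕ} {ρ : Measure ℝ≥0} [IsProbabilityMeasure ρ]

theorem gaa_pow_add {l : ℝ} (h0 : 0 < l) (h1 : l < 1) {i j n : ℕ} (h : i + j ≤ n) :
    ENNReal.ofReal ((1 - l) ^ n) ≤ ENNReal.ofReal ((1 - l) ^ i) * ENNReal.ofReal ((1 - l) ^ j) := by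
  rw [← ENNReal.ofReal_mul (pow_nonneg (by linarith) _), ← pow_add]
  exact gaa_pow_anti h0 h1 h

theorem gaa_one (hd : 1 ≤ d) (h1 : Mean1 ρ) {K O c B : ℝ≥0∞} {p l : ℝ} (hK : mom ρ 2 ≤ K)
    (hp1 : 1 < p) (hp2 : p ≤ 2) (l0 : 0 < l) (l1 : l < 1) (hO : OO d ρ p l ≤ O) {s w r : ℕ}
    (hc : ∀ f : Prof d, nq p (avg^[w] f) ≤ c * mq p f)
    (hB : ∀ i, s ≤ i → i < s + w + (r + 1) → ENNReal.ofReal ((1 - l) ^ i) * Am d ρ p i ≤ B)
    {ε : ℕ → ℝ} (hε : ∀ k < w, 0 < ε k) :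
    ENNReal.ofReal ((1 - l) ^ (s + w + (r + 1))) * Am d ρ p (s + w + (r + 1)) ≤
      K * c * O ^ 2 + 8 * K ^ 2 * B * ∑ k ∈ Finset.range w, (ENNReal.ofReal (ε k) * O +
        ENNReal.ofReal (ε k ^ (-((2 - p) / (p - 1)))) * (ENNReal.ofReal ((1 - l) ^ (r + 1)) *
          (T ρ)^[r] (gaaV p (k + 1)) (dlt (0 : Site d)))) := by
  have hKp : mom ρ p ≤ K := (mom_le_mom_two h1 hp1.le hp2).trans hK
  have hM : ∀ n, ENNReal.ofReal ((1 - l) ^ n) * Mom d ρ p n ≤ O := fun n =>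
    (Mom_le_OO hd h1 hp1.le l0 l1 n).trans hO
  have a1 : (T ρ)^[s] (Psi ρ p (r + 1) w) (dlt (0 : Site d)) ≤
      K * Mom d ρ p r * c * Mom d ρ p s := by
    rw [Mom, Mom, ← T_iter_const_mul s _ (measurable_mq p)]
    refine T_iter_mono s (fun f => (T_iter_nq_le_rev hd hp1.le r _).trans ?_) _
    rw [mul_assoc (K * _)]
    exact mul_le_mul' (mul_le_mul' hKp le_rfl) (hc f)
  have a2 : ∀ k ∈ Finset.range w, ENNReal.ofReal ((1 - l) ^ (s + w + (r + 1))) *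
      (Am d ρ p (s + w - 1 - k) * Psi ρ p (r + 1) k (dlt (0 : Site d))) ≤
      B * (K * (ENNReal.ofReal (ε k) * O + ENNReal.ofReal (ε k ^ (-((2 - p) / (p - 1)))) *
        (ENNReal.ofReal ((1 - l) ^ (r + 1)) *
          (T ρ)^[r] (gaaV p (k + 1)) (dlt (0 : Site d))))) := by
    intro k hk
    have hk' := Finset.mem_range.1 hk
    have b1 : (T ρ)^[r] (fun g => nq p (avg^[k + 1] g)) (dlt (0 : Site d)) ≤
        ENNReal.ofReal (ε k) * Mom d ρ p r + ENNReal.ofReal (ε k ^ (-((2 - p) / (p - 1)))) *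
          (T ρ)^[r] (gaaV p (k + 1)) (dlt (0 : Site d)) := by
      rw [Mom, ← T_iter_const_mul r _ (measurable_mq p), ← T_iter_const_mul r _ (gaa_V_meas p _),
        ← T_iter_add r ((measurable_mq p).const_mul _)]
      exact T_iter_mono_nice hd (fun g hg => gaa_interp hd hp1 hp2 (hε k hk') _ hg) r
        (nice_dlt _)
    have b2 : ENNReal.ofReal ((1 - l) ^ (r + 1)) * Mom d ρ p r ≤ O :=
      (mul_le_mul' (gaa_pow_anti l0 l1 (Nat.le_succ r)) le_rfl).trans (hM r)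
    rw [gaa_rev (by linarith)]
    calc _ ≤ ENNReal.ofReal ((1 - l) ^ (s + w - 1 - k)) * ENNReal.ofReal ((1 - l) ^ (r + 1)) *
          (Am d ρ p (s + w - 1 - k) * (K * (ENNReal.ofReal (ε k) * Mom d ρ p r +
            ENNReal.ofReal (ε k ^ (-((2 - p) / (p - 1)))) *
              (T ρ)^[r] (gaaV p (k + 1)) (dlt (0 : Site d))))) :=
          mul_le_mul' (gaa_pow_add l0 l1 (by omega)) (mul_le_mul' le_rfl (mul_le_mul' hKp b1))
      _ = ENNReal.ofReal ((1 - l) ^ (s + w - 1 - k)) * Am d ρ p (s + w - 1 - k) *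
          (K * (ENNReal.ofReal (ε k) * (ENNReal.ofReal ((1 - l) ^ (r + 1)) * Mom d ρ p r) +
            ENNReal.ofReal (ε k ^ (-((2 - p) / (p - 1)))) * (ENNReal.ofReal ((1 - l) ^ (r + 1)) *
              (T ρ)^[r] (gaaV p (k + 1)) (dlt (0 : Site d))))) := by ring
      _ ≤ _ := by
          gcongr ?_ * (K * (_ * ?_ + _))
          exact hB _ (by omega) (by omega)
  calc _ ≤ ENNReal.ofReal ((1 - l) ^ (s + w + (r + 1))) * (K * Mom d ρ p r * c * Mom d ρ p s +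
        8 * K * ∑ k ∈ Finset.range w,
          Am d ρ p (s + w - 1 - k) * Psi ρ p (r + 1) k (dlt (0 : Site d))) :=
        mul_le_mul' le_rfl ((gaa_psi hd h1 hK hp1.le hp2 (r + 1) w s).trans
          (add_le_add a1 le_rfl))
    _ = ENNReal.ofReal ((1 - l) ^ (s + w + (r + 1))) * (K * Mom d ρ p r * c * Mom d ρ p s) +
        8 * K * ∑ k ∈ Finset.range w, ENNReal.ofReal ((1 - l) ^ (s + w + (r + 1))) *
          (Am d ρ p (s + w - 1 - k) * Psi ρ p (r + 1) k (dlt (0 : Site d))) := by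
        rw [← Finset.mul_sum]; ring
    _ ≤ ENNReal.ofReal ((1 - l) ^ r) * ENNReal.ofReal ((1 - l) ^ s) *
          (K * Mom d ρ p r * c * Mom d ρ p s) + 8 * K * ∑ k ∈ Finset.range w,
        B * (K * (ENNReal.ofReal (ε k) * O + ENNReal.ofReal (ε k ^ (-((2 - p) / (p - 1)))) *
          (ENNReal.ofReal ((1 - l) ^ (r + 1)) *
            (T ρ)^[r] (gaaV p (k + 1)) (dlt (0 : Site d))))) :=
        add_le_add (mul_le_mul' (gaa_pow_add l0 l1 (by omega)) le_rfl)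
          (mul_le_mul' le_rfl (Finset.sum_le_sum a2))
    _ ≤ _ := by
        rw [← Finset.mul_sum, ← Finset.mul_sum]
        refine add_le_add ?_ (le_of_eq ?_)
        · calc _ = K * c * ((ENNReal.ofReal ((1 - l) ^ r) * Mom d ρ p r) *
                (ENNReal.ofReal ((1 - l) ^ s) * Mom d ρ p s)) := by ring
            _ ≤ _ := by rw [sq O]; exact mul_le_mul' le_rfl (mul_le_mul' (hM r) (hM s))
        · simp only [sq, mul_assoc, mul_left_comm B]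

theorem gaa_avg (hd : 3 ≤ d) (h1 : Mean1 ρ) {K Z Ch Cs B l η : ℝ} (hK : mom ρ 2 ≤ ENNReal.ofReal K)
    (K0 : 0 ≤ K) (Z0 : 0 ≤ Z) (Ch0 : 0 ≤ Ch) (Cs0 : 0 ≤ Cs) (B0 : 0 ≤ B)
    (l0 : 0 < l) (l1 : l < 1) (hO : OO d ρ (q0 d) l ≤ ENNReal.ofReal Z)
    (hh : ∀ (w : ℕ) (f : Prof d),
      nq (q0 d) (avg^[w] f) ≤ ENNReal.ofReal (Ch / ((w : ℝ) + 1)) * mq (q0 d) f)
    (hs : ∀ r : ℕ, 1 ≤ r → ∑' j, ENNReal.ofReal ((1 - l) ^ (j + 1)) *
      (T ρ)^[j] (gaaV (q0 d) r) (dlt (0 : Site d)) ≤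
        ENNReal.ofReal (Cs * (r : ℝ) ^ (1 - (d : ℝ) / 2)) * OO d ρ (q0 d) l)
    (η0 : 0 < η) (η1 : η ≤ 1) {n S w : ℕ} (hS : 1 ≤ S) (hn : S + w ≤ n)
    (hw : Cs * w ≤ S * η ^ d)
    (hB : ∀ i, n - S - w ≤ i → i < n →
      ENNReal.ofReal ((1 - l) ^ i) * Am d ρ (q0 d) i ≤ ENNReal.ofReal B) :
    ENNReal.ofReal ((1 - l) ^ n) * Am d ρ (q0 d) n ≤
      ENNReal.ofReal (K * (Ch / ((w : ℝ) + 1)) * Z ^ 2 + 8 * K ^ 2 * B * (Z * η * d)) := by
  have hd1 : 1 ≤ d := by omega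
  obtain ⟨q1, q2⟩ := gaa_q0 hd
  obtain ⟨ε, hε, e1, e2⟩ := gaa_eps hd η0 η1 w
  have hε' : ∀ k ∈ Finset.range w, 0 < ε k := fun k hk => hε k (Finset.mem_range.1 hk)
  have a1 : ∀ r ∈ Finset.range S, ENNReal.ofReal ((1 - l) ^ n) * Am d ρ (q0 d) n ≤
      ENNReal.ofReal K * ENNReal.ofReal (Ch / ((w : ℝ) + 1)) * ENNReal.ofReal Z ^ 2 +
        8 * ENNReal.ofReal K ^ 2 * ENNReal.ofReal B * ∑ k ∈ Finset.range w,
          (ENNReal.ofReal (ε k) * ENNReal.ofReal Z +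
            ENNReal.ofReal (ε k ^ (-((2 - q0 d) / (q0 d - 1)))) *
              (ENNReal.ofReal ((1 - l) ^ (r + 1)) *
                (T ρ)^[r] (gaaV (q0 d) (k + 1)) (dlt (0 : Site d)))) :=
    fun r hr => by
      have hr' := Finset.mem_range.1 hr
      have h := gaa_one hd1 h1 hK q1 q2.le l0 l1 hO (s := n - w - (r + 1)) (w := w) (r := r)
        (hh w) (fun i hi hi' => hB i (by omega) (by omega)) hε
      rwa [show n - w - (r + 1) + w + (r + 1) = n by omega] at h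
  have a2 := Finset.sum_le_sum a1
  rw [Finset.sum_add_distrib, Finset.sum_const, Finset.sum_const, ← Finset.mul_sum,
    Finset.sum_comm, Finset.card_range, nsmul_eq_mul, nsmul_eq_mul] at a2
  have a3 : ∀ k ∈ Finset.range w, ∑ r ∈ Finset.range S, (ENNReal.ofReal (ε k) * ENNReal.ofReal Z +
      ENNReal.ofReal (ε k ^ (-((2 - q0 d) / (q0 d - 1)))) * (ENNReal.ofReal ((1 - l) ^ (r + 1)) *
        (T ρ)^[r] (gaaV (q0 d) (k + 1)) (dlt (0 : Site d)))) ≤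
      ENNReal.ofReal (Z * (S * ε k + Cs * (ε k ^ (-((2 - q0 d) / (q0 d - 1))) *
        ((k + 1 : ℕ) : ℝ) ^ (1 - (d : ℝ) / 2)))) := by
    intro k hk
    have := hε' k hk
    rw [Finset.sum_add_distrib, Finset.sum_const, ← Finset.mul_sum, Finset.card_range,
      nsmul_eq_mul]
    calc _ ≤ (S : ℝ≥0∞) * (ENNReal.ofReal (ε k) * ENNReal.ofReal Z) +
          ENNReal.ofReal (ε k ^ (-((2 - q0 d) / (q0 d - 1)))) *
            (ENNReal.ofReal (Cs * ((k + 1 : ℕ) : ℝ) ^ (1 - (d : ℝ) / 2)) * ENNReal.ofReal Z) :=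
          add_le_add le_rfl (mul_le_mul' le_rfl ((ENNReal.sum_le_tsum _).trans
            ((hs (k + 1) (by omega)).trans (mul_le_mul' le_rfl hO))))
      _ = _ := by
          rw [← ENNReal.ofReal_natCast, ← ENNReal.ofReal_mul (by positivity),
            ← ENNReal.ofReal_mul (by positivity), ← ENNReal.ofReal_mul (by positivity),
            ← ENNReal.ofReal_mul (by positivity),
            ← ENNReal.ofReal_add (by positivity) (by positivity)]
          congr 1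
          ring
  have a4 : ∑ k ∈ Finset.range w, ENNReal.ofReal (Z * (S * ε k +
      Cs * (ε k ^ (-((2 - q0 d) / (q0 d - 1))) * ((k + 1 : ℕ) : ℝ) ^ (1 - (d : ℝ) / 2)))) ≤
      ENNReal.ofReal (S * (Z * η * d)) := by
    rw [← ENNReal.ofReal_sum_of_nonneg fun k hk => by have := hε' k hk; positivity]
    refine ENNReal.ofReal_le_ofReal ?_
    rw [← Finset.mul_sum, Finset.sum_add_distrib, ← Finset.mul_sum, ← Finset.mul_sum]
    have b1 : Cs * (η / η ^ d * w * d / 2) ≤ S * (η * d / 2) := by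
      calc _ = η / η ^ d * d / 2 * (Cs * w) := by ring
        _ ≤ η / η ^ d * d / 2 * (S * η ^ d) := by gcongr
        _ = _ := by field_simp
    calc _ ≤ Z * (S * (η * d / 2) + Cs * (η / η ^ d * w * d / 2)) := by gcongr
      _ ≤ Z * (S * (η * d / 2) + S * (η * d / 2)) := by gcongr
      _ = _ := by ring
  have hS0 : (S : ℝ≥0∞) ≠ 0 := by exact_mod_cast (by omega : S ≠ 0)
  refine (ENNReal.mul_le_mul_iff_right hS0 (ENNReal.natCast_ne_top S)).1 (a2.trans ?_)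
  calc _ ≤ (S : ℝ≥0∞) * (ENNReal.ofReal K * ENNReal.ofReal (Ch / ((w : ℝ) + 1)) *
        ENNReal.ofReal Z ^ 2) + 8 * ENNReal.ofReal K ^ 2 * ENNReal.ofReal B *
        ENNReal.ofReal (S * (Z * η * d)) :=
        add_le_add le_rfl (mul_le_mul' le_rfl ((Finset.sum_le_sum a3).trans a4))
    _ = _ := by
        rw [ENNReal.ofReal_add (by positivity) (by positivity),
          ENNReal.ofReal_mul (p := K * _) (by positivity), ENNReal.ofReal_mul K0,
          ENNReal.ofReal_mul (p := 8 * _ * _) (by positivity),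
          ENNReal.ofReal_mul (p := 8 * _) (by positivity),
          ENNReal.ofReal_mul (p := 8) (by positivity),
          ENNReal.ofReal_mul (p := S) (by positivity), ENNReal.ofReal_pow K0,
          ENNReal.ofReal_pow Z0, ENNReal.ofReal_natCast, ENNReal.ofReal_ofNat]
        ring

theorem gaa_point (hd : 3 ≤ d) {κ M : ℝ} (hκ : 0 < κ) : ∃ C : ℝ, 1 ≤ C ∧
    ∀ (ρ : Measure ℝ≥0) [IsProbabilityMeasure ρ] (l Z : ℝ), Ctx d κ M ρ (q0 d) l → C ≤ Z →
      OO d ρ (q0 d) l ≤ ENNReal.ofReal Z → ∀ n : ℕ, 1 ≤ n →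
        ENNReal.ofReal ((1 - l) ^ n) * Am d ρ (q0 d) n ≤ ENNReal.ofReal (Z ^ (d + 3) / n) := by
  obtain ⟨Cs, hCs, hs⟩ := gaa_smooth' (M := M) hd hκ
  obtain ⟨Ch, hCh, hh⟩ := gaa_heat hd
  have hd1 : 1 ≤ d := by omega
  have b : (3 : ℝ) ≤ d := by exact_mod_cast hd
  obtain ⟨K, hK⟩ : ∃ K : ℝ, K = 2 * |M| + 1 := ⟨_, rfl⟩
  have K1 : 1 ≤ K := by rw [hK]; linarith [abs_nonneg M]
  have c1 : 1 ≤ 32 * K ^ 2 * d := by nlinarith [one_le_pow₀ K1 (n := 2)]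
  have c2 : 1 ≤ (32 * K ^ 2 * d) ^ d := one_le_pow₀ c1
  have c3 : 1 ≤ K * Ch * Cs := one_le_mul_of_one_le_of_one_le
    (one_le_mul_of_one_le_of_one_le K1 hCh) hCs
  have c4 : 16 ≤ 16 * (K * Ch * Cs) * (32 * K ^ 2 * d) ^ d := by nlinarith
  refine ⟨16 * (K * Ch * Cs) * (32 * K ^ 2 * d) ^ d, by linarith, fun ρ _ l Z hx hZ hO n => ?_⟩
  have Z1 : 1 ≤ Z := by linarith
  have hm := hx.good.1
  obtain ⟨q1, q2⟩ := gaa_q0 hd
  have hmK : mom ρ 2 ≤ ENNReal.ofReal K :=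
    ((hx.good.basic hd hκ).2.1 2 (by norm_num) (by norm_num)).trans
      (ENNReal.ofReal_le_ofReal (by rw [hK]; linarith [le_abs_self M]))
  induction n using Nat.strong_induction_on with
  | _ n ih =>
  intro hn
  have n0 : (0 : ℝ) < n := by exact_mod_cast hn
  by_cases h4 : n < 4
  · refine ((mul_le_mul' le_rfl (Am_le_Mom q1.le n)).trans
      ((Mom_le_OO hd1 hm q1.le hx.l0 hx.l1 n).trans hO)).trans (ENNReal.ofReal_le_ofReal ?_)
    rw [le_div_iff₀ n0]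
    have : (n : ℝ) ≤ 4 := by exact_mod_cast h4.le
    calc Z * n ≤ Z * Z := by gcongr; linarith
      _ = Z ^ 2 := (sq Z).symm
      _ ≤ _ := pow_le_pow_right₀ Z1 (by omega)
  obtain ⟨η, hη⟩ : ∃ η : ℝ, η = (32 * K ^ 2 * d * Z)⁻¹ := ⟨_, rfl⟩
  have η0 : 0 < η := by rw [hη]; positivity
  have η1 : η ≤ 1 := by rw [hη]; exact inv_le_one_of_one_le₀ (by nlinarith)
  have S8 : (n : ℝ) ≤ 8 * (n / 4 : ℕ) := by exact_mod_cast (by omega : n ≤ 8 * (n / 4))
  obtain ⟨w, hw⟩ : ∃ w : ℕ, w = ⌊((n / 4 : ℕ) : ℝ) * η ^ d / Cs⌋₊ := ⟨_, rfl⟩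
  have w1 : Cs * w ≤ ((n / 4 : ℕ) : ℝ) * η ^ d := by
    rw [mul_comm, ← le_div_iff₀ (by linarith), hw]
    exact Nat.floor_le (by positivity)
  have w2 : ((n / 4 : ℕ) : ℝ) * η ^ d / Cs < w + 1 := by rw [hw]; exact Nat.lt_floor_add_one _
  have w3 : w ≤ n / 4 := by
    have : (w : ℝ) ≤ ((n / 4 : ℕ) : ℝ) :=
      calc (w : ℝ) ≤ Cs * w := le_mul_of_one_le_left (by positivity) hCs
        _ ≤ ((n / 4 : ℕ) : ℝ) * η ^ d := w1
        _ ≤ _ := mul_le_of_le_one_right (by positivity) (pow_le_one₀ η0.le η1)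
    exact_mod_cast this
  have h := gaa_avg hd hm hmK (B := 2 * (Z ^ (d + 3) / n)) (by linarith) (by linarith)
    (by linarith) (by linarith) (by positivity) hx.l0 hx.l1 hO hh (hs ρ _ l hx) η0 η1
    (n := n) (S := n / 4) (w := w) (by omega) (by omega) w1 (fun i hi hi' => by
      have i1 : (n : ℝ) ≤ 2 * i := by exact_mod_cast (by omega : n ≤ 2 * i)
      refine (ih i hi' (by omega)).trans (ENNReal.ofReal_le_ofReal ?_)
      rw [← mul_div_assoc, div_le_div_iff₀ (by linarith) n0]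
      have : 0 ≤ Z ^ (d + 3) := by positivity
      nlinarith)
  refine h.trans (ENNReal.ofReal_le_ofReal ?_)
  have e1 : 8 * K ^ 2 * (2 * (Z ^ (d + 3) / n)) * (Z * η * d) = Z ^ (d + 3) / n / 2 := by
    rw [hη]; field_simp; ring
  have e2 : K * (Ch / ((w : ℝ) + 1)) * Z ^ 2 ≤ Z ^ (d + 3) / n / 2 := by
    have f1 : η ^ d * ((32 * K ^ 2 * d) ^ d * Z ^ d) = 1 := by
      rw [hη, ← mul_pow, ← mul_pow, inv_mul_cancel₀ (by positivity), one_pow]
    have f2 : (n : ℝ) * η ^ d ≤ 8 * Cs * (w + 1) := by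
      rw [div_lt_iff₀ (by linarith)] at w2
      have : 0 < η ^ d := by positivity
      nlinarith
    have f3 : (n : ℝ) ≤ 8 * Cs * (w + 1) * ((32 * K ^ 2 * d) ^ d * Z ^ d) := by
      calc (n : ℝ) = n * η ^ d * ((32 * K ^ 2 * d) ^ d * Z ^ d) := by rw [mul_assoc, f1, mul_one]
        _ ≤ _ := by gcongr
    rw [div_div, le_div_iff₀ (by positivity)]
    calc _ ≤ K * (Ch / ((w : ℝ) + 1)) * Z ^ 2 *
          (8 * Cs * (w + 1) * ((32 * K ^ 2 * d) ^ d * Z ^ d) * 2) := by gcongr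
      _ = 16 * (K * Ch * Cs) * (32 * K ^ 2 * d) ^ d * Z ^ (d + 2) := by field_simp; ring
      _ ≤ Z * Z ^ (d + 2) := by gcongr
      _ = _ := by ring
  linarith

end Pool.Agent.Lib.MP_153faa_pr
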