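import Mathlib
import Pool.Agent.Lib.MP_153faa_pr.GDefs

/-!
Continuity and horizon estimates for the moment at a geometric time.
-/

set_option autoImplicit false

open MeasureTheory Filter Topology
open scoped ENNReal NNReal

namespace Pool.Agent.Lib.MP_153faa_pr

variable {d : ℕ}

/-! ### Series of extended reals -/

theorem gcont_tsum_dom {ι : Type*} {u : Filter ι} [u.IsCountablyGenerated]
    {F : ι → ℕ → ℝ≥0∞} {f B : ℕ → ℝ≥0∞} (hB : ∑' n, B n ≠ ⊤)
    (h : ∀ᶠ i in u, ∀ n, F i n ≤ B n) (hl : ∀ n, Tendsto (fun i => F i n) u (𝓝 (f n))) :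
    Tendsto (fun i => ∑' n, F i n) u (𝓝 (∑' n, f n)) := by
  have := tendsto_lintegral_filter_of_dominated_convergence (μ := Measure.count) (l := u)
    (F := F) (f := f) B (Eventually.of_forall fun i => measurable_from_top)
    (h.mono fun i hi => Eventually.of_forall hi) (by rwa [lintegral_count])
    (Eventually.of_forall hl)
  simpa only [lintegral_count] using this

theorem gcont_tsum_liminf {ι : Type*} {u : Filter ι} [u.IsCountablyGenerated]
    (F : ι → ℕ → ℝ≥0∞) :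
    ∑' n, liminf (fun i => F i n) u ≤ liminf (fun i => ∑' n, F i n) u := by
  have := lintegral_liminf_le (μ := Measure.count) (u := u) (f := F)
    fun i => measurable_from_top
  simpa only [lintegral_count] using this

theorem gcont_geom_le {a : ℕ → ℝ≥0∞} (h : ∀ n m, a (n + m) ≤ a n * a m) {k : ℕ}
    {r : ℝ≥0∞} (hr : a k ≤ r) (j m : ℕ) : a (k * j + m) ≤ r ^ j * a m := by
  induction j with
  | zero => simp
  | succ j ih =>
    calc a (k * (j + 1) + m) = a (k + (k * j + m)) := by congr 1; ring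
      _ ≤ a k * a (k * j + m) := h _ _
      _ ≤ r * (r ^ j * a m) := by gcongr
      _ = r ^ (j + 1) * a m := by ring

theorem gcont_geom_le' {a : ℕ → ℝ≥0∞} (h : ∀ n m, a (n + m) ≤ a n * a m) {k : ℕ}
    {r : ℝ≥0∞} (hr : a k ≤ r) (n : ℕ) : a n ≤ r ^ (n / k) * a (n % k) := by
  conv_lhs => rw [← Nat.div_add_mod n k]
  exact gcont_geom_le h hr _ _

theorem gcont_geom_sum {k : ℕ} (hk : 1 ≤ k) {r : ℝ≥0∞} (hr : r < 1) :
    ∑' n : ℕ, r ^ (n / k) ≠ ⊤ := by
  have h1 : ∑' n : ℕ, r ^ (n / k) ≤ ∑' q : ℕ × Fin k, r ^ q.1 := by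
    refine ENNReal.tsum_comp_le_tsum_of_injective
      (f := fun n : ℕ => ((n / k, ⟨n % k, Nat.mod_lt n hk⟩) : ℕ × Fin k)) (fun n m h => ?_)
      fun q => r ^ q.1
    simp only [Prod.mk.injEq, Fin.mk.injEq] at h
    rw [← Nat.div_add_mod n k, ← Nat.div_add_mod m k, h.1, h.2]
  refine ne_top_of_le_ne_top ?_ h1
  rw [ENNReal.tsum_prod']
  simp only [tsum_fintype, Finset.sum_const, Finset.card_univ, Fintype.card_fin, nsmul_eq_mul,
    ENNReal.tsum_mul_left, ENNReal.tsum_geometric]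
  exact ENNReal.mul_ne_top (by simp) (ENNReal.inv_ne_top.2 (tsub_pos_of_lt hr).ne')

/-- Submultiplicative sequences: convergence of the sums. -/
theorem gcont_sub_tendsto {ι : Type*} {u : Filter ι} [u.IsCountablyGenerated]
    {a : ι → ℕ → ℝ≥0∞} {b : ℕ → ℝ≥0∞} (h : ∀ᶠ i in u, ∀ n m, a i (n + m) ≤ a i n * a i m)
    (hl : ∀ n, Tendsto (fun i => a i n) u (𝓝 (b n))) (hb : ∀ n, b n ≠ ⊤) {k : ℕ} (hk : 1 ≤ k)
    (hbk : b k < 1) : Tendsto (fun i => ∑' n, a i n) u (𝓝 (∑' n, b n)) := by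
  obtain ⟨r, hr1, hr2⟩ := exists_between hbk
  have e1 : ∀ᶠ i in u, a i k ≤ r := (hl k).eventually_le_const hr1
  have e2 : ∀ᶠ i in u, ∀ m ∈ Finset.range k, a i m ≤ b m + 1 :=
    (Finset.eventually_all _).2 fun m _ =>
      (hl m).eventually_le_const (ENNReal.lt_add_right (hb m) one_ne_zero)
  refine gcont_tsum_dom (B := fun n => r ^ (n / k) * ∑ m ∈ Finset.range k, (b m + 1)) ?_ ?_ hl
  · rw [ENNReal.tsum_mul_right]
    exact ENNReal.mul_ne_top (gcont_geom_sum hk hr2)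
      (ENNReal.sum_ne_top.2 fun m _ => ENNReal.add_ne_top.2 ⟨hb m, ENNReal.one_ne_top⟩)
  · filter_upwards [h, e1, e2] with i hi h1 h2 n
    have hm : n % k ∈ Finset.range k := Finset.mem_range.2 (Nat.mod_lt n hk)
    refine (gcont_geom_le' hi h1 n).trans ?_
    gcongr
    exact (h2 _ hm).trans
      (Finset.single_le_sum (f := fun m => b m + 1) (fun _ _ => zero_le) hm)

/-! ### The moment at a geometric time -/

theorem gcont_OO_eq {ρ : Measure ℝ≥0} [IsProbabilityMeasure ρ] (p l : ℝ) :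
    OO d ρ p l = ∑' n, wt l n * Mom d ρ p n := rfl

theorem gcont_wt {l : ℝ} (h0 : 0 ≤ l) (n : ℕ) :
    wt l n = ENNReal.ofReal l * ENNReal.ofReal ((1 - l) ^ n) := ENNReal.ofReal_mul h0

theorem gcont_OO_eq' {ρ : Measure ℝ≥0} [IsProbabilityMeasure ρ] (p : ℝ) {l : ℝ} (h0 : 0 ≤ l) :
    OO d ρ p l = ENNReal.ofReal l * ∑' n, ENNReal.ofReal ((1 - l) ^ n) * Mom d ρ p n := by
  rw [gcont_OO_eq, ← ENNReal.tsum_mul_left]
  simp only [gcont_wt h0, mul_assoc]

theorem gcont_wt_add {l : ℝ} (h1 : l ≤ 1) (n m : ℕ) :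
    wt l (n + m) = ENNReal.ofReal ((1 - l) ^ m) * wt l n := by
  rw [wt, wt, ← ENNReal.ofReal_mul (pow_nonneg (by linarith) _)]
  congr 1; ring

theorem gcont_wt_sum {l : ℝ} (h0 : 0 < l) (h1 : l ≤ 1) : ∑' n, wt l n = 1 := by
  simp only [gcont_wt h0.le, ENNReal.tsum_mul_left,
    ENNReal.ofReal_pow (show 0 ≤ 1 - l by linarith), ENNReal.tsum_geometric]
  rw [← ENNReal.ofReal_one, ← ENNReal.ofReal_sub _ (by linarith), sub_sub_cancel,
    ENNReal.ofReal_one]
  exact ENNReal.mul_inv_cancel (by simpa using h0) ENNReal.ofReal_ne_top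

theorem Mom_submul {ρ : Measure ℝ≥0} [IsProbabilityMeasure ρ] {p : ℝ} (hp : 1 ≤ p) (n m : ℕ) :
    Mom d ρ p (n + m) ≤ Mom d ρ p n * Mom d ρ p m := by
  unfold Mom
  rw [Function.iterate_add_apply, mul_comm, ← T_iter_const_mul n _ (measurable_mq p)]
  exact T_iter_mono n (fun g => (T_iter_mq_le hp m g).trans (le_of_eq (mul_comm _ _))) _

theorem gcont_submul {ρ : Measure ℝ≥0} [IsProbabilityMeasure ρ] {p l : ℝ} (hp : 1 ≤ p)
    (h1 : l ≤ 1) (n m : ℕ) :
    ENNReal.ofReal ((1 - l) ^ (n + m)) * Mom d ρ p (n + m) ≤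
      ENNReal.ofReal ((1 - l) ^ n) * Mom d ρ p n * (ENNReal.ofReal ((1 - l) ^ m) * Mom d ρ p m) := by
  rw [pow_add, ENNReal.ofReal_mul (pow_nonneg (by linarith) _), mul_mul_mul_comm]
  gcongr
  exact Mom_submul hp n m

/-- Summation by parts against the geometric weights. -/
theorem gcont_abel {a : ℕ → ℝ≥0∞} (ha : Monotone a) {l : ℝ} (h0 : 0 < l) (h1 : l ≤ 1) :
    ∑' n, wt l n * a n = a 0 + ∑' k, ENNReal.ofReal ((1 - l) ^ (k + 1)) * (a (k + 1) - a k) := by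
  have e : ∀ n, a n = a 0 + ∑' k, if k < n then a (k + 1) - a k else 0 := by
    intro n
    rw [tsum_eq_sum (s := Finset.range n) fun k hk => if_neg (by simpa using hk),
      Finset.sum_ite_of_true fun k hk => Finset.mem_range.1 hk]
    induction n with
    | zero => simp
    | succ n ih =>
      rw [Finset.sum_range_succ, ← add_assoc, ← ih, add_tsub_cancel_of_le (ha (Nat.le_succ n))]
  calc ∑' n, wt l n * a n
      = ∑' n, (wt l n * a 0 + ∑' k, wt l n * if k < n then a (k + 1) - a k else 0) := by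
        refine tsum_congr fun n => ?_
        rw [ENNReal.tsum_mul_left, ← mul_add, ← e]
    _ = a 0 + ∑' k, ∑' n, wt l n * if k < n then a (k + 1) - a k else 0 := by
        rw [ENNReal.tsum_add, ENNReal.tsum_mul_right, gcont_wt_sum h0 h1, one_mul,
          ENNReal.tsum_comm]
    _ = _ := by
        congr 1
        refine tsum_congr fun k => ?_
        rw [← Summable.sum_add_tsum_nat_add' (f := fun n => wt l n *
          if k < n then a (k + 1) - a k else 0) (k := k + 1) ENNReal.summable,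
          Finset.sum_eq_zero fun n hn => by
            rw [if_neg (by have := Finset.mem_range.1 hn; omega), mul_zero], zero_add]
        have : ∀ n, k < n + (k + 1) := fun n => by omega
        simp only [this, if_true, gcont_wt_add h1, ENNReal.tsum_mul_right, ENNReal.tsum_mul_left,
          gcont_wt_sum h0 h1, mul_one]

theorem gcont_horizon (hd : 1 ≤ d) {ρ : Measure ℝ≥0} [IsProbabilityMeasure ρ] (hm : Mean1 ρ)
    {p l l' : ℝ} (hp : 1 ≤ p) (h0 : 0 < l') (h : l' ≤ l) (h1 : l ≤ 1) :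
    OO d ρ p l ≤ OO d ρ p l' := by
  rw [gcont_OO_eq, gcont_OO_eq, gcont_abel (Mom_mono hd hm hp) (by linarith) h1,
    gcont_abel (Mom_mono hd hm hp) h0 (by linarith)]
  gcongr with k

theorem gcont_Mom_le (hd : 1 ≤ d) {ρ : Measure ℝ≥0} [IsProbabilityMeasure ρ] (hm : Mean1 ρ)
    {p l : ℝ} (hp : 1 ≤ p) (h0 : 0 < l) (h1 : l ≤ 1) (n : ℕ) :
    ENNReal.ofReal ((1 - l) ^ n) * Mom d ρ p n ≤ OO d ρ p l := by
  calc ENNReal.ofReal ((1 - l) ^ n) * Mom d ρ p n = ∑' k, wt l (k + n) * Mom d ρ p n := by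
        simp only [gcont_wt_add h1, ENNReal.tsum_mul_right, ENNReal.tsum_mul_left,
          gcont_wt_sum h0 h1, mul_one]
    _ ≤ ∑' k, wt l (k + n) * Mom d ρ p (k + n) := by
        gcongr with k
        exact Mom_mono hd hm hp (Nat.le_add_left n k)
    _ ≤ OO d ρ p l :=
        ENNReal.tsum_comp_le_tsum_of_injective (add_left_injective n)
          fun k => wt l k * Mom d ρ p k

theorem gcont_one_le (hd : 1 ≤ d) {ρ : Measure ℝ≥0} [IsProbabilityMeasure ρ] (hm : Mean1 ρ)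
    {p l : ℝ} (hp : 1 ≤ p) (h0 : 0 < l) (h1 : l ≤ 1) : 1 ≤ OO d ρ p l := by
  simpa [Mom_zero] using gcont_Mom_le hd hm hp h0 h1 0

/-- A short block with a small discounted moment. -/
theorem exists_block {ρ : Measure ℝ≥0} [IsProbabilityMeasure ρ] {p l Z : ℝ} (h0 : 0 < l)
    (h1 : l < 1) (hZ : 1 ≤ Z) (hO : OO d ρ p l ≤ ENNReal.ofReal Z) :
    ∃ n : ℕ, 1 ≤ n ∧ (n : ℝ) ≤ 4 * Z / l + 2 ∧
      ENNReal.ofReal ((1 - l) ^ n) * Mom d ρ p n ≤ 2⁻¹ := by
  have _ := h1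
  by_contra hc
  push Not at hc
  have hx : 0 ≤ 4 * Z / l + 2 := by positivity
  set N := ⌊4 * Z / l + 2⌋₊ with hN
  have hN1 : 4 * Z / l + 2 < N + 1 := Nat.lt_floor_add_one _
  have hN2 : (N : ℝ) ≤ 4 * Z / l + 2 := Nat.floor_le hx
  have h2 : ENNReal.ofReal l * (N * 2⁻¹) ≤ OO d ρ p l := by
    rw [gcont_OO_eq' p h0.le]
    gcongr
    calc (N : ℝ≥0∞) * 2⁻¹ = ∑ _n ∈ Finset.Icc 1 N, (2⁻¹ : ℝ≥0∞) := by simp
      _ ≤ ∑ n ∈ Finset.Icc 1 N, ENNReal.ofReal ((1 - l) ^ n) * Mom d ρ p n := by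
          refine Finset.sum_le_sum fun n hn => (hc n (Finset.mem_Icc.1 hn).1 ?_).le
          exact le_trans (by exact_mod_cast (Finset.mem_Icc.1 hn).2) hN2
      _ ≤ _ := ENNReal.sum_le_tsum _
  have h3 : ENNReal.ofReal l * (N * 2⁻¹) = ENNReal.ofReal (l * (N * 2⁻¹)) := by
    rw [ENNReal.ofReal_mul h0.le, ENNReal.ofReal_mul (Nat.cast_nonneg _), ENNReal.ofReal_natCast,
      ENNReal.ofReal_inv_of_pos two_pos, ENNReal.ofReal_ofNat]
  rw [h3] at h2
  have h4 := (ENNReal.ofReal_le_ofReal_iff (by linarith)).1 (h2.trans hO)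
  have h5 : 4 * Z / l * l = 4 * Z := by field_simp
  nlinarith

/-- Long horizons do not contribute. -/
theorem kill (hd : 1 ≤ d) {ρ : Measure ℝ≥0} [IsProbabilityMeasure ρ] (hm : Mean1 ρ) {p l Z : ℝ}
    (hp : 1 ≤ p) (h0 : 0 < l) (h1 : l < 1) (hZ : 1 ≤ Z) (hO : OO d ρ p l ≤ ENNReal.ofReal Z)
    {N : ℕ} {s : ℝ} (hs : 0 ≤ s) (hN : s * Z / l ≤ N) :
    ∑' n, wt l (n + N) * Mom d ρ p (n + N) ≤ ENNReal.ofReal (100 * Z ^ 2 * Real.exp (-(s / 10))) := by
  have _ := hs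
  obtain ⟨k, hk1, hk2, hk3⟩ := exists_block h0 h1 hZ hO
  have hsub := gcont_submul (d := d) (ρ := ρ) hp h1.le
  have a1 : ENNReal.ofReal ((1 - l) ^ N) * Mom d ρ p N ≤ 2⁻¹ ^ (N / k) * ENNReal.ofReal Z := by
    refine (gcont_geom_le' (a := fun n => ENNReal.ofReal ((1 - l) ^ n) * Mom d ρ p n)
      hsub hk3 N).trans ?_
    gcongr
    exact (gcont_Mom_le hd hm hp h0 h1.le _).trans hO
  have a2 : ∑' n, wt l (n + N) * Mom d ρ p (n + N) ≤
      OO d ρ p l * (ENNReal.ofReal ((1 - l) ^ N) * Mom d ρ p N) := by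
    rw [gcont_OO_eq, ← ENNReal.tsum_mul_right]
    refine ENNReal.tsum_le_tsum fun n => ?_
    rw [gcont_wt h0.le, gcont_wt h0.le, mul_assoc, mul_assoc, mul_assoc, ← mul_assoc _ (Mom d ρ p n)]
    exact mul_le_mul_right (hsub n N) _
  have hkR : (1 : ℝ) ≤ k := by exact_mod_cast hk1
  have hZl : 1 ≤ Z / l := by rw [le_div_iff₀ h0]; linarith
  have hk6 : (k : ℝ) ≤ 6 * (Z / l) := by rw [mul_div_assoc] at hk2; linarith
  have b1 : (N : ℝ) < k * (((N / k : ℕ) : ℝ) + 1) := by exact_mod_cast Nat.lt_mul_div_succ N hk1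
  have b0 : (0 : ℝ) ≤ ((N / k : ℕ) : ℝ) := Nat.cast_nonneg _
  have b2 : s ≤ 6 * (((N / k : ℕ) : ℝ) + 1) := by
    rw [mul_div_assoc] at hN
    have : s * (Z / l) ≤ 6 * (((N / k : ℕ) : ℝ) + 1) * (Z / l) := by nlinarith
    exact le_of_mul_le_mul_right this (by linarith)
  have b3 : (2⁻¹ : ℝ) ^ (N / k) ≤ 2 * Real.exp (-(s / 10)) := by
    have hl2 := Real.log_two_gt_d9
    have e : (2⁻¹ : ℝ) ^ (N / k) = 2 * Real.exp (-((((N / k : ℕ) : ℝ) + 1) * Real.log 2)) := by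
      rw [Real.exp_neg, ← Nat.cast_succ, Real.exp_nat_mul, Real.exp_log two_pos, pow_succ, inv_pow]
      field_simp
    rw [e]
    gcongr
    nlinarith
  calc _ ≤ _ := a2
    _ ≤ ENNReal.ofReal Z * (2⁻¹ ^ (N / k) * ENNReal.ofReal Z) := by gcongr
    _ = ENNReal.ofReal (Z * (2⁻¹ ^ (N / k) * Z)) := by
        rw [ENNReal.ofReal_mul (by linarith), ENNReal.ofReal_mul (by positivity),
          ENNReal.ofReal_pow (by norm_num), ENNReal.ofReal_inv_of_pos two_pos, ENNReal.ofReal_ofNat]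
    _ ≤ _ := by
        refine ENNReal.ofReal_le_ofReal ?_
        have := Real.exp_pos (-(s / 10))
        have hZ2 : 0 ≤ Z ^ 2 := by positivity
        nlinarith [mul_le_mul_of_nonneg_left b3 hZ2, mul_nonneg hZ2 this.le]

theorem gcont_ofReal_ne_top {x : ℝ≥0∞} (hx : x ≠ ⊤) : x ≤ ENNReal.ofReal (max 1 x.toReal) := by
  conv_lhs => rw [← ENNReal.ofReal_toReal hx]
  exact ENNReal.ofReal_le_ofReal (le_max_right _ _)

theorem gcont_term_ne_top {ρ : Measure ℝ≥0} [IsProbabilityMeasure ρ] {p l : ℝ} (h0 : 0 < l)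
    (hO : OO d ρ p l ≠ ⊤) (n : ℕ) : ENNReal.ofReal ((1 - l) ^ n) * Mom d ρ p n ≠ ⊤ := by
  rw [gcont_OO_eq' p h0.le] at hO
  refine ENNReal.ne_top_of_tsum_ne_top
    (f := fun n => ENNReal.ofReal ((1 - l) ^ n) * Mom d ρ p n) (fun h => hO ?_) n
  rw [h, ENNReal.mul_top (by simpa using h0)]

/-- Continuity in the killing rate. -/
theorem gcont_OO_l {ρ : Measure ℝ≥0} [IsProbabilityMeasure ρ] {p l : ℝ} (hp : 1 ≤ p)
    (h0 : 0 < l) (h1 : l < 1) : ContinuousAt (fun x => OO d ρ p x) l := by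
  have hl : ∀ n, Tendsto (fun x : ℝ => ENNReal.ofReal ((1 - x) ^ n) * Mom d ρ p n) (𝓝 l)
      (𝓝 (ENNReal.ofReal ((1 - l) ^ n) * Mom d ρ p n)) := fun n =>
    ENNReal.Tendsto.mul_const
      ((ENNReal.continuous_ofReal.comp (by fun_prop : Continuous fun x : ℝ => (1 - x) ^ n)).tendsto l)
      (Or.inl (by simpa using pow_pos (by linarith : 0 < 1 - l) n))
  have hl0 : ENNReal.ofReal l ≠ 0 := by simpa using h0
  have key : Tendsto (fun x : ℝ => ∑' n, ENNReal.ofReal ((1 - x) ^ n) * Mom d ρ p n) (𝓝 l)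
      (𝓝 (∑' n, ENNReal.ofReal ((1 - l) ^ n) * Mom d ρ p n)) := by
    by_cases hO : OO d ρ p l = ⊤
    · have ht : ∑' n, ENNReal.ofReal ((1 - l) ^ n) * Mom d ρ p n = ⊤ := by
        rw [gcont_OO_eq' p h0.le] at hO
        exact ((ENNReal.mul_eq_top.1 hO).resolve_right fun h => ENNReal.ofReal_ne_top h.1).2
      have h2 := gcont_tsum_liminf (u := 𝓝 l)
        fun (x : ℝ) n => ENNReal.ofReal ((1 - x) ^ n) * Mom d ρ p n
      simp only [(hl _).liminf_eq, ht] at h2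
      rw [ht]
      exact tendsto_of_le_liminf_of_limsup_le h2 le_top
    · obtain ⟨k, hk1, -, hk3⟩ := exists_block h0 h1 (le_max_left _ _) (gcont_ofReal_ne_top hO)
      refine gcont_sub_tendsto ?_ hl (gcont_term_ne_top h0 hO) hk1 (hk3.trans_lt (by simp))
      filter_upwards [Iio_mem_nhds h1] with x hx using gcont_submul hp (le_of_lt hx)
  have h3 := ENNReal.Tendsto.mul (ENNReal.continuous_ofReal.tendsto l) (Or.inl hl0) key
    (Or.inr ENNReal.ofReal_ne_top)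
  rw [← gcont_OO_eq' p h0.le] at h3
  refine h3.congr' ?_
  filter_upwards [Ioi_mem_nhds h0] with x hx using (gcont_OO_eq' p (le_of_lt hx)).symm

theorem reg_kk (hd : 1 ≤ d) {ρ : Measure ℝ≥0} [IsProbabilityMeasure ρ] (hm : Mean1 ρ) (a : ℕ) :
    Reg (kk d ρ) (gg d ρ a) := by
  have hq : 1 ≤ q0 d := by unfold q0; exact le_add_of_nonneg_right (by positivity)
  have h1 : ∀ σ : ℝ, 0 < σ → Real.exp (-σ) < 1 := fun σ hσ => Real.exp_lt_one_iff.2 (by linarith)
  have hK : ∀ σ : ℝ, 0 < σ → (OO d ρ (q0 d) (Real.exp (-σ)))⁻¹ ≠ ⊤ := fun σ hσ =>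
    ENNReal.inv_ne_top.2
      (zero_lt_one.trans_le (gcont_one_le hd hm hq (Real.exp_pos _) (h1 σ hσ).le)).ne'
  refine ⟨fun σ hσ => ContinuousAt.continuousWithinAt ?_, fun σ hσ τ hτ h => ?_,
    fun σ => ENNReal.toReal_nonneg,
    fun σ => mul_nonneg (mul_nonneg (Real.exp_pos _).le (Nat.cast_nonneg _)) ENNReal.toReal_nonneg⟩
  · have c1 : ContinuousAt (fun σ : ℝ => OO d ρ (q0 d) (Real.exp (-σ))) σ :=
      ContinuousAt.comp (g := fun x => OO d ρ (q0 d) x) (f := fun σ : ℝ => Real.exp (-σ))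
        (gcont_OO_l hq (Real.exp_pos _) (h1 σ hσ)) (by fun_prop)
    exact (ENNReal.tendsto_toReal (hK σ hσ)).comp c1.inv
  · refine ENNReal.toReal_mono (hK σ hσ) (ENNReal.inv_le_inv.2 ?_)
    exact gcont_horizon hd hm hq (Real.exp_pos _) (Real.exp_le_exp.2 (by linarith)) (h1 σ hσ).le

/-! ### Dependence on the inverse temperature -/

theorem gcont_mom_one (hd : 1 ≤ d) {ρ : Measure ℝ≥0} [IsProbabilityMeasure ρ] {p : ℝ}
    (hp : 1 ≤ p) : Mom d ρ p 1 ≤ mom ρ p := by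
  have hmass : ∑' x, avg (dlt (0 : Site d)) x = 1 := (mass_avg hd _).trans (mass_dlt _)
  have hme : ∀ x : Site d, Measurable fun ξ : Layer d => (ξ x : ℝ≥0∞) ^ p := fun x =>
    (measurable_pi_apply x).coe_nnreal_ennreal.pow_const p
  calc Mom d ρ p 1 = ∫⁻ ξ, (∑' x, avg (dlt (0 : Site d)) x * (ξ x : ℝ≥0∞)) ^ p ∂lay d ρ :=
        conv_T_mq p _
    _ ≤ ∫⁻ ξ, ∑' x, avg (dlt (0 : Site d)) x * (ξ x : ℝ≥0∞) ^ p ∂lay d ρ := by
        refine lintegral_mono fun ξ => (tsum_pow_le _ _ hp).trans (le_of_eq ?_)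
        rw [hmass, ENNReal.one_rpow, one_mul]
    _ = ∑' x, avg (dlt (0 : Site d)) x * mom ρ p := by
        rw [lintegral_tsum fun x => ((hme x).const_mul _).aemeasurable]
        refine tsum_congr fun x => ?_
        rw [lintegral_const_mul _ (hme x), lintegral_coord (g := fun t => (t : ℝ≥0∞) ^ p)
          (measurable_coe_nnreal_ennreal.pow_const p)]
        rfl
    _ = mom ρ p := by rw [ENNReal.tsum_mul_right, hmass, one_mul]

theorem gcont_mom_pow (hd : 1 ≤ d) {ρ : Measure ℝ≥0} [IsProbabilityMeasure ρ] {p : ℝ}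
    (hp : 1 ≤ p) (n : ℕ) : Mom d ρ p n ≤ mom ρ p ^ n := by
  induction n with
  | zero => simp [Mom_zero]
  | succ n ih =>
    rw [pow_succ]
    exact (Mom_submul hp n 1).trans (mul_le_mul' ih (gcont_mom_one hd hp))

theorem gcont_W_le (hd : 1 ≤ d) (ν : Measure ℝ) {β β₁ β₂ : ℝ} (h1 : β₁ ≤ β) (h2 : β ≤ β₂) (n : ℕ)
    (ω : ℕ × Site d → ℝ) :
    W ν β n ω ≤ Real.exp (n * (lam ν β₁ - lam ν β)) * W ν β₁ n ω +
      Real.exp (n * (lam ν β₂ - lam ν β)) * W ν β₂ n ω := by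
  have hd' : (0 : ℝ) < 2 * d := by
    have : (1 : ℝ) ≤ d := by exact_mod_cast hd
    linarith
  unfold W
  rw [← mul_div_assoc, ← mul_div_assoc, ← add_div, Finset.mul_sum, Finset.mul_sum,
    ← Finset.sum_add_distrib]
  gcongr with s
  simp only [← Real.exp_add, Finset.sum_sub_distrib, Finset.sum_const, Nat.card_Icc,
    add_tsub_cancel_right, nsmul_eq_mul, ← Finset.mul_sum]
  set H := ∑ j ∈ Finset.Icc 1 n, ω (j, pos s j)
  rcases le_total 0 H with hH | hH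
  · refine le_add_of_nonneg_of_le (Real.exp_pos _).le (Real.exp_le_exp.2 ?_)
    nlinarith
  · refine le_add_of_le_of_nonneg (Real.exp_le_exp.2 ?_) (Real.exp_pos _).le
    nlinarith

theorem gcont_rpow_le {x y z C p : ℝ} (hx : 0 ≤ x) (hy : 0 ≤ y) (hz : 0 ≤ z) (hC : 0 ≤ C)
    (hp : 0 ≤ p) (h : x ≤ C * y + C * z) :
    x ^ p ≤ (2 * C) ^ p * (2 + y ^ (p + 1) + z ^ (p + 1)) := by
  have key : ∀ w : ℝ, 0 ≤ w → w ^ p ≤ 1 + w ^ (p + 1) := fun w hw => by
    rcases le_total w 1 with h1 | h1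
    · exact le_add_of_le_of_nonneg (Real.rpow_le_one hw h1 hp) (by positivity)
    · exact le_add_of_nonneg_of_le zero_le_one
        (Real.rpow_le_rpow_of_exponent_le h1 (by linarith))
  have py : 0 ≤ y ^ (p + 1) := by positivity
  have pz : 0 ≤ z ^ (p + 1) := by positivity
  rcases le_total y z with h1 | h1
  · calc x ^ p ≤ (2 * C * z) ^ p := by gcongr; nlinarith
      _ = (2 * C) ^ p * z ^ p := Real.mul_rpow (by positivity) hz
      _ ≤ _ := by gcongr; linarith [key z hz]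
  · calc x ^ p ≤ (2 * C * y) ^ p := by gcongr; nlinarith
      _ = (2 * C) ^ p * y ^ p := Real.mul_rpow (by positivity) hy
      _ ≤ _ := by gcongr; linarith [key y hy]

theorem mom_cont (hd : 1 ≤ d) {ν : Measure ℝ} [IsProbabilityMeasure ν]
    (hν : ∀ β : ℝ, Integrable (fun t => Real.exp (β * t)) ν) {p : ℝ} (hp : 0 ≤ p) (n : ℕ) :
    Continuous fun β => Mom d (rho ν β) p n := by
  have : IsProbabilityMeasure (envLaw d ν) := by unfold envLaw; infer_instance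
  have e : ∀ β r : ℝ,
      Mom d (rho ν β) r n = ∫⁻ ω, ENNReal.ofReal (W ν β n ω ^ r) ∂envLaw d ν := fun β r => by
    have := lintegral_W (ν := ν) hd β n (φ := fun t => t ^ r) (measurable_id.pow_const r)
    simp only [ENNReal.ofReal_rpow_of_pos (bridge_W_pos hd β n _)] at this
    exact this.symm
  have hint : ∀ β : ℝ, Integrable (fun ω => W ν β n ω ^ (p + 1)) (envLaw d ν) := fun β =>
    (bridge_rpow hd β n (p + 1) (ne_top_of_le_ne_top
      (ENNReal.pow_ne_top (by rw [onec_mom hν]; exact ENNReal.ofReal_ne_top))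
      (gcont_mom_pow hd (by linarith) n))).1
  have hc := onec_cont hν
  simp only [e]
  refine continuous_iff_continuousAt.2 fun β₀ => ?_
  set C := Real.exp (n * (lam ν (β₀ - 1) - lam ν β₀)) + Real.exp (n * (lam ν (β₀ + 1) - lam ν β₀))
    with hC
  have p1 := Real.exp_pos (n * (lam ν (β₀ - 1) - lam ν β₀))
  have p2 := Real.exp_pos (n * (lam ν (β₀ + 1) - lam ν β₀))
  have e1 : ∀ᶠ β in 𝓝 β₀, Real.exp (n * (lam ν (β₀ - 1) - lam ν β)) ≤ C :=
    ((by fun_prop : Continuous fun β => Real.exp (n * (lam ν (β₀ - 1) - lam ν β))).tendsto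
      β₀).eventually_le_const (by linarith)
  have e2 : ∀ᶠ β in 𝓝 β₀, Real.exp (n * (lam ν (β₀ + 1) - lam ν β)) ≤ C :=
    ((by fun_prop : Continuous fun β => Real.exp (n * (lam ν (β₀ + 1) - lam ν β))).tendsto
      β₀).eventually_le_const (by linarith)
  refine tendsto_lintegral_filter_of_dominated_convergence
    (fun ω => ENNReal.ofReal ((2 * C) ^ p *
      (2 + W ν (β₀ - 1) n ω ^ (p + 1) + W ν (β₀ + 1) n ω ^ (p + 1))))
    (Eventually.of_forall fun β => ((bridge_W_meas β n).pow_const p).ennreal_ofReal) ?_ ?_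
    (Eventually.of_forall fun ω => ?_)
  · filter_upwards [e1, e2, Icc_mem_nhds (show β₀ - 1 < β₀ by linarith)
      (show β₀ < β₀ + 1 by linarith)] with β h1 h2 h3
    refine Eventually.of_forall fun ω => ENNReal.ofReal_le_ofReal ?_
    have q1 := bridge_W_pos (ν := ν) hd (β₀ - 1) n ω
    have q2 := bridge_W_pos (ν := ν) hd (β₀ + 1) n ω
    refine gcont_rpow_le (bridge_W_pos hd β n ω).le q1.le q2.le (by linarith) hp
      ((gcont_W_le hd ν h3.1 h3.2 n ω).trans ?_)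
    gcongr
  · exact ((((integrable_const (2 : ℝ)).add (hint _)).add (hint _)).const_mul
      ((2 * C) ^ p)).lintegral_lt_top.ne
  · have cW : Continuous fun β => W ν β n ω := by unfold W; fun_prop
    exact (ENNReal.continuous_ofReal.comp (cW.rpow_const fun _ => Or.inr hp)).tendsto β₀

/-- Continuity in the inverse temperature where the moment is finite. -/
theorem OO_cont (hd : 1 ≤ d) {ν : Measure ℝ} [IsProbabilityMeasure ν]
    (hν : ∀ β : ℝ, Integrable (fun t => Real.exp (β * t)) ν) {p l β₀ : ℝ} (hp : 1 ≤ p)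
    (h0 : 0 < l) (h1 : l < 1) (hO : OO d (rho ν β₀) p l ≠ ⊤) :
    ContinuousAt (fun β => OO d (rho ν β) p l) β₀ := by
  obtain ⟨k, hk1, -, hk3⟩ := exists_block h0 h1 (le_max_left _ _) (gcont_ofReal_ne_top hO)
  have key := gcont_sub_tendsto (u := 𝓝 β₀)
    (a := fun β n => ENNReal.ofReal ((1 - l) ^ n) * Mom d (rho ν β) p n)
    (Eventually.of_forall fun β => gcont_submul hp h1.le)
    (fun n => ENNReal.Tendsto.const_mul ((mom_cont hd hν (by linarith) n).tendsto β₀)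
      (Or.inr ENNReal.ofReal_ne_top)) (gcont_term_ne_top h0 hO) hk1 (hk3.trans_lt (by simp))
  simp only [ContinuousAt, gcont_OO_eq' p h0.le]
  exact ENNReal.Tendsto.const_mul key (Or.inr ENNReal.ofReal_ne_top)

theorem gcont_mass_ne_top (n : ℕ) (ω : ℕ → Layer d) : mass (ev n ω (dlt 0)) ≠ ⊤ := by
  rcases Nat.eq_zero_or_pos d with rfl | hd
  · cases n with
    | zero => simp [mass_dlt]
    | succ n => simp [ev_succ', mass, step, avg]
  · rw [bridge_mass]
    refine ENNReal.mul_ne_top (ENNReal.pow_ne_top (ENNReal.inv_ne_top.2 ?_))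
      (ENNReal.sum_ne_top.2 fun s _ => ENNReal.prod_ne_top fun j _ => ENNReal.coe_ne_top)
    have : (d : ℝ≥0∞) ≠ 0 := by exact_mod_cast hd.ne'
    simp [this]

theorem gcont_rpow_liminf {c x : ℝ≥0∞} (hc : c ≠ ⊤) (hx : x ≠ ⊤) (p : ℝ) :
    c * x ^ p ≤ liminf (fun r => c * x ^ r) (𝓝[<] p) := by
  rcases eq_or_ne x 0 with rfl | h0
  · rcases lt_or_ge 0 p with hp | hp
    · simp [ENNReal.zero_rpow_of_pos hp]
    · refine le_liminf_of_le (by isBoundedDefault) ?_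
      filter_upwards [self_mem_nhdsWithin] with r hr
      rw [ENNReal.zero_rpow_of_neg (lt_of_lt_of_le hr hp)]
      gcongr
      exact le_top
  · have hy : 0 < x.toReal := ENNReal.toReal_pos h0 hx
    rw [← ENNReal.ofReal_toReal hx]
    simp only [ENNReal.ofReal_rpow_of_pos hy]
    have t : Tendsto (fun r => ENNReal.ofReal (x.toReal ^ r)) (𝓝[<] p)
        (𝓝 (ENNReal.ofReal (x.toReal ^ p))) :=
      ((ENNReal.continuous_ofReal.comp (Real.continuous_const_rpow hy.ne')).tendsto p).mono_left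
        nhdsWithin_le_nhds
    exact (ENNReal.Tendsto.const_mul t (Or.inr hc)).liminf_eq.ge

/-- Lower semicontinuity in the exponent. -/
theorem OO_lsc_p {ρ : Measure ℝ≥0} [IsProbabilityMeasure ρ] {p p' l : ℝ} (h : p' < p)
    {Y : ℝ≥0∞} (hY : Y < OO d ρ p l) : ∃ r, p' < r ∧ r < p ∧ Y < OO d ρ r l := by
  have hme : ∀ (n : ℕ) (r : ℝ), Measurable fun ω : ℕ → Layer d => mass (ev n ω (dlt 0)) ^ r :=
    fun n r => (measurable_mass.comp (measurable_ev n _)).pow_const r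
  have e : ∀ (n : ℕ) (r : ℝ), wt l n * Mom d ρ r n =
      ∫⁻ ω, wt l n * mass (ev n ω (dlt 0)) ^ r ∂env d ρ := fun n r => by
    rw [lintegral_const_mul _ (hme n r), lintegral_mq_dlt]
  have h1 : OO d ρ p l ≤ liminf (fun r => OO d ρ r l) (𝓝[<] p) := by
    simp only [gcont_OO_eq]
    refine le_trans ?_ (gcont_tsum_liminf (u := 𝓝[<] p) fun r n => wt l n * Mom d ρ r n)
    refine ENNReal.tsum_le_tsum fun n => ?_
    simp only [e]
    refine le_trans (lintegral_mono fun ω => ?_)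
      (lintegral_liminf_le (u := 𝓝[<] p) fun r => (hme n r).const_mul _)
    exact gcont_rpow_liminf ENNReal.ofReal_ne_top (gcont_mass_ne_top n ω) p
  obtain ⟨r, hr1, hr2⟩ :=
    ((eventually_lt_of_lt_liminf (hY.trans_le h1)).and (Ioo_mem_nhdsLT h)).exists
  exact ⟨r, hr2.1, hr2.2, hr1⟩

theorem gcont_betaC_pos (hd : 3 ≤ d) {ν : Measure ℝ} [IsProbabilityMeasure ν]
    (hν : ∀ β : ℝ, Integrable (fun t => Real.exp (β * t)) ν)
    (hne : ∃ β : ℝ, 0 ≤ β ∧ freeEnergy d ν β < 0) : 0 < betaC d ν := by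
  have hd1 : 1 ≤ d := by omega
  have hG := gcont_ofReal_ne_top (gsum_ne_top hd)
  set G := max 1 (gsum d).toReal
  have hG1 : 1 ≤ G := le_max_left _ _
  have hG0 : 0 < 1 / G := by positivity
  obtain ⟨b, hb0, hb⟩ := mom_rho_small hν hG0
  refine hb0.trans_le (le_csInf hne fun β hβ => ?_)
  by_contra hc
  have h1 := mean1_rho hν β
  obtain ⟨χ, hχ⟩ := exists_add_of_le (one_le_mom_two h1)
  have h2 := hb β hβ.1 (not_le.1 hc).le
  rw [hχ, ENNReal.add_lt_add_iff_left ENNReal.one_ne_top] at h2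
  have h3 : χ * gsum d < 1 := by
    calc χ * gsum d ≤ χ * ENNReal.ofReal G := by gcongr
      _ < ENNReal.ofReal (1 / G) * ENNReal.ofReal G :=
          ENNReal.mul_lt_mul_left (by simpa using (by linarith : 0 < G)) ENNReal.ofReal_ne_top h2
      _ = 1 := by
          rw [← ENNReal.ofReal_mul hG0.le, one_div_mul_cancel (by linarith), ENNReal.ofReal_one]
  obtain ⟨M, hMt, hM⟩ := L2_bdd hd h1 hχ h3
  exact absurd (freeEnergy_nonneg hd1 hν hβ.1 one_lt_two hMt hM) (not_le.2 hβ.2)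

theorem gcont_poly (d n : ℕ) (hn : 1 ≤ n) :
    ∃ k : ℕ, 1 ≤ k ∧ (2 * (n * k : ℕ) + 1 : ℝ) ^ d * 2⁻¹ ^ k < 2⁻¹ := by
  have t := (tendsto_pow_const_mul_const_pow_of_abs_lt_one d
    (show |(2⁻¹ : ℝ)| < 1 by rw [abs_of_pos] <;> norm_num)).const_mul ((3 * n : ℝ) ^ d)
  rw [mul_zero] at t
  obtain ⟨k, hk1, hk2⟩ := ((t.eventually_lt_const (show (0 : ℝ) < 2⁻¹ by norm_num)).and
    (eventually_ge_atTop 1)).exists
  refine ⟨k, hk2, lt_of_le_of_lt ?_ hk1⟩
  rw [← mul_assoc, ← mul_pow]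
  have h1 : (1 : ℝ) ≤ n := by exact_mod_cast hn
  have h2 : (1 : ℝ) ≤ k := by exact_mod_cast hk2
  gcongr
  push_cast
  nlinarith

/-- The free energy is nonnegative at the critical point. -/
theorem no_dec (hd : 3 ≤ d) {ν : Measure ℝ} [IsProbabilityMeasure ν]
    (hν : ∀ β : ℝ, Integrable (fun t => Real.exp (β * t)) ν)
    (hne : ∃ β : ℝ, 0 ≤ β ∧ freeEnergy d ν β < 0) :
    0 < betaC d ν ∧ ∀ L, ¬ Dec d (rho ν (betaC d ν)) L := by
  have hd1 : 1 ≤ d := by omega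
  have hc := gcont_betaC_pos hd hν hne
  refine ⟨hc, ?_⟩
  rintro L ⟨n, hn, -, θ, h0, h1, h⟩
  obtain ⟨k, hk1, hk2⟩ := gcont_poly d n hn
  have hL : 1 ≤ n * k := Nat.mul_pos hn hk1
  set D : ℝ≥0∞ := (((2 * (n * k) + 1) ^ d : ℕ) : ℝ≥0∞) with hD
  have hD1 : 1 ≤ D := by
    rw [hD]; exact_mod_cast Nat.one_le_pow _ _ (by omega)
  have a1 : D * Mom d (rho ν (betaC d ν)) θ (n * k) < 2⁻¹ := by
    calc D * Mom d (rho ν (betaC d ν)) θ (n * k) ≤ D * 2⁻¹ ^ k := by
          have := h (n * k)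
          rw [Nat.mul_div_cancel_left k hn] at this
          gcongr
      _ = ENNReal.ofReal ((2 * (n * k : ℕ) + 1 : ℝ) ^ d * 2⁻¹ ^ k) := by
          rw [ENNReal.ofReal_mul (by positivity), ENNReal.ofReal_pow (p := 2⁻¹) (by norm_num),
            ENNReal.ofReal_inv_of_pos two_pos, ENNReal.ofReal_ofNat, hD, ← ENNReal.ofReal_natCast]
          push_cast
          rfl
      _ < ENNReal.ofReal 2⁻¹ := (ENNReal.ofReal_lt_ofReal_iff (by norm_num)).2 hk2
      _ = 2⁻¹ := by rw [ENNReal.ofReal_inv_of_pos two_pos, ENNReal.ofReal_ofNat]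
  have t : Tendsto (fun β => D * Mom d (rho ν β) θ (n * k)) (𝓝[<] betaC d ν)
      (𝓝 (D * Mom d (rho ν (betaC d ν)) θ (n * k))) :=
    (ENNReal.Tendsto.const_mul ((mom_cont hd1 hν h0.le (n * k)).tendsto _)
      (Or.inr (ENNReal.natCast_ne_top _))).mono_left nhdsWithin_le_nhds
  obtain ⟨β, hβ1, hβ2⟩ := ((t.eventually_lt_const a1).and (Ioo_mem_nhdsLT hc)).exists
  have a2 : Am d (rho ν β) θ (n * k) ≤ 2⁻¹ := by
    refine (Am_le_card h0 h1 (n * k)).trans (le_trans ?_ hβ1.le)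
    gcongr
    calc D ^ (1 - θ) ≤ D ^ (1 : ℝ) := ENNReal.rpow_le_rpow_of_exponent_le hD1 (by linarith)
      _ = D := ENNReal.rpow_one D
  have a3 := freeEnergy_le hd1 hν hβ2.1.le h0 h1 hL (Mom_le_of_Am hd1 (mean1_rho hν β) h0 h1 a2)
  have a4 : 0 < Real.log 2 / (n * k : ℕ) :=
    div_pos (Real.log_pos one_lt_two) (by exact_mod_cast hL)
  have a5 : betaC d ν ≤ β :=
    csInf_le ⟨0, fun β hβ => hβ.1⟩ (show 0 ≤ β ∧ freeEnergy d ν β < 0 from ⟨hβ2.1.le, by linarith⟩)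
  exact absurd hβ2.2 (not_lt.2 a5)

theorem dec_free (hd : 1 ≤ d) {ν : Measure ℝ} [IsProbabilityMeasure ν]
    (hν : ∀ β : ℝ, Integrable (fun t => Real.exp (β * t)) ν) {β L : ℝ} (hβ : 0 ≤ β)
    (h : Dec d (rho ν β) L) : freeEnergy d ν β ≤ -(Real.log 2 / L) := by
  obtain ⟨n, hn, hL, θ, h0, h1, h⟩ := h
  refine (freeEnergy_le hd hν hβ h0 h1 hn h).trans (neg_le_neg ?_)
  have : (0 : ℝ) < n := by exact_mod_cast hn
  have hl := Real.log_pos one_lt_two
  gcongr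

end Pool.Agent.Lib.MP_153faa_pr
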