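import Mathlib
import Pool.Agent.Lib.MP_153faa_pr.GRes2
import Pool.Agent.Lib.MP_153faa_pr.GCont1

/-!
The statements of this module are proved in `GCont1`.
-/
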