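import Mathlib
import Pool.Agent.Lib.MP_153faa_pr.GNice

/-!
Square summable calculus for the heat kernel: regularity in space and time.
-/

set_option autoImplicit false

open MeasureTheory Filter Topology
open scoped ENNReal NNReal RealInnerProductSpace

namespace Pool.Agent.Lib.MP_153faa_pr

open Pool.Agent.Lib.MP_a3b629_pr (srw pE)

variable {d : ℕ}

theorem ghk1_ph (hd : 1 ≤ d) (n : ℕ) (x : Site d) : ph d n x = srw d n x := by
  unfold ph phi
  rw [heat_pE hd, pE, ENNReal.toReal_ofReal (MP_a3b629_pr.srw_nonneg _ _ _)]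

theorem ghk1_conv (hd : 1 ≤ d) (a b : ℕ) (u w : Site d) :
    HasSum (fun x => srw d a (x - u) * srw d b (x - w)) (srw d (a + b) (u - w)) := by
  have h : ∑' x : Site d, pE d a (x - u) * pE d b (x - w) = pE d (a + b) (w - u) := by
    rw [MP_a3b629_pr.pE_add hd, ← (Equiv.subRight u).tsum_eq
      (fun y => pE d a y * pE d b (w - u - y))]
    refine tsum_congr fun x => ?_
    rw [Equiv.subRight_apply, show w - u - (x - u) = -(x - w) by abel, MP_a3b629_pr.pE_neg]
  have h2 := ENNReal.hasSum_toReal (f := fun x : Site d => pE d a (x - u) * pE d b (x - w))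
    (by rw [h]; exact MP_a3b629_pr.pE_ne_top _ _ _)
  rw [← ENNReal.tsum_toReal_eq (fun x => ENNReal.mul_ne_top (MP_a3b629_pr.pE_ne_top _ _ _)
    (MP_a3b629_pr.pE_ne_top _ _ _)), h, show w - u = -(u - w) by abel, MP_a3b629_pr.pE_neg] at h2
  simpa only [pE, ENNReal.toReal_mul, ENNReal.toReal_ofReal (MP_a3b629_pr.srw_nonneg _ _ _)]
    using h2

/-- The translated kernel as a square summable function. -/
noncomputable def ghk1E (hd : 1 ≤ d) (a : ℕ) (u : Site d) : lp (fun _ : Site d => ℝ) 2 :=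
  ⟨fun x => srw d a (x - u), by
    refine memℓp_gen ?_
    refine (ghk1_conv hd a a u u).summable.congr fun x => ?_
    rw [Real.norm_of_nonneg (MP_a3b629_pr.srw_nonneg _ _ _)]
    simp [sq]⟩

theorem ghk1_inner (hd : 1 ≤ d) (a b : ℕ) (u w : Site d) :
    ⟪ghk1E hd a u, ghk1E hd b w⟫ = srw d (a + b) (u - w) := by
  rw [lp.inner_eq_tsum, ← (ghk1_conv hd a b u w).tsum_eq]
  refine tsum_congr fun x => ?_
  simp [ghk1E, mul_comm]

theorem ghk1_succ (hd : 1 ≤ d) (a : ℕ) (u : Site d) :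
    ghk1E hd (a + 1) u = (2 * d : ℝ)⁻¹ •
      ∑ j : Fin d, (ghk1E hd a (u + Pi.single j 1) + ghk1E hd a (u - Pi.single j 1)) := by
  ext x
  rw [lp.coeFn_smul, lp.coeFn_sum]
  simp only [Pi.smul_apply, Finset.sum_apply, lp.coeFn_add, Pi.add_apply, smul_eq_mul]
  change srw d (a + 1) (x - u) = _ * ∑ j : Fin d,
    (srw d a (x - (u + Pi.single j 1)) + srw d a (x - (u - Pi.single j 1)))
  rw [srw, div_eq_inv_mul]
  congr 1
  refine Finset.sum_congr rfl fun j _ => ?_
  congr 2 <;> abel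

/-- The return probabilities. -/
noncomputable def ghk1a (d k : ℕ) : ℝ := srw d (k + k) 0

theorem ghk1a_nonneg (k : ℕ) : 0 ≤ ghk1a d k := MP_a3b629_pr.srw_nonneg _ _ _

theorem ghk1_norm (hd : 1 ≤ d) (a : ℕ) (u : Site d) : ‖ghk1E hd a u‖ = √(ghk1a d a) := by
  rw [norm_eq_sqrt_real_inner, ghk1_inner, sub_self, ghk1a]

theorem ghk1_time_sq (hd : 1 ≤ d) (b : ℕ) (u : Site d) :
    ‖ghk1E hd b u - ghk1E hd (b + 2) u‖ ^ 2 =
      (ghk1a d b - ghk1a d (b + 1)) - (ghk1a d (b + 1) - ghk1a d (b + 2)) := by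
  rw [norm_sub_sq_real, ghk1_norm, ghk1_norm, Real.sq_sqrt (ghk1a_nonneg _),
    Real.sq_sqrt (ghk1a_nonneg _), ghk1_inner, sub_self,
    show b + (b + 2) = b + 1 + (b + 1) by ring]
  unfold ghk1a
  ring

theorem ghk1_time_indep (hd : 1 ≤ d) (b : ℕ) (u w : Site d) :
    ‖ghk1E hd b u - ghk1E hd (b + 2) u‖ = ‖ghk1E hd b w - ghk1E hd (b + 2) w‖ := by
  rw [← sq_eq_sq₀ (norm_nonneg _) (norm_nonneg _), ghk1_time_sq, ghk1_time_sq]

theorem ghk1_time_anti (hd : 1 ≤ d) (b : ℕ) :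
    ‖ghk1E hd (b + 1) 0 - ghk1E hd (b + 1 + 2) 0‖ ≤ ‖ghk1E hd b 0 - ghk1E hd (b + 2) 0‖ := by
  have hd' : (0 : ℝ) < d := by exact_mod_cast hd
  rw [show b + 1 + 2 = b + 2 + 1 by ring, ghk1_succ hd b, ghk1_succ hd (b + 2), ← smul_sub,
    ← Finset.sum_sub_distrib, norm_smul, Real.norm_of_nonneg (by positivity),
    inv_mul_le_iff₀ (by positivity)]
  calc _ ≤ ∑ _j : Fin d, 2 * ‖ghk1E hd b 0 - ghk1E hd (b + 2) 0‖ := by
        refine norm_sum_le_of_le _ fun j _ => ?_
        rw [add_sub_add_comm, two_mul]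
        refine (norm_add_le _ _).trans (le_of_eq ?_)
        rw [ghk1_time_indep hd b _ 0, ghk1_time_indep hd b (0 - Pi.single j 1) 0]
    _ = _ := by simp; ring

theorem ghk1_tele (f : ℕ → ℝ) (h : ∀ j, f (j + 1) - f (j + 2) ≤ f j - f (j + 1)) (c m : ℕ) :
    (m + 1 : ℝ) * (f (c + m) - f (c + m + 1)) ≤ f c - f (c + m + 1) := by
  induction m with
  | zero => simp
  | succ m ih =>
    have h1 := h (c + m)
    have h2 : (0 : ℝ) ≤ m + 1 := by positivity
    have h3 := mul_le_mul_of_nonneg_left h1 h2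
    rw [show c + (m + 1) = c + m + 1 by ring, show c + m + 1 + 1 = c + m + 2 by ring]
    push_cast
    linarith

theorem ghk1_D_nonneg (hd : 1 ≤ d) (j : ℕ) : 0 ≤ ghk1a d j - ghk1a d (j + 1) :=
  sub_nonneg.2 (heat_succ_le hd j)

theorem ghk1_D_le (hd : 1 ≤ d) (c m : ℕ) :
    (m + 1 : ℝ) * (ghk1a d (c + m) - ghk1a d (c + m + 1)) ≤ ghk1a d c := by
  have h := ghk1_tele (ghk1a d) (fun j => by
    have h1 := ghk1_time_sq hd j 0
    have h2 := sq_nonneg ‖ghk1E hd j 0 - ghk1E hd (j + 2) 0‖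
    linarith) c m
  linarith [ghk1a_nonneg (d := d) (c + m + 1)]

theorem ghk1_E_le (hd : 1 ≤ d) (m : ℕ) (u : Site d) :
    ‖ghk1E hd (3 * m) u - ghk1E hd (3 * m + 2) u‖ ≤ √(ghk1a d m) / (m + 1) := by
  have h := ghk1_tele (fun j => ghk1a d j - ghk1a d (j + 1)) (fun j => by
    have h1 := ghk1_time_sq hd j 0
    have h2 := ghk1_time_sq hd (j + 1) 0
    have h3 := pow_le_pow_left₀ (norm_nonneg _) (ghk1_time_anti hd j) 2
    rw [h1, h2] at h3
    exact h3) (m + m) m
  have h1 := ghk1_D_le hd m m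
  have h2 := ghk1_D_nonneg hd (m + m + m + 1)
  have h3 := ghk1_time_sq hd (m + m + m) u
  have h4 : (0 : ℝ) < m + 1 := by positivity
  rw [show 3 * m = m + m + m by ring, le_div_iff₀ h4]
  refine Real.le_sqrt_of_sq_le ?_
  rw [mul_pow, h3]
  have h5 : (m + 1 : ℝ) * (ghk1a d (m + m + m) - ghk1a d (m + m + m + 1) -
      (ghk1a d (m + m + m + 1) - ghk1a d (m + m + m + 2))) ≤
      ghk1a d (m + m) - ghk1a d (m + m + 1) := by
    simp only [show m + m + m + 1 + 1 = m + m + m + 2 by ring] at h h2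
    linarith
  nlinarith [mul_le_mul_of_nonneg_left h5 h4.le]

theorem ghk1_time_step (hd : 1 ≤ d) (n : ℕ) (y : Site d) :
    |srw d n y - srw d (n + 2) y| ≤ ghk1a d (n / 4) / ((n / 4 : ℕ) + 1) := by
  set m := n / 4 with hm
  have e1 : srw d n y - srw d (n + 2) y =
      ⟪ghk1E hd (n - 3 * m) y, ghk1E hd (3 * m) 0 - ghk1E hd (3 * m + 2) 0⟫ := by
    rw [inner_sub_right, ghk1_inner, ghk1_inner, sub_zero,
      show n - 3 * m + 3 * m = n by omega, show n - 3 * m + (3 * m + 2) = n + 2 by omega]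
  rw [e1]
  refine (abs_real_inner_le_norm _ _).trans ?_
  have h1 : ‖ghk1E hd (n - 3 * m) y‖ ≤ √(ghk1a d m) := by
    rw [ghk1_norm]
    exact Real.sqrt_le_sqrt (heat_anti hd (by omega))
  calc _ ≤ √(ghk1a d m) * (√(ghk1a d m) / (m + 1)) :=
        mul_le_mul h1 (ghk1_E_le hd m 0) (norm_nonneg _) (Real.sqrt_nonneg _)
    _ = _ := by rw [← mul_div_assoc, Real.mul_self_sqrt (ghk1a_nonneg _)]

theorem ghk1_time (hd : 1 ≤ d) (n k : ℕ) (y : Site d) :
    |srw d n y - srw d (n + 2 * k) y| ≤ k * (ghk1a d (n / 4) / ((n / 4 : ℕ) + 1)) := by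
  induction k with
  | zero => simp
  | succ k ih =>
    have h1 := ghk1_time_step hd (n + 2 * k) y
    have h2 : ghk1a d ((n + 2 * k) / 4) / (((n + 2 * k) / 4 : ℕ) + 1) ≤
        ghk1a d (n / 4) / ((n / 4 : ℕ) + 1) := by
      have a1 : n / 4 ≤ (n + 2 * k) / 4 := by omega
      have a2 : ((n / 4 : ℕ) : ℝ) ≤ ((n + 2 * k) / 4 : ℕ) := by exact_mod_cast a1
      exact div_le_div₀ (ghk1a_nonneg _) (heat_anti hd a1) (by positivity) (by linarith)
    have h3 := abs_sub_le (srw d n y) (srw d (n + 2 * k) y) (srw d (n + 2 * k + 2) y)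
    rw [show n + 2 * (k + 1) = n + 2 * k + 2 by ring]
    push_cast
    linarith

/-- The square summable norm of a spatial difference. -/
noncomputable def ghk1N (hd : 1 ≤ d) (b : ℕ) (v : Site d) : ℝ := ‖ghk1E hd b v - ghk1E hd b 0‖

theorem ghk1_space_sq (hd : 1 ≤ d) (b : ℕ) (u v : Site d) :
    ‖ghk1E hd b (u + v) - ghk1E hd b u‖ ^ 2 = 2 * (ghk1a d b - srw d (b + b) v) := by
  rw [norm_sub_sq_real, ghk1_norm, ghk1_norm, Real.sq_sqrt (ghk1a_nonneg _), ghk1_inner,
    add_sub_cancel_left]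
  ring

theorem ghk1N_sq (hd : 1 ≤ d) (b : ℕ) (v : Site d) :
    ghk1N hd b v ^ 2 = 2 * (ghk1a d b - srw d (b + b) v) := by
  rw [← ghk1_space_sq hd b 0 v, zero_add, ghk1N]

theorem ghk1N_eq (hd : 1 ≤ d) (b : ℕ) (u v : Site d) :
    ‖ghk1E hd b (u + v) - ghk1E hd b u‖ = ghk1N hd b v := by
  have h0 : 0 ≤ ghk1N hd b v := norm_nonneg _
  rw [← sq_eq_sq₀ (norm_nonneg _) h0, ghk1_space_sq, ghk1N_sq]

theorem ghk1N_add (hd : 1 ≤ d) (b : ℕ) (u v : Site d) :
    ghk1N hd b (u + v) ≤ ghk1N hd b u + ghk1N hd b v := by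
  rw [← ghk1N_eq hd b u v, add_comm (ghk1N hd b u)]
  exact norm_sub_le_norm_sub_add_norm_sub _ _ _

theorem ghk1_srw_succ (hd : 1 ≤ d) (n : ℕ) (x : Site d) :
    2 * d * srw d (n + 1) x = ∑ s : Fin d × Bool, srw d n (x + stepVec s) := by
  have hd' : (0 : ℝ) < d := by exact_mod_cast hd
  rw [srw, mul_div_cancel₀ _ (by positivity), Fintype.sum_prod_type]
  refine Finset.sum_congr rfl fun j _ => ?_
  simp [stepVec, sub_eq_add_neg, add_comm]

theorem ghk1N_two (hd : 1 ≤ d) (b : ℕ) (s t : Fin d × Bool) :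
    ghk1N hd b (stepVec s + stepVec t) ^ 2 ≤ 8 * d ^ 2 * (ghk1a d b - ghk1a d (b + 1)) := by
  have h1 : (2 * d) * (2 * d * ghk1a d (b + 1)) = ∑ s : Fin d × Bool, ∑ t : Fin d × Bool,
      srw d (b + b) (stepVec s + stepVec t) := by
    rw [ghk1a, show b + 1 + (b + 1) = b + b + 1 + 1 by ring, ghk1_srw_succ hd, Finset.mul_sum]
    refine Finset.sum_congr rfl fun s _ => ?_
    rw [ghk1_srw_succ hd, zero_add]
  have h0 : ∀ v : Site d, 0 ≤ ghk1a d b - srw d (b + b) v := fun v => by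
    have h2 := ghk1N_sq hd b v
    have h3 := sq_nonneg (ghk1N hd b v)
    linarith
  have h2 : ghk1a d b - srw d (b + b) (stepVec s + stepVec t) ≤
      ∑ s : Fin d × Bool, ∑ t : Fin d × Bool,
        (ghk1a d b - srw d (b + b) (stepVec s + stepVec t)) :=
    (Finset.single_le_sum (fun t _ => h0 (stepVec s + stepVec t)) (Finset.mem_univ t)).trans
      (Finset.single_le_sum (f := fun s : Fin d × Bool => ∑ t : Fin d × Bool,
        (ghk1a d b - srw d (b + b) (stepVec s + stepVec t)))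
        (fun s _ => Finset.sum_nonneg fun t _ => h0 _) (Finset.mem_univ s))
  simp only [Finset.sum_sub_distrib, Finset.sum_const, Finset.card_univ, Fintype.card_prod,
    Fintype.card_fin, Fintype.card_bool, nsmul_eq_mul, ← h1] at h2
  rw [ghk1N_sq]
  push_cast at h2
  linarith

theorem ghk1_par_step (s : Fin d × Bool) : par (stepVec s) = 1 := by
  unfold stepVec
  split_ifs
  · exact par_single _
  · have h := par_sub (0 : Site d) (Pi.single s.1 1)
    rw [zero_sub, par_single] at h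
    rw [h]
    simp [par]

theorem ghk1_peel {v : Site d} {n : ℕ} (h : ∑ i, (v i).natAbs = n + 1) :
    ∃ (w : Site d) (s : Fin d × Bool), v = w + stepVec s ∧ ∑ i, (w i).natAbs = n := by
  obtain ⟨i, -, hi⟩ := Finset.exists_ne_zero_of_sum_ne_zero
    (s := Finset.univ) (f := fun i => (v i).natAbs) (by omega)
  have key : ∀ s : Fin d × Bool, s.1 = i → ((v - stepVec s) i).natAbs + 1 = (v i).natAbs →
      ∑ j, ((v - stepVec s) j).natAbs = n := by
    intro s hs h1
    rw [← Finset.add_sum_erase _ _ (Finset.mem_univ i)] at h ⊢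
    have : ∑ j ∈ Finset.univ.erase i, ((v - stepVec s) j).natAbs =
        ∑ j ∈ Finset.univ.erase i, (v j).natAbs := by
      refine Finset.sum_congr rfl fun j hj => ?_
      have hj' : j ≠ s.1 := hs ▸ Finset.ne_of_mem_erase hj
      unfold stepVec
      split_ifs <;> simp [Pi.single_eq_of_ne hj']
    omega
  by_cases hp : 0 < v i
  · refine ⟨v - stepVec (i, true), (i, true), by abel, key _ rfl ?_⟩
    simp only [stepVec, if_true, Pi.sub_apply, Pi.single_eq_same]
    omega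
  · refine ⟨v - stepVec (i, false), (i, false), by abel, key _ rfl ?_⟩
    simp only [stepVec, Bool.false_eq_true, if_false, Pi.sub_apply, Pi.neg_apply,
      Pi.single_eq_same]
    omega

theorem ghk1N_le (hd : 1 ≤ d) (b : ℕ) {K : ℝ} (hK0 : 0 ≤ K)
    (hK : ∀ s t : Fin d × Bool, ghk1N hd b (stepVec s + stepVec t) ≤ K) (n : ℕ) :
    ∀ v : Site d, ∑ i, (v i).natAbs = n → (par v = 0 → ghk1N hd b v ≤ n * K) ∧
      (par v = 1 → ∀ t, ghk1N hd b (v + stepVec t) ≤ n * K) := by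
  induction n with
  | zero =>
    intro v hv
    have : v = 0 := by
      funext i
      have := Finset.sum_eq_zero_iff.1 hv i (Finset.mem_univ i)
      simpa using this
    subst this
    refine ⟨fun _ => by simp [ghk1N], fun h => ?_⟩
    simp [par] at h
  | succ n ih =>
    intro v hv
    obtain ⟨w, s, rfl, hw⟩ := ghk1_peel hv
    rw [par_add, ghk1_par_step]
    refine ⟨fun h => ?_, fun h t => ?_⟩
    · have h1 : par w = 1 := by
        rw [eq_neg_of_add_eq_zero_left h]; rfl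
      have := (ih w hw).2 h1 s
      push_cast
      linarith
    · have h1 : par w = 0 := by simpa using h
      have h2 := (ih w hw).1 h1
      have h3 := ghk1N_add hd b w (stepVec s + stepVec t)
      rw [add_assoc]
      push_cast
      linarith [hK s t]

theorem ghk1_space (hd : 1 ≤ d) (n R : ℕ) (y v : Site d) (hv : v ∈ box d R) (hp : par v = 0) :
    |srw d n y - srw d n (y + v)| ≤
      3 * d ^ 2 * R * (ghk1a d (n / 4) / √((n / 4 : ℕ) + 1)) := by
  set m := n / 4 with hm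
  have hm1 : (0 : ℝ) < m + 1 := by positivity
  have e1 : srw d n y - srw d n (y + v) =
      -⟪ghk1E hd (m + m) v - ghk1E hd (m + m) 0, ghk1E hd (n - (m + m)) (-y)⟫ := by
    rw [inner_sub_left, ghk1_inner, ghk1_inner, show m + m + (n - (m + m)) = n by omega,
      show v - -y = y + v by abel, show 0 - -y = y by abel]
    ring
  rw [e1, abs_neg]
  refine (abs_real_inner_le_norm _ _).trans ?_
  have h1 : ‖ghk1E hd (n - (m + m)) (-y)‖ ≤ √(ghk1a d m) := by
    rw [ghk1_norm]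
    exact Real.sqrt_le_sqrt (heat_anti hd (by omega))
  set K : ℝ := 3 * d * (√(ghk1a d m) / √(m + 1)) with hK
  have hK0 : 0 ≤ K := by positivity
  have h2 : ∀ s t : Fin d × Bool, ghk1N hd (m + m) (stepVec s + stepVec t) ≤ K := by
    intro s t
    refine (pow_le_pow_iff_left₀ (norm_nonneg _) hK0 two_ne_zero).1 ?_
    refine (ghk1N_two hd _ s t).trans ?_
    rw [hK, mul_pow, div_pow, Real.sq_sqrt (ghk1a_nonneg _), Real.sq_sqrt hm1.le]
    have a1 : ghk1a d (m + m) - ghk1a d (m + m + 1) ≤ ghk1a d m / (m + 1) := by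
      rw [le_div_iff₀ hm1, mul_comm]; exact ghk1_D_le hd m m
    have a2 := ghk1_D_nonneg hd (m + m)
    have a3 : (0 : ℝ) ≤ d ^ 2 := by positivity
    nlinarith [mul_le_mul_of_nonneg_left a1 a3, mul_nonneg a3 a2]
  have h3 := (ghk1N_le hd (m + m) hK0 h2 _ v rfl).1 hp
  have h4 : ((∑ i, (v i).natAbs : ℕ) : ℝ) ≤ d * R := by
    have : ∑ i, (v i).natAbs ≤ d * R := by
      calc _ ≤ ∑ _i : Fin d, R := Finset.sum_le_sum fun i _ => by
            have := heat_mem_box.1 hv i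
            omega
        _ = _ := by simp
    exact_mod_cast this
  have h5 : ghk1N hd (m + m) v ≤ d * R * K := h3.trans (mul_le_mul_of_nonneg_right h4 hK0)
  calc _ ≤ d * R * K * √(ghk1a d m) := mul_le_mul h5 h1 (norm_nonneg _) (by positivity)
    _ = 3 * d ^ 2 * R * (√(ghk1a d m) * √(ghk1a d m) / √(m + 1)) := by rw [hK]; ring
    _ = _ := by rw [Real.mul_self_sqrt (ghk1a_nonneg _)]

end Pool.Agent.Lib.MP_153faa_pr
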