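import Mathlib
import Pool.Agent.Lib.MP_153faa_pr.GNice
import Pool.Agent.Lib.MP_153faa_pr.GHK11

set_option autoImplicit false

open MeasureTheory Filter Topology
open scoped ENNReal NNReal

namespace Pool.Agent.Lib.MP_153faa_pr

open Pool.Agent.Lib.MP_a3b629_pr (srw pE)

variable {d : ℕ}

theorem ghk1_sup (hd : 1 ≤ d) : ∃ C : ℝ, 1 ≤ C ∧ ∀ (n : ℕ) (y : Site d),
    srw d n y ≤ C * ((n : ℝ) + 1) ^ (-(d : ℝ) / 2) := by
  obtain ⟨C, hC, h⟩ := heat_dlt hd
  refine ⟨C, hC, fun n y => ?_⟩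
  have h1 := h n y
  rw [heat_pE hd, pE] at h1
  exact (ENNReal.ofReal_le_ofReal_iff (by positivity)).1 h1

theorem ghk1_scale {x y c : ℝ} (hx : 0 < x) (hc : 0 < c) (h : x ≤ c * y) :
    y ^ (-(d : ℝ) / 2) ≤ c ^ ((d : ℝ) / 2) * x ^ (-(d : ℝ) / 2) := by
  have h1 : x / c ≤ y := by rwa [div_le_iff₀ hc, mul_comm]
  have h2 : -(d : ℝ) / 2 ≤ 0 := by
    have : (0 : ℝ) ≤ d := by positivity
    linarith
  refine (Real.rpow_le_rpow_of_nonpos (by positivity) h1 h2).trans (le_of_eq ?_)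
  rw [Real.div_rpow hx.le hc.le, neg_div, Real.rpow_neg hc.le]
  field_simp

/-- Regularity of the heat kernel in space and time. -/
theorem hk_reg (hd : 1 ≤ d) : ∃ C : ℝ, 1 ≤ C ∧ ∀ (n k R : ℕ) (y v : Site d), 1 ≤ n →
    v ∈ box d R → par v = 0 →
      |ph d n y - ph d (n + 2 * k) (y + v)| ≤ C * (k / n + R / √n) * (n : ℝ) ^ (-(d : ℝ) / 2) := by
  obtain ⟨C, hC, h⟩ := ghk1_sup hd
  have hd' : (1 : ℝ) ≤ d := by exact_mod_cast hd
  have h4 : (1 : ℝ) ≤ 4 ^ ((d : ℝ) / 2) := Real.one_le_rpow (by norm_num) (by linarith)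
  have h5 : (1 : ℝ) ≤ C * 4 ^ ((d : ℝ) / 2) := one_le_mul_of_one_le_of_one_le hC h4
  have h6 : (1 : ℝ) ≤ d ^ 2 := one_le_pow₀ hd'
  refine ⟨6 * d ^ 2 * (C * 4 ^ ((d : ℝ) / 2)), by nlinarith, fun n k R y v hn hv hp => ?_⟩
  rw [ghk1_ph hd, ghk1_ph hd]
  have hn' : (0 : ℝ) < n := by exact_mod_cast hn
  set m := n / 4 with hm
  have hm1 : (n : ℝ) ≤ 4 * (m + 1) := by exact_mod_cast (by omega : n ≤ 4 * (m + 1))
  set A : ℝ := C * 4 ^ ((d : ℝ) / 2) * (n : ℝ) ^ (-(d : ℝ) / 2) with hA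
  have hA0 : 0 ≤ A := by positivity
  have ha : ghk1a d m ≤ A := by
    refine (h (m + m) 0).trans ?_
    rw [hA, mul_assoc]
    refine mul_le_mul_of_nonneg_left (ghk1_scale hn' (by norm_num) ?_) (by linarith)
    have : (0 : ℝ) ≤ m := by positivity
    push_cast
    linarith
  have a1 : ghk1a d m / (m + 1) ≤ 4 * (A / n) := by
    rw [← mul_div_assoc, div_le_div_iff₀ (by positivity) hn']
    nlinarith [ghk1a_nonneg (d := d) m, mul_le_mul ha hm1 hn'.le hA0]
  have a2 : ghk1a d m / √(m + 1) ≤ 2 * (A / √n) := by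
    have b1 : √n ≤ 2 * √(m + 1) := by
      refine Real.sqrt_le_iff.2 ⟨by positivity, ?_⟩
      rw [mul_pow, Real.sq_sqrt (by positivity)]
      linarith
    rw [← mul_div_assoc, div_le_div_iff₀ (by positivity) (Real.sqrt_pos.2 hn')]
    nlinarith [mul_le_mul ha b1 (Real.sqrt_nonneg _) hA0]
  have t1 := ghk1_time hd n k (y + v)
  have t2 := ghk1_space hd n R y v hv hp
  have t3 := abs_sub_le (srw d n y) (srw d n (y + v)) (srw d (n + 2 * k) (y + v))
  have t4 := mul_le_mul_of_nonneg_left a1 (Nat.cast_nonneg k)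
  have t5 := mul_le_mul_of_nonneg_left a2 (by positivity : (0 : ℝ) ≤ 3 * d ^ 2 * R)
  have t6 : (k : ℝ) * (4 * (A / n)) ≤ 6 * d ^ 2 * (k * (A / n)) := by
    have : 0 ≤ (k : ℝ) * (A / n) := by positivity
    nlinarith
  calc _ ≤ 6 * d ^ 2 * (k * (A / n)) + 3 * d ^ 2 * R * (2 * (A / √n)) := by linarith
    _ = _ := by rw [hA]; ring

theorem ghk1_escape (hd : 1 ≤ d) {n L R : ℕ} (hn : n ≤ L) (hL : 0 < L) :
    ∑' x, (if x ∈ box d R then 0 else pE d n x) ≤
      ENNReal.ofReal (2 * d * Real.exp (-(R : ℝ) ^ 2 / (2 * L))) := by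
  refine le_trans (le_of_eq (tsum_congr fun x => ?_)) (escape hd R hn hL)
  rw [heat_pE hd]
  split_ifs <;> simp

/-- Gaussian upper bound. -/
theorem hk_gauss (hd : 1 ≤ d) : ∃ C : ℝ, 1 ≤ C ∧ ∀ (n R : ℕ) (y : Site d), 1 ≤ n →
    y ∉ box d R → ph d n y ≤ C * (n : ℝ) ^ (-(d : ℝ) / 2) * Real.exp (-((R : ℝ) ^ 2 / (C * n))) := by
  obtain ⟨C, hC, h⟩ := ghk1_sup hd
  have hd' : (1 : ℝ) ≤ d := by exact_mod_cast hd
  have h4 : (1 : ℝ) ≤ 2 ^ ((d : ℝ) / 2) := Real.one_le_rpow (by norm_num) (by linarith)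
  have h5 : (1 : ℝ) ≤ C * 2 ^ ((d : ℝ) / 2) := one_le_mul_of_one_le_of_one_le hC h4
  set K : ℝ := 32 * d * (C * 2 ^ ((d : ℝ) / 2)) with hK
  have hK32 : 32 ≤ K := by nlinarith
  refine ⟨K, by linarith, fun n R y hn hy => ?_⟩
  rw [ghk1_ph hd]
  have hn' : (1 : ℝ) ≤ n := by exact_mod_cast hn
  set A : ℝ := C * 2 ^ ((d : ℝ) / 2) * (n : ℝ) ^ (-(d : ℝ) / 2) with hA
  have hA0 : 0 ≤ A := by positivity
  have ha : ∀ (a : ℕ) (z : Site d), n / 2 ≤ a → pE d a z ≤ ENNReal.ofReal A := by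
    intro a z haz
    refine ENNReal.ofReal_le_ofReal ((h a z).trans ?_)
    rw [hA, mul_assoc]
    refine mul_le_mul_of_nonneg_left (ghk1_scale (by linarith) (by norm_num) ?_) (by linarith)
    exact_mod_cast (by omega : n ≤ 2 * (a + 1))
  set r := R / 2 with hr
  set B : ℝ := 2 * d * Real.exp (-(r : ℝ) ^ 2 / (2 * n)) with hB
  have hB0 : 0 ≤ B := by positivity
  have key : pE d n y ≤ ENNReal.ofReal (A * B + A * B) := by
    have e1 := MP_a3b629_pr.pE_add hd (n / 2) (n - n / 2) y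
    rw [show n / 2 + (n - n / 2) = n by omega] at e1
    rw [e1, ENNReal.ofReal_add (by positivity) (by positivity), ENNReal.ofReal_mul hA0]
    calc _ ≤ ∑' z, (ENNReal.ofReal A * (if z ∈ box d r then 0 else pE d (n / 2) z) +
          ENNReal.ofReal A * (if y - z ∈ box d r then 0 else pE d (n - n / 2) (y - z))) := by
          refine ENNReal.tsum_le_tsum fun z => ?_
          by_cases h1 : z ∈ box d r
          · have h2 : y - z ∉ box d r := fun h2 => hy (heat_mem_box.2 fun i => by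
              have b1 := heat_mem_box.1 h1 i
              have b2 := heat_mem_box.1 h2 i
              rw [Pi.sub_apply] at b2
              omega)
            rw [if_neg h2]
            exact le_add_left (mul_le_mul_left (ha _ _ le_rfl) _)
          · rw [if_neg h1, mul_comm]
            exact le_add_right (mul_le_mul_left (ha _ _ (by omega)) _)
      _ ≤ _ := by
          rw [ENNReal.tsum_add, ENNReal.tsum_mul_left, ENNReal.tsum_mul_left]
          have e2 := (Equiv.subLeft y).tsum_eq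
            (fun z => if z ∈ box d r then 0 else pE d (n - n / 2) z)
          simp only [Equiv.subLeft_apply] at e2
          rw [e2]
          exact add_le_add (mul_le_mul_right (ghk1_escape hd (by omega) hn) _)
            (mul_le_mul_right (ghk1_escape hd (by omega) hn) _)
  refine ((ENNReal.ofReal_le_ofReal_iff (by positivity)).1 key).trans ?_
  have e3 : Real.exp (-(r : ℝ) ^ 2 / (2 * n)) ≤ 3 * Real.exp (-((R : ℝ) ^ 2 / (K * n))) := by
    have b1 : (R : ℝ) ≤ 2 * r + 1 := by exact_mod_cast (by omega : R ≤ 2 * r + 1)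
    have b2 : (R : ℝ) ^ 2 ≤ 16 * r ^ 2 + 16 := by
      have := pow_le_pow_left₀ (Nat.cast_nonneg R) b1 2
      nlinarith [sq_nonneg ((r : ℝ) - 1)]
    have b3 : (R : ℝ) ^ 2 / (K * n) ≤ (16 * r ^ 2 + 16) / (32 * n) := by gcongr
    have b4 : (16 * (r : ℝ) ^ 2 + 16) / (32 * n) = r ^ 2 / (2 * n) + 1 / (2 * n) := by
      field_simp; ring
    have b5 : 1 / (2 * (n : ℝ)) ≤ 1 := by
      rw [div_le_one (by positivity)]; linarith
    calc _ ≤ Real.exp (1 + -((R : ℝ) ^ 2 / (K * n))) := by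
          refine Real.exp_le_exp.2 ?_
          rw [neg_div]
          linarith
      _ ≤ _ := by
          rw [Real.exp_add]
          gcongr
          linarith [Real.exp_one_lt_d9]
  have e4 : 0 ≤ d * A * Real.exp (-((R : ℝ) ^ 2 / (K * n))) := by positivity
  have e5 := mul_le_mul_of_nonneg_left e3 (by positivity : 0 ≤ 4 * d * A)
  calc A * B + A * B = 4 * d * A * Real.exp (-(r : ℝ) ^ 2 / (2 * n)) := by rw [hB]; ring
    _ ≤ 32 * (d * A * Real.exp (-((R : ℝ) ^ 2 / (K * n)))) := by linarith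
    _ = _ := by rw [hA, hK]; ring

theorem hk_sup (hd : 1 ≤ d) : ∃ C : ℝ, 1 ≤ C ∧ ∀ (n : ℕ) (y : Site d), 1 ≤ n →
    ph d n y ≤ C * (n : ℝ) ^ (-(d : ℝ) / 2) := by
  obtain ⟨C, hC, h⟩ := ghk1_sup hd
  refine ⟨C, hC, fun n y hn => ?_⟩
  have hn' : (0 : ℝ) < n := by exact_mod_cast hn
  rw [ghk1_ph hd]
  refine (h n y).trans (mul_le_mul_of_nonneg_left ?_ (by linarith))
  simpa using ghk1_scale (d := d) (y := (n : ℝ) + 1) hn' one_pos (by linarith)

theorem ghk1_sqrt_pow {x : ℝ} (hx : 0 ≤ x) : √x ^ d = x ^ ((d : ℝ) / 2) := by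
  rw [Real.sqrt_eq_rpow, ← Real.rpow_natCast, ← Real.rpow_mul hx]
  congr 1
  ring

theorem ghk1_diag (hd : 1 ≤ d) : ∃ c : ℝ, 0 < c ∧ ∀ n : ℕ, 1 ≤ n →
    c * (n : ℝ) ^ (-(d : ℝ) / 2) ≤ ghk1a d n := by
  have hd' : (1 : ℝ) ≤ d := by exact_mod_cast hd
  refine ⟨(4 * (17 * d : ℝ) ^ d)⁻¹, by positivity, fun n hn => ?_⟩
  have hn' : (1 : ℝ) ≤ n := by exact_mod_cast hn
  set R : ℕ := 4 * d * (n.sqrt + 1) with hR
  have s1 : (n : ℝ) ≤ ((n.sqrt : ℝ) + 1) ^ 2 := by
    exact_mod_cast (Nat.lt_succ_sqrt' n).le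
  have s2 : (n.sqrt : ℝ) ≤ √n := Real.nat_sqrt_le_real_sqrt
  have s3 : 1 ≤ √(n : ℝ) := Real.one_le_sqrt.2 hn'
  have h1 : 2 * d * Real.exp (-(R : ℝ) ^ 2 / (2 * n)) ≤ 1 / 2 := by
    have a1 : -(R : ℝ) ^ 2 / (2 * n) ≤ -(8 * d ^ 2) := by
      rw [div_le_iff₀ (by positivity), hR]
      push_cast
      nlinarith [mul_le_mul_of_nonneg_left s1 (by positivity : (0 : ℝ) ≤ 16 * d ^ 2)]
    have a2 := Real.add_one_le_exp (8 * (d : ℝ) ^ 2)
    have a3 : Real.exp (-(8 * (d : ℝ) ^ 2)) * Real.exp (8 * d ^ 2) = 1 := by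
      rw [← Real.exp_add]; simp
    have a4 := Real.exp_le_exp.2 a1
    have a5 := Real.exp_pos (-(8 * (d : ℝ) ^ 2))
    have a6 : Real.exp (-(8 * (d : ℝ) ^ 2)) * (4 * d) ≤ 1 := by
      rw [← a3]
      exact mul_le_mul_of_nonneg_left (by nlinarith) a5.le
    nlinarith
  have h2 : 1 / 2 ≤ ∑ x ∈ box d R, srw d n x := by
    have a1 : (1 : ℝ≥0∞) ≤ ∑ x ∈ box d R, pE d n x + ENNReal.ofReal (1 / 2) := by
      refine le_trans ?_ (add_le_add_right
        ((ghk1_escape (R := R) hd le_rfl hn).trans (ENNReal.ofReal_le_ofReal h1)) _)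
      rw [← MP_a3b629_pr.tsum_pE hd n, sum_eq_tsum_indicator, ← ENNReal.tsum_add]
      refine ENNReal.tsum_le_tsum fun x => ?_
      by_cases hx : x ∈ box d R <;> simp [hx]
    have a2 : 0 ≤ ∑ x ∈ box d R, srw d n x :=
      Finset.sum_nonneg fun x _ => MP_a3b629_pr.srw_nonneg _ _ _
    unfold pE at a1
    rw [← ENNReal.ofReal_sum_of_nonneg (fun x _ => MP_a3b629_pr.srw_nonneg _ _ _),
      ← ENNReal.ofReal_add a2 (by norm_num), ENNReal.one_le_ofReal] at a1
    linarith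
  have h3 : ∑ x ∈ box d R, srw d n x ^ 2 ≤ ghk1a d n := by
    have a1 := ghk1_conv hd n n 0 0
    simp only [sub_zero] at a1
    simp only [sq]
    exact sum_le_hasSum _ (fun x _ => mul_self_nonneg _) a1
  have h4 := sq_sum_le_card_mul_sum_sq (s := box d R) (f := srw d n)
  have h5 : ((box d R).card : ℝ) ≤ (17 * d : ℝ) ^ d * (n : ℝ) ^ ((d : ℝ) / 2) := by
    rw [card_box, ← ghk1_sqrt_pow (by positivity), ← mul_pow]
    push_cast
    refine pow_le_pow_left₀ (by positivity) ?_ d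
    rw [hR]
    push_cast
    nlinarith
  have h6 : 1 / 4 ≤ (17 * d : ℝ) ^ d * (n : ℝ) ^ ((d : ℝ) / 2) * ghk1a d n := by
    have a1 := mul_le_mul h5 h3 (Finset.sum_nonneg fun x _ => sq_nonneg _) (by positivity)
    nlinarith
  rw [neg_div, Real.rpow_neg (by positivity), ← mul_inv, inv_eq_one_div,
    div_le_iff₀ (by positivity)]
  linarith

theorem ghk1_step_box (s : Fin d × Bool) : stepVec s ∈ box d 1 := by
  refine heat_mem_box.2 fun i => ?_
  unfold stepVec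
  by_cases h : i = s.1
  · subst h; split_ifs <;> simp
  · split_ifs <;> simp [Pi.single_eq_of_ne h]

theorem ghk1_point (hd : 1 ≤ d) (n : ℕ) : ∃ s : Site d, par s = (n : ZMod 2) ∧ s ∈ box d 1 ∧
    (Even n → s = 0) ∧ ghk1a d n ≤ srw d n s := by
  rcases Nat.even_or_odd' n with ⟨k, rfl | rfl⟩
  · refine ⟨0, ?_, heat_mem_box.2 fun i => by simp, fun _ => rfl, ?_⟩
    · rw [Nat.cast_mul, show ((2 : ℕ) : ZMod 2) = 0 from rfl]; simp [par]
    · have := heat_anti hd (show k ≤ 2 * k by omega)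
      rwa [← two_mul k] at this
  · have hd' : (0 : ℝ) < d := by exact_mod_cast hd
    have : Nonempty (Fin d) := ⟨⟨0, hd⟩⟩
    obtain ⟨s, -, hs⟩ := Finset.exists_le_of_sum_le (s := (Finset.univ : Finset (Fin d × Bool)))
      (f := fun _ => srw d (2 * k + 1 + 1) 0) (g := fun s => srw d (2 * k + 1) (0 + stepVec s))
      Finset.univ_nonempty (by
        rw [← ghk1_srw_succ hd]
        simp [mul_comm])
    refine ⟨stepVec s, ?_, ghk1_step_box s, fun h => ?_, ?_⟩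
    · rw [ghk1_par_step, Nat.cast_add, Nat.cast_mul, show ((2 : ℕ) : ZMod 2) = 0 from rfl]; simp
    · exact absurd h (by simp)
    · have := heat_anti hd (show k + 1 ≤ 2 * k + 1 by omega)
      rw [show k + 1 + (k + 1) = 2 * k + 1 + 1 by ring] at this
      rw [zero_add] at hs
      exact this.trans hs

theorem ghk1_bulk (hd : 1 ≤ d) : ∃ (K : ℕ) (c : ℝ), 1 ≤ K ∧ 0 < c ∧ c ≤ 1 ∧ ∀ n : ℕ, 1 ≤ n →
    ∃ s : Site d, par s = (n : ZMod 2) ∧ s ∈ box d 1 ∧ (Even n → s = 0) ∧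
      ∀ (R : ℕ) (v : Site d), v ∈ box d R → par v = 0 → (K * R : ℝ) ≤ √n →
        c * (n : ℝ) ^ (-(d : ℝ) / 2) ≤ ph d n (s + v) := by
  obtain ⟨C, hC, h⟩ := hk_reg hd
  obtain ⟨c, hc, h'⟩ := ghk1_diag hd
  refine ⟨⌈2 * C / c⌉₊, min (c / 2) 1, Nat.one_le_ceil_iff.2 (by positivity), by positivity,
    min_le_right _ _, fun n hn => ?_⟩
  obtain ⟨s, h1, h2, h3, h4⟩ := ghk1_point hd n
  refine ⟨s, h1, h2, h3, fun R v hv hp hR => ?_⟩
  have hn' : (0 : ℝ) < n := by exact_mod_cast hn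
  have a1 := h n 0 R s v hn hv hp
  rw [mul_zero, add_zero, Nat.cast_zero, zero_div, zero_add, ghk1_ph hd n s] at a1
  have a2 : C * (R / √n) ≤ c / 2 := by
    have b1 := Nat.le_ceil (2 * C / c)
    have b2 : 2 * C / c * R ≤ √n := (mul_le_mul_of_nonneg_right b1 (Nat.cast_nonneg R)).trans hR
    rw [div_mul_eq_mul_div, div_le_iff₀ hc] at b2
    rw [← mul_div_assoc, div_le_iff₀ (Real.sqrt_pos.2 hn')]
    linarith
  have a3 : (0 : ℝ) ≤ (n : ℝ) ^ (-(d : ℝ) / 2) := by positivity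
  have a4 := mul_le_mul_of_nonneg_right a2 a3
  have a5 := mul_le_mul_of_nonneg_right (min_le_left (c / 2) 1) a3
  have a6 := h' n hn
  have a7 := (abs_le.1 a1).2
  linarith

/-- Lower bound in the bulk. -/
theorem hk_low (hd : 1 ≤ d) : ∃ C : ℝ, 1 ≤ C ∧ ∀ (n R : ℕ) (y : Site d), 1 ≤ n →
    C * R ≤ √n → y ∈ box d (R + 1) → par y = (n : ZMod 2) → C ≤ n →
      C⁻¹ * (n : ℝ) ^ (-(d : ℝ) / 2) ≤ ph d n y := by
  obtain ⟨K, c, hK, hc, -, h⟩ := ghk1_bulk hd
  have hK' : (1 : ℝ) ≤ K := by exact_mod_cast hK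
  have hc' : 0 < c⁻¹ := by positivity
  refine ⟨16 * K ^ 2 + c⁻¹, by nlinarith, fun n R y hn hR hy hp hCn => ?_⟩
  obtain ⟨s, h1, h2, -, h4⟩ := h n hn
  have a1 : y - s ∈ box d (R + 2) := heat_mem_box.2 fun i => by
    have b1 := heat_mem_box.1 hy i
    have b2 := heat_mem_box.1 h2 i
    rw [Pi.sub_apply]
    push_cast at *
    omega
  have a2 : 4 * (K : ℝ) ≤ √n := Real.le_sqrt_of_sq_le (by nlinarith)
  have a3 : 2 * (K : ℝ) * R ≤ √n :=
    (mul_le_mul_of_nonneg_right (by nlinarith) (Nat.cast_nonneg R)).trans hR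
  have a4 := h4 (R + 2) (y - s) a1 (by rw [par_sub, hp, h1, sub_self]) (by push_cast; linarith)
  rw [add_sub_cancel] at a4
  refine le_trans (mul_le_mul_of_nonneg_right ?_ (by positivity)) a4
  exact inv_le_of_inv_le₀ hc (by nlinarith)

theorem ghk1_double {r : ℕ} {x : Site d} (hx : x ∈ box d r) :
    x + x ∈ box d (2 * r) ∧ par (x + x) = 0 := by
  refine ⟨heat_mem_box.2 fun i => ?_, by rw [par_add, CharTwo.add_self_eq_zero]⟩
  have := heat_mem_box.1 hx i
  rw [Pi.add_apply]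
  push_cast
  omega

theorem ghk1_card {M : ℕ} (hM : 1 ≤ M) (n : ℕ) :
    ((M : ℝ) ^ d)⁻¹ * (n : ℝ) ^ ((d : ℝ) / 2) ≤ (box d (n.sqrt / M)).card := by
  have hM' : (0 : ℝ) < M := by exact_mod_cast hM
  rw [card_box, ← ghk1_sqrt_pow (by positivity), ← inv_pow, ← mul_pow]
  push_cast
  refine pow_le_pow_left₀ (by positivity) ?_ d
  have a1 : n.sqrt + 1 ≤ M * (2 * (n.sqrt / M) + 1) := by
    have := Nat.lt_mul_div_succ n.sqrt hM
    nlinarith [Nat.zero_le (M * (n.sqrt / M))]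
  have a2 : (n.sqrt : ℝ) + 1 ≤ M * (2 * (n.sqrt / M : ℕ) + 1) := by exact_mod_cast a1
  rw [inv_mul_le_iff₀ hM']
  exact Real.real_sqrt_le_nat_sqrt_succ.trans a2

theorem ghk1_rad {K : ℕ} (n : ℕ) : (K * (2 * (n.sqrt / (4 * K)) : ℕ) : ℝ) ≤ √n := by
  refine le_trans ?_ Real.nat_sqrt_le_real_sqrt
  have := Nat.mul_div_le n.sqrt (4 * K)
  exact_mod_cast (by nlinarith [Nat.zero_le (K * (n.sqrt / (4 * K)))] :
    K * (2 * (n.sqrt / (4 * K))) ≤ n.sqrt)

theorem ghk1_rad' {K : ℕ} (hK : 1 ≤ K) (n : ℕ) : 4 * (n.sqrt / (4 * K)) ≤ n.sqrt := by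
  have := Nat.mul_div_le n.sqrt (4 * K)
  nlinarith [Nat.zero_le (n.sqrt / (4 * K))]

/-- Many sites carry a bulk value. -/
theorem hk_bulk (hd : 1 ≤ d) : ∃ C : ℝ, 1 ≤ C ∧ ∀ n : ℕ, 1 ≤ n → ∃ s : Finset (Site d),
    C⁻¹ * (n : ℝ) ^ ((d : ℝ) / 2) ≤ s.card ∧ s ⊆ box d n.sqrt ∧
      ∀ y ∈ s, C⁻¹ * (n : ℝ) ^ (-(d : ℝ) / 2) ≤ ph d n y := by
  obtain ⟨K, c, hK, hc, -, h⟩ := ghk1_bulk hd
  have hK' : (1 : ℝ) ≤ ((4 * K : ℕ) : ℝ) ^ d := one_le_pow₀ (by exact_mod_cast (by omega))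
  have hc' : 0 < c⁻¹ := by positivity
  refine ⟨((4 * K : ℕ) : ℝ) ^ d + c⁻¹, by linarith, fun n hn => ?_⟩
  obtain ⟨s, -, h2, -, h4⟩ := h n hn
  refine ⟨(box d (n.sqrt / (4 * K))).image fun x => s + (x + x), ?_, fun y hy => ?_,
    fun y hy => ?_⟩
  · rw [Finset.card_image_of_injective _ fun x x' hx => ?_]
    · refine le_trans (mul_le_mul_of_nonneg_right ?_ (by positivity))
        (ghk1_card (by omega : 1 ≤ 4 * K) n)
      exact inv_anti₀ (by linarith) (by linarith)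
    · funext i
      have := congrFun hx i
      simp only [Pi.add_apply] at this
      omega
  · obtain ⟨x, hx, rfl⟩ := Finset.mem_image.1 hy
    refine heat_mem_box.2 fun i => ?_
    have b1 := heat_mem_box.1 hx i
    have b2 := heat_mem_box.1 h2 i
    have b3 := ghk1_rad' hK n
    have b4 : 1 ≤ n.sqrt := Nat.le_sqrt.2 hn
    simp only [Pi.add_apply]
    generalize n.sqrt / (4 * K) = r at *
    omega
  · obtain ⟨x, hx, rfl⟩ := Finset.mem_image.1 hy
    refine le_trans (mul_le_mul_of_nonneg_right ?_ (by positivity))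
      (h4 _ _ (ghk1_double hx).1 (ghk1_double hx).2 (ghk1_rad n))
    exact inv_le_of_inv_le₀ hc (by linarith)

/-- The smoothed cube is bounded below near the origin. -/
theorem hk_cube (hd : 1 ≤ d) : ∃ C : ℝ, 1 ≤ C ∧ ∀ (s R : ℕ) (y : Site d), Even s →
    C * R ≤ √s → y ∈ box d R → par y = 0 →
      ENNReal.ofReal C⁻¹ ≤ avg^[s] (cube d s.sqrt) y := by
  obtain ⟨K, c, hK, hc, hc1, h⟩ := ghk1_bulk hd
  have hK' : (1 : ℝ) ≤ ((4 * K : ℕ) : ℝ) ^ d := one_le_pow₀ (by exact_mod_cast (by omega))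
  have hc' : 0 < ((4 * K : ℕ) : ℝ) ^ d * c⁻¹ := by positivity
  refine ⟨((4 * K : ℕ) : ℝ) ^ d * c⁻¹ + 2, by linarith, fun n R y hev hR hy hp => ?_⟩
  have hR2 : 2 * R ≤ n.sqrt := by
    have a1 : 2 * (R : ℝ) ≤ √n :=
      (mul_le_mul_of_nonneg_right (by linarith) (Nat.cast_nonneg R)).trans hR
    have a2 := (Real.le_sqrt (by positivity) (by positivity)).1 a1
    exact Nat.le_sqrt'.2 (by exact_mod_cast a2)
  rcases Nat.eq_zero_or_pos n with rfl | hn
  · have hR0 : R = 0 := by simpa using hR2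
    subst hR0
    have : cube d 0 y = 1 := by simp [cube, hy, hp]
    rw [Function.iterate_zero_apply, Nat.sqrt_zero, this, ENNReal.ofReal_le_one]
    exact inv_le_one_of_one_le₀ (by linarith)
  obtain ⟨s, -, -, h3, h4⟩ := h n hn
  obtain rfl := h3 hev
  have hn' : (0 : ℝ) < n := by exact_mod_cast hn
  set r := n.sqrt / (4 * K) with hr
  have hinj : Function.Injective fun x : Site d => y - (x + x) := fun x x' hx => by
    funext i
    have := congrFun hx i
    simp only [Pi.add_apply, Pi.sub_apply] at this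
    omega
  rw [avg_iter_eq_phi]
  refine le_trans ?_ (ENNReal.tsum_comp_le_tsum_of_injective hinj _)
  refine le_trans ?_ (ENNReal.sum_le_tsum (box d r))
  calc _ ≤ ENNReal.ofReal ((box d r).card * (c * (n : ℝ) ^ (-(d : ℝ) / 2))) := by
        refine ENNReal.ofReal_le_ofReal (le_trans ?_ (mul_le_mul_of_nonneg_right
          (ghk1_card (by omega : 1 ≤ 4 * K) n) (by positivity)))
        have e : (((4 * K : ℕ) : ℝ) ^ d)⁻¹ * (n : ℝ) ^ ((d : ℝ) / 2) *
            (c * (n : ℝ) ^ (-(d : ℝ) / 2)) = (((4 * K : ℕ) : ℝ) ^ d * c⁻¹)⁻¹ := by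
          rw [neg_div, Real.rpow_neg hn'.le]
          field_simp
        rw [e]
        exact inv_anti₀ hc' (by linarith)
    _ = ∑ _x ∈ box d r, ENNReal.ofReal (c * (n : ℝ) ^ (-(d : ℝ) / 2)) := by
        rw [ENNReal.ofReal_mul (by positivity)]
        simp
    _ ≤ _ := by
        refine Finset.sum_le_sum fun x hx => ?_
        have b0 : y - (x + x) ∈ box d n.sqrt := heat_mem_box.2 fun i => by
          have b1 := heat_mem_box.1 hx i
          have b2 := heat_mem_box.1 hy i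
          have b3 : 4 * r ≤ n.sqrt := ghk1_rad' hK n
          simp only [Pi.add_apply, Pi.sub_apply]
          omega
        have b5 : par (y - (x + x)) = 0 := by rw [par_sub, hp, (ghk1_double hx).2, sub_zero]
        have b6 := h4 _ _ (ghk1_double hx).1 (ghk1_double hx).2 (ghk1_rad n)
        rw [zero_add] at b6
        simp only [cube, b0, b5, and_self, if_true, one_mul, sub_sub_cancel]
        rw [← ofReal_ph hd]
        exact ENNReal.ofReal_le_ofReal b6

theorem hk_nq (hd : 1 ≤ d) : ∃ C : ℝ, 1 ≤ C ∧ ∀ (n : ℕ) (p : ℝ), 1 ≤ n → 1 ≤ p → p ≤ 2 →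
    nq p (phi d n) ≤ ENNReal.ofReal (C * (n : ℝ) ^ (-(d * (p - 1) / 2))) := by
  obtain ⟨C, hC, h⟩ := hk_sup hd
  refine ⟨C, hC, fun n p hn h1 h2 => ?_⟩
  have hn' : (0 : ℝ) < n := by exact_mod_cast hn
  calc nq p (phi d n) ≤
        ∑' x, ENNReal.ofReal (C * (n : ℝ) ^ (-(d * (p - 1) / 2))) * phi d n x := by
        refine ENNReal.tsum_le_tsum fun x => ?_
        have e : phi d n x ^ p = phi d n x ^ (p - 1) * phi d n x := by
          have := ENNReal.rpow_add_of_nonneg (x := phi d n x) (p - 1) 1 (by linarith) zero_le_one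
          rwa [sub_add_cancel, ENNReal.rpow_one] at this
        rw [e]
        refine mul_le_mul_left ?_ _
        have a0 : 0 ≤ ph d n x := ENNReal.toReal_nonneg
        rw [← ofReal_ph hd, ENNReal.ofReal_rpow_of_nonneg a0 (by linarith)]
        refine ENNReal.ofReal_le_ofReal
          ((Real.rpow_le_rpow a0 (h n x hn) (by linarith)).trans ?_)
        rw [Real.mul_rpow (by linarith) (by positivity), ← Real.rpow_mul hn'.le,
          show -(d : ℝ) / 2 * (p - 1) = -(d * (p - 1) / 2) by ring]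
        refine mul_le_mul_of_nonneg_right ?_ (by positivity)
        simpa using Real.rpow_le_rpow_of_exponent_le hC (show p - 1 ≤ 1 by linarith)
    _ = _ := by
        have := mass_phi hd n
        rw [mass] at this
        rw [ENNReal.tsum_mul_left, this, mul_one]

/-- Escape estimate for the kernel. -/
theorem hk_escape (hd : 1 ≤ d) {n L R : ℕ} (hn : n ≤ L) (hL : 0 < L) :
    mass (fun x => if x ∈ box d R then 0 else phi d n x) ≤
      ENNReal.ofReal (2 * d * Real.exp (-(R : ℝ) ^ 2 / (2 * L))) := by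
  unfold phi
  rw [heat_pE hd]
  exact ghk1_escape hd hn hL

theorem ghk1_harm_le {x : ℝ} (hx : 0 < x) (N : ℕ) :
    ∑ i ∈ Finset.range (N + 1), 1 / (x + i) ≤ 1 / x + Real.log ((x + N) / x) := by
  induction N with
  | zero => simp [hx.ne']
  | succ N ih =>
    rw [Finset.sum_range_succ]
    have h0 : 0 < x + N := by positivity
    have h1 := Real.one_sub_inv_le_log_of_pos (x := (x + N + 1) / (x + N)) (by positivity)
    have h2 : 1 - ((x + N + 1) / (x + N))⁻¹ = 1 / (x + N + 1) := by field_simp; ring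
    rw [h2, Real.log_div (by positivity) h0.ne'] at h1
    rw [Real.log_div h0.ne' hx.ne'] at ih
    push_cast
    rw [← add_assoc, Real.log_div (by positivity) hx.ne']
    linarith

theorem ghk1_harm_ge {x : ℝ} (hx : 0 < x) (N : ℕ) :
    Real.log ((x + N) / x) ≤ ∑ i ∈ Finset.range N, 1 / (x + i) := by
  induction N with
  | zero => simp [hx.ne']
  | succ N ih =>
    rw [Finset.sum_range_succ]
    have h0 : 0 < x + N := by positivity
    have h1 := Real.log_le_sub_one_of_pos (x := (x + N + 1) / (x + N)) (by positivity)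
    have h2 : (x + N + 1) / (x + N) - 1 = 1 / (x + N) := by field_simp; ring
    rw [h2, Real.log_div (by positivity) h0.ne'] at h1
    rw [Real.log_div h0.ne' hx.ne'] at ih
    push_cast
    rw [← add_assoc, Real.log_div (by positivity) hx.ne']
    linarith

theorem sum_log_le {l : ℝ} (h0 : 0 < l) (h1 : l < 1) {m : ℕ} (hm : 1 ≤ m) (hlm : l * m ≤ 1)
    (N : ℕ) : ∑ i ∈ Finset.range N, (1 - l) ^ i / ((m : ℝ) + i) ≤ Real.log (1 / (l * m)) + 3 := by
  have hm' : (1 : ℝ) ≤ m := by exact_mod_cast hm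
  set M := ⌊1 / l⌋₊ with hM
  have a1 : ∑ i ∈ Finset.range N, (1 - l) ^ i / ((m : ℝ) + i) ≤
      ∑ i ∈ Finset.range N, ((if i ∈ Finset.range (M + 1) then 1 / ((m : ℝ) + i) else 0) +
        l * (1 - l) ^ i) := by
    refine Finset.sum_le_sum fun i _ => ?_
    have b0 : 0 ≤ (1 - l) ^ i := pow_nonneg (by linarith) i
    have b1 : (0 : ℝ) < m + i := by positivity
    split_ifs with hi
    · have b2 : (1 - l) ^ i ≤ 1 := pow_le_one₀ (by linarith) (by linarith)
      have b3 := div_le_div_of_nonneg_right b2 b1.le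
      have b4 := mul_nonneg h0.le b0
      linarith
    · have b2 : (M : ℝ) + 1 ≤ i := by
        exact_mod_cast (by simpa using hi : M + 1 ≤ i)
      have b3 := Nat.lt_floor_add_one (1 / l)
      have b4 : 1 / l ≤ m + i := by linarith
      rw [div_le_iff₀ h0] at b4
      rw [zero_add, div_le_iff₀ b1]
      nlinarith [mul_le_mul_of_nonneg_left b4 b0]
  have a2 : ∑ i ∈ Finset.range N, l * (1 - l) ^ i ≤ 1 := by
    have b1 := mul_neg_geom_sum (1 - l) N
    rw [sub_sub_cancel] at b1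
    rw [← Finset.mul_sum, b1]
    linarith [pow_nonneg (show 0 ≤ 1 - l by linarith) N]
  have a3 : ∑ i ∈ Finset.range N, (if i ∈ Finset.range (M + 1) then 1 / ((m : ℝ) + i) else 0) ≤
      ∑ i ∈ Finset.range (M + 1), 1 / ((m : ℝ) + i) := by
    rw [Finset.sum_ite_mem]
    exact Finset.sum_le_sum_of_subset_of_nonneg Finset.inter_subset_right
      fun i _ _ => by positivity
  have a4 := ghk1_harm_le (x := (m : ℝ)) (by linarith) M
  have a5 : Real.log (((m : ℝ) + M) / m) ≤ Real.log 2 + Real.log (1 / (l * m)) := by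
    rw [← Real.log_mul (by norm_num) (by positivity)]
    refine Real.log_le_log (by positivity) ?_
    have b1 : (M : ℝ) ≤ 1 / l := Nat.floor_le (by positivity)
    rw [le_div_iff₀ h0] at b1
    rw [mul_one_div, div_le_div_iff₀ (by positivity) (by positivity)]
    nlinarith
  have a6 : 1 / (m : ℝ) ≤ 1 := by rwa [div_le_one (by positivity)]
  rw [Finset.sum_add_distrib] at a1
  linarith [Real.log_two_lt_d9]

theorem sum_log_ge {l : ℝ} (h0 : 0 < l) (h1 : l < 1) {m : ℕ} (hm : 1 ≤ m) {N : ℕ}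
    (hN : 1 / l ≤ N) :
    Real.log (1 / (l * m)) - 3 ≤ ∑ i ∈ Finset.range N, (1 - l) ^ i / ((m : ℝ) + i) := by
  have hm' : (1 : ℝ) ≤ m := by exact_mod_cast hm
  set M := ⌈1 / l⌉₊ with hM
  have a1 : ∑ i ∈ Finset.range M, (1 - l) ^ i / ((m : ℝ) + i) ≤
      ∑ i ∈ Finset.range N, (1 - l) ^ i / ((m : ℝ) + i) :=
    Finset.sum_le_sum_of_subset_of_nonneg (Finset.range_mono (Nat.ceil_le.2 hN))
      fun i _ _ => div_nonneg (pow_nonneg (by linarith) i) (by positivity)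
  have a2 : ∑ i ∈ Finset.range M, (1 / ((m : ℝ) + i) - l) ≤
      ∑ i ∈ Finset.range M, (1 - l) ^ i / ((m : ℝ) + i) := by
    refine Finset.sum_le_sum fun i _ => ?_
    have b1 : (0 : ℝ) < m + i := by positivity
    have b2 := one_add_mul_le_pow (show (-2 : ℝ) ≤ -l by linarith) i
    rw [le_div_iff₀ b1, sub_mul, one_div_mul_cancel b1.ne', sub_eq_add_neg 1 l]
    nlinarith
  have a3 := ghk1_harm_ge (x := (m : ℝ)) (by linarith) M
  have a4 : Real.log (1 / (l * m)) ≤ Real.log (((m : ℝ) + M) / m) := by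
    refine Real.log_le_log (by positivity) ?_
    have b1 : 1 / l ≤ (M : ℝ) := Nat.le_ceil _
    rw [div_le_iff₀ h0] at b1
    rw [div_le_div_iff₀ (by positivity) (by positivity)]
    have b2 : 0 ≤ (m : ℝ) * (l * m) := by positivity
    nlinarith
  have a5 : (M : ℝ) * l ≤ 2 := by
    have b1 : (M : ℝ) < 1 / l + 1 := Nat.ceil_lt_add_one (by positivity)
    have b2 := mul_le_mul_of_nonneg_right b1.le h0.le
    rw [add_mul, one_div_mul_cancel h0.ne'] at b2
    linarith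
  rw [Finset.sum_sub_distrib, Finset.sum_const, Finset.card_range, nsmul_eq_mul] at a2
  linarith

end Pool.Agent.Lib.MP_153faa_pr
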