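import Mathlib
import Pool.Agent.Lib.MP_153faa_pr.GRes2

set_option autoImplicit false

open MeasureTheory Filter Topology
open scoped ENNReal NNReal

namespace Pool.Agent.Lib.MP_153faa_pr

variable {d : ℕ}

theorem gloc1_meas : Measurable fun g : Prof d => nq 2 (avg g) :=
  (measurable_nq 2).comp measurable_avg

theorem gloc1_mq (g : Prof d) : mq 2 g = mass g ^ 2 := ENNReal.rpow_two _

theorem gloc1_mq_nice {g : Prof d} (hg : Nice g) : mq 2 g = ENNReal.ofReal (mr g ^ 2) := by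
  rw [gloc1_mq, ← hg.ofReal_mr, ENNReal.ofReal_pow (show 0 ≤ mr g from ENNReal.toReal_nonneg)]

theorem gloc1_off {t : ℝ} {g : Prof d} (h : g ∉ lev d t) : mass g ≤ ENNReal.ofReal t :=
  (not_le.1 h).le

theorem gloc1_off_sq {t : ℝ} {g : Prof d} (h : g ∉ lev d t) :
    mass g ^ 2 ≤ ENNReal.ofReal (t ^ 2) := by
  rw [← sq_abs, ENNReal.ofReal_pow (abs_nonneg t)]
  exact pow_le_pow_left' ((gloc1_off h).trans (ENNReal.ofReal_le_ofReal (le_abs_self t))) 2

theorem gloc1_on {t : ℝ} {g : Prof d} (hg : Nice g) : g ∈ lev d t ↔ t ≤ mr g := by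
  show ENNReal.ofReal t ≤ mass g ↔ _
  rw [← hg.ofReal_mr]
  exact ENNReal.ofReal_le_ofReal_iff ENNReal.toReal_nonneg

section
variable {ρ : Measure ℝ≥0} [IsProbabilityMeasure ρ] {l : ℝ} {S : Set (Prof d)}

theorem gloc1_occ_zero (hS : MeasurableSet S) (f : Prof d) : Occ ρ l S (fun _ => 0) f = 0 := by
  simpa using Occ_const_mul (ρ := ρ) (l := l) hS (A := fun _ => 0) measurable_const 0 f

theorem gloc1_exit (hS : MeasurableSet S) {F G : Prof d → ℝ≥0∞} (hF : Measurable F)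
    (hG : Measurable G) (a : ℝ≥0∞) (f : Prof d) :
    U ρ l S (fun g => a * F g + G g) (fun _ => 0) f =
      a * U ρ l S F (fun _ => 0) f + U ρ l S G (fun _ => 0) f := by
  have h1 := U_add (ρ := ρ) (l := l) hS (hF.const_mul a) hG (R := fun _ => 0) (R' := fun _ => 0)
    measurable_const measurable_const f
  have h2 := U_const_mul (ρ := ρ) (l := l) hS hF (R := fun _ => 0) measurable_const a f
  simp only [add_zero, mul_zero] at h1 h2
  rw [h1, h2]

theorem gloc1_run (hS : MeasurableSet S) {F G : Prof d → ℝ≥0∞} (hF : Measurable F)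
    (hG : Measurable G) (a b : ℝ≥0∞) (f : Prof d) :
    U ρ l S (fun _ => 0) (fun g => a * F g + b * G g) f =
      a * U ρ l S (fun _ => 0) F f + b * U ρ l S (fun _ => 0) G f := by
  have h1 := U_add (ρ := ρ) (l := l) hS (F := fun _ => 0) (F' := fun _ => 0)
    measurable_const measurable_const (hF.const_mul a) (hG.const_mul b) f
  have h2 := U_const_mul (ρ := ρ) (l := l) hS (F := fun _ => 0) measurable_const hF a f
  have h3 := U_const_mul (ρ := ρ) (l := l) hS (F := fun _ => 0) measurable_const hG b f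
  simp only [add_zero, mul_zero] at h1 h2 h3
  rw [h1, h2, h3]

end

/-- Second moment at the stopping time. -/
theorem U_sq (hd : 1 ≤ d) {ρ : Measure ℝ≥0} [IsProbabilityMeasure ρ] (hm : Mean1 ρ) {χ : ℝ≥0∞}
    (hχ : mom ρ 2 = 1 + χ) (hχt : χ ≠ ⊤) {l : ℝ} (h0 : 0 < l) (h1 : l < 1) (t : ℝ) {f : Prof d}
    (hf : Nice f) : U ρ l (lev d t) (mq 2) (mq 2) f = mq 2 f + χ * II ρ l t f := by
  have hS := measurableSet_lev (d := d) t
  unfold II
  rw [← Occ_const_mul hS gloc1_meas]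
  refine le_antisymm (dynkin_up hd hS h0 h1 (measurable_mq 2) (gloc1_meas.const_mul χ)
    (fun g _ _ => (T_mq_two hd hm hχ g).le) hf) ?_
  have h := dynkin_down (ρ := ρ) hd hS h0 h1 (measurable_mq 2) (gloc1_meas.const_mul χ)
    (B := fun _ => 0) measurable_const (fun g _ _ => by rw [T_mq_two hd hm hχ g, add_zero])
    (b := (1 + χ) * ENNReal.ofReal (t ^ 2))
    (ENNReal.mul_ne_top (ENNReal.add_ne_top.2 ⟨ENNReal.one_ne_top, hχt⟩) ENNReal.ofReal_ne_top)
    (fun g _ hg => by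
      rw [gloc1_mq]
      exact (gloc1_off_sq hg).trans (le_mul_of_one_le_left' le_self_add))
    (fun g _ hg => mul_le_mul' le_add_self ((nq_two_avg_le hd g).trans (gloc1_off_sq hg))) hf
  rwa [gloc1_occ_zero hS, add_zero] at h

/-- Variance at the stopping time. -/
theorem U_dev (hd : 1 ≤ d) {ρ : Measure ℝ≥0} [IsProbabilityMeasure ρ] (hm : Mean1 ρ) {χ : ℝ≥0∞}
    (hχ : mom ρ 2 = 1 + χ) (hχt : χ ≠ ⊤) {l : ℝ} (h0 : 0 < l) (h1 : l < 1) (t : ℝ) {f : Prof d}
    (hf : Nice f) :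
    U ρ l (lev d t) (fun g => ENNReal.ofReal ((mr g - mr f) ^ 2))
      (fun g => ENNReal.ofReal ((mr g - mr f) ^ 2)) f = χ * II ρ l t f := by
  have hS := measurableSet_lev (d := d) t
  have w0 : 0 ≤ mr f := ENNReal.toReal_nonneg
  have mD : Measurable fun g : Prof d => ENNReal.ofReal ((mr g - mr f) ^ 2) :=
    ((measurable_mr.sub_const _).pow_const 2).ennreal_ofReal
  have pt : ∀ g : Prof d, Nice g → ENNReal.ofReal ((mr g - mr f) ^ 2) +
      ENNReal.ofReal (2 * mr f) * mass g = mq 2 g + ENNReal.ofReal (mr f ^ 2) * 1 := by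
    intro g hg
    have m0 : 0 ≤ mr g := ENNReal.toReal_nonneg
    rw [gloc1_mq_nice hg, ← hg.ofReal_mr, mul_one, ← ENNReal.ofReal_mul (by positivity),
      ← ENNReal.ofReal_add (by positivity) (by positivity),
      ← ENNReal.ofReal_add (by positivity) (by positivity)]
    congr 1
    ring
  have h2 := le_antisymm
    (U_mono (ρ := ρ) (l := l) (S := lev d t) hd (fun g hg _ => (pt g hg).le)
      (fun g hg _ => (pt g hg).le) hf)
    (U_mono (ρ := ρ) (l := l) (S := lev d t) hd (fun g hg _ => (pt g hg).ge)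
      (fun g hg _ => (pt g hg).ge) hf)
  rw [U_add hS mD (measurable_mass.const_mul _) mD (measurable_mass.const_mul _),
    U_add hS (measurable_mq 2) measurable_const (measurable_mq 2) measurable_const,
    U_const_mul hS measurable_mass measurable_mass,
    U_const_mul hS measurable_const measurable_const, U_mass_lev hd hm h0 h1 t hf,
    U_one hS h0 h1, U_sq hd hm hχ hχt h0 h1 t hf, add_right_comm, ← pt f hf, sub_self] at h2
  simp only [ne_eq, OfNat.ofNat_ne_zero, not_false_eq_true, zero_pow, ENNReal.ofReal_zero,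
    zero_add] at h2
  rw [add_comm] at h2
  exact (ENNReal.add_right_inj (ENNReal.mul_ne_top ENNReal.ofReal_ne_top hf.mass_ne_top)).1 h2

/-- Second moment on the exit event. -/
theorem U_sq_exit (hd : 1 ≤ d) {ρ : Measure ℝ≥0} [IsProbabilityMeasure ρ] (hm : Mean1 ρ)
    {χ : ℝ≥0∞} (hχ : mom ρ 2 = 1 + χ) (hχt : χ ≠ ⊤) {l : ℝ} (h0 : 0 < l) (h1 : l < 1) {t : ℝ}
    {f : Prof d} (hf : Nice f) (ht : 2 * mr f ≤ t) :
    U ρ l (lev d t) (mq 2) (fun _ => 0) f ≤ 4 * χ * II ρ l t f := by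
  have w0 : 0 ≤ mr f := ENNReal.toReal_nonneg
  have mD : Measurable fun g : Prof d => ENNReal.ofReal ((mr g - mr f) ^ 2) :=
    ((measurable_mr.sub_const _).pow_const 2).ennreal_ofReal
  rw [mul_assoc, ← U_dev hd hm hχ hχt h0 h1 t hf, ← U_const_mul (measurableSet_lev t) mD mD]
  refine U_mono hd (fun g hg hS => ?_) (fun g _ _ => zero_le) hf
  have h2 := (gloc1_on hg).1 hS
  rw [gloc1_mq_nice hg, ← ENNReal.ofReal_ofNat 4, ← ENNReal.ofReal_mul (by norm_num)]
  exact ENNReal.ofReal_le_ofReal (by nlinarith)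

/-- The occupation integral is finite and monotone in the level. -/
theorem II_le (hd : 1 ≤ d) {ρ : Measure ℝ≥0} [IsProbabilityMeasure ρ] {l : ℝ} (h0 : 0 < l)
    (h1 : l < 1) (t : ℝ) {f : Prof d} (hf : Nice f) :
    II ρ l t f ≤ ENNReal.ofReal (t ^ 2 / l) := by
  rw [div_eq_inv_mul, ENNReal.ofReal_mul (inv_pos.2 h0).le]
  exact Occ_le_const hd h0 h1 (fun g _ hg => (nq_two_avg_le hd g).trans (gloc1_off_sq hg)) hf

theorem II_mono {ρ : Measure ℝ≥0} [IsProbabilityMeasure ρ] {l : ℝ} (h1 : l < 1) {t t' : ℝ}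
    (h : t ≤ t') (f : Prof d) : II ρ l t f ≤ II ρ l t' f := by
  unfold II
  rw [Occ_nested (measurableSet_lev t) (measurableSet_lev t') h1
    (fun g hg => (ENNReal.ofReal_le_ofReal h).trans hg) gloc1_meas]
  exact le_self_add

/-- Overshoot at the exit time. -/
theorem U_over (hd : 3 ≤ d) {κ M : ℝ} (hκ : 0 < κ) : ∃ C : ℝ, 1 ≤ C ∧
    ∀ (ρ : Measure ℝ≥0) [IsProbabilityMeasure ρ], Good d κ M ρ → ∀ l : ℝ, 0 < l → l < 1 →
      ∀ (f : Prof d) (A t : ℝ), Nice f → 2 ≤ A → mr f < t →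
        U ρ l (lev d t) ((lev d (A * t)).indicator (mq 2)) (fun _ => 0) f ≤
          ENNReal.ofReal (C / A) * II ρ l t f := by
  obtain ⟨C, hC, h⟩ := T_over (M := M) hd hκ
  refine ⟨C, hC, fun ρ _ hρ l h0 h1 f A t hf hA ht => ?_⟩
  have hS := measurableSet_lev (d := d) t
  have w0 : 0 ≤ mr f := ENNReal.toReal_nonneg
  rw [U_exit_eq hS h0 h1 ((measurable_mq 2).indicator (measurableSet_lev _))
    (fun hm => absurd ((gloc1_on hf).1 hm) (not_le.2 ht))]
  unfold II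
  rw [← Occ_const_mul hS gloc1_meas]
  exact Occ_mono (by omega) (fun g _ hg => (T_mono (fun u => Set.indicator_le_self _ _ u) g).trans
    (h ρ hρ A t hA (by linarith) g (gloc1_off hg))) hf

theorem gloc1_Q (hd : 3 ≤ d) : ∃ C : ℝ, 1 ≤ C ∧ ∀ (s : ℝ) (g : Prof d), 0 < s → s ≤ 1 →
    Qf g ≤ ENNReal.ofReal (2 / s ^ 2) * nq 2 (avg g) + ENNReal.ofReal (C * s) * mq 2 g ∧
    ∀ Y, (∀ x, g x ≤ Y) →
      Qf g ≤ ENNReal.ofReal (2 / s ^ 2) * Y * mass g + ENNReal.ofReal (C * s) * mq 2 g := by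
  obtain ⟨C, hC, h⟩ := greenq_tail hd
  have h1 : 1 ≤ d := by omega
  refine ⟨C, hC, fun s g hs hs1 => ?_⟩
  have hs2 : 0 < s ^ 2 := by positivity
  have a1 : 1 / s ^ 2 ≤ (⌈1 / s ^ 2⌉₊ : ℝ) := Nat.le_ceil _
  have a2 : (⌈1 / s ^ 2⌉₊ : ℝ) ≤ 2 / s ^ 2 := by
    have h2 := (Nat.ceil_lt_add_one (show 0 ≤ 1 / s ^ 2 by positivity)).le
    have h3 : 1 ≤ 1 / s ^ 2 := by
      rw [le_div_iff₀ hs2]
      nlinarith
    rw [show 2 / s ^ 2 = 1 / s ^ 2 + 1 / s ^ 2 by ring]
    linarith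
  have a3 : (⌈1 / s ^ 2⌉₊ : ℝ) ^ (-(1 / 2) : ℝ) ≤ s := by
    refine (Real.rpow_le_rpow_of_nonpos (by positivity) a1 (by norm_num)).trans (le_of_eq ?_)
    rw [one_div, ← Real.rpow_natCast, ← Real.rpow_neg hs.le, ← Real.rpow_mul hs.le]
    norm_num
  have a4 : ∀ Z : ℝ≥0∞, (∀ j, nq 2 (avg^[j + 1] g) ≤ Z) →
      Qf g ≤ ENNReal.ofReal (2 / s ^ 2) * Z + ENNReal.ofReal (C * s) * mq 2 g := by
    intro Z hZ
    rw [greenq_split g ⌈1 / s ^ 2⌉₊, gloc1_mq]
    refine add_le_add ((Finset.sum_le_card_nsmul _ _ Z fun j _ => hZ j).trans ?_)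
      ((h g _ (Nat.ceil_pos.2 (by positivity))).trans (mul_le_mul_left
        (ENNReal.ofReal_le_ofReal (mul_le_mul_of_nonneg_left a3 (by linarith))) _))
    rw [Finset.card_range, nsmul_eq_mul, ← ENNReal.ofReal_natCast]
    exact mul_le_mul_left (ENNReal.ofReal_le_ofReal a2) _
  refine ⟨a4 _ fun j => ?_, fun Y hY => ?_⟩
  · induction j with
    | zero => exact le_rfl
    | succ j ih =>
      rw [Function.iterate_succ_apply']
      exact (nq_avg_le h1 (by norm_num) _).trans ih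
  · rw [mul_assoc]
    refine a4 _ fun j => ?_
    rw [← mass_avg_iter h1 (j + 1) g]
    exact greenq_le (avg_iter_le h1 _ hY)

theorem gloc1_main (hd : 3 ≤ d) {κ M : ℝ} (hκ : 0 < κ) : ∃ C₀ C₁ : ℝ, 1 ≤ C₀ ∧ 1 ≤ C₁ ∧
    ∀ (ρ : Measure ℝ≥0) [IsProbabilityMeasure ρ], Good d κ M ρ → ∀ s r A : ℝ, 0 < s → s ≤ 1 / 2 →
      0 < r → r ≤ 1 → 2 ≤ A → ∀ (f : Prof d) (t i u : ℝ), Nice f → 0 < t → 2 * mr f ≤ t →
      0 ≤ i → 0 ≤ u → II ρ (s ^ 4) t f = ENNReal.ofReal i →
      U ρ (s ^ 4) (lev d t) ((Gd d A t).indicator fun _ => 1) (fun _ => 0) f = ENNReal.ofReal u →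
      κ * i ≤ (gsum d).toReal * (A * t) ^ 2 * u + ((gsum d).toReal * (C₁ / A * i) +
        (2 / r ^ 2 / A + C₀ * r) * (4 * (2 * M) * i)) +
        (4 * s * i + C₀ * s * (mr f ^ 2 + 2 * M * i)) := by
  obtain ⟨C₀, hC₀, hQ⟩ := gloc1_Q hd
  obtain ⟨C₁, hC₁, hO⟩ := U_over (M := M) hd hκ
  refine ⟨C₀, C₁, hC₀, hC₁, fun ρ _ hρ s r A s0 s1 r0 r1 hA f t i u hf ht hw i0 u0 hi hu => ?_⟩
  have h1d : 1 ≤ d := by omega
  have hS := measurableSet_lev (d := d) t
  have l0 : 0 < s ^ 4 := by positivity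
  have l2 : s ^ 4 ≤ 1 / 2 := (pow_le_pow_left₀ s0.le s1 4).trans (by norm_num)
  have l1 : s ^ 4 < 1 := by linarith
  obtain ⟨M1, hM, -, -, g0⟩ := hρ.basic hd hκ
  have w0 : 0 ≤ mr f := ENNReal.toReal_nonneg
  have hO := hO ρ hρ _ l0 l1 f A t hf hA (by linarith)
  obtain ⟨hm, -, -, χ, hχ, hg⟩ := hρ
  have χ1 : χ ≤ ENNReal.ofReal (2 * M) := le_add_self.trans (hχ ▸ hM 2 (by norm_num) (by norm_num))
  have χt : χ ≠ ⊤ := ne_top_of_le_ne_top ENNReal.ofReal_ne_top χ1
  have eg : gsum d = ENNReal.ofReal (gsum d).toReal := (ENNReal.ofReal_toReal (gsum_ne_top hd)).symm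
  set G := (gsum d).toReal
  have e3 := dynkin_down (ρ := ρ) h1d hS l0 l1 measurable_Qf
    (gloc1_meas.const_mul (ENNReal.ofReal κ)) (B := fun _ => 0) measurable_const
    (fun g hg' _ => by
      have nt : nq 2 (avg g) ≠ ⊤ := ne_top_of_le_ne_top (ENNReal.pow_ne_top hg'.mass_ne_top)
        (nq_two_avg_le h1d g)
      rw [add_zero, ← ENNReal.add_le_add_iff_right nt, T_Qf hm hχ g, add_assoc]
      refine add_le_add le_rfl (le_trans (le_of_eq ?_) (mul_le_mul_left hg _))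
      ring)
    (b := (gsum d + ENNReal.ofReal κ) * ENNReal.ofReal (t ^ 2))
    (ENNReal.mul_ne_top (ENNReal.add_ne_top.2 ⟨gsum_ne_top hd, ENNReal.ofReal_ne_top⟩)
      ENNReal.ofReal_ne_top)
    (fun g _ hg => (Qf_le_gsum g).trans (mul_le_mul' le_self_add (gloc1_off_sq hg)))
    (fun g _ hg => mul_le_mul' le_add_self ((nq_two_avg_le h1d g).trans (gloc1_off_sq hg))) hf
  rw [gloc1_occ_zero hS, add_zero, Occ_const_mul hS gloc1_meas,
    U_split hS measurable_Qf measurable_Qf] at e3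
  have e4 : ENNReal.ofReal κ * II ρ (s ^ 4) t f ≤ _ := le_add_self.trans e3
  have b1 : U ρ (s ^ 4) (lev d t) (fun _ => 0) (fun g => nq 2 (avg g)) f ≤
      ENNReal.ofReal (2 * (s ^ 4 * i)) := by
    have h := Occ_eq_U (ρ := ρ) hS l0 l1 gloc1_meas f
    rw [show Occ ρ (s ^ 4) (lev d t) (fun g => nq 2 (avg g)) f = ENNReal.ofReal i from hi,
      ← ENNReal.ofReal_mul l0.le] at h
    rw [ENNReal.ofReal_mul (by norm_num), h, ← mul_assoc, ← ENNReal.ofReal_mul (by norm_num)]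
    exact le_mul_of_one_le_left' (ENNReal.one_le_ofReal.2 (by linarith))
  have b2 : U ρ (s ^ 4) (lev d t) (fun _ => 0) (mq 2) f ≤
      ENNReal.ofReal (mr f ^ 2 + 2 * M * i) := by
    refine (U_mono h1d (F' := mq 2) (R' := mq 2) (fun g _ _ => zero_le) (fun g _ _ => le_rfl)
      hf).trans ?_
    rw [U_sq h1d hm hχ χt l0 l1 t hf, hi, gloc1_mq_nice hf,
      ENNReal.ofReal_add (by positivity) (by positivity), ENNReal.ofReal_mul (by positivity)]
    exact add_le_add le_rfl (mul_le_mul_left χ1 _)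
  have e1 : U ρ (s ^ 4) (lev d t) (fun _ => 0) Qf f ≤
      ENNReal.ofReal (4 * s * i + C₀ * s * (mr f ^ 2 + 2 * M * i)) := by
    refine (U_mono h1d (F' := fun _ => 0) (R' := fun g => ENNReal.ofReal (2 / s ^ 2) *
      nq 2 (avg g) + ENNReal.ofReal (C₀ * s) * mq 2 g) (fun g _ _ => le_rfl)
      (fun g _ _ => (hQ s g s0 (by linarith)).1) hf).trans ?_
    rw [gloc1_run hS gloc1_meas (measurable_mq 2),
      ENNReal.ofReal_add (by positivity) (by positivity),
      ENNReal.ofReal_mul (p := C₀ * s) (by positivity)]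
    refine add_le_add ((mul_le_mul_right b1 _).trans ?_) (mul_le_mul_right b2 _)
    rw [← ENNReal.ofReal_mul (by positivity)]
    refine ENNReal.ofReal_le_ofReal ?_
    rw [show 2 / s ^ 2 * (2 * (s ^ 4 * i)) = 4 * s * i * s by field_simp; ring]
    exact mul_le_of_le_one_right (by positivity) (by linarith)
  have b3 := U_sq_exit h1d hm hχ χt l0 l1 hf hw
  have A0 : 0 < A := by linarith
  have e2 : U ρ (s ^ 4) (lev d t) Qf (fun _ => 0) f ≤ ENNReal.ofReal (G * (A * t) ^ 2 * u +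
      (G * (C₁ / A * i) + (2 / r ^ 2 / A + C₀ * r) * (4 * (2 * M) * i))) := by
    have mG : Measurable ((Gd d A t).indicator fun _ => (1 : ℝ≥0∞)) :=
      measurable_const.indicator (measurableSet_Gd A t)
    have mL : Measurable ((lev d (A * t)).indicator (mq 2)) :=
      (measurable_mq 2).indicator (measurableSet_lev _)
    refine (U_mono h1d (F' := fun g => ENNReal.ofReal (G * (A * t) ^ 2) *
      (Gd d A t).indicator (fun _ => 1) g + (gsum d * (lev d (A * t)).indicator (mq 2) g +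
        (ENNReal.ofReal (2 / r ^ 2 / A + C₀ * r) * mq 2 g + 0))) (fun g hg hgS => ?_)
      (fun g _ _ => le_rfl) hf).trans ?_
    · by_cases c1 : g ∈ lev d (A * t)
      · rw [Set.indicator_of_mem c1, gloc1_mq]
        exact (Qf_le_gsum g).trans (le_self_add.trans le_add_self)
      by_cases c2 : g ∈ Gd d A t
      · rw [Set.indicator_of_mem c2, mul_one, ENNReal.ofReal_mul g0.le, ← eg]
        exact (Qf_le_gsum g).trans ((mul_le_mul_right (gloc1_off_sq c1) _).trans le_self_add)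
      refine le_trans ?_ (le_self_add.trans (le_add_self.trans le_add_self))
      have c3 : ∀ x, g x ≤ ENNReal.ofReal (1 / A) * mass g := fun x => by
        have c4 : g x ≤ ENNReal.ofReal (t / A) :=
          (not_le.1 fun h => c2 ⟨hgS, gloc1_off c1, x, h⟩).le
        rw [div_eq_mul_one_div, mul_comm, ENNReal.ofReal_mul (by positivity)] at c4
        exact c4.trans (mul_le_mul_right hgS _)
      refine ((hQ r g r0 r1).2 _ c3).trans (le_of_eq ?_)
      rw [ENNReal.ofReal_add (by positivity) (by positivity), add_mul, gloc1_mq,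
        div_eq_mul_one_div (2 / r ^ 2) A, ENNReal.ofReal_mul (q := 1 / A) (by positivity)]
      ring
    · have m1 : Measurable fun g : Prof d =>
          ENNReal.ofReal (2 / r ^ 2 / A + C₀ * r) * mq 2 g + 0 :=
        ((measurable_mq 2).const_mul _).add measurable_const
      have m2 : Measurable fun g : Prof d => gsum d * (lev d (A * t)).indicator (mq 2) g +
          (ENNReal.ofReal (2 / r ^ 2 / A + C₀ * r) * mq 2 g + 0) := (mL.const_mul _).add m1
      rw [gloc1_exit hS mG m2, gloc1_exit hS mL m1,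
        gloc1_exit hS (measurable_mq 2) measurable_const, hu,
        ENNReal.ofReal_add (p := G * (A * t) ^ 2 * u) (by positivity) (by positivity),
        ENNReal.ofReal_add (p := G * (C₁ / A * i)) (by positivity) (by positivity),
        ENNReal.ofReal_mul (q := u) (by positivity), ENNReal.ofReal_mul (q := C₁ / A * i) g0.le,
        ← eg, ENNReal.ofReal_mul (q := i) (by positivity),
        ENNReal.ofReal_mul (q := 4 * (2 * M) * i) (by positivity),
        ENNReal.ofReal_mul (q := i) (by positivity), ENNReal.ofReal_mul (by norm_num : (0 : ℝ) ≤ 4),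
        ENNReal.ofReal_ofNat, ← hi]
      have z : U ρ (s ^ 4) (lev d t) (fun _ => 0) (fun _ => 0) f = 0 := by
        simpa using U_const_mul (ρ := ρ) (l := s ^ 4) hS (F := fun _ => 0) (R := fun _ => 0)
          measurable_const measurable_const 0 f
      rw [z, add_zero]
      exact add_le_add le_rfl (add_le_add (mul_le_mul_right hO _) (mul_le_mul_right
        (b3.trans (mul_le_mul_left (mul_le_mul_right χ1 _) _)) _))
  have e5 := e4.trans (add_le_add e2 e1)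
  rw [hi, ← ENNReal.ofReal_mul hκ.le, ← ENNReal.ofReal_add (by positivity) (by positivity)] at e5
  exact (ENNReal.ofReal_le_ofReal_iff (by positivity)).1 e5

/-- Localisation: the occupation integral is carried by localised exits. -/
theorem loc (hd : 3 ≤ d) {κ M : ℝ} (hκ : 0 < κ) : ∃ C : ℝ, 1 ≤ C ∧
    ∀ (ρ : Measure ℝ≥0) [IsProbabilityMeasure ρ], Good d κ M ρ → ∀ l : ℝ, 0 < l → l ≤ C⁻¹ →
      l < 1 → ∀ (f : Prof d) (t : ℝ), Nice f → 0 < t → 2 * mr f ≤ t →
        II ρ l t f ≤ ENNReal.ofReal (C * t ^ 2) *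
          U ρ l (lev d t) ((Gd d C t).indicator fun _ => 1) (fun _ => 0) f +
            ENNReal.ofReal (C * l ^ (1 / 4 : ℝ) * mr f ^ 2) := by
  obtain ⟨C₀, C₁, hC₀, hC₁, h⟩ := gloc1_main (M := M) hd hκ
  have G0 : 0 ≤ (gsum d).toReal := ENNReal.toReal_nonneg
  set G := (gsum d).toReal
  have small : ∀ a : ℝ, 0 ≤ a → ∃ r : ℝ, 0 < r ∧ r ≤ 1 / 2 ∧ a * r ≤ κ / 8 := fun a ha =>
    ⟨min (1 / 2) (κ / 8 / (a + 1)), lt_min (by norm_num) (by positivity), min_le_left _ _, by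
      have h1 := mul_le_mul_of_nonneg_left (min_le_right (1 / 2) (κ / 8 / (a + 1))) ha
      have h2 : (a + 1) * (κ / 8 / (a + 1)) = κ / 8 := by field_simp
      have h3 : 0 ≤ κ / 8 / (a + 1) := by positivity
      nlinarith⟩
  obtain ⟨r, r0, r1, r2⟩ := small (C₀ * (8 * |M|)) (by positivity)
  obtain ⟨q, q0, q1, q2⟩ := small (G * C₁ + 2 / r ^ 2 * (8 * |M|)) (by positivity)
  obtain ⟨δ, d0, d1, d2⟩ := small (4 + C₀ * (2 * |M|)) (by positivity)
  have A2 : 2 ≤ 1 / q := by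
    rw [le_div_iff₀ q0]
    linarith
  have p1 : 0 ≤ 2 / κ * (G * (1 / q) ^ 2) := by positivity
  have p2 : 0 ≤ 2 / κ * C₀ := by positivity
  have p3 : 0 < (δ ^ 4)⁻¹ := by positivity
  refine ⟨1 / q + 2 / κ * (G * (1 / q) ^ 2) + 2 / κ * C₀ + (δ ^ 4)⁻¹, by linarith,
    fun ρ _ hρ l h0 hl h1 f t hf ht hw => ?_⟩
  set C := 1 / q + 2 / κ * (G * (1 / q) ^ 2) + 2 / κ * C₀ + (δ ^ 4)⁻¹ with hC
  have h1d : 1 ≤ d := by omega
  have hS := measurableSet_lev (d := d) t
  have M1 := (hρ.basic hd hκ).1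
  rw [abs_of_pos (show 0 < M by linarith)] at r2 q2 d2
  set s := l ^ (1 / 4 : ℝ) with hs
  have s0 : 0 < s := Real.rpow_pos_of_pos h0 _
  have es : s ^ 4 = l := by
    rw [hs, ← Real.rpow_natCast, ← Real.rpow_mul h0.le]
    norm_num
  have s1 : s ≤ δ := by
    refine le_of_pow_le_pow_left₀ (n := 4) (by norm_num) d0.le ?_
    rw [es, ← inv_inv (δ ^ 4)]
    exact hl.trans (inv_anti₀ p3 (by linarith))
  have it : II ρ l t f ≠ ⊤ := ne_top_of_le_ne_top ENNReal.ofReal_ne_top (II_le h1d h0 h1 t hf)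
  have ut : U ρ l (lev d t) ((Gd d (1 / q) t).indicator fun _ => 1) (fun _ => 0) f ≠ ⊤ := by
    refine ne_top_of_le_ne_top ENNReal.one_ne_top (le_trans ?_ (U_one (ρ := ρ) hS h0 h1 f).le)
    exact U_mono h1d (fun g _ _ => Set.indicator_le_self _ _ g) (fun g _ _ => zero_le) hf
  obtain ⟨i, i0, hi⟩ : ∃ i, 0 ≤ i ∧ II ρ l t f = ENNReal.ofReal i :=
    ⟨_, ENNReal.toReal_nonneg, (ENNReal.ofReal_toReal it).symm⟩
  obtain ⟨u, u0, hu⟩ : ∃ u, 0 ≤ u ∧ U ρ l (lev d t) ((Gd d (1 / q) t).indicator fun _ => 1)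
      (fun _ => 0) f = ENNReal.ofReal u :=
    ⟨_, ENNReal.toReal_nonneg, (ENNReal.ofReal_toReal ut).symm⟩
  have k := h ρ hρ s r (1 / q) s0 (s1.trans d1) r0 (by linarith) A2 f t i u hf ht hw i0 u0
    (es ▸ hi) (es ▸ hu)
  have k1 := mul_le_mul_of_nonneg_right r2 i0
  have k2 := mul_le_mul_of_nonneg_right q2 i0
  have k3 := mul_le_mul_of_nonneg_right ((mul_le_mul_of_nonneg_left s1 (by positivity)).trans d2) i0
  have k0 := mul_nonneg hκ.le i0
  simp only [div_div_eq_mul_div, div_one] at k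
  have k4 : κ / 2 * i ≤ G * (1 / q) ^ 2 * (t ^ 2 * u) + C₀ * (s * mr f ^ 2) := by linarith
  have k5 := mul_le_mul_of_nonneg_left k4 (show 0 ≤ 2 / κ by positivity)
  rw [show 2 / κ * (κ / 2 * i) = i by field_simp] at k5
  have k6 := mul_le_mul_of_nonneg_right (show 2 / κ * (G * (1 / q) ^ 2) ≤ C by linarith)
    (show 0 ≤ t ^ 2 * u by positivity)
  have k7 := mul_le_mul_of_nonneg_right (show 2 / κ * C₀ ≤ C by linarith)
    (show 0 ≤ s * mr f ^ 2 by positivity)
  have C0 : 0 < C := by linarith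
  have sub : Gd d (1 / q) t ⊆ Gd d C t := fun g hg => by
    obtain ⟨g1, g2, x, g3⟩ := hg
    exact ⟨g1, g2.trans (ENNReal.ofReal_le_ofReal
      (mul_le_mul_of_nonneg_right (by linarith) ht.le)), x,
      (ENNReal.ofReal_le_ofReal (div_le_div_of_nonneg_left ht.le (by linarith)
        (by linarith))).trans g3⟩
  calc II ρ l t f ≤ ENNReal.ofReal (C * t ^ 2 * u + C * s * mr f ^ 2) := by
        rw [hi]
        exact ENNReal.ofReal_le_ofReal (by linarith)
    _ ≤ _ := by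
        rw [ENNReal.ofReal_add (by positivity) (by positivity),
          ENNReal.ofReal_mul (q := u) (by positivity), ← hu]
        exact add_le_add (mul_le_mul_right (U_mono h1d (fun g _ _ =>
          Set.indicator_le_indicator_of_subset sub (fun _ => zero_le) g)
          (fun g _ _ => le_rfl) hf) _) le_rfl

/-- Localisation in terms of high sites. -/
theorem loc_Yv (hd : 3 ≤ d) {κ M : ℝ} (hκ : 0 < κ) : ∃ C : ℝ, 1 ≤ C ∧
    ∀ (ρ : Measure ℝ≥0) [IsProbabilityMeasure ρ], Good d κ M ρ → ∀ l : ℝ, 0 < l → l ≤ C⁻¹ →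
      l < 1 → ∀ (f : Prof d) (t : ℝ), Nice f → 0 < t → 2 * mr f ≤ t →
        II ρ l t f ≤ ENNReal.ofReal (C * t ^ 2) * Yv ρ l f (ENNReal.ofReal (t / C)) +
          ENNReal.ofReal (C * l ^ (1 / 4 : ℝ) * mr f ^ 2) := by
  obtain ⟨C, hC, h⟩ := loc (M := M) hd hκ
  exact ⟨C, hC, fun ρ _ hρ l h0 hl h1 f t hf ht hw => (h ρ hρ l h0 hl h1 f t hf ht hw).trans
    (add_le_add (mul_le_mul_right
      (U_ind_le (measurableSet_setY _) h0 h1 (fun g hg => hg.2.2) f) _) le_rfl)⟩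

end Pool.Agent.Lib.MP_153faa_pr
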