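import Mathlib
import Pool.Agent.Lib.MP_153faa_pr.GLoc1
import Pool.Agent.Lib.MP_153faa_pr.GCont
import Pool.Agent.Lib.MP_153faa_pr.GHK1
import Pool.Agent.Lib.MP_153faa_pr.GAA3

set_option autoImplicit false

open MeasureTheory Filter Topology
open scoped ENNReal NNReal

namespace Pool.Agent.Lib.MP_153faa_pr

variable {d : ℕ}

/-- Smoothed overlaps. -/
theorem gaa_smooth (hd : 3 ≤ d) {κ M : ℝ} (hκ : 0 < κ) : ∃ C : ℝ, 1 ≤ C ∧
    ∀ (ρ : Measure ℝ≥0) [IsProbabilityMeasure ρ] (p l : ℝ), Ctx d κ M ρ p l → ∀ r : ℕ, 1 ≤ r →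
      ∑' j, ENNReal.ofReal ((1 - l) ^ (j + 1)) *
          (T ρ)^[j] (fun g => ∑' z, vf p (mass g) (avg^[r] g z)) (dlt (0 : Site d)) ≤
        ENNReal.ofReal (C * (r : ℝ) ^ (1 - (d : ℝ) / 2)) * OO d ρ p l := gaa_smooth' hd hκ

theorem gaa_log {l Z : ℝ} (l0 : 0 < l) (Z1 : 1 ≤ Z) (h : Real.log l ^ 2 ≤ Z) :
    Real.exp (-Z) ≤ l := by
  rw [← Real.le_log_iff_exp_le l0]
  nlinarith [sq_nonneg (Real.log l + 1)]

theorem gaa_harm {l Z : ℝ} (l0 : 0 < l) (l1 : l < 1) (Z1 : 1 ≤ Z) (h : Real.exp (-Z) ≤ l) :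
    ∑ i ∈ Finset.range ⌈10 * Z * Z / l⌉₊, ((i + 1 : ℕ) : ℝ)⁻¹ ≤ 15 * Z := by
  have h1 := harmonic_le_one_add_log ⌈10 * Z * Z / l⌉₊
  have h2 : ((harmonic ⌈10 * Z * Z / l⌉₊ : ℚ) : ℝ) =
      ∑ i ∈ Finset.range ⌈10 * Z * Z / l⌉₊, ((i + 1 : ℕ) : ℝ)⁻¹ := by
    rw [harmonic]; push_cast; rfl
  have a0 : 0 < 10 * Z * Z / l := by positivity
  have a1 : 1 ≤ Z * Z / l := by rw [le_div_iff₀ l0]; nlinarith
  have h3 : (⌈10 * Z * Z / l⌉₊ : ℝ) ≤ 11 * Z * Z / l := by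
    have := (Nat.ceil_lt_add_one a0.le).le
    have e : 11 * Z * Z / l = 10 * Z * Z / l + Z * Z / l := by ring
    linarith
  have h4 : Real.log (⌈10 * Z * Z / l⌉₊ : ℝ) ≤ Real.log (11 * Z * Z / l) :=
    Real.log_le_log (by exact_mod_cast Nat.ceil_pos.2 a0) h3
  rw [Real.log_div (by positivity) l0.ne', Real.log_mul (by positivity) (by positivity),
    Real.log_mul (by positivity) (by positivity)] at h4
  have h5 := Real.log_le_sub_one_of_pos (show (0 : ℝ) < 11 by norm_num)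
  have h6 := Real.log_le_sub_one_of_pos (show 0 < Z by linarith)
  have h7 := (Real.le_log_iff_exp_le l0).2 h
  linarith

/-- Summed moments of the point-to-point partition functions at the critical exponent. -/
theorem gaa (hd : 3 ≤ d) {κ M : ℝ} (hκ : 0 < κ) : ∃ (a : ℕ) (C : ℝ), 1 ≤ C ∧
    ∀ (ρ : Measure ℝ≥0) [IsProbabilityMeasure ρ] (l Z : ℝ), Ctx d κ M ρ (q0 d) l → l ≤ C⁻¹ →
      C ≤ Z → Sc d ρ (q0 d) l Z →
      (∀ n : ℕ, 1 ≤ n → ENNReal.ofReal ((1 - l) ^ n) * Am d ρ (q0 d) n ≤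
        ENNReal.ofReal (Z ^ a / n)) ∧
      ∑' n, ENNReal.ofReal ((1 - l) ^ n) * Am d ρ (q0 d) n ≤ ENNReal.ofReal (Z ^ a) := by
  obtain ⟨C, hC, hp⟩ := gaa_point (M := M) hd hκ
  have hd1 : 1 ≤ d := by omega
  obtain ⟨q1, q2⟩ := gaa_q0 hd
  refine ⟨d + 5, C + 116, by linarith, fun ρ _ l Z hx _ hZ hS => ?_⟩
  have Z1 : 1 ≤ Z := by linarith
  have h := hp ρ l Z hx (by linarith) hS.1
  have l0 := hx.l0
  have l1 := hx.l1
  have hm := hx.good.1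
  refine ⟨fun n hn => (h n hn).trans (ENNReal.ofReal_le_ofReal ?_), ?_⟩
  · gcongr
    omega
  have hl := gaa_log l0 Z1 hS.2
  obtain ⟨N, hN⟩ : ∃ N : ℕ, N = ⌈10 * Z * Z / l⌉₊ := ⟨_, rfl⟩
  have hk := kill hd1 hm q1.le l0 l1 Z1 hS.1 (N := N + 1) (s := 10 * Z) (by linarith)
    (by rw [hN]; push_cast; linarith [Nat.le_ceil (10 * Z * Z / l)])
  have t0 : ENNReal.ofReal ((1 - l) ^ 0) * Am d ρ (q0 d) 0 ≤ ENNReal.ofReal 1 := by
    rw [pow_zero, ENNReal.ofReal_one, one_mul]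
    exact (Am_le_Mom q1.le 0).trans (Mom_zero _).le
  have t1 : ∑ i ∈ Finset.range N, ENNReal.ofReal ((1 - l) ^ (i + 1)) * Am d ρ (q0 d) (i + 1) ≤
      ENNReal.ofReal (Z ^ (d + 3) * (15 * Z)) := by
    refine (Finset.sum_le_sum fun i _ => h (i + 1) (by omega)).trans ?_
    rw [← ENNReal.ofReal_sum_of_nonneg fun i _ => by positivity]
    refine ENNReal.ofReal_le_ofReal ?_
    simp only [div_eq_mul_inv]
    rw [← Finset.mul_sum, hN]
    gcongr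
    exact gaa_harm l0 l1 Z1 hl
  have t2 : ∑' n, ENNReal.ofReal ((1 - l) ^ (n + (N + 1))) * Am d ρ (q0 d) (n + (N + 1)) ≤
      ENNReal.ofReal (100 * Z ^ 2) := by
    calc _ ≤ ∑' n, ENNReal.ofReal l⁻¹ * (wt l (n + (N + 1)) * Mom d ρ (q0 d) (n + (N + 1))) :=
          ENNReal.tsum_le_tsum fun n => by
            rw [← mul_assoc, wt, ← ENNReal.ofReal_mul (by positivity), ← mul_assoc,
              inv_mul_cancel₀ l0.ne', one_mul]
            exact mul_le_mul' le_rfl (Am_le_Mom q1.le _)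
      _ ≤ ENNReal.ofReal l⁻¹ * ENNReal.ofReal (100 * Z ^ 2 * Real.exp (-(10 * Z / 10))) := by
          rw [ENNReal.tsum_mul_left]
          exact mul_le_mul' le_rfl hk
      _ ≤ _ := by
          rw [← ENNReal.ofReal_mul (by positivity), show 10 * Z / 10 = Z by ring]
          refine ENNReal.ofReal_le_ofReal ?_
          calc _ ≤ l⁻¹ * (100 * Z ^ 2 * l) := by gcongr
            _ = _ := by field_simp
  rw [← Summable.sum_add_tsum_nat_add' (k := N + 1) ENNReal.summable, Finset.sum_range_succ']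
  refine (add_le_add (add_le_add t1 t0) t2).trans ?_
  rw [← ENNReal.ofReal_add (by positivity) (by positivity),
    ← ENNReal.ofReal_add (by positivity) (by positivity)]
  refine ENNReal.ofReal_le_ofReal ?_
  have u1 : 1 ≤ Z ^ (d + 4) := one_le_pow₀ Z1
  have u2 : Z ^ 2 ≤ Z ^ (d + 4) := pow_le_pow_right₀ Z1 (by omega)
  calc _ = 15 * Z ^ (d + 4) + 1 + 100 * Z ^ 2 := by ring
    _ ≤ 116 * Z ^ (d + 4) := by linarith
    _ ≤ Z * Z ^ (d + 4) := by gcongr; linarith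
    _ = _ := by ring

end Pool.Agent.Lib.MP_153faa_pr
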