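import Mathlib
import Pool.Agent.Lib.MP_153faa_pr.GHK1

set_option autoImplicit false

open MeasureTheory Filter Topology
open scoped ENNReal NNReal

namespace Pool.Agent.Lib.MP_153faa_pr

variable {d : ℕ}

theorem ghk3_geo {x : ℝ} (hx : 0 < x) (S : Finset ℤ) (k₀ : ℤ) :
    ∑ k ∈ S, Real.exp (-(x * |(k : ℝ) - k₀|)) ≤ 2 * (1 + 1 / x) := by
  set q : ℝ := Real.exp (-x) with hq
  have hq0 : 0 ≤ q := (Real.exp_pos _).le
  have hq1 : q < 1 := by rw [hq, Real.exp_lt_one_iff]; linarith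
  have h1 : HasSum (fun n : ℕ => Real.exp (-(x * |((n : ℤ) : ℝ)|))) (1 - q)⁻¹ := by
    convert hasSum_geometric_of_lt_one hq0 hq1 using 2 with n
    rw [hq, ← Real.exp_nat_mul]
    simp only [Int.cast_natCast, Nat.abs_cast]
    ring_nf
  have h2 : HasSum (fun n : ℕ => Real.exp (-(x * |((-((n : ℤ) + 1) : ℤ) : ℝ)|)))
      (q * (1 - q)⁻¹) := by
    have e : (fun n : ℕ => Real.exp (-(x * |((-((n : ℤ) + 1) : ℤ) : ℝ)|))) =
        fun n : ℕ => q * q ^ n := ?_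
    · rw [e]
      exact (hasSum_geometric_of_lt_one hq0 hq1).mul_left q
    funext n
    rw [hq, ← Real.exp_nat_mul, ← Real.exp_add]
    push_cast
    rw [abs_neg, abs_of_nonneg (by positivity)]
    ring_nf
  have h3 : HasSum (fun k : ℤ => Real.exp (-(x * |(k : ℝ)|))) ((1 - q)⁻¹ + q * (1 - q)⁻¹) :=
    HasSum.of_nat_of_neg_add_one (f := fun k : ℤ => Real.exp (-(x * |(k : ℝ)|))) h1 h2
  have h4 : HasSum (fun k : ℤ => Real.exp (-(x * |(k : ℝ) - k₀|)))
      ((1 - q)⁻¹ + q * (1 - q)⁻¹) := by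
    have := (Equiv.subRight k₀).hasSum_iff.mpr h3
    convert this using 2 with k
    simp
  refine (sum_le_hasSum S (fun _ _ => (Real.exp_pos _).le) h4).trans ?_
  have h5 : q * (1 + x) ≤ 1 := by
    rw [hq, Real.exp_neg, inv_mul_le_iff₀ (Real.exp_pos _)]
    linarith [Real.add_one_le_exp x]
  have h6 : (1 - q)⁻¹ ≤ 1 + 1 / x := by
    rw [inv_le_iff_one_le_mul₀ (by linarith)]
    have : (1 + 1 / x) * (1 - q) = (1 + x - q * (1 + x)) / x := by field_simp; ring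
    rw [this, le_div_iff₀ hx]
    linarith
  have h7 : 0 ≤ (1 - q)⁻¹ := inv_nonneg.mpr (by linarith)
  nlinarith

/-- Product of one-dimensional exponential weights at scale `s`. -/
noncomputable def ghk3E (s : ℝ) (z : Site d) : ℝ := ∏ i, Real.exp (-(|(z i : ℝ)| / s))

theorem ghk3E_pos (s : ℝ) (z : Site d) : 0 < ghk3E s z :=
  Finset.prod_pos fun _ _ => Real.exp_pos _

theorem ghk3E_le_one {s : ℝ} (hs : 0 < s) (z : Site d) : ghk3E s z ≤ 1 :=
  Finset.prod_le_one (fun _ _ => (Real.exp_pos _).le) fun i _ => by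
    rw [Real.exp_le_one_iff]
    have : 0 ≤ |(z i : ℝ)| / s := by positivity
    linarith

theorem ghk3E_ge {s a : ℝ} (hs : 0 < s) (y z : Site d) (h : ∀ i, |(z i : ℝ)| ≤ |(y i : ℝ)| + a) :
    Real.exp (-(d * (a / s))) * ghk3E s y ≤ ghk3E s z := by
  have e : Real.exp (-(d * (a / s))) = ∏ _i : Fin d, Real.exp (-(a / s)) := by
    rw [Finset.prod_const, Finset.card_univ, Fintype.card_fin, ← Real.exp_nat_mul]
    ring_nf
  rw [e, ghk3E, ← Finset.prod_mul_distrib]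
  refine Finset.prod_le_prod (fun _ _ => by positivity) fun i _ => ?_
  rw [← Real.exp_add, Real.exp_le_exp]
  have := div_le_div_of_nonneg_right (h i) hs.le
  rw [add_div] at this
  linarith

theorem ghk3E_zero (s : ℝ) : ghk3E s (0 : Site d) = 1 := by simp [ghk3E]

theorem ghk3_gauss (hd : 1 ≤ d) : ∃ C : ℝ, 1 ≤ C ∧ ∀ (n : ℕ) (z : Site d), 1 ≤ n →
    ph d n z ≤ C * (n : ℝ) ^ (-(d : ℝ) / 2) * ghk3E (√n) z ^ 2 := by
  obtain ⟨C₁, hC₁, h₁⟩ := hk_gauss hd
  obtain ⟨C₂, hC₂, h₂⟩ := hk_sup hd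
  have hex : 1 ≤ Real.exp (d ^ 2 * C₁ + 2 * d) := Real.one_le_exp (by positivity)
  refine ⟨(C₁ + C₂) * Real.exp (d ^ 2 * C₁ + 2 * d), by nlinarith, fun n z hn => ?_⟩
  have hn' : (1 : ℝ) ≤ n := by exact_mod_cast hn
  have hs : 1 ≤ √(n : ℝ) := Real.one_le_sqrt.mpr hn'
  have hμ : 0 < (n : ℝ) ^ (-(d : ℝ) / 2) := by positivity
  have : Nonempty (Fin d) := ⟨⟨0, hd⟩⟩
  obtain ⟨i, -, hi⟩ := Finset.exists_max_image Finset.univ (fun i => (z i).natAbs)
    Finset.univ_nonempty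
  set N := (z i).natAbs with hN
  have hE : Real.exp (-(d * (N / √(n : ℝ)))) ≤ ghk3E (√n) z := by
    have := ghk3E_ge (a := N) (s := √n) (by linarith) 0 z fun j => by
      have h := hi j (Finset.mem_univ _)
      have e : |(z j : ℝ)| = ((z j).natAbs : ℝ) := by
        rw [← Int.cast_abs, Int.abs_eq_natAbs, Int.cast_natCast]
      rw [e]
      simp only [Pi.zero_apply, Int.cast_zero, abs_zero, zero_add]
      exact_mod_cast h
    rwa [ghk3E_zero, mul_one] at this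
  have hE2 : Real.exp (-(2 * (d * (N / √(n : ℝ))))) ≤ ghk3E (√n) z ^ 2 := by
    refine le_trans (le_of_eq ?_) (pow_le_pow_left₀ (Real.exp_pos _).le hE 2)
    rw [← Real.exp_nat_mul]
    congr 1
    push_cast
    ring
  refine le_trans ?_ (mul_le_mul_of_nonneg_left hE2 (by positivity))
  rcases Nat.eq_zero_or_pos N with h0 | h0
  · rw [h0]
    simp only [Nat.cast_zero, zero_div, mul_zero, neg_zero, Real.exp_zero, mul_one]
    refine (h₂ n z hn).trans (mul_le_mul_of_nonneg_right ?_ hμ.le)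
    nlinarith
  · obtain ⟨R, hR⟩ : ∃ R, N = R + 1 := ⟨N - 1, by omega⟩
    have hz : z ∉ box d R := by
      rw [heat_mem_box]
      intro h
      have := h i
      omega
    refine (h₁ n R z hn hz).trans ?_
    have key : Real.exp (-((R : ℝ) ^ 2 / (C₁ * n))) ≤
        Real.exp (d ^ 2 * C₁ + 2 * d) * Real.exp (-(2 * (d * (N / √(n : ℝ))))) := by
      rw [← Real.exp_add, Real.exp_le_exp, hR]
      push_cast
      set x : ℝ := R / √(n : ℝ) with hx
      have e1 : (R : ℝ) ^ 2 / (C₁ * n) = x ^ 2 / C₁ := by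
        rw [hx, div_pow, Real.sq_sqrt (by linarith)]
        field_simp
      have e2 : ((R : ℝ) + 1) / √(n : ℝ) ≤ x + 1 := by
        rw [add_div, hx]
        have := div_le_one_of_le₀ hs (by linarith : (0 : ℝ) ≤ √(n : ℝ))
        linarith
      have e3 : 2 * (d * x) ≤ x ^ 2 / C₁ + d ^ 2 * C₁ := by
        have : x ^ 2 / C₁ + d ^ 2 * C₁ - 2 * (d * x) = (x - d * C₁) ^ 2 / C₁ := by
          field_simp; ring
        have h2 : 0 ≤ (x - d * C₁) ^ 2 / C₁ := by positivity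
        linarith
      have e4 : (d : ℝ) * (((R : ℝ) + 1) / √(n : ℝ)) ≤ d * (x + 1) :=
        mul_le_mul_of_nonneg_left e2 (by positivity)
      rw [e1]
      linarith
    calc C₁ * (n : ℝ) ^ (-(d : ℝ) / 2) * Real.exp (-((R : ℝ) ^ 2 / (C₁ * n)))
        ≤ (C₁ + C₂) * (n : ℝ) ^ (-(d : ℝ) / 2) * (Real.exp (d ^ 2 * C₁ + 2 * d) *
          Real.exp (-(2 * (d * (N / √(n : ℝ)))))) := by
          gcongr
          linarith
      _ = _ := by ring

theorem ghk3_sum_box {s : ℝ} (hs : 0 < s) (N : ℕ) :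
    ∑ u ∈ box d N, ghk3E s u ≤ (2 * (1 + s)) ^ d := by
  unfold ghk3E box
  rw [← Finset.prod_univ_sum (fun _ : Fin d => Finset.Icc (-(N : ℤ)) N)
    (fun _ k => Real.exp (-(|(k : ℝ)| / s)))]
  rw [Finset.prod_const, Finset.card_univ, Fintype.card_fin]
  refine pow_le_pow_left₀ (Finset.sum_nonneg fun _ _ => (Real.exp_pos _).le) ?_ d
  have := ghk3_geo (x := 1 / s) (by positivity) (Finset.Icc (-(N : ℤ)) N) 0
  rw [one_div_one_div] at this
  refine le_trans (le_of_eq (Finset.sum_congr rfl fun k _ => ?_)) this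
  congr 2
  simp only [Int.cast_zero, sub_zero]
  ring

theorem ghk3_sqrt_pow (x : ℝ) (hx : 0 < x) : √x ^ d = x ^ ((d : ℝ) / 2) := by
  rw [Real.sqrt_eq_rpow, ← Real.rpow_natCast, ← Real.rpow_mul hx.le]
  congr 1
  ring

theorem ghk3_pow_mul (x : ℝ) (hx : 0 < x) : x ^ ((d : ℝ) / 2) * x ^ (-(d : ℝ) / 2) = 1 := by
  rw [← Real.rpow_add hx]
  have : (d : ℝ) / 2 + -(d : ℝ) / 2 = 0 := by ring
  rw [this, Real.rpow_zero]

theorem ghk3_neg_mem {R : ℕ} {v : Site d} (h : v ∈ box d R) : -v ∈ box d R := by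
  rw [heat_mem_box] at h ⊢
  intro i
  have := h i
  simp only [Pi.neg_apply]
  omega

theorem ghk3_par_zero : par (0 : Site d) = 0 := by simp [par]

theorem ghk3_par_neg (v : Site d) : par (-v) = -par v := by
  have := par_sub 0 v
  rwa [zero_sub, ghk3_par_zero, zero_sub] at this

theorem ghk3_mix (hd : 1 ≤ d) : ∃ C : ℝ, 1 ≤ C ∧ ∀ (η : ℝ) (R m : ℕ), 0 < η → η ≤ 1 →
    C * (R + 1) ^ 2 ≤ η ^ 4 * m → ∃ w : Site d → ℝ≥0∞, ∑' u, w u = 1 ∧
      ∀ v ∈ box d R, par v = 0 → ∀ y,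
        phi d m y ≤ phi d m (y - v) + ENNReal.ofReal η * ∑' u, w u * phi d m (y - u) := by
  classical
  obtain ⟨Cr, hCr, hr⟩ := hk_reg hd
  obtain ⟨Cg, hCg, hg⟩ := ghk3_gauss hd
  obtain ⟨Cb, hCb, hb⟩ := hk_bulk hd
  obtain ⟨c, hc0, hc1, hc⟩ : ∃ c : ℝ, 0 < c ∧ c ≤ 1 ∧
      c = Cb⁻¹ * Cb⁻¹ * Real.exp (-(d : ℝ)) * (4 ^ d)⁻¹ := by
    refine ⟨_, by positivity, ?_, rfl⟩
    have a1 : Cb⁻¹ ≤ 1 := inv_le_one_of_one_le₀ hCb
    have a2 : Real.exp (-(d : ℝ)) ≤ 1 := Real.exp_le_one_iff.mpr (by simp)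
    have a3 : ((4 : ℝ) ^ d)⁻¹ ≤ 1 := inv_le_one_of_one_le₀ (one_le_pow₀ (by norm_num))
    calc _ ≤ (1 : ℝ) * 1 * 1 * 1 := by gcongr
      _ = 1 := by norm_num
  have hK : 1 ≤ Cr * Cg / c ^ 2 := by
    rw [le_div_iff₀ (by positivity)]
    nlinarith
  refine ⟨(Cr * Cg / c ^ 2) ^ 2, one_le_pow₀ hK, fun η R m hη hη1 hm => ?_⟩
  have hR0 : (0 : ℝ) ≤ R := by positivity
  have hm0 : (0 : ℝ) < m := by
    by_contra hneg
    have h0 : (m : ℝ) = 0 := le_antisymm (not_lt.mp hneg) (by positivity)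
    rw [h0, mul_zero] at hm
    have : 0 < (Cr * Cg / c ^ 2) ^ 2 * ((R : ℝ) + 1) ^ 2 := by positivity
    linarith
  have hm1 : 1 ≤ m := by exact_mod_cast hm0
  have hm1' : (1 : ℝ) ≤ m := by exact_mod_cast hm1
  have hs : 1 ≤ √(m : ℝ) := Real.one_le_sqrt.mpr hm1'
  set μ : ℝ := (m : ℝ) ^ (-(d : ℝ) / 2) with hμ
  have hμ0 : 0 < μ := by positivity
  set Z : ℝ := ∑ u ∈ box d (2 * m), ghk3E (√m) u with hZ
  have hZ0 : 0 < Z := Finset.sum_pos (fun _ _ => ghk3E_pos _ _)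
    ⟨0, heat_mem_box.mpr fun i => by simp⟩
  have hZ1 : Z ≤ 4 ^ d * (m : ℝ) ^ ((d : ℝ) / 2) := by
    refine (ghk3_sum_box (by linarith) _).trans ?_
    rw [← ghk3_sqrt_pow _ hm0, ← mul_pow]
    exact pow_le_pow_left₀ (by positivity) (by linarith) d
  have hsmall : Cr * Cg * (R / √(m : ℝ)) ≤ η ^ 2 * c ^ 2 := by
    have h1 : Cr * Cg / c ^ 2 * (R + 1) ≤ η ^ 2 * √(m : ℝ) := by
      refine abs_le_of_sq_le_sq' ?_ (by positivity) |>.2
      rw [mul_pow, mul_pow, Real.sq_sqrt hm0.le]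
      calc _ ≤ η ^ 4 * m := hm
        _ = _ := by ring
    rw [← mul_div_assoc, div_le_iff₀ (by linarith)]
    rw [div_mul_eq_mul_div, div_le_iff₀ (by positivity)] at h1
    nlinarith [mul_pos (by linarith : 0 < Cr) (by linarith : 0 < Cg)]
  refine ⟨fun u => if u ∈ box d (2 * m) then ENNReal.ofReal (ghk3E (√m) u / Z) else 0, ?_,
    fun v hv hp y => ?_⟩
  · rw [tsum_eq_sum (s := box d (2 * m)) fun u hu => if_neg hu,
      Finset.sum_congr rfl fun u hu => if_pos hu,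
      ← ENNReal.ofReal_sum_of_nonneg fun u _ => (div_pos (ghk3E_pos _ _) hZ0).le,
      ← Finset.sum_div, div_self hZ0.ne', ENNReal.ofReal_one]
  by_cases hy : phi d m y = 0
  · rw [hy]; exact zero_le
  have hyb := phi_box m hy
  obtain ⟨s, hs1, hs2, hs3⟩ := hb m hm1
  have hlow : ENNReal.ofReal (c * ghk3E (√m) y * μ) ≤
      ∑' u, (if u ∈ box d (2 * m) then ENNReal.ofReal (ghk3E (√m) u / Z) else 0) *
        phi d m (y - u) := by
    rw [← (Equiv.subLeft y).tsum_eq]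
    refine le_trans ?_ (ENNReal.sum_le_tsum s)
    have hz : ∀ z ∈ s, ENNReal.ofReal (Real.exp (-(d : ℝ)) * ghk3E (√m) y / Z * (Cb⁻¹ * μ)) ≤
        (if Equiv.subLeft y z ∈ box d (2 * m) then
          ENNReal.ofReal (ghk3E (√m) (Equiv.subLeft y z) / Z) else 0) *
          phi d m (y - Equiv.subLeft y z) := by
      intro z hz
      have hzb := heat_mem_box.mp (hs2 hz)
      have hsq : m.sqrt ≤ m := Nat.sqrt_le_self m
      have hmem : y - z ∈ box d (2 * m) := heat_mem_box.mpr fun i => by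
        have h1 := heat_mem_box.mp hyb i
        have h2 := hzb i
        simp only [Pi.sub_apply]
        omega
      simp only [Equiv.subLeft_apply, sub_sub_cancel, if_pos hmem]
      rw [← ofReal_ph hd, ← ENNReal.ofReal_mul (div_pos (ghk3E_pos _ _) hZ0).le]
      refine ENNReal.ofReal_le_ofReal (mul_le_mul ?_ (hs3 z hz) (by positivity)
        (div_pos (ghk3E_pos _ _) hZ0).le)
      refine div_le_div_of_nonneg_right ?_ hZ0.le
      have := ghk3E_ge (a := √m) (s := √m) (by linarith) y (y - z) fun i => by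
        have h2 := hzb i
        have h3 : |(z i : ℝ)| ≤ m.sqrt := by
          rw [abs_le]
          constructor
          · exact_mod_cast h2.1
          · exact_mod_cast h2.2
        have h4 : (m.sqrt : ℝ) ≤ √m := Real.nat_sqrt_le_real_sqrt
        simp only [Pi.sub_apply, Int.cast_sub]
        linarith [abs_sub (y i : ℝ) (z i)]
      rwa [div_self (by linarith), mul_one] at this
    refine le_trans ?_ (Finset.sum_le_sum hz)
    have hE := ghk3E_pos (√m) y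
    rw [Finset.sum_const, nsmul_eq_mul, ← ENNReal.ofReal_natCast,
      ← ENNReal.ofReal_mul (by positivity)]
    refine ENNReal.ofReal_le_ofReal (le_trans ?_ (mul_le_mul_of_nonneg_right hs1 (by positivity)))
    have h1 : Real.exp (-(d : ℝ)) * ghk3E (√m) y / (4 ^ d * (m : ℝ) ^ ((d : ℝ) / 2)) ≤
        Real.exp (-(d : ℝ)) * ghk3E (√m) y / Z :=
      div_le_div_of_nonneg_left (by positivity) hZ0 hZ1
    refine le_trans (le_of_eq ?_) (mul_le_mul_of_nonneg_left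
      (mul_le_mul_of_nonneg_right h1 (by positivity)) (by positivity))
    rw [hc]
    field_simp
  refine le_trans ?_ (add_le_add le_rfl (mul_le_mul_right hlow _))
  have hE := ghk3E_pos (√m) y
  have h3 : 0 ≤ ph d m (y - v) := ENNReal.toReal_nonneg
  rw [← ofReal_ph hd, ← ofReal_ph hd, ← ENNReal.ofReal_mul hη.le,
    ← ENNReal.ofReal_add h3 (by positivity)]
  refine ENNReal.ofReal_le_ofReal ?_
  have h1 := hr m 0 R y (-v) hm1 (ghk3_neg_mem hv) (by rw [ghk3_par_neg, hp, neg_zero])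
  simp only [mul_zero, add_zero, Nat.cast_zero, zero_div, zero_add, ← sub_eq_add_neg] at h1
  have h2 := hg m y hm1
  rw [← hμ] at h1 h2
  by_contra hneg
  push Not at hneg
  set D := ph d m y - ph d m (y - v) with hD
  have hT : 0 < η * (c * ghk3E (√m) y * μ) := by positivity
  have d1 : D ≤ Cr * (R / √(m : ℝ)) * μ := (le_abs_self _).trans h1
  have d2 : D ≤ Cg * μ * ghk3E (√m) y ^ 2 := by linarith
  have d3 : η * (c * ghk3E (√m) y * μ) < D := by linarith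
  have d4 : D * D ≤ (Cr * (R / √(m : ℝ)) * μ) * (Cg * μ * ghk3E (√m) y ^ 2) :=
    mul_le_mul d1 d2 (by linarith) (by linarith)
  have d5 : (Cr * (R / √(m : ℝ)) * μ) * (Cg * μ * ghk3E (√m) y ^ 2) ≤
      (η * (c * ghk3E (√m) y * μ)) ^ 2 := by
    calc _ = Cr * Cg * (R / √(m : ℝ)) * (μ * ghk3E (√m) y) ^ 2 := by ring
      _ ≤ η ^ 2 * c ^ 2 * (μ * ghk3E (√m) y) ^ 2 := by gcongr
      _ = _ := by ring
  nlinarith

theorem ghk3_two {p t : ℝ} {Φ : Prof d → ℝ≥0∞} (h : Fn p Φ) (ht0 : 0 ≤ t) (ht1 : t ≤ 1)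
    (f g : Prof d) : Φ (fun x => ENNReal.ofReal (1 - t) * f x + ENNReal.ofReal t * g x) ≤
      ENNReal.ofReal (1 - t) * Φ f + ENNReal.ofReal t * Φ g := by
  have := h.conv Bool (fun b => cond b (ENNReal.ofReal (1 - t)) (ENNReal.ofReal t))
    (fun b => cond b f g) (by
      rw [tsum_fintype, Fintype.sum_bool]
      simp only [cond_true, cond_false]
      rw [← ENNReal.ofReal_add (by linarith) ht0]
      simp)
  simpa only [tsum_fintype, Fintype.sum_bool, cond_true, cond_false] using this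

theorem ghk3_scale {p a : ℝ} {Φ : Prof d → ℝ≥0∞} (h : Fn p Φ) (hp2 : p ≤ 2) (ha0 : 0 < a)
    (ha1 : a ≤ 1) (f : Prof d) :
    ENNReal.ofReal a * Φ (sca (ENNReal.ofReal a⁻¹) f) ≤ ENNReal.ofReal a⁻¹ * Φ f := by
  have h1 : (1 : ℝ) ≤ a⁻¹ := (one_le_inv₀ ha0).mpr ha1
  have h2 := h.scale (Real.toNNReal a⁻¹) f (by rwa [← Real.toNNReal_one, Real.toNNReal_le_toNNReal_iff (by linarith)])
  have h3 : ((Real.toNNReal a⁻¹ : ℝ≥0) : ℝ≥0∞) ^ p ≤ ENNReal.ofReal a⁻¹ * ENNReal.ofReal a⁻¹ := by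
    have : ENNReal.ofReal a⁻¹ ^ p ≤ ENNReal.ofReal a⁻¹ ^ (2 : ℝ) :=
      ENNReal.rpow_le_rpow_of_exponent_le (ENNReal.one_le_ofReal.mpr h1) hp2
    rwa [ENNReal.rpow_two, sq] at this
  calc _ ≤ ENNReal.ofReal a * (ENNReal.ofReal a⁻¹ * ENNReal.ofReal a⁻¹ * Φ f) :=
        mul_le_mul_right (h2.trans (mul_le_mul_left h3 _)) _
    _ = _ := by
        rw [← mul_assoc, ← mul_assoc, ← ENNReal.ofReal_mul ha0.le, mul_inv_cancel₀ ha0.ne',
          ENNReal.ofReal_one, one_mul]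

theorem ghk3_cancel {a : ℝ} (ha0 : 0 < a) (u : ℝ≥0∞) :
    ENNReal.ofReal a * (ENNReal.ofReal a⁻¹ * u) = u := by
  rw [← mul_assoc, ← ENNReal.ofReal_mul ha0.le, mul_inv_cancel₀ ha0.ne', ENNReal.ofReal_one,
    one_mul]

theorem ghk3_add_le {p η : ℝ} {Φ : Prof d → ℝ≥0∞} (h : Fn p Φ) (hp2 : p ≤ 2)
    (hη : 0 < η) (hη2 : η ≤ 1 / 2) (f g : Prof d) :
    Φ (f + g) ≤ ENNReal.ofReal (1 + 2 * η) * Φ f + ENNReal.ofReal η⁻¹ * Φ g := by
  have h1 := ghk3_two h hη.le (by linarith) (sca (ENNReal.ofReal (1 - η)⁻¹) f)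
    (sca (ENNReal.ofReal η⁻¹) g)
  have e : (fun x => ENNReal.ofReal (1 - η) * sca (ENNReal.ofReal (1 - η)⁻¹) f x +
      ENNReal.ofReal η * sca (ENNReal.ofReal η⁻¹) g x) = f + g := by
    funext x
    simp only [sca, Pi.add_apply]
    rw [ghk3_cancel (by linarith), ghk3_cancel hη]
  rw [e] at h1
  refine h1.trans (add_le_add ((ghk3_scale h hp2 (by linarith) (by linarith) f).trans
    (mul_le_mul_left (ENNReal.ofReal_le_ofReal ?_) _)) (ghk3_scale h hp2 hη (by linarith) g))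
  rw [inv_le_iff_one_le_mul₀ (by linarith)]
  nlinarith

theorem ghk3_mixture {p : ℝ} {Φ : Prof d → ℝ≥0∞} (h : Fn p Φ) (w : Site d → ℝ≥0∞)
    (hw : ∑' u, w u = 1) (f : Prof d) : Φ (fun x => ∑' u, w u * f (x - u)) ≤ Φ f := by
  have := h.conv (Site d) w (fun u => sh u f) hw
  simp only [h.shift, ENNReal.tsum_mul_right, hw, one_mul] at this
  exact this

theorem ghk3_avg_le {p : ℝ} {Φ : Prof d → ℝ≥0∞} (h : Fn p Φ) (m : ℕ) {ν : Prof d}
    (hν : mass ν ≠ ⊤) : Φ (avg^[m] ν) ≤ Φ (sca (mass ν) (phi d m)) := by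
  by_cases h0 : mass ν = 0
  · refine h.mono _ _ fun x => ?_
    have : ∀ y, ν y = 0 := fun y => le_antisymm (h0 ▸ le_mass ν y) zero_le
    simp [avg_iter_eq_phi, this]
  have := ghk3_mixture h (fun y => ν y * (mass ν)⁻¹) (by
    rw [ENNReal.tsum_mul_right]
    exact ENNReal.mul_inv_cancel h0 hν) (sca (mass ν) (phi d m))
  refine le_trans (le_of_eq ?_) this
  congr 1
  funext x
  rw [avg_iter_eq_phi]
  refine tsum_congr fun y => ?_
  rw [sca, mul_assoc, ← mul_assoc _ (mass ν), ENNReal.inv_mul_cancel h0 hν, one_mul]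

theorem ghk3_cmp (hd : 1 ≤ d) : ∃ C : ℝ, 1 ≤ C ∧ ∀ (η : ℝ) (R m : ℕ), 0 < η → η ≤ 1 / 2 →
    C * (R + 1) ^ 2 ≤ η ^ 4 * m → ∀ (p : ℝ) (Φ : Prof d → ℝ≥0∞), 1 ≤ p → p ≤ 2 → Fn p Φ →
      ∀ (ν : Prof d) (x₀ : Site d), Nice ν → (∀ x, ν x ≠ 0 → x - x₀ ∈ box d R) →
        Φ (sca (mass ν) (phi d m)) ≠ ⊤ →
        ENNReal.ofReal (1 - 2 * η) * Φ (sca (mass ν) (phi d m)) ≤ Φ (avg^[m] ν) := by
  obtain ⟨C, hC, h⟩ := ghk3_mix hd
  refine ⟨4 * C, by linarith, fun η R m hη hη2 hm p Φ _ hp2 hΦ ν x₀ hν hbox hfin => ?_⟩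
  obtain ⟨w, hw, hmix⟩ := h η (2 * R) m hη (by linarith) (le_trans (by
    push_cast
    have : (0 : ℝ) ≤ R := by positivity
    nlinarith) hm)
  by_cases h0 : ∀ x, ν x = 0
  · have : sca (mass ν) (phi d m) = 0 := by
      funext x
      simp [sca, mass, h0]
    rw [this, hΦ.zero, mul_zero]
    exact zero_le
  push Not at h0
  obtain ⟨x₁, hx₁⟩ := h0
  obtain ⟨b, hb⟩ := hν.2.2
  set ψ := sca (mass ν) (phi d m) with hψ
  set A := Φ ψ with hA
  have hpt : sh x₁ ψ ≤ fun z => ENNReal.ofReal (1 - η) *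
      sca (ENNReal.ofReal (1 - η)⁻¹) (avg^[m] ν) z +
        ENNReal.ofReal η * ∑' u, w u * sh x₁ ψ (z - u) := by
    intro z
    have e1 : ∑' u, w u * sh x₁ ψ (z - u) = mass ν * ∑' u, w u * phi d m (z - x₁ - u) := by
      rw [← ENNReal.tsum_mul_left]
      refine tsum_congr fun u => ?_
      simp only [sh, hψ, sca, sub_right_comm z u x₁]
      ring
    simp only
    rw [e1, sca, ghk3_cancel (by linarith), avg_iter_eq_phi]
    simp only [sh, hψ, sca]
    rw [mul_left_comm, mass, ← ENNReal.tsum_mul_right, ← ENNReal.tsum_mul_right,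
      ← ENNReal.tsum_add]
    refine ENNReal.tsum_le_tsum fun x => ?_
    by_cases hx : ν x = 0
    · simp [hx]
    rw [← mul_add]
    refine mul_le_mul_right ?_ _
    have := hmix (x - x₁) (heat_mem_box.mpr fun i => by
      have h1 := heat_mem_box.mp (hbox x hx) i
      have h2 := heat_mem_box.mp (hbox x₁ hx₁) i
      simp only [Pi.sub_apply] at h1 h2 ⊢
      push_cast
      omega) (by rw [par_sub, hb x hx, hb x₁ hx₁, sub_self]) (z - x₁)
    rwa [sub_sub_sub_cancel_right] at this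
  have h1 : A ≤ ENNReal.ofReal (1 - η)⁻¹ * Φ (avg^[m] ν) + ENNReal.ofReal η * A := by
    calc A = Φ (sh x₁ ψ) := (hΦ.shift _ _).symm
      _ ≤ _ := hΦ.mono _ _ hpt
      _ ≤ _ := ghk3_two hΦ hη.le (by linarith) _ _
      _ ≤ _ := add_le_add (ghk3_scale hΦ hp2 (by linarith) (by linarith) _)
          (mul_le_mul_right ((ghk3_mixture hΦ w hw _).trans_eq (hΦ.shift _ _)) _)
  have h2 : ENNReal.ofReal (1 - η) * A ≤ ENNReal.ofReal (1 - η)⁻¹ * Φ (avg^[m] ν) := by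
    have e : A = ENNReal.ofReal (1 - η) * A + ENNReal.ofReal η * A := by
      rw [← add_mul, ← ENNReal.ofReal_add (by linarith) hη.le]
      simp
    rw [← ENNReal.add_le_add_iff_right (ENNReal.mul_ne_top ENNReal.ofReal_ne_top hfin :
      ENNReal.ofReal η * A ≠ ⊤), ← e]
    exact h1
  calc ENNReal.ofReal (1 - 2 * η) * A ≤ ENNReal.ofReal ((1 - η) * (1 - η)) * A :=
        mul_le_mul_left (ENNReal.ofReal_le_ofReal (by nlinarith)) _
    _ = ENNReal.ofReal (1 - η) * (ENNReal.ofReal (1 - η) * A) := by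
        rw [ENNReal.ofReal_mul (by linarith), mul_assoc]
    _ ≤ ENNReal.ofReal (1 - η) * (ENNReal.ofReal (1 - η)⁻¹ * Φ (avg^[m] ν)) :=
        mul_le_mul_right h2 _
    _ = _ := ghk3_cancel (by linarith) _

end Pool.Agent.Lib.MP_153faa_pr
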