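import Mathlib
import Pool.Agent.Lib.MP_153faa_pr.GHK3a

set_option autoImplicit false

open MeasureTheory Filter Topology
open scoped ENNReal NNReal

namespace Pool.Agent.Lib.MP_153faa_pr

variable {d : ℕ}

/-- The lattice of mesh `2 h` shifted by `e`. -/
def ghk3L (h : ℕ) (e a : Site d) : Site d := fun i => 2 * h * a i + e i

theorem ghk3L_inj {h : ℕ} (hh : 1 ≤ h) (e : Site d) : Function.Injective (ghk3L h e) := by
  intro a a' H
  funext i
  have := congrFun H i
  simp only [ghk3L, add_left_inj] at this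
  exact mul_left_cancel₀ (by omega) this

theorem ghk3L_par (h : ℕ) (e a : Site d) : par (ghk3L h e a) = par e := by
  unfold par ghk3L
  refine Finset.sum_congr rfl fun i _ => ?_
  push_cast
  have : (2 : ZMod 2) = 0 := rfl
  rw [this, zero_mul, zero_mul, zero_add]

theorem ghk3_shift (hd : 1 ≤ d) (b : ZMod 2) :
    ∃ e : Site d, (∀ i, 0 ≤ e i ∧ e i ≤ 1) ∧ par e = b := by
  have hb : b = 0 ∨ b = 1 := by revert b; decide
  rcases hb with rfl | rfl
  · exact ⟨0, by simp, ghk3_par_zero⟩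
  · refine ⟨Pi.single ⟨0, hd⟩ 1, fun i => ?_, par_single _⟩
    rw [Pi.single_apply]
    split_ifs <;> simp

theorem ghk3_lat1 {s l : ℝ} (hs : 0 < s) (hl : s ≤ l) (t : ℝ) (S : Finset ℤ) :
    ∑ k ∈ S, Real.exp (-(|t - l * k| / s)) ≤ 4 * Real.exp 1 := by
  have hl0 : 0 < l := by linarith
  have h := ghk3_geo one_pos S ⌊t / l⌋
  calc _ ≤ ∑ k ∈ S, Real.exp 1 * Real.exp (-(1 * |(k : ℝ) - ⌊t / l⌋|)) := by
        refine Finset.sum_le_sum fun k _ => ?_
        rw [← Real.exp_add, Real.exp_le_exp]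
        have h1 : |t - l * k| / l ≤ |t - l * k| / s :=
          div_le_div_of_nonneg_left (abs_nonneg _) hs hl
        have h2 : |t - l * k| / l = |t / l - k| := by
          rw [← abs_of_pos hl0, ← abs_div, abs_of_pos hl0]
          congr 1
          field_simp
        have h3 := Int.floor_le (t / l)
        have h4 := Int.lt_floor_add_one (t / l)
        have h5 : |(k : ℝ) - ⌊t / l⌋| ≤ |t / l - k| + 1 := by
          rw [abs_le]
          constructor
          · linarith [le_abs_self (t / l - k)]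
          · linarith [neg_abs_le (t / l - k)]
        linarith
    _ ≤ Real.exp 1 * (2 * (1 + 1 / 1)) := by
        rw [← Finset.mul_sum]
        exact mul_le_mul_of_nonneg_left h (Real.exp_pos _).le
    _ = _ := by ring

theorem ghk3_lat {s : ℝ} (hs : 0 < s) {h : ℕ} (hl : s ≤ 2 * h) (e y : Site d) (K : ℕ) :
    ∑ a ∈ box d K, ghk3E s (y - ghk3L h e a) ≤ (4 * Real.exp 1) ^ d := by
  have e1 : ∀ a : Site d, ghk3E s (y - ghk3L h e a) =
      ∏ i, Real.exp (-(|((y i : ℝ) - e i) - 2 * h * (a i : ℝ)| / s)) := by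
    intro a
    refine Finset.prod_congr rfl fun i _ => ?_
    simp only [Pi.sub_apply, ghk3L]
    push_cast
    congr 4
    ring
  simp only [e1]
  unfold box
  rw [← Finset.prod_univ_sum (fun _ : Fin d => Finset.Icc (-(K : ℤ)) K)
    (fun i k => Real.exp (-(|((y i : ℝ) - e i) - 2 * h * (k : ℝ)| / s)))]
  calc _ ≤ ∏ _i : Fin d, 4 * Real.exp 1 :=
        Finset.prod_le_prod (fun _ _ => Finset.sum_nonneg fun _ _ => (Real.exp_pos _).le)
          fun i _ => ghk3_lat1 hs hl _ _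
    _ = _ := by rw [Finset.prod_const, Finset.card_univ, Fintype.card_fin]

theorem ghk3_pack (hd : 1 ≤ d) : ∃ C : ℝ, 1 ≤ C ∧ ∀ (m₀ m R : ℕ), 1 ≤ m₀ →
    C * ((R : ℝ) ^ 2 + m₀) ≤ m → ∃ V : Finset (Site d),
      C⁻¹ * ((m : ℝ) / m₀) ^ ((d : ℝ) / 2) ≤ V.card ∧
      ∀ y, ∑ v ∈ V, ENNReal.ofReal (C⁻¹ * ((m₀ : ℝ) / m) ^ ((d : ℝ) / 2)) *
        sh v (cut (box d R) (phi d m₀)) y ≤ phi d m y := by
  classical
  obtain ⟨Cl, hCl, hl⟩ := hk_low hd
  obtain ⟨Cg, hCg, hg⟩ := ghk3_gauss hd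
  obtain ⟨C, c1, c2, c3⟩ : ∃ C : ℝ, (8 * Cl) ^ d ≤ C ∧ 4 * Cl ^ 2 ≤ C ∧
      Cl * Cg * (4 * Real.exp 1) ^ d ≤ C := by
    have a1 : 0 ≤ (8 * Cl) ^ d := by positivity
    have a2 : 0 ≤ 4 * Cl ^ 2 := by positivity
    have a3 : 0 ≤ Cl * Cg * (4 * Real.exp 1) ^ d := by positivity
    exact ⟨(8 * Cl) ^ d + 4 * Cl ^ 2 + Cl * Cg * (4 * Real.exp 1) ^ d, by linarith, by linarith,
      by linarith⟩
  have c4 : Cl ≤ C := by nlinarith
  refine ⟨C, by linarith, fun m₀ m R hm₀ hm => ?_⟩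
  have hm₀' : (1 : ℝ) ≤ m₀ := by exact_mod_cast hm₀
  have hR0 : (0 : ℝ) ≤ R := by positivity
  have hCm : C ≤ m := by nlinarith [sq_nonneg (R : ℝ)]
  have hm' : (1 : ℝ) ≤ m := by linarith
  have hm1 : 1 ≤ m := by exact_mod_cast hm'
  have hs₀ : 1 ≤ √(m₀ : ℝ) := Real.one_le_sqrt.mpr hm₀'
  have hs : 1 ≤ √(m : ℝ) := Real.one_le_sqrt.mpr hm'
  obtain ⟨h, hh1, hh2, hh3⟩ : ∃ h : ℕ, 1 ≤ h ∧ √(m₀ : ℝ) ≤ h ∧ h ≤ 2 * √(m₀ : ℝ) := by
    refine ⟨m₀.sqrt + 1, by omega, ?_, ?_⟩
    · push_cast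
      exact Real.real_sqrt_le_nat_sqrt_succ
    · push_cast
      linarith [(Real.nat_sqrt_le_real_sqrt : (m₀.sqrt : ℝ) ≤ √m₀)]
  have hh0 : (0 : ℝ) < h := by linarith
  obtain ⟨e, he, hpe⟩ := ghk3_shift hd ((m : ZMod 2) - m₀)
  set K : ℕ := ⌊√(m : ℝ) / (4 * Cl * h)⌋₊ with hK
  have hK1 : (K : ℝ) ≤ √(m : ℝ) / (4 * Cl * h) := Nat.floor_le (by positivity)
  have hK2 : √(m : ℝ) / (4 * Cl * h) < K + 1 := Nat.lt_floor_add_one _
  refine ⟨(box d K).image (ghk3L h e), ?_, fun y => ?_⟩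
  · rw [Finset.card_image_of_injective _ (ghk3L_inj hh1 e), card_box,
      ← ghk3_sqrt_pow _ (by positivity), Real.sqrt_div (by positivity),
      inv_mul_le_iff₀ (by linarith)]
    push_cast
    refine le_trans ?_ (mul_le_mul_of_nonneg_right c1 (by positivity))
    rw [← mul_pow]
    refine pow_le_pow_left₀ (by positivity) ?_ d
    rw [div_lt_iff₀ (by positivity)] at hK2
    rw [div_le_iff₀ (by positivity)]
    have hK0 : (0 : ℝ) ≤ K := by positivity
    have : ((K : ℝ) + 1) * (4 * Cl * h) ≤ (2 * K + 1) * (4 * Cl * (2 * √(m₀ : ℝ))) := by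
      gcongr
      linarith
    linarith
  rw [Finset.sum_image fun a _ a' _ H => ghk3L_inj hh1 e H]
  by_cases h0 : ∀ a ∈ box d K, sh (ghk3L h e a) (cut (box d R) (phi d m₀)) y = 0
  · rw [Finset.sum_eq_zero fun a ha => by rw [h0 a ha, mul_zero]]
    exact zero_le
  push Not at h0
  obtain ⟨a₀, ha₀, hy⟩ := h0
  simp only [sh, cut] at hy
  have hyb : y - ghk3L h e a₀ ∈ box d R := by
    by_contra hn
    exact hy (if_neg hn)
  rw [if_pos hyb] at hy
  have hyp : par y = (m : ZMod 2) := by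
    have := phi_par m₀ hy
    rw [par_sub, ghk3L_par, hpe] at this
    linear_combination this
  have hlow := hl m (R + 2 * h * K) y hm1 (by
    push_cast
    have a1 : 2 * Cl * R ≤ √(m : ℝ) := by
      refine Real.le_sqrt_of_sq_le ?_
      nlinarith [sq_nonneg (R : ℝ)]
    rw [le_div_iff₀ (by positivity)] at hK1
    nlinarith) (heat_mem_box.mpr fun i => by
      have h1 := heat_mem_box.mp hyb i
      have h2 := heat_mem_box.mp ha₀ i
      have h3 := he i
      simp only [Pi.sub_apply, ghk3L] at h1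
      have h4 : 2 * (h : ℤ) * a₀ i ≤ 2 * h * K := mul_le_mul_of_nonneg_left h2.2 (by positivity)
      have h5 : 2 * (h : ℤ) * -K ≤ 2 * h * a₀ i := mul_le_mul_of_nonneg_left h2.1 (by positivity)
      push_cast
      constructor <;> linarith [h1.1, h1.2, h3.1, h3.2]) hyp (by linarith)
  set κ : ℝ := C⁻¹ * ((m₀ : ℝ) / m) ^ ((d : ℝ) / 2) with hκ
  have hC0 : 0 < C := by linarith
  have hκ0 : 0 < κ := by positivity
  set μ₀ : ℝ := (m₀ : ℝ) ^ (-(d : ℝ) / 2) with hμ₀
  have hμ₀0 : 0 < μ₀ := by positivity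
  calc _ ≤ ∑ a ∈ box d K, ENNReal.ofReal (κ * (Cg * μ₀) * ghk3E (√m₀) (y - ghk3L h e a)) := by
        refine Finset.sum_le_sum fun a _ => ?_
        rw [mul_assoc, ENNReal.ofReal_mul hκ0.le]
        refine mul_le_mul_right ?_ _
        have a1 : sh (ghk3L h e a) (cut (box d R) (phi d m₀)) y ≤ phi d m₀ (y - ghk3L h e a) := by
          simp only [sh, cut]
          split_ifs
          exacts [le_rfl, zero_le]
        refine a1.trans ?_
        rw [← ofReal_ph hd]
        refine ENNReal.ofReal_le_ofReal ((hg m₀ _ hm₀).trans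
          (mul_le_mul_of_nonneg_left ?_ (by positivity)))
        have a2 := ghk3E_pos (√m₀) (y - ghk3L h e a)
        have a3 := ghk3E_le_one (s := √m₀) (by linarith) (y - ghk3L h e a)
        nlinarith
    _ = ENNReal.ofReal (κ * (Cg * μ₀) * ∑ a ∈ box d K, ghk3E (√m₀) (y - ghk3L h e a)) := by
        rw [Finset.mul_sum, ENNReal.ofReal_sum_of_nonneg fun a _ =>
          (mul_pos (by positivity) (ghk3E_pos _ _)).le]
    _ ≤ ENNReal.ofReal (ph d m y) := by
        refine ENNReal.ofReal_le_ofReal (le_trans ?_ hlow)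
        refine (mul_le_mul_of_nonneg_left (ghk3_lat (by linarith) (by linarith) e y K)
          (by positivity)).trans ?_
        have a1 : ((m₀ : ℝ) / m) ^ ((d : ℝ) / 2) * μ₀ = (m : ℝ) ^ (-(d : ℝ) / 2) := by
          rw [Real.div_rpow (by positivity) (by positivity), div_mul_eq_mul_div, hμ₀,
            ghk3_pow_mul _ (by linarith), neg_div, Real.rpow_neg (by positivity), one_div]
        have a2 : C⁻¹ * (Cg * (4 * Real.exp 1) ^ d) ≤ Cl⁻¹ := by
          rw [inv_mul_le_iff₀ hC0, ← div_eq_mul_inv, le_div_iff₀ (by linarith)]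
          linarith
        calc _ = C⁻¹ * (Cg * (4 * Real.exp 1) ^ d) * (((m₀ : ℝ) / m) ^ ((d : ℝ) / 2) * μ₀) := by
              rw [hκ]; ring
          _ ≤ _ := by
              rw [a1]
              exact mul_le_mul_of_nonneg_right a2 (by positivity)
    _ = _ := ofReal_ph hd m y

theorem ghk3_cover {h K R : ℕ} (hh : 1 ≤ h) (hK : R < 2 * h * K) {e y : Site d}
    (he : ∀ i, 0 ≤ e i ∧ e i ≤ 1) (hy : y ∈ box d R) :
    ∃ a ∈ box d K, y - ghk3L h e a ∈ box d h := by
  have hh' : (0 : ℤ) < 2 * h := by omega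
  have hK' : (R : ℤ) < 2 * h * K := by exact_mod_cast hK
  have key : ∀ i, 0 ≤ y i - e i + h - 2 * h * ((y i - e i + h) / (2 * h)) ∧
      y i - e i + h - 2 * h * ((y i - e i + h) / (2 * h)) < 2 * h := fun i => by
    rw [← Int.emod_def]
    exact ⟨Int.emod_nonneg _ hh'.ne', Int.emod_lt_of_pos _ hh'⟩
  refine ⟨fun i => (y i - e i + h) / (2 * h), heat_mem_box.mpr fun i => ?_,
    heat_mem_box.mpr fun i => ?_⟩
  · have h1 := key i
    have h2 := heat_mem_box.mp hy i
    have h3 := he i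
    set q := (y i - e i + h) / (2 * h)
    constructor
    · have : 2 * (h : ℤ) * (-K - 1) < 2 * h * q := by
        have : (1 : ℤ) ≤ h := by exact_mod_cast hh
        linarith [h1.2, h2.1, h3.2]
      have := lt_of_mul_lt_mul_left this hh'.le
      omega
    · have : 2 * (h : ℤ) * q < 2 * h * (K + 1) := by linarith [h1.1, h2.2, h3.1]
      have := lt_of_mul_lt_mul_left this hh'.le
      omega
  · have h1 := key i
    simp only [Pi.sub_apply, ghk3L]
    constructor <;> linarith [h1.1, h1.2]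

theorem ghk3_sep {h : ℕ} {e a a' : Site d} (hne : a ≠ a') {R : ℕ} (hR : R < 2 * h) :
    ghk3L h e a - ghk3L h e a' ∉ box d R := by
  intro hb
  apply hne
  funext i
  have h1 := heat_mem_box.mp hb i
  simp only [Pi.sub_apply, ghk3L] at h1
  have hR' : (R : ℤ) < 2 * h := by exact_mod_cast hR
  have hh : (0 : ℤ) ≤ 2 * h := by positivity
  have h2 : 2 * (h : ℤ) * (a i - a' i) < 2 * h * 1 := by linarith [h1.2]
  have h3 : 2 * (h : ℤ) * (-1) < 2 * h * (a i - a' i) := by linarith [h1.1]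
  have := lt_of_mul_lt_mul_left h2 hh
  have := lt_of_mul_lt_mul_left h3 hh
  omega

theorem ghk3_sub_mem {R R' : ℕ} {x y : Site d} (hx : x ∈ box d R) (hy : y ∈ box d R)
    (h : 2 * R ≤ R') : x - y ∈ box d R' := heat_mem_box.mpr fun i => by
  have h1 := heat_mem_box.mp hx i
  have h2 := heat_mem_box.mp hy i
  simp only [Pi.sub_apply]
  omega

theorem ghk3_buffer (r b : ℕ) : ((2 * (r + b + 1) + 1 : ℝ)) ^ d - (2 * r + 1 : ℝ) ^ d ≤
    (2 * (r + b + 1) + 1 : ℝ) ^ d * (d * ((2 * b + 2) / (2 * (r + b + 1) + 1))) := by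
  set L : ℝ := 2 * (r + b + 1) + 1 with hL
  have hL0 : 0 < L := by positivity
  have h1 : (2 * r + 1 : ℝ) = L * (1 + -((2 * b + 2) / L)) := by
    field_simp
    rw [hL]
    ring
  have h2 : (2 * b + 2 : ℝ) / L ≤ 1 := by
    rw [div_le_one hL0, hL]
    have : (0 : ℝ) ≤ r := by positivity
    linarith
  have h3 := one_add_mul_le_pow (a := -((2 * b + 2 : ℝ) / L)) (by linarith) d
  rw [h1, mul_pow]
  have h4 := mul_le_mul_of_nonneg_left h3 (pow_pos hL0 d).le
  linarith

theorem ghk3_tile (hd : 1 ≤ d) : ∃ C : ℝ, 1 ≤ C ∧ ∀ (m r b R : ℕ), 1 ≤ m → 1 ≤ r → 1 ≤ R →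
    ∃ (V : Finset (Site d)) (c : Site d → ℝ≥0∞) (g : Prof d),
      (∀ v ∈ V, ∀ v' ∈ V, v ≠ v' → v - v' ∉ box d (2 * (r + b))) ∧
      (∀ v ∈ V, par v = (m : ZMod 2)) ∧
      (∀ y, phi d m y = ∑ v ∈ V, c v * sh v (cube d r) y + g y) ∧
      mass g ≤ ENNReal.ofReal (C * (R : ℝ) ^ d * ((b + 1) / r + (r + b) / √m) +
        C * Real.exp (-((R : ℝ) ^ 2 / C))) := by
  classical
  obtain ⟨Cr, hCr, hr⟩ := hk_reg hd
  obtain ⟨Cs, hCs, hsup⟩ := hk_sup hd
  have hd' : (1 : ℝ) ≤ d := by exact_mod_cast hd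
  obtain ⟨C, c1, c2, c3⟩ : ∃ C : ℝ, 23 ^ d * (2 * Cr) ≤ C ∧ 23 ^ d * (d * Cs) ≤ C ∧
      2 * d ≤ C := by
    have a1 : 0 ≤ 23 ^ d * (2 * Cr) := by positivity
    have a2 : 0 ≤ 23 ^ d * (d * Cs) := by positivity
    exact ⟨23 ^ d * (2 * Cr) + 23 ^ d * (d * Cs) + 2 * d, by linarith, by linarith, by linarith⟩
  refine ⟨C, by linarith, fun m r b R hm hr1 hR => ?_⟩
  have hm' : (1 : ℝ) ≤ m := by exact_mod_cast hm
  have hr' : (1 : ℝ) ≤ r := by exact_mod_cast hr1
  have hR' : (1 : ℝ) ≤ R := by exact_mod_cast hR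
  have hb' : (0 : ℝ) ≤ b := by positivity
  have hs : 1 ≤ √(m : ℝ) := Real.one_le_sqrt.mpr hm'
  have hRd : (1 : ℝ) ≤ (R : ℝ) ^ d := one_le_pow₀ hR'
  have hC0 : 0 < C := by linarith
  by_cases hbig : √(m : ℝ) ≤ r + b
  · refine ⟨∅, 0, phi d m, by simp, by simp, by simp, ?_⟩
    rw [mass_phi hd, ENNReal.one_le_ofReal]
    have a1 : 1 ≤ ((r : ℝ) + b) / √(m : ℝ) := (one_le_div (by linarith)).mpr hbig
    have a2 : 0 ≤ ((b : ℝ) + 1) / r := by positivity
    have a3 : 0 ≤ C * Real.exp (-((R : ℝ) ^ 2 / C)) := by positivity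
    have a4 : 1 * 1 * 1 ≤ C * (R : ℝ) ^ d * ((b + 1) / r + (r + b) / √m) := by
      gcongr <;> linarith
    linarith
  push Not at hbig
  obtain ⟨e, he, hpe⟩ := ghk3_shift hd (m : ZMod 2)
  set h := r + b + 1 with hh
  have hh1 : 1 ≤ h := by omega
  obtain ⟨Q, hQ1, hQ2⟩ : ∃ Q : ℕ, R * √(m : ℝ) ≤ Q ∧ Q ≤ 2 * (R * √(m : ℝ)) := by
    refine ⟨⌈R * √(m : ℝ)⌉₊, Nat.le_ceil _, ?_⟩
    have := Nat.ceil_lt_add_one (show 0 ≤ R * √(m : ℝ) by positivity)
    nlinarith
  obtain ⟨K, hK1, hK2⟩ : ∃ K : ℕ, Q < 2 * h * K ∧ 2 * h * K ≤ Q + 2 * h := by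
    refine ⟨Q / (2 * h) + 1, Nat.lt_mul_div_succ Q (by omega), ?_⟩
    rw [mul_add, mul_one]
    exact Nat.add_le_add_right (Nat.mul_div_le _ _) _
  set V := (box d K).image (ghk3L h e) with hV
  have hsep : ∀ v ∈ V, ∀ v' ∈ V, v ≠ v' → v - v' ∉ box d (2 * (r + b)) := by
    intro v hv v' hv' hne
    obtain ⟨a, -, rfl⟩ := Finset.mem_image.mp hv
    obtain ⟨a', -, rfl⟩ := Finset.mem_image.mp hv'
    exact ghk3_sep (fun H => hne (by rw [H])) (by omega)
  have hpar : ∀ v ∈ V, par v = (m : ZMod 2) := by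
    intro v hv
    obtain ⟨a, -, rfl⟩ := Finset.mem_image.mp hv
    rw [ghk3L_par, hpe]
  have hmin : ∀ v : Site d, ∃ z ∈ (box d r).filter fun z => par z = 0,
      ∀ z' ∈ (box d r).filter fun z => par z = 0, phi d m (v + z) ≤ phi d m (v + z') := fun v =>
    Finset.exists_min_image _ (fun z => phi d m (v + z))
      ⟨0, Finset.mem_filter.mpr ⟨heat_mem_box.mpr fun i => by simp, ghk3_par_zero⟩⟩
  choose z hz hzmin using hmin
  set S : Prof d := fun y => ∑ v ∈ V, phi d m (v + z v) * sh v (cube d r) y with hS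
  have hSle : ∀ y, S y ≤ phi d m y := by
    intro y
    by_cases h0 : ∃ v ∈ V, y - v ∈ box d r ∧ par (y - v) = 0
    · obtain ⟨v, hv, hy⟩ := h0
      have : S y = phi d m (v + z v) * sh v (cube d r) y := by
        refine Finset.sum_eq_single_of_mem v hv fun v' hv' hne => ?_
        have : ¬(y - v' ∈ box d r ∧ par (y - v') = 0) := fun H => hsep v' hv' v hv hne (by
          have := ghk3_sub_mem hy.1 H.1 (show 2 * r ≤ 2 * (r + b) by omega)
          rwa [sub_sub_sub_cancel_left] at this)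
        simp only [sh, cube, if_neg this, mul_zero]
      rw [this]
      simp only [sh, cube, if_pos hy, mul_one]
      have := hzmin v (y - v) (Finset.mem_filter.mpr hy)
      rwa [add_sub_cancel] at this
    · have : S y = 0 := Finset.sum_eq_zero fun v hv => by
        have : ¬(y - v ∈ box d r ∧ par (y - v) = 0) := fun H => h0 ⟨v, hv, H⟩
        simp only [sh, cube, if_neg this, mul_zero]
      rw [this]
      exact zero_le
  refine ⟨V, fun v => phi d m (v + z v), fun y => phi d m y - S y, hsep, hpar,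
    fun y => (add_tsub_cancel_of_le (hSle y)).symm, ?_⟩
  set μ : ℝ := (m : ℝ) ^ (-(d : ℝ) / 2) with hμ
  have hμ0 : 0 < μ := by positivity
  set A : ℝ := Cr * (2 * r / √(m : ℝ)) * μ with hA
  set B : ℝ := Cs * μ with hB
  have hA0 : 0 ≤ A := by positivity
  have hB0 : 0 ≤ B := by positivity
  set G : Prof d := fun x => if x ∈ box d h then
    (if x ∈ box d r then ENNReal.ofReal A else ENNReal.ofReal B) else 0 with hG
  have hpt : (fun y => phi d m y - S y) ≤
      (fun x => if x ∈ box d Q then 0 else phi d m x) + fun y => ∑ v ∈ V, sh v G y := by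
    intro y
    simp only [Pi.add_apply]
    by_cases hy : y ∈ box d Q
    swap
    · rw [if_neg hy]
      exact tsub_le_self.trans le_self_add
    obtain ⟨a, ha, hya⟩ := ghk3_cover hh1 hK1 he hy
    have hv : ghk3L h e a ∈ V := Finset.mem_image_of_mem _ ha
    set v := ghk3L h e a
    refine le_trans ?_ (le_add_left (Finset.single_le_sum (f := fun v => sh v G y)
      (fun _ _ => zero_le) hv))
    simp only [sh, hG, if_pos hya]
    split_ifs with hyr
    swap
    · refine tsub_le_self.trans ?_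
      rw [← ofReal_ph hd]
      exact ENNReal.ofReal_le_ofReal (hsup m y hm)
    by_cases hy0 : phi d m y = 0
    · rw [hy0, zero_tsub]
      exact zero_le
    have hp : par (y - v) = 0 := by rw [par_sub, phi_par m hy0, hpar v hv, sub_self]
    have h1 : phi d m (v + z v) ≤ S y := by
      refine le_trans (le_of_eq ?_) (Finset.single_le_sum
        (f := fun v => phi d m (v + z v) * sh v (cube d r) y) (fun _ _ => zero_le) hv)
      simp only [sh, cube, if_pos (And.intro hyr hp), mul_one]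
    refine (tsub_le_tsub_left h1 _).trans ?_
    have h3 : 0 ≤ ph d m (v + z v) := ENNReal.toReal_nonneg
    rw [← ofReal_ph hd, ← ofReal_ph hd, ← ENNReal.ofReal_sub _ h3]
    refine ENNReal.ofReal_le_ofReal ((le_abs_self _).trans ?_)
    have hzv := Finset.mem_filter.mp (hz v)
    have h2 := hr m 0 (2 * r) y (z v - (y - v)) hm (ghk3_sub_mem hzv.1 hyr le_rfl)
      (by rw [par_sub, hzv.2, hp, sub_self])
    have e1 : y + (z v - (y - v)) = v + z v := by abel
    simp only [mul_zero, add_zero, Nat.cast_zero, zero_div, zero_add, e1] at h2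
    push_cast at h2
    exact h2
  have hsub : box d r ⊆ box d h := fun x hx => heat_mem_box.mpr fun i => by
    have := heat_mem_box.mp hx i
    omega
  set L : ℝ := 2 * (r + b + 1) + 1 with hL
  have hL0 : 0 < L := by positivity
  have hmG : mass G ≤ ENNReal.ofReal (L ^ d * (A + d * ((b + 1) / r) * B)) := by
    have e1 : mass G = ENNReal.ofReal ((L ^ d - (2 * r + 1) ^ d) * B + (2 * r + 1) ^ d * A) := by
      have hle : (2 * r + 1) ^ d ≤ (2 * h + 1) ^ d := Nat.pow_le_pow_left (by omega) d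
      have hc : (((2 * h + 1) ^ d - (2 * r + 1) ^ d : ℕ) : ℝ) = L ^ d - (2 * r + 1) ^ d := by
        rw [Nat.cast_sub hle, hL, hh]
        push_cast
        ring
      rw [mass, tsum_eq_sum (s := box d h) fun x hx => if_neg hx,
        Finset.sum_congr rfl fun x hx => if_pos hx, ← Finset.sum_sdiff hsub,
        Finset.sum_congr rfl fun x hx => if_neg (Finset.mem_sdiff.mp hx).2,
        Finset.sum_congr rfl fun x hx => if_pos hx, Finset.sum_const, Finset.sum_const,
        Finset.card_sdiff_of_subset hsub, card_box, card_box, nsmul_eq_mul, nsmul_eq_mul,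
        ← ENNReal.ofReal_natCast, ← ENNReal.ofReal_natCast, ← ENNReal.ofReal_mul (by positivity),
        ← ENNReal.ofReal_mul (by positivity), ← ENNReal.ofReal_add (by positivity) (by positivity),
        hc]
      push_cast
      rfl
    rw [e1]
    refine ENNReal.ofReal_le_ofReal ?_
    have a1 := ghk3_buffer (d := d) r b
    rw [← hL] at a1
    have a2 : (2 * b + 2 : ℝ) / L ≤ (b + 1) / r := by
      rw [div_le_div_iff₀ hL0 (by linarith), hL]
      nlinarith
    have a3 : (2 * r + 1 : ℝ) ^ d ≤ L ^ d := pow_le_pow_left₀ (by positivity) (by linarith) d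
    have a4 : L ^ d * (d * ((2 * b + 2) / L)) ≤ L ^ d * (d * ((b + 1) / r)) := by gcongr
    have a5 := mul_le_mul_of_nonneg_right (a1.trans a4) hB0
    have a6 := mul_le_mul_of_nonneg_right a3 hA0
    linarith
  refine (mass_mono hpt).trans ?_
  have e2 : mass (fun y => ∑ v ∈ V, sh v G y) = V.card * mass G := by
    rw [mass, Summable.tsum_finsetSum fun _ _ => ENNReal.summable, ← nsmul_eq_mul,
      ← Finset.sum_const]
    exact Finset.sum_congr rfl fun v _ => mass_sh v G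
  rw [mass_add, e2, add_comm, ENNReal.ofReal_add (by positivity) (by positivity)]
  refine add_le_add ?_ ((hk_escape hd le_rfl hm).trans (ENNReal.ofReal_le_ofReal ?_))
  · refine (mul_le_mul_right hmG _).trans ?_
    rw [hV, Finset.card_image_of_injective _ (ghk3L_inj hh1 e), card_box,
      ← ENNReal.ofReal_natCast, ← ENNReal.ofReal_mul (by positivity)]
    refine ENNReal.ofReal_le_ofReal ?_
    push_cast
    have a1 : (2 * K + 1 : ℝ) * L ≤ 23 * R * √(m : ℝ) := by
      have b1 : (2 * (r + b + 1) * K : ℝ) ≤ Q + 2 * (r + b + 1) := by exact_mod_cast hK2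
      have b2 : √(m : ℝ) ≤ R * √(m : ℝ) := by nlinarith
      have b3 : (0 : ℝ) ≤ K := by positivity
      have b4 : (K : ℝ) ≤ 2 * (r + b + 1) * K := by nlinarith
      rw [hL]
      nlinarith
    have a2 : (2 * K + 1 : ℝ) ^ d * L ^ d * μ ≤ 23 ^ d * (R : ℝ) ^ d := by
      calc _ = ((2 * K + 1) * L) ^ d * μ := by rw [mul_pow]
        _ ≤ (23 * R * √(m : ℝ)) ^ d * μ := by gcongr
        _ = 23 ^ d * (R : ℝ) ^ d * ((m : ℝ) ^ ((d : ℝ) / 2) * μ) := by
            rw [mul_pow, mul_pow, ghk3_sqrt_pow _ (by linarith)]; ring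
        _ = _ := by rw [hμ, ghk3_pow_mul _ (by linarith), mul_one]
    have a3 : (r : ℝ) / √(m : ℝ) ≤ (r + b) / √(m : ℝ) := by gcongr; linarith
    calc _ = (2 * K + 1 : ℝ) ^ d * L ^ d * μ *
          (2 * Cr * (r / √(m : ℝ)) + d * Cs * ((b + 1) / r)) := by rw [hA, hB]; ring
      _ ≤ 23 ^ d * (R : ℝ) ^ d * (2 * Cr * ((r + b) / √(m : ℝ)) + d * Cs * ((b + 1) / r)) := by
          gcongr
      _ = (R : ℝ) ^ d * (23 ^ d * (2 * Cr) * ((r + b) / √(m : ℝ)) +
          23 ^ d * (d * Cs) * ((b + 1) / r)) := by ring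
      _ ≤ (R : ℝ) ^ d * (C * ((r + b) / √(m : ℝ)) + C * ((b + 1) / r)) := by gcongr
      _ = _ := by ring
  · refine mul_le_mul c3 ?_ (by positivity) hC0.le
    rw [Real.exp_le_exp, neg_div, neg_le_neg_iff, div_le_div_iff₀ hC0 (by linarith)]
    have a1 : (R * √(m : ℝ)) ^ 2 ≤ (Q : ℝ) ^ 2 := by gcongr
    rw [mul_pow, Real.sq_sqrt (by linarith)] at a1
    have a2 : (Q : ℝ) ^ 2 * 2 ≤ (Q : ℝ) ^ 2 * C := by gcongr; linarith
    linarith

end Pool.Agent.Lib.MP_153faa_pr
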