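import Mathlib
import Pool.Agent.Lib.MP_153faa_pr.GHK3b

set_option autoImplicit false

open MeasureTheory Filter Topology
open scoped ENNReal NNReal

namespace Pool.Agent.Lib.MP_153faa_pr

variable {d : ℕ}

/-- A small shift of the kernel is compensated by a small mixture of shifted kernels. -/
theorem hk_mix (hd : 1 ≤ d) : ∃ C : ℝ, 1 ≤ C ∧ ∀ (η : ℝ) (R m : ℕ), 0 < η → η ≤ 1 →
    C * (R + 1) ^ 2 ≤ η ^ 4 * m → ∃ w : Site d → ℝ≥0∞, ∑' u, w u = 1 ∧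
      ∀ v ∈ box d R, par v = 0 → ∀ y,
        phi d m y ≤ phi d m (y - v) + ENNReal.ofReal η * ∑' u, w u * phi d m (y - u) :=
  ghk3_mix hd

/-- Comparison of a smoothed localised profile with the heat kernel. -/
theorem cmp (hd : 1 ≤ d) : ∃ C : ℝ, 1 ≤ C ∧ ∀ (η : ℝ) (R m : ℕ), 0 < η → η ≤ 1 / 2 →
    C * (R + 1) ^ 2 ≤ η ^ 4 * m → ∀ (p : ℝ) (Φ : Prof d → ℝ≥0∞), 1 ≤ p → p ≤ 2 → Fn p Φ →
      ∀ (ν : Prof d) (x₀ : Site d), Nice ν → (∀ x, ν x ≠ 0 → x - x₀ ∈ box d R) →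
        Φ (sca (mass ν) (phi d m)) ≠ ⊤ →
        ENNReal.ofReal (1 - 2 * η) * Φ (sca (mass ν) (phi d m)) ≤ Φ (avg^[m] ν) :=
  ghk3_cmp hd

/-- Convexity in the easy direction. -/
theorem Fn.avg_le {p : ℝ} {Φ : Prof d → ℝ≥0∞} (h : Fn p Φ) (m : ℕ) {ν : Prof d}
    (hν : mass ν ≠ ⊤) : Φ (avg^[m] ν) ≤ Φ (sca (mass ν) (phi d m)) :=
  ghk3_avg_le h m hν

/-- Two point convexity with scaling. -/
theorem Fn.add_le {p η : ℝ} {Φ : Prof d → ℝ≥0∞} (h : Fn p Φ) (hp : 1 ≤ p) (hp2 : p ≤ 2)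
    (hη : 0 < η) (hη2 : η ≤ 1 / 2) (f g : Prof d) :
    Φ (f + g) ≤ ENNReal.ofReal (1 + 2 * η) * Φ f + ENNReal.ofReal η⁻¹ * Φ g :=
  ghk3_add_le h hp2 hη hη2 f g

/-- Packing of truncated small kernels below a large kernel. -/
theorem hk_pack (hd : 1 ≤ d) : ∃ C : ℝ, 1 ≤ C ∧ ∀ (m₀ m R : ℕ), 1 ≤ m₀ →
    C * ((R : ℝ) ^ 2 + m₀) ≤ m → ∃ V : Finset (Site d),
      C⁻¹ * ((m : ℝ) / m₀) ^ ((d : ℝ) / 2) ≤ V.card ∧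
      ∀ y, ∑ v ∈ V, ENNReal.ofReal (C⁻¹ * ((m₀ : ℝ) / m) ^ ((d : ℝ) / 2)) *
        sh v (cut (box d R) (phi d m₀)) y ≤ phi d m y :=
  ghk3_pack hd

/-- Tiling of the heat kernel by flat cubes. The cubes `v + box (r + b)`, `v ∈ V`, are disjoint. -/
theorem hk_tile (hd : 1 ≤ d) : ∃ C : ℝ, 1 ≤ C ∧ ∀ (m r b R : ℕ), 1 ≤ m → 1 ≤ r → 1 ≤ R →
    ∃ (V : Finset (Site d)) (c : Site d → ℝ≥0∞) (g : Prof d),
      (∀ v ∈ V, ∀ v' ∈ V, v ≠ v' → v - v' ∉ box d (2 * (r + b))) ∧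
      (∀ v ∈ V, par v = (m : ZMod 2)) ∧
      (∀ y, phi d m y = ∑ v ∈ V, c v * sh v (cube d r) y + g y) ∧
      mass g ≤ ENNReal.ofReal (C * (R : ℝ) ^ d * ((b + 1) / r + (r + b) / √m) +
        C * Real.exp (-((R : ℝ) ^ 2 / C))) :=
  ghk3_tile hd

end Pool.Agent.Lib.MP_153faa_pr
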