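import Mathlib
import Pool.Agent.Lib.MP_153faa_pr.GNice
import Pool.Agent.Lib.MP_153faa_pr.GOne

set_option autoImplicit false

open MeasureTheory Filter Topology
open scoped ENNReal NNReal

namespace Pool.Agent.Lib.MP_153faa_pr

variable {d : ℕ}

/-- `F` depends only on the coordinates in `s`. -/
def DepOn {ι : Type} (s : Finset ι) (F : (ι → ℝ≥0) → ℝ≥0∞) : Prop :=
  ∀ ω ω', (∀ i ∈ s, ω i = ω' i) → F ω = F ω'

theorem gflat_meas {ι : Type} (A : Set ι) [DecidablePred (· ∈ A)] :
    Measurable fun (p : (ι → ℝ≥0) × (ι → ℝ≥0)) (i : ι) => if i ∈ A then p.2 i else p.1 i := by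
  refine measurable_pi_lambda _ fun i => ?_
  split_ifs
  · exact (measurable_pi_apply i).comp measurable_snd
  · exact (measurable_pi_apply i).comp measurable_fst

theorem gflat_map {ι : Type} (μ μ' : ι → Measure ℝ≥0) [∀ i, IsProbabilityMeasure (μ i)]
    [∀ i, IsProbabilityMeasure (μ' i)] (A : Set ι) [DecidablePred (· ∈ A)] :
    ((Measure.infinitePi μ).prod (Measure.infinitePi μ')).map
      (fun (p : (ι → ℝ≥0) × (ι → ℝ≥0)) (i : ι) => if i ∈ A then p.2 i else p.1 i)
      = Measure.infinitePi fun i => if i ∈ A then μ' i else μ i := by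
  have : ∀ i, IsProbabilityMeasure (if i ∈ A then μ' i else μ i) := fun i => by
    split_ifs <;> infer_instance
  refine Measure.eq_infinitePi _ fun s t ht => ?_
  rw [Measure.map_apply (gflat_meas A) (MeasurableSet.pi s.countable_toSet fun i _ => ht i)]
  have hpre : (fun (p : (ι → ℝ≥0) × (ι → ℝ≥0)) (i : ι) => if i ∈ A then p.2 i else p.1 i) ⁻¹'
      (Set.pi (s : Set ι) t) = (Set.pi (s.filter (· ∉ A) : Finset ι) t) ×ˢ
        (Set.pi (s.filter (· ∈ A) : Finset ι) t) := by
    ext ⟨ω, ω'⟩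
    simp only [Set.mem_preimage, Set.mem_pi, Finset.mem_coe, Set.mem_prod, Finset.mem_filter]
    constructor
    · intro h
      exact ⟨fun j hj => by simpa [hj.2] using h j hj.1, fun j hj => by simpa [hj.2] using h j hj.1⟩
    · rintro ⟨h0, h1⟩ j hj
      split_ifs with hA
      · exact h1 j ⟨hj, hA⟩
      · exact h0 j ⟨hj, hA⟩
  rw [hpre, Measure.prod_prod, Measure.infinitePi_pi _ fun i _ => ht i,
    Measure.infinitePi_pi _ fun i _ => ht i, mul_comm,
    ← Finset.prod_filter_mul_prod_filter_not s (· ∈ A)]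
  congr 1
  · exact Finset.prod_congr rfl fun i hi => by rw [if_pos (Finset.mem_filter.mp hi).2]
  · exact Finset.prod_congr rfl fun i hi => by rw [if_neg (Finset.mem_filter.mp hi).2]

theorem gflat_splice {ι : Type} (μ μ' : ι → Measure ℝ≥0) [∀ i, IsProbabilityMeasure (μ i)]
    [∀ i, IsProbabilityMeasure (μ' i)] (A : Set ι) [DecidablePred (· ∈ A)]
    {F : (ι → ℝ≥0) → ℝ≥0∞} (hF : Measurable F) :
    ∫⁻ ω, F ω ∂Measure.infinitePi (fun i => if i ∈ A then μ' i else μ i) =
      ∫⁻ ω, ∫⁻ ω', F (fun i => if i ∈ A then ω' i else ω i)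
        ∂Measure.infinitePi μ' ∂Measure.infinitePi μ := by
  rw [← gflat_map μ μ' A, lintegral_map hF (gflat_meas A)]
  exact lintegral_prod _ (hF.comp (gflat_meas A)).aemeasurable

theorem gflat_meas_upd {ι : Type} [DecidableEq ι] {F : (ι → ℝ≥0) → ℝ≥0∞} (hF : Measurable F)
    (i : ι) : Measurable fun p : (ι → ℝ≥0) × ℝ≥0 => F (Function.update p.1 i p.2) :=
  hF.comp measurable_update'

theorem gflat_update {ι : Type} [DecidableEq ι] (μ : ι → Measure ℝ≥0)
    [∀ i, IsProbabilityMeasure (μ i)] {F : (ι → ℝ≥0) → ℝ≥0∞} (hF : Measurable F) (i : ι)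
    (m : Measure ℝ≥0) [IsProbabilityMeasure m] :
    ∫⁻ ω, F ω ∂Measure.infinitePi (Function.update μ i m) =
      ∫⁻ ω, ∫⁻ t, F (Function.update ω i t) ∂m ∂Measure.infinitePi μ := by
  have h := gflat_splice μ (fun _ => m) {i} hF
  have e : (fun j => if j ∈ ({i} : Set ι) then m else μ j) = Function.update μ i m := by
    funext j
    simp only [Set.mem_singleton_iff, Function.update_apply]
  rw [e] at h
  rw [h]
  refine lintegral_congr fun ω => ?_
  have e2 : ∀ ω' : ι → ℝ≥0, (fun j => if j ∈ ({i} : Set ι) then ω' j else ω j)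
      = Function.update ω i (ω' i) := fun ω' => by
    funext j
    simp only [Set.mem_singleton_iff, Function.update_apply]
    split_ifs with hj
    · rw [hj]
    · rfl
  simp only [e2]
  exact (measurePreserving_eval_infinitePi (fun _ : ι => m) i).lintegral_comp
    (f := fun t => F (Function.update ω i t)) (hF.comp (measurable_update ω))

/-- Convex order for products. -/
theorem cx_flat {ι : Type} [Countable ι] [DecidableEq ι] (μ μ' : ι → Measure ℝ≥0)
    [∀ i, IsProbabilityMeasure (μ i)] [∀ i, IsProbabilityMeasure (μ' i)]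
    (h : ∀ i, CxLe (μ i) (μ' i)) {s : Finset ι} {F : (ι → ℝ≥0) → ℝ≥0∞} (hF : Measurable F)
    (hs : DepOn s F)
    (hc : ∀ ω i (x y a b : ℝ≥0), a + b = 1 → F (Function.update ω i (a * x + b * y)) ≤
      a * F (Function.update ω i x) + b * F (Function.update ω i y)) :
    ∫⁻ ω, F ω ∂Measure.infinitePi μ ≤ ∫⁻ ω, F ω ∂Measure.infinitePi μ' := by
  have key : ∀ t : Finset ι, ∫⁻ ω, F ω ∂Measure.infinitePi μ ≤
      ∫⁻ ω, F ω ∂Measure.infinitePi (fun i => if i ∈ t then μ' i else μ i) := by
    intro t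
    induction t using Finset.induction_on with
    | empty => simp
    | insert i t hi ih =>
      have : ∀ j, IsProbabilityMeasure (if j ∈ t then μ' j else μ j) := fun j => by
        split_ifs <;> infer_instance
      have e1 : (fun j => if j ∈ t then μ' j else μ j)
          = Function.update (fun j => if j ∈ t then μ' j else μ j) i (μ i) := by
        funext j
        rw [Function.update_apply]
        split_ifs with h1 h2
        · rw [h2]; exact absurd (h2 ▸ h1) hi
        · rfl
        · rename_i h3; rw [h3]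
        · rfl
      have e2 : (fun j => if j ∈ insert i t then μ' j else μ j)
          = Function.update (fun j => if j ∈ t then μ' j else μ j) i (μ' i) := by
        funext j
        rw [Function.update_apply]
        by_cases hj : j = i
        · simp [hj]
        · simp [hj]
      refine ih.trans ?_
      rw [e2, gflat_update _ hF]
      conv_lhs => rw [e1]
      rw [gflat_update _ hF]
      exact lintegral_mono fun ω => h i _ (hF.comp (measurable_update ω)) (hc ω i)
  refine (key s).trans_eq ?_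
  have h2 := gflat_splice μ μ' (s : Set ι) hF
  simp only [Finset.mem_coe] at h2
  rw [h2]
  have e : ∀ ω ω' : ι → ℝ≥0, F (fun i => if i ∈ s then ω' i else ω i) = F ω' :=
    fun ω ω' => hs _ _ fun i hi => if_pos hi
  simp only [e, lintegral_const, measure_univ, mul_one]

/-- Resampling one coordinate of a product with site dependent laws. -/
theorem lintegral_update_flat {ι : Type} [Countable ι] [DecidableEq ι] (μ : ι → Measure ℝ≥0)
    [∀ i, IsProbabilityMeasure (μ i)] {F : (ι → ℝ≥0) → ℝ≥0∞} (hF : Measurable F) (i : ι)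
    (m : Measure ℝ≥0) [IsProbabilityMeasure m]
    [∀ j, IsProbabilityMeasure (Function.update μ i m j)] :
    ∫⁻ ω, F ω ∂Measure.infinitePi (Function.update μ i m) =
      ∫⁻ ω, ∫⁻ t, F (Function.update ω i t) ∂m ∂Measure.infinitePi μ := gflat_update μ hF i m

theorem gflat_cheb (m : Measure ℝ≥0) [IsProbabilityMeasure m] {f g : ℝ≥0 → ℝ≥0∞}
    (hf : Measurable f) (hg : Measurable g) (af : Antitone f) (ag : Antitone g) :
    (∫⁻ t, f t ∂m) * ∫⁻ t, g t ∂m ≤ ∫⁻ t, f t * g t ∂m := by
  have pt : ∀ x y, x ≤ y → f x * g y + f y * g x ≤ f x * g x + f y * g y := fun x y hxy => by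
    obtain ⟨a, ha⟩ := le_iff_exists_add.mp (af hxy)
    obtain ⟨b, hb⟩ := le_iff_exists_add.mp (ag hxy)
    rw [ha, hb]
    calc (f y + a) * g y + f y * (g y + b)
        ≤ (f y + a) * g y + f y * (g y + b) + a * b := le_self_add
      _ = (f y + a) * (g y + b) + f y * g y := by ring
  have pt' : ∀ x y, f x * g y + f y * g x ≤ f x * g x + f y * g y := fun x y => by
    rcases le_total x y with h | h
    · exact pt x y h
    · rw [add_comm, add_comm (f x * g x)]
      exact pt y x h
  have h1 : ∫⁻ x, ∫⁻ y, f x * g y + f y * g x ∂m ∂m ≤ ∫⁻ x, ∫⁻ y, f x * g x + f y * g y ∂m ∂m :=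
    lintegral_mono fun x => lintegral_mono fun y => pt' x y
  simp only [lintegral_add_left (hg.const_mul _), lintegral_const_mul _ hg,
    lintegral_mul_const _ hf, lintegral_add_left measurable_const, lintegral_const, measure_univ,
    mul_one, lintegral_add_left (hf.mul_const _), lintegral_add_left (hf.fun_mul hg)] at h1
  rw [← two_mul, ← two_mul] at h1
  exact (ENNReal.mul_le_mul_iff_right two_ne_zero ENNReal.ofNat_ne_top).mp h1

theorem gflat_harris2 {ι : Type} [DecidableEq ι] (m : Measure ℝ≥0) [IsProbabilityMeasure m]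
    (s : Finset ι) : ∀ F G : (ι → ℝ≥0) → ℝ≥0∞, Measurable F → Measurable G → DepOn s F →
    Antitone F → Antitone G →
    (∫⁻ ω, F ω ∂Measure.infinitePi (fun _ : ι => m)) *
        ∫⁻ ω, G ω ∂Measure.infinitePi (fun _ : ι => m) ≤
      ∫⁻ ω, F ω * G ω ∂Measure.infinitePi (fun _ : ι => m) := by
  induction s using Finset.induction_on with
  | empty =>
    intro F G _ hG hs _ _
    have e : ∀ ω, F ω = F 0 := fun ω => hs _ _ fun i hi => absurd hi (Finset.notMem_empty i)
    simp only [e, lintegral_const, measure_univ, mul_one, lintegral_const_mul _ hG, le_refl]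
  | insert i s hi ih =>
    intro F G hF hG hs aF aG
    have e : Function.update (fun _ : ι => m) i m = fun _ => m := Function.update_eq_self i _
    have up : ∀ {H : (ι → ℝ≥0) → ℝ≥0∞}, Measurable H →
        ∫⁻ ω, H ω ∂Measure.infinitePi (fun _ : ι => m) =
          ∫⁻ ω, ∫⁻ t, H (Function.update ω i t) ∂m ∂Measure.infinitePi (fun _ : ι => m) :=
      fun hH => by rw [← gflat_update _ hH, e]
    have an : ∀ {H : (ι → ℝ≥0) → ℝ≥0∞}, Antitone H →
        Antitone fun ω => ∫⁻ t, H (Function.update ω i t) ∂m := fun aH ω ω' h =>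
      lintegral_mono fun t => aH (update_le_update_iff.mpr ⟨le_rfl, fun j _ => h j⟩)
    rw [up hF, up hG, up (hF.fun_mul hG)]
    refine (ih _ _ (gflat_meas_upd hF i).lintegral_prod_right'
      (gflat_meas_upd hG i).lintegral_prod_right' ?_ (an aF) (an aG)).trans
      (lintegral_mono fun ω => ?_)
    · intro ω ω' h
      refine lintegral_congr fun t => hs _ _ fun j hj => ?_
      by_cases hji : j = i
      · rw [hji, Function.update_self, Function.update_self]
      · rw [Function.update_of_ne hji, Function.update_of_ne hji]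
        exact h j ((Finset.mem_insert.mp hj).resolve_left hji)
    · exact gflat_cheb m (f := fun t => F (Function.update ω i t))
        (g := fun t => G (Function.update ω i t))
        (hF.comp (measurable_update ω)) (hG.comp (measurable_update ω))
        (fun x y h => aF (Function.update_mono h)) (fun x y h => aG (Function.update_mono h))

/-- Harris inequality for decreasing functions. -/
theorem harris_flat {ι κ : Type} [Countable ι] [DecidableEq ι] (m : Measure ℝ≥0)
    [IsProbabilityMeasure m] (B : Finset κ) (F : κ → (ι → ℝ≥0) → ℝ≥0∞)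
    (hF : ∀ b, Measurable (F b)) (hs : ∀ b, ∃ s, DepOn s (F b)) (ha : ∀ b, Antitone (F b))
    (h1 : ∀ b ω, F b ω ≤ 1) :
    ∏ b ∈ B, ∫⁻ ω, F b ω ∂Measure.infinitePi (fun _ : ι => m) ≤
      ∫⁻ ω, ∏ b ∈ B, F b ω ∂Measure.infinitePi (fun _ : ι => m) := by
  classical
  induction B using Finset.induction_on with
  | empty => simp
  | insert b B hb ih =>
    simp only [Finset.prod_insert hb]
    obtain ⟨s, hs'⟩ := hs b
    refine (mul_le_mul_right ih _).trans (gflat_harris2 m s (F b) (fun ω => ∏ c ∈ B, F c ω) (hF b)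
      (Finset.measurable_prod _ fun c _ => hF c) hs' (ha b) fun ω ω' h => ?_)
    exact Finset.prod_le_prod' fun c _ => ha c h

/-- Independence of functions of complementary sets of coordinates. -/
theorem splice_flat {ι : Type} [Countable ι] (m : Measure ℝ≥0) [IsProbabilityMeasure m]
    (A : Set ι) [DecidablePred (· ∈ A)] {F : (ι → ℝ≥0) → ℝ≥0∞} (hF : Measurable F) :
    ∫⁻ ω, F ω ∂Measure.infinitePi (fun _ : ι => m) =
      ∫⁻ ω, ∫⁻ ω', F (fun i => if i ∈ A then ω' i else ω i)
        ∂Measure.infinitePi (fun _ : ι => m) ∂Measure.infinitePi (fun _ : ι => m) := by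
  rw [← gflat_splice (fun _ => m) (fun _ => m) A hF]
  simp only [ite_self]

theorem CxLe.refl (ρ : Measure ℝ≥0) : CxLe ρ ρ := fun _ _ _ => le_rfl

theorem gflat_pt {φ : ℝ≥0 → ℝ≥0∞}
    (hc : ∀ s t a b : ℝ≥0, a + b = 1 → φ (a * s + b * t) ≤ a * φ s + b * φ t)
    (x p r q : ℝ≥0) (hp : 0 < p) :
    q * φ (x + p) + p * φ (x + p + r) ≤ p * φ (x + p + r + q) + q * φ x := by
  have hL : p + r + q ≠ 0 := by positivity
  have h1 := hc x (x + p + r + q) ((r + q) / (p + r + q)) (p / (p + r + q)) (by field_simp; ring)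
  have h2 := hc x (x + p + r + q) (q / (p + r + q)) ((p + r) / (p + r + q)) (by field_simp; ring)
  have e1 : (r + q) / (p + r + q) * x + p / (p + r + q) * (x + p + r + q) = x + p := by
    field_simp; ring
  have e2 : q / (p + r + q) * x + (p + r) / (p + r + q) * (x + p + r + q) = x + p + r := by
    field_simp; ring
  rw [e1] at h1
  rw [e2] at h2
  have e3 : q * ((r + q) / (p + r + q)) + p * (q / (p + r + q)) = q := by field_simp; ring
  have e4 : q * (p / (p + r + q)) + p * ((p + r) / (p + r + q)) = p := by field_simp; ring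
  calc (q : ℝ≥0∞) * φ (x + p) + p * φ (x + p + r)
      ≤ q * (((r + q) / (p + r + q) : ℝ≥0) * φ x + (p / (p + r + q) : ℝ≥0) * φ (x + p + r + q))
        + p * ((q / (p + r + q) : ℝ≥0) * φ x
          + ((p + r) / (p + r + q) : ℝ≥0) * φ (x + p + r + q)) := by gcongr
    _ = (q * (p / (p + r + q)) + p * ((p + r) / (p + r + q)) : ℝ≥0) * φ (x + p + r + q)
        + (q * ((r + q) / (p + r + q)) + p * (q / (p + r + q)) : ℝ≥0) * φ x := by
        simp only [ENNReal.coe_add, ENNReal.coe_mul]
        ring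
    _ = _ := by rw [e3, e4]

/-- Single crossing implies convex order. -/
theorem gflat_cross {Ω : Type} [MeasurableSpace Ω] (ν : Measure Ω) [SFinite ν] {z z' : Ω → ℝ≥0}
    (hz : Measurable z) (hz' : Measurable z') (hm : ∫⁻ t, (z t : ℝ≥0∞) ∂ν = ∫⁻ t, (z' t : ℝ≥0∞) ∂ν)
    (hfin : ∫⁻ t, (z t : ℝ≥0∞) ∂ν ≠ ⊤)
    (hx : ∀ t t', z' t < z t → z t' < z' t' → z t ≤ z t') {φ : ℝ≥0 → ℝ≥0∞} (hφ : Measurable φ)
    (hc : ∀ s t a b : ℝ≥0, a + b = 1 → φ (a * s + b * t) ≤ a * φ s + b * φ t) :
    ∫⁻ t, φ (z t) ∂ν ≤ ∫⁻ t, φ (z' t) ∂ν := by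
  classical
  set p : Ω → ℝ≥0∞ := fun t => (z t - z' t : ℝ≥0) with hp
  set q : Ω → ℝ≥0∞ := fun t => (z' t - z t : ℝ≥0) with hq
  have mp : Measurable p := (hz.sub hz').coe_nnreal_ennreal
  have mq : Measurable q := (hz'.sub hz).coe_nnreal_ennreal
  have hpq : ∫⁻ t, p t ∂ν = ∫⁻ t, q t ∂ν := by
    have e : ∀ t, (z' t : ℝ≥0∞) + p t = z t + q t := fun t => by
      simp only [hp, hq, ← ENNReal.coe_add, add_tsub_eq_max, max_comm]
    have h1 : ∫⁻ t, (z' t : ℝ≥0∞) + p t ∂ν = ∫⁻ t, (z t : ℝ≥0∞) + q t ∂ν := lintegral_congr e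
    rw [lintegral_add_left hz'.coe_nnreal_ennreal, lintegral_add_left hz.coe_nnreal_ennreal,
      ← hm] at h1
    exact (ENNReal.add_right_inj hfin).mp h1
  have hpf : ∫⁻ t, p t ∂ν ≠ ⊤ :=
    ne_top_of_le_ne_top hfin (lintegral_mono fun t => ENNReal.coe_le_coe.mpr tsub_le_self)
  by_cases h0 : ∫⁻ t, p t ∂ν = 0
  · have h1 := (lintegral_eq_zero_iff mp).mp h0
    have h2 := (lintegral_eq_zero_iff mq).mp (hpq ▸ h0)
    refine le_of_eq (lintegral_congr_ae ?_)
    filter_upwards [h1, h2] with t a b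
    simp only [hp, hq, Pi.zero_apply, ENNReal.coe_eq_zero, tsub_eq_zero_iff_le] at a b
    rw [le_antisymm a b]
  have mL : MeasurableSet {t | z' t < z t} := measurableSet_lt hz' hz
  have mR : MeasurableSet {t | z t < z' t} := measurableSet_lt hz hz'
  set a : Ω → ℝ≥0∞ := fun t => if z' t < z t then φ (z t) else 0 with ha
  set b : Ω → ℝ≥0∞ := fun t => if z t < z' t then φ (z t) else 0 with hb
  set a' : Ω → ℝ≥0∞ := fun t => if z' t < z t then φ (z' t) else 0 with ha'
  set b' : Ω → ℝ≥0∞ := fun t => if z t < z' t then φ (z' t) else 0 with hb'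
  set c : Ω → ℝ≥0∞ := fun t => if z t = z' t then φ (z t) else 0 with hc'
  have ma : Measurable a := Measurable.ite mL (hφ.comp hz) measurable_const
  have mb : Measurable b := Measurable.ite mR (hφ.comp hz) measurable_const
  have ma' : Measurable a' := Measurable.ite mL (hφ.comp hz') measurable_const
  have mb' : Measurable b' := Measurable.ite mR (hφ.comp hz') measurable_const
  have pt : ∀ t t', q t' * a t + p t * b t' ≤ q t' * a' t + p t * b' t' := fun t t' => by
    by_cases h1 : z' t < z t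
    · by_cases h2 : z t' < z' t'
      · obtain ⟨u, hu⟩ := exists_add_of_le h1.le
        obtain ⟨r, hr⟩ := exists_add_of_le (hx t t' h1 h2)
        obtain ⟨v, hv⟩ := exists_add_of_le h2.le
        have hu0 : 0 < u := by
          rw [hu] at h1
          exact lt_add_iff_pos_right _ |>.mp h1
        have h3 := gflat_pt hc (z' t) u r v hu0
        rw [← hu, ← hr, ← hv] at h3
        have e1 : p t = u := by simp only [hp, hu, add_tsub_cancel_left]
        have e2 : q t' = v := by simp only [hq, hv, add_tsub_cancel_left]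
        simp only [ha, hb, ha', hb', if_pos h1, if_pos h2, e1, e2]
        exact h3.trans_eq (add_comm _ _)
      · have e2 : q t' = 0 := by
          simp only [hq, tsub_eq_zero_of_le (not_lt.mp h2), ENNReal.coe_zero]
        simp only [hb, hb', if_neg h2, e2, zero_mul, le_refl]
    · have e1 : p t = 0 := by
        simp only [hp, tsub_eq_zero_of_le (not_lt.mp h1), ENNReal.coe_zero]
      simp only [ha, ha', if_neg h1, e1, zero_mul, le_refl]
  have h1 : ∫⁻ t, ∫⁻ t', q t' * a t + p t * b t' ∂ν ∂ν ≤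
      ∫⁻ t, ∫⁻ t', q t' * a' t + p t * b' t' ∂ν ∂ν :=
    lintegral_mono fun t => lintegral_mono fun t' => pt t t'
  simp only [lintegral_add_left (mq.mul_const _), lintegral_mul_const _ mq,
    lintegral_const_mul _ mb, lintegral_const_mul _ mb', lintegral_add_left (ma.const_mul _),
    lintegral_add_left (ma'.const_mul _), lintegral_const_mul _ ma, lintegral_const_mul _ ma',
    lintegral_mul_const _ mp] at h1
  rw [← hpq, ← mul_add, ← mul_add] at h1
  have h2 := (ENNReal.mul_le_mul_iff_right h0 hpf).mp h1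
  have e1 : ∀ t, φ (z t) = a t + b t + c t := fun t => by
    rcases lt_trichotomy (z t) (z' t) with h | h | h
    · simp [ha, hb, hc', h, h.ne, h.not_gt]
    · simp [ha, hb, hc', h]
    · simp [ha, hb, hc', h, h.ne', h.not_gt]
  have e2 : ∀ t, φ (z' t) = a' t + b' t + c t := fun t => by
    rcases lt_trichotomy (z t) (z' t) with h | h | h
    · simp [ha', hb', hc', h, h.ne, h.not_gt]
    · simp [ha', hb', hc', h]
    · simp [ha', hb', hc', h, h.ne', h.not_gt]
  rw [lintegral_congr e1, lintegral_congr e2, lintegral_add_left (ma.fun_add mb),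
    lintegral_add_left (ma'.fun_add mb'), lintegral_add_left ma, lintegral_add_left ma']
  exact add_le_add h2 le_rfl

/-- The weights increase in convex order with the inverse temperature. -/
theorem cx_rho {ν : Measure ℝ} [IsProbabilityMeasure ν]
    (hν : ∀ β : ℝ, Integrable (fun t => Real.exp (β * t)) ν) {β β' : ℝ} (h0 : 0 < β)
    (h : β ≤ β') : CxLe (rho ν β) (rho ν β') := by
  intro φ hφ hc
  have mz : ∀ b : ℝ, Measurable fun t : ℝ => Real.toNNReal (Real.exp (b * t - lam ν b)) :=
    fun b => by fun_prop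
  have m1 : ∀ b : ℝ, ∫⁻ t, (Real.toNNReal (Real.exp (b * t - lam ν b)) : ℝ≥0∞) ∂ν = 1 := fun b => by
    have h1 := mean1_rho hν b
    rwa [Mean1, rho, lintegral_map measurable_coe_nnreal_ennreal (mz b)] at h1
  rw [rho, rho, lintegral_map hφ (mz β), lintegral_map hφ (mz β')]
  refine gflat_cross ν (mz β) (mz β') ((m1 β).trans (m1 β').symm)
    (by rw [m1]; exact ENNReal.one_ne_top) (fun t t' h1 h2 => ?_) hφ hc
  rw [Real.toNNReal_lt_toNNReal_iff (Real.exp_pos _), Real.exp_lt_exp] at h1 h2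
  refine Real.toNNReal_le_toNNReal (Real.exp_le_exp.mpr ?_)
  have h3 : t ≤ t' := by
    by_contra h4
    have h5 := mul_le_mul_of_nonneg_left (not_le.mp h4).le (sub_nonneg.mpr h)
    linarith
  have h6 := mul_le_mul_of_nonneg_left h3 h0.le
  linarith

theorem gflat_lift_meas {g : ℝ → ℝ} (hm : Measurable g) : Measurable (lift g) :=
  Measurable.ite (measurableSet_singleton ⊤) measurable_const
    (hm.comp ENNReal.measurable_toReal).ennreal_ofReal

theorem gflat_lift_conv {g : ℝ → ℝ} (hg : ConvexOn ℝ (Set.Ici 0) g) (h0 : ∀ x, 0 ≤ x → 0 ≤ g x)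
    {u v : ℝ≥0∞} (hu : u ≠ ⊤) (hv : v ≠ ⊤) {a b : ℝ≥0} (hab : a + b = 1) :
    lift g (a * u + b * v) ≤ a * lift g u + b * lift g v := by
  lift u to ℝ≥0 using hu
  lift v to ℝ≥0 using hv
  have h1 := hg.2 (Set.mem_Ici.mpr u.coe_nonneg) (Set.mem_Ici.mpr v.coe_nonneg) a.coe_nonneg
    b.coe_nonneg (by rw [← NNReal.coe_add, hab, NNReal.coe_one])
  rw [← ENNReal.coe_mul, ← ENNReal.coe_mul, ← ENNReal.coe_add]
  simp only [lift, ENNReal.coe_ne_top, if_false, ENNReal.coe_toReal]
  rw [← ENNReal.ofReal_coe_nnreal, ← ENNReal.ofReal_coe_nnreal (p := b),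
    ← ENNReal.ofReal_mul a.coe_nonneg, ← ENNReal.ofReal_mul b.coe_nonneg,
    ← ENNReal.ofReal_add (mul_nonneg a.coe_nonneg (h0 _ u.coe_nonneg))
      (mul_nonneg b.coe_nonneg (h0 _ v.coe_nonneg))]
  exact ENNReal.ofReal_le_ofReal h1

/-- Monotonicity of expectations of convex payoffs of the mass. -/
theorem cx_iter (hd : 1 ≤ d) {ρ₁ ρ₂ : Measure ℝ≥0} [IsProbabilityMeasure ρ₁]
    [IsProbabilityMeasure ρ₂] (h : CxLe ρ₁ ρ₂) {g : ℝ → ℝ} (hg : ConvexOn ℝ (Set.Ici 0) g)
    (hm : Measurable g) (h0 : ∀ x, 0 ≤ x → 0 ≤ g x) (n : ℕ) {f : Prof d} (hf : Nice f) :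
    (T ρ₁)^[n] (fun u => lift g (mass u)) f ≤ (T ρ₂)^[n] (fun u => lift g (mass u)) f := by
  have hΦ : Measurable fun u : Prof d => lift g (mass u) :=
    (gflat_lift_meas hm).comp measurable_mass
  have hF : Measurable fun ω : ℕ → Layer d => lift g (mass (ev n ω f)) :=
    hΦ.comp (measurable_ev n f)
  rw [T_iter_eq n hΦ, T_iter_eq n hΦ, lintegral_env_flat hF, lintegral_env_flat hF]
  obtain ⟨s, hs⟩ := ev_dep hf n
  refine cx_flat (fun _ => ρ₁) (fun _ => ρ₂) (fun _ => h) (s := s)
    (F := fun ω => lift g (mass (ev n (Function.curry ω) f)))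
    (hF.comp (MeasurableEquiv.curry ℕ (Site d) ℝ≥0).measurable) (fun ω ω' hω => ?_) ?_
  · simp only [hs (Function.curry ω) (Function.curry ω') hω]
  · intro ω i x y a b hab
    obtain ⟨α, β, hαβ⟩ := ev_affine n ω i f
    have e : ev n (Function.curry (Function.update ω i (a * x + b * y))) f
        = (fun z => a * ev n (Function.curry (Function.update ω i x)) f z)
          + fun z => b * ev n (Function.curry (Function.update ω i y)) f z := by
      funext z
      have hab' : (a : ℝ≥0∞) + b = 1 := by exact_mod_cast hab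
      simp only [Pi.add_apply, hαβ, ENNReal.coe_add, ENNReal.coe_mul]
      calc α z + β z * (a * x + b * y) = (a + b) * α z + β z * (a * x + b * y) := by
            rw [hab', one_mul]
        _ = _ := by ring
    simp only [e, mass_add, mass_smul]
    exact gflat_lift_conv hg h0 (hf.of_ev hd n _).mass_ne_top (hf.of_ev hd n _).mass_ne_top hab

theorem cx_Res (hd : 1 ≤ d) {ρ₁ ρ₂ : Measure ℝ≥0} [IsProbabilityMeasure ρ₁]
    [IsProbabilityMeasure ρ₂] (h : CxLe ρ₁ ρ₂) {g : ℝ → ℝ} (hg : ConvexOn ℝ (Set.Ici 0) g)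
    (hm : Measurable g) (h0 : ∀ x, 0 ≤ x → 0 ≤ g x) (l : ℝ) {f : Prof d} (hf : Nice f) :
    Res ρ₁ l (fun u => lift g (mass u)) f ≤ Res ρ₂ l (fun u => lift g (mass u)) f := 
  ENNReal.tsum_le_tsum fun n => mul_le_mul_right (cx_iter hd h hg hm h0 n hf) _

theorem cx_OO (hd : 1 ≤ d) {ρ₁ ρ₂ : Measure ℝ≥0} [IsProbabilityMeasure ρ₁]
    [IsProbabilityMeasure ρ₂] (h : CxLe ρ₁ ρ₂) {p : ℝ} (hp : 1 ≤ p) (l : ℝ) :
    OO d ρ₁ p l ≤ OO d ρ₂ p l := by
  have e : (mq p : Prof d → ℝ≥0∞) = fun u => lift (fun x => x ^ p) (mass u) := by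
    funext u
    unfold mq lift
    split_ifs with hu
    · rw [hu, ENNReal.top_rpow_of_pos (by linarith)]
    · rw [← ENNReal.ofReal_rpow_of_nonneg ENNReal.toReal_nonneg (by linarith),
        ENNReal.ofReal_toReal hu]
  unfold OO HH
  rw [e]
  exact cx_Res hd h (convexOn_rpow hp) (by fun_prop) (fun x hx => Real.rpow_nonneg hx p) l
    (nice_dlt 0)

end Pool.Agent.Lib.MP_153faa_pr
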