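import Mathlib
import Pool.Agent.Lib.MP_153faa_pr.GLoc1
import Pool.Agent.Lib.MP_153faa_pr.GFlat

set_option autoImplicit false

open MeasureTheory Filter Topology
open scoped ENNReal NNReal

namespace Pool.Agent.Lib.MP_153faa_pr

variable {d : ℕ}

theorem gloc2_U_mono {ρ : Measure ℝ≥0} [IsProbabilityMeasure ρ] {l : ℝ} {S : Set (Prof d)}
    {F F' R R' : Prof d → ℝ≥0∞} (hF : ∀ g, g ∈ S → F g ≤ F' g) (hR : ∀ g, g ∉ S → R g ≤ R' g)
    (f : Prof d) : U ρ l S F R f ≤ U ρ l S F' R' f := by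
  refine iSup_mono fun n => ?_
  induction n generalizing f with
  | zero =>
    simp only [Un]
    split_ifs with h
    exacts [hF f h, le_rfl]
  | succ n ih =>
    simp only [Un]
    split_ifs with h
    · exact hF f h
    · exact add_le_add (mul_le_mul_right (hR f h) _) (mul_le_mul_right (T_mono ih f) _)

theorem gloc2_mr_nonneg (g : Prof d) : 0 ≤ mr g := ENNReal.toReal_nonneg

theorem gloc2_mq {g : Prof d} (hg : Nice g) {p : ℝ} (hp : 0 ≤ p) :
    mq p g = ENNReal.ofReal (mr g ^ p) := by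
  rw [mq, ← hg.ofReal_mr, ENNReal.ofReal_rpow_of_nonneg (gloc2_mr_nonneg g) hp]

theorem gloc2_mq_two {g : Prof d} (hg : Nice g) : mq 2 g = ENNReal.ofReal (mr g ^ 2) := by
  rw [gloc2_mq hg (by norm_num), Real.rpow_two]

theorem gloc2_lev {g : Prof d} (hg : Nice g) (t : ℝ) : g ∈ lev d t ↔ t ≤ mr g := by
  show ENNReal.ofReal t ≤ mass g ↔ _
  rw [← hg.ofReal_mr, ENNReal.ofReal_le_ofReal_iff (gloc2_mr_nonneg g)]

theorem gloc2_chi {κ M : ℝ} (hd : 3 ≤ d) (hκ : 0 < κ) {ρ : Measure ℝ≥0} [IsProbabilityMeasure ρ]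
    (h : Good d κ M ρ) : ∃ χ : ℝ≥0∞, mom ρ 2 = 1 + χ ∧ χ ≠ ⊤ ∧
      χ ≤ ENNReal.ofReal (2 * max M 1) ∧ ENNReal.ofReal ((gsum d).toReal⁻¹) ≤ χ := by
  obtain ⟨-, h2, -, h4, -⟩ := h.basic hd hκ
  obtain ⟨-, -, -, χ, hχ, -⟩ := h
  have h5 : χ ≤ ENNReal.ofReal (2 * max M 1) := by
    have := h2 2 (by norm_num) (by norm_num)
    rw [hχ] at this
    exact (le_add_self.trans this).trans
      (ENNReal.ofReal_le_ofReal (by linarith [le_max_left M 1]))
  refine ⟨χ, hχ, ne_top_of_le_ne_top ENNReal.ofReal_ne_top h5, h5, ?_⟩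
  rw [hχ] at h4
  exact (ENNReal.add_le_add_iff_left ENNReal.one_ne_top).1 h4

theorem gloc2_pow_le {p t m : ℝ} (hp2 : p ≤ 2) (ht : 0 < t) (hm : t ≤ m) :
    m ^ p ≤ t ^ (p - 2) * m ^ 2 := by
  have hm0 : 0 < m := ht.trans_le hm
  have h1 : m ^ p = m ^ (p - 2) * m ^ 2 := by
    rw [← Real.rpow_two, ← Real.rpow_add hm0]; congr 1; ring
  rw [h1]
  exact mul_le_mul_of_nonneg_right (Real.rpow_le_rpow_of_nonpos ht hm (by linarith))
    (sq_nonneg m)

theorem gloc2_sq_le {p t w : ℝ} (hp2 : p ≤ 2) (hw : 0 ≤ w) (hm : w ≤ t) :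
    w ^ 2 ≤ t ^ (2 - p) * w ^ p := by
  have h1 : w ^ 2 = w ^ (2 - p) * w ^ p := by
    rw [← Real.rpow_two, ← Real.rpow_add' hw (by linarith)]; congr 1; ring
  rw [h1]
  exact mul_le_mul_of_nonneg_right (Real.rpow_le_rpow hw hm (by linarith))
    (Real.rpow_nonneg hw p)

/-- The moment on the exit event. -/
theorem gloc2_exit (hd : 1 ≤ d) {ρ : Measure ℝ≥0} [IsProbabilityMeasure ρ] (hm : Mean1 ρ)
    {χ : ℝ≥0∞} (hχ : mom ρ 2 = 1 + χ) (hχt : χ ≠ ⊤) {l : ℝ} (h0 : 0 < l) (h1 : l < 1) {p t : ℝ}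
    (hp : 0 ≤ p) (hp2 : p ≤ 2) (ht0 : 0 < t) {f : Prof d} (hf : Nice f) (ht : 2 * mr f ≤ t) :
    U ρ l (lev d t) (mq p) (fun _ => 0) f ≤
      ENNReal.ofReal (t ^ (p - 2)) * (4 * χ * II ρ l t f) := by
  calc U ρ l (lev d t) (mq p) (fun _ => 0) f
      ≤ U ρ l (lev d t) (fun g => ENNReal.ofReal (t ^ (p - 2)) * mq 2 g)
          (fun _ => ENNReal.ofReal (t ^ (p - 2)) * 0) f := by
        refine U_mono hd (fun g hg hgS => ?_) (fun g _ _ => by simp) hf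
        rw [gloc2_mq hg hp, gloc2_mq_two hg, ← ENNReal.ofReal_mul (Real.rpow_nonneg ht0.le _)]
        exact ENNReal.ofReal_le_ofReal (gloc2_pow_le hp2 ht0 ((gloc2_lev hg t).1 hgS))
    _ = ENNReal.ofReal (t ^ (p - 2)) * U ρ l (lev d t) (mq 2) (fun _ => 0) f :=
        U_const_mul (measurableSet_lev t) (measurable_mq 2) measurable_const _ f
    _ ≤ _ := mul_le_mul_right (U_sq_exit hd hm hχ hχt h0 h1 hf ht) _

/-- High sites are rare when the moment is finite. -/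
theorem Yv_le_pow (hd : 1 ≤ d) {ρ : Measure ℝ≥0} [IsProbabilityMeasure ρ] (hm : Mean1 ρ)
    {p l : ℝ} (hp : 1 ≤ p) (h0 : 0 < l) (h1 : l < 1) (hO : OO d ρ p l ≠ ⊤) (f : Prof d)
    (s : ℝ≥0∞) : s ^ p * Yv ρ l f s ≤ mq p f := by
  have hO0 : OO d ρ p l ≠ 0 := (zero_lt_one.trans_le (one_le_OO hd hm hp h0 h1)).ne'
  rw [← ENNReal.mul_le_mul_iff_right hO0 hO]
  calc OO d ρ p l * (s ^ p * Yv ρ l f s)
      = (s ^ p * OO d ρ p l) * U ρ l (setY d s) (fun _ => 1) (fun _ => 0) f := by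
        rw [Yv]; ring
    _ = U ρ l (setY d s) (fun _ => (s ^ p * OO d ρ p l) * 1)
          (fun _ => (s ^ p * OO d ρ p l) * 0) f :=
        (U_const_mul (measurableSet_setY s) measurable_const measurable_const _ f).symm
    _ ≤ U ρ l (setY d s) (Res ρ l (mq p)) (mq p) f := by
        refine gloc2_U_mono (fun g hg => ?_) (fun g _ => by simp) f
        obtain ⟨x, hx⟩ := hg
        rw [mul_one]
        exact (mul_le_mul_left (ENNReal.rpow_le_rpow hx (by linarith)) _).trans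
          (site_le_HH hp g x)
    _ = HH ρ p l f := (Res_eq_U (measurableSet_setY s) h0 h1 (measurable_mq p) f).symm
    _ ≤ _ := HH_le hp f

theorem gloc2_Yv (hd : 1 ≤ d) {ρ : Measure ℝ≥0} [IsProbabilityMeasure ρ] (hm : Mean1 ρ)
    {p l : ℝ} (hp : 1 ≤ p) (h0 : 0 < l) (h1 : l < 1) (hO : OO d ρ p l ≠ ⊤) {f : Prof d}
    (hf : Nice f) {s : ℝ} (hs : 0 < s) :
    Yv ρ l f (ENNReal.ofReal s) ≤ ENNReal.ofReal (s ^ (-p) * mr f ^ p) := by
  have h := Yv_le_pow hd hm hp h0 h1 hO f (ENNReal.ofReal s)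
  rw [ENNReal.ofReal_rpow_of_pos hs, gloc2_mq hf (by linarith)] at h
  have h2 : ENNReal.ofReal (s ^ (-p)) * ENNReal.ofReal (s ^ p) = 1 := by
    rw [← ENNReal.ofReal_mul (Real.rpow_nonneg hs.le _), ← Real.rpow_add hs]; simp
  calc Yv ρ l f (ENNReal.ofReal s)
      = ENNReal.ofReal (s ^ (-p)) * (ENNReal.ofReal (s ^ p) * Yv ρ l f (ENNReal.ofReal s)) := by
        rw [← mul_assoc, h2, one_mul]
    _ ≤ ENNReal.ofReal (s ^ (-p)) * ENNReal.ofReal (mr f ^ p) := mul_le_mul_right h _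
    _ = _ := (ENNReal.ofReal_mul (Real.rpow_nonneg hs.le _)).symm

theorem gloc2_div_pow {p t C : ℝ} (hp2 : p ≤ 2) (ht : 0 < t) (hC : 1 ≤ C) :
    t ^ 2 * (t / C) ^ (-p) ≤ C ^ 2 * t ^ (2 - p) := by
  have hC0 : 0 < C := by linarith
  have h1 : (t / C) ^ (-p) = C ^ p * t ^ (-p) := by
    rw [Real.div_rpow ht.le hC0.le, Real.rpow_neg hC0.le, div_inv_eq_mul, mul_comm]
  have h2 : t ^ (2 - p) = t ^ 2 * t ^ (-p) := by
    rw [← Real.rpow_two, ← Real.rpow_add ht]; congr 1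
  have h3 : C ^ p ≤ C ^ 2 := by
    rw [← Real.rpow_two]; exact Real.rpow_le_rpow_of_exponent_le hC hp2
  rw [h1, h2]
  have h4 : 0 ≤ t ^ 2 * t ^ (-p) := by positivity
  nlinarith

/-- A priori bounds below and at the level `t`. -/
theorem t0 (hd : 3 ≤ d) {κ M : ℝ} (hκ : 0 < κ) : ∃ C : ℝ, 1 ≤ C ∧
    ∀ (ρ : Measure ℝ≥0) [IsProbabilityMeasure ρ] (p l : ℝ), Ctx d κ M ρ p l → l ≤ C⁻¹ →
      OO d ρ p l ≠ ⊤ → ∀ (f : Prof d) (t : ℝ), Nice f → 0 < t → 2 * mr f ≤ t →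
        II ρ l t f ≤ ENNReal.ofReal (C * t ^ (2 - p) * mr f ^ p) ∧
        U ρ l (lev d t) (mq p) (fun _ => 0) f ≤ ENNReal.ofReal C * mq p f ∧
        U ρ l (lev d t) (mq 2) (mq 2) f ≤ ENNReal.ofReal (C * t ^ (2 - p) * mr f ^ p) := by
  obtain ⟨C₁, hC₁, H⟩ := loc_Yv (M := M) hd hκ
  have hd1 : 1 ≤ d := by omega
  set M' : ℝ := max M 1 with hM'
  have hM1 : 1 ≤ M' := le_max_right _ _
  set C₂ : ℝ := C₁ ^ 3 + C₁ with hC₂
  have hC₁2 : C₁ ≤ C₂ := by rw [hC₂]; nlinarith [pow_pos (show 0 < C₁ by linarith) 3]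
  have hC₂1 : 1 ≤ C₂ := hC₁.trans hC₁2
  have hCC : C₂ ≤ 8 * M' * C₂ := by nlinarith
  refine ⟨8 * M' * C₂, hC₂1.trans hCC, fun ρ _ p l hc hl hO f t hf ht hw => ?_⟩
  obtain ⟨hp1, hp2⟩ := hc.one_lt hd
  obtain ⟨χ, hχ, hχt, hχM, -⟩ := gloc2_chi hd hκ hc.good
  have hm := hc.good.1
  have hw0 := gloc2_mr_nonneg f
  have hl' : l ≤ C₁⁻¹ := hl.trans (inv_anti₀ (by linarith) (hC₁2.trans hCC))
  have hsq : mr f ^ 2 ≤ t ^ (2 - p) * mr f ^ p :=
    gloc2_sq_le hp2.le hw0 (by linarith)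
  have hpos : 0 ≤ t ^ (2 - p) * mr f ^ p := by positivity
  have hI : II ρ l t f ≤ ENNReal.ofReal (C₂ * (t ^ (2 - p) * mr f ^ p)) := by
    refine (H ρ hc.good l hc.l0 hl' hc.l1 f t hf ht hw).trans ?_
    have hY := gloc2_Yv hd1 hm hp1.le hc.l0 hc.l1 hO hf (s := t / C₁) (by positivity)
    refine (add_le_add (mul_le_mul_right hY _) le_rfl).trans ?_
    rw [← ENNReal.ofReal_mul (by positivity), ← ENNReal.ofReal_add (by positivity)
      (by have := hc.l0; positivity)]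
    refine ENNReal.ofReal_le_ofReal ?_
    have h1 := gloc2_div_pow (C := C₁) hp2.le ht hC₁
    have h2 : l ^ (1 / 4 : ℝ) ≤ 1 := Real.rpow_le_one hc.l0.le hc.l1.le (by norm_num)
    have h3 : C₁ * t ^ 2 * ((t / C₁) ^ (-p) * mr f ^ p) ≤ C₁ ^ 3 * (t ^ (2 - p) * mr f ^ p) := by
      calc C₁ * t ^ 2 * ((t / C₁) ^ (-p) * mr f ^ p)
          = C₁ * mr f ^ p * (t ^ 2 * (t / C₁) ^ (-p)) := by ring
        _ ≤ C₁ * mr f ^ p * (C₁ ^ 2 * t ^ (2 - p)) :=
          mul_le_mul_of_nonneg_left h1 (by positivity)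
        _ = _ := by ring
    have h4 : C₁ * l ^ (1 / 4 : ℝ) * mr f ^ 2 ≤ C₁ * (t ^ (2 - p) * mr f ^ p) := by
      calc C₁ * l ^ (1 / 4 : ℝ) * mr f ^ 2 ≤ C₁ * 1 * mr f ^ 2 := by gcongr
        _ ≤ _ := by rw [mul_one]; gcongr
    rw [hC₂]; linarith
  refine ⟨hI.trans (ENNReal.ofReal_le_ofReal ?_), ?_, ?_⟩
  · rw [mul_assoc (8 * M' * C₂)]; exact mul_le_mul_of_nonneg_right hCC hpos
  · refine (gloc2_exit hd1 hm hχ hχt hc.l0 hc.l1 (by linarith) hp2.le ht hf hw).trans ?_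
    calc ENNReal.ofReal (t ^ (p - 2)) * (4 * χ * II ρ l t f)
        ≤ ENNReal.ofReal (t ^ (p - 2)) * (ENNReal.ofReal 4 * ENNReal.ofReal (2 * M') *
            ENNReal.ofReal (C₂ * (t ^ (2 - p) * mr f ^ p))) := by
          gcongr
          simp
      _ = ENNReal.ofReal (8 * M' * C₂) * mq p f := by
          rw [gloc2_mq hf (by linarith), ← ENNReal.ofReal_mul (by norm_num),
            ← ENNReal.ofReal_mul (by positivity), ← ENNReal.ofReal_mul (by positivity),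
            ← ENNReal.ofReal_mul (by positivity)]
          congr 1
          have : t ^ (p - 2) * t ^ (2 - p) = 1 := by rw [← Real.rpow_add ht]; simp
          linear_combination (8 * M' * C₂ * mr f ^ p) * this
  · rw [U_sq hd1 hm hχ hχt hc.l0 hc.l1 t hf, gloc2_mq_two hf]
    refine (add_le_add le_rfl (mul_le_mul' hχM hI)).trans ?_
    rw [← ENNReal.ofReal_mul (by positivity), ← ENNReal.ofReal_add (by positivity)
      (by positivity)]
    refine ENNReal.ofReal_le_ofReal ?_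
    have h1 : 1 ≤ M' * C₂ := one_le_mul_of_one_le_of_one_le hM1 hC₂1
    nlinarith [mul_le_mul_of_nonneg_right h1 hpos]

/-- The moment at the stopping time is at least the initial one. -/
theorem gloc2_sub (hd : 1 ≤ d) {ρ : Measure ℝ≥0} [IsProbabilityMeasure ρ] (hm : Mean1 ρ)
    {p l : ℝ} (hp : 1 ≤ p) (h0 : 0 < l) (h1 : l < 1) (t : ℝ) {f : Prof d} (hf : Nice f) :
    mq p f ≤ U ρ l (lev d t) (mq p) (mq p) f := by
  refine le_U_of_sub hd (measurableSet_lev t) h0 h1 (measurable_mq p) (measurable_mq p)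
    (fun g _ _ => le_rfl) (fun g _ _ => ?_) (B := ENNReal.ofReal t ^ p)
    (ENNReal.rpow_ne_top_of_nonneg (by linarith) ENNReal.ofReal_ne_top) (fun g _ hg => ?_) hf
  · calc mq p g = ENNReal.ofReal l * mq p g + ENNReal.ofReal (1 - l) * mq p g := by
          rw [← add_mul, ← ENNReal.ofReal_add h0.le (by linarith)]; simp
      _ ≤ _ := add_le_add le_rfl (mul_le_mul_right (mq_le_T hd hm hp g) _)
  · exact ENNReal.rpow_le_rpow (le_of_not_ge hg) (by linarith)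

/-- The gain dominates the probability of a localised exit. -/
theorem gloc2_gain (hd : 1 ≤ d) {ρ : Measure ℝ≥0} [IsProbabilityMeasure ρ] (hm : Mean1 ρ)
    {p l : ℝ} (hp : 1 ≤ p) (hp2 : p ≤ 2) (h0 : 0 < l) (h1 : l < 1) {C t : ℝ} (hC : 1 ≤ C)
    (ht : 0 < t) (hO : ENNReal.ofReal (2 * C ^ 4) ≤ OO d ρ p l) {f : Prof d} (hf : Nice f) :
    ENNReal.ofReal ((t / C) ^ p / 2) * OO d ρ p l *
      U ρ l (lev d t) ((Gd d C t).indicator fun _ => 1) (fun _ => 0) f ≤ XX ρ p l 0 f := by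
  set a := ENNReal.ofReal ((t / C) ^ p / 2) * OO d ρ p l with ha
  have hC0 : 0 < C := by linarith
  have hfin : mq p f ≠ ⊤ := by rw [gloc2_mq hf (by linarith)]; exact ENNReal.ofReal_ne_top
  have hind : Measurable ((Gd d C t).indicator fun _ => (1 : ℝ≥0∞)) :=
    measurable_const.indicator (measurableSet_Gd C t)
  rw [← ENNReal.add_le_add_iff_right hfin, XX_zero_add hd hm hp h0 h1 f]
  calc a * U ρ l (lev d t) ((Gd d C t).indicator fun _ => 1) (fun _ => 0) f + mq p f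
      ≤ U ρ l (lev d t) (fun g => a * (Gd d C t).indicator (fun _ => 1) g) (fun _ => a * 0) f +
          U ρ l (lev d t) (mq p) (mq p) f := by
        rw [U_const_mul (measurableSet_lev t) hind measurable_const]
        exact add_le_add le_rfl (gloc2_sub hd hm hp h0 h1 t hf)
    _ = U ρ l (lev d t) (fun g => a * (Gd d C t).indicator (fun _ => 1) g + mq p g)
          (fun g => a * 0 + mq p g) f :=
        (U_add (measurableSet_lev t) (hind.const_mul a) (measurable_mq p) measurable_const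
          (measurable_mq p) f).symm
    _ ≤ U ρ l (lev d t) (Res ρ l (mq p)) (mq p) f := by
        refine U_mono hd (fun g hg _ => ?_) (fun g _ _ => by simp) hf
        by_cases hG : g ∈ Gd d C t
        · rw [Set.indicator_of_mem hG, mul_one]
          obtain ⟨-, h2, x, hx⟩ := hG
          have h3 : mq p g ≤ a := by
            refine (ENNReal.rpow_le_rpow h2 (by linarith)).trans ?_
            refine le_trans ?_ (mul_le_mul_right hO _)
            rw [ENNReal.ofReal_rpow_of_pos (by positivity), ← ENNReal.ofReal_mul (by positivity)]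
            refine ENNReal.ofReal_le_ofReal ?_
            have e1 : (C * t) ^ p = (C ^ 2) ^ p * (t / C) ^ p := by
              rw [← Real.mul_rpow (by positivity) (by positivity)]
              congr 1
              field_simp
            have e2 : (C ^ 2) ^ p ≤ C ^ 4 := by
              calc (C ^ 2) ^ p ≤ (C ^ 2) ^ (2 : ℝ) :=
                    Real.rpow_le_rpow_of_exponent_le (one_le_pow₀ hC) hp2
                _ = C ^ 4 := by rw [Real.rpow_two]; ring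
            rw [e1]
            have : 0 ≤ (t / C) ^ p := by positivity
            nlinarith
          calc a + mq p g ≤ a + a := add_le_add le_rfl h3
            _ = ENNReal.ofReal (t / C) ^ p * OO d ρ p l := by
              rw [ha, ← add_mul, ← ENNReal.ofReal_add (by positivity) (by positivity),
                ENNReal.ofReal_rpow_of_pos (by positivity), add_halves]
            _ ≤ g x ^ p * OO d ρ p l :=
              mul_le_mul_left (ENNReal.rpow_le_rpow hx (by linarith)) _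
            _ ≤ _ := site_le_HH hp g x
        · rw [Set.indicator_of_notMem hG, mul_zero, zero_add]
          exact mq_le_HH hd hm hp h0 h1 g
    _ = HH ρ p l f := (Res_eq_U (measurableSet_lev t) h0 h1 (measurable_mq p) f).symm

/-- The gain dominates the occupation integral. -/
theorem t1 (hd : 3 ≤ d) {κ M : ℝ} (hκ : 0 < κ) : ∃ C : ℝ, 1 ≤ C ∧
    ∀ (ρ : Measure ℝ≥0) [IsProbabilityMeasure ρ] (p l : ℝ), Ctx d κ M ρ p l → l ≤ C⁻¹ →
      OO d ρ p l ≠ ⊤ → ENNReal.ofReal C ≤ OO d ρ p l →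
      ∀ (f : Prof d) (t : ℝ), Nice f → 0 < t → 2 * mr f ≤ t →
        II ρ l t f ≤ ENNReal.ofReal (C * t ^ (2 - p)) * (KK d ρ p l * XX ρ p l 0 f) +
          ENNReal.ofReal (C * l ^ (1 / 4 : ℝ) * mr f ^ 2) := by
  obtain ⟨C₁, hC₁, H⟩ := loc (M := M) hd hκ
  have hd1 : 1 ≤ d := by omega
  have hC0 : 0 < C₁ := by linarith
  have hC3 : C₁ ^ 3 ≤ C₁ ^ 4 := pow_le_pow_right₀ hC₁ (by norm_num)
  have hC1 : C₁ ≤ C₁ ^ 4 := le_self_pow₀ hC₁ (by norm_num)
  have hCC : C₁ ≤ 2 * C₁ ^ 4 := by linarith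
  refine ⟨2 * C₁ ^ 4, hC₁.trans hCC, fun ρ _ p l hc hl hO hO' f t hf ht hw => ?_⟩
  obtain ⟨hp1, hp2⟩ := hc.one_lt hd
  have hm := hc.good.1
  have hl0 := hc.l0
  have hl' : l ≤ C₁⁻¹ := hl.trans (inv_anti₀ hC0 hCC)
  have hO0 : OO d ρ p l ≠ 0 := (zero_lt_one.trans_le (one_le_OO hd1 hm hp1.le hc.l0 hc.l1)).ne'
  refine (H ρ hc.good l hc.l0 hl' hc.l1 f t hf ht hw).trans (add_le_add ?_
    (ENNReal.ofReal_le_ofReal (by gcongr)))
  have hg := gloc2_gain hd1 hm hp1.le hp2.le hc.l0 hc.l1 hC₁ ht hO' hf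
  set u := U ρ l (lev d t) ((Gd d C₁ t).indicator fun _ => 1) (fun _ => 0) f
  refine le_trans ?_ (mul_le_mul_right (mul_le_mul_right hg _) _)
  have e : KK d ρ p l * (ENNReal.ofReal ((t / C₁) ^ p / 2) * OO d ρ p l * u) =
      ENNReal.ofReal ((t / C₁) ^ p / 2) * u := by
    rw [KK]
    calc (OO d ρ p l)⁻¹ * (ENNReal.ofReal ((t / C₁) ^ p / 2) * OO d ρ p l * u)
        = ((OO d ρ p l)⁻¹ * OO d ρ p l) * (ENNReal.ofReal ((t / C₁) ^ p / 2) * u) := by ring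
      _ = _ := by rw [ENNReal.inv_mul_cancel hO0 hO, one_mul]
  rw [e, ← mul_assoc, ← ENNReal.ofReal_mul (by positivity)]
  refine mul_le_mul_left (ENNReal.ofReal_le_ofReal ?_) _
  have h1 := gloc2_div_pow (C := C₁) hp2.le ht hC₁
  have h2 : (t / C₁) ^ (-p) * (t / C₁) ^ p = 1 := by
    rw [← Real.rpow_add (by positivity)]; simp
  have h3 : 0 ≤ (t / C₁) ^ p := by positivity
  have h4 : 0 ≤ t ^ (2 - p) * (t / C₁) ^ p := by positivity
  calc C₁ * t ^ 2 = C₁ * (t ^ 2 * (t / C₁) ^ (-p)) * (t / C₁) ^ p := by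
        linear_combination (-(C₁ * t ^ 2)) * h2
    _ ≤ C₁ * (C₁ ^ 2 * t ^ (2 - p)) * (t / C₁) ^ p := by gcongr
    _ = C₁ ^ 3 * (t ^ (2 - p) * (t / C₁) ^ p) := by ring
    _ ≤ C₁ ^ 4 * (t ^ (2 - p) * (t / C₁) ^ p) := by gcongr
    _ = _ := by ring

/-- The moment at the stopping time is controlled by the variance. -/
theorem gloc2_up (hd : 1 ≤ d) {ρ : Measure ℝ≥0} [IsProbabilityMeasure ρ] (hm : Mean1 ρ)
    {χ : ℝ≥0∞} (hχ : mom ρ 2 = 1 + χ) (hχt : χ ≠ ⊤) {l : ℝ} (h0 : 0 < l) (h1 : l < 1) {p : ℝ}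
    (hp : 1 ≤ p) (hp2 : p ≤ 2) (t : ℝ) {f : Prof d} (hf : Nice f) (hw : 0 < mr f) :
    U ρ l (lev d t) (mq p) (mq p) f ≤
      mq p f + ENNReal.ofReal (mr f ^ (p - 2)) * (χ * II ρ l t f) := by
  set w := mr f with hwd
  have hS := measurableSet_lev (d := d) t
  set a : ℝ≥0∞ := ENNReal.ofReal (p * w ^ (p - 1)) with ha
  set b : ℝ≥0∞ := ENNReal.ofReal (w ^ (p - 2)) with hb
  set D : Prof d → ℝ≥0∞ := fun g => ENNReal.ofReal ((mr g - w) ^ 2) with hD
  have mD : Measurable D := ((measurable_mr.sub_const w).pow_const 2).ennreal_ofReal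
  have hfin : a * mass f ≠ ⊤ := ENNReal.mul_ne_top ENNReal.ofReal_ne_top hf.mass_ne_top
  have key : ∀ g : Prof d, Nice g →
      mq p g + a * mass f * 1 ≤ (mq p f * 1 + b * D g) + a * mass g := by
    intro g hg
    have hg0 := gloc2_mr_nonneg g
    rw [gloc2_mq hg (by linarith), gloc2_mq hf (by linarith), ← hg.ofReal_mr, ← hf.ofReal_mr,
      mul_one, mul_one, ha, hb, hD, ← hwd, ← ENNReal.ofReal_mul (by positivity),
      ← ENNReal.ofReal_mul (by positivity), ← ENNReal.ofReal_mul (by positivity),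
      ← ENNReal.ofReal_add (by positivity) (by positivity),
      ← ENNReal.ofReal_add (by positivity) (by positivity),
      ← ENNReal.ofReal_add (by positivity) (by positivity)]
    refine ENNReal.ofReal_le_ofReal ?_
    have := br_le_sq hp hp2 hw hg0
    rw [br] at this
    linarith
  rw [← ENNReal.add_le_add_iff_right hfin]
  calc U ρ l (lev d t) (mq p) (mq p) f + a * mass f
      = U ρ l (lev d t) (fun g => mq p g + a * mass f * 1) (fun g => mq p g + a * mass f * 1) f := by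
        rw [U_add hS (measurable_mq p) measurable_const (measurable_mq p) measurable_const,
          U_const_mul hS measurable_const measurable_const, U_one hS h0 h1, mul_one]
    _ ≤ U ρ l (lev d t) (fun g => (mq p f * 1 + b * D g) + a * mass g)
          (fun g => (mq p f * 1 + b * D g) + a * mass g) f :=
        U_mono hd (fun g hg _ => key g hg) (fun g hg _ => key g hg) hf
    _ = _ := by
        have mE : Measurable fun g => mq p f * 1 + b * D g := (mD.const_mul b).const_add _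
        rw [U_add hS mE (measurable_mass.const_mul a) mE (measurable_mass.const_mul a),
          U_add hS measurable_const (mD.const_mul b) measurable_const (mD.const_mul b),
          U_const_mul hS measurable_const measurable_const, U_one hS h0 h1, mul_one,
          U_const_mul hS mD mD, U_const_mul hS measurable_mass measurable_mass,
          U_mass_lev hd hm h0 h1 t hf, hD, U_dev hd hm hχ hχt h0 h1 t hf]

/-- The occupation integral dominates the gain. -/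
theorem t1' (hd : 3 ≤ d) {κ M : ℝ} (hκ : 0 < κ) : ∃ C : ℝ, 1 ≤ C ∧
    ∀ (ρ : Measure ℝ≥0) [IsProbabilityMeasure ρ] (p l : ℝ), Ctx d κ M ρ p l →
      ∀ (f : Prof d) (t : ℝ), Nice f → 0 < t → 2 * mr f ≤ t →
        XX ρ p l 0 f ≤ ENNReal.ofReal C * (OO d ρ p l * ENNReal.ofReal (t ^ (p - 2)) +
          ENNReal.ofReal (mr f ^ (p - 2))) * II ρ l t f := by
  have hd1 : 1 ≤ d := by omega
  set M' : ℝ := max M 1 with hM'
  have hM1 : 1 ≤ M' := le_max_right _ _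
  refine ⟨8 * M', by linarith, fun ρ _ p l hc f t hf ht hw => ?_⟩
  obtain ⟨hp1, hp2⟩ := hc.one_lt hd
  obtain ⟨χ, hχ, hχt, hχM, -⟩ := gloc2_chi hd hκ hc.good
  have hm := hc.good.1
  have hS := measurableSet_lev (d := d) t
  have hX := XX_zero_add hd1 hm hp1.le hc.l0 hc.l1 (ρ := ρ) (p := p)
  rcases (gloc2_mr_nonneg f).eq_or_lt with hw0 | hw0
  · have h1 : mq p f = 0 := by
      rw [gloc2_mq hf (by linarith), ← hw0, Real.zero_rpow (by linarith), ENNReal.ofReal_zero]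
    have h2 := HH_le (ρ := ρ) (l := l) hp1.le f
    rw [← hX f, h1, mul_zero, add_zero] at h2
    exact h2.trans (zero_le)
  have hfin : mq p f ≠ ⊤ := by rw [gloc2_mq hf (by linarith)]; exact ENNReal.ofReal_ne_top
  have h4 : 4 * χ ≤ ENNReal.ofReal (8 * M') := by
    calc 4 * χ ≤ ENNReal.ofReal 4 * ENNReal.ofReal (2 * M') := by
          gcongr
          simp
      _ = _ := by rw [← ENNReal.ofReal_mul (by norm_num)]; congr 1; ring
  have h1 : χ ≤ ENNReal.ofReal (8 * M') :=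
    hχM.trans (ENNReal.ofReal_le_ofReal (by linarith))
  rw [← ENNReal.add_le_add_iff_right hfin, hX f]
  calc HH ρ p l f = U ρ l (lev d t) (Res ρ l (mq p)) (mq p) f :=
        Res_eq_U hS hc.l0 hc.l1 (measurable_mq p) f
    _ ≤ U ρ l (lev d t) (fun g => OO d ρ p l * mq p g + mq p g)
          (fun g => OO d ρ p l * 0 + mq p g) f :=
        U_mono hd1 (fun g _ _ => (HH_le hp1.le g).trans le_self_add) (fun g _ _ => by simp) hf
    _ = OO d ρ p l * U ρ l (lev d t) (mq p) (fun _ => 0) f +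
          U ρ l (lev d t) (mq p) (mq p) f := by
        rw [U_add hS ((measurable_mq p).const_mul _) (measurable_mq p) measurable_const
          (measurable_mq p), U_const_mul hS (measurable_mq p) measurable_const]
    _ ≤ OO d ρ p l * (ENNReal.ofReal (t ^ (p - 2)) * (4 * χ * II ρ l t f)) +
          (mq p f + ENNReal.ofReal (mr f ^ (p - 2)) * (χ * II ρ l t f)) :=
        add_le_add (mul_le_mul_right
          (gloc2_exit hd1 hm hχ hχt hc.l0 hc.l1 (by linarith) hp2.le ht hf hw) _)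
          (gloc2_up hd1 hm hχ hχt hc.l0 hc.l1 hp1.le hp2.le t hf hw0)
    _ ≤ OO d ρ p l * (ENNReal.ofReal (t ^ (p - 2)) * (ENNReal.ofReal (8 * M') * II ρ l t f)) +
          (mq p f + ENNReal.ofReal (mr f ^ (p - 2)) *
            (ENNReal.ofReal (8 * M') * II ρ l t f)) := by gcongr
    _ = _ := by ring

/-- A convex payoff, quadratic near one and of linear growth. -/
noncomputable def gloc2H (x : ℝ) : ℝ := (x - 1) ^ 2 / (x + 1)

theorem gloc2H_nonneg (x : ℝ) (hx : 0 ≤ x) : 0 ≤ gloc2H x := by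
  unfold gloc2H; positivity

theorem gloc2H_meas : Measurable gloc2H := by
  unfold gloc2H; fun_prop

theorem gloc2H_convex : ConvexOn ℝ (Set.Ici 0) gloc2H := by
  refine ⟨convex_Ici 0, fun x hx y hy a b ha hb hab => ?_⟩
  have hx0 : (0 : ℝ) ≤ x := hx
  have hy0 : (0 : ℝ) ≤ y := hy
  have e : ∀ z : ℝ, 0 ≤ z → gloc2H z = z - 3 + 4 / (z + 1) := fun z hz => by
    unfold gloc2H; field_simp; ring
  have hz : 0 ≤ a * x + b * y := by positivity
  simp only [smul_eq_mul]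
  rw [e x hx0, e y hy0, e _ hz]
  obtain rfl : b = 1 - a := by linarith
  have h : 1 / (a * x + (1 - a) * y + 1) ≤ a / (x + 1) + (1 - a) / (y + 1) := by
    rw [div_add_div _ _ (by positivity) (by positivity), div_le_div_iff₀ (by positivity)
      (by positivity)]
    nlinarith [mul_nonneg (mul_nonneg ha hb) (sq_nonneg (x - y))]
  have e1 : 4 / (a * x + (1 - a) * y + 1) = 4 * (1 / (a * x + (1 - a) * y + 1)) := by ring
  have e2 : a * (x - 3 + 4 / (x + 1)) + (1 - a) * (y - 3 + 4 / (y + 1)) =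
      a * x + (1 - a) * y - 3 + 4 * (a / (x + 1) + (1 - a) / (y + 1)) := by ring
  rw [e1, e2]
  linarith

theorem gloc2H_le_sq {x : ℝ} (hx : 0 ≤ x) : gloc2H x ≤ (x - 1) ^ 2 :=
  div_le_self (sq_nonneg _) (by linarith)

theorem gloc2H_le_lin {x : ℝ} (hx : 0 ≤ x) : gloc2H x ≤ x + 1 := by
  unfold gloc2H
  rw [div_le_iff₀ (by linarith)]
  nlinarith

theorem gloc2H_ge {x A : ℝ} (hx : 0 ≤ x) (hA : x ≤ A) : (x - 1) ^ 2 ≤ (A + 1) * gloc2H x := by
  have e : (x - 1) ^ 2 = (x + 1) * gloc2H x := by unfold gloc2H; field_simp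
  rw [e]
  exact mul_le_mul_of_nonneg_right (by linarith) (gloc2H_nonneg x hx)

theorem gloc2_lift {g : Prof d} (hg : Nice g) (h : ℝ → ℝ) :
    lift h (mass g) = ENNReal.ofReal (h (mr g)) := if_neg hg.mass_ne_top

theorem gloc2_H_meas : Measurable fun u : Prof d => lift gloc2H (mass u) :=
  (measurable_lift gloc2H_meas).comp measurable_mass

theorem gloc2_H_up (hd : 1 ≤ d) {ρ : Measure ℝ≥0} [IsProbabilityMeasure ρ] (hm : Mean1 ρ)
    {χ : ℝ≥0∞} (hχ : mom ρ 2 = 1 + χ) (hχt : χ ≠ ⊤) {l : ℝ} (h0 : 0 < l) (h1 : l < 1)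
    {f : Prof d} (hf : Nice f) (hw : mr f = 1) :
    Res ρ l (fun u => lift gloc2H (mass u)) f ≤ 3 * (χ * II ρ l 2 f) := by
  have hS := measurableSet_lev (d := d) 2
  have mD : Measurable fun g : Prof d => ENNReal.ofReal ((mr g - mr f) ^ 2) :=
    ((measurable_mr.sub_const _).pow_const 2).ennreal_ofReal
  rw [Res_eq_U hS h0 h1 gloc2_H_meas, ← U_dev hd hm hχ hχt h0 h1 2 hf, ← U_const_mul hS mD mD,
    hw]
  have e3 : ∀ x : ℝ, (3 : ℝ≥0∞) * ENNReal.ofReal x = ENNReal.ofReal (3 * x) := fun x => by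
    rw [ENNReal.ofReal_mul (by norm_num)]; simp
  refine U_mono hd (fun g hg hgS => ?_) (fun g hg _ => ?_) hf
  · have h2 := (gloc2_lev hg 2).1 hgS
    calc Res ρ l (fun u => lift gloc2H (mass u)) g ≤ Res ρ l (fun u => mass u + 1) g := by
          refine Res_mono_nice hd (fun u hu => ?_) hg
          rw [gloc2_lift hu, ← hu.ofReal_mr, ← ENNReal.ofReal_one,
            ← ENNReal.ofReal_add (gloc2_mr_nonneg u) zero_le_one]
          exact ENNReal.ofReal_le_ofReal (gloc2H_le_lin (gloc2_mr_nonneg u))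
      _ = mass g + 1 := by
          rw [Res_add measurable_mass, Res_mass hd hm h0 h1, Res_const h0 h1]
      _ ≤ _ := by
          rw [e3, ← hg.ofReal_mr, ← ENNReal.ofReal_one,
            ← ENNReal.ofReal_add (gloc2_mr_nonneg g) zero_le_one]
          exact ENNReal.ofReal_le_ofReal (by nlinarith)
  · rw [gloc2_lift hg, e3]
    exact ENNReal.ofReal_le_ofReal ((gloc2H_le_sq (gloc2_mr_nonneg g)).trans
      (by nlinarith [sq_nonneg (mr g - 1)]))

theorem gloc2_H_low (hd : 1 ≤ d) {ρ : Measure ℝ≥0} [IsProbabilityMeasure ρ] (hm : Mean1 ρ)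
    {χ : ℝ≥0∞} (hχ : mom ρ 2 = 1 + χ) (hχt : χ ≠ ⊤) {l : ℝ} (h0 : 0 < l) (h1 : l < 1)
    {f : Prof d} (hf : Nice f) (hw : mr f = 1) {B : ℝ} (hB : 2 ≤ B) :
    χ * II ρ l 2 f ≤ ENNReal.ofReal (B + 1) * Res ρ l (fun u => lift gloc2H (mass u)) f +
      U ρ l (lev d 2) ((lev d B).indicator (mq 2)) (fun _ => 0) f := by
  have hS := measurableSet_lev (d := d) 2
  have mI : Measurable ((lev d B).indicator (mq 2)) :=
    (measurable_mq 2).indicator (measurableSet_lev B)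
  have mH := gloc2_H_meas (d := d)
  have hsm : ∀ g : Prof d, Nice g → mr g ≤ B → ENNReal.ofReal ((mr g - 1) ^ 2) ≤
      ENNReal.ofReal (B + 1) * lift gloc2H (mass g) := fun g hg h => by
    rw [gloc2_lift hg, ← ENNReal.ofReal_mul (by linarith)]
    exact ENNReal.ofReal_le_ofReal (gloc2H_ge (gloc2_mr_nonneg g) h)
  rw [Res_eq_U hS h0 h1 mH, ← U_dev hd hm hχ hχt h0 h1 2 hf, hw,
    ← U_const_mul hS (measurable_Res mH) mH,
    ← U_add hS ((measurable_Res mH).const_mul _) mI (mH.const_mul _) measurable_const]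
  refine U_mono hd (fun g hg hgS => ?_) (fun g hg hgS => ?_) hf
  · by_cases hgB : g ∈ lev d B
    · rw [Set.indicator_of_mem hgB, gloc2_mq_two hg]
      have := (gloc2_lev hg B).1 hgB
      exact (ENNReal.ofReal_le_ofReal (by nlinarith)).trans le_add_self
    · rw [Set.indicator_of_notMem hgB, add_zero]
      refine (hsm g hg (le_of_not_ge fun h => hgB ((gloc2_lev hg B).2 h))).trans
        (mul_le_mul_right ?_ _)
      have := le_Res (ρ := ρ) hd h0 h1 (Φ := fun u => lift gloc2H (mass u))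
        (fun u hu => pay_sub hd hm gloc2H_convex gloc2H_meas gloc2H_nonneg hu) 0 hg
      simpa using this
  · rw [add_zero]
    exact hsm g hg ((le_of_not_ge fun h => hgS ((gloc2_lev hg 2).2 h)).trans hB)

/-- The occupation integral is monotone in convex order, up to a constant. -/
theorem trans_II (hd : 3 ≤ d) {κ M : ℝ} (hκ : 0 < κ) : ∃ C : ℝ, 1 ≤ C ∧
    ∀ (ρ₁ ρ₂ : Measure ℝ≥0) [IsProbabilityMeasure ρ₁] [IsProbabilityMeasure ρ₂],
      Good d κ M ρ₁ → Good d κ M ρ₂ → CxLe ρ₁ ρ₂ → ∀ l : ℝ, 0 < l → l < 1 →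
      ∀ f : Prof d, Nice f → mass f = 1 → II ρ₁ l 2 f ≤ ENNReal.ofReal C * II ρ₂ l 2 f := by
  obtain ⟨C₀, hC₀, H⟩ := U_over (M := M) hd hκ
  have hd1 : 1 ≤ d := by omega
  set M' : ℝ := max M 1 with hM'
  have hM1 : 1 ≤ M' := le_max_right _ _
  set γ : ℝ := (gsum d).toReal with hγ
  have hγ0 : 0 ≤ γ := ENNReal.toReal_nonneg
  set A : ℝ := 2 + 2 * C₀ * γ with hA
  have hA2 : 2 ≤ A := by rw [hA]; nlinarith [mul_nonneg (show 0 ≤ C₀ by linarith) hγ0]
  refine ⟨1 + 2 * γ * (A * 2 + 1) * (6 * M'), le_add_of_nonneg_right (by positivity),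
    fun ρ₁ ρ₂ _ _ h₁ h₂ hcx l h0 h1 f hf hf1 => ?_⟩
  have hγp : 0 < γ := (h₁.basic hd hκ).2.2.2.2
  obtain ⟨χ₁, hχ₁, hχt₁, -, hχ₁'⟩ := gloc2_chi hd hκ h₁
  obtain ⟨χ₂, hχ₂, hχt₂, hχ₂', -⟩ := gloc2_chi hd hκ h₂
  have hw : mr f = 1 := by rw [mr, hf1]; rfl
  have hfin : II ρ₁ l 2 f ≠ ⊤ := ne_top_of_le_ne_top ENNReal.ofReal_ne_top (II_le hd1 h0 h1 2 hf)
  have a1 := gloc2_H_low hd1 h₁.1 hχ₁ hχt₁ h0 h1 hf hw (B := A * 2) (by linarith)
  have a2 := H ρ₁ h₁ l h0 h1 f A 2 hf hA2 (by rw [hw]; norm_num)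
  have a3 := cx_Res hd1 hcx gloc2H_convex gloc2H_meas gloc2H_nonneg l hf
  have a4 := gloc2_H_up hd1 h₂.1 hχ₂ hχt₂ h0 h1 hf hw
  have a5 : ENNReal.ofReal (C₀ / A) ≤ ENNReal.ofReal (γ⁻¹ / 2) := by
    refine ENNReal.ofReal_le_ofReal ?_
    rw [div_le_div_iff₀ (by linarith) (by norm_num), hA]
    have : γ⁻¹ * (2 + 2 * C₀ * γ) = 2 * γ⁻¹ + C₀ * 2 := by field_simp
    rw [this]
    have : 0 ≤ γ⁻¹ := by positivity
    linarith
  have a6 : ENNReal.ofReal (γ⁻¹ / 2) * II ρ₁ l 2 f + ENNReal.ofReal (γ⁻¹ / 2) * II ρ₁ l 2 f ≤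
      ENNReal.ofReal (A * 2 + 1) * (3 * (ENNReal.ofReal (2 * M') * II ρ₂ l 2 f)) +
        ENNReal.ofReal (γ⁻¹ / 2) * II ρ₁ l 2 f := by
    rw [← add_mul, ← ENNReal.ofReal_add (by positivity) (by positivity), add_halves]
    refine (mul_le_mul_left hχ₁' _).trans (a1.trans (add_le_add (mul_le_mul_right
      (a3.trans (a4.trans ?_)) _) (a2.trans (mul_le_mul_left a5 _))))
    gcongr
  rw [ENNReal.add_le_add_iff_right (ENNReal.mul_ne_top ENNReal.ofReal_ne_top hfin)] at a6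
  calc II ρ₁ l 2 f = ENNReal.ofReal (2 * γ) * (ENNReal.ofReal (γ⁻¹ / 2) * II ρ₁ l 2 f) := by
        rw [← mul_assoc, ← ENNReal.ofReal_mul (by positivity)]
        have : 2 * γ * (γ⁻¹ / 2) = 1 := by field_simp
        rw [this, ENNReal.ofReal_one, one_mul]
    _ ≤ ENNReal.ofReal (2 * γ) *
          (ENNReal.ofReal (A * 2 + 1) * (3 * (ENNReal.ofReal (2 * M') * II ρ₂ l 2 f))) :=
        mul_le_mul_right a6 _
    _ = ENNReal.ofReal (2 * γ * (A * 2 + 1) * (3 * (2 * M'))) * II ρ₂ l 2 f := by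
        rw [ENNReal.ofReal_mul (p := 2 * γ * (A * 2 + 1)) (by positivity),
          ENNReal.ofReal_mul (p := 2 * γ) (by positivity),
          ENNReal.ofReal_mul (p := 3) (by norm_num)]
        simp only [ENNReal.ofReal_ofNat]
        ring
    _ ≤ _ := mul_le_mul_left (ENNReal.ofReal_le_ofReal (by linarith)) _

/-- Transfer of the normalised gain between laws and exponents. -/
theorem trans (hd : 3 ≤ d) {κ M : ℝ} (hκ : 0 < κ) : ∃ C : ℝ, 1 ≤ C ∧
    ∀ (ρ₁ ρ₂ : Measure ℝ≥0) [IsProbabilityMeasure ρ₁] [IsProbabilityMeasure ρ₂] (p₁ p₂ l : ℝ),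
      Ctx d κ M ρ₁ p₁ l → Ctx d κ M ρ₂ p₂ l → CxLe ρ₁ ρ₂ → l ≤ C⁻¹ → OO d ρ₂ p₂ l ≠ ⊤ →
      ENNReal.ofReal C ≤ OO d ρ₂ p₂ l → ∀ m : ℕ,
        Ar d ρ₁ p₁ l m ≤ C * (Ar d ρ₂ p₂ l m + l ^ (1 / 4 : ℝ)) := by
  obtain ⟨C₁, hC₁, H₁⟩ := t1 (M := M) hd hκ
  obtain ⟨C₂, hC₂, H₂⟩ := t1' (M := M) hd hκ
  obtain ⟨C₃, hC₃, H₃⟩ := trans_II (M := M) hd hκ
  have hd1 : 1 ≤ d := by omega
  have h23 : 1 ≤ C₂ * C₃ := one_le_mul_of_one_le_of_one_le hC₂ hC₃
  have hCC : C₁ ≤ 4 * (C₂ * C₃) * C₁ := by nlinarith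
  refine ⟨4 * (C₂ * C₃) * C₁, hC₁.trans hCC,
    fun ρ₁ ρ₂ _ _ p₁ p₂ l hc₁ hc₂ hcx hl hO hO' m => ?_⟩
  obtain ⟨hp1, hp2⟩ := hc₁.one_lt hd
  obtain ⟨hq1, hq2⟩ := hc₂.one_lt hd
  have hl0 := hc₁.l0
  have hf := nice_phi hd1 m
  have hw : mr (phi d m) = 1 := by rw [mr, mass_phi hd1]; rfl
  have hA0 : 0 ≤ Ar d ρ₂ p₂ l m := ENNReal.toReal_nonneg
  have a1 := H₂ ρ₁ p₁ l hc₁ (phi d m) 2 hf (by norm_num) (by rw [hw]; norm_num)
  have a2 := H₃ ρ₁ ρ₂ hc₁.good hc₂.good hcx l hc₁.l0 hc₁.l1 (phi d m) hf (mass_phi hd1 m)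
  have a3 := H₁ ρ₂ p₂ l hc₂ (hl.trans (inv_anti₀ (by linarith) hCC)) hO
    ((ENNReal.ofReal_le_ofReal hCC).trans hO') (phi d m) 2 hf (by norm_num)
    (by rw [hw]; norm_num)
  rw [(Kr_add_Ar hd1 hc₂.good.1 hq1.le hc₂.l0 hc₂.l1 hO m).2.2, hw,
    ← ENNReal.ofReal_mul (by positivity),
    ← ENNReal.ofReal_add (by positivity) (by positivity)] at a3
  rw [hw, Real.one_rpow, ENNReal.ofReal_one] at a1
  have a4 : KK d ρ₁ p₁ l * (OO d ρ₁ p₁ l * ENNReal.ofReal ((2 : ℝ) ^ (p₁ - 2)) + 1) ≤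
      ENNReal.ofReal 2 := by
    have b1 : ENNReal.ofReal ((2 : ℝ) ^ (p₁ - 2)) ≤ 1 :=
      ENNReal.ofReal_le_one.2 (Real.rpow_le_one_of_one_le_of_nonpos (by norm_num) (by linarith))
    have b2 : KK d ρ₁ p₁ l ≤ 1 :=
      ENNReal.inv_le_one.2 (one_le_OO hd1 hc₁.good.1 hp1.le hc₁.l0 hc₁.l1)
    have b3 : KK d ρ₁ p₁ l * OO d ρ₁ p₁ l ≤ 1 := ENNReal.inv_mul_le_one _
    calc KK d ρ₁ p₁ l * (OO d ρ₁ p₁ l * ENNReal.ofReal ((2 : ℝ) ^ (p₁ - 2)) + 1)
        = KK d ρ₁ p₁ l * OO d ρ₁ p₁ l * ENNReal.ofReal ((2 : ℝ) ^ (p₁ - 2)) + KK d ρ₁ p₁ l := by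
          ring
      _ ≤ 1 * 1 + 1 := by gcongr
      _ = _ := by norm_num
  refine ENNReal.toReal_le_of_le_ofReal (by positivity) ?_
  calc KK d ρ₁ p₁ l * XX ρ₁ p₁ l 0 (phi d m)
      ≤ KK d ρ₁ p₁ l * (ENNReal.ofReal C₂ *
          (OO d ρ₁ p₁ l * ENNReal.ofReal ((2 : ℝ) ^ (p₁ - 2)) + 1) * II ρ₁ l 2 (phi d m)) :=
        mul_le_mul_right a1 _
    _ = ENNReal.ofReal C₂ * (KK d ρ₁ p₁ l *
          (OO d ρ₁ p₁ l * ENNReal.ofReal ((2 : ℝ) ^ (p₁ - 2)) + 1)) * II ρ₁ l 2 (phi d m) := by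
        ring
    _ ≤ ENNReal.ofReal C₂ * ENNReal.ofReal 2 * (ENNReal.ofReal C₃ * ENNReal.ofReal
          (C₁ * 2 ^ (2 - p₂) * Ar d ρ₂ p₂ l m + C₁ * l ^ (1 / 4 : ℝ) * 1 ^ 2)) :=
        mul_le_mul' (mul_le_mul_right a4 _) (a2.trans (mul_le_mul_right a3 _))
    _ ≤ _ := by
        rw [← ENNReal.ofReal_mul (by linarith), ← ENNReal.ofReal_mul (by linarith),
          ← ENNReal.ofReal_mul (by positivity)]
        refine ENNReal.ofReal_le_ofReal ?_
        have b1 : (2 : ℝ) ^ (2 - p₂) ≤ 2 := by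
          calc (2 : ℝ) ^ (2 - p₂) ≤ 2 ^ (1 : ℝ) :=
                Real.rpow_le_rpow_of_exponent_le (by norm_num) (by linarith)
            _ = 2 := Real.rpow_one 2
        have b2 : 0 ≤ l ^ (1 / 4 : ℝ) := by positivity
        have b3 : C₁ * 2 ^ (2 - p₂) * Ar d ρ₂ p₂ l m + C₁ * l ^ (1 / 4 : ℝ) * 1 ^ 2 ≤
            2 * C₁ * (Ar d ρ₂ p₂ l m + l ^ (1 / 4 : ℝ)) := by
          have c1 : C₁ * 2 ^ (2 - p₂) * Ar d ρ₂ p₂ l m ≤ C₁ * 2 * Ar d ρ₂ p₂ l m := by gcongr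
          have c2 : 0 ≤ C₁ * l ^ (1 / 4 : ℝ) := by positivity
          linarith
        calc C₂ * 2 * (C₃ * (C₁ * 2 ^ (2 - p₂) * Ar d ρ₂ p₂ l m + C₁ * l ^ (1 / 4 : ℝ) * 1 ^ 2))
            ≤ C₂ * 2 * (C₃ * (2 * C₁ * (Ar d ρ₂ p₂ l m + l ^ (1 / 4 : ℝ)))) := by gcongr
          _ = _ := by ring

end Pool.Agent.Lib.MP_153faa_pr
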