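import Mathlib
import Pool.Agent.Lib.MP_153faa_pr.GLoc2
import Pool.Agent.Lib.MP_153faa_pr.GCont
import Pool.Agent.Lib.MP_153faa_pr.GHK1

set_option autoImplicit false

open MeasureTheory Filter Topology
open scoped ENNReal NNReal

namespace Pool.Agent.Lib.MP_153faa_pr

variable {d : ℕ}

theorem gloc4_mr_nonneg (f : Prof d) : 0 ≤ mr f := ENNReal.toReal_nonneg

theorem gloc4_mq {f : Prof d} (hf : Nice f) {q : ℝ} (hq : 0 ≤ q) :
    mq q f = ENNReal.ofReal (mr f ^ q) := by
  rw [mq, ← hf.ofReal_mr, ENNReal.ofReal_rpow_of_nonneg (gloc4_mr_nonneg f) hq]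

theorem gloc4_lev {f : Prof d} (hf : Nice f) {t : ℝ} : f ∈ lev d t ↔ t ≤ mr f := by
  change ENNReal.ofReal t ≤ mass f ↔ _
  rw [← hf.ofReal_mr, ENNReal.ofReal_le_ofReal_iff (gloc4_mr_nonneg f)]

/-- comparison of powers above a threshold -/
theorem gloc4_pow_ge {a m r s : ℝ} (ha : 0 < a) (h : a ≤ m) (hrs : r ≤ s) :
    m ^ r ≤ a ^ (r - s) * m ^ s := by
  have hm : 0 < m := ha.trans_le h
  have h1 : m ^ r = m ^ (r - s) * m ^ s := by rw [← Real.rpow_add hm]; ring_nf
  rw [h1]
  exact mul_le_mul_of_nonneg_right (Real.rpow_le_rpow_of_nonpos ha h (by linarith))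
    (Real.rpow_nonneg hm.le _)

theorem gloc4_p_le {ρ : Measure ℝ≥0} {κ M p l : ℝ} (hd : 3 ≤ d) (h : Ctx d κ M ρ p l) :
    p ≤ 5 / 3 := by
  have h1 := h.p2
  have h3 : (3 : ℝ) ≤ d := by exact_mod_cast hd
  have : (2 : ℝ) / d ≤ 2 / 3 := div_le_div_of_nonneg_left (by norm_num) (by norm_num) h3
  unfold q0 at h1
  linarith

section
variable {ρ : Measure ℝ≥0} [IsProbabilityMeasure ρ] {l p : ℝ}

/-- the killed part carries a fixed fraction of the moment -/
theorem gloc4_kill (hd : 1 ≤ d) (hm : Mean1 ρ) (h0 : 0 < l) (h1 : l < 1) (hp : 1 ≤ p)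
    (hp2 : p ≤ 2) {g : Prof d} (hg : Nice g) (hw : 0 < mr g) {A C : ℝ} (hA : 0 < A)
    (hAC : 4 * C ≤ A ^ (p - 1))
    (ht : U ρ l (lev d (A * mr g)) (mq p) (fun _ => 0) g ≤ ENNReal.ofReal C * mq p g) :
    ENNReal.ofReal (mr g ^ p / 8) ≤ U ρ l (lev d (A * mr g)) (fun _ => 0) (mq p) g := by
  set w := mr g with hwdef
  set S := lev d (A * w)
  have hS : MeasurableSet S := measurableSet_lev _
  have hp0 : 0 ≤ p := by linarith
  have hAw : 0 < A * w := mul_pos hA hw
  have e1 : U ρ l S mass (fun _ => 0) g ≤ ENNReal.ofReal (w / 4) := by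
    calc U ρ l S mass (fun _ => 0) g
        ≤ U ρ l S (fun u => ENNReal.ofReal ((A * w) ^ (1 - p)) * mq p u)
          (fun _ => ENNReal.ofReal ((A * w) ^ (1 - p)) * 0) g := by
          refine U_mono hd (fun u hu huS => ?_) (fun _ _ _ => by simp) hg
          rw [gloc4_mq hu hp0, ← hu.ofReal_mr, ← ENNReal.ofReal_mul (by positivity)]
          refine ENNReal.ofReal_le_ofReal ?_
          have := gloc4_pow_ge hAw ((gloc4_lev hu).1 huS) hp
          rwa [Real.rpow_one] at this
      _ = ENNReal.ofReal ((A * w) ^ (1 - p)) * U ρ l S (mq p) (fun _ => 0) g :=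
          U_const_mul hS (measurable_mq p) measurable_const _ _
      _ ≤ ENNReal.ofReal ((A * w) ^ (1 - p)) * (ENNReal.ofReal (A ^ (p - 1) / 4) * mq p g) := by
          refine mul_le_mul_right (ht.trans ?_) _
          exact mul_le_mul_left (ENNReal.ofReal_le_ofReal (by linarith)) _
      _ = ENNReal.ofReal (w / 4) := by
          rw [gloc4_mq hg hp0, ← ENNReal.ofReal_mul (by positivity),
            ← ENNReal.ofReal_mul (by positivity), Real.mul_rpow hA.le hw.le]
          congr 1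
          have a1 : A ^ (1 - p) * A ^ (p - 1) = 1 := by
            rw [← Real.rpow_add hA]; simp
          have a2 : w ^ (1 - p) * w ^ p = w := by
            rw [← Real.rpow_add hw]; simp
          calc A ^ (1 - p) * w ^ (1 - p) * (A ^ (p - 1) / 4 * w ^ p)
              = (A ^ (1 - p) * A ^ (p - 1)) * (w ^ (1 - p) * w ^ p) / 4 := by ring
            _ = w / 4 := by rw [a1, a2, one_mul]
  have hw2 : 0 < w / 2 := by linarith
  have e2 : U ρ l S (fun _ => 0) mass g ≤ ENNReal.ofReal (w / 2) +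
      ENNReal.ofReal ((w / 2) ^ (1 - p)) * U ρ l S (fun _ => 0) (mq p) g := by
    calc U ρ l S (fun _ => 0) mass g
        ≤ U ρ l S (fun _ => ENNReal.ofReal (w / 2) * 1 + ENNReal.ofReal ((w / 2) ^ (1 - p)) * 0)
          (fun u => ENNReal.ofReal (w / 2) * 1 + ENNReal.ofReal ((w / 2) ^ (1 - p)) * mq p u) g := by
          refine U_mono hd (fun _ _ _ => zero_le) (fun u hu _ => ?_) hg
          rw [gloc4_mq hu hp0, ← hu.ofReal_mr, ← ENNReal.ofReal_mul (by positivity), mul_one]
          rcases le_total (mr u) (w / 2) with h | h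
          · exact (ENNReal.ofReal_le_ofReal h).trans le_self_add
          · refine le_trans (ENNReal.ofReal_le_ofReal ?_) le_add_self
            have := gloc4_pow_ge hw2 h hp
            rwa [Real.rpow_one] at this
      _ = _ := by
          rw [U_add hS measurable_const measurable_const measurable_const
            ((measurable_mq p).const_mul _), U_const_mul hS measurable_const measurable_const,
            U_const_mul hS measurable_const (measurable_mq p), U_one hS h0 h1, mul_one]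
  have e3 : ENNReal.ofReal w = U ρ l S mass (fun _ => 0) g + U ρ l S (fun _ => 0) mass g := by
    rw [← U_split hS measurable_mass measurable_mass, U_mass_lev hd hm h0 h1 _ hg, hg.ofReal_mr]
  set u := U ρ l S (fun _ => 0) (mq p) g
  rcases eq_or_ne u ⊤ with hu | hu
  · rw [hu]; exact le_top
  have e4 : ENNReal.ofReal w ≤ ENNReal.ofReal (w / 4 + (w / 2 + (w / 2) ^ (1 - p) * u.toReal)) := by
    rw [e3, ENNReal.ofReal_add (by positivity) (by positivity),
      ENNReal.ofReal_add (by positivity) (by positivity), ENNReal.ofReal_mul (by positivity),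
      ENNReal.ofReal_toReal hu]
    exact add_le_add e1 e2
  rw [ENNReal.ofReal_le_ofReal_iff (by positivity)] at e4
  rw [← ENNReal.ofReal_toReal hu]
  refine ENNReal.ofReal_le_ofReal ?_
  have a1 : (w / 2) ^ (p - 1) * (w / 2) ^ (1 - p) = 1 := by
    rw [← Real.rpow_add hw2]; simp
  have a2 : w ^ p = w * w ^ (p - 1) := by
    conv_lhs => rw [show p = 1 + (p - 1) by ring, Real.rpow_add hw, Real.rpow_one]
  have a3 : w ^ (p - 1) / 2 ≤ (w / 2) ^ (p - 1) := by
    rw [Real.div_rpow hw.le (by norm_num)]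
    refine div_le_div_of_nonneg_left (by positivity) (by positivity) ?_
    calc (2 : ℝ) ^ (p - 1) ≤ 2 ^ (1 : ℝ) :=
          Real.rpow_le_rpow_of_exponent_le (by norm_num) (by linarith)
      _ = 2 := Real.rpow_one 2
  have a4 : w / 4 ≤ (w / 2) ^ (1 - p) * u.toReal := by linarith
  have a5 : (w / 2) ^ (p - 1) * (w / 4) ≤ u.toReal := by
    calc (w / 2) ^ (p - 1) * (w / 4) ≤ (w / 2) ^ (p - 1) * ((w / 2) ^ (1 - p) * u.toReal) :=
          mul_le_mul_of_nonneg_left a4 (by positivity)
      _ = u.toReal := by rw [← mul_assoc, a1, one_mul]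
  calc w ^ p / 8 = w ^ (p - 1) / 2 * (w / 4) := by rw [a2]; ring
    _ ≤ (w / 2) ^ (p - 1) * (w / 4) := mul_le_mul_of_nonneg_right a3 (by positivity)
    _ ≤ u.toReal := a5

/-- truncated resolvents are dominated by the stopped resolvent -/
theorem gloc4_trunc (Φ : Prof d → ℝ≥0∞) (hΦ : Measurable Φ) (F : Prof d → ℝ≥0∞)
    {S : Set (Prof d)} (hS : MeasurableSet S) (n : ℕ) {g : Prof d} (hg : g ∉ S) :
    Un ρ l ∅ F Φ (n + 1) g ≤ U ρ l S (Un ρ l ∅ F Φ n) Φ g := by
  have hz : ∀ u, Un ρ l ∅ F Φ 0 u = 0 := fun u => by simp [Un]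
  have hs : ∀ m u, Un ρ l ∅ F Φ (m + 1) u =
      ENNReal.ofReal l * Φ u + ENNReal.ofReal (1 - l) * T ρ (Un ρ l ∅ F Φ m) u := fun m u => by
    simp [Un]
  have hme : ∀ m, Measurable (Un ρ l ∅ F Φ m) := by
    intro m
    induction m with
    | zero => rw [show Un ρ l ∅ F Φ 0 = fun _ => 0 from funext hz]; exact measurable_const
    | succ m ih =>
      rw [show Un ρ l ∅ F Φ (m + 1) = _ from funext (hs m)]
      exact (hΦ.const_mul _).add ((measurable_T ih).const_mul _)
  have hmono : ∀ u, Monotone fun m => Un ρ l ∅ F Φ m u := by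
    have : ∀ m u, Un ρ l ∅ F Φ m u ≤ Un ρ l ∅ F Φ (m + 1) u := by
      intro m
      induction m with
      | zero => intro u; rw [hz]; exact zero_le
      | succ m ih =>
        intro u
        rw [hs, hs (m + 1)]
        exact add_le_add le_rfl (mul_le_mul_right (T_mono ih u) _)
    exact fun u => monotone_nat_of_le_succ fun m => this m u
  have key : ∀ m ≤ n, ∀ u, Un ρ l ∅ F Φ m u ≤ U ρ l S (Un ρ l ∅ F Φ n) Φ u := by
    intro m
    induction m with
    | zero => intro _ u; rw [hz]; exact zero_le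
    | succ m ih =>
      intro hm u
      by_cases hu : u ∈ S
      · rw [U_mem hu]; exact hmono u hm
      · rw [U_not_mem hS (hme n) hΦ hu, hs]
        exact add_le_add le_rfl (mul_le_mul_right (T_mono (ih (by omega)) u) _)
  rw [U_not_mem hS (hme n) hΦ hg, hs]
  exact add_le_add le_rfl (mul_le_mul_right (T_mono (key n le_rfl) g) _)

end

/-- contraction of the weighted moment functional at the exit from a level -/
theorem gloc4_contr (hd : 3 ≤ d) {κ M : ℝ} (hκ : 0 < κ) : ∃ C A : ℝ, 3 ≤ C ∧ 2 ≤ A ∧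
    ∀ (ρ : Measure ℝ≥0) [IsProbabilityMeasure ρ] (p l : ℝ), Ctx d κ M ρ p l → l ≤ C⁻¹ →
      ∀ Y x : ℝ, 1 ≤ Y → OO d ρ p l ≤ ENNReal.ofReal Y → 0 ≤ x →
        C * Y * (1 + Real.log Y) * x ≤ 1 → ∀ g : Prof d, Nice g → 0 < mr g →
        U ρ l (lev d (A * mr g)) (fun u => HH ρ p l u * mq x u) (fun _ => 0) g ≤
          ENNReal.ofReal (1 - 1 / (16 * Y)) * (HH ρ p l g * mq x g) := by
  obtain ⟨C₁, hC₁, hov⟩ := U_over hd (M := M) hκ
  obtain ⟨C₂, hC₂, ht0⟩ := t0 hd (M := M) hκ
  have hd1 : 1 ≤ d := by omega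
  have hdR : (0 : ℝ) < d := by exact_mod_cast (by omega : 0 < d)
  set A : ℝ := (4 * C₂) ^ d with hAdef
  have hA4 : 4 * C₂ ≤ A := le_self_pow₀ (by linarith) (by omega)
  have hA2 : 2 ≤ A := by linarith
  set B : ℝ := 32 * C₁ * C₂ * A ^ 2 with hBdef
  have hCC : 1 ≤ C₁ * C₂ := one_le_mul_of_one_le_of_one_le hC₁ hC₂
  have hBA : 2 * A ≤ B := by
    have : B = 32 * (C₁ * C₂) * A ^ 2 := by rw [hBdef]; ring
    nlinarith
  have hB1 : 1 ≤ B := by linarith
  have hlB : 0 ≤ Real.log B := Real.log_nonneg hB1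
  refine ⟨64 * (Real.log B + 2) + C₂, A, by linarith, hA2, ?_⟩
  intro ρ _ p l hc hl Y x hY hO hx hCx g hg hw
  obtain ⟨hp1, hp2⟩ := hc.one_lt hd
  have hp53 := gloc4_p_le hd hc
  have hm : Mean1 ρ := hc.good.1
  have h0 := hc.l0
  have h1 := hc.l1
  have hlY : 0 ≤ Real.log Y := Real.log_nonneg hY
  have hY0 : 0 < Y := by linarith
  have hOt : OO d ρ p l ≠ ⊤ := ne_top_of_le_ne_top ENNReal.ofReal_ne_top hO
  have hl2 : l ≤ C₂⁻¹ := hl.trans (inv_anti₀ (by linarith) (by linarith))
  have hCx' : 64 * (Real.log B + 2) * (Y * (1 + Real.log Y) * x) ≤ 1 := by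
    have : 0 ≤ C₂ * (Y * (1 + Real.log Y) * x) := by positivity
    nlinarith
  have hx3 : x ≤ 1 / 3 := by
    have a1 : x ≤ Y * (1 + Real.log Y) * x :=
      le_mul_of_one_le_left hx (one_le_mul_of_one_le_of_one_le hY (by linarith))
    nlinarith
  set w := mr g with hwdef
  set S := lev d (A * w)
  have hS : MeasurableSet S := measurableSet_lev _
  have hAw : 0 < A * w := by positivity
  obtain ⟨hII, hUp, -⟩ := ht0 ρ p l hc hl2 hOt g (A * w) hg hAw (by nlinarith)
  have hAp : 4 * C₂ ≤ A ^ (p - 1) := by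
    calc 4 * C₂ = A ^ ((d : ℝ)⁻¹) := by
          rw [hAdef, Real.pow_rpow_inv_natCast (by linarith) (by omega)]
      _ ≤ A ^ (p - 1) := Real.rpow_le_rpow_of_exponent_le (by linarith)
          (by have := hc.p1; rw [one_div] at this; linarith)
  have hk := gloc4_kill hd1 hm h0 h1 hp1.le hp2.le hg hw (by linarith) hAp hUp
  have hHle : HH ρ p l g ≤ ENNReal.ofReal (Y * w ^ p) := by
    rw [ENNReal.ofReal_mul hY0.le, ← gloc4_mq hg (by linarith)]
    exact (HH_le hp1.le g).trans (mul_le_mul_left hO _)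
  have hHt : HH ρ p l g ≠ ⊤ := ne_top_of_le_ne_top ENNReal.ofReal_ne_top hHle
  set h := (HH ρ p l g).toReal with hh
  have hh0 : 0 ≤ h := ENNReal.toReal_nonneg
  have hHe : HH ρ p l g = ENNReal.ofReal h := (ENNReal.ofReal_toReal hHt).symm
  have hhY : h ≤ Y * w ^ p := by
    rwa [hHe, ENNReal.ofReal_le_ofReal_iff (by positivity)] at hHle
  have hwh : w ^ p ≤ h := by
    have := mq_le_HH hd1 hm hp1.le h0 h1 g
    rwa [hHe, gloc4_mq hg (by linarith), ENNReal.ofReal_le_ofReal_iff hh0] at this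
  have e1 : U ρ l S (HH ρ p l) (fun _ => 0) g ≤ ENNReal.ofReal (h - w ^ p / 8) := by
    have a1 : HH ρ p l g = U ρ l S (HH ρ p l) (fun _ => 0) g + U ρ l S (fun _ => 0) (mq p) g := by
      rw [← U_split hS measurable_HH (measurable_mq p)]
      exact Res_eq_U hS h0 h1 (measurable_mq p) g
    rw [ENNReal.ofReal_sub _ (by positivity), ← hHe]
    refine ENNReal.le_sub_of_add_le_right ENNReal.ofReal_ne_top ?_
    rw [a1]
    exact add_le_add le_rfl hk
  set A' : ℝ := B * Y ^ 2 with hA'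
  have hY2 : 1 ≤ Y ^ 2 := one_le_pow₀ hY
  have hBA' : B ≤ A' := le_mul_of_one_le_right (by linarith) hY2
  have hA'0 : 0 < A' := by linarith
  have hA0 : 0 < A := by linarith
  have hlev : A' / A * (A * w) = A' * w := by field_simp
  have e2 := hov ρ hc.good l h0 h1 g (A' / A) (A * w) hg
    (by rw [le_div_iff₀ hA0]; linarith) (by nlinarith)
  rw [hlev] at e2
  have e3 : U ρ l S (fun u => HH ρ p l u * mq x u) (fun _ => 0) g ≤
      ENNReal.ofReal ((A' * w) ^ x) * U ρ l S (HH ρ p l) (fun _ => 0) g +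
        ENNReal.ofReal (Y * (A' * w) ^ (p + x - 2)) *
          U ρ l S ((lev d (A' * w)).indicator (mq 2)) (fun _ => 0) g := by
    have mi : Measurable ((lev d (A' * w)).indicator (mq 2 : Prof d → ℝ≥0∞)) :=
      (measurable_mq 2).indicator (measurableSet_lev _)
    rw [← U_const_mul hS measurable_HH measurable_const, ← U_const_mul hS mi measurable_const,
      ← U_add hS (measurable_HH.const_mul _) (mi.const_mul _) measurable_const measurable_const]
    refine U_mono hd1 (fun u hu _ => ?_) (fun _ _ _ => zero_le) hg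
    by_cases hu' : u ∈ lev d (A' * w)
    · refine le_trans ?_ le_add_self
      rw [Set.indicator_of_mem hu']
      have b1 := (gloc4_lev hu).1 hu'
      have b0 : 0 < mr u := lt_of_lt_of_le (by positivity) b1
      calc HH ρ p l u * mq x u ≤ ENNReal.ofReal Y * mq p u * mq x u :=
            mul_le_mul_left ((HH_le hp1.le u).trans (mul_le_mul_left hO _)) _
        _ = ENNReal.ofReal (Y * mr u ^ (p + x)) := by
            rw [gloc4_mq hu (by linarith), gloc4_mq hu hx, ← ENNReal.ofReal_mul hY0.le,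
              ← ENNReal.ofReal_mul (by positivity), Real.rpow_add b0, mul_assoc]
        _ ≤ _ := by
            rw [gloc4_mq hu (by norm_num), ← ENNReal.ofReal_mul (by positivity), mul_assoc]
            exact ENNReal.ofReal_le_ofReal (mul_le_mul_of_nonneg_left
              (gloc4_pow_ge (by positivity) b1 (by linarith)) hY0.le)
    · refine le_trans ?_ le_self_add
      rw [mul_comm, gloc4_mq hu hx]
      refine mul_le_mul_left (ENNReal.ofReal_le_ofReal ?_) _
      rw [gloc4_lev hu, not_le] at hu'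
      exact Real.rpow_le_rpow (gloc4_mr_nonneg u) hu'.le hx
  have f1 : A' ^ x ≤ 1 + 1 / (32 * Y) := by
    have a1 : Real.log A' = Real.log B + 2 * Real.log Y := by
      rw [hA', Real.log_mul (by linarith) (by positivity), Real.log_pow]; norm_num
    have a2 : Real.log A' ≤ (Real.log B + 2) * (1 + Real.log Y) := by rw [a1]; nlinarith
    have a3 : 0 ≤ Real.log A' * x := mul_nonneg (by rw [a1]; positivity) hx
    have a4 : Real.log A' * x ≤ 1 / (64 * Y) := by
      rw [le_div_iff₀ (by positivity)]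
      calc Real.log A' * x * (64 * Y) ≤ (Real.log B + 2) * (1 + Real.log Y) * x * (64 * Y) := by
            gcongr
        _ = 64 * (Real.log B + 2) * (Y * (1 + Real.log Y) * x) := by ring
        _ ≤ 1 := hCx'
    have a5 : 1 / (64 * Y) ≤ 1 := by rw [div_le_one (by positivity)]; linarith
    have a6 := Real.abs_exp_sub_one_le (x := Real.log A' * x) (by rw [abs_of_nonneg a3]; linarith)
    rw [abs_of_nonneg a3] at a6
    rw [Real.rpow_def_of_pos hA'0]
    have a7 : 2 * (1 / (64 * Y)) = 1 / (32 * Y) := by field_simp; norm_num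
    linarith [le_abs_self (Real.exp (Real.log A' * x) - 1)]
  have f2 : Y * (A' * w) ^ (p + x - 2) * (C₁ / (A' / A) * (C₂ * (A * w) ^ (2 - p) * w ^ p)) ≤
      1 / (32 * Y) * (w ^ p * w ^ x) := by
    have a1 : A' ^ (p + x - 2) ≤ 1 :=
      Real.rpow_le_one_of_one_le_of_nonpos (by linarith) (by linarith)
    have a2 : A ^ (2 - p) ≤ A := by
      calc A ^ (2 - p) ≤ A ^ (1 : ℝ) := Real.rpow_le_rpow_of_exponent_le (by linarith) (by linarith)
        _ = A := Real.rpow_one A
    have a3 : w ^ (p + x - 2) * w ^ (2 - p) = w ^ x := by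
      rw [← Real.rpow_add hw]; ring_nf
    rw [Real.mul_rpow hA'0.le hw.le, Real.mul_rpow hA0.le hw.le]
    calc Y * (A' ^ (p + x - 2) * w ^ (p + x - 2)) *
          (C₁ / (A' / A) * (C₂ * (A ^ (2 - p) * w ^ (2 - p)) * w ^ p))
        ≤ Y * (1 * w ^ (p + x - 2)) * (C₁ / (A' / A) * (C₂ * (A * w ^ (2 - p)) * w ^ p)) := by
          gcongr
      _ = Y * (C₁ / (A' / A)) * C₂ * A * (w ^ p * (w ^ (p + x - 2) * w ^ (2 - p))) := by ring
      _ = 1 / (32 * Y) * (w ^ p * w ^ x) := by
          rw [a3, hA', hBdef]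
          have : C₁ ≠ 0 := by linarith
          have : C₂ ≠ 0 := by linarith
          field_simp
  have hwx : 0 < w ^ x := by positivity
  have hwp : 0 < w ^ p := by positivity
  calc U ρ l S (fun u => HH ρ p l u * mq x u) (fun _ => 0) g
      ≤ ENNReal.ofReal ((A' * w) ^ x) * ENNReal.ofReal (h - w ^ p / 8) +
        ENNReal.ofReal (Y * (A' * w) ^ (p + x - 2)) * (ENNReal.ofReal (C₁ / (A' / A)) *
          ENNReal.ofReal (C₂ * (A * w) ^ (2 - p) * w ^ p)) :=
        e3.trans (add_le_add (mul_le_mul_right e1 _)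
          (mul_le_mul_right (e2.trans (mul_le_mul_right hII _)) _))
    _ = ENNReal.ofReal ((A' * w) ^ x * (h - w ^ p / 8) + Y * (A' * w) ^ (p + x - 2) *
          (C₁ / (A' / A) * (C₂ * (A * w) ^ (2 - p) * w ^ p))) := by
        rw [← ENNReal.ofReal_mul (by positivity), ← ENNReal.ofReal_mul (by positivity),
          ← ENNReal.ofReal_mul (by positivity),
          ← ENNReal.ofReal_add (mul_nonneg (by positivity) (by linarith)) (by positivity)]
    _ ≤ ENNReal.ofReal ((1 - 1 / (16 * Y)) * (h * w ^ x)) := by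
        refine ENNReal.ofReal_le_ofReal ?_
        set k := 1 / (32 * Y) with hk'
        have k0 : 0 < k := by positivity
        have k1 : 1 / (16 * Y) = 2 * k := by rw [hk']; field_simp; norm_num
        have k2 : 4 * k * h ≤ w ^ p / 8 := by
          rw [hk', show 4 * (1 / (32 * Y)) * h = h / Y / 8 by field_simp; ring]
          exact div_le_div_of_nonneg_right (by rw [div_le_iff₀ hY0]; linarith) (by norm_num)
        have k3 : (A' * w) ^ x * (h - w ^ p / 8) ≤ (1 + k) * w ^ x * ((1 - 4 * k) * h) := by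
          rw [Real.mul_rpow hA'0.le hw.le]
          exact mul_le_mul (mul_le_mul_of_nonneg_right f1 hwx.le) (by linarith) (by linarith)
            (by positivity)
        have k4 : k * (w ^ p * w ^ x) ≤ k * (h * w ^ x) := by gcongr
        have k5 : 0 ≤ k ^ 2 * (h * w ^ x) := by positivity
        rw [k1]
        nlinarith
    _ = _ := by
        have : 0 ≤ 1 - 1 / (16 * Y) := by
          rw [sub_nonneg, div_le_one (by positivity)]; linarith
        rw [ENNReal.ofReal_mul this, ENNReal.ofReal_mul hh0, ← hHe, gloc4_mq hg hx]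

/-- Slightly higher moments. -/
theorem hm_up (hd : 3 ≤ d) {κ M : ℝ} (hκ : 0 < κ) : ∃ C : ℝ, 1 ≤ C ∧
    ∀ (ρ : Measure ℝ≥0) [IsProbabilityMeasure ρ] (p l : ℝ), Ctx d κ M ρ p l → l ≤ C⁻¹ →
      ∀ Y x : ℝ, 1 ≤ Y → OO d ρ p l ≤ ENNReal.ofReal Y → 0 ≤ x →
        C * Y * (1 + Real.log Y) * x ≤ 1 → OO d ρ (p + x) l ≤ ENNReal.ofReal (C * Y ^ 2) := by
  obtain ⟨C, A, hC, hA, H⟩ := gloc4_contr hd (M := M) hκ
  have hA3 : 0 ≤ 16 * A ^ 3 := by positivity
  refine ⟨C + 16 * A ^ 3, by linarith, ?_⟩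
  intro ρ _ p l hc hl Y x hY hO hx hCx
  have hd1 : 1 ≤ d := by omega
  obtain ⟨hp1, hp2⟩ := hc.one_lt hd
  have hm : Mean1 ρ := hc.good.1
  have h0 := hc.l0
  have h1 := hc.l1
  have hlY : 0 ≤ Real.log Y := Real.log_nonneg hY
  have hY0 : 0 < Y := by linarith
  have hCx' : C * Y * (1 + Real.log Y) * x ≤ 1 := by
    refine le_trans ?_ hCx
    gcongr
    linarith
  have hx1 : x ≤ 1 := by
    have a1 : x ≤ C * Y * (1 + Real.log Y) * x :=
      le_mul_of_one_le_left hx (one_le_mul_of_one_le_of_one_le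
        (one_le_mul_of_one_le_of_one_le (by linarith) hY) (by linarith))
    linarith
  have H' := H ρ p l hc (hl.trans (inv_anti₀ (by linarith) (by linarith))) Y x hY hO hx hCx'
  have mΦ : Measurable fun u : Prof d => HH ρ p l u * mq x u :=
    measurable_HH.mul (measurable_mq x)
  have hres : ∀ g : Prof d, HH ρ (p + x) l g =
      ⨆ n, Un ρ l ∅ (Res ρ l (mq (p + x))) (mq (p + x)) n g := fun g =>
    Res_eq_U MeasurableSet.empty h0 h1 (measurable_mq _) g
  set R : ℝ := 16 * Y * A ^ 3 with hR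
  have key : ∀ n, ∀ g : Prof d, Nice g → Un ρ l ∅ (Res ρ l (mq (p + x))) (mq (p + x)) n g ≤
      ENNReal.ofReal R * (HH ρ p l g * mq x g) := by
    intro n
    induction n with
    | zero => intro g _; simp [Un]
    | succ n ih =>
      intro g hg
      rcases (gloc4_mr_nonneg g).eq_or_lt with hw | hw
      · refine le_trans ?_ zero_le
        refine (le_iSup (fun n => Un ρ l ∅ (Res ρ l (mq (p + x))) (mq (p + x)) n g) _).trans ?_
        rw [← hres]
        refine (HH_le (by linarith) g).trans ?_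
        rw [gloc4_mq hg (by linarith), ← hw, Real.zero_rpow (by linarith)]
        simp
      set w := mr g with hwdef
      have hS : MeasurableSet (lev d (A * w)) := measurableSet_lev _
      have hgS : g ∉ lev d (A * w) := by
        rw [gloc4_lev hg, not_le]; nlinarith
      have a1 : ENNReal.ofReal (w ^ (p + x)) ≤ HH ρ p l g * mq x g := by
        rw [Real.rpow_add hw, ENNReal.ofReal_mul (by positivity), ← gloc4_mq hg hx,
          ← gloc4_mq hg (by linarith)]
        exact mul_le_mul_left (mq_le_HH hd1 hm hp1.le h0 h1 g) _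
      have a2 : 0 ≤ 1 - 1 / (16 * Y) := by
        rw [sub_nonneg, div_le_one (by positivity)]; linarith
      calc Un ρ l ∅ (Res ρ l (mq (p + x))) (mq (p + x)) (n + 1) g
          ≤ U ρ l (lev d (A * w)) (Un ρ l ∅ (Res ρ l (mq (p + x))) (mq (p + x)) n)
            (mq (p + x)) g := gloc4_trunc _ (measurable_mq _) _ hS n hgS
        _ ≤ U ρ l (lev d (A * w))
            (fun u => ENNReal.ofReal R * (HH ρ p l u * mq x u) +
              ENNReal.ofReal ((A * w) ^ (p + x)) * 1)
            (fun _ => ENNReal.ofReal R * 0 + ENNReal.ofReal ((A * w) ^ (p + x)) * 1) g := by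
            refine U_mono hd1 (fun u hu _ => (ih u hu).trans le_self_add) (fun u hu hu' => ?_) hg
            rw [gloc4_lev hu, not_le] at hu'
            rw [gloc4_mq hu (by linarith), mul_zero, zero_add, mul_one]
            exact ENNReal.ofReal_le_ofReal
              (Real.rpow_le_rpow (gloc4_mr_nonneg u) hu'.le (by linarith))
        _ = ENNReal.ofReal R * U ρ l (lev d (A * w)) (fun u => HH ρ p l u * mq x u) (fun _ => 0) g +
              ENNReal.ofReal ((A * w) ^ (p + x)) := by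
            rw [U_add hS (mΦ.const_mul _) measurable_const measurable_const measurable_const,
              U_const_mul hS mΦ measurable_const,
              U_const_mul hS measurable_const measurable_const, U_one hS h0 h1, mul_one]
        _ ≤ ENNReal.ofReal R * (ENNReal.ofReal (1 - 1 / (16 * Y)) * (HH ρ p l g * mq x g)) +
              ENNReal.ofReal (A ^ 3) * (HH ρ p l g * mq x g) := by
            refine add_le_add (mul_le_mul_right (H' g hg hw) _) ?_
            rw [Real.mul_rpow (by linarith) hw.le, ENNReal.ofReal_mul (by positivity)]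
            refine mul_le_mul' (ENNReal.ofReal_le_ofReal ?_) a1
            rw [← Real.rpow_natCast]
            exact Real.rpow_le_rpow_of_exponent_le (by linarith) (by push_cast; linarith)
        _ = _ := by
            rw [← mul_assoc, ← add_mul, ← ENNReal.ofReal_mul (by positivity),
              ← ENNReal.ofReal_add (by positivity) (by positivity)]
            congr 2
            rw [hR]; field_simp; ring
  unfold OO
  rw [hres]
  refine iSup_le fun n => (key n _ (nice_dlt 0)).trans ?_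
  have a1 : mq x (dlt (0 : Site d)) = 1 := by rw [mq, mass_dlt, ENNReal.one_rpow]
  rw [a1, mul_one]
  refine (mul_le_mul_right hO _).trans ?_
  rw [← ENNReal.ofReal_mul (by positivity)]
  refine ENNReal.ofReal_le_ofReal ?_
  have : 0 ≤ C * Y ^ 2 := by positivity
  rw [hR]; nlinarith

/-- Parts of the partition function with small mean have small moments. -/
theorem interp (hd : 3 ≤ d) {κ M : ℝ} (hκ : 0 < κ) : ∃ C : ℝ, 1 ≤ C ∧
    ∀ (ρ : Measure ℝ≥0) [IsProbabilityMeasure ρ] (p l : ℝ), Ctx d κ M ρ p l → l ≤ C⁻¹ →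
      ∀ Z : ℝ, 1 ≤ Z → OO d ρ p l ≤ ENNReal.ofReal Z → ∀ (f : Prof d)
        (Y : ℕ → (ℕ → Layer d) → ℝ≥0∞) (ε : ℝ) (N : ℕ), Nice f → (∀ n, Measurable (Y n)) →
        (∀ n ω, Y n ω ≤ mass (ev n ω f)) → 0 < ε → ε ≤ 1 → Z ^ 2 / l ≤ N →
        (∀ n < N, ∫⁻ ω, Y n ω ∂env d ρ ≤ ENNReal.ofReal ε * mass f) →
        ∑' n, wt l n * ∫⁻ ω, Y n ω ^ p ∂env d ρ ≤
          ENNReal.ofReal (C * Z ^ 2 * (ε ^ (1 / (C * Z ^ 2)) + Real.exp (-(Z / 10)))) * mq p f := by
  obtain ⟨C₀, hC₀, H⟩ := hm_up hd (M := M) hκ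
  refine ⟨C₀ + 100, by linarith, ?_⟩
  intro ρ _ p l hc hl Z hZ hO f Y ε N hf hYm hYle hε0 hε1 hN hmean
  have hd1 : 1 ≤ d := by omega
  obtain ⟨hp1, hp2⟩ := hc.one_lt hd
  have hp53 := gloc4_p_le hd hc
  have hm : Mean1 ρ := hc.good.1
  have h0 := hc.l0
  have h1 := hc.l1
  have hZ0 : 0 < Z := by linarith
  have hZ2 : 1 ≤ Z ^ 2 := one_le_pow₀ hZ
  set x : ℝ := 1 / ((C₀ + 100) * Z ^ 2) with hxdef
  have hx : 0 < x := by positivity
  have hx3 : x ≤ 1 / 3 := one_div_le_one_div_of_le (by norm_num) (by nlinarith)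
  have hO' : OO d ρ (p + x) l ≤ ENNReal.ofReal (C₀ * Z ^ 2) := by
    refine H ρ p l hc (hl.trans (inv_anti₀ (by linarith) (by linarith))) Z x hZ hO hx.le ?_
    have a1 : 1 + Real.log Z ≤ Z := by linarith [Real.log_le_sub_one_of_pos hZ0]
    rw [hxdef, mul_one_div, div_le_one (by positivity)]
    calc C₀ * Z * (1 + Real.log Z) ≤ C₀ * Z * Z := by gcongr
      _ ≤ (C₀ + 100) * Z ^ 2 := by nlinarith
  have hYT : ∀ (q : ℝ) (n : ℕ), 0 ≤ q → ∫⁻ ω, Y n ω ^ q ∂env d ρ ≤ (T ρ)^[n] (mq q) f := by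
    intro q n hq
    rw [T_iter_eq n (measurable_mq q)]
    exact lintegral_mono fun ω => ENNReal.rpow_le_rpow (hYle n ω) hq
  rcases (gloc4_mr_nonneg f).eq_or_lt with hw | hw
  · refine le_trans ?_ zero_le
    calc ∑' n, wt l n * ∫⁻ ω, Y n ω ^ p ∂env d ρ ≤ HH ρ p l f :=
          ENNReal.tsum_le_tsum fun n => mul_le_mul_right (hYT p n (by linarith)) _
      _ ≤ OO d ρ p l * mq p f := HH_le hp1.le f
      _ = 0 := by
          rw [gloc4_mq hf (by linarith), ← hw, Real.zero_rpow (by linarith)]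
          simp
  set w := mr f with hwdef
  set a : ℝ := w / ε with ha
  have ha0 : 0 < a := by positivity
  have hpt : ∀ n ω, Y n ω ^ p ≤ ENNReal.ofReal (a ^ (p - 1)) * Y n ω +
      ENNReal.ofReal (a ^ (-x)) * Y n ω ^ (p + x) := by
    intro n ω
    have ht : Y n ω ≠ ⊤ := ne_top_of_le_ne_top (hf.of_ev hd1 n ω).mass_ne_top (hYle n ω)
    rw [← ENNReal.ofReal_toReal ht]
    set y := (Y n ω).toReal
    have hy : 0 ≤ y := ENNReal.toReal_nonneg
    rw [ENNReal.ofReal_rpow_of_nonneg hy (by linarith),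
      ENNReal.ofReal_rpow_of_nonneg hy (by linarith), ← ENNReal.ofReal_mul (by positivity),
      ← ENNReal.ofReal_mul (by positivity)]
    rcases le_total y a with h | h
    · refine le_trans (ENNReal.ofReal_le_ofReal ?_) le_self_add
      calc y ^ p = y ^ (p - 1) * y := by
            rw [← Real.rpow_add_one' hy (by linarith)]; ring_nf
        _ ≤ a ^ (p - 1) * y :=
            mul_le_mul_of_nonneg_right (Real.rpow_le_rpow hy h (by linarith)) hy
    · refine le_trans (ENNReal.ofReal_le_ofReal ?_) le_add_self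
      have := gloc4_pow_ge ha0 h (show p ≤ p + x by linarith)
      rwa [show p - (p + x) = -x by ring] at this
  have e1 : ∑ n ∈ Finset.range N, wt l n * ∫⁻ ω, Y n ω ^ p ∂env d ρ ≤
      ENNReal.ofReal (a ^ (p - 1)) * (ENNReal.ofReal ε * mass f) +
        ENNReal.ofReal (a ^ (-x)) * HH ρ (p + x) l f := by
    calc ∑ n ∈ Finset.range N, wt l n * ∫⁻ ω, Y n ω ^ p ∂env d ρ
        ≤ ∑ n ∈ Finset.range N, (wt l n *
            (ENNReal.ofReal (a ^ (p - 1)) * (ENNReal.ofReal ε * mass f)) +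
            ENNReal.ofReal (a ^ (-x)) * (wt l n * (T ρ)^[n] (mq (p + x)) f)) := by
          refine Finset.sum_le_sum fun n hn => ?_
          rw [mul_left_comm (ENNReal.ofReal (a ^ (-x))), ← mul_add]
          refine mul_le_mul_right ((lintegral_mono (hpt n)).trans ?_) _
          rw [lintegral_add_left ((hYm n).const_mul _), lintegral_const_mul _ (hYm n),
            lintegral_const_mul _ ((hYm n).pow_const _)]
          exact add_le_add (mul_le_mul_right (hmean n (Finset.mem_range.1 hn)) _)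
            (mul_le_mul_right (hYT _ n (by linarith)) _)
      _ ≤ ∑' n, (wt l n * (ENNReal.ofReal (a ^ (p - 1)) * (ENNReal.ofReal ε * mass f)) +
            ENNReal.ofReal (a ^ (-x)) * (wt l n * (T ρ)^[n] (mq (p + x)) f)) :=
          ENNReal.sum_le_tsum _
      _ = _ := by
          rw [ENNReal.tsum_add, ENNReal.tsum_mul_right, ENNReal.tsum_mul_left, wt_tsum h0 h1,
            one_mul]
          rfl
  have e2 : ∑' n, wt l (n + N) * ∫⁻ ω, Y (n + N) ω ^ p ∂env d ρ ≤
      ENNReal.ofReal (100 * Z ^ 2 * Real.exp (-(Z / 10))) * mq p f := by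
    calc ∑' n, wt l (n + N) * ∫⁻ ω, Y (n + N) ω ^ p ∂env d ρ
        ≤ ∑' n, wt l (n + N) * Mom d ρ p (n + N) * mq p f := by
          refine ENNReal.tsum_le_tsum fun n => ?_
          rw [mul_assoc, mul_comm (Mom d ρ p (n + N))]
          exact mul_le_mul_right ((hYT p _ (by linarith)).trans (T_iter_mq_le hp1.le _ f)) _
      _ ≤ _ := by
          rw [ENNReal.tsum_mul_right]
          exact mul_le_mul_left (kill hd1 hm hp1.le h0 h1 hZ hO hZ0.le (by rwa [← sq])) _
  have e3 : HH ρ (p + x) l f ≤ ENNReal.ofReal (C₀ * Z ^ 2 * w ^ (p + x)) := by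
    rw [ENNReal.ofReal_mul (by positivity), ← gloc4_mq hf (by linarith)]
    exact (HH_le (by linarith) f).trans (mul_le_mul_left hO' _)
  rw [← ENNReal.summable.sum_add_tsum_nat_add' (k := N)]
  refine (add_le_add (e1.trans (add_le_add le_rfl (mul_le_mul_right e3 _))) e2).trans ?_
  rw [gloc4_mq hf (by linarith), ← hf.ofReal_mr, ← hwdef, ← ENNReal.ofReal_mul hε0.le,
    ← ENNReal.ofReal_mul (by positivity), ← ENNReal.ofReal_mul (by positivity),
    ← ENNReal.ofReal_mul (by positivity), ← ENNReal.ofReal_mul (by positivity),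
    ← ENNReal.ofReal_add (by positivity) (by positivity),
    ← ENNReal.ofReal_add (by positivity) (by positivity)]
  refine ENNReal.ofReal_le_ofReal ?_
  have b1 : a ^ (p - 1) * (ε * w) ≤ ε ^ x * w ^ p := by
    have c1 : a ^ (p - 1) * (ε * w) = ε ^ (2 - p) * w ^ p := by
      rw [ha, Real.div_rpow hw.le hε0.le, show 2 - p = 1 - (p - 1) by ring, Real.rpow_sub hε0 1,
        Real.rpow_one, Real.rpow_sub_one hw.ne']
      field_simp
    rw [c1]
    exact mul_le_mul_of_nonneg_right
      (Real.rpow_le_rpow_of_exponent_ge hε0 hε1 (by linarith)) (by positivity)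
  have b2 : a ^ (-x) * (C₀ * Z ^ 2 * w ^ (p + x)) = C₀ * Z ^ 2 * (ε ^ x * w ^ p) := by
    rw [ha, Real.rpow_neg (by positivity), Real.div_rpow hw.le hε0.le, Real.rpow_add hw]
    field_simp
  rw [b2]
  have b3 : 0 ≤ ε ^ x * w ^ p := by positivity
  have b4 : 0 ≤ Real.exp (-(Z / 10)) * w ^ p := by positivity
  have b5 : ε ^ x * w ^ p ≤ 100 * Z ^ 2 * (ε ^ x * w ^ p) := le_mul_of_one_le_left b3 (by linarith)
  have b6 : 0 ≤ C₀ * Z ^ 2 * (Real.exp (-(Z / 10)) * w ^ p) := by positivity
  nlinarith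

/-- mean mass outside a box -/
theorem gloc4_out (hd : 1 ≤ d) {f : Prof d} {r R' n L : ℕ} (hr : ∀ x, f x ≠ 0 → x ∈ box d r)
    (hn : n ≤ L) (hL : 0 < L) :
    ∑' x, (if x ∈ box d (r + R') then 0 else 1) * avg^[n] f x ≤
      ENNReal.ofReal (2 * d * Real.exp (-(R' : ℝ) ^ 2 / (2 * L))) * mass f := by
  simp only [avg_iter_eq_phi, ← ENNReal.tsum_mul_left]
  rw [ENNReal.tsum_comm, mass, ← ENNReal.tsum_mul_left]
  refine ENNReal.tsum_le_tsum fun y => ?_
  by_cases hy : f y = 0
  · simp [hy]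
  have hb := heat_mem_box.1 (hr y hy)
  calc ∑' x, (if x ∈ box d (r + R') then 0 else 1) * (f y * phi d n (x - y))
      ≤ ∑' x, (fun z => if z ∈ box d R' then 0 else phi d n z) (x - y) * f y := by
        refine ENNReal.tsum_le_tsum fun x => ?_
        by_cases hx : x ∈ box d (r + R')
        · simp [hx]
        · have : x - y ∉ box d R' := fun h => hx (heat_mem_box.2 fun i => by
            have h1 := heat_mem_box.1 h i
            have h2 := hb i
            simp only [Pi.sub_apply] at h1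
            push_cast
            constructor <;> linarith [h1.1, h1.2, h2.1, h2.2])
          simp [hx, this, mul_comm]
    _ ≤ _ := by
        rw [ENNReal.tsum_mul_right]
        exact mul_le_mul_left ((tsum_shift_sub _ y).le.trans (hk_escape hd hn hL)) _

/-- Confinement at the geometric time. -/
theorem conf (hd : 3 ≤ d) {κ M : ℝ} (hκ : 0 < κ) : ∃ C : ℝ, 1 ≤ C ∧
    ∀ (ρ : Measure ℝ≥0) [IsProbabilityMeasure ρ] (p l : ℝ), Ctx d κ M ρ p l → l ≤ C⁻¹ →
      ∀ Z : ℝ, 1 ≤ Z → OO d ρ p l ≤ ENNReal.ofReal Z → ∀ (f : Prof d) (r R : ℕ), Nice f →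
        (∀ x, f x ≠ 0 → x ∈ box d r) → r + Z ^ 3 / √l ≤ R →
        Res ρ l (fun g => mq p fun x => if x ∈ box d R then 0 else g x) f ≤
          ENNReal.ofReal (C * Real.exp (-(Z / 20))) * mq p f := by
  obtain ⟨C, hC, H⟩ := interp hd (M := M) hκ
  have hdR : (3 : ℝ) ≤ d := by exact_mod_cast hd
  set D : ℝ := 2 * d * Real.exp (C / 100) + 1 with hD
  have hD1 : 1 ≤ D := le_add_of_nonneg_left (by positivity)
  have hCD : C ≤ C * (800 * D) := le_mul_of_one_le_right (by linarith) (by linarith)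
  refine ⟨C * (800 * D), by linarith, ?_⟩
  intro ρ _ p l hc hl Z hZ hO f r R hf hr hR
  have hd1 : 1 ≤ d := by omega
  have hm : Mean1 ρ := hc.good.1
  have h0 := hc.l0
  have h1 := hc.l1
  have hZ0 : 0 < Z := by linarith
  have hZ2 : 1 ≤ Z ^ 2 := one_le_pow₀ hZ
  have hsl : 0 < √l := Real.sqrt_pos.2 h0
  have hrR : r ≤ R := by
    have : (r : ℝ) ≤ R := le_trans (le_add_of_nonneg_right (by positivity)) hR
    exact_mod_cast this
  obtain ⟨R', rfl⟩ := Nat.exists_eq_add_of_le hrR
  have hR' : Z ^ 3 / √l ≤ R' := by push_cast at hR; linarith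
  have e0 : ∀ g : Prof d, mass (fun x => if x ∈ box d (r + R') then 0 else g x) =
      ∑' x, (if x ∈ box d (r + R') then 0 else 1) * g x := fun g =>
    tsum_congr fun x => by split_ifs <;> simp
  have mc : Measurable fun g : Prof d => ∑' x, (if x ∈ box d (r + R') then 0 else 1) * g x :=
    Measurable.tsum fun x => (measurable_pi_apply x).const_mul _
  have hZl : 1 ≤ Z ^ 2 / l := by rw [le_div_iff₀ h0]; linarith
  set N := ⌈Z ^ 2 / l⌉₊ with hN
  have hN1 : Z ^ 2 / l ≤ N := Nat.le_ceil _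
  have hN2 : (N : ℝ) ≤ 2 * (Z ^ 2 / l) := by
    have := Nat.ceil_lt_add_one (show 0 ≤ Z ^ 2 / l by positivity)
    linarith
  have hN0 : (0 : ℝ) < N := by linarith
  set E : ℝ := 2 * d * Real.exp (-(Z ^ 4 / 4)) with hE
  have hE0 : 0 < E := by positivity
  have key := H ρ p l hc (hl.trans (inv_anti₀ (by linarith) hCD)) Z hZ hO f
    (fun n ω => ∑' x, (if x ∈ box d (r + R') then 0 else 1) * ev n ω f x) (min 1 E) N hf
    (fun n => mc.comp (measurable_ev n f))
    (fun n ω => ENNReal.tsum_le_tsum fun x => by split_ifs <;> simp)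
    (lt_min one_pos hE0) (min_le_left _ _) hN1 (fun n hn => by
      rw [← T_iter_eq n mc, T_iter_lin hm]
      rcases le_total 1 E with h | h
      · rw [min_eq_left h, ENNReal.ofReal_one, one_mul, ← mass_avg_iter hd1 n f]
        exact ENNReal.tsum_le_tsum fun x => by split_ifs <;> simp
      · rw [min_eq_right h]
        refine (gloc4_out hd1 hr hn.le (by exact_mod_cast hN0)).trans
          (mul_le_mul_left (ENNReal.ofReal_le_ofReal ?_) _)
        refine mul_le_mul_of_nonneg_left (Real.exp_le_exp.2 ?_) (by positivity)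
        rw [neg_div, neg_le_neg_iff, le_div_iff₀ (by positivity)]
        have a1 : (Z ^ 3 / √l) ^ 2 ≤ (R' : ℝ) ^ 2 := pow_le_pow_left₀ (by positivity) hR' 2
        rw [div_pow, Real.sq_sqrt h0.le] at a1
        calc Z ^ 4 / 4 * (2 * N) ≤ Z ^ 4 / 4 * (2 * (2 * (Z ^ 2 / l))) := by gcongr
          _ = (Z ^ 3) ^ 2 / l := by ring
          _ ≤ _ := a1)
  simp only [mq, e0]
  rw [Res_env (mc.pow_const p)]
  refine key.trans (mul_le_mul_left (ENNReal.ofReal_le_ofReal ?_) _)
  have hC0 : 0 < C := by linarith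
  have a0 : 1 / (C * Z ^ 2) ≤ 1 := by
    rw [div_le_one (by positivity)]; exact one_le_mul_of_one_le_of_one_le hC hZ2
  have a1 : min 1 E ^ (1 / (C * Z ^ 2)) ≤ 2 * d * Real.exp (C / 100) * Real.exp (-(Z / 10)) := by
    calc min 1 E ^ (1 / (C * Z ^ 2)) ≤ E ^ (1 / (C * Z ^ 2)) :=
          Real.rpow_le_rpow (le_min zero_le_one hE0.le) (min_le_right _ _) (by positivity)
      _ = (2 * d) ^ (1 / (C * Z ^ 2)) * Real.exp (-(Z ^ 4 / 4) * (1 / (C * Z ^ 2))) := by
          rw [hE, Real.mul_rpow (by positivity) (by positivity), Real.exp_mul]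
      _ ≤ (2 * d) ^ (1 : ℝ) * Real.exp (C / 100 + -(Z / 10)) := by
          refine mul_le_mul (Real.rpow_le_rpow_of_exponent_le (by linarith) a0)
            (Real.exp_le_exp.2 ?_) (by positivity) (by positivity)
          have b1 : -(Z ^ 4 / 4) * (1 / (C * Z ^ 2)) = -(Z ^ 2 / (4 * C)) := by field_simp
          have b2 : Z / 10 - C / 100 ≤ Z ^ 2 / (4 * C) := by
            rw [le_div_iff₀ (by positivity)]
            nlinarith [sq_nonneg (Z - C / 5)]
          rw [b1]; linarith
      _ = _ := by rw [Real.rpow_one, Real.exp_add]; ring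
  have a2 : Z ^ 2 * Real.exp (-(Z / 10)) ≤ 800 * Real.exp (-(Z / 20)) := by
    have b1 := Real.quadratic_le_exp_of_nonneg (show 0 ≤ Z / 20 by positivity)
    have b2 : Real.exp (Z / 20) * Real.exp (-(Z / 10)) = Real.exp (-(Z / 20)) := by
      rw [← Real.exp_add]; ring_nf
    have b3 : Z ^ 2 ≤ 800 * Real.exp (Z / 20) := by nlinarith
    calc Z ^ 2 * Real.exp (-(Z / 10)) ≤ 800 * Real.exp (Z / 20) * Real.exp (-(Z / 10)) := by gcongr
      _ = _ := by rw [mul_assoc, b2]
  calc C * Z ^ 2 * (min 1 E ^ (1 / (C * Z ^ 2)) + Real.exp (-(Z / 10)))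
      ≤ C * Z ^ 2 * (2 * d * Real.exp (C / 100) * Real.exp (-(Z / 10)) + Real.exp (-(Z / 10))) := by
        gcongr
    _ = C * D * (Z ^ 2 * Real.exp (-(Z / 10))) := by rw [hD]; ring
    _ ≤ C * D * (800 * Real.exp (-(Z / 20))) := by gcongr
    _ = _ := by ring

end Pool.Agent.Lib.MP_153faa_pr
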