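import Mathlib
import Pool.Agent.Lib.MP_153faa_pr.GLoc4
import Pool.Agent.Lib.MP_153faa_pr.GAA
import Pool.Agent.Lib.MP_153faa_pr.GHK3

set_option autoImplicit false

open MeasureTheory Filter Topology
open scoped ENNReal NNReal

namespace Pool.Agent.Lib.MP_153faa_pr

variable {d : ℕ}

theorem ga1_real {o o' h i θ c η Z : ℝ} (ho : 0 < o) (ho' : 0 < o') (hh : 0 ≤ h) (hi : 0 ≤ i)
    (hη : 0 < η) (hZ : 12 ≤ Z) (hZη : Z * η ≤ 1) (hθ : 1 - η ≤ θ) (hc : (1 - η) * (1 - 2 * η) ≤ c)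
    (h1 : θ * (c * h * i) ≤ o') (h2 : o ≤ (1 + 2 * η) * i + η * o) :
    o'⁻¹ * h ≤ o⁻¹ * (1 + Z * η) := by
  have hη1 : η ≤ 1 / 12 := by nlinarith
  have a1 : 0 ≤ 1 - η := by linarith
  have a2 : 0 ≤ 1 - 2 * η := by linarith
  have k1 : (1 - η) * ((1 - η) * (1 - 2 * η) * h * i) ≤ o' :=
    le_trans (mul_le_mul hθ (by gcongr) (by positivity) (a1.trans hθ)) h1
  have k2 : 1 - 5 * η ≤ (1 - η) * (1 - η) * (1 - 2 * η) * (1 - η) := by
    have b1 : 1 - 2 * η ≤ (1 - η) * (1 - η) := by nlinarith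
    have b2 : 1 - 3 * η ≤ (1 - 2 * η) * (1 - η) := by nlinarith
    have b3 : (1 - 2 * η) * (1 - 3 * η) ≤ ((1 - η) * (1 - η)) * ((1 - 2 * η) * (1 - η)) :=
      mul_le_mul b1 b2 (by linarith) (by positivity)
    nlinarith
  have k3 : 1 + 2 * η ≤ (1 + Z * η) * (1 - 5 * η) := by nlinarith
  have k4 : (1 - η) * o ≤ (1 + 2 * η) * i := by linarith
  have hz : 0 ≤ 1 + Z * η := by positivity
  have k5 : (1 + 2 * η) * (h * o) ≤ (1 + 2 * η) * ((1 + Z * η) * o') := by
    calc (1 + 2 * η) * (h * o) ≤ (1 + Z * η) * (1 - 5 * η) * (h * o) := by gcongr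
      _ ≤ (1 + Z * η) * ((1 - η) * (1 - η) * (1 - 2 * η) * (1 - η)) * (h * o) := by gcongr
      _ = (1 + Z * η) * ((1 - η) * (1 - η) * (1 - 2 * η) * h) * ((1 - η) * o) := by ring
      _ ≤ (1 + Z * η) * ((1 - η) * (1 - η) * (1 - 2 * η) * h) * ((1 + 2 * η) * i) := by gcongr
      _ = (1 + 2 * η) * ((1 + Z * η) * ((1 - η) * ((1 - η) * (1 - 2 * η) * h * i))) := by ring
      _ ≤ _ := by gcongr
  have k6 := le_of_mul_le_mul_left k5 (by positivity)
  rw [inv_mul_eq_div, inv_mul_eq_div, div_le_div_iff₀ ho' ho]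
  exact k6

theorem ga1_exp {C Z : ℝ} (hC : 1 ≤ C) (hZ : C * (20 ^ 23 * (Nat.factorial 23 : ℝ)) ≤ Z) :
    Z ^ 11 * (C * Real.exp (-(Z / 20))) ≤ (Z ^ 11)⁻¹ := by
  have h0 : (0 : ℝ) < 20 ^ 23 * (Nat.factorial 23 : ℝ) := by positivity
  have hZ0 : 0 < Z := lt_of_lt_of_le (by positivity) hZ
  have h1 := Real.pow_div_factorial_le_exp (Z / 20) (by positivity) 23
  have h2 : C * Z ^ 22 ≤ Real.exp (Z / 20) := by
    refine le_trans ?_ h1
    rw [div_pow, div_div, le_div_iff₀ h0]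
    calc C * Z ^ 22 * (20 ^ 23 * (Nat.factorial 23 : ℝ))
        = Z ^ 22 * (C * (20 ^ 23 * (Nat.factorial 23 : ℝ))) := by ring
      _ ≤ Z ^ 22 * Z := by gcongr
      _ = Z ^ 23 := by ring
  rw [Real.exp_neg, ← one_div (Z ^ 11), le_div_iff₀ (by positivity)]
  calc Z ^ 11 * (C * (Real.exp (Z / 20))⁻¹) * Z ^ 11 = C * Z ^ 22 * (Real.exp (Z / 20))⁻¹ := by ring
    _ ≤ Real.exp (Z / 20) * (Real.exp (Z / 20))⁻¹ := by gcongr
    _ = 1 := mul_inv_cancel₀ (Real.exp_pos _).ne'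

theorem ga1_meas_cut (B : Finset (Site d)) : Measurable (cut B : Prof d → Prof d) := by
  refine measurable_pi_lambda _ fun x => ?_
  unfold cut
  split_ifs
  · exact measurable_pi_apply x
  · exact measurable_const

theorem ga1_cut_le (B : Finset (Site d)) (g : Prof d) : cut B g ≤ g := fun x => by
  unfold cut
  split_ifs <;> simp

variable {ρ : Measure ℝ≥0} [IsProbabilityMeasure ρ]

theorem ga1_KA (hd : 1 ≤ d) (hm : Mean1 ρ) {p l : ℝ} (hp : 1 ≤ p) (h0 : 0 < l) (h1 : l < 1)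
    (hO : OO d ρ p l ≠ ⊤) (m : ℕ) : Kr d ρ p l + Ar d ρ p l m =
      (OO d ρ p l).toReal⁻¹ * (HH ρ p l (phi d m)).toReal := by
  have h := congrArg ENNReal.toReal (Kr_add_Ar hd hm hp h0 h1 hO m).1
  have hA : 0 ≤ Ar d ρ p l m := ENNReal.toReal_nonneg
  rw [ENNReal.toReal_ofReal (add_nonneg Kr_nonneg hA), ENNReal.toReal_mul, KK,
    ENNReal.toReal_inv] at h
  exact h.symm

theorem ga1_HH_phi (hd : 1 ≤ d) {p l : ℝ} (hp : 1 ≤ p) (m : ℕ) :
    HH ρ p l (phi d m) ≤ OO d ρ p l := by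
  simpa [mq, mass_phi hd] using HH_le (ρ := ρ) (l := l) hp (phi d m)

theorem ga1_one_le (hd : 1 ≤ d) (hm : Mean1 ρ) {p l : ℝ} (hp : 1 ≤ p) (h0 : 0 < l) (h1 : l < 1)
    (hO : OO d ρ p l ≠ ⊤) : 1 ≤ (OO d ρ p l).toReal := by
  simpa using ENNReal.toReal_mono hO (one_le_OO hd hm hp h0 h1)

theorem ga1_smooth (hm : Mean1 ρ) {p l : ℝ} (hp : 1 ≤ p) (h1 : l < 1) (m : ℕ) (g : Prof d) :
    ENNReal.ofReal ((1 - l) ^ m) * HH ρ p l (avg^[m] g) ≤ HH ρ p l g := by
  refine le_trans ?_ (Res_iter h1 (measurable_mq p) m g).ge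
  exact le_trans (mul_le_mul_right (HH_avg_iter_le hm hp m g) _) le_add_self

/-- Decrease of the inverse moment: lower bound. -/
theorem a1_low (hd : 3 ≤ d) {κ M : ℝ} (hκ : 0 < κ) : ∃ (a : ℕ) (C : ℝ), 1 ≤ C ∧
    ∀ (ρ : Measure ℝ≥0) [IsProbabilityMeasure ρ] (p l l' Z : ℝ) (m : ℕ), Ctx d κ M ρ p l →
      l ≤ C⁻¹ → C ≤ Z → OO d ρ p l ≤ ENNReal.ofReal Z → 0 < l' → OO d ρ p l' ≠ ⊤ →
      Z ^ a / l ≤ m → l' * m * Z ^ 20 ≤ 1 →
        Kr d ρ p l' + Ar d ρ p l' m ≤ Kr d ρ p l * (1 + (Z ^ 10)⁻¹) := by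
  have hd1 : 1 ≤ d := by omega
  obtain ⟨C1, hC1, conf'⟩ := conf (M := M) hd hκ
  obtain ⟨C2, hC2, cmp'⟩ := cmp hd1
  have hF : (1 : ℝ) ≤ 20 ^ 23 * (Nat.factorial 23 : ℝ) :=
    one_le_mul_of_one_le_of_one_le (by norm_num) (by exact_mod_cast Nat.factorial_pos 23)
  set F : ℝ := 20 ^ 23 * (Nat.factorial 23 : ℝ) with hFdef
  have hC1F : C1 ≤ C1 * F := le_mul_of_one_le_right (by linarith) hF
  refine ⟨51, C1 * F + 9 * C2 + 12, by linarith, ?_⟩
  intro ρ _ p l l' Z m ctx hl hZ hO h0' hO' hm hlm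
  have hZ12 : 12 ≤ Z := by linarith
  have hZ1 : 1 ≤ Z := by linarith
  have hZ0 : 0 < Z := by linarith
  have hp : 1 ≤ p := (ctx.one_lt hd).1.le
  have hp2 : p ≤ 2 := (ctx.one_lt hd).2.le
  have mean : Mean1 ρ := ctx.good.1
  have l0 := ctx.l0
  have l1 := ctx.l1
  set η : ℝ := (Z ^ 11)⁻¹ with hηdef
  have hη : 0 < η := by positivity
  have hZη : Z * η = (Z ^ 10)⁻¹ := by rw [hηdef]; field_simp
  have hZη1 : Z * η ≤ 1 := hZη ▸ inv_le_one_of_one_le₀ (one_le_pow₀ hZ1)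
  have hη2 : η ≤ 1 / 2 := by nlinarith
  have hml : Z ^ 51 ≤ m * l := (div_le_iff₀ l0).mp hm
  have hml1 : 1 ≤ m * l := (one_le_pow₀ hZ1).trans hml
  have hlη : l' * m ≤ η := by
    rw [hηdef, ← one_div, le_div_iff₀ (by positivity)]
    refine le_trans ?_ hlm
    gcongr
    norm_num
  have hl'l : l' ≤ η * l := by
    calc l' = l' * 1 := (mul_one _).symm
      _ ≤ l' * (m * l) := by gcongr
      _ = l' * m * l := by ring
      _ ≤ η * l := by gcongr
  have hll : l' ≤ l := by nlinarith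
  have h1' : l' < 1 := hll.trans_lt l1
  have hOt : OO d ρ p l ≠ ⊤ := ne_top_of_le_ne_top ENNReal.ofReal_ne_top hO
  -- the radius
  set R : ℕ := ⌈Z ^ 3 / √l⌉₊ with hR
  have hsl : 0 < √l := Real.sqrt_pos.mpr l0
  have hR1 : (R : ℝ) + 1 ≤ 3 * (Z ^ 3 / √l) := by
    have e1 : (R : ℝ) < Z ^ 3 / √l + 1 := Nat.ceil_lt_add_one (by positivity)
    have e2 : 1 ≤ Z ^ 3 / √l := by
      rw [le_div_iff₀ hsl, one_mul]
      exact (Real.sqrt_le_one.mpr l1.le).trans (one_le_pow₀ hZ1)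
    linarith
  have hcmp : C2 * ((R : ℝ) + 1) ^ 2 ≤ η ^ 4 * m := by
    have e1 : (3 * (Z ^ 3 / √l)) ^ 2 = 9 * Z ^ 6 / l := by
      rw [mul_pow, div_pow, Real.sq_sqrt l0.le]; ring
    calc C2 * ((R : ℝ) + 1) ^ 2 ≤ C2 * (3 * (Z ^ 3 / √l)) ^ 2 := by gcongr
      _ = 9 * C2 * Z ^ 6 / l := by rw [e1]; ring
      _ ≤ Z * Z ^ 6 / l := by gcongr; nlinarith
      _ = η ^ 4 * (Z ^ 51 / l) := by rw [hηdef]; field_simp
      _ ≤ η ^ 4 * m := by gcongr
  set h := HH ρ p l' (phi d m) with hh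
  have hht : h ≠ ⊤ := ne_top_of_le_ne_top hO' (ga1_HH_phi hd1 hp m)
  have mI : Measurable fun g : Prof d => mq p (cut (box d R) g) :=
    (measurable_mq p).comp (ga1_meas_cut _)
  set I := Res ρ l (fun g => mq p (cut (box d R) g)) (dlt (0 : Site d)) with hI
  have hIt : I ≠ ⊤ := ne_top_of_le_ne_top hOt (Res_mono (fun g =>
    ENNReal.rpow_le_rpow (mass_mono (ga1_cut_le _ g)) (by linarith)) _)
  set c : ℝ := (1 - l') ^ m * (1 - 2 * η) with hc
  have hpw : 0 ≤ (1 - l') ^ m := pow_nonneg (by linarith) m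
  have hc0 : 0 ≤ c := mul_nonneg hpw (by linarith)
  have hB : ∀ g, Nice g → ENNReal.ofReal c * h * mq p (cut (box d R) g) ≤ HH ρ p l' g := by
    intro g hg
    have hn : Nice (cut (box d R) g) := hg.of_le (ga1_cut_le _ g)
    have e := HH_sca (ρ := ρ) (l := l') (show 0 < p by linarith) (mass (cut (box d R) g)) (phi d m)
    have k := cmp' η R m hη hη2 hcmp p (HH ρ p l') hp hp2 (fn_HH hp) (cut (box d R) g) 0 hn
      (fun x hx => by
        by_contra hx'
        rw [sub_zero] at hx'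
        exact hx (if_neg hx'))
      (by
        rw [e]
        exact ENNReal.mul_ne_top (ENNReal.rpow_ne_top_of_nonneg (by linarith) hn.mass_ne_top) hht)
    rw [e] at k
    calc ENNReal.ofReal c * h * mq p (cut (box d R) g)
        = ENNReal.ofReal ((1 - l') ^ m) *
          (ENNReal.ofReal (1 - 2 * η) * (mass (cut (box d R) g) ^ p * h)) := by
          rw [hc, ENNReal.ofReal_mul hpw, mq]; ring
      _ ≤ ENNReal.ofReal ((1 - l') ^ m) * HH ρ p l' (avg^[m] g) :=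
          mul_le_mul_right (k.trans ((fn_HH hp).mono _ _ (avg_iter_mono m (ga1_cut_le _ g)))) _
      _ ≤ _ := ga1_smooth mean hp h1' m g
  set θ : ℝ := (l - l') / (l * (1 - l')) with hθ
  have hθ1 : 1 - η ≤ θ := by
    rw [hθ, le_div_iff₀ (mul_pos l0 (by linarith))]
    have : (1 - η) * (l * (1 - l')) ≤ (1 - η) * (l * 1) := by
      gcongr
      · linarith
      · linarith
    nlinarith
  have hA : ENNReal.ofReal θ * (ENNReal.ofReal c * h * I) ≤ OO d ρ p l' := by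
    refine le_trans ?_ (Res_two h0' hll l1 (measurable_mq p) (dlt (0 : Site d))).ge
    refine le_trans (mul_le_mul_right ?_ _) le_add_self
    rw [hI, ← Res_const_mul mI]
    exact Res_mono_nice hd1 hB (nice_dlt 0)
  have hC : OO d ρ p l ≤ ENNReal.ofReal (1 + 2 * η) * I +
      ENNReal.ofReal η⁻¹ * ENNReal.ofReal (C1 * Real.exp (-(Z / 20))) := by
    have k := conf' ρ p l ctx (hl.trans (inv_anti₀ (by linarith) (by linarith))) Z hZ1 hO (dlt 0) 0 R
      (nice_dlt 0) (fun x hx => by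
        obtain rfl : x = 0 := by
          by_contra h0
          exact hx (if_neg h0)
        exact heat_mem_box.2 fun i => by simp)
      (by simpa using Nat.le_ceil _)
    rw [mq, mass_dlt, ENNReal.one_rpow, mul_one] at k
    have mo : Measurable fun g : Prof d => mq p fun x => if x ∈ box d R then 0 else g x := by
      refine (measurable_mq p).comp (measurable_pi_lambda _ fun x => ?_)
      split_ifs
      · exact measurable_const
      · exact measurable_pi_apply x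
    refine le_trans ?_ (add_le_add_right (mul_le_mul_right k _) _)
    rw [hI, ← Res_const_mul mI, ← Res_const_mul mo, ← Res_add (mI.const_mul _)]
    refine Res_mono (fun g => ?_) _
    refine le_trans (le_of_eq ?_) ((fn_mq hp).add_le hp hp2 hη hη2 _ _)
    congr 1
    funext x
    by_cases hx : x ∈ box d R <;> simp [cut, hx]
  have o1 := ga1_one_le hd1 mean hp l0 l1 hOt
  have o1' := ga1_one_le hd1 mean hp h0' h1' hO'
  rw [ga1_KA hd1 mean hp h0' h1' hO', Kr, KK, ENNReal.toReal_inv, ← hZη]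
  refine ga1_real (i := I.toReal) (θ := θ) (c := c) (by linarith) (by linarith)
    ENNReal.toReal_nonneg ENNReal.toReal_nonneg hη hZ12 hZη1 hθ1 ?_ ?_ ?_
  · have := one_add_mul_le_pow (show (-2 : ℝ) ≤ -l' by linarith) m
    rw [hc]
    gcongr
    · linarith
    · rw [sub_eq_add_neg 1 l']
      nlinarith
  · have := ENNReal.toReal_mono hO' hA
    rwa [ENNReal.toReal_mul, ENNReal.toReal_mul, ENNReal.toReal_mul,
      ENNReal.toReal_ofReal (by linarith), ENNReal.toReal_ofReal hc0] at this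
  · have := ENNReal.toReal_mono (by finiteness) hC
    rw [ENNReal.toReal_add (by finiteness) (by finiteness), ENNReal.toReal_mul, ENNReal.toReal_mul,
      ENNReal.toReal_ofReal (by linarith), ENNReal.toReal_ofReal (by positivity),
      ENNReal.toReal_ofReal (by positivity), hηdef, inv_inv] at this
    have e := ga1_exp hC1 (show C1 * F ≤ Z by linarith)
    rw [← hηdef] at this e
    nlinarith

theorem ga1_gap (hd : 1 ≤ d) (hm : Mean1 ρ) {K : ℝ≥0∞} (hK : mom ρ 2 ≤ K) {p l : ℝ} (hp : 1 ≤ p)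
    (hp2 : p ≤ 2) (m j : ℕ) (f : Prof d) :
    (T ρ)^[m] (fun g => HH ρ p l (avg^[j] g)) f ≤ HH ρ p l (avg^[j + m] f) +
      8 * K * OO d ρ p l * ∑ i ∈ Finset.range m, (T ρ)^[i] (nq p) f := by
  induction m generalizing j with
  | zero => simp
  | succ m ih =>
    rw [Function.iterate_succ_apply]
    refine (T_iter_mono m (fun g => (gap hd hm hK hp hp2 j g).trans
      (add_le_add_right (mul_le_mul_right (nq_avg_le hd hp g) _) _)) f).trans ?_
    rw [T_iter_add m (Φ := fun g => HH ρ p l (avg^[j + 1] g))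
      (measurable_HH.comp (measurable_avg_iter _)),
      T_iter_const_mul m _ (measurable_nq p), Finset.sum_range_succ, mul_add, ← add_assoc,
      show j + (m + 1) = j + 1 + m by ring]
    exact add_le_add_left (ih (j + 1)) _

theorem ga1_res (hd : 1 ≤ d) (hm : Mean1 ρ) {K A : ℝ≥0∞} (hK : mom ρ 2 ≤ K) {p l l' : ℝ}
    (hp : 1 ≤ p) (hp2 : p ≤ 2) (h0 : 0 < l) (h1 : l < 1)
    (hA : ∑' n, ENNReal.ofReal ((1 - l) ^ n) * Am d ρ p n ≤ A) (m : ℕ) :
    Res ρ l (HH ρ p l') (dlt (0 : Site d)) ≤ OO d ρ p l * HH ρ p l' (phi d m) +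
      ENNReal.ofReal l * m * OO d ρ p l' * (OO d ρ p l + 8 * K * A) := by
  have hw : ∀ n, wt l n = ENNReal.ofReal l * ENNReal.ofReal ((1 - l) ^ n) := fun n =>
    ENNReal.ofReal_mul h0.le
  have hw2 : ∀ {a b : ℕ}, a ≤ b → wt l b ≤ wt l a := fun hab => by
    rw [hw, hw]
    exact mul_le_mul_right (ENNReal.ofReal_le_ofReal
      (pow_le_pow_of_le_one (by linarith) (by linarith) hab)) _
  have k1 : ∑ n ∈ Finset.range m, wt l n * (T ρ)^[n] (HH ρ p l') (dlt (0 : Site d)) ≤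
      ENNReal.ofReal l * m * OO d ρ p l' * OO d ρ p l := by
    refine (Finset.sum_le_card_nsmul _ _ (ENNReal.ofReal l * OO d ρ p l' * OO d ρ p l)
      fun n _ => ?_).trans (le_of_eq (by rw [Finset.card_range, nsmul_eq_mul]; ring))
    calc wt l n * (T ρ)^[n] (HH ρ p l') (dlt (0 : Site d))
        ≤ wt l n * (T ρ)^[n] (fun g => OO d ρ p l' * mq p g) (dlt (0 : Site d)) :=
          mul_le_mul_right (T_iter_mono n (HH_le hp) _) _
      _ = ENNReal.ofReal l * OO d ρ p l' * (ENNReal.ofReal ((1 - l) ^ n) * Mom d ρ p n) := by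
          rw [T_iter_const_mul n _ (measurable_mq p), hw, Mom]; ring
      _ ≤ _ := mul_le_mul_right (Mom_le_OO hd hm hp h0 h1 n) _
  have k2 : ∀ n, (T ρ)^[n + m] (HH ρ p l') (dlt (0 : Site d)) ≤ HH ρ p l' (phi d m) * Mom d ρ p n +
      8 * K * OO d ρ p l' * ∑ i ∈ Finset.range m, Am d ρ p (n + i) := fun n => by
    rw [Function.iterate_add_apply]
    refine (T_iter_mono n (Ψ := fun g => HH ρ p l' (phi d m) * mq p g +
      8 * K * OO d ρ p l' * ∑ i ∈ Finset.range m, (T ρ)^[i] (nq p) g) (fun g => ?_) _).trans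
      (le_of_eq ?_)
    · refine (ga1_gap hd hm hK hp hp2 m 0 g).trans (add_le_add_left ?_ _)
      rw [zero_add, mul_comm]
      exact HH_avg_iter_phi hd hp m g
    · rw [T_iter_add n ((measurable_mq p).const_mul _), T_iter_const_mul n _ (measurable_mq p),
        T_iter_const_mul n _ (Finset.measurable_sum _ fun i _ =>
          measurable_T_iter i (measurable_nq p)),
        T_iter_sum n _ fun i => measurable_T_iter i (measurable_nq p)]
      simp only [Mom, Am, Function.iterate_add_apply]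
  have k3 : ∀ i ∈ Finset.range m, ∑' n, wt l (n + m) * Am d ρ p (n + i) ≤ ENNReal.ofReal l * A := by
    intro i hi
    have hi' := Finset.mem_range.mp hi
    calc ∑' n, wt l (n + m) * Am d ρ p (n + i) ≤ ∑' n, wt l (n + i) * Am d ρ p (n + i) :=
          ENNReal.tsum_le_tsum fun n => mul_le_mul_left (hw2 (by omega)) _
      _ ≤ ∑' n, wt l n * Am d ρ p n :=
          ENNReal.tsum_comp_le_tsum_of_injective (add_left_injective i)
            fun n => wt l n * Am d ρ p n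
      _ = ENNReal.ofReal l * ∑' n, ENNReal.ofReal ((1 - l) ^ n) * Am d ρ p n := by
          simp only [hw, mul_assoc, ENNReal.tsum_mul_left]
      _ ≤ _ := mul_le_mul_right hA _
  have k4 : ∑' n, wt l (n + m) * (T ρ)^[n + m] (HH ρ p l') (dlt (0 : Site d)) ≤
      OO d ρ p l * HH ρ p l' (phi d m) + ENNReal.ofReal l * m * OO d ρ p l' * (8 * K * A) := by
    refine (ENNReal.tsum_le_tsum fun n => mul_le_mul_right (k2 n) _).trans ?_
    simp only [mul_add, ENNReal.tsum_add]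
    refine add_le_add ?_ ?_
    · rw [OO_eq, ← ENNReal.tsum_mul_right]
      refine ENNReal.tsum_le_tsum fun n => ?_
      rw [mul_comm (HH ρ p l' (phi d m)), ← mul_assoc]
      exact mul_le_mul_left (mul_le_mul_left (hw2 (by omega)) _) _
    · calc ∑' n, wt l (n + m) * (8 * K * OO d ρ p l' * ∑ i ∈ Finset.range m, Am d ρ p (n + i))
          = 8 * K * OO d ρ p l' *
            ∑ i ∈ Finset.range m, ∑' n, wt l (n + m) * Am d ρ p (n + i) := by
            rw [← Summable.tsum_finsetSum fun _ _ => ENNReal.summable, ← ENNReal.tsum_mul_left]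
            refine tsum_congr fun n => ?_
            rw [← Finset.mul_sum]
            ring
        _ ≤ 8 * K * OO d ρ p l' * ((Finset.range m).card • (ENNReal.ofReal l * A)) :=
            mul_le_mul_right (Finset.sum_le_card_nsmul _ _ _ k3) _
        _ = _ := by rw [Finset.card_range, nsmul_eq_mul]; ring
  rw [Res, ← Summable.sum_add_tsum_nat_add' (k := m) ENNReal.summable]
  refine (add_le_add k1 k4).trans (le_of_eq ?_)
  ring

/-- Decrease of the inverse moment: upper bound. -/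
theorem a1_up (hd : 3 ≤ d) {κ M : ℝ} (hκ : 0 < κ) : ∃ (a : ℕ) (C : ℝ), 1 ≤ C ∧
    ∀ (ρ : Measure ℝ≥0) [IsProbabilityMeasure ρ] (l l' Z : ℝ) (m : ℕ), Ctx d κ M ρ (q0 d) l →
      l ≤ C⁻¹ → C ≤ Z → Sc d ρ (q0 d) l Z → 0 < l' → l' ≤ l → OO d ρ (q0 d) l' ≠ ⊤ → 1 ≤ m →
        Kr d ρ (q0 d) l ≤ Kr d ρ (q0 d) l' + Ar d ρ (q0 d) l' m + l * m * Z ^ a := by
  have hd1 : 1 ≤ d := by omega
  obtain ⟨a, C0, hC0, gaa'⟩ := gaa (M := M) hd hκ
  have hM0 := abs_nonneg M
  refine ⟨a + 1, C0 + 16 * |M|, by linarith, ?_⟩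
  intro ρ _ l l' Z m ctx hl hZ hS h0' hll hO' _
  set p := q0 d
  have hZ1 : 1 ≤ Z := by linarith
  have hp : 1 ≤ p := (ctx.one_lt hd).1.le
  have hp2 : p ≤ 2 := (ctx.one_lt hd).2.le
  have mean : Mean1 ρ := ctx.good.1
  have l0 := ctx.l0
  have l1 := ctx.l1
  have h1' : l' < 1 := hll.trans_lt l1
  have hOt : OO d ρ p l ≠ ⊤ := ne_top_of_le_ne_top ENNReal.ofReal_ne_top hS.1
  obtain ⟨hM1, hmom, -⟩ := ctx.good.basic hd hκ
  have hA := (gaa' ρ l Z ctx (hl.trans (inv_anti₀ (by linarith) (by linarith))) (by linarith) hS).2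
  have hR := ga1_res (l' := l') hd1 mean (hmom 2 (by norm_num) (by norm_num)) hp hp2 l0 l1 hA m
  set h := HH ρ p l' (phi d m) with hh
  have hht : h ≠ ⊤ := ne_top_of_le_ne_top hO' (ga1_HH_phi hd1 hp m)
  have hh1 : 1 ≤ h := by
    simpa [mq, mass_phi hd1] using mq_le_HH hd1 mean hp h0' h1' (phi d m)
  set E := ENNReal.ofReal l * m * OO d ρ p l' *
    (OO d ρ p l + 8 * ENNReal.ofReal (2 * M) * ENNReal.ofReal (Z ^ a)) with hE
  have hden : 0 < l * (1 - l') := mul_pos l0 (by linarith)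
  have hab : ENNReal.ofReal (l' * (1 - l) / (l * (1 - l'))) +
      ENNReal.ofReal ((l - l') / (l * (1 - l'))) = 1 := by
    rw [← ENNReal.ofReal_add (div_nonneg (mul_nonneg h0'.le (by linarith)) hden.le)
      (div_nonneg (by linarith) hden.le), ← add_div, ← ENNReal.ofReal_one]
    congr 1
    rw [div_eq_one_iff_eq hden.ne']
    ring
  have key : OO d ρ p l' ≤ OO d ρ p l * h + E := by
    refine (Res_two h0' hll l1 (measurable_mq p) (dlt (0 : Site d))).le.trans ?_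
    rw [← one_mul (OO d ρ p l * h + E), ← hab, add_mul]
    exact add_le_add (mul_le_mul_right
      ((le_mul_of_one_le_right' hh1).trans le_self_add) _) (mul_le_mul_right hR _)
  have o1 := ga1_one_le hd1 mean hp l0 l1 hOt
  have o1' := ga1_one_le hd1 mean hp h0' h1' hO'
  have hZa : 1 ≤ Z ^ a := one_le_pow₀ hZ1
  have key2 := ENNReal.toReal_mono (by rw [hE]; finiteness) key
  rw [hE, ENNReal.toReal_add (by finiteness) (by finiteness), ENNReal.toReal_mul,
    ENNReal.toReal_mul, ENNReal.toReal_mul, ENNReal.toReal_mul,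
    ENNReal.toReal_add hOt (by finiteness), ENNReal.toReal_mul, ENNReal.toReal_mul,
    ENNReal.toReal_ofReal l0.le, ENNReal.toReal_ofReal (by linarith),
    ENNReal.toReal_ofReal (by linarith), ENNReal.toReal_natCast, ENNReal.toReal_ofNat] at key2
  rw [ga1_KA hd1 mean hp h0' h1' hO', Kr, KK, ENNReal.toReal_inv]
  set o := (OO d ρ p l).toReal
  set o' := (OO d ρ p l').toReal
  have k1 : o + 8 * (2 * M) * Z ^ a ≤ o * Z ^ (a + 1) := by
    have e : |M| = M := abs_of_nonneg (by linarith)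
    rw [e] at hZ
    calc o + 8 * (2 * M) * Z ^ a ≤ o * Z ^ a + o * (16 * M * Z ^ a) := by
          have : 0 ≤ 16 * M * Z ^ a := by positivity
          nlinarith
      _ = o * ((1 + 16 * M) * Z ^ a) := by ring
      _ ≤ o * (Z * Z ^ a) := by gcongr; linarith
      _ = o * Z ^ (a + 1) := by ring
  have k2 : o' ≤ o * h.toReal + l * m * o' * (o * Z ^ (a + 1)) := key2.trans (by gcongr)
  have ho : 0 < o := by linarith
  have ho' : 0 < o' := by linarith
  calc o⁻¹ = o' / (o * o') := by field_simp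
    _ ≤ (o * h.toReal + l * m * o' * (o * Z ^ (a + 1))) / (o * o') := by gcongr
    _ = o'⁻¹ * h.toReal + l * m * Z ^ (a + 1) := by field_simp

end Pool.Agent.Lib.MP_153faa_pr
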