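import Mathlib
import Pool.Agent.Lib.MP_153faa_pr.GLoc2

/-!
Dyadic estimates for the stopped moments: the lemmas with explicit constants.
-/

set_option autoImplicit false

open MeasureTheory Filter Topology
open scoped ENNReal NNReal

namespace Pool.Agent.Lib.MP_153faa_pr

variable {d : ℕ} {ρ : Measure ℝ≥0} [IsProbabilityMeasure ρ] {l p : ℝ}

theorem gloc3_ctx {κ M : ℝ} (hd : 3 ≤ d) (hκ : 0 < κ) (h : Ctx d κ M ρ p l) :
    1 < p ∧ p ≤ 5 / 3 ∧ ∃ χ : ℝ≥0∞, mom ρ 2 = 1 + χ ∧ χ ≤ ENNReal.ofReal (2 * max M 1) := by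
  refine ⟨(h.one_lt hd).1, ?_, ?_⟩
  · have h3 : (3 : ℝ) ≤ d := by exact_mod_cast hd
    have : (2 : ℝ) / d ≤ 2 / 3 := div_le_div_of_nonneg_left (by norm_num) (by norm_num) h3
    have h2 := h.p2
    unfold q0 at h2
    linarith
  · obtain ⟨χ, hχ, -⟩ := h.good.2.2.2
    refine ⟨χ, hχ, ?_⟩
    have h2 := (h.good.basic hd hκ).2.1 2 (by norm_num) (by norm_num)
    rw [hχ] at h2
    refine (le_add_self.trans h2).trans (ENNReal.ofReal_le_ofReal ?_)
    have := le_max_left M 1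
    linarith

theorem gloc3_mem_lev {g : Prof d} (hg : Nice g) (s : ℝ) : g ∈ lev d s ↔ s ≤ mr g := by
  have e : g ∈ lev d s ↔ ENNReal.ofReal s ≤ mass g := Iff.rfl
  rw [e, ← hg.ofReal_mr, ENNReal.ofReal_le_ofReal_iff (gres2_mr_nonneg g)]

theorem gloc3_lev_sub {s s' : ℝ} (h : s ≤ s') : lev d s' ⊆ lev d s := fun _ hg =>
  le_trans (ENNReal.ofReal_le_ofReal h) hg

theorem gloc3_mq {g : Prof d} (hg : Nice g) {q : ℝ} (hq : 0 ≤ q) :
    mq q g = ENNReal.ofReal (mr g ^ q) := by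
  unfold mq
  rw [← hg.ofReal_mr, ENNReal.ofReal_rpow_of_nonneg (gres2_mr_nonneg g) hq]

theorem gloc3_mr_dlt : mr (dlt (0 : Site d)) = 1 := by
  unfold mr; rw [mass_dlt, ENNReal.toReal_one]

theorem gloc3_meas_nq : Measurable fun g : Prof d => nq 2 (avg g) :=
  (measurable_nq 2).comp measurable_avg

theorem gloc3_meas_II (t : ℝ) : Measurable (II ρ l t : Prof d → ℝ≥0∞) :=
  measurable_Occ (measurableSet_lev t) gloc3_meas_nq

theorem gloc3_U_const {S : Set (Prof d)} (hS : MeasurableSet S) (h0 : 0 < l) (h1 : l < 1)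
    (c : ℝ≥0∞) (f : Prof d) : U ρ l S (fun _ => c) (fun _ => c) f = c := by
  have h := U_const_mul (ρ := ρ) (l := l) hS (F := fun _ => 1) (R := fun _ => 1)
    measurable_const measurable_const c f
  rw [U_one hS h0 h1] at h
  simpa using h

theorem gloc3_U_exit_mul {S : Set (Prof d)} (hS : MeasurableSet S) {F : Prof d → ℝ≥0∞}
    (hF : Measurable F) (c : ℝ≥0∞) (f : Prof d) :
    U ρ l S (fun g => c * F g) (fun _ => 0) f = c * U ρ l S F (fun _ => 0) f := by
  have h := U_const_mul (ρ := ρ) (l := l) hS (F := F) (R := fun _ => 0) hF measurable_const c f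
  simpa using h

theorem gloc3_U_add_exit {S : Set (Prof d)} (hS : MeasurableSet S) {F G R : Prof d → ℝ≥0∞}
    (hF : Measurable F) (hG : Measurable G) (hR : Measurable R) (c : ℝ≥0∞) (f : Prof d) :
    U ρ l S (fun g => F g + c * G g) R f = U ρ l S F R f + c * U ρ l S G (fun _ => 0) f := by
  have h := U_add (ρ := ρ) (l := l) hS (F := F) (F' := fun g => c * G g) (R := R)
    (R' := fun _ => 0) hF (hG.const_mul c) hR measurable_const f
  rw [gloc3_U_exit_mul hS hG] at h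
  simpa using h

theorem gloc3_II_nested (h1 : l < 1) {s s' : ℝ} (h : s ≤ s') (f : Prof d) :
    II ρ l s' f = II ρ l s f + U ρ l (lev d s) (II ρ l s') (fun _ => 0) f :=
  Occ_nested (measurableSet_lev s) (measurableSet_lev s') h1 (gloc3_lev_sub h) gloc3_meas_nq f

/-- One level, upper bound. -/
theorem gloc3_one_up (hd : 1 ≤ d) (hm : Mean1 ρ) {χ : ℝ≥0∞} (hχ : mom ρ 2 = 1 + χ) (hχt : χ ≠ ⊤)
    (hp : 1 < p) (hp2 : p ≤ 2) (h0 : 0 < l) (h1 : l < 1) (s : ℝ) {g : Prof d} (hg : Nice g)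
    (hw : 0 < mr g) :
    U ρ l (lev d s) (mq p) (mq p) g ≤
      mq p g + ENNReal.ofReal (mr g ^ (p - 2)) * χ * II ρ l s g := by
  have hS := measurableSet_lev (d := d) s
  have hp0 : 0 ≤ p := by linarith
  have hA : 0 ≤ p * mr g ^ (p - 1) := by positivity
  have hsq : Measurable fun h : Prof d => ENNReal.ofReal ((mr h - mr g) ^ 2) :=
    ((measurable_mr.sub_const _).pow_const 2).ennreal_ofReal
  have key : ∀ h : Prof d, Nice h → mq p h + ENNReal.ofReal (p * mr g ^ (p - 1)) * mass g ≤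
      ENNReal.ofReal (mr g ^ (p - 2)) * ENNReal.ofReal ((mr h - mr g) ^ 2) +
        (mq p g + ENNReal.ofReal (p * mr g ^ (p - 1)) * mass h) := fun h hh => by
    have hm := gres2_mr_nonneg h
    rw [gloc3_mq hh hp0, gloc3_mq hg hp0, ← hg.ofReal_mr, ← hh.ofReal_mr,
      ← ENNReal.ofReal_mul hA, ← ENNReal.ofReal_mul hA, ← ENNReal.ofReal_mul (by positivity),
      ← ENNReal.ofReal_add (by positivity) (by positivity),
      ← ENNReal.ofReal_add (by positivity) (by positivity),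
      ← ENNReal.ofReal_add (by positivity) (by positivity)]
    refine ENNReal.ofReal_le_ofReal ?_
    have := br_le_sq hp.le hp2 hw hm
    unfold br at this
    nlinarith
  have h := U_mono (ρ := ρ) (l := l) (S := lev d s) hd (fun h hh _ => key h hh)
    (fun h hh _ => key h hh) hg
  have hm2 : Measurable fun h : Prof d =>
      mq p g + ENNReal.ofReal (p * mr g ^ (p - 1)) * mass h :=
    (measurable_mass.const_mul _).const_add _
  rw [U_add hS (measurable_mq p) measurable_const (measurable_mq p) measurable_const,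
    gloc3_U_const hS h0 h1, U_add hS (hsq.const_mul _) hm2 (hsq.const_mul _) hm2,
    U_const_mul hS hsq hsq, U_dev hd hm hχ hχt h0 h1 s hg,
    U_add hS measurable_const (measurable_mass.const_mul _) measurable_const
      (measurable_mass.const_mul _), gloc3_U_const hS h0 h1,
    U_const_mul hS measurable_mass measurable_mass, U_mass_lev hd hm h0 h1 s hg,
    ← add_assoc] at h
  have h' := (ENNReal.add_le_add_iff_right
    (ENNReal.mul_ne_top ENNReal.ofReal_ne_top hg.mass_ne_top)).1 h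
  rw [mul_assoc, add_comm]
  exact h'

/-- Passing from one level to a higher one, upper bound. -/
theorem gloc3_step_up (hd : 1 ≤ d) (hm : Mean1 ρ) {χ : ℝ≥0∞} (hχ : mom ρ 2 = 1 + χ)
    (hχt : χ ≠ ⊤) (hp : 1 < p) (hp2 : p ≤ 2) (h0 : 0 < l) (h1 : l < 1) {s s' : ℝ} (hs : 0 < s)
    (h : s ≤ s') {f : Prof d} (hf : Nice f) :
    U ρ l (lev d s') (mq p) (mq p) f ≤ U ρ l (lev d s) (mq p) (mq p) f +
      ENNReal.ofReal (s ^ (p - 2)) * χ * II ρ l s' f := by
  have hS := measurableSet_lev (d := d) s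
  rw [U_nested hS (measurableSet_lev s') (gloc3_lev_sub h) (measurable_mq p) (measurable_mq p)]
  calc _ ≤ U ρ l (lev d s) (fun g => mq p g + ENNReal.ofReal (s ^ (p - 2)) * χ * II ρ l s' g)
        (mq p) f := by
        refine U_mono hd (fun g hg hgs => ?_) (fun _ _ _ => le_rfl) hf
        have hsg := (gloc3_mem_lev hg s).1 hgs
        refine (gloc3_one_up hd hm hχ hχt hp hp2 h0 h1 s' hg (hs.trans_le hsg)).trans ?_
        have h3 : mr g ^ (p - 2) ≤ s ^ (p - 2) :=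
          Real.rpow_le_rpow_of_nonpos hs hsg (by linarith)
        exact add_le_add le_rfl (mul_le_mul_left (mul_le_mul_left
          (ENNReal.ofReal_le_ofReal h3) _) _)
    _ ≤ _ := by
        rw [gloc3_U_add_exit hS (measurable_mq p) (gloc3_meas_II s') (measurable_mq p)]
        gcongr
        rw [gloc3_II_nested h1 h f]
        exact le_add_self

theorem gloc3_two_rpow {v : ℝ} (hv : 0 < v) (hp : 1 ≤ p) :
    v ^ (p - 2) * (2 * v) ^ (2 - p) ≤ 2 := by
  rw [Real.mul_rpow (by norm_num) hv.le, mul_left_comm, ← Real.rpow_add hv]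
  have : (2 : ℝ) ^ (2 - p) ≤ 2 ^ (1 : ℝ) :=
    Real.rpow_le_rpow_of_exponent_le (by norm_num) (by linarith)
  simpa using this

/-- The dyadic sum. -/
theorem gloc3_dy (hd : 1 ≤ d) (hm : Mean1 ρ) {χ : ℝ≥0∞} (hχ : mom ρ 2 = 1 + χ) {X C₁ : ℝ}
    (hX : 0 ≤ X) (hC : 0 ≤ C₁) (hχX : χ ≤ ENNReal.ofReal X) (hp : 1 < p) (hp2 : p ≤ 2)
    (h0 : 0 < l) (h1 : l < 1) {f : Prof d} (hf : Nice f) (hw : 0 < mr f) (J : ℕ)
    (hI : ∀ j < J, II ρ l (2 * (2 ^ j * mr f)) f ≤
      ENNReal.ofReal (C₁ * (2 * (2 ^ j * mr f)) ^ (2 - p) * mr f ^ p))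
    (s : ℝ) (hs : s ≤ 2 ^ J * mr f) :
    U ρ l (lev d s) (mq p) (mq p) f ≤ ENNReal.ofReal ((1 + 2 * X * C₁ * J) * mr f ^ p) := by
  have hχt : χ ≠ ⊤ := ne_top_of_le_ne_top ENNReal.ofReal_ne_top hχX
  have hwp : 0 < mr f ^ p := Real.rpow_pos_of_pos hw p
  induction J generalizing s with
  | zero =>
    rw [U_mem ((gloc3_mem_lev hf s).2 (by simpa using hs)), gloc3_mq hf (by linarith)]
    simp
  | succ J ih =>
    have ih' := ih fun j hj => hI j (by omega)
    have hv : 0 < 2 ^ J * mr f := by positivity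
    by_cases hc : s ≤ 2 ^ J * mr f
    · refine (ih' s hc).trans (ENNReal.ofReal_le_ofReal ?_)
      push_cast
      have : 0 ≤ 2 * X * C₁ * mr f ^ p := by positivity
      nlinarith
    · have hs' : s ≤ 2 * (2 ^ J * mr f) := by rw [pow_succ] at hs; linarith
      refine (gloc3_step_up hd hm hχ hχt hp hp2 h0 h1 hv (not_le.1 hc).le hf).trans ?_
      have h2 : ENNReal.ofReal ((2 ^ J * mr f) ^ (p - 2)) * χ * II ρ l s f ≤
          ENNReal.ofReal (2 * X * C₁ * mr f ^ p) :=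
        calc _ ≤ ENNReal.ofReal ((2 ^ J * mr f) ^ (p - 2)) * ENNReal.ofReal X *
              ENNReal.ofReal (C₁ * (2 * (2 ^ J * mr f)) ^ (2 - p) * mr f ^ p) := by
              gcongr
              exact (II_mono h1 hs' f).trans (hI J (by omega))
          _ ≤ _ := by
              rw [← ENNReal.ofReal_mul (by positivity), ← ENNReal.ofReal_mul (by positivity)]
              refine ENNReal.ofReal_le_ofReal ?_
              have h3 := gloc3_two_rpow hv hp.le
              have h4 : 0 ≤ X * C₁ * mr f ^ p := by positivity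
              nlinarith
      refine (add_le_add (ih' _ le_rfl) h2).trans ?_
      rw [← ENNReal.ofReal_add (by positivity) (by positivity)]
      refine ENNReal.ofReal_le_ofReal (le_of_eq ?_)
      push_cast
      ring

/-- A large moment forces a large exit moment. -/
theorem gloc3_half (hd : 1 ≤ d) (hm : Mean1 ρ) (hK : mom ρ 2 ≠ ⊤) (hp : 1 ≤ p) (hp2 : p ≤ 2)
    (h0 : 0 < l) (h1 : l < 1) {S : Set (Prof d)} (hS : MeasurableSet S) {B : ℝ} (hB : 0 < B)
    (hU : U ρ l S (mq p) (mq p) (dlt 0) ≤ ENNReal.ofReal B)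
    (hO : ENNReal.ofReal (3 * B) ≤ OO d ρ p l) :
    2⁻¹ ≤ U ρ l S (mq p) (fun _ => 0) (dlt 0) := by
  have _ := h0
  by_contra hcon
  have hu := (not_le.1 hcon).le
  have hmq := measurable_mq (d := d) p
  have claim : ∀ (c : ℝ≥0∞) (n : ℕ), ∑ k ∈ Finset.range n, wt l k * Mom d ρ p k ≤ c → ∀ g,
      ∑ k ∈ Finset.range n, wt l k * (T ρ)^[k] (mq p) g ≤
        U ρ l S (fun h => c * mq p h) (mq p) g := by
    intro c n
    induction n with
    | zero => intro _ g; simp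
    | succ n ih =>
      intro hc g
      have ih' := ih (le_trans (by rw [Finset.sum_range_succ]; exact le_self_add) hc)
      by_cases hg : g ∈ S
      · rw [U_mem hg]
        refine le_trans ?_ (mul_le_mul_left hc _)
        rw [Finset.sum_mul]
        refine Finset.sum_le_sum fun k _ => ?_
        rw [mul_assoc, mul_comm (Mom d ρ p k)]
        exact mul_le_mul_right (T_iter_mq_le hp k g) _
      · rw [U_not_mem hS (hmq.const_mul c) hmq hg, Finset.sum_range_succ', add_comm]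
        refine add_le_add (by simp [wt]) ?_
        refine le_trans (le_of_eq ?_) (mul_le_mul_right (T_mono ih' g) _)
        have e := T_iter_sum (ρ := ρ) 1 (Finset.range n)
          (Φ := fun k g => wt l k * (T ρ)^[k] (mq p) g)
          (fun k => (measurable_T_iter k hmq).const_mul _) g
        simp only [Function.iterate_one] at e
        rw [e, Finset.mul_sum]
        refine Finset.sum_congr rfl fun k _ => ?_
        rw [T_const_mul _ (measurable_T_iter k hmq), wt_add h1, pow_one,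
          Function.iterate_succ_apply', mul_assoc]
  have hO2 : OO d ρ p l ≤ ENNReal.ofReal (2 * B) := by
    rw [OO_eq]
    refine ENNReal.tsum_le_of_sum_range_le fun n => ?_
    set c := ∑ k ∈ Finset.range n, wt l k * Mom d ρ p k with hc
    have hct : c ≠ ⊤ := ENNReal.sum_ne_top.2 fun k _ =>
      ENNReal.mul_ne_top ENNReal.ofReal_ne_top (Mom_ne_top hd hm hK hp hp2 k)
    have h2 : c ≤ U ρ l S (fun h => c * mq p h) (mq p) (dlt 0) := claim c n le_rfl (dlt 0)
    rw [U_split hS (hmq.const_mul c) hmq, gloc3_U_exit_mul hS hmq] at h2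
    have h3 : U ρ l S (fun _ => 0) (mq p) (dlt 0) ≤ ENNReal.ofReal B := by
      refine le_trans ?_ hU
      rw [U_split hS hmq hmq]
      exact le_add_self
    have h4 : c ≤ c * 2⁻¹ + ENNReal.ofReal B := h2.trans (by gcongr)
    have h5 : c + c ≤ c + 2 * ENNReal.ofReal B :=
      calc c + c = 2 * c := (two_mul c).symm
        _ ≤ 2 * (c * 2⁻¹ + ENNReal.ofReal B) := by gcongr
        _ = c * (2 * 2⁻¹) + 2 * ENNReal.ofReal B := by ring
        _ = _ := by rw [ENNReal.mul_inv_cancel (by simp) (by simp), mul_one]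
    rw [ENNReal.ofReal_mul (by norm_num), ENNReal.ofReal_ofNat]
    exact (ENNReal.add_le_add_iff_left hct).1 h5
  have := (ENNReal.ofReal_le_ofReal_iff (by linarith)).1 (hO.trans hO2)
  linarith

theorem gloc3_mq_le_sq (hp : 0 ≤ p) (hp2 : p ≤ 2) {t : ℝ} (ht : 0 < t) {g : Prof d}
    (hg : Nice g) (h : g ∈ lev d t) : mq p g ≤ ENNReal.ofReal (t ^ (p - 2)) * mq 2 g := by
  have htg := (gloc3_mem_lev hg t).1 h
  have hw : 0 < mr g := ht.trans_le htg
  rw [gloc3_mq hg hp, gloc3_mq hg (by norm_num), ← ENNReal.ofReal_mul (by positivity)]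
  refine ENNReal.ofReal_le_ofReal ?_
  have e : mr g ^ p = mr g ^ (p - 2) * mr g ^ (2 : ℝ) := by
    rw [← Real.rpow_add hw]; congr 1; ring
  have h3 : mr g ^ (p - 2) ≤ t ^ (p - 2) := Real.rpow_le_rpow_of_nonpos ht htg (by linarith)
  rw [e]
  exact mul_le_mul_of_nonneg_right h3 (by positivity)

/-- A large exit moment forces a large occupation integral. -/
theorem gloc3_II_of_half (hd : 1 ≤ d) (hm : Mean1 ρ) {χ : ℝ≥0∞} (hχ : mom ρ 2 = 1 + χ) {X : ℝ}
    (hX : 0 < X) (hχX : χ ≤ ENNReal.ofReal X) (hp : 0 ≤ p) (hp2 : p ≤ 2)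
    (h0 : 0 < l) (h1 : l < 1) {t : ℝ} (ht : 2 ≤ t)
    (hU : 2⁻¹ ≤ U ρ l (lev d t) (mq p) (fun _ => 0) (dlt 0)) :
    ENNReal.ofReal (t ^ (2 - p) / (8 * X)) ≤ II ρ l t (dlt (0 : Site d)) := by
  have hχt : χ ≠ ⊤ := ne_top_of_le_ne_top ENNReal.ofReal_ne_top hχX
  have ht0 : 0 < t := by linarith
  have h2 : 2⁻¹ ≤ ENNReal.ofReal (t ^ (p - 2)) *
      (ENNReal.ofReal 4 * ENNReal.ofReal X * II ρ l t (dlt (0 : Site d))) :=
    calc 2⁻¹ ≤ U ρ l (lev d t) (fun g => ENNReal.ofReal (t ^ (p - 2)) * mq 2 g) (fun _ => 0)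
          (dlt 0) := hU.trans (U_mono hd (fun g hg hgt => gloc3_mq_le_sq hp hp2 ht0 hg hgt)
            (fun _ _ _ => le_rfl) (nice_dlt 0))
      _ ≤ _ := by
          rw [gloc3_U_exit_mul (measurableSet_lev t) (measurable_mq 2), ENNReal.ofReal_ofNat]
          refine mul_le_mul_right ((U_sq_exit hd hm hχ hχt h0 h1 (nice_dlt 0)
            (by rw [gloc3_mr_dlt]; linarith)).trans ?_) _
          gcongr
  have e1 : ENNReal.ofReal (t ^ (2 - p) / (8 * X)) =
      ENNReal.ofReal (t ^ (2 - p) / (4 * X)) * 2⁻¹ := by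
    rw [← ENNReal.ofReal_ofNat 2, ← ENNReal.ofReal_inv_of_pos (by norm_num),
      ← ENNReal.ofReal_mul (by positivity)]
    congr 1
    field_simp
    ring
  have e2 : t ^ (2 - p) / (4 * X) * t ^ (p - 2) * 4 * X = 1 := by
    have : t ^ (2 - p) * t ^ (p - 2) = 1 := by rw [← Real.rpow_add ht0]; simp
    field_simp
    exact this
  rw [e1]
  refine (mul_le_mul_right h2 _).trans (le_of_eq ?_)
  rw [← mul_assoc, ← mul_assoc, ← mul_assoc, ← ENNReal.ofReal_mul (by positivity),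
    ← ENNReal.ofReal_mul (by positivity), ← ENNReal.ofReal_mul (by positivity), e2,
    ENNReal.ofReal_one, one_mul]

theorem gloc3_quarter {a : ℝ} (hl : 0 < l) (ha : 0 < a) (h : l ≤ (a ^ 4)⁻¹) :
    l ^ (1 / 4 : ℝ) ≤ a⁻¹ := by
  have h1 : l ^ (1 / 4 : ℝ) ≤ (a⁻¹ ^ 4) ^ (1 / 4 : ℝ) :=
    Real.rpow_le_rpow hl.le (by rwa [inv_pow]) (by norm_num)
  have h2 : (a⁻¹ ^ 4) ^ (1 / 4 : ℝ) = a⁻¹ := by
    have := Real.pow_rpow_inv_natCast (x := a⁻¹) (n := 4) (by positivity) (by norm_num)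
    have e : (1 / 4 : ℝ) = ((4 : ℕ) : ℝ)⁻¹ := by norm_num
    rw [e, this]
  rwa [h2] at h1

/-- A large occupation integral forces high sites. -/
theorem gloc3_Y_of_II {X C y : ℝ} (hX : 1 ≤ X) (hC : 1 ≤ C) (hy : 0 ≤ y)
    (hp2 : p ≤ 2) (h0 : 0 < l) (h1 : l < 1) (hl : l ≤ ((16 * X * C) ^ 4)⁻¹)
    (hlow : ENNReal.ofReal ((2 * C * Real.exp y) ^ (2 - p) / (8 * X)) ≤
      II ρ l (2 * C * Real.exp y) (dlt (0 : Site d)))
    (hloc : II ρ l (2 * C * Real.exp y) (dlt (0 : Site d)) ≤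
      ENNReal.ofReal (C * (2 * C * Real.exp y) ^ 2) *
        Yv ρ l (dlt (0 : Site d)) (ENNReal.ofReal (2 * C * Real.exp y / C)) +
      ENNReal.ofReal (C * l ^ (1 / 4 : ℝ) * mr (dlt (0 : Site d)) ^ 2)) :
    ENNReal.ofReal ((64 * X * C ^ 3)⁻¹ * Real.exp (-(p * y))) ≤
      Yv ρ l (dlt (0 : Site d)) (ENNReal.ofReal (Real.exp y)) := by
  have hey : 1 ≤ Real.exp y := Real.one_le_exp hy
  have hq := gloc3_quarter h0 (by positivity) hl
  have hq0 : 0 ≤ l ^ (1 / 4 : ℝ) := by positivity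
  have hanti : Yv ρ l (dlt (0 : Site d)) (ENNReal.ofReal (2 * C * Real.exp y / C)) ≤
      Yv ρ l (dlt (0 : Site d)) (ENNReal.ofReal (Real.exp y)) := by
    refine Yv_anti h0 h1 (ENNReal.ofReal_le_ofReal ?_) _
    rw [le_div_iff₀ (by linarith)]
    nlinarith
  have hfin : Yv ρ l (dlt (0 : Site d)) (ENNReal.ofReal (Real.exp y)) ≠ ⊤ :=
    ne_top_of_le_ne_top ENNReal.one_ne_top (Yv_le_one h0 h1 _ _)
  obtain ⟨Y, hY0, hY⟩ : ∃ Y : ℝ, 0 ≤ Y ∧
      Yv ρ l (dlt (0 : Site d)) (ENNReal.ofReal (Real.exp y)) = ENNReal.ofReal Y :=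
    ⟨_, ENNReal.toReal_nonneg, (ENNReal.ofReal_toReal hfin).symm⟩
  rw [hY] at hanti ⊢
  have h2 := hlow.trans (hloc.trans (add_le_add_left (mul_le_mul_right hanti _) _))
  rw [gloc3_mr_dlt, ← ENNReal.ofReal_mul (by positivity),
    ← ENNReal.ofReal_add (by positivity) (by positivity),
    ENNReal.ofReal_le_ofReal_iff (by positivity)] at h2
  refine ENNReal.ofReal_le_ofReal ?_
  set t := 2 * C * Real.exp y with ht
  have ht1 : 1 ≤ t := by rw [ht]; nlinarith
  have ht0 : 0 < t := by linarith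
  have h3 : 1 ≤ t ^ (2 - p) := Real.one_le_rpow ht1 (by linarith)
  have h4 : C * l ^ (1 / 4 : ℝ) * 1 ^ 2 ≤ t ^ (2 - p) / (16 * X) := by
    calc C * l ^ (1 / 4 : ℝ) * 1 ^ 2 ≤ C * (16 * X * C)⁻¹ * 1 ^ 2 := by gcongr
      _ = 1 / (16 * X) := by field_simp
      _ ≤ _ := by gcongr
  have h5 : t ^ (2 - p) / (16 * X) ≤ C * t ^ 2 * Y := by
    have : t ^ (2 - p) / (8 * X) = t ^ (2 - p) / (16 * X) + t ^ (2 - p) / (16 * X) := by
      field_simp; ring
    linarith
  have e1 : t ^ (2 - p) = t ^ 2 * t ^ (-p) := by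
    rw [← Real.rpow_two, ← Real.rpow_add ht0]; congr 1
  have h6 : t ^ (-p) ≤ 16 * X * C * Y := by
    rw [e1, div_le_iff₀ (by positivity)] at h5
    have h7 : t ^ 2 * t ^ (-p) ≤ t ^ 2 * (16 * X * C * Y) := by linarith
    exact le_of_mul_le_mul_left h7 (by positivity)
  have h8 : ((2 * C) ^ 2)⁻¹ * Real.exp (-(p * y)) ≤ t ^ (-p) := by
    rw [ht, Real.mul_rpow (by positivity) (by positivity), ← Real.exp_mul]
    have : ((2 * C) ^ 2)⁻¹ ≤ (2 * C) ^ (-p) := by
      rw [← Real.rpow_two, ← Real.rpow_neg (by positivity)]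
      exact Real.rpow_le_rpow_of_exponent_le (by linarith) (by linarith)
    have e : y * -p = -(p * y) := by ring
    rw [e]
    gcongr
  rw [inv_mul_le_iff₀ (by positivity)]
  have h9 := h8.trans h6
  rw [inv_mul_le_iff₀ (by positivity)] at h9
  refine h9.trans (le_of_eq ?_)
  ring

/-- One level, lower bound. -/
theorem gloc3_one_low (hd : 1 ≤ d) (hp : 0 < p) (hp2 : p ≤ 2) (h0 : 0 < l) (h1 : l < 1)
    {c : ℝ} (hlow : ∀ (a : ℝ≥0∞) (u : Site d → ℝ≥0∞),
      (a + ∑' x, u x) ^ p + ENNReal.ofReal c * ∑' x, vf p (a + ∑' y, u y) (u x) ≤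
        ∫⁻ ξ, (a + ∑' x, u x * (ξ x : ℝ≥0∞)) ^ p ∂lay d ρ)
    {s : ℝ} (hs : 0 < s) {g : Prof d} (hg : Nice g) :
    mq p g + ENNReal.ofReal c * ENNReal.ofReal (s ^ (p - 2)) * II ρ l s g ≤
      U ρ l (lev d s) (mq p) (mq p) g := by
  have hS := measurableSet_lev (d := d) s
  have hlt : ∀ h : Prof d, h ∉ lev d s → mass h ≤ ENNReal.ofReal s := fun h hh =>
    (not_le.1 hh).le
  have h := dynkin_down (ρ := ρ) hd hS h0 h1 (Φ := mq p)
    (A := fun h => ENNReal.ofReal c * ENNReal.ofReal (s ^ (p - 2)) * nq 2 (avg h))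
    (B := fun _ => 0) (measurable_mq p) (gloc3_meas_nq.const_mul _) measurable_const
    (fun h _ hh => by
      have h2 := hlow 0 (avg h)
      have e : ∑' x, avg h x = mass h := mass_avg hd h
      simp only [zero_add, e] at h2
      rw [add_zero, conv_T_mq]
      refine le_trans ?_ h2
      rw [mul_assoc]
      refine add_le_add le_rfl (mul_le_mul_right ?_ _)
      unfold nq
      rw [← ENNReal.tsum_mul_left]
      refine ENNReal.tsum_le_tsum fun x => le_trans (le_of_eq ?_) (vf_mono hp2 (hlt h hh) le_rfl)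
      unfold vf
      rw [ENNReal.ofReal_rpow_of_pos hs, ENNReal.rpow_two, mul_comm])
    (b := ENNReal.ofReal s ^ p +
      ENNReal.ofReal c * ENNReal.ofReal (s ^ (p - 2)) * ENNReal.ofReal s ^ 2)
    (ENNReal.add_ne_top.2 ⟨ENNReal.rpow_ne_top_of_nonneg hp.le ENNReal.ofReal_ne_top,
      ENNReal.mul_ne_top (ENNReal.mul_ne_top ENNReal.ofReal_ne_top ENNReal.ofReal_ne_top)
        (ENNReal.pow_ne_top ENNReal.ofReal_ne_top)⟩)
    (fun h _ hh => le_trans (ENNReal.rpow_le_rpow (hlt h hh) hp.le) le_self_add)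
    (fun h _ hh => by
      refine le_trans (mul_le_mul_right ((nq_two_avg_le hd h).trans ?_) _) le_add_self
      gcongr
      exact hlt h hh) hg
  have hz : Occ ρ l (lev d s) (fun _ => 0) g = 0 := by
    have := Occ_le_const (ρ := ρ) (S := lev d s) hd h0 h1 (A := fun _ => 0) (B := 0)
      (fun _ _ _ => le_rfl) hg
    simpa using this
  rw [hz, add_zero, Occ_const_mul hS gloc3_meas_nq] at h
  exact h

/-- Passing from one level to a higher one, lower bound. -/
theorem gloc3_step_low (hd : 1 ≤ d) (hp : 0 < p) (hp2 : p ≤ 2) (h0 : 0 < l) (h1 : l < 1)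
    {c : ℝ} (hlow : ∀ (a : ℝ≥0∞) (u : Site d → ℝ≥0∞),
      (a + ∑' x, u x) ^ p + ENNReal.ofReal c * ∑' x, vf p (a + ∑' y, u y) (u x) ≤
        ∫⁻ ξ, (a + ∑' x, u x * (ξ x : ℝ≥0∞)) ^ p ∂lay d ρ)
    {s s' : ℝ} (hs : 0 < s') (h : s ≤ s') {f : Prof d} (hf : Nice f) :
    U ρ l (lev d s) (mq p) (mq p) f +
        ENNReal.ofReal c * ENNReal.ofReal (s' ^ (p - 2)) * II ρ l s' f ≤
      U ρ l (lev d s') (mq p) (mq p) f +
        ENNReal.ofReal c * ENNReal.ofReal (s' ^ (p - 2)) * II ρ l s f := by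
  have hS := measurableSet_lev (d := d) s
  rw [U_nested hS (measurableSet_lev s') (gloc3_lev_sub h) (measurable_mq p) (measurable_mq p),
    gloc3_II_nested h1 h f, mul_add, add_comm (_ * II ρ l s f), ← add_assoc,
    ← gloc3_U_add_exit hS (measurable_mq p) (gloc3_meas_II s') (measurable_mq p)]
  refine add_le_add (U_mono hd (fun g hg _ => ?_) (fun _ _ _ => le_rfl) hf) le_rfl
  exact gloc3_one_low hd hp hp2 h0 h1 hlow hs hg

theorem gloc3_exp_le (y : ℝ) (hy : 0 ≤ y) :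
    ∃ J : ℕ, Real.exp y ≤ 2 ^ J ∧ (J : ℝ) ≤ 2 * (1 + y) := by
  refine ⟨⌈2 * y⌉₊, ?_, ?_⟩
  · have h1 : 2 * y ≤ (⌈2 * y⌉₊ : ℝ) := Nat.le_ceil _
    have h2 := Real.log_two_gt_d9
    calc Real.exp y ≤ Real.exp (⌈2 * y⌉₊ * Real.log 2) := Real.exp_le_exp.2 (by nlinarith)
      _ = 2 ^ ⌈2 * y⌉₊ := by rw [Real.exp_nat_mul, Real.exp_log (by norm_num)]
  · have := Nat.ceil_lt_add_one (show 0 ≤ 2 * y by linarith)
    linarith

end Pool.Agent.Lib.MP_153faa_pr
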