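import Mathlib
import Pool.Agent.Lib.MP_153faa_pr.GLoc2
import Pool.Agent.Lib.MP_153faa_pr.GCont
import Pool.Agent.Lib.MP_153faa_pr.GLoc3A

/-!
Logarithmic growth of stopped and truncated moments, survival of high sites.
-/

set_option autoImplicit false

open MeasureTheory Filter Topology
open scoped ENNReal NNReal

namespace Pool.Agent.Lib.MP_153faa_pr

variable {d : ℕ}

theorem gloc3_up (hd : 3 ≤ d) {κ M : ℝ} (hκ : 0 < κ) : ∃ C : ℝ, 1 ≤ C ∧
    ∀ (ρ : Measure ℝ≥0) [IsProbabilityMeasure ρ] (p l : ℝ), Ctx d κ M ρ p l → l ≤ C⁻¹ →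
      OO d ρ p l ≠ ⊤ → ∀ (f : Prof d) (y s : ℝ), Nice f → 0 ≤ y → s ≤ Real.exp y * mr f →
        U ρ l (lev d s) (mq p) (mq p) f ≤ ENNReal.ofReal (C * (1 + y)) * mq p f := by
  obtain ⟨C₀, hC₀, ht0⟩ := t0 (M := M) hd hκ
  have hM := le_max_right M 1
  set X := 2 * max M 1 with hX
  have hX2 : 2 ≤ X := by linarith
  have hXC : 0 ≤ X * C₀ := by positivity
  refine ⟨1 + 4 * X * C₀, by linarith, fun ρ _ p l hx hl hO f y s hf hy hs => ?_⟩
  obtain ⟨hp1, hp2, χ, hχ, hχX⟩ := gloc3_ctx hd hκ hx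
  have hl0 : l ≤ C₀⁻¹ := hl.trans (inv_anti₀ (by linarith) (by nlinarith))
  have h1C : 1 ≤ (1 + 4 * X * C₀) * (1 + y) := by nlinarith
  rcases (gres2_mr_nonneg f).eq_or_lt with hw | hw
  · rw [U_mem ((gloc3_mem_lev hf s).2 (by rw [← hw] at hs ⊢; simpa using hs))]
    exact le_mul_of_one_le_left zero_le (ENNReal.one_le_ofReal.2 h1C)
  obtain ⟨J, hJ1, hJ2⟩ := gloc3_exp_le y hy
  have h := gloc3_dy (by omega) hx.good.1 hχ (by linarith) (by linarith : 0 ≤ C₀) hχX hp1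
    (by linarith) hx.l0 hx.l1 hf hw J (fun j _ => (ht0 ρ p l hx hl0 hO f _ hf (by positivity) (by
      have : (1 : ℝ) ≤ 2 ^ j := one_le_pow₀ (by norm_num)
      nlinarith)).1) s (hs.trans (by gcongr))
  refine h.trans ?_
  rw [gloc3_mq hf (by linarith), ← ENNReal.ofReal_mul (by linarith)]
  refine ENNReal.ofReal_le_ofReal (mul_le_mul_of_nonneg_right ?_ (by positivity))
  nlinarith [mul_le_mul_of_nonneg_left hJ2 hXC]

/-- Logarithmic growth of the stopped moment. -/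
theorem dy_up (hd : 3 ≤ d) {κ M : ℝ} (hκ : 0 < κ) : ∃ C : ℝ, 1 ≤ C ∧
    ∀ (ρ : Measure ℝ≥0) [IsProbabilityMeasure ρ] (p l : ℝ), Ctx d κ M ρ p l → l ≤ C⁻¹ →
      OO d ρ p l ≠ ⊤ → ∀ (f : Prof d) (y : ℝ), Nice f → 0 ≤ y →
        U ρ l (lev d (Real.exp y * mr f)) (mq p) (mq p) f ≤
          ENNReal.ofReal (C * (1 + y)) * mq p f := by
  obtain ⟨C, hC, h⟩ := gloc3_up (M := M) hd hκ
  exact ⟨C, hC, fun ρ _ p l hx hl hO f y hf hy => h ρ p l hx hl hO f y _ hf hy le_rfl⟩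

theorem gloc3_II_low (hd : 3 ≤ d) {κ M : ℝ} (hκ : 0 < κ) : ∃ C : ℝ, 1 ≤ C ∧
    ∀ (ρ : Measure ℝ≥0) [IsProbabilityMeasure ρ] (p l : ℝ), Ctx d κ M ρ p l → l ≤ C⁻¹ →
      OO d ρ p l ≠ ⊤ → ∀ t z : ℝ, 2 ≤ t → 0 ≤ z → t ≤ Real.exp z →
        ENNReal.ofReal (C * (1 + z)) ≤ OO d ρ p l →
        ENNReal.ofReal (t ^ (2 - p) / (8 * (2 * max M 1))) ≤ II ρ l t (dlt (0 : Site d)) := by
  obtain ⟨C, hC, h⟩ := gloc3_up (M := M) hd hκ
  have hM := le_max_right M 1
  refine ⟨3 * C, by linarith, fun ρ _ p l hx hl hO t z ht hz htz hB => ?_⟩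
  obtain ⟨hp1, hp2, χ, hχ, hχX⟩ := gloc3_ctx hd hκ hx
  have hU := h ρ p l hx (hl.trans (inv_anti₀ (by linarith) (by linarith))) hO (dlt 0) z t
    (nice_dlt 0) hz (by rw [gloc3_mr_dlt]; linarith)
  rw [gres2_mq_of (mass_dlt 0), mul_one] at hU
  have hK : mom ρ 2 ≠ ⊤ := by
    rw [hχ]
    exact ENNReal.add_ne_top.2 ⟨by simp, ne_top_of_le_ne_top ENNReal.ofReal_ne_top hχX⟩
  exact gloc3_II_of_half (by omega) hx.good.1 hχ (by linarith) hχX (by linarith) (by linarith)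
    hx.l0 hx.l1 ht (gloc3_half (by omega) hx.good.1 hK hp1.le (by linarith) hx.l0 hx.l1
      (measurableSet_lev t) (by positivity) hU (by rwa [← mul_assoc]))

/-- Survival of high sites. -/
theorem surv (hd : 3 ≤ d) {κ M : ℝ} (hκ : 0 < κ) : ∃ C : ℝ, 1 ≤ C ∧
    ∀ (ρ : Measure ℝ≥0) [IsProbabilityMeasure ρ] (p l : ℝ), Ctx d κ M ρ p l → l ≤ C⁻¹ →
      OO d ρ p l ≠ ⊤ → ∀ y : ℝ, 0 ≤ y → ENNReal.ofReal (C * (1 + y)) ≤ OO d ρ p l →
        ENNReal.ofReal (C⁻¹ * Real.exp (-(p * y))) ≤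
          Yv ρ l (dlt (0 : Site d)) (ENNReal.ofReal (Real.exp y)) ∧
        ENNReal.ofReal (C⁻¹ * Real.exp ((2 - p) * y)) ≤
          II ρ l (2 * Real.exp y) (dlt (0 : Site d)) := by
  obtain ⟨Ci, hCi, hI⟩ := gloc3_II_low (M := M) hd hκ
  obtain ⟨Cl, hCl, hloc⟩ := loc_Yv (M := M) hd hκ
  have hM := le_max_right M 1
  set X := 2 * max M 1 with hX
  have hX2 : 2 ≤ X := by linarith
  obtain ⟨C, c1, c2, c3, c4, c5⟩ : ∃ C : ℝ, Ci * (1 + 2 * Cl) ≤ C ∧ Cl ≤ C ∧
      (16 * X * Cl) ^ 4 ≤ C ∧ 64 * X * Cl ^ 3 ≤ C ∧ 8 * X ≤ C :=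
    ⟨max (max (max (max (Ci * (1 + 2 * Cl)) Cl) ((16 * X * Cl) ^ 4)) (64 * X * Cl ^ 3)) (8 * X),
      by simp, by simp, by simp, by simp, by simp⟩
  refine ⟨C, by linarith, fun ρ _ p l hx hl hO y hy hB => ?_⟩
  obtain ⟨hp1, hp2, -⟩ := gloc3_ctx hd hκ hx
  have hey : 1 ≤ Real.exp y := Real.one_le_exp hy
  have hlow : ∀ t, 2 ≤ t → t ≤ 2 * Cl * Real.exp y →
      ENNReal.ofReal (t ^ (2 - p) / (8 * X)) ≤ II ρ l t (dlt (0 : Site d)) := fun t ht ht' => by
    refine hI ρ p l hx (hl.trans (inv_anti₀ (by linarith) (by nlinarith))) hO t (y + 2 * Cl) ht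
      (by linarith) (ht'.trans ?_) (le_trans (ENNReal.ofReal_le_ofReal ?_) hB)
    · have := Real.add_one_le_exp (2 * Cl)
      rw [Real.exp_add]
      nlinarith
    · have h1 : 1 + (y + 2 * Cl) ≤ (1 + 2 * Cl) * (1 + y) := by nlinarith
      calc Ci * (1 + (y + 2 * Cl)) ≤ Ci * ((1 + 2 * Cl) * (1 + y)) := by gcongr
        _ = Ci * (1 + 2 * Cl) * (1 + y) := by ring
        _ ≤ _ := by gcongr
  constructor
  · refine le_trans (ENNReal.ofReal_le_ofReal ?_) (gloc3_Y_of_II (by linarith) hCl hy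
      (by linarith) hx.l0 hx.l1 (hl.trans (inv_anti₀ (by positivity) c3))
      (hlow _ (by nlinarith) le_rfl)
      (hloc ρ hx.good l hx.l0 (hl.trans (inv_anti₀ (by linarith) c2)) hx.l1 _ _ (nice_dlt 0)
        (by positivity) (by rw [gloc3_mr_dlt]; nlinarith)))
    exact mul_le_mul_of_nonneg_right (inv_anti₀ (by positivity) c4) (by positivity)
  · refine le_trans (ENNReal.ofReal_le_ofReal ?_) (hlow _ (by linarith) (by nlinarith))
    have h1 : Real.exp ((2 - p) * y) ≤ (2 * Real.exp y) ^ (2 - p) := by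
      rw [mul_comm (2 - p), Real.exp_mul]
      exact Real.rpow_le_rpow (by positivity) (by linarith) (by linarith)
    rw [div_eq_inv_mul]
    exact mul_le_mul (inv_anti₀ (by positivity) c5) h1 (by positivity) (by positivity)

theorem gloc3_gain {c X C₀ p z : ℝ} (hc : 0 < c) (hX : 1 ≤ X) (hC : 1 ≤ C₀) (hp : p ≤ 5 / 3) :
    c * Real.exp z ^ (p - 2) * (C₀ * Real.exp (z - 48 * X * C₀) ^ (2 - p) * 1 ^ p) ≤
      c / (16 * X) := by
  have hα : 0 < 48 * X * C₀ := by positivity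
  have h1 : Real.exp z ^ (p - 2) * Real.exp (z - 48 * X * C₀) ^ (2 - p) ≤
      (16 * X * C₀)⁻¹ := by
    rw [← Real.exp_mul, ← Real.exp_mul, ← Real.exp_add]
    have h2 : z * (p - 2) + (z - 48 * X * C₀) * (2 - p) ≤ -(16 * X * C₀) := by nlinarith
    refine (Real.exp_le_exp.2 h2).trans ?_
    rw [Real.exp_neg]
    have := Real.add_one_le_exp (16 * X * C₀)
    exact inv_anti₀ (by positivity) (by linarith)
  calc _ = c * C₀ * (Real.exp z ^ (p - 2) * Real.exp (z - 48 * X * C₀) ^ (2 - p)) := by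
        rw [Real.one_rpow]; ring
    _ ≤ c * C₀ * (16 * X * C₀)⁻¹ := by gcongr
    _ = _ := by field_simp

/-- Logarithmic lower bound for the killed moment. -/
theorem dy_low (hd : 3 ≤ d) {κ M : ℝ} (hκ : 0 < κ) : ∃ C : ℝ, 1 ≤ C ∧
    ∀ (ρ : Measure ℝ≥0) [IsProbabilityMeasure ρ] (p l : ℝ), Ctx d κ M ρ p l → l ≤ C⁻¹ →
      OO d ρ p l ≠ ⊤ → ∀ y : ℝ, 0 ≤ y → ENNReal.ofReal (C * (1 + y)) ≤ OO d ρ p l →
        ENNReal.ofReal (C⁻¹ * y - C) ≤
          U ρ l (lev d (Real.exp y)) (fun _ => 0) (mq p) (dlt (0 : Site d)) := by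
  obtain ⟨Ci, hCi, hI⟩ := gloc3_II_low (M := M) hd hκ
  obtain ⟨C₀, hC₀, ht0⟩ := t0 (M := M) hd hκ
  obtain ⟨Cw, hCw, hlow⟩ := lay_low (M := M) hd hκ
  have hM := le_max_right M 1
  set X := 2 * max M 1 with hX
  have hX2 : 2 ≤ X := by linarith
  have hc : 0 < Cw⁻¹ := by positivity
  have hc1 : Cw⁻¹ ≤ 1 := inv_le_one_of_one_le₀ hCw
  set α := 48 * X * C₀ with hα
  have hα1 : 1 ≤ α := by nlinarith
  set γ := Cw⁻¹ / (16 * X) with hγ
  have hγ0 : 0 < γ := by positivity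
  have hγ1 : γ ≤ 1 := by rw [hγ, div_le_one (by positivity)]; linarith
  obtain ⟨C, c1, c2, c3⟩ : ∃ C : ℝ, Ci ≤ C ∧ C₀ + 2 ≤ C ∧ α / γ ≤ C :=
    ⟨max (max Ci (C₀ + 2)) (α / γ), by simp, by simp, by simp⟩
  refine ⟨C, by linarith, fun ρ _ p l hx hl hO y hy hB => ?_⟩
  obtain ⟨hp1, hp2, -⟩ := gloc3_ctx hd hκ hx
  have hl0 : l ≤ C₀⁻¹ := hl.trans (inv_anti₀ (by linarith) (by linarith))
  have he : ∀ z : ℝ, 1 ≤ z → 2 ≤ Real.exp z := fun z hz => by
    have := Real.add_one_le_exp z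
    linarith
  have key : ∀ (j : ℕ) (z : ℝ), 1 + α * j ≤ z → z ≤ y → ENNReal.ofReal (γ * j) ≤
      U ρ l (lev d (Real.exp z)) (mq p) (mq p) (dlt (0 : Site d)) := by
    intro j
    induction j with
    | zero => intro z _ _; simp
    | succ j ih =>
      intro z hz hzy
      push_cast at hz ⊢
      have hj : 0 ≤ α * j := by positivity
      have ih' := ih (z - α) (by linarith) (by linarith)
      have hs := gloc3_step_low (ρ := ρ) (by omega) (by linarith) (by linarith) hx.l0 hx.l1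
        (hlow ρ hx.good p hx.p1 (by linarith)) (Real.exp_pos z)
        (Real.exp_le_exp.2 (by linarith : z - α ≤ z)) (nice_dlt (0 : Site d))
      have h1 := hI ρ p l hx (hl.trans (inv_anti₀ (by linarith) c1)) hO (Real.exp z) y
        (he z (by linarith)) hy (Real.exp_le_exp.2 hzy)
        (le_trans (ENNReal.ofReal_le_ofReal (by gcongr)) hB)
      have h2 := (ht0 ρ p l hx hl0 hO (dlt 0) (Real.exp (z - α)) (nice_dlt 0) (Real.exp_pos _)
        (by rw [gloc3_mr_dlt, mul_one]; exact he _ (by linarith))).1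
      rw [gloc3_mr_dlt] at h2
      have h3 : ENNReal.ofReal γ + ENNReal.ofReal γ ≤ ENNReal.ofReal Cw⁻¹ *
          ENNReal.ofReal (Real.exp z ^ (p - 2)) * II ρ l (Real.exp z) (dlt (0 : Site d)) := by
        refine le_trans (le_of_eq ?_) (mul_le_mul_right h1 _)
        rw [← ENNReal.ofReal_add hγ0.le hγ0.le, ← ENNReal.ofReal_mul hc.le,
          ← ENNReal.ofReal_mul (by positivity)]
        congr 1
        have e : Real.exp z ^ (p - 2) * Real.exp z ^ (2 - p) = 1 := by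
          rw [← Real.rpow_add (Real.exp_pos z)]; simp
        calc γ + γ = Cw⁻¹ / (8 * X) * (Real.exp z ^ (p - 2) * Real.exp z ^ (2 - p)) := by
              rw [e, hγ]; field_simp; ring
          _ = _ := by ring
      have h4 : ENNReal.ofReal Cw⁻¹ * ENNReal.ofReal (Real.exp z ^ (p - 2)) *
          II ρ l (Real.exp (z - α)) (dlt (0 : Site d)) ≤ ENNReal.ofReal γ := by
        refine (mul_le_mul_right h2 _).trans ?_
        rw [← ENNReal.ofReal_mul hc.le, ← ENNReal.ofReal_mul (by positivity)]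
        exact ENNReal.ofReal_le_ofReal (gloc3_gain hc (by linarith) hC₀ hp2)
      have h5 := ((add_le_add ih' h3).trans hs).trans (add_le_add le_rfl h4)
      rw [← add_assoc] at h5
      rw [mul_add, mul_one, ENNReal.ofReal_add (by positivity) hγ0.le]
      exact (ENNReal.add_le_add_iff_right ENNReal.ofReal_ne_top).1 h5
  have hCi1 : C⁻¹ ≤ γ / α := by
    rw [← inv_div]
    exact inv_anti₀ (by positivity) c3
  have hγα : γ / α ≤ 1 := by rw [div_le_one (by linarith)]; linarith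
  by_cases hy1 : y < 1
  · rw [ENNReal.ofReal_of_nonpos (by nlinarith)]
    exact zero_le
  have hy1' := not_lt.1 hy1
  have hfl := Nat.floor_le (show 0 ≤ (y - 1) / α by positivity)
  have hfl2 := Nat.lt_floor_add_one ((y - 1) / α)
  have h := key ⌊(y - 1) / α⌋₊ y (by rw [le_div_iff₀ (by linarith)] at hfl; linarith) le_rfl
  have h2 := (ht0 ρ p l hx hl0 hO (dlt 0) (Real.exp y) (nice_dlt 0) (Real.exp_pos _)
    (by rw [gloc3_mr_dlt, mul_one]; exact he _ hy1')).2.1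
  rw [gres2_mq_of (mass_dlt 0), mul_one] at h2
  rw [U_split (measurableSet_lev _) (measurable_mq p) (measurable_mq p)] at h
  have h3 := h.trans (add_le_add h2 le_rfl)
  rw [← tsub_le_iff_left, ← ENNReal.ofReal_sub _ (by linarith)] at h3
  refine le_trans (ENNReal.ofReal_le_ofReal ?_) h3
  have h4 : γ * ((y - 1) / α) ≤ γ * (⌊(y - 1) / α⌋₊ + 1) := by gcongr
  have h5 : γ * ((y - 1) / α) = γ / α * y - γ / α := by ring
  have h6 : C⁻¹ * y ≤ γ / α * y := by gcongr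
  linarith

theorem gloc3_Yv_pow {ρ : Measure ℝ≥0} [IsProbabilityMeasure ρ] {p l v : ℝ} (h0 : 0 < l)
    (h1 : l < 1) (h : ENNReal.ofReal (Real.exp (-(p * v))) ≤
      Yv ρ l (dlt (0 : Site d)) (ENNReal.ofReal (Real.exp v))) (k : ℕ) :
    ENNReal.ofReal (Real.exp (-(p * (v * (k + 1))))) ≤
      Yv ρ l (dlt (0 : Site d)) (ENNReal.ofReal (Real.exp (v * (k + 1)))) := by
  induction k with
  | zero => simpa using h
  | succ k ih =>
    have e1 : v * ((k + 1 : ℕ) + 1) = v * (k + 1) + v := by push_cast; ring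
    have e2 : -(p * (v * (k + 1) + v)) = -(p * (v * (k + 1))) + -(p * v) := by ring
    rw [e1, e2, Real.exp_add, Real.exp_add, ENNReal.ofReal_mul (by positivity),
      ENNReal.ofReal_mul (by positivity)]
    exact (mul_le_mul' ih h).trans (Yv_mul h0 h1 _ _ _)

/-- Survival of high sites without a finiteness assumption. -/
theorem surv_top (hd : 3 ≤ d) {κ M : ℝ} (hκ : 0 < κ) : ∃ C : ℝ, 1 ≤ C ∧
    ∀ (ρ : Measure ℝ≥0) [IsProbabilityMeasure ρ] (p l : ℝ), Ctx d κ M ρ p l → l ≤ C⁻¹ →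
      ∀ y : ℝ, C ≤ y → ENNReal.ofReal (C * y) ≤ OO d ρ p l → ∃ u : ℝ, y ≤ u ∧ u ≤ 2 * y ∧
        ENNReal.ofReal (C⁻¹ * Real.exp (-(p * u))) ≤
          Yv ρ l (dlt (0 : Site d)) (ENNReal.ofReal (Real.exp u)) := by
  obtain ⟨Cl, hCl, hloc⟩ := loc_Yv (M := M) hd hκ
  have hM := le_max_right M 1
  set X := 2 * max M 1 with hX
  have hX2 : 2 ≤ X := by linarith
  have hC3 : 1 ≤ Cl ^ 3 := one_le_pow₀ hCl
  obtain ⟨C, c1, c2, c3, c4⟩ : ∃ C : ℝ, 3 + 36 * X * Cl ^ 3 ≤ C ∧ 4 * Cl ≤ C ∧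
      (16 * X * Cl) ^ 4 ≤ C ∧ 64 * X * Cl ^ 3 ≤ C :=
    ⟨max (max (max (3 + 36 * X * Cl ^ 3) (4 * Cl)) ((16 * X * Cl) ^ 4)) (64 * X * Cl ^ 3),
      by simp, by simp, by simp, by simp⟩
  have hC1 : 1 ≤ C := by linarith
  refine ⟨C, hC1, fun ρ _ p l hx hl y hy hB => ?_⟩
  obtain ⟨hp1, hp2, χ, hχ, hχX⟩ := gloc3_ctx hd hκ hx
  have hy1 : 1 ≤ y := by linarith
  have hey : 4 * Cl ≤ Real.exp y := by
    have := Real.add_one_le_exp y
    linarith
  have hCinv : C⁻¹ ≤ 1 := inv_le_one_of_one_le₀ hC1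
  by_cases hA : ∃ v : ℝ, 0 < v ∧ v ≤ 2 * y ∧ ENNReal.ofReal (Real.exp (-(p * v))) ≤
      Yv ρ l (dlt (0 : Site d)) (ENNReal.ofReal (Real.exp v))
  · obtain ⟨v, hv0, hv1, hv⟩ := hA
    have hweak : ∀ u : ℝ, ENNReal.ofReal (C⁻¹ * Real.exp (-(p * u))) ≤
        ENNReal.ofReal (Real.exp (-(p * u))) := fun u =>
      ENNReal.ofReal_le_ofReal (mul_le_of_le_one_left (by positivity) hCinv)
    by_cases hvy : y ≤ v
    · exact ⟨v, hvy, hv1, (hweak v).trans hv⟩
    · have h1 := Nat.floor_le (show 0 ≤ y / v by positivity)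
      have h2 := Nat.lt_floor_add_one (y / v)
      rw [le_div_iff₀ hv0] at h1
      rw [div_lt_iff₀ hv0] at h2
      exact ⟨v * (⌊y / v⌋₊ + 1), by linarith, by linarith [not_le.1 hvy],
        (hweak _).trans (gloc3_Yv_pow hx.l0 hx.l1 hv _)⟩
  push Not at hA
  have hY : ∀ s : ℝ, 0 < s → s ≤ Real.exp (2 * y) →
      Yv ρ l (dlt (0 : Site d)) (ENNReal.ofReal s) ≤ ENNReal.ofReal (s ^ (-p)) := by
    intro s hs hs2
    by_cases hs1 : s ≤ 1
    · exact (Yv_le_one hx.l0 hx.l1 _ _).trans (ENNReal.one_le_ofReal.2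
        (Real.one_le_rpow_of_pos_of_le_one_of_nonpos hs hs1 (by linarith)))
    · have h := (hA (Real.log s) (Real.log_pos (not_le.1 hs1))
        ((Real.log_le_iff_le_exp hs).2 hs2)).le
      rw [Real.exp_log hs] at h
      have e : Real.log s * -p = -(p * Real.log s) := by ring
      rw [Real.rpow_def_of_pos hs, e]
      exact h
  have hll : l ≤ Cl⁻¹ := hl.trans (inv_anti₀ (by linarith) (by linarith))
  have hl4 : l ≤ ((16 * X * Cl) ^ 4)⁻¹ := hl.trans (inv_anti₀ (by positivity) c3)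
  have hq := gloc3_quarter hx.l0 (by positivity) hl4
  have hq1 : Cl * l ^ (1 / 4 : ℝ) ≤ 1 :=
    calc Cl * l ^ (1 / 4 : ℝ) ≤ Cl * (16 * X * Cl)⁻¹ := by gcongr
      _ = (16 * X)⁻¹ := by field_simp
      _ ≤ 1 := inv_le_one_of_one_le₀ (by linarith)
  have hII : ∀ t : ℝ, 2 ≤ t → t ≤ Real.exp (2 * y) → II ρ l t (dlt (0 : Site d)) ≤
      ENNReal.ofReal (2 * Cl ^ 3 * t ^ (2 - p) * mr (dlt (0 : Site d)) ^ p) := by
    intro t ht ht2
    have ht0 : 0 < t := by linarith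
    refine (hloc ρ hx.good l hx.l0 hll hx.l1 _ t (nice_dlt 0) ht0
      (by rw [gloc3_mr_dlt]; linarith)).trans ?_
    refine (add_le_add (mul_le_mul_right (hY (t / Cl) (by positivity)
      ((div_le_self ht0.le hCl).trans ht2)) _) le_rfl).trans ?_
    have := hx.l0
    rw [gloc3_mr_dlt, ← ENNReal.ofReal_mul (by positivity),
      ← ENNReal.ofReal_add (by positivity) (by positivity)]
    refine ENNReal.ofReal_le_ofReal ?_
    have e1 : t ^ (2 - p) = t ^ 2 * t ^ (-p) := by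
      rw [← Real.rpow_two, ← Real.rpow_add ht0]; congr 1
    have e2 : (t / Cl) ^ (-p) ≤ t ^ (-p) * Cl ^ 2 := by
      rw [Real.div_rpow ht0.le (by linarith), Real.rpow_neg (by linarith : 0 ≤ Cl),
        div_inv_eq_mul, ← Real.rpow_two]
      gcongr
      linarith
    have e3 : 1 ≤ t ^ (2 - p) := Real.one_le_rpow (by linarith) (by linarith)
    have e4 : Cl * t ^ 2 * (t / Cl) ^ (-p) ≤ Cl ^ 3 * t ^ (2 - p) :=
      calc Cl * t ^ 2 * (t / Cl) ^ (-p) ≤ Cl * t ^ 2 * (t ^ (-p) * Cl ^ 2) := by gcongr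
        _ = _ := by rw [e1]; ring
    have e5 : 1 ≤ Cl ^ 3 * t ^ (2 - p) := one_le_mul_of_one_le_of_one_le hC3 e3
    rw [Real.one_rpow, one_pow, mul_one, mul_one]
    linarith
  have hey1 : 1 ≤ Real.exp y := by linarith
  obtain ⟨n, hn1, hn2⟩ := exists_nat_pow_near (x := 2 * Cl * Real.exp y) (y := 2)
    (by nlinarith) (by norm_num)
  have hn3 : (2 : ℝ) ^ (n + 1) ≤ Real.exp (2 * y) := by
    rw [pow_succ, two_mul y, Real.exp_add]
    nlinarith
  have hn4 : ((n + 1 : ℕ) : ℝ) ≤ 3 * y := by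
    have h1 := (Real.log_le_iff_le_exp (by positivity)).2 hn3
    rw [Real.log_pow] at h1
    have h2 := Real.log_two_gt_d9
    have h3 : (0 : ℝ) ≤ ((n + 1 : ℕ) : ℝ) := by positivity
    nlinarith
  have hU := gloc3_dy (C₁ := 2 * Cl ^ 3) (by omega) hx.good.1 hχ (by linarith) (by positivity)
    hχX hp1 (by linarith) hx.l0 hx.l1 (nice_dlt 0) (by rw [gloc3_mr_dlt]; norm_num) (n + 1)
    (fun j hj => hII _ (by
        have : (1 : ℝ) ≤ 2 ^ j := one_le_pow₀ (by norm_num)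
        rw [gloc3_mr_dlt]; linarith) (by
        have : (2 : ℝ) ^ (j + 1) ≤ 2 ^ (n + 1) := pow_le_pow_right₀ (by norm_num) hj
        rw [pow_succ] at this
        rw [gloc3_mr_dlt]; linarith))
    (2 * Cl * Real.exp y) (by rw [gloc3_mr_dlt]; linarith)
  rw [gloc3_mr_dlt, Real.one_rpow, mul_one] at hU
  have hK : mom ρ 2 ≠ ⊤ := by
    rw [hχ]
    exact ENNReal.add_ne_top.2 ⟨by simp, ne_top_of_le_ne_top ENNReal.ofReal_ne_top hχX⟩
  have hXC : 0 ≤ X * Cl ^ 3 := by positivity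
  have hhalf := gloc3_half (by omega) hx.good.1 hK hp1.le (by linarith) hx.l0 hx.l1
    (measurableSet_lev _) (by positivity) hU (le_trans (ENNReal.ofReal_le_ofReal (by
      have h1 := mul_le_mul_of_nonneg_left hn4 hXC
      have h2 := mul_le_mul_of_nonneg_right c1 (by linarith : 0 ≤ y)
      nlinarith)) hB)
  have hlow := gloc3_II_of_half (by omega) hx.good.1 hχ (by linarith) hχX (by linarith)
    (by linarith) hx.l0 hx.l1 (by nlinarith) hhalf
  refine ⟨y, le_rfl, by linarith, le_trans (ENNReal.ofReal_le_ofReal ?_)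
    (gloc3_Y_of_II (by linarith) hCl (by linarith) (by linarith) hx.l0 hx.l1 hl4 hlow
      (hloc ρ hx.good l hx.l0 hll hx.l1 _ _ (nice_dlt 0) (by positivity)
        (by rw [gloc3_mr_dlt]; nlinarith)))⟩
  exact mul_le_mul_of_nonneg_right (inv_anti₀ (by positivity) c4) (by positivity)

theorem gloc3_Res_tsum {ρ : Measure ℝ≥0} [IsProbabilityMeasure ρ] {l : ℝ}
    {Φ : ℕ → Prof d → ℝ≥0∞} (hΦ : ∀ j, Measurable (Φ j)) (f : Prof d) :
    Res ρ l (fun g => ∑' j, Φ j g) f = ∑' j, Res ρ l (Φ j) f := by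
  unfold Res
  simp only [T_iter_tsum hΦ, ← ENNReal.tsum_mul_left]
  exact ENNReal.tsum_comm

theorem gloc3_Res_ind (hd : 1 ≤ d) {ρ : Measure ℝ≥0} [IsProbabilityMeasure ρ] {p l t : ℝ}
    (hp : 0 ≤ p) (h0 : 0 < l) (h1 : l < 1) (ht : 0 < t) {f : Prof d} (hf : Nice f) :
    Res ρ l ((lev d t).indicator fun _ => 1) f ≤
      ENNReal.ofReal (t ^ (-p)) * U ρ l (lev d t) (mq p) (fun _ => 0) f := by
  have hS := measurableSet_lev (d := d) t
  rw [Res_eq_U hS h0 h1 (measurable_const.indicator hS),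
    ← gloc3_U_exit_mul hS (measurable_mq p)]
  refine U_mono hd (fun g hg hgt => ?_) (fun g _ hgt => by rw [Set.indicator_of_notMem hgt]) hf
  have htg := (gloc3_mem_lev hg t).1 hgt
  refine le_trans ((Res_mono (Ψ := fun _ => 1) (fun g => Set.indicator_le_self _ _ g) g).trans
    (Res_const h0 h1 1 g).le) ?_
  rw [gloc3_mq hg hp, ← ENNReal.ofReal_mul (by positivity), ENNReal.one_le_ofReal,
    Real.rpow_neg ht.le, ← div_eq_inv_mul, one_le_div (by positivity)]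
  exact Real.rpow_le_rpow ht.le htg hp

theorem gloc3_geom {x : ℝ} (h0 : 0 < x) (h1 : x ≤ 1) :
    (2 : ℝ) ^ (-x) < 1 ∧ (1 - (2 : ℝ) ^ (-x))⁻¹ ≤ 4 / x := by
  have h2 := Real.log_two_gt_d9
  have h3 : (2 : ℝ) ^ (-x) ≤ 1 - x / 4 := by
    rw [Real.rpow_def_of_pos (by norm_num), mul_neg, Real.exp_neg]
    have h4 := Real.add_one_le_exp (Real.log 2 * x)
    refine (inv_anti₀ (by positivity : 0 < 1 + x / 2) (by nlinarith)).trans ?_
    rw [inv_le_iff_one_le_mul₀ (by positivity)]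
    nlinarith
  refine ⟨by linarith, ?_⟩
  rw [← inv_div]
  exact inv_anti₀ (by positivity) (by linarith)

/-- Lower exponents have bounded moments. -/
theorem opx (hd : 3 ≤ d) {κ M : ℝ} (hκ : 0 < κ) : ∃ C : ℝ, 1 ≤ C ∧
    ∀ (ρ : Measure ℝ≥0) [IsProbabilityMeasure ρ] (p l : ℝ), Ctx d κ M ρ p l → l ≤ C⁻¹ →
      OO d ρ p l ≠ ⊤ → ∀ x : ℝ, 0 < x → x ≤ 1 → OO d ρ (p - x) l ≤ ENNReal.ofReal (C / x) := by
  obtain ⟨C₀, hC₀, ht0⟩ := t0 (M := M) hd hκ
  refine ⟨4 + 16 * C₀, by linarith, fun ρ _ p l hx hl hO x hx0 hx1 => ?_⟩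
  obtain ⟨hp1, hp2, -⟩ := gloc3_ctx hd hκ hx
  have hl0 : l ≤ C₀⁻¹ := hl.trans (inv_anti₀ (by linarith) (by linarith))
  have hq : 0 ≤ p - x := by linarith
  have hfour : ∀ r : ℝ, r ≤ 2 → (2 : ℝ) ^ r ≤ 4 := fun r hr => by
    have : (2 : ℝ) ^ r ≤ 2 ^ (2 : ℝ) := Real.rpow_le_rpow_of_exponent_le (by norm_num) hr
    rw [Real.rpow_two] at this
    linarith
  have hme : ∀ j : ℕ, Measurable ((lev d (2 ^ (j + 1))).indicator fun _ => (1 : ℝ≥0∞)) :=
    fun j => measurable_const.indicator (measurableSet_lev _)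
  have key : ∀ g : Prof d, Nice g → mq (p - x) g ≤ ENNReal.ofReal 4 + ∑' j : ℕ,
      ENNReal.ofReal ((2 ^ (j + 2)) ^ (p - x)) *
        (lev d (2 ^ (j + 1))).indicator (fun _ => (1 : ℝ≥0∞)) g := fun g hg => by
    have hw := gres2_mr_nonneg g
    rw [gloc3_mq hg hq]
    by_cases h2 : mr g ≤ 2
    · refine le_trans (ENNReal.ofReal_le_ofReal ?_) le_self_add
      exact (Real.rpow_le_rpow hw h2 hq).trans (hfour _ (by linarith))
    · obtain ⟨n, hn1, hn2⟩ := exists_nat_pow_near (x := mr g / 2) (y := 2)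
        (by linarith [not_le.1 h2]) (by norm_num)
      refine le_trans (le_trans ?_ (ENNReal.le_tsum n)) le_add_self
      rw [Set.indicator_of_mem ((gloc3_mem_lev hg _).2 (by rw [pow_succ]; linarith)), mul_one]
      exact ENNReal.ofReal_le_ofReal
        (Real.rpow_le_rpow hw (by rw [pow_succ]; linarith) hq)
  have hterm : ∀ j : ℕ, Res ρ l (fun g => ENNReal.ofReal ((2 ^ (j + 2)) ^ (p - x)) *
      (lev d (2 ^ (j + 1))).indicator (fun _ => (1 : ℝ≥0∞)) g) (dlt 0) ≤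
      ENNReal.ofReal (4 * C₀ * (2 ^ (-x)) ^ j) := fun j => by
    have h1 := (ht0 ρ p l hx hl0 hO (dlt 0) (2 ^ (j + 1)) (nice_dlt 0) (by positivity) (by
      have : (1 : ℝ) ≤ 2 ^ j := one_le_pow₀ (by norm_num)
      rw [gloc3_mr_dlt, pow_succ]; linarith)).2.1
    rw [gres2_mq_of (mass_dlt 0), mul_one] at h1
    rw [Res_const_mul (hme j)]
    refine (mul_le_mul_right ((gloc3_Res_ind (p := p) (by omega) (by linarith) hx.l0 hx.l1
      (by positivity) (nice_dlt 0)).trans (mul_le_mul_right h1 _)) _).trans ?_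
    rw [← ENNReal.ofReal_mul (by positivity), ← ENNReal.ofReal_mul (by positivity)]
    refine ENNReal.ofReal_le_ofReal ?_
    have e : ((2 : ℝ) ^ (j + 2)) ^ (p - x) * ((2 : ℝ) ^ (j + 1)) ^ (-p) =
        2 ^ (p - 2 * x) * (2 ^ (-x)) ^ j := by
      rw [← Real.rpow_natCast, ← Real.rpow_natCast, ← Real.rpow_natCast,
        ← Real.rpow_mul (by norm_num), ← Real.rpow_mul (by norm_num),
        ← Real.rpow_mul (by norm_num), ← Real.rpow_add (by norm_num),
        ← Real.rpow_add (by norm_num)]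
      congr 1
      push_cast
      ring
    rw [← mul_assoc, e]
    have h2 := hfour (p - 2 * x) (by linarith)
    have h3 : 0 ≤ ((2 : ℝ) ^ (-x)) ^ j * C₀ := by positivity
    nlinarith
  obtain ⟨g1, g2⟩ := gloc3_geom hx0 hx1
  have g0 : (0 : ℝ) ≤ 2 ^ (-x) := by positivity
  calc OO d ρ (p - x) l ≤ _ := Res_mono_nice (by omega) key (nice_dlt 0)
    _ ≤ ENNReal.ofReal 4 + ∑' j : ℕ, ENNReal.ofReal (4 * C₀ * (2 ^ (-x)) ^ j) := by
        rw [Res_add measurable_const, Res_const hx.l0 hx.l1,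
          gloc3_Res_tsum fun j => (hme j).const_mul _]
        exact add_le_add le_rfl (ENNReal.tsum_le_tsum hterm)
    _ ≤ _ := by
        rw [← ENNReal.ofReal_tsum_of_nonneg (fun j => by positivity)
          ((summable_geometric_of_lt_one g0 g1).mul_left _), tsum_mul_left,
          tsum_geometric_of_lt_one g0 g1, ← ENNReal.ofReal_add (by norm_num)
            (mul_nonneg (by positivity) (inv_nonneg.2 (by linarith)))]
        refine ENNReal.ofReal_le_ofReal ?_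
        have h1 : 4 * C₀ * (1 - (2 : ℝ) ^ (-x))⁻¹ ≤ 4 * C₀ * (4 / x) := by gcongr
        have h2 : 4 ≤ 4 / x := by rw [le_div_iff₀ hx0]; linarith
        have h3 : (4 + 16 * C₀) / x = 4 / x + 4 * C₀ * (4 / x) := by ring
        linarith

theorem gloc3_double (hd : 1 ≤ d) {ρ : Measure ℝ≥0} [IsProbabilityMeasure ρ] (hm : Mean1 ρ)
    {p l C₀ L : ℝ} (hp : 1 < p) (hp2 : p ≤ 2) (h0 : 0 < l) (h1 : l < 1) (hC : 1 ≤ C₀)
    (hL : 0 < L) {f : Prof d} (hf : Nice f)
    (ht : 2 * mr f ≤ L → U ρ l (lev d L) (mq 2) (mq 2) f ≤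
      ENNReal.ofReal (C₀ * L ^ (2 - p) * mr f ^ p)) :
    HT ρ p l (2 * L) f ≤ HT ρ p l L f + ENNReal.ofReal (16 * C₀ * mr f ^ p) := by
  have hw := gres2_mr_nonneg f
  have hS := measurableSet_lev (d := d) L
  have hme : Measurable fun g : Prof d => min (ENNReal.ofReal (L ^ (p - 2)) * mq 2 g)
      (ENNReal.ofReal (L ^ (p - 1)) * mass g) :=
    ((measurable_mq 2).const_mul _).min (measurable_mass.const_mul _)
  have key : ∀ g : Prof d, Nice g → lift (th p (2 * L)) (mass g) ≤ lift (th p L) (mass g) +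
      ENNReal.ofReal 8 * min (ENNReal.ofReal (L ^ (p - 2)) * mq 2 g)
        (ENNReal.ofReal (L ^ (p - 1)) * mass g) := fun g hg => by
    have hg0 := gres2_mr_nonneg g
    have e1 : lift (th p (2 * L)) (mass g) = ENNReal.ofReal (th p (2 * L) (mr g)) :=
      gres2_lift_of hg.mass_ne_top
    have e2 : lift (th p L) (mass g) = ENNReal.ofReal (th p L (mr g)) :=
      gres2_lift_of hg.mass_ne_top
    rw [e1, e2, gloc3_mq hg (by norm_num), ← hg.ofReal_mr, ← ENNReal.ofReal_mul (by positivity),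
      ← ENNReal.ofReal_mul (by positivity), ← ENNReal.ofReal_min,
      ← ENNReal.ofReal_mul (by norm_num),
      ← ENNReal.ofReal_add (th_nonneg hp hp2 hL.le hg0) (by positivity)]
    refine ENNReal.ofReal_le_ofReal ?_
    have := th_double hp hp2 hL hg0
    rwa [Real.rpow_two, mul_comm (L ^ (p - 2))]
  have hlin : ∀ g : Prof d, Res ρ l (fun g => min (ENNReal.ofReal (L ^ (p - 2)) * mq 2 g)
      (ENNReal.ofReal (L ^ (p - 1)) * mass g)) g ≤ ENNReal.ofReal (L ^ (p - 1)) * mass g :=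
    fun g => by
      refine (Res_mono (fun g => min_le_right _ _) g).trans (le_of_eq ?_)
      rw [Res_const_mul measurable_mass, Res_mass hd hm h0 h1]
  have hR : Res ρ l (fun g => min (ENNReal.ofReal (L ^ (p - 2)) * mq 2 g)
      (ENNReal.ofReal (L ^ (p - 1)) * mass g)) f ≤ ENNReal.ofReal (2 * C₀ * mr f ^ p) := by
    by_cases hc : 2 * mr f ≤ L
    · rw [Res_eq_U hS h0 h1 hme]
      refine (U_mono (F' := fun g => ENNReal.ofReal (L ^ (p - 2)) * mq 2 g)
        (R' := fun g => ENNReal.ofReal (L ^ (p - 2)) * mq 2 g) hd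
        (fun g hg hgL => (hlin g).trans ?_) (fun g _ _ => min_le_left _ _) hf).trans ?_
      · have hLg := (gloc3_mem_lev hg L).1 hgL
        rw [gloc3_mq hg (by norm_num), ← hg.ofReal_mr, ← ENNReal.ofReal_mul (by positivity),
          ← ENNReal.ofReal_mul (by positivity)]
        refine ENNReal.ofReal_le_ofReal ?_
        have e : L ^ (p - 1) = L ^ (p - 2) * L := by
          rw [← Real.rpow_add_one hL.ne']; congr 1; ring
        rw [e, Real.rpow_two, mul_assoc, sq]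
        have := hL.le.trans hLg
        gcongr
      · rw [U_const_mul hS (measurable_mq 2) (measurable_mq 2)]
        refine (mul_le_mul_right (ht hc) _).trans ?_
        rw [← ENNReal.ofReal_mul (by positivity)]
        refine ENNReal.ofReal_le_ofReal ?_
        have e : L ^ (p - 2) * L ^ (2 - p) = 1 := by rw [← Real.rpow_add hL]; simp
        have h2 : 0 ≤ C₀ * mr f ^ p := by positivity
        calc _ = (L ^ (p - 2) * L ^ (2 - p)) * (C₀ * mr f ^ p) := by ring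
          _ ≤ _ := by rw [e]; linarith
    · refine (hlin f).trans ?_
      have hc' := (not_le.1 hc).le
      have hw' : 0 < mr f := by linarith
      rw [← hf.ofReal_mr, ← ENNReal.ofReal_mul (by positivity)]
      refine ENNReal.ofReal_le_ofReal ?_
      have h2 : L ^ (p - 1) ≤ 2 * mr f ^ (p - 1) := by
        refine (Real.rpow_le_rpow hL.le hc' (by linarith)).trans ?_
        rw [Real.mul_rpow (by norm_num) hw]
        have : (2 : ℝ) ^ (p - 1) ≤ 2 ^ (1 : ℝ) :=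
          Real.rpow_le_rpow_of_exponent_le (by norm_num) (by linarith)
        rw [Real.rpow_one] at this
        gcongr
      have e : mr f ^ p = mr f ^ (p - 1) * mr f := by
        rw [← Real.rpow_add_one hw'.ne']; congr 1; ring
      have h3 : 0 ≤ mr f ^ p := by positivity
      calc L ^ (p - 1) * mr f ≤ 2 * mr f ^ (p - 1) * mr f := by gcongr
        _ = 2 * mr f ^ p := by rw [e]; ring
        _ ≤ _ := by nlinarith
  refine (Res_mono_nice hd key hf).trans ?_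
  rw [Res_add (gres2_meas_th L), Res_const_mul hme]
  refine add_le_add le_rfl ((mul_le_mul_right hR _).trans (le_of_eq ?_))
  rw [← ENNReal.ofReal_mul (by norm_num)]
  congr 1
  ring

/-- Truncated moments are Lipschitz in the logarithm of the level. -/
theorem blip (hd : 3 ≤ d) {κ M : ℝ} (hκ : 0 < κ) : ∃ C : ℝ, 1 ≤ C ∧
    ∀ (ρ : Measure ℝ≥0) [IsProbabilityMeasure ρ] (p l : ℝ), Ctx d κ M ρ p l → l ≤ C⁻¹ →
      OO d ρ p l ≠ ⊤ → ∀ (f : Prof d) (L y : ℝ), Nice f → 0 < L → 0 ≤ y →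
        HT ρ p l (Real.exp y * L) f ≤ HT ρ p l L f + ENNReal.ofReal (C * (1 + y)) * mq p f ∧
        HTn ρ p l y f ≤ ENNReal.ofReal (C * (1 + y)) * mq p f := by
  obtain ⟨C₀, hC₀, ht0⟩ := t0 (M := M) hd hκ
  refine ⟨32 * C₀ + 2, by linarith, fun ρ _ p l hx hl hO f L y hf hL hy => ?_⟩
  obtain ⟨hp1, hp2, -⟩ := gloc3_ctx hd hκ hx
  have hl0 : l ≤ C₀⁻¹ := hl.trans (inv_anti₀ (by linarith) (by linarith))
  have hw := gres2_mr_nonneg f
  have hwp : 0 ≤ mr f ^ p := by positivity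
  have hit : ∀ L : ℝ, 0 < L → ∀ J : ℕ, HT ρ p l (2 ^ J * L) f ≤
      HT ρ p l L f + ENNReal.ofReal (16 * C₀ * mr f ^ p * J) := fun L hL J => by
    induction J with
    | zero => simp
    | succ J ih =>
      have hv : 0 < 2 ^ J * L := by positivity
      have e : 2 ^ (J + 1) * L = 2 * (2 ^ J * L) := by ring
      rw [e]
      refine (gloc3_double (by omega) hx.good.1 hp1 (by linarith) hx.l0 hx.l1 hC₀ hv hf
        fun h => (ht0 ρ p l hx hl0 hO f _ hf hv h).2.2).trans ((add_le_add ih le_rfl).trans ?_)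
      rw [add_assoc, ← ENNReal.ofReal_add (by positivity) (by positivity)]
      refine add_le_add le_rfl (ENNReal.ofReal_le_ofReal (le_of_eq ?_))
      push_cast
      ring
  have main : ∀ L : ℝ, 0 < L → HT ρ p l (Real.exp y * L) f ≤
      HT ρ p l L f + ENNReal.ofReal (32 * C₀ * (1 + y) * mr f ^ p) := fun L hL => by
    obtain ⟨J, hJ1, hJ2⟩ := gloc3_exp_le y hy
    refine (HT_mono_lev hp1 (by linarith) (by positivity) (by gcongr) f).trans
      ((hit L hL J).trans (add_le_add le_rfl (ENNReal.ofReal_le_ofReal ?_)))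
    calc 16 * C₀ * mr f ^ p * J ≤ 16 * C₀ * mr f ^ p * (2 * (1 + y)) := by gcongr
      _ = _ := by ring
  rw [gloc3_mq hf (by linarith), ← ENNReal.ofReal_mul (by positivity)]
  constructor
  · refine (main L hL).trans (add_le_add le_rfl (ENNReal.ofReal_le_ofReal ?_))
    gcongr
    linarith
  · by_cases h0 : mass f = 0
    · unfold HTn mq
      rw [h0, ENNReal.zero_rpow_of_pos (by linarith), zero_mul]
      exact zero_le
    have hw' : 0 < mr f := ENNReal.toReal_pos h0 hf.mass_ne_top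
    rw [HTn_eq hp1 y hf.mass_ne_top h0]
    refine (main _ hw').trans ((add_le_add (HT_le_lin (by omega) hx.good.1 hp1 (by linarith)
      hx.l0 hx.l1 hw' f) le_rfl).trans ?_)
    rw [← hf.ofReal_mr, ← ENNReal.ofReal_mul (by positivity),
      ← ENNReal.ofReal_add (by positivity) (by positivity)]
    refine ENNReal.ofReal_le_ofReal ?_
    have e : p * mr f ^ (p - 1) * mr f = p * mr f ^ p := by
      rw [mul_assoc, ← Real.rpow_add_one hw'.ne']; congr 2; ring
    rw [e]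
    nlinarith [mul_nonneg hy hwp]

/-- Linear bounds for the truncated moment from a point. -/
theorem br_lin (hd : 3 ≤ d) {κ M : ℝ} (hκ : 0 < κ) : ∃ C : ℝ, 1 ≤ C ∧
    ∀ (ρ : Measure ℝ≥0) [IsProbabilityMeasure ρ] (p l : ℝ), Ctx d κ M ρ p l → l ≤ C⁻¹ →
      OO d ρ p l ≠ ⊤ → ∀ y : ℝ, 0 ≤ y →
        ENNReal.ofReal (Br d ρ p l y) = HT ρ p l (Real.exp y) (dlt (0 : Site d)) ∧
        0 ≤ Br d ρ p l y ∧ Br d ρ p l y ≤ C * (1 + y) ∧
        (∀ y', y ≤ y' → Br d ρ p l y ≤ Br d ρ p l y' ∧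
          Br d ρ p l y' ≤ Br d ρ p l y + C * (1 + y' - y)) ∧
        (C * (1 + y) * Kr d ρ p l ≤ 1 → C⁻¹ * y - C ≤ Br d ρ p l y) := by
  obtain ⟨Cb, hCb, hb⟩ := blip (M := M) hd hκ
  obtain ⟨Cd, hCd, hdl⟩ := dy_low (M := M) hd hκ
  refine ⟨Cb + 24 * Cd, by linarith, fun ρ _ p l hx hl hO y hy => ?_⟩
  obtain ⟨hp1, hp2, -⟩ := gloc3_ctx hd hκ hx
  have hlb : l ≤ Cb⁻¹ := hl.trans (inv_anti₀ (by linarith) (by linarith))
  have hld : l ≤ Cd⁻¹ := hl.trans (inv_anti₀ (by linarith) (by linarith))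
  have hE : ∀ z, ENNReal.ofReal (Br d ρ p l z) = HT ρ p l (Real.exp z) (dlt (0 : Site d)) :=
    fun z => ENNReal.ofReal_toReal (ne_top_of_le_ne_top hO (HT_le_HH hp1 (Real.exp_pos z).le _))
  have hpos : ∀ z, 0 ≤ Br d ρ p l z := fun z => ENNReal.toReal_nonneg
  refine ⟨hE y, hpos y, ?_, fun y' hy' => ⟨?_, ?_⟩, fun hK => ?_⟩
  · have h := (hb ρ p l hx hlb hO (dlt 0) 1 y (nice_dlt 0) one_pos hy).2
    rw [HTn_eq hp1 y (by rw [mass_dlt]; simp) (by rw [mass_dlt]; simp), gloc3_mr_dlt, mul_one,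
      gres2_mq_of (mass_dlt 0), mul_one, ← hE, ENNReal.ofReal_le_ofReal_iff (by positivity)] at h
    nlinarith
  · rw [← ENNReal.ofReal_le_ofReal_iff (hpos y'), hE, hE]
    exact HT_mono_lev hp1 (by linarith) (Real.exp_pos y).le (Real.exp_le_exp.2 hy') _
  · have h := (hb ρ p l hx hlb hO (dlt 0) (Real.exp y) (y' - y) (nice_dlt 0) (Real.exp_pos y)
      (by linarith)).1
    have h2 : 0 ≤ Cb * (1 + (y' - y)) := mul_nonneg (by linarith) (by linarith)
    rw [← Real.exp_add, sub_add_cancel, gres2_mq_of (mass_dlt 0), mul_one, ← hE, ← hE,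
      ← ENNReal.ofReal_add (hpos y) h2,
      ENNReal.ofReal_le_ofReal_iff (add_nonneg (hpos y) h2)] at h
    nlinarith
  · have hO1 := one_le_OO (d := d) (by omega) hx.good.1 hp1.le hx.l0 hx.l1
    have hO0 : OO d ρ p l ≠ 0 := (zero_lt_one.trans_le hO1).ne'
    have hB : ENNReal.ofReal (Cd * (1 + y)) ≤ OO d ρ p l := by
      have h1 : ENNReal.ofReal ((Cb + 24 * Cd) * (1 + y)) * KK d ρ p l ≤ 1 := by
        rw [← ofReal_Kr (by omega) hx.good.1 hp1.le hx.l0 hx.l1,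
          ← ENNReal.ofReal_mul (by positivity)]
        exact ENNReal.ofReal_le_one.2 hK
      have h2 := mul_le_mul_left h1 (OO d ρ p l)
      unfold KK at h2
      rw [mul_assoc, ENNReal.inv_mul_cancel hO0 hO, mul_one, one_mul] at h2
      exact le_trans (ENNReal.ofReal_le_ofReal (by nlinarith)) h2
    have h1 := hdl ρ p l hx hld hO y hy hB
    have hS := measurableSet_lev (d := d) (Real.exp y)
    have h2 : ENNReal.ofReal 24⁻¹ * U ρ l (lev d (Real.exp y)) (fun _ => 0) (mq p)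
        (dlt (0 : Site d)) ≤ HT ρ p l (Real.exp y) (dlt (0 : Site d)) := by
      unfold HT
      rw [Res_eq_U hS hx.l0 hx.l1 (gres2_meas_th _),
        ← U_const_mul hS measurable_const (measurable_mq p)]
      refine U_mono (by omega) (fun g _ _ => by simp) (fun g hg hgy => ?_) (nice_dlt 0)
      have h3 : mr g ≤ Real.exp y := (not_le.1 fun h => hgy ((gloc3_mem_lev hg _).2 h)).le
      have hg0 := gres2_mr_nonneg g
      have e2 : lift (th p (Real.exp y)) (mass g) = ENNReal.ofReal (th p (Real.exp y) (mr g)) :=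
        gres2_lift_of hg.mass_ne_top
      rw [e2, gloc3_mq hg (by linarith), ← ENNReal.ofReal_mul (by norm_num)]
      refine ENNReal.ofReal_le_ofReal (le_trans ?_ (th_ge hp1 (by linarith) hg0 h3))
      exact mul_le_mul_of_nonneg_right (by linarith) (by positivity)
    have h3 := (mul_le_mul_right h1 _).trans h2
    rw [← ENNReal.ofReal_mul (by norm_num), ← hE, ENNReal.ofReal_le_ofReal_iff (hpos y)] at h3
    have h4 : (Cb + 24 * Cd)⁻¹ ≤ 24⁻¹ * Cd⁻¹ := by
      rw [← mul_inv]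
      exact inv_anti₀ (by positivity) (by linarith)
    nlinarith [mul_le_mul_of_nonneg_right h4 hy]

end Pool.Agent.Lib.MP_153faa_pr
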