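import Mathlib
import Pool.Agent.Lib.MP_153faa_pr.GLoc3

set_option autoImplicit false

open MeasureTheory Filter Topology
open scoped ENNReal NNReal

namespace Pool.Agent.Lib.MP_153faa_pr

variable {d : ℕ}

theorem gsc_num {K l x Λ : ℝ} (hK : 1 ≤ K) (l0 : 0 < l) (l1 : l < 1) (x0 : 0 < x)
    (h : K * 4 ^ 9 * 362880 * (Real.log (1 / l) + 1 / x) / x ≤ Λ) (x1 : x ≤ 1) :
    K * Λ ^ 2 * (Λ / l) ^ 2 ≤ Real.exp (x / 2 * Λ) := by
  have L0 : 0 ≤ Real.log (1 / l) := Real.log_nonneg ((one_le_div l0).2 l1.le)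
  have i1 : 1 ≤ 1 / x := (one_le_div x0).2 x1
  rw [div_le_iff₀ x0] at h
  obtain ⟨w, hw⟩ : ∃ w, w = Λ * x := ⟨_, rfl⟩
  rw [← hw] at h
  have w1 : K * 4 ^ 9 * 362880 ≤ w := by nlinarith
  have w2 : 1 / x ≤ w := by nlinarith
  have w3 : 2 * Real.log (1 / l) ≤ w / 4 := by nlinarith
  have w0 : 0 < w := by linarith
  have e1 : Λ = w * (1 / x) := by
    rw [hw]
    field_simp
  have a0 : 0 ≤ Λ := by rw [e1]; positivity
  have a1 : Λ ≤ w ^ 2 := by rw [e1]; nlinarith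
  have a2 := Real.pow_div_factorial_le_exp (w / 4) (by positivity) 9
  have a3 : (1 / l) ^ 2 ≤ Real.exp (w / 4) := by
    refine le_trans (le_of_eq ?_) (Real.exp_le_exp.2 w3)
    rw [two_mul, Real.exp_add, Real.exp_log (by positivity), sq]
  have a4 : K * Λ ^ 4 ≤ Real.exp (w / 4) := by
    refine le_trans ?_ a2
    have a5 := pow_le_pow_left₀ a0 a1 4
    have a6 := mul_le_mul_of_nonneg_right w1 (show 0 ≤ w ^ 8 by positivity)
    have a7 := mul_le_mul_of_nonneg_left a5 (show 0 ≤ K by linarith)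
    norm_num [Nat.factorial]
    linarith
  calc K * Λ ^ 2 * (Λ / l) ^ 2 = K * Λ ^ 4 * (1 / l) ^ 2 := by ring
    _ ≤ Real.exp (w / 4) * Real.exp (w / 4) := mul_le_mul a4 a3 (by positivity) (by positivity)
    _ = _ := by
      rw [← Real.exp_add, hw]
      congr 1
      ring

/-- A large moment below the critical exponent forces decay of fractional moments. -/
theorem sc_dec (hd : 3 ≤ d) {κ M : ℝ} (hκ : 0 < κ) : ∃ C : ℝ, 1 ≤ C ∧
    ∀ (ρ : Measure ℝ≥0) [IsProbabilityMeasure ρ] (l x : ℝ), Ctx d κ M ρ (q0 d - x) l → 0 < x →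
      l ≤ C⁻¹ → ENNReal.ofReal (C / x) ≤ OO d ρ (q0 d - x) l →
      Dec d ρ (Real.exp (C * (Real.log (1 / l) + 1 / x) / x)) := by
  obtain ⟨A, hA, h⟩ := surv_top (M := M) hd hκ
  have d3 : (3 : ℝ) ≤ d := by exact_mod_cast hd
  obtain ⟨K, hK⟩ : ∃ K : ℝ, K = 16384 * (4 * d + 1) * 16 := ⟨_, rfl⟩
  obtain ⟨B, hB⟩ : ∃ B : ℝ, B = K * 4 ^ 9 * 362880 := ⟨_, rfl⟩
  have B1 : 512 * d ≤ B := by linarith
  have A2 : A ≤ A * (4 * A) := by nlinarith
  refine ⟨A * (4 * A) + B + 8 * A, by linarith, fun ρ _ l x hc x0 hl hO => ?_⟩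
  have l0 := hc.l0
  have l1 := hc.l1
  have x1 : x ≤ 1 / d := by
    have := hc.p1
    rw [q0, show (2 : ℝ) / d = 2 * (1 / d) by ring] at this
    linarith
  have x2 : 1 / (d : ℝ) ≤ 1 / 3 := by gcongr
  have i1 : 1 ≤ 1 / x := (one_le_div x0).2 (by linarith)
  have L0 : 0 ≤ Real.log (1 / l) := Real.log_nonneg ((one_le_div l0).2 l1.le)
  have y1 : A ≤ 4 * A / x := by
    rw [le_div_iff₀ x0]
    nlinarith
  obtain ⟨u, u1, u2, hu⟩ := h ρ _ l hc (hl.trans (inv_anti₀ (by linarith) (by linarith)))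
    (4 * A / x) y1 (le_trans (ENNReal.ofReal_le_ofReal (by
      rw [← mul_div_assoc]
      exact div_le_div_of_nonneg_right (by linarith) x0.le)) hO)
  have u0 : 1 ≤ u := by linarith
  have u3 : 4 * A ≤ u * x := (div_le_iff₀ x0).1 u1
  obtain ⟨s, hs⟩ : ∃ s : ℝ, s = 1 + 2 / d - x / 2 := ⟨_, rfl⟩
  have s2 : 0 ≤ s ∧ s ≤ 2 := by
    rw [hs, show (2 : ℝ) / d = 2 * (1 / d) by ring]
    constructor <;> linarith
  have n1 : s * u / l ≤ (⌈s * u / l⌉₊ : ℝ) := Nat.le_ceil _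
  have n2 : (⌈s * u / l⌉₊ : ℝ) ≤ s * u / l + 1 :=
    (Nat.ceil_lt_add_one (div_nonneg (mul_nonneg s2.1 (by linarith)) l0.le)).le
  generalize ⌈s * u / l⌉₊ = n at n1 n2
  have b1 : (1 - l) ^ (n + 1) ≤ Real.exp (-(s * u)) := by
    rw [div_le_iff₀ l0] at n1
    refine (pow_le_pow_left₀ (by linarith) (Real.one_sub_le_exp_neg l) _).trans ?_
    rw [← Real.exp_nat_mul]
    exact Real.exp_le_exp.2 (by push_cast; linarith)
  have b2 : Real.exp (-(s * u)) + Real.exp (-(s * u)) ≤ A⁻¹ * Real.exp (-((q0 d - x) * u)) := by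
    rw [show -((q0 d - x) * u) = x / 2 * u + -(s * u) by rw [hs, q0]; ring, Real.exp_add,
      ← mul_assoc, ← two_mul]
    refine mul_le_mul_of_nonneg_right ?_ (Real.exp_pos _).le
    rw [le_inv_mul_iff₀ (by linarith)]
    linarith [Real.add_one_le_exp (x / 2 * u)]
  have b3 : ENNReal.ofReal (Real.exp (-(s * u))) ≤
      hit ρ (setY d (ENNReal.ofReal (Real.exp u))) n (dlt 0) := by
    rw [← ENNReal.add_le_add_iff_right (ENNReal.ofReal_ne_top (r := Real.exp (-(s * u)))),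
      ← ENNReal.ofReal_add (Real.exp_pos _).le (Real.exp_pos _).le]
    exact (ENNReal.ofReal_le_ofReal b2).trans (hu.trans ((U_le_hit (measurableSet_setY _) l0 l1 n
      _).trans (add_le_add le_rfl (ENNReal.ofReal_le_ofReal b1))))
  obtain ⟨Λ, hΛ⟩ : ∃ Λ : ℝ, Λ = B * (Real.log (1 / l) + 1 / x) / x := ⟨_, rfl⟩
  have g1 : 1 / x ≤ (Real.log (1 / l) + 1 / x) / x :=
    div_le_div_of_nonneg_right (by linarith) x0.le
  have Λ1 : B ≤ Λ := by
    rw [hΛ, mul_div_assoc]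
    nlinarith
  have r1 : Λ / u ≤ (⌈Λ / u⌉₊ : ℝ) := Nat.le_ceil _
  have r2 : (⌈Λ / u⌉₊ : ℝ) ≤ Λ / u + 1 :=
    (Nat.ceil_lt_add_one (div_nonneg (by linarith) (by linarith))).le
  generalize ⌈Λ / u⌉₊ = r at r1 r2
  rw [div_le_iff₀ (by linarith)] at r1
  rw [← sub_le_iff_le_add, le_div_iff₀ (by linarith)] at r2
  have r0 : (0 : ℝ) ≤ r := Nat.cast_nonneg r
  obtain ⟨L, L1, L2, hL⟩ := strong_level (ρ := ρ) hd hc.good.1 (l := r * u) (η := x / 2)
    (by linarith) (by linarith) (by linarith) (N := r * n) (by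
      refine le_trans (le_of_eq ?_) ((pow_le_pow_left' b3 r).trans ((hitY_pow _ n r).trans
        ((hit_mono_set (setY_subset _) _ _).trans (le_of_eq ?_))))
      · rw [← ENNReal.ofReal_pow (Real.exp_pos _).le, ← Real.exp_nat_mul, ← hs]
        congr 2
        ring
      · rw [← ENNReal.ofReal_pow (Real.exp_pos _).le, ← Real.exp_nat_mul]) (by
      refine le_trans ?_ (gsc_num (K := K) (by linarith) l0 l1 x0 (by rw [← hB, ← hΛ]; exact r1)
        (by linarith))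
      have c1 : ((r * n : ℕ) : ℝ) + 1 ≤ 4 * (r * u / l) := by
        have c2 : r * u ≤ r * u / l := le_div_self (by positivity) l0 l1.le
        have c3 := mul_le_mul_of_nonneg_left n2 r0
        have c4 := mul_le_mul_of_nonneg_right s2.2 (show 0 ≤ r * u / l by positivity)
        have c5 := mul_le_mul_of_nonneg_left u0 r0
        rw [show r * (s * u / l + 1) = s * (r * u / l) + r by ring] at c3
        push_cast
        linarith
      have c6 := mul_le_mul_of_nonneg_left (pow_le_pow_left₀ (by positivity) c1 2)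
        (show 0 ≤ 16384 * (4 * d + 1) * ((r : ℝ) * u) ^ 2 by positivity)
      refine c6.trans (le_of_eq ?_)
      rw [hK]
      ring)
  refine ⟨L, L1, L2.trans (Real.exp_le_exp.2 ?_), hL⟩
  rw [mul_div_assoc] at hΛ ⊢
  rw [div_eq_mul_one_div] at u2
  have g2 := mul_le_mul_of_nonneg_left g1 (show 0 ≤ A by linarith)
  have g3 := mul_nonneg (show 0 ≤ A * (4 * A) by linarith) (show 0 ≤ (Real.log (1 / l) + 1 / x) / x
    by linarith)
  linarith

/-- Lower exponents keep a fixed fraction of the moment. -/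
theorem opl (hd : 3 ≤ d) {κ M : ℝ} (hκ : 0 < κ) : ∃ C : ℝ, 1 ≤ C ∧
    ∀ (ρ : Measure ℝ≥0) [IsProbabilityMeasure ρ] (p l x Y : ℝ), Ctx d κ M ρ p l → l ≤ C⁻¹ →
      OO d ρ p l ≠ ⊤ → 0 ≤ x → x ≤ p - 1 → ENNReal.ofReal Y ≤ OO d ρ p l → x * Y ≤ 1 →
      ENNReal.ofReal (Y / C) ≤ OO d ρ (p - x) l := by
  obtain ⟨A, hA, h⟩ := dy_low (M := M) hd hκ
  have A2 : 1 ≤ A ^ 2 := one_le_pow₀ hA
  have A3 : A ≤ A * A ^ 2 := by nlinarith
  refine ⟨12 * (A * A ^ 2), by linarith, fun ρ _ p l x Y hc hl hO x0 x1 hY xY => ?_⟩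
  have h1d : 1 ≤ d := by omega
  rcases le_total Y (12 * (A * A ^ 2)) with c | c
  · refine le_trans ?_ (one_le_OO h1d hc.good.1 (by linarith) hc.l0 hc.l1)
    exact ENNReal.ofReal_le_one.2 ((div_le_one (by linarith)).2 c)
  obtain ⟨y, ey⟩ : ∃ y : ℝ, Y = 2 * A * y := ⟨Y / (2 * A), by field_simp⟩
  have y1 : 6 * A ^ 2 ≤ y := le_of_mul_le_mul_left (by linarith) (show 0 < 2 * A by linarith)
  have y0 : 0 ≤ y := by linarith
  have k := h ρ p l hc (hl.trans (inv_anti₀ (by linarith) (by linarith))) hO y y0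
    (le_trans (ENNReal.ofReal_le_ofReal (by nlinarith)) hY)
  have hS := measurableSet_lev (d := d) (Real.exp y)
  have k2 : U ρ l (lev d (Real.exp y)) (fun _ => 0) (mq p) (dlt (0 : Site d)) ≤
      ENNReal.ofReal 3 * OO d ρ (p - x) l := by
    rw [OO, HH, Res_eq_U hS hc.l0 hc.l1 (measurable_mq _),
      ← U_const_mul hS (measurable_Res (measurable_mq _)) (measurable_mq _)]
    refine U_mono h1d (fun g _ _ => zero_le) (fun g _ hg => ?_) (nice_dlt 0)
    have e : mq p g = mass g ^ x * mq (p - x) g := by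
      rw [mq, mq, ← ENNReal.rpow_add_of_nonneg _ _ x0 (by linarith), add_sub_cancel]
    rw [e]
    refine mul_le_mul_left ((ENNReal.rpow_le_rpow (not_le.1 hg).le x0).trans ?_) _
    rw [ENNReal.ofReal_rpow_of_pos (Real.exp_pos y), ← Real.exp_mul]
    refine ENNReal.ofReal_le_ofReal ((Real.exp_le_exp.2 ?_).trans Real.exp_one_lt_three.le)
    nlinarith [mul_nonneg x0 y0]
  refine (ENNReal.mul_le_mul_iff_right (a := ENNReal.ofReal 3) (by simp) (by simp)).1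
    (le_trans ?_ (k.trans k2))
  rw [← ENNReal.ofReal_mul (by norm_num)]
  refine ENNReal.ofReal_le_ofReal ?_
  have A0 : 0 < A := by linarith
  obtain ⟨z, ez⟩ : ∃ z : ℝ, y = A ^ 2 * z := ⟨y / A ^ 2, by field_simp⟩
  have z1 : 6 ≤ z := le_of_mul_le_mul_left (by linarith) (show 0 < A ^ 2 by linarith)
  rw [ey, ez, show 3 * (2 * A * (A ^ 2 * z) / (12 * (A * A ^ 2))) = z / 2 by field_simp; ring,
    show A⁻¹ * (A ^ 2 * z) = A * z by field_simp]
  nlinarith

/-- Monotonicity of the decay scale. -/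
theorem Dec.mono {ρ : Measure ℝ≥0} [IsProbabilityMeasure ρ] {L L' : ℝ} (h : Dec d ρ L)
    (hL : L ≤ L') : Dec d ρ L' := by
  obtain ⟨n, h1, h2, h3⟩ := h
  exact ⟨n, h1, h2.trans hL, h3⟩

end Pool.Agent.Lib.MP_153faa_pr
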