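import Mathlib
import Pool.Agent.Lib.MP_153faa_pr.GRes2

set_option autoImplicit false

open MeasureTheory Filter Topology
open scoped ENNReal NNReal

namespace Pool.Agent.Lib.MP_153faa_pr

variable {d : ℕ}

variable {ρ : Measure ℝ≥0} [IsProbabilityMeasure ρ] {l l' p : ℝ}

theorem gren_mq_phi (hd : 1 ≤ d) (p : ℝ) (m : ℕ) : mq p (phi d m) = 1 := by
  simp [mq, mass_phi hd]

theorem gren_det_phi (Φ : Prof d → ℝ≥0∞) (l : ℝ) (m : ℕ) :
    Det l Φ (phi d m) = ∑' n, wt l n * Φ (phi d (m + n)) := by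
  simp only [Det, avg_iter_phi]

theorem gren_det_rec (h1 : l < 1) (Φ : Prof d → ℝ≥0∞) (m : ℕ) :
    Det l Φ (phi d m) =
      ENNReal.ofReal l * Φ (phi d m) + ENNReal.ofReal (1 - l) * Det l Φ (phi d (m + 1)) := by
  rw [gren_det_phi, gren_det_phi, tsum_eq_zero_add' ENNReal.summable, ← ENNReal.tsum_mul_left]
  congr 1
  · simp [wt]
  · refine tsum_congr fun n => ?_
    rw [wt_add h1 n 1, pow_one, mul_assoc, show m + (n + 1) = m + 1 + n by ring]

theorem gren_KK_ne_top (hd : 1 ≤ d) (hm : Mean1 ρ) (hp : 1 ≤ p) (h0 : 0 < l) (h1 : l < 1) :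
    KK d ρ p l ≠ ⊤ := by
  rw [← ofReal_Kr hd hm hp h0 h1]
  exact ENNReal.ofReal_ne_top

theorem gren_det_le (hd : 1 ≤ d) (hm : Mean1 ρ) (hp : 1 ≤ p) (h0 : 0 < l') (h : l' < l)
    (h1 : l < 1) (hO : OO d ρ p l' ≠ ⊤) (m : ℕ) :
    KK d ρ p l' * Det l (HH ρ p l') (phi d m) ≤ 1 := by
  rw [gren_det_phi, ← ENNReal.tsum_mul_left, ← wt_tsum (h0.trans h) h1]
  refine ENNReal.tsum_le_tsum fun n => ?_
  obtain ⟨e1, e2, -⟩ := Kr_add_Ar hd hm hp h0 (h.trans h1) hO (m + n)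
  rw [mul_left_comm, e1]
  exact mul_le_of_le_one_right' (ENNReal.ofReal_le_one.2 e2)

theorem gren_le_det (hd : 1 ≤ d) (hm : Mean1 ρ) (hp : 1 ≤ p) (h0 : 0 < l') (h : l' < l)
    (h1 : l < 1) (m : ℕ) : 1 ≤ Det l (HH ρ p l') (phi d m) := by
  rw [gren_det_phi, ← wt_tsum (h0.trans h) h1]
  refine ENNReal.tsum_le_tsum fun n => ?_
  have := mq_le_HH (ρ := ρ) hd hm hp h0 (h.trans h1) (phi d (m + n))
  rw [gren_mq_phi hd] at this
  exact le_mul_of_one_le_right' this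

theorem gren_two (h0 : 0 < l') (h : l' < l) (h1 : l < 1) (f : Prof d) :
    HH ρ p l' f = ENNReal.ofReal (l' * (1 - l) / (l * (1 - l'))) * HH ρ p l f +
      ENNReal.ofReal ((l - l') / (l * (1 - l'))) * Res ρ l (HH ρ p l') f :=
  Res_two h0 h.le h1 (measurable_mq p) f

theorem gren_res_ne_top (hd : 1 ≤ d) (hp : 1 ≤ p) (h0 : 0 < l') (h : l' < l)
    (h1 : l < 1) (hO : OO d ρ p l' ≠ ⊤) (m : ℕ) : Res ρ l (HH ρ p l') (phi d m) ≠ ⊤ := by
  intro ht
  have e := gren_two (ρ := ρ) (p := p) h0 h h1 (phi d m)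
  have hθ : 0 < (l - l') / (l * (1 - l')) :=
    div_pos (sub_pos.2 h) (mul_pos (h0.trans h) (by linarith))
  rw [ht, ENNReal.mul_top (by simpa using hθ), add_top] at e
  have := HH_le (ρ := ρ) (l := l') hp (phi d m)
  rw [e, gren_mq_phi hd, mul_one, top_le_iff] at this
  exact hO this

theorem Gr_spec (hd : 1 ≤ d) (hm : Mean1 ρ) (hp : 1 ≤ p) (h0 : 0 < l') (h : l' < l) (h1 : l < 1)
    (hO : OO d ρ p l' ≠ ⊤) (m : ℕ) :
    KK d ρ p l' * Res ρ l (HH ρ p l') (phi d m) =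
      KK d ρ p l' * Det l (HH ρ p l') (phi d m) + ENNReal.ofReal (Gr d ρ p l l' m) ∧
    KK d ρ p l' * Det l (HH ρ p l') (phi d m) ≤ 1 ∧ 0 ≤ Gr d ρ p l l' m := by
  refine ⟨?_, gren_det_le hd hm hp h0 h h1 hO m, ENNReal.toReal_nonneg⟩
  have hK := gren_KK_ne_top (ρ := ρ) hd hm hp h0 (h.trans h1)
  have hR := gren_res_ne_top (ρ := ρ) hd hp h0 h h1 hO m
  rw [Gr, ENNReal.ofReal_toReal (ENNReal.mul_ne_top hK (ENNReal.sub_ne_top hR)), ← mul_add,
    add_tsub_cancel_of_le (Det_le_Res hm hp l' _)]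

/-- The renewal structure in real numbers. -/
theorem gren_real (hd : 1 ≤ d) (hm : Mean1 ρ) (hp : 1 ≤ p) (h0 : 0 < l') (h : l' < l)
    (h1 : l < 1) (hO : OO d ρ p l' ≠ ⊤) : ∃ S x : ℕ → ℝ, (∀ m, 0 ≤ S m ∧ S m ≤ 1) ∧
      (∀ m, 0 ≤ x m ∧ x m ≤ Ar d ρ p l m) ∧
      (∀ m, S m = l * Ar d ρ p l' m + (1 - l) * S (m + 1)) ∧
      ∀ m, Ar d ρ p l' m = l' * (1 - l) / (l * (1 - l')) * x m +
        (l - l') / (l * (1 - l')) * (Gr d ρ p l l' m + S m) := by
  have hl0 : 0 < l := h0.trans h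
  have hl1 : l' < 1 := h.trans h1
  have hK := gren_KK_ne_top (ρ := ρ) hd hm hp h0 hl1
  have hKr := ofReal_Kr (ρ := ρ) hd hm hp h0 hl1
  have hK0 : 0 ≤ Kr d ρ p l' := Kr_nonneg
  have hOl : OO d ρ p l ≤ OO d ρ p l' := OO_horizon hd hm hp h0 h.le h1
  have hO' : OO d ρ p l ≠ ⊤ := ne_top_of_le_ne_top hO hOl
  have hKK : KK d ρ p l' ≤ KK d ρ p l := ENNReal.inv_le_inv.2 hOl
  have hD : ∀ m, KK d ρ p l' * Det l (HH ρ p l') (phi d m) ≠ ⊤ := fun m =>
    ne_top_of_le_ne_top ENNReal.one_ne_top (gren_det_le hd hm hp h0 h h1 hO m)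
  have hA : ∀ m, 0 ≤ Ar d ρ p l' m := fun m => ENNReal.toReal_nonneg
  have hX : ∀ m, KK d ρ p l' * XX ρ p l 0 (phi d m) ≤ ENNReal.ofReal (Ar d ρ p l m) := fun m => by
    rw [← (Kr_add_Ar hd hm hp hl0 h1 hO' m).2.2]
    gcongr
  have hXt : ∀ m, KK d ρ p l' * XX ρ p l 0 (phi d m) ≠ ⊤ := fun m =>
    ne_top_of_le_ne_top ENNReal.ofReal_ne_top (hX m)
  refine ⟨fun m => (KK d ρ p l' * Det l (HH ρ p l') (phi d m)).toReal - Kr d ρ p l',
    fun m => (KK d ρ p l' * XX ρ p l 0 (phi d m)).toReal, fun m => ⟨?_, ?_⟩,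
    fun m => ⟨ENNReal.toReal_nonneg, ?_⟩, fun m => ?_, fun m => ?_⟩
  · rw [sub_nonneg, Kr]
    exact ENNReal.toReal_mono (hD m) (le_mul_of_one_le_right' (gren_le_det hd hm hp h0 h h1 m))
  · have := ENNReal.toReal_mono ENNReal.one_ne_top (gren_det_le hd hm hp h0 h h1 hO m)
    rw [ENNReal.toReal_one] at this
    linarith
  · exact ENNReal.toReal_le_of_le_ofReal ENNReal.toReal_nonneg (hX m)
  · have e : KK d ρ p l' * Det l (HH ρ p l') (phi d m) =
        ENNReal.ofReal l * ENNReal.ofReal (Kr d ρ p l' + Ar d ρ p l' m) +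
          ENNReal.ofReal (1 - l) * (KK d ρ p l' * Det l (HH ρ p l') (phi d (m + 1))) := by
      rw [← (Kr_add_Ar hd hm hp h0 hl1 hO m).1]
      conv_lhs => rw [gren_det_rec h1]
      ring
    beta_reduce
    rw [e, ENNReal.toReal_add (by finiteness)
      (ENNReal.mul_ne_top ENNReal.ofReal_ne_top (hD _)), ENNReal.toReal_mul,
      ENNReal.toReal_mul (a := ENNReal.ofReal _), ENNReal.toReal_ofReal hl0.le, ENNReal.toReal_ofReal (by linarith : (0 : ℝ) ≤ 1 - l),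
      ENNReal.toReal_ofReal (add_nonneg hK0 (hA m))]
    ring
  · have hden : 0 < l * (1 - l') := mul_pos hl0 (by linarith)
    have hα : 0 ≤ l' * (1 - l) / (l * (1 - l')) :=
      div_nonneg (mul_nonneg h0.le (by linarith)) hden.le
    have hθ : 0 ≤ (l - l') / (l * (1 - l')) := div_nonneg (by linarith) hden.le
    have hsum : l' * (1 - l) / (l * (1 - l')) + (l - l') / (l * (1 - l')) = 1 := by
      rw [← add_div, div_eq_one_iff_eq hden.ne']
      ring
    obtain ⟨g1, -, g3⟩ := Gr_spec hd hm hp h0 h h1 hO m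
    have e : ENNReal.ofReal (Kr d ρ p l' + Ar d ρ p l' m) =
        ENNReal.ofReal (l' * (1 - l) / (l * (1 - l'))) *
          (KK d ρ p l' * XX ρ p l 0 (phi d m) + ENNReal.ofReal (Kr d ρ p l')) +
        ENNReal.ofReal ((l - l') / (l * (1 - l'))) *
          (KK d ρ p l' * Det l (HH ρ p l') (phi d m) + ENNReal.ofReal (Gr d ρ p l l' m)) := by
      rw [← (Kr_add_Ar hd hm hp h0 hl1 hO m).1, ← g1, hKr, gren_two h0 h h1,
        ← XX_zero_add hd hm hp hl0 h1, gren_mq_phi hd]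
      ring
    have e2 := congrArg ENNReal.toReal e
    have t1 : KK d ρ p l' * XX ρ p l 0 (phi d m) + ENNReal.ofReal (Kr d ρ p l') ≠ ⊤ :=
      ENNReal.add_ne_top.2 ⟨hXt m, ENNReal.ofReal_ne_top⟩
    have t2 : KK d ρ p l' * Det l (HH ρ p l') (phi d m) + ENNReal.ofReal (Gr d ρ p l l' m) ≠ ⊤ :=
      ENNReal.add_ne_top.2 ⟨hD m, ENNReal.ofReal_ne_top⟩
    rw [ENNReal.toReal_add (ENNReal.mul_ne_top ENNReal.ofReal_ne_top t1)
        (ENNReal.mul_ne_top ENNReal.ofReal_ne_top t2),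
      ENNReal.toReal_ofReal (add_nonneg hK0 (hA m)), ENNReal.toReal_mul (a := ENNReal.ofReal _),
      ENNReal.toReal_mul (a := ENNReal.ofReal _), ENNReal.toReal_ofReal hα,
      ENNReal.toReal_ofReal hθ, ENNReal.toReal_add (hXt m) ENNReal.ofReal_ne_top,
      ENNReal.toReal_add (hD m) ENNReal.ofReal_ne_top, ENNReal.toReal_ofReal hK0,
      ENNReal.toReal_ofReal g3] at e2
    have e3 : Kr d ρ p l' = (l' * (1 - l) / (l * (1 - l')) + (l - l') / (l * (1 - l'))) *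
      Kr d ρ p l' := by rw [hsum, one_mul]
    linarith

/-- Solution of the renewal equation. -/
theorem gren_solve (h0 : 0 < l') (h : l' < l) (h1 : l < 1) {a S G : ℕ → ℝ}
    (hS : ∀ m, S m = l * a m + (1 - l) * S (m + 1))
    (ha : ∀ m, a m = G m + (l - l') / (l * (1 - l')) * S m) (m N : ℕ) :
    a m = G m + (l - l') / (1 - l) * ∑ i ∈ Finset.range N, (1 - l') ^ i * G (m + i) +
      (l - l') / (l * (1 - l')) * ((1 - l') ^ N * S (m + N)) := by
  have hl0 : l ≠ 0 := (h0.trans h).ne'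
  have hl1 : 1 - l ≠ 0 := by linarith
  have hl2 : 1 - l' ≠ 0 := by linarith
  have key : ∀ k, S k = l * (1 - l') / (1 - l) * G k + (1 - l') * S (k + 1) := by
    intro k
    have e1 := hS k
    rw [ha k] at e1
    have e2 : l * ((l - l') / (l * (1 - l')) * S k) = (l - l') / (1 - l') * S k := by
      field_simp
    rw [mul_add, e2] at e1
    field_simp
    field_simp at e1
    linarith
  induction N with
  | zero => simpa using ha m
  | succ N ih =>
    rw [ih, Finset.sum_range_succ, key (m + N), show m + (N + 1) = m + N + 1 by ring]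
    field_simp
    ring

/-- Renewal lower bound. -/
theorem ren_low (hd : 1 ≤ d) (hm : Mean1 ρ) (hp : 1 ≤ p) (h0 : 0 < l') (h : l' < l) (h1 : l < 1)
    (hO : OO d ρ p l' ≠ ⊤) (m N : ℕ) :
    (1 - l' / l) ^ 2 * ∑ i ∈ Finset.range N, l * (1 - l') ^ i * Gr d ρ p l l' (m + i) ≤
      Ar d ρ p l' m := by
  obtain ⟨S, x, hS, hx, e1, e2⟩ := gren_real hd hm hp h0 h h1 hO
  have hl0 : 0 < l := h0.trans h
  have hl1 : 0 < 1 - l := by linarith
  have hl2 : 0 < 1 - l' := by linarith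
  have hden : 0 < l * (1 - l') := mul_pos hl0 hl2
  have hα : 0 ≤ l' * (1 - l) / (l * (1 - l')) := by positivity
  have hll : 0 < l - l' := by linarith
  have hθ : 0 ≤ (l - l') / (l * (1 - l')) := by positivity
  have hG : ∀ k, 0 ≤ Gr d ρ p l l' k := fun k => ENNReal.toReal_nonneg
  have e := gren_solve h0 h h1 (a := Ar d ρ p l') (S := S)
    (G := fun k => l' * (1 - l) / (l * (1 - l')) * x k + (l - l') / (l * (1 - l')) *
      Gr d ρ p l l' k) e1 (fun k => by rw [e2 k]; ring) m N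
  rw [e]
  have b1 : 0 ≤ l' * (1 - l) / (l * (1 - l')) * x m + (l - l') / (l * (1 - l')) *
      Gr d ρ p l l' m := add_nonneg (mul_nonneg hα (hx m).1) (mul_nonneg hθ (hG m))
  have b2 : 0 ≤ (l - l') / (l * (1 - l')) * ((1 - l') ^ N * S (m + N)) :=
    mul_nonneg hθ (mul_nonneg (by positivity) (hS _).1)
  have hc : (1 - l' / l) ^ 2 * l ≤ (l - l') / (1 - l) * ((l - l') / (l * (1 - l'))) := by
    have c1 : (1 - l' / l) ^ 2 * l = (l - l') ^ 2 / l := by field_simp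
    have c2 : (l - l') / (1 - l) * ((l - l') / (l * (1 - l'))) =
        (l - l') ^ 2 / (l * ((1 - l) * (1 - l'))) := by field_simp
    rw [c1, c2]
    refine div_le_div_of_nonneg_left (by positivity) (by positivity) ?_
    exact mul_le_of_le_one_right hl0.le (mul_le_one₀ (by linarith) hl2.le (by linarith))
  have b3 : (1 - l' / l) ^ 2 * ∑ i ∈ Finset.range N, l * (1 - l') ^ i * Gr d ρ p l l' (m + i) ≤
      (l - l') / (1 - l) * ∑ i ∈ Finset.range N, (1 - l') ^ i *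
        (l' * (1 - l) / (l * (1 - l')) * x (m + i) + (l - l') / (l * (1 - l')) *
          Gr d ρ p l l' (m + i)) := by
    rw [Finset.mul_sum, Finset.mul_sum]
    refine Finset.sum_le_sum fun i _ => ?_
    have p1 : 0 ≤ (1 - l') ^ i * Gr d ρ p l l' (m + i) := mul_nonneg (by positivity) (hG _)
    have p2 : 0 ≤ (l - l') / (1 - l) * ((1 - l') ^ i *
        (l' * (1 - l) / (l * (1 - l')) * x (m + i))) :=
      mul_nonneg (by positivity) (mul_nonneg (by positivity) (mul_nonneg hα (hx _).1))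
    have p3 := mul_le_mul_of_nonneg_right hc p1
    nlinarith
  linarith

/-- Renewal upper bound. -/
theorem ren_up (hd : 1 ≤ d) (hm : Mean1 ρ) (hp : 1 ≤ p) (h0 : 0 < l') (h : l' < l) (h1 : l < 1)
    (hO : OO d ρ p l' ≠ ⊤) (m N : ℕ) (hN : 1 ≤ N) (G : ℕ → ℝ)
    (hG : ∀ i < N, Gr d ρ p l l' (m + i) ≤ G i ∧ Ar d ρ p l (m + i) ≤ G i) :
    Ar d ρ p l' m ≤ G 0 + (l - l') / (1 - l) * ∑ i ∈ Finset.range N, (1 - l') ^ i * G i +
      l / (l' * (1 - l)) * (1 - l') ^ N := by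
  obtain ⟨S, x, hS, hx, e1, e2⟩ := gren_real hd hm hp h0 h h1 hO
  have hl0 : 0 < l := h0.trans h
  have hl1 : 0 < 1 - l := by linarith
  have hl2 : 0 < 1 - l' := by linarith
  have hden : 0 < l * (1 - l') := mul_pos hl0 hl2
  have hα : 0 ≤ l' * (1 - l) / (l * (1 - l')) := by positivity
  have hll : 0 < l - l' := by linarith
  have hθ : 0 ≤ (l - l') / (l * (1 - l')) := by positivity
  have hsum : l' * (1 - l) / (l * (1 - l')) + (l - l') / (l * (1 - l')) = 1 := by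
    field_simp
    ring
  have e := gren_solve h0 h h1 (a := Ar d ρ p l') (S := S)
    (G := fun k => l' * (1 - l) / (l * (1 - l')) * x k + (l - l') / (l * (1 - l')) *
      Gr d ρ p l l' k) e1 (fun k => by rw [e2 k]; ring) m N
  have hb : ∀ i < N, l' * (1 - l) / (l * (1 - l')) * x (m + i) + (l - l') / (l * (1 - l')) *
      Gr d ρ p l l' (m + i) ≤ G i := by
    intro i hi
    obtain ⟨g1, g2⟩ := hG i hi
    have p1 := mul_le_mul_of_nonneg_left ((hx (m + i)).2.trans g2) hα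
    have p2 := mul_le_mul_of_nonneg_left g1 hθ
    have p3 : G i = (l' * (1 - l) / (l * (1 - l')) + (l - l') / (l * (1 - l'))) * G i := by
      rw [hsum, one_mul]
    linarith
  rw [e]
  have b1 := hb 0 hN
  rw [add_zero] at b1
  refine add_le_add (add_le_add b1 ?_) ?_
  · refine mul_le_mul_of_nonneg_left (Finset.sum_le_sum fun i hi => ?_) (by positivity)
    exact mul_le_mul_of_nonneg_left (hb i (Finset.mem_range.1 hi)) (by positivity)
  · have c1 : (l - l') / (l * (1 - l')) ≤ 1 := by linarith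
    have c2 : 1 ≤ l / (l' * (1 - l)) := by
      rw [one_le_div (by positivity)]
      nlinarith
    have c3 : (1 - l') ^ N * S (m + N) ≤ (1 - l') ^ N :=
      mul_le_of_le_one_right (by positivity) (hS _).2
    exact mul_le_mul (c1.trans c2) c3 (mul_nonneg (by positivity) (hS _).1) (by linarith)

end Pool.Agent.Lib.MP_153faa_pr
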