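import Mathlib
import Pool.Agent.Lib.MP_153faa_pr.GOne1

/-!
Laplace representation of powers and an abstract superadditivity inequality.
-/

set_option autoImplicit false

open MeasureTheory Filter Topology
open scoped ENNReal NNReal

namespace Pool.Agent.Lib.MP_153faa_pr

/-- The compensated exponential. -/
noncomputable def gsupK (u : ℝ) : ℝ := Real.exp (-u) - 1 + u

theorem gsupK_nonneg (u : ℝ) : 0 ≤ gsupK u := by
  have := Real.add_one_le_exp (-u)
  unfold gsupK; linarith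

theorem gsupK_pos {u : ℝ} (hu : 0 < u) : 0 < gsupK u := by
  have := Real.add_one_lt_exp (x := -u) (by linarith)
  unfold gsupK; linarith

theorem gsupK_le {u : ℝ} (hu : 0 ≤ u) : gsupK u ≤ u := by
  have : Real.exp (-u) ≤ 1 := Real.exp_le_one_iff.2 (by linarith)
  unfold gsupK; linarith

theorem gsupK_le_sq {u : ℝ} (hu : 0 ≤ u) (h1 : u ≤ 1) : gsupK u ≤ u ^ 2 := by
  have h := Real.abs_exp_sub_one_sub_id_le (x := -u) (by rw [abs_neg, abs_of_nonneg hu]; exact h1)
  have := (abs_le.1 h).2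
  unfold gsupK; nlinarith

theorem continuous_gsupK : Continuous gsupK := by unfold gsupK; fun_prop

theorem gsup_int {p : ℝ} (hp : 1 < p) (hp2 : p < 2) :
    IntegrableOn (fun r : ℝ => gsupK r * r ^ (-p - 1)) (Set.Ioi 0) := by
  have hm : Measurable fun r : ℝ => gsupK r * r ^ (-p - 1) :=
    continuous_gsupK.measurable.mul (measurable_id.pow_const _)
  rw [← Set.Ioc_union_Ioi_eq_Ioi (zero_le_one' ℝ)]
  refine IntegrableOn.union ?_ ?_
  · have h1 : IntegrableOn (fun r : ℝ => r ^ (1 - p)) (Set.Ioc 0 1) :=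
      (intervalIntegral.intervalIntegrable_rpow' (a := 0) (b := 1) (r := 1 - p)
        (by linarith)).1
    refine Integrable.mono' h1 hm.aestronglyMeasurable ?_
    refine (ae_restrict_iff' measurableSet_Ioc).2 (Eventually.of_forall fun r hr => ?_)
    have hr0 : 0 < r := hr.1
    rw [Real.norm_eq_abs, abs_of_nonneg (mul_nonneg (gsupK_nonneg r) (Real.rpow_nonneg hr0.le _))]
    calc gsupK r * r ^ (-p - 1) ≤ r ^ 2 * r ^ (-p - 1) := by
          gcongr
          exact gsupK_le_sq hr0.le hr.2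
      _ = r ^ (1 - p) := by
          rw [← Real.rpow_natCast, ← Real.rpow_add hr0]; congr 1; push_cast; ring
  · have h1 : IntegrableOn (fun r : ℝ => r ^ (-p)) (Set.Ioi 1) :=
      integrableOn_Ioi_rpow_of_lt (by linarith) one_pos
    refine Integrable.mono' h1 hm.aestronglyMeasurable ?_
    refine (ae_restrict_iff' measurableSet_Ioi).2 (Eventually.of_forall fun r hr => ?_)
    have hr0 : 0 < r := lt_trans one_pos hr
    rw [Real.norm_eq_abs, abs_of_nonneg (mul_nonneg (gsupK_nonneg r) (Real.rpow_nonneg hr0.le _))]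
    calc gsupK r * r ^ (-p - 1) ≤ r * r ^ (-p - 1) := by
          gcongr
          exact gsupK_le hr0.le
      _ = r ^ (-p) := by
          conv_lhs => rw [← Real.rpow_one r, ← Real.rpow_mul hr0.le]
          rw [← Real.rpow_add hr0]; congr 1; ring

/-- Laplace representation of the `p`-th power. -/
theorem gsup_laplace {p : ℝ} (hp : 1 < p) (hp2 : p < 2) : ∃ c : ℝ≥0∞, c ≠ 0 ∧ c ≠ ⊤ ∧
    ∀ x : ℝ, 0 ≤ x → ∫⁻ r in Set.Ioi (0 : ℝ), ENNReal.ofReal (r ^ (-p - 1)) *
      ENNReal.ofReal (gsupK (r * x)) = c * ENNReal.ofReal (x ^ p) := by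
  set f : ℝ → ℝ := fun r => gsupK r * r ^ (-p - 1) with hf
  have hi : IntegrableOn f (Set.Ioi 0) := gsup_int hp hp2
  have hnn : 0 ≤ᵐ[volume.restrict (Set.Ioi (0 : ℝ))] f :=
    (ae_restrict_iff' measurableSet_Ioi).2 (Eventually.of_forall fun r hr =>
      mul_nonneg (gsupK_nonneg r) (Real.rpow_nonneg (le_of_lt hr) _))
  refine ⟨ENNReal.ofReal (∫ r in Set.Ioi (0 : ℝ), f r), ?_, ENNReal.ofReal_ne_top, ?_⟩
  · rw [Ne, ENNReal.ofReal_eq_zero, not_le, setIntegral_pos_iff_support_of_nonneg_ae hnn hi]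
    have : Function.support f ∩ Set.Ioi 0 = Set.Ioi 0 := by
      refine Set.inter_eq_right.2 fun r hr => ?_
      exact (mul_pos (gsupK_pos hr) (Real.rpow_pos_of_pos hr _)).ne'
    rw [this]; simp
  · intro x hx
    rcases hx.eq_or_lt with rfl | hx
    · simp [gsupK, Real.zero_rpow (by linarith : p ≠ 0)]
    have hi2 : IntegrableOn (fun r => f (r * x)) (Set.Ioi 0) :=
      (integrableOn_Ioi_comp_mul_right_iff f 0 hx).2 (by simpa using hi)
    have hnn2 : 0 ≤ᵐ[volume.restrict (Set.Ioi (0 : ℝ))] fun r => f (r * x) :=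
      (ae_restrict_iff' measurableSet_Ioi).2 (Eventually.of_forall fun r hr =>
        mul_nonneg (gsupK_nonneg _) (Real.rpow_nonneg (mul_pos hr hx).le _))
    have h1 : ∫⁻ r in Set.Ioi (0 : ℝ), ENNReal.ofReal (r ^ (-p - 1)) *
        ENNReal.ofReal (gsupK (r * x)) =
        ∫⁻ r in Set.Ioi (0 : ℝ), ENNReal.ofReal (x ^ (p + 1)) * ENNReal.ofReal (f (r * x)) := by
      refine setLIntegral_congr_fun measurableSet_Ioi fun r hr => ?_
      have hr0 : 0 < r := hr
      rw [← ENNReal.ofReal_mul (Real.rpow_nonneg hr0.le _),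
        ← ENNReal.ofReal_mul (Real.rpow_nonneg hx.le _)]
      congr 1
      simp only [hf]
      rw [Real.mul_rpow hr0.le hx.le]
      have : x ^ (p + 1) * x ^ (-p - 1) = 1 := by
        rw [← Real.rpow_add hx]; simp
      linear_combination (-(gsupK (r * x) * r ^ (-p - 1))) * this
    rw [h1, lintegral_const_mul' _ _ ENNReal.ofReal_ne_top,
      ← ofReal_integral_eq_lintegral_ofReal hi2 hnn2, integral_comp_mul_right_Ioi f 0 hx,
      zero_mul, smul_eq_mul, ← ENNReal.ofReal_mul (Real.rpow_nonneg hx.le _),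
      ← ENNReal.ofReal_mul (integral_nonneg_of_ae hnn)]
    congr 1
    rw [Real.rpow_add hx, Real.rpow_one]
    field_simp

theorem gsup_prod {κ : Type} (B : Finset κ) (u : κ → ℝ) (hu : ∀ b ∈ B, 1 ≤ u b) :
    ∑ b ∈ B, u b + 1 ≤ ∏ b ∈ B, u b + B.card := by
  classical
  induction B using Finset.induction_on with
  | empty => simp
  | insert a s ha ih =>
    rw [Finset.sum_insert ha, Finset.prod_insert ha, Finset.card_insert_of_notMem ha]
    have h1 := ih fun b hb => hu b (Finset.mem_insert_of_mem hb)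
    have h2 := hu a (Finset.mem_insert_self a s)
    have h3 : 1 ≤ ∏ b ∈ s, u b :=
      Finset.prod_induction u (fun x => 1 ≤ x) (fun _ _ h h' => one_le_mul_of_one_le_of_one_le h h')
        le_rfl (fun b hb => hu b (Finset.mem_insert_of_mem hb))
    push_cast
    nlinarith

variable {Ω : Type*} [MeasurableSpace Ω] {μ : Measure Ω} [IsProbabilityMeasure μ]

theorem gsup_exp_int {Z : Ω → ℝ} (hZ : Measurable Z) (h0 : ∀ ω, 0 ≤ Z ω) {r : ℝ} (hr : 0 ≤ r) :
    Integrable (fun ω => Real.exp (-(r * Z ω))) μ := by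
  refine Integrable.mono' (integrable_const (1 : ℝ)) (by fun_prop) (Eventually.of_forall fun ω => ?_)
  rw [Real.norm_eq_abs, abs_of_pos (Real.exp_pos _)]
  exact Real.exp_le_one_iff.2 (by have := mul_nonneg hr (h0 ω); linarith)

theorem gsup_K_exp {Z : Ω → ℝ} (hZ : Measurable Z) (h0 : ∀ ω, 0 ≤ Z ω) (hi : Integrable Z μ)
    {r : ℝ} (hr : 0 ≤ r) : ∫⁻ ω, ENNReal.ofReal (gsupK (r * Z ω)) ∂μ =
      ENNReal.ofReal (∫ ω, Real.exp (-(r * Z ω)) ∂μ - 1 + r * ∫ ω, Z ω ∂μ) := by
  have h1 := gsup_exp_int (μ := μ) hZ h0 hr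
  have h2 : Integrable (fun ω => r * Z ω) μ := hi.const_mul r
  have h3 : Integrable (fun ω => Real.exp (-(r * Z ω)) - 1) μ := h1.sub (integrable_const 1)
  rw [← ofReal_integral_eq_lintegral_ofReal (f := fun ω => gsupK (r * Z ω)) (h3.add h2)
    (Eventually.of_forall fun ω => gsupK_nonneg _)]
  congr 1
  unfold gsupK
  rw [integral_add h3 h2, integral_sub h1 (integrable_const 1), integral_const_mul]
  simp

theorem gsup_jensen {Z : Ω → ℝ} (hZ : Measurable Z) (h0 : ∀ ω, 0 ≤ Z ω) (hi : Integrable Z μ)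
    {r : ℝ} (hr : 0 ≤ r) :
    1 ≤ Real.exp (r * ∫ ω, Z ω ∂μ) * ∫ ω, Real.exp (-(r * Z ω)) ∂μ := by
  have h1 := gsup_exp_int (μ := μ) hZ h0 hr
  set y := ∫ ω, Z ω ∂μ with hy
  rw [← integral_const_mul]
  have h2 : Integrable (fun ω => r * Z ω) μ := hi.const_mul r
  calc (1 : ℝ) = ∫ ω, (1 + r * y - r * Z ω) ∂μ := by
        rw [integral_sub (integrable_const _) h2, integral_const_mul]; simp [hy]
    _ ≤ _ := by
        refine integral_mono ((integrable_const _).sub h2) (h1.const_mul _) fun ω => ?_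
        simp only
        rw [← Real.exp_add]
        have := Real.add_one_le_exp (r * y + -(r * Z ω))
        linarith

/-- The Bregman divergence from the mean integrates to the gain. -/
theorem gsup_br {p : ℝ} (hp : 1 < p) {Z : Ω → ℝ} (hZ : Measurable Z) (h0 : ∀ ω, 0 ≤ Z ω)
    (hi : Integrable Z μ) {S : ℝ} (hS : ∫ ω, Z ω ∂μ = S) :
    ENNReal.ofReal (S ^ p) + ∫⁻ ω, ENNReal.ofReal (br p S (Z ω)) ∂μ =
      ∫⁻ ω, ENNReal.ofReal (Z ω ^ p) ∂μ := by
  have hS0 : 0 ≤ S := hS ▸ integral_nonneg h0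
  have hq : 0 ≤ p * S ^ (p - 1) := mul_nonneg (by linarith) (Real.rpow_nonneg hS0 _)
  have hZi : ∫⁻ ω, ENNReal.ofReal (p * S ^ (p - 1) * Z ω) ∂μ =
      ENNReal.ofReal (p * S ^ (p - 1) * S) := by
    rw [← ofReal_integral_eq_lintegral_ofReal (hi.const_mul _)
      (Eventually.of_forall fun ω => mul_nonneg hq (h0 ω)), integral_const_mul, hS]
  have key : ∀ ω, ENNReal.ofReal (p * S ^ (p - 1) * Z ω) +
      (ENNReal.ofReal (S ^ p) + ENNReal.ofReal (br p S (Z ω))) =
      ENNReal.ofReal (p * S ^ (p - 1) * S) + ENNReal.ofReal (Z ω ^ p) := fun ω => by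
    have hb := br_nonneg hp.le hS0 (h0 ω)
    rw [← ENNReal.ofReal_add (Real.rpow_nonneg hS0 _) hb,
      ← ENNReal.ofReal_add (mul_nonneg hq (h0 ω)) (add_nonneg (Real.rpow_nonneg hS0 _) hb),
      ← ENNReal.ofReal_add (mul_nonneg hq hS0) (Real.rpow_nonneg (h0 ω) _)]
    congr 1
    unfold br; ring
  have h := lintegral_congr (μ := μ) key
  rw [lintegral_add_left (by fun_prop), lintegral_add_left measurable_const,
    lintegral_add_left measurable_const, hZi, lintegral_const, lintegral_const,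
    measure_univ, mul_one, mul_one] at h
  exact (ENNReal.add_right_inj ENNReal.ofReal_ne_top).1 h

theorem gsup_swap {p : ℝ} {c : ℝ≥0∞}
    (hc : ∀ x : ℝ, 0 ≤ x → ∫⁻ r in Set.Ioi (0 : ℝ), ENNReal.ofReal (r ^ (-p - 1)) *
      ENNReal.ofReal (gsupK (r * x)) = c * ENNReal.ofReal (x ^ p))
    {Z : Ω → ℝ} (hZ : Measurable Z) (h0 : ∀ ω, 0 ≤ Z ω) :
    c * ∫⁻ ω, ENNReal.ofReal (Z ω ^ p) ∂μ = ∫⁻ r in Set.Ioi (0 : ℝ),
      ENNReal.ofReal (r ^ (-p - 1)) * ∫⁻ ω, ENNReal.ofReal (gsupK (r * Z ω)) ∂μ := by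
  have hK := continuous_gsupK.measurable
  rw [← lintegral_const_mul _ (by fun_prop)]
  simp only [fun ω => (hc (Z ω) (h0 ω)).symm]
  rw [lintegral_lintegral_swap (by fun_prop)]
  refine lintegral_congr fun r => ?_
  rw [lintegral_const_mul _ (by fun_prop)]

/-- Abstract superadditivity of the gain for positively associated variables. -/
theorem gsup_abs {p : ℝ} (hp : 1 < p) (hp2 : p < 2) {κ : Type} (B : Finset κ) (Y : κ → Ω → ℝ)
    (hY : ∀ b, Measurable (Y b)) (h0 : ∀ b ω, 0 ≤ Y b ω) (hi : ∀ b, Integrable (Y b) μ)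
    (y : κ → ℝ) (hy : ∀ b, ∫ ω, Y b ω ∂μ = y b)
    (hH : ∀ r : ℝ, 0 < r → ∏ b ∈ B, ∫⁻ ω, ENNReal.ofReal (Real.exp (-(r * Y b ω))) ∂μ ≤
      ∫⁻ ω, ∏ b ∈ B, ENNReal.ofReal (Real.exp (-(r * Y b ω))) ∂μ) {a : ℝ} (ha : 0 ≤ a) :
    ENNReal.ofReal ((a + ∑ b ∈ B, y b) ^ p) +
      ∑ b ∈ B, ∫⁻ ω, ENNReal.ofReal (br p (a + ∑ b ∈ B, y b)
        (a + ∑ b ∈ B, y b - y b + Y b ω)) ∂μ ≤
      ∫⁻ ω, ENNReal.ofReal ((a + ∑ b ∈ B, Y b ω) ^ p) ∂μ := by
  obtain ⟨c, hc0, hct, hc⟩ := gsup_laplace hp hp2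
  set S := a + ∑ b ∈ B, y b with hS
  have hy0 : ∀ b, 0 ≤ y b := fun b => hy b ▸ integral_nonneg (h0 b)
  have hyS : ∀ b ∈ B, y b ≤ S := fun b hb => by
    have := Finset.single_le_sum (fun b _ => hy0 b) hb
    linarith
  have hS0 : 0 ≤ S := add_nonneg ha (Finset.sum_nonneg fun b _ => hy0 b)
  set Z : κ → Ω → ℝ := fun b ω => S - y b + Y b ω with hZ
  set W : Ω → ℝ := fun ω => a + ∑ b ∈ B, Y b ω with hW
  have mZ : ∀ b, Measurable (Z b) := fun b => (hY b).const_add _
  have mW : Measurable W := (Finset.measurable_sum B fun b _ => hY b).const_add _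
  have Z0 : ∀ b ∈ B, ∀ ω, 0 ≤ Z b ω := fun b hb ω =>
    add_nonneg (sub_nonneg.2 (hyS b hb)) (h0 b ω)
  have W0 : ∀ ω, 0 ≤ W ω := fun ω => add_nonneg ha (Finset.sum_nonneg fun b _ => h0 b ω)
  have iZ : ∀ b, Integrable (Z b) μ := fun b => (integrable_const _).add (hi b)
  have iS : Integrable (fun ω => ∑ b ∈ B, Y b ω) μ := integrable_finsetSum B fun b _ => hi b
  have iW : Integrable W μ := (integrable_const _).add iS
  have eZ : ∀ b, ∫ ω, Z b ω ∂μ = S := fun b => by
    simp only [hZ]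
    rw [integral_add (integrable_const _) (hi b), hy b]; simp
  have eW : ∫ ω, W ω ∂μ = S := by
    simp only [hW]
    rw [integral_add (integrable_const _) iS, integral_finsetSum B fun b _ => hi b]
    simp [hy, hS]
  -- the inequality for a fixed Laplace parameter
  have fix : ∀ r : ℝ, 0 < r →
      ∑ b ∈ B, ∫⁻ ω, ENNReal.ofReal (gsupK (r * Z b ω)) ∂μ + ENNReal.ofReal (gsupK (r * S)) ≤
        ∫⁻ ω, ENNReal.ofReal (gsupK (r * W ω)) ∂μ +
          B.card * ENNReal.ofReal (gsupK (r * S)) := by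
    intro r hr
    set e : κ → ℝ := fun b => ∫ ω, Real.exp (-(r * Y b ω)) ∂μ with he
    have e0 : ∀ b, 0 ≤ e b := fun b => integral_nonneg fun ω => (Real.exp_pos _).le
    set u : κ → ℝ := fun b => Real.exp (r * y b) * e b with hu
    have u1 : ∀ b, 1 ≤ u b := fun b => by
      have := gsup_jensen (μ := μ) (hY b) (h0 b) (hi b) hr.le
      rwa [hy b] at this
    have hZe : ∀ b, ∫ ω, Real.exp (-(r * Z b ω)) ∂μ = Real.exp (-(r * S)) * u b := fun b => by
      simp only [hu, he, hZ]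
      rw [← mul_assoc, ← integral_const_mul]
      refine integral_congr_ae (Eventually.of_forall fun ω => ?_)
      simp only
      rw [← Real.exp_add, ← Real.exp_add]; congr 1; ring
    have hpr : ∀ ω, ∏ b ∈ B, Real.exp (-(r * Y b ω)) = Real.exp (-(r * ∑ b ∈ B, Y b ω)) :=
      fun ω => by rw [← Real.exp_sum, Finset.mul_sum, Finset.sum_neg_distrib]
    have mS : Measurable fun ω => ∑ b ∈ B, Y b ω := Finset.measurable_sum B fun b _ => hY b
    have hH' : ∏ b ∈ B, e b ≤ ∫ ω, Real.exp (-(r * ∑ b ∈ B, Y b ω)) ∂μ := by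
      have h1 := hH r hr
      have h2 : ∀ b, ∫⁻ ω, ENNReal.ofReal (Real.exp (-(r * Y b ω))) ∂μ = ENNReal.ofReal (e b) :=
        fun b => (ofReal_integral_eq_lintegral_ofReal (gsup_exp_int (hY b) (h0 b) hr.le)
          (Eventually.of_forall fun ω => (Real.exp_pos _).le)).symm
      simp only [h2] at h1
      rw [← ENNReal.ofReal_prod_of_nonneg fun b _ => e0 b] at h1
      simp only [fun ω => (ENNReal.ofReal_prod_of_nonneg (s := B)
        (f := fun b => Real.exp (-(r * Y b ω))) fun b _ => (Real.exp_pos _).le).symm, hpr] at h1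
      rw [← ofReal_integral_eq_lintegral_ofReal
        (gsup_exp_int mS (fun ω => Finset.sum_nonneg fun b _ => h0 b ω) hr.le)
        (Eventually.of_forall fun ω => (Real.exp_pos _).le)] at h1
      exact (ENNReal.ofReal_le_ofReal_iff (integral_nonneg fun ω => (Real.exp_pos _).le)).1 h1
    have hWe : Real.exp (-(r * S)) * ∏ b ∈ B, u b ≤ ∫ ω, Real.exp (-(r * W ω)) ∂μ := by
      have h1 : ∫ ω, Real.exp (-(r * W ω)) ∂μ =
          Real.exp (-(r * a)) * ∫ ω, Real.exp (-(r * ∑ b ∈ B, Y b ω)) ∂μ := by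
        rw [← integral_const_mul]
        refine integral_congr_ae (Eventually.of_forall fun ω => ?_)
        simp only [hW]
        rw [← Real.exp_add]; congr 1; ring
      have h2 : Real.exp (-(r * S)) * ∏ b ∈ B, u b = Real.exp (-(r * a)) * ∏ b ∈ B, e b := by
        simp only [hu]
        rw [Finset.prod_mul_distrib, ← Real.exp_sum, ← mul_assoc, ← Real.exp_add,
          ← Finset.mul_sum, hS]
        congr 2; ring
      rw [h1, h2]
      exact mul_le_mul_of_nonneg_left hH' (Real.exp_pos _).le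
    have hZK : ∀ b ∈ B, ∫⁻ ω, ENNReal.ofReal (gsupK (r * Z b ω)) ∂μ =
        ENNReal.ofReal (Real.exp (-(r * S)) * u b - 1 + r * S) := fun b hb => by
      rw [gsup_K_exp (mZ b) (Z0 b hb) (iZ b) hr.le, hZe, eZ]
    have hnn : ∀ b, 0 ≤ Real.exp (-(r * S)) * u b - 1 + r * S := fun b => by
      have h1 := gsupK_nonneg (r * S)
      have h2 := mul_le_mul_of_nonneg_left (u1 b) (Real.exp_pos (-(r * S))).le
      unfold gsupK at h1; linarith
    have hP := gsup_prod B u fun b _ => u1 b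
    have hP1 : 1 ≤ ∏ b ∈ B, u b := Finset.prod_induction u (fun x => 1 ≤ x)
      (fun _ _ h h' => one_le_mul_of_one_le_of_one_le h h') le_rfl fun b _ => u1 b
    have hK := gsupK_nonneg (r * S)
    have hE := Real.exp_pos (-(r * S))
    have hWn : 0 ≤ ∫ ω, Real.exp (-(r * W ω)) ∂μ - 1 + r * S := by
      have h2 := mul_le_mul_of_nonneg_left hP1 hE.le
      unfold gsupK at hK; linarith
    rw [Finset.sum_congr rfl hZK, gsup_K_exp mW W0 iW hr.le, eW,
      ← ENNReal.ofReal_sum_of_nonneg fun b _ => hnn b,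
      ← ENNReal.ofReal_add (Finset.sum_nonneg fun b _ => hnn b) hK, ← ENNReal.ofReal_natCast,
      ← ENNReal.ofReal_mul (Nat.cast_nonneg _),
      ← ENNReal.ofReal_add hWn (mul_nonneg (Nat.cast_nonneg _) hK)]
    refine ENNReal.ofReal_le_ofReal ?_
    rw [Finset.sum_add_distrib, Finset.sum_sub_distrib, ← Finset.mul_sum]
    simp only [Finset.sum_const, nsmul_eq_mul, mul_one]
    have h3 := mul_le_mul_of_nonneg_left hP hE.le
    unfold gsupK
    nlinarith
  -- integrate over the Laplace parameter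
  have hK := continuous_gsupK.measurable
  have main : ∑ b ∈ B, ∫⁻ ω, ENNReal.ofReal (Z b ω ^ p) ∂μ + ENNReal.ofReal (S ^ p) ≤
      ∫⁻ ω, ENNReal.ofReal (W ω ^ p) ∂μ + B.card * ENNReal.ofReal (S ^ p) := by
    refine (ENNReal.mul_le_mul_iff_right hc0 hct).1 ?_
    rw [mul_add, mul_add, Finset.mul_sum, mul_left_comm, ← hc S hS0, gsup_swap hc mW W0,
      Finset.sum_congr rfl fun b hb => gsup_swap hc (mZ b) (Z0 b hb),
      ← lintegral_finsetSum, ← lintegral_add_right _ (by fun_prop),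
      ← lintegral_const_mul _ (by fun_prop), ← lintegral_add_right _ (by fun_prop)]
    · refine setLIntegral_mono' measurableSet_Ioi fun r hr => ?_
      rw [← Finset.mul_sum, ← mul_add, mul_left_comm, ← mul_add]
      exact mul_le_mul_right (fix r hr) _
    · intro b _
      refine Measurable.mul (by fun_prop) ?_
      have := mZ b
      exact Measurable.lintegral_prod_right' (f := fun q : ℝ × Ω =>
        ENNReal.ofReal (gsupK (q.1 * Z b q.2))) (by fun_prop)
  rw [← Finset.sum_congr rfl fun b hb => gsup_br hp (mZ b) (Z0 b hb) (iZ b) (eZ b),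
    Finset.sum_add_distrib, Finset.sum_const, nsmul_eq_mul] at main
  have hfin : (B.card : ℝ≥0∞) * ENNReal.ofReal (S ^ p) ≠ ⊤ :=
    ENNReal.mul_ne_top (ENNReal.natCast_ne_top _) ENNReal.ofReal_ne_top
  refine (ENNReal.add_le_add_iff_right hfin).1 (le_trans (le_of_eq ?_) main)
  ring

end Pool.Agent.Lib.MP_153faa_pr
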