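import Mathlib
import Pool.Agent.Lib.MP_153faa_pr.GRes2
import Pool.Agent.Lib.MP_153faa_pr.GFlat
import Pool.Agent.Lib.MP_153faa_pr.GSup1

set_option autoImplicit false

open MeasureTheory Filter Topology
open scoped ENNReal NNReal

namespace Pool.Agent.Lib.MP_153faa_pr

variable {d : ℕ}

theorem gsup_meas_lin (g : Prof d) : Measurable (lin g : Prof d → ℝ≥0∞) :=
  measurable_lin2.comp (measurable_const.prodMk measurable_id)

theorem gsup_lin_mono (g : Prof d) {f f' : Prof d} (h : f ≤ f') : lin g f ≤ lin g f' :=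
  ENNReal.tsum_le_tsum fun x => mul_le_mul_left (h x) _

theorem gsup_lin_add (g f f' : Prof d) : lin g (f + f') = lin g f + lin g f' := by
  simp only [lin, Pi.add_apply, add_mul, ENNReal.tsum_add]

theorem gsup_lin_zero (g : Prof d) : lin g 0 = 0 := by simp [lin]

theorem gsup_lin_sum {κ : Type} (g : Prof d) (B : Finset κ) (F : κ → Prof d) :
    lin g (∑ b ∈ B, F b) = ∑ b ∈ B, lin g (F b) := by
  classical
  induction B using Finset.induction_on with
  | empty => simp [gsup_lin_zero]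
  | insert a s ha ih => rw [Finset.sum_insert ha, Finset.sum_insert ha, gsup_lin_add, ih]

theorem gsup_ev_zero (n : ℕ) (ω : ℕ → Layer d) : ev n ω (0 : Prof d) = 0 := by
  have := ev_smul n ω 0 (0 : Prof d)
  simp only [zero_mul] at this
  exact this

theorem gsup_ev_sum {κ : Type} (n : ℕ) (ω : ℕ → Layer d) (B : Finset κ) (F : κ → Prof d) :
    ev n ω (∑ b ∈ B, F b) = ∑ b ∈ B, ev n ω (F b) := by
  classical
  induction B using Finset.induction_on with
  | empty => simp [gsup_ev_zero]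
  | insert a s ha ih => rw [Finset.sum_insert ha, Finset.sum_insert ha, ev_add, ih]

theorem gsup_avg_zero (n : ℕ) : avg^[n] (0 : Prof d) = 0 :=
  Function.iterate_fixed avg_zero n

theorem gsup_avg_sum {κ : Type} (n : ℕ) (B : Finset κ) (F : κ → Prof d) :
    avg^[n] (∑ b ∈ B, F b) = ∑ b ∈ B, avg^[n] (F b) := by
  classical
  induction B using Finset.induction_on with
  | empty => simp [gsup_avg_zero]
  | insert a s ha ih => rw [Finset.sum_insert ha, Finset.sum_insert ha, avg_iter_add, ih]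

theorem gsup_mean {ρ : Measure ℝ≥0} [IsProbabilityMeasure ρ] (hm : Mean1 ρ) (g f : Prof d)
    (n : ℕ) : ∫⁻ ω, lin g (ev n ω f) ∂env d ρ = lin g (avg^[n] f) := by
  rw [← T_iter_eq n (gsup_meas_lin g)]
  have h := T_iter_lin hm n g f
  have e : (lin g : Prof d → ℝ≥0∞) = fun u => ∑' x, g x * u x := by
    funext u; simp only [lin, mul_comm]
  rw [e, h]

theorem gsup_meas_curry :
    Measurable (Function.curry : (ℕ × Site d → ℝ≥0) → ℕ → Layer d) :=
  measurable_pi_lambda _ fun k => measurable_pi_lambda _ fun x => measurable_pi_apply (k, x)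

/-- Superadditivity of the gain (Laplace transform and Harris inequality). -/
theorem sup_add (hd : 1 ≤ d) {ρ : Measure ℝ≥0} [IsProbabilityMeasure ρ] (hm : Mean1 ρ) {p : ℝ}
    (hp : 1 < p) (hp2 : p < 2) {κ : Type} (B : Finset κ) (F : κ → Prof d) (hF : ∀ b, Nice (F b))
    (g : Prof d) (hg : ∀ x, g x ≠ ⊤) (n : ℕ) {a : ℝ} (ha : 0 ≤ a) :
    ENNReal.ofReal ((a + ∑ b ∈ B, (lin g (avg^[n] (F b))).toReal) ^ p) +
      ∑ b ∈ B, ∫⁻ ω, ENNReal.ofReal (br p (a + ∑ b ∈ B, (lin g (avg^[n] (F b))).toReal)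
        (a + ∑ b ∈ B, (lin g (avg^[n] (F b))).toReal - (lin g (avg^[n] (F b))).toReal +
          (lin g (ev n ω (F b))).toReal)) ∂env d ρ ≤
      ∫⁻ ω, (ENNReal.ofReal a + ∑ b ∈ B, lin g (ev n ω (F b))) ^ p ∂env d ρ := by
  classical
  have hfin : ∀ b ω, lin g (ev n ω (F b)) ≠ ⊤ := fun b ω =>
    ((hF b).of_ev hd n ω).lin_ne_top hg
  have hme : ∀ b, Measurable fun ω : ℕ → Layer d => lin g (ev n ω (F b)) := fun b =>
    (gsup_meas_lin g).comp (measurable_ev n (F b))
  have hY : ∀ b, Measurable fun ω : ℕ → Layer d => (lin g (ev n ω (F b))).toReal := fun b =>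
    (hme b).ennreal_toReal
  have hyf : ∀ b, ∫⁻ ω, lin g (ev n ω (F b)) ∂env d ρ ≠ ⊤ := fun b => by
    rw [gsup_mean hm]; exact ((hF b).of_avg_iter hd n).lin_ne_top hg
  have h := gsup_abs (μ := env d ρ) hp hp2 B (fun b ω => (lin g (ev n ω (F b))).toReal) hY
    (fun b ω => ENNReal.toReal_nonneg)
    (fun b => integrable_toReal_of_lintegral_ne_top (hme b).aemeasurable (hyf b))
    (fun b => (lin g (avg^[n] (F b))).toReal)
    (fun b => by
      rw [integral_toReal (hme b).aemeasurable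
        (Eventually.of_forall fun ω => (hfin b ω).lt_top), gsup_mean hm]) ?_ ha
  · refine h.trans (le_of_eq (lintegral_congr fun ω => ?_))
    rw [← ENNReal.ofReal_rpow_of_nonneg
      (add_nonneg ha (Finset.sum_nonneg fun b _ => ENNReal.toReal_nonneg)) (by linarith),
      ENNReal.ofReal_add ha (Finset.sum_nonneg fun b _ => ENNReal.toReal_nonneg),
      ENNReal.ofReal_sum_of_nonneg fun b _ => ENNReal.toReal_nonneg]
    simp only [ENNReal.ofReal_toReal (hfin _ _)]
  · intro r hr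
    have hE : ∀ b, Measurable fun ω : ℕ → Layer d =>
        ENNReal.ofReal (Real.exp (-(r * (lin g (ev n ω (F b))).toReal))) := fun b =>
      (((hY b).const_mul r).neg.exp).ennreal_ofReal
    rw [lintegral_env_flat (Finset.measurable_prod B fun b _ => hE b)]
    simp only [fun b => lintegral_env_flat (ρ := ρ) (hE b)]
    refine harris_flat ρ B (fun b ω => ENNReal.ofReal (Real.exp
      (-(r * (lin g (ev n (Function.curry ω) (F b))).toReal))))
      (fun b => (hE b).comp gsup_meas_curry) (fun b => ?_) (fun b ω ω' h => ?_) (fun b ω => ?_)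
    · obtain ⟨s, hs⟩ := ev_dep (hF b) n
      exact ⟨s, fun ω ω' h => by simp only [hs (Function.curry ω) (Function.curry ω') h]⟩
    · refine ENNReal.ofReal_le_ofReal (Real.exp_le_exp.2 (neg_le_neg ?_))
      refine mul_le_mul_of_nonneg_left (ENNReal.toReal_mono (hfin b _) ?_) hr.le
      exact gsup_lin_mono g (ev_mono_env n (fun k x => h (k, x)) _)
    · refine ENNReal.ofReal_le_one.2 (Real.exp_le_one_iff.2 ?_)
      exact neg_nonpos.2 (mul_nonneg hr.le ENNReal.toReal_nonneg)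

theorem gsup_nice {κ : Type} {B : Finset κ} {F : κ → Prof d} {f : Prof d} (_hf : Nice f)
    (hF : ∀ x, ∑ b ∈ B, F b x ≤ f x) {b : κ} (hb : b ∈ B) : F b ≤ f := fun x =>
  (Finset.single_le_sum (f := fun b => F b x) (fun _ _ => zero_le) hb).trans (hF x)

/-- Superadditivity for pieces of a given profile. -/
theorem gsup_rest (hd : 1 ≤ d) {ρ : Measure ℝ≥0} [IsProbabilityMeasure ρ] (hm : Mean1 ρ) {p : ℝ}
    (hp : 1 < p) (hp2 : p < 2) {κ : Type} (B : Finset κ) (F : κ → Prof d) {f : Prof d}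
    (hf : Nice f) (hF : ∀ x, ∑ b ∈ B, F b x ≤ f x)
    (g : Prof d) (hg : ∀ x, g x ≠ ⊤) (n : ℕ) {a : ℝ} (ha : 0 ≤ a) :
    ENNReal.ofReal ((a + (lin g (avg^[n] f)).toReal) ^ p) +
      ∑ b ∈ B, ∫⁻ ω, ENNReal.ofReal (br p (a + (lin g (avg^[n] f)).toReal)
        (a + (lin g (avg^[n] f)).toReal - (lin g (avg^[n] (F b))).toReal +
          (lin g (ev n ω (F b))).toReal)) ∂env d ρ ≤
      ∫⁻ ω, (ENNReal.ofReal a + lin g (ev n ω f)) ^ p ∂env d ρ := by
  classical
  let G : Option κ → Prof d := fun o =>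
    o.elim (fun x => f x - ∑ b ∈ B, F b x) fun b => if b ∈ B then F b else 0
  have hG : ∀ o, Nice (G o) := by
    rintro (_ | b)
    · exact hf.of_le fun x => tsub_le_self
    · by_cases hb : b ∈ B
      · simp only [G, Option.elim, if_pos hb]; exact hf.of_le (gsup_nice hf hF hb)
      · simp only [G, Option.elim, if_neg hb]; exact nice_zero
  have hGb : ∀ b ∈ B, G (some b) = F b := fun b hb => by simp only [G, Option.elim, if_pos hb]
  have hsum : ∑ o ∈ Finset.insertNone B, G o = f := by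
    rw [Finset.sum_insertNone, Finset.sum_congr rfl hGb]
    funext x
    simp only [G, Option.elim, Pi.add_apply, Finset.sum_apply]
    exact tsub_add_cancel_of_le (hF x)
  have h := sup_add hd hm hp hp2 (Finset.insertNone B) G hG g hg n ha
  have e1 : ∑ o ∈ Finset.insertNone B, (lin g (avg^[n] (G o))).toReal =
      (lin g (avg^[n] f)).toReal := by
    rw [← ENNReal.toReal_sum fun o _ => ((hG o).of_avg_iter hd n).lin_ne_top hg, ← gsup_lin_sum,
      ← gsup_avg_sum, hsum]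
  have e2 : ∀ ω, ∑ o ∈ Finset.insertNone B, lin g (ev n ω (G o)) = lin g (ev n ω f) := fun ω => by
    rw [← gsup_lin_sum, ← gsup_ev_sum, hsum]
  simp only [e1, e2] at h
  refine le_trans ?_ h
  rw [Finset.sum_insertNone]
  refine add_le_add le_rfl (le_trans (le_of_eq ?_) le_add_self)
  exact Finset.sum_congr rfl fun b hb => by rw [hGb b hb]

/-- Lower bound of the gain by the gains of the pieces. -/
theorem box_low (hd : 1 ≤ d) {ρ : Measure ℝ≥0} [IsProbabilityMeasure ρ] (hm : Mean1 ρ) {p l : ℝ}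
    (hp : 1 < p) (hp2 : p < 2) (h0 : 0 < l) (h1 : l < 1) {κ : Type} (B : Finset κ)
    (F : κ → Prof d) {f : Prof d} (hf : Nice f) (hF : ∀ x, ∑ b ∈ B, F b x ≤ f x) {c : ℝ}
    (hc : 0 ≤ c) :
    ∑ b ∈ B, XX ρ p l (ENNReal.ofReal (c + mr f - mr (F b))) (F b) ≤
      XX ρ p l (ENNReal.ofReal c) f := by
  have hS0 : 0 ≤ c + mr f := add_nonneg hc ENNReal.toReal_nonneg
  have hn : ∀ n, ENNReal.ofReal ((c + mr f) ^ p) +
      ∑ b ∈ B, ∫⁻ ω, ENNReal.ofReal (br p (c + mr f) (c + mr f - mr (F b) +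
        mr (ev n ω (F b)))) ∂env d ρ ≤
      ∫⁻ ω, (ENNReal.ofReal c + mass (ev n ω f)) ^ p ∂env d ρ := fun n => by
    have h := gsup_rest hd hm hp hp2 B F hf hF (fun _ => 1) (fun _ => ENNReal.one_ne_top) n hc
    simpa only [lin_one, mass_avg_iter hd, mr] using h
  have hX : ∀ b ∈ B, XX ρ p l (ENNReal.ofReal (c + mr f - mr (F b))) (F b) =
      ∑' n, wt l n * ∫⁻ ω, ENNReal.ofReal (br p (c + mr f) (c + mr f - mr (F b) +
        mr (ev n ω (F b)))) ∂env d ρ := fun b hb => by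
    have hle : mr (F b) ≤ mr f :=
      ENNReal.toReal_mono hf.mass_ne_top (mass_mono (gsup_nice hf hF hb))
    rw [XX_br hd hm hp h0 h1 (by linarith) (hf.of_le (gsup_nice hf hF hb)), sub_add_cancel,
      Res_env]
    exact ((measurable_br p).comp
      (measurable_const.prodMk (measurable_mr.const_add _))).ennreal_ofReal
  have e : (ENNReal.ofReal c + mass f) ^ p = ENNReal.ofReal ((c + mr f) ^ p) := by
    rw [← hf.ofReal_mr, ← ENNReal.ofReal_add hc (show 0 ≤ mr f from ENNReal.toReal_nonneg),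
      ENNReal.ofReal_rpow_of_nonneg hS0 (by linarith)]
  have h2 := XX_add hd hm hp.le h0 h1 (ENNReal.ofReal c) f
  rw [e, Res_env ((measurable_mass.const_add _).pow_const p)] at h2
  refine (ENNReal.add_le_add_iff_right (a := ENNReal.ofReal ((c + mr f) ^ p))
    ENNReal.ofReal_ne_top).1 ?_
  rw [h2, Finset.sum_congr rfl hX, ← Summable.tsum_finsetSum fun _ _ => ENNReal.summable]
  calc _ = ∑' n, wt l n * (ENNReal.ofReal ((c + mr f) ^ p) +
        ∑ b ∈ B, ∫⁻ ω, ENNReal.ofReal (br p (c + mr f) (c + mr f - mr (F b) +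
          mr (ev n ω (F b)))) ∂env d ρ) := by
        simp only [mul_add, ENNReal.tsum_add, ENNReal.tsum_mul_right, wt_tsum h0 h1, one_mul,
          Finset.mul_sum]
        rw [add_comm]
    _ ≤ _ := ENNReal.tsum_le_tsum fun n => mul_le_mul_right (hn n) _

theorem gsup_swap_HH {ρ : Measure ℝ≥0} [IsProbabilityMeasure ρ] (p l : ℝ)
    {A : (ℕ → Layer d) → ℝ≥0∞} (hA : Measurable A) (n : ℕ) (f : Prof d) :
    ∑' k, wt l k * ∫⁻ η, ∫⁻ ω, A ω * lin (AW k η) (ev n ω f) ^ p ∂env d ρ ∂env d ρ =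
      ∫⁻ ω, A ω * HH ρ p l (ev n ω f) ∂env d ρ := by
  have hm : ∀ k, Measurable fun q : (ℕ → Layer d) × (ℕ → Layer d) =>
      lin (AW k q.2) (ev n q.1 f) ^ p := fun k =>
    (measurable_lin2.comp (((measurable_AW k).comp measurable_snd).prodMk
      ((measurable_ev n f).comp measurable_fst))).pow_const p
  have hm2 : ∀ k, Measurable fun ω : ℕ → Layer d =>
      ∫⁻ η, lin (AW k η) (ev n ω f) ^ p ∂env d ρ := fun k => (hm k).lintegral_prod_right'
  simp only [HH_lin, ← ENNReal.tsum_mul_left]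
  rw [lintegral_tsum (f := fun k ω => A ω * (wt l k *
    ∫⁻ η, lin (AW k η) (ev n ω f) ^ p ∂env d ρ))
    fun k => (hA.mul ((hm2 k).const_mul _)).aemeasurable]
  refine tsum_congr fun k => ?_
  rw [← lintegral_lintegral_swap (f := fun ω η => A ω * lin (AW k η) (ev n ω f) ^ p)
    ((hA.comp measurable_fst).mul (hm k)).aemeasurable,
    ← lintegral_const_mul' (wt l k) _ ENNReal.ofReal_ne_top]
  refine lintegral_congr fun ω => ?_
  rw [lintegral_const_mul (f := fun η => lin (AW k η) (ev n ω f) ^ p) _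
    ((hm k).comp (measurable_const.prodMk measurable_id)), mul_left_comm]

theorem gsup_layer (hd : 1 ≤ d) {ρ : Measure ℝ≥0} [IsProbabilityMeasure ρ] (hm : Mean1 ρ) {p : ℝ}
    (hp : 1 < p) (hp2 : p < 2) {κ : Type} (B : Finset κ) (F : κ → Prof d) {f : Prof d}
    (hf : Nice f) (hF : ∀ x, ∑ b ∈ B, F b x ≤ f x) (g : Prof d) (hg : ∀ x, g x ≠ ⊤) (n : ℕ)
    (A : κ → (ℕ → Layer d) → ℝ≥0∞) (hA : ∀ b, Measurable (A b)) (hA1 : ∀ b ω, A b ω ≤ 1) :
    lin g (avg^[n] f) ^ p + ENNReal.ofReal ((p - 1) / 16) *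
        ∑ b ∈ B, ∫⁻ ω, A b ω * lin g (ev n ω (F b)) ^ p ∂env d ρ ≤
      ∫⁻ ω, 1 * lin g (ev n ω f) ^ p ∂env d ρ +
        lin g (avg^[n] f) ^ p * ∑ b ∈ B, ∫⁻ ω, A b ω ∂env d ρ := by
  have h := gsup_rest hd hm hp hp2 B F hf hF g hg n le_rfl
  simp only [zero_add, ENNReal.ofReal_zero] at h
  have hfin := (hf.of_avg_iter hd n).lin_ne_top hg
  have e : ENNReal.ofReal ((lin g (avg^[n] f)).toReal ^ p) = lin g (avg^[n] f) ^ p := by
    rw [← ENNReal.ofReal_rpow_of_nonneg ENNReal.toReal_nonneg (by linarith),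
      ENNReal.ofReal_toReal hfin]
  rw [e] at h
  simp only [one_mul]
  refine le_trans ?_ (add_le_add h le_rfl)
  rw [add_assoc, Finset.mul_sum, Finset.mul_sum, ← Finset.sum_add_distrib]
  refine add_le_add le_rfl (Finset.sum_le_sum fun b hb => ?_)
  have hb' := hf.of_le (gsup_nice hf hF hb)
  rw [← lintegral_const_mul' _ _ ENNReal.ofReal_ne_top, ← lintegral_const_mul _ (hA b),
    ← lintegral_add_right _ ((hA b).const_mul _)]
  refine lintegral_mono fun ω => ?_
  have hY := (hb'.of_ev hd n ω).lin_ne_top hg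
  set S := (lin g (avg^[n] f)).toReal with hS
  have hy : (lin g (avg^[n] (F b))).toReal ≤ S :=
    ENNReal.toReal_mono hfin (gsup_lin_mono g (avg_iter_mono n (gsup_nice hf hF hb)))
  set y := (lin g (avg^[n] (F b))).toReal
  have hS0 : 0 ≤ S := ENNReal.toReal_nonneg
  have hY0 : 0 ≤ (lin g (ev n ω (F b))).toReal := ENNReal.toReal_nonneg
  have hx : 0 ≤ S - y + (lin g (ev n ω (F b))).toReal := by linarith
  have h1 := pow_le_br hp.le hp2.le hS0 hx
  have h2 : (lin g (ev n ω (F b))).toReal ^ p ≤ (S - y + (lin g (ev n ω (F b))).toReal) ^ p :=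
    Real.rpow_le_rpow hY0 (by linarith) (by linarith)
  have hq : 0 ≤ (p - 1) / 16 := by linarith
  have h3 : ENNReal.ofReal ((p - 1) / 16) * lin g (ev n ω (F b)) ^ p ≤
      ENNReal.ofReal (br p S (S - y + (lin g (ev n ω (F b))).toReal)) + lin g (avg^[n] f) ^ p := by
    rw [← e, ← ENNReal.ofReal_add (br_nonneg hp.le hS0 hx) (Real.rpow_nonneg hS0 _)]
    conv_lhs => rw [← ENNReal.ofReal_toReal hY]
    rw [ENNReal.ofReal_rpow_of_nonneg hY0 (by linarith), ← ENNReal.ofReal_mul hq]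
    exact ENNReal.ofReal_le_ofReal ((mul_le_mul_of_nonneg_left h2 hq).trans h1)
  calc ENNReal.ofReal ((p - 1) / 16) * (A b ω * lin g (ev n ω (F b)) ^ p)
      = A b ω * (ENNReal.ofReal ((p - 1) / 16) * lin g (ev n ω (F b)) ^ p) := by ring
    _ ≤ A b ω * (ENNReal.ofReal (br p S (S - y + (lin g (ev n ω (F b))).toReal)) +
          lin g (avg^[n] f) ^ p) := mul_le_mul_right h3 _
    _ ≤ _ := by
        rw [mul_add, mul_comm (A b ω) (lin g (avg^[n] f) ^ p)]
        exact add_le_add (mul_le_of_le_one_left' (hA1 b ω)) le_rfl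

theorem gsup_stage (hd : 1 ≤ d) {ρ : Measure ℝ≥0} [IsProbabilityMeasure ρ] (hm : Mean1 ρ)
    {p : ℝ} (hp : 1 < p) (hp2 : p < 2) (l : ℝ) {κ : Type} (B : Finset κ) (F : κ → Prof d)
    {f : Prof d} (hf : Nice f) (hF : ∀ x, ∑ b ∈ B, F b x ≤ f x) {S : Set (Prof d)}
    (hS : MeasurableSet S) (n : ℕ) :
    HH ρ p l (avg^[n] f) + ENNReal.ofReal ((p - 1) / 16) *
        ∑ b ∈ B, Th ρ S (HH ρ p l) n (F b) ≤
      (T ρ)^[n] (HH ρ p l) f + HH ρ p l (avg^[n] f) * ∑ b ∈ B, hit ρ S n (F b) := by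
  classical
  let A : κ → (ℕ → Layer d) → ℝ≥0∞ := fun b ω => if ∃ k ≤ n, ev k ω (F b) ∈ S then 1 else 0
  have hA : ∀ b, Measurable (A b) := fun b => by
    refine Measurable.ite ?_ measurable_const measurable_const
    have : {ω : ℕ → Layer d | ∃ k ≤ n, ev k ω (F b) ∈ S} =
        ⋃ k, ⋃ _ : k ≤ n, (fun ω => ev k ω (F b)) ⁻¹' S := by
      ext ω; simp
    rw [this]
    exact MeasurableSet.iUnion fun k => MeasurableSet.iUnion fun _ => measurable_ev k (F b) hS
  have hA1 : ∀ b ω, A b ω ≤ 1 := fun b ω => by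
    simp only [A]; split_ifs <;> simp
  have e1 : ∀ b, hit ρ S n (F b) = ∫⁻ ω, A b ω ∂env d ρ := fun b => by
    rw [← Th_one, Th_env hS measurable_const]
  have e2 : ∀ b, Th ρ S (HH ρ p l) n (F b) =
      ∑' k, wt l k * ∫⁻ η, ∫⁻ ω, A b ω * lin (AW k η) (ev n ω (F b)) ^ p ∂env d ρ ∂env d ρ :=
    fun b => by
      rw [gsup_swap_HH p l (hA b), Th_env hS measurable_HH]
      refine lintegral_congr fun ω => ?_
      simp only [A]; split_ifs <;> simp
  have e3 : (T ρ)^[n] (HH ρ p l) f =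
      ∑' k, wt l k * ∫⁻ η, ∫⁻ ω, 1 * lin (AW k η) (ev n ω f) ^ p ∂env d ρ ∂env d ρ := by
    rw [gsup_swap_HH p l (A := fun _ => 1) measurable_const, T_iter_eq n measurable_HH]
    simp only [one_mul]
  have hL : ∀ k, Measurable fun η : ℕ → Layer d => lin (AW k η) (avg^[n] f) ^ p := fun k =>
    (measurable_lin2.comp ((measurable_AW k).prodMk measurable_const)).pow_const p
  have hM : ∀ k b, Measurable fun η : ℕ → Layer d =>
      ∫⁻ ω, A b ω * lin (AW k η) (ev n ω (F b)) ^ p ∂env d ρ := fun k b =>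
    Measurable.lintegral_prod_right' (f := fun q : (ℕ → Layer d) × (ℕ → Layer d) =>
      A b q.2 * lin (AW k q.1) (ev n q.2 (F b)) ^ p) (((hA b).comp measurable_snd).mul
      ((measurable_lin2.comp (((measurable_AW k).comp measurable_fst).prodMk
        ((measurable_ev n (F b)).comp measurable_snd))).pow_const p))
  simp only [e1, e2, e3]
  rw [HH_lin, ← Summable.tsum_finsetSum fun _ _ => ENNReal.summable, ← ENNReal.tsum_mul_left,
    ← ENNReal.tsum_mul_right, ← ENNReal.tsum_add, ← ENNReal.tsum_add]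
  refine ENNReal.tsum_le_tsum fun k => ?_
  rw [← Finset.mul_sum, mul_left_comm, ← mul_add, mul_assoc, ← mul_add]
  refine mul_le_mul_right ?_ _
  rw [← lintegral_finsetSum B fun b _ => hM k b,
    ← lintegral_const_mul' _ _ ENNReal.ofReal_ne_top, ← lintegral_add_left (hL k),
    ← lintegral_mul_const _ (hL k), ← lintegral_add_right _ ((hL k).mul_const _)]
  exact lintegral_mono fun η =>
    gsup_layer hd hm hp hp2 B F hf hF (AW k η) (AW_ne_top hd k η) n A hA hA1

/-- Creation of localised mass in a first stage. -/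
theorem blk (hd : 3 ≤ d) : ∃ C : ℝ, 1 ≤ C ∧
    ∀ (ρ : Measure ℝ≥0) [IsProbabilityMeasure ρ], Mean1 ρ → ∀ p l l' t : ℝ, 1 + 1 / d ≤ p →
      p ≤ q0 d → 0 < l → l < 1 → 0 < l' → l' < 1 → OO d ρ p l' ≠ ⊤ → C ≤ t →
      ∀ {κ : Type} (B : Finset κ) (F : κ → Prof d) (f : Prof d), Nice f → mass f ≤ 1 →
        (∀ x, ∑ b ∈ B, F b x ≤ f x) →
        Det l (HH ρ p l') f + OO d ρ p l' * ∑ b ∈ B, Yv ρ l (F b) (ENNReal.ofReal t) ≤
          Res ρ l (HH ρ p l') f := by
  have hd3 : (3 : ℝ) ≤ d := by exact_mod_cast hd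
  refine ⟨32 * d, by linarith, ?_⟩
  intro ρ _ hm p l l' t hp1 hpq h0 h1 h0' h1' hO ht κ B F f hf hf1 hF
  have hd1 : 1 ≤ d := by omega
  have hdpos : (0 : ℝ) < d := by linarith
  have hinv : (0 : ℝ) < 1 / d := by positivity
  have hp : 1 < p := by linarith
  have hp2 : p < 2 := by
    have : (2 : ℝ) / d < 1 := (div_lt_one hdpos).2 (by linarith)
    unfold q0 at hpq; linarith
  have hS := measurableSet_setY (d := d) (ENNReal.ofReal t)
  set S := setY d (ENNReal.ofReal t) with hSdef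
  set O := OO d ρ p l' with hOdef
  set q := ENNReal.ofReal ((p - 1) / 16) with hq
  have ht1 : 1 ≤ t := by linarith
  -- the constant
  have hconst : 2 ≤ q * ENNReal.ofReal t ^ p := by
    rw [hq, ENNReal.ofReal_rpow_of_nonneg (by linarith) (by linarith),
      ← ENNReal.ofReal_mul (by linarith), ← ENNReal.ofReal_ofNat]
    refine ENNReal.ofReal_le_ofReal ?_
    have h2 : t ≤ t ^ p := Real.self_le_rpow_of_one_le ht1 hp.le
    have h3 : (1 / d : ℝ) * d = 1 := by field_simp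
    have h4 : (1 / d : ℝ) * (32 * d) ≤ (p - 1) * t ^ p :=
      mul_le_mul (by linarith) (by linarith) (by linarith) (by linarith)
    nlinarith
  -- the reward after hitting
  have hTh : ∀ b ∈ B, ENNReal.ofReal t ^ p * O * Yv ρ l (F b) (ENNReal.ofReal t) ≤
      ∑' n, wt l n * Th ρ S (HH ρ p l') n (F b) := fun b hb => by
    rw [← U_Res_eq hS h0 h1 measurable_HH, Yv,
      ← U_const_mul hS measurable_const measurable_const]
    refine U_mono hd1 (fun g _ hg => ?_) (fun g _ _ => by simp) (hf.of_le (gsup_nice hf hF hb))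
    obtain ⟨x, hx⟩ := hg
    rw [mul_one]
    refine le_trans ?_ (HH_le_Res hd1 hm hp.le h0 h1 h0' h1' g)
    refine le_trans ?_ (site_le_HH hp.le g x)
    exact mul_le_mul_left (ENNReal.rpow_le_rpow hx (by linarith)) _
  have hYv : ∀ b, Yv ρ l (F b) (ENNReal.ofReal t) = ∑' n, wt l n * hit ρ S n (F b) := fun b =>
    U_hit_eq hS h0 h1 (F b)
  have hHO : ∀ n, HH ρ p l' (avg^[n] f) ≤ O := fun n => by
    refine (HH_le hp.le _).trans (mul_le_of_le_one_right' ?_)
    rw [mq, mass_avg_iter hd1]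
    exact ENNReal.rpow_le_one hf1 (by linarith)
  set sy := ∑ b ∈ B, Yv ρ l (F b) (ENNReal.ofReal t) with hsy
  have hfin : O * sy ≠ ⊤ := ENNReal.mul_ne_top hO
    (ENNReal.sum_ne_top.2 fun b _ => ne_top_of_le_ne_top ENNReal.one_ne_top (Yv_le_one h0 h1 _ _))
  refine (ENNReal.add_le_add_iff_right hfin).1 ?_
  calc Det l (HH ρ p l') f + O * sy + O * sy = Det l (HH ρ p l') f + 2 * (O * sy) := by ring
    _ ≤ Det l (HH ρ p l') f + q * ENNReal.ofReal t ^ p * (O * sy) :=
        add_le_add le_rfl (mul_le_mul_left hconst _)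
    _ = Det l (HH ρ p l') f +
          q * ∑ b ∈ B, ENNReal.ofReal t ^ p * O * Yv ρ l (F b) (ENNReal.ofReal t) := by
        rw [← Finset.mul_sum]; ring
    _ ≤ Det l (HH ρ p l') f + q * ∑ b ∈ B, ∑' n, wt l n * Th ρ S (HH ρ p l') n (F b) :=
        add_le_add le_rfl (mul_le_mul_right (Finset.sum_le_sum hTh) _)
    _ = ∑' n, wt l n * (HH ρ p l' (avg^[n] f) + q * ∑ b ∈ B, Th ρ S (HH ρ p l') n (F b)) := by
        rw [← Summable.tsum_finsetSum fun _ _ => ENNReal.summable, ← ENNReal.tsum_mul_left, Det,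
          ← ENNReal.tsum_add]
        refine tsum_congr fun n => ?_
        rw [← Finset.mul_sum]; ring
    _ ≤ ∑' n, wt l n * ((T ρ)^[n] (HH ρ p l') f + O * ∑ b ∈ B, hit ρ S n (F b)) := by
        refine ENNReal.tsum_le_tsum fun n => mul_le_mul_right ?_ _
        exact (gsup_stage hd1 hm hp hp2 l' B F hf hF hS n).trans
          (add_le_add le_rfl (mul_le_mul_left (hHO n) _))
    _ = Res ρ l (HH ρ p l') f + O * sy := by
        rw [hsy, Finset.sum_congr rfl fun b _ => hYv b,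
          ← Summable.tsum_finsetSum fun _ _ => ENNReal.summable, ← ENNReal.tsum_mul_left, Res,
          ← ENNReal.tsum_add]
        refine tsum_congr fun n => ?_
        rw [← Finset.mul_sum]; ring

end Pool.Agent.Lib.MP_153faa_pr
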