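import Mathlib
import Pool.Agent.Lib.MP_153faa_pr.GLoc3
import Pool.Agent.Lib.MP_153faa_pr.GSup
import Pool.Agent.Lib.MP_153faa_pr.GRen
import Pool.Agent.Lib.MP_153faa_pr.GHK3

set_option autoImplicit false

open MeasureTheory Filter Topology
open scoped ENNReal NNReal

namespace Pool.Agent.Lib.MP_153faa_pr

variable {d : ℕ}

theorem gseed_core (hd : 3 ≤ d) {κ M : ℝ} (hκ : 0 < κ) : ∃ C : ℝ, 1 ≤ C ∧
    ∀ (ρ : Measure ℝ≥0) [IsProbabilityMeasure ρ] (p l l' : ℝ), Ctx d κ M ρ p l →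
      0 < l' → l' < l → OO d ρ p l' ≠ ⊤ → ∀ (B : Finset (Site d)) (F : Site d → Prof d) (m : ℕ)
        (a : ℝ), 0 ≤ a → (∀ x, ∑ b ∈ B, F b x ≤ phi d m x) →
        (∀ b ∈ B, ENNReal.ofReal a ≤ Yv ρ l (F b) (ENNReal.ofReal C)) →
        B.card * a ≤ Gr d ρ p l l' m := by
  have hd1 : 1 ≤ d := by omega
  obtain ⟨C, hC, h⟩ := blk hd
  refine ⟨C, hC, fun ρ _ p l l' hc h0 hl hO B F m a ha hF hY => ?_⟩
  have hp : 1 ≤ p := (gloc3_ctx hd hκ hc).1.le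
  have hm := hc.good.1
  have h1 : l' < 1 := hl.trans hc.l1
  have hb := h ρ hm p l l' C hc.p1 hc.p2 hc.l0 hc.l1 h0 h1 hO le_rfl B F (phi d m)
    (nice_phi hd1 m) (mass_phi hd1 m).le hF
  obtain ⟨e1, e2, e3⟩ := Gr_spec hd1 hm hp h0 hl hc.l1 hO m
  have hO0 : OO d ρ p l' ≠ 0 := (zero_lt_one.trans_le (one_le_OO hd1 hm hp h0 h1)).ne'
  have hK : KK d ρ p l' * OO d ρ p l' = 1 := ENNReal.inv_mul_cancel hO0 hO
  have h2 := mul_le_mul_right hb (KK d ρ p l')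
  rw [mul_add, ← mul_assoc, hK, one_mul, e1] at h2
  have h3 := ENNReal.le_of_add_le_add_left (ne_top_of_le_ne_top ENNReal.one_ne_top e2) h2
  have h4 : ENNReal.ofReal (B.card * a) ≤ ENNReal.ofReal (Gr d ρ p l l' m) := by
    refine le_trans ?_ h3
    rw [ENNReal.ofReal_mul (Nat.cast_nonneg _), ENNReal.ofReal_natCast, ← nsmul_eq_mul]
    exact Finset.card_nsmul_le_sum B _ _ hY
  exact (ENNReal.ofReal_le_ofReal_iff e3).1 h4

/-- The bulk of a heat kernel seed keeps half of the success probability. -/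
theorem gseed_cut (hd : 1 ≤ d) {ρ : Measure ℝ≥0} [IsProbabilityMeasure ρ] (hm : Mean1 ρ)
    {l s₀ δ : ℝ} (h0 : 0 < l) (h1 : l < 1) (hs₀ : 0 < s₀) (hδ : 0 < δ) {m₀ R : ℕ} (hm₀ : 1 ≤ m₀)
    (hR : 2 * m₀ * (Real.log (8 * d / s₀ + 1) - Real.log δ) ≤ (R : ℝ) ^ 2)
    (hY : ENNReal.ofReal δ ≤ Yv ρ l (phi d m₀) (ENNReal.ofReal s₀)) :
    ENNReal.ofReal (δ / 2) ≤ Yv ρ l (cut (box d R) (phi d m₀)) (ENNReal.ofReal (s₀ / 2)) := by
  set e : Prof d := fun x => if x ∈ box d R then 0 else phi d m₀ x with he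
  have hsplit : phi d m₀ = cut (box d R) (phi d m₀) + e := by
    funext x
    by_cases hx : x ∈ box d R <;> simp [cut, he, hx]
  have hdp : (0 : ℝ) < d := by exact_mod_cast hd
  have hm₀' : (0 : ℝ) < m₀ := by exact_mod_cast hm₀
  have hA : 0 < 8 * d / s₀ + 1 := by positivity
  have hexp : Real.exp (-(R : ℝ) ^ 2 / (2 * m₀)) ≤ δ / (8 * d / s₀ + 1) := by
    rw [← Real.exp_log (div_pos hδ hA), Real.log_div hδ.ne' hA.ne']
    refine Real.exp_le_exp.2 ?_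
    rw [div_le_iff₀ (by positivity)]
    linarith
  have hmass : mass e ≤ ENNReal.ofReal (s₀ / 2 * (δ / 2)) := by
    refine (hk_escape hd (le_refl m₀) hm₀).trans (ENNReal.ofReal_le_ofReal ?_)
    have h2 : δ / (8 * d / s₀ + 1) ≤ δ / (8 * d / s₀) :=
      div_le_div_of_nonneg_left hδ.le (by positivity) (by linarith)
    calc 2 * d * Real.exp (-(R : ℝ) ^ 2 / (2 * m₀)) ≤ 2 * d * (δ / (8 * d / s₀)) :=
          mul_le_mul_of_nonneg_left (hexp.trans h2) (by positivity)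
      _ = s₀ / 2 * (δ / 2) := by field_simp; ring
  have hs2 : ENNReal.ofReal (s₀ / 2) ≠ 0 := by simpa using hs₀
  have hesc : Yv ρ l e (ENNReal.ofReal (s₀ / 2)) ≤ ENNReal.ofReal (δ / 2) := by
    have h2 := (Yv_markov hd hm h0 h1 e (ENNReal.ofReal (s₀ / 2))).trans hmass
    rw [ENNReal.ofReal_mul (by positivity)] at h2
    exact (ENNReal.mul_le_mul_iff_right hs2 ENNReal.ofReal_ne_top).1 h2
  have hadd := Yv_add (ρ := ρ) h0 h1 (cut (box d R) (phi d m₀)) e (ENNReal.ofReal (s₀ / 2))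
    (ENNReal.ofReal (s₀ / 2))
  rw [← hsplit, ← ENNReal.ofReal_add (by positivity) (by positivity), add_halves] at hadd
  have h3 : ENNReal.ofReal (δ / 2) + ENNReal.ofReal (δ / 2) ≤
      Yv ρ l (cut (box d R) (phi d m₀)) (ENNReal.ofReal (s₀ / 2)) + ENNReal.ofReal (δ / 2) := by
    rw [← ENNReal.ofReal_add (by positivity) (by positivity), add_halves]
    exact hY.trans (hadd.trans (add_le_add_right hesc _))
  exact ENNReal.le_of_add_le_add_right ENNReal.ofReal_ne_top h3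

theorem gseed_ceil {x : ℝ} (hx : 0 ≤ x) : ∃ R : ℕ, x ≤ (R : ℝ) ^ 2 ∧ (R : ℝ) ^ 2 ≤ 2 * x + 2 := by
  have h1 := Nat.le_ceil √x
  have h2 := (Nat.ceil_lt_add_one (Real.sqrt_nonneg x)).le
  have h3 := Real.sq_sqrt hx
  have h4 := Real.sqrt_nonneg x
  refine ⟨⌈√x⌉₊, ?_, ?_⟩
  · rw [← h3]; exact pow_le_pow_left₀ h4 (by rwa [h3]) 2
  · have h5 : (⌈√x⌉₊ : ℝ) ^ 2 ≤ (√x + 1) ^ 2 := pow_le_pow_left₀ (Nat.cast_nonneg _) h2 2
    nlinarith [sq_nonneg (√x - 1)]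

/-- Seeds of heat kernel shape create gain at all later ages. -/
theorem seed_gr (hd : 3 ≤ d) {κ M : ℝ} (hκ : 0 < κ) (s₀ : ℝ) (hs₀ : 0 < s₀) : ∃ C : ℝ, 1 ≤ C ∧
    ∀ (ρ : Measure ℝ≥0) [IsProbabilityMeasure ρ] (p l l' δ u q : ℝ) (m₀ m : ℕ), Ctx d κ M ρ p l →
      0 < l' → l' < l → OO d ρ p l' ≠ ⊤ → 1 ≤ m₀ → 0 < δ → δ ≤ 1 →
      ENNReal.ofReal δ ≤ Yv ρ l (phi d m₀) (ENNReal.ofReal s₀) →
      C * (1 - Real.log δ) * m₀ ≤ m → C * ((m : ℝ) / m₀) ^ ((d : ℝ) / 2) ≤ u → 0 ≤ q →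
      ENNReal.ofReal q ≤ Yv ρ l (dlt (0 : Site d)) (ENNReal.ofReal u) →
        C⁻¹ * δ * q * ((m : ℝ) / m₀) ^ ((d : ℝ) / 2) ≤ Gr d ρ p l l' m := by
  have hd1 : 1 ≤ d := by omega
  obtain ⟨C₁, hC₁, h₁⟩ := gseed_core (M := M) hd hκ
  obtain ⟨C₂, hC₂, h₂⟩ := hk_pack hd1
  set A : ℝ := Real.log (8 * d / s₀ + 1) with hA
  have hA0 : 0 ≤ A := Real.log_nonneg (by
    have : (0 : ℝ) ≤ 8 * d / s₀ := by positivity
    linarith)
  have hE : 0 ≤ 2 * C₁ * C₂ / s₀ := by positivity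
  have hC7 : 7 * C₂ ≤ C₂ * (4 * A + 7) := by nlinarith
  refine ⟨C₂ * (4 * A + 7) + 2 * C₁ * C₂ / s₀, by linarith, ?_⟩
  set C : ℝ := C₂ * (4 * A + 7) + 2 * C₁ * C₂ / s₀ with hC
  intro ρ _ p l l' δ u q m₀ m hc h0 hl hO hm₀ hδ hδ1 hY hm hu hq hq'
  have hD : 0 ≤ -Real.log δ := by linarith [Real.log_nonpos hδ.le hδ1]
  have hm₀' : (1 : ℝ) ≤ m₀ := by exact_mod_cast hm₀
  obtain ⟨R, hR1, hR2⟩ := gseed_ceil (x := 2 * m₀ * (A - Real.log δ)) (by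
    have : 0 ≤ A - Real.log δ := by linarith
    positivity)
  have hcut := gseed_cut hd1 hc.good.1 hc.l0 hc.l1 hs₀ hδ hm₀ hR1 hY
  have hRm : (R : ℝ) ^ 2 + m₀ ≤ (4 * A + 7) * (1 - Real.log δ) * m₀ := by
    have e : (4 * A + 7) * (1 - Real.log δ) * m₀ = 4 * m₀ * (A - Real.log δ) + 7 * m₀ +
      (4 * A + 3) * (-Real.log δ) * m₀ := by ring
    have : 0 ≤ (4 * A + 3) * (-Real.log δ) * m₀ := by positivity
    linarith
  have hpos : 0 ≤ (1 - Real.log δ) * m₀ := mul_nonneg (by linarith) (by linarith)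
  have hpk : C₂ * ((R : ℝ) ^ 2 + m₀) ≤ m := by
    calc C₂ * ((R : ℝ) ^ 2 + m₀) ≤ C₂ * ((4 * A + 7) * (1 - Real.log δ) * m₀) :=
          mul_le_mul_of_nonneg_left hRm (by linarith)
      _ = C₂ * (4 * A + 7) * ((1 - Real.log δ) * m₀) := by ring
      _ ≤ C * ((1 - Real.log δ) * m₀) := mul_le_mul_of_nonneg_right (by linarith) hpos
      _ = C * (1 - Real.log δ) * m₀ := by ring
      _ ≤ m := hm
  have hmp : (0 : ℝ) < m := lt_of_lt_of_le (by positivity) hpk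
  obtain ⟨V, hV, hsum⟩ := h₂ m₀ m R hm₀ hpk
  set w : ℝ := ((m : ℝ) / m₀) ^ ((d : ℝ) / 2) with hw
  set w' : ℝ := ((m₀ : ℝ) / m) ^ ((d : ℝ) / 2) with hw'
  have hw0 : 0 < w := Real.rpow_pos_of_pos (by positivity) _
  have hw0' : 0 < w' := Real.rpow_pos_of_pos (by positivity) _
  have hww : w' * w = 1 := by
    rw [hw, hw', ← Real.mul_rpow (by positivity) (by positivity)]
    have : (m₀ : ℝ) / m * (m / m₀) = 1 := by field_simp
    rw [this, Real.one_rpow]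
  have hu0 : 0 ≤ u := le_trans (by positivity) hu
  have hlev : C₁ ≤ C₂⁻¹ * w' * (s₀ / 2 * u) := by
    have h3 : 2 * C₁ * C₂ / s₀ * w ≤ u :=
      le_trans (mul_le_mul_of_nonneg_right (by linarith) hw0.le) hu
    calc C₁ = C₂⁻¹ * w' * (s₀ / 2 * (2 * C₁ * C₂ / s₀ * w)) := by
          have : C₂⁻¹ * w' * (s₀ / 2 * (2 * C₁ * C₂ / s₀ * w)) = C₁ * (w' * w) := by field_simp
          rw [this, hww, mul_one]
      _ ≤ _ := by gcongr
  have hmain := h₁ ρ p l l' hc h0 hl hO V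
    (fun v y => ENNReal.ofReal (C₂⁻¹ * w') * sh v (cut (box d R) (phi d m₀)) y) m (δ / 2 * q)
    (by positivity) hsum (fun v _ => by
      calc ENNReal.ofReal (δ / 2 * q) = ENNReal.ofReal (δ / 2) * ENNReal.ofReal q :=
            ENNReal.ofReal_mul (by positivity)
        _ ≤ _ := mul_le_mul' hcut hq'
        _ ≤ _ := Yv_mul hc.l0 hc.l1 _ _ _
        _ = _ := (Yv_sh v _ _).symm
        _ ≤ _ := Yv_le hc.l0 hc.l1 (c := ENNReal.ofReal (C₂⁻¹ * w')) fun _ => le_rfl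
        _ ≤ _ := Yv_anti hc.l0 hc.l1 (by
            rw [← ENNReal.ofReal_mul (by positivity), ← ENNReal.ofReal_mul (by positivity)]
            exact ENNReal.ofReal_le_ofReal hlev) _)
  refine le_trans ?_ hmain
  have hinv : C⁻¹ ≤ (2 * C₂)⁻¹ := inv_anti₀ (by positivity) (by linarith)
  calc C⁻¹ * δ * q * w ≤ (2 * C₂)⁻¹ * δ * q * w := by gcongr
    _ = C₂⁻¹ * w * (δ / 2 * q) := by field_simp
    _ ≤ V.card * (δ / 2 * q) := mul_le_mul_of_nonneg_right hV (by positivity)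

/-- Point seeds create gain at all ages. -/
theorem seed_pt (hd : 3 ≤ d) {κ M : ℝ} (hκ : 0 < κ) : ∃ C : ℝ, 1 ≤ C ∧
    ∀ (ρ : Measure ℝ≥0) [IsProbabilityMeasure ρ] (p l l' u q : ℝ) (m : ℕ), Ctx d κ M ρ p l →
      0 < l' → l' < l → OO d ρ p l' ≠ ⊤ → 1 ≤ m → C * (m : ℝ) ^ ((d : ℝ) / 2) ≤ u → 0 ≤ q →
      ENNReal.ofReal q ≤ Yv ρ l (dlt (0 : Site d)) (ENNReal.ofReal u) →
        C⁻¹ * q * (m : ℝ) ^ ((d : ℝ) / 2) ≤ Gr d ρ p l l' m := by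
  have hd1 : 1 ≤ d := by omega
  obtain ⟨C₁, hC₁, h₁⟩ := gseed_core (M := M) hd hκ
  obtain ⟨C₂, hC₂, h₂⟩ := hk_bulk hd1
  refine ⟨C₁ * C₂, one_le_mul_of_one_le_of_one_le hC₁ hC₂, ?_⟩
  intro ρ _ p l l' u q m hc h0 hl hO hm hu hq hq'
  obtain ⟨s, hs, -, hb⟩ := h₂ m hm
  have hmp : (0 : ℝ) < m := by exact_mod_cast hm
  set w : ℝ := (m : ℝ) ^ ((d : ℝ) / 2) with hw
  set w' : ℝ := (m : ℝ) ^ (-(d : ℝ) / 2) with hw'
  have hw0 : 0 < w := Real.rpow_pos_of_pos hmp _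
  have hw0' : 0 < w' := Real.rpow_pos_of_pos hmp _
  have hww : w * w' = 1 := ghk3_pow_mul _ hmp
  have hlev : C₁ ≤ C₂⁻¹ * w' * u := by
    calc C₁ = C₂⁻¹ * w' * (C₁ * C₂ * w) := by
          have : C₂⁻¹ * w' * (C₁ * C₂ * w) = C₁ * (w * w') := by field_simp
          rw [this, hww, mul_one]
      _ ≤ _ := by gcongr
  have hmain := h₁ ρ p l l' hc h0 hl hO s (fun v y => phi d m v * dlt v y) m q hq
    (fun x => by
      by_cases hx : x ∈ s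
      · rw [Finset.sum_eq_single x (fun b _ hb => by simp [dlt, hb.symm]) (fun h => absurd hx h)]
        simp [dlt]
      · rw [Finset.sum_eq_zero fun b hb => by
          have : x ≠ b := fun e => hx (e ▸ hb)
          simp [dlt, this]]
        exact zero_le)
    (fun v hv => by
      calc ENNReal.ofReal q ≤ _ := hq'
        _ = Yv ρ l (dlt v) (ENNReal.ofReal u) := by rw [← sh_dlt v, Yv_sh]
        _ ≤ _ := Yv_le hc.l0 hc.l1 (c := ENNReal.ofReal (C₂⁻¹ * w')) fun y =>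
            mul_le_mul_left (by
              rw [← ofReal_ph hd1]; exact ENNReal.ofReal_le_ofReal (hb v hv)) _
        _ ≤ _ := Yv_anti hc.l0 hc.l1 (by
            rw [← ENNReal.ofReal_mul (by positivity)]
            exact ENNReal.ofReal_le_ofReal hlev) _)
  refine le_trans ?_ hmain
  have hinv : (C₁ * C₂)⁻¹ ≤ C₂⁻¹ := inv_anti₀ (by positivity) (by nlinarith)
  calc (C₁ * C₂)⁻¹ * q * w ≤ C₂⁻¹ * q * w := by gcongr
    _ = C₂⁻¹ * w * q := by ring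
    _ ≤ s.card * q := mul_le_mul_of_nonneg_right hs hq

/-- The gain of a heat kernel profile produces high sites. -/
theorem seed_Yv (hd : 3 ≤ d) {κ M : ℝ} (hκ : 0 < κ) : ∃ C : ℝ, 1 ≤ C ∧
    ∀ (ρ : Measure ℝ≥0) [IsProbabilityMeasure ρ] (p l : ℝ) (m : ℕ), Ctx d κ M ρ p l → l ≤ C⁻¹ →
      ENNReal.ofReal (C⁻¹ * Ar d ρ p l m - l ^ (1 / 4 : ℝ)) ≤
        Yv ρ l (phi d m) (ENNReal.ofReal C⁻¹) := by
  have hd1 : 1 ≤ d := by omega
  obtain ⟨C₁, hC₁, h₁⟩ := t1' (M := M) hd hκ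
  obtain ⟨C₂, hC₂, h₂⟩ := loc_Yv (M := M) hd hκ
  have hC : 1 ≤ C₁ * C₂ := one_le_mul_of_one_le_of_one_le hC₁ hC₂
  have hC' : C₂ ≤ C₁ * C₂ := by nlinarith
  refine ⟨8 * (C₁ * C₂), by linarith, fun ρ _ p l m hc hl => ?_⟩
  obtain ⟨hp, hp2, -⟩ := gloc3_ctx hd hκ hc
  have hmr : mr (phi d m) = 1 := by rw [mr, mass_phi hd1, ENNReal.toReal_one]
  have hinv : (8 * (C₁ * C₂))⁻¹ ≤ C₂⁻¹ := inv_anti₀ (by positivity) (by linarith)
  have a1 := h₁ ρ p l hc (phi d m) 2 (nice_phi hd1 m) two_pos (by rw [hmr]; norm_num)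
  have a2 := h₂ ρ hc.good l hc.l0 (hl.trans hinv) hc.l1 (phi d m) 2 (nice_phi hd1 m) two_pos
    (by rw [hmr]; norm_num)
  rw [hmr, Real.one_rpow, ENNReal.ofReal_one] at a1
  rw [hmr] at a2
  have hY : Yv ρ l (phi d m) (ENNReal.ofReal (2 / C₂)) ≤
      Yv ρ l (phi d m) (ENNReal.ofReal (8 * (C₁ * C₂))⁻¹) :=
    Yv_anti hc.l0 hc.l1 (ENNReal.ofReal_le_ofReal (hinv.trans (by
      rw [div_eq_mul_inv]
      have : 0 < C₂⁻¹ := by positivity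
      linarith))) _
  refine le_trans ?_ hY
  set Y := Yv ρ l (phi d m) (ENNReal.ofReal (2 / C₂)) with hYd
  have hYt : Y ≠ ⊤ := ne_top_of_le_ne_top ENNReal.one_ne_top (Yv_le_one hc.l0 hc.l1 _ _)
  obtain ⟨y, hy0, hy⟩ : ∃ y : ℝ, 0 ≤ y ∧ Y = ENNReal.ofReal y :=
    ⟨Y.toReal, ENNReal.toReal_nonneg, (ENNReal.ofReal_toReal hYt).symm⟩
  have hK : KK d ρ p l ≤ 1 := gres2_KK_le hd1 hc.good.1 hp.le hc.l0 hc.l1
  have hKO : KK d ρ p l * OO d ρ p l ≤ 1 := ENNReal.inv_mul_le_one _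
  have h2 : ENNReal.ofReal ((2 : ℝ) ^ (p - 2)) ≤ 1 := by
    rw [← ENNReal.ofReal_one]
    exact ENNReal.ofReal_le_ofReal
      (Real.rpow_le_one_of_one_le_of_nonpos one_le_two (by linarith))
  have h3 : KK d ρ p l * (OO d ρ p l * ENNReal.ofReal ((2 : ℝ) ^ (p - 2)) + 1) ≤
      ENNReal.ofReal 2 := by
    rw [mul_add, ← mul_assoc, mul_one, ENNReal.ofReal_ofNat]
    exact (add_le_add (mul_le_one' hKO h2) hK).trans one_add_one_eq_two.le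
  have hl4 : 0 ≤ l ^ (1 / 4 : ℝ) := Real.rpow_nonneg hc.l0.le _
  have h4 : ENNReal.ofReal (Ar d ρ p l m) ≤
      ENNReal.ofReal (C₁ * 2 * (C₂ * 2 ^ 2 * y + C₂ * l ^ (1 / 4 : ℝ) * 1 ^ 2)) := by
    calc ENNReal.ofReal (Ar d ρ p l m) ≤ KK d ρ p l * XX ρ p l 0 (phi d m) :=
          ENNReal.ofReal_toReal_le
      _ ≤ _ := mul_le_mul_right a1 _
      _ = ENNReal.ofReal C₁ * (KK d ρ p l * (OO d ρ p l * ENNReal.ofReal ((2 : ℝ) ^ (p - 2)) + 1)) *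
          II ρ l 2 (phi d m) := by ring
      _ ≤ ENNReal.ofReal C₁ * ENNReal.ofReal 2 * _ := mul_le_mul' (mul_le_mul_right h3 _) a2
      _ = _ := by
          rw [hy, ← ENNReal.ofReal_mul (by positivity), ← ENNReal.ofReal_mul (by positivity),
            ← ENNReal.ofReal_add (by positivity) (by positivity),
            ← ENNReal.ofReal_mul (by positivity)]
  have h5 := (ENNReal.ofReal_le_ofReal_iff (by positivity)).1 h4
  rw [hy]
  refine ENNReal.ofReal_le_ofReal ?_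
  have h6 : (8 * (C₁ * C₂))⁻¹ * Ar d ρ p l m ≤ y + l ^ (1 / 4 : ℝ) / 4 := by
    rw [inv_mul_le_iff₀ (by positivity)]
    calc _ ≤ _ := h5
      _ = _ := by ring
  linarith

end Pool.Agent.Lib.MP_153faa_pr
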