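import Mathlib
import Pool.Agent.Lib.MP_153faa_pr.GSeed
import Pool.Agent.Lib.MP_153faa_pr.GSc
import Pool.Agent.Lib.MP_153faa_pr.GA1

set_option autoImplicit false

open MeasureTheory Filter Topology
open scoped ENNReal NNReal

namespace Pool.Agent.Lib.MP_153faa_pr

variable {d : ℕ}

theorem gapx_OO_le_iff (hd : 1 ≤ d) {ρ : Measure ℝ≥0} [IsProbabilityMeasure ρ] (hm : Mean1 ρ)
    {p l y : ℝ} (hp : 1 ≤ p) (h0 : 0 < l) (h1 : l < 1) (hy : 0 < y) :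
    OO d ρ p l ≤ ENNReal.ofReal y ↔ y⁻¹ ≤ Kr d ρ p l := by
  have e : ENNReal.ofReal (Kr d ρ p l) = (OO d ρ p l)⁻¹ := ofReal_Kr hd hm hp h0 h1
  rw [← ENNReal.inv_le_inv, ← ENNReal.ofReal_inv_of_pos hy, ← e,
    ENNReal.ofReal_le_ofReal_iff Kr_nonneg]

theorem gapx_le_OO_iff (hd : 1 ≤ d) {ρ : Measure ℝ≥0} [IsProbabilityMeasure ρ] (hm : Mean1 ρ)
    {p l y : ℝ} (hp : 1 ≤ p) (h0 : 0 < l) (h1 : l < 1) (hy : 0 < y) :
    ENNReal.ofReal y ≤ OO d ρ p l ↔ Kr d ρ p l ≤ y⁻¹ := by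
  have e : ENNReal.ofReal (Kr d ρ p l) = (OO d ρ p l)⁻¹ := ofReal_Kr hd hm hp h0 h1
  rw [← ENNReal.inv_le_inv, ← ENNReal.ofReal_inv_of_pos hy, ← e,
    ENNReal.ofReal_le_ofReal_iff (by positivity)]

theorem gapx_pow_rpow {v : ℝ} (hv : 0 ≤ v) {n : ℕ} (hn : n ≠ 0) :
    (v ^ n) ^ (1 / (n : ℝ)) = v := by
  rw [one_div]; exact Real.pow_rpow_inv_natCast hv hn

theorem gapx_exp_ev (K : ℝ) (n : ℕ) : ∀ᶠ v : ℝ in atTop, K * v ^ n ≤ Real.exp v := by
  have h := Real.tendsto_exp_div_pow_atTop n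
  filter_upwards [h.eventually_ge_atTop K, eventually_gt_atTop 0] with v h1 h2
  rwa [le_div_iff₀ (by positivity)] at h1

theorem gapx_log_ev (K : ℝ) : ∀ᶠ w : ℝ in atTop, K * (1 + Real.log w) ≤ w := by
  filter_upwards [eventually_ge_atTop 1, eventually_ge_atTop ((3 * |K|) ^ 2)] with w h1 h2
  have hs : 1 ≤ √w := Real.one_le_sqrt.2 h1
  have hK : 3 * |K| ≤ √w := Real.le_sqrt_of_sq_le h2
  have hl : Real.log w ≤ 2 * √w := by
    have h3 : Real.log w = 2 * Real.log √w := by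
      rw [Real.log_sqrt (by linarith)]; ring
    have h4 := Real.log_le_sub_one_of_pos (show 0 < √w by linarith)
    linarith
  have hl0 : 0 ≤ Real.log w := Real.log_nonneg h1
  have hw : √w * √w = w := Real.mul_self_sqrt (by linarith)
  calc K * (1 + Real.log w) ≤ |K| * (3 * √w) :=
        mul_le_mul (le_abs_self K) (by linarith) (by linarith) (abs_nonneg K)
    _ = (3 * |K|) * √w := by ring
    _ ≤ √w * √w := by gcongr
    _ = w := hw

/-- A lower bound for the gain at all relevant ages. -/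
theorem gapx_Gr (hd : 3 ≤ d) {κ M : ℝ} (hκ : 0 < κ) : ∃ C : ℝ, 1 ≤ C ∧
    ∀ (ρ : Measure ℝ≥0) [IsProbabilityMeasure ρ] (p r l l' : ℝ) (m : ℕ), Ctx d κ M ρ p l →
      Ctx d κ M ρ r l → l ≤ C⁻¹ → OO d ρ r l ≠ ⊤ → 0 < l' → l' < l → OO d ρ p l' ≠ ⊤ → 1 ≤ m →
      ENNReal.ofReal (C * (1 + Real.log m)) ≤ OO d ρ r l → C⁻¹ / m ≤ Gr d ρ p l l' m := by
  obtain ⟨C5, h5, hsurv⟩ := surv hd (M := M) hκ
  obtain ⟨C6, h6, hseed⟩ := seed_pt hd (M := M) hκ
  have hdR : (3 : ℝ) ≤ d := by exact_mod_cast hd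
  have h63 : 1 ≤ C6 ^ 3 := one_le_pow₀ h6
  have h63' : C6 ≤ C6 ^ 3 := le_self_pow₀ h6 (by norm_num)
  have hA : 1 ≤ C6 ^ 3 * (1 + d) := by nlinarith
  refine ⟨C5 * (C6 ^ 3 * (1 + d)), by nlinarith, ?_⟩
  intro ρ _ p r l l' m hp hr hl hO h0 hll hO' hm hbig
  have hmR : (1 : ℝ) ≤ m := by exact_mod_cast hm
  have hlm : 0 ≤ Real.log m := Real.log_nonneg hmR
  have hl6 : 0 ≤ Real.log C6 := Real.log_nonneg h6
  have hl6' : Real.log C6 ≤ C6 - 1 := Real.log_le_sub_one_of_pos (by linarith)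
  set y : ℝ := Real.log C6 + d / 2 * Real.log m with hy
  have hy0 : 0 ≤ y := by positivity
  have hey : Real.exp y = C6 * (m : ℝ) ^ ((d : ℝ) / 2) := by
    rw [hy, Real.exp_add, Real.exp_log (by linarith), Real.rpow_def_of_pos (by linarith),
      mul_comm (Real.log m)]
  have hl5 : l ≤ C5⁻¹ := hl.trans (by
    apply inv_anti₀ (by linarith)
    nlinarith)
  have hbig' : ENNReal.ofReal (C5 * (1 + y)) ≤ OO d ρ r l := by
    refine le_trans (ENNReal.ofReal_le_ofReal ?_) hbig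
    rw [mul_assoc]
    refine mul_le_mul_of_nonneg_left ?_ (by linarith)
    have e1 : d / 2 * Real.log m ≤ C6 ^ 3 * (1 + d) * Real.log m := by
      apply mul_le_mul_of_nonneg_right _ hlm
      nlinarith
    have e2 : C6 ≤ C6 ^ 3 * (1 + d) := by nlinarith
    rw [hy]; nlinarith
  obtain ⟨hY, -⟩ := hsurv ρ r l hr hl5 hO y hy0 hbig'
  have hG := hseed ρ p l l' (Real.exp y) (C5⁻¹ * Real.exp (-(r * y))) m hp h0 hll hO' hm
    hey.ge (by positivity) hY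
  refine le_trans ?_ hG
  have hr2 : r * y ≤ 2 * Real.log C6 + (d / 2 + 1) * Real.log m := by
    have e1 : r * y ≤ q0 d * y := mul_le_mul_of_nonneg_right hr.p2 hy0
    have e2 : q0 d * y = q0 d * Real.log C6 + (d / 2 + 1) * Real.log m := by
      rw [hy]; unfold q0; field_simp
    have e3 : q0 d ≤ 2 := by
      unfold q0
      have : (2 : ℝ) / d ≤ 1 := by rw [div_le_one (by linarith)]; linarith
      linarith
    have e4 : q0 d * Real.log C6 ≤ 2 * Real.log C6 := mul_le_mul_of_nonneg_right e3 hl6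
    linarith
  have hexp : (C6 ^ 2)⁻¹ / m ≤ Real.exp (-(r * y)) * (m : ℝ) ^ ((d : ℝ) / 2) := by
    rw [Real.rpow_def_of_pos (by linarith), ← Real.exp_add]
    have e1 : (C6 ^ 2)⁻¹ / m = Real.exp (-(2 * Real.log C6 + Real.log m)) := by
      rw [Real.exp_neg, Real.exp_add, Real.exp_log (by linarith),
        show (2 : ℝ) * Real.log C6 = Real.log C6 + Real.log C6 by ring, Real.exp_add,
        Real.exp_log (by linarith)]
      field_simp
    rw [e1]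
    exact Real.exp_le_exp.2 (by linarith)
  calc (C5 * (C6 ^ 3 * (1 + d)))⁻¹ / m ≤ (C5 * C6 ^ 3)⁻¹ / m := by
        gcongr
        nlinarith
    _ = C6⁻¹ * C5⁻¹ * ((C6 ^ 2)⁻¹ / m) := by field_simp
    _ ≤ C6⁻¹ * C5⁻¹ * (Real.exp (-(r * y)) * (m : ℝ) ^ ((d : ℝ) / 2)) := by gcongr
    _ = _ := by ring

/-- A large moment at a short horizon creates gain at long horizons. -/
theorem gapx_Ar (hd : 3 ≤ d) {κ M : ℝ} (hκ : 0 < κ) : ∃ C : ℝ, 1 ≤ C ∧
    ∀ (ρ : Measure ℝ≥0) [IsProbabilityMeasure ρ] (p r l l' : ℝ) (m : ℕ), Ctx d κ M ρ p l →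
      Ctx d κ M ρ r l → l ≤ C⁻¹ → OO d ρ r l ≠ ⊤ → 0 < l' → 2 * l' ≤ l → OO d ρ p l' ≠ ⊤ →
      1 ≤ m → l' * m * Real.exp 4 ≤ 1 →
      ENNReal.ofReal (C * (1 + Real.log (3 / l'))) ≤ OO d ρ r l → l / (4 * C) ≤ Ar d ρ p l' m := by
  obtain ⟨C, hC, hGr⟩ := gapx_Gr hd (M := M) hκ
  refine ⟨C, hC, ?_⟩
  intro ρ _ p r l l' m hp hr hl hO h0 hll hO' hm hml hbig
  have hd1 : 1 ≤ d := by omega
  have hdR : (3 : ℝ) ≤ d := by exact_mod_cast hd
  have hl0 := hp.l0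
  have hl1 := hp.l1
  have hll' : l' < l := by linarith
  have hl'1 : l' < 1 := by linarith
  have hp1 : 1 ≤ p := le_trans (le_add_of_nonneg_right (by positivity)) hp.p1
  have hmR : (1 : ℝ) ≤ m := by exact_mod_cast hm
  have he4 : 1 ≤ Real.exp 4 := Real.one_le_exp (by norm_num)
  have hml1 : l' * m ≤ 1 := le_trans (le_mul_of_one_le_right (by positivity) he4) hml
  set N := ⌈1 / l'⌉₊ with hN
  have hN1 : 1 / l' ≤ N := Nat.le_ceil _
  have hN2 : (N : ℝ) ≤ 1 / l' + 1 := (Nat.ceil_lt_add_one (by positivity)).le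
  have hren := ren_low (ρ := ρ) hd1 hp.good.1 hp1 h0 hll' hl1 hO' m N
  have hsum := sum_log_ge h0 hl'1 hm hN1
  have hlog : 4 ≤ Real.log (1 / (l' * m)) := by
    rw [Real.le_log_iff_exp_le (by positivity), le_div_iff₀ (by positivity)]
    linarith
  have hG : ∀ i ∈ Finset.range N, l * C⁻¹ * ((1 - l') ^ i / ((m : ℝ) + i)) ≤
      l * (1 - l') ^ i * Gr d ρ p l l' (m + i) := by
    intro i hi
    have hi' : (i : ℝ) ≤ N := by exact_mod_cast (Finset.mem_range.1 hi).le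
    have hi0 : (0 : ℝ) ≤ i := Nat.cast_nonneg i
    have hmi : ((m + i : ℕ) : ℝ) ≤ 3 / l' := by
      push_cast
      have e1 : (m : ℝ) ≤ 1 / l' := by rw [le_div_iff₀ h0]; linarith
      have e2 : 1 ≤ 1 / l' := by rw [le_div_iff₀ h0]; linarith
      have e3 : 3 / l' = 3 * (1 / l') := by ring
      linarith
    have hmi0 : (0 : ℝ) < ((m + i : ℕ) : ℝ) := by push_cast; linarith
    have h1 := hGr ρ p r l l' (m + i) hp hr hl hO h0 hll' hO' (by omega)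
      (le_trans (ENNReal.ofReal_le_ofReal (by
        have := Real.log_le_log hmi0 hmi
        gcongr)) hbig)
    push_cast at h1
    have h2 : 0 ≤ (1 - l') ^ i := pow_nonneg (by linarith) i
    calc l * C⁻¹ * ((1 - l') ^ i / ((m : ℝ) + i)) = l * (1 - l') ^ i * (C⁻¹ / ((m : ℝ) + i)) := by
          ring
      _ ≤ _ := by gcongr
  have h3 := Finset.sum_le_sum hG
  rw [← Finset.mul_sum] at h3
  have hC0 : 0 < C⁻¹ := by positivity
  have h4 : l * C⁻¹ ≤ ∑ i ∈ Finset.range N, l * (1 - l') ^ i * Gr d ρ p l l' (m + i) :=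
    le_trans (le_mul_of_one_le_right (by positivity) (by linarith)) h3
  have h5 : (1 / 2 : ℝ) ≤ 1 - l' / l := by
    have : l' / l ≤ 1 / 2 := by rw [div_le_iff₀ hl0]; linarith
    linarith
  calc l / (4 * C) = (1 / 2) ^ 2 * (l * C⁻¹) := by field_simp; norm_num
    _ ≤ (1 - l' / l) ^ 2 * ∑ i ∈ Finset.range N, l * (1 - l') ^ i * Gr d ρ p l l' (m + i) := by
        gcongr
    _ ≤ _ := hren

/-- The choice of scales. -/
theorem gapx_par {K : ℝ} (hK : 1 ≤ K) (a : ℕ) : ∃ (v w l₀ l x Z l' : ℝ) (m : ℕ),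
    0 < v ∧ 0 < w ∧ K ≤ v ^ 6 ∧ K ≤ w ^ 6 ∧ l₀ = Real.exp (-v ^ 6) ∧ l = Real.exp (-w ^ 6) ∧
    x⁻¹ = Real.exp w ∧ l₀ * K < 1 ∧ l ≤ l₀ ∧ x = l₀ * l₀ ∧ K * x⁻¹ ≤ Z ∧ 1 ≤ m ∧ Z ^ a / l ≤ m ∧
    0 < l' ∧ l' * m * Z ^ 20 ≤ 1 ∧ l' * m * Real.exp 4 ≤ 1 ∧ 2 * l' ≤ l ∧
    K * (1 + Real.log (3 / l')) ≤ Real.exp v := by
  obtain ⟨v, hv1, hv2⟩ := ((eventually_gt_atTop K).and
    (gapx_exp_ev (K * ((2 * a + 45) * 64)) 36)).exists
  have hvone : 1 ≤ v := by linarith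
  obtain ⟨t, ht⟩ : ∃ t : ℝ, t = v ^ 6 := ⟨_, rfl⟩
  have hvt : v ≤ t := ht ▸ le_self_pow₀ hvone (by norm_num)
  obtain ⟨w, hw⟩ : ∃ w : ℝ, w = 2 * t := ⟨_, rfl⟩
  have hw1 : 1 ≤ w := by linarith
  obtain ⟨s, hs⟩ : ∃ s : ℝ, s = w ^ 6 := ⟨_, rfl⟩
  have hws : w ≤ s := hs ▸ le_self_pow₀ hw1 (by norm_num)
  have hs36 : s = 64 * v ^ 36 := by rw [hs, hw, ht]; ring
  obtain ⟨l, hl⟩ : ∃ l : ℝ, l = Real.exp (-s) := ⟨_, rfl⟩
  have hl0 : 0 < l := hl ▸ Real.exp_pos _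
  have hl1 : l ≤ 1 := hl ▸ Real.exp_le_one_iff.2 (by linarith)
  obtain ⟨Z, hZ⟩ : ∃ Z : ℝ, Z = Real.exp (2 * w) := ⟨_, rfl⟩
  have hZ1 : 1 ≤ Z := hZ ▸ Real.one_le_exp (by linarith)
  obtain ⟨m, hmdef⟩ : ∃ m : ℕ, m = ⌈Z ^ a / l⌉₊ := ⟨_, rfl⟩
  have hZa : 1 ≤ Z ^ a := one_le_pow₀ hZ1
  have hZl : 1 ≤ Z ^ a / l := by rw [le_div_iff₀ hl0]; linarith
  have hm1 : Z ^ a / l ≤ m := hmdef ▸ Nat.le_ceil _
  have hm2 : (m : ℝ) ≤ 2 * (Z ^ a / l) := by
    have := (Nat.ceil_lt_add_one (show 0 ≤ Z ^ a / l by linarith)).le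
    rw [← hmdef] at this
    linarith
  have hmR : (1 : ℝ) ≤ m := by linarith
  have hZ20 : Z ^ 20 = Real.exp (40 * w) := by
    rw [hZ, ← Real.exp_nat_mul]; congr 1; push_cast; ring
  have hZ4 : Real.exp 4 ≤ Z ^ 20 := by rw [hZ20]; exact Real.exp_le_exp.2 (by linarith)
  have he4 : 5 ≤ Real.exp 4 := by linarith [Real.add_one_le_exp (4 : ℝ)]
  obtain ⟨l', hl'⟩ : ∃ l' : ℝ, l' = (m * Z ^ 20)⁻¹ := ⟨_, rfl⟩
  have hl'0 : 0 < l' := by rw [hl']; positivity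
  have hl'm : l' * m * Z ^ 20 = 1 := by rw [hl']; field_simp
  have hlog : Real.log (3 / l') ≤ (2 * a + 44) * s := by
    rw [Real.log_le_iff_le_exp (by positivity)]
    have ha0 : (0 : ℝ) ≤ a := Nat.cast_nonneg a
    have e1 : Z ^ a / l = Real.exp (2 * a * w + s) := by
      rw [hZ, ← Real.exp_nat_mul, hl, ← Real.exp_sub]; congr 1; ring
    have e2 : (6 : ℝ) ≤ Real.exp 3 := by
      have h := Real.add_one_le_exp (3 / 2 : ℝ)
      have e : Real.exp 3 = Real.exp (3 / 2) * Real.exp (3 / 2) := by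
        rw [← Real.exp_add]; norm_num
      rw [e]
      calc (6 : ℝ) ≤ (3 / 2 + 1) * (3 / 2 + 1) := by norm_num
        _ ≤ _ := by gcongr
    calc 3 / l' = 3 * (m * Z ^ 20) := by rw [hl', div_inv_eq_mul]
      _ ≤ 3 * (2 * (Z ^ a / l) * Z ^ 20) := by gcongr
      _ = 6 * (Real.exp (2 * a * w + s) * Real.exp (40 * w)) := by rw [e1, hZ20]; ring
      _ ≤ Real.exp 3 * (Real.exp (2 * a * w + s) * Real.exp (40 * w)) := by gcongr
      _ = Real.exp (3 + (2 * a * w + s + 40 * w)) := by rw [← Real.exp_add, ← Real.exp_add]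
      _ ≤ _ := by
          refine Real.exp_le_exp.2 ?_
          have : a * w ≤ a * s := by gcongr
          linarith
  refine ⟨v, w, Real.exp (-t), l, Real.exp (-w), Z, l', m, by linarith, by linarith, by linarith,
    by linarith, by rw [ht], by rw [hl, hs], by rw [Real.exp_neg, inv_inv], ?_, ?_, ?_, ?_,
    by exact_mod_cast hmR, hm1, hl'0, hl'm.le, ?_, ?_, ?_⟩
  · rw [Real.exp_neg, inv_mul_lt_iff₀ (Real.exp_pos _), mul_one]
    linarith [Real.add_one_le_exp t]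
  · rw [hl]; exact Real.exp_le_exp.2 (by linarith)
  · rw [← Real.exp_add]; congr 1; linarith
  · rw [Real.exp_neg, inv_inv, hZ, two_mul, Real.exp_add]
    gcongr
    linarith [Real.add_one_le_exp w]
  · calc l' * m * Real.exp 4 ≤ l' * m * Z ^ 20 := by gcongr
      _ = 1 := hl'm
  · have e1 : 1 ≤ l * m := by
      rw [div_le_iff₀ hl0] at hm1; linarith
    calc 2 * l' = l' * 2 * 1 := by ring
      _ ≤ l' * Z ^ 20 * (l * m) := by gcongr; linarith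
      _ = l * (l' * m * Z ^ 20) := by ring
      _ = l := by rw [hl'm, mul_one]
  · refine le_trans ?_ hv2
    calc K * (1 + Real.log (3 / l')) ≤ K * ((2 * a + 45) * s) := by
          gcongr
          linarith
      _ = _ := by rw [hs36]; ring

/-- Without decay the inverse moment is not too small at arbitrarily large scales. -/
theorem ap2 (hd : 3 ≤ d) {κ M : ℝ} (hκ : 0 < κ) {ρ : Measure ℝ≥0} [IsProbabilityMeasure ρ]
    (hG : Good d κ M ρ) (hno : ∀ L, ¬ Dec d ρ L) (τ₁ : ℝ) :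
    ∃ τ, τ₁ ≤ τ ∧ Real.exp (-τ ^ (1 / 6 : ℝ)) ≤ kk d ρ τ := by
  by_contra hcon
  have hd1 : 1 ≤ d := by omega
  have hdR : (3 : ℝ) ≤ d := by exact_mod_cast hd
  have hm : Mean1 ρ := hG.1
  have hdi : (0 : ℝ) < 1 / d := by positivity
  have hq0 : q0 d = 1 + 2 * (1 / d) := by unfold q0; ring
  obtain ⟨C1, h1, hsc⟩ := sc_dec hd (M := M) hκ
  obtain ⟨a, C2, h2, ha1⟩ := a1_low hd (M := M) hκ
  obtain ⟨C3, h3, hopl⟩ := opl hd (M := M) hκ
  obtain ⟨C4, h4, hAr⟩ := gapx_Ar hd (M := M) hκ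
  -- large moments at the critical exponent
  have hbig : ∀ v : ℝ, 0 < v → τ₁ ≤ v ^ 6 →
      ENNReal.ofReal (Real.exp v) < OO d ρ (q0 d) (Real.exp (-v ^ 6)) := by
    intro v hv hτ
    by_contra hle
    refine hcon ⟨_, hτ, ?_⟩
    have e := gapx_pow_rpow hv.le (n := 6) (by norm_num)
    push_cast at e
    rw [e, Real.exp_neg]
    exact (gapx_OO_le_iff hd1 hm (by linarith) (Real.exp_pos _)
      (Real.exp_lt_one_iff.2 (by have := pow_pos hv 6; linarith)) (Real.exp_pos v)).1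
      (not_lt.1 hle)
  -- bounded moments below the critical exponent
  have hfin : ∀ r l : ℝ, Ctx d κ M ρ r l → r < q0 d → l ≤ C1⁻¹ →
      OO d ρ r l < ENNReal.ofReal (C1 / (q0 d - r)) := by
    intro r l hr hlt hl
    by_contra hle
    have e : q0 d - (q0 d - r) = r := by ring
    exact hno _ (hsc ρ l (q0 d - r) (by rw [e]; exact hr) (by linarith) hl
      (by rw [e]; exact not_lt.1 hle))
  clear hsc hcon hno
  have hC34 : 0 ≤ C3 * C4 := by positivity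
  obtain ⟨K, hK1, hK2, hK3, hK4, hK5, hK6, hK7⟩ : ∃ K : ℝ, C1 ≤ K ∧ C2 ≤ K ∧ C3 ≤ K ∧ C4 ≤ K ∧
      2 * d ≤ K ∧ 8 * (C3 * C4) ≤ K ∧ τ₁ ≤ K := by
    have := abs_nonneg τ₁
    have := le_abs_self τ₁
    exact ⟨C1 + C2 + C3 + C4 + 2 * d + 8 * (C3 * C4) + |τ₁|, by linarith, by linarith, by linarith,
      by linarith, by linarith, by linarith, by linarith⟩
  obtain ⟨v, w, l₀, l, x, Z, l', m, hv0, hw0, hvK, hwK, hl₀, hl, hxi, hl₀K, hll₀, hxl, hZ, hmN,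
    hm1, hl'0, hl'm, hl'4, hl'l, hlog⟩ := gapx_par (h1.trans hK1) a
  have hb1 := hbig w hw0 (hK7.trans hwK)
  have hb2 := hbig v hv0 (hK7.trans hvK)
  have hl₀0 : 0 < l₀ := hl₀ ▸ Real.exp_pos _
  have hl0 : 0 < l := hl ▸ Real.exp_pos _
  rw [← hl, ← hxi] at hb1
  rw [← hl₀] at hb2
  clear hbig hl hl₀ hxi hvK hwK
  have hl₀C : ∀ C : ℝ, 0 < C → C ≤ K → l₀ ≤ C⁻¹ := fun C hC hCK => by
    rw [← one_div, le_div_iff₀ hC]
    exact le_trans (by gcongr) hl₀K.le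
  have hl₀1 : l₀ < 1 := lt_of_le_of_lt (le_mul_of_one_le_right hl₀0.le (h1.trans hK1)) hl₀K
  have hx0 : 0 < x := by rw [hxl]; positivity
  have hxl₀ : x ≤ l₀ := by rw [hxl]; exact mul_le_of_le_one_right hl₀0.le hl₀1.le
  have hl1 : l < 1 := by linarith
  have hxd : 2 * x ≤ 1 / d := by
    have := hl₀C (2 * d) (by positivity) hK5
    have e : (2 * (d : ℝ))⁻¹ = 1 / 2 * (1 / d) := by field_simp
    linarith
  have hx1 : 1 ≤ x⁻¹ := one_le_inv_iff₀.2 ⟨hx0, by linarith⟩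
  have hZK : K ≤ Z := le_trans (le_mul_of_one_le_right (by linarith) hx1) hZ
  have hC1 := hl₀C C1 (by linarith) hK1
  have hC2 := hl₀C C2 (by linarith) hK2
  have hC3 := hl₀C C3 (by linarith) hK3
  have hC4 := hl₀C C4 (by linarith) hK4
  -- the exponent at the long horizon
  obtain ⟨r, hr1, hr2, hr3⟩ := OO_lsc_p (p' := q0 d - x) (by linarith) hb1
  have hcr : Ctx d κ M ρ r l := ⟨hG, by linarith, hr2.le, hl0, hl1⟩
  have hOr : OO d ρ r l ≠ ⊤ := (hfin r l hcr hr2 (hll₀.trans hC1)).ne_top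
  have hlow := hopl ρ r l x x⁻¹ hcr (hll₀.trans hC3) hOr hx0.le (by linarith) hr3.le
    (mul_inv_cancel₀ hx0.ne').le
  have hp1 : 1 + 1 / d ≤ r - x := by linarith
  have hp2 : r - x < q0 d := by linarith
  have hcp : ∀ l' : ℝ, 0 < l' → l' < 1 → Ctx d κ M ρ (r - x) l' :=
    fun l' a b => ⟨hG, hp1, hp2.le, a, b⟩
  have hKr : Kr d ρ (r - x) l ≤ C3 * x := by
    calc Kr d ρ (r - x) l ≤ (x⁻¹ / C3)⁻¹ :=
          (gapx_le_OO_iff hd1 hm (by linarith) hl0 hl1 (by positivity)).1 hlow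
      _ = C3 * x := by field_simp
  have hOZ : OO d ρ (r - x) l ≤ ENNReal.ofReal Z := by
    refine (hfin _ l (hcp l hl0 hl1) hp2 (hll₀.trans hC1)).le.trans (ENNReal.ofReal_le_ofReal ?_)
    calc C1 / (q0 d - (r - x)) ≤ K / x := by
          gcongr
          · linarith
          · linarith
      _ ≤ Z := by rw [div_eq_mul_inv]; exact hZ
  have hOl' : OO d ρ (r - x) l' ≠ ⊤ :=
    (hfin _ l' (hcp l' hl'0 (by linarith)) hp2 (by linarith)).ne_top
  have hup := ha1 ρ (r - x) l l' Z m (hcp l hl0 hl1) (hll₀.trans hC2) (hK2.trans hZK) hOZ hl'0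
    hOl' hm1 hl'm
  have hup' : Ar d ρ (r - x) l' m ≤ 2 * (C3 * x) := by
    have e1 : (Z ^ 10)⁻¹ ≤ 1 := inv_le_one_of_one_le₀ (one_le_pow₀ (by linarith))
    have e2 : 0 ≤ Kr d ρ (r - x) l' := Kr_nonneg
    have e3 : 0 ≤ Kr d ρ (r - x) l := Kr_nonneg
    have e4 : Kr d ρ (r - x) l * (1 + (Z ^ 10)⁻¹) ≤ Kr d ρ (r - x) l * 2 :=
      mul_le_mul_of_nonneg_left (by linarith) e3
    linarith
  -- the first stage
  obtain ⟨r₀, hr₀1, hr₀2, hr₀3⟩ := OO_lsc_p (p' := q0 d - x) (by linarith) hb2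
  have hcr₀ : Ctx d κ M ρ r₀ l₀ := ⟨hG, by linarith, hr₀2.le, hl₀0, hl₀1⟩
  have hlog0 : 0 ≤ Real.log (3 / l') :=
    Real.log_nonneg (by rw [le_div_iff₀ hl'0]; linarith)
  have hlow' := hAr ρ (r - x) r₀ l₀ l' m (hcp l₀ hl₀0 hl₀1) hcr₀ hC4
    (hfin r₀ l₀ hcr₀ hr₀2 hC1).ne_top hl'0 (by linarith) hOl' hmN hl'4
    (le_trans (ENNReal.ofReal_le_ofReal (le_trans
      (mul_le_mul_of_nonneg_right hK4 (by linarith)) hlog)) hr₀3.le)
  have e5 : l₀ ≤ 2 * (C3 * x) * (4 * C4) := by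
    rw [← div_le_iff₀ (by positivity)]; exact hlow'.trans hup'
  have e6 : l₀ * (l₀ * K) < l₀ * 1 := mul_lt_mul_of_pos_left hl₀K hl₀0
  have e7 : 2 * (C3 * x) * (4 * C4) ≤ l₀ * (l₀ * K) := by
    calc 2 * (C3 * x) * (4 * C4) = l₀ * (l₀ * (8 * (C3 * C4))) := by rw [hxl]; ring
      _ ≤ _ := by gcongr
  linarith

/-- At the critical point the inverse moment decays. -/
theorem ap1 (hd : 3 ≤ d) {ν : Measure ℝ} [IsProbabilityMeasure ν]
    (hν : ∀ β : ℝ, Integrable (fun t => Real.exp (β * t)) ν)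
    (hne : ∃ β : ℝ, 0 ≤ β ∧ freeEnergy d ν β < 0) {κ M ε₀ : ℝ} (hκ : 0 < κ) (hε : 0 < ε₀)
    (hG : ∀ β ∈ Set.Icc (betaC d ν - ε₀) (betaC d ν + ε₀), Good d κ M (rho ν β)) :
    ∀ᶠ σ in atTop, kk d (rho ν (betaC d ν)) σ ≤ σ ^ (-(3 / 4) : ℝ) := by
  have hd1 : 1 ≤ d := by omega
  have hdR : (3 : ℝ) ≤ d := by exact_mod_cast hd
  have hdi : (0 : ℝ) < 1 / d := by positivity
  have hdi3 : 1 / (d : ℝ) ≤ 1 / 3 := by gcongr
  have e2d : (2 : ℝ) / d = 2 * (1 / d) := by ring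
  have hq0 : q0 d = 1 + 2 / d := rfl
  have hbdd : BddBelow {β | 0 ≤ β ∧ freeEnergy d ν β < 0} := ⟨0, fun β hβ => hβ.1⟩
  have hGc := hG (betaC d ν) ⟨by linarith, by linarith⟩
  obtain ⟨hM1, -, -, -, hg0⟩ := hGc.basic hd hκ
  set c₀ : ℝ := (gsum d).toReal⁻¹ with hc₀
  have hc0 : 0 < c₀ := by positivity
  obtain ⟨C, hC, hhm⟩ := hm_up hd (M := M) hκ
  obtain ⟨B, hB, hweak⟩ := weak hd 3
  set K : ℝ := 6 * C + 7 * B + 3 + 2 * M + 8 * M * d / c₀ ^ 2 with hK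
  have hMd : 0 ≤ 8 * M * d / c₀ ^ 2 := by positivity
  have hev : ∀ᶠ σ : ℝ in atTop, K * (1 + Real.log (σ ^ (1 / 8 : ℝ))) ≤ σ ^ (1 / 8 : ℝ) ∧
      1 ≤ σ ^ (1 / 8 : ℝ) :=
    (tendsto_rpow_atTop (by norm_num)).eventually ((gapx_log_ev K).and (eventually_ge_atTop 1))
  filter_upwards [hev, eventually_gt_atTop 0] with σ ⟨hw2, hw1⟩ hσ
  set w : ℝ := σ ^ (1 / 8 : ℝ) with hw
  have hw0 : 0 < w := by linarith
  have hσw : σ = w ^ 8 := by
    rw [hw, ← Real.rpow_natCast, ← Real.rpow_mul hσ.le]; norm_num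
  have hY : σ ^ (-(3 / 4) : ℝ) = (w ^ 6)⁻¹ := by
    rw [hw, ← Real.rpow_natCast, ← Real.rpow_mul hσ.le, ← Real.rpow_neg hσ.le]; norm_num
  rw [hY]
  by_contra hcon
  have hlw : 0 ≤ Real.log w := Real.log_nonneg hw1
  have hK0 : 0 ≤ K := by linarith
  have hKw : K ≤ w := le_trans (le_mul_of_one_le_right hK0 (by linarith)) hw2
  set l : ℝ := Real.exp (-σ) with hl
  have hl0 : 0 < l := Real.exp_pos _
  have hl1 : l < 1 := Real.exp_lt_one_iff.2 (by linarith)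
  have hw6 : 1 ≤ w ^ 6 := one_le_pow₀ hw1
  have hw7 : w ≤ w ^ 7 := le_self_pow₀ hw1 (by norm_num)
  have hw8 : w ≤ w ^ 8 := le_self_pow₀ hw1 (by norm_num)
  have hO : OO d (rho ν (betaC d ν)) (q0 d) l ≤ ENNReal.ofReal (w ^ 6) :=
    (gapx_OO_le_iff hd1 hGc.1 (by linarith) hl0 hl1 (by positivity)).2 (not_le.1 hcon).le
  set x : ℝ := w ^ 7 with hx
  have hx0 : 0 < x := by positivity
  have hx3 : 3 ≤ x := by linarith
  have hxi : 0 < 1 / x := by positivity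
  have hxi3 : 1 / x ≤ 1 / 3 := by gcongr
  have hO2 := hhm (rho ν (betaC d ν)) (q0 d) l ⟨hGc, by linarith, le_rfl, hl0, hl1⟩
    (by
      rw [hl, Real.exp_neg]
      refine inv_anti₀ (by linarith) ?_
      linarith [Real.add_one_le_exp σ])
    (w ^ 6) (1 / x) hw6 hO hxi.le (by
      rw [mul_one_div, div_le_one hx0, Real.log_pow]
      push_cast
      have e1 : C * (1 + 6 * Real.log w) ≤ w := by
        refine le_trans ?_ hw2
        have : 6 * C * (1 + Real.log w) ≤ K * (1 + Real.log w) := by gcongr; linarith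
        nlinarith
      calc C * w ^ 6 * (1 + 6 * Real.log w) = w ^ 6 * (C * (1 + 6 * Real.log w)) := by ring
        _ ≤ w ^ 6 * w := by gcongr
        _ = x := by rw [hx]; ring)
  set n : ℕ := ⌈Real.exp (B * x * Real.log x)⌉₊ with hn
  have hn1 : Real.exp (B * x * Real.log x) ≤ n := Nat.le_ceil _
  have hlx : Real.log x = 7 * Real.log w := by rw [hx, Real.log_pow]; norm_num
  have hn2 : (n : ℝ) * l ≤ 1 / 2 := by
    have e1 := (Nat.ceil_lt_add_one (Real.exp_pos (B * x * Real.log x)).le).le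
    have e2 : 1 ≤ Real.exp (B * x * Real.log x) := Real.one_le_exp (by rw [hlx]; positivity)
    have e3 : B * x * Real.log x + 3 ≤ σ := by
      have f1 : (7 * B + 3) * (1 + Real.log w) ≤ K * (1 + Real.log w) := by gcongr; linarith
      have f2 : 7 * B * Real.log w + 3 ≤ w := by nlinarith
      have f3 : 1 ≤ x := by linarith
      calc B * x * Real.log x + 3 ≤ x * (7 * B * Real.log w + 3) := by rw [hlx]; nlinarith
        _ ≤ x * w := by gcongr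
        _ = σ := by rw [hσw, hx]; ring
    have e4 : Real.exp (B * x * Real.log x) * 4 ≤ Real.exp σ := by
      calc Real.exp (B * x * Real.log x) * 4 ≤ Real.exp (B * x * Real.log x) * Real.exp 3 := by
            gcongr; linarith [Real.add_one_le_exp (3 : ℝ)]
        _ ≤ _ := by rw [← Real.exp_add]; exact Real.exp_le_exp.2 e3
    rw [hl, Real.exp_neg, ← div_eq_mul_inv, div_le_iff₀ (Real.exp_pos _)]
    linarith
  have hhalf : (1 / 2 : ℝ) ≤ (1 - l) ^ n := by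
    have := one_add_mul_le_pow (a := -l) (by linarith) n
    rw [← sub_eq_add_neg] at this
    linarith
  have hMom : Mom d (rho ν (betaC d ν)) (q0 d + 1 / x) n < ENNReal.ofReal (x ^ 3) := by
    have e1 := Mom_le_OO (ρ := rho ν (betaC d ν)) (p := q0 d + 1 / x) hd1 hGc.1 (by linarith)
      hl0 hl1 n
    have e2 : ENNReal.ofReal (1 / 2) * Mom d (rho ν (betaC d ν)) (q0 d + 1 / x) n ≤
        ENNReal.ofReal (C * (w ^ 6) ^ 2) :=
      le_trans (by gcongr) (e1.trans hO2)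
    have e3 : Mom d (rho ν (betaC d ν)) (q0 d + 1 / x) n ≤
        ENNReal.ofReal (2 * (C * (w ^ 6) ^ 2)) := by
      calc _ = ENNReal.ofReal 2 *
            (ENNReal.ofReal (1 / 2) * Mom d (rho ν (betaC d ν)) (q0 d + 1 / x) n) := by
            rw [← mul_assoc, ← ENNReal.ofReal_mul (by norm_num)]; norm_num
        _ ≤ ENNReal.ofReal 2 * ENNReal.ofReal (C * (w ^ 6) ^ 2) := by gcongr
        _ = _ := by rw [← ENNReal.ofReal_mul (by norm_num)]
    refine e3.trans_lt ((ENNReal.ofReal_lt_ofReal_iff (by positivity)).2 ?_)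
    have f1 : 2 * C < w ^ 9 := by
      have : w ≤ w ^ 9 := le_self_pow₀ hw1 (by norm_num)
      linarith
    calc 2 * (C * (w ^ 6) ^ 2) = 2 * C * w ^ 12 := by ring
      _ < w ^ 9 * w ^ 12 := by gcongr
      _ = x ^ 3 := by rw [hx]; ring
  have hnear : ∀ᶠ β in 𝓝 (betaC d ν), Mom d (rho ν β) (q0 d + 1 / x) n < ENNReal.ofReal (x ^ 3) ∧
      β ∈ Set.Icc (betaC d ν - ε₀) (betaC d ν + ε₀) :=
    (((mom_cont hd1 hν (by linarith) n).tendsto _).eventually_lt_const hMom).and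
      (Icc_mem_nhds (by linarith) (by linarith))
  obtain ⟨δ, hδ, hball⟩ := Metric.eventually_nhds_iff.1 hnear
  obtain ⟨β, ⟨hβ0, hβf⟩, hβlt⟩ := exists_lt_of_csInf_lt hne
    (show sInf {β | 0 ≤ β ∧ freeEnergy d ν β < 0} < betaC d ν + δ by unfold betaC; linarith)
  have hβc : betaC d ν ≤ β := csInf_le hbdd ⟨hβ0, hβf⟩
  obtain ⟨hMβ, hβI⟩ := hball (y := β) (by
    rw [Real.dist_eq, abs_of_nonneg (by linarith)]; linarith)
  have hGβ := hG β hβI
  obtain ⟨-, hmom, -, hv, -⟩ := hGβ.basic hd hκ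
  obtain ⟨M', hM't, hM'⟩ := hweak x hx3 (rho ν β) hGβ.1
    ((hmom 2 (by norm_num) (by norm_num)).trans (ENNReal.ofReal_le_ofReal (by linarith)))
    ((strict_site hGβ.1 (K := 2 * M) (by linarith) hc0 (hmom 5 (by norm_num) (by norm_num)) hv
      (by linarith) (by linarith)).mono (ENNReal.ofReal_le_ofReal (by
        calc 1 / x ≤ 1 / (8 * M * d / c₀ ^ 2) := by
              gcongr
              linarith
          _ = (2 / d) * c₀ ^ 2 / (8 * (2 * M)) := by field_simp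
          _ ≤ _ := by gcongr; linarith)))
    n hn1 hMβ.le
  exact absurd (freeEnergy_nonneg hd1 hν hβ0 (by linarith) hM't hM') (not_le.2 hβf)

end Pool.Agent.Lib.MP_153faa_pr
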