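import Mathlib
import Pool.Agent.Lib.MP_153faa_pr.GLoc1
import Pool.Agent.Lib.MP_153faa_pr.GCont1

/-!
Comparison of approximately harmonic functionals: the steps of the iteration.
-/

set_option autoImplicit false

open MeasureTheory Filter Topology
open scoped ENNReal NNReal

namespace Pool.Agent.Lib.MP_153faa_pr

variable {d : ℕ} {ρ : Measure ℝ≥0} [IsProbabilityMeasure ρ] {p l C ε η : ℝ} {k₁ k₂ : ℕ}
  {Φ Ψ : Prof d → ℝ≥0∞}

/-- Reward at the exit from the level twice the mass. -/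
noncomputable def gfun2U (ρ : Measure ℝ≥0) [IsProbabilityMeasure ρ] (l : ℝ)
    (F : Prof d → ℝ≥0∞) (f : Prof d) : ℝ≥0∞ := U ρ l (lev d (2 * mr f)) F (fun _ => 0) f

/-- Probability of a localised exit. -/
noncomputable def gfun2G (ρ : Measure ℝ≥0) [IsProbabilityMeasure ρ] (l L : ℝ) (f : Prof d) : ℝ :=
  (gfun2U ρ l ((Gd d L (2 * mr f)).indicator fun _ => 1) f).toReal

/-- The comparison with constants `r` and `e`. -/
def Gfun2Cl (p : ℝ) (Φ Ψ : Prof d → ℝ≥0∞) (r e : ℝ) : Prop :=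
  ∀ f, Nice f → (Φ f).toReal ≤ r * (Ψ f).toReal + e * mr f ^ p

/-- The exit moment is carried by localised exits. -/
def Gfun2Ex (d : ℕ) (ρ : Measure ℝ≥0) [IsProbabilityMeasure ρ] (p l L A τ : ℝ) : Prop :=
  ∀ f : Prof d, Nice f → 0 < mr f →
    gfun2U ρ l (mq p) f ≤ ENNReal.ofReal ((A * gfun2G ρ l L f + τ) * mr f ^ p)

theorem gfun2_mq {f : Prof d} (hf : Nice f) (hp : 0 ≤ p) :
    mq p f = ENNReal.ofReal (mr f ^ p) := by
  rw [mq, ← hf.ofReal_mr]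
  exact ENNReal.ofReal_rpow_of_nonneg ENNReal.toReal_nonneg hp

theorem gfun2_mr (f : Prof d) : 0 ≤ mr f := ENNReal.toReal_nonneg

theorem gfun2_W (f : Prof d) (p : ℝ) : 0 ≤ mr f ^ p := Real.rpow_nonneg (gfun2_mr f) p

theorem gfun2_add {x y : ℝ≥0∞} {e w : ℝ} (hy : y ≠ ⊤) (he : 0 ≤ e) (hw : 0 ≤ w)
    (h : x ≤ y + ENNReal.ofReal e * ENNReal.ofReal w) : x.toReal ≤ y.toReal + e * w := by
  have := ENNReal.toReal_mono (by finiteness) h
  rwa [ENNReal.toReal_add hy (by finiteness), ENNReal.toReal_mul, ENNReal.toReal_ofReal he,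
    ENNReal.toReal_ofReal hw] at this

theorem gfun2_G_le (hd : 1 ≤ d) (h0 : 0 < l) (h1 : l < 1) (L : ℝ) {f : Prof d} (hf : Nice f) :
    gfun2U ρ l ((Gd d L (2 * mr f)).indicator fun _ => 1) f ≤ 1 := by
  refine le_trans ?_ (U_one (ρ := ρ) (measurableSet_lev (2 * mr f)) h0 h1 f).le
  exact U_mono (ρ := ρ) hd (fun g _ _ => Set.indicator_le_self _ _ g) (fun _ _ _ => zero_le) hf

theorem gfun2_G01 (hd : 1 ≤ d) (h0 : 0 < l) (h1 : l < 1) (L : ℝ) {f : Prof d} (hf : Nice f) :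
    0 ≤ gfun2G ρ l L f ∧ gfun2G ρ l L f ≤ 1 :=
  ⟨ENNReal.toReal_nonneg, ENNReal.toReal_mono ENNReal.one_ne_top (gfun2_G_le hd h0 h1 L hf)⟩

theorem gfun2_exit (hd : 1 ≤ d) (hm : Mean1 ρ) {χ : ℝ≥0∞} (hχ : mom ρ 2 = 1 + χ) {K L : ℝ}
    (hK0 : 0 ≤ K) (hK : mom ρ 2 ≤ ENNReal.ofReal K) (hL : 0 ≤ L) (hp1 : 1 ≤ p) (hp2 : p ≤ 2)
    (h0 : 0 < l) (h1 : l < 1)
    (hloc : ∀ (f : Prof d) (t : ℝ), Nice f → 0 < t → 2 * mr f ≤ t →
      II ρ l t f ≤ ENNReal.ofReal (L * t ^ 2) *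
        U ρ l (lev d t) ((Gd d L t).indicator fun _ => 1) (fun _ => 0) f +
          ENNReal.ofReal (L * l ^ (1 / 4 : ℝ) * mr f ^ 2)) :
    Gfun2Ex d ρ p l L (16 * K * L) (4 * K * L * l ^ (1 / 4 : ℝ)) := by
  intro f hf hw
  have hχK : χ ≤ ENNReal.ofReal K := le_add_self.trans (hχ.ge.trans hK)
  set w := mr f with hwdef
  have ht : 0 < 2 * w := by linarith
  have hq : 0 ≤ (2 * w) ^ (p - 2) := by positivity
  have a1 : gfun2U ρ l (mq p) f ≤ ENNReal.ofReal ((2 * w) ^ (p - 2)) *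
      U ρ l (lev d (2 * w)) (mq 2) (fun _ => 0) f := by
    rw [← U_const_mul (measurableSet_lev _) (measurable_mq 2) measurable_const]
    refine U_mono hd (fun g hg hgt => ?_) (fun _ _ _ => zero_le) hf
    have h2 : 2 * w ≤ mr g := by
      have : ENNReal.ofReal (2 * w) ≤ mass g := hgt
      rwa [← hg.ofReal_mr, ENNReal.ofReal_le_ofReal_iff (gfun2_mr g)] at this
    have h3 : 0 < mr g := by linarith
    rw [gfun2_mq hg (by linarith), gfun2_mq hg zero_le_two, ← ENNReal.ofReal_mul hq]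
    refine ENNReal.ofReal_le_ofReal ?_
    calc mr g ^ p = mr g ^ (p - 2) * mr g ^ (2 : ℝ) := by rw [← Real.rpow_add h3]; ring_nf
      _ ≤ _ := mul_le_mul_of_nonneg_right
          (Real.rpow_le_rpow_of_nonpos ht h2 (by linarith)) (by positivity)
  have a2 := U_sq_exit hd hm hχ (ne_top_of_le_ne_top ENNReal.ofReal_ne_top hχK) h0 h1 hf le_rfl
  have a3 := hloc f (2 * w) hf ht le_rfl
  have a4 : U ρ l (lev d (2 * w)) ((Gd d L (2 * w)).indicator fun _ => 1) (fun _ => 0) f =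
      ENNReal.ofReal (gfun2G ρ l L f) :=
    (ENNReal.ofReal_toReal (ne_top_of_le_ne_top ENNReal.one_ne_top (gfun2_G_le hd h0 h1 L hf))).symm
  have hu := (gfun2_G01 (ρ := ρ) hd h0 h1 L hf).1
  have hl : 0 ≤ l ^ (1 / 4 : ℝ) := by positivity
  rw [a4] at a3
  calc _ ≤ _ := a1
    _ ≤ ENNReal.ofReal ((2 * w) ^ (p - 2)) * (ENNReal.ofReal 4 * ENNReal.ofReal K *
        (ENNReal.ofReal (L * (2 * w) ^ 2) * ENNReal.ofReal (gfun2G ρ l L f) +
          ENNReal.ofReal (L * l ^ (1 / 4 : ℝ) * w ^ 2))) := by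
        refine mul_le_mul_right (a2.trans ?_) _
        rw [ENNReal.ofReal_ofNat]
        gcongr
    _ ≤ _ := by
        simp (disch := positivity) only [← ENNReal.ofReal_mul, ← ENNReal.ofReal_add]
        refine ENNReal.ofReal_le_ofReal ?_
        have b1 : (2 * w) ^ (p - 2) * w ^ 2 ≤ w ^ p := by
          calc (2 * w) ^ (p - 2) * w ^ 2 ≤ w ^ (p - 2) * w ^ 2 := mul_le_mul_of_nonneg_right
                (Real.rpow_le_rpow_of_nonpos hw (by linarith) (by linarith)) (by positivity)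
            _ = w ^ p := by rw [← Real.rpow_two, ← Real.rpow_add hw]; ring_nf
        calc _ = (16 * K * L * gfun2G ρ l L f + 4 * K * L * l ^ (1 / 4 : ℝ)) *
              ((2 * w) ^ (p - 2) * w ^ 2) := by ring
          _ ≤ _ := by gcongr

theorem Harm.ne_top (H : Harm ρ p l k₁ k₂ C ε η Φ) (hp : 0 ≤ p) {f : Prof d} (hf : Nice f) :
    Φ f ≠ ⊤ := by
  refine ne_top_of_le_ne_top ?_ (H.up f hf)
  rw [gfun2_mq hf hp]; finiteness

theorem Harm.upR (H : Harm ρ p l k₁ k₂ C ε η Φ) (hp : 0 ≤ p) (hC : 0 ≤ C) {f : Prof d}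
    (hf : Nice f) : (Φ f).toReal ≤ C * mr f ^ p := by
  have := H.up f hf
  rw [gfun2_mq hf hp, ← ENNReal.ofReal_mul hC] at this
  exact ENNReal.toReal_le_of_le_ofReal (mul_nonneg hC (gfun2_W f p)) this

theorem Harm.U_ne_top (H : Harm ρ p l k₁ k₂ C ε η Φ) (hp : 0 ≤ p) {f : Prof d} (hf : Nice f) :
    gfun2U ρ l Φ f ≠ ⊤ := by
  refine ne_top_of_le_ne_top ?_ (H.h1l f hf)
  have := H.ne_top hp hf
  rw [gfun2_mq hf hp]; finiteness

/-- A harmonic functional is carried by localised exits. -/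
theorem gfun2_v (hd : 1 ≤ d) (H : Harm ρ p l k₁ k₂ C ε η Φ) (hp : 0 ≤ p) (hC : 0 ≤ C)
    (hε : 0 ≤ ε) {L A τ : ℝ} (hA : 0 ≤ A) (hτ : 0 ≤ τ) (hex : Gfun2Ex d ρ p l L A τ) {f : Prof d}
    (hf : Nice f) (hw : 0 < mr f) :
    (Φ f).toReal ≤ (C * A * gfun2G ρ l L f + (C * τ + ε)) * mr f ^ p := by
  have hu : 0 ≤ gfun2G ρ l L f := ENNReal.toReal_nonneg
  have hW := gfun2_W f p
  have a1 : gfun2U ρ l Φ f ≤ ENNReal.ofReal C * gfun2U ρ l (mq p) f := by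
    unfold gfun2U
    rw [← U_const_mul (measurableSet_lev _) (measurable_mq p) measurable_const]
    exact U_mono hd (fun g hg _ => H.up g hg) (fun _ _ _ => zero_le) hf
  refine ENNReal.toReal_le_of_le_ofReal (by positivity) ((H.h1u f hf).trans ?_)
  refine (add_le_add_left (a1.trans (mul_le_mul_right (hex f hf hw) _)) _).trans (le_of_eq ?_)
  rw [gfun2_mq hf hp]
  simp (disch := positivity) only [← ENNReal.ofReal_mul, ← ENNReal.ofReal_add]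
  congr 1; ring

/-- Transfer of a gain on localised profiles to the starting profile. -/
theorem gfun2_B (hd : 1 ≤ d) (h0 : 0 < l) (h1 : l < 1) (H : Harm ρ p l k₁ k₂ C ε η Ψ) (hp : 0 ≤ p)
    (hε : 0 ≤ ε) {L A τ : ℝ} (hA : 0 ≤ A) (hτ : 0 ≤ τ) (hex : Gfun2Ex d ρ p l L A τ) {f : Prof d}
    (hf : Nice f) (hw : 0 < mr f) (mΦ : Measurable Φ)
    (hΦ : Φ f ≤ gfun2U ρ l Φ f + ENNReal.ofReal ε * mq p f) {γ r e : ℝ} (hγ : 0 ≤ γ) (hr : 0 ≤ r)
    (he : 0 ≤ e) (h : ∀ g, Nice g → Φ g + ENNReal.ofReal γ *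
      (Gd d L (2 * mr f)).indicator (fun _ => 1) g ≤
        ENNReal.ofReal r * Ψ g + ENNReal.ofReal e * mq p g) :
    (Φ f).toReal + γ * gfun2G ρ l L f ≤
      r * (Ψ f).toReal + ((1 + r) * ε + e * (A + τ)) * mr f ^ p := by
  obtain ⟨hu0, hu1⟩ := gfun2_G01 (ρ := ρ) hd h0 h1 L hf
  have hW := gfun2_W f p
  have hS := measurableSet_lev (d := d) (2 * mr f)
  have mG : Measurable ((Gd d L (2 * mr f)).indicator fun _ => (1 : ℝ≥0∞)) :=
    measurable_const.indicator (measurableSet_Gd _ _)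
  have a1 : gfun2U ρ l Φ f + ENNReal.ofReal γ *
      gfun2U ρ l ((Gd d L (2 * mr f)).indicator fun _ => 1) f ≤
      ENNReal.ofReal r * gfun2U ρ l Ψ f + ENNReal.ofReal e * gfun2U ρ l (mq p) f := by
    unfold gfun2U
    rw [← U_const_mul hS mG measurable_const, ← U_const_mul hS H.meas measurable_const,
      ← U_const_mul hS (measurable_mq p) measurable_const,
      ← U_add hS mΦ (mG.const_mul _) measurable_const measurable_const,
      ← U_add hS (H.meas.const_mul _) ((measurable_mq p).const_mul _) measurable_const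
        measurable_const]
    exact U_mono hd (fun g hg _ => h g hg) (fun _ _ _ => by simp) hf
  have a2 : gfun2U ρ l ((Gd d L (2 * mr f)).indicator fun _ => 1) f =
      ENNReal.ofReal (gfun2G ρ l L f) :=
    (ENNReal.ofReal_toReal (ne_top_of_le_ne_top ENNReal.one_ne_top (gfun2_G_le hd h0 h1 L hf))).symm
  have hψ : 0 ≤ (Ψ f).toReal := ENNReal.toReal_nonneg
  have a3 : Φ f + ENNReal.ofReal (γ * gfun2G ρ l L f) ≤
      ENNReal.ofReal (r * (Ψ f).toReal + ((1 + r) * ε + e * (A + τ)) * mr f ^ p) := by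
    calc Φ f + ENNReal.ofReal (γ * gfun2G ρ l L f)
        ≤ gfun2U ρ l Φ f + ENNReal.ofReal ε * mq p f + ENNReal.ofReal (γ * gfun2G ρ l L f) := by
          gcongr
      _ = gfun2U ρ l Φ f + ENNReal.ofReal γ * gfun2U ρ l
            ((Gd d L (2 * mr f)).indicator fun _ => 1) f + ENNReal.ofReal ε * mq p f := by
          rw [a2, ENNReal.ofReal_mul hγ]; ring
      _ ≤ ENNReal.ofReal r * (Ψ f + ENNReal.ofReal ε * mq p f) + ENNReal.ofReal e *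
            ENNReal.ofReal ((A * gfun2G ρ l L f + τ) * mr f ^ p) + ENNReal.ofReal ε * mq p f := by
          refine add_le_add_left (a1.trans ?_) _
          gcongr
          · exact H.h1l f hf
          · exact hex f hf hw
      _ ≤ _ := by
          rw [← ENNReal.ofReal_toReal (H.ne_top hp hf), gfun2_mq hf hp]
          simp (disch := positivity) only [← ENNReal.ofReal_mul, ← ENNReal.ofReal_add,
            ENNReal.toReal_ofReal]
          refine ENNReal.ofReal_le_ofReal ?_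
          have : e * (A * gfun2G ρ l L f * mr f ^ p) ≤ e * (A * 1 * mr f ^ p) := by gcongr
          nlinarith
  have hΦt : Φ f ≠ ⊤ := ne_top_of_le_ne_top ENNReal.ofReal_ne_top (le_self_add.trans a3)
  have := ENNReal.toReal_le_of_le_ofReal (by positivity) a3
  rwa [ENNReal.toReal_add hΦt ENNReal.ofReal_ne_top, ENNReal.toReal_ofReal (by positivity)] at this

theorem gfun2_zero (H : Harm ρ p l k₁ k₂ C ε η Φ) (hp : 0 < p) (hC : 0 ≤ C) {f : Prof d}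
    (hf : Nice f) (hw : ¬ 0 < mr f) {r e : ℝ} (hr : 0 ≤ r) :
    (Φ f).toReal ≤ r * (Ψ f).toReal + e * mr f ^ p := by
  have h := H.upR hp.le hC hf
  rw [le_antisymm (not_lt.1 hw) (gfun2_mr f), Real.zero_rpow hp.ne', mul_zero] at h ⊢
  have : 0 ≤ r * (Ψ f).toReal := mul_nonneg hr ENNReal.toReal_nonneg
  linarith

theorem gfun2_site {t L : ℝ} (ht : 0 ≤ t) (hL : 1 ≤ L) (hp2 : p ≤ 2) :
    t ^ p / L ^ 2 ≤ (t / L) ^ p := by
  rw [Real.div_rpow ht (by linarith), ← Real.rpow_two]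
  gcongr

theorem gfun2_two {w : ℝ} (hw : 0 ≤ w) (hp : 0 ≤ p) : w ^ p ≤ (2 * w) ^ p :=
  Real.rpow_le_rpow hw (by linarith) hp

/-- The first comparison. -/
theorem gfun2_start (hd : 1 ≤ d) (h0 : 0 < l) (h1 : l < 1) (HΦ : Harm ρ p l k₁ k₂ C ε η Φ)
    (HΨ : Harm ρ p l k₁ k₂ C ε η Ψ) (hp : 0 < p) (hp2 : p ≤ 2) (hC : 1 ≤ C) (hε : 0 ≤ ε)
    {L A τ : ℝ} (hL : 1 ≤ L) (hA : 0 ≤ A) (hτ : 0 ≤ τ) (hτ1 : τ ≤ 1)
    (hex : Gfun2Ex d ρ p l L A τ) :
    Gfun2Cl p Φ Ψ (C ^ 2 * A * L ^ 2) ((C ^ 2 * A * L ^ 2 * (3 + A) + C) * (ε + τ)) := by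
  intro f hf
  by_cases hw : 0 < mr f
  swap
  · exact gfun2_zero HΦ hp (by linarith) hf hw (by positivity)
  have hW := gfun2_W f p
  have a1 := gfun2_v hd HΦ hp.le (by linarith) hε hA hτ hex hf hw
  have a2 := gfun2_B (Φ := fun _ => 0) hd h0 h1 HΨ hp.le hε hA hτ hex hf hw measurable_const
    zero_le (γ := C⁻¹ * (mr f ^ p / L ^ 2)) (r := 1) (e := ε) (by positivity) zero_le_one hε
    fun g hg => by
      by_cases hG : g ∈ Gd d L (2 * mr f)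
      · obtain ⟨x, hx⟩ := hG.2.2
        rw [Set.indicator_of_mem hG, zero_add, mul_one, ENNReal.ofReal_one, one_mul,
          ENNReal.ofReal_mul (by positivity)]
        refine le_trans (mul_le_mul_right ?_ _) (HΨ.low g hg x)
        refine le_trans ?_ (ENNReal.rpow_le_rpow hx hp.le)
        rw [ENNReal.ofReal_rpow_of_nonneg (by positivity) hp.le]
        refine ENNReal.ofReal_le_ofReal (le_trans ?_ (gfun2_site (by positivity) hL hp2))
        exact div_le_div_of_nonneg_right (gfun2_two hw.le hp.le) (by positivity)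
      · simp [Set.indicator_of_notMem hG]
  simp only [ENNReal.toReal_zero, zero_add, one_mul] at a2
  have a3 := mul_le_mul_of_nonneg_left a2 (show 0 ≤ C ^ 2 * A * L ^ 2 by positivity)
  have e1 : C ^ 2 * A * L ^ 2 * (C⁻¹ * (mr f ^ p / L ^ 2) * gfun2G ρ l L f) =
      C * A * gfun2G ρ l L f * mr f ^ p := by field_simp
  rw [e1] at a3
  have b1 : (1 + 1) * ε + ε * (A + τ) ≤ (3 + A) * (ε + τ) := by nlinarith
  have b2 : C * τ + ε ≤ C * (ε + τ) := by nlinarith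
  have b3 := mul_le_mul_of_nonneg_left (mul_le_mul_of_nonneg_right b1 hW)
    (show 0 ≤ C ^ 2 * A * L ^ 2 by positivity)
  have b4 := mul_le_mul_of_nonneg_right b2 hW
  nlinarith

/-- Comparison on a funnelled profile. -/
theorem gfun2_end (HΦ : Harm ρ p l k₁ k₂ C ε η Φ) (HΨ : Harm ρ p l k₁ k₂ C ε η Ψ)
    (hφ : Nice (phi d k₂)) (hp : 1 ≤ p) (hC : 1 ≤ C) (hε : 0 ≤ ε) (hη : 0 < η) (hη1 : η ≤ 1 / 10)
    {b₀ θ : ℝ} (hb₀ : 0 < b₀) (ha : b₀ ≤ (Φ (phi d k₂)).toReal) (hb : b₀ ≤ (Ψ (phi d k₂)).toReal)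
    (hεb : ε ≤ η * b₀) (hθ0 : 0 ≤ θ) (hθ1 : θ ≤ 1) (hθ : C * θ ≤ η ^ 2 * b₀)
    {ν g j : Prof d} {x₀ : Site d} (hν : Nice ν) (hg : Nice g) (hj : Nice j)
    (h1 : ∀ x, ν x ≠ 0 → x - x₀ ∈ box d (3 * k₁)) (h2 : ∀ x, avg^[k₂] ν x ≤ g x)
    (h3 : ∀ x, g x ≤ ENNReal.ofReal (1 + η) * avg^[k₂] ν x + j x) (h4 : mr j ≤ θ * mr ν) :
    (Φ g).toReal ≤ (1 + 20 * η) * (Φ (phi d k₂)).toReal / (Ψ (phi d k₂)).toReal * (Ψ g).toReal ∧
      b₀ / 2 * mr ν ^ p ≤ (Ψ g).toReal := by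
  have hp0 : 0 ≤ p := by linarith
  have hn := gfun2_mr ν
  have hN := gfun2_W ν p
  have hJ := gfun2_W j p
  have h5 : mass j ≤ mass ν := by
    rw [← hj.ofReal_mr, ← hν.ofReal_mr]
    exact ENNReal.ofReal_le_ofReal (h4.trans (mul_le_of_le_one_left hn hθ1))
  have a1 := HΦ.shu ν g j x₀ hν hg hj h1 h2 h3 h5
  have a2 := HΨ.shl ν g x₀ hν hg h1 h2
  set a := (Φ (phi d k₂)).toReal
  set b := (Ψ (phi d k₂)).toReal
  have ea : Φ (phi d k₂) = ENNReal.ofReal a := (ENNReal.ofReal_toReal (HΦ.ne_top hp0 hφ)).symm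
  have eb : Ψ (phi d k₂) = ENNReal.ofReal b := (ENNReal.ofReal_toReal (HΨ.ne_top hp0 hφ)).symm
  have ha0 : 0 < a := by linarith
  have hb0 : 0 < b := by linarith
  have hη2 : 0 ≤ 1 - 2 * η := by linarith
  rw [ea, gfun2_mq hν hp0, gfun2_mq hj hp0] at a1
  rw [eb, gfun2_mq hν hp0] at a2
  simp (disch := positivity) only [← ENNReal.ofReal_mul, ← ENNReal.ofReal_add] at a1
  have b1 := ENNReal.toReal_le_of_le_ofReal (by positivity) a1
  have b2 := gfun2_add (HΨ.ne_top hp0 hg) hε hN a2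
  simp (disch := positivity) only [ENNReal.toReal_mul, ENNReal.toReal_ofReal] at b2
  have b3 : mr j ^ p ≤ θ * mr ν ^ p := by
    calc mr j ^ p ≤ (θ * mr ν) ^ p := Real.rpow_le_rpow (gfun2_mr j) h4 hp0
      _ = θ ^ p * mr ν ^ p := Real.mul_rpow hθ0 hn
      _ ≤ _ := mul_le_mul_of_nonneg_right (by
          simpa using Real.rpow_le_rpow_of_exponent_ge' hθ0 hθ1 zero_le_one hp) hN
  have b4 : C / η * mr j ^ p ≤ η * a * mr ν ^ p := by
    calc C / η * mr j ^ p ≤ C / η * (θ * mr ν ^ p) := by gcongr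
      _ = C * θ / η * mr ν ^ p := by ring
      _ ≤ η ^ 2 * a / η * mr ν ^ p := by
          have : C * θ ≤ η ^ 2 * a := hθ.trans (by gcongr)
          gcongr
      _ = _ := by field_simp
  have c1 : ε * mr ν ^ p ≤ η * a * mr ν ^ p := by gcongr; exact hεb.trans (by gcongr)
  have c2 : ε * mr ν ^ p ≤ η * b * mr ν ^ p := by gcongr; exact hεb.trans (by gcongr)
  have c3 : (1 - 3 * η) * (b * mr ν ^ p) ≤ (Ψ g).toReal := by linarith
  have c4 : (Φ g).toReal ≤ (1 + 10 * η) * (a * mr ν ^ p) := by linarith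
  have haN : 0 ≤ a * mr ν ^ p := by positivity
  constructor
  · calc (Φ g).toReal ≤ (1 + 10 * η) * (a * mr ν ^ p) := c4
      _ ≤ (1 + 20 * η) * (1 - 3 * η) * (a * mr ν ^ p) := by gcongr; nlinarith
      _ = (1 + 20 * η) * a / b * ((1 - 3 * η) * (b * mr ν ^ p)) := by field_simp
      _ ≤ _ := by gcongr
  · refine le_trans ?_ c3
    rw [← mul_assoc]
    gcongr
    nlinarith

theorem Gfun2Cl.enn (HΦ : Harm ρ p l k₁ k₂ C ε η Φ) (HΨ : Harm ρ p l k₁ k₂ C ε η Ψ) (hp : 0 ≤ p)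
    {r e : ℝ} (hr : 0 ≤ r) (he : 0 ≤ e) (h : Gfun2Cl p Φ Ψ r e) {f : Prof d} (hf : Nice f) :
    Φ f ≤ ENNReal.ofReal r * Ψ f + ENNReal.ofReal e * mq p f := by
  have hW := gfun2_W f p
  have hψ : 0 ≤ (Ψ f).toReal := ENNReal.toReal_nonneg
  rw [← ENNReal.ofReal_toReal (HΦ.ne_top hp hf), ← ENNReal.ofReal_toReal (HΨ.ne_top hp hf),
    gfun2_mq hf hp]
  simp (disch := positivity) only [← ENNReal.ofReal_mul, ← ENNReal.ofReal_add]
  exact ENNReal.ofReal_le_ofReal (h f hf)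

/-- A gain on an event of positive probability. -/
theorem gfun2_T (hd : 1 ≤ d) (HΦ : Harm ρ p l k₁ k₂ C ε η Φ) (HΨ : Harm ρ p l k₁ k₂ C ε η Ψ)
    (hp : 1 ≤ p) (hε : 0 ≤ ε) {r₀ s e γ c₀ Q : ℝ} (hr₀ : 0 ≤ r₀) (hs : 0 ≤ s) (he : 0 ≤ e)
    (hγ : 0 ≤ γ) (hQ0 : 0 ≤ Q) (hQ : Mom d ρ p (k₁ + k₂) ≤ ENNReal.ofReal Q)
    (h : Gfun2Cl p Φ Ψ (r₀ + s) e) {g : Prof d} (hg : Nice g) {E : Set (ℕ → Layer d)}
    (hE : MeasurableSet E) (hE' : ENNReal.ofReal c₀ ≤ env d ρ E)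
    (hω : ∀ ω ∈ E, (Φ (ev (k₁ + k₂) ω g)).toReal ≤ r₀ * (Ψ (ev (k₁ + k₂) ω g)).toReal ∧
      γ ≤ (Ψ (ev (k₁ + k₂) ω g)).toReal) :
    Φ g + ENNReal.ofReal (s * γ * c₀) ≤
      ENNReal.ofReal (r₀ + s) * Ψ g + ENNReal.ofReal (Q * e + (1 + (r₀ + s)) * ε) * mq p g := by
  have hp0 : 0 ≤ p := by linarith
  have a1 : ∀ ω, Φ (ev (k₁ + k₂) ω g) + E.indicator (fun _ => ENNReal.ofReal (s * γ)) ω ≤
      ENNReal.ofReal (r₀ + s) * Ψ (ev (k₁ + k₂) ω g) +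
        ENNReal.ofReal e * mq p (ev (k₁ + k₂) ω g) := fun ω => by
    have hn := hg.of_ev hd (k₁ + k₂) ω
    by_cases hE : ω ∈ E
    · rw [Set.indicator_of_mem hE]
      refine le_trans ?_ le_self_add
      obtain ⟨b1, b2⟩ := hω ω hE
      rw [← ENNReal.ofReal_toReal (HΦ.ne_top hp0 hn), ← ENNReal.ofReal_toReal (HΨ.ne_top hp0 hn),
        ← ENNReal.ofReal_add ENNReal.toReal_nonneg (by positivity),
        ← ENNReal.ofReal_mul (by positivity)]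
      refine ENNReal.ofReal_le_ofReal ?_
      nlinarith [mul_le_mul_of_nonneg_left b2 hs]
    · rw [Set.indicator_of_notMem hE, add_zero]
      exact h.enn HΦ HΨ hp0 (by positivity) he hn
  have a2 := lintegral_mono (μ := env d ρ) a1
  have mev := measurable_ev (k₁ + k₂) g
  have m1 : Measurable fun ω => Φ (ev (k₁ + k₂) ω g) := HΦ.meas.comp mev
  have m2 : Measurable fun ω => Ψ (ev (k₁ + k₂) ω g) := HΨ.meas.comp mev
  have m3 : Measurable fun ω => mq p (ev (k₁ + k₂) ω g) := (measurable_mq p).comp mev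
  rw [lintegral_add_left m1, lintegral_add_left (m2.const_mul _), lintegral_const_mul _ m2,
    lintegral_const_mul _ m3, lintegral_indicator_const hE] at a2
  rw [← T_iter_eq _ HΦ.meas, ← T_iter_eq _ HΨ.meas, ← T_iter_eq _ (measurable_mq p)] at a2
  have a3 : (T ρ)^[k₁ + k₂] (mq p) g ≤ ENNReal.ofReal Q * mq p g :=
    (T_iter_mq_le hp _ g).trans (by rw [mul_comm]; exact mul_le_mul_left hQ _)
  calc Φ g + ENNReal.ofReal (s * γ * c₀)
      ≤ (T ρ)^[k₁ + k₂] Φ g + ENNReal.ofReal ε * mq p g + ENNReal.ofReal (s * γ) * env d ρ E := by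
        rw [ENNReal.ofReal_mul (by positivity)]
        gcongr
        exact HΦ.h2u g hg
    _ = (T ρ)^[k₁ + k₂] Φ g + ENNReal.ofReal (s * γ) * env d ρ E + ENNReal.ofReal ε * mq p g := by
        ring
    _ ≤ ENNReal.ofReal (r₀ + s) * (Ψ g + ENNReal.ofReal ε * mq p g) +
        ENNReal.ofReal e * (ENNReal.ofReal Q * mq p g) + ENNReal.ofReal ε * mq p g := by
        refine add_le_add_left (a2.trans ?_) _
        gcongr
        exact HΨ.h2l g hg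
    _ = _ := by
        rw [ENNReal.ofReal_add (p := Q * e) (by positivity) (by positivity), ENNReal.ofReal_mul hQ0,
          ENNReal.ofReal_mul (p := 1 + (r₀ + s)) (by positivity),
          ENNReal.ofReal_add zero_le_one (by positivity), ENNReal.ofReal_one]
        ring

/-- The conclusion of the funnel on localised profiles. -/
def Gfun2Fn (ρ : Measure ℝ≥0) [IsProbabilityMeasure ρ] (p L : ℝ) (k : ℕ) (Φ Ψ : Prof d → ℝ≥0∞)
    (r₀ c₀ c₂ : ℝ) : Prop :=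
  ∀ (t : ℝ) (g : Prof d), 0 < t → Nice g → g ∈ Gd d L t → ∃ E : Set (ℕ → Layer d),
    MeasurableSet E ∧ ENNReal.ofReal c₀ ≤ env d ρ E ∧ ∀ ω ∈ E,
      (Φ (ev k ω g)).toReal ≤ r₀ * (Ψ (ev k ω g)).toReal ∧ c₂ * t ^ p ≤ (Ψ (ev k ω g)).toReal

/-- One step of the iteration. -/
theorem gfun2_step (hd : 1 ≤ d) (h0 : 0 < l) (h1 : l < 1) (HΦ : Harm ρ p l k₁ k₂ C ε η Φ)
    (HΨ : Harm ρ p l k₁ k₂ C ε η Ψ) (hp : 1 ≤ p) (hC : 1 ≤ C) (hε : 0 ≤ ε) {L A τ : ℝ}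
    (hA : 0 ≤ A) (hτ : 0 ≤ τ) (hτ1 : τ ≤ 1) (hex : Gfun2Ex d ρ p l L A τ) {r₀ c₀ c₂ c₄ Q R : ℝ}
    (hr₀ : 0 ≤ r₀) (hc₀ : 0 ≤ c₀) (hc₂ : 0 ≤ c₂) (hc₄ : 0 ≤ c₄) (hc₄1 : c₄ ≤ 1)
    (hc : c₄ * (C * A) ≤ c₂ * c₀) (hfn : Gfun2Fn ρ p L (k₁ + k₂) Φ Ψ r₀ c₀ c₂) (hQ1 : 1 ≤ Q)
    (hQ : Mom d ρ p (k₁ + k₂) ≤ ENNReal.ofReal Q) {s E : ℝ} (hs : 0 ≤ s) (hE : 0 ≤ E)
    (hR : r₀ + s ≤ R) (h : Gfun2Cl p Φ Ψ (r₀ + s) (E * (ε + τ))) :
    Gfun2Cl p Φ Ψ (r₀ + (1 - c₄) * s)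
      ((Q * (A + 1) * E + ((1 + R) * (A + 2) + R * C)) * (ε + τ)) := by
  intro f hf
  have hp0 : 0 ≤ p := by linarith
  by_cases hw : 0 < mr f
  swap
  · exact gfun2_zero HΦ (by linarith) (by linarith) hf hw
      (add_nonneg hr₀ (mul_nonneg (by linarith) hs))
  have hW := gfun2_W f p
  have hT := gfun2_two hw.le hp0
  have hT0 : 0 ≤ (2 * mr f) ^ p := hW.trans hT
  have he : 0 ≤ E * (ε + τ) := by positivity
  have a1 := gfun2_v hd HΨ hp0 (by linarith) hε hA hτ hex hf hw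
  have a2 := gfun2_B hd h0 h1 HΨ hp0 hε hA hτ hex hf hw HΦ.meas (HΦ.h1u f hf)
    (γ := s * (c₂ * (2 * mr f) ^ p) * c₀) (r := r₀ + s)
    (e := Q * (E * (ε + τ)) + (1 + (r₀ + s)) * ε) (by positivity) (by positivity) (by positivity)
    fun g hg => by
      by_cases hG : g ∈ Gd d L (2 * mr f)
      · obtain ⟨E', b1, b2, b3⟩ := hfn _ g (by linarith) hg hG
        rw [Set.indicator_of_mem hG, mul_one]
        exact gfun2_T hd HΦ HΨ hp hε hr₀ hs he (by positivity) (by linarith) hQ h hg b1 b2 b3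
      · rw [Set.indicator_of_notMem hG, mul_zero, add_zero]
        refine (h.enn HΦ HΨ hp0 (by positivity) he hg).trans ?_
        gcongr
        have : 0 ≤ (1 + (r₀ + s)) * ε := by positivity
        nlinarith
  obtain ⟨hu0, -⟩ := gfun2_G01 (ρ := ρ) hd h0 h1 L hf
  set u := gfun2G ρ l L f
  set W := mr f ^ p
  have a3 := mul_le_mul_of_nonneg_left a1 (show 0 ≤ c₄ * s by positivity)
  have b1 : c₄ * (C * A) * (s * u) * W ≤ c₂ * c₀ * (s * u) * (2 * mr f) ^ p := by gcongr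
  have hsR : s ≤ R := by linarith
  have hR0 : 0 ≤ R := by linarith
  have b2 : c₄ * s * (C * τ + ε) ≤ 1 * R * (C * (ε + τ)) := by
    gcongr
    nlinarith
  have b3 : (1 + (r₀ + s)) * ε ≤ (1 + R) * (ε + τ) := by gcongr; linarith
  have b4 : (Q * (E * (ε + τ)) + (1 + (r₀ + s)) * ε) * (A + τ) ≤
      (Q * (E * (ε + τ)) + (1 + R) * (ε + τ)) * (A + 1) := by gcongr
  have b5 := mul_le_mul_of_nonneg_right b2 hW
  have b6 := mul_le_mul_of_nonneg_right b3 hW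
  have b7 := mul_le_mul_of_nonneg_right b4 hW
  nlinarith

theorem gfun2_iter (hd : 1 ≤ d) (h0 : 0 < l) (h1 : l < 1) (HΦ : Harm ρ p l k₁ k₂ C ε η Φ)
    (HΨ : Harm ρ p l k₁ k₂ C ε η Ψ) (hp : 1 ≤ p) (hp2 : p ≤ 2) (hC : 1 ≤ C) (hε : 0 ≤ ε)
    {L A τ : ℝ} (hL : 1 ≤ L) (hA : 0 ≤ A) (hτ : 0 ≤ τ) (hτ1 : τ ≤ 1)
    (hex : Gfun2Ex d ρ p l L A τ) {r₀ c₀ c₂ c₄ Q R D : ℝ}
    (hr₀ : 0 ≤ r₀) (hc₀ : 0 ≤ c₀) (hc₂ : 0 ≤ c₂) (hc₄ : 0 ≤ c₄) (hc₄1 : c₄ ≤ 1)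
    (hc : c₄ * (C * A) ≤ c₂ * c₀) (hfn : Gfun2Fn ρ p L (k₁ + k₂) Φ Ψ r₀ c₀ c₂) (hQ1 : 1 ≤ Q)
    (hQ : Mom d ρ p (k₁ + k₂) ≤ ENNReal.ofReal Q) (hR : r₀ + C ^ 2 * A * L ^ 2 ≤ R)
    (hD0 : C ^ 2 * A * L ^ 2 * (3 + A) + C ≤ D)
    (hD : Q * (A + 1) + ((1 + R) * (A + 2) + R * C) ≤ D) (n : ℕ) :
    Gfun2Cl p Φ Ψ (r₀ + (1 - c₄) ^ n * (C ^ 2 * A * L ^ 2)) (D ^ (n + 1) * (ε + τ)) := by
  have hR₀ : 0 ≤ C ^ 2 * A * L ^ 2 := by positivity
  have hD1 : 1 ≤ D := le_trans (by nlinarith) hD0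
  have mono : ∀ {r r' e e' : ℝ}, r ≤ r' → e ≤ e' → Gfun2Cl p Φ Ψ r e → Gfun2Cl p Φ Ψ r' e' :=
    fun hr he h f hf => (h f hf).trans (add_le_add
      (mul_le_mul_of_nonneg_right hr ENNReal.toReal_nonneg)
      (mul_le_mul_of_nonneg_right he (gfun2_W f p)))
  induction n with
  | zero =>
    refine mono (by simpa using hr₀) ?_
      (gfun2_start hd h0 h1 HΦ HΨ (by linarith) hp2 hC hε hL hA hτ hτ1 hex)
    rw [zero_add, pow_one]
    gcongr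
  | succ n ih =>
    have h2 : 0 ≤ 1 - c₄ := by linarith
    have h3 : (1 - c₄) ^ n ≤ 1 := pow_le_one₀ h2 (by linarith)
    have h4 : 1 ≤ D ^ (n + 1) := one_le_pow₀ hD1
    refine mono (le_of_eq (by ring)) ?_
      (gfun2_step hd h0 h1 HΦ HΨ hp hC hε hA hτ hτ1 hex hr₀ hc₀ hc₂ hc₄ hc₄1 hc hfn hQ1 hQ
        (by positivity) (by positivity) (R := R) (by nlinarith) ih)
    have h5 : 0 ≤ (1 + R) * (A + 2) + R * C := by
      have : 0 ≤ R := by linarith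
      positivity
    rw [pow_succ' D (n + 1)]
    gcongr
    nlinarith [mul_le_mul_of_nonneg_right hD (show 0 ≤ D ^ (n + 1) by positivity),
      mul_le_mul_of_nonneg_left h4 h5]

end Pool.Agent.Lib.MP_153faa_pr
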