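import Mathlib
import Pool.Agent.Lib.MP_153faa_pr.GLayer

set_option autoImplicit false

open MeasureTheory Filter Topology
open scoped ENNReal NNReal

namespace Pool.Agent.Lib.MP_153faa_pr

variable {d : ℕ}

theorem gfunnel_nbr {f : Prof d} {x : Site d} (h : avg f x ≠ 0) :
    ∃ y, f y ≠ 0 ∧ ∀ i, y i - 1 ≤ x i ∧ x i ≤ y i + 1 := by
  by_contra h0
  push Not at h0
  apply h
  simp only [avg]
  rw [Finset.sum_eq_zero, mul_zero]
  intro j _
  have hs : ∀ i : Fin d, (0 : ℤ) ≤ (Pi.single j 1 : Site d) i ∧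
      (Pi.single j 1 : Site d) i ≤ 1 := by
    intro i
    by_cases h : i = j
    · subst h; simp
    · simp [Pi.single_eq_of_ne h]
  have k : ∀ y : Site d, (∀ i, y i - 1 ≤ x i ∧ x i ≤ y i + 1) → f y = 0 := fun y hy => by
    by_contra h1
    obtain ⟨i, hi⟩ := h0 y h1
    have := hy i
    omega
  rw [k, k, add_zero]
  · intro i
    have := hs i
    rw [Pi.add_apply]
    omega
  · intro i
    have := hs i
    rw [Pi.sub_apply]
    omega

theorem gfunnel_box_mono {r s : ℕ} (h : r ≤ s) {x : Site d} (hx : x ∈ box d r) : x ∈ box d s :=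
  heat_mem_box.2 fun i => by have := heat_mem_box.1 hx i; omega

theorem gfunnel_sup_avg {x₀ : Site d} {r : ℕ} {f : Prof d} (h : ∀ x, f x ≠ 0 → x - x₀ ∈ box d r)
    (x : Site d) (hx : avg f x ≠ 0) : x - x₀ ∈ box d (r + 1) := by
  obtain ⟨y, hy, hxy⟩ := gfunnel_nbr hx
  refine heat_mem_box.2 fun i => ?_
  have a1 := heat_mem_box.1 (h y hy) i
  have a2 := hxy i
  rw [Pi.sub_apply] at a1 ⊢
  push_cast
  omega

theorem gfunnel_out_avg {x₀ : Site d} {r : ℕ} {f : Prof d}
    (h : ∀ x, x - x₀ ∈ box d (r + 1) → f x = 0) (x : Site d) (hx : x - x₀ ∈ box d r) :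
    avg f x = 0 := by
  by_contra h0
  obtain ⟨y, hy, hxy⟩ := gfunnel_nbr h0
  refine hy (h y (heat_mem_box.2 fun i => ?_))
  have a1 := heat_mem_box.1 hx i
  have a2 := hxy i
  rw [Pi.sub_apply] at a1 ⊢
  push_cast
  omega

theorem gfunnel_sup_iter {x₀ : Site d} {r : ℕ} {f : Prof d} (h : ∀ x, f x ≠ 0 → x - x₀ ∈ box d r)
    (n : ℕ) : ∀ x, avg^[n] f x ≠ 0 → x - x₀ ∈ box d (r + n) := by
  induction n with
  | zero => exact h
  | succ n ih =>
    rw [Function.iterate_succ_apply']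
    exact gfunnel_sup_avg ih

theorem gfunnel_sup_ev {x₀ : Site d} {r : ℕ} {f : Prof d} (h : ∀ x, f x ≠ 0 → x - x₀ ∈ box d r)
    (ω : ℕ → Layer d) (n : ℕ) : ∀ x, ev n ω f x ≠ 0 → x - x₀ ∈ box d (r + n) := by
  induction n with
  | zero => exact h
  | succ n ih =>
    rw [ev_succ']
    exact fun x hx => gfunnel_sup_avg ih x (right_ne_zero_of_mul hx)

theorem gfunnel_sand {x₀ : Site d} {r : ℕ} {f : Prof d} (h : ∀ x, f x ≠ 0 → x - x₀ ∈ box d r)
    {ω : ℕ → Layer d} {a b : ℝ≥0∞} (n : ℕ)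
    (hω : ∀ i < n, ∀ x, x - x₀ ∈ box d (r + n) → a ≤ ω i x ∧ ω i x ≤ b) (x : Site d) :
    a ^ n * avg^[n] f x ≤ ev n ω f x ∧ ev n ω f x ≤ b ^ n * avg^[n] f x := by
  induction n generalizing x with
  | zero => simp
  | succ n ih =>
    have ih' := ih fun i hi x hx => hω i (by omega) x (gfunnel_box_mono (by omega) hx)
    have k1 : a ^ n * avg (avg^[n] f) x ≤ avg (ev n ω f) x := by
      have := avg_mono (f := fun x => a ^ n * avg^[n] f x) (fun y => (ih' y).1) x
      rwa [avg_smul] at this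
    have k2 : avg (ev n ω f) x ≤ b ^ n * avg (avg^[n] f) x := by
      have := avg_mono (g := fun x => b ^ n * avg^[n] f x) (fun y => (ih' y).2) x
      rwa [avg_smul] at this
    rw [ev_succ', Function.iterate_succ_apply', step]
    by_cases h0 : avg (avg^[n] f) x = 0
    · rw [h0, mul_zero] at k2
      rw [h0, le_antisymm k2 zero_le]
      simp
    · obtain ⟨h1, h2⟩ := hω n (by omega) x (gfunnel_sup_avg (gfunnel_sup_iter h n) x h0)
      rw [pow_succ', pow_succ', mul_assoc, mul_assoc]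
      exact ⟨mul_le_mul' h1 k1, mul_le_mul' h2 k2⟩

theorem gfunnel_split (m n : ℕ) (ω : ℕ → Layer d) (f : Prof d) :
    ev (m + n) ω f = ev n (fun k => ω (m + k)) (ev m ω f) := by
  induction n with
  | zero => rfl
  | succ n ih => rw [← add_assoc, ev_succ', ev_succ', ih]

theorem gfunnel_pow {e : ℝ} (he : 0 ≤ e) (k : ℕ) (h : 2 * k * e ≤ 1) :
    (1 + e) ^ k ≤ 1 + 2 * k * e := by
  induction k with
  | zero => simp
  | succ k ih =>
    push_cast at h ⊢
    have h1 : 2 * k * e ≤ 1 := by nlinarith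
    have h2 := ih h1
    rw [pow_succ]
    nlinarith [mul_le_mul_of_nonneg_right h2 (show 0 ≤ 1 + e by linarith),
      mul_le_mul_of_nonneg_right h1 he]

variable {ρ : Measure ℝ≥0} [IsProbabilityMeasure ρ]

theorem gfunnel_layer (hd : 1 ≤ d) (hm : Mean1 ρ) (B : Finset (Site d)) {S : Set ℝ≥0}
    (hS : MeasurableSet S) {A : ℝ≥0∞} (hA : 1 ≤ A) (f : Prof d)
    (h : ∀ x ∈ B, avg f x ≠ 0 → ∀ t ∈ S, (t : ℝ≥0∞) ≤ A) :
    ∫⁻ ξ, (Set.pi B fun _ => S).indicator 1 ξ * mass (step f ξ) ∂lay d ρ ≤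
      lay d ρ (Set.pi B fun _ => S) * A * mass f := by
  set G : Set (Layer d) := Set.pi B fun _ => S with hG
  have mG : MeasurableSet G := MeasurableSet.pi B.countable_toSet fun _ _ => hS
  have mI : Measurable (G.indicator (1 : Layer d → ℝ≥0∞)) := measurable_one.indicator mG
  have mx : ∀ x, Measurable fun ξ : Layer d => G.indicator 1 ξ * (ξ x : ℝ≥0∞) := fun x =>
    mI.mul (measurable_pi_apply x).coe_nnreal_ennreal
  have e : ∀ ξ : Layer d, G.indicator 1 ξ * mass (step f ξ) =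
      ∑' x, avg f x * (G.indicator 1 ξ * (ξ x : ℝ≥0∞)) := fun ξ => by
    rw [mass_step, ← ENNReal.tsum_mul_left]
    exact tsum_congr fun x => by ring
  simp only [e]
  rw [lintegral_tsum fun x => ((mx x).const_mul _).aemeasurable, ← mass_avg hd f, mass,
    ← ENNReal.tsum_mul_left]
  refine ENNReal.tsum_le_tsum fun x => ?_
  rw [lintegral_const_mul _ (mx x), mul_comm]
  by_cases h0 : avg f x = 0
  · simp [h0]
  refine mul_le_mul_left ?_ _
  by_cases hx : x ∈ B
  · rw [← lintegral_indicator_one mG, ← lintegral_mul_const _ mI]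
    refine lintegral_mono fun ξ => ?_
    by_cases hξ : ξ ∈ G
    · exact mul_le_mul_right (h x hx h0 _ (hξ x hx)) _
    · simp [hξ]
  · rw [lintegral_update' (mx x) x]
    have e2 : ∀ (ξ : Layer d) (t : ℝ≥0), G.indicator (1 : Layer d → ℝ≥0∞) (Function.update ξ x t) =
        G.indicator 1 ξ := fun ξ t => by
      have : Function.update ξ x t ∈ G ↔ ξ ∈ G := forall₂_congr fun y hy => by
        rw [Function.update_of_ne (by rintro rfl; exact hx hy)]
      by_cases hξ : ξ ∈ G
      · rw [Set.indicator_of_mem hξ, Set.indicator_of_mem (this.2 hξ)]; rfl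
      · rw [Set.indicator_of_notMem hξ, Set.indicator_of_notMem (mt this.1 hξ)]
    simp only [e2, Function.update_self]
    simp only [lintegral_const_mul _ measurable_coe_nnreal_ennreal, show ∫⁻ t, (t : ℝ≥0∞) ∂ρ = 1 from hm,
      mul_one]
    rw [lintegral_indicator_one mG]
    exact le_mul_of_one_le_right' hA

theorem gfunnel_chain (n : ℕ) (G : ℕ → Set (Layer d)) (mG : ∀ i, MeasurableSet (G i))
    (L : ℕ → ℝ≥0∞) (P : ℕ → Prof d → Prop) (hP : ∀ i f ξ, P i f → P (i + 1) (step f ξ))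
    (h : ∀ i f, P i f → ∫⁻ ξ, (G i).indicator 1 ξ * mass (step f ξ) ∂lay d ρ ≤ L i * mass f)
    (f : Prof d) (hf : P 0 f) :
    ∫⁻ ω, (Set.pi (Finset.range n) G).indicator 1 ω * mass (ev n ω f) ∂env d ρ ≤
      (∏ i ∈ Finset.range n, L i) * mass f := by
  induction n generalizing G L P f with
  | zero => simp
  | succ n ih =>
    have mW : ∀ (m : ℕ) (G : ℕ → Set (Layer d)), (∀ i, MeasurableSet (G i)) → ∀ f : Prof d,
        Measurable fun ω => (Set.pi (Finset.range m) G).indicator (1 : (ℕ → Layer d) → ℝ≥0∞) ω *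
          mass (ev m ω f) := fun m G mG f =>
      (measurable_one.indicator (MeasurableSet.pi (Finset.range m).countable_toSet
        fun i _ => mG i)).mul (measurable_mass.comp (measurable_ev m f))
    rw [lintegral_env (mW _ G mG f)]
    have e : ∀ (ξ : Layer d) (ω : ℕ → Layer d), (Set.pi (Finset.range (n + 1)) G).indicator
        (1 : (ℕ → Layer d) → ℝ≥0∞) (Pool.Agent.Lib.MP_db3298_pr.consSeq ξ ω) =
        (G 0).indicator 1 ξ * (Set.pi (Finset.range n) fun i => G (i + 1)).indicator 1 ω := by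
      intro ξ ω
      have : Pool.Agent.Lib.MP_db3298_pr.consSeq ξ ω ∈ Set.pi (Finset.range (n + 1)) G ↔
          ξ ∈ G 0 ∧ ω ∈ Set.pi (Finset.range n) fun i => G (i + 1) := by
        simp only [Set.mem_pi, Finset.coe_range, Set.mem_Iio]
        rw [Nat.forall_lt_succ_left]
        rfl
      by_cases h1 : ξ ∈ G 0
      · by_cases h2 : ω ∈ Set.pi (Finset.range n) fun i => G (i + 1)
        · rw [Set.indicator_of_mem (this.2 ⟨h1, h2⟩), Set.indicator_of_mem h1,
            Set.indicator_of_mem h2]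
          simp
        · rw [Set.indicator_of_notMem fun h3 => h2 (this.1 h3).2, Set.indicator_of_notMem h2,
            mul_zero]
      · rw [Set.indicator_of_notMem fun h3 => h1 (this.1 h3).1, Set.indicator_of_notMem h1,
          zero_mul]
    calc _ = ∫⁻ ξ, (G 0).indicator 1 ξ * ∫⁻ ω, (Set.pi (Finset.range n) fun i => G (i + 1)).indicator
            1 ω * mass (ev n ω (step f ξ)) ∂env d ρ ∂lay d ρ := by
          refine lintegral_congr fun ξ => ?_
          rw [← lintegral_const_mul _ (mW n _ (fun i => mG (i + 1)) _)]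
          refine lintegral_congr fun ω => ?_
          rw [e, mul_assoc]
          rfl
      _ ≤ ∫⁻ ξ, (∏ i ∈ Finset.range n, L (i + 1)) *
            ((G 0).indicator 1 ξ * mass (step f ξ)) ∂lay d ρ := by
          refine lintegral_mono fun ξ => ?_
          rw [mul_left_comm]
          exact mul_le_mul_right (ih _ (fun i => mG (i + 1)) _ (fun i => P (i + 1))
            (fun i => hP (i + 1)) (fun i => h (i + 1)) _ (hP 0 f ξ hf)) _
      _ ≤ _ := by
          rw [lintegral_const_mul (f := fun ξ => (G 0).indicator 1 ξ * mass (step f ξ)) _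
            ((measurable_one.indicator (mG 0)).mul (measurable_mass.comp (measurable_step f))),
            Finset.prod_range_succ', mul_assoc]
          exact mul_le_mul_right (h 0 f hf) _

/-- With positive probability the environment funnels the mass into a heat kernel shape. -/
theorem funnel (hd : 3 ≤ d) {κ M : ℝ} (hκ : 0 < κ) : ∃ c : ℝ, 0 < c ∧
    ∀ (η : ℝ) (k₁ k₂ : ℕ), 0 < η → η ≤ 1 → ∃ c₀ : ℝ, 0 < c₀ ∧
      ∀ (ρ : Measure ℝ≥0) [IsProbabilityMeasure ρ], Good d κ M ρ →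
        ∀ (g : Prof d) (x₀ : Site d), Nice g → ∃ E : Set (ℕ → Layer d), MeasurableSet E ∧
          ENNReal.ofReal c₀ ≤ env d ρ E ∧ ∀ ω ∈ E, ∃ ν j : Prof d, Nice ν ∧ Nice j ∧
            (∀ x, ν x ≠ 0 → x - x₀ ∈ box d (3 * k₁)) ∧
            (∀ x, avg^[k₂] ν x ≤ ev (k₁ + k₂) ω g x) ∧
            (∀ x, ev (k₁ + k₂) ω g x ≤ ENNReal.ofReal (1 + η) * avg^[k₂] ν x + j x) ∧
            g x₀ ≤ mass ν ∧
            ENNReal.ofReal ((1 + c) ^ k₁) * g x₀ * mass j ≤ 4 * mass g * mass ν := by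
  have hd1 : 1 ≤ d := by omega
  obtain ⟨c, hc, hc1, win⟩ := window (M := M) hd hκ
  refine ⟨c, hc, fun η k₁ k₂ hη hη1 => ?_⟩
  set e : ℝ := η / (2 * k₂ + 2) with he
  have hk : (0 : ℝ) ≤ k₂ := Nat.cast_nonneg _
  have he0 : 0 < e := by positivity
  have hke : 2 * k₂ * e ≤ η := by
    rw [he, ← mul_div_assoc, div_le_iff₀ (by positivity)]
    nlinarith
  have he1 : e ≤ 1 := by
    rw [he, div_le_one (by positivity)]
    linarith
  set N := (box d (3 * k₁ + k₂)).card with hN
  refine ⟨((c * e) ^ N) ^ (k₁ + k₂) / 2, by positivity, fun ρ _ hρ g x₀ hg => ?_⟩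
  obtain ⟨a, ha1, -, hS⟩ := win ρ hρ e he0 he1
  set S : Set ℝ≥0 := {t | (a : ℝ) ≤ t ∧ (t : ℝ) ≤ a * (1 + e)} with hSdef
  have mS : MeasurableSet S :=
    (measurableSet_le measurable_const measurable_coe_nnreal_real).inter
      (measurableSet_le measurable_coe_nnreal_real measurable_const)
  set b : ℝ≥0∞ := a * ENNReal.ofReal (1 + e) with hb
  have hca : ENNReal.ofReal (1 + c) ≤ a := by
    rw [← ENNReal.ofReal_coe_nnreal]
    exact ENNReal.ofReal_le_ofReal ha1
  have ha : (1 : ℝ≥0∞) ≤ a := (ENNReal.one_le_ofReal.2 (by linarith)).trans hca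
  have hb1 : 1 ≤ b := one_le_mul ha (ENNReal.one_le_ofReal.2 (by linarith))
  have hbt : b ≠ ⊤ := ENNReal.mul_ne_top ENNReal.coe_ne_top ENNReal.ofReal_ne_top
  have hSab : ∀ t ∈ S, (a : ℝ≥0∞) ≤ t ∧ (t : ℝ≥0∞) ≤ b := fun t ht =>
    ⟨ENNReal.coe_le_coe.2 (NNReal.coe_le_coe.1 ht.1), by
      rw [hb, ← ENNReal.ofReal_coe_nnreal, ← ENNReal.ofReal_coe_nnreal,
        ← ENNReal.ofReal_mul a.coe_nonneg]
      exact ENNReal.ofReal_le_ofReal ht.2⟩
  have hbk : b ^ k₂ ≤ ENNReal.ofReal (1 + η) * a ^ k₂ := by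
    rw [hb, mul_pow, mul_comm, ← ENNReal.ofReal_pow (by linarith)]
    exact mul_le_mul_left (ENNReal.ofReal_le_ofReal
      ((gfunnel_pow he0.le k₂ (hke.trans hη1)).trans (by linarith))) _
  let B : ℕ → Finset (Site d) := fun i =>
    (box d (if i < k₁ then k₁ else 3 * k₁ + k₂)).image (· + x₀)
  have hB : ∀ i x, x ∈ B i ↔ x - x₀ ∈ box d (if i < k₁ then k₁ else 3 * k₁ + k₂) := fun i x => by
    simp only [B, Finset.mem_image]
    exact ⟨by rintro ⟨y, hy, rfl⟩; simpa using hy, fun h => ⟨_, h, by simp⟩⟩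
  let G : ℕ → Set (Layer d) := fun i => Set.pi (B i) fun _ => S
  have mG : ∀ i, MeasurableSet (G i) := fun i =>
    MeasurableSet.pi (B i).countable_toSet fun _ _ => mS
  set W : Set (ℕ → Layer d) := Set.pi (Finset.range (k₁ + k₂)) G with hW
  have mW : MeasurableSet W := MeasurableSet.pi (Finset.range _).countable_toSet fun i _ => mG i
  have pW : env d ρ W = ∏ i ∈ Finset.range (k₁ + k₂), lay d ρ (G i) :=
    Measure.infinitePi_pi _ fun i _ => mG i
  have hce : ENNReal.ofReal (c * e) ≤ 1 := ENNReal.ofReal_le_one.2 (mul_le_one₀ hc1 he0.le he1)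
  have pG : ∀ i, ENNReal.ofReal (c * e) ^ N ≤ lay d ρ (G i) := fun i => by
    have e1 : lay d ρ (G i) = ∏ _x ∈ B i, ρ S := Measure.infinitePi_pi _ fun _ _ => mS
    rw [e1, Finset.prod_const]
    refine le_trans (pow_le_pow_of_le_one zero_le hce ?_) (pow_le_pow_left' hS _)
    refine Finset.card_image_le.trans (Finset.card_le_card fun x hx => gfunnel_box_mono ?_ hx)
    split_ifs <;> omega
  have pW' : ENNReal.ofReal (((c * e) ^ N) ^ (k₁ + k₂)) ≤ env d ρ W := by
    rw [pW, ENNReal.ofReal_pow (by positivity), ENNReal.ofReal_pow (by positivity)]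
    have := Finset.pow_card_le_prod (Finset.range (k₁ + k₂)) _ _ fun i _ => pG i
    rwa [Finset.card_range] at this
  let g₁ : Prof d := fun x => if x - x₀ ∈ box d (2 * k₁) then g x else 0
  let g₂ : Prof d := fun x => if x - x₀ ∈ box d (2 * k₁) then 0 else g x
  have hg12 : g = g₁ + g₂ := funext fun x => by
    by_cases h : x - x₀ ∈ box d (2 * k₁) <;> simp [g₁, g₂, h]
  have hg1 : g₁ ≤ g := fun x => by simp only [g₁]; split_ifs <;> simp
  have hg2 : g₂ ≤ g := fun x => by simp only [g₂]; split_ifs <;> simp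
  have hs1 : ∀ x, g₁ x ≠ 0 → x - x₀ ∈ box d (2 * k₁) := fun x hx => by
    by_contra h
    exact hx (if_neg h)
  set Λ := b ^ k₂ * mass g with hΛ
  have hΛt : Λ ≠ ⊤ := ENNReal.mul_ne_top (ENNReal.pow_ne_top hbt) hg.mass_ne_top
  have mY : Measurable fun ω => mass (ev (k₁ + k₂) ω g₂) :=
    measurable_mass.comp (measurable_ev _ _)
  have hmean : ∫⁻ ω, W.indicator 1 ω * mass (ev (k₁ + k₂) ω g₂) ∂env d ρ ≤ env d ρ W * Λ := by
    refine (gfunnel_chain (ρ := ρ) (k₁ + k₂) G mG
      (fun i => lay d ρ (G i) * if i < k₁ then 1 else b)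
      (fun i f => i < k₁ → ∀ x, x - x₀ ∈ box d (2 * k₁ - i) → f x = 0) ?_ ?_ g₂ ?_).trans ?_
    · intro i f ξ h hi x hx
      rw [step, gfunnel_out_avg (r := 2 * k₁ - (i + 1)) (fun y hy => h (by omega) y
        (gfunnel_box_mono (by omega) hy)) x hx, mul_zero]
    · intro i f h
      refine gfunnel_layer hd1 hρ.1 (B i) mS (by split_ifs; exacts [le_rfl, hb1]) f
        fun x hx h0 t ht => ?_
      by_cases hi : i < k₁
      · rw [hB, if_pos hi] at hx
        exact absurd (gfunnel_out_avg (fun y hy => h hi y (gfunnel_box_mono (by omega) hy)) x hx) h0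
      · rw [if_neg hi]
        exact (hSab t ht).2
    · intro _ x hx
      exact if_pos hx
    · rw [Finset.prod_mul_distrib, ← pW, mul_assoc, Finset.prod_range_add,
        Finset.prod_eq_one fun i hi => if_pos (Finset.mem_range.1 hi), one_mul,
        Finset.prod_congr rfl fun i _ => if_neg (by omega), Finset.prod_const, Finset.card_range]
      exact mul_le_mul_right (mul_le_mul_right (mass_mono hg2) _) _
  refine ⟨W ∩ {ω | mass (ev (k₁ + k₂) ω g₂) ≤ 2 * Λ},
    mW.inter (measurableSet_le mY measurable_const), ?_, fun ω hω => ?_⟩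
  · set D : Set (ℕ → Layer d) := {ω | mass (ev (k₁ + k₂) ω g₂) ≤ 2 * Λ} with hD
    have h1 : env d ρ (W \ D) ≤ env d ρ W / 2 := by
      by_cases h0 : Λ = 0
      · have hm0 : mass g = 0 := (mul_eq_zero.1 h0).resolve_left (pow_ne_zero _ (by
          rintro h; rw [h] at hb1; simp at hb1))
        have hz : g₂ = fun x => 0 * g₂ x := funext fun x => by
          rw [zero_mul]
          exact le_antisymm ((hg2 x).trans ((le_mass g x).trans hm0.le)) zero_le
        have : W \ D = ∅ := Set.diff_eq_empty.2 fun ω _ => by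
          show mass (ev (k₁ + k₂) ω g₂) ≤ 2 * Λ
          rw [hz, ev_smul, mass_smul, zero_mul]
          exact zero_le
        rw [this, measure_empty]
        exact zero_le
      · have h2 := (mul_meas_ge_le_lintegral (μ := env d ρ)
          ((measurable_one.indicator mW).mul mY) (2 * Λ)).trans hmean
        have h3 : W \ D ⊆ {ω | 2 * Λ ≤ W.indicator 1 ω * mass (ev (k₁ + k₂) ω g₂)} := fun ω hω => by
          rw [Set.mem_setOf_eq, Set.indicator_of_mem hω.1, Pi.one_apply, one_mul]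
          exact (not_le.1 hω.2).le
        rw [ENNReal.le_div_iff_mul_le (Or.inl two_ne_zero) (Or.inl ENNReal.ofNat_ne_top),
          ← ENNReal.mul_le_mul_iff_left h0 hΛt]
        calc env d ρ (W \ D) * 2 * Λ = 2 * Λ * env d ρ (W \ D) := by ring
          _ ≤ _ := (mul_le_mul_right (measure_mono h3) _).trans h2
    have h2 : env d ρ W / 2 ≤ env d ρ (W ∩ D) := by
      have h3 := measure_le_inter_add_diff (env d ρ) W D
      have h4 : env d ρ W / 2 ≠ ⊤ := ENNReal.div_ne_top (measure_ne_top _ _) two_ne_zero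
      rw [← ENNReal.add_le_add_iff_right h4, ENNReal.add_halves]
      exact h3.trans (add_le_add_right h1 _)
    refine le_trans ?_ h2
    rw [ENNReal.ofReal_div_of_pos two_pos, ENNReal.ofReal_ofNat]
    exact ENNReal.div_le_div_right pW' _
  · obtain ⟨hω1, hω2⟩ := hω
    have hw : ∀ i < k₁ + k₂, ∀ x, x - x₀ ∈ box d (if i < k₁ then k₁ else 3 * k₁ + k₂) →
        (a : ℝ≥0∞) ≤ ω i x ∧ (ω i x : ℝ≥0∞) ≤ b := fun i hi x hx =>
      hSab _ (hω1 i (Finset.mem_coe.2 (Finset.mem_range.2 hi)) x ((hB i x).2 hx))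
    set h := ev k₁ ω g₁ with hh
    have hs : ∀ x, h x ≠ 0 → x - x₀ ∈ box d (3 * k₁) := fun x hx =>
      gfunnel_box_mono (by omega) (gfunnel_sup_ev hs1 ω k₁ x hx)
    have sand := gfunnel_sand hs (ω := fun k => ω (k₁ + k)) k₂ fun i hi x hx =>
      hw (k₁ + i) (by omega) x (by rwa [if_neg (by omega)])
    have hev : ∀ x, ev (k₁ + k₂) ω g x =
        ev k₂ (fun k => ω (k₁ + k)) h x + ev (k₁ + k₂) ω g₂ x := fun x => by
      conv_lhs => rw [hg12, ev_add, gfunnel_split]
      rfl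
    have hlow : (a : ℝ≥0∞) ^ k₁ * g x₀ ≤ mass h := by
      have s0 : ∀ x, sca (g x₀) (dlt x₀) x ≠ 0 → x - x₀ ∈ box d 0 := fun x hx => by
        obtain rfl : x = x₀ := by
          by_contra h0
          exact hx (by simp [sca, dlt, h0])
        exact heat_mem_box.2 fun i => by simp
      have l1 : sca (g x₀) (dlt x₀) ≤ g₁ := fun x => by
        by_cases h0 : x = x₀
        · subst h0
          have : (0 : Site d) ∈ box d (2 * k₁) := heat_mem_box.2 fun i => by simp
          simp [sca, dlt, g₁, this]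
        · simp [sca, dlt, h0]
      have l2 := fun x => (gfunnel_sand s0 (ω := ω) k₁ (fun i hi x hx =>
        hw i (by omega) x (by rwa [if_pos hi, ← zero_add k₁])) x).1
      calc (a : ℝ≥0∞) ^ k₁ * g x₀
          = mass fun x => (a : ℝ≥0∞) ^ k₁ * avg^[k₁] (sca (g x₀) (dlt x₀)) x := by
            rw [mass_smul, mass_avg_iter hd1, mass_sca, mass_dlt, mul_one]
        _ ≤ _ := mass_mono fun x => (l2 x).trans (ev_mono k₁ ω l1 x)
    have hν : ∀ x, avg^[k₂] (sca ((a : ℝ≥0∞) ^ k₂) h) x = (a : ℝ≥0∞) ^ k₂ * avg^[k₂] h x :=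
      fun x => by rw [avg_iter_sca]; rfl
    refine ⟨sca ((a : ℝ≥0∞) ^ k₂) h, ev (k₁ + k₂) ω g₂,
      ((hg.of_le hg1).of_ev hd1 _ _).of_sca (ENNReal.pow_ne_top ENNReal.coe_ne_top),
      (hg.of_le hg2).of_ev hd1 _ _, fun x hx => hs x (right_ne_zero_of_mul hx), fun x => ?_,
      fun x => ?_, ?_, ?_⟩
    · rw [hν, hev]
      exact (sand x).1.trans le_self_add
    · rw [hν, hev, ← mul_assoc]
      exact add_le_add_left ((sand x).2.trans (mul_le_mul_left hbk _)) _
    · rw [mass_sca]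
      exact ((le_mul_of_one_le_left' (one_le_pow_of_one_le' ha _)).trans hlow).trans
        (le_mul_of_one_le_left' (one_le_pow_of_one_le' ha _))
    · have h2 : ENNReal.ofReal (1 + η) ≤ 2 := by
        rw [← ENNReal.ofReal_ofNat]
        exact ENNReal.ofReal_le_ofReal (by norm_num; linarith)
      rw [mass_sca, ENNReal.ofReal_pow (by linarith)]
      calc ENNReal.ofReal (1 + c) ^ k₁ * g x₀ * mass (ev (k₁ + k₂) ω g₂)
          ≤ mass h * (2 * ((2 * (a : ℝ≥0∞) ^ k₂) * mass g)) :=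
            mul_le_mul' ((mul_le_mul_left (pow_le_pow_left' hca _) _).trans hlow)
              (le_trans hω2 (mul_le_mul_right (mul_le_mul_left
                (hbk.trans (mul_le_mul_left h2 _)) _) _))
        _ = _ := by ring

end Pool.Agent.Lib.MP_153faa_pr
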