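import Mathlib
import Pool.Agent.Lib.MP_153faa_pr.GFunnel
import Pool.Agent.Lib.MP_153faa_pr.GLoc1
import Pool.Agent.Lib.MP_153faa_pr.GHK1
import Pool.Agent.Lib.MP_153faa_pr.GFun21

set_option autoImplicit false

open MeasureTheory Filter Topology
open scoped ENNReal NNReal

namespace Pool.Agent.Lib.MP_153faa_pr

variable {d : ℕ}

theorem gfun2_peak (hd : 1 ≤ d) (k : ℕ) :
    ∃ x, ENNReal.ofReal (((2 * k + 1 : ℝ) ^ d)⁻¹) ≤ phi d k x := by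
  by_contra hc
  push Not at hc
  have hpos : (0 : ℝ) < (2 * k + 1 : ℝ) ^ d := by positivity
  have hne : (box d k).Nonempty := Finset.card_pos.1 (by rw [card_box]; positivity)
  have h1 : mass (phi d k) = ∑ x ∈ box d k, phi d k x :=
    tsum_eq_sum fun x hx => by_contra fun h => hx (phi_box k h)
  have h2 := ENNReal.sum_lt_sum_of_nonempty hne fun x _ => hc x
  rw [← h1, mass_phi hd, Finset.sum_const, card_box, nsmul_eq_mul, ← ENNReal.ofReal_natCast,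
    ← ENNReal.ofReal_mul (Nat.cast_nonneg _)] at h2
  push_cast at h2
  rw [mul_inv_cancel₀ hpos.ne', ENNReal.ofReal_one] at h2
  exact lt_irrefl _ h2

theorem gfun2_low (hd : 1 ≤ d) {ρ : Measure ℝ≥0} [IsProbabilityMeasure ρ] {p l C ε η : ℝ}
    {k₁ k₂ : ℕ} {Φ : Prof d → ℝ≥0∞} (H : Harm ρ p l k₁ k₂ C ε η Φ) (hp : 0 ≤ p) (hp2 : p ≤ 2)
    (hC : 1 ≤ C) (hε : 0 ≤ ε) :
    C⁻¹ * (((2 * k₂ + 1 : ℝ) ^ d)⁻¹) ^ 2 ≤ (Φ (phi d k₂)).toReal + ε ∧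
      (Φ (phi d k₂)).toReal ≤ C := by
  have hφ := nice_phi hd k₂
  have hm : mr (phi d k₂) ^ p = 1 := by rw [mr, mass_phi hd]; simp
  obtain ⟨x, hx⟩ := gfun2_peak hd k₂
  have h1 : (1 : ℝ) ≤ (2 * k₂ + 1 : ℝ) ^ d :=
    one_le_pow₀ (le_add_of_nonneg_left (by positivity))
  set s : ℝ := ((2 * k₂ + 1 : ℝ) ^ d)⁻¹
  have hs0 : 0 < s := by positivity
  have hs1 : s ≤ 1 := inv_le_one_of_one_le₀ h1
  refine ⟨?_, by simpa [hm] using H.upR hp (by linarith) hφ⟩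
  have a1 := (mul_le_mul_right (ENNReal.rpow_le_rpow hx hp) _).trans (H.low _ hφ x)
  rw [gfun2_mq hφ hp, hm, ENNReal.ofReal_rpow_of_pos hs0] at a1
  have a2 := gfun2_add (H.ne_top hp hφ) hε zero_le_one a1
  rw [ENNReal.toReal_mul, ENNReal.toReal_ofReal (by positivity),
    ENNReal.toReal_ofReal (by positivity), mul_one] at a2
  refine le_trans (mul_le_mul_of_nonneg_left ?_ (by positivity)) a2
  rw [← Real.rpow_two]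
  exact Real.rpow_le_rpow_of_exponent_ge hs0 hs1 hp2

theorem gfun2_k (d : ℕ) {c B C₂ η : ℝ} (hc : 0 < c) (hB : 0 ≤ B) (hC₂ : 0 ≤ C₂) (hη : 0 < η) :
    ∃ k₁ k₂ : ℕ, C₂ * (((3 * k₁ : ℕ) : ℝ) + 1) ^ 2 ≤ η ^ 4 * k₂ ∧
      B * ((2 * k₂ + 1 : ℝ) ^ d) ^ 2 ≤ (1 + c) ^ k₁ := by
  set Q : ℝ := 32 * C₂ / η ^ 4 + 3 with hQ
  have t := (tendsto_pow_const_div_const_pow_of_one_lt (4 * d)
    (show 1 < 1 + c by linarith)).const_mul (B * Q ^ (2 * d))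
  rw [mul_zero] at t
  obtain ⟨k, hk1, hk2⟩ := ((t.eventually_lt_const zero_lt_one).and (eventually_ge_atTop 1)).exists
  have hk : (1 : ℝ) ≤ k := by exact_mod_cast hk2
  have hx : 0 ≤ C₂ * (((3 * k : ℕ) : ℝ) + 1) ^ 2 / η ^ 4 := by positivity
  refine ⟨k, ⌈C₂ * (((3 * k : ℕ) : ℝ) + 1) ^ 2 / η ^ 4⌉₊, ?_, ?_⟩
  · rw [← div_le_iff₀' (by positivity)]
    exact Nat.le_ceil _
  · have h1 := (Nat.ceil_lt_add_one hx).le
    have h2 : C₂ * (((3 * k : ℕ) : ℝ) + 1) ^ 2 / η ^ 4 ≤ 16 * C₂ / η ^ 4 * k ^ 2 := by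
      calc _ ≤ C₂ * (4 * k) ^ 2 / η ^ 4 := by gcongr; push_cast; linarith
        _ = _ := by ring
    have h3 : (2 * ⌈C₂ * (((3 * k : ℕ) : ℝ) + 1) ^ 2 / η ^ 4⌉₊ + 1 : ℝ) ≤ Q * k ^ 2 := by
      have : (1 : ℝ) ≤ k ^ 2 := one_le_pow₀ hk
      have e : Q * k ^ 2 = 2 * (16 * C₂ / η ^ 4 * k ^ 2) + 3 * k ^ 2 := by rw [hQ]; ring
      linarith
    rw [← mul_div_assoc, div_lt_one (by positivity)] at hk1
    calc _ ≤ B * ((Q * k ^ 2) ^ d) ^ 2 := by gcongr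
      _ = B * Q ^ (2 * d) * k ^ (4 * d) := by ring_nf
      _ ≤ _ := hk1.le

theorem gfun2_fn (hd : 1 ≤ d) {ρ : Measure ℝ≥0} [IsProbabilityMeasure ρ] {p l C ε η : ℝ}
    {k₁ k₂ : ℕ} {Φ Ψ : Prof d → ℝ≥0∞} (HΦ : Harm ρ p l k₁ k₂ C ε η Φ)
    (HΨ : Harm ρ p l k₁ k₂ C ε η Ψ) (hp : 1 ≤ p) (hp2 : p ≤ 2) (hC : 1 ≤ C) (hε : 0 ≤ ε)
    (hη : 0 < η) (hη1 : η ≤ 1 / 10) {b₀ L G c₀ : ℝ} (hb₀ : 0 < b₀) (hb₁ : b₀ ≤ 1)
    (ha : b₀ ≤ (Φ (phi d k₂)).toReal) (hb : b₀ ≤ (Ψ (phi d k₂)).toReal) (hεb : ε ≤ η * b₀)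
    (hL : 1 ≤ L) (hG0 : 0 < G) (hG : C * (4 * L ^ 2 / G) ≤ η ^ 2 * b₀)
    (hfun : ∀ (g : Prof d) (x₀ : Site d), Nice g → ∃ E : Set (ℕ → Layer d), MeasurableSet E ∧
      ENNReal.ofReal c₀ ≤ env d ρ E ∧ ∀ ω ∈ E, ∃ ν j : Prof d, Nice ν ∧ Nice j ∧
        (∀ x, ν x ≠ 0 → x - x₀ ∈ box d (3 * k₁)) ∧
        (∀ x, avg^[k₂] ν x ≤ ev (k₁ + k₂) ω g x) ∧
        (∀ x, ev (k₁ + k₂) ω g x ≤ ENNReal.ofReal (1 + η) * avg^[k₂] ν x + j x) ∧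
        g x₀ ≤ mass ν ∧ ENNReal.ofReal G * g x₀ * mass j ≤ 4 * mass g * mass ν) :
    Gfun2Fn ρ p L (k₁ + k₂) Φ Ψ ((1 + 20 * η) * (Φ (phi d k₂)).toReal / (Ψ (phi d k₂)).toReal)
      c₀ (b₀ / 2 / L ^ 2) := by
  rintro t g ht hg ⟨-, g2, x₀, g3⟩
  obtain ⟨E, e1, e2, e3⟩ := hfun g x₀ hg
  refine ⟨E, e1, e2, fun ω hω => ?_⟩
  obtain ⟨ν, j, hν, hj, h1, h2, h3, h4, h5⟩ := e3 ω hω
  have hθ0 : 0 ≤ 4 * L ^ 2 / G := by positivity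
  have hθ1 : 4 * L ^ 2 / G ≤ 1 := by
    have : η ^ 2 * b₀ ≤ 1 := mul_le_one₀ (by nlinarith) hb₀.le hb₁
    nlinarith
  have hn := gfun2_mr ν
  have hj0 := gfun2_mr j
  have a1 : mr j ≤ 4 * L ^ 2 / G * mr ν := by
    have b1 : ENNReal.ofReal G * ENNReal.ofReal (t / L) * mass j ≤
        ENNReal.ofReal 4 * ENNReal.ofReal (L * t) * mass ν := by
      rw [ENNReal.ofReal_ofNat]
      calc _ ≤ ENNReal.ofReal G * g x₀ * mass j := by gcongr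
        _ ≤ _ := h5
        _ ≤ _ := by gcongr
    rw [← hj.ofReal_mr, ← hν.ofReal_mr] at b1
    simp (disch := positivity) only [← ENNReal.ofReal_mul] at b1
    have b2 := (ENNReal.ofReal_le_ofReal_iff (by positivity)).1 b1
    rw [div_mul_eq_mul_div, le_div_iff₀ hG0]
    have b3 := mul_le_mul_of_nonneg_left b2 (show 0 ≤ L / t by positivity)
    calc mr j * G = L / t * (G * (t / L) * mr j) := by field_simp
      _ ≤ _ := b3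
      _ = _ := by field_simp
  obtain ⟨c1, c2⟩ := gfun2_end HΦ HΨ (nice_phi hd k₂) hp hC hε hη hη1 hb₀ ha hb hεb hθ0 hθ1 hG hν
    (hg.of_ev hd _ ω) hj h1 h2 h3 a1
  refine ⟨c1, le_trans ?_ c2⟩
  have a2 : t / L ≤ mr ν := by
    have := g3.trans h4
    rwa [← hν.ofReal_mr, ENNReal.ofReal_le_ofReal_iff hn] at this
  calc b₀ / 2 / L ^ 2 * t ^ p = b₀ / 2 * (t ^ p / L ^ 2) := by ring
    _ ≤ b₀ / 2 * (t / L) ^ p := by gcongr; exact gfun2_site ht.le hL hp2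
    _ ≤ _ := by gcongr

/-- One-sided comparison. -/
theorem gfun2_one (hd : 3 ≤ d) {κ M : ℝ} (hκ : 0 < κ) {C C₂ η : ℝ} (hC : 1 ≤ C) (hC₂ : 1 ≤ C₂)
    (hη : 0 < η) (hη1 : η ≤ 1 / 10) : ∃ (b₀ : ℝ) (k₁ k₂ : ℕ), 0 < b₀ ∧
      C₂ * (((3 * k₁ : ℕ) : ℝ) + 1) ^ 2 ≤ η ^ 4 * k₂ ∧ ∀ e : ℝ, 0 < e → ∃ ε l₀ : ℝ, 0 < ε ∧ 0 < l₀ ∧
      ∀ (ρ : Measure ℝ≥0) [IsProbabilityMeasure ρ] (p l : ℝ), Ctx d κ M ρ p l → l ≤ l₀ →
        ∀ Φ Ψ : Prof d → ℝ≥0∞, Harm ρ p l k₁ k₂ C ε η Φ → Harm ρ p l k₁ k₂ C ε η Ψ →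
          b₀ ≤ (Φ (phi d k₂)).toReal ∧ (Φ (phi d k₂)).toReal ≤ C ∧
          Gfun2Cl p Φ Ψ ((1 + 21 * η) * (Φ (phi d k₂)).toReal / (Ψ (phi d k₂)).toReal) e := by
  have hd1 : 1 ≤ d := by omega
  obtain ⟨L, hL, hloc⟩ := loc (M := M) hd hκ
  obtain ⟨c, hc, hfun⟩ := funnel (M := M) hd hκ
  set K : ℝ := 2 * max M 1 with hK
  have hK1 : 1 ≤ K := by have := le_max_right M 1; linarith
  obtain ⟨k₁, k₂, hk, hG⟩ := gfun2_k d (B := 8 * L ^ 2 * C ^ 2 / η ^ 2) (C₂ := C₂) hc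
    (by positivity) (by linarith) hη
  have hS : (1 : ℝ) ≤ (2 * k₂ + 1 : ℝ) ^ d := one_le_pow₀ (le_add_of_nonneg_left (by positivity))
  set S : ℝ := (2 * k₂ + 1 : ℝ) ^ d with hSdef
  set b₀ : ℝ := C⁻¹ * S⁻¹ ^ 2 / 2 with hb₀def
  have hb₀ : 0 < b₀ := by positivity
  have hb₁ : b₀ ≤ 1 := by
    have h1 : C⁻¹ ≤ 1 := inv_le_one_of_one_le₀ hC
    have h2 : S⁻¹ ^ 2 ≤ 1 := pow_le_one₀ (by positivity) (inv_le_one_of_one_le₀ hS)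
    have h3 : C⁻¹ * S⁻¹ ^ 2 ≤ 1 := mul_le_one₀ h1 (by positivity) h2
    linarith
  have hG' : C * (4 * L ^ 2 / (1 + c) ^ k₁) ≤ η ^ 2 * b₀ := by
    calc _ ≤ C * (4 * L ^ 2 / (8 * L ^ 2 * C ^ 2 / η ^ 2 * S ^ 2)) := by gcongr
      _ = _ := by rw [hb₀def]; field_simp; norm_num
  obtain ⟨c₀, hc₀, hfun⟩ := hfun η k₁ k₂ hη (by linarith)
  set A : ℝ := 16 * K * L with hA
  have hA1 : 1 ≤ A := by nlinarith
  set c₄ : ℝ := min 1 (b₀ / 2 / L ^ 2 * c₀ / (C * A)) with hc₄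
  have hc₄0 : 0 < c₄ := lt_min one_pos (by positivity)
  have hc₄1 : c₄ ≤ 1 := min_le_left _ _
  have hc₄2 : c₄ * (C * A) ≤ b₀ / 2 / L ^ 2 * c₀ := by
    rw [← le_div_iff₀ (by positivity)]; exact min_le_right _ _
  obtain ⟨N, hN⟩ := exists_pow_lt_of_lt_one
    (show 0 < η * b₀ / C / (C ^ 2 * A * L ^ 2) by positivity) (show 1 - c₄ < 1 by linarith)
  rw [lt_div_iff₀ (by positivity)] at hN
  set R : ℝ := 3 * C / b₀ + C ^ 2 * A * L ^ 2 with hR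
  set Q : ℝ := K ^ (k₁ + k₂) with hQ
  have hQ1 : 1 ≤ Q := one_le_pow₀ hK1
  set D : ℝ := max (C ^ 2 * A * L ^ 2 * (3 + A) + C) (Q * (A + 1) + ((1 + R) * (A + 2) + R * C))
    with hD
  have hD0 : 0 < D := lt_of_lt_of_le (by positivity) (le_max_left _ _)
  refine ⟨b₀, k₁, k₂, hb₀, hk, fun e he => ?_⟩
  set σ : ℝ := min 1 (e / D ^ (N + 1)) with hσ
  have hσ0 : 0 < σ := lt_min one_pos (by positivity)
  have hσ1 : σ ≤ 1 := min_le_left _ _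
  have hσ2 : D ^ (N + 1) * σ ≤ e := by
    rw [← le_div_iff₀' (by positivity)]; exact min_le_right _ _
  refine ⟨min (η * b₀) (σ / 2), min L⁻¹ ((σ / 2 / (4 * K * L)) ^ 4), by positivity, by positivity,
    fun ρ _ p l cx hl Φ Ψ HΦ HΨ => ?_⟩
  set ε : ℝ := min (η * b₀) (σ / 2) with hεdef
  have hε : 0 ≤ ε := by positivity
  have hε1 : ε ≤ η * b₀ := min_le_left _ _
  have hε2 : ε ≤ σ / 2 := min_le_right _ _
  obtain ⟨hp1, hp2⟩ := cx.one_lt hd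
  have hp0 : 0 ≤ p := by linarith
  obtain ⟨-, hmom, -⟩ := cx.good.basic hd hκ
  have hMK : ENNReal.ofReal (2 * M) ≤ ENNReal.ofReal K :=
    ENNReal.ofReal_le_ofReal (by have := le_max_left M 1; linarith)
  obtain ⟨χ, hχ, -⟩ := cx.good.2.2.2
  have hex := gfun2_exit (p := p) hd1 cx.good.1 hχ (K := K) (L := L) (by linarith)
    ((hmom 2 zero_le_two (by norm_num)).trans hMK) (by linarith) hp1.le hp2.le cx.l0 cx.l1
    (hloc ρ cx.good l cx.l0 (hl.trans (min_le_left _ _)) cx.l1)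
  have hl0 := cx.l0
  have hτ : 4 * K * L * l ^ (1 / 4 : ℝ) ≤ σ / 2 := by
    rw [← le_div_iff₀' (by positivity)]
    calc l ^ (1 / 4 : ℝ) ≤ ((σ / 2 / (4 * K * L)) ^ 4) ^ (1 / 4 : ℝ) :=
          Real.rpow_le_rpow hl0.le (hl.trans (min_le_right _ _)) (by norm_num)
      _ = _ := by
          rw [show (1 / 4 : ℝ) = ((4 : ℕ) : ℝ)⁻¹ by norm_num]
          exact Real.pow_rpow_inv_natCast (by positivity) (by norm_num)
  have hlow : ∀ {Θ : Prof d → ℝ≥0∞}, Harm ρ p l k₁ k₂ C ε η Θ →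
      b₀ ≤ (Θ (phi d k₂)).toReal ∧ (Θ (phi d k₂)).toReal ≤ C := fun H => by
    obtain ⟨h1, h2⟩ := gfun2_low hd1 H hp0 hp2.le hC hε
    refine ⟨?_, h2⟩
    have : η * b₀ ≤ b₀ := mul_le_of_le_one_left hb₀.le (by linarith)
    rw [← hSdef] at h1
    linarith
  obtain ⟨a1, a2⟩ := hlow HΦ
  obtain ⟨b1, b2⟩ := hlow HΨ
  have hfn := gfun2_fn hd1 HΦ HΨ hp1.le hp2.le hC hε hη hη1 hb₀ hb₁ a1 b1 hε1 hL (by positivity) hG'
    (hfun ρ cx.good)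
  set a := (Φ (phi d k₂)).toReal
  set b := (Ψ (phi d k₂)).toReal
  have ha0 : 0 < a := by linarith
  have hb0 : 0 < b := by linarith
  have hit := gfun2_iter hd1 cx.l0 cx.l1 HΦ HΨ hp1.le hp2.le hC hε hL (by linarith)
    (by positivity) (by linarith) hex (by positivity) hc₀.le (by positivity) hc₄0.le hc₄1 hc₄2 hfn
    hQ1 (by
      rw [hQ, ENNReal.ofReal_pow (by linarith)]
      exact (gcont_mom_pow hd1 hp1.le _).trans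
        (pow_le_pow_left' ((hmom p hp0 (by linarith)).trans hMK) _))
    (R := R) (D := D) (by
      have : (1 + 20 * η) * a / b ≤ 3 * C / b₀ := by gcongr; linarith
      linarith) (le_max_left _ _) (le_max_right _ _) N
  refine ⟨a1, a2, fun f hf => (hit f hf).trans (add_le_add
    (mul_le_mul_of_nonneg_right ?_ ENNReal.toReal_nonneg)
    (mul_le_mul_of_nonneg_right (le_trans ?_ hσ2) (gfun2_W f p)))⟩
  · have h1 : η * b₀ / C ≤ η * a / b := by gcongr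
    have h2 : (1 + 21 * η) * a / b = (1 + 20 * η) * a / b + η * a / b := by ring
    linarith
  · gcongr
    linarith

/-- Approximately harmonic functionals are approximately proportional. -/
theorem fun2 (hd : 3 ≤ d) {κ M : ℝ} (hκ : 0 < κ) (C₀ C₂ η' : ℝ) (hC₀ : 1 ≤ C₀) (hC₂ : 1 ≤ C₂)
    (hη' : 0 < η') : ∃ (η ε l₀ : ℝ) (k₁ k₂ : ℕ), 0 < η ∧ η ≤ 1 / 2 ∧ 0 < ε ∧ 0 < l₀ ∧
      C₂ * (((3 * k₁ : ℕ) : ℝ) + 1) ^ 2 ≤ η ^ 4 * k₂ ∧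
      ∀ (ρ : Measure ℝ≥0) [IsProbabilityMeasure ρ] (p l : ℝ), Ctx d κ M ρ p l → l ≤ l₀ →
        ∀ Φ Ψ : Prof d → ℝ≥0∞, Harm ρ p l k₁ k₂ C₀ ε η Φ → Harm ρ p l k₁ k₂ C₀ ε η Ψ →
          ∀ f, Nice f → Φ f * Ψ (dlt 0) ≤
            ENNReal.ofReal (1 + η') * (Φ (dlt 0) * Ψ f) + ENNReal.ofReal η' * mq p f := by
  set η : ℝ := min (1 / 10) (η' / 100) with hηdef
  have hη : 0 < η := by positivity
  have hη1 : η ≤ 1 / 10 := min_le_left _ _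
  have hη2 : η ≤ η' / 100 := min_le_right _ _
  obtain ⟨b₀, k₁, k₂, hb₀, hk, h⟩ := gfun2_one (M := M) hd hκ hC₀ hC₂ hη hη1
  obtain ⟨ε, l₀, hε, hl₀, h⟩ := h (η' / (4 * C₀ / b₀ * C₀ + C₀)) (by positivity)
  refine ⟨η, ε, l₀, k₁, k₂, hη, by linarith, hε, hl₀, hk, fun ρ _ p l cx hl Φ Ψ HΦ HΨ f hf => ?_⟩
  obtain ⟨a1, a2, a3⟩ := h ρ p l cx hl Φ Ψ HΦ HΨ
  obtain ⟨b1, -, b3⟩ := h ρ p l cx hl Ψ Φ HΨ HΦ
  have hp0 : 0 ≤ p := by linarith [(cx.one_lt hd).1]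
  have hδ := nice_dlt (0 : Site d)
  have hm : mr (dlt (0 : Site d)) ^ p = 1 := by rw [mr, mass_dlt]; simp
  have c1 := a3 f hf
  have c2 := b3 _ hδ
  have c3 := HΨ.upR hp0 (by linarith) hδ
  have c4 := HΨ.upR hp0 (by linarith) hf
  rw [hm, mul_one] at c2 c3
  rw [← ENNReal.ofReal_toReal (HΦ.ne_top hp0 hf), ← ENNReal.ofReal_toReal (HΨ.ne_top hp0 hf),
    ← ENNReal.ofReal_toReal (HΦ.ne_top hp0 hδ), ← ENNReal.ofReal_toReal (HΨ.ne_top hp0 hδ),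
    gfun2_mq hf hp0]
  have hW := gfun2_W f p
  have x1 : 0 ≤ (Φ f).toReal := ENNReal.toReal_nonneg
  have x2 : 0 ≤ (Ψ f).toReal := ENNReal.toReal_nonneg
  have x3 : 0 ≤ (Φ (dlt 0)).toReal := ENNReal.toReal_nonneg
  have x4 : 0 ≤ (Ψ (dlt 0)).toReal := ENNReal.toReal_nonneg
  simp (disch := positivity) only [← ENNReal.ofReal_mul, ← ENNReal.ofReal_add]
  refine ENNReal.ofReal_le_ofReal ?_
  set a := (Φ (phi d k₂)).toReal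
  set b := (Ψ (phi d k₂)).toReal
  set e := η' / (4 * C₀ / b₀ * C₀ + C₀) with he
  have he0 : 0 ≤ e := by positivity
  have ha0 : 0 < a := by linarith
  have hb0 : 0 < b := by linarith
  have y1 : (1 + 21 * η) * a / b ≤ 4 * C₀ / b₀ := by gcongr; linarith
  have y2 : (1 + 21 * η) ^ 2 ≤ 1 + η' := by nlinarith
  calc (Φ f).toReal * (Ψ (dlt 0)).toReal
      ≤ ((1 + 21 * η) * a / b * (Ψ f).toReal + e * mr f ^ p) * (Ψ (dlt 0)).toReal := by gcongr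
    _ = (1 + 21 * η) * a / b * (Ψ f).toReal * (Ψ (dlt 0)).toReal +
        e * mr f ^ p * (Ψ (dlt 0)).toReal := by ring
    _ ≤ (1 + 21 * η) * a / b * (Ψ f).toReal * ((1 + 21 * η) * b / a * (Φ (dlt 0)).toReal + e) +
        e * mr f ^ p * C₀ := by gcongr
    _ = (1 + 21 * η) ^ 2 * ((Φ (dlt 0)).toReal * (Ψ f).toReal) +
        ((1 + 21 * η) * a / b * (Ψ f).toReal * e + e * mr f ^ p * C₀) := by field_simp; ring
    _ ≤ (1 + η') * ((Φ (dlt 0)).toReal * (Ψ f).toReal) +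
        (4 * C₀ / b₀ * (C₀ * mr f ^ p) * e + e * mr f ^ p * C₀) := by gcongr
    _ = _ := by rw [he]; field_simp

end Pool.Agent.Lib.MP_153faa_pr
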