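import Mathlib
import Pool.Agent.Lib.MP_153faa_pr.GRes2
import Pool.Agent.Lib.MP_153faa_pr.GHK3

/-!
Generic tools for the approximately harmonic functionals.
-/

set_option autoImplicit false

open MeasureTheory Filter Topology
open scoped ENNReal NNReal

namespace Pool.Agent.Lib.MP_153faa_pr

variable {d : ℕ}
variable {ρ : Measure ℝ≥0} [IsProbabilityMeasure ρ]

theorem gharm_mr_nonneg (f : Prof d) : 0 ≤ mr f := ENNReal.toReal_nonneg

theorem gharm_mq {p : ℝ} (hp : 0 ≤ p) {f : Prof d} (hf : Nice f) :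
    mq p f = ENNReal.ofReal (mr f ^ p) := by
  rw [← ENNReal.ofReal_rpow_of_nonneg (gharm_mr_nonneg f) hp, hf.ofReal_mr, mq]

theorem gharm_eq_zero {f : Prof d} (h : mass f = 0) : f = 0 := by
  funext x
  exact le_antisymm ((le_mass f x).trans h.le) zero_le

theorem gharm_mass_zero {f : Prof d} (hf : Nice f) (h : mr f = 0) : mass f = 0 := by
  rw [← hf.ofReal_mr, h, ENNReal.ofReal_zero]

theorem gharm_site {p : ℝ} (hp : 0 ≤ p) (f : Prof d) (x : Site d) : f x ^ p ≤ mq p f :=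
  ENNReal.rpow_le_rpow (le_mass f x) hp

theorem gharm_sub_iter (hd : 1 ≤ d) {Φ : Prof d → ℝ≥0∞} (hs : ∀ g, Nice g → Φ g ≤ T ρ Φ g)
    (k : ℕ) {f : Prof d} (hf : Nice f) : Φ f ≤ (T ρ)^[k] Φ f := by
  induction k with
  | zero => exact le_rfl
  | succ k ih =>
    rw [Function.iterate_succ_apply]
    exact ih.trans (T_iter_mono_nice hd hs k hf)

theorem gharm_small {δ l C : ℝ} (k : ℕ) (hδ : 0 < δ) (h0 : 0 < l) (h1 : l < 1)
    (hC : (k + 1) * (1 + δ) / δ ≤ C) (hl : l ≤ C⁻¹) : 1 ≤ (1 + δ) * (1 - l) ^ k := by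
  have hb : 1 + (k : ℝ) * (-l) ≤ (1 + -l) ^ k := one_add_mul_le_pow (by linarith) k
  have hp : 0 < ((k : ℝ) + 1) * (1 + δ) / δ := by positivity
  have h2 : l ≤ (((k : ℝ) + 1) * (1 + δ) / δ)⁻¹ := hl.trans (inv_anti₀ hp hC)
  rw [inv_div, le_div_iff₀ (by positivity)] at h2
  have hk : (0 : ℝ) ≤ k := Nat.cast_nonneg k
  have h3 : (1 + δ) * (1 + (k : ℝ) * (-l)) ≤ (1 + δ) * (1 + -l) ^ k :=
    mul_le_mul_of_nonneg_left hb (by linarith)
  rw [sub_eq_add_neg]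
  nlinarith [mul_pos h0 (show 0 < 1 + δ by linarith)]

theorem gharm_res_up {l δ : ℝ} (h1 : l < 1) {Φ : Prof d → ℝ≥0∞} (hΦ : Measurable Φ) (k : ℕ)
    (hδ : 0 ≤ δ) (h : 1 ≤ (1 + δ) * (1 - l) ^ k) (f : Prof d) :
    (T ρ)^[k] (Res ρ l Φ) f ≤ Res ρ l Φ f + ENNReal.ofReal δ * Res ρ l Φ f := by
  have h2 : ENNReal.ofReal ((1 - l) ^ k) * (T ρ)^[k] (Res ρ l Φ) f ≤ Res ρ l Φ f := by
    conv_rhs => rw [Res_iter h1 hΦ k f]
    exact le_add_self
  calc (T ρ)^[k] (Res ρ l Φ) f = 1 * (T ρ)^[k] (Res ρ l Φ) f := (one_mul _).symm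
    _ ≤ ENNReal.ofReal ((1 + δ) * (1 - l) ^ k) * (T ρ)^[k] (Res ρ l Φ) f := by
        gcongr; exact ENNReal.one_le_ofReal.2 h
    _ = ENNReal.ofReal (1 + δ) * (ENNReal.ofReal ((1 - l) ^ k) * (T ρ)^[k] (Res ρ l Φ) f) := by
        rw [ENNReal.ofReal_mul (by linarith), mul_assoc]
    _ ≤ ENNReal.ofReal (1 + δ) * Res ρ l Φ f := by gcongr
    _ = _ := by rw [ENNReal.ofReal_add zero_le_one hδ, ENNReal.ofReal_one, add_mul, one_mul]

theorem gharm_U_le (hd : 1 ≤ d) {l : ℝ} (h0 : 0 < l) (h1 : l < 1) {S : Set (Prof d)}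
    (hS : MeasurableSet S) {F R : Prof d → ℝ≥0∞} {c : ℝ≥0∞}
    (hF : ∀ g, Nice g → g ∈ S → F g ≤ c) (hR : ∀ g, Nice g → g ∉ S → R g ≤ c)
    {f : Prof d} (hf : Nice f) : U ρ l S F R f ≤ c := by
  calc U ρ l S F R f ≤ U ρ l S (fun _ => c * 1) (fun _ => c * 1) f :=
        U_mono hd (by simpa using hF) (by simpa using hR) hf
    _ = c * U ρ l S (fun _ => 1) (fun _ => 1) f :=
        U_const_mul hS measurable_const measurable_const c f
    _ = c := by rw [U_one hS h0 h1, mul_one]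

theorem gharm_U_cmul {l : ℝ} {S : Set (Prof d)} (hS : MeasurableSet S) {F : Prof d → ℝ≥0∞}
    (hF : Measurable F) (c : ℝ≥0∞) (f : Prof d) :
    U ρ l S (fun g => c * F g) (fun _ => 0) f = c * U ρ l S F (fun _ => 0) f := by
  simpa using U_const_mul (ρ := ρ) (l := l) hS hF (measurable_const (a := 0)) c f

theorem gharm_U_cmul' {l : ℝ} {S : Set (Prof d)} (hS : MeasurableSet S) {R : Prof d → ℝ≥0∞}
    (hR : Measurable R) (c : ℝ≥0∞) (f : Prof d) :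
    U ρ l S (fun _ => 0) (fun g => c * R g) f = c * U ρ l S (fun _ => 0) R f := by
  simpa using U_const_mul (ρ := ρ) (l := l) hS (measurable_const (a := 0)) hR c f

theorem gharm_two_pow {p : ℝ} (hp2 : p ≤ 2) : (2 : ℝ) ^ p ≤ 4 := by
  calc (2 : ℝ) ^ p ≤ 2 ^ (2 : ℝ) := Real.rpow_le_rpow_of_exponent_le (by norm_num) hp2
    _ = 4 := by norm_num

theorem gharm_off {p : ℝ} (hp : 0 ≤ p) (hp2 : p ≤ 2) {f g : Prof d} (hf : Nice f)
    (hg : g ∉ lev d (2 * mr f)) : mq p g ≤ 4 * mq p f := by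
  have h1 : mass g ≤ ENNReal.ofReal (2 * mr f) := le_of_lt (not_le.1 hg)
  have hw := gharm_mr_nonneg f
  calc mq p g ≤ ENNReal.ofReal (2 * mr f) ^ p := ENNReal.rpow_le_rpow h1 hp
    _ = ENNReal.ofReal (2 ^ p * mr f ^ p) := by
        rw [ENNReal.ofReal_rpow_of_nonneg (by positivity) hp, Real.mul_rpow (by norm_num) hw]
    _ ≤ ENNReal.ofReal (4 * mr f ^ p) := by
        gcongr; exact gharm_two_pow hp2
    _ = 4 * mq p f := by
        rw [ENNReal.ofReal_mul (by norm_num), gharm_mq hp hf]; simp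

theorem gharm_res_split {l : ℝ} (h0 : 0 < l) (h1 : l < 1) {S : Set (Prof d)}
    (hS : MeasurableSet S) {Φ : Prof d → ℝ≥0∞} (hΦ : Measurable Φ) (f : Prof d) :
    Res ρ l Φ f = U ρ l S (Res ρ l Φ) (fun _ => 0) f + U ρ l S (fun _ => 0) Φ f := by
  rw [← U_split hS (measurable_Res hΦ) hΦ, ← Res_eq_U hS h0 h1 hΦ]

theorem gharm_iter_sca {Φ : Prof d → ℝ≥0∞} (hΦ : Measurable Φ) {c a : ℝ≥0∞}
    (h : ∀ g, Φ (sca c g) = a * Φ g) (n : ℕ) (f : Prof d) :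
    (T ρ)^[n] Φ (sca c f) = a * (T ρ)^[n] Φ f := by
  rw [T_iter_eq n hΦ, T_iter_eq n hΦ]
  simp only [ev_sca, h]
  exact lintegral_const_mul a (hΦ.comp (measurable_ev n f))

theorem gharm_res_sca {l : ℝ} {Φ : Prof d → ℝ≥0∞} (hΦ : Measurable Φ) {c a : ℝ≥0∞}
    (h : ∀ g, Φ (sca c g) = a * Φ g) (f : Prof d) :
    Res ρ l Φ (sca c f) = a * Res ρ l Φ f := by
  simp only [Res, gharm_iter_sca hΦ h, ← ENNReal.tsum_mul_left]
  exact tsum_congr fun n => by ring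

theorem gharm_shu {p η : ℝ} {Ψ : Prof d → ℝ≥0∞} (h : Fn p Ψ) (hp : 1 ≤ p) (hp2 : p ≤ 2)
    (hη : 0 < η) (hη2 : η ≤ 1 / 2) (k : ℕ) {ν g j : Prof d} (hν : mass ν ≠ ⊤)
    (hg : ∀ x, g x ≤ ENNReal.ofReal (1 + η) * avg^[k] ν x + j x) :
    Ψ g ≤ ENNReal.ofReal (1 + 8 * η) * Ψ (sca (mass ν) (phi d k)) + ENNReal.ofReal η⁻¹ * Ψ j := by
  have h1 : Ψ g ≤ Ψ (sca (ENNReal.ofReal (1 + η)) (avg^[k] ν) + j) := h.mono _ _ hg
  have h2 := h.add_le hp hp2 hη hη2 (sca (ENNReal.ofReal (1 + η)) (avg^[k] ν)) j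
  have h3 := h.scale (Real.toNNReal (1 + η)) (avg^[k] ν)
    (Real.one_le_toNNReal.2 (by linarith))
  have h4 := h.avg_le k hν
  have h5 : ((Real.toNNReal (1 + η) : ℝ≥0) : ℝ≥0∞) ^ p ≤ ENNReal.ofReal ((1 + η) ^ 2) := by
    change ENNReal.ofReal (1 + η) ^ p ≤ _
    rw [ENNReal.ofReal_rpow_of_nonneg (by linarith) (by linarith)]
    refine ENNReal.ofReal_le_ofReal ?_
    calc (1 + η) ^ p ≤ (1 + η) ^ (2 : ℝ) := Real.rpow_le_rpow_of_exponent_le (by linarith) hp2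
      _ = (1 + η) ^ 2 := by norm_num
  refine h1.trans (h2.trans ?_)
  refine add_le_add ?_ le_rfl
  calc ENNReal.ofReal (1 + 2 * η) * Ψ (sca (ENNReal.ofReal (1 + η)) (avg^[k] ν))
      ≤ ENNReal.ofReal (1 + 2 * η) * (ENNReal.ofReal ((1 + η) ^ 2) *
          Ψ (sca (mass ν) (phi d k))) := by
        refine mul_le_mul_right (h3.trans ?_) _
        exact mul_le_mul' h5 h4
    _ = ENNReal.ofReal ((1 + 2 * η) * (1 + η) ^ 2) * Ψ (sca (mass ν) (phi d k)) := by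
        rw [ENNReal.ofReal_mul (by linarith), mul_assoc]
    _ ≤ _ := by
        gcongr
        nlinarith [mul_pos hη hη, mul_pos hη (mul_pos hη hη)]

/-- All the fields of `Harm` for a multiple of a resolvent of a homogeneous functional. -/
theorem gharm_gen (hd : 1 ≤ d) {C₂ : ℝ}
    (hcmp : ∀ (η : ℝ) (R m : ℕ), 0 < η → η ≤ 1 / 2 →
      C₂ * (R + 1) ^ 2 ≤ η ^ 4 * m → ∀ (p : ℝ) (Φ : Prof d → ℝ≥0∞), 1 ≤ p → p ≤ 2 → Fn p Φ →
      ∀ (ν : Prof d) (x₀ : Site d), Nice ν → (∀ x, ν x ≠ 0 → x - x₀ ∈ box d R) →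
        Φ (sca (mass ν) (phi d m)) ≠ ⊤ →
        ENNReal.ofReal (1 - 2 * η) * Φ (sca (mass ν) (phi d m)) ≤ Φ (avg^[m] ν))
    {p l C₀ η ε : ℝ} {k₁ k₂ : ℕ} (hp : 1 ≤ p) (hp2 : p ≤ 2) (h0 : 0 < l) (h1 : l < 1)
    (hC₀ : 1 ≤ C₀) (hη : 0 < η) (hη2 : η ≤ 1 / 2) (hε : 0 < ε)
    (hk : C₂ * (((3 * k₁ : ℕ) : ℝ) + 1) ^ 2 ≤ η ^ 4 * k₂)
    (hsm : 1 ≤ (1 + ε / C₀) * (1 - l) ^ (k₁ + k₂))
    {Φ : Prof d → ℝ≥0∞} (hΦ : Fn p Φ) (hs : ∀ g, Nice g → Φ g ≤ T ρ Φ g)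
    (hsca : ∀ c g, Φ (sca c g) = c ^ p * Φ g) (K : ℝ≥0∞)
    (hup : ∀ f, Nice f → K * Res ρ l Φ f ≤ ENNReal.ofReal C₀ * mq p f)
    (hlow : ∀ f, Nice f → ∀ x, f x ^ p ≤ K * Res ρ l Φ f)
    (hkill : ∀ f, Nice f →
      K * U ρ l (lev d (2 * mr f)) (fun _ => 0) Φ f ≤ ENNReal.ofReal ε * mq p f) :
    Harm ρ p l k₁ k₂ C₀ ε η fun f : Prof d => K * Res ρ l Φ f := by
  have mR : Measurable (Res ρ l Φ) := measurable_Res hΦ.meas
  have hF : Fn p fun f : Prof d => K * Res ρ l Φ f := (hΦ.res l).const_mul K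
  have hph : ∀ ν : Prof d, K * Res ρ l Φ (sca (mass ν) (phi d k₂)) =
      mq p ν * (K * Res ρ l Φ (phi d k₂)) := fun ν => by
    rw [gharm_res_sca hΦ.meas (hsca (mass ν)), mq]; ring
  refine ⟨hF.meas, hup, fun f hf x => ?_, fun f hf => ?_, fun f hf => ?_, fun f hf => ?_,
    fun f hf => ?_, fun ν g j x₀ hν hg hj _ _ h3 _ => ?_, fun ν g x₀ hν hg h2 h3 => ?_⟩
  · refine le_add_right (le_trans ?_ (hlow f hf x))
    exact mul_le_of_le_one_left' (ENNReal.ofReal_le_one.2 (inv_le_one_of_one_le₀ hC₀))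
  · rw [gharm_U_cmul (measurableSet_lev _) mR]
    conv_lhs => rw [gharm_res_split h0 h1 (measurableSet_lev (2 * mr f)) hΦ.meas, mul_add]
    exact add_le_add le_rfl (hkill f hf)
  · rw [gharm_U_cmul (measurableSet_lev _) mR]
    refine le_add_right ?_
    conv_rhs => rw [gharm_res_split h0 h1 (measurableSet_lev (2 * mr f)) hΦ.meas, mul_add]
    exact le_self_add
  · rw [T_iter_const_mul _ _ mR]
    refine le_add_right (mul_le_mul_right ?_ _)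
    exact gharm_sub_iter hd (fun g hg => Res_sub hd hΦ.meas hs hg) _ hf
  · rw [T_iter_const_mul _ _ mR]
    have hδ : 0 ≤ ε / C₀ := by positivity
    calc K * (T ρ)^[k₁ + k₂] (Res ρ l Φ) f
        ≤ K * (Res ρ l Φ f + ENNReal.ofReal (ε / C₀) * Res ρ l Φ f) :=
          mul_le_mul_right (gharm_res_up h1 hΦ.meas _ hδ hsm f) _
      _ = K * Res ρ l Φ f + ENNReal.ofReal (ε / C₀) * (K * Res ρ l Φ f) := by ring
      _ ≤ K * Res ρ l Φ f + ENNReal.ofReal (ε / C₀) * (ENNReal.ofReal C₀ * mq p f) :=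
          add_le_add le_rfl (mul_le_mul_right (hup f hf) _)
      _ = _ := by
          rw [← mul_assoc, ← ENNReal.ofReal_mul hδ, div_mul_cancel₀ _ (by linarith)]
  · refine le_add_right ((gharm_shu hF hp hp2 hη hη2 k₂ hν.mass_ne_top h3).trans ?_)
    rw [hph, ← mul_assoc]
    refine add_le_add le_rfl ?_
    rw [div_eq_inv_mul, ENNReal.ofReal_mul (by positivity), mul_assoc]
    exact mul_le_mul_right (hup j hj) _
  · refine le_add_right ?_
    have hfin : K * Res ρ l Φ (sca (mass ν) (phi d k₂)) ≠ ⊤ := by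
      have hn := (nice_phi hd k₂).of_sca hν.mass_ne_top
      refine ne_top_of_le_ne_top ?_ (hup _ hn)
      rw [gharm_mq (by linarith) hn]
      exact ENNReal.mul_ne_top ENNReal.ofReal_ne_top ENNReal.ofReal_ne_top
    have := hcmp η (3 * k₁) k₂ hη hη2 hk p _ hp hp2 hF ν x₀ hν h2 hfin
    rw [mul_assoc, ← hph]
    exact this.trans (hF.mono _ _ h3)

/-- Removing `j` layers of disorder. -/
theorem gharm_flat (hd : 1 ≤ d) (hm : Mean1 ρ) {K : ℝ≥0∞} (hK : mom ρ 2 ≤ K) {p l : ℝ}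
    (hp : 1 ≤ p) (hp2 : p ≤ 2) (j : ℕ) {g : Prof d} (hg : Nice g) :
    HH ρ p l g ≤ HH ρ p l (avg^[j] g) + j * (8 * K * OO d ρ p l * nq p (avg g)) := by
  induction j generalizing g with
  | zero => simp
  | succ j ih =>
    have h1 : HH ρ p l g ≤ T ρ (HH ρ p l) g :=
      Res_sub hd (measurable_mq p) (fun u _ => mq_le_T hd hm hp u) hg
    have h2 := gap (l := l) hd hm hK hp hp2 0 g
    simp only [Function.iterate_zero_apply, zero_add, Function.iterate_one] at h2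
    have h3 := ih (hg.of_avg hd)
    have h4 := nq_avg_le hd hp (avg g)
    calc HH ρ p l g ≤ HH ρ p l (avg g) + 8 * K * OO d ρ p l * nq p (avg g) := h1.trans h2
      _ ≤ (HH ρ p l (avg^[j] (avg g)) + j * (8 * K * OO d ρ p l * nq p (avg g))) +
          8 * K * OO d ρ p l * nq p (avg g) := by
          refine add_le_add (h3.trans ?_) le_rfl
          gcongr
      _ = _ := by rw [Function.iterate_succ_apply]; push_cast; ring

theorem gharm_mq_two (hd : 1 ≤ d) (hm : Mean1 ρ) {χ K : ℝ≥0∞} (hχ : mom ρ 2 = 1 + χ)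
    (hK : mom ρ 2 ≤ K) (k : ℕ) (f : Prof d) : (T ρ)^[k] (mq 2) f ≤ K ^ k * mq 2 f := by
  have h1 : ∀ g : Prof d, T ρ (mq 2) g ≤ K * mq 2 g := fun g => by
    rw [T_mq_two hd hm hχ]
    have h2 : nq 2 (avg g) ≤ mq 2 g := by
      refine (nq_le_mq (by norm_num) _).trans (le_of_eq ?_)
      rw [mq, mq, mass_avg hd]
    calc mq 2 g + χ * nq 2 (avg g) ≤ mq 2 g + χ * mq 2 g := by gcongr
      _ = mom ρ 2 * mq 2 g := by rw [hχ]; ring
      _ ≤ _ := by gcongr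
  induction k with
  | zero => simp
  | succ k ih =>
    rw [Function.iterate_succ_apply]
    calc (T ρ)^[k] (T ρ (mq 2)) f ≤ (T ρ)^[k] (fun g => K * mq 2 g) f := T_iter_mono k h1 f
      _ = K * (T ρ)^[k] (mq 2) f := T_iter_const_mul k K (measurable_mq 2) f
      _ ≤ K * (K ^ k * mq 2 f) := by gcongr
      _ = _ := by ring

end Pool.Agent.Lib.MP_153faa_pr
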