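import Mathlib
import Pool.Agent.Lib.MP_153faa_pr.GLoc3
import Pool.Agent.Lib.MP_153faa_pr.GHK3
import Pool.Agent.Lib.MP_153faa_pr.GHarm1

set_option autoImplicit false

open MeasureTheory Filter Topology
open scoped ENNReal NNReal

namespace Pool.Agent.Lib.MP_153faa_pr

variable {d : ℕ}

theorem gharm_KO {ρ : Measure ℝ≥0} [IsProbabilityMeasure ρ] (hd : 1 ≤ d) (hm : Mean1 ρ) {p l : ℝ}
    (hp : 1 ≤ p) (h0 : 0 < l) (h1 : l < 1) (hO : OO d ρ p l ≠ ⊤) :
    KK d ρ p l * OO d ρ p l = 1 :=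
  ENNReal.inv_mul_cancel (zero_lt_one.trans_le (one_le_OO hd hm hp h0 h1)).ne' hO

theorem gharm_log {p w m : ℝ} (hp : 1 ≤ p) (hp2 : p ≤ 5 / 3) (hw : 0 < w) (hm : 0 < m) :
    (1 + |Real.log (m / w)|) * m ^ p ≤ 5 * w ^ p + 5 * w ^ (p - 2) * m ^ 2 := by
  obtain ⟨x, rfl⟩ : ∃ x, m = w * x := ⟨m / w, by field_simp⟩
  have hx : 0 < x := (mul_pos_iff_of_pos_left hw).1 hm
  have e1 : w * x / w = x := by field_simp
  have e2 : (w * x) ^ p = w ^ p * x ^ p := Real.mul_rpow hw.le hx.le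
  have e3 : w ^ (p - 2) * (w * x) ^ 2 = w ^ p * x ^ 2 := by
    rw [Real.rpow_sub hw, Real.rpow_two]; field_simp
  have h1 : x ^ p ≤ 1 + x ^ 2 := by
    rcases le_total x 1 with h | h
    · have := Real.rpow_le_one hx.le h (by linarith : 0 ≤ p)
      nlinarith [sq_nonneg x]
    · have := Real.rpow_le_rpow_of_exponent_le h (by linarith : p ≤ 2)
      rw [Real.rpow_two] at this
      linarith
  have h2 := pow_mul_log_le hp (by linarith) hx.le
  have h3 : 1 / (2 - p) ≤ 3 := by rw [div_le_iff₀ (by linarith)]; linarith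
  have h4 : (1 + 1 / (2 - p)) * (1 + x ^ 2) ≤ 4 * (1 + x ^ 2) :=
    mul_le_mul_of_nonneg_right (by linarith) (by positivity)
  have h5 : (1 + |Real.log x|) * x ^ p ≤ 5 * (1 + x ^ 2) := by nlinarith
  rw [e1, e2, mul_assoc 5, e3]
  have h6 := mul_le_mul_of_nonneg_left h5 (Real.rpow_pos_of_pos hw p).le
  nlinarith

theorem gharm_HTn_zero {ρ : Measure ℝ≥0} [IsProbabilityMeasure ρ] {p l y : ℝ} (hp : 0 < p)
    {f : Prof d} (h : mass f = 0) : HTn ρ p l y f = 0 := by
  rw [HTn, mq, h, ENNReal.zero_rpow_of_pos hp, zero_mul]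

/-- Comparison of the adapted level with a frozen level. -/
theorem gharm_lev {ρ : Measure ℝ≥0} [IsProbabilityMeasure ρ] {p l C : ℝ} (hp : 1 < p)
    (hp2 : p ≤ 5 / 3) (hC : 0 ≤ C)
    (hb : ∀ (f : Prof d) (L y : ℝ), Nice f → 0 < L → 0 ≤ y →
      HT ρ p l (Real.exp y * L) f ≤ HT ρ p l L f + ENNReal.ofReal (C * (1 + y)) * mq p f)
    {w : ℝ} (hw : 0 < w) (y : ℝ) {g : Prof d} (hg : Nice g) :
    HTn ρ p l y g ≤ HT ρ p l (Real.exp y * w) g +
        (ENNReal.ofReal (5 * C * w ^ p) + ENNReal.ofReal (5 * C * w ^ (p - 2)) * mq 2 g) ∧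
      HT ρ p l (Real.exp y * w) g ≤ HTn ρ p l y g +
        (ENNReal.ofReal (5 * C * w ^ p) + ENNReal.ofReal (5 * C * w ^ (p - 2)) * mq 2 g) := by
  have hL : 0 < Real.exp y * w := by positivity
  by_cases h0 : mass g = 0
  · have hz : HT ρ p l (Real.exp y * w) g = 0 := by
      rw [gharm_eq_zero h0]
      exact ((fn_th hp (by linarith) hL).res l).zero
    rw [hz, gharm_HTn_zero (by linarith) h0]
    exact ⟨zero_le, zero_le⟩
  have hm : 0 < mr g := ENNReal.toReal_pos h0 hg.mass_ne_top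
  have hL' : 0 < Real.exp y * mr g := by positivity
  have herr : ENNReal.ofReal (C * (1 + |Real.log (mr g / w)|)) * mq p g ≤
      ENNReal.ofReal (5 * C * w ^ p) + ENNReal.ofReal (5 * C * w ^ (p - 2)) * mq 2 g := by
    rw [gharm_mq (by linarith) hg, gharm_mq (by norm_num) hg,
      ← ENNReal.ofReal_mul (by positivity), ← ENNReal.ofReal_mul (by positivity),
      ← ENNReal.ofReal_add (by positivity) (by positivity), Real.rpow_two]
    refine ENNReal.ofReal_le_ofReal ?_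
    have := mul_le_mul_of_nonneg_left (gharm_log hp.le hp2 hw hm) hC
    nlinarith
  rw [HTn_eq hp y hg.mass_ne_top h0]
  rcases le_total w (mr g) with h | h
  · refine ⟨?_, le_add_right (HT_mono_lev hp (by linarith) hL.le (by gcongr) g)⟩
    have hz : 0 ≤ Real.log (mr g / w) := Real.log_nonneg ((one_le_div hw).2 h)
    have h1 := hb g _ _ hg hL hz
    rw [Real.exp_log (by positivity),
      show mr g / w * (Real.exp y * w) = Real.exp y * mr g by field_simp] at h1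
    rw [abs_of_nonneg hz] at herr
    exact h1.trans (add_le_add le_rfl herr)
  · refine ⟨le_add_right (HT_mono_lev hp (by linarith) hL'.le (by gcongr) g), ?_⟩
    have hz : 0 ≤ Real.log (w / mr g) := Real.log_nonneg ((one_le_div hm).2 h)
    have h1 := hb g _ _ hg hL' hz
    rw [Real.exp_log (by positivity),
      show w / mr g * (Real.exp y * mr g) = Real.exp y * w by field_simp] at h1
    rw [← inv_div, Real.log_inv, abs_neg, abs_of_nonneg hz] at herr
    exact h1.trans (add_le_add le_rfl herr)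

theorem gharm_errX {p C B w : ℝ} (hC : 0 ≤ C) (hB : 0 ≤ B) (hw : 0 < w) {X : ℝ≥0∞}
    (hX : X ≤ ENNReal.ofReal (B * w ^ 2)) :
    ENNReal.ofReal (5 * C * w ^ p) + ENNReal.ofReal (5 * C * w ^ (p - 2)) * X ≤
      ENNReal.ofReal (5 * C * (1 + B)) * ENNReal.ofReal (w ^ p) := by
  refine (add_le_add le_rfl (mul_le_mul_right hX _)).trans (le_of_eq ?_)
  rw [← ENNReal.ofReal_mul (by positivity), ← ENNReal.ofReal_mul (by positivity),
    ← ENNReal.ofReal_add (by positivity) (by positivity)]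
  congr 1
  rw [Real.rpow_sub hw, Real.rpow_two]
  field_simp

/-- The normalised moment is approximately harmonic. -/
theorem harm_H (hd : 3 ≤ d) {κ M : ℝ} (hκ : 0 < κ) : ∃ C₂ : ℝ, 1 ≤ C₂ ∧
    ∀ (C₀ η ε : ℝ) (k₁ k₂ : ℕ), 1 ≤ C₀ → 0 < η → η ≤ 1 / 2 → 0 < ε →
      C₂ * (((3 * k₁ : ℕ) : ℝ) + 1) ^ 2 ≤ η ^ 4 * k₂ → ∃ C : ℝ, 1 ≤ C ∧
      ∀ (ρ : Measure ℝ≥0) [IsProbabilityMeasure ρ] (p l : ℝ), Ctx d κ M ρ p l → l ≤ C⁻¹ →
        OO d ρ p l ≠ ⊤ → ENNReal.ofReal C ≤ OO d ρ p l →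
        Harm ρ p l k₁ k₂ C₀ ε η fun f : Prof d => KK d ρ p l * HH ρ p l f := by
  have hd1 : 1 ≤ d := by omega
  obtain ⟨C₂, hC₂, hcmp⟩ := cmp hd1
  refine ⟨C₂, hC₂, fun C₀ η ε k₁ k₂ hC₀ hη hη2 hε hk => ?_⟩
  obtain ⟨D, hD⟩ : ∃ D : ℝ, D = (((k₁ + k₂ : ℕ) : ℝ) + 1) * (1 + ε / C₀) / (ε / C₀) := ⟨_, rfl⟩
  have hD0 : 0 ≤ D := by rw [hD]; positivity
  have h4 : 0 < 4 / ε := by positivity
  refine ⟨1 + D + 4 / ε, by linarith, fun ρ _ p l hc hl hO hCO => ?_⟩
  obtain ⟨hp, hp2⟩ := hc.one_lt hd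
  have hm : Mean1 ρ := hc.good.1
  have hKO := gharm_KO hd1 hm hp.le hc.l0 hc.l1 hO
  have hsm := gharm_small (δ := ε / C₀) (k₁ + k₂) (by positivity) hc.l0 hc.l1
    (by rw [← hD]; linarith) hl
  refine gharm_gen hd1 hcmp hp.le hp2.le hc.l0 hc.l1 hC₀ hη hη2 hε hk hsm (fn_mq hp.le)
    (fun g _ => mq_le_T hd1 hm hp.le g)
    (fun c g => by rw [mq, mq, mass_sca, ENNReal.mul_rpow_of_nonneg _ _ (by linarith)])
    (KK d ρ p l) (fun f _ => ?_) (fun f _ x => ?_) (fun f hf => ?_)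
  · calc KK d ρ p l * HH ρ p l f ≤ KK d ρ p l * (OO d ρ p l * mq p f) :=
          mul_le_mul_right (HH_le hp.le f) _
      _ = 1 * mq p f := by rw [← mul_assoc, hKO]
      _ ≤ _ := by gcongr; exact ENNReal.one_le_ofReal.2 hC₀
  · calc f x ^ p = KK d ρ p l * (f x ^ p * OO d ρ p l) := by
          rw [mul_left_comm, hKO, mul_one]
      _ ≤ KK d ρ p l * HH ρ p l f := mul_le_mul_right (site_le_HH hp.le f x) _
  · have h1 : U ρ l (lev d (2 * mr f)) (fun _ => 0) (mq p) f ≤ 4 * mq p f :=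
      gharm_U_le hd1 hc.l0 hc.l1 (measurableSet_lev _) (fun _ _ _ => zero_le)
        (fun g _ hg => gharm_off (by linarith) hp2.le hf hg) hf
    have h2 : KK d ρ p l ≤ ENNReal.ofReal (ε / 4) := by
      calc KK d ρ p l ≤ (ENNReal.ofReal (4 / ε))⁻¹ :=
            ENNReal.inv_le_inv.2 ((ENNReal.ofReal_le_ofReal (by linarith)).trans hCO)
        _ = ENNReal.ofReal (ε / 4) := by rw [← ENNReal.ofReal_inv_of_pos h4, inv_div]
    calc KK d ρ p l * U ρ l (lev d (2 * mr f)) (fun _ => 0) (mq p) f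
        ≤ ENNReal.ofReal (ε / 4) * (ENNReal.ofReal 4 * mq p f) := by
          refine mul_le_mul' h2 (h1.trans (le_of_eq ?_))
          simp
      _ = _ := by
          rw [← mul_assoc, ← ENNReal.ofReal_mul (by positivity), div_mul_cancel₀ _ (by norm_num)]

/-- Profiles seen at the killing time below the level are flat. -/
theorem flat_kill (hd : 3 ≤ d) {κ M : ℝ} (hκ : 0 < κ) : ∃ C : ℝ, 1 ≤ C ∧
    ∀ (ρ : Measure ℝ≥0) [IsProbabilityMeasure ρ] (p l l' : ℝ) (j : ℕ), Ctx d κ M ρ p l →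
      l ≤ C⁻¹ → OO d ρ p l ≤ ENNReal.ofReal (l ^ (-(1 / (4 * d : ℝ)))) → 0 < l' → l' < 1 →
      OO d ρ p l' ≠ ⊤ → (j : ℝ) ≤ l ^ (-(1 / (2 * d : ℝ))) → ∀ f : Prof d, Nice f →
        KK d ρ p l' * U ρ l (lev d (2 * mr f)) (fun _ => 0) (HH ρ p l') f ≤
          ENNReal.ofReal (C * (Kr d ρ p l' + Ar d ρ p l' j + l ^ (1 / (4 * d : ℝ)))) * mq p f := by
  have hd1 : 1 ≤ d := by omega
  obtain ⟨Ct, hCt, ht0⟩ := t0 hd (M := M) hκ
  have hM0 := abs_nonneg M
  have hMC : 0 ≤ 16 * |M| * (4 + 2 * Ct) := by positivity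
  refine ⟨4 + Ct + 16 * |M| * (4 + 2 * Ct), by linarith,
    fun ρ _ p l l' j hc hl hO h0' h1' hO' hj f hf => ?_⟩
  obtain ⟨hp, hp2⟩ := hc.one_lt hd
  have hm : Mean1 ρ := hc.good.1
  have h0 := hc.l0
  have h1 := hc.l1
  obtain ⟨hM1, hmom, -, -, -⟩ := Good.basic hd hκ hc.good
  have hKO := gharm_KO hd1 hm hp.le h0' h1' hO'
  have hS := measurableSet_lev (d := d) (2 * mr f)
  by_cases hw0 : mr f = 0
  · have : f ∈ lev d (2 * mr f) := by
      change ENNReal.ofReal (2 * mr f) ≤ mass f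
      rw [hw0]; simp
    rw [U_mem this, mul_zero]
    exact zero_le
  have hw : 0 < mr f := lt_of_le_of_ne (gharm_mr_nonneg f) (Ne.symm hw0)
  have hlt : l ≤ Ct⁻¹ := hl.trans (inv_anti₀ (by linarith) (by linarith))
  have hl2 : l ≤ 1 / 2 := by
    refine hl.trans ?_
    rw [one_div]
    exact inv_anti₀ (by norm_num) (by linarith)
  have hII := (ht0 ρ p l hc hlt (ne_top_of_le_ne_top ENNReal.ofReal_ne_top hO) f (2 * mr f) hf
    (by linarith) le_rfl).1
  obtain ⟨hKA, -, -⟩ := Kr_add_Ar hd1 hm hp.le h0' h1' hO' j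
  have hA0 : 0 ≤ Kr d ρ p l' + Ar d ρ p l' j := add_nonneg Kr_nonneg ENNReal.toReal_nonneg
  have mN : Measurable fun g : Prof d => nq 2 (avg g) := (measurable_nq 2).comp measurable_avg
  obtain ⟨e, he⟩ : ∃ e : ℝ, e = l ^ (p - 1) := ⟨_, rfl⟩
  have he0 : 0 < e := by rw [he]; positivity
  obtain ⟨a, ha⟩ : ∃ a : ℝ, a = 4 * (Kr d ρ p l' + Ar d ρ p l' j) * mr f ^ p +
    j * (16 * M) * (e * (2 * mr f) ^ p) := ⟨_, rfl⟩
  obtain ⟨b, hb⟩ : ∃ b : ℝ, b = j * (16 * M) * (e ^ (-((2 - p) / (p - 1))) *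
    (2 * mr f) ^ (p - 2)) := ⟨_, rfl⟩
  have hb0 : 0 ≤ b := by rw [hb]; positivity
  have hpt : ∀ g, Nice g → g ∉ lev d (2 * mr f) → KK d ρ p l' * HH ρ p l' g ≤
      ENNReal.ofReal a + ENNReal.ofReal b * nq 2 (avg g) := fun g hg hgS => by
    have h2 := gharm_flat (l := l') hd1 hm (hmom 2 (by norm_num) (by norm_num)) hp.le hp2.le j hg
    have h3 := HH_avg_iter_phi (ρ := ρ) (l := l') hd1 hp.le j g
    have h4 := gharm_off (by linarith) hp2.le hf hgS
    have h5 : mass (avg g) ≤ ENNReal.ofReal (2 * mr f) := by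
      rw [mass_avg hd1]; exact le_of_lt (not_le.1 hgS)
    have h6 := nq_interp hp hp2.le he0 (by linarith) h5
    have e1 : ENNReal.ofReal (j * (16 * M)) = j * (8 * ENNReal.ofReal (2 * M)) := by
      rw [ENNReal.ofReal_mul (Nat.cast_nonneg j), ENNReal.ofReal_natCast,
        show 16 * M = 8 * (2 * M) by ring, ENNReal.ofReal_mul (by norm_num)]
      simp
    calc KK d ρ p l' * HH ρ p l' g
        ≤ KK d ρ p l' * (4 * mq p f * HH ρ p l' (phi d j) +
            j * (8 * ENNReal.ofReal (2 * M) * OO d ρ p l' * nq p (avg g))) := by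
          refine mul_le_mul_right (h2.trans (add_le_add (h3.trans ?_) le_rfl)) _
          exact mul_le_mul_left h4 _
      _ = 4 * (KK d ρ p l' * HH ρ p l' (phi d j)) * mq p f +
            j * (8 * ENNReal.ofReal (2 * M)) * (KK d ρ p l' * OO d ρ p l') * nq p (avg g) := by
          ring
      _ = ENNReal.ofReal (4 * (Kr d ρ p l' + Ar d ρ p l' j) * mr f ^ p) +
            ENNReal.ofReal (j * (16 * M)) * nq p (avg g) := by
          rw [hKO, hKA, mul_one, e1, gharm_mq (by linarith) hf,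
            ENNReal.ofReal_mul (p := 4 * _) (by positivity),
            ENNReal.ofReal_mul (p := 4) (by norm_num)]
          simp
      _ ≤ ENNReal.ofReal (4 * (Kr d ρ p l' + Ar d ρ p l' j) * mr f ^ p) +
            ENNReal.ofReal (j * (16 * M)) * (ENNReal.ofReal (e * (2 * mr f) ^ p) +
              ENNReal.ofReal (e ^ (-((2 - p) / (p - 1))) * (2 * mr f) ^ (p - 2)) *
                nq 2 (avg g)) := by gcongr
      _ = _ := by
          rw [ha, hb, ENNReal.ofReal_add (by positivity) (by positivity),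
            ENNReal.ofReal_mul (p := j * (16 * M)) (by positivity),
            ENNReal.ofReal_mul (p := j * (16 * M)) (by positivity)]
          ring
  have hUN : U ρ l (lev d (2 * mr f)) (fun _ => 0) (fun g => nq 2 (avg g)) f ≤
      ENNReal.ofReal (2 * l * (Ct * (2 * mr f) ^ (2 - p) * mr f ^ p)) := by
    have h2 := Occ_eq_U (ρ := ρ) hS h0 h1 mN f
    calc U ρ l (lev d (2 * mr f)) (fun _ => 0) (fun g => nq 2 (avg g)) f
        = 1 * U ρ l (lev d (2 * mr f)) (fun _ => 0) (fun g => nq 2 (avg g)) f := (one_mul _).symm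
      _ ≤ ENNReal.ofReal (2 * (1 - l)) *
            U ρ l (lev d (2 * mr f)) (fun _ => 0) (fun g => nq 2 (avg g)) f := by
          gcongr; exact ENNReal.one_le_ofReal.2 (by linarith)
      _ = ENNReal.ofReal 2 * (ENNReal.ofReal l * II ρ l (2 * mr f) f) := by
          rw [ENNReal.ofReal_mul (by norm_num), mul_assoc, ← h2, II]
      _ ≤ ENNReal.ofReal 2 * (ENNReal.ofReal l *
            ENNReal.ofReal (Ct * (2 * mr f) ^ (2 - p) * mr f ^ p)) := by gcongr
      _ = _ := by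
          rw [← ENNReal.ofReal_mul h0.le, ← ENNReal.ofReal_mul (by norm_num), mul_assoc 2 l]
  have hdpos : (0 : ℝ) < d := by exact_mod_cast (by omega : 0 < d)
  have hje : j * e ≤ l ^ (1 / (4 * d : ℝ)) := by
    have h2 : e ≤ l ^ (1 / d : ℝ) := by
      rw [he]; exact Real.rpow_le_rpow_of_exponent_ge h0 h1.le (by linarith [hc.p1])
    calc j * e ≤ l ^ (-(1 / (2 * d : ℝ))) * l ^ (1 / d : ℝ) := by gcongr
      _ = l ^ (1 / (2 * d : ℝ)) := by
          rw [← Real.rpow_add h0]; congr 1; field_simp; ring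
      _ ≤ _ := by
          refine Real.rpow_le_rpow_of_exponent_ge h0 h1.le ?_
          exact one_div_le_one_div_of_le (by positivity) (by linarith)
  have hel : e ^ (-((2 - p) / (p - 1))) * l = e := by
    rw [he, ← Real.rpow_mul h0.le, ← Real.rpow_add_one h0.ne']
    congr 1
    have : p - 1 ≠ 0 := by linarith
    field_simp
    ring
  have htt : (2 * mr f) ^ (p - 2) * (2 * mr f) ^ (2 - p) = 1 := by
    rw [← Real.rpow_add (by linarith)]; simp
  have hfin : a + b * (2 * l * (Ct * (2 * mr f) ^ (2 - p) * mr f ^ p)) ≤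
      (4 + Ct + 16 * |M| * (4 + 2 * Ct)) *
        (Kr d ρ p l' + Ar d ρ p l' j + l ^ (1 / (4 * d : ℝ))) * mr f ^ p := by
    have e1 : b * (2 * l * (Ct * (2 * mr f) ^ (2 - p) * mr f ^ p)) =
        16 * M * (2 * Ct) * (j * e) * mr f ^ p := by
      calc _ = 16 * M * (2 * Ct) * (j * (e ^ (-((2 - p) / (p - 1))) * l)) *
            ((2 * mr f) ^ (p - 2) * (2 * mr f) ^ (2 - p)) * mr f ^ p := by rw [hb]; ring
        _ = _ := by rw [hel, htt, mul_one]
    have e2 : (j : ℝ) * (16 * M) * (e * (2 * mr f) ^ p) ≤ 16 * M * 4 * (j * e) * mr f ^ p := by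
      rw [Real.mul_rpow (by norm_num) hw.le]
      calc (j : ℝ) * (16 * M) * (e * (2 ^ p * mr f ^ p))
          ≤ (j : ℝ) * (16 * M) * (e * (4 * mr f ^ p)) := by
            gcongr; exact gharm_two_pow hp2.le
        _ = _ := by ring
    rw [e1, ha, abs_of_nonneg (by linarith : 0 ≤ M)]
    have hwp : 0 ≤ mr f ^ p := by positivity
    have hl4 : 0 ≤ l ^ (1 / (4 * d : ℝ)) := by positivity
    have e3 : 4 * (Kr d ρ p l' + Ar d ρ p l' j) + 16 * M * (4 + 2 * Ct) * (j * e) ≤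
        (4 + Ct + 16 * M * (4 + 2 * Ct)) *
          (Kr d ρ p l' + Ar d ρ p l' j + l ^ (1 / (4 * d : ℝ))) := by
      have hMC' : 0 ≤ 16 * M * (4 + 2 * Ct) := by positivity
      have := mul_le_mul_of_nonneg_left hje hMC'
      nlinarith [mul_nonneg hMC' hA0, mul_nonneg (by linarith : 0 ≤ Ct) hA0,
        mul_nonneg (by linarith : 0 ≤ Ct) hl4]
    have := mul_le_mul_of_nonneg_right e3 hwp
    nlinarith
  have ha0 : 0 ≤ a := by rw [ha]; positivity
  calc KK d ρ p l' * U ρ l (lev d (2 * mr f)) (fun _ => 0) (HH ρ p l') f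
      = U ρ l (lev d (2 * mr f)) (fun _ => 0) (fun g => KK d ρ p l' * HH ρ p l' g) f :=
        (gharm_U_cmul' hS measurable_HH _ f).symm
    _ ≤ U ρ l (lev d (2 * mr f)) (fun _ => 0 + 0)
          (fun g => ENNReal.ofReal a + ENNReal.ofReal b * nq 2 (avg g)) f :=
        U_mono hd1 (fun _ _ _ => zero_le) hpt hf
    _ = U ρ l (lev d (2 * mr f)) (fun _ => 0) (fun _ => ENNReal.ofReal a) f +
          ENNReal.ofReal b * U ρ l (lev d (2 * mr f)) (fun _ => 0) (fun g => nq 2 (avg g)) f := by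
        rw [U_add hS measurable_const measurable_const measurable_const (mN.const_mul _),
          gharm_U_cmul' hS mN]
    _ ≤ ENNReal.ofReal a + ENNReal.ofReal b *
          ENNReal.ofReal (2 * l * (Ct * (2 * mr f) ^ (2 - p) * mr f ^ p)) :=
        add_le_add (gharm_U_le hd1 h0 h1 hS (fun _ _ _ => zero_le) (fun _ _ _ => le_rfl) hf)
          (mul_le_mul_right hUN _)
    _ ≤ _ := by
        rw [← ENNReal.ofReal_mul hb0, ← ENNReal.ofReal_add ha0 (by positivity),
          gharm_mq (by linarith) hf, ← ENNReal.ofReal_mul (by positivity)]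
        exact ENNReal.ofReal_le_ofReal hfin

/-- The normalised two-stage moment is approximately harmonic. -/
theorem harm_R (hd : 3 ≤ d) {κ M : ℝ} (hκ : 0 < κ) : ∃ C₂ : ℝ, 1 ≤ C₂ ∧
    ∀ (C₀ η ε : ℝ) (k₁ k₂ : ℕ), 2 ≤ C₀ → 0 < η → η ≤ 1 / 2 → 0 < ε →
      C₂ * (((3 * k₁ : ℕ) : ℝ) + 1) ^ 2 ≤ η ^ 4 * k₂ → ∃ C : ℝ, 1 ≤ C ∧
      ∀ (ρ : Measure ℝ≥0) [IsProbabilityMeasure ρ] (p l l' : ℝ) (j : ℕ), Ctx d κ M ρ p l →
        l ≤ C⁻¹ → OO d ρ p l ≤ ENNReal.ofReal (l ^ (-(1 / (4 * d : ℝ)))) → 0 < l' → C * l' ≤ l →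
        OO d ρ p l' ≠ ⊤ → (j : ℝ) ≤ l ^ (-(1 / (2 * d : ℝ))) →
        Kr d ρ p l' + Ar d ρ p l' j ≤ C⁻¹ →
        Harm ρ p l k₁ k₂ C₀ ε η fun f : Prof d => KK d ρ p l' * Res ρ l (HH ρ p l') f := by
  have hd1 : 1 ≤ d := by omega
  obtain ⟨C₂, hC₂, hcmp⟩ := cmp hd1
  obtain ⟨Cf, hCf, hflat⟩ := flat_kill hd (M := M) hκ
  refine ⟨C₂, hC₂, fun C₀ η ε k₁ k₂ hC₀ hη hη2 hε hk => ?_⟩
  obtain ⟨D, hD⟩ : ∃ D : ℝ, D = (((k₁ + k₂ : ℕ) : ℝ) + 1) * (1 + ε / C₀) / (ε / C₀) := ⟨_, rfl⟩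
  have hD0 : 0 ≤ D := by rw [hD]; positivity
  have h4 : 0 < 2 * Cf / ε := by positivity
  have h5 : 0 < (2 * Cf / ε) ^ (4 * d) := by positivity
  refine ⟨2 + Cf + D + 2 * Cf / ε + (2 * Cf / ε) ^ (4 * d), by linarith,
    fun ρ _ p l l' j hc hl hO h0' hll hO' hj hA => ?_⟩
  obtain ⟨hp, hp2⟩ := hc.one_lt hd
  have hm : Mean1 ρ := hc.good.1
  have h0 := hc.l0
  have h1 := hc.l1
  have h2l : 2 * l' ≤ l := le_trans (mul_le_mul_of_nonneg_right (by linarith) h0'.le) hll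
  have h1' : l' < 1 := by linarith
  have hKO := gharm_KO hd1 hm hp.le h0' h1' hO'
  have hsm := gharm_small (δ := ε / C₀) (k₁ + k₂) (by positivity) h0 h1
    (by rw [← hD]; linarith) hl
  refine gharm_gen hd1 hcmp hp.le hp2.le h0 h1 (by linarith) hη hη2 hε hk hsm (fn_HH hp.le)
    (fun g hg => Res_sub hd1 (measurable_mq p) (fun u _ => mq_le_T hd1 hm hp.le u) hg)
    (fun c g => HH_sca (by linarith) c g)
    (KK d ρ p l') (fun f _ => ?_) (fun f _ x => ?_) (fun f hf => ?_)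
  · have h6 : ENNReal.ofReal ((l - l') / (l * (1 - l'))) * Res ρ l (HH ρ p l') f ≤
        HH ρ p l' f := by
      conv_rhs => rw [HH, Res_two h0' (by linarith : l' ≤ l) h1 (measurable_mq p) f]
      exact le_add_self
    have h7 : 1 ≤ C₀ * ((l - l') / (l * (1 - l'))) := by
      rw [← mul_div_assoc, le_div_iff₀ (mul_pos h0 (by linarith))]
      nlinarith [mul_pos h0 h0']
    calc KK d ρ p l' * Res ρ l (HH ρ p l') f = KK d ρ p l' * (1 * Res ρ l (HH ρ p l') f) := by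
          rw [one_mul]
      _ ≤ KK d ρ p l' * (ENNReal.ofReal (C₀ * ((l - l') / (l * (1 - l')))) *
            Res ρ l (HH ρ p l') f) := by
          gcongr; exact ENNReal.one_le_ofReal.2 h7
      _ ≤ KK d ρ p l' * (ENNReal.ofReal C₀ * (OO d ρ p l' * mq p f)) := by
          rw [ENNReal.ofReal_mul (by linarith), mul_assoc]
          exact mul_le_mul_right (mul_le_mul_right (h6.trans (HH_le hp.le f)) _) _
      _ = ENNReal.ofReal C₀ * (KK d ρ p l' * OO d ρ p l') * mq p f := by ring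
      _ = _ := by rw [hKO, mul_one]
  · calc f x ^ p = KK d ρ p l' * (f x ^ p * OO d ρ p l') := by
          rw [mul_left_comm, hKO, mul_one]
      _ ≤ KK d ρ p l' * Res ρ l (HH ρ p l') f :=
          mul_le_mul_right ((site_le_HH hp.le f x).trans
            (HH_le_Res hd1 hm hp.le h0 h1 h0' h1' f)) _
  · refine (hflat ρ p l l' j hc (hl.trans (inv_anti₀ (by linarith) (by linarith))) hO h0' h1' hO'
      hj f hf).trans (mul_le_mul_left (ENNReal.ofReal_le_ofReal ?_) _)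
    have h6 : Kr d ρ p l' + Ar d ρ p l' j ≤ (2 * Cf / ε)⁻¹ :=
      hA.trans (inv_anti₀ h4 (by linarith))
    have h7 : l ^ (1 / (4 * d : ℝ)) ≤ (2 * Cf / ε)⁻¹ := by
      have h8 : l ≤ ((2 * Cf / ε)⁻¹) ^ (4 * d) := by
        rw [inv_pow]; exact hl.trans (inv_anti₀ h5 (by linarith))
      calc l ^ (1 / (4 * d : ℝ)) ≤ (((2 * Cf / ε)⁻¹) ^ (4 * d)) ^ (1 / (4 * d : ℝ)) :=
            Real.rpow_le_rpow h0.le h8 (by positivity)
        _ = _ := by
            rw [one_div, show (4 * d : ℝ) = ((4 * d : ℕ) : ℝ) by push_cast; ring]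
            exact Real.pow_rpow_inv_natCast (by positivity) (by omega)
    calc Cf * (Kr d ρ p l' + Ar d ρ p l' j + l ^ (1 / (4 * d : ℝ)))
        ≤ Cf * ((2 * Cf / ε)⁻¹ + (2 * Cf / ε)⁻¹) := by gcongr
      _ = ε := by field_simp; ring

/-- The normalised truncated moment is approximately harmonic. -/
theorem harm_T (hd : 3 ≤ d) {κ M : ℝ} (hκ : 0 < κ) : ∃ C₂ : ℝ, 1 ≤ C₂ ∧
    ∀ (C₀ η ε : ℝ) (k₁ k₂ : ℕ), C₂ ≤ C₀ → 0 < η → η ≤ 1 / 2 → 0 < ε →
      C₂ * (((3 * k₁ : ℕ) : ℝ) + 1) ^ 2 ≤ η ^ 4 * k₂ → ∃ C : ℝ, 1 ≤ C ∧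
      ∀ (ρ : Measure ℝ≥0) [IsProbabilityMeasure ρ] (p l y : ℝ), Ctx d κ M ρ p l → l ≤ C⁻¹ →
        OO d ρ p l ≠ ⊤ → C ≤ y → C₂ * (1 + y) * Kr d ρ p l ≤ 1 →
        Harm ρ p l k₁ k₂ C₀ ε η fun f : Prof d => ENNReal.ofReal y⁻¹ * HTn ρ p l y f := by
  have hd1 : 1 ≤ d := by omega
  obtain ⟨C₂, hC₂, hcmp⟩ := cmp hd1
  obtain ⟨Cb, hCb, hblip⟩ := blip hd (M := M) hκ
  obtain ⟨Cl, hCl, hlin⟩ := br_lin hd (M := M) hκ
  obtain ⟨Ct, hCt, ht0⟩ := t0 hd (M := M) hκ
  refine ⟨C₂ + 2 * Cb + Cl, by linarith, fun C₀ η ε k₁ k₂ hC₀ hη hη2 hε hk => ?_⟩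
  have hMk : 0 ≤ (2 * |M|) ^ (k₁ + k₂) := by positivity
  obtain ⟨B, hB⟩ : ∃ B : ℝ, B = 4 * Ct + (2 * |M|) ^ (k₁ + k₂) + 9 := ⟨_, rfl⟩
  have hB0 : 0 ≤ B := by rw [hB]; positivity
  obtain ⟨E, hE⟩ : ∃ E : ℝ, E = 5 * Cb * (1 + B) := ⟨_, rfl⟩
  have hE0 : 0 ≤ E := by rw [hE]; positivity
  have hEη : 0 ≤ η⁻¹ * E := by positivity
  obtain ⟨A, hA⟩ : ∃ A : ℝ, A = E + η⁻¹ * E + Cl + 4 := ⟨_, rfl⟩
  have hA0 : 0 ≤ A := by rw [hA]; positivity
  obtain ⟨D, hD⟩ : ∃ D : ℝ,
    D = (((k₁ + k₂ : ℕ) : ℝ) + 1) * (1 + ε / (4 * Cb)) / (ε / (4 * Cb)) := ⟨_, rfl⟩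
  have hD0 : 0 ≤ D := by rw [hD]; positivity
  have hAε : 0 ≤ 2 * A / ε := by positivity
  refine ⟨1 + Cb + Cl + Ct + D + 2 * A / ε, by linarith, fun ρ _ p l y hc hl hO hy hK => ?_⟩
  obtain ⟨hp, hp2⟩ := hc.one_lt hd
  have hp0 : 0 < p := by linarith
  have hp3 : p ≤ 5 / 3 := by
    refine hc.p2.trans ?_
    have h3 : (3 : ℝ) ≤ d := by exact_mod_cast hd
    have : 2 / (d : ℝ) ≤ 2 / 3 := div_le_div_of_nonneg_left (by norm_num) (by norm_num) h3
    rw [q0]; linarith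
  have hm : Mean1 ρ := hc.good.1
  have h0 := hc.l0
  have h1 := hc.l1
  obtain ⟨hM1, hmom, -, -, -⟩ := Good.basic hd hκ hc.good
  obtain ⟨-, -, -, χ, hχ, -⟩ := hc.good
  have hy1 : 1 ≤ y := by linarith
  have hy0 : 0 < y := by linarith
  have hb := hblip ρ p l hc (hl.trans (inv_anti₀ (by linarith) (by linarith))) hO
  have hbr := hlin ρ p l hc (hl.trans (inv_anti₀ (by linarith) (by linarith))) hO y hy0.le
  have ht := ht0 ρ p l hc (hl.trans (inv_anti₀ (by linarith) (by linarith))) hO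
  have hsm := gharm_small (δ := ε / (4 * Cb)) (k₁ + k₂) (by positivity) h0 h1
    (by rw [← hD]; linarith) hl
  have hlev := fun {w : ℝ} (hw : 0 < w) {g : Prof d} (hg : Nice g) =>
    gharm_lev hp hp3 (by linarith : 0 ≤ Cb) (fun f L y hf hL hy => (hb f L y hf hL hy).1) hw y hg
  have mH : Measurable (HTn ρ p l y : Prof d → ℝ≥0∞) := measurable_HTn y
  have mth : ∀ L : ℝ, Measurable fun g : Prof d => lift (th p L) (mass g) := fun L =>
    (measurable_lift (measurable_th p L)).comp measurable_mass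
  have hfn : ∀ {L : ℝ}, 0 < L → Fn p (HT ρ p l L : Prof d → ℝ≥0∞) := fun hL =>
    (fn_th hp hp2 hL).res l
  have herr : ∀ (a : ℝ) (X : ℝ≥0∞), 0 ≤ a → a ≤ A →
      ENNReal.ofReal y⁻¹ * (ENNReal.ofReal a * X) ≤ ENNReal.ofReal (ε / 2) * X :=
    fun a X ha haA => by
      rw [← mul_assoc, ← ENNReal.ofReal_mul (by positivity)]
      refine mul_le_mul_left (ENNReal.ofReal_le_ofReal ?_) _
      rw [inv_mul_le_iff₀ hy0]
      have : 2 * A / ε ≤ y := by linarith
      rw [div_le_iff₀ hε] at this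
      nlinarith
  have herr' : ∀ (a : ℝ) (X : ℝ≥0∞), 0 ≤ a → a ≤ A →
      ENNReal.ofReal y⁻¹ * (ENNReal.ofReal a * X) ≤ ENNReal.ofReal ε * X := fun a X ha haA =>
    (herr a X ha haA).trans (mul_le_mul_left (ENNReal.ofReal_le_ofReal (by linarith)) _)
  have hEA : E ≤ A := by rw [hA]; linarith
  have hup : ∀ f : Prof d, Nice f →
      ENNReal.ofReal y⁻¹ * HTn ρ p l y f ≤ ENNReal.ofReal (2 * Cb) * mq p f := fun f hf => by
    refine (mul_le_mul_right (hb f 1 y hf one_pos hy0.le).2 _).trans ?_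
    rw [← mul_assoc, ← ENNReal.ofReal_mul (by positivity)]
    refine mul_le_mul_left (ENNReal.ofReal_le_ofReal ?_) _
    rw [inv_mul_le_iff₀ hy0]
    nlinarith
  have hup' : ∀ f : Prof d, Nice f →
      ENNReal.ofReal y⁻¹ * HTn ρ p l y f ≤ ENNReal.ofReal C₀ * mq p f := fun f hf =>
    (hup f hf).trans (mul_le_mul_left (ENNReal.ofReal_le_ofReal (by linarith)) _)
  have hpos : ∀ f : Prof d, Nice f → mass f ≠ 0 → 0 < mr f := fun f hf h =>
    ENNReal.toReal_pos h hf.mass_ne_top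
  have hz : ∀ f : Prof d, mass f = 0 → ENNReal.ofReal y⁻¹ * HTn ρ p l y f = 0 := fun f h => by
    rw [gharm_HTn_zero hp0 h, mul_zero]
  have hX : ∀ f : Prof d, Nice f → mass f ≠ 0 → ∀ X : ℝ≥0∞, X ≤ ENNReal.ofReal (B * mr f ^ 2) →
      ENNReal.ofReal (5 * Cb * mr f ^ p) + ENNReal.ofReal (5 * Cb * mr f ^ (p - 2)) * X ≤
        ENNReal.ofReal E * mq p f := fun f hf h X hX => by
    rw [hE, gharm_mq hp0.le hf]
    exact gharm_errX (by linarith) hB0 (hpos f hf h) hX
  have hT2 : ∀ f : Prof d, Nice f →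
      (T ρ)^[k₁ + k₂] (mq 2) f ≤ ENNReal.ofReal (B * mr f ^ 2) := fun f hf => by
    refine (gharm_mq_two hd1 hm hχ (hmom 2 (by norm_num) (by norm_num)) _ f).trans ?_
    rw [gharm_mq (by norm_num) hf, ← ENNReal.ofReal_pow (by linarith),
      ← ENNReal.ofReal_mul (by positivity), Real.rpow_two]
    refine ENNReal.ofReal_le_ofReal (mul_le_mul_of_nonneg_right ?_ (by positivity))
    rw [hB, abs_of_nonneg (by linarith : 0 ≤ M)]
    linarith
  have hTerr : ∀ f : Prof d, Nice f → mass f ≠ 0 → ∀ Ψ : Prof d → ℝ≥0∞, Measurable Ψ →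
      (T ρ)^[k₁ + k₂] (fun g => Ψ g + (ENNReal.ofReal (5 * Cb * mr f ^ p) +
        ENNReal.ofReal (5 * Cb * mr f ^ (p - 2)) * mq 2 g)) f ≤
      (T ρ)^[k₁ + k₂] Ψ f + ENNReal.ofReal E * mq p f := fun f hf h Ψ hΨ => by
    rw [T_iter_add _ hΨ, T_iter_add _ measurable_const, T_iter_const,
      T_iter_const_mul _ _ (measurable_mq 2)]
    exact add_le_add le_rfl (hX f hf h _ (hT2 f hf))
  have hph : ∀ ν : Prof d, Nice ν → mass ν ≠ 0 →
      HT ρ p l (Real.exp y * mr ν) (sca (mass ν) (phi d k₂)) =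
        mq p ν * HTn ρ p l y (phi d k₂) := fun ν hν h => by
    have e1 : mr (phi d k₂) = 1 := by rw [mr, mass_phi hd1]; simp
    rw [HTn_eq hp y (by rw [mass_phi hd1]; simp) (by rw [mass_phi hd1]; simp), e1, mul_one,
      gharm_mq hp0.le hν, ← HT_sca hp (Real.exp_pos y).le (hpos ν hν h), hν.ofReal_mr, mul_comm]
  have hsq : ∀ ν g : Prof d, Nice ν → mass g ≤ 3 * mass ν →
      mq 2 g ≤ ENNReal.ofReal (B * mr ν ^ 2) := fun ν g hν h => by
    have hw := gharm_mr_nonneg ν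
    calc mq 2 g ≤ (ENNReal.ofReal (3 * mr ν)) ^ (2 : ℝ) := by
          refine ENNReal.rpow_le_rpow (h.trans (le_of_eq ?_)) (by norm_num)
          rw [ENNReal.ofReal_mul (by norm_num), hν.ofReal_mr]; simp
      _ = ENNReal.ofReal (9 * mr ν ^ 2) := by
          rw [ENNReal.ofReal_rpow_of_nonneg (by positivity) (by norm_num), Real.rpow_two]
          congr 1; ring
      _ ≤ _ := by
          refine ENNReal.ofReal_le_ofReal (mul_le_mul_of_nonneg_right ?_ (by positivity))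
          rw [hB]; linarith
  refine ⟨mH.const_mul _, hup', fun f hf x => ?_, fun f hf => ?_, fun f hf => ?_, fun f hf => ?_,
    fun f hf => ?_, fun ν g j x₀ hν hg hj _ _ h3 h4 => ?_, fun ν g x₀ hν hg h2 h3 => ?_⟩
  · by_cases hx : f x = 0
    · rw [hx, ENNReal.zero_rpow_of_pos hp0, mul_zero]; exact zero_le
    have hxt : f x ≠ ⊤ := hf.2.1 x
    have hc0 : 0 < (f x).toReal := ENNReal.toReal_pos hx hxt
    have hm0 : mass f ≠ 0 := fun h => hx (by rw [gharm_eq_zero h]; rfl)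
    have hcw : (f x).toReal ≤ mr f := ENNReal.toReal_mono hf.mass_ne_top (le_mass f x)
    have hL : 0 < (f x).toReal * Real.exp y := by positivity
    have hle : sca (ENNReal.ofReal (f x).toReal) (dlt x) ≤ f := fun z => by
      rw [ENNReal.ofReal_toReal hxt, sca, dlt]
      split_ifs with h
      · rw [h, mul_one]
      · rw [mul_zero]; exact zero_le
    have hB1 : Cl⁻¹ * y - Cl ≤ Br d ρ p l y := by
      refine hbr.2.2.2.2 (le_trans ?_ hK)
      have := Kr_nonneg (d := d) (ρ := ρ) (p := p) (l := l)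
      gcongr
      linarith
    have hlow : f x ^ p * ENNReal.ofReal (Br d ρ p l y) ≤ HTn ρ p l y f := by
      rw [HTn_eq hp y hf.mass_ne_top hm0, hbr.1, ← (hfn (Real.exp_pos y)).shift x, sh_dlt]
      calc f x ^ p * HT ρ p l (Real.exp y) (dlt x)
          = HT ρ p l ((f x).toReal * Real.exp y) (sca (ENNReal.ofReal (f x).toReal) (dlt x)) := by
            rw [HT_sca hp (Real.exp_pos y).le hc0, ← ENNReal.ofReal_rpow_of_nonneg hc0.le hp0.le,
              ENNReal.ofReal_toReal hxt]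
        _ ≤ HT ρ p l ((f x).toReal * Real.exp y) f := (hfn hL).mono _ _ hle
        _ ≤ _ := HT_mono_lev hp hp2.le hL.le (by rw [mul_comm]; gcongr) f
    have hnum : C₀⁻¹ ≤ y⁻¹ * (Br d ρ p l y + Cl) := by
      rw [le_inv_mul_iff₀ hy0]
      have : C₀⁻¹ ≤ Cl⁻¹ := inv_anti₀ (by linarith) (by linarith)
      nlinarith
    calc ENNReal.ofReal C₀⁻¹ * f x ^ p
        ≤ ENNReal.ofReal (y⁻¹ * (Br d ρ p l y + Cl)) * f x ^ p := by gcongr
      _ = ENNReal.ofReal y⁻¹ * (f x ^ p * ENNReal.ofReal (Br d ρ p l y)) +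
            ENNReal.ofReal y⁻¹ * (ENNReal.ofReal Cl * f x ^ p) := by
          rw [ENNReal.ofReal_mul (by positivity), ENNReal.ofReal_add hbr.2.1 (by linarith)]
          ring
      _ ≤ _ := by
          refine add_le_add (mul_le_mul_right hlow _) ?_
          refine (herr' Cl _ (by linarith) (by rw [hA]; linarith)).trans ?_
          exact mul_le_mul_right (gharm_site hp0.le f x) _
  · by_cases hm0 : mass f = 0
    · rw [hz f hm0]; exact zero_le
    have hw := hpos f hf hm0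
    have hL : 0 < Real.exp y * mr f := by positivity
    have hS := measurableSet_lev (d := d) (2 * mr f)
    rw [gharm_U_cmul hS mH]
    have h2 : U ρ l (lev d (2 * mr f)) (HT ρ p l (Real.exp y * mr f)) (fun _ => 0) f ≤
        U ρ l (lev d (2 * mr f)) (HTn ρ p l y) (fun _ => 0) f := by
      refine U_mono hd1 (fun g hg hgS => ?_) (fun _ _ _ => le_rfl) hf
      have h3 : 2 * mr f ≤ mr g := (ENNReal.ofReal_le_iff_le_toReal hg.mass_ne_top).1 hgS
      have h4 : mass g ≠ 0 := fun h => by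
        have : mr g = 0 := by rw [mr, h]; rfl
        linarith
      rw [HTn_eq hp y hg.mass_ne_top h4]
      exact HT_mono_lev hp hp2.le hL.le (by gcongr; linarith) g
    have h3 : U ρ l (lev d (2 * mr f)) (fun _ => 0)
        (fun g => lift (th p (Real.exp y * mr f)) (mass g)) f ≤ ENNReal.ofReal 4 * mq p f := by
      refine gharm_U_le hd1 h0 h1 hS (fun _ _ _ => zero_le) (fun g hg hgS => ?_) hf
      refine le_trans ?_ ((gharm_off hp0.le hp2.le hf hgS).trans (le_of_eq (by simp)))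
      rw [lift, if_neg hg.mass_ne_top, gharm_mq hp0.le hg]
      exact ENNReal.ofReal_le_ofReal (th_le_pow hp hL.le (gharm_mr_nonneg g))
    calc ENNReal.ofReal y⁻¹ * HTn ρ p l y f
        ≤ ENNReal.ofReal y⁻¹ * (U ρ l (lev d (2 * mr f)) (HTn ρ p l y) (fun _ => 0) f +
            ENNReal.ofReal 4 * mq p f) := by
          refine mul_le_mul_right ?_ _
          rw [HTn_eq hp y hf.mass_ne_top hm0]
          exact (gharm_res_split h0 h1 hS (mth _) f).le.trans (add_le_add h2 h3)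
      _ ≤ _ := by
          rw [mul_add]
          exact add_le_add le_rfl (herr' 4 _ (by norm_num) (by rw [hA]; linarith))
  · by_cases hm0 : mass f = 0
    · have : f ∈ lev d (2 * mr f) := by
        change ENNReal.ofReal (2 * mr f) ≤ mass f
        rw [mr, hm0]; simp
      rw [U_mem this]
      exact le_self_add
    have hw := hpos f hf hm0
    have hL : 0 < Real.exp y * mr f := by positivity
    have hS := measurableSet_lev (d := d) (2 * mr f)
    rw [gharm_U_cmul hS mH]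
    have h2 : U ρ l (lev d (2 * mr f)) (mq 2) (mq 2) f ≤ ENNReal.ofReal (B * mr f ^ 2) := by
      refine (ht f (2 * mr f) hf (by linarith) le_rfl).2.2.trans (ENNReal.ofReal_le_ofReal ?_)
      have e1 : mr f ^ (2 - p) * mr f ^ p = mr f ^ 2 := by
        rw [← Real.rpow_add hw, sub_add_cancel, Real.rpow_two]
      rw [Real.mul_rpow (by norm_num) hw.le]
      calc Ct * (2 ^ (2 - p) * mr f ^ (2 - p)) * mr f ^ p
          = Ct * 2 ^ (2 - p) * (mr f ^ (2 - p) * mr f ^ p) := by ring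
        _ ≤ Ct * 4 * mr f ^ 2 := by
            rw [e1]; gcongr; exact gharm_two_pow (by linarith)
        _ ≤ _ := by
            refine mul_le_mul_of_nonneg_right ?_ (by positivity)
            rw [hB]; linarith
    have mE : Measurable fun g : Prof d => ENNReal.ofReal (5 * Cb * mr f ^ (p - 2)) * mq 2 g :=
      (measurable_mq 2).const_mul _
    have mE' : Measurable fun g : Prof d => ENNReal.ofReal (5 * Cb * mr f ^ p) +
        ENNReal.ofReal (5 * Cb * mr f ^ (p - 2)) * mq 2 g := measurable_const.add mE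
    have h3 : U ρ l (lev d (2 * mr f)) (HTn ρ p l y) (fun _ => 0) f ≤
        HTn ρ p l y f + ENNReal.ofReal E * mq p f := by
      calc U ρ l (lev d (2 * mr f)) (HTn ρ p l y) (fun _ => 0) f
          ≤ U ρ l (lev d (2 * mr f)) (fun g => HT ρ p l (Real.exp y * mr f) g +
              (ENNReal.ofReal (5 * Cb * mr f ^ p) +
                ENNReal.ofReal (5 * Cb * mr f ^ (p - 2)) * mq 2 g))
              (fun g => 0 + (ENNReal.ofReal (5 * Cb * mr f ^ p) +
                ENNReal.ofReal (5 * Cb * mr f ^ (p - 2)) * mq 2 g)) f :=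
            U_mono hd1 (fun g hg _ => (hlev hw hg).1) (fun _ _ _ => zero_le) hf
        _ = U ρ l (lev d (2 * mr f)) (HT ρ p l (Real.exp y * mr f)) (fun _ => 0) f +
              (U ρ l (lev d (2 * mr f)) (fun _ => ENNReal.ofReal (5 * Cb * mr f ^ p))
                (fun _ => ENNReal.ofReal (5 * Cb * mr f ^ p)) f +
              ENNReal.ofReal (5 * Cb * mr f ^ (p - 2)) *
                U ρ l (lev d (2 * mr f)) (mq 2) (mq 2) f) := by
            rw [U_add hS (hfn hL).meas mE' measurable_const mE',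
              U_add hS measurable_const mE measurable_const mE,
              U_const_mul hS (measurable_mq 2) (measurable_mq 2)]
        _ ≤ _ := by
            refine add_le_add ?_ (le_trans (add_le_add ?_ le_rfl) (hX f hf hm0 _ h2))
            · rw [HTn_eq hp y hf.mass_ne_top hm0]
              exact le_self_add.trans (gharm_res_split h0 h1 hS (mth _) f).ge
            · exact gharm_U_le hd1 h0 h1 hS (fun _ _ _ => le_rfl) (fun _ _ _ => le_rfl) hf
    refine (mul_le_mul_right h3 _).trans ?_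
    rw [mul_add]
    exact add_le_add le_rfl (herr' E _ hE0 hEA)
  · by_cases hm0 : mass f = 0
    · rw [hz f hm0]; exact zero_le
    have hw := hpos f hf hm0
    have hL : 0 < Real.exp y * mr f := by positivity
    rw [T_iter_const_mul _ _ mH]
    have h2 : HTn ρ p l y f ≤ (T ρ)^[k₁ + k₂] (HTn ρ p l y) f + ENNReal.ofReal E * mq p f := by
      refine le_trans ?_ ((T_iter_mono_nice hd1 (fun g hg => (hlev hw hg).2) _ hf).trans
        (hTerr f hf hm0 _ mH))
      rw [HTn_eq hp y hf.mass_ne_top hm0]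
      exact gharm_sub_iter hd1 (fun g hg => Res_sub hd1 (mth _) (fun u hu =>
        pay_sub hd1 hm (th_convex hp hp2.le hL.le) (measurable_th p _)
          (fun x hx => th_nonneg hp hp2.le hL.le hx) hu) hg) _ hf
    refine (mul_le_mul_right h2 _).trans ?_
    rw [mul_add]
    exact add_le_add le_rfl (herr' E _ hE0 hEA)
  · by_cases hm0 : mass f = 0
    · refine le_trans (T_iter_mono_nice hd1 hup _ hf) ?_
      rw [T_iter_const_mul _ _ (measurable_mq p)]
      refine le_trans (mul_le_mul_right (T_iter_mq_le hp.le _ f) _) ?_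
      rw [hm0, ENNReal.zero_rpow_of_pos hp0, zero_mul, mul_zero]
      exact zero_le
    have hw := hpos f hf hm0
    have hL : 0 < Real.exp y * mr f := by positivity
    have hδ : 0 ≤ ε / (4 * Cb) := by positivity
    rw [T_iter_const_mul _ _ mH]
    have h2 : (T ρ)^[k₁ + k₂] (HTn ρ p l y) f ≤ HTn ρ p l y f +
        ENNReal.ofReal (ε / (4 * Cb)) * HTn ρ p l y f + ENNReal.ofReal E * mq p f := by
      refine ((T_iter_mono_nice hd1 (fun g hg => (hlev hw hg).1) _ hf).trans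
        (hTerr f hf hm0 _ (hfn hL).meas)).trans (add_le_add ?_ le_rfl)
      rw [HTn_eq hp y hf.mass_ne_top hm0]
      exact gharm_res_up h1 (mth _) _ hδ hsm f
    calc ENNReal.ofReal y⁻¹ * (T ρ)^[k₁ + k₂] (HTn ρ p l y) f
        ≤ ENNReal.ofReal y⁻¹ * HTn ρ p l y f +
            (ENNReal.ofReal (ε / (4 * Cb)) * (ENNReal.ofReal y⁻¹ * HTn ρ p l y f) +
              ENNReal.ofReal y⁻¹ * (ENNReal.ofReal E * mq p f)) :=
          (mul_le_mul_right h2 _).trans (le_of_eq (by ring))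
      _ ≤ ENNReal.ofReal y⁻¹ * HTn ρ p l y f +
            (ENNReal.ofReal (ε / (4 * Cb)) * (ENNReal.ofReal (2 * Cb) * mq p f) +
              ENNReal.ofReal (ε / 2) * mq p f) :=
          add_le_add le_rfl (add_le_add (mul_le_mul_right (hup f hf) _) (herr E _ hE0 hEA))
      _ = _ := by
          rw [← mul_assoc, ← ENNReal.ofReal_mul hδ, ← add_mul,
            ← ENNReal.ofReal_add (by positivity) (by positivity)]
          congr 3
          field_simp
          ring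
  · have hmg : mass g ≤ 3 * mass ν := by
      calc mass g ≤ mass (sca (ENNReal.ofReal (1 + η)) (avg^[k₂] ν) + j) := mass_mono h3
        _ = ENNReal.ofReal (1 + η) * mass ν + mass j := by
            rw [mass_add, mass_sca, mass_avg_iter hd1]
        _ ≤ 2 * mass ν + mass ν := by
            refine add_le_add (mul_le_mul_left ?_ _) h4
            calc ENNReal.ofReal (1 + η) ≤ ENNReal.ofReal 2 := ENNReal.ofReal_le_ofReal (by linarith)
              _ = 2 := by simp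
        _ = 3 * mass ν := by ring
    by_cases hm0 : mass ν = 0
    · rw [hz g (le_antisymm (by simpa [hm0] using hmg) zero_le)]
      exact zero_le
    have hw := hpos ν hν hm0
    have hL : 0 < Real.exp y * mr ν := by positivity
    have hmj : mass j ≤ 3 * mass ν := h4.trans (le_mul_of_one_le_left' (by norm_num))
    have h5 := gharm_shu (hfn hL) hp.le hp2.le hη hη2 k₂ hν.mass_ne_top h3
    rw [hph ν hν hm0] at h5
    have h6 := (hlev hw hg).1.trans (add_le_add le_rfl (hX ν hν hm0 _ (hsq ν g hν hmg)))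
    have h7 := (hlev hw hj).2.trans (add_le_add le_rfl (hX ν hν hm0 _ (hsq ν j hν hmj)))
    calc ENNReal.ofReal y⁻¹ * HTn ρ p l y g
        ≤ ENNReal.ofReal y⁻¹ * (ENNReal.ofReal (1 + 8 * η) * (mq p ν * HTn ρ p l y (phi d k₂)) +
            ENNReal.ofReal η⁻¹ * (HTn ρ p l y j + ENNReal.ofReal E * mq p ν) +
              ENNReal.ofReal E * mq p ν) := by
          refine mul_le_mul_right (h6.trans (add_le_add (h5.trans ?_) le_rfl)) _
          exact add_le_add le_rfl (mul_le_mul_right h7 _)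
      _ = ENNReal.ofReal (1 + 8 * η) * mq p ν * (ENNReal.ofReal y⁻¹ * HTn ρ p l y (phi d k₂)) +
            ENNReal.ofReal η⁻¹ * (ENNReal.ofReal y⁻¹ * HTn ρ p l y j) +
              ENNReal.ofReal y⁻¹ * (ENNReal.ofReal (E + η⁻¹ * E) * mq p ν) := by
          rw [ENNReal.ofReal_add hE0 hEη, ENNReal.ofReal_mul (p := η⁻¹) (by positivity)]
          ring
      _ ≤ _ := by
          refine add_le_add (add_le_add le_rfl ?_)
            (herr' _ _ (by linarith) (by rw [hA]; linarith))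
          rw [div_eq_inv_mul, ENNReal.ofReal_mul (p := η⁻¹) (by positivity), mul_assoc]
          exact mul_le_mul_right (hup' j hj) _
  · by_cases hm0 : mass ν = 0
    · rw [mq, hm0, ENNReal.zero_rpow_of_pos hp0, mul_zero, zero_mul]
      exact zero_le
    have hw := hpos ν hν hm0
    have hL : 0 < Real.exp y * mr ν := by positivity
    have hk' : C₂ * (((3 * k₁ : ℕ) : ℝ) + 1) ^ 2 ≤ η ^ 4 * k₂ :=
      le_trans (mul_le_mul_of_nonneg_right (by linarith) (by positivity)) hk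
    have hfin : HT ρ p l (Real.exp y * mr ν) (sca (mass ν) (phi d k₂)) ≠ ⊤ := by
      rw [hph ν hν hm0, gharm_mq hp0.le hν]
      refine ENNReal.mul_ne_top ENNReal.ofReal_ne_top
        (ne_top_of_le_ne_top ?_ (hb _ 1 y (nice_phi hd1 k₂) one_pos hy0.le).2)
      rw [gharm_mq hp0.le (nice_phi hd1 k₂)]
      exact ENNReal.mul_ne_top ENNReal.ofReal_ne_top ENNReal.ofReal_ne_top
    have h5 := hcmp η (3 * k₁) k₂ hη hη2 hk' p _ hp.le hp2.le (hfn hL) ν x₀ hν h2 hfin
    rw [hph ν hν hm0] at h5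
    have hmg : mass ν ≤ mass g := by
      rw [← mass_avg_iter hd1 k₂ ν]; exact mass_mono h3
    have hg0 : mass g ≠ 0 := fun h => hm0 (le_antisymm (h ▸ hmg) zero_le)
    have h6 : HT ρ p l (Real.exp y * mr ν) g ≤ HTn ρ p l y g := by
      rw [HTn_eq hp y hg.mass_ne_top hg0]
      refine HT_mono_lev hp hp2.le hL.le ?_ g
      exact mul_le_mul_of_nonneg_left (ENNReal.toReal_mono hg.mass_ne_top hmg) (Real.exp_pos y).le
    refine le_add_right ?_
    calc ENNReal.ofReal (1 - 2 * η) * mq p ν * (ENNReal.ofReal y⁻¹ * HTn ρ p l y (phi d k₂))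
        = ENNReal.ofReal y⁻¹ * (ENNReal.ofReal (1 - 2 * η) *
            (mq p ν * HTn ρ p l y (phi d k₂))) := by ring
      _ ≤ _ := mul_le_mul_right (h5.trans (((hfn hL).mono _ _ h3).trans h6)) _

end Pool.Agent.Lib.MP_153faa_pr
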