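import Mathlib
import Pool.Agent.Lib.MP_153faa_pr.GFun2
import Pool.Agent.Lib.MP_153faa_pr.GHarm

set_option autoImplicit false

open MeasureTheory Filter Topology
open scoped ENNReal NNReal

namespace Pool.Agent.Lib.MP_153faa_pr

variable {d : ℕ}

theorem gfun1_aux {a b m : ℝ≥0∞} {y x B e : ℝ} (hy : 0 < y) (hx : 0 ≤ x) (hB : 0 ≤ B)
    (h : ENNReal.ofReal y⁻¹ * a ≤
      ENNReal.ofReal (1 + x) * (ENNReal.ofReal y⁻¹ * b) + ENNReal.ofReal x * m)
    (hb : b ≤ ENNReal.ofReal B * m) (he : x * B + y * x ≤ e) :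
    a ≤ b + ENNReal.ofReal e * m := by
  have e1 : ENNReal.ofReal y * ENNReal.ofReal y⁻¹ = 1 := by
    rw [← ENNReal.ofReal_mul hy.le, mul_inv_cancel₀ hy.ne', ENNReal.ofReal_one]
  have h2 := mul_le_mul_right h (ENNReal.ofReal y)
  rw [← mul_assoc, e1, one_mul, mul_add, mul_left_comm, ← mul_assoc (ENNReal.ofReal y), e1, one_mul,
    ENNReal.ofReal_add zero_le_one hx, ENNReal.ofReal_one, add_mul, one_mul, add_assoc] at h2
  refine h2.trans (add_le_add le_rfl ((add_le_add (mul_le_mul_right hb _) le_rfl).trans ?_))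
  rw [← mul_assoc, ← mul_assoc, ← add_mul, ← ENNReal.ofReal_mul hx, ← ENNReal.ofReal_mul hy.le,
    ← ENNReal.ofReal_add (by positivity) (by positivity)]
  exact mul_le_mul_left (ENNReal.ofReal_le_ofReal he) _

section
variable {ρ : Measure ℝ≥0} [IsProbabilityMeasure ρ] {κ M p l : ℝ}

theorem gfun1_KH (hd : 3 ≤ d) (h : Ctx d κ M ρ p l) (f : Prof d) :
    KK d ρ p l * HH ρ p l f ≤ mq p f := by
  refine (mul_le_mul_right (HH_le (h.one_lt hd).1.le f) _).trans ?_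
  rw [← mul_assoc]
  exact mul_le_of_le_one_left' (ENNReal.inv_mul_le_one _)

theorem gfun1_one (hd : 3 ≤ d) (h : Ctx d κ M ρ p l) (hO : OO d ρ p l ≠ ⊤) :
    KK d ρ p l * HH ρ p l (dlt (0 : Site d)) = 1 :=
  ENNReal.inv_mul_cancel (zero_lt_one.trans_le
    (one_le_OO (by omega) h.good.1 (h.one_lt hd).1.le h.l0 h.l1)).ne' hO

theorem gfun1_O (hd : 3 ≤ d) (h : Ctx d κ M ρ p l) {C C' : ℝ} (h0 : 0 < C') (hC : C' ≤ C)
    (hK : Kr d ρ p l ≤ C⁻¹) : ENNReal.ofReal C' ≤ OO d ρ p l := by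
  have h1 := ENNReal.ofReal_le_ofReal (hK.trans (inv_anti₀ h0 hC))
  rw [ofReal_Kr (by omega) h.good.1 (h.one_lt hd).1.le h.l0 h.l1, ENNReal.ofReal_inv_of_pos h0]
    at h1
  exact ENNReal.inv_le_inv.1 h1

end

/-- The truncated moment is proportional to the moment. -/
theorem fun1 (hd : 3 ≤ d) {κ M : ℝ} (hκ : 0 < κ) : ∃ C₁ : ℝ, 1 ≤ C₁ ∧ ∀ η : ℝ, 0 < η →
    ∃ C : ℝ, 1 ≤ C ∧
      ∀ (ρ : Measure ℝ≥0) [IsProbabilityMeasure ρ] (p l y : ℝ), Ctx d κ M ρ p l → l ≤ C⁻¹ →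
        OO d ρ p l ≠ ⊤ → Kr d ρ p l ≤ C⁻¹ → 0 ≤ y → C₁ * (1 + y) * Kr d ρ p l ≤ 1 →
        ∀ f : Prof d, Nice f →
          HTn ρ p l y f ≤ ENNReal.ofReal (Br d ρ p l y) * (KK d ρ p l * HH ρ p l f) +
            ENNReal.ofReal (η * y + C) * mq p f ∧
          ENNReal.ofReal (Br d ρ p l y) * (KK d ρ p l * HH ρ p l f) ≤
            HTn ρ p l y f + ENNReal.ofReal (η * y + C) * mq p f := by
  obtain ⟨A, hA, hH⟩ := harm_H (M := M) hd hκ
  obtain ⟨B, hB, hT⟩ := harm_T (M := M) hd hκ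
  obtain ⟨D, hD, hb⟩ := blip (M := M) hd hκ
  obtain ⟨E, hE, hl⟩ := br_lin (M := M) hd hκ
  refine ⟨B, hB, fun η hη => ?_⟩
  obtain ⟨x, x0, ex⟩ : ∃ x : ℝ, 0 < x ∧ x * (2 * (D + E) + 1) = η :=
    ⟨η / (2 * (D + E) + 1), by positivity, by field_simp⟩
  obtain ⟨e, ε, l₀, k₁, k₂, e0, e1, ε0, l0, hk, hF⟩ := fun2 (M := M) hd hκ B (A + B) x hB
    (by linarith) x0
  have k0 : 0 ≤ (((3 * k₁ : ℕ) : ℝ) + 1) ^ 2 := by positivity
  obtain ⟨CH, hCH, hH⟩ := hH B e ε k₁ k₂ hB e0 e1 ε0 (by nlinarith)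
  obtain ⟨CT, hCT, hT⟩ := hT B e ε k₁ k₂ le_rfl e0 e1 ε0 (by nlinarith)
  have p1 : 0 < l₀⁻¹ := by positivity
  have p2 : D ≤ D * (1 + CT) := by nlinarith
  have p3 : E ≤ E * (1 + CT) := by nlinarith
  refine ⟨CH + CT + l₀⁻¹ + D * (1 + CT) + E * (1 + CT), by linarith,
    fun ρ _ p l y hc hlC hO hK y0 hy f hf => ?_⟩
  set C := CH + CT + l₀⁻¹ + D * (1 + CT) + E * (1 + CT) with hC
  have sm : ∀ c : ℝ, 0 < c → c ≤ C → l ≤ c⁻¹ := fun c c0 c1 => hlC.trans (inv_anti₀ c0 c1)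
  have b1 := (hb ρ p l hc (sm D (by linarith) (by linarith)) hO f 1 y hf one_pos y0).2
  obtain ⟨b2, -, b3, -⟩ := hl ρ p l hc (sm E (by linarith) (by linarith)) hO y y0
  have b4 : ENNReal.ofReal (Br d ρ p l y) * (KK d ρ p l * HH ρ p l f) ≤
      ENNReal.ofReal (E * (1 + y)) * mq p f :=
    mul_le_mul' (ENNReal.ofReal_le_ofReal b3) (gfun1_KH hd hc f)
  have q0 := mul_nonneg hη.le y0
  rcases le_total y CT with y1 | y1
  · have q1 := mul_le_mul_of_nonneg_left (add_le_add (le_refl (1 : ℝ)) y1) (show 0 ≤ D by linarith)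
    have q2 := mul_le_mul_of_nonneg_left (add_le_add (le_refl (1 : ℝ)) y1) (show 0 ≤ E by linarith)
    exact ⟨(b1.trans (mul_le_mul_left (ENNReal.ofReal_le_ofReal (by linarith)) _)).trans
      le_add_self, (b4.trans (mul_le_mul_left (ENNReal.ofReal_le_ofReal (by linarith)) _)).trans
      le_add_self⟩
  have h1 := hH ρ p l hc (sm CH (by linarith) (by linarith)) hO
    (gfun1_O hd hc (by linarith) (by linarith) hK)
  have h2 := hT ρ p l y hc (sm CT (by linarith) (by linarith)) hO y1 hy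
  have ll : l ≤ l₀ := by simpa using sm l₀⁻¹ p1 (by linarith)
  have eB : HTn ρ p l y (dlt (0 : Site d)) = ENNReal.ofReal (Br d ρ p l y) := by
    rw [HTn_eq (hc.one_lt hd).1 y (by simp [mass_dlt]) (by simp [mass_dlt]), b2]
    simp [mr, mass_dlt]
  have f1 := hF ρ p l hc ll _ _ h2 h1 f hf
  have f2 := hF ρ p l hc ll _ _ h1 h2 f hf
  simp only [gfun1_one hd hc hO, eB, mul_one, one_mul] at f1 f2
  have y2 : 1 ≤ y := hCT.trans y1
  have r1 : 0 ≤ x * D * (y - 1) := by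
    have : 0 ≤ y - 1 := by linarith
    positivity
  have r2 : 0 ≤ x * E * (y - 1) := by
    have : 0 ≤ y - 1 := by linarith
    positivity
  have r3 : 0 ≤ x * D * y := by positivity
  have r4 : 0 ≤ x * E * y := by positivity
  have C0 : 0 ≤ C := by linarith
  refine ⟨gfun1_aux (y := y) (by linarith) x0.le (by positivity) (by rwa [mul_assoc] at f1) b4 ?_,
    gfun1_aux (y := y) (by linarith) x0.le (by positivity)
      (by rwa [mul_comm, mul_assoc] at f2) b1 ?_⟩ <;> rw [← ex] <;> linarith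

/-- The two-stage moment is proportional to the moment of the first stage. -/
theorem fun_br (hd : 3 ≤ d) {κ M : ℝ} (hκ : 0 < κ) (η : ℝ) (hη : 0 < η) : ∃ C : ℝ, 1 ≤ C ∧
    ∀ (ρ : Measure ℝ≥0) [IsProbabilityMeasure ρ] (p l l' : ℝ) (j : ℕ), Ctx d κ M ρ p l →
      l ≤ C⁻¹ → Kr d ρ p l ≤ C⁻¹ → OO d ρ p l ≤ ENNReal.ofReal (l ^ (-(1 / (4 * d : ℝ)))) →
      0 < l' → C * l' ≤ l → OO d ρ p l' ≠ ⊤ → (j : ℝ) ≤ l ^ (-(1 / (2 * d : ℝ))) →
      Kr d ρ p l' + Ar d ρ p l' j ≤ C⁻¹ → ∀ f : Prof d, Nice f →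
        KK d ρ p l' * Res ρ l (HH ρ p l') f ≤
          KK d ρ p l * HH ρ p l f + ENNReal.ofReal η * mq p f ∧
        KK d ρ p l * HH ρ p l f ≤
          KK d ρ p l' * Res ρ l (HH ρ p l') f + ENNReal.ofReal η * mq p f := by
  obtain ⟨A, hA, hH⟩ := harm_H (M := M) hd hκ
  obtain ⟨B, hB, hR⟩ := harm_R (M := M) hd hκ
  obtain ⟨x, x0, x1, x2⟩ : ∃ x : ℝ, 0 < x ∧ x ≤ 1 ∧ 6 * x ≤ η :=
    ⟨min 1 (η / 6), lt_min one_pos (by positivity), min_le_left _ _,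
      by linarith [min_le_right 1 (η / 6)]⟩
  obtain ⟨e, ε, l₀, k₁, k₂, e0, e1, ε0, l0, hk, hF⟩ := fun2 (M := M) hd hκ 2 (A + B) x
    (by norm_num) (by linarith) x0
  have k0 : 0 ≤ (((3 * k₁ : ℕ) : ℝ) + 1) ^ 2 := by positivity
  obtain ⟨CH, hCH, hH⟩ := hH 2 e ε k₁ k₂ (by norm_num) e0 e1 ε0 (by nlinarith)
  obtain ⟨CR, hCR, hR⟩ := hR 2 e ε k₁ k₂ le_rfl e0 e1 ε0 (by nlinarith)
  have p1 : 0 < l₀⁻¹ := by positivity
  have p2 : 0 < x⁻¹ := by positivity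
  refine ⟨CH + CR + l₀⁻¹ + x⁻¹, by linarith,
    fun ρ _ p l l' j hc hlC hK hO l1 l2 hO' hj hs f hf => ?_⟩
  set C := CH + CR + l₀⁻¹ + x⁻¹ with hC
  have sm : ∀ c : ℝ, 0 < c → c ≤ C → l ≤ c⁻¹ := fun c c0 c1 => hlC.trans (inv_anti₀ c0 c1)
  have ot : OO d ρ p l ≠ ⊤ := ne_top_of_le_ne_top ENNReal.ofReal_ne_top hO
  have l3 : (1 + x⁻¹) * l' ≤ l := (mul_le_mul_of_nonneg_right (by linarith) l1.le).trans l2
  have l4 : l' ≤ l := by nlinarith
  have hc' : Ctx d κ M ρ p l' := ⟨hc.good, hc.p1, hc.p2, l1, l4.trans_lt hc.l1⟩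
  have h1 := hH ρ p l hc (sm CH (by linarith) (by linarith)) ot
    (gfun1_O hd hc (by linarith) (by linarith) hK)
  have h2 := hR ρ p l l' j hc (sm CR (by linarith) (by linarith)) hO l1
    ((mul_le_mul_of_nonneg_right (by linarith) l1.le).trans l2) hO' hj
    (hs.trans (inv_anti₀ (by linarith) (by linarith)))
  have ll : l ≤ l₀ := by simpa using sm l₀⁻¹ p1 (by linarith)
  have r1 : 1 ≤ KK d ρ p l' * Res ρ l (HH ρ p l') (dlt (0 : Site d)) := by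
    rw [← gfun1_one hd hc' hO']
    exact mul_le_mul_right (HH_le_Res (by omega) hc.good.1 (hc.one_lt hd).1.le hc.l0 hc.l1 l1
      hc'.l1 _) _
  have r2 : KK d ρ p l' * Res ρ l (HH ρ p l') (dlt (0 : Site d)) ≤ ENNReal.ofReal (1 + x) := by
    have t1 : ENNReal.ofReal ((l - l') / (l * (1 - l'))) * Res ρ l (HH ρ p l') (dlt (0 : Site d)) ≤
        HH ρ p l' (dlt (0 : Site d)) :=
      le_add_self.trans (Res_two l1 l4 hc.l1 (measurable_mq p) _).ge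
    have t2 : 1 ≤ ENNReal.ofReal (1 + x) * ENNReal.ofReal ((l - l') / (l * (1 - l'))) := by
      have u0 := hc.l0
      have u1 : 0 < 1 - l' := by linarith [hc'.l1]
      have u2 := mul_le_mul_of_nonneg_left l3 x0.le
      rw [← mul_assoc, mul_add, mul_inv_cancel₀ x0.ne'] at u2
      rw [← ENNReal.ofReal_mul (by linarith), ENNReal.one_le_ofReal, ← mul_div_assoc,
        le_div_iff₀ (by positivity)]
      nlinarith [mul_pos u0 l1]
    calc _ ≤ ENNReal.ofReal (1 + x) * ENNReal.ofReal ((l - l') / (l * (1 - l'))) *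
          (KK d ρ p l' * Res ρ l (HH ρ p l') (dlt (0 : Site d))) := le_mul_of_one_le_left' t2
      _ = ENNReal.ofReal (1 + x) * (KK d ρ p l' * (ENNReal.ofReal ((l - l') / (l * (1 - l'))) *
          Res ρ l (HH ρ p l') (dlt (0 : Site d)))) := by ring
      _ ≤ ENNReal.ofReal (1 + x) * 1 := by
          rw [← gfun1_one hd hc' hO']
          exact mul_le_mul_right (mul_le_mul_right t1 _) _
      _ = _ := mul_one _
  have f1 := hF ρ p l hc ll _ _ h2 h1 f hf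
  have f2 := hF ρ p l hc ll _ _ h1 h2 f hf
  simp only [gfun1_one hd hc ot, mul_one, one_mul] at f1 f2
  have f3 := f1.trans (add_le_add (mul_le_mul_right (mul_le_mul_left r2 _) _)
    (mul_le_mul_left (ENNReal.ofReal_le_ofReal (show x ≤ 2 * x + x ^ 2 by nlinarith)) _))
  rw [← mul_assoc, ← ENNReal.ofReal_mul (by linarith),
    show (1 + x) * (1 + x) = 1 + (2 * x + x ^ 2) by ring] at f3
  refine ⟨gfun1_aux (y := 1) (x := 2 * x + x ^ 2) (B := 1) one_pos (by positivity) zero_le_one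
    (by simpa using f3) (by simpa using gfun1_KH hd hc f) (by nlinarith),
    gfun1_aux (y := 1) (x := x) (B := 2) one_pos x0.le zero_le_two ?_ (h2.up f hf) (by linarith)⟩
  rw [inv_one, ENNReal.ofReal_one, one_mul, one_mul]
  exact (le_mul_of_one_le_right' r1).trans f2

end Pool.Agent.Lib.MP_153faa_pr
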