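import Mathlib
import Pool.Agent.Lib.MP_153faa_pr.GFun1

set_option autoImplicit false

open MeasureTheory Filter Topology
open scoped ENNReal NNReal

namespace Pool.Agent.Lib.MP_153faa_pr

variable {d : ℕ}

section aux

variable {ρ : Measure ℝ≥0} [IsProbabilityMeasure ρ] {l p : ℝ} {S : Set (Prof d)}

theorem gblin_U2 (hd : 1 ≤ d) (hS : MeasurableSet S) {F R G R' H R'' : Prof d → ℝ≥0∞}
    (mG : Measurable G) (mR' : Measurable R') (mH : Measurable H) (mR'' : Measurable R'')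
    (a b : ℝ≥0∞) (hF : ∀ g, Nice g → g ∈ S → F g ≤ a * G g + b * H g)
    (hR : ∀ g, Nice g → g ∉ S → R g ≤ a * R' g + b * R'' g) {f : Prof d} (hf : Nice f) :
    U ρ l S F R f ≤ a * U ρ l S G R' f + b * U ρ l S H R'' f := by
  refine (U_mono hd hF hR hf).trans_eq ?_
  rw [U_add hS (mG.const_mul a) (mH.const_mul b) (mR'.const_mul a) (mR''.const_mul b),
    U_const_mul hS mG mR', U_const_mul hS mH mR'']

theorem gblin_U1 (hd : 1 ≤ d) (hS : MeasurableSet S) {F R G R' : Prof d → ℝ≥0∞}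
    (mG : Measurable G) (mR' : Measurable R') (a : ℝ≥0∞)
    (hF : ∀ g, Nice g → g ∈ S → F g ≤ a * G g)
    (hR : ∀ g, Nice g → g ∉ S → R g ≤ a * R' g) {f : Prof d} (hf : Nice f) :
    U ρ l S F R f ≤ a * U ρ l S G R' f := by
  refine (U_mono hd hF hR hf).trans_eq ?_
  rw [U_const_mul hS mG mR']

theorem gblin_Uc (hS : MeasurableSet S) {G : Prof d → ℝ≥0∞} (mG : Measurable G) (a : ℝ≥0∞)
    (f : Prof d) :
    a * U ρ l S G (fun _ => 0) f = U ρ l S (fun g => a * G g) (fun _ => 0) f := by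
  rw [← U_const_mul hS mG measurable_const]
  simp only [mul_zero]

theorem gblin_mr (f : Prof d) : 0 ≤ mr f := ENNReal.toReal_nonneg

theorem gblin_mq {g : Prof d} (hg : Nice g) {q : ℝ} (hq : 0 ≤ q) :
    mq q g = ENNReal.ofReal (mr g ^ q) := by
  rw [mq, ← hg.ofReal_mr, ENNReal.ofReal_rpow_of_nonneg (gblin_mr g) hq]

theorem gblin_th {g : Prof d} (hg : Nice g) (ψ : ℝ → ℝ) :
    lift ψ (mass g) = ENNReal.ofReal (ψ (mr g)) := by
  rw [lift, if_neg hg.mass_ne_top]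
  rfl

theorem gblin_mth (p M : ℝ) : Measurable fun g : Prof d => lift (th p M) (mass g) :=
  (measurable_lift (measurable_th p M)).comp measurable_mass

theorem gblin_mHT (M : ℝ) : Measurable (HT ρ p l M : Prof d → ℝ≥0∞) :=
  measurable_Res (gblin_mth p M)

theorem gblin_pow {x s p : ℝ} (hs : 0 < s) (hx : s ≤ x) (hp : p ≤ 2) :
    x ^ p ≤ s ^ (p - 2) * x ^ (2 : ℝ) := by
  have hx0 : 0 < x := hs.trans_le hx
  have e : x ^ p = x ^ (p - 2) * x ^ (2 : ℝ) := by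
    rw [← Real.rpow_add hx0]
    congr 1
    ring
  rw [e]
  exact mul_le_mul_of_nonneg_right (Real.rpow_le_rpow_of_nonpos hs hx (by linarith))
    (by positivity)

theorem gblin_log {x s p : ℝ} (hs : 0 < s) (hx : s ≤ x) (hp : p ≤ 5 / 3) :
    Real.log (x / s) * x ^ p ≤ 3 * (s ^ (p - 2) * x ^ (2 : ℝ)) := by
  have hx0 : 0 < x := hs.trans_le hx
  have h1 : Real.log (x / s) ≤ (x / s) ^ (2 - p) / (2 - p) :=
    Real.log_le_rpow_div (by positivity) (by linarith)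
  have h2 : (x / s) ^ (2 - p) / (2 - p) ≤ 3 * (x / s) ^ (2 - p) := by
    rw [div_le_iff₀ (by linarith)]
    have : 0 ≤ (x / s) ^ (2 - p) := by positivity
    nlinarith
  have h3 : (x / s) ^ (2 - p) * x ^ p = s ^ (p - 2) * x ^ (2 : ℝ) := by
    have e1 : x ^ (2 : ℝ) = x ^ (2 - p) * x ^ p := by
      rw [← Real.rpow_add hx0]
      congr 1
      ring
    have e2 : s ^ (p - 2) = (s ^ (2 - p))⁻¹ := by
      rw [← Real.rpow_neg hs.le]
      congr 1
      ring
    rw [Real.div_rpow hx0.le hs.le, e1, e2]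
    ring
  calc Real.log (x / s) * x ^ p ≤ 3 * (x / s) ^ (2 - p) * x ^ p :=
        mul_le_mul_of_nonneg_right (h1.trans h2) (by positivity)
    _ = 3 * (s ^ (p - 2) * x ^ (2 : ℝ)) := by rw [← h3]; ring

omit [IsProbabilityMeasure ρ] in
theorem gblin_p {κ M : ℝ} (hd : 3 ≤ d) (h : Ctx d κ M ρ p l) : p ≤ 5 / 3 := by
  have h2 := h.p2
  have h3 : (3 : ℝ) ≤ d := by exact_mod_cast hd
  have : (2 : ℝ) / d ≤ 2 / 3 := div_le_div_of_nonneg_left (by norm_num) (by norm_num) h3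
  unfold q0 at h2
  linarith

theorem gblin_inv {C C' x : ℝ} (h : x ≤ C⁻¹) (hC' : 1 ≤ C') (hC : C' ≤ C) : x ≤ C'⁻¹ :=
  h.trans (inv_anti₀ (by linarith) hC)

theorem gblin_real {X Y Z : ℝ≥0∞} {a b : ℝ} (ha : 0 ≤ a) (hb : 0 ≤ b) (hY : Y ≠ ⊤) (hZ : Z ≠ ⊤)
    (h : X ≤ ENNReal.ofReal a * Y + ENNReal.ofReal b * Z) :
    X.toReal ≤ a * Y.toReal + b * Z.toReal := by
  have h1 : ENNReal.ofReal a * Y ≠ ⊤ := ENNReal.mul_ne_top ENNReal.ofReal_ne_top hY
  have h2 : ENNReal.ofReal b * Z ≠ ⊤ := ENNReal.mul_ne_top ENNReal.ofReal_ne_top hZ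
  have := ENNReal.toReal_mono (ENNReal.add_ne_top.2 ⟨h1, h2⟩) h
  rwa [ENNReal.toReal_add h1 h2, ENNReal.toReal_mul, ENNReal.toReal_mul, ENNReal.toReal_ofReal ha,
    ENNReal.toReal_ofReal hb] at this

theorem gblin_real1 {X Y : ℝ≥0∞} {a : ℝ} (ha : 0 ≤ a) (hY : Y ≠ ⊤)
    (h : X ≤ ENNReal.ofReal a * Y) : X.toReal ≤ a * Y.toReal := by
  have h1 : ENNReal.ofReal a * Y ≠ ⊤ := ENNReal.mul_ne_top ENNReal.ofReal_ne_top hY
  have := ENNReal.toReal_mono h1 h
  rwa [ENNReal.toReal_mul, ENNReal.toReal_ofReal ha] at this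

/-- splitting of a resolvent at a level, in real numbers -/
theorem gblin_split (hS : MeasurableSet S) (h0 : 0 < l) (h1 : l < 1) {Φ : Prof d → ℝ≥0∞}
    (hΦ : Measurable Φ) {f : Prof d} (hf : Res ρ l Φ f ≠ ⊤) :
    U ρ l S (Res ρ l Φ) (fun _ => 0) f ≠ ⊤ ∧ U ρ l S (fun _ => 0) Φ f ≠ ⊤ ∧
      (Res ρ l Φ f).toReal = (U ρ l S (Res ρ l Φ) (fun _ => 0) f).toReal +
        (U ρ l S (fun _ => 0) Φ f).toReal := by
  have e := Res_eq_U (ρ := ρ) hS h0 h1 hΦ f
  rw [U_split hS (measurable_Res hΦ) hΦ] at e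
  rw [e] at hf
  obtain ⟨a, b⟩ := ENNReal.add_ne_top.1 hf
  exact ⟨a, b, by rw [← ENNReal.toReal_add a b, ← e]⟩

theorem gblin_HH_ne (hp : 1 ≤ p) (hO : OO d ρ p l ≠ ⊤) {f : Prof d} (hf : Nice f) :
    HH ρ p l f ≠ ⊤ := by
  refine ne_top_of_le_ne_top (ENNReal.mul_ne_top hO ?_) (HH_le hp f)
  rw [gblin_mq hf (by linarith)]
  exact ENNReal.ofReal_ne_top

theorem gblin_KO (hd : 1 ≤ d) (hm : Mean1 ρ) (hp : 1 ≤ p) (h0 : 0 < l) (h1 : l < 1)
    (hO : OO d ρ p l ≠ ⊤) : Kr d ρ p l * (OO d ρ p l).toReal = 1 := by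
  have h2 : OO d ρ p l ≠ 0 := (lt_of_lt_of_le one_pos (one_le_OO hd hm hp h0 h1)).ne'
  rw [Kr, KK, ← ENNReal.toReal_mul, ENNReal.inv_mul_cancel h2 hO, ENNReal.toReal_one]

/-- second order expansion at the stopping time -/
theorem gblin_exp (hd : 1 ≤ d) (hm : Mean1 ρ) {χ : ℝ≥0∞} (hχ : mom ρ 2 = 1 + χ) (hχt : χ ≠ ⊤)
    (h0 : 0 < l) (h1 : l < 1) (t : ℝ) {f : Prof d} (hf : Nice f) (hf1 : mass f = 1)
    {Φ : Prof d → ℝ≥0∞} (hΦ : Measurable Φ) {ψ : ℝ → ℝ} {σ : ℝ}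
    (hψ : ∀ g, Nice g → Φ g = ENNReal.ofReal (ψ (mr g))) (hψ0 : ∀ x, 0 ≤ x → 0 ≤ ψ x)
    (hl : ∀ x, 0 ≤ x → ψ 1 + σ * (x - 1) ≤ ψ x)
    (hu : ∀ x, 0 ≤ x → ψ x ≤ ψ 1 + σ * (x - 1) + (x - 1) ^ 2) :
    ENNReal.ofReal (ψ 1) ≤ U ρ l (lev d t) Φ Φ f ∧
      U ρ l (lev d t) Φ Φ f ≤ ENNReal.ofReal (ψ 1) + χ * II ρ l t f := by
  have hS := measurableSet_lev (d := d) t
  obtain ⟨a, b, ha, hb, rfl⟩ : ∃ a b : ℝ, 0 ≤ a ∧ 0 ≤ b ∧ σ = a - b :=
    ⟨max σ 0, max (-σ) 0, le_max_right _ _, le_max_right _ _, (max_zero_sub_max_neg_zero_eq_self σ).symm⟩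
  have hmr : mr f = 1 := by rw [mr, hf1, ENNReal.toReal_one]
  have hψ1 := hψ0 1 zero_le_one
  have aff : ∀ (u v : ℝ≥0∞), U ρ l (lev d t) (fun g => u * 1 + v * mass g)
      (fun g => u * 1 + v * mass g) f = u + v := by
    intro u v
    rw [U_add hS (measurable_const.const_mul u) (measurable_mass.const_mul v)
      (measurable_const.const_mul u) (measurable_mass.const_mul v),
      U_const_mul hS measurable_const measurable_const, U_const_mul hS measurable_mass measurable_mass,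
      U_one hS h0 h1, U_mass_lev hd hm h0 h1 t hf, hf1, mul_one, mul_one]
  have maff : ∀ (u v : ℝ≥0∞), Measurable fun g : Prof d => u * 1 + v * mass g := fun u v =>
    measurable_const.add (measurable_mass.const_mul v)
  have eaff : ∀ (u v : ℝ), 0 ≤ u → 0 ≤ v → ∀ g : Prof d, Nice g →
      ENNReal.ofReal u * 1 + ENNReal.ofReal v * mass g = ENNReal.ofReal (u + v * mr g) := by
    intro u v hu hv g hg
    rw [mul_one, ← hg.ofReal_mr, ← ENNReal.ofReal_mul hv,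
      ← ENNReal.ofReal_add hu (mul_nonneg hv (gblin_mr g))]
  have hfin : ENNReal.ofReal a + ENNReal.ofReal b ≠ ⊤ :=
    ENNReal.add_ne_top.2 ⟨ENNReal.ofReal_ne_top, ENNReal.ofReal_ne_top⟩
  have eU : U ρ l (lev d t) (fun g => Φ g + (ENNReal.ofReal a * 1 + ENNReal.ofReal b * mass g))
      (fun g => Φ g + (ENNReal.ofReal a * 1 + ENNReal.ofReal b * mass g)) f =
      U ρ l (lev d t) Φ Φ f + (ENNReal.ofReal a + ENNReal.ofReal b) := by
    rw [U_add hS hΦ (maff _ _) hΦ (maff _ _), aff]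
  have e1 : ENNReal.ofReal (ψ 1 + b) + ENNReal.ofReal a =
      ENNReal.ofReal (ψ 1) + (ENNReal.ofReal a + ENNReal.ofReal b) := by
    rw [ENNReal.ofReal_add hψ1 hb]
    ring
  constructor
  · have key : ∀ g : Prof d, Nice g → ENNReal.ofReal (ψ 1 + b) * 1 + ENNReal.ofReal a * mass g ≤
        Φ g + (ENNReal.ofReal a * 1 + ENNReal.ofReal b * mass g) := by
      intro g hg
      have hg0 := gblin_mr g
      rw [eaff _ _ (by linarith) ha g hg, eaff _ _ ha hb g hg, hψ g hg,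
        ← ENNReal.ofReal_add (hψ0 _ hg0) (by positivity)]
      apply ENNReal.ofReal_le_ofReal
      have := hl _ hg0
      nlinarith
    have h2 := U_mono (ρ := ρ) (l := l) (S := lev d t) hd (fun g hg _ => key g hg)
      (fun g hg _ => key g hg) hf
    rw [aff, eU, e1] at h2
    exact (ENNReal.add_le_add_iff_right hfin).1 h2
  · have key : ∀ g : Prof d, Nice g → Φ g + (ENNReal.ofReal a * 1 + ENNReal.ofReal b * mass g) ≤
        (ENNReal.ofReal (ψ 1 + b) * 1 + ENNReal.ofReal a * mass g) +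
          ENNReal.ofReal ((mr g - mr f) ^ 2) := by
      intro g hg
      have hg0 := gblin_mr g
      rw [eaff _ _ (by linarith) ha g hg, eaff _ _ ha hb g hg, hψ g hg,
        ← ENNReal.ofReal_add (hψ0 _ hg0) (by positivity),
        ← ENNReal.ofReal_add (by positivity) (by positivity), hmr]
      apply ENNReal.ofReal_le_ofReal
      have := hu _ hg0
      nlinarith
    have h2 := U_mono (ρ := ρ) (l := l) (S := lev d t) hd (fun g hg _ => key g hg)
      (fun g hg _ => key g hg) hf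
    have mdev : Measurable fun g : Prof d => ENNReal.ofReal ((mr g - mr f) ^ 2) :=
      ((measurable_mr.sub_const _).pow_const 2).ennreal_ofReal
    rw [eU, U_add hS (maff _ _) mdev (maff _ _) mdev, aff, U_dev hd hm hχ hχt h0 h1 t hf, e1,
      add_right_comm] at h2
    exact (ENNReal.add_le_add_iff_right hfin).1 h2

end aux

/-- comparison of the exit rewards -/
theorem gblin_core (hd : 3 ≤ d) {κ M : ℝ} (hκ : 0 < κ) : ∃ C₁ : ℝ, 1 ≤ C₁ ∧ ∀ η : ℝ, 0 < η →
    ∃ C : ℝ, 1 ≤ C ∧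
      ∀ (ρ : Measure ℝ≥0) [IsProbabilityMeasure ρ] (p l z : ℝ), Ctx d κ M ρ p l → l ≤ C⁻¹ →
        OO d ρ p l ≠ ⊤ → Kr d ρ p l ≤ C⁻¹ → 0 ≤ z → C₁ * (1 + z) * Kr d ρ p l ≤ 1 →
        ∀ (s t : ℝ) (f : Prof d), 0 < s → s ≤ t → Nice f →
          U ρ l (lev d t) (HT ρ p l (Real.exp z * s)) (fun _ => 0) f ≠ ⊤ →
          U ρ l (lev d t) (HH ρ p l) (fun _ => 0) f ≠ ⊤ →
          U ρ l (lev d t) (mq 2) (fun _ => 0) f ≠ ⊤ →
          |(U ρ l (lev d t) (HT ρ p l (Real.exp z * s)) (fun _ => 0) f).toReal -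
            Br d ρ p l z * Kr d ρ p l * (U ρ l (lev d t) (HH ρ p l) (fun _ => 0) f).toReal| ≤
            (η * z + C) * s ^ (p - 2) * (U ρ l (lev d t) (mq 2) (fun _ => 0) f).toReal := by
  obtain ⟨C₁, hC₁, hf1⟩ := fun1 (M := M) hd hκ
  obtain ⟨Cb, hCb, hb⟩ := blip (M := M) hd hκ
  refine ⟨C₁, hC₁, fun η hη => ?_⟩
  obtain ⟨Cf, hCf, hf2⟩ := hf1 η hη
  refine ⟨Cf + 4 * Cb, by linarith, ?_⟩
  intro ρ _ p l z hc hl hO hK hz hz1 s t f hs hst hf n1 n2 n3
  have hd1 : 1 ≤ d := by omega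
  obtain ⟨hp1, hp2⟩ := hc.one_lt hd
  have hp3 := gblin_p hd hc
  have hm := hc.good.1
  have hS := measurableSet_lev (d := d) t
  have hK0 : 0 ≤ Kr d ρ p l := Kr_nonneg
  have hB0 : 0 ≤ Br d ρ p l z := ENNReal.toReal_nonneg
  have hf3 := hf2 ρ p l z hc (gblin_inv hl hCf (by linarith)) hO (gblin_inv hK hCf (by linarith))
    hz hz1
  have hb2 := hb ρ p l hc (gblin_inv hl hCb (by linarith)) hO
  have eK : ENNReal.ofReal (Br d ρ p l z * Kr d ρ p l) =
      ENNReal.ofReal (Br d ρ p l z) * KK d ρ p l := by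
    rw [ENNReal.ofReal_mul hB0, ofReal_Kr hd1 hm hp1.le hc.l0 hc.l1]
  have hsp : 0 ≤ s ^ (p - 2) := by positivity
  have hE : 0 ≤ (η * z + (Cf + 4 * Cb)) * s ^ (p - 2) := by positivity
  have pt : ∀ g : Prof d, Nice g → g ∈ lev d t →
      HT ρ p l (Real.exp z * s) g ≤ ENNReal.ofReal (Br d ρ p l z * Kr d ρ p l) * HH ρ p l g +
        ENNReal.ofReal ((η * z + (Cf + 4 * Cb)) * s ^ (p - 2)) * mq 2 g ∧
      ENNReal.ofReal (Br d ρ p l z * Kr d ρ p l) * HH ρ p l g ≤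
        ENNReal.ofReal 1 * HT ρ p l (Real.exp z * s) g +
        ENNReal.ofReal ((η * z + (Cf + 4 * Cb)) * s ^ (p - 2)) * mq 2 g := by
    intro g hg hgS
    have hx : s ≤ mr g := hst.trans ((gloc1_on hg).1 hgS)
    have hx0 : 0 < mr g := hs.trans_le hx
    have hm0 : mass g ≠ 0 := by
      rw [← hg.ofReal_mr]
      exact (ENNReal.ofReal_pos.2 hx0).ne'
    have e1 := HTn_eq (ρ := ρ) (l := l) hp1 z hg.mass_ne_top hm0
    have hlog : 0 ≤ Real.log (mr g / s) := Real.log_nonneg ((one_le_div hs).2 hx)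
    have b1 := (hb2 g (Real.exp z * s) (Real.log (mr g / s)) hg (by positivity) hlog).1
    have e2 : Real.exp (Real.log (mr g / s)) * (Real.exp z * s) = Real.exp z * mr g := by
      rw [Real.exp_log (by positivity)]
      field_simp
    rw [e2, ← e1] at b1
    have b0 : HT ρ p l (Real.exp z * s) g ≤ HTn ρ p l z g := by
      rw [e1]
      exact HT_mono_lev hp1 hp2.le (by positivity)
        (mul_le_mul_of_nonneg_left hx (Real.exp_pos z).le) g
    obtain ⟨c1, c2⟩ := hf3 g hg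
    have r1 := gblin_pow hs hx hp2.le
    have r2 := gblin_log hs hx hp3
    have hxp : 0 ≤ mr g ^ p := by positivity
    have hx2 : 0 ≤ s ^ (p - 2) * mr g ^ (2 : ℝ) := by positivity
    have hηz : 0 ≤ η * z := by positivity
    have err : ENNReal.ofReal (Cb * (1 + Real.log (mr g / s))) * mq p g +
        ENNReal.ofReal (η * z + Cf) * mq p g ≤
        ENNReal.ofReal ((η * z + (Cf + 4 * Cb)) * s ^ (p - 2)) * mq 2 g := by
      rw [gblin_mq hg (by linarith), gblin_mq hg (by norm_num),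
        ← ENNReal.ofReal_mul (by positivity), ← ENNReal.ofReal_mul (by positivity),
        ← ENNReal.ofReal_mul hE, ← ENNReal.ofReal_add (by positivity) (by positivity)]
      apply ENNReal.ofReal_le_ofReal
      have t1 : (η * z + Cf) * mr g ^ p ≤ (η * z + Cf) * (s ^ (p - 2) * mr g ^ (2 : ℝ)) :=
        mul_le_mul_of_nonneg_left r1 (by linarith)
      have t2 : Cb * (mr g ^ p + Real.log (mr g / s) * mr g ^ p) ≤
          Cb * (4 * (s ^ (p - 2) * mr g ^ (2 : ℝ))) :=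
        mul_le_mul_of_nonneg_left (by linarith) (by linarith)
      nlinarith
    rw [eK, mul_assoc, ENNReal.ofReal_one, one_mul]
    constructor
    · exact (b0.trans c1).trans (add_le_add le_rfl (le_add_self.trans err))
    · refine c2.trans ?_
      calc HTn ρ p l z g + ENNReal.ofReal (η * z + Cf) * mq p g
          ≤ HT ρ p l (Real.exp z * s) g + ENNReal.ofReal (Cb * (1 + Real.log (mr g / s))) * mq p g +
            ENNReal.ofReal (η * z + Cf) * mq p g := by gcongr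
        _ ≤ _ := by
            rw [add_assoc]
            gcongr
  have u1 := gblin_real (mul_nonneg hB0 hK0) hE n2 n3
    (gblin_U2 (ρ := ρ) (l := l) hd1 hS measurable_HH measurable_const (measurable_mq 2)
      measurable_const _ _ (fun g hg hgS => (pt g hg hgS).1) (fun _ _ _ => zero_le) hf)
  have u2 := gblin_real zero_le_one hE n1 n3
    (gblin_U2 (ρ := ρ) (l := l) hd1 hS (gblin_mHT _) measurable_const (measurable_mq 2)
      measurable_const _ _ (fun g hg hgS => (pt g hg hgS).2) (fun _ _ _ => zero_le) hf)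
  rw [← gblin_Uc hS measurable_HH, ENNReal.toReal_mul,
    ENNReal.toReal_ofReal (mul_nonneg hB0 hK0)] at u2
  rw [abs_le]
  constructor <;> linarith

/-- Approximate additivity of the truncated moment. -/
theorem b_add (hd : 3 ≤ d) {κ M : ℝ} (hκ : 0 < κ) : ∃ C₁ : ℝ, 1 ≤ C₁ ∧ ∀ η : ℝ, 0 < η →
    ∃ C : ℝ, 1 ≤ C ∧
      ∀ (ρ : Measure ℝ≥0) [IsProbabilityMeasure ρ] (p l y z : ℝ), Ctx d κ M ρ p l → l ≤ C⁻¹ →
        OO d ρ p l ≠ ⊤ → Kr d ρ p l ≤ C⁻¹ → 0 ≤ y → 0 ≤ z → C₁ * (1 + z) * Kr d ρ p l ≤ 1 →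
        |Br d ρ p l (y + z) - Br d ρ p l y - Br d ρ p l z| ≤
          η * z + C + C₁ * Kr d ρ p l * (1 + y) * (1 + z) := by
  obtain ⟨Cc, hCc, hc1⟩ := gblin_core (M := M) hd hκ
  obtain ⟨Cr, hCr, hr⟩ := br_lin (M := M) hd hκ
  obtain ⟨Cd, hCd, hdy⟩ := dy_up (M := M) hd hκ
  obtain ⟨C0, hC0, ht0⟩ := t0 (M := M) hd hκ
  have hrd : 1 ≤ Cr * Cd := one_le_mul_of_one_le_of_one_le hCr hCd
  refine ⟨Cc + Cr * Cd, by linarith, fun η hη => ?_⟩
  obtain ⟨C2, hC2, hc2⟩ := hc1 (η / C0) (by positivity)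
  have h20 : 1 ≤ C2 * C0 := one_le_mul_of_one_le_of_one_le hC2 hC0
  have h21 : C2 ≤ C2 * C0 := le_mul_of_one_le_right (by linarith) hC0
  refine ⟨C2 * C0 + 2 * Cr + Cd + 4 * C0, by linarith, ?_⟩
  intro ρ _ p l y z hc hl hO hK hy hz hz1
  have hd1 : 1 ≤ d := by omega
  obtain ⟨hp1, hp2⟩ := hc.one_lt hd
  have hm := hc.good.1
  have hK0 : 0 ≤ Kr d ρ p l := Kr_nonneg
  have hr2 := hr ρ p l hc (gblin_inv hl hCr (by linarith)) hO
  obtain ⟨-, y0, y1, -, -⟩ := hr2 y hy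
  obtain ⟨-, z0, z1, z2, -⟩ := hr2 z hz
  have hηz : 0 ≤ η * z := by positivity
  have hlast : 0 ≤ (Cc + Cr * Cd) * Kr d ρ p l * (1 + y) * (1 + z) := by positivity
  rcases lt_or_ge y 1 with hy1 | hy1
  · obtain ⟨z3, z4⟩ := z2 (y + z) (by linarith)
    have h2 : Cr * (1 + y) ≤ Cr * 2 := mul_le_mul_of_nonneg_left (by linarith) (by linarith)
    rw [show 1 + (y + z) - z = 1 + y by ring] at z4
    rw [abs_le]
    constructor <;> linarith
  set t := Real.exp y with ht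
  have ht2 : 2 ≤ t := by
    have := Real.add_one_le_exp y
    linarith
  have ht0' : 0 < t := by linarith
  have hS := measurableSet_lev (d := d) t
  have hδ : Nice (dlt (0 : Site d)) := nice_dlt 0
  have hmr : mr (dlt (0 : Site d)) = 1 := by rw [mr, mass_dlt, ENNReal.toReal_one]
  have hmq : mq p (dlt (0 : Site d)) = 1 := by rw [mq, mass_dlt, ENNReal.one_rpow]
  obtain ⟨-, a1, a2⟩ := ht0 ρ p l hc (gblin_inv hl hC0 (by linarith)) hO _ t hδ ht0'
    (by rw [hmr]; linarith)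
  have a3 := hdy ρ p l hc (gblin_inv hl hCd (by linarith)) hO _ y hδ hy
  rw [hmr, Real.one_rpow, mul_one, U_split hS (measurable_mq 2) (measurable_mq 2)] at a2
  rw [hmq, mul_one] at a1
  rw [hmr, hmq, mul_one, mul_one, U_split hS (measurable_mq p) (measurable_mq p)] at a3
  have hC0t : 0 ≤ C0 * t ^ (2 - p) := by positivity
  have n2e := ne_top_of_le_ne_top ENNReal.ofReal_ne_top (le_self_add.trans a2)
  have n2k := ne_top_of_le_ne_top ENNReal.ofReal_ne_top (le_add_self.trans a2)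
  have npe := ne_top_of_le_ne_top ENNReal.ofReal_ne_top a1
  have r2e := ENNReal.toReal_le_of_le_ofReal hC0t (le_self_add.trans a2)
  have r2k := ENNReal.toReal_le_of_le_ofReal hC0t (le_add_self.trans a2)
  have rpe := ENNReal.toReal_le_of_le_ofReal (by linarith) a1
  have rpk := ENNReal.toReal_le_of_le_ofReal (by positivity) (le_add_self.trans a3)
  have hHT : ∀ L : ℝ, 0 ≤ L → HT ρ p l L (dlt (0 : Site d)) ≠ ⊤ := fun L hL =>
    ne_top_of_le_ne_top hO (HT_le_HH hp1 hL _)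
  obtain ⟨nH, npk, sH⟩ := gblin_split (ρ := ρ) hS hc.l0 hc.l1 (measurable_mq p) hO
  obtain ⟨nT, nt, sT⟩ := gblin_split (ρ := ρ) hS hc.l0 hc.l1 (gblin_mth p t) (hHT t ht0'.le)
  have hM0 : 0 < Real.exp z * t := by positivity
  have hMt : t ≤ Real.exp z * t := le_mul_of_one_le_left ht0'.le (Real.one_le_exp hz)
  obtain ⟨nT', nt', sT'⟩ := gblin_split (ρ := ρ) hS hc.l0 hc.l1 (gblin_mth p (Real.exp z * t))
    (hHT _ hM0.le)
  have core := hc2 ρ p l z hc (gblin_inv hl hC2 (by linarith)) hO (gblin_inv hK hC2 (by linarith))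
    hz (le_trans (by gcongr; linarith) hz1) t t _ ht0' le_rfl hδ nT' nH n2e
  have htp : 0 ≤ t ^ (p - 2) := by positivity
  have hone : t ^ (p - 2) * t ^ (2 - p) = 1 := by
    rw [← Real.rpow_add ht0']
    simp
  have hone' : t ^ (p - 2) * (C0 * t ^ (2 - p)) = C0 := by
    rw [mul_left_comm, hone, mul_one]
  -- killed parts
  have kill : ∀ L : ℝ, t ≤ L →
      U ρ l (lev d t) (fun _ => 0) (fun g => lift (th p L) (mass g)) (dlt (0 : Site d)) ≠ ⊤ →
      (U ρ l (lev d t) (fun _ => 0) (fun g => lift (th p L) (mass g)) (dlt (0 : Site d))).toReal ≤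
        (U ρ l (lev d t) (fun _ => 0) (mq p) (dlt (0 : Site d))).toReal ∧
      (U ρ l (lev d t) (fun _ => 0) (mq p) (dlt (0 : Site d))).toReal ≤
        (U ρ l (lev d t) (fun _ => 0) (fun g => lift (th p L) (mass g)) (dlt (0 : Site d))).toReal +
          C0 := by
    intro L hL nL
    have hL0 : 0 < L := ht0'.trans_le hL
    constructor
    · refine ENNReal.toReal_mono npk (U_mono hd1 (fun _ _ _ => le_rfl) (fun g hg _ => ?_) hδ)
      rw [gblin_th hg, gblin_mq hg (by linarith)]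
      exact ENNReal.ofReal_le_ofReal (th_le_pow hp1 hL0.le (gblin_mr g))
    · have := gblin_real zero_le_one htp nL n2k
        (gblin_U2 (ρ := ρ) (l := l) (F := fun _ => 0) (R := mq p) hd1 hS measurable_const
          (gblin_mth p L) measurable_const (measurable_mq 2) _ _ (fun _ _ _ => zero_le)
          (fun g hg _ => ?_) hδ)
      · have h3 := mul_le_mul_of_nonneg_left r2k htp
        rw [hone'] at h3
        linarith
      · have hg0 := gblin_mr g
        rw [gblin_th hg, gblin_mq hg (by linarith), gblin_mq hg (by norm_num), ENNReal.ofReal_one,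
          one_mul, ← ENNReal.ofReal_mul htp,
          ← ENNReal.ofReal_add (th_nonneg hp1 hp2.le hL0.le hg0) (by positivity)]
        apply ENNReal.ofReal_le_ofReal
        have h3 := pow_le_th hp1 hp2.le hL0 hg0
        have h4 : L ^ (p - 2) ≤ t ^ (p - 2) := Real.rpow_le_rpow_of_nonpos ht0' hL (by linarith)
        have h5 := mul_le_mul_of_nonneg_left h4 (sq_nonneg (mr g))
        rw [Real.rpow_two]
        linarith
  obtain ⟨k1, k2⟩ := kill t le_rfl nt
  obtain ⟨k3, k4⟩ := kill _ hMt nt'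
  -- exit part at the level itself
  have ex : (U ρ l (lev d t) (HT ρ p l t) (fun _ => 0) (dlt (0 : Site d))).toReal ≤ 2 * C0 := by
    have := gblin_real1 zero_le_two npe
      (gblin_U1 (ρ := ρ) (l := l) (F := HT ρ p l t) (R := fun _ => 0) hd1 hS (measurable_mq p)
        measurable_const _ (fun g hg hgS => ?_) (fun _ _ _ => zero_le) hδ)
    · linarith
    · have hx : t ≤ mr g := (gloc1_on hg).1 hgS
      have hx0 : 0 < mr g := ht0'.trans_le hx
      refine (HT_le_lin hd1 hm hp1 hp2.le hc.l0 hc.l1 ht0' g).trans ?_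
      rw [gblin_mq hg (by linarith), ← hg.ofReal_mr, ← ENNReal.ofReal_mul (by positivity),
        ← ENNReal.ofReal_mul zero_le_two]
      apply ENNReal.ofReal_le_ofReal
      have h3 : t ^ (p - 1) ≤ mr g ^ (p - 1) := Real.rpow_le_rpow ht0'.le hx (by linarith)
      have h4 : mr g ^ p = mr g ^ (p - 1) * mr g := by
        rw [← Real.rpow_add_one hx0.ne']
        congr 1
        ring
      have h5 : 0 ≤ t ^ (p - 1) := by positivity
      rw [h4, ← mul_assoc]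
      exact mul_le_mul_of_nonneg_right (mul_le_mul hp2.le h3 h5 zero_le_two) hx0.le
  have eyz : Br d ρ p l (y + z) = (HT ρ p l (Real.exp z * t) (dlt (0 : Site d))).toReal := by
    rw [Br, ht, ← Real.exp_add, add_comm]
  have hKO := gblin_KO hd1 hm hp1.le hc.l0 hc.l1 hO
  change (OO d ρ p l).toReal = (U ρ l (lev d t) (HH ρ p l) (fun _ => 0) _).toReal + _ at sH
  change Br d ρ p l y = (U ρ l (lev d t) (HT ρ p l t) (fun _ => 0) _).toReal + _ at sT
  change (HT ρ p l (Real.exp z * t) _).toReal =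
    (U ρ l (lev d t) (HT ρ p l (Real.exp z * t)) (fun _ => 0) _).toReal + _ at sT'
  rw [← eyz] at sT'
  have e0 : 0 ≤ (U ρ l (lev d t) (HT ρ p l t) (fun _ => 0) (dlt (0 : Site d))).toReal :=
    ENNReal.toReal_nonneg
  have u0 : 0 ≤ (U ρ l (lev d t) (fun _ => 0) (mq p) (dlt (0 : Site d))).toReal :=
    ENNReal.toReal_nonneg
  generalize (U ρ l (lev d t) (HH ρ p l) (fun _ => 0) (dlt (0 : Site d))).toReal = EH at *
  generalize (U ρ l (lev d t) (HT ρ p l t) (fun _ => 0) (dlt (0 : Site d))).toReal = ET at *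
  generalize (U ρ l (lev d t) (HT ρ p l (Real.exp z * t)) (fun _ => 0)
    (dlt (0 : Site d))).toReal = EM at *
  generalize (U ρ l (lev d t) (fun _ => 0) (mq p) (dlt (0 : Site d))).toReal = u at *
  generalize (U ρ l (lev d t) (mq 2) (fun _ => 0) (dlt (0 : Site d))).toReal = E2 at *
  have c1 : (η / C0 * z + C2) * t ^ (p - 2) * E2 ≤ η * z + C2 * C0 := by
    have h3 : t ^ (p - 2) * E2 ≤ C0 := by
      have := mul_le_mul_of_nonneg_left r2e htp
      rwa [hone'] at this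
    have h4 : 0 ≤ η / C0 * z + C2 := by positivity
    calc (η / C0 * z + C2) * t ^ (p - 2) * E2 = (η / C0 * z + C2) * (t ^ (p - 2) * E2) := by ring
      _ ≤ (η / C0 * z + C2) * C0 := mul_le_mul_of_nonneg_left h3 h4
      _ = η * z + C2 * C0 := by field_simp
  have c2 : Br d ρ p l z * Kr d ρ p l * EH = Br d ρ p l z - Br d ρ p l z * Kr d ρ p l * u := by
    rw [sH] at hKO
    linear_combination Br d ρ p l z * hKO
  have c3 : 0 ≤ Br d ρ p l z * Kr d ρ p l * u := by positivity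
  have c4 : Br d ρ p l z * Kr d ρ p l * u ≤ (Cc + Cr * Cd) * Kr d ρ p l * (1 + y) * (1 + z) := by
    calc Br d ρ p l z * Kr d ρ p l * u ≤ (Cr * (1 + z)) * Kr d ρ p l * (Cd * (1 + y)) := by gcongr
      _ = (Cr * Cd) * Kr d ρ p l * (1 + y) * (1 + z) := by ring
      _ ≤ _ := by gcongr; linarith
  have c5 := abs_le.1 (core.trans c1)
  rw [abs_le]
  constructor <;> linarith [c5.1, c5.2]

/-- Approximate linearity of the truncated moment. -/
theorem b_lin (hd : 3 ≤ d) {κ M : ℝ} (hκ : 0 < κ) : ∃ C₁ : ℝ, 1 ≤ C₁ ∧ ∀ η : ℝ, 0 < η →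
    ∃ y₀ : ℝ, 1 ≤ y₀ ∧ ∀ y₁, y₀ ≤ y₁ → ∃ C : ℝ, 1 ≤ C ∧
      ∀ (ρ : Measure ℝ≥0) [IsProbabilityMeasure ρ] (p l : ℝ), Ctx d κ M ρ p l → l ≤ C⁻¹ →
        OO d ρ p l ≠ ⊤ → Kr d ρ p l ≤ C⁻¹ →
        C₁⁻¹ ≤ Br d ρ p l y₁ / y₁ ∧ Br d ρ p l y₁ / y₁ ≤ C₁ ∧ ∀ y, 0 ≤ y →
          |Br d ρ p l y - Br d ρ p l y₁ / y₁ * y| ≤ η * y + C + C₁ * Kr d ρ p l * y ^ 2 := by
  obtain ⟨Ca, hCa, ha⟩ := b_add (M := M) hd hκ
  obtain ⟨Cr, hCr, hr⟩ := br_lin (M := M) hd hκ
  refine ⟨2 * Cr + 4 * Ca, by linarith, fun η hη => ?_⟩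
  obtain ⟨C2, hC2, ha2⟩ := ha (η / 2) (by positivity)
  have hq : 0 < 2 * C2 / η := by positivity
  have hr2 : 1 ≤ 2 * Cr ^ 2 := by nlinarith
  refine ⟨2 * Cr ^ 2 + 2 * C2 / η, by linarith, fun y₁ hy₁ => ?_⟩
  have hy1 : 1 ≤ y₁ := by linarith
  have hy0 : 0 < y₁ := by linarith
  have p1 : Cr ≤ Cr * (1 + y₁) := by nlinarith
  have p2 : Ca ≤ Ca * (1 + y₁) := by nlinarith
  refine ⟨C2 + Cr * (1 + y₁) + Ca * (1 + y₁), by linarith, ?_⟩
  intro ρ _ p l hc hl hO hK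
  have hK0 : 0 ≤ Kr d ρ p l := Kr_nonneg
  have small : ∀ A : ℝ, 1 ≤ A → A ≤ C2 + Cr * (1 + y₁) + Ca * (1 + y₁) → A * Kr d ρ p l ≤ 1 := by
    intro A hA hA'
    have := gblin_inv hK hA hA'
    calc A * Kr d ρ p l ≤ A * A⁻¹ := by gcongr
      _ = 1 := mul_inv_cancel₀ (by linarith)
  have hr3 := hr ρ p l hc (gblin_inv hl hCr (by linarith)) hO
  obtain ⟨-, b0, b1, -, b3⟩ := hr3 y₁ hy0.le
  have b4 := b3 (small _ (by linarith) (by linarith))
  have hadd := fun y hy => ha2 ρ p l y y₁ hc (gblin_inv hl hC2 (by linarith)) hO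
    (gblin_inv hK hC2 (by linarith)) hy hy0.le (small _ (by linarith) (by linarith))
  refine ⟨?_, ?_, fun y hy => ?_⟩
  · rw [le_div_iff₀ hy0]
    have hCr0 : 0 < Cr := by linarith
    have h1 : (2 * Cr + 4 * Ca)⁻¹ ≤ (2 * Cr)⁻¹ := inv_anti₀ (by linarith) (by linarith)
    have h2 : Cr ≤ (2 * Cr)⁻¹ * y₁ := by
      rw [inv_mul_eq_div, le_div_iff₀ (by linarith)]
      nlinarith
    have h3 : Cr⁻¹ * y₁ = 2 * ((2 * Cr)⁻¹ * y₁) := by field_simp
    have h4 := mul_le_mul_of_nonneg_right h1 hy0.le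
    linarith
  · rw [div_le_iff₀ hy0]
    nlinarith
  · set n := ⌊y / y₁⌋₊ with hn
    have hn1 : (n : ℝ) * y₁ ≤ y := by
      rw [← le_div_iff₀ hy0]
      exact Nat.floor_le (by positivity)
    have hn2 : y < (n + 1) * y₁ := by
      rw [← div_lt_iff₀ hy0]
      exact Nat.lt_floor_add_one _
    set r := y - n * y₁ with hrdef
    have hr0 : 0 ≤ r := by linarith
    have hr1 : r ≤ y₁ := by linarith
    set E := η / 2 * y₁ + C2 + Ca * Kr d ρ p l * (1 + y) * (1 + y₁) with hE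
    have ind : ∀ k : ℕ, k ≤ n →
        |Br d ρ p l (r + k * y₁) - Br d ρ p l r - k * Br d ρ p l y₁| ≤ k * E := by
      intro k
      induction k with
      | zero => simp
      | succ k ih =>
        intro hk
        have h1 := abs_le.1 (ih (by omega))
        have hk' : (k : ℝ) ≤ n := by exact_mod_cast (by omega : k ≤ n)
        have hky : r + k * y₁ ≤ y := by nlinarith
        have h2 := hadd (r + k * y₁) (by positivity)
        have h3 : Ca * Kr d ρ p l * (1 + (r + k * y₁)) * (1 + y₁) ≤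
            Ca * Kr d ρ p l * (1 + y) * (1 + y₁) := by gcongr
        have h4 := abs_le.1 h2
        have e : r + ((k + 1 : ℕ) : ℝ) * y₁ = r + k * y₁ + y₁ := by
          push_cast
          ring
        rw [e, abs_le]
        push_cast
        constructor <;> linarith [h1.1, h1.2, h4.1, h4.2]
    have h1 := abs_le.1 (ind n le_rfl)
    have e : r + n * y₁ = y := by rw [hrdef]; ring
    rw [e] at h1
    obtain ⟨-, r0, -, r2, -⟩ := hr3 r hr0
    have r3 := (r2 y₁ hr1).1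
    have e2 : Br d ρ p l y₁ / y₁ * y = n * Br d ρ p l y₁ + Br d ρ p l y₁ * (r / y₁) := by
      rw [← e]
      field_simp
      ring
    have q0 : 0 ≤ Br d ρ p l y₁ * (r / y₁) := by positivity
    have q1 : Br d ρ p l y₁ * (r / y₁) ≤ Br d ρ p l y₁ :=
      mul_le_of_le_one_right b0 ((div_le_one hy0).2 hr1)
    have hn0 : (0 : ℝ) ≤ n := Nat.cast_nonneg n
    have w1 : (n : ℝ) * C2 ≤ η / 2 * y := by
      have h2 : 2 * C2 / η ≤ y₁ := by nlinarith
      rw [div_le_iff₀ hη] at h2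
      have h3 := mul_le_mul_of_nonneg_left h2 hn0
      have h4 := mul_le_mul_of_nonneg_left hn1 hη.le
      nlinarith
    have w2 : (n : ℝ) * (η / 2 * y₁) ≤ η / 2 * y := by
      have h4 := mul_le_mul_of_nonneg_left hn1 hη.le
      nlinarith
    have w3 : (n : ℝ) * ((1 + y) * (1 + y₁)) ≤ 4 * y ^ 2 := by
      rcases Nat.eq_zero_or_pos n with h0 | h0
      · rw [h0]
        simp
        positivity
      · have h2 : (1 : ℝ) ≤ n := by exact_mod_cast h0
        have h3 : 1 ≤ y := by nlinarith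
        have h4 : (n : ℝ) * (1 + y₁) ≤ 2 * y := by nlinarith
        calc (n : ℝ) * ((1 + y) * (1 + y₁)) = (n * (1 + y₁)) * (1 + y) := by ring
          _ ≤ (2 * y) * (2 * y) := by gcongr; linarith
          _ = 4 * y ^ 2 := by ring
    have w4 : (n : ℝ) * (Ca * Kr d ρ p l * (1 + y) * (1 + y₁)) ≤
        (2 * Cr + 4 * Ca) * Kr d ρ p l * y ^ 2 := by
      calc (n : ℝ) * (Ca * Kr d ρ p l * (1 + y) * (1 + y₁))
          = Ca * Kr d ρ p l * (n * ((1 + y) * (1 + y₁))) := by ring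
        _ ≤ Ca * Kr d ρ p l * (4 * y ^ 2) := by gcongr
        _ = (4 * Ca) * Kr d ρ p l * y ^ 2 := by ring
        _ ≤ _ := by gcongr; linarith
    have w5 : (n : ℝ) * E ≤ η * y + (2 * Cr + 4 * Ca) * Kr d ρ p l * y ^ 2 := by
      rw [hE]
      linarith
    rw [e2, abs_le]
    constructor <;> linarith [h1.1, h1.2]

/-- Effect of a background on the gain. -/
theorem b1a (hd : 3 ≤ d) {κ M : ℝ} (hκ : 0 < κ) : ∃ C₁ : ℝ, 1 ≤ C₁ ∧ ∀ η : ℝ, 0 < η →
    ∃ C : ℝ, 1 ≤ C ∧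
      ∀ (ρ : Measure ℝ≥0) [IsProbabilityMeasure ρ] (p l y : ℝ) (m : ℕ), Ctx d κ M ρ p l →
        l ≤ C⁻¹ → OO d ρ p l ≠ ⊤ → Kr d ρ p l ≤ C⁻¹ → 0 ≤ y → C₁ * (1 + y) * Kr d ρ p l ≤ 1 →
        |(KK d ρ p l * XX ρ p l (ENNReal.ofReal (Real.exp y)) (phi d m)).toReal -
            (1 - Kr d ρ p l * Br d ρ p l y) * Ar d ρ p l m| ≤
          η * (Ar d ρ p l m + l ^ (1 / 4 : ℝ)) := by
  obtain ⟨Cc, hCc, hc1⟩ := gblin_core (M := M) hd hκ
  obtain ⟨Cr, hCr, hr⟩ := br_lin (M := M) hd hκ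
  obtain ⟨Ct, hCt, ht1⟩ := t1 (M := M) hd hκ
  refine ⟨Cc + Cr, by linarith, fun η hη => ?_⟩
  set W := 16 * max M 1 * Ct with hW
  have hM1 : 1 ≤ max M 1 := le_max_right _ _
  have hW0 : 0 < W := by positivity
  obtain ⟨C2, hC2, hc2⟩ := hc1 (η / (2 * W)) (by positivity)
  have hq : 0 < 2 * W * (C2 + 2) / η := by positivity
  refine ⟨C2 + Cr + Ct + 2 * W * (C2 + 2) / η, by linarith, ?_⟩
  intro ρ _ p l y m hc hl hO hK hy hy1
  have hd1 : 1 ≤ d := by omega
  obtain ⟨hp1, hp2⟩ := hc.one_lt hd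
  have hm := hc.good.1
  have hK0 : 0 ≤ Kr d ρ p l := Kr_nonneg
  obtain ⟨χ, hχ, -⟩ := hc.good.2.2.2
  have hχM : χ ≤ ENNReal.ofReal (2 * max M 1) := by
    have h1 := (hc.good.basic hd hκ).2.1 2 (by norm_num) (by norm_num)
    rw [hχ] at h1
    exact (le_add_self.trans h1).trans
      (ENNReal.ofReal_le_ofReal (by linarith [le_max_left M 1]))
  have hχt : χ ≠ ⊤ := ne_top_of_le_ne_top ENNReal.ofReal_ne_top hχM
  have hS := measurableSet_lev (d := d) 2
  have hf : Nice (phi d m) := nice_phi hd1 m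
  have hf1 : mass (phi d m) = 1 := mass_phi hd1 m
  have hmr : mr (phi d m) = 1 := by rw [mr, hf1, ENNReal.toReal_one]
  have hmq : mq p (phi d m) = 1 := by rw [mq, hf1, ENNReal.one_rpow]
  have hKO := gblin_KO hd1 hm hp1.le hc.l0 hc.l1 hO
  have hc0 : 0 < Real.exp y := Real.exp_pos y
  have nH0 := gblin_HH_ne hp1.le hO hf
  have nT0 : HT ρ p l (Real.exp y) (phi d m) ≠ ⊤ := ne_top_of_le_ne_top nH0 (HT_le_HH hp1 hc0.le _)
  have eX := XX_zero_add (ρ := ρ) hd1 hm hp1.le hc.l0 hc.l1 (phi d m)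
  have nX : XX ρ p l 0 (phi d m) ≠ ⊤ := ne_top_of_le_ne_top nH0 (le_self_add.trans_eq eX)
  have eT := XX_th (ρ := ρ) hd1 hm hp1 hp2.le hc.l0 hc.l1 hc0 hf
  have nXc : XX ρ p l (ENNReal.ofReal (Real.exp y)) (phi d m) ≠ ⊤ :=
    ne_top_of_le_ne_top (ENNReal.add_ne_top.2 ⟨nX, ENNReal.ofReal_ne_top⟩)
      (le_self_add.trans_eq eT.symm)
  have hth1 : 0 ≤ th p (Real.exp y) 1 := th_nonneg hp1 hp2.le hc0.le zero_le_one
  have rX := congrArg ENNReal.toReal eX
  rw [hmq, ENNReal.toReal_add nX ENNReal.one_ne_top, ENNReal.toReal_one] at rX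
  have rT := congrArg ENNReal.toReal eT
  rw [hmr, ENNReal.toReal_add nX ENNReal.ofReal_ne_top, ENNReal.toReal_add nXc nT0,
    ENNReal.toReal_ofReal hth1] at rT
  have nI : II ρ l 2 (phi d m) ≠ ⊤ :=
    ne_top_of_le_ne_top ENNReal.ofReal_ne_top (II_le hd1 hc.l0 hc.l1 2 hf)
  have nχI : χ * II ρ l 2 (phi d m) ≠ ⊤ := ENNReal.mul_ne_top hχt nI
  -- the occupation integral
  have hA0 : 0 ≤ Ar d ρ p l m := ENNReal.toReal_nonneg
  have hl4 : 0 ≤ l ^ (1 / 4 : ℝ) := Real.rpow_nonneg hc.l0.le _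
  have rI : (χ * II ρ l 2 (phi d m)).toReal ≤ W / 4 * (Ar d ρ p l m + l ^ (1 / 4 : ℝ)) := by
    have hO1 : ENNReal.ofReal Ct ≤ OO d ρ p l := by
      apply ENNReal.ofReal_le_of_le_toReal
      have h1 := gblin_inv hK hCt (by linarith)
      have h2 : (0 : ℝ) ≤ (OO d ρ p l).toReal := ENNReal.toReal_nonneg
      have h3 := mul_le_mul_of_nonneg_right h1 h2
      rw [hKO, inv_mul_eq_div, one_le_div (by linarith)] at h3
      exact h3
    have h1 := ht1 ρ p l hc (gblin_inv hl hCt (by linarith)) hO hO1 _ 2 hf two_pos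
      (by rw [hmr]; norm_num)
    rw [(Kr_add_Ar hd1 hm hp1.le hc.l0 hc.l1 hO m).2.2, hmr, one_pow, mul_one,
      ← ENNReal.ofReal_mul (by positivity),
      ← ENNReal.ofReal_add (by positivity) (by positivity)] at h1
    have h2 := ENNReal.toReal_le_of_le_ofReal (by positivity) h1
    have h3 : (2 : ℝ) ^ (2 - p) ≤ 2 := by
      calc (2 : ℝ) ^ (2 - p) ≤ 2 ^ (1 : ℝ) :=
            Real.rpow_le_rpow_of_exponent_le one_le_two (by linarith)
        _ = 2 := Real.rpow_one 2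
    have h4 : (II ρ l 2 (phi d m)).toReal ≤ 2 * Ct * (Ar d ρ p l m + l ^ (1 / 4 : ℝ)) := by
      have h5 : Ct * 2 ^ (2 - p) * Ar d ρ p l m ≤ Ct * 2 * Ar d ρ p l m := by gcongr
      have h6 : 0 ≤ Ct * l ^ (1 / 4 : ℝ) := by positivity
      nlinarith
    have h5 := ENNReal.toReal_le_of_le_ofReal (by positivity) hχM
    rw [ENNReal.toReal_mul]
    calc χ.toReal * (II ρ l 2 (phi d m)).toReal
        ≤ (2 * max M 1) * (2 * Ct * (Ar d ρ p l m + l ^ (1 / 4 : ℝ))) := by gcongr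
      _ = _ := by rw [hW]; ring
  have a2 := U_sq_exit hd1 hm hχ hχt hc.l0 hc.l1 (t := 2) hf (by rw [hmr]; norm_num)
  rw [mul_assoc] at a2
  have n4 : 4 * (χ * II ρ l 2 (phi d m)) ≠ ⊤ := ENNReal.mul_ne_top (by norm_num) nχI
  have n2e := ne_top_of_le_ne_top n4 a2
  have r2e := ENNReal.toReal_mono n4 a2
  rw [ENNReal.toReal_mul, ENNReal.toReal_ofNat] at r2e
  -- the killed parts
  have kill : ∀ (Φ : Prof d → ℝ≥0∞) (ψ : ℝ → ℝ) (σ : ℝ), Measurable Φ →
      (∀ g, Nice g → Φ g = ENNReal.ofReal (ψ (mr g))) → (∀ x, 0 ≤ x → 0 ≤ ψ x) →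
      (∀ x, 0 ≤ x → ψ x ≤ x ^ p) → (∀ x, 0 ≤ x → ψ 1 + σ * (x - 1) ≤ ψ x) →
      (∀ x, 0 ≤ x → ψ x ≤ ψ 1 + σ * (x - 1) + (x - 1) ^ 2) →
      |(U ρ l (lev d 2) (fun _ => 0) Φ (phi d m)).toReal - ψ 1| ≤
        4 * (χ * II ρ l 2 (phi d m)).toReal := by
    intro Φ ψ σ hΦ hψ hψ0 hψp h1 h2
    obtain ⟨k1, k2⟩ := gblin_exp hd1 hm hχ hχt hc.l0 hc.l1 2 hf hf1 hΦ hψ hψ0 h1 h2
    rw [U_split hS hΦ hΦ] at k1 k2
    have nn := ENNReal.add_ne_top.2 ⟨ENNReal.ofReal_ne_top (r := ψ 1), nχI⟩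
    obtain ⟨n1, n2⟩ := ENNReal.add_ne_top.1 (ne_top_of_le_ne_top nn k2)
    have k3 := ENNReal.toReal_mono (ENNReal.add_ne_top.2 ⟨n1, n2⟩) k1
    have k4 := ENNReal.toReal_mono nn k2
    have hψ1 := hψ0 1 zero_le_one
    rw [ENNReal.toReal_add n1 n2, ENNReal.toReal_ofReal hψ1] at k3
    rw [ENNReal.toReal_add n1 n2, ENNReal.toReal_add ENNReal.ofReal_ne_top nχI,
      ENNReal.toReal_ofReal hψ1] at k4
    have k5 : (U ρ l (lev d 2) Φ (fun _ => 0) (phi d m)).toReal ≤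
        (U ρ l (lev d 2) (mq 2) (fun _ => 0) (phi d m)).toReal := by
      refine ENNReal.toReal_mono n2e (U_mono hd1 (fun g hg hgS => ?_) (fun _ _ _ => le_rfl) hf)
      have hx : 2 ≤ mr g := (gloc1_on hg).1 hgS
      rw [hψ g hg, gblin_mq hg (by norm_num)]
      exact ENNReal.ofReal_le_ofReal ((hψp _ (gblin_mr g)).trans
        (Real.rpow_le_rpow_of_exponent_le (by linarith) hp2.le))
    have k6 : 0 ≤ (U ρ l (lev d 2) Φ (fun _ => 0) (phi d m)).toReal := ENNReal.toReal_nonneg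
    have k7 : 0 ≤ (χ * II ρ l 2 (phi d m)).toReal := ENNReal.toReal_nonneg
    rw [abs_le]
    constructor <;> linarith
  have hbr : ∀ x : ℝ, 0 ≤ x → 0 ≤ br p 1 x ∧ br p 1 x ≤ (x - 1) ^ 2 := fun x hx =>
    ⟨br_nonneg hp1.le zero_le_one hx, by simpa using br_le_sq hp1.le hp2.le one_pos hx⟩
  have ebr : ∀ x : ℝ, br p 1 x = x ^ p - 1 - p * (x - 1) := fun x => by simp [br]
  have kp := kill (mq p) (fun x => x ^ p) p (measurable_mq p)
    (fun g hg => gblin_mq hg (by linarith)) (fun x hx => by positivity) (fun _ _ => le_rfl)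
    (fun x hx => by
      have := (hbr x hx).1
      rw [ebr] at this
      rw [Real.one_rpow]
      linarith)
    (fun x hx => by
      have := (hbr x hx).2
      rw [ebr] at this
      rw [Real.one_rpow]
      linarith)
  rw [Real.one_rpow] at kp
  have eth : ∀ x : ℝ, th p (Real.exp y) x = th p (Real.exp y) 1 +
      (p - p * (1 + Real.exp y) ^ (p - 1) + p * Real.exp y ^ (p - 1)) * (x - 1) +
      (br p 1 x - br p (1 + Real.exp y) (x + Real.exp y)) := by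
    intro x
    simp only [th, br, Real.one_rpow, add_comm (Real.exp y)]
    ring
  have kt := kill (fun g => lift (th p (Real.exp y)) (mass g)) (th p (Real.exp y))
    (p - p * (1 + Real.exp y) ^ (p - 1) + p * Real.exp y ^ (p - 1)) (gblin_mth p _)
    (fun g hg => gblin_th hg _) (fun x hx => th_nonneg hp1 hp2.le hc0.le hx)
    (fun x hx => th_le_pow hp1 hc0.le hx)
    (fun x hx => by
      have := br_shift_anti hp1 hp2.le zero_le_one hx hc0.le
      rw [eth x]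
      linarith)
    (fun x hx => by
      have h1 := (hbr x hx).2
      have h2 : 0 ≤ br p (1 + Real.exp y) (x + Real.exp y) :=
        br_nonneg hp1.le (by positivity) (by positivity)
      rw [eth x]
      linarith)
  obtain ⟨nH, -, sH⟩ := gblin_split (ρ := ρ) hS hc.l0 hc.l1 (measurable_mq p) nH0
  obtain ⟨nT, -, sT⟩ := gblin_split (ρ := ρ) hS hc.l0 hc.l1 (gblin_mth p (Real.exp y)) nT0
  change (HH ρ p l _).toReal = (U ρ l (lev d 2) (HH ρ p l) (fun _ => 0) _).toReal + _ at sH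
  change (HT ρ p l (Real.exp y) _).toReal =
    (U ρ l (lev d 2) (HT ρ p l (Real.exp y)) (fun _ => 0) _).toReal + _ at sT
  have core := hc2 ρ p l y hc (gblin_inv hl hC2 (by linarith)) hO (gblin_inv hK hC2 (by linarith))
    hy (le_trans (by gcongr; linarith) hy1) 1 2 _ one_pos one_le_two hf
    (by rw [mul_one]; exact nT) nH n2e
  rw [Real.one_rpow, mul_one, mul_one] at core
  obtain ⟨-, y0, y1, -, -⟩ := hr ρ p l hc (gblin_inv hl hCr (by linarith)) hO y hy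
  have eA : Ar d ρ p l m = Kr d ρ p l * (XX ρ p l 0 (phi d m)).toReal := by
    rw [Ar, ENNReal.toReal_mul, Kr]
  have eL : (KK d ρ p l * XX ρ p l (ENNReal.ofReal (Real.exp y)) (phi d m)).toReal =
      Kr d ρ p l * (XX ρ p l (ENNReal.ofReal (Real.exp y)) (phi d m)).toReal := by
    rw [ENNReal.toReal_mul, Kr]
  have hJ0 : 0 ≤ (χ * II ρ l 2 (phi d m)).toReal := ENNReal.toReal_nonneg
  rw [eL]
  generalize (χ * II ρ l 2 (phi d m)).toReal = J at *
  generalize (U ρ l (lev d 2) (HH ρ p l) (fun _ => 0) (phi d m)).toReal = EH at *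
  generalize (U ρ l (lev d 2) (HT ρ p l (Real.exp y)) (fun _ => 0) (phi d m)).toReal = ET at *
  generalize (U ρ l (lev d 2) (fun _ => 0) (mq p) (phi d m)).toReal = u at *
  generalize (U ρ l (lev d 2) (fun _ => 0) (fun g => lift (th p (Real.exp y)) (mass g))
    (phi d m)).toReal = v at *
  generalize (U ρ l (lev d 2) (mq 2) (fun _ => 0) (phi d m)).toReal = E2 at *
  generalize (XX ρ p l (ENNReal.ofReal (Real.exp y)) (phi d m)).toReal = Xc at *
  generalize (XX ρ p l 0 (phi d m)).toReal = X0 at *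
  generalize Br d ρ p l y = B at *
  generalize Kr d ρ p l = K at *
  have hBK : B * K ≤ 1 := by
    calc B * K ≤ (Cr * (1 + y)) * K := by gcongr
      _ ≤ (Cc + Cr) * (1 + y) * K := by gcongr; linarith
      _ ≤ 1 := hy1
  have hyK : y * K ≤ 1 := by
    calc y * K ≤ ((Cc + Cr) * (1 + y)) * K := by gcongr; nlinarith
      _ ≤ 1 := hy1
  have e : K * Xc - (1 - K * B) * Ar d ρ p l m =
      K * (B * K * (u - 1) - (ET - B * K * EH) - (v - th p (Real.exp y) 1)) := by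
    have e1 : Xc = X0 + th p (Real.exp y) 1 - ET - v := by linarith
    have e2 : X0 = EH + u - 1 := by linarith
    rw [eA, e1, e2]
    ring
  have g1 : |B * K * (u - 1)| ≤ 4 * J := by
    rw [abs_mul, abs_of_nonneg (mul_nonneg y0 hK0)]
    calc B * K * |u - 1| ≤ 1 * (4 * J) := by gcongr
      _ = 4 * J := one_mul _
  have g0 : 0 ≤ η / (2 * W) * y + C2 := by positivity
  have g2 : |ET - B * K * EH| ≤ (η / (2 * W) * y + C2) * (4 * J) :=
    core.trans (mul_le_mul_of_nonneg_left r2e g0)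
  have g3 : |B * K * (u - 1) - (ET - B * K * EH) - (v - th p (Real.exp y) 1)| ≤
      (η / (2 * W) * y + (C2 + 2)) * (4 * J) := by
    have h1 := abs_le.1 g1
    have h2 := abs_le.1 g2
    have h3 := abs_le.1 kt
    rw [abs_le]
    constructor <;> linarith [h1.1, h1.2, h2.1, h2.2, h3.1, h3.2]
  have g4 : K * (η / (2 * W) * y + (C2 + 2)) ≤ η / W := by
    have h1 : K ≤ (2 * W * (C2 + 2) / η)⁻¹ := hK.trans (inv_anti₀ hq (by linarith))
    have h2 : K * (C2 + 2) ≤ η / (2 * W) := by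
      calc K * (C2 + 2) ≤ (2 * W * (C2 + 2) / η)⁻¹ * (C2 + 2) := by gcongr
        _ = η / (2 * W) := by field_simp
    have h3 : η / (2 * W) * (y * K) ≤ η / (2 * W) * 1 := by gcongr
    have h4 : η / W = η / (2 * W) + η / (2 * W) := by field_simp; ring
    nlinarith
  rw [e, abs_mul, abs_of_nonneg hK0]
  calc K * |B * K * (u - 1) - (ET - B * K * EH) - (v - th p (Real.exp y) 1)|
      ≤ K * ((η / (2 * W) * y + (C2 + 2)) * (4 * J)) := by gcongr
    _ = (K * (η / (2 * W) * y + (C2 + 2))) * (4 * J) := by ring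
    _ ≤ (η / W) * (4 * (W / 4 * (Ar d ρ p l m + l ^ (1 / 4 : ℝ)))) := by gcongr
    _ = η * (Ar d ρ p l m + l ^ (1 / 4 : ℝ)) := by field_simp

end Pool.Agent.Lib.MP_153faa_pr
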