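import Mathlib
import Pool.Agent.Lib.MP_153faa_pr.GBlin

set_option autoImplicit false

open MeasureTheory Filter Topology
open scoped ENNReal NNReal

namespace Pool.Agent.Lib.MP_153faa_pr

variable {d : ℕ}

/-- The asymptotic slope of a real function. -/
theorem gbc_slope (S : ℝ → ℝ) : ∃ b : ℝ, ∀ η s C : ℝ,
    (∀ y, 0 ≤ y → |S y - s * y| ≤ η * y + C) → |b - s| ≤ η := by
  refine ⟨limsup (fun y => S y / y) atTop, fun η s C h => ?_⟩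
  refine le_of_forall_pos_le_add fun ε hε => ?_
  have key : ∀ᶠ y in atTop, s - (η + ε) ≤ S y / y ∧ S y / y ≤ s + (η + ε) := by
    filter_upwards [eventually_gt_atTop 0, eventually_ge_atTop (C / ε)] with y hy hC
    have h1 := abs_le.1 (h y hy.le)
    have h2 : C ≤ y * ε := (div_le_iff₀ hε).1 hC
    rw [le_div_iff₀ hy, div_le_iff₀ hy]
    constructor <;> linarith [h1.1, h1.2]
  have lo := key.mono fun _ h => h.1
  have up := key.mono fun _ h => h.2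
  have a1 := limsup_le_of_le (isCoboundedUnder_le_of_eventually_le atTop lo) up
  have a2 := le_limsup_of_frequently_le lo.frequently (isBoundedUnder_of_eventually_le up)
  rw [abs_le]
  constructor <;> linarith

theorem gbc_q1 (hd : 3 ≤ d) : 1 < q0 d := by
  have : (0 : ℝ) < d := by exact_mod_cast (by omega : 0 < d)
  have : (0 : ℝ) < 2 / d := by positivity
  unfold q0; linarith

theorem gbc_q2 (hd : 3 ≤ d) : q0 d ≤ 2 := by
  have h3 : (3 : ℝ) ≤ d := by exact_mod_cast hd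
  have : (2 : ℝ) / d ≤ 1 := (div_le_one (by linarith)).2 (by linarith)
  unfold q0; linarith

theorem gbc_exp {σ : ℝ} (hσ : 0 < σ) : Real.exp (-σ) < 1 := Real.exp_lt_one_iff.2 (by linarith)

theorem gbc_ctx (hd : 3 ≤ d) {κ M σ : ℝ} {ρ : Measure ℝ≥0} (h : Good d κ M ρ) (hσ : 0 < σ) :
    Ctx d κ M ρ (q0 d) (Real.exp (-σ)) := by
  refine ⟨h, ?_, le_rfl, Real.exp_pos _, gbc_exp hσ⟩
  have : (0 : ℝ) < d := by exact_mod_cast (by omega : 0 < d)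
  have : (1 : ℝ) / d ≤ 2 / d := by gcongr; norm_num
  unfold q0; linarith

section
variable {ρ : Measure ℝ≥0} [IsProbabilityMeasure ρ] {p l : ℝ}

theorem gbc_HT_le (hd : 1 ≤ d) (hm : Mean1 ρ) (hp : 1 < p) (hp2 : p ≤ 2) (h0 : 0 < l)
    (h1 : l < 1) {c : ℝ} (hc : 0 < c) :
    HT ρ p l c (dlt (0 : Site d)) ≤ ENNReal.ofReal (p * c ^ (p - 1)) := by
  have h := HT_le_lin hd hm hp hp2 h0 h1 hc (dlt (0 : Site d))
  rwa [mass_dlt, mul_one] at h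

theorem gbc_HT_fin (hd : 1 ≤ d) (hm : Mean1 ρ) (hp : 1 < p) (hp2 : p ≤ 2) (h0 : 0 < l)
    (h1 : l < 1) {c : ℝ} (hc : 0 < c) : HT ρ p l c (dlt (0 : Site d)) ≠ ⊤ :=
  ne_top_of_le_ne_top ENNReal.ofReal_ne_top (gbc_HT_le hd hm hp hp2 h0 h1 hc)

theorem gbc_Br_le (hd : 1 ≤ d) (hm : Mean1 ρ) (hp : 1 < p) (hp2 : p ≤ 2) (h0 : 0 < l)
    (h1 : l < 1) (y : ℝ) : Br d ρ p l y ≤ p * Real.exp y ^ (p - 1) :=
  ENNReal.toReal_le_of_le_ofReal (by positivity)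
    (gbc_HT_le hd hm hp hp2 h0 h1 (Real.exp_pos y))

theorem gbc_horizon (hd : 1 ≤ d) (hm : Mean1 ρ) (hp : 1 < p) (hp2 : p ≤ 2) {l' : ℝ} (h0 : 0 < l')
    (h : l' ≤ l) (h1 : l < 1) (y : ℝ) : Br d ρ p l y ≤ Br d ρ p l' y := by
  have hc := (Real.exp_pos y).le
  refine ENNReal.toReal_mono (gbc_HT_fin hd hm hp hp2 h0 (h.trans_lt h1) (Real.exp_pos y)) ?_
  exact Res_horizon hd h0 h h1 (gres2_meas_th _) (fun g hg => pay_sub hd hm (th_convex hp hp2 hc)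
    (measurable_th _ _) (fun x hx => th_nonneg hp hp2 hc hx) hg) (nice_dlt 0)

theorem gbc_sum (hd : 1 ≤ d) (hm : Mean1 ρ) (hp : 1 < p) (hp2 : p ≤ 2) (h0 : 0 < l)
    (h1 : l < 1) {c : ℝ} (hc : 0 < c) :
    HT ρ p l c (dlt (0 : Site d)) + (XX ρ p l (ENNReal.ofReal c) (dlt (0 : Site d)) + 1)
      = OO d ρ p l + ENNReal.ofReal (th p c (mr (dlt (0 : Site d)))) := by
  have a := XX_th hd hm hp hp2 h0 h1 hc (nice_dlt (0 : Site d))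
  have b := XX_zero_add hd hm hp.le h0 h1 (dlt (0 : Site d))
  rw [gres2_mq_of (mass_dlt _)] at b
  rw [OO, ← b, ← add_assoc, add_comm (HT ρ p l c _), ← a]
  ring

end

section
variable {ρ₁ ρ₂ : Measure ℝ≥0} [IsProbabilityMeasure ρ₁] [IsProbabilityMeasure ρ₂] {p l : ℝ}

theorem gbc_cx (hd : 1 ≤ d) (h : CxLe ρ₁ ρ₂) (hm : Mean1 ρ₂) (hp : 1 < p) (hp2 : p ≤ 2)
    (h0 : 0 < l) (h1 : l < 1) (y : ℝ) : Br d ρ₁ p l y ≤ Br d ρ₂ p l y := by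
  have hc := (Real.exp_pos y).le
  refine ENNReal.toReal_mono (gbc_HT_fin hd hm hp hp2 h0 h1 (Real.exp_pos y)) ?_
  exact cx_Res hd h (th_convex hp hp2 hc) (measurable_th _ _)
    (fun x hx => th_nonneg hp hp2 hc hx) l (nice_dlt 0)

theorem gbc_XX (hd : 1 ≤ d) (h : CxLe ρ₁ ρ₂) (hp : 1 < p) {c : ℝ} (hc : 0 ≤ c) {f : Prof d}
    (hf : Nice f) : XX ρ₁ p l (ENNReal.ofReal c) f ≤ XX ρ₂ p l (ENNReal.ofReal c) f := by
  have e : (fun g : Prof d => (ENNReal.ofReal c + mass g) ^ p)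
      = fun g => lift (fun x => (c + x) ^ p) (mass g) := by
    funext g
    by_cases hg : mass g = ⊤
    · rw [hg, gres2_lift_top, add_top, ENNReal.top_rpow_of_pos (by linarith)]
    · rw [gres2_lift_of hg, ← ENNReal.ofReal_rpow_of_nonneg (by positivity) (by linarith),
        ENNReal.ofReal_add hc ENNReal.toReal_nonneg, ENNReal.ofReal_toReal hg]
  have cv : ConvexOn ℝ (Set.Ici 0) fun x : ℝ => (c + x) ^ p :=
    ((convexOn_rpow hp.le).translate_right c).subset (fun x hx => add_nonneg hc hx) (convex_Ici 0)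
  unfold XX
  rw [e]
  exact tsub_le_tsub_right (cx_Res hd h cv (by fun_prop) (fun x hx => by positivity) l hf) _

theorem gbc_low (hd : 1 ≤ d) (h : CxLe ρ₁ ρ₂) (hm₁ : Mean1 ρ₁) (hm₂ : Mean1 ρ₂) (hp : 1 < p)
    (hp2 : p ≤ 2) (h0 : 0 < l) (h1 : l < 1) (hO : OO d ρ₂ p l ≠ ⊤) (y : ℝ) :
    Br d ρ₂ p l y + (OO d ρ₁ p l).toReal ≤ (OO d ρ₂ p l).toReal + Br d ρ₁ p l y := by
  have hc := Real.exp_pos y
  have a₁ := gbc_sum hd hm₁ hp hp2 h0 h1 hc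
  have a₂ := gbc_sum hd hm₂ hp hp2 h0 h1 hc
  have x := gbc_XX (l := l) hd h hp hc.le (nice_dlt (0 : Site d))
  have hO₁ : OO d ρ₁ p l ≠ ⊤ := ne_top_of_le_ne_top hO (cx_OO hd h hp.le l)
  have f₁ := gbc_HT_fin hd hm₁ hp hp2 h0 h1 hc
  have f₂ := gbc_HT_fin hd hm₂ hp hp2 h0 h1 hc
  have fx : XX ρ₂ p l (ENNReal.ofReal (Real.exp y)) (dlt (0 : Site d)) + 1 ≠ ⊤ :=
    ne_top_of_le_ne_top (ENNReal.add_ne_top.2 ⟨hO, ENNReal.ofReal_ne_top⟩) (a₂ ▸ le_add_self)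
  unfold Br
  rw [← ENNReal.toReal_add f₂ hO₁, ← ENNReal.toReal_add hO f₁]
  refine ENNReal.toReal_mono (ENNReal.add_ne_top.2 ⟨hO, f₁⟩) ?_
  rw [← ENNReal.add_le_add_iff_right fx, add_right_comm, a₂, add_right_comm, add_assoc,
    add_assoc (OO d ρ₂ p l), ← a₁]
  gcongr

end

/-- The slope of the truncated moment at the critical point. -/
theorem b_crit (hd : 3 ≤ d) {ν : Measure ℝ} [IsProbabilityMeasure ν]
    (hν : ∀ β : ℝ, Integrable (fun t => Real.exp (β * t)) ν) {κ M β₀ ε₀ : ℝ} (hκ : 0 < κ)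
    (hε : 0 < ε₀) (hβ : ε₀ < β₀) (hG : ∀ β ∈ Set.Icc (β₀ - ε₀) (β₀ + ε₀), Good d κ M (rho ν β))
    (hfin : ∀ σ : ℝ, 0 < σ → OO d (rho ν β₀) (q0 d) (Real.exp (-σ)) ≠ ⊤)
    (hk : Tendsto (kk d (rho ν β₀)) atTop (𝓝 0)) :
    ∃ b C : ℝ, 0 < b ∧ 1 ≤ C ∧ ∀ η : ℝ, 0 < η → ∃ D σ₀ ε₁ : ℝ, 0 < ε₁ ∧ ε₁ ≤ ε₀ ∧
      BUp d (rho ν β₀) b η D C σ₀ ∧
      ∀ β ∈ Set.Icc (β₀ - ε₁) (β₀ + ε₁), BLow d (rho ν β) b η D C σ₀ := by
  have hd1 : 1 ≤ d := by omega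
  have hp := gbc_q1 hd
  have hp2 := gbc_q2 hd
  have hG0 : Good d κ M (rho ν β₀) := hG β₀ ⟨by linarith, by linarith⟩
  obtain ⟨C₁, hC₁, hlin⟩ := b_lin hd (M := M) hκ
  obtain ⟨B, hB⟩ : ∃ B : ℝ → ℝ → ℝ,
      B = fun σ y => Br d (rho ν β₀) (q0 d) (Real.exp (-σ)) y := ⟨_, rfl⟩
  have hBm : ∀ y σ σ', 0 < σ → σ ≤ σ' → B σ y ≤ B σ' y := fun y σ σ' h h' => by
    rw [hB]
    exact gbc_horizon hd1 hG0.1 hp hp2 (Real.exp_pos _) (Real.exp_le_exp.2 (neg_le_neg h'))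
      (gbc_exp h) y
  have pos : ∀ σ : ℝ, 0 < max σ 1 := fun σ => lt_max_of_lt_right one_pos
  have mon : ∀ y, Monotone fun σ => B (max σ 1) y := fun y σ σ' h =>
    hBm y _ _ (pos σ) (max_le_max_right 1 h)
  have bdd : ∀ y, BddAbove (Set.range fun σ => B (max σ 1) y) := fun y =>
    ⟨q0 d * Real.exp y ^ (q0 d - 1), by
      rintro _ ⟨σ, rfl⟩
      rw [hB]
      exact gbc_Br_le hd1 hG0.1 hp hp2 (Real.exp_pos _) (gbc_exp (pos σ)) y⟩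
  obtain ⟨S, hS⟩ : ∃ S : ℝ → ℝ, S = fun y => ⨆ σ, B (max σ 1) y := ⟨_, rfl⟩
  have lim : ∀ y, Tendsto (fun σ => B σ y) atTop (𝓝 (S y)) := fun y => by
    rw [hS]
    refine (tendsto_atTop_ciSup (mon y) (bdd y)).congr' ?_
    filter_upwards [eventually_ge_atTop 1] with σ h
    rw [max_eq_left h]
  have leS : ∀ y σ, 1 ≤ σ → B σ y ≤ S y := fun y σ h => by
    have := le_ciSup (bdd y) σ
    rw [max_eq_left h] at this
    rw [hS]
    exact this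
  have ev : ∀ C : ℝ, 1 ≤ C → ∀ᶠ σ in atTop, 1 ≤ σ ∧ Real.exp (-σ) ≤ C⁻¹ ∧
      kk d (rho ν β₀) σ < C⁻¹ := fun C hC => by
    have hc : 0 < C⁻¹ := by positivity
    exact (eventually_ge_atTop 1).and
      ((Real.tendsto_exp_neg_atTop_nhds_zero.eventually (ge_mem_nhds hc)).and
        (hk.eventually (gt_mem_nhds hc)))
  obtain ⟨b, hb⟩ := gbc_slope S
  have main : ∀ η : ℝ, 0 < η → ∃ y₁ : ℝ, 1 ≤ y₁ ∧ ∃ C : ℝ, 1 ≤ C ∧ C₁⁻¹ ≤ S y₁ / y₁ ∧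
      |b - S y₁ / y₁| ≤ η ∧
      ∀ (ρ : Measure ℝ≥0) [IsProbabilityMeasure ρ] (p l : ℝ), Ctx d κ M ρ p l → l ≤ C⁻¹ →
        OO d ρ p l ≠ ⊤ → Kr d ρ p l ≤ C⁻¹ → ∀ y, 0 ≤ y →
          |Br d ρ p l y - Br d ρ p l y₁ / y₁ * y| ≤ η * y + C + C₁ * Kr d ρ p l * y ^ 2 := by
    intro η hη
    obtain ⟨y₁, hy₁, h⟩ := hlin η hη
    obtain ⟨C, hC, h⟩ := h y₁ le_rfl
    have h' : ∀ᶠ σ in atTop, C₁⁻¹ ≤ B σ y₁ / y₁ ∧ ∀ y, 0 ≤ y →
        |B σ y - B σ y₁ / y₁ * y| ≤ η * y + C + C₁ * kk d (rho ν β₀) σ * y ^ 2 := by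
      filter_upwards [ev C hC] with σ hσ
      have := h (rho ν β₀) _ _ (gbc_ctx hd hG0 (by linarith [hσ.1])) hσ.2.1
        (hfin σ (by linarith [hσ.1])) hσ.2.2.le
      rw [hB]
      exact ⟨this.1, this.2.2⟩
    refine ⟨y₁, hy₁, C, hC, ge_of_tendsto ((lim y₁).div_const y₁) (h'.mono fun _ h => h.1),
      hb η _ C fun y hy => ?_, fun ρ _ p l a b c e => (h ρ p l a b c e).2.2⟩
    have t1 := ((lim y).sub (((lim y₁).div_const y₁).mul_const y)).abs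
    have t2 := (((hk.const_mul C₁).mul_const (y ^ 2)).const_add (η * y + C))
    rw [mul_zero, zero_mul, add_zero] at t2
    exact le_of_tendsto_of_tendsto t1 t2 (h'.mono fun _ h => h.2 y hy)
  refine ⟨b, C₁, ?_, hC₁, fun η hη => ?_⟩
  · have hc : 0 < C₁⁻¹ := by positivity
    obtain ⟨y₁, -, C, -, h1, h2, -⟩ := main (C₁⁻¹ / 2) (by positivity)
    linarith [(abs_le.1 h2).1]
  obtain ⟨y₁, hy₁, C, hC, -, h2, h3⟩ := main (η / 4) (by positivity)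
  have hy0 : 0 < y₁ := by linarith
  obtain ⟨b1, b2⟩ := abs_le.1 h2
  have e1 : ∀ᶠ σ in atTop, S y₁ / y₁ - η / 4 < B σ y₁ / y₁ :=
    ((lim y₁).div_const y₁).eventually (lt_mem_nhds (by linarith))
  obtain ⟨σ₀, ⟨s1, s2, s3⟩, s4⟩ := ((ev C hC).and e1).exists
  have s0 : 0 < σ₀ := by linarith
  have cO := OO_cont hd1 hν hp.le (Real.exp_pos (-σ₀)) (gbc_exp s0) (hfin σ₀ s0)
  have c1 : Tendsto (fun β => (OO d (rho ν β) (q0 d) (Real.exp (-σ₀))).toReal) (𝓝 β₀)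
      (𝓝 (OO d (rho ν β₀) (q0 d) (Real.exp (-σ₀))).toReal) :=
    (ENNReal.tendsto_toReal (hfin σ₀ s0)).comp cO
  have c2 : Tendsto (fun β => kk d (rho ν β) σ₀) (𝓝 β₀) (𝓝 (kk d (rho ν β₀) σ₀)) :=
    (ENNReal.tendsto_toReal (ne_top_of_le_ne_top ENNReal.one_ne_top
      (gres2_KK_le hd1 hG0.1 hp.le (Real.exp_pos _) (gbc_exp s0)))).comp cO.inv
  have e2 := (c1.eventually (lt_mem_nhds (sub_lt_self _ (show 0 < η / 4 * y₁ by positivity)))).and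
    (c2.eventually (gt_mem_nhds s3))
  obtain ⟨ε, hε', e3⟩ := Metric.eventually_nhds_iff.1 e2
  have anti : ∀ β, Good d κ M (rho ν β) → ∀ σ, σ₀ ≤ σ → kk d (rho ν β) σ ≤ kk d (rho ν β) σ₀ :=
    fun β h σ hσ => (reg_kk hd1 h.1 0).2.1 s0 (s0.trans_le hσ) hσ
  have lσ : ∀ σ, σ₀ ≤ σ → Real.exp (-σ) ≤ Real.exp (-σ₀) := fun σ h =>
    Real.exp_le_exp.2 (neg_le_neg h)
  refine ⟨C, σ₀, min (ε / 2) ε₀, lt_min (half_pos hε') hε, min_le_right _ _, ?_, ?_⟩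
  · intro σ hσ hO y hy _
    have h4 := (abs_le.1 (h3 (rho ν β₀) _ _ (gbc_ctx hd hG0 (s0.trans_le hσ)) ((lσ σ hσ).trans s2)
      hO ((anti β₀ hG0 σ hσ).trans s3.le) y hy)).2
    have h5 := leS y₁ σ (s1.trans hσ)
    rw [hB] at h5
    have h6 : Br d (rho ν β₀) (q0 d) (Real.exp (-σ)) y₁ / y₁ ≤ b + η / 4 :=
      (div_le_div_of_nonneg_right h5 hy0.le).trans (by linarith)
    have h7 := mul_le_mul_of_nonneg_right h6 hy
    have h8 : 0 ≤ η * y := by positivity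
    unfold kk
    linarith
  · intro β hβ' σ hσ hO y hy _
    have m1 := min_le_left (ε / 2) ε₀
    have m2 := min_le_right (ε / 2) ε₀
    have hGβ : Good d κ M (rho ν β) := hG β ⟨by linarith [hβ'.1], by linarith [hβ'.2]⟩
    obtain ⟨n1, n2⟩ := e3 (y := β) (by
      rw [Real.dist_eq, abs_lt]; constructor <;> linarith [hβ'.1, hβ'.2])
    have h4 := (abs_le.1 (h3 (rho ν β) _ _ (gbc_ctx hd hGβ (s0.trans_le hσ)) ((lσ σ hσ).trans s2)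
      hO ((anti β hGβ σ hσ).trans n2.le) y hy)).1
    have h5 : B σ₀ y₁ - η / 4 * y₁ ≤ Br d (rho ν β) (q0 d) (Real.exp (-σ₀)) y₁ := by
      rw [hB]
      rcases le_total β β₀ with h | h
      · have := gbc_low hd1 (cx_rho hν (by linarith [hβ'.1]) h) hGβ.1 hG0.1 hp hp2
          (Real.exp_pos (-σ₀)) (gbc_exp s0) (hfin σ₀ s0) y₁
        linarith
      · have := gbc_cx hd1 (cx_rho hν (by linarith) h) hGβ.1 hp hp2 (Real.exp_pos (-σ₀))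
          (gbc_exp s0) y₁
        have h0 : 0 ≤ η / 4 * y₁ := by positivity
        linarith
    have h6 := h5.trans (gbc_horizon hd1 hGβ.1 hp hp2 (Real.exp_pos _) (lσ σ hσ) (gbc_exp s0) y₁)
    have h7 : b - 3 * (η / 4) ≤ Br d (rho ν β) (q0 d) (Real.exp (-σ)) y₁ / y₁ := by
      have h8 := div_le_div_of_nonneg_right h6 hy0.le
      rw [sub_div, mul_div_cancel_right₀ _ hy0.ne'] at h8
      linarith
    have h9 := mul_le_mul_of_nonneg_right h7 hy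
    unfold kk
    linarith

end Pool.Agent.Lib.MP_153faa_pr
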