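import Mathlib
import Pool.Agent.Lib.MP_153faa_pr.GSeed
import Pool.Agent.Lib.MP_153faa_pr.GSc
import Pool.Agent.Lib.MP_153faa_pr.GA1

set_option autoImplicit false

open MeasureTheory Filter Topology
open scoped ENNReal NNReal

namespace Pool.Agent.Lib.MP_153faa_pr

variable {d : ℕ}

theorem gfla_le_OO {ρ : Measure ℝ≥0} [IsProbabilityMeasure ρ] {p l y : ℝ} (hd : 1 ≤ d)
    (hm : Mean1 ρ) (hp : 1 ≤ p) (h0 : 0 < l) (h1 : l < 1) (hO : OO d ρ p l ≠ ⊤)
    (hy : y * Kr d ρ p l ≤ 1) : ENNReal.ofReal y ≤ OO d ρ p l := by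
  have h2 := one_le_OO hd hm hp h0 h1
  have h3 : 0 < (OO d ρ p l).toReal := ENNReal.toReal_pos (by
    intro h
    rw [h] at h2
    simp at h2) hO
  rw [Kr, KK, ENNReal.toReal_inv, ← div_eq_mul_inv, div_le_one h3] at hy
  exact ENNReal.ofReal_le_of_le_toReal hy

theorem gfla_Kr_pos {ρ : Measure ℝ≥0} [IsProbabilityMeasure ρ] {p l : ℝ} (hd : 1 ≤ d)
    (hm : Mean1 ρ) (hp : 1 ≤ p) (h0 : 0 < l) (h1 : l < 1) (hO : OO d ρ p l ≠ ⊤) :
    0 < Kr d ρ p l := by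
  have h2 := one_le_OO hd hm hp h0 h1
  refine ENNReal.toReal_pos (ENNReal.inv_ne_zero.2 hO) (ENNReal.inv_ne_top.2 ?_)
  intro h
  rw [h] at h2
  simp at h2

theorem gfla_Kr_le {ρ : Measure ℝ≥0} [IsProbabilityMeasure ρ] {p l y : ℝ} (hy : 0 < y)
    (h : ENNReal.ofReal y ≤ OO d ρ p l) : Kr d ρ p l ≤ y⁻¹ := by
  refine ENNReal.toReal_le_of_le_ofReal (by positivity) ?_
  rw [ENNReal.ofReal_inv_of_pos hy]
  exact ENNReal.inv_le_inv.2 h

/-- The creation rate persists, up to a constant, over a long range of ages. -/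
theorem seed_q0 (hd : 3 ≤ d) {κ M : ℝ} (hκ : 0 < κ) : ∃ C : ℝ, 1 ≤ C ∧
    ∀ (ρ : Measure ℝ≥0) [IsProbabilityMeasure ρ] (l Z γ p l' : ℝ) (m₀ m : ℕ),
      Ctx d κ M ρ (q0 d) l → l ≤ C⁻¹ → C ≤ Z → Sc d ρ (q0 d) l Z → Z / l ≤ m₀ →
      l * m₀ ≤ l ^ (-(1 / 16) : ℝ) → Z⁻¹ ≤ γ → γ ≤ 1 → γ ≤ l * m₀ * Ar d ρ (q0 d) l m₀ →
      1 + 1 / d ≤ p → p ≤ q0 d → 0 < l' → l' < l → OO d ρ p l' ≠ ⊤ → Z * m₀ ≤ m →
      C * (1 + Real.log (m / m₀)) * Kr d ρ (q0 d) l ≤ 1 →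
        γ / (C * (l * m)) ≤ Gr d ρ p l l' m := by
  obtain ⟨C1, hC1, h1⟩ := seed_Yv (M := M) hd hκ
  obtain ⟨C2, hC2, h2⟩ := seed_gr (M := M) hd hκ C1⁻¹ (by positivity)
  obtain ⟨C3, hC3, h3⟩ := surv (M := M) hd hκ
  have hd3 : (3 : ℝ) ≤ d := by exact_mod_cast hd
  have b1 : 2 * C1 ≤ (2 * C1) ^ 8 := le_self_pow₀ (by linarith) (by norm_num)
  have b2 : 0 ≤ (C2 * (2 * C1 + 1)) ^ 2 := by positivity
  have b3 : C3 ≤ C3 * (C2 + d) := le_mul_of_one_le_right (by linarith) (by linarith)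
  have b4 : 0 ≤ 2 * C1 * C2 ^ 3 * C3 := by positivity
  refine ⟨(2 * C1) ^ 8 + (C2 * (2 * C1 + 1)) ^ 2 + C3 * (C2 + d) + 2 * C1 * C2 ^ 3 * C3,
    by linarith, ?_⟩
  set C := (2 * C1) ^ 8 + (C2 * (2 * C1 + 1)) ^ 2 + C3 * (C2 + d) + 2 * C1 * C2 ^ 3 * C3 with hC
  clear_value C
  intro ρ _ l Z γ p l' m₀ m hc hl hZ hS hm0 ht hγ1 hγ2 hA hp1 hp2 hl0 hll hO hm hK
  have l0 := hc.l0
  have l1 := hc.l1
  have hC0 : 1 ≤ C := by linarith
  have hZ1 : 1 ≤ Z := by linarith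
  have hlC : ∀ D : ℝ, 0 < D → D ≤ C → l ≤ D⁻¹ := fun D h h' => hl.trans (inv_anti₀ h h')
  have hq1 : 1 ≤ q0 d := by
    rw [q0]
    have : (0 : ℝ) ≤ 2 / d := by positivity
    linarith
  have hq2 : q0 d ≤ 2 := by
    rw [q0]
    have : (2 : ℝ) / d ≤ 1 := by rw [div_le_one (by linarith)]; linarith
    linarith
  have htZ : Z ≤ l * m₀ := by rwa [div_le_iff₀' l0] at hm0
  have ht0 : 0 < l * m₀ := by linarith
  have hm01 : (1 : ℝ) ≤ m₀ := by nlinarith only [htZ, hZ1, l0, l1]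
  have hγ0 : 0 < γ := lt_of_lt_of_le (by positivity) hγ1
  set w := l ^ (1 / 16 : ℝ) with hw
  have hw0 : 0 < w := Real.rpow_pos_of_pos l0 _
  clear_value w
  have hw1 : l * m₀ * w ≤ 1 := by
    rw [Real.rpow_neg l0.le, ← hw] at ht
    rwa [← le_div_iff₀ hw0, one_div]
  have hw16 : w ^ 16 = l := by
    rw [hw, ← Real.rpow_natCast, ← Real.rpow_mul l0.le]
    norm_num
  have hw4 : l ^ (1 / 4 : ℝ) = w ^ 4 := by
    rw [hw, ← Real.rpow_natCast, ← Real.rpow_mul l0.le]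
    norm_num
  have hw2 : w ^ 2 ≤ (2 * C1)⁻¹ := by
    refine (pow_le_pow_iff_left₀ (by positivity) (by positivity) (n := 8) (by norm_num)).1 ?_
    rw [← pow_mul, hw16, inv_pow]
    exact hlC _ (by positivity) (by linarith)
  have hγt : w ^ 2 ≤ γ / (l * m₀) := by
    rw [le_div_iff₀ ht0]
    have e1 : Z * w ≤ 1 := le_trans (by gcongr) hw1
    have e2 : w ≤ γ := le_trans (by rwa [← one_div, le_div_iff₀' (by linarith)]) hγ1
    calc w ^ 2 * (l * m₀) = w * (l * m₀ * w) := by ring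
      _ ≤ γ * 1 := by gcongr
      _ = γ := mul_one _
  set δ := (2 * C1)⁻¹ * (γ / (l * m₀)) with hδ
  have hδ0 : 0 < δ := by positivity
  have hδ1 : δ ≤ 1 := by
    refine mul_le_one₀ (inv_le_one_of_one_le₀ (by linarith)) (by positivity) ?_
    rw [div_le_one ht0]
    linarith
  clear_value δ
  have hδY : ENNReal.ofReal δ ≤ Yv ρ l (phi d m₀) (ENNReal.ofReal C1⁻¹) := by
    refine le_trans (ENNReal.ofReal_le_ofReal ?_)
      (h1 ρ (q0 d) l m₀ hc (hlC _ (by linarith) (by linarith)))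
    have e1 : γ / (l * m₀) ≤ Ar d ρ (q0 d) l m₀ := by rwa [div_le_iff₀' ht0]
    have e2 : w ^ 4 ≤ δ := by
      rw [show w ^ 4 = w ^ 2 * w ^ 2 by ring, hδ]
      exact mul_le_mul hw2 hγt (by positivity) (by positivity)
    have e3 : 2 * δ ≤ C1⁻¹ * Ar d ρ (q0 d) l m₀ := by
      calc 2 * δ = C1⁻¹ * (γ / (l * m₀)) := by
            rw [hδ]
            field_simp
        _ ≤ _ := by gcongr
    rw [hw4]
    linarith
  have hlog : C2 * (1 - Real.log δ) ≤ Z := by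
    have e1 : Real.log ((2 * C1)⁻¹ * w ^ 2) ≤ Real.log δ :=
      Real.log_le_log (by positivity) (by rw [hδ]; gcongr)
    rw [Real.log_mul (by positivity) (by positivity), Real.log_inv, Real.log_pow, hw,
      Real.log_rpow l0] at e1
    have e2 := Real.log_le_sub_one_of_pos (show 0 < 2 * C1 by linarith)
    have e3 : -Real.log l ≤ √Z := Real.le_sqrt_of_sq_le (by rw [neg_sq]; exact hS.2)
    have e4 : C2 * (2 * C1 + 1) ≤ √Z := Real.le_sqrt_of_sq_le (by linarith)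
    have e5 : 1 ≤ √Z := Real.le_sqrt_of_sq_le (by linarith)
    have e6 : √Z * √Z = Z := Real.mul_self_sqrt (by linarith)
    have e7 : 1 - Real.log δ ≤ (2 * C1 + 1) * √Z := by
      push_cast at e1
      nlinarith only [e1, e2, e3, e5, hC1]
    calc C2 * (1 - Real.log δ) ≤ C2 * ((2 * C1 + 1) * √Z) := by gcongr
      _ = C2 * (2 * C1 + 1) * √Z := by ring
      _ ≤ √Z * √Z := by gcongr
      _ = Z := e6
  set r : ℝ := m / m₀ with hr
  have hr1 : 1 ≤ r := by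
    rw [hr, le_div_iff₀ (by linarith)]
    nlinarith only [hm, hZ1, hm01]
  have hlr : 0 ≤ Real.log r := Real.log_nonneg hr1
  have hl2 : 0 ≤ Real.log C2 := Real.log_nonneg hC2
  set y := Real.log C2 + Real.log r * (d / 2) with hy
  have hy0 : 0 ≤ y := by positivity
  clear_value y
  have hey : Real.exp y = C2 * r ^ ((d : ℝ) / 2) := by
    rw [hy, Real.exp_add, Real.exp_log (by linarith), Real.rpow_def_of_pos (by linarith)]
  have hOq : OO d ρ (q0 d) l ≠ ⊤ := ne_top_of_le_ne_top ENNReal.ofReal_ne_top hS.1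
  have hsv := (h3 ρ (q0 d) l hc (hlC _ (by linarith) (by linarith)) hOq y hy0
    (gfla_le_OO (by omega) hc.good.1 hq1 l0 l1 hOq (le_trans (mul_le_mul_of_nonneg_right (by
      have e1 := Real.log_le_sub_one_of_pos (show 0 < C2 by linarith)
      have e2 : 1 + y ≤ (C2 + d) * (1 + Real.log r) := by
        nlinarith only [hy, e1, hlr, hC2, hd3]
      calc C3 * (1 + y) ≤ C3 * ((C2 + d) * (1 + Real.log r)) := by gcongr
        _ = C3 * (C2 + d) * (1 + Real.log r) := by ring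
        _ ≤ C * (1 + Real.log r) := by
          gcongr
          linarith) Kr_nonneg) hK))).1
  have key := h2 ρ p l l' δ (Real.exp y) (C3⁻¹ * Real.exp (-(q0 d * y))) m₀ m
    ⟨hc.good, hp1, hp2, l0, l1⟩ hl0 hll hO (by exact_mod_cast hm01) hδ0 hδ1 hδY
    (le_trans (by gcongr) hm) hey.ge (by positivity) hsv
  refine le_trans ?_ key
  have e1 : (C2 ^ 2 * r)⁻¹ ≤ Real.exp (-(q0 d * y)) * r ^ ((d : ℝ) / 2) := by
    rw [Real.rpow_def_of_pos (by linarith), ← Real.exp_add,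
      ← Real.exp_log (show 0 < (C2 ^ 2 * r)⁻¹ by positivity), Real.exp_le_exp, Real.log_inv,
      Real.log_mul (by positivity) (by positivity), Real.log_pow]
    have e2 : q0 d * (Real.log r * (d / 2)) = Real.log r * (d / 2) + Real.log r := by
      rw [q0]
      field_simp
    push_cast
    rw [hy, mul_add, e2]
    nlinarith only [hl2, hq2]
  have hm' : (0 : ℝ) < m := by nlinarith only [hm, hZ1, hm01]
  calc γ / (C * (l * m)) ≤ γ / (2 * C1 * C2 ^ 3 * C3 * (l * m)) := by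
        gcongr
        linarith
    _ = C2⁻¹ * δ * C3⁻¹ * (C2 ^ 2 * r)⁻¹ := by
        rw [hδ, hr]
        field_simp
    _ ≤ C2⁻¹ * δ * C3⁻¹ * (Real.exp (-(q0 d * y)) * r ^ ((d : ℝ) / 2)) := by gcongr
    _ = _ := by ring

/-- A large creation rate makes a slightly lower moment infinite. -/
theorem fl_a (hd : 3 ≤ d) {κ M : ℝ} (hκ : 0 < κ) : ∃ (a : ℕ) (C : ℝ), 1 ≤ a ∧ 1 ≤ C ∧
    ∀ (ρ : Measure ℝ≥0) [IsProbabilityMeasure ρ] (l Z γ L : ℝ) (m₀ : ℕ), Ctx d κ M ρ (q0 d) l →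
      l ≤ C⁻¹ → C ≤ Z → Sc d ρ (q0 d) l Z → Z ^ a / l ≤ m₀ → l * m₀ ≤ l ^ (-(1 / 16) : ℝ) →
      Z⁻¹ ≤ γ → γ ≤ 1 → γ ≤ l * m₀ * Ar d ρ (q0 d) l m₀ → 20 * Real.log Z ≤ L →
      C * Kr d ρ (q0 d) l ≤ γ * L → C * (1 + L) * Kr d ρ (q0 d) l ≤ 1 →
        OO d ρ (q0 d - Kr d ρ (q0 d) l) (Real.exp (-L) / m₀) = ⊤ := by
  obtain ⟨Cs, hCs, hs⟩ := seed_q0 (M := M) hd hκ
  obtain ⟨a, Ca, hCa, ha⟩ := a1_low (M := M) hd hκ
  obtain ⟨Co, hCo, ho⟩ := opl (M := M) hd hκ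
  have hd3 : (3 : ℝ) ≤ d := by exact_mod_cast hd
  have b1 : Co ≤ Cs * Co := le_mul_of_one_le_left (by linarith) hCs
  refine ⟨a + 1, 33 * (Cs * Co) + 3 * Cs + Ca + d, by omega, by linarith, ?_⟩
  set C := 33 * (Cs * Co) + 3 * Cs + Ca + d with hC
  clear_value C
  intro ρ _ l Z γ L m₀ hc hl hZ hS hm0 ht hγ1 hγ2 hA hL hK1 hK2
  by_contra hO
  have l0 := hc.l0
  have l1 := hc.l1
  have hmean := hc.good.1
  have hZ3 : 3 ≤ Z := by linarith
  have hlC : ∀ D : ℝ, 0 < D → D ≤ C → l ≤ D⁻¹ := fun D h h' => hl.trans (inv_anti₀ h h')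
  have hd1 : (0 : ℝ) < 1 / d := by positivity
  have hq : q0 d = 1 + 2 * (1 / d) := by rw [q0]; ring
  have hOq : OO d ρ (q0 d) l ≠ ⊤ := ne_top_of_le_ne_top ENNReal.ofReal_ne_top hS.1
  set K := Kr d ρ (q0 d) l with hK
  have hK0 : 0 < K := gfla_Kr_pos (by omega) hmean (by linarith) l0 l1 hOq
  have hlZ : 1 ≤ Real.log Z := by
    rw [Real.le_log_iff_exp_le (by linarith)]
    linarith [Real.exp_one_lt_d9]
  have hKd : K ≤ 1 / d := by
    rw [le_div_iff₀' (by linarith)]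
    refine le_trans ?_ hK2
    gcongr
    nlinarith only [hC, hL, hlZ, hCs, hCa, hCo, b1, hd3]
  have hZa : Z ≤ Z ^ (a + 1) := le_self_pow₀ (by linarith) (by omega)
  have hZa' : Z ^ a ≤ Z ^ (a + 1) := pow_le_pow_right₀ (by linarith) (by omega)
  have hm1 : Z / l ≤ m₀ := le_trans (by gcongr) hm0
  have htZ : Z ≤ l * m₀ := by rwa [div_le_iff₀' l0] at hm1
  have hm01 : (1 : ℝ) ≤ m₀ := by nlinarith only [htZ, hZ3, l0, l1]
  set l' := Real.exp (-L) / m₀ with hl'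
  have hl'0 : 0 < l' := by positivity
  have hL0 : 0 < L := by linarith
  clear_value l'
  have hl'm : l' * m₀ = Real.exp (-L) := by
    rw [hl']
    exact div_mul_cancel₀ _ (by linarith)
  have heL : Real.exp (-L) ≤ 1 := Real.exp_le_one_iff.2 (by linarith)
  have hll : l' ≤ l / 2 := by
    refine le_of_mul_le_mul_right ?_ (show (0 : ℝ) < m₀ by linarith)
    rw [hl'm]
    linarith
  have hc' : Ctx d κ M ρ (q0 d - K) l := ⟨hc.good, by linarith, by linarith, l0, l1⟩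
  have hup : Ar d ρ (q0 d - K) l' m₀ ≤ 2 * Co * K := by
    have e1 := ha ρ (q0 d - K) l l' Z m₀ hc' (hlC _ (by linarith) (by linarith)) (by linarith)
      ((OO_mono_p (by omega) hmean (by linarith) (by linarith) l0 l1).trans hS.1) hl'0 hO
      (le_trans (by gcongr) hm0) (by
        rw [hl'm, ← Real.exp_log (show 0 < Z ^ 20 by positivity), ← Real.exp_add,
          Real.exp_le_one_iff, Real.log_pow]
        push_cast
        linarith)
    have e2 := ho ρ (q0 d) l K K⁻¹ hc (hlC _ (by linarith) (by linarith)) hOq hK0.le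
      (by linarith) (gfla_le_OO (by omega) hmean (by linarith) l0 l1 hOq
        (inv_mul_cancel₀ hK0.ne').le) (mul_inv_cancel₀ hK0.ne').le
    have e3 := gfla_Kr_le (by positivity) e2
    rw [inv_div, div_inv_eq_mul] at e3
    have e4 : (Z ^ 10)⁻¹ ≤ 1 := inv_le_one_of_one_le₀ (one_le_pow₀ (by linarith))
    have e5 : 0 ≤ Kr d ρ (q0 d - K) l' := Kr_nonneg
    have e6 : Kr d ρ (q0 d - K) l * (1 + (Z ^ 10)⁻¹) ≤ Co * K * 2 :=
      mul_le_mul e3 (by linarith) (by positivity) (by positivity)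
    linarith
  set m₁ := ⌈Z * m₀⌉₊ with hm₁
  have hm₁a : Z * m₀ ≤ m₁ := Nat.le_ceil _
  have hm₁b : (m₁ : ℝ) ≤ Z * m₀ + 1 := (Nat.ceil_lt_add_one (by positivity)).le
  clear_value m₁
  have hmm : m₀ ≤ m₁ := by
    have : (m₀ : ℝ) ≤ m₁ := by nlinarith only [hm₁a, hZ3, hm01]
    exact_mod_cast this
  set N := ⌈1 / l'⌉₊ with hN
  have hlm : l' * m₁ ≤ Real.exp (-(9 / 10 * L)) := by
    calc l' * m₁ ≤ l' * (Z ^ 2 * m₀) := by
          gcongr
          nlinarith only [hm₁b, hm01, hZ3, mul_nonneg (sub_nonneg.2 hZ3) (sub_nonneg.2 hm01),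
            mul_nonneg (sq_nonneg (Z - 1)) (sub_nonneg.2 hm01)]
      _ = Real.exp (Real.log (Z ^ 2)) * Real.exp (-L) := by
          rw [Real.exp_log (by positivity), ← hl'm]
          ring
      _ ≤ _ := by
          rw [← Real.exp_add, Real.exp_le_exp, Real.log_pow]
          push_cast
          linarith
  have hlm2 : l' * m₁ ≤ 1 / 2 := by
    refine hlm.trans ?_
    rw [Real.exp_neg, one_div]
    refine inv_anti₀ (by norm_num) ?_
    linarith [Real.add_one_le_exp (9 / 10 * L)]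
  have hγ0 : 0 < γ := lt_of_lt_of_le (by positivity) hγ1
  have hl'1 : 0 ≤ 1 - l' := by linarith
  have hterm : ∀ j ∈ Finset.range N, γ / (2 * Cs) * ((1 - l') ^ j / ((m₁ : ℝ) + j)) ≤
      l * (1 - l') ^ (m₁ - m₀ + j) * Gr d ρ (q0 d - K) l l' (m₀ + (m₁ - m₀ + j)) := by
    intro j hj
    have hj' : (j : ℝ) < 1 / l' := Nat.lt_ceil.1 (Finset.mem_range.1 hj)
    have hj0 : (0 : ℝ) ≤ j := by positivity
    have hm' : (0 : ℝ) < (m₁ : ℝ) + j := by nlinarith only [hm₁a, hZ3, hm01, hj0]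
    rw [show m₀ + (m₁ - m₀ + j) = m₁ + j by omega]
    have e0 : 1 / l' = Real.exp L * m₀ := by
      rw [hl', Real.exp_neg]
      field_simp
    have eZ : Z ≤ Real.exp L := by
      rw [← Real.log_le_iff_le_exp (by linarith)]
      linarith
    have e1 : Real.log (((m₁ + j : ℕ) : ℝ) / m₀) ≤ 2 + L := by
      have f1 : ((m₁ + j : ℕ) : ℝ) / m₀ ≤ 3 * Real.exp L := by
        rw [div_le_iff₀ (by linarith)]
        push_cast
        rw [e0] at hj'
        nlinarith only [hj', hm₁b, eZ, hm01, hZ3]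
      have f2 : (0 : ℝ) < ((m₁ + j : ℕ) : ℝ) / m₀ := by
        push_cast
        exact div_pos hm' (by linarith)
      refine (Real.log_le_log f2 f1).trans ?_
      rw [Real.log_mul (by norm_num) (by positivity), Real.log_exp]
      linarith [Real.log_le_sub_one_of_pos (show (0 : ℝ) < 3 by norm_num)]
    have e2 := hs ρ l Z γ (q0 d - K) l' m₀ (m₁ + j) hc (hlC _ (by linarith) (by linarith))
      (by linarith) hS hm1 ht hγ1 hγ2 hA hc'.p1 hc'.p2 hl'0 (by linarith) hO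
      (by push_cast; linarith) (le_trans (mul_le_mul_of_nonneg_right (by
        calc Cs * (1 + Real.log (((m₁ + j : ℕ) : ℝ) / m₀)) ≤ Cs * (3 * (1 + L)) := by
              gcongr
              linarith
          _ = 3 * Cs * (1 + L) := by ring
          _ ≤ C * (1 + L) := by
              gcongr
              linarith) hK0.le) hK2)
    have e3 : 1 / 2 ≤ (1 - l') ^ (m₁ - m₀) := by
      have f1 := one_add_mul_le_pow (a := -l') (by linarith) (m₁ - m₀)
      have f2 : ((m₁ - m₀ : ℕ) : ℝ) ≤ m₁ := by exact_mod_cast Nat.sub_le _ _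
      rw [← sub_eq_add_neg] at f1
      nlinarith only [f1, f2, hlm2, hl'0]
    push_cast at e2
    calc γ / (2 * Cs) * ((1 - l') ^ j / ((m₁ : ℝ) + j))
        = l * (1 / 2 * (1 - l') ^ j) * (γ / (Cs * (l * ((m₁ : ℝ) + j)))) := by field_simp
      _ ≤ l * ((1 - l') ^ (m₁ - m₀) * (1 - l') ^ j) * Gr d ρ (q0 d - K) l l' (m₁ + j) := by
          gcongr
      _ = _ := by rw [pow_add]
  have hsum := Finset.sum_le_sum hterm
  rw [← Finset.mul_sum] at hsum
  have hm₁1 : 1 ≤ m₁ := by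
    have : (1 : ℝ) ≤ m₁ := by nlinarith only [hm₁a, hZ3, hm01]
    exact_mod_cast this
  have hlg := sum_log_ge hl'0 (by linarith) hm₁1 (N := N) (Nat.le_ceil _)
  have hlg2 : 9 / 10 * L ≤ Real.log (1 / (l' * m₁)) := by
    have hp : 0 < l' * m₁ := mul_pos hl'0 (by exact_mod_cast hm₁1)
    have := Real.log_le_log hp hlm
    rw [Real.log_exp] at this
    rw [one_div, Real.log_inv]
    linarith
  have hren := ren_low (ρ := ρ) (by omega) hmean (show 1 ≤ q0 d - K by linarith) hl'0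
    (show l' < l by linarith) l1 hO m₀ (m₁ - m₀ + N)
  rw [Finset.sum_range_add] at hren
  have hpos : 0 ≤ ∑ i ∈ Finset.range (m₁ - m₀), l * (1 - l') ^ i * Gr d ρ (q0 d - K) l l' (m₀ + i) :=
    Finset.sum_nonneg fun i _ => mul_nonneg (by positivity) ENNReal.toReal_nonneg
  have hfac : (1 / 2 : ℝ) ^ 2 ≤ (1 - l' / l) ^ 2 := by
    have : l' / l ≤ 1 / 2 := by
      rw [div_le_iff₀ l0]
      linarith
    gcongr
    linarith
  have hlow : γ / (2 * Cs) * (L / 2) ≤ γ / (2 * Cs) *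
      ∑ j ∈ Finset.range N, (1 - l') ^ j / ((m₁ : ℝ) + j) := by
    gcongr
    linarith
  have hfin : (1 / 2 : ℝ) ^ 2 * (γ / (2 * Cs) * (L / 2)) ≤ 2 * Co * K := by
    refine le_trans (mul_le_mul hfac ?_ (by positivity) (by positivity)) (hren.trans hup)
    linarith
  have e : (1 / 2 : ℝ) ^ 2 * (γ / (2 * Cs) * (L / 2)) = γ * L / (16 * Cs) := by field_simp; ring
  rw [e, div_le_iff₀ (by positivity)] at hfin
  have f1 : 33 * (Cs * Co) * K ≤ C * K := by
    gcongr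
    linarith
  have f2 : 0 < Cs * Co * K := by positivity
  linarith only [f1, f2, hfin, hK1]

end Pool.Agent.Lib.MP_153faa_pr
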