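import Mathlib
import Pool.Agent.Lib.MP_153faa_pr.GSeed
import Pool.Agent.Lib.MP_153faa_pr.GSc

set_option autoImplicit false

open MeasureTheory Filter Topology
open scoped ENNReal NNReal

namespace Pool.Agent.Lib.MP_153faa_pr

variable {d : ℕ}

theorem gflb_pow {ρ : Measure ℝ≥0} [IsProbabilityMeasure ρ] {l a u : ℝ} (h0 : 0 < l) (h1 : l < 1)
    (h : ENNReal.ofReal (Real.exp a) ≤ Yv ρ l (dlt (0 : Site d)) (ENNReal.ofReal (Real.exp u)))
    (r : ℕ) : ENNReal.ofReal (Real.exp ((r + 1 : ℕ) * a)) ≤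
      Yv ρ l (dlt (0 : Site d)) (ENNReal.ofReal (Real.exp ((r + 1 : ℕ) * u))) := by
  induction r with
  | zero => simpa using h
  | succ r ih =>
    have e : ∀ z : ℝ, ENNReal.ofReal (Real.exp ((r + 1 + 1 : ℕ) * z)) =
        ENNReal.ofReal (Real.exp ((r + 1 : ℕ) * z)) * ENNReal.ofReal (Real.exp z) := by
      intro z
      rw [← ENNReal.ofReal_mul (Real.exp_pos _).le, ← Real.exp_add]
      congr 2
      push_cast
      ring
    rw [e, e]
    exact (mul_le_mul' ih h).trans (Yv_mul h0 h1 _ _ _)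

/-- High sites at an arbitrary large level, with a gain in the exponent. -/
theorem gflb_high (hd : 3 ≤ d) {κ M : ℝ} (hκ : 0 < κ) : ∃ C : ℝ, 1 ≤ C ∧
    ∀ (ρ : Measure ℝ≥0) [IsProbabilityMeasure ρ] (l x Λ : ℝ), Ctx d κ M ρ (q0 d - x) l →
      0 < x → x ≤ 1 → l ≤ C⁻¹ → OO d ρ (q0 d - x) l = ⊤ → 0 < Λ → ∃ V : ℝ, Λ ≤ V ∧
        V ≤ Λ + 4 * C / x ∧ ENNReal.ofReal (Real.exp (-((q0 d - x / 2) * V))) ≤
          Yv ρ l (dlt (0 : Site d)) (ENNReal.ofReal (Real.exp V)) := by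
  obtain ⟨C, hC, H⟩ := surv_top (M := M) hd hκ
  refine ⟨C, hC, fun ρ _ l x Λ hc hx hx1 hl hO hΛ => ?_⟩
  have hy : C ≤ 2 * C / x := by
    rw [le_div_iff₀ hx]
    nlinarith
  obtain ⟨u, hu1, hu2, hu⟩ := H ρ _ l hc hl (2 * C / x) hy (by rw [hO]; exact le_top)
  have hu0 : 0 < u := by linarith
  have hxu : 2 * C ≤ u * x := (div_le_iff₀ hx).1 hu1
  have h1 : Real.exp (-((q0 d - x / 2) * u)) ≤ C⁻¹ * Real.exp (-((q0 d - x) * u)) := by
    have hC0 : 0 < C := by linarith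
    rw [← Real.exp_log (inv_pos.2 hC0), ← Real.exp_add, Real.log_inv]
    refine Real.exp_le_exp.2 ?_
    have := Real.log_le_sub_one_of_pos hC0
    nlinarith
  have hr : 1 ≤ ⌈Λ / u⌉₊ := Nat.ceil_pos.2 (div_pos hΛ hu0)
  obtain ⟨r, hr'⟩ : ∃ r, ⌈Λ / u⌉₊ = r + 1 := ⟨⌈Λ / u⌉₊ - 1, by omega⟩
  have h2 := gflb_pow hc.l0 hc.l1 ((ENNReal.ofReal_le_ofReal h1).trans hu) r
  have h3 : Λ / u ≤ (r + 1 : ℕ) := hr' ▸ Nat.le_ceil _
  have h4 : ((r + 1 : ℕ) : ℝ) < Λ / u + 1 := hr' ▸ Nat.ceil_lt_add_one (div_pos hΛ hu0).le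
  refine ⟨(r + 1 : ℕ) * u, (div_le_iff₀ hu0).1 h3, ?_, ?_⟩
  · have h5 : ((r + 1 : ℕ) : ℝ) * u ≤ (Λ / u + 1) * u := mul_le_mul_of_nonneg_right h4.le hu0.le
    have h6 : (Λ / u + 1) * u = Λ + u := by field_simp
    have h7 : 4 * C / x = 2 * (2 * C / x) := by ring
    linarith
  · have e : -((q0 d - x / 2) * ((r + 1 : ℕ) * u)) = (r + 1 : ℕ) * -((q0 d - x / 2) * u) := by ring
    rw [e]
    exact h2

/-- A uniform lower bound for the creation rate on a dyadic range of ages is small. -/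
theorem gflb_ren (hd : 1 ≤ d) {ρ : Measure ℝ≥0} [IsProbabilityMeasure ρ] (hm : Mean1 ρ)
    {p l W g : ℝ} (hp : 1 ≤ p) (h0 : 0 < l) (h1 : l < 1) (hW : 4 ≤ W) (hl : 2 ≤ l * W)
    (hO : OO d ρ p W⁻¹ ≠ ⊤) (hg : 0 ≤ g)
    (hG : ∀ m : ℕ, W / 2 ≤ m → (m : ℝ) ≤ W → g ≤ Gr d ρ p l W⁻¹ m) : l * W * g ≤ 32 := by
  have hW0 : 0 < W := by linarith
  have hi : 0 < W⁻¹ := inv_pos.2 hW0
  have hq : W⁻¹ / l ≤ 1 / 2 := by
    rw [div_le_iff₀ h0, inv_le_iff_one_le_mul₀ hW0]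
    linarith
  have hq' : W⁻¹ ≤ l / 2 := by
    have := (div_le_iff₀ h0).1 hq
    linarith
  have hlt : W⁻¹ < l := by linarith
  have hA := ren_low hd hm hp hi hlt h1 hO ⌈W / 2⌉₊ ⌊W / 2⌋₊
  have hK := (Kr_add_Ar hd hm hp hi (hlt.trans h1) hO ⌈W / 2⌉₊).2.1
  have hK0 : 0 ≤ Kr d ρ p W⁻¹ := ENNReal.toReal_nonneg
  have hN1 : (⌊W / 2⌋₊ : ℝ) ≤ W / 2 := Nat.floor_le (by linarith)
  have hN2 : W / 2 < ⌊W / 2⌋₊ + 1 := Nat.lt_floor_add_one _
  have hM1 : W / 2 ≤ ⌈W / 2⌉₊ := Nat.le_ceil _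
  have hM2 : (⌈W / 2⌉₊ : ℝ) < W / 2 + 1 := Nat.ceil_lt_add_one (by linarith)
  have hs : ∑ _i ∈ Finset.range ⌊W / 2⌋₊, l * (1 / 2) * g ≤
      ∑ i ∈ Finset.range ⌊W / 2⌋₊, l * (1 - W⁻¹) ^ i * Gr d ρ p l W⁻¹ (⌈W / 2⌉₊ + i) := by
    refine Finset.sum_le_sum fun i hi' => ?_
    have hi1 : (i : ℝ) + 1 ≤ ⌊W / 2⌋₊ := by exact_mod_cast Finset.mem_range.1 hi'
    have hi0 : (0 : ℝ) ≤ i := Nat.cast_nonneg i
    have hb : 1 + (i : ℝ) * (-W⁻¹) ≤ (1 + -W⁻¹) ^ i := one_add_mul_le_pow (by linarith) i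
    have hiw : (i : ℝ) * W⁻¹ ≤ 1 / 2 := by
      rw [← div_eq_mul_inv, div_le_iff₀ hW0]
      linarith
    have hb' : 1 / 2 ≤ (1 - W⁻¹) ^ i := by
      rw [sub_eq_add_neg]
      linarith
    refine mul_le_mul (mul_le_mul_of_nonneg_left hb' h0.le) (hG _ ?_ ?_) hg
      (mul_nonneg h0.le (by linarith))
    · push_cast
      linarith
    · push_cast
      linarith
  rw [Finset.sum_const, Finset.card_range, nsmul_eq_mul] at hs
  have h4 : (1 / 4 : ℝ) ≤ (1 - W⁻¹ / l) ^ 2 := by nlinarith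
  have h5 : 0 ≤ l * (1 / 2) * g := by positivity
  have h6 : W / 4 * (l * (1 / 2) * g) ≤ ⌊W / 2⌋₊ * (l * (1 / 2) * g) :=
    mul_le_mul_of_nonneg_right (by linarith) h5
  have h7 : 0 ≤ W / 4 * (l * (1 / 2) * g) := by positivity
  have h8 := mul_le_mul h4 (h6.trans hs) h7 (sq_nonneg _)
  nlinarith

/-- From an infinite lower moment to decay on a controlled scale. -/
theorem fl_b (hd : 3 ≤ d) {κ M : ℝ} (hκ : 0 < κ) (s₀ : ℝ) (hs₀ : 0 < s₀) : ∃ C : ℝ, 1 ≤ C ∧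
    ∀ (ρ : Measure ℝ≥0) [IsProbabilityMeasure ρ] (l x δ : ℝ) (m : ℕ), Ctx d κ M ρ (q0 d - x) l →
      0 < x → l ≤ C⁻¹ → OO d ρ (q0 d - x) l = ⊤ → 1 ≤ l * m → l * m ≤ 2 → 0 < δ → δ ≤ 1 →
      ENNReal.ofReal δ ≤ Yv ρ l (phi d m) (ENNReal.ofReal s₀) →
        Dec d ρ (Real.exp (C * (Real.log (1 / l) + (1 - Real.log δ) / x))) := by
  obtain ⟨Ct, hCt, Ht⟩ := gflb_high (M := M) hd hκ
  obtain ⟨Cs, hCs, Hs⟩ := seed_gr (M := M) hd hκ s₀ hs₀
  obtain ⟨Cd, hCd, Hd⟩ := sc_dec (M := M) hd hκ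
  have hd3 : (3 : ℝ) ≤ d := by exact_mod_cast hd
  have hd0 : (0 : ℝ) < d := by linarith
  obtain ⟨C6, hC6⟩ : ∃ C6 : ℝ, C6 = 2 * (3 * Cs + d + 32) := ⟨_, rfl⟩
  obtain ⟨B, hB⟩ : ∃ B : ℝ, B = 1 + 2 * d + C6 + 4 * Ct := ⟨_, rfl⟩
  have hB1 : 1 ≤ B := by linarith
  have hBt : Ct ≤ B := by linarith
  have hE : 1 ≤ 2 * d * Cd := by nlinarith
  have hE' : Cd ≤ 2 * d * Cd := by nlinarith
  have hC1 : B ≤ 2 * d * Cd * B := by nlinarith
  have hC2 : 2 * d * Cd ≤ 2 * d * Cd * B := by nlinarith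
  refine ⟨2 * d * Cd * B, by linarith, fun ρ _ l x δ m hc hx hl hO hm1 hm2 hδ0 hδ1 hY => ?_⟩
  have hl0 := hc.l0
  have hl1 := hc.l1
  have hlt : l ≤ Ct⁻¹ := hl.trans (inv_anti₀ (by linarith) (by linarith))
  have hld : l ≤ Cd⁻¹ := hl.trans (inv_anti₀ (by linarith) (by linarith))
  have hxd : x ≤ 1 / d := by
    have h := hc.p1
    have e : (2 : ℝ) / d = 1 / d + 1 / d := by ring
    unfold q0 at h
    linarith
  have hxd' : x * d ≤ 1 := (le_div_iff₀ hd0).1 hxd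
  have hx1 : x ≤ 1 := by nlinarith only [hxd', hd3, hx]
  obtain ⟨t, ht⟩ : ∃ t : ℝ, t = 1 - Real.log δ := ⟨_, rfl⟩
  have ht1 : 1 ≤ t := by
    have := Real.log_nonpos hδ0.le hδ1
    linarith
  have hC60 : 0 < C6 := by linarith
  obtain ⟨V, hV1, hV2, hV⟩ := Ht ρ l x (C6 * t / x) hc hx hx1 hlt hO (by positivity)
  have hVx : C6 * t ≤ V * x := (div_le_iff₀ hx).1 hV1
  have hV0 : 0 < V := lt_of_lt_of_le (by positivity) hV1
  have hVd : C6 * t * d ≤ V := by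
    have h1 := mul_le_mul_of_nonneg_right hVx hd0.le
    have h2 := mul_le_mul_of_nonneg_left hxd' hV0.le
    linarith [mul_assoc V x d]
  have hls0 : 0 ≤ Real.log Cs := Real.log_nonneg hCs
  have hls1 : Real.log Cs ≤ Cs := by
    have := Real.log_le_sub_one_of_pos (by linarith : 0 < Cs)
    linarith
  obtain ⟨a, ha⟩ : ∃ a : ℝ, a = 2 / d * (V - Real.log Cs) := ⟨_, rfl⟩
  have had : a * d = 2 * (V - Real.log Cs) := by
    rw [ha]
    field_simp
  have ha1 : 2 * C6 * t - Cs ≤ a := by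
    refine le_of_mul_le_mul_right ?_ hd0
    nlinarith only [had, hVd, hls1, hCs, hd3]
  have ha2 : a ≤ V := by
    refine le_of_mul_le_mul_right ?_ hd0
    nlinarith only [had, hls0, hV0, hd3]
  have hea : a + 1 ≤ Real.exp a := Real.add_one_le_exp a
  have hea1 : 2 * (Cs * t) ≤ Real.exp a := by
    nlinarith only [hea, ha1, hC6, ht1, hCs, hd3]
  have hea2 : 4 ≤ Real.exp a := by nlinarith only [hea, ha1, hC6, ht1, hCs, hd3]
  have hm0 : 1 ≤ m := by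
    rcases Nat.eq_zero_or_pos m with h | h
    · rw [h, Nat.cast_zero, mul_zero] at hm1
      linarith
    · exact h
  have hmr : (1 : ℝ) ≤ m := by exact_mod_cast hm0
  have hmp : (0 : ℝ) < m := by linarith
  obtain ⟨W, hW⟩ : ∃ W : ℝ, W = m * Real.exp a := ⟨_, rfl⟩
  have hW4 : 4 ≤ W := by nlinarith only [hW, hmr, hea2]
  have hW0 : 0 < W := by linarith
  have hlW : Real.exp a ≤ l * W := by
    rw [hW, ← mul_assoc]
    exact le_mul_of_one_le_left (Real.exp_pos a).le hm1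
  have hWl : W⁻¹ < l := by
    rw [inv_lt_iff_one_lt_mul₀ hW0]
    linarith
  have hx' : (0 : ℝ) < 1 / (2 * d) := by positivity
  have hp1 : 1 + 1 / (d : ℝ) ≤ q0 d - 1 / (2 * d) := by
    unfold q0
    have e : (2 : ℝ) / d = 1 / d + 1 / (2 * d) + 1 / (2 * d) := by
      field_simp
      ring
    linarith
  have hp0 : 1 ≤ q0 d - 1 / (2 * d) := by
    have : (0 : ℝ) < 1 / d := by positivity
    linarith
  have htop : OO d ρ (q0 d - 1 / (2 * d)) W⁻¹ = ⊤ := by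
    by_contra hne
    have hc' : Ctx d κ M ρ (q0 d - 1 / (2 * d)) l := ⟨hc.good, hp1, by linarith, hl0, hl1⟩
    have key := gflb_ren (g := Cs⁻¹ * δ * Real.exp (-((q0 d - x / 2) * V)) *
      Real.exp ((a - 1) * (d / 2))) (by omega) hc.good.1 hp0 hl0 hl1 hW4 (by linarith) hne
      (by positivity) fun m' h1 h2 => by
        have h3 : (m' : ℝ) / m ≤ Real.exp a := by
          rw [div_le_iff₀ hmp]
          linarith
        have h4 : Real.exp (a - 1) ≤ (m' : ℝ) / m := by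
          rw [le_div_iff₀ hmp, Real.exp_sub, div_mul_eq_mul_div, div_le_iff₀ (Real.exp_pos 1)]
          have h5 : (1 : ℝ) + 1 ≤ Real.exp 1 := Real.add_one_le_exp 1
          have h6 : (0 : ℝ) ≤ m' := Nat.cast_nonneg _
          nlinarith only [h5, h6, h1, hW]
        refine le_trans ?_ (Hs ρ _ l W⁻¹ δ (Real.exp V) _ m m' hc' (inv_pos.2 hW0) hWl hne hm0 hδ0
          hδ1 hY ?_ ?_ (Real.exp_pos _).le hV)
        · refine mul_le_mul_of_nonneg_left ?_ (by positivity)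
          rw [Real.exp_mul]
          exact Real.rpow_le_rpow (Real.exp_pos _).le h4 (by positivity)
        · rw [← ht]
          nlinarith only [hea1, h1, hW, hmp]
        · have h5 : ((m' : ℝ) / m) ^ ((d : ℝ) / 2) ≤ Real.exp a ^ ((d : ℝ) / 2) :=
            Real.rpow_le_rpow (by positivity) h3 (by positivity)
          have h6 : Cs * Real.exp a ^ ((d : ℝ) / 2) = Real.exp V := by
            rw [← Real.exp_mul]
            nth_rewrite 1 [← Real.exp_log (by linarith : 0 < Cs)]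
            rw [← Real.exp_add]
            congr 1
            linarith
          rw [← h6]
          exact mul_le_mul_of_nonneg_left h5 (by linarith)
    have e1 : Real.exp a * (Cs⁻¹ * δ * Real.exp (-((q0 d - x / 2) * V)) *
        Real.exp ((a - 1) * (d / 2))) = Real.exp (a + (-Real.log Cs + Real.log δ +
          -((q0 d - x / 2) * V) + (a - 1) * (d / 2))) := by
      rw [Real.exp_add, Real.exp_add, Real.exp_add, Real.exp_add, Real.exp_log hδ0, Real.exp_neg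
        (Real.log Cs), Real.exp_log (by linarith)]
    have e2 : a + (-Real.log Cs + Real.log δ + -((q0 d - x / 2) * V) + (a - 1) * (d / 2)) =
        -(2 / d * Real.log Cs) - 2 * Real.log Cs + Real.log δ + V * x / 2 - d / 2 := by
      rw [ha]
      unfold q0
      field_simp
      ring
    have e3 : 2 / d * Real.log Cs ≤ Real.log Cs := by
      refine mul_le_of_le_one_left hls0 ?_
      rw [div_le_one hd0]
      linarith
    have e4 : 32 ≤ -(2 / d * Real.log Cs) - 2 * Real.log Cs + Real.log δ + V * x / 2 - d / 2 := by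
      have h1 : Real.log δ = 1 - t := by linarith
      have h2 : C6 + 2 * (t - 1) ≤ C6 * t := by nlinarith only [hC6, ht1, hCs, hd3]
      linarith
    have e5 := Real.add_one_le_exp (-(2 / d * Real.log Cs) - 2 * Real.log Cs + Real.log δ +
      V * x / 2 - d / 2)
    have e6 := mul_le_mul_of_nonneg_right hlW (by positivity :
      0 ≤ Cs⁻¹ * δ * Real.exp (-((q0 d - x / 2) * V)) * Real.exp ((a - 1) * (d / 2)))
    rw [e1, e2] at e6
    linarith
  have hc'' : Ctx d κ M ρ (q0 d - 1 / (2 * d)) W⁻¹ :=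
    ⟨hc.good, hp1, by linarith, inv_pos.2 hW0, hWl.trans hl1⟩
  refine (Hd ρ W⁻¹ (1 / (2 * d)) hc'' hx' (hWl.le.trans hld) (by rw [htop]; exact le_top)).mono
    (Real.exp_le_exp.2 ?_)
  have hL0 : 0 ≤ Real.log (1 / l) := Real.log_nonneg (by rw [le_div_iff₀ hl0]; linarith)
  have hlogm : Real.log m ≤ 1 + Real.log (1 / l) := by
    have h1 : (m : ℝ) ≤ 2 * (1 / l) := by
      rw [mul_one_div, le_div_iff₀ hl0]
      linarith
    have h2 := Real.log_le_log hmp h1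
    rw [Real.log_mul two_ne_zero (by positivity)] at h2
    have h3 := Real.log_le_sub_one_of_pos (two_pos : (0 : ℝ) < 2)
    linarith
  have hlogW : Real.log (1 / W⁻¹) = Real.log m + a := by
    rw [one_div, inv_inv, hW, Real.log_mul hmp.ne' (Real.exp_pos a).ne', Real.log_exp]
  have e1 : Cd * (Real.log (1 / W⁻¹) + 1 / (1 / (2 * d))) / (1 / (2 * d)) =
      2 * d * Cd * (Real.log m + a + 2 * d) := by
    rw [hlogW]
    field_simp
  rw [e1, ← ht, mul_assoc (2 * d * Cd) B]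
  refine mul_le_mul_of_nonneg_left ?_ (by linarith)
  have htx : 1 ≤ t / x := by
    rw [le_div_iff₀ hx]
    linarith
  have h1 : C6 * t / x = C6 * (t / x) := by ring
  have h2 : 4 * Ct / x ≤ 4 * Ct * (t / x) := by
    rw [← mul_div_assoc]
    exact div_le_div_of_nonneg_right (by nlinarith only [hCt, ht1]) hx.le
  have h3 : 1 + 2 * (d : ℝ) ≤ (1 + 2 * d) * (t / x) := le_mul_of_one_le_right (by linarith) htx
  have h4 : Real.log (1 / l) ≤ B * Real.log (1 / l) := le_mul_of_one_le_left hL0 hB1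
  have h5 : B * (t / x) = (1 + 2 * d) * (t / x) + C6 * (t / x) + 4 * Ct * (t / x) := by
    rw [hB]
    ring
  rw [mul_add]
  linarith

end Pool.Agent.Lib.MP_153faa_pr
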