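import Mathlib
import Pool.Agent.Lib.MP_153faa_pr.GFLa
import Pool.Agent.Lib.MP_153faa_pr.GFLb

set_option autoImplicit false

open MeasureTheory Filter Topology
open scoped ENNReal NNReal

namespace Pool.Agent.Lib.MP_153faa_pr

variable {d : ℕ}

/-- A summation of the renewal lower bound. -/
theorem gfl_sum {l l' γ C A : ℝ} {m : ℕ} {G : ℕ → ℝ} (h0 : 0 < l') (h1 : l' ≤ l / 2)
    (h4 : l' ≤ 1 / 4) (hγ : 0 < γ) (hC : 1 ≤ C) (hm0 : 0 < m) (hm : l' * m ≤ 2)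
    (hG : ∀ n : ℕ, m ≤ n → l' * n ≤ 3 → γ / (C * (l * n)) ≤ G n)
    (hA : ∀ N : ℕ, (1 - l' / l) ^ 2 * ∑ i ∈ Finset.range N, l * (1 - l') ^ i * G (m + i) ≤ A) :
    γ / (96 * C) ≤ A := by
  have hl : 0 < l := by linarith
  set N := ⌈1 / (4 * l')⌉₊ with hN
  have hN1 : 1 / 4 ≤ l' * N := by
    have := Nat.le_ceil (1 / (4 * l'))
    rw [← hN, div_le_iff₀ (by positivity)] at this
    linarith
  have hN2 : l' * N ≤ 1 / 2 := by
    have := (Nat.ceil_lt_add_one (by positivity : 0 ≤ 1 / (4 * l'))).le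
    rw [← hN] at this
    have e : l' * (1 / (4 * l')) = 1 / 4 := by field_simp
    nlinarith
  have hs : ∀ i ∈ Finset.range N, γ * l' / (6 * C) ≤ l * (1 - l') ^ i * G (m + i) := by
    intro i hi
    have hi' : (i : ℝ) ≤ N := by exact_mod_cast (Finset.mem_range.1 hi).le
    have h2 : l' * i ≤ 1 / 2 := (mul_le_mul_of_nonneg_left hi' h0.le).trans hN2
    have h3 : l' * ((m + i : ℕ) : ℝ) ≤ 3 := by
      push_cast
      linarith
    have h5 := hG (m + i) (Nat.le_add_right _ _) h3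
    have h6 : (1 : ℝ) / 2 ≤ (1 - l') ^ i := by
      have := one_add_mul_le_pow (a := -l') (by linarith) i
      rw [← sub_eq_add_neg] at this
      linarith
    have h7 : (0 : ℝ) < ((m + i : ℕ) : ℝ) := by exact_mod_cast Nat.add_pos_left hm0 i
    calc γ * l' / (6 * C) ≤ l * (1 / 2) * (γ / (C * (l * ((m + i : ℕ) : ℝ)))) := by
          rw [show l * (1 / 2) * (γ / (C * (l * ((m + i : ℕ) : ℝ)))) =
            γ / (2 * C * ((m + i : ℕ) : ℝ)) by field_simp,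
            div_le_div_iff₀ (by positivity) (by positivity)]
          have := mul_le_mul_of_nonneg_left h3 (by positivity : 0 ≤ 2 * γ * C)
          linarith
      _ ≤ _ := by gcongr
  have h8 := Finset.card_nsmul_le_sum _ _ _ hs
  rw [Finset.card_range, nsmul_eq_mul] at h8
  have h9 : γ / (24 * C) ≤ N * (γ * l' / (6 * C)) := by
    rw [show N * (γ * l' / (6 * C)) = γ * (l' * N) / (6 * C) by ring,
      div_le_div_iff₀ (by positivity) (by positivity)]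
    have := mul_le_mul_of_nonneg_left hN1 (by positivity : 0 ≤ 24 * γ * C)
    linarith
  have h10 : (1 : ℝ) / 4 ≤ (1 - l' / l) ^ 2 := by
    have : l' / l ≤ 1 / 2 := by
      rw [div_le_iff₀ hl]
      linarith
    nlinarith
  refine le_trans ?_ (hA N)
  calc γ / (96 * C) = 1 / 4 * (γ / (24 * C)) := by field_simp; norm_num
    _ ≤ _ := mul_le_mul h10 (h9.trans h8) (by positivity) (by positivity)

theorem gfl_Kr_pos {ρ : Measure ℝ≥0} [IsProbabilityMeasure ρ] {p l : ℝ} (hd : 1 ≤ d)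
    (hm : Mean1 ρ) (hp : 1 ≤ p) (h0 : 0 < l) (h1 : l < 1) (hO : OO d ρ p l ≠ ⊤) :
    0 < Kr d ρ p l :=
  ENNReal.toReal_pos (ENNReal.inv_ne_zero.2 hO) (gren_KK_ne_top hd hm hp h0 h1)

theorem gfl_OO_le {ρ : Measure ℝ≥0} [IsProbabilityMeasure ρ] {p l Z : ℝ} (hd : 1 ≤ d)
    (hm : Mean1 ρ) (hp : 1 ≤ p) (h0 : 0 < l) (h1 : l < 1) (hZ : 0 < Z) (h : Z⁻¹ ≤ Kr d ρ p l) :
    OO d ρ p l ≤ ENNReal.ofReal Z := by
  have h2 := ENNReal.ofReal_le_ofReal h
  rwa [ofReal_Kr hd hm hp h0 h1, ENNReal.ofReal_inv_of_pos hZ, KK, ENNReal.inv_le_inv] at h2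

/-- A creation rate above the critical relation forces decay. -/
theorem fl (hd : 3 ≤ d) {κ M : ℝ} (hκ : 0 < κ) : ∃ (a : ℕ) (C : ℝ), 1 ≤ C ∧
    ∀ (ρ : Measure ℝ≥0) [IsProbabilityMeasure ρ] (l Z γ : ℝ) (m₀ : ℕ), Ctx d κ M ρ (q0 d) l →
      l ≤ C⁻¹ → C ≤ Z → Sc d ρ (q0 d) l Z → Z ^ a / l ≤ m₀ → l * m₀ ≤ l ^ (-(1 / 16) : ℝ) →
      Z⁻¹ ≤ γ → γ ≤ 1 → γ ≤ l * m₀ * Ar d ρ (q0 d) l m₀ → C * Kr d ρ (q0 d) l ^ 2 ≤ γ →
      C * Kr d ρ (q0 d) l * Real.log Z ≤ 1 →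
        Dec d ρ (Real.exp (C * (Real.log (1 / l) + (1 - Real.log γ) / Kr d ρ (q0 d) l))) := by
  obtain ⟨a, CA, ha, hCA, HA⟩ := fl_a (M := M) hd hκ
  obtain ⟨CQ, hCQ, HQ⟩ := seed_q0 (M := M) hd hκ
  obtain ⟨CY, hCY, HY⟩ := seed_Yv (M := M) hd hκ
  obtain ⟨CB, hCB, HB⟩ := fl_b (M := M) hd hκ CY⁻¹ (by positivity)
  obtain ⟨CS, hCS, HS⟩ := sc_dec (M := M) hd hκ
  set D := 192 * CQ * CY with hD
  have hD1 : 1 ≤ D := by nlinarith [mul_le_mul hCQ hCY zero_le_one (by linarith)]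
  obtain ⟨C, c1, c2, c3, c4, c5, c6, c7, c8, c9, c10, c11, c12⟩ : ∃ C : ℝ, 4 ≤ C ∧ (d : ℝ) ≤ C ∧
      CA * (21 + CA) ≤ C ∧ 3 * CQ * (21 + CA) ≤ C ∧ CS * (2 * d) * (2 + 2 * d) ≤ C ∧ D ≤ C ∧
      CB * (2 + D) ≤ C ∧ CS ≤ C ∧ CY ≤ C ∧ CB ≤ C ∧ CA ≤ C ∧ CQ ≤ C :=
    ((eventually_ge_atTop _).and ((eventually_ge_atTop _).and ((eventually_ge_atTop _).and
      ((eventually_ge_atTop _).and ((eventually_ge_atTop _).and ((eventually_ge_atTop _).and
      ((eventually_ge_atTop _).and ((eventually_ge_atTop _).and ((eventually_ge_atTop _).and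
      ((eventually_ge_atTop _).and ((eventually_ge_atTop _).and
      (eventually_ge_atTop _)))))))))))).exists
  refine ⟨a, C, by linarith, fun ρ _ l Z γ m₀ hc hl hZ hSc hm hm' hγ hγ1 hAr hK2 hKZ => ?_⟩
  have hd1 : 1 ≤ d := by omega
  have hdR : (3 : ℝ) ≤ d := by exact_mod_cast hd
  have hmean := hc.good.1
  have hl0 := hc.l0
  have hdi : (0 : ℝ) < 1 / d := by positivity
  have hq1 : 1 ≤ q0 d := by linarith [hc.p1]
  have hC0 : 0 < C := by linarith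
  have hZ0 : 0 < Z := by linarith
  have hγ0 : 0 < γ := (inv_pos.2 hZ0).trans_le hγ
  have inv_le : ∀ c : ℝ, 1 ≤ c → c ≤ C → l ≤ c⁻¹ := fun c h1 h2 =>
    hl.trans (inv_anti₀ (by linarith) h2)
  have hK0 := gfl_Kr_pos hd1 hmean hq1 hc.l0 hc.l1 (ne_top_of_le_ne_top ENNReal.ofReal_ne_top hSc.1)
  set K := Kr d ρ (q0 d) l with hK
  have hlogZ : 1 ≤ Real.log Z := by
    rw [Real.le_log_iff_exp_le hZ0]
    linarith [Real.exp_one_lt_d9]
  have hCK : C * K ≤ 1 := by nlinarith [mul_pos hC0 hK0]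
  set L := max (20 * Real.log Z) (CA * K / γ) with hL
  have hL1 : 20 * Real.log Z ≤ L := le_max_left _ _
  have hL2 : CA * K ≤ γ * L := by
    have := le_max_right (20 * Real.log Z) (CA * K / γ)
    rw [← hL, div_le_iff₀ hγ0] at this
    linarith
  have hL3 : C * ((1 + L) * K) ≤ 21 + CA := by
    have h1 : C * (CA * K / γ * K) ≤ CA := by
      rw [show C * (CA * K / γ * K) = CA * (C * K ^ 2 / γ) by ring]
      exact mul_le_of_le_one_right (by linarith) ((div_le_one hγ0).2 hK2)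
    have h2 : C * (L * K) ≤ 20 + CA := by
      rcases le_total (20 * Real.log Z) (CA * K / γ) with h | h
      · rw [hL, max_eq_right h]
        linarith
      · rw [hL, max_eq_left h]
        linarith
    linarith
  have hLK0 : 0 ≤ (1 + L) * K := mul_nonneg (by linarith) hK0.le
  have small : ∀ c : ℝ, 0 ≤ c → c * (21 + CA) ≤ C → c * ((1 + L) * K) ≤ 1 := fun c h1 h2 => by
    refine le_of_mul_le_mul_left ?_ hC0
    have := mul_le_mul_of_nonneg_left hL3 h1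
    linarith
  have hA1 := small CA (by linarith) c3
  have htop := HA ρ l Z γ L m₀ hc (inv_le _ hCA c11) (by linarith) hSc hm hm' hγ hγ1 hAr hL1 hL2
    (by linarith)
  have hZa : Z ≤ Z ^ a := le_self_pow₀ (by linarith) (by omega)
  have hm1 : Z / l ≤ m₀ := (div_le_div_of_nonneg_right hZa hl0.le).trans hm
  have hm2 : Z ≤ l * m₀ := by
    rw [div_le_iff₀ hl0] at hm1
    linarith
  have hm0 : (0 : ℝ) < m₀ := (div_pos hZ0 hl0).trans_le hm1
  have hm3 : (1 : ℝ) ≤ m₀ := by exact_mod_cast (Nat.cast_pos.1 hm0 : 0 < m₀)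
  set l' := Real.exp (-L) / m₀ with hl'
  have hl'0 : 0 < l' := by positivity
  have heL : Real.exp (-L) ≤ 1 := Real.exp_le_one_iff.2 (by linarith)
  have hl'm : l' * m₀ = Real.exp (-L) := div_mul_cancel₀ _ hm0.ne'
  have hl'1 : l' ≤ l / 2 := by
    refine le_of_mul_le_mul_right ?_ hm0
    rw [hl'm]
    linarith
  have hl4 : l ≤ 1 / 4 := by
    have := inv_le 4 (by norm_num) c1
    linarith
  have hll : l' ≤ l := by linarith
  have hlogl : 0 ≤ Real.log (1 / l) := Real.log_nonneg ((one_le_div hl0).2 hc.l1.le)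
  have hlog : Real.log (1 / l') ≤ 1 / K + 2 * Real.log (1 / l) := by
    have h1 : L ≤ 1 / K := by
      rw [le_div_iff₀ hK0]
      nlinarith
    have h2 := Real.log_le_log (mul_pos hl0 hm0) hm'
    rw [Real.log_mul hl0.ne' hm0.ne', Real.log_rpow hl0] at h2
    rw [one_div, Real.log_inv] at hlogl ⊢
    rw [one_div l, Real.log_inv, hl', Real.log_div (Real.exp_pos _).ne' hm0.ne', Real.log_exp]
    linarith
  have hlg : 0 ≤ -Real.log γ := neg_nonneg.2 (Real.log_nonpos hγ0.le hγ1)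
  have hK1 : 1 ≤ 1 / K := by
    rw [le_div_iff₀ hK0]
    nlinarith
  have hW : 1 / K ≤ (1 - Real.log γ) / K := div_le_div_of_nonneg_right (by linarith) hK0.le
  have e2d : (1 : ℝ) / (2 * d) = 1 / d / 2 := by field_simp
  have eq0 : q0 d = 1 + 2 * (1 / d) := by
    unfold q0
    ring
  have hc' : Ctx d κ M ρ (q0 d - 1 / (2 * d)) l' :=
    ⟨hc.good, by linarith, by linarith, hl'0, by linarith⟩
  by_cases hO : OO d ρ (q0 d - 1 / (2 * d)) l' = ⊤
  · refine (HS ρ l' (1 / (2 * d)) hc' (by positivity) (hll.trans (inv_le _ hCS c8))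
      (hO ▸ le_top)).mono (Real.exp_le_exp.2 ?_)
    rw [one_div_one_div, div_div_eq_mul_div, div_one]
    have h1 : Real.log (1 / l') + 2 * d ≤
        (2 + 2 * d) * (Real.log (1 / l) + (1 - Real.log γ) / K) := by nlinarith
    calc CS * (Real.log (1 / l') + 2 * d) * (2 * d)
        = CS * (2 * d) * (Real.log (1 / l') + 2 * d) := by ring
      _ ≤ CS * (2 * d) * ((2 + 2 * d) * (Real.log (1 / l) + (1 - Real.log γ) / K)) :=
          mul_le_mul_of_nonneg_left h1 (by positivity)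
      _ = CS * (2 * d) * (2 + 2 * d) * (Real.log (1 / l) + (1 - Real.log γ) / K) := by ring
      _ ≤ _ := mul_le_mul_of_nonneg_right c5 (by linarith)
  set m₁ := ⌈1 / l'⌉₊ with hm₁
  have hn1 : 1 ≤ l' * m₁ := by
    have := Nat.le_ceil (1 / l')
    rw [← hm₁, div_le_iff₀ hl'0] at this
    linarith
  have hn2 : l' * m₁ ≤ 2 := by
    have := (Nat.ceil_lt_add_one (by positivity : 0 ≤ 1 / l')).le
    rw [← hm₁] at this
    have e : l' * (1 / l') = 1 := by field_simp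
    nlinarith
  have hZL : Z * Real.exp (-L) ≤ 1 := by
    rw [← Real.exp_log hZ0, ← Real.exp_add]
    exact Real.exp_le_one_iff.2 (by linarith)
  have hAr' : γ / (96 * CQ) ≤ Ar d ρ (q0 d - 1 / (2 * d)) l' m₁ := by
    refine gfl_sum hl'0 hl'1 (by linarith) hγ0 hCQ (Nat.ceil_pos.2 (by positivity)) hn2
      (fun n h1 h2 => ?_) fun N =>
        ren_low hd1 hmean (by linarith [hc'.p1]) hl'0 (by linarith) hc.l1 hO m₁ N
    have h3 : 1 ≤ l' * n := hn1.trans (mul_le_mul_of_nonneg_left (Nat.cast_le.2 h1) hl'0.le)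
    have hn0 : (0 : ℝ) < n := (mul_pos_iff_of_pos_left hl'0).1 (by linarith)
    refine HQ ρ l Z γ _ l' m₀ n hc (inv_le _ hCQ c12) (by linarith) hSc hm1 hm' hγ hγ1 hAr hc'.p1
      hc'.p2 hl'0 (by linarith) hO ?_ ?_
    · refine le_of_mul_le_mul_left ?_ hl'0
      rw [mul_left_comm, hl'm]
      linarith
    · have h4 : Real.log (n / m₀) ≤ L + 2 := by
        rw [Real.log_le_iff_le_exp (by positivity), div_le_iff₀ hm0, Real.exp_add]
        refine le_of_mul_le_mul_left ?_ hl'0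
        rw [mul_left_comm, hl'm, mul_right_comm, ← Real.exp_add, add_neg_cancel, Real.exp_zero]
        linarith [Real.add_one_le_exp 2]
      have h5 := small (3 * CQ) (by linarith) c4
      have h6 : CQ * (1 + Real.log (n / m₀)) * K ≤ CQ * (3 * (1 + L)) * K := by
        gcongr
        linarith
      linarith
  have hδ0 : 0 < γ / D := by positivity
  have h14 : l' ^ (1 / 4 : ℝ) ≤ γ / D := by
    have h1 : l' ≤ Real.exp (-L) := div_le_self (Real.exp_pos _).le hm3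
    calc l' ^ (1 / 4 : ℝ) ≤ Real.exp (-L) ^ (1 / 4 : ℝ) :=
          Real.rpow_le_rpow hl'0.le h1 (by norm_num)
      _ ≤ Real.exp (-Real.log Z + -Real.log Z) := by
          rw [← Real.exp_mul]
          exact Real.exp_le_exp.2 (by linarith)
      _ = Z⁻¹ / Z := by rw [Real.exp_add, Real.exp_neg, Real.exp_log hZ0, div_eq_mul_inv]
      _ ≤ γ / D := div_le_div₀ hγ0.le hγ (by linarith) (by linarith)
  have hδ : γ / D ≤ CY⁻¹ * Ar d ρ (q0 d - 1 / (2 * d)) l' m₁ - l' ^ (1 / 4 : ℝ) := by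
    have h1 := mul_le_mul_of_nonneg_left hAr' (by positivity : 0 ≤ CY⁻¹)
    have e : CY⁻¹ * (γ / (96 * CQ)) = 2 * (γ / D) := by
      rw [hD]
      field_simp
      norm_num
    linarith
  have hKd : K ≤ 1 / d := by
    rw [le_div_iff₀ (by linarith)]
    nlinarith
  refine (HB ρ l' K (γ / D) m₁ ⟨hc.good, by linarith, by linarith, hl'0, by linarith⟩ hK0
    (hll.trans (inv_le _ hCB c10)) htop hn1 hn2 hδ0 ((div_le_one (by linarith)).2 (by linarith))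
    ((ENNReal.ofReal_le_ofReal hδ).trans
      (HY ρ _ l' m₁ hc' (hll.trans (inv_le _ hCY c9))))).mono (Real.exp_le_exp.2 ?_)
  have h1 : (1 - Real.log (γ / D)) / K ≤ (1 + D) * ((1 - Real.log γ) / K) := by
    rw [← mul_div_assoc, Real.log_div hγ0.ne' (by linarith)]
    refine div_le_div_of_nonneg_right ?_ hK0.le
    nlinarith [Real.log_le_sub_one_of_pos (by linarith : 0 < D)]
  calc CB * (Real.log (1 / l') + (1 - Real.log (γ / D)) / K)
      ≤ CB * ((2 + D) * (Real.log (1 / l) + (1 - Real.log γ) / K)) :=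
        mul_le_mul_of_nonneg_left (by nlinarith) (by linarith)
    _ = CB * (2 + D) * (Real.log (1 / l) + (1 - Real.log γ) / K) := by ring
    _ ≤ _ := mul_le_mul_of_nonneg_right c7 (by linarith)

theorem gfl_root {t : ℝ} (ht : 0 ≤ t) (r : ℝ) (n : ℕ) (h : 20 * r = n) : (t ^ 20) ^ r = t ^ n := by
  rw [← Real.rpow_natCast, ← Real.rpow_mul ht, ← Real.rpow_natCast, ← h]
  norm_num

/-- The same in the variables of the flow. -/
theorem fl_flow (hd : 3 ≤ d) {κ M : ℝ} (hκ : 0 < κ) : ∃ (a₀ : ℕ) (C : ℝ), 1 ≤ C ∧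
    ∀ a : ℕ, a₀ ≤ a → ∃ σ₀ : ℝ, 1 ≤ σ₀ ∧
      ∀ (ρ : Measure ℝ≥0) [IsProbabilityMeasure ρ] (σ γ : ℝ), Good d κ M ρ → σ₀ ≤ σ →
        Real.exp (-σ ^ (1 / 5 : ℝ)) ≤ kk d ρ σ → kk d ρ σ ≤ σ ^ (-(1 / 2) : ℝ) → γ ≤ 1 →
        γ ≤ gg d ρ a σ → C * kk d ρ σ ^ 2 ≤ γ →
          Dec d ρ (Real.exp (C * (σ + (1 - Real.log γ) / kk d ρ σ))) := by
  obtain ⟨a₀, C, hC, H⟩ := fl (M := M) hd hκ
  refine ⟨a₀, C, hC, fun a ha => ⟨(16 + C + 16 * a) ^ 20,
    one_le_pow₀ (by linarith [(Nat.cast_nonneg a : (0 : ℝ) ≤ a)]),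
    fun ρ _ σ γ hg hσ hk1 hk2 hγ1 hγ2 hk3 => ?_⟩⟩
  have ha0 : (0 : ℝ) ≤ a := Nat.cast_nonneg a
  have hσ0 : 0 ≤ σ := le_trans (by positivity) hσ
  obtain ⟨t, ht0, rfl⟩ : ∃ t : ℝ, 0 ≤ t ∧ σ = t ^ 20 :=
    ⟨σ ^ ((20 : ℕ) : ℝ)⁻¹, by positivity, (Real.rpow_inv_natCast_pow hσ0 (by norm_num)).symm⟩
  have ht : 16 + C + 16 * a ≤ t := (pow_le_pow_iff_left₀ (by positivity) ht0 (by norm_num)).1 hσ
  have ht1 : 1 ≤ t := by linarith
  have pw : ∀ i j : ℕ, i ≤ j → t ^ i ≤ t ^ j := fun i j h => pow_le_pow_right₀ ht1 h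
  have h15 : t ≤ t ^ 5 := le_self_pow₀ ht1 (by norm_num)
  have h520 := pw 5 20 (by norm_num)
  have e4 := gfl_root ht0 (1 / 4) 5 (by norm_num)
  have e5 := gfl_root ht0 (1 / 5) 4 (by norm_num)
  have e2 := gfl_root ht0 (1 / 2) 10 (by norm_num)
  rw [e5] at hk1
  rw [Real.rpow_neg hσ0, e2] at hk2
  have hdR : (3 : ℝ) ≤ d := by exact_mod_cast hd
  have hc : Ctx d κ M ρ (q0 d) (Real.exp (-t ^ 20)) := by
    refine ⟨hg, ?_, le_rfl, Real.exp_pos _, Real.exp_lt_one_iff.2 (by linarith)⟩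
    unfold q0
    gcongr
    norm_num
  have hq1 : 1 ≤ q0 d := by
    have : (0 : ℝ) ≤ 1 / d := by positivity
    linarith [hc.p1]
  have h45 : 2 * t ^ 4 ≤ t ^ 5 := by
    rw [pow_succ t 4]
    nlinarith [pow_nonneg ht0 4]
  have hk0 : 0 ≤ kk d ρ (t ^ 20) := (Real.exp_pos _).le.trans hk1
  have key := H ρ (Real.exp (-t ^ 20)) (Real.exp (t ^ 5)) γ ⌈Real.exp (t ^ 20 + a * t ^ 5)⌉₊ hc
    ?_ ?_ ⟨?_, ?_⟩ ?_ ?_ ?_ hγ1 ?_ hk3 ?_
  · rwa [one_div, Real.log_inv, Real.log_exp, neg_neg] at key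
  · rw [Real.exp_neg]
    exact inv_anti₀ (by linarith) (by linarith [Real.add_one_le_exp (t ^ 20)])
  · linarith [Real.add_one_le_exp (t ^ 5)]
  · refine gfl_OO_le (by omega) hg.1 hq1 hc.l0 hc.l1 (Real.exp_pos _) (le_trans ?_ hk1)
    rw [← Real.exp_neg]
    exact Real.exp_le_exp.2 (neg_le_neg (pw 4 5 (by norm_num)))
  · rw [Real.log_exp]
    refine le_trans ?_ (Real.pow_div_factorial_le_exp _ (pow_nonneg ht0 5) 9)
    have h1 : (16 : ℝ) ^ 5 ≤ t ^ 5 := pow_le_pow_left₀ (by norm_num) (by linarith) 5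
    rw [le_div_iff₀ (by positivity), show (t ^ 5) ^ 9 = (-t ^ 20) ^ 2 * t ^ 5 by ring]
    refine mul_le_mul_of_nonneg_left (le_trans ?_ h1) (sq_nonneg _)
    norm_num [Nat.factorial]
  · refine le_trans ?_ (Nat.le_ceil _)
    rw [← Real.exp_nat_mul, ← Real.exp_sub]
    have : (a₀ : ℝ) * t ^ 5 ≤ a * t ^ 5 :=
      mul_le_mul_of_nonneg_right (Nat.cast_le.2 ha) (pow_nonneg ht0 5)
    exact Real.exp_le_exp.2 (by linarith)
  · have h1 := (Nat.ceil_lt_add_one (Real.exp_pos (t ^ 20 + a * t ^ 5)).le).le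
    have h2 : 1 ≤ Real.exp (t ^ 20 + a * t ^ 5) := Real.one_le_exp (by positivity)
    have h3 : (2 : ℝ) ≤ Real.exp 1 := by linarith [Real.add_one_le_exp (1 : ℝ)]
    have h4 : (⌈Real.exp (t ^ 20 + a * t ^ 5)⌉₊ : ℝ) ≤
        Real.exp 1 * Real.exp (t ^ 20 + a * t ^ 5) := by nlinarith
    refine (mul_le_mul_of_nonneg_left h4 (Real.exp_pos _).le).trans ?_
    rw [← Real.exp_add, ← Real.exp_add, ← Real.exp_mul]
    refine Real.exp_le_exp.2 ?_
    have h5 : t * t ^ 5 ≤ t ^ 20 := by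
      rw [← pow_succ']
      exact pw 6 20 (by norm_num)
    have h6 : (16 + 16 * a) * t ^ 5 ≤ t * t ^ 5 :=
      mul_le_mul_of_nonneg_right (by linarith) (pow_nonneg ht0 5)
    linarith
  · refine le_trans ?_ hk3
    have h1 : Real.exp (-t ^ 4) ^ 2 ≤ kk d ρ (t ^ 20) ^ 2 :=
      pow_le_pow_left₀ (Real.exp_pos _).le hk1 2
    have h2 : (Real.exp (t ^ 5))⁻¹ ≤ Real.exp (-t ^ 4) ^ 2 := by
      rw [← Real.exp_neg, ← Real.exp_nat_mul]
      exact Real.exp_le_exp.2 (by push_cast; linarith)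
    nlinarith [sq_nonneg (kk d ρ (t ^ 20))]
  · rwa [gg, e4] at hγ2
  · rw [Real.log_exp]
    have h1 : C * kk d ρ (t ^ 20) * t ^ 5 ≤ t ^ 5 * (t ^ 10)⁻¹ * t ^ 5 := by
      gcongr
      linarith
    refine h1.trans_eq ?_
    field_simp

end Pool.Agent.Lib.MP_153faa_pr
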