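import Mathlib

/-!
Fourier analytic tools for the local limit theorem of simple random walk.
-/

set_option autoImplicit false

open MeasureTheory Filter Topology Real

namespace Pool.Agent.Lib.MP_153faa_pr

variable {d : ℕ}

/-- The Euclidean pairing. -/
noncomputable def ghk2_dot (z θ : Fin d → ℝ) : ℝ := ∑ i, z i * θ i

/-- The squared Euclidean norm. -/
noncomputable def ghk2_sq (θ : Fin d → ℝ) : ℝ := ∑ i, θ i ^ 2

/-- The characteristic function of one step. -/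
noncomputable def ghk2_cf (θ : Fin d → ℝ) : ℝ := (d : ℝ)⁻¹ * ∑ i, cos (θ i)

/-- The fundamental cube. -/
def ghk2_Q (d : ℕ) : Set (Fin d → ℝ) := Set.univ.pi fun _ => Set.Icc (-π) π

theorem ghk2_expo (b : ℝ) (z θ : Fin d → ℝ) :
    -(b : ℂ) * ∑ i, (θ i : ℂ) ^ 2 + ∑ i, (Complex.I * z i) * θ i =
      ((-b * ghk2_sq θ : ℝ) : ℂ) + (ghk2_dot z θ : ℝ) * Complex.I := by
  simp only [ghk2_sq, ghk2_dot]
  push_cast
  rw [Finset.sum_mul]
  congr 1
  exact Finset.sum_congr rfl fun i _ => by ring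

theorem ghk2_re (b : ℝ) (z θ : Fin d → ℝ) :
    (Complex.exp (-(b : ℂ) * ∑ i, (θ i : ℂ) ^ 2 + ∑ i, (Complex.I * z i) * θ i)).re =
      cos (ghk2_dot z θ) * exp (-b * ghk2_sq θ) := by
  rw [ghk2_expo, Complex.exp_add, ← Complex.ofReal_exp, Complex.re_ofReal_mul,
    Complex.exp_ofReal_mul_I_re, mul_comm]

theorem ghk2_gauss_int' {b : ℝ} (hb : 0 < b) (z : Fin d → ℝ) :
    Integrable fun θ : Fin d → ℝ => cos (ghk2_dot z θ) * exp (-b * ghk2_sq θ) := by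
  have h := GaussianFourier.integrable_cexp_neg_mul_sum_add (b := (b : ℂ)) (by simpa using hb)
    (fun i => Complex.I * z i)
  have h2 := h.re
  simp only [RCLike.re_to_complex, ghk2_re] at h2
  exact h2

theorem ghk2_gauss_int {b : ℝ} (hb : 0 < b) :
    Integrable fun θ : Fin d → ℝ => exp (-b * ghk2_sq θ) := by
  have h := ghk2_gauss_int' hb (0 : Fin d → ℝ)
  simpa [ghk2_dot] using h

theorem ghk2_gauss {b : ℝ} (hb : 0 < b) (z : Fin d → ℝ) :
    ∫ θ : Fin d → ℝ, cos (ghk2_dot z θ) * exp (-b * ghk2_sq θ) =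
      (π / b) ^ ((d : ℝ) / 2) * exp (-ghk2_sq z / (4 * b)) := by
  have hi := GaussianFourier.integrable_cexp_neg_mul_sum_add (b := (b : ℂ)) (by simpa using hb)
    (fun i => Complex.I * z i)
  have h := GaussianFourier.integral_cexp_neg_mul_sum_add (b := (b : ℂ)) (by simpa using hb)
    (fun i => Complex.I * z i)
  have h2 := integral_re hi
  simp only [RCLike.re_to_complex, ghk2_re] at h2
  rw [h2, h]
  have e1 : ((π : ℂ) / b) ^ ((Fintype.card (Fin d) : ℂ) / 2) =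
      (((π / b) ^ ((d : ℝ) / 2) : ℝ) : ℂ) := by
    rw [Complex.ofReal_cpow (by positivity)]
    simp
  have e2 : (∑ i, (Complex.I * z i) ^ 2) / (4 * (b : ℂ)) = ((-ghk2_sq z / (4 * b) : ℝ) : ℂ) := by
    simp only [ghk2_sq]
    push_cast
    congr 1
    rw [← Finset.sum_neg_distrib]
    exact Finset.sum_congr rfl fun i _ => by rw [mul_pow, Complex.I_sq]; ring
  rw [e1, e2, ← Complex.ofReal_exp, ← Complex.ofReal_mul, Complex.ofReal_re]

theorem ghk2_one (k : ℤ) : ∫ t in Set.Icc (-π) π, Complex.exp (Complex.I * k * t) =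
    if k = 0 then ((2 * π : ℝ) : ℂ) else 0 := by
  have hp : -π ≤ π := by linarith [pi_pos]
  rw [integral_Icc_eq_integral_Ioc, ← intervalIntegral.integral_of_le hp]
  split_ifs with hk
  · subst hk
    simp
    ring
  · have hc : Complex.I * k ≠ 0 := mul_ne_zero Complex.I_ne_zero (by exact_mod_cast hk)
    rw [integral_exp_mul_complex hc]
    have : Complex.exp (Complex.I * k * (π : ℝ)) = Complex.exp (Complex.I * k * ((-π : ℝ) : ℂ)) := by
      have e : Complex.I * k * (π : ℝ) = Complex.I * k * ((-π : ℝ) : ℂ) + k * (2 * π * Complex.I) := by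
        push_cast; ring
      rw [e, Complex.exp_add, Complex.exp_int_mul_two_pi_mul_I, mul_one]
    rw [this, sub_self, zero_div]

theorem ghk2_measurableSet_Q : MeasurableSet (ghk2_Q d) :=
  MeasurableSet.univ_pi fun _ => measurableSet_Icc

theorem ghk2_isCompact_Q : IsCompact (ghk2_Q d) := isCompact_univ_pi fun _ => isCompact_Icc

theorem ghk2_intOn {f : (Fin d → ℝ) → ℝ} (hf : Continuous f) : IntegrableOn f (ghk2_Q d) :=
  hf.continuousOn.integrableOn_compact ghk2_isCompact_Q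

theorem ghk2_inv0 (x : Fin d → ℤ) :
    ∫ θ in ghk2_Q d, cos (ghk2_dot (fun i => (x i : ℝ)) θ) = if x = 0 then (2 * π) ^ d else 0 := by
  have hc : Continuous fun θ : Fin d → ℝ => ∏ i, Complex.exp (Complex.I * x i * θ i) := by
    fun_prop
  have hi : IntegrableOn (fun θ : Fin d → ℝ => ∏ i, Complex.exp (Complex.I * x i * θ i))
      (ghk2_Q d) := hc.continuousOn.integrableOn_compact ghk2_isCompact_Q
  have h2 := integral_re hi
  have hre : ∀ θ : Fin d → ℝ, (∏ i, Complex.exp (Complex.I * x i * θ i)).re =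
      cos (ghk2_dot (fun i => (x i : ℝ)) θ) := fun θ => by
    rw [← Complex.exp_sum, ← Complex.exp_ofReal_mul_I_re]
    congr 2
    simp only [ghk2_dot]
    push_cast
    rw [Finset.sum_mul]
    exact Finset.sum_congr rfl fun i _ => by ring
  simp only [RCLike.re_to_complex, hre] at h2
  rw [h2]
  have h3 : ∫ θ in ghk2_Q d, ∏ i, Complex.exp (Complex.I * x i * θ i) =
      ∏ i, ∫ t in Set.Icc (-π) π, Complex.exp (Complex.I * x i * t) := by
    unfold ghk2_Q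
    rw [volume_pi, Measure.restrict_pi_pi,
      integral_fintype_prod_eq_prod (f := fun i (t : ℝ) => Complex.exp (Complex.I * x i * t))]
  rw [h3]
  simp only [ghk2_one]
  split_ifs with hx
  · subst hx
    simp only [Pi.zero_apply, if_true, Finset.prod_const, Finset.card_univ, Fintype.card_fin]
    rw [← Complex.ofReal_pow, Complex.ofReal_re]
  · obtain ⟨i, hi⟩ := Function.ne_iff.1 hx
    rw [Finset.prod_eq_zero (Finset.mem_univ i) (if_neg hi), Complex.zero_re]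

theorem ghk2_cont_dot (z : Fin d → ℝ) : Continuous (ghk2_dot z) := by
  unfold ghk2_dot; fun_prop

theorem ghk2_cont_sq : Continuous (ghk2_sq : (Fin d → ℝ) → ℝ) := by
  unfold ghk2_sq; fun_prop

theorem ghk2_cont_cf : Continuous (ghk2_cf : (Fin d → ℝ) → ℝ) := by
  unfold ghk2_cf; fun_prop

theorem ghk2_cf_abs (hd : 1 ≤ d) (θ : Fin d → ℝ) : |ghk2_cf θ| ≤ 1 := by
  have hd' : (0 : ℝ) < d := by exact_mod_cast hd
  unfold ghk2_cf
  rw [abs_mul, abs_of_pos (inv_pos.2 hd'), inv_mul_le_iff₀ hd', mul_one]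
  calc |∑ i, cos (θ i)| ≤ ∑ i, |cos (θ i)| := Finset.abs_sum_le_sum_abs _ _
    _ ≤ ∑ _i : Fin d, (1 : ℝ) := Finset.sum_le_sum fun i _ => abs_cos_le_one _
    _ = d := by simp

theorem ghk2_cf_le (hd : 1 ≤ d) {θ : Fin d → ℝ} (hθ : θ ∈ ghk2_Q d) :
    ghk2_cf θ ≤ 1 - 2 / (π ^ 2 * d) * ghk2_sq θ := by
  have hd' : (0 : ℝ) < d := by exact_mod_cast hd
  unfold ghk2_cf ghk2_sq
  rw [inv_mul_le_iff₀ hd']
  calc ∑ i, cos (θ i) ≤ ∑ i, (1 - 2 / π ^ 2 * θ i ^ 2) := Finset.sum_le_sum fun i _ =>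
        cos_le_one_sub_mul_cos_sq (abs_le.2 (hθ i (Set.mem_univ i)))
    _ = d * (1 - 2 / (π ^ 2 * d) * ∑ i, θ i ^ 2) := by
        rw [Finset.sum_sub_distrib, ← Finset.mul_sum]
        simp only [Finset.sum_const, Finset.card_univ, Fintype.card_fin, nsmul_eq_mul]
        field_simp

theorem ghk2_sq_smul (c : ℝ) (θ : Fin d → ℝ) : ghk2_sq (c • θ) = c ^ 2 * ghk2_sq θ := by
  simp only [ghk2_sq, Pi.smul_apply, smul_eq_mul, mul_pow, Finset.mul_sum]

theorem ghk2_dot_smul (c : ℝ) (z θ : Fin d → ℝ) :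
    ghk2_dot z (c • θ) = ghk2_dot (c • z) θ := by
  simp only [ghk2_dot, Pi.smul_apply, smul_eq_mul]
  exact Finset.sum_congr rfl fun i _ => by ring

theorem ghk2_inv_sqrt : Tendsto (fun m : ℕ => (√(m : ℝ))⁻¹) atTop (𝓝 0) :=
  tendsto_inv_atTop_zero.comp (tendsto_sqrt_atTop.comp tendsto_natCast_atTop_atTop)

theorem ghk2_cos_lim (t : ℝ) :
    Tendsto (fun m : ℕ => (m : ℝ) * (cos ((√(m : ℝ))⁻¹ * t) - 1)) atTop (𝓝 (-(t ^ 2 / 2))) := by
  rw [tendsto_iff_norm_sub_tendsto_zero]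
  have h0 : Tendsto (fun m : ℕ => |(√(m : ℝ))⁻¹ * t|) atTop (𝓝 0) := by
    simpa using (ghk2_inv_sqrt.mul_const t).abs
  have h1 : Tendsto (fun m : ℕ => t ^ 4 * (5 / 96) * (m : ℝ)⁻¹) atTop (𝓝 0) := by
    simpa using (tendsto_inv_atTop_zero.comp tendsto_natCast_atTop_atTop).const_mul
      (t ^ 4 * (5 / 96) : ℝ)
  refine squeeze_zero' (Eventually.of_forall fun _ => norm_nonneg _) ?_ h1
  filter_upwards [h0.eventually (ge_mem_nhds one_pos), eventually_ge_atTop 1] with m hm hm1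
  have hm' : (0 : ℝ) < m := by exact_mod_cast hm1
  have hb := Real.cos_bound hm
  have hs : ((√(m : ℝ))⁻¹) ^ 2 = (m : ℝ)⁻¹ := by rw [inv_pow, sq_sqrt hm'.le]
  have e1 : ((√(m : ℝ))⁻¹ * t) ^ 2 = (m : ℝ)⁻¹ * t ^ 2 := by rw [mul_pow, hs]
  have e2 : |(√(m : ℝ))⁻¹ * t| ^ 4 = ((m : ℝ)⁻¹ * t ^ 2) ^ 2 := by
    rw [← e1, ← sq_abs ((√(m : ℝ))⁻¹ * t)]; ring
  rw [e1, e2] at hb
  have e3 : (m : ℝ) * (cos ((√(m : ℝ))⁻¹ * t) - 1) - -(t ^ 2 / 2) =
      m * (cos ((√(m : ℝ))⁻¹ * t) - (1 - (m : ℝ)⁻¹ * t ^ 2 / 2)) := by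
    field_simp
    ring
  rw [Real.norm_eq_abs, e3, abs_mul, abs_of_pos hm']
  calc (m : ℝ) * |cos ((√(m : ℝ))⁻¹ * t) - (1 - (m : ℝ)⁻¹ * t ^ 2 / 2)|
      ≤ m * (((m : ℝ)⁻¹ * t ^ 2) ^ 2 * (5 / 96)) := by gcongr
    _ = t ^ 4 * (5 / 96) * (m : ℝ)⁻¹ := by field_simp

theorem ghk2_cf_pow_lim (hd : 1 ≤ d) (η : Fin d → ℝ) :
    Tendsto (fun m : ℕ => ghk2_cf ((√(m : ℝ))⁻¹ • η) ^ m) atTop
      (𝓝 (exp (-(1 / (2 * d)) * ghk2_sq η))) := by
  have hd' : (0 : ℝ) < d := by exact_mod_cast hd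
  have h1 : Tendsto (fun m : ℕ => (d : ℝ)⁻¹ * ∑ i, (m : ℝ) * (cos ((√(m : ℝ))⁻¹ * η i) - 1))
      atTop (𝓝 ((d : ℝ)⁻¹ * ∑ i, -(η i ^ 2 / 2))) :=
    (tendsto_finsetSum _ fun i _ => ghk2_cos_lim (η i)).const_mul _
  have e1 : (d : ℝ)⁻¹ * ∑ i, -(η i ^ 2 / 2) = -(1 / (2 * d)) * ghk2_sq η := by
    unfold ghk2_sq
    rw [Finset.mul_sum, Finset.mul_sum]
    exact Finset.sum_congr rfl fun i _ => by field_simp
  rw [e1] at h1
  have h2 : Tendsto (fun m : ℕ => (m : ℝ) * (ghk2_cf ((√(m : ℝ))⁻¹ • η) - 1)) atTop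
      (𝓝 (-(1 / (2 * d)) * ghk2_sq η)) := by
    refine h1.congr fun m => ?_
    unfold ghk2_cf
    simp only [Pi.smul_apply, smul_eq_mul]
    rw [← Finset.mul_sum, Finset.sum_sub_distrib]
    simp only [Finset.sum_const, Finset.card_univ, Fintype.card_fin, nsmul_eq_mul]
    field_simp
  simpa using Real.tendsto_one_add_pow_exp_of_tendsto h2

theorem ghk2_smul_lim (η : Fin d → ℝ) :
    Tendsto (fun m : ℕ => (√(m : ℝ))⁻¹ • η) atTop (𝓝 0) := by
  simpa using ghk2_inv_sqrt.smul_const η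

theorem ghk2_cf_lim (hd : 1 ≤ d) (η : Fin d → ℝ) :
    Tendsto (fun m : ℕ => ghk2_cf ((√(m : ℝ))⁻¹ • η)) atTop (𝓝 1) := by
  have hd' : (0 : ℝ) < d := by exact_mod_cast hd
  have h := (ghk2_cont_cf.tendsto (0 : Fin d → ℝ)).comp (ghk2_smul_lim η)
  have e : ghk2_cf (0 : Fin d → ℝ) = 1 := by
    simp [ghk2_cf, hd'.ne']
  rw [e] at h
  exact h

theorem ghk2_mem_lim (η : Fin d → ℝ) : ∀ᶠ m : ℕ in atTop, (√(m : ℝ))⁻¹ • η ∈ ghk2_Q d := by
  refine (ghk2_smul_lim η).eventually ?_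
  exact set_pi_mem_nhds Set.finite_univ fun i _ =>
    Icc_mem_nhds (by simpa using pi_pos) (by simpa using pi_pos)

theorem ghk2_corner (hd : 1 ≤ d) {m : ℕ} (hm : 1 ≤ m) {t : ℝ} (h0 : 0 ≤ t) (h1 : t ≤ 1) :
    t ^ m * (1 - t) ^ d ≤ ((d : ℝ) / m) ^ d := by
  have hd' : (0 : ℝ) < d := by exact_mod_cast hd
  have hm' : (0 : ℝ) < m := by exact_mod_cast hm
  have hs : 0 ≤ 1 - t := by linarith
  have a1 : t ^ m ≤ exp (-(m * (1 - t))) := by
    have : t ≤ exp (-(1 - t)) := by linarith [add_one_le_exp (-(1 - t))]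
    calc t ^ m ≤ exp (-(1 - t)) ^ m := by gcongr
      _ = exp (-(m * (1 - t))) := by rw [← exp_nat_mul]; ring_nf
  have a2 : (1 - t) ^ d ≤ ((d : ℝ) / m) ^ d * exp (m * (1 - t)) := by
    have : 1 - t ≤ (d : ℝ) / m * exp (m * (1 - t) / d) := by
      have h := add_one_le_exp (m * (1 - t) / d)
      calc 1 - t = (d : ℝ) / m * (m * (1 - t) / d) := by field_simp
        _ ≤ (d : ℝ) / m * exp (m * (1 - t) / d) := by gcongr; linarith
    calc (1 - t) ^ d ≤ ((d : ℝ) / m * exp (m * (1 - t) / d)) ^ d := by gcongr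
      _ = ((d : ℝ) / m) ^ d * exp (m * (1 - t)) := by
          rw [mul_pow, ← exp_nat_mul]; congr 2; field_simp
  calc t ^ m * (1 - t) ^ d ≤ exp (-(m * (1 - t))) * (((d : ℝ) / m) ^ d * exp (m * (1 - t))) := by
        gcongr
    _ = ((d : ℝ) / m) ^ d := by rw [exp_neg]; field_simp

/-- The rescaled Fourier multiplier. -/
noncomputable def ghk2_F (m : ℕ) (η : Fin d → ℝ) : ℝ :=
  (ghk2_Q d).indicator (fun θ => ghk2_cf θ ^ m * (1 + ghk2_cf θ) ^ (d + 1)) ((√(m : ℝ))⁻¹ • η)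

theorem ghk2_F_meas (m : ℕ) : Measurable (ghk2_F m : (Fin d → ℝ) → ℝ) := by
  have hc : Continuous fun θ : Fin d → ℝ => ghk2_cf θ ^ m * (1 + ghk2_cf θ) ^ (d + 1) :=
    (ghk2_cont_cf.pow m).mul ((continuous_const.add ghk2_cont_cf).pow _)
  exact (hc.measurable.indicator ghk2_measurableSet_Q).comp (measurable_const_smul _)

theorem ghk2_F_le (hd : 1 ≤ d) {m : ℕ} (hm : 1 ≤ m) (η : Fin d → ℝ) :
    |ghk2_F m η| ≤ 2 ^ (d + 1) * exp (-(2 / (π ^ 2 * d)) * ghk2_sq η) +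
      (d * (1 + π) ^ 2) ^ d * (1 + ‖η‖) ^ (-(2 * d : ℝ)) := by
  have hd' : (0 : ℝ) < d := by exact_mod_cast hd
  have hm' : (0 : ℝ) < m := by exact_mod_cast hm
  have hm1 : (1 : ℝ) ≤ m := by exact_mod_cast hm
  have hs : ((√(m : ℝ))⁻¹) ^ 2 = (m : ℝ)⁻¹ := by rw [inv_pow, sq_sqrt hm'.le]
  have hp := pi_pos
  unfold ghk2_F
  by_cases hQ : (√(m : ℝ))⁻¹ • η ∈ ghk2_Q d
  swap
  · rw [Set.indicator_of_notMem hQ, abs_zero]; positivity
  rw [Set.indicator_of_mem hQ]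
  set θ := (√(m : ℝ))⁻¹ • η with hθ
  have hab := abs_le.1 (ghk2_cf_abs hd θ)
  rcases le_or_gt 0 (ghk2_cf θ) with h | h
  · have a1 : ghk2_cf θ ^ m ≤ exp (-(2 / (π ^ 2 * d)) * ghk2_sq η) := by
      have b1 : ghk2_cf θ ≤ exp (-(2 / (π ^ 2 * d)) * ghk2_sq θ) := by
        linarith [ghk2_cf_le hd hQ, add_one_le_exp (-(2 / (π ^ 2 * d)) * ghk2_sq θ)]
      calc ghk2_cf θ ^ m ≤ exp (-(2 / (π ^ 2 * d)) * ghk2_sq θ) ^ m := by gcongr
        _ = exp (-(2 / (π ^ 2 * d)) * ghk2_sq η) := by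
            rw [← exp_nat_mul, hθ, ghk2_sq_smul, hs]; congr 1; field_simp
    have a2 : (1 + ghk2_cf θ) ^ (d + 1) ≤ 2 ^ (d + 1) := by gcongr; linarith
    rw [abs_of_nonneg (by positivity)]
    have a3 : ghk2_cf θ ^ m * (1 + ghk2_cf θ) ^ (d + 1) ≤
        exp (-(2 / (π ^ 2 * d)) * ghk2_sq η) * 2 ^ (d + 1) := by gcongr
    have a4 : 0 ≤ (d * (1 + π) ^ 2) ^ d * (1 + ‖η‖) ^ (-(2 * d : ℝ)) := by positivity
    linarith
  · have a1 := ghk2_corner hd hm (t := -ghk2_cf θ) (by linarith) (by linarith)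
    have a2 : |ghk2_cf θ ^ m * (1 + ghk2_cf θ) ^ (d + 1)| ≤ ((d : ℝ) / m) ^ d := by
      have b0 : 0 ≤ 1 + ghk2_cf θ := by linarith
      rw [abs_mul, abs_pow, abs_pow, abs_of_neg h, abs_of_nonneg b0, pow_succ, ← mul_assoc]
      rw [sub_neg_eq_add] at a1
      calc (-ghk2_cf θ) ^ m * (1 + ghk2_cf θ) ^ d * (1 + ghk2_cf θ)
          ≤ ((d : ℝ) / m) ^ d * 1 := by gcongr; linarith
        _ = _ := mul_one _
    have a3 : ‖η‖ ≤ π * √(m : ℝ) := by
      have hsq : 0 < √(m : ℝ) := sqrt_pos.2 hm'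
      refine (pi_norm_le_iff_of_nonneg (by positivity)).2 fun i => ?_
      have := abs_le.2 (hQ i (Set.mem_univ i))
      rw [hθ, Pi.smul_apply, smul_eq_mul, abs_mul, abs_of_pos (inv_pos.2 hsq),
        inv_mul_le_iff₀ hsq] at this
      rw [Real.norm_eq_abs, mul_comm]; exact this
    have a4 : (1 + ‖η‖) ^ 2 ≤ (1 + π) ^ 2 * m := by
      have b1 : 1 ≤ √(m : ℝ) := one_le_sqrt.2 hm1
      have b2 : 1 + ‖η‖ ≤ (1 + π) * √(m : ℝ) := by nlinarith
      calc (1 + ‖η‖) ^ 2 ≤ ((1 + π) * √(m : ℝ)) ^ 2 := by gcongr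
        _ = (1 + π) ^ 2 * m := by rw [mul_pow, sq_sqrt hm'.le]
    have a5 : ((d : ℝ) / m) ^ d ≤ (d * (1 + π) ^ 2) ^ d * (1 + ‖η‖) ^ (-(2 * d : ℝ)) := by
      have b0 : 0 < 1 + ‖η‖ := by positivity
      have e : (1 + ‖η‖) ^ (-(2 * d : ℝ)) = (((1 + ‖η‖) ^ 2)⁻¹) ^ d := by
        rw [rpow_neg b0.le, inv_pow, ← pow_mul, ← rpow_natCast]; push_cast; rfl
      rw [e, ← mul_pow]
      gcongr
      rw [← div_eq_mul_inv, div_le_div_iff₀ hm' (by positivity)]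
      nlinarith
    have a6 : 0 ≤ 2 ^ (d + 1) * exp (-(2 / (π ^ 2 * d)) * ghk2_sq η) := by positivity
    linarith

theorem ghk2_dom_int (hd : 1 ≤ d) : Integrable fun η : Fin d → ℝ =>
    2 ^ (d + 1) * exp (-(2 / (π ^ 2 * d)) * ghk2_sq η) +
      (d * (1 + π) ^ 2) ^ d * (1 + ‖η‖) ^ (-(2 * d : ℝ)) := by
  have hd' : (0 : ℝ) < d := by exact_mod_cast hd
  have hp := pi_pos
  refine ((ghk2_gauss_int (by positivity)).const_mul _).add (Integrable.const_mul ?_ _)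
  refine integrable_one_add_norm ?_
  simp only [Module.finrank_fintype_fun_eq_card, Fintype.card_fin]
  linarith

theorem ghk2_F_int (hd : 1 ≤ d) {m : ℕ} (hm : 1 ≤ m) :
    Integrable (ghk2_F m : (Fin d → ℝ) → ℝ) :=
  (ghk2_dom_int hd).mono' (ghk2_F_meas m).aestronglyMeasurable
    (Eventually.of_forall fun η => ghk2_F_le hd hm η)

theorem ghk2_F_lim (hd : 1 ≤ d) (η : Fin d → ℝ) :
    Tendsto (fun m : ℕ => ghk2_F m η) atTop
      (𝓝 (2 ^ (d + 1) * exp (-(1 / (2 * d)) * ghk2_sq η))) := by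
  have h := (ghk2_cf_pow_lim hd η).mul (((ghk2_cf_lim hd η).const_add 1).pow (d + 1))
  rw [one_add_one_eq_two, mul_comm] at h
  refine h.congr' ?_
  filter_upwards [ghk2_mem_lim η] with m hm
  unfold ghk2_F
  rw [Set.indicator_of_mem hm]

/-- The error in the Fourier inversion. -/
noncomputable def ghk2_err (d m : ℕ) : ℝ :=
  ∫ η : Fin d → ℝ, |ghk2_F m η - 2 ^ (d + 1) * exp (-(1 / (2 * d)) * ghk2_sq η)|

theorem ghk2_err_lim (hd : 1 ≤ d) : Tendsto (ghk2_err d) atTop (𝓝 0) := by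
  have hd' : (0 : ℝ) < d := by exact_mod_cast hd
  have hg : Integrable fun η : Fin d → ℝ => 2 ^ (d + 1) * exp (-(1 / (2 * d)) * ghk2_sq η) :=
    (ghk2_gauss_int (by positivity)).const_mul _
  have h := tendsto_integral_filter_of_dominated_convergence (μ := (volume : Measure (Fin d → ℝ)))
    (l := atTop) (f := fun _ => (0 : ℝ))
    (F := fun (m : ℕ) η => |ghk2_F m η - 2 ^ (d + 1) * exp (-(1 / (2 * d)) * ghk2_sq η)|)
    (fun η => (2 ^ (d + 1) * exp (-(2 / (π ^ 2 * d)) * ghk2_sq η) +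
      (d * (1 + π) ^ 2) ^ d * (1 + ‖η‖) ^ (-(2 * d : ℝ))) +
        2 ^ (d + 1) * exp (-(1 / (2 * d)) * ghk2_sq η)) ?_ ?_ ((ghk2_dom_int hd).add hg) ?_
  · rw [integral_zero] at h
    exact h
  · exact Eventually.of_forall fun m =>
      ((ghk2_F_meas m).aestronglyMeasurable.sub hg.aestronglyMeasurable).norm
  · filter_upwards [eventually_ge_atTop 1] with m hm
    refine Eventually.of_forall fun η => ?_
    rw [Real.norm_eq_abs, abs_abs]
    refine (abs_sub _ _).trans (add_le_add (ghk2_F_le hd hm η) (le_of_eq (abs_of_pos ?_)))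
    positivity
  · refine Eventually.of_forall fun η => ?_
    simpa using ((ghk2_F_lim hd η).sub_const
      (2 ^ (d + 1) * exp (-(1 / (2 * d)) * ghk2_sq η))).abs

/-- Uniform local limit for the smoothed Fourier integral. -/
theorem ghk2_unif (hd : 1 ≤ d) {m : ℕ} (hm : 1 ≤ m) (x : Fin d → ℝ) :
    |√(m : ℝ) ^ d * (∫ θ in ghk2_Q d, cos (ghk2_dot x θ) *
        (ghk2_cf θ ^ m * (1 + ghk2_cf θ) ^ (d + 1))) -
      2 ^ (d + 1) * ((π * (2 * d)) ^ ((d : ℝ) / 2) * exp (-(d / 2 * (ghk2_sq x / m))))| ≤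
      ghk2_err d m := by
  have hd' : (0 : ℝ) < d := by exact_mod_cast hd
  have hm' : (0 : ℝ) < m := by exact_mod_cast hm
  have hs : ((√(m : ℝ))⁻¹) ^ 2 = (m : ℝ)⁻¹ := by rw [inv_pow, sq_sqrt hm'.le]
  set z := (√(m : ℝ))⁻¹ • x with hz
  have e1 : √(m : ℝ) ^ d * (∫ θ in ghk2_Q d, cos (ghk2_dot x θ) *
      (ghk2_cf θ ^ m * (1 + ghk2_cf θ) ^ (d + 1))) = ∫ η, cos (ghk2_dot z η) * ghk2_F m η := by
    have h := Measure.integral_comp_inv_smul_of_nonneg (volume : Measure (Fin d → ℝ))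
      ((ghk2_Q d).indicator fun θ => cos (ghk2_dot x θ) *
        (ghk2_cf θ ^ m * (1 + ghk2_cf θ) ^ (d + 1))) (sqrt_nonneg (m : ℝ))
    rw [integral_indicator ghk2_measurableSet_Q] at h
    simp only [Module.finrank_fintype_fun_eq_card, Fintype.card_fin, smul_eq_mul] at h
    rw [← h]
    refine integral_congr_ae (Eventually.of_forall fun η => ?_)
    simp only [ghk2_F]
    rw [Set.indicator_mul_right, ghk2_dot_smul]
  have hb : (0 : ℝ) < 1 / (2 * d) := by positivity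
  have e2 : 2 ^ (d + 1) * ((π * (2 * d)) ^ ((d : ℝ) / 2) * exp (-(d / 2 * (ghk2_sq x / m)))) =
      ∫ η, cos (ghk2_dot z η) * (2 ^ (d + 1) * exp (-(1 / (2 * d)) * ghk2_sq η)) := by
    simp only [mul_left_comm (cos _)]
    rw [integral_const_mul, ghk2_gauss hb, hz, ghk2_sq_smul, hs]
    congr 2
    · congr 1; field_simp
    · congr 1; field_simp; ring
  have hc : AEStronglyMeasurable (fun η => cos (ghk2_dot z η)) (volume : Measure (Fin d → ℝ)) :=
    (continuous_cos.comp (ghk2_cont_dot z)).aestronglyMeasurable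
  have hcb : ∀ᵐ η : Fin d → ℝ, ‖cos (ghk2_dot z η)‖ ≤ 1 :=
    Eventually.of_forall fun η => abs_cos_le_one _
  have hg : Integrable fun η : Fin d → ℝ => 2 ^ (d + 1) * exp (-(1 / (2 * d)) * ghk2_sq η) :=
    (ghk2_gauss_int hb).const_mul _
  rw [e1, e2, ← integral_sub ((ghk2_F_int hd hm).bdd_mul hc hcb) (hg.bdd_mul hc hcb)]
  unfold ghk2_err
  rw [← Real.norm_eq_abs]
  refine norm_integral_le_of_norm_le ((ghk2_F_int hd hm).sub hg).abs
    (Eventually.of_forall fun η => ?_)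
  rw [← mul_sub, Real.norm_eq_abs, abs_mul]
  exact mul_le_of_le_one_left (abs_nonneg _) (abs_cos_le_one _)

/-- Limit of the Gaussian average of the characteristic function. -/
theorem ghk2_avg_lim (hd : 1 ≤ d) :
    Tendsto (fun m : ℕ => ∫ θ : Fin d → ℝ, ghk2_cf ((√(m : ℝ))⁻¹ • θ) ^ m *
      exp (-(1 / 4) * ghk2_sq θ)) atTop (𝓝 ((π / (1 / (2 * d) + 1 / 4)) ^ ((d : ℝ) / 2))) := by
  have hd' : (0 : ℝ) < d := by exact_mod_cast hd
  have h := tendsto_integral_of_dominated_convergence (μ := (volume : Measure (Fin d → ℝ)))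
    (f := fun θ => exp (-(1 / (2 * d)) * ghk2_sq θ) * exp (-(1 / 4) * ghk2_sq θ))
    (F := fun (m : ℕ) θ => ghk2_cf ((√(m : ℝ))⁻¹ • θ) ^ m * exp (-(1 / 4) * ghk2_sq θ))
    (fun θ => exp (-(1 / 4) * ghk2_sq θ)) ?_ (ghk2_gauss_int (by norm_num)) ?_ ?_
  · have e := ghk2_gauss (b := 1 / (2 * d) + 1 / 4) (by positivity) (0 : Fin d → ℝ)
    have e0 : ghk2_sq (0 : Fin d → ℝ) = 0 := by simp [ghk2_sq]
    rw [e0, neg_zero, zero_div, exp_zero, mul_one] at e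
    rw [← e]
    convert h using 4 with θ
    rw [← exp_add]
    simp only [ghk2_dot, Pi.zero_apply, zero_mul, Finset.sum_const_zero, cos_zero, one_mul]
    congr 1; ring
  · intro m
    exact (((ghk2_cont_cf.comp (continuous_const_smul _)).pow m).mul
      (continuous_exp.comp (continuous_const.mul ghk2_cont_sq))).aestronglyMeasurable
  · intro m
    refine Eventually.of_forall fun θ => ?_
    rw [Real.norm_eq_abs, abs_mul, abs_of_pos (exp_pos _), abs_pow]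
    exact mul_le_of_le_one_left (exp_pos _).le (pow_le_one₀ (abs_nonneg _) (ghk2_cf_abs hd _))
  · exact Eventually.of_forall fun θ => (ghk2_cf_pow_lim hd θ).mul_const _

end Pool.Agent.Lib.MP_153faa_pr
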