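import Mathlib
import Pool.Agent.Lib.MP_153faa_pr.GHK1
import Pool.Agent.Lib.MP_153faa_pr.GHK21

set_option autoImplicit false

open MeasureTheory Filter Topology
open scoped ENNReal NNReal

namespace Pool.Agent.Lib.MP_153faa_pr

variable {d : ℕ}

/-- A site as a real vector. -/
def ghk2_c (x : Site d) : Fin d → ℝ := fun i => (x i : ℝ)

theorem ghk2_ne_top (hd : 1 ≤ d) (m : ℕ) (x : Site d) : phi d m x ≠ ⊤ :=
  ne_top_of_le_ne_top ENNReal.one_ne_top (phi_le_one hd m x)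

theorem ghk2_ph_nonneg (m : ℕ) (x : Site d) : 0 ≤ ph d m x := ENNReal.toReal_nonneg

theorem ghk2_ph_zero (x : Site d) : ph d 0 x = if x = 0 then 1 else 0 := by
  simp only [ph, phi, Function.iterate_zero, id, dlt]
  split_ifs <;> simp

theorem ghk2_ph_succ (hd : 1 ≤ d) (m : ℕ) (x : Site d) : ph d (m + 1) x =
    (2 * d : ℝ)⁻¹ * ∑ i : Fin d, (ph d m (x - Pi.single i 1) + ph d m (x + Pi.single i 1)) := by
  have e : phi d (m + 1) = avg (phi d m) := Function.iterate_succ_apply' _ _ _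
  unfold ph
  rw [e, avg, ENNReal.toReal_mul, ENNReal.toReal_sum fun i _ =>
    ENNReal.add_ne_top.2 ⟨ghk2_ne_top hd _ _, ghk2_ne_top hd _ _⟩]
  congr 1
  · simp
  · exact Finset.sum_congr rfl fun i _ =>
      ENNReal.toReal_add (ghk2_ne_top hd _ _) (ghk2_ne_top hd _ _)

theorem ghk2_ph_box (m : ℕ) {x : Site d} (hx : x ∉ box d m) : ph d m x = 0 := by
  have : phi d m x = 0 := by_contra fun h => hx (phi_box m h)
  simp [ph, this]

theorem ghk2_ph_par (m : ℕ) {x : Site d} (hx : ph d m x ≠ 0) : ph d (m + 1) x = 0 := by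
  have h1 : phi d m x ≠ 0 := fun h => hx (by simp [ph, h])
  have : phi d (m + 1) x = 0 := by_contra fun h => by
    have a := phi_par m h1
    have b := phi_par (m + 1) h
    rw [a] at b
    push_cast at b
    exact absurd (left_eq_add.1 b) (by decide)
  simp [ph, this]

theorem ghk2_dot_add (x : Site d) (i : Fin d) (θ : Fin d → ℝ) :
    ghk2_dot (ghk2_c (x + Pi.single i 1)) θ = ghk2_dot (ghk2_c x) θ + θ i := by
  simp only [ghk2_dot, ghk2_c, Pi.add_apply, Int.cast_add, add_mul, Finset.sum_add_distrib]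
  congr 1
  rw [Finset.sum_eq_single i (fun j _ hj => by simp [hj]) (by simp)]
  simp

theorem ghk2_dot_sub (x : Site d) (i : Fin d) (θ : Fin d → ℝ) :
    ghk2_dot (ghk2_c (x - Pi.single i 1)) θ = ghk2_dot (ghk2_c x) θ - θ i := by
  have h := ghk2_dot_add (x - Pi.single i 1) i θ
  rw [sub_add_cancel] at h
  linarith

theorem ghk2_cos_avg (a : ℝ) (θ : Fin d → ℝ) :
    (2 * d : ℝ)⁻¹ * ∑ i : Fin d, (Real.cos (a - θ i) + Real.cos (a + θ i)) =
      Real.cos a * ghk2_cf θ := by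
  unfold ghk2_cf
  simp only [Real.cos_sub, Real.cos_add, Finset.mul_sum]
  exact Finset.sum_congr rfl fun i _ => by rw [mul_inv]; ring

theorem ghk2_cont_int (x : Site d) (m K : ℕ) : IntegrableOn (fun θ : Fin d → ℝ =>
    Real.cos (ghk2_dot (ghk2_c x) θ) * (ghk2_cf θ ^ m * (1 + ghk2_cf θ) ^ K)) (ghk2_Q d) :=
  ghk2_intOn ((Real.continuous_cos.comp (ghk2_cont_dot _)).mul
    ((ghk2_cont_cf.pow m).mul ((continuous_const.add ghk2_cont_cf).pow K)))

/-- The smoothed Fourier integral. -/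
noncomputable def ghk2_W (K m : ℕ) (x : Site d) : ℝ :=
  ∫ θ in ghk2_Q d, Real.cos (ghk2_dot (ghk2_c x) θ) * (ghk2_cf θ ^ m * (1 + ghk2_cf θ) ^ K)

theorem ghk2_W_succ (K m : ℕ) (x : Site d) :
    ghk2_W (K + 1) m x = ghk2_W K m x + ghk2_W K (m + 1) x := by
  unfold ghk2_W
  rw [← integral_add (ghk2_cont_int x m K) (ghk2_cont_int x (m + 1) K)]
  exact integral_congr_ae (Eventually.of_forall fun θ => by ring)

theorem ghk2_inv (hd : 1 ≤ d) (m : ℕ) (x : Site d) :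
    ghk2_W 0 m x = (2 * Real.pi) ^ d * ph d m x := by
  induction m generalizing x with
  | zero =>
    have h := ghk2_inv0 x
    unfold ghk2_W
    simp only [pow_zero, mul_one, ghk2_ph_zero]
    refine h.trans ?_
    split_ifs <;> simp
  | succ m ih =>
    rw [ghk2_ph_succ hd, mul_left_comm, Finset.mul_sum]
    simp only [mul_add, ← ih]
    unfold ghk2_W
    have e : ∀ i : Fin d, (∫ θ in ghk2_Q d, Real.cos (ghk2_dot (ghk2_c (x - Pi.single i 1)) θ) *
        (ghk2_cf θ ^ m * (1 + ghk2_cf θ) ^ 0)) +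
        (∫ θ in ghk2_Q d, Real.cos (ghk2_dot (ghk2_c (x + Pi.single i 1)) θ) *
        (ghk2_cf θ ^ m * (1 + ghk2_cf θ) ^ 0)) = _ := fun i =>
      (integral_add (ghk2_cont_int _ m 0) (ghk2_cont_int _ m 0)).symm
    simp only [e]
    rw [← integral_finsetSum, ← integral_const_mul]
    swap
    · exact fun i _ => (ghk2_cont_int _ m 0).add (ghk2_cont_int _ m 0)
    refine integral_congr_ae (Eventually.of_forall fun θ => ?_)
    simp only [ghk2_dot_add, ghk2_dot_sub, ← add_mul, ← Finset.sum_mul]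
    rw [← mul_assoc (2 * d : ℝ)⁻¹, ghk2_cos_avg]
    ring

theorem ghk2_W_reg (hd : 1 ≤ d) (K : ℕ) : ∃ C : ℝ, 0 ≤ C ∧ ∀ (m : ℕ) (x : Site d), 1 ≤ m →
    |ghk2_W (K + 1) m x - 2 ^ K * ((2 * Real.pi) ^ d * (ph d m x + ph d (m + 1) x))| ≤
      C * ((m : ℝ)⁻¹ * (m : ℝ) ^ (-(d : ℝ) / 2)) := by
  have hp := Real.pi_pos
  induction K with
  | zero =>
    refine ⟨0, le_rfl, fun m x _ => ?_⟩
    rw [ghk2_W_succ, ghk2_inv hd, ghk2_inv hd, pow_zero, one_mul, mul_add, sub_self, abs_zero,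
      zero_mul]
  | succ K ih =>
    obtain ⟨C, hC, h⟩ := ih
    obtain ⟨C', hC', h'⟩ := hk_reg hd
    refine ⟨2 * C + 2 ^ K * (2 * Real.pi) ^ d * C', by positivity, fun m x hm => ?_⟩
    have hm' : (0 : ℝ) < m := by exact_mod_cast hm
    have a1 := h m x hm
    have a2 := h (m + 1) x (by omega)
    have a3 := h' m 1 0 x 0 hm (heat_mem_box.2 fun i => by simp) (by simp [par])
    have a4 : ((m + 1 : ℕ) : ℝ)⁻¹ * ((m + 1 : ℕ) : ℝ) ^ (-(d : ℝ) / 2) ≤
        (m : ℝ)⁻¹ * (m : ℝ) ^ (-(d : ℝ) / 2) := by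
      have b1 : (m : ℝ) ≤ ((m + 1 : ℕ) : ℝ) := by push_cast; linarith
      have b2 : -(d : ℝ) / 2 ≤ 0 := by
        have : (0 : ℝ) ≤ d := Nat.cast_nonneg d
        linarith
      exact mul_le_mul (inv_anti₀ hm' b1) (Real.rpow_le_rpow_of_nonpos hm' b1 b2)
        (by positivity) (by positivity)
    simp only [Nat.cast_one, Nat.cast_zero, zero_div, add_zero, mul_one, one_div] at a3
    rw [ghk2_W_succ]
    have e : ghk2_W (K + 1) m x + ghk2_W (K + 1) (m + 1) x -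
        2 ^ (K + 1) * ((2 * Real.pi) ^ d * (ph d m x + ph d (m + 1) x)) =
        (ghk2_W (K + 1) m x - 2 ^ K * ((2 * Real.pi) ^ d * (ph d m x + ph d (m + 1) x))) +
        (ghk2_W (K + 1) (m + 1) x -
          2 ^ K * ((2 * Real.pi) ^ d * (ph d (m + 1) x + ph d (m + 1 + 1) x))) -
        2 ^ K * (2 * Real.pi) ^ d * (ph d m x - ph d (m + 2) x) := by ring
    rw [e]
    have a5 : |2 ^ K * (2 * Real.pi) ^ d * (ph d m x - ph d (m + 2) x)| ≤
        2 ^ K * (2 * Real.pi) ^ d * (C' * (m : ℝ)⁻¹ * (m : ℝ) ^ (-(d : ℝ) / 2)) := by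
      rw [abs_mul, abs_of_pos (by positivity : (0 : ℝ) < 2 ^ K * (2 * Real.pi) ^ d)]
      gcongr
    have a6 := mul_le_mul_of_nonneg_left a4 hC
    refine (abs_sub _ _).trans ((add_le_add (abs_add_le _ _) a5).trans ?_)
    nlinarith

/-- The local limit theorem on the support of the kernel. -/
theorem ghk2_local (hd : 1 ≤ d) : ∃ A : ℝ, 0 < A ∧ ∃ δ : ℕ → ℝ, Tendsto δ atTop (𝓝 0) ∧
    ∀ (m : ℕ) (x : Site d), 1 ≤ m → ph d m x ≠ 0 →
      |√(m : ℝ) ^ d * ph d m x - A * Real.exp (-(d / 2 * (ghk2_sq (ghk2_c x) / m)))| ≤ δ m := by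
  have hd' : (0 : ℝ) < d := by exact_mod_cast hd
  have hp := Real.pi_pos
  obtain ⟨C, hC, h⟩ := ghk2_W_reg hd d
  set B : ℝ := 2 ^ d * (2 * Real.pi) ^ d with hB
  have hB0 : 0 < B := by positivity
  refine ⟨B⁻¹ * (2 ^ (d + 1) * (Real.pi * (2 * d)) ^ ((d : ℝ) / 2)), by positivity,
    fun m => B⁻¹ * (C * (m : ℝ)⁻¹ + ghk2_err d m), ?_, fun m x hm hx => ?_⟩
  · have h1 : Tendsto (fun m : ℕ => (m : ℝ)⁻¹) atTop (𝓝 0) :=
      tendsto_inv_atTop_zero.comp tendsto_natCast_atTop_atTop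
    simpa using ((h1.const_mul C).add (ghk2_err_lim hd)).const_mul B⁻¹
  · have hm' : (0 : ℝ) < m := by exact_mod_cast hm
    have a1 := h m x hm
    have a2 := ghk2_unif hd hm (ghk2_c x)
    rw [ghk2_ph_par m hx, add_zero, ← mul_assoc, ← hB] at a1
    change |√(m : ℝ) ^ d * ghk2_W (d + 1) m x - _| ≤ _ at a2
    have a3 : √(m : ℝ) ^ d * (m : ℝ) ^ (-(d : ℝ) / 2) = 1 := by
      rw [Real.sqrt_eq_rpow, ← Real.rpow_natCast, ← Real.rpow_mul hm'.le, ← Real.rpow_add hm']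
      rw [show 1 / 2 * (d : ℝ) + -(d : ℝ) / 2 = 0 by ring, Real.rpow_zero]
    have hs : 0 < √(m : ℝ) ^ d := pow_pos (Real.sqrt_pos.2 hm') d
    have a4 : |√(m : ℝ) ^ d * (ghk2_W (d + 1) m x - B * ph d m x)| ≤ C * (m : ℝ)⁻¹ := by
      rw [abs_mul, abs_of_pos hs]
      calc √(m : ℝ) ^ d * |ghk2_W (d + 1) m x - B * ph d m x|
          ≤ √(m : ℝ) ^ d * (C * ((m : ℝ)⁻¹ * (m : ℝ) ^ (-(d : ℝ) / 2))) := by gcongr
        _ = C * (m : ℝ)⁻¹ * (√(m : ℝ) ^ d * (m : ℝ) ^ (-(d : ℝ) / 2)) := by ring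
        _ = C * (m : ℝ)⁻¹ := by rw [a3, mul_one]
    set E := Real.exp (-(d / 2 * (ghk2_sq (ghk2_c x) / m)))
    set G : ℝ := (Real.pi * (2 * d)) ^ ((d : ℝ) / 2)
    have e : √(m : ℝ) ^ d * ph d m x - B⁻¹ * (2 ^ (d + 1) * G) * E =
        B⁻¹ * ((√(m : ℝ) ^ d * ghk2_W (d + 1) m x - 2 ^ (d + 1) * (G * E)) -
          √(m : ℝ) ^ d * (ghk2_W (d + 1) m x - B * ph d m x)) := by
      field_simp
      ring
    rw [e, abs_mul, abs_of_pos (inv_pos.2 hB0)]
    refine mul_le_mul_of_nonneg_left ((abs_sub _ _).trans ?_) (inv_pos.2 hB0).le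
    linarith

theorem ghk2_char (hd : 1 ≤ d) (θ : Fin d → ℝ) (m : ℕ) (a : ℝ) :
    HasSum (fun x : Site d => ph d m x * Real.cos (ghk2_dot (ghk2_c x) θ + a))
      (ghk2_cf θ ^ m * Real.cos a) := by
  induction m generalizing a with
  | zero =>
    have h := hasSum_single (f := fun x : Site d => ph d 0 x *
      Real.cos (ghk2_dot (ghk2_c x) θ + a)) 0 (fun x hx => by simp [ghk2_ph_zero, hx])
    simpa [ghk2_ph_zero, ghk2_dot, ghk2_c] using h
  | succ m ih =>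
    have h1 : ∀ i : Fin d, HasSum (fun x : Site d => ph d m (x - Pi.single i 1) *
        Real.cos (ghk2_dot (ghk2_c x) θ + a)) (ghk2_cf θ ^ m * Real.cos (a + θ i)) := fun i => by
      rw [← (Equiv.addRight (Pi.single i 1 : Site d)).hasSum_iff]
      convert ih (a + θ i) using 2 with x
      simp only [Function.comp_apply, Equiv.coe_addRight, add_sub_cancel_right, ghk2_dot_add]
      congr 2; ring
    have h2 : ∀ i : Fin d, HasSum (fun x : Site d => ph d m (x + Pi.single i 1) *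
        Real.cos (ghk2_dot (ghk2_c x) θ + a)) (ghk2_cf θ ^ m * Real.cos (a - θ i)) := fun i => by
      rw [← (Equiv.subRight (Pi.single i 1 : Site d)).hasSum_iff]
      convert ih (a - θ i) using 2 with x
      simp only [Function.comp_apply, Equiv.subRight_apply, sub_add_cancel, ghk2_dot_sub]
      congr 2; ring
    have h3 := (hasSum_sum (s := Finset.univ) fun i _ => (h1 i).add (h2 i)).mul_left
      (2 * d : ℝ)⁻¹
    have e1 : ghk2_cf θ ^ (m + 1) * Real.cos a = (2 * d : ℝ)⁻¹ *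
        ∑ i, (ghk2_cf θ ^ m * Real.cos (a + θ i) + ghk2_cf θ ^ m * Real.cos (a - θ i)) := by
      simp only [← mul_add, ← Finset.mul_sum, add_comm (Real.cos (a + θ _))]
      rw [mul_left_comm, ghk2_cos_avg]
      ring
    rw [e1]
    refine h3.congr_fun fun x => ?_
    rw [ghk2_ph_succ hd, mul_assoc, Finset.sum_mul]
    simp only [add_mul]

theorem ghk2_char_box (hd : 1 ≤ d) (θ : Fin d → ℝ) (m : ℕ) :
    ∑ x ∈ box d m, ph d m x * Real.cos (ghk2_dot (ghk2_c x) θ) = ghk2_cf θ ^ m := by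
  have h := ghk2_char hd θ m 0
  simp only [add_zero, Real.cos_zero, mul_one] at h
  exact (hasSum_sum_of_ne_finset_zero fun x hx => by rw [ghk2_ph_box m hx, zero_mul]).unique h

theorem ghk2_mass (hd : 1 ≤ d) (m : ℕ) : ∑ x ∈ box d m, ph d m x = 1 := by
  have hd' : (0 : ℝ) < d := by exact_mod_cast hd
  have h := ghk2_char_box hd (0 : Fin d → ℝ) m
  simpa [ghk2_dot, ghk2_cf, hd'.ne'] using h

theorem ghk2_gsum (hd : 1 ≤ d) : ∃ L : ℝ, 0 < L ∧ Tendsto (fun m : ℕ =>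
    ∑ x ∈ box d m, ph d m x * Real.exp (-(ghk2_sq (ghk2_c x) / m))) atTop (𝓝 L) := by
  have hd' : (0 : ℝ) < d := by exact_mod_cast hd
  have hp := Real.pi_pos
  set G : ℝ := (Real.pi / (1 / 4)) ^ ((d : ℝ) / 2) with hG
  have hG0 : 0 < G := by positivity
  refine ⟨_, ?_, ((ghk2_avg_lim hd).const_mul G⁻¹).congr' ?_⟩
  · positivity
  filter_upwards [eventually_ge_atTop 1] with m hm
  have hm' : (0 : ℝ) < m := by exact_mod_cast hm
  have hs : ((√(m : ℝ))⁻¹) ^ 2 = (m : ℝ)⁻¹ := by rw [inv_pow, Real.sq_sqrt hm'.le]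
  have h4 : (0 : ℝ) < 1 / 4 := by norm_num
  simp only [← ghk2_char_box hd, Finset.sum_mul, ghk2_dot_smul, mul_assoc]
  rw [integral_finsetSum _ fun x _ => (ghk2_gauss_int' h4 _).const_mul _, Finset.mul_sum]
  refine Finset.sum_congr rfl fun x _ => ?_
  rw [integral_const_mul, ghk2_gauss h4, ← hG, ghk2_sq_smul, hs]
  have e : -((m : ℝ)⁻¹ * ghk2_sq (ghk2_c x)) / (4 * (1 / 4)) = -(ghk2_sq (ghk2_c x) / m) := by
    ring
  rw [e]
  field_simp

theorem ghk2_sq_nonneg (θ : Fin d → ℝ) : 0 ≤ ghk2_sq θ :=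
  Finset.sum_nonneg fun _ _ => sq_nonneg _

theorem ghk2_nq (hd : 1 ≤ d) {m : ℕ} (hm : 1 ≤ m) : (m : ℝ) * (nq (q0 d) (phi d m)).toReal =
    ∑ x ∈ box d m, ph d m x * (√(m : ℝ) ^ d * ph d m x) ^ (2 / d : ℝ) := by
  have hd' : (0 : ℝ) < d := by exact_mod_cast hd
  have hm' : (0 : ℝ) < m := by exact_mod_cast hm
  have hq : 0 < q0 d := by unfold q0; positivity
  unfold nq
  rw [ENNReal.tsum_toReal_eq fun x => ENNReal.rpow_ne_top_of_nonneg hq.le (ghk2_ne_top hd m x),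
    tsum_eq_sum (s := box d m), Finset.mul_sum]
  · refine Finset.sum_congr rfl fun x _ => ?_
    rw [← ENNReal.toReal_rpow]
    change (m : ℝ) * ph d m x ^ q0 d = _
    have h0 := ghk2_ph_nonneg m x
    have e : (√(m : ℝ) ^ d) ^ (2 / d : ℝ) = m := by
      rw [Real.sqrt_eq_rpow, ← Real.rpow_natCast, ← Real.rpow_mul hm'.le, ← Real.rpow_mul hm'.le]
      rw [show 1 / 2 * (d : ℝ) * (2 / d) = 1 by field_simp, Real.rpow_one]
    rw [Real.mul_rpow (by positivity) h0, e, q0,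
      Real.rpow_add' h0 (by positivity), Real.rpow_one]
    ring
  · intro x hx
    rw [← ENNReal.toReal_rpow]
    change ph d m x ^ q0 d = 0
    rw [ghk2_ph_box m hx, Real.zero_rpow hq.ne']

/-- Scale invariance of the critical norm of the heat kernel. -/
theorem hk_llt (hd : 1 ≤ d) : ∃ c : ℝ, 0 < c ∧
    Tendsto (fun m : ℕ => (m : ℝ) * (nq (q0 d) (phi d m)).toReal) atTop (𝓝 c) := by
  have hd' : (0 : ℝ) < d := by exact_mod_cast hd
  obtain ⟨A, hA, δ, hδ, h⟩ := ghk2_local hd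
  obtain ⟨L, hL, hl⟩ := ghk2_gsum hd
  refine ⟨A ^ (2 / d : ℝ) * L, by positivity, ?_⟩
  have h1 := hl.const_mul (A ^ (2 / d : ℝ))
  have h2 : Tendsto (fun m : ℕ => (m : ℝ) * (nq (q0 d) (phi d m)).toReal -
      A ^ (2 / d : ℝ) * ∑ x ∈ box d m, ph d m x * Real.exp (-(ghk2_sq (ghk2_c x) / m)))
      atTop (𝓝 0) := by
    rw [Metric.tendsto_nhds]
    intro ε hε
    have hc : ContinuousOn (fun t : ℝ => t ^ (2 / d : ℝ)) (Set.Icc 0 (A + 1)) :=
      (Real.continuous_rpow_const (by positivity)).continuousOn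
    obtain ⟨η, hη, hu⟩ := Metric.uniformContinuousOn_iff.1
      (isCompact_Icc.uniformContinuousOn_of_continuous hc) (ε / 2) (by positivity)
    filter_upwards [hδ.eventually (gt_mem_nhds (lt_min hη one_pos)), eventually_ge_atTop 1]
      with m hm hm1
    have hm' : (0 : ℝ) < m := by exact_mod_cast hm1
    rw [Real.dist_eq, sub_zero, ghk2_nq hd hm1, Finset.mul_sum, ← Finset.sum_sub_distrib]
    refine lt_of_le_of_lt ((Finset.abs_sum_le_sum_abs _ _).trans
      (Finset.sum_le_sum (g := fun x => ph d m x * (ε / 2)) fun x _ => ?_)) ?_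
    · by_cases hx : ph d m x = 0
      · simp [hx]
      have h0 := ghk2_ph_nonneg m x
      have a1 := h m x hm1 hx
      set y := ghk2_sq (ghk2_c x) / m with hy
      have hy0 : 0 ≤ y := div_nonneg (ghk2_sq_nonneg _) hm'.le
      have a2 : Real.exp (-(d / 2 * y)) ≤ 1 := Real.exp_le_one_iff.2 (by
        have : 0 ≤ (d : ℝ) / 2 * y := by positivity
        linarith)
      have a3 : A * Real.exp (-(d / 2 * y)) ≤ A := mul_le_of_le_one_right hA.le a2
      have a4 : A ^ (2 / d : ℝ) * Real.exp (-y) = (A * Real.exp (-(d / 2 * y))) ^ (2 / d : ℝ) := by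
        rw [Real.mul_rpow hA.le (Real.exp_pos _).le, ← Real.exp_mul]
        congr 2
        field_simp
      have a5 := hu (√(m : ℝ) ^ d * ph d m x) ⟨by positivity, by
          linarith [(abs_le.1 a1).2, lt_min_iff.1 hm]⟩ (A * Real.exp (-(d / 2 * y)))
        ⟨by positivity, by linarith⟩ (by
          rw [Real.dist_eq]; exact a1.trans_lt (lt_min_iff.1 hm).1)
      rw [Real.dist_eq] at a5
      rw [mul_left_comm, a4, ← mul_sub, abs_mul, abs_of_nonneg h0]
      exact mul_le_mul_of_nonneg_left a5.le h0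
    · rw [← Finset.sum_mul, ghk2_mass hd]
      linarith
  simpa using h2.add h1

end Pool.Agent.Lib.MP_153faa_pr
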