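import Mathlib
import Pool.Agent.Lib.MP_153faa_pr.GSup
import Pool.Agent.Lib.MP_153faa_pr.GHK2
import Pool.Agent.Lib.MP_153faa_pr.GHK3

set_option autoImplicit false

open MeasureTheory Filter Topology
open scoped ENNReal NNReal

namespace Pool.Agent.Lib.MP_153faa_pr

variable {d : ℕ}

theorem gbox_cube_zero (r : ℕ) : cube d r 0 = 1 := by
  have h1 : (0 : Site d) ∈ box d r := heat_mem_box.2 fun i => by simp
  have h2 : par (0 : Site d) = 0 := by simp [par]
  simp [cube, h1, h2]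

theorem gbox_cube_box {r : ℕ} {x : Site d} (h : cube d r x ≠ 0) : x ∈ box d r := by
  by_contra hx
  exact h (by simp [cube, hx])

theorem gbox_cube_pow {p : ℝ} (hp : 0 < p) (r : ℕ) (x : Site d) :
    cube d r x ^ p = cube d r x := by
  unfold cube
  split_ifs
  · simp
  · exact ENNReal.zero_rpow_of_pos hp

theorem gbox_one_le (r : ℕ) : 1 ≤ mass (cube d r) := by
  have h := le_mass (cube d r) 0
  rwa [gbox_cube_zero] at h

theorem gbox_mass_le (r : ℕ) : mass (cube d r) ≤ ENNReal.ofReal ((2 * r + 1 : ℝ) ^ d) := by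
  have h0 : ENNReal.ofReal ((2 * r + 1 : ℝ) ^ d) = ((box d r).card : ℝ≥0∞) := by
    rw [card_box, ← ENNReal.ofReal_natCast]
    push_cast
    rfl
  rw [h0]
  unfold mass
  rw [tsum_eq_sum (s := box d r) (fun x hx => by simp [cube, hx])]
  calc ∑ x ∈ box d r, cube d r x ≤ ∑ _x ∈ box d r, (1 : ℝ≥0∞) :=
        Finset.sum_le_sum fun x _ => by
          unfold cube
          split_ifs <;> simp
    _ = _ := by simp

/-- Sum of powers of one piece. -/
theorem gbox_nq_piece {p : ℝ} (hp : 0 < p) (r : ℕ) (a : ℝ≥0∞) (v : Site d) :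
    ∑' y, (a * sh v (cube d r) y) ^ p = a ^ p * mass (cube d r) := by
  rw [← mass_sh v, mass, ← ENNReal.tsum_mul_left]
  refine tsum_congr fun y => ?_
  rw [ENNReal.mul_rpow_of_nonneg _ _ hp.le, sh, gbox_cube_pow hp]

theorem gbox_mass_piece (r : ℕ) (a : ℝ≥0∞) (v : Site d) :
    mass (sca a (sh v (cube d r))) = a * mass (cube d r) := by
  rw [mass_sca, mass_sh]

theorem gbox_c_le {r : ℕ} {V : Finset (Site d)} {c : Site d → ℝ≥0∞} {f g : Prof d}
    (h : ∀ y, f y = ∑ v ∈ V, c v * sh v (cube d r) y + g y) {v : Site d} (hv : v ∈ V) :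
    c v ≤ f v := by
  rw [h v]
  refine le_trans ?_ le_self_add
  refine le_trans ?_ (Finset.single_le_sum (f := fun u => c u * sh u (cube d r) v)
    (fun _ _ => zero_le) hv)
  simp [sh, gbox_cube_zero]

theorem gbox_sum_pow {ι : Type} {p : ℝ} (hp : 1 ≤ p) (V : Finset ι) (a : ι → ℝ≥0∞) :
    ∑ v ∈ V, a v ^ p ≤ (∑ v ∈ V, a v) ^ p := by
  classical
  induction V using Finset.induction_on with
  | empty => simp
  | insert u s hu ih =>
    rw [Finset.sum_insert hu, Finset.sum_insert hu]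
    exact (add_le_add le_rfl ih).trans (ENNReal.add_rpow_le_rpow_add _ _ hp)

/-- The pieces carry at most the whole sum of powers. -/
theorem gbox_sum_le {p : ℝ} (hp : 1 ≤ p) {r : ℕ} {V : Finset (Site d)} {c : Site d → ℝ≥0∞}
    {f g : Prof d} (h : ∀ y, f y = ∑ v ∈ V, c v * sh v (cube d r) y + g y) :
    (∑ v ∈ V, c v ^ p) * mass (cube d r) ≤ nq p f := by
  have hp0 : 0 < p := by linarith
  rw [Finset.sum_mul, Finset.sum_congr rfl fun v _ => (gbox_nq_piece hp0 r (c v) v).symm]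
  rw [← Summable.tsum_finsetSum (fun _ _ => ENNReal.summable)]
  refine ENNReal.tsum_le_tsum fun y => (gbox_sum_pow hp V _).trans ?_
  refine ENNReal.rpow_le_rpow ?_ hp0.le
  rw [h y]
  exact le_self_add

theorem gbox_mass_sum {r : ℕ} {V : Finset (Site d)} {c : Site d → ℝ≥0∞}
    {f g : Prof d} (h : ∀ y, f y = ∑ v ∈ V, c v * sh v (cube d r) y + g y) :
    (∑ v ∈ V, c v) * mass (cube d r) ≤ mass f := by
  have h1 := gbox_sum_le (p := 1) le_rfl h
  simpa [nq, mass] using h1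

theorem gbox_pow_split {p : ℝ} (hp : 1 ≤ p) (a : ℝ≥0∞) : a ^ p = a ^ (p - 1) * a := by
  have h := ENNReal.rpow_add_of_nonneg (x := a) (p - 1) 1 (by linarith) zero_le_one
  rwa [sub_add_cancel, ENNReal.rpow_one] at h

theorem gbox_nq_le {p : ℝ} (hp : 1 ≤ p) {g : Prof d} {t : ℝ≥0∞} (h : ∀ y, g y ≤ t) :
    nq p g ≤ t ^ (p - 1) * mass g := by
  rw [nq, mass, ← ENNReal.tsum_mul_left]
  refine ENNReal.tsum_le_tsum fun y => ?_
  rw [gbox_pow_split hp]
  exact mul_le_mul_left (ENNReal.rpow_le_rpow (h y) (by linarith)) _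

theorem gbox_disj {p : ℝ} (hp : 0 < p) {r b : ℕ} {V : Finset (Site d)}
    (hV : ∀ v ∈ V, ∀ v' ∈ V, v ≠ v' → v - v' ∉ box d (2 * (r + b))) (c : Site d → ℝ≥0∞)
    (y : Site d) : (∑ v ∈ V, c v * sh v (cube d r) y) ^ p ≤
      ∑ v ∈ V, (c v * sh v (cube d r) y) ^ p := by
  by_cases hex : ∃ u ∈ V, cube d r (y - u) ≠ 0
  · obtain ⟨u, hu, hy⟩ := hex
    rw [Finset.sum_eq_single_of_mem u hu]
    · exact Finset.single_le_sum (f := fun v => (c v * sh v (cube d r) y) ^ p)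
        (fun _ _ => zero_le) hu
    · intro v hv hne
      have h0 : cube d r (y - v) = 0 := by
        by_contra h0
        refine hV v hv u hu hne (heat_mem_box.2 fun i => ?_)
        have h1 := heat_mem_box.1 (gbox_cube_box hy) i
        have h2 := heat_mem_box.1 (gbox_cube_box h0) i
        simp only [Pi.sub_apply] at h1 h2 ⊢
        push_cast
        omega
      simp [sh, h0]
  · have h0 : ∑ v ∈ V, c v * sh v (cube d r) y = 0 := Finset.sum_eq_zero fun v hv => by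
      have : cube d r (y - v) = 0 := by
        by_contra h0
        exact hex ⟨v, hv, h0⟩
      simp [sh, this]
    rw [h0, ENNReal.zero_rpow_of_pos hp]
    exact zero_le

/-- The pieces carry nearly the whole sum of powers. -/
theorem gbox_sum_ge {p : ℝ} (hp : 1 ≤ p) (hp2 : p ≤ 2) {r b : ℕ} {V : Finset (Site d)}
    (hV : ∀ v ∈ V, ∀ v' ∈ V, v ≠ v' → v - v' ∉ box d (2 * (r + b))) {c : Site d → ℝ≥0∞}
    {f g : Prof d} (h : ∀ y, f y = ∑ v ∈ V, c v * sh v (cube d r) y + g y) {t : ℝ≥0∞}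
    (ht : ∀ y, f y ≤ t) :
    nq p f ≤ (∑ v ∈ V, c v ^ p) * mass (cube d r) + 2 * (t ^ (p - 1) * mass g) := by
  have hp0 : 0 < p := by linarith
  rw [Finset.sum_mul, Finset.sum_congr rfl fun v _ => (gbox_nq_piece hp0 r (c v) v).symm]
  rw [← Summable.tsum_finsetSum (fun _ _ => ENNReal.summable), mass, ← ENNReal.tsum_mul_left,
    ← ENNReal.tsum_mul_left, ← ENNReal.tsum_add]
  refine ENNReal.tsum_le_tsum fun y => ?_
  have h1 := add_rpow_le hp hp2 (∑ v ∈ V, c v * sh v (cube d r) y) (g y)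
  rw [← h y] at h1
  refine h1.trans (add_le_add (gbox_disj hp0 hV c y) ?_)
  rw [mul_comm (g y)]
  exact mul_le_mul_right (mul_le_mul_left (ENNReal.rpow_le_rpow (ht y) (by linarith)) _) _

/-- The pieces of small height carry little. -/
theorem gbox_good {p : ℝ} (hp : 1 ≤ p) {r : ℕ} {V : Finset (Site d)} {c : Site d → ℝ≥0∞}
    {f g : Prof d} (h : ∀ y, f y = ∑ v ∈ V, c v * sh v (cube d r) y + g y) (s : ℝ≥0∞) :
    (∑ v ∈ V, c v ^ p) * mass (cube d r) ≤
      (∑ v ∈ V with s ≤ c v, c v ^ p) * mass (cube d r) + s ^ (p - 1) * mass f := by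
  rw [← Finset.sum_filter_add_sum_filter_not V (fun v => s ≤ c v), add_mul]
  refine add_le_add le_rfl ?_
  refine le_trans ?_ (mul_le_mul_right (gbox_mass_sum h) _)
  rw [← mul_assoc]
  refine mul_le_mul_left ?_ _
  rw [Finset.mul_sum]
  refine le_trans (Finset.sum_le_sum fun v hv => ?_)
    (Finset.sum_le_sum_of_subset (Finset.filter_subset (fun v => ¬ s ≤ c v) V))
  rw [gbox_pow_split hp]
  exact mul_le_mul_left (ENNReal.rpow_le_rpow (not_le.1 (Finset.mem_filter.1 hv).2).le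
    (by linarith)) _

theorem gbox_hpow (hd : 1 ≤ d) {δ x : ℝ} (hδ : 0 ≤ δ) (hx : 0 < x) :
    (δ * x ^ (-(d : ℝ) / 2)) ^ (q0 d - 1) = δ ^ (2 / d : ℝ) / x := by
  have hd0 : (d : ℝ) ≠ 0 := by positivity
  have h1 : q0 d - 1 = 2 / d := by simp [q0]
  rw [h1, Real.mul_rpow hδ (Real.rpow_nonneg hx.le _), ← Real.rpow_mul hx.le]
  have h2 : -(d : ℝ) / 2 * (2 / d) = -1 := by field_simp
  rw [h2, Real.rpow_neg_one, div_eq_mul_inv _ x]

theorem gbox_hpow_le (hd : 2 ≤ d) {C x : ℝ} (hC : 1 ≤ C) (hx : 0 < x) :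
    ENNReal.ofReal (C * x ^ (-(d : ℝ) / 2)) ^ (q0 d - 1) ≤ ENNReal.ofReal (C / x) := by
  have hd2 : (2 : ℝ) ≤ d := by exact_mod_cast hd
  have h1 : 0 ≤ q0 d - 1 := by
    simp only [q0, add_sub_cancel_left]
    positivity
  rw [ENNReal.ofReal_rpow_of_nonneg (by positivity) h1, gbox_hpow (by omega) (by linarith) hx]
  refine ENNReal.ofReal_le_ofReal (div_le_div_of_nonneg_right ?_ hx.le)
  have h2 := Real.rpow_le_rpow_of_exponent_le hC
    (show (2 / d : ℝ) ≤ 1 from (div_le_one (by linarith)).2 hd2)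
  rwa [Real.rpow_one] at h2

section
variable {ρ : Measure ℝ≥0} [IsProbabilityMeasure ρ] {p l : ℝ}

theorem gbox_piece (hp : 0 < p) {a : ℝ≥0∞} (ha : a ≠ ⊤) (s : ℝ≥0∞) (r : ℕ) (v : Site d) :
    XX ρ p l (a * s) (sca a (sh v (cube d r))) = a ^ p * XX ρ p l s (cube d r) := by
  rw [XX_sca hp ha, XX_sh]

theorem gbox_nice {a : ℝ≥0∞} (ha : a ≠ ⊤) (r : ℕ) (v : Site d) :
    Nice (sca a (sh v (cube d r))) := ((nice_cube r).of_sh v).of_sca ha

/-- Lower bound of the gain by the tall pieces. -/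
theorem gbox_lower (hd : 1 ≤ d) (hm : Mean1 ρ) (hp : 1 < p) (hp2 : p < 2) (h0 : 0 < l)
    (h1 : l < 1) {r : ℕ} {V : Finset (Site d)} {c : Site d → ℝ≥0∞} {f g : Prof d} (hf : Nice f)
    (hf1 : mass f = 1) (h : ∀ y, f y = ∑ v ∈ V, c v * sh v (cube d r) y + g y) {c₂ : ℝ}
    (hc : 0 ≤ c₂) {t s : ℝ≥0∞} (hs : ENNReal.ofReal (1 + c₂) ≤ t * s) :
    (∑ v ∈ V with t ≤ c v, c v ^ p) * XX ρ p l s (cube d r) ≤ XX ρ p l (ENNReal.ofReal c₂) f := by
  refine le_trans ?_ (box_low hd hm hp hp2 h0 h1 (V.filter fun v => t ≤ c v)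
    (fun v => sca (c v) (sh v (cube d r))) hf (fun y => ?_) hc)
  · rw [Finset.sum_mul]
    refine Finset.sum_le_sum fun v hv => ?_
    obtain ⟨hv1, hv2⟩ := Finset.mem_filter.1 hv
    have ha : c v ≠ ⊤ := ne_top_of_le_ne_top (hf.2.1 v) (gbox_c_le h hv1)
    rw [← gbox_piece (by linarith) ha s r v]
    refine XX_anti hd hm hp hp2.le h0 h1 ?_ (gbox_nice ha r v)
    refine le_trans (ENNReal.ofReal_le_ofReal ?_) (hs.trans (mul_le_mul_left hv2 _))
    have h2 : mr f = 1 := by simp [mr, hf1]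
    have h3 := gres2_mr_nonneg (sca (c v) (sh v (cube d r)))
    linarith
  · rw [h y]
    exact (Finset.sum_le_sum_of_subset (Finset.filter_subset _ V)).trans le_self_add

/-- Upper bound of the gains of the pieces. -/
theorem gbox_pieces (hd : 1 ≤ d) (hm : Mean1 ρ) (hp : 1 < p) (hp2 : p < 2) (h0 : 0 < l)
    (h1 : l < 1) {r : ℕ} {V : Finset (Site d)} {c : Site d → ℝ≥0∞} {t s : ℝ≥0∞} (ht : t ≠ ⊤)
    (hc : ∀ v ∈ V, c v ≤ t) {c₁ : ℝ} (hc₁ : 0 ≤ c₁)
    (hs : t * s ≤ ENNReal.ofReal ((1 + c₁) / 2))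
    (hw : ∀ v ∈ V, mr (sca (c v) (sh v (cube d r))) ≤ 2⁻¹) :
    ∑ v ∈ V, XX ρ p l (ENNReal.ofReal (c₁ + 1 - mr (sca (c v) (sh v (cube d r)))))
        (sca (c v) (sh v (cube d r))) ≤ (∑ v ∈ V, c v ^ p) * XX ρ p l s (cube d r) := by
  rw [Finset.sum_mul]
  refine Finset.sum_le_sum fun v hv => ?_
  have ha : c v ≠ ⊤ := ne_top_of_le_ne_top ht (hc v hv)
  rw [← gbox_piece (by linarith) ha s r v]
  refine XX_anti hd hm hp hp2.le h0 h1 ?_ (gbox_nice ha r v)
  refine ((mul_le_mul_left (hc v hv) _).trans hs).trans (ENNReal.ofReal_le_ofReal ?_)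
  have h3 := hw v hv
  linarith

end

end Pool.Agent.Lib.MP_153faa_pr
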