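import Mathlib
import Pool.Agent.Lib.MP_153faa_pr.GBox1

set_option autoImplicit false

open MeasureTheory Filter Topology
open scoped ENNReal NNReal

namespace Pool.Agent.Lib.MP_153faa_pr

variable {d : ℕ}

theorem gbox_exp_sq {C Z k : ℝ} (hC : 1 ≤ C) (hZ : 24 * C ≤ Z) (hk : Z ≤ k) :
    Real.exp (-(k ^ 2 / C)) ≤ (Z ^ 24)⁻¹ := by
  have hZ0 : 0 < Z := by linarith
  rw [Real.exp_neg]
  refine inv_anti₀ (by positivity) ?_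
  have h1 : Z ≤ Real.exp Z := by linarith [Real.add_one_le_exp Z]
  have h2 : Z ^ 24 ≤ Real.exp Z ^ 24 := pow_le_pow_left₀ hZ0.le h1 24
  rw [← Real.exp_nat_mul] at h2
  refine h2.trans (Real.exp_le_exp.2 ?_)
  rw [le_div_iff₀ (by linarith)]
  push_cast
  nlinarith

/-- The tiling with the scales of the comparison. -/
theorem gbox_tile (hd : 1 ≤ d) : ∃ C : ℝ, 1 ≤ C ∧ ∀ l Z : ℝ, 0 < l → l < 1 → C ≤ Z →
    ∃ r b : ℕ, 1 ≤ r ∧ Z ^ 3 / √l ≤ b ∧ l * (r : ℝ) ^ 2 ≤ Z ^ (4 * d + 106) ∧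
      ∀ m : ℕ, Z ^ (8 * d + 240) / l ≤ m →
        ∃ (V : Finset (Site d)) (c : Site d → ℝ≥0∞) (g : Prof d),
          (∀ v ∈ V, ∀ v' ∈ V, v ≠ v' → v - v' ∉ box d (2 * (r + b))) ∧
          (∀ y, phi d m y = ∑ v ∈ V, c v * sh v (cube d r) y + g y) ∧
          mass g ≤ ENNReal.ofReal (Z ^ 23)⁻¹ := by
  obtain ⟨C, hC, H⟩ := hk_tile hd
  refine ⟨24 * C, by linarith, fun l Z h0 h1 hZ => ?_⟩
  have hZ2 : 2 ≤ Z := by linarith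
  have hZ0 : 0 < Z := by linarith
  have hZ1 : 1 ≤ Z := by linarith
  have hs0 : 0 < √l := Real.sqrt_pos.2 h0
  have hs1 : √l ≤ 1 := Real.sqrt_le_one.2 h1.le
  obtain ⟨k, hk1, hk2⟩ : ∃ k : ℕ, Z ≤ k ∧ (k : ℝ) ≤ Z ^ 2 :=
    ⟨⌈Z⌉₊, Nat.le_ceil Z, by nlinarith [Nat.ceil_lt_add_one hZ0.le]⟩
  have hk0 : (0 : ℝ) < k := by linarith
  have hk3 : 1 ≤ k := by exact_mod_cast (show (1 : ℝ) ≤ k by linarith)
  obtain ⟨b, hb1, hb2⟩ : ∃ b : ℕ, Z ^ 3 / √l ≤ b ∧ √l * (b + 1) ≤ Z ^ 5 := by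
    refine ⟨⌈Z ^ 3 / √l⌉₊, Nat.le_ceil _, ?_⟩
    have h2 := Nat.ceil_lt_add_one (show 0 ≤ Z ^ 3 / √l by positivity)
    have h3 : √l * (Z ^ 3 / √l) = Z ^ 3 := by field_simp
    have h4 : 1 ≤ Z ^ 3 := one_le_pow₀ hZ1
    have h5 : 3 * Z ^ 3 ≤ Z ^ 5 := by
      have : Z ^ 5 = Z ^ 2 * Z ^ 3 := by ring
      rw [this]
      exact mul_le_mul_of_nonneg_right (by nlinarith) (by positivity)
    nlinarith
  obtain ⟨r, hr⟩ : ∃ r : ℕ, r = (b + 1) * k ^ (d + 24) := ⟨_, rfl⟩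
  have hrR : (r : ℝ) = (b + 1) * (k : ℝ) ^ (d + 24) := by rw [hr]; push_cast; ring
  have hkp : 1 ≤ k ^ (d + 24) := Nat.one_le_pow _ _ hk3
  have hbr : b + 1 ≤ r := by rw [hr]; nlinarith
  have hr2 : √l * r ≤ Z ^ (2 * d + 53) := by
    have h2 : (k : ℝ) ^ (d + 24) ≤ (Z ^ 2) ^ (d + 24) := pow_le_pow_left₀ hk0.le hk2 _
    calc √l * r = √l * (b + 1) * (k : ℝ) ^ (d + 24) := by rw [hrR]; ring
      _ ≤ Z ^ 5 * (Z ^ 2) ^ (d + 24) := by gcongr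
      _ = Z ^ (2 * d + 53) := by ring
  refine ⟨r, b, by omega, hb1, ?_, fun m hm => ?_⟩
  · calc l * (r : ℝ) ^ 2 = (√l * r) ^ 2 := by rw [mul_pow, Real.sq_sqrt h0.le]
      _ ≤ (Z ^ (2 * d + 53)) ^ 2 := by gcongr
      _ = Z ^ (4 * d + 106) := by ring
  have hlm : Z ^ (8 * d + 240) ≤ l * m := by rwa [div_le_iff₀' h0] at hm
  have hm0 : (0 : ℝ) < m := lt_of_lt_of_le (by positivity) hm
  have hm1 : 1 ≤ m := by exact_mod_cast hm0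
  obtain ⟨V, c, g, hV, -, hf, hg⟩ := H m r b k hm1 (by omega) hk3
  refine ⟨V, c, g, hV, hf, hg.trans (ENNReal.ofReal_le_ofReal ?_)⟩
  have hsm : Z ^ (4 * d + 120) ≤ √l * √m := by
    rw [← Real.sqrt_mul h0.le]
    refine Real.le_sqrt_of_sq_le (le_trans (le_of_eq ?_) hlm)
    ring
  have hsm0 : 0 < √(m : ℝ) := Real.sqrt_pos.2 hm0
  have e1 : (k : ℝ) ^ d * ((b + 1) / r) ≤ (Z ^ 24)⁻¹ := by
    have : (k : ℝ) ^ d * ((b + 1) / r) = ((k : ℝ) ^ 24)⁻¹ := by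
      rw [hrR]
      field_simp
      ring
    rw [this]
    exact inv_anti₀ (by positivity) (pow_le_pow_left₀ hZ0.le hk1 _)
  have e2 : (k : ℝ) ^ d * ((r + b) / √m) ≤ 2 * (Z ^ 24)⁻¹ := by
    have h2 : (k : ℝ) ^ d ≤ (Z ^ 2) ^ d := pow_le_pow_left₀ hk0.le hk2 _
    have h3 : (b : ℝ) ≤ r := by exact_mod_cast (show b ≤ r by omega)
    have h4 : ((r : ℝ) + b) / √m ≤ 2 * (Z ^ (2 * d + 53) / Z ^ (4 * d + 120)) := by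
      calc ((r : ℝ) + b) / √m ≤ 2 * r / √m := by gcongr; linarith
        _ = 2 * (√l * r / (√l * √m)) := by field_simp
        _ ≤ _ := by gcongr
    calc (k : ℝ) ^ d * ((r + b) / √m) ≤ (Z ^ 2) ^ d * (2 * (Z ^ (2 * d + 53) / Z ^ (4 * d + 120))) := by
          gcongr
      _ = 2 * (Z ^ 67)⁻¹ := by field_simp; ring
      _ ≤ _ := by gcongr; norm_num
  have e3 := gbox_exp_sq hC hZ hk1
  have e4 : C * (4 * (Z ^ 24)⁻¹) ≤ (Z ^ 23)⁻¹ := by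
    calc C * (4 * (Z ^ 24)⁻¹) = 4 * C * (Z ^ 24)⁻¹ := by ring
      _ ≤ Z * (Z ^ 24)⁻¹ := by gcongr; linarith
      _ = _ := by field_simp
  have e5 : (k : ℝ) ^ d * ((b + 1) / r) + (k : ℝ) ^ d * ((r + b) / √m) +
      Real.exp (-((k : ℝ) ^ 2 / C)) ≤ 4 * (Z ^ 24)⁻¹ := by linarith
  calc _ = C * ((k : ℝ) ^ d * ((b + 1) / r) + (k : ℝ) ^ d * ((r + b) / √m) +
      Real.exp (-((k : ℝ) ^ 2 / C))) := by ring
    _ ≤ C * (4 * (Z ^ 24)⁻¹) := by gcongr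
    _ ≤ _ := e4

theorem gbox_exp : ∃ K : ℝ, 16 ≤ K ∧ ∀ l Z x : ℝ, 0 < l → Real.log l ^ 2 ≤ Z → K ≤ Z →
    x ≤ l ^ (-(1 / 16) : ℝ) → x * Real.exp (-(Z / 20)) ≤ (Z ^ 21)⁻¹ := by
  obtain ⟨f, hf, hf'⟩ : ∃ f : ℝ, 1 ≤ f ∧ f = (Nat.factorial 22 : ℝ) :=
    ⟨_, by exact_mod_cast Nat.factorial_pos 22, rfl⟩
  have hK : (16 : ℝ) ≤ 30 ^ 22 * f := by nlinarith
  refine ⟨30 ^ 22 * f, hK, fun l Z x h0 hl hZ hx => ?_⟩
  have hZ0 : 0 < Z := by linarith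
  have h1 : |Real.log l| ≤ Z / 4 := abs_le_of_sq_le_sq' (by nlinarith) (by linarith) |> abs_le.2
  have h2 : x ≤ Real.exp (Z / 64) := by
    rw [Real.rpow_def_of_pos h0] at hx
    refine hx.trans (Real.exp_le_exp.2 ?_)
    linarith [(abs_le.1 h1).1]
  have h3 : Z ^ 21 ≤ Real.exp (Z / 30) := by
    refine le_trans ?_ (Real.pow_div_factorial_le_exp (Z / 30) (by positivity) 22)
    rw [← hf', div_pow, div_div, le_div_iff₀ (by positivity)]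
    calc Z ^ 21 * (30 ^ 22 * f) ≤ Z ^ 21 * Z := by gcongr
      _ = Z ^ 22 := by ring
  calc x * Real.exp (-(Z / 20)) ≤ Real.exp (Z / 64) * Real.exp (-(Z / 20)) := by gcongr
    _ ≤ Real.exp (-(Z / 30)) := by
      rw [← Real.exp_add]
      exact Real.exp_le_exp.2 (by linarith)
    _ ≤ _ := by
      rw [Real.exp_neg]
      exact inv_anti₀ (by positivity) h3

/-- The error terms. -/
theorem gbox_err {Cb Cs l Z m r S : ℝ} (hb : 1 ≤ Cb) (hs : 1 ≤ Cs) (h0 : 0 < l)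
    (hZ : 243 * Cb * Cs ^ 2 ≤ Z) (hr : l * r ^ 2 ≤ Z ^ (4 * d + 106))
    (hm : Z ^ (8 * d + 240) ≤ l * m) (hS0 : 0 ≤ S) (hS : S ≤ Cs / (m / (9 * r ^ 2)))
    (hr0 : 0 < r) (he : l * m * Real.exp (-(Z / 20)) ≤ (Z ^ 21)⁻¹) :
    l * m * (Cb * Z / l * (Cs / m * (Z ^ 23)⁻¹) + Cb * (Z ^ 2 * S ^ 2 + Real.exp (-(Z / 20)))) ≤
      (Z ^ 20)⁻¹ := by
  have hs2 : Cs ≤ Cs ^ 2 := by nlinarith
  have hbs : 1 ≤ Cb * Cs ^ 2 := by nlinarith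
  have hZ1 : 1 ≤ Z := by linarith
  have hZ0 : 0 < Z := by linarith
  have hlm : 0 < l * m := lt_of_lt_of_le (by positivity) hm
  have hm0 : 0 < m := (pos_iff_pos_of_mul_pos hlm).1 h0
  have e0 : Z * (Z ^ 21)⁻¹ = (Z ^ 20)⁻¹ := by field_simp
  have e1 : l * m * (Cb * Z / l * (Cs / m * (Z ^ 23)⁻¹)) ≤ Cb * Cs ^ 2 * (Z ^ 21)⁻¹ := by
    calc _ = Cb * Cs * (Z ^ 22)⁻¹ := by field_simp
      _ ≤ _ := by gcongr; norm_num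
  have e2 : l * m * (Cb * (Z ^ 2 * S ^ 2)) ≤ 81 * Cb * Cs ^ 2 * (Z ^ 21)⁻¹ := by
    calc _ ≤ l * m * (Cb * (Z ^ 2 * (Cs / (m / (9 * r ^ 2))) ^ 2)) := by gcongr
      _ = 81 * Cb * Cs ^ 2 * (Z ^ 2 * (l * r ^ 2) ^ 2 / (l * m)) := by field_simp; ring
      _ ≤ 81 * Cb * Cs ^ 2 * (Z ^ 2 * (Z ^ (4 * d + 106)) ^ 2 / Z ^ (8 * d + 240)) := by gcongr
      _ = 81 * Cb * Cs ^ 2 * (Z ^ 26)⁻¹ := by field_simp; ring
      _ ≤ _ := by gcongr; norm_num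
  have e3 : l * m * (Cb * Real.exp (-(Z / 20))) ≤ Cb * Cs ^ 2 * (Z ^ 21)⁻¹ := by
    calc _ = Cb * 1 * (l * m * Real.exp (-(Z / 20))) := by ring
      _ ≤ _ := by gcongr; nlinarith
  have e4 : 83 * (Cb * Cs ^ 2) * (Z ^ 21)⁻¹ ≤ Z * (Z ^ 21)⁻¹ := by gcongr; linarith
  calc _ = l * m * (Cb * Z / l * (Cs / m * (Z ^ 23)⁻¹)) + l * m * (Cb * (Z ^ 2 * S ^ 2)) +
      l * m * (Cb * Real.exp (-(Z / 20))) := by ring
    _ ≤ _ := by linarith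

/-- The mass of one piece. -/
theorem gbox_mr_le {Cs m : ℝ} (hs : 0 ≤ Cs) (hm : 0 < m) {r : ℕ} (hr : 1 ≤ r) {a : ℝ≥0∞}
    (ha : a ≤ ENNReal.ofReal (Cs * m ^ (-(d : ℝ) / 2))) (v : Site d) :
    mass (sca a (sh v (cube d r))) ≤
      ENNReal.ofReal (Cs * (m / (9 * (r : ℝ) ^ 2)) ^ (-(d : ℝ) / 2)) := by
  have hr1 : (1 : ℝ) ≤ r := by exact_mod_cast hr
  rw [gbox_mass_piece]
  refine (mul_le_mul' ha (gbox_mass_le r)).trans ?_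
  rw [← ENNReal.ofReal_mul (by positivity)]
  refine ENNReal.ofReal_le_ofReal ?_
  have h1 : (9 * (r : ℝ) ^ 2) ^ (-(d : ℝ) / 2) = ((3 * r : ℝ) ^ d)⁻¹ := by
    rw [show 9 * (r : ℝ) ^ 2 = (3 * r) ^ (2 : ℝ) by rw [Real.rpow_two]; ring,
      ← Real.rpow_mul (by positivity), ← Real.rpow_natCast, ← Real.rpow_neg (by positivity)]
    congr 1
    ring
  rw [Real.div_rpow hm.le (by positivity), h1, div_inv_eq_mul, ← mul_assoc]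
  gcongr
  linarith

end Pool.Agent.Lib.MP_153faa_pr
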