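import Mathlib
import Pool.Agent.Lib.MP_153faa_pr.GFlat

set_option autoImplicit false

open MeasureTheory Filter Topology
open scoped ENNReal NNReal

namespace Pool.Agent.Lib.MP_153faa_pr

variable {d : ℕ}

theorem gboxa_cancel {X : Type} [MeasurableSpace X] (μ : Measure X) [IsProbabilityMeasure μ]
    {f g : X → ℝ} (f0 : ∀ x, 0 ≤ f x) (g0 : ∀ x, 0 ≤ g x) {Y : X → ℝ≥0∞} (hY : Measurable Y)
    (Yt : ∀ x, Y x ≠ ⊤) {y k : ℝ} (hy : 0 ≤ y) (hm : ∫⁻ x, Y x ∂μ = ENNReal.ofReal y)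
    (h : ∀ x, f x = g x + k * ((Y x).toReal - y)) :
    ∫⁻ x, ENNReal.ofReal (f x) ∂μ = ∫⁻ x, ENNReal.ofReal (g x) ∂μ := by
  wlog hk : 0 ≤ k generalizing f g k
  · exact (this g0 f0 (k := -k) (fun x => by rw [h x]; ring) (by linarith)).symm
  have e : ∀ x, ENNReal.ofReal (f x) + ENNReal.ofReal k * ENNReal.ofReal y =
      ENNReal.ofReal (g x) + ENNReal.ofReal k * Y x := fun x => by
    rw [← ENNReal.ofReal_toReal (Yt x), ← ENNReal.ofReal_mul hk, ← ENNReal.ofReal_mul hk,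
      ← ENNReal.ofReal_add (f0 x) (by positivity), ← ENNReal.ofReal_add (g0 x) (by positivity), h x]
    exact congrArg _ (by ring)
  have := lintegral_congr (μ := μ) e
  rw [lintegral_add_right _ measurable_const, lintegral_add_right _ (hY.const_mul _),
    lintegral_const_mul _ hY, hm, lintegral_const, measure_univ, mul_one] at this
  exact (ENNReal.add_left_inj (ENNReal.mul_ne_top ENNReal.ofReal_ne_top ENNReal.ofReal_ne_top)).1
    this

theorem gboxa_step {X : Type} [MeasurableSpace X] (μ : Measure X) [IsProbabilityMeasure μ]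
    {Y : X → ℝ≥0∞} (hY : Measurable Y) (Yt : ∀ x, Y x ≠ ⊤) {p S x y : ℝ} (hp : 1 ≤ p) (hS : 0 ≤ S)
    (hy : 0 ≤ y) (hx : y ≤ x) (hm : ∫⁻ ω, Y ω ∂μ = ENNReal.ofReal y) :
    ∫⁻ ω, ENNReal.ofReal (br p S (x + ((Y ω).toReal - y))) ∂μ = ENNReal.ofReal (br p S x) +
      ∫⁻ ω, ENNReal.ofReal (br p x (x + ((Y ω).toReal - y))) ∂μ := by
  have h0 : ∀ ω, 0 ≤ x + ((Y ω).toReal - y) := fun ω => by
    linarith [ENNReal.toReal_nonneg (a := Y ω)]
  have h1 := br_nonneg hp hS (hy.trans hx)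
  have h2 := fun ω => br_nonneg hp (hy.trans hx) (h0 ω)
  rw [gboxa_cancel μ (fun ω => br_nonneg hp hS (h0 ω)) (fun ω => add_nonneg h1 (h2 ω)) hY Yt hy hm
    (k := p * (x ^ (p - 1) - S ^ (p - 1))) fun ω => by simp only [br]; ring]
  simp only [ENNReal.ofReal_add h1 (h2 _)]
  rw [lintegral_add_left measurable_const, lintegral_const, measure_univ, mul_one]

theorem gboxa_crude {X : Type} [MeasurableSpace X] (μ : Measure X) [IsProbabilityMeasure μ]
    {Y : X → ℝ≥0∞} (hY : Measurable Y) (Yt : ∀ x, Y x ≠ ⊤) {p x y : ℝ} (hp : 1 ≤ p) (hp2 : p ≤ 2)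
    (hy : 0 ≤ y) (hx : y ≤ x) (hm : ∫⁻ ω, Y ω ∂μ = ENNReal.ofReal y) :
    ∫⁻ ω, ENNReal.ofReal (br p x (x + ((Y ω).toReal - y))) ∂μ ≤ 8 * ∫⁻ ω, Y ω ^ p ∂μ := by
  have hp0 : 0 ≤ p := by linarith
  calc _ ≤ ∫⁻ ω, 4 * (Y ω ^ p + ENNReal.ofReal y ^ p) ∂μ := by
        refine lintegral_mono fun ω => ?_
        have h0 := ENNReal.toReal_nonneg (a := Y ω)
        have h1 := Real.rpow_nonneg h0 p
        have h2 := Real.rpow_nonneg hy p
        have h3 : |(Y ω).toReal - y| ^ p ≤ (Y ω).toReal ^ p + y ^ p := by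
          rcases le_total y (Y ω).toReal with h | h
          · exact le_add_of_le_of_nonneg (Real.rpow_le_rpow (abs_nonneg _)
              (abs_le.2 ⟨by linarith, by linarith⟩) hp0) h2
          · exact le_add_of_nonneg_of_le h1 (Real.rpow_le_rpow (abs_nonneg _)
              (abs_le.2 ⟨by linarith, by linarith⟩) hp0)
        refine (ENNReal.ofReal_le_ofReal ((br_le_abs hp hp2 (hy.trans hx) (by linarith)).trans
          (mul_le_mul_of_nonneg_left (le_of_eq_of_le (by rw [add_sub_cancel_left]) h3)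
            (by norm_num)))).trans_eq ?_
        rw [ENNReal.ofReal_mul (by norm_num), ENNReal.ofReal_add h1 h2,
          ← ENNReal.ofReal_rpow_of_nonneg h0 hp0, ← ENNReal.ofReal_rpow_of_nonneg hy hp0,
          ENNReal.ofReal_toReal (Yt ω), ENNReal.ofReal_ofNat]
    _ ≤ 4 * (∫⁻ ω, Y ω ^ p ∂μ + ∫⁻ ω, Y ω ^ p ∂μ) := by
        rw [lintegral_const_mul' _ _ ENNReal.ofNat_ne_top, lintegral_add_right _ measurable_const,
          lintegral_const, measure_univ, mul_one, ← hm]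
        gcongr
        exact jensen_convex μ hY.aemeasurable hp
    _ = _ := by ring

theorem gboxa_fine {X : Type} [MeasurableSpace X] (μ : Measure X) [IsProbabilityMeasure μ]
    {Y : X → ℝ≥0∞} (hY : Measurable Y) (Yt : ∀ x, Y x ≠ ⊤) {p₀ η p S x y : ℝ} (hp₀ : 1 < p₀)
    (hη : 0 < η) (hη2 : η ≤ 1 / 4) (hp : p₀ ≤ p) (hp2 : p ≤ 2) (hS : 1 ≤ S)
    (hy : 0 ≤ y) (hyη : y ≤ η) (hx : y ≤ x) (hm : ∫⁻ ω, Y ω ∂μ = ENNReal.ofReal y) :
    ∫⁻ ω, ENNReal.ofReal (br p x (x + ((Y ω).toReal - y))) ∂μ ≤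
      ENNReal.ofReal (1 + 4 * η) * ∫⁻ ω, ENNReal.ofReal (br p S (S - y + (Y ω).toReal)) ∂μ +
      ENNReal.ofReal (br p S x) *
        (ENNReal.ofReal (4 / ((p₀ - 1) * η ^ 2)) * (8 * ∫⁻ ω, Y ω ^ p ∂μ)) := by
  rcases le_total ((1 - η) * S) x with h | h
  · refine le_add_right ?_
    rw [← lintegral_const_mul' _ _ ENNReal.ofReal_ne_top]
    refine lintegral_mono fun ω => ?_
    rw [← ENNReal.ofReal_mul (by linarith), sub_add, ← sub_add, sub_add_eq_add_sub, add_sub_assoc]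
    exact ENNReal.ofReal_le_ofReal (br_shift_le (by linarith) hp2 hη hη2 (by linarith) h
      (by nlinarith [ENNReal.toReal_nonneg (a := Y ω)]))
  · refine le_add_left ((gboxa_crude μ hY Yt (by linarith) hp2 hy hx hm).trans ?_)
    rw [← mul_assoc]
    refine le_mul_of_one_le_left zero_le ?_
    have h1 := br_ge_small (p := p) (by linarith) hp2 hη.le (hy.trans hx) h (by linarith)
    have h2 : 1 ≤ S ^ p := Real.one_le_rpow hS (by linarith)
    have h3 : 0 < (p₀ - 1) * η ^ 2 := mul_pos (by linarith) (by positivity)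
    rw [← ENNReal.ofReal_mul' (by positivity), ENNReal.one_le_ofReal, ← mul_div_assoc,
      le_div_iff₀ h3]
    have h4 : (p₀ - 1) * η ^ 2 * 1 ≤ (p - 1) * η ^ 2 * S ^ p :=
      mul_le_mul (mul_le_mul_of_nonneg_right (by linarith) (by positivity)) h2 zero_le_one
        (mul_nonneg (by linarith) (by positivity))
    linarith

/-- One big jump for independent nonnegative variables. -/
theorem big_jump {p₀ η : ℝ} (hp₀ : 1 < p₀) (hη : 0 < η) (hη2 : η ≤ 1 / 4) : ∃ C : ℝ, 1 ≤ C ∧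
    ∀ {ι κ : Type} [Countable ι] (m : Measure ℝ≥0) [IsProbabilityMeasure m] (p a : ℝ)
      (V : Finset κ) (A : κ → Set ι) (Y : κ → (ι → ℝ≥0) → ℝ≥0∞) (y : κ → ℝ),
      p₀ ≤ p → p ≤ 2 → 0 ≤ a → (∀ v ∈ V, ∀ v' ∈ V, v ≠ v' → Disjoint (A v) (A v')) →
      (∀ v, Measurable (Y v)) → (∀ v ω, Y v ω ≠ ⊤) →
      (∀ v ω ω', (∀ i ∈ A v, ω i = ω' i) → Y v ω = Y v ω') → (∀ v, 0 ≤ y v) →
      (∀ v ∈ V, ∫⁻ ω, Y v ω ∂Measure.infinitePi (fun _ : ι => m) = ENNReal.ofReal (y v)) →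
      1 ≤ a + ∑ v ∈ V, y v → (∀ v ∈ V, y v ≤ η) →
      ∫⁻ ω, ENNReal.ofReal (br p (a + ∑ v ∈ V, y v) (a + ∑ v ∈ V, (Y v ω).toReal))
          ∂Measure.infinitePi (fun _ : ι => m) ≤
        ENNReal.ofReal (1 + 4 * η) * ∑ v ∈ V, ∫⁻ ω, ENNReal.ofReal (br p (a + ∑ v ∈ V, y v)
          (a + ∑ v ∈ V, y v - y v + (Y v ω).toReal)) ∂Measure.infinitePi (fun _ : ι => m) +
        ENNReal.ofReal C *
          (∑ v ∈ V, ∫⁻ ω, Y v ω ^ p ∂Measure.infinitePi (fun _ : ι => m)) ^ 2 := by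
  classical
  have hc : 0 ≤ 4 / ((p₀ - 1) * η ^ 2) :=
    div_nonneg (by norm_num) (mul_nonneg (by linarith) (by positivity))
  refine ⟨1 + 64 * (4 / ((p₀ - 1) * η ^ 2)), by linarith, ?_⟩
  intro ι κ _ m _ p a V A Y y hp hp2 ha hA hY Yt hdep hy hm hS hyη
  set μ := Measure.infinitePi (fun _ : ι => m) with hμ
  set S := a + ∑ v ∈ V, y v with hSd
  set c := ENNReal.ofReal (4 / ((p₀ - 1) * η ^ 2)) with hcd
  have hp1 : 1 ≤ p := by linarith
  have hE : ∀ U : Finset κ, Measurable fun ω =>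
      ENNReal.ofReal (br p S (S + ∑ v ∈ U, ((Y v ω).toReal - y v))) := fun U =>
    ((measurable_br p).comp (measurable_const.prodMk ((Finset.measurable_sum U fun v _ =>
      (hY v).ennreal_toReal.sub_const _).const_add _))).ennreal_ofReal
  have key : ∀ U : Finset κ, U ⊆ V →
      ∫⁻ ω, ENNReal.ofReal (br p S (S + ∑ v ∈ U, ((Y v ω).toReal - y v))) ∂μ ≤
        8 * ∑ v ∈ U, ∫⁻ ω, Y v ω ^ p ∂μ ∧
      ∫⁻ ω, ENNReal.ofReal (br p S (S + ∑ v ∈ U, ((Y v ω).toReal - y v))) ∂μ ≤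
        ENNReal.ofReal (1 + 4 * η) *
          ∑ v ∈ U, ∫⁻ ω, ENNReal.ofReal (br p S (S - y v + (Y v ω).toReal)) ∂μ +
        64 * c * (∑ v ∈ V, ∫⁻ ω, Y v ω ^ p ∂μ) * ∑ v ∈ U, ∫⁻ ω, Y v ω ^ p ∂μ := by
    intro U
    induction U using Finset.induction_on with
    | empty => simp [br]
    | insert v U hv ih =>
      intro hU
      have hvV := hU (Finset.mem_insert_self v U)
      have hUV := (Finset.subset_insert v U).trans hU
      obtain ⟨i1, i2⟩ := ih hUV
      have hx : ∀ ω, y v ≤ S + ∑ u ∈ U, ((Y u ω).toReal - y u) := fun ω => by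
        have h1 := Finset.sum_le_sum_of_subset_of_nonneg hU fun u _ _ => hy u
        have h2 : 0 ≤ ∑ u ∈ U, (Y u ω).toReal := Finset.sum_nonneg fun _ _ => ENNReal.toReal_nonneg
        rw [Finset.sum_insert hv] at h1
        rw [Finset.sum_sub_distrib]
        linarith
      have e : ∫⁻ ω, ENNReal.ofReal (br p S (S + ∑ u ∈ insert v U, ((Y u ω).toReal - y u))) ∂μ =
          ∫⁻ ω, ENNReal.ofReal (br p S (S + ∑ u ∈ U, ((Y u ω).toReal - y u))) ∂μ +
          ∫⁻ ω, ∫⁻ ω', ENNReal.ofReal (br p (S + ∑ u ∈ U, ((Y u ω).toReal - y u))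
            (S + ∑ u ∈ U, ((Y u ω).toReal - y u) + ((Y v ω').toReal - y v))) ∂μ ∂μ := by
        rw [splice_flat m (A v) (hE _), ← lintegral_add_left (hE U)]
        refine lintegral_congr fun ω => ?_
        rw [← gboxa_step μ (hY v) (Yt v) hp1 (by linarith) (hy v) (hx ω) (hm v hvV)]
        refine lintegral_congr fun ω' => ?_
        rw [Finset.sum_insert hv, hdep v _ ω' fun i hi => if_pos hi, add_comm (_ - _), ← add_assoc,
          Finset.sum_congr rfl fun u hu => by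
            rw [hdep u _ ω fun i hi => if_neg (Set.disjoint_left.1
              (hA u (hUV hu) v hvV fun h => hv (h ▸ hu)) hi)]]
      rw [e, Finset.sum_insert hv, Finset.sum_insert hv]
      constructor
      · refine (add_le_add i1 ((lintegral_mono fun ω => gboxa_crude μ (hY v) (Yt v) hp1 hp2 (hy v)
          (hx ω) (hm v hvV)).trans_eq (lintegral_const _))).trans_eq ?_
        rw [measure_univ]
        ring
      · refine (add_le_add i2 (lintegral_mono fun ω => gboxa_fine μ (hY v) (Yt v) hp₀ hη hη2 hp hp2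
          hS (hy v) (hyη v hvV) (hx ω) (hm v hvV))).trans ?_
        rw [lintegral_add_left measurable_const, lintegral_const, measure_univ,
          lintegral_mul_const _ (hE U)]
        refine (add_le_add_right (add_le_add_right (mul_le_mul_left (i1.trans (mul_le_mul_right
          (Finset.sum_le_sum_of_subset hUV) _)) _) _) _).trans_eq ?_
        ring
  refine le_of_eq_of_le (lintegral_congr fun ω => ?_) ((key V subset_rfl).2.trans ?_)
  · rw [Finset.sum_sub_distrib, hSd]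
    exact congrArg (fun t => ENNReal.ofReal (br p _ t)) (by ring)
  · rw [mul_assoc, ← sq]
    refine add_le_add_right (mul_le_mul_left ?_ _) _
    rw [ENNReal.ofReal_add zero_le_one (by positivity), ENNReal.ofReal_mul (by norm_num),
      ENNReal.ofReal_ofNat]
    exact le_add_self

end Pool.Agent.Lib.MP_153faa_pr
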