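import Mathlib
import Pool.Agent.Lib.MP_153faa_pr.GRes2
import Pool.Agent.Lib.MP_153faa_pr.GHK1

set_option autoImplicit false

open MeasureTheory Filter Topology
open scoped ENNReal NNReal

namespace Pool.Agent.Lib.MP_153faa_pr

variable {d : ℕ}

/-- The environment killed outside the set `B`. -/
noncomputable def kil (B : Finset (Site d)) (ω : ℕ → Layer d) : ℕ → Layer d :=
  fun k x => if x ∈ B then ω k x else 0

theorem measurable_kil (B : Finset (Site d)) : Measurable (kil B : (ℕ → Layer d) → _) := by
  refine measurable_pi_lambda _ fun k => measurable_pi_lambda _ fun x => ?_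
  unfold kil
  split_ifs
  · exact (measurable_pi_apply x).comp (measurable_pi_apply k)
  · exact measurable_const

theorem ev_kil_le (B : Finset (Site d)) (n : ℕ) (ω : ℕ → Layer d) (f : Prof d) :
    ev n (kil B ω) f ≤ ev n ω f := by
  refine ev_mono_env n (fun k x => ?_) f
  unfold kil
  split_ifs
  · exact le_rfl
  · exact zero_le

/-- Survival probabilities of the walk killed outside `B`. -/
noncomputable def gboxbW (B : Finset (Site d)) : ℕ → Prof d
  | 0 => fun _ => 1
  | n + 1 => avg fun x => if x ∈ B then gboxbW B n x else 0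

theorem gboxb_le_one (hd : 1 ≤ d) (B : Finset (Site d)) (n : ℕ) (x : Site d) :
    gboxbW B n x ≤ 1 := by
  induction n generalizing x with
  | zero => exact le_rfl
  | succ n ih =>
    refine avg_le hd (fun y => ?_) x
    split_ifs
    · exact ih y
    · exact zero_le

theorem gboxb_mean {ρ : Measure ℝ≥0} [IsProbabilityMeasure ρ] (hm : Mean1 ρ)
    (B : Finset (Site d)) (n : ℕ) (f : Prof d) :
    ∫⁻ ω, mass (ev n (kil B ω) f) ∂env d ρ = ∑' x, f x * gboxbW B n x := by
  induction n generalizing f with
  | zero => simp [gboxbW, mass]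
  | succ n ih =>
    rw [lintegral_env (F := fun ω => mass (ev (n + 1) (kil B ω) f))
      (measurable_mass.comp ((measurable_ev (n + 1) f).comp (measurable_kil B))), gboxbW,
      ← tsum_avg_mul, ← lintegral_lin hm]
    refine lintegral_congr fun ξ => (ih (step f fun x => if x ∈ B then ξ x else 0)).trans
      (tsum_congr fun x => ?_)
    by_cases c : x ∈ B
    · simp only [step, if_pos c]
      ring
    · simp [step, c]

theorem gboxb_low (hd : 1 ≤ d) (B : Finset (Site d)) {b L : ℕ} (hL : 0 < L) {x : Site d}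
    (hx : ∀ u ∈ box d b, x + u ∈ B) (n j : ℕ) (h : j + n ≤ L) :
    1 ≤ avg^[j] (gboxbW B n) x +
      n * ENNReal.ofReal (2 * d * Real.exp (-(b : ℝ) ^ 2 / (2 * L))) := by
  induction n generalizing j with
  | zero =>
    rw [gboxbW, Function.iterate_fixed (avg_one hd)]
    exact le_self_add
  | succ n ih =>
    have h1 : gboxbW B n ≤ (fun y => if y ∈ B then gboxbW B n y else 0) +
        fun y => if y ∈ B then 0 else 1 := fun y => by
      rw [Pi.add_apply]
      split_ifs
      · exact le_self_add
      · exact (gboxb_le_one hd B n y).trans le_add_self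
    have h2 : avg^[j + 1] (fun y => if y ∈ B then 0 else 1) x ≤
        ENNReal.ofReal (2 * d * Real.exp (-(b : ℝ) ^ 2 / (2 * L))) := by
      refine le_trans ?_ (hk_escape hd (show j + 1 ≤ L by omega) hL)
      rw [avg_iter_eq_phi, ← mass_sh x]
      refine ENNReal.tsum_le_tsum fun y => ?_
      by_cases c1 : y ∈ B
      · simp [c1]
      have c2 : y - x ∉ box d b := fun c2 => c1 (by simpa using hx _ c2)
      simp only [sh, if_neg c1, if_neg c2]
      rw [one_mul, ← phi_neg, neg_sub]
    have h3 := avg_iter_mono (j + 1) h1 x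
    rw [avg_iter_add, Pi.add_apply] at h3
    refine (ih (j + 1) (by omega)).trans ((add_le_add (h3.trans (add_le_add le_rfl h2)) le_rfl).trans
      (le_of_eq ?_))
    rw [gboxbW, ← Function.iterate_succ_apply, Nat.cast_succ]
    ring

/-- The killed evolution loses little mass in the mean. -/
theorem kil_mean (hd : 1 ≤ d) {ρ : Measure ℝ≥0} [IsProbabilityMeasure ρ] (hm : Mean1 ρ)
    (B : Finset (Site d)) (b n L : ℕ) (hn : n ≤ L) (hL : 0 < L) {f : Prof d}
    (hB : ∀ x, f x ≠ 0 → ∀ u ∈ box d b, x + u ∈ B) :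
    mass f ≤ ∫⁻ ω, mass (ev n (kil B ω) f) ∂env d ρ +
      ENNReal.ofReal (n * (2 * d * Real.exp (-(b : ℝ) ^ 2 / (2 * L)))) * mass f := by
  rw [gboxb_mean hm, ← mass_smul, ENNReal.ofReal_mul (Nat.cast_nonneg n), ENNReal.ofReal_natCast]
  unfold mass
  rw [← ENNReal.tsum_add]
  refine ENNReal.tsum_le_tsum fun x => ?_
  by_cases h : f x = 0
  · simp [h]
  · rw [mul_comm _ (f x), ← mul_add]
    exact le_mul_of_one_le_right' (gboxb_low hd B hL (hB x h) n 0 (by omega))

end Pool.Agent.Lib.MP_153faa_pr
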