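import Mathlib
import Pool.Agent.Lib.MP_153faa_pr.GBoxA

set_option autoImplicit false

open MeasureTheory Filter Topology
open scoped ENNReal NNReal

namespace Pool.Agent.Lib.MP_153faa_pr

theorem gboxup_abs_le {a b p : ℝ} (ha : 0 ≤ a) (hb : 0 ≤ b) (hp : 0 ≤ p) :
    |a - b| ^ p ≤ a ^ p + b ^ p := by
  have h1 := Real.rpow_nonneg ha p
  have h2 := Real.rpow_nonneg hb p
  rcases le_total a b with h | h
  · have : |a - b| ^ p ≤ b ^ p :=
      Real.rpow_le_rpow (abs_nonneg _) (abs_le.2 ⟨by linarith, by linarith⟩) hp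
    linarith
  · have : |a - b| ^ p ≤ a ^ p :=
      Real.rpow_le_rpow (abs_nonneg _) (abs_le.2 ⟨by linarith, by linarith⟩) hp
    linarith

theorem gboxup_sum_rpow {κ : Type} (V : Finset κ) (a : κ → ℝ) {p : ℝ} (hp : 1 ≤ p)
    (ha : ∀ v, 0 ≤ a v) : ∑ v ∈ V, a v ^ p ≤ (∑ v ∈ V, a v) ^ p := by
  classical
  induction V using Finset.induction_on with
  | empty => simpa using Real.rpow_nonneg le_rfl p
  | insert i s hi ih =>
    rw [Finset.sum_insert hi, Finset.sum_insert hi]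
    refine le_trans ?_ (Real.add_rpow_le_rpow_add (ha i) (Finset.sum_nonneg fun v _ => ha v) hp)
    linarith

theorem gboxup_mbr {X : Type} [MeasurableSpace X] {x : X → ℝ} (hx : Measurable x) (p M : ℝ) :
    Measurable fun ω => ENNReal.ofReal (br p M (x ω)) :=
  ((measurable_br p).comp (measurable_const.prodMk hx)).ennreal_ofReal

/-- The two pointwise inequalities. -/
theorem gboxup_pt {p₀ η : ℝ} (hp₀ : 1 < p₀) (hη : 0 < η) : ∃ C : ℝ, 1 ≤ C ∧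
    ∀ {κ : Type} (V : Finset κ) (Y K y k : κ → ℝ) (p c g G ε : ℝ), p₀ ≤ p → p ≤ 2 → 0 ≤ c →
      0 ≤ g → 0 ≤ G → ε ≤ 1 → (∀ v, 0 ≤ K v) → (∀ v, K v ≤ Y v) → (∀ v, 0 ≤ k v) →
      (∀ v, k v ≤ y v) → ∑ v ∈ V, y v + g = 1 → ∑ v ∈ V, (y v - k v) ≤ ε →
      br p (c + 1) (c + (∑ v ∈ V, Y v + G)) ≤
        (1 + η) ^ 2 * br p (c + 1) (c + 1 - ∑ v ∈ V, k v + ∑ v ∈ V, K v) + C * br p g G +
          C * (∑ v ∈ V, (Y v - K v)) ^ p + C * ε ∧
      ∑ v ∈ V, br p (c + 1) (c + 1 - k v + K v) ≤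
        (1 + η) * ∑ v ∈ V, br p (c + 1) (c + 1 - y v + Y v) +
          C * (∑ v ∈ V, (Y v - K v)) ^ p + C * ε := by
  obtain ⟨Cq, hCq, Hq⟩ := br_quasi hp₀ hη
  obtain ⟨Cm, hCm, Hm⟩ := min_le_br hp₀
  have hC : Cq ≤ (1 + η) * Cq * Cm := by
    have : 1 ≤ (1 + η) * Cm := one_le_mul_of_one_le_of_one_le (by linarith) hCm
    nlinarith
  refine ⟨(1 + η) * Cq * Cm, by linarith, ?_⟩
  intro κ V Y K y k p c g G ε hp hp2 hc hg hG hε hK hKY hk hky hs he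
  have hp1 : 1 ≤ p := by linarith
  set E := ∑ v ∈ V, (Y v - K v) with hE
  set e := ∑ v ∈ V, (y v - k v) with he'
  have hE0 : 0 ≤ E := Finset.sum_nonneg fun v _ => sub_nonneg.2 (hKY v)
  have he0 : 0 ≤ e := Finset.sum_nonneg fun v _ => sub_nonneg.2 (hky v)
  have hep : e ^ p ≤ ε := by
    calc e ^ p ≤ e ^ (1 : ℝ) := Real.rpow_le_rpow_of_exponent_ge' he0 (he.trans hε) zero_le_one hp1
      _ ≤ ε := by rwa [Real.rpow_one]
  have hEp := Real.rpow_nonneg hE0 p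
  have hε0 : 0 ≤ ε := he0.trans he
  have hsK : 0 ≤ ∑ v ∈ V, K v := Finset.sum_nonneg fun v _ => hK v
  have hsy : 0 ≤ ∑ v ∈ V, y v := Finset.sum_nonneg fun v _ => (hk v).trans (hky v)
  have e1 : E = ∑ v ∈ V, Y v - ∑ v ∈ V, K v := Finset.sum_sub_distrib _ _
  have e2 : e = ∑ v ∈ V, y v - ∑ v ∈ V, k v := Finset.sum_sub_distrib _ _
  have hend : Cq * (E ^ p + e ^ p) ≤ (1 + η) * Cq * Cm * E ^ p + (1 + η) * Cq * Cm * ε := by
    rw [← mul_add]
    exact mul_le_mul hC (by linarith) (add_nonneg hEp (Real.rpow_nonneg he0 p)) (by linarith)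
  constructor
  · set x := c + 1 - ∑ v ∈ V, k v + ∑ v ∈ V, K v with hx
    have e3 : c + (∑ v ∈ V, Y v + G) = x + (G - g) + (E - e) := by linarith
    have h1 := Hq p (c + 1) (x + (G - g)) (E - e) hp hp2 (by linarith) (by linarith) (by linarith)
    have h2 := Hq p (c + 1) x (G - g) hp hp2 (by linarith) (by linarith) (by linarith)
    have h3 := Hm p (c + 1) g G hp hp2 (by linarith) hg (by linarith) hG
    have h4 := (min_le_right ((E - e) ^ 2 * (c + 1) ^ (p - 2)) _).trans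
      (gboxup_abs_le hE0 he0 (by linarith : 0 ≤ p))
    have h5 := mul_le_mul_of_nonneg_left h4 (by linarith : 0 ≤ Cq)
    have h6 := mul_le_mul_of_nonneg_left h3 (by linarith : 0 ≤ Cq)
    have h7 := mul_le_mul_of_nonneg_left (h2.trans (add_le_add_right h6 _))
      (by linarith : 0 ≤ 1 + η)
    rw [e3]
    nlinarith
  · have h1 : ∀ v ∈ V, br p (c + 1) (c + 1 - k v + K v) ≤
        (1 + η) * br p (c + 1) (c + 1 - y v + Y v) +
          Cq * ((Y v - K v) ^ p + (y v - k v) ^ p) := fun v hv => by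
      have a1 : y v ≤ ∑ v ∈ V, y v :=
        Finset.single_le_sum (fun v _ => (hk v).trans (hky v)) hv
      have a2 := hK v
      have a3 := hKY v
      have a4 := hky v
      have a5 := Hq p (c + 1) (c + 1 - y v + Y v) ((y v - k v) - (Y v - K v)) hp hp2 (by linarith)
        (by linarith) (by linarith)
      have a6 := (min_le_right (((y v - k v) - (Y v - K v)) ^ 2 * (c + 1) ^ (p - 2)) _).trans
        (gboxup_abs_le (sub_nonneg.2 a4) (sub_nonneg.2 a3) (by linarith : 0 ≤ p))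
      have a7 := mul_le_mul_of_nonneg_left a6 (by linarith : 0 ≤ Cq)
      rw [show c + 1 - y v + Y v + (y v - k v - (Y v - K v)) = c + 1 - k v + K v by ring] at a5
      linarith
    refine (Finset.sum_le_sum h1).trans ?_
    rw [Finset.sum_add_distrib, ← Finset.mul_sum, ← Finset.mul_sum, Finset.sum_add_distrib]
    have h2 := gboxup_sum_rpow V (fun v => Y v - K v) hp1 fun v => sub_nonneg.2 (hKY v)
    have h3 := gboxup_sum_rpow V (fun v => y v - k v) hp1 fun v => sub_nonneg.2 (hky v)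
    have h4 := mul_le_mul_of_nonneg_left (add_le_add h2 h3) (by linarith : 0 ≤ Cq)
    linarith

theorem gboxup_int {X : Type} [MeasurableSpace X] (μ : Measure X) [IsProbabilityMeasure μ]
    {u w₁ w₂ : X → ℝ} {E : X → ℝ≥0∞} {a C ε p : ℝ} (ha : 0 ≤ a) (hC : 0 ≤ C) (hp : 0 ≤ p)
    (m1 : Measurable w₁) (m2 : Measurable w₂) (mE : Measurable E) (hE : ∀ ω, E ω ≠ ⊤)
    (h : ∀ ω, u ω ≤ a * w₁ ω + C * w₂ ω + C * (E ω).toReal ^ p + C * ε) :
    ∫⁻ ω, ENNReal.ofReal (u ω) ∂μ ≤ ENNReal.ofReal a * ∫⁻ ω, ENNReal.ofReal (w₁ ω) ∂μ +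
      ENNReal.ofReal C * (∫⁻ ω, ENNReal.ofReal (w₂ ω) ∂μ + ∫⁻ ω, E ω ^ p ∂μ +
        ENNReal.ofReal ε) := by
  have e : ∀ ω, ENNReal.ofReal (u ω) ≤ ENNReal.ofReal a * ENNReal.ofReal (w₁ ω) +
      ENNReal.ofReal C * (ENNReal.ofReal (w₂ ω) + E ω ^ p + ENNReal.ofReal ε) := fun ω => by
    refine (ENNReal.ofReal_le_ofReal (h ω)).trans ?_
    have e1 : E ω ^ p = ENNReal.ofReal ((E ω).toReal ^ p) := by
      rw [← ENNReal.ofReal_rpow_of_nonneg ENNReal.toReal_nonneg hp, ENNReal.ofReal_toReal (hE ω)]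
    rw [e1, mul_add, mul_add, ← ENNReal.ofReal_mul ha, ← ENNReal.ofReal_mul hC,
      ← ENNReal.ofReal_mul hC, ← ENNReal.ofReal_mul hC, ← add_assoc, ← add_assoc]
    exact ENNReal.ofReal_add_le.trans (add_le_add_left (ENNReal.ofReal_add_le.trans
      (add_le_add_left ENNReal.ofReal_add_le _)) _)
  refine (lintegral_mono e).trans (le_of_eq ?_)
  rw [lintegral_add_left (m1.ennreal_ofReal.const_mul _), lintegral_const_mul _ m1.ennreal_ofReal,
    lintegral_const_mul' _ _ ENNReal.ofReal_ne_top,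
    lintegral_add_right _ measurable_const, lintegral_add_left m2.ennreal_ofReal]
  simp

/-- The estimate at a fixed time, for abstract random variables. -/
theorem gboxup_abs {p₀ η : ℝ} (hp₀ : 1 < p₀) (hη : 0 < η) : ∃ C : ℝ, 1 ≤ C ∧
    ∀ {ι κ : Type} [Countable ι] (m : Measure ℝ≥0) [IsProbabilityMeasure m] (p c ε g : ℝ)
      (V : Finset κ) (A : κ → Set ι) (Y K : κ → (ι → ℝ≥0) → ℝ≥0∞) (G : (ι → ℝ≥0) → ℝ≥0∞)
      (y : κ → ℝ), p₀ ≤ p → p ≤ 2 → 0 ≤ c → 0 ≤ g → 0 ≤ ε → ε ≤ 1 →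
      (∀ v ∈ V, ∀ v' ∈ V, v ≠ v' → Disjoint (A v) (A v')) → (∀ v, Measurable (Y v)) →
      (∀ v, Measurable (K v)) → Measurable G → (∀ v ω, Y v ω ≠ ⊤) → (∀ ω, G ω ≠ ⊤) →
      (∀ v ω, K v ω ≤ Y v ω) → (∀ v ω ω', (∀ i ∈ A v, ω i = ω' i) → K v ω = K v ω') →
      (∀ v, 0 ≤ y v) →
      (∀ v, ∫⁻ ω, Y v ω ∂Measure.infinitePi (fun _ : ι => m) = ENNReal.ofReal (y v)) →
      (∀ v ∈ V, ENNReal.ofReal (y v) ≤ ∫⁻ ω, K v ω ∂Measure.infinitePi (fun _ : ι => m) +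
        ENNReal.ofReal (ε * y v)) → ∑ v ∈ V, y v + g = 1 → (∀ v ∈ V, y v ≤ C⁻¹) →
      ∫⁻ ω, ENNReal.ofReal (br p (c + 1) (c + (∑ v ∈ V, Y v ω + G ω).toReal))
          ∂Measure.infinitePi (fun _ : ι => m) ≤
        ENNReal.ofReal (1 + η) * ∑ v ∈ V, ∫⁻ ω, ENNReal.ofReal (br p (c + 1)
          (c + 1 - y v + (Y v ω).toReal)) ∂Measure.infinitePi (fun _ : ι => m) +
        ENNReal.ofReal C * (∫⁻ ω, ENNReal.ofReal (br p g (G ω).toReal)
            ∂Measure.infinitePi (fun _ : ι => m) +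
          ∫⁻ ω, (∑ v ∈ V, (Y v ω - K v ω)) ^ p ∂Measure.infinitePi (fun _ : ι => m) +
          ENNReal.ofReal ε +
          (∑ v ∈ V, ∫⁻ ω, Y v ω ^ p ∂Measure.infinitePi (fun _ : ι => m)) ^ 2) := by
  set θ : ℝ := min η 1 / 20 with hθ
  have t0 : 0 < θ := by have := lt_min hη one_pos; positivity
  have t1 : θ ≤ 1 / 20 := by have := min_le_right η 1; linarith
  have t2 : 20 * θ ≤ η := by have := min_le_left η 1; linarith
  obtain ⟨CP, hCP, HP⟩ := gboxup_pt hp₀ t0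
  obtain ⟨CJ, hCJ, HJ⟩ := big_jump hp₀ t0 (by linarith)
  have ti : 0 < θ⁻¹ := by positivity
  refine ⟨3 * CP + 2 * CJ + θ⁻¹, by linarith, ?_⟩
  intro ι κ _ m _ p c ε g V A Y K G y hp hp2 hc hg hε0 hε hA mY mK mG hY hG hKY hdep hy0 hy hky
    hs hsm
  set μ := Measure.infinitePi (fun _ : ι => m) with hμ
  have hp1 : 1 ≤ p := by linarith
  have hK : ∀ v ω, K v ω ≠ ⊤ := fun v ω => ne_top_of_le_ne_top (hY v ω) (hKY v ω)
  have i1 : ∀ v, ∫⁻ ω, K v ω ∂μ ≤ ENNReal.ofReal (y v) := fun v =>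
    (lintegral_mono (hKY v)).trans (hy v).le
  set k : κ → ℝ := fun v => (∫⁻ ω, K v ω ∂μ).toReal with hk
  have k0 : ∀ v, 0 ≤ k v := fun v => ENNReal.toReal_nonneg
  have k1 : ∀ v, ∫⁻ ω, K v ω ∂μ = ENNReal.ofReal (k v) := fun v =>
    (ENNReal.ofReal_toReal (ne_top_of_le_ne_top ENNReal.ofReal_ne_top (i1 v))).symm
  have k2 : ∀ v, k v ≤ y v := fun v => ENNReal.toReal_le_of_le_ofReal (hy0 v) (i1 v)
  have k3 : ∑ v ∈ V, (y v - k v) ≤ ε := by
    calc ∑ v ∈ V, (y v - k v) ≤ ∑ v ∈ V, ε * y v := Finset.sum_le_sum fun v hv => by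
          have := hky v hv
          rw [k1, ← ENNReal.ofReal_add (k0 v) (mul_nonneg hε0 (hy0 v)),
            ENNReal.ofReal_le_ofReal_iff (add_nonneg (k0 v) (mul_nonneg hε0 (hy0 v)))] at this
          linarith
      _ ≤ ε := by rw [← Finset.mul_sum]; exact mul_le_of_le_one_right hε0 (by linarith)
  have k4 : ∑ v ∈ V, k v ≤ ∑ v ∈ V, y v := Finset.sum_le_sum fun v _ => k2 v
  have k5 : ∀ v, y v ≤ 1 → ∀ ω, 0 ≤ c + 1 - y v + (Y v ω).toReal := fun v h ω => by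
    have := ENNReal.toReal_nonneg (a := Y v ω); linarith
  have k6 : ∀ v ∈ V, y v ≤ 1 := fun v hv => by
    have := Finset.single_le_sum (fun v _ => hy0 v) hv; linarith
  have hE : ∀ ω, ∑ v ∈ V, (Y v ω - K v ω) ≠ ⊤ := fun ω =>
    ENNReal.sum_ne_top.2 fun v _ => ENNReal.sub_ne_top (hY v ω)
  have eE : ∀ ω, (∑ v ∈ V, (Y v ω - K v ω)).toReal =
      ∑ v ∈ V, ((Y v ω).toReal - (K v ω).toReal) := fun ω => by
    rw [ENNReal.toReal_sum fun v _ => ENNReal.sub_ne_top (hY v ω)]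
    exact Finset.sum_congr rfl fun v _ => ENNReal.toReal_sub_of_le (hKY v ω) (hY v ω)
  have mE : Measurable fun ω => ∑ v ∈ V, (Y v ω - K v ω) :=
    Finset.measurable_sum _ fun v _ => (mY v).sub (mK v)
  have HP' := fun ω => HP V (fun v => (Y v ω).toReal) (fun v => (K v ω).toReal) y k p c g
    (G ω).toReal ε hp hp2 hc hg ENNReal.toReal_nonneg hε (fun v => ENNReal.toReal_nonneg)
    (fun v => ENNReal.toReal_mono (hY v ω) (hKY v ω)) k0 k2 hs k3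
  have mb : ∀ (M : ℝ) {x : (ι → ℝ≥0) → ℝ}, Measurable x → Measurable fun ω => br p M (x ω) :=
    fun M x hx => (measurable_br p).comp (measurable_const.prodMk hx)
  have J := HJ m p (c + 1 - ∑ v ∈ V, k v) V A K k hp hp2 (by linarith) hA mK hK hdep k0
    (fun v _ => k1 v) (by linarith) fun v hv => (k2 v).trans ((hsm v hv).trans
      (inv_le_of_inv_le₀ t0 (by linarith)))
  rw [sub_add_cancel] at J
  have I1 := gboxup_int μ (a := (1 + θ) ^ 2) (C := CP) (ε := ε) (p := p)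
    (u := fun ω => br p (c + 1) (c + (∑ v ∈ V, Y v ω + G ω).toReal)) (by positivity) (by linarith)
    (by linarith) (mb (c + 1) (x := fun ω => c + 1 - ∑ v ∈ V, k v + ∑ v ∈ V, (K v ω).toReal)
      ((Finset.measurable_sum _ fun v _ => (mK v).ennreal_toReal).const_add _))
    (mb g mG.ennreal_toReal) mE hE fun ω => by
      rw [eE, ENNReal.toReal_add (ENNReal.sum_ne_top.2 fun v _ => hY v ω) (hG ω),
        ENNReal.toReal_sum fun v _ => hY v ω]
      exact (HP' ω).1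
  have I2 := gboxup_int μ (a := 1 + θ) (C := CP) (ε := ε) (p := p)
    (u := fun ω => ∑ v ∈ V, br p (c + 1) (c + 1 - k v + (K v ω).toReal)) (by positivity)
    (by linarith) (by linarith) (w₂ := fun _ => 0)
    (w₁ := fun ω => ∑ v ∈ V, br p (c + 1) (c + 1 - y v + (Y v ω).toReal))
    (Finset.measurable_sum _ fun v _ => mb _ ((mY v).ennreal_toReal.const_add _))
    measurable_const mE hE fun ω => by
      rw [eE, mul_zero, add_zero]
      exact (HP' ω).2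
  have s1 : ∀ (z : κ → ℝ) (Z : κ → (ι → ℝ≥0) → ℝ≥0∞), (∀ v, Measurable (Z v)) →
      (∀ v ∈ V, z v ≤ 1) →
      ∫⁻ ω, ENNReal.ofReal (∑ v ∈ V, br p (c + 1) (c + 1 - z v + (Z v ω).toReal)) ∂μ =
      ∑ v ∈ V, ∫⁻ ω, ENNReal.ofReal (br p (c + 1) (c + 1 - z v + (Z v ω).toReal)) ∂μ := by
    intro z Z mZ hz
    rw [← lintegral_finset_sum _ fun v _ =>
      (mb _ ((mZ v).ennreal_toReal.const_add _)).ennreal_ofReal]
    refine lintegral_congr fun ω => ENNReal.ofReal_sum_of_nonneg fun v hv => ?_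
    have := ENNReal.toReal_nonneg (a := Z v ω)
    have := hz v hv
    exact br_nonneg hp1 (by linarith) (by linarith)
  rw [s1 k K mK fun v hv => (k2 v).trans (k6 v hv), s1 y Y mY k6] at I2
  simp only [ENNReal.ofReal_zero, lintegral_zero, zero_add] at I2
  have q1 : (∑ v ∈ V, ∫⁻ ω, K v ω ^ p ∂μ) ^ 2 ≤ (∑ v ∈ V, ∫⁻ ω, Y v ω ^ p ∂μ) ^ 2 := by
    gcongr with v _ ω
    exact hKY v ω
  refine I1.trans ?_
  generalize (∑ v ∈ V, ∫⁻ ω, Y v ω ^ p ∂μ) ^ 2 = Q at q1 ⊢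
  generalize ∫⁻ ω, (∑ v ∈ V, (Y v ω - K v ω)) ^ p ∂μ = E at I2 ⊢
  generalize ∫⁻ ω, ENNReal.ofReal (br p g (G ω).toReal) ∂μ = B
  generalize ∑ v ∈ V, ∫⁻ ω, ENNReal.ofReal (br p (c + 1) (c + 1 - y v + (Y v ω).toReal)) ∂μ = X
    at I2 ⊢
  have J2 := J.trans (add_le_add (mul_le_mul_right I2 _) (mul_le_mul_right q1 _))
  refine (add_le_add_left (mul_le_mul_right J2 _) _).trans ?_
  have c1 : ENNReal.ofReal ((1 + θ) ^ 2) * (ENNReal.ofReal (1 + 4 * θ) * ENNReal.ofReal (1 + θ)) ≤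
      ENNReal.ofReal (1 + η) := by
    rw [← ENNReal.ofReal_mul (by linarith), ← ENNReal.ofReal_mul (by positivity)]
    refine ENNReal.ofReal_le_ofReal ?_
    have b1 : (1 + θ) ^ 2 ≤ 1 + 3 * θ := by nlinarith
    have b2 : (1 + 4 * θ) * (1 + θ) ≤ 1 + 6 * θ := by nlinarith
    calc (1 + θ) ^ 2 * ((1 + 4 * θ) * (1 + θ)) ≤ (1 + 3 * θ) * (1 + 6 * θ) := by gcongr
      _ ≤ 1 + η := by nlinarith
  have c2 : ENNReal.ofReal ((1 + θ) ^ 2) * (ENNReal.ofReal (1 + 4 * θ) * ENNReal.ofReal CP) +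
      ENNReal.ofReal CP ≤ ENNReal.ofReal (3 * CP + 2 * CJ + θ⁻¹) := by
    rw [← ENNReal.ofReal_mul (by linarith), ← ENNReal.ofReal_mul (by positivity),
      ← ENNReal.ofReal_add (by positivity) (by linarith)]
    refine ENNReal.ofReal_le_ofReal ?_
    have b1 : (1 + θ) ^ 2 * (1 + 4 * θ) ≤ 2 := by nlinarith
    nlinarith
  have c3 : ENNReal.ofReal ((1 + θ) ^ 2) * ENNReal.ofReal CJ ≤
      ENNReal.ofReal (3 * CP + 2 * CJ + θ⁻¹) := by
    rw [← ENNReal.ofReal_mul (by positivity)]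
    refine ENNReal.ofReal_le_ofReal ?_
    have b1 : (1 + θ) ^ 2 ≤ 2 := by nlinarith
    nlinarith
  have c4 : ENNReal.ofReal CP ≤ ENNReal.ofReal (3 * CP + 2 * CJ + θ⁻¹) :=
    ENNReal.ofReal_le_ofReal (by linarith)
  calc _ = ENNReal.ofReal ((1 + θ) ^ 2) * (ENNReal.ofReal (1 + 4 * θ) * ENNReal.ofReal (1 + θ)) * X
        + (ENNReal.ofReal CP * B + (ENNReal.ofReal ((1 + θ) ^ 2) * (ENNReal.ofReal (1 + 4 * θ) *
          ENNReal.ofReal CP) + ENNReal.ofReal CP) * (E + ENNReal.ofReal ε) +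
          ENNReal.ofReal ((1 + θ) ^ 2) * ENNReal.ofReal CJ * Q) := by ring
    _ ≤ ENNReal.ofReal (1 + η) * X + (ENNReal.ofReal (3 * CP + 2 * CJ + θ⁻¹) * B +
          ENNReal.ofReal (3 * CP + 2 * CJ + θ⁻¹) * (E + ENNReal.ofReal ε) +
          ENNReal.ofReal (3 * CP + 2 * CJ + θ⁻¹) * Q) := by gcongr
    _ = _ := by ring

end Pool.Agent.Lib.MP_153faa_pr
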