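import Mathlib
import Pool.Agent.Lib.MP_153faa_pr.GBoxUp1
import Pool.Agent.Lib.MP_153faa_pr.GBoxB

set_option autoImplicit false

open MeasureTheory Filter Topology
open scoped ENNReal NNReal

namespace Pool.Agent.Lib.MP_153faa_pr

variable {d : ℕ}

theorem gboxup_mass_sum (n : ℕ) (ω : ℕ → Layer d) (V : Finset (Site d)) (F : Site d → Prof d) :
    mass (ev n ω fun y => ∑ v ∈ V, F v y) = ∑ v ∈ V, mass (ev n ω (F v)) := by
  induction V using Finset.induction_on with
  | empty =>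
    have := ev_smul n ω 0 0
    simp only [zero_mul] at this
    simp [this, mass]
  | insert i s hi ih =>
    simp only [Finset.sum_insert hi]
    rw [← ih, ← mass_add, ← ev_add]
    rfl

theorem gboxup_mass_split (n : ℕ) (ω : ℕ → Layer d) {V : Finset (Site d)} {F : Site d → Prof d}
    {f g : Prof d} (h : ∀ y, f y = ∑ v ∈ V, F v y + g y) :
    mass (ev n ω f) = ∑ v ∈ V, mass (ev n ω (F v)) + mass (ev n ω g) := by
  rw [← gboxup_mass_sum, ← mass_add, ← ev_add]
  congr 2
  exact funext h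

/-- The box of radius `R` around `v`. -/
noncomputable def gboxupB (R : ℕ) (v : Site d) : Finset (Site d) := (box d R).image (· + v)

theorem gboxup_mem {R : ℕ} {v x : Site d} :
    x ∈ gboxupB R v ↔ ∀ i, -(R : ℤ) ≤ x i - v i ∧ x i - v i ≤ R := by
  have : x ∈ gboxupB R v ↔ x - v ∈ box d R := by
    simp only [gboxupB, Finset.mem_image]
    exact ⟨fun ⟨u, h1, h2⟩ => by rwa [← h2, add_sub_cancel_right], fun h => ⟨_, h, by simp⟩⟩
  simp [this, box]

/-- The mass of the pieces that left their boxes. -/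
noncomputable def gboxupE (R : ℕ) (V : Finset (Site d)) (F : Site d → Prof d) (n : ℕ)
    (ω : ℕ → Layer d) : ℝ≥0∞ :=
  ∑ v ∈ V, (mass (ev n ω (F v)) - mass (ev n (kil (gboxupB R v) ω) (F v)))

theorem gboxup_mK (B : Finset (Site d)) (n : ℕ) (f : Prof d) :
    Measurable fun ω => mass (ev n (kil B ω) f) :=
  measurable_mass.comp ((measurable_ev n f).comp (measurable_kil B))

theorem gboxup_mE (R : ℕ) (V : Finset (Site d)) (F : Site d → Prof d) (n : ℕ) :
    Measurable (gboxupE R V F n) :=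
  Finset.measurable_sum _ fun v _ =>
    (measurable_mass.comp (measurable_ev n (F v))).sub (gboxup_mK _ n _)

theorem gboxup_kil (hd : 1 ≤ d) {ρ : Measure ℝ≥0} [IsProbabilityMeasure ρ] (hm : Mean1 ρ)
    {r b n L : ℕ} (hn : n ≤ L) (hL : 0 < L) {ε : ℝ} {f : Prof d} {v : Site d}
    (hs : ∀ y, f y ≠ 0 → y - v ∈ box d r)
    (hε : n * (2 * d * Real.exp (-(b : ℝ) ^ 2 / (2 * L))) ≤ ε) :
    mass f ≤ ∫⁻ ω, mass (ev n (kil (gboxupB (r + b) v) ω) f) ∂env d ρ +
      ENNReal.ofReal ε * mass f := by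
  refine (kil_mean hd hm (gboxupB (r + b) v) b n L hn hL fun x hx u hu => ?_).trans ?_
  · have h1 := hs x hx
    simp only [box, Fintype.mem_piFinset, Finset.mem_Icc, Pi.sub_apply] at h1 hu
    refine gboxup_mem.2 fun i => ?_
    have := h1 i
    have := hu i
    simp only [Pi.add_apply]
    push_cast
    omega
  · gcongr

theorem gboxup_meanE (hd : 1 ≤ d) {ρ : Measure ℝ≥0} [IsProbabilityMeasure ρ] (hm : Mean1 ρ)
    {r b n L : ℕ} (hn : n ≤ L) (hL : 0 < L) {ε : ℝ} {V : Finset (Site d)} {F : Site d → Prof d}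
    {f g : Prof d} (hf : mass f ≠ ⊤) (h : ∀ y, f y = ∑ v ∈ V, F v y + g y) (hF : ∀ v, F v ≤ f)
    (hs : ∀ v ∈ V, ∀ y, F v y ≠ 0 → y - v ∈ box d r)
    (hε : n * (2 * d * Real.exp (-(b : ℝ) ^ 2 / (2 * L))) ≤ ε) :
    ∫⁻ ω, gboxupE (r + b) V F n ω ∂env d ρ ≤ ENNReal.ofReal ε * mass f := by
  unfold gboxupE
  rw [lintegral_finset_sum (f := fun v ω => mass (ev n ω (F v)) -
    mass (ev n (kil (gboxupB (r + b) v) ω) (F v))) _ fun v _ =>
    (measurable_mass.comp (measurable_ev n (F v))).sub (gboxup_mK _ n _)]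
  have e := gboxup_mass_split 0 (fun _ _ => 0) h
  simp only [ev_zero] at e
  calc _ ≤ ∑ v ∈ V, ENNReal.ofReal ε * mass (F v) := Finset.sum_le_sum fun v hv => by
        have h1 : ∀ ω, mass (ev n (kil (gboxupB (r + b) v) ω) (F v)) ≤ mass (ev n ω (F v)) :=
          fun ω => mass_mono (ev_kil_le _ n ω _)
        rw [lintegral_sub (gboxup_mK _ n _) (ne_top_of_le_ne_top hf
          ((lintegral_mono h1).trans ((lintegral_mass_ev hd hm n _).trans_le (mass_mono (hF v)))))
          (ae_of_all _ h1), lintegral_mass_ev hd hm, tsub_le_iff_left]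
        exact gboxup_kil hd hm hn hL (hs v hv) hε
    _ ≤ _ := by rw [← Finset.mul_sum, e]; gcongr; exact le_self_add

/-- The estimate at a fixed time. -/
theorem gboxup_fix (hd : 1 ≤ d) {p₀ η : ℝ} (hp₀ : 1 < p₀) (hη : 0 < η) : ∃ C : ℝ, 1 ≤ C ∧
    ∀ (ρ : Measure ℝ≥0) [IsProbabilityMeasure ρ] (p c ε : ℝ) (r b n L : ℕ) (V : Finset (Site d))
      (F : Site d → Prof d) (f g : Prof d), Mean1 ρ → p₀ ≤ p → p ≤ 2 → 0 ≤ c → Nice f →
      mass f = 1 → (∀ y, f y = ∑ v ∈ V, F v y + g y) → (∀ v, F v ≤ f) →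
      (∀ v ∈ V, ∀ y, F v y ≠ 0 → y - v ∈ box d r) →
      (∀ v ∈ V, ∀ v' ∈ V, v ≠ v' → v - v' ∉ box d (2 * (r + b))) → (∀ v ∈ V, mr (F v) ≤ C⁻¹) →
      n ≤ L → 0 < L → n * (2 * d * Real.exp (-(b : ℝ) ^ 2 / (2 * L))) ≤ ε → ε ≤ 1 →
      ∫⁻ ω, ENNReal.ofReal (br p (c + 1) (c + mr (ev n ω f))) ∂env d ρ ≤
        ENNReal.ofReal (1 + η) * ∑ v ∈ V, ∫⁻ ω, ENNReal.ofReal (br p (c + 1)
          (c + 1 - mr (F v) + mr (ev n ω (F v)))) ∂env d ρ +
        ENNReal.ofReal C * (∫⁻ ω, ENNReal.ofReal (br p (mr g) (mr (ev n ω g))) ∂env d ρ +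
          ∫⁻ ω, gboxupE (r + b) V F n ω ^ p ∂env d ρ + ENNReal.ofReal ε +
          (ENNReal.ofReal (∑ v ∈ V, mr (F v) ^ p) * Mom d ρ p n) ^ 2) := by
  obtain ⟨C, hC, H⟩ := gboxup_abs hp₀ hη
  refine ⟨C, hC, ?_⟩
  intro ρ _ p c ε r b n L V F f g hm hp hp2 hc hf hf1 h hF hs hsep hsm hn hL hε hε1
  have hFn : ∀ v, Nice (F v) := fun v => hf.of_le (hF v)
  have hg : Nice g := hf.of_le fun y => by rw [h y]; exact le_add_self
  have mc : Measurable (Function.curry : (ℕ × Site d → ℝ≥0) → ℕ → Layer d) :=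
    measurable_pi_lambda _ fun k => measurable_pi_lambda _ fun x => measurable_pi_apply (k, x)
  have mY : ∀ u : Prof d, Measurable fun ω : ℕ → Layer d => mass (ev n ω u) := fun u =>
    measurable_mass.comp (measurable_ev n u)
  have e := gboxup_mass_split 0 (fun _ _ => 0) h
  simp only [ev_zero] at e
  have hε0 : 0 ≤ ε := le_trans (by positivity) hε
  have key := H ρ p c ε (mr g) V (fun v => {i : ℕ × Site d | i.2 ∈ gboxupB (r + b) v})
    (fun v ω => mass (ev n (Function.curry ω) (F v)))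
    (fun v ω => mass (ev n (kil (gboxupB (r + b) v) (Function.curry ω)) (F v)))
    (fun ω => mass (ev n (Function.curry ω) g)) (fun v => mr (F v)) hp hp2 hc
    ENNReal.toReal_nonneg hε0 hε1
    (fun v hv v' hv' hne => Set.disjoint_left.2 fun i h1 h2 => hsep v hv v' hv' hne (by
      simp only [box, Fintype.mem_piFinset, Finset.mem_Icc, Pi.sub_apply]
      intro j
      have a1 := gboxup_mem.1 h1 j
      have a2 := gboxup_mem.1 h2 j
      push_cast at a1 a2 ⊢
      omega))
    (fun v => (mY _).comp mc) (fun v => (gboxup_mK _ n _).comp mc) ((mY _).comp mc)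
    (fun v ω => ((hFn v).of_ev hd n _).mass_ne_top) (fun ω => (hg.of_ev hd n _).mass_ne_top)
    (fun v ω => mass_mono (ev_kil_le _ n _ _))
    (fun v ω ω' hω => by
      have : kil (gboxupB (r + b) v) (Function.curry ω) =
          kil (gboxupB (r + b) v) (Function.curry ω') := by
        funext k x
        unfold kil
        split_ifs with hx
        · exact hω (k, x) hx
        · rfl
      rw [this])
    (fun v => ENNReal.toReal_nonneg)
    (fun v => by rw [← lintegral_env_flat (mY _), lintegral_mass_ev hd hm, (hFn v).ofReal_mr])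
    (fun v hv => by
      rw [← lintegral_env_flat (gboxup_mK _ n _), ENNReal.ofReal_mul hε0, (hFn v).ofReal_mr]
      exact gboxup_kil hd hm hn hL (hs v hv) hε)
    (by
      have := congrArg ENNReal.toReal e
      rw [hf1, ENNReal.toReal_add (ENNReal.sum_ne_top.2 fun v _ => (hFn v).mass_ne_top)
        hg.mass_ne_top, ENNReal.toReal_sum fun v _ => (hFn v).mass_ne_top] at this
      exact this.symm) hsm
  have mb : ∀ (M a : ℝ) (u : Prof d), Measurable fun ω : ℕ → Layer d =>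
      ENNReal.ofReal (br p M (a + mr (ev n ω u))) := fun M a u =>
    gboxup_mbr ((mY u).ennreal_toReal.const_add a) p M
  rw [lintegral_env_flat (mb _ _ _), lintegral_env_flat ((gboxup_mE _ V F n).pow_const p),
    lintegral_env_flat (gboxup_mbr (x := fun ω => mr (ev n ω g)) (mY g).ennreal_toReal p _)]
  simp only [lintegral_env_flat (mb _ _ _)]
  simp only [mr, gboxup_mass_split n _ h]
  refine key.trans ?_
  unfold gboxupE mr
  gcongr
  rw [ENNReal.ofReal_sum_of_nonneg fun v _ => Real.rpow_nonneg ENNReal.toReal_nonneg p,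
    Finset.sum_mul]
  refine Finset.sum_le_sum fun v _ => ?_
  rw [← lintegral_env_flat ((mY _).pow_const p),
    ← ENNReal.ofReal_rpow_of_nonneg ENNReal.toReal_nonneg (by linarith),
    ENNReal.ofReal_toReal (hFn v).mass_ne_top]
  exact (T_iter_eq n (measurable_mq p) _).symm.trans_le (T_iter_mq_le (by linarith) n _)

end Pool.Agent.Lib.MP_153faa_pr
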