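import Mathlib
import Pool.Agent.Lib.MP_153faa_pr.GBoxA
import Pool.Agent.Lib.MP_153faa_pr.GBoxB
import Pool.Agent.Lib.MP_153faa_pr.GLoc4
import Pool.Agent.Lib.MP_153faa_pr.GBoxUp2

set_option autoImplicit false

open MeasureTheory Filter Topology
open scoped ENNReal NNReal

namespace Pool.Agent.Lib.MP_153faa_pr

variable {d : ℕ}

theorem gboxup_sq_exp {Z : ℝ} (hZ : 0 ≤ Z) :
    Z ^ 2 * Real.exp (-(Z / 10)) ≤ 800 * Real.exp (-(Z / 20)) := by
  have b1 := Real.quadratic_le_exp_of_nonneg (show 0 ≤ Z / 20 by positivity)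
  have b2 : Real.exp (Z / 20) * Real.exp (-(Z / 10)) = Real.exp (-(Z / 20)) := by
    rw [← Real.exp_add]; ring_nf
  have b3 : Z ^ 2 ≤ 800 * Real.exp (Z / 20) := by nlinarith
  calc Z ^ 2 * Real.exp (-(Z / 10)) ≤ 800 * Real.exp (Z / 20) * Real.exp (-(Z / 10)) := by gcongr
    _ = _ := by rw [mul_assoc, b2]

theorem gboxup_eps {l Z D b N n : ℝ} (h0 : 0 < l) (hZ : 4 ≤ Z) (hD0 : 0 ≤ D) (hD : 4 * D ≤ Z)
    (hl : Real.log l ^ 2 ≤ Z) (hb : Z ^ 3 / √l ≤ b) (hN0 : 0 < N) (hN : N ≤ 2 * (Z ^ 2 / l))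
    (hn : n ≤ N) : n * (2 * D * Real.exp (-b ^ 2 / (2 * N))) ≤ Real.exp (-(Z ^ 4 / 8)) := by
  have hsl : 0 < √l := Real.sqrt_pos.2 h0
  have a1 : Real.exp (-b ^ 2 / (2 * N)) ≤ Real.exp (-(Z ^ 4 / 4)) := by
    refine Real.exp_le_exp.2 ?_
    rw [neg_div, neg_le_neg_iff, le_div_iff₀ (by positivity)]
    have a1 : (Z ^ 3 / √l) ^ 2 ≤ b ^ 2 := pow_le_pow_left₀ (by positivity) hb 2
    rw [div_pow, Real.sq_sqrt h0.le] at a1
    calc Z ^ 4 / 4 * (2 * N) ≤ Z ^ 4 / 4 * (2 * (2 * (Z ^ 2 / l))) := by gcongr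
      _ = (Z ^ 3) ^ 2 / l := by ring
      _ ≤ _ := a1
  have a2 : l⁻¹ ≤ Real.exp Z := by
    rw [← Real.exp_log (inv_pos.2 h0), Real.log_inv]
    exact Real.exp_le_exp.2 (by nlinarith)
  have a3 : Z ≤ Real.exp Z := by linarith [Real.add_one_le_exp Z]
  have a4 : Real.exp Z ^ 4 * Real.exp (-(Z ^ 4 / 4)) ≤ Real.exp (-(Z ^ 4 / 8)) := by
    rw [← Real.exp_nat_mul, ← Real.exp_add]
    refine Real.exp_le_exp.2 ?_
    have : 4 ^ 3 ≤ Z ^ 3 := pow_le_pow_left₀ (by norm_num) hZ 3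
    push_cast
    nlinarith
  have hZ0 : 0 ≤ Z := by linarith
  calc n * (2 * D * Real.exp (-b ^ 2 / (2 * N)))
      ≤ 2 * (Z ^ 2 / l) * (2 * D * Real.exp (-(Z ^ 4 / 4))) :=
        mul_le_mul (hn.trans hN) (by gcongr) (by positivity) (by positivity)
    _ = Z ^ 2 * (4 * D) * l⁻¹ * Real.exp (-(Z ^ 4 / 4)) := by ring
    _ ≤ Real.exp Z ^ 2 * Real.exp Z * Real.exp Z * Real.exp (-(Z ^ 4 / 4)) := by
        gcongr
        exact hD.trans a3
    _ ≤ _ := by rw [← pow_succ, ← pow_succ]; exact a4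

theorem gboxup_mom (hd : 1 ≤ d) {ρ : Measure ℝ≥0} [IsProbabilityMeasure ρ] (hm : Mean1 ρ)
    {p l Z : ℝ} (hp : 1 ≤ p) (h0 : 0 < l) (h1 : l ≤ 1 / 2) (hO : OO d ρ p l ≤ ENNReal.ofReal Z)
    {n : ℕ} (hn : n * l ≤ 1) : Mom d ρ p n ≤ ENNReal.ofReal (Real.exp 2 * Z) := by
  have a1 : 1 ≤ Real.exp (2 * l) * (1 - l) := by
    have := Real.add_one_le_exp (2 * l)
    nlinarith
  have a2 : 1 ≤ Real.exp 2 * (1 - l) ^ n := by
    calc 1 ≤ (Real.exp (2 * l) * (1 - l)) ^ n := one_le_pow₀ a1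
      _ = Real.exp (n * (2 * l)) * (1 - l) ^ n := by rw [mul_pow, Real.exp_nat_mul]
      _ ≤ _ := mul_le_mul_of_nonneg_right (Real.exp_le_exp.2 (by linarith))
          (pow_nonneg (by linarith) _)
  calc Mom d ρ p n ≤ ENNReal.ofReal (Real.exp 2 * (1 - l) ^ n) * Mom d ρ p n :=
        le_mul_of_one_le_left' (ENNReal.one_le_ofReal.2 a2)
    _ ≤ _ := by
        rw [ENNReal.ofReal_mul (Real.exp_pos 2).le, ENNReal.ofReal_mul (Real.exp_pos 2).le,
          mul_assoc]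
        exact mul_le_mul_right ((Mom_le_OO hd hm hp h0 (by linarith) n).trans hO) _

theorem gboxup_triv (hd : 1 ≤ d) {ρ : Measure ℝ≥0} [IsProbabilityMeasure ρ] {p c : ℝ}
    (hp : 1 ≤ p) (hp2 : p ≤ 2) (hc : 0 ≤ c) {f : Prof d} (hf : Nice f) (hf1 : mass f = 1) (n : ℕ) :
    ∫⁻ ω, ENNReal.ofReal (br p (c + 1) (c + mr (ev n ω f))) ∂env d ρ ≤ 4 * Mom d ρ p n + 4 := by
  have mq' := (measurable_mq p).comp (measurable_ev n f)
  calc _ ≤ ∫⁻ ω, (4 * mq p (ev n ω f) + 4) ∂env d ρ := lintegral_mono fun ω => by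
        have a0 : 0 ≤ mr (ev n ω f) := ENNReal.toReal_nonneg
        have a1 := br_le_abs hp hp2 (by linarith : 0 ≤ c + 1) (add_nonneg hc a0)
        have a2 := gboxup_abs_le a0 zero_le_one (by linarith : 0 ≤ p)
        rw [show c + mr (ev n ω f) - (c + 1) = mr (ev n ω f) - 1 by ring] at a1
        rw [Real.one_rpow] at a2
        calc ENNReal.ofReal (br p (c + 1) (c + mr (ev n ω f)))
            ≤ ENNReal.ofReal (4 * mr (ev n ω f) ^ p + 4) := ENNReal.ofReal_le_ofReal (by linarith)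
          _ = _ := by
            rw [ENNReal.ofReal_add (by positivity) (by norm_num), ENNReal.ofReal_mul (by norm_num),
              ← ENNReal.ofReal_rpow_of_nonneg a0 (by linarith), (hf.of_ev hd n ω).ofReal_mr]
            simp [mq]
    _ ≤ _ := by
        rw [lintegral_add_right _ measurable_const, lintegral_const_mul' _ _ (by simp),
          ← T_iter_eq n (measurable_mq p)]
        have := T_iter_mq_le (ρ := ρ) hp n f
        rw [hf1, ENNReal.one_rpow, one_mul] at this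
        simp only [lintegral_const, measure_univ, mul_one]
        gcongr

theorem gboxup_XX (hd : 1 ≤ d) {ρ : Measure ℝ≥0} [IsProbabilityMeasure ρ] (hm : Mean1 ρ)
    {p l c : ℝ} (hp : 1 < p) (h0 : 0 < l) (h1 : l < 1) (hc : 0 ≤ c) {f : Prof d} (hf : Nice f) :
    XX ρ p l (ENNReal.ofReal c) f = ∑' n, wt l n *
      ∫⁻ ω, ENNReal.ofReal (br p (c + mr f) (c + mr (ev n ω f))) ∂env d ρ := by
  rw [XX_br hd hm hp h0 h1 hc hf, Res_env (gboxup_mbr (measurable_mr.const_add c) p _)]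

theorem gboxup_main (hd : 3 ≤ d) {κ M : ℝ} (hκ : 0 < κ) (η : ℝ) (hη : 0 < η) : ∃ C : ℝ, 1 ≤ C ∧
    ∀ (ρ : Measure ℝ≥0) [IsProbabilityMeasure ρ] (p l Z c : ℝ) (r b : ℕ) (V : Finset (Site d))
      (F : Site d → Prof d) (f g : Prof d), Ctx d κ M ρ p l → l ≤ C⁻¹ → C ≤ Z → Sc d ρ p l Z →
      OO d ρ p (l / Z ^ 2) ≤ ENNReal.ofReal Z → 0 ≤ c → Nice f → mass f = 1 →
      (∀ y, f y = ∑ v ∈ V, F v y + g y) → (∀ v ∈ V, ∀ y, F v y ≠ 0 → y - v ∈ box d r) →
      (∀ v ∈ V, ∀ v' ∈ V, v ≠ v' → v - v' ∉ box d (2 * (r + b))) → Z ^ 3 / √l ≤ b →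
      (∀ v ∈ V, mr (F v) ≤ C⁻¹) → (∀ v, F v ≤ f) →
        XX ρ p l (ENNReal.ofReal c) f ≤
          ENNReal.ofReal (1 + η) * ∑ v ∈ V, XX ρ p l (ENNReal.ofReal (c + 1 - mr (F v))) (F v) +
          ENNReal.ofReal (C * Z / l) * nq p g +
          ENNReal.ofReal (C * (Z ^ 2 * (∑ v ∈ V, mr (F v) ^ p) ^ 2 + Real.exp (-(Z / 20)))) := by
  have hd1 : 1 ≤ d := by omega
  have hdR : (3 : ℝ) ≤ d := by exact_mod_cast hd
  obtain ⟨CF, hCF, HF⟩ := gboxup_fix hd1 (p₀ := 1 + 1 / d)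
    (lt_add_of_pos_right _ (by positivity)) hη
  obtain ⟨CI, hCI, HI⟩ := interp hd (M := M) hκ
  have x4 := Real.exp_pos 4
  have y1 : 0 ≤ CF * |M| := by positivity
  have y2 : 0 ≤ CF * Real.exp 4 := by positivity
  have y3 : 0 ≤ CF * CI := by positivity
  set C : ℝ := 4 * d + CI + CF + 16 * (CF * |M|) + CF * Real.exp 4 + 1600 * (CF * CI) + 320004
    with hC
  refine ⟨C, by linarith, ?_⟩
  intro ρ _ p l Z c r b V F f g hc hl hZ hS hO' hc0 hf hf1 h hs hsep hb hsm hF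
  have hm : Mean1 ρ := hc.good.1
  have h0 := hc.l0
  have h1 := hc.l1
  obtain ⟨hp1, hp2⟩ := hc.one_lt hd
  obtain ⟨hM, hmom, -⟩ := hc.good.basic hd hκ
  have hZ4 : 4 ≤ Z := by linarith
  have hZ2 : 16 ≤ Z ^ 2 := by nlinarith
  have hZl : 1 ≤ Z ^ 2 / l := by rw [le_div_iff₀ h0]; linarith
  set N := ⌈Z ^ 2 / l⌉₊ with hN
  have hN1 : Z ^ 2 / l ≤ N := Nat.le_ceil _
  have hN2 : (N : ℝ) ≤ 2 * (Z ^ 2 / l) := by
    have := Nat.ceil_lt_add_one (show 0 ≤ Z ^ 2 / l by positivity)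
    linarith
  have hN0 : (0 : ℝ) < N := by linarith
  set ε := Real.exp (-(Z ^ 4 / 8)) with hε
  have hε0 : 0 < ε := Real.exp_pos _
  have hε1 : ε ≤ 1 := Real.exp_le_one_iff.2 (neg_nonpos.2 (by positivity))
  have hεn : ∀ n < N, n * (2 * d * Real.exp (-(b : ℝ) ^ 2 / (2 * N))) ≤ ε := fun n hn =>
    gboxup_eps h0 hZ4 (by positivity) (by linarith) hS.2 hb hN0 hN2 (by exact_mod_cast hn.le)
  have hFn : ∀ v, Nice (F v) := fun v => hf.of_le (hF v)
  have hg : Nice g := hf.of_le fun y => by rw [h y]; exact le_add_self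
  have hmr : mr f = 1 := by rw [mr, hf1]; rfl
  have hF1 : ∀ v, mr (F v) ≤ 1 := fun v =>
    hmr ▸ ENNReal.toReal_mono hf.mass_ne_top (mass_mono (hF v))
  set s := ∑ v ∈ V, mr (F v) ^ p with hs'
  have s0 : 0 ≤ s := Finset.sum_nonneg fun v _ => Real.rpow_nonneg ENNReal.toReal_nonneg p
  set ex := Real.exp (-(Z / 20)) with hex
  have ex0 : 0 < ex := Real.exp_pos _
  have hsq := gboxup_sq_exp (by linarith : 0 ≤ Z)
  have eB : ∑' n, wt l n * ∫⁻ ω, ENNReal.ofReal (br p (mr g) (mr (ev n ω g))) ∂env d ρ ≤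
      ENNReal.ofReal (16 * M * Z / l) * nq p g := by
    have a1 := gboxup_XX hd1 hm hp1 h0 h1 le_rfl hg
    simp only [zero_add, ENNReal.ofReal_zero] at a1
    rw [← a1]
    refine (XX_crude hd1 hm (hmom 2 (by norm_num) (by norm_num)) hp1.le hp2.le h0 h1 hg).trans
      (mul_le_mul_left ?_ _)
    rw [show 16 * M * Z / l = 8 * (2 * M) * Z * l⁻¹ by ring, 
      ENNReal.ofReal_mul (p := 8 * (2 * M) * Z) (by positivity),
      ENNReal.ofReal_mul (p := 8 * (2 * M)) (by positivity),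
      ENNReal.ofReal_mul (p := 8) (by positivity),
      ENNReal.ofReal_ofNat]
    gcongr
    exact hS.1
  have eE : ∑' n, wt l n * ∫⁻ ω, gboxupE (r + b) V F n ω ^ p ∂env d ρ ≤
      ENNReal.ofReal (1600 * CI * ex) := by
    refine (HI ρ p l hc (hl.trans (inv_anti₀ (by linarith) (by linarith))) Z (by linarith) hS.1 f
      (gboxupE (r + b) V F) ε N hf (gboxup_mE _ V F) (fun n ω => ?_) hε0 hε1 hN1 fun n hn =>
        gboxup_meanE hd1 hm hn.le (by exact_mod_cast hN0) hf.mass_ne_top h hF hs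
          (hεn n hn)).trans ?_
    · rw [gboxup_mass_split n ω h]
      exact le_trans (Finset.sum_le_sum fun v _ => tsub_le_self) le_self_add
    · rw [mq, hf1, ENNReal.one_rpow, mul_one]
      refine ENNReal.ofReal_le_ofReal ?_
      have a1 : ε ^ (1 / (CI * Z ^ 2)) ≤ Real.exp (-(Z / 10)) := by
        rw [hε, ← Real.exp_mul]
        refine Real.exp_le_exp.2 ?_
        have b1 : -(Z ^ 4 / 8) * (1 / (CI * Z ^ 2)) = -(Z ^ 2 / (8 * CI)) := by field_simp
        rw [b1, neg_le_neg_iff, le_div_iff₀ (by positivity)]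
        have : CI ≤ Z := by linarith
        nlinarith
      calc CI * Z ^ 2 * (ε ^ (1 / (CI * Z ^ 2)) + Real.exp (-(Z / 10)))
          ≤ CI * Z ^ 2 * (Real.exp (-(Z / 10)) + Real.exp (-(Z / 10))) := by gcongr
        _ = 2 * CI * (Z ^ 2 * Real.exp (-(Z / 10))) := by ring
        _ ≤ 2 * CI * (800 * ex) := by gcongr
        _ = _ := by ring
  have eT : ∑' n, wt l (n + N) *
      ∫⁻ ω, ENNReal.ofReal (br p (c + 1) (c + mr (ev (n + N) ω f))) ∂env d ρ ≤
      ENNReal.ofReal (320004 * ex) := by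
    calc _ ≤ ∑' n, (4 * (wt l (n + N) * Mom d ρ p (n + N)) + 4 * wt l (n + N)) :=
          ENNReal.tsum_le_tsum fun n => (mul_le_mul_right
            (gboxup_triv hd1 hp1.le hp2.le hc0 hf hf1 _) _).trans (le_of_eq (by ring))
      _ ≤ 4 * ENNReal.ofReal (100 * Z ^ 2 * Real.exp (-(Z / 10))) + 4 * ENNReal.ofReal ex := by
          rw [ENNReal.tsum_add, ENNReal.tsum_mul_left, ENNReal.tsum_mul_left, wt_tail h0 h1]
          refine add_le_add (mul_le_mul_right (kill hd1 hm hp1.le h0 h1 (by linarith) hS.1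
            (by linarith) (by rwa [← sq])) _) (mul_le_mul_right (ENNReal.ofReal_le_ofReal ?_) _)
          calc (1 - l) ^ N ≤ Real.exp (-l) ^ N :=
                pow_le_pow_left₀ (by linarith) (Real.one_sub_le_exp_neg l) N
            _ ≤ ex := by
                rw [← Real.exp_nat_mul]
                refine Real.exp_le_exp.2 ?_
                rw [div_le_iff₀ h0] at hN1
                nlinarith
      _ ≤ _ := by
          rw [← ENNReal.ofReal_ofNat 4, ← ENNReal.ofReal_mul (by norm_num),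
            ← ENNReal.ofReal_mul (by norm_num), ← ENNReal.ofReal_add (by positivity) (by positivity)]
          exact ENNReal.ofReal_le_ofReal (by linarith)
  have eX : ∀ v, XX ρ p l (ENNReal.ofReal (c + 1 - mr (F v))) (F v) = ∑' n, wt l n *
      ∫⁻ ω, ENNReal.ofReal (br p (c + 1) (c + 1 - mr (F v) + mr (ev n ω (F v)))) ∂env d ρ :=
    fun v => by
      rw [gboxup_XX hd1 hm hp1 h0 h1 (by linarith [hF1 v]) (hFn v), sub_add_cancel]
  rw [gboxup_XX hd1 hm hp1 h0 h1 hc0 hf, hmr, ← ENNReal.summable.sum_add_tsum_nat_add' (k := N)]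
  have eH : ∑ n ∈ Finset.range N, wt l n *
      ∫⁻ ω, ENNReal.ofReal (br p (c + 1) (c + mr (ev n ω f))) ∂env d ρ ≤
      ENNReal.ofReal (1 + η) * ∑ v ∈ V, XX ρ p l (ENNReal.ofReal (c + 1 - mr (F v))) (F v) +
      ENNReal.ofReal CF * (ENNReal.ofReal (16 * M * Z / l) * nq p g +
        ENNReal.ofReal (1600 * CI * ex) + ENNReal.ofReal ε +
        (ENNReal.ofReal s * ENNReal.ofReal (Real.exp 2 * Z)) ^ 2) := by
    refine le_trans (Finset.sum_le_sum fun n hn => mul_le_mul_right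
      ((HF ρ p c ε r b n N V F f g hm hc.p1 hp2.le hc0 hf hf1 h hF hs hsep
        (fun v hv => (hsm v hv).trans (inv_anti₀ (by linarith) (by linarith)))
        (Finset.mem_range.1 hn).le (by exact_mod_cast hN0) (hεn n (Finset.mem_range.1 hn))
        hε1).trans (add_le_add_right (mul_le_mul_right (add_le_add_right (pow_le_pow_left'
          (mul_le_mul_right (gboxup_mom hd1 hm hp1.le (by positivity) ?_ hO' ?_) _) 2) _) _) _)) _)
      ((ENNReal.sum_le_tsum _).trans ?_)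
    · rw [div_le_iff₀ (by positivity)]; linarith
    · have := Nat.lt_ceil.1 (Finset.mem_range.1 hn)
      rw [lt_div_iff₀ h0] at this
      rw [← mul_div_assoc, div_le_one (by positivity)]
      exact this.le
    · simp only [mul_add, mul_left_comm (wt l _), ENNReal.tsum_add, ENNReal.tsum_mul_left,
        ENNReal.tsum_mul_right, wt_tsum h0 h1, one_mul, Finset.mul_sum, eX]
      rw [Summable.tsum_finsetSum fun _ _ => ENNReal.summable]
      simp only [ENNReal.tsum_mul_left]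
      gcongr
  refine (add_le_add eH eT).trans ?_
  rw [add_assoc, add_assoc (ENNReal.ofReal (1 + η) * _)]
  refine add_le_add_right ?_ _
  rw [mul_add, mul_add, mul_add, ← mul_assoc, add_assoc, add_assoc, add_assoc,
    ← ENNReal.ofReal_mul s0, ← ENNReal.ofReal_pow (by positivity),
    ← ENNReal.ofReal_mul (by linarith), ← ENNReal.ofReal_mul (by linarith),
    ← ENNReal.ofReal_mul (by linarith), ← ENNReal.ofReal_mul (by linarith),
    ← ENNReal.ofReal_add (by positivity) (by positivity),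
    ← ENNReal.ofReal_add (by positivity) (by positivity),
    ← ENNReal.ofReal_add (by positivity) (by positivity)]
  refine add_le_add (mul_le_mul_left (ENNReal.ofReal_le_ofReal ?_) _) (ENNReal.ofReal_le_ofReal ?_)
  · rw [← mul_div_assoc, show CF * (16 * M * Z) = 16 * (CF * M) * Z by ring]
    rw [abs_of_pos (by linarith : 0 < M)] at hC y1
    gcongr
    linarith
  · have a1 : ε ≤ ex := Real.exp_le_exp.2 (by nlinarith)
    have a2 : (s * (Real.exp 2 * Z)) ^ 2 = Real.exp 4 * (Z ^ 2 * s ^ 2) := by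
      rw [show (4 : ℝ) = 2 + 2 by norm_num, Real.exp_add]; ring
    have a3 : CF * Real.exp 4 * (Z ^ 2 * s ^ 2) ≤ C * (Z ^ 2 * s ^ 2) := by gcongr; linarith
    have a4 : (1600 * (CF * CI) + CF + 320004) * ex ≤ C * ex := by gcongr; linarith
    have a5 : CF * ε ≤ CF * ex := by gcongr
    rw [a2]
    linarith

/-- Upper bound of the gain by the gains of well separated pieces. -/
theorem box_up (hd : 3 ≤ d) {κ M : ℝ} (hκ : 0 < κ) (η : ℝ) (hη : 0 < η) : ∃ C : ℝ, 1 ≤ C ∧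
    ∀ (ρ : Measure ℝ≥0) [IsProbabilityMeasure ρ] (p l Z c : ℝ) (r b : ℕ) (V : Finset (Site d))
      (F : Site d → Prof d) (f g : Prof d), Ctx d κ M ρ p l → l ≤ C⁻¹ → C ≤ Z → Sc d ρ p l Z →
      OO d ρ p (l / Z ^ 2) ≤ ENNReal.ofReal Z → 0 ≤ c → Nice f → mass f = 1 →
      (∀ y, f y = ∑ v ∈ V, F v y + g y) → (∀ v ∈ V, ∀ y, F v y ≠ 0 → y - v ∈ box d r) →
      (∀ v ∈ V, ∀ v' ∈ V, v ≠ v' → v - v' ∉ box d (2 * (r + b))) → Z ^ 3 / √l ≤ b →
      (∀ v ∈ V, mr (F v) ≤ C⁻¹) →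
        XX ρ p l (ENNReal.ofReal c) f ≤
          ENNReal.ofReal (1 + η) * ∑ v ∈ V, XX ρ p l (ENNReal.ofReal (c + 1 - mr (F v))) (F v) +
          ENNReal.ofReal (C * Z / l) * nq p g +
          ENNReal.ofReal (C * (Z ^ 2 * (∑ v ∈ V, mr (F v) ^ p) ^ 2 + Real.exp (-(Z / 20)))) := by
  obtain ⟨C, hC, H⟩ := gboxup_main hd (M := M) hκ η hη
  refine ⟨C, hC, ?_⟩
  intro ρ _ p l Z c r b V F f g hc hl hZ hS hO' hc0 hf hf1 h hs hsep hb hsm
  have e : ∀ v ∈ V, (if v ∈ V then F v else 0) = F v := fun v hv => if_pos hv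
  have key := H ρ p l Z c r b V (fun v => if v ∈ V then F v else 0) f g hc hl hZ hS hO' hc0 hf hf1
    (fun y => by rw [h y, Finset.sum_congr rfl fun v hv => congrFun (e v hv) y])
    (fun v hv => by rw [e v hv]; exact hs v hv) hsep hb (fun v hv => by rw [e v hv]; exact hsm v hv)
    fun v y => by
      by_cases hv : v ∈ V
      · rw [e v hv, h y]
        exact (Finset.single_le_sum (f := fun v => F v y) (fun _ _ => zero_le) hv).trans
          le_self_add
      · simp [hv]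
  refine key.trans (le_of_eq ?_)
  rw [Finset.sum_congr rfl fun v hv => by rw [e v hv],
    Finset.sum_congr (f := fun v => mr (if v ∈ V then F v else 0) ^ p) rfl fun v hv => by
      rw [e v hv]]

end Pool.Agent.Lib.MP_153faa_pr
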