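import Mathlib
import Pool.Agent.Lib.MP_153faa_pr.GBoxUp
import Pool.Agent.Lib.MP_153faa_pr.GSup
import Pool.Agent.Lib.MP_153faa_pr.GHK2
import Pool.Agent.Lib.MP_153faa_pr.GHK3
import Pool.Agent.Lib.MP_153faa_pr.GBox2

set_option autoImplicit false

open MeasureTheory Filter Topology
open scoped ENNReal NNReal

namespace Pool.Agent.Lib.MP_153faa_pr

variable {d : ℕ}

/-- Upper bound of the gain through a tiling. -/
theorem gbox_upper (hd : 3 ≤ d) {κ M Cs : ℝ} (hκ : 0 < κ) (hs : 1 ≤ Cs)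
    (hsup : ∀ (n : ℕ) (y : Site d), 1 ≤ n → ph d n y ≤ Cs * (n : ℝ) ^ (-(d : ℝ) / 2))
    (η : ℝ) (hη : 0 < η) : ∃ C : ℝ, 1 ≤ C ∧
    ∀ (ρ : Measure ℝ≥0) [IsProbabilityMeasure ρ] (l Z c₁ : ℝ) (m r b : ℕ) (V : Finset (Site d))
      (c : Site d → ℝ≥0∞) (g : Prof d) (s : ℝ≥0∞), Ctx d κ M ρ (q0 d) l → l ≤ C⁻¹ → C ≤ Z →
      Sc d ρ (q0 d) l Z → OO d ρ (q0 d) (l / Z ^ 2) ≤ ENNReal.ofReal Z → 0 ≤ c₁ → 1 ≤ r →
      Z ^ 3 / √l ≤ b → l * (r : ℝ) ^ 2 ≤ Z ^ (4 * d + 106) → Z ^ (8 * d + 240) / l ≤ m →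
      l * m ≤ l ^ (-(1 / 16) : ℝ) →
      (∀ v ∈ V, ∀ v' ∈ V, v ≠ v' → v - v' ∉ box d (2 * (r + b))) →
      (∀ y, phi d m y = ∑ v ∈ V, c v * sh v (cube d r) y + g y) →
      mass g ≤ ENNReal.ofReal (Z ^ 23)⁻¹ →
      ENNReal.ofReal (Cs * (m : ℝ) ^ (-(d : ℝ) / 2)) * s ≤ ENNReal.ofReal ((1 + c₁) / 2) →
      ENNReal.ofReal (l * m) * XX ρ (q0 d) l (ENNReal.ofReal c₁) (phi d m) ≤
        ENNReal.ofReal (l * m) * ENNReal.ofReal (1 + η) * (∑ v ∈ V, c v ^ q0 d) *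
          XX ρ (q0 d) l s (cube d r) + ENNReal.ofReal (Z ^ 20)⁻¹ := by
  obtain ⟨Cb, hb, H⟩ := box_up (M := M) hd hκ η hη
  obtain ⟨K, hK, HK⟩ := gbox_exp
  have hs2 : Cs ≤ Cs ^ 2 := by nlinarith
  have hbs : Cb * Cs ≤ Cb * Cs ^ 2 := by gcongr
  have hbs1 : Cb ≤ Cb * Cs := by nlinarith
  have hbs2 : Cs ≤ Cb * Cs := by nlinarith
  refine ⟨K + 243 * Cb * Cs ^ 2, by linarith, ?_⟩
  intro ρ _ l Z c₁ m r b V c g s hx hl hZ hsc hO hc hr hrb hlr hm hlm hV hf hg hts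
  have hd1 : 1 ≤ d := by omega
  obtain ⟨hp, hp2⟩ := hx.one_lt hd
  have h0 := hx.l0
  have hZ1 : 1 ≤ Z := by linarith
  have hZ0 : 0 < Z := by linarith
  have hm' : Z ^ (8 * d + 240) ≤ l * m := by rwa [div_le_iff₀' h0] at hm
  have hm0 : (0 : ℝ) < m := lt_of_lt_of_le (by positivity) hm
  have hm1 : 1 ≤ m := by exact_mod_cast hm0
  have hr0 : (0 : ℝ) < r := by exact_mod_cast hr
  have hphi : ∀ y, phi d m y ≤ ENNReal.ofReal (Cs * (m : ℝ) ^ (-(d : ℝ) / 2)) := fun y => by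
    rw [← ofReal_ph hd1]
    exact ENNReal.ofReal_le_ofReal (hsup m y hm1)
  have hcv : ∀ v ∈ V, c v ≤ ENNReal.ofReal (Cs * (m : ℝ) ^ (-(d : ℝ) / 2)) := fun v hv =>
    (gbox_c_le hf hv).trans (hphi v)
  obtain ⟨x, hxe⟩ : ∃ x : ℝ, x = m / (9 * (r : ℝ) ^ 2) := ⟨_, rfl⟩
  have hxZ : Z / 9 ≤ x := by
    have h2 : Z * Z ^ (4 * d + 106) ≤ Z ^ (8 * d + 240) := by
      rw [← pow_succ']
      exact pow_le_pow_right₀ hZ1 (by omega)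
    have h3 : l * (Z * (r : ℝ) ^ 2) ≤ l * m := by nlinarith
    have h4 := le_of_mul_le_mul_left h3 h0
    rw [hxe, div_le_div_iff₀ (by norm_num) (by positivity)]
    linarith
  have hx1 : 1 ≤ x := by linarith
  have hx0 : 0 < x := by linarith
  have hmass : ∀ v ∈ V, mass (sca (c v) (sh v (cube d r))) ≤
      ENNReal.ofReal (Cs * x ^ (-(d : ℝ) / 2)) := fun v hv => by
    rw [hxe]
    exact gbox_mr_le (by linarith) hm0 hr (hcv v hv) v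
  have hmr : ∀ v ∈ V, mr (sca (c v) (sh v (cube d r))) ≤ (2 * Cb)⁻¹ := fun v hv => by
    have h2 : mr (sca (c v) (sh v (cube d r))) ≤ Cs * x ^ (-(d : ℝ) / 2) :=
      ENNReal.toReal_le_of_le_ofReal (by positivity) (hmass v hv)
    have h3 : x ^ (-(d : ℝ) / 2) ≤ x⁻¹ := by
      rw [← Real.rpow_neg_one]
      refine Real.rpow_le_rpow_of_exponent_le hx1 ?_
      have : (3 : ℝ) ≤ d := by exact_mod_cast hd
      linarith
    have h4 : Cs * x⁻¹ ≤ (2 * Cb)⁻¹ := by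
      rw [← div_eq_mul_inv, ← one_div, div_le_div_iff₀ hx0 (by linarith)]
      linarith
    calc _ ≤ Cs * x ^ (-(d : ℝ) / 2) := h2
      _ ≤ Cs * x⁻¹ := by gcongr
      _ ≤ _ := h4
  have hi1 : (2 * Cb)⁻¹ ≤ Cb⁻¹ := inv_anti₀ (by linarith) (by linarith)
  have hi2 : (2 * Cb)⁻¹ ≤ 2⁻¹ := inv_anti₀ (by linarith) (by linarith)
  have h1 := H ρ (q0 d) l Z c₁ r b V (fun v => sca (c v) (sh v (cube d r))) (phi d m) g hx
    (hl.trans (inv_anti₀ (by linarith) (by linarith))) (by linarith) hsc hO hc (nice_phi hd1 m)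
    (mass_phi hd1 m) hf (fun v _ y hy => gbox_cube_box (right_ne_zero_of_mul hy)) hV hrb
    (fun v hv => (hmr v hv).trans hi1)
  have h2 := gbox_pieces (ρ := ρ) hd1 hx.good.1 hp hp2 h0 hx.l1 ENNReal.ofReal_ne_top hcv hc hts
    (fun v hv => (hmr v hv).trans hi2)
  have h3 : nq (q0 d) g ≤ ENNReal.ofReal (Cs / m * (Z ^ 23)⁻¹) := by
    rw [ENNReal.ofReal_mul (by positivity)]
    refine (gbox_nq_le hp.le (fun y => le_trans ?_ (hphi y))).trans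
      (mul_le_mul' (gbox_hpow_le (by omega) hs hm0) hg)
    rw [hf y]
    exact le_add_self
  obtain ⟨S, hS⟩ : ∃ S : ℝ, S = ∑ v ∈ V, mr (sca (c v) (sh v (cube d r))) ^ q0 d := ⟨_, rfl⟩
  have hS0 : 0 ≤ S := by
    rw [hS]
    exact Finset.sum_nonneg fun v _ => Real.rpow_nonneg (gres2_mr_nonneg _) _
  have h4 : S ≤ Cs / x := by
    rw [← ENNReal.ofReal_le_ofReal_iff (by positivity), hS,
      ENNReal.ofReal_sum_of_nonneg fun v _ => Real.rpow_nonneg (gres2_mr_nonneg _) _]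
    have h5 := gbox_mass_sum hf
    rw [mass_phi hd1, Finset.sum_mul] at h5
    calc _ ≤ ∑ v ∈ V, ENNReal.ofReal (Cs / x) * (c v * mass (cube d r)) := by
          refine Finset.sum_le_sum fun v hv => ?_
          rw [← ENNReal.ofReal_rpow_of_nonneg (gres2_mr_nonneg _) (by linarith),
            (gbox_nice (ne_top_of_le_ne_top ENNReal.ofReal_ne_top (hcv v hv)) r v).ofReal_mr,
            gbox_pow_split hp.le]
          refine mul_le_mul' ?_ (gbox_mass_piece r _ v).le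
          exact (ENNReal.rpow_le_rpow (hmass v hv) (by linarith)).trans
            (gbox_hpow_le (by omega) hs hx0)
      _ ≤ ENNReal.ofReal (Cs / x) * 1 := by
          rw [← Finset.mul_sum]
          exact mul_le_mul_right h5 _
      _ = _ := mul_one _
  have h5 := gbox_err (d := d) hb hs h0 (by linarith) hlr hm' hS0 (hxe ▸ h4) hr0
    (HK l Z _ h0 hsc.2 (by linarith) hlm)
  rw [← hS] at h1
  refine (mul_le_mul_right h1 _).trans ?_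
  rw [add_assoc, mul_add]
  refine add_le_add ?_ ?_
  · rw [mul_assoc, mul_assoc]
    exact mul_le_mul_right (mul_le_mul_right h2 _) _
  · refine le_trans ?_ (ENNReal.ofReal_le_ofReal h5)
    rw [ENNReal.ofReal_mul (p := l * m) (by positivity),
      ENNReal.ofReal_add (by positivity) (by positivity),
      ENNReal.ofReal_mul (p := Cb * Z / l) (by positivity)]
    gcongr

theorem gbox_key {A₁ A₂ N : ℝ≥0∞} (hN0 : N ≠ 0) (hN : N ≠ ⊤) {l m₁ m₂ c ε η : ℝ} (hl : 0 ≤ l)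
    (h₁ : 0 < m₁) (h₂ : 0 < m₂) (hc : 0 ≤ c) (hε : 0 ≤ ε) (hε' : 20 * ε ≤ 1) (hη : 20 * ε ≤ η)
    (ha : A₁ * N ≤ ENNReal.ofReal (c * (1 + ε) / m₁))
    (hb : ENNReal.ofReal (c * (1 - ε) / m₂) ≤
      A₂ * N + ENNReal.ofReal (ε * c / m₂) + ENNReal.ofReal (ε * c / m₂)) :
    ENNReal.ofReal (l * m₁) * ENNReal.ofReal (1 + ε) * A₁ ≤
      ENNReal.ofReal ((1 + η) * (l * m₂)) * A₂ := by
  have h3 : 0 ≤ 1 - 3 * ε := by linarith
  have hη0 : 0 ≤ η := by linarith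
  have hb' : ENNReal.ofReal (c * (1 - 3 * ε) / m₂) ≤ A₂ * N := by
    have e : c * (1 - ε) / m₂ = c * (1 - 3 * ε) / m₂ + ε * c / m₂ + ε * c / m₂ := by ring
    rw [e, ENNReal.ofReal_add (by positivity) (by positivity),
      ENNReal.ofReal_add (by positivity) (by positivity),
      ENNReal.add_le_add_iff_right ENNReal.ofReal_ne_top,
      ENNReal.add_le_add_iff_right ENNReal.ofReal_ne_top] at hb
    exact hb
  rw [← ENNReal.mul_le_mul_iff_left hN0 hN, mul_assoc, mul_assoc _ A₂]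
  refine (mul_le_mul_right ha _).trans (le_trans ?_ (mul_le_mul_right hb' _))
  rw [← ENNReal.ofReal_mul (by positivity), ← ENNReal.ofReal_mul (by positivity),
    ← ENNReal.ofReal_mul (by positivity)]
  refine ENNReal.ofReal_le_ofReal ?_
  have e1 : l * m₁ * (1 + ε) * (c * (1 + ε) / m₁) = l * c * ((1 + ε) * (1 + ε)) := by field_simp
  have e2 : (1 + η) * (l * m₂) * (c * (1 - 3 * ε) / m₂) = l * c * ((1 + η) * (1 - 3 * ε)) := by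
    field_simp
  rw [e1, e2]
  refine mul_le_mul_of_nonneg_left ?_ (by positivity)
  have h4 : (1 + 20 * ε) * (1 - 3 * ε) ≤ (1 + η) * (1 - 3 * ε) := by gcongr
  nlinarith

theorem gbox_llt (hd : 1 ≤ d) : ∃ c : ℝ, 0 < c ∧ ∀ ε : ℝ, 0 < ε → ∃ m₀ : ℕ, ∀ m : ℕ, m₀ ≤ m →
    1 ≤ m → nq (q0 d) (phi d m) ≤ ENNReal.ofReal (c * (1 + ε) / m) ∧
      ENNReal.ofReal (c * (1 - ε) / m) ≤ nq (q0 d) (phi d m) := by
  obtain ⟨c, hc, H⟩ := hk_llt hd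
  refine ⟨c, hc, fun ε hε => ?_⟩
  obtain ⟨m₀, hm₀⟩ := Metric.tendsto_atTop.1 H (c * ε) (by positivity)
  refine ⟨m₀, fun m hm hm1 => ?_⟩
  have h1 := hm₀ m hm
  rw [Real.dist_eq, abs_lt] at h1
  have hm0 : (0 : ℝ) < m := by exact_mod_cast hm1
  have hq : 1 ≤ q0 d := by
    simp only [q0, le_add_iff_nonneg_right]
    positivity
  have h2 : nq (q0 d) (phi d m) ≠ ⊤ :=
    ne_top_of_le_ne_top (gres2_mq_ne_top hq (nice_phi hd m)) (nq_le_mq hq _)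
  rw [← ENNReal.ofReal_toReal h2]
  refine ⟨ENNReal.ofReal_le_ofReal ?_, ENNReal.ofReal_le_ofReal ?_⟩
  · rw [le_div_iff₀ hm0]
    linarith [h1.2]
  · rw [div_le_iff₀ hm0]
    linarith [h1.1]

/-- Comparison of the gains from heat kernel profiles of different ages. -/
theorem box_cmp (hd : 3 ≤ d) {κ M : ℝ} (hκ : 0 < κ) : ∃ a : ℕ, ∀ η : ℝ, 0 < η →
    ∃ C : ℝ, 1 ≤ C ∧
      ∀ (ρ : Measure ℝ≥0) [IsProbabilityMeasure ρ] (l Z c₁ c₂ : ℝ) (m₁ m₂ : ℕ),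
        Ctx d κ M ρ (q0 d) l → l ≤ C⁻¹ → C ≤ Z → Sc d ρ (q0 d) l Z →
        OO d ρ (q0 d) (l / Z ^ 2) ≤ ENNReal.ofReal Z → 0 ≤ c₁ → 0 ≤ c₂ →
        Z ^ a / l ≤ m₁ → Z ^ a / l ≤ m₂ → l * m₁ ≤ l ^ (-(1 / 16) : ℝ) →
        C * (1 + c₂) * (m₂ : ℝ) ^ ((d : ℝ) / 2) ≤ (1 + c₁) * (m₁ : ℝ) ^ ((d : ℝ) / 2) →
        ENNReal.ofReal (l * m₁) * XX ρ (q0 d) l (ENNReal.ofReal c₁) (phi d m₁) ≤
          ENNReal.ofReal ((1 + η) * (l * m₂)) * XX ρ (q0 d) l (ENNReal.ofReal c₂) (phi d m₂) +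
            ENNReal.ofReal (Z ^ 20)⁻¹ := by
  have hd1 : 1 ≤ d := by omega
  obtain ⟨Cs, hs, hsup⟩ := hk_sup hd1
  obtain ⟨Ct, ht, Ht⟩ := gbox_tile hd1
  obtain ⟨c0, hc0, Hl⟩ := gbox_llt hd1
  refine ⟨8 * d + 240, fun η hη => ?_⟩
  obtain ⟨ε, hε, hε1, hε2⟩ : ∃ ε : ℝ, 0 < ε ∧ 20 * ε ≤ 1 ∧ 20 * ε ≤ η :=
    ⟨min 1 η / 20, by positivity, by linarith [min_le_left 1 η], by linarith [min_le_right 1 η]⟩
  obtain ⟨Cu, hu, Hu⟩ := gbox_upper (M := M) hd hκ hs hsup ε hε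
  obtain ⟨m₀, Hm⟩ := Hl ε hε
  obtain ⟨δ, hδ, hδe⟩ : ∃ δ : ℝ, 0 < δ ∧ δ ^ (2 / d : ℝ) = ε * c0 := by
    refine ⟨(ε * c0) ^ ((d : ℝ) / 2), by positivity, ?_⟩
    have hd0 : (d : ℝ) ≠ 0 := by positivity
    rw [← Real.rpow_mul (by positivity), show (d : ℝ) / 2 * (2 / d) = 1 by field_simp,
      Real.rpow_one]
  have p1 : (0 : ℝ) ≤ m₀ := Nat.cast_nonneg _
  have p2 : 0 ≤ 2 * Cs / δ := by positivity
  have p3 : 0 ≤ 2 * Cs / (ε * c0) := by positivity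
  refine ⟨Cu + Ct + m₀ + 2 * Cs / δ + 2 * Cs / (ε * c0), by linarith, ?_⟩
  intro ρ _ l Z c₁ c₂ m₁ m₂ hx hl hZ hsc hO hc₁ hc₂ hm₁ hm₂ hlm hcmp
  obtain ⟨hp, hp2⟩ := hx.one_lt hd
  have h0 := hx.l0
  have hZ1 : 1 ≤ Z := by linarith
  have hZa : Z ≤ Z ^ (8 * d + 240) / l := by
    rw [le_div_iff₀ h0]
    have h2 : Z ≤ Z ^ (8 * d + 240) := le_self_pow₀ hZ1 (by omega)
    nlinarith [hx.l1]
  have hbig : ∀ m : ℕ, Z ^ (8 * d + 240) / l ≤ m → m₀ ≤ m ∧ 1 ≤ m ∧ (0 : ℝ) < m := fun m hm =>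
    ⟨by exact_mod_cast (show (m₀ : ℝ) ≤ m by linarith),
      by exact_mod_cast (show (1 : ℝ) ≤ m by linarith), by linarith⟩
  obtain ⟨a1, a2, a3⟩ := hbig m₁ hm₁
  obtain ⟨b1, b2, b3⟩ := hbig m₂ hm₂
  obtain ⟨r, b, hr, hrb, hlr, Hr⟩ := Ht l Z h0 hx.l1 (by linarith)
  obtain ⟨V₁, u₁, g₁, hV₁, hf₁, hg₁⟩ := Hr m₁ hm₁
  obtain ⟨V₂, u₂, g₂, hV₂, hf₂, hg₂⟩ := Hr m₂ hm₂
  have hinv : ∀ m : ℝ, 0 < m → m ^ (-(d : ℝ) / 2) = (m ^ ((d : ℝ) / 2))⁻¹ := fun m hm => by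
    rw [← Real.rpow_neg hm.le, neg_div]
  have q1 : 0 < (m₁ : ℝ) ^ ((d : ℝ) / 2) := by positivity
  have q2 : 0 < (m₂ : ℝ) ^ ((d : ℝ) / 2) := by positivity
  have h1 := Hu ρ l Z c₁ m₁ r b V₁ u₁ g₁
    (ENNReal.ofReal ((1 + c₁) * (m₁ : ℝ) ^ ((d : ℝ) / 2) / (2 * Cs))) hx
    (hl.trans (inv_anti₀ (by linarith) (by linarith))) (by linarith) hsc hO hc₁ hr hrb hlr hm₁ hlm
    hV₁ hf₁ hg₁ (by
      rw [← ENNReal.ofReal_mul (by positivity), hinv _ a3]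
      refine ENNReal.ofReal_le_ofReal (le_of_eq ?_)
      field_simp)
  have h2 := gbox_lower (ρ := ρ) hd1 hx.good.1 hp hp2 h0 hx.l1 (nice_phi hd1 m₂) (mass_phi hd1 m₂)
    hf₂ hc₂ (t := ENNReal.ofReal (δ * (m₂ : ℝ) ^ (-(d : ℝ) / 2)))
    (s := ENNReal.ofReal ((1 + c₁) * (m₁ : ℝ) ^ ((d : ℝ) / 2) / (2 * Cs))) (by
      rw [← ENNReal.ofReal_mul (by positivity), hinv _ b3]
      refine ENNReal.ofReal_le_ofReal ?_
      have h3 : 2 * Cs / δ * (1 + c₂) * (m₂ : ℝ) ^ ((d : ℝ) / 2) ≤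
          (1 + c₁) * (m₁ : ℝ) ^ ((d : ℝ) / 2) := le_trans (by gcongr; linarith) hcmp
      calc 1 + c₂ = δ * ((m₂ : ℝ) ^ ((d : ℝ) / 2))⁻¹ *
            (2 * Cs / δ * (1 + c₂) * (m₂ : ℝ) ^ ((d : ℝ) / 2) / (2 * Cs)) := by field_simp
        _ ≤ _ := by gcongr)
  refine h1.trans (add_le_add (le_trans ?_ (mul_le_mul_right h2 _)) le_rfl)
  rw [← mul_assoc]
  refine mul_le_mul_left ?_ _
  refine gbox_key (N := mass (cube d r)) (ne_of_gt (zero_lt_one.trans_le (gbox_one_le r)))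
    (nice_cube r).mass_ne_top h0.le a3 b3 hc0.le hε.le hε1 hε2
    ((gbox_sum_le hp.le hf₁).trans (Hm m₁ a1 a2).1) ((Hm m₂ b1 b2).2.trans ?_)
  have hphi : ∀ y, phi d m₂ y ≤ ENNReal.ofReal (Cs * (m₂ : ℝ) ^ (-(d : ℝ) / 2)) := fun y => by
    rw [← ofReal_ph hd1]
    exact ENNReal.ofReal_le_ofReal (hsup m₂ y b2)
  refine (gbox_sum_ge hp.le hp2.le hV₂ hf₂ hphi).trans (add_le_add ?_ ?_)
  · refine (gbox_good hp.le hf₂ _).trans (add_le_add le_rfl (le_of_eq ?_))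
    rw [mass_phi hd1, mul_one, ENNReal.ofReal_rpow_of_nonneg (by positivity) (by linarith),
      gbox_hpow hd1 hδ.le b3, hδe]
  · refine (mul_le_mul_right (mul_le_mul' (gbox_hpow_le (by omega) hs b3) hg₂) _).trans ?_
    rw [← ENNReal.ofReal_mul (by positivity), ← ENNReal.ofReal_ofNat 2,
      ← ENNReal.ofReal_mul (by positivity)]
    refine ENNReal.ofReal_le_ofReal ?_
    have h3 : 2 * Cs / (ε * c0) ≤ Z ^ 23 := le_trans (by linarith) (le_self_pow₀ hZ1 (by norm_num))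
    rw [div_le_iff₀ (by positivity)] at h3
    calc 2 * (Cs / m₂ * (Z ^ 23)⁻¹) = 2 * Cs * ((m₂ : ℝ)⁻¹ * (Z ^ 23)⁻¹) := by ring
      _ ≤ Z ^ 23 * (ε * c0) * ((m₂ : ℝ)⁻¹ * (Z ^ 23)⁻¹) := by gcongr
      _ = _ := by field_simp

end Pool.Agent.Lib.MP_153faa_pr
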