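import Mathlib
import Pool.Agent.Lib.MP_153faa_pr.GBox
import Pool.Agent.Lib.MP_153faa_pr.GBlin

set_option autoImplicit false

open MeasureTheory Filter Topology
open scoped ENNReal NNReal

namespace Pool.Agent.Lib.MP_153faa_pr

variable {d : ℕ}

/-- The comparison of gains in real numbers, after normalisation. -/
theorem gb1_real {ρ : Measure ℝ≥0} [IsProbabilityMeasure ρ] {κ M p l : ℝ} (hd : 3 ≤ d)
    (h : Ctx d κ M ρ p l) (hO : OO d ρ p l ≠ ⊤) {c₁ c₂ : ℝ≥0∞} {m₁ m₂ : ℕ} {s t e : ℝ}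
    (hs : 0 ≤ s) (ht : 0 ≤ t) (he : 0 ≤ e)
    (H : ENNReal.ofReal s * XX ρ p l c₁ (phi d m₁) ≤
      ENNReal.ofReal t * XX ρ p l c₂ (phi d m₂) + ENNReal.ofReal e) :
    s * (KK d ρ p l * XX ρ p l c₁ (phi d m₁)).toReal ≤
      t * (KK d ρ p l * XX ρ p l c₂ (phi d m₂)).toReal + e := by
  have hd1 : 1 ≤ d := by omega
  obtain ⟨hp1, hp2⟩ := h.one_lt hd
  have hK : KK d ρ p l ≤ 1 :=
    ENNReal.inv_le_one.2 (one_le_OO hd1 h.good.1 hp1.le h.l0 h.l1)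
  have hfin : KK d ρ p l * XX ρ p l c₂ (phi d m₂) ≠ ⊤ := by
    refine ne_top_of_le_ne_top ?_ (mul_le_mul_right
      (XX_anti hd1 h.good.1 hp1 hp2.le h.l0 h.l1 (zero_le (a := c₂)) (nice_phi hd1 m₂)) _)
    rw [(Kr_add_Ar hd1 h.good.1 hp1.le h.l0 h.l1 hO m₂).2.2]
    exact ENNReal.ofReal_ne_top
  have H2 : ENNReal.ofReal s * (KK d ρ p l * XX ρ p l c₁ (phi d m₁)) ≤
      ENNReal.ofReal t * (KK d ρ p l * XX ρ p l c₂ (phi d m₂)) + ENNReal.ofReal e := by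
    calc _ = KK d ρ p l * (ENNReal.ofReal s * XX ρ p l c₁ (phi d m₁)) := by ring
      _ ≤ KK d ρ p l * (ENNReal.ofReal t * XX ρ p l c₂ (phi d m₂) + ENNReal.ofReal e) :=
          mul_le_mul_right H _
      _ = ENNReal.ofReal t * (KK d ρ p l * XX ρ p l c₂ (phi d m₂)) +
            KK d ρ p l * ENNReal.ofReal e := by ring
      _ ≤ _ := add_le_add le_rfl (mul_le_of_le_one_left' hK)
  have hfin2 : ENNReal.ofReal t * (KK d ρ p l * XX ρ p l c₂ (phi d m₂)) ≠ ⊤ :=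
    ENNReal.mul_ne_top ENNReal.ofReal_ne_top hfin
  have H3 := ENNReal.toReal_mono (ENNReal.add_ne_top.2 ⟨hfin2, ENNReal.ofReal_ne_top⟩) H2
  rwa [ENNReal.toReal_add hfin2 ENNReal.ofReal_ne_top, ENNReal.toReal_mul (a := ENNReal.ofReal s),
    ENNReal.toReal_mul (a := ENNReal.ofReal t), ENNReal.toReal_ofReal hs,
    ENNReal.toReal_ofReal ht, ENNReal.toReal_ofReal he] at H3

theorem gb1_up {η e s s₀ A A₀ X X₀ t q w w₂ : ℝ} (he : 0 < e) (he1 : e ≤ 1 / 8) (he2 : e ≤ η / 8)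
    (hs₀ : 0 ≤ s₀) (hs : s₀ ≤ s) (hA₀ : 0 ≤ A₀) (hA : 0 ≤ A) (_ht0 : 0 ≤ t) (ht1 : t ≤ 1)
    (hq : 0 ≤ q) (hw : s * q ≤ w) (hw₂ : w₂ ≤ w / 4)
    (h1 : (1 - e) * A - e * (A + q) ≤ X) (h2 : s * X ≤ (1 + e) * s₀ * X₀ + w₂)
    (h3 : X₀ ≤ t * A₀ + e * (A₀ + q)) : s * A ≤ t * (s₀ * A₀) + η * (s₀ * A₀) + w := by
  have hs1 : 0 ≤ s := hs₀.trans hs
  have hv : 0 ≤ s₀ * A₀ := mul_nonneg hs₀ hA₀
  have hsq : 0 ≤ s * q := mul_nonneg hs1 hq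
  have hsq0 : s₀ * q ≤ s * q := mul_le_mul_of_nonneg_right hs hq
  have hsq1 : 0 ≤ s₀ * q := mul_nonneg hs₀ hq
  have a1 : (1 - 2 * e) * (s * A) - e * (s * q) ≤ s * X := by
    have := mul_le_mul_of_nonneg_left h1 hs1
    linarith
  have a2 : (1 + e) * s₀ * X₀ ≤ (1 + e) * (t + e) * (s₀ * A₀) + (1 + e) * e * (s₀ * q) := by
    have := mul_le_mul_of_nonneg_left h3 (mul_nonneg (by linarith : 0 ≤ 1 + e) hs₀)
    linarith
  have a3 : (1 + e) * (t + e) ≤ (1 - 2 * e) * (t + η) := by nlinarith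
  have a4 : (1 + e) * (t + e) * (s₀ * A₀) ≤ (1 - 2 * e) * (t + η) * (s₀ * A₀) :=
    mul_le_mul_of_nonneg_right a3 hv
  have a5 : (1 + e) * e * (s₀ * q) ≤ 1 / 4 * w :=
    mul_le_mul (by nlinarith) (hsq0.trans hw) hsq1 (by norm_num)
  have a6 : e * (s * q) ≤ 1 / 8 * w := mul_le_mul he1 hw hsq (by norm_num)
  have a7 : 3 / 4 * w ≤ (1 - 2 * e) * w := mul_le_mul_of_nonneg_right (by linarith) (by linarith)
  have _ := hA
  refine le_of_mul_le_mul_left (a := 1 - 2 * e) ?_ (by linarith)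
  linarith

theorem gb1_low {η e s s₀ A A₀ X₀ t q w w₂ : ℝ} (he : 0 < e) (he2 : e ≤ η / 8)
    (hs₀ : 0 ≤ s₀) (hs : s₀ ≤ s) (hA₀ : 0 ≤ A₀) (ht1 : t ≤ 1)
    (hq : 0 ≤ q) (hw : s * q ≤ w) (hw₂ : w₂ ≤ w / 4)
    (h1 : (t - e) * A₀ - e * (A₀ + q) ≤ X₀) (h2 : s₀ * X₀ ≤ (1 + e) * s * A + w₂) :
    t * (s₀ * A₀) - η * (s₀ * A₀) - w ≤ s * A := by
  have hs1 : 0 ≤ s := hs₀.trans hs
  have hv : 0 ≤ s₀ * A₀ := mul_nonneg hs₀ hA₀
  have hsq : 0 ≤ s * q := mul_nonneg hs1 hq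
  have hsq0 : s₀ * q ≤ s * q := mul_le_mul_of_nonneg_right hs hq
  have a1 : (t - 2 * e) * (s₀ * A₀) - e * (s₀ * q) ≤ s₀ * X₀ := by
    have := mul_le_mul_of_nonneg_left h1 hs₀
    linarith
  have a3 : (1 + e) * (t - η) ≤ t - 2 * e := by nlinarith
  have a4 : (1 + e) * (t - η) * (s₀ * A₀) ≤ (t - 2 * e) * (s₀ * A₀) :=
    mul_le_mul_of_nonneg_right a3 hv
  have a6 : e * (s₀ * q) ≤ e * w := mul_le_mul_of_nonneg_left (hsq0.trans hw) he.le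
  refine le_of_mul_le_mul_left (a := 1 + e) ?_ (by linarith)
  linarith

/-- Dependence of the creation rate on the age of the profile. -/
theorem b1 (hd : 3 ≤ d) {κ M : ℝ} (hκ : 0 < κ) : ∃ (a : ℕ) (C₁ : ℝ), 1 ≤ C₁ ∧
    ∀ η : ℝ, 0 < η → ∃ C : ℝ, 1 ≤ C ∧
      ∀ (ρ : Measure ℝ≥0) [IsProbabilityMeasure ρ] (l Z : ℝ) (m₀ m : ℕ),
        Ctx d κ M ρ (q0 d) l → l ≤ C⁻¹ → C ≤ Z → Sc d ρ (q0 d) l Z →
        OO d ρ (q0 d) (l / Z ^ 2) ≤ ENNReal.ofReal Z → Kr d ρ (q0 d) l ≤ C⁻¹ →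
        Z ^ a / l ≤ m₀ → m₀ ≤ m → l * m ≤ l ^ (-(1 / 16) : ℝ) →
        C₁ * (1 + d / 2 * Real.log (m / m₀)) * Kr d ρ (q0 d) l ≤ 1 →
        |l * m * Ar d ρ (q0 d) l m -
            (1 - Kr d ρ (q0 d) l * Br d ρ (q0 d) l (d / 2 * Real.log (m / m₀))) *
              (l * m₀ * Ar d ρ (q0 d) l m₀)| ≤
          η * (l * m₀ * Ar d ρ (q0 d) l m₀) + (Z ^ 10)⁻¹ := by
  obtain ⟨a, hbox⟩ := box_cmp (d := d) (M := M) hd hκ
  obtain ⟨Ca, hCa, hb1a⟩ := b1a (d := d) (M := M) hd hκ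
  obtain ⟨Cb, hCb, hbr⟩ := br_lin (d := d) (M := M) hd hκ
  refine ⟨a + 4, 2 * Ca + Cb, by linarith, fun η hη => ?_⟩
  set e := min (1 / 8) (η / 8) with he
  have he0 : 0 < e := lt_min (by norm_num) (by linarith)
  have he1 : e ≤ 1 / 8 := min_le_left _ _
  have he2 : e ≤ η / 8 := min_le_right _ _
  obtain ⟨Cx, hCx, hbox⟩ := hbox e he0
  obtain ⟨Cy, hCy, hb1a⟩ := hb1a e he0
  set y := Real.log (2 * Cx) with hy
  have hy0 : 0 ≤ y := Real.log_nonneg (by linarith)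
  have hey : Real.exp y = 2 * Cx := Real.exp_log (by linarith)
  have t1 : 0 ≤ Cb * (1 + y) / e := by positivity
  have t2 : 0 ≤ 2 * Ca * (1 + y) := by positivity
  set C := Cx + Cy + Cb + 2 + Cb * (1 + y) / e + 2 * Ca * (1 + y) with hC
  have hC0 : 0 < C := by linarith
  refine ⟨C, by linarith, fun ρ _ l Z m₀ m hc hl hZ hSc hOO hK hm₀ hm hlm hC₁ => ?_⟩
  have hinv : ∀ {D : ℝ}, 0 < D → D ≤ C → C⁻¹ ≤ D⁻¹ := fun h1 h2 => inv_anti₀ h1 h2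
  have hO : OO d ρ (q0 d) l ≠ ⊤ := ne_top_of_le_ne_top ENNReal.ofReal_ne_top hSc.1
  have hl0 := hc.l0
  have hZ2 : 2 ≤ Z := by linarith
  have hK0 : 0 ≤ Kr d ρ (q0 d) l := Kr_nonneg
  have hKC : C * Kr d ρ (q0 d) l ≤ 1 := by
    have := mul_le_mul_of_nonneg_left hK hC0.le
    rwa [mul_inv_cancel₀ hC0.ne'] at this
  have hK1 : Cb * (1 + y) * Kr d ρ (q0 d) l ≤ e := by
    have h1 : Cb * (1 + y) / e * Kr d ρ (q0 d) l ≤ 1 :=
      (mul_le_mul_of_nonneg_right (by linarith) hK0).trans hKC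
    rw [div_mul_eq_mul_div, div_le_one he0] at h1
    exact h1
  have hK2 : 2 * Ca * (1 + y) * Kr d ρ (q0 d) l ≤ 1 :=
    (mul_le_mul_of_nonneg_right (by linarith) hK0).trans hKC
  have hm₀0 : (0 : ℝ) < m₀ := lt_of_lt_of_le (by positivity) hm₀
  have hmm : (m₀ : ℝ) ≤ m := by exact_mod_cast hm
  have hm0 : (0 : ℝ) < m := by linarith
  set L := d / 2 * Real.log ((m : ℝ) / m₀) with hL
  have hL0 : 0 ≤ L := mul_nonneg (by positivity) (Real.log_nonneg ((one_le_div hm₀0).2 hmm))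
  have heL : Real.exp L * (m₀ : ℝ) ^ ((d : ℝ) / 2) = (m : ℝ) ^ ((d : ℝ) / 2) := by
    rw [hL, mul_comm ((d : ℝ) / 2), ← Real.rpow_def_of_pos (by positivity),
      ← Real.mul_rpow (by positivity) hm₀0.le, div_mul_cancel₀ _ hm₀0.ne']
  have heL1 : 1 ≤ Real.exp L := Real.one_le_exp hL0
  have hP0 : 0 < (m₀ : ℝ) ^ ((d : ℝ) / 2) := by positivity
  have ha₀ : Z ^ a / l ≤ m₀ := by
    refine le_trans ?_ hm₀
    gcongr
    · linarith
    · omega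
  have hlm₀ : l * m₀ ≤ l * m := by gcongr
  -- the two error terms
  have hq0 : 0 ≤ l ^ (1 / 4 : ℝ) := by positivity
  have hw : l * m * l ^ (1 / 4 : ℝ) ≤ (Z ^ 10)⁻¹ := by
    have h1 : Z ^ 4 ≤ l ^ (-(1 / 16) : ℝ) := by
      refine le_trans ?_ (hlm₀.trans hlm)
      rw [div_le_iff₀' hl0] at hm₀
      exact le_trans (pow_le_pow_right₀ (by linarith) (by omega)) hm₀
    have h2 : l ^ (-(1 / 16) : ℝ) * l ^ (1 / 4 : ℝ) = ((l ^ (-(1 / 16) : ℝ)) ^ 3)⁻¹ := by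
      rw [← Real.rpow_add hl0, ← Real.rpow_natCast, ← Real.rpow_mul hl0.le,
        ← Real.rpow_neg hl0.le]
      norm_num
    calc _ ≤ l ^ (-(1 / 16) : ℝ) * l ^ (1 / 4 : ℝ) := by gcongr
      _ = _ := h2
      _ ≤ ((Z ^ 4) ^ 3)⁻¹ := by gcongr
      _ ≤ (Z ^ 10)⁻¹ := by
        rw [← pow_mul]
        exact inv_anti₀ (by positivity) (pow_le_pow_right₀ (by linarith) (by norm_num))
  have hw₂ : (Z ^ 20)⁻¹ ≤ (Z ^ 10)⁻¹ / 4 := by
    have h1 : (4 : ℝ) ≤ Z ^ 10 :=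
      le_trans (by norm_num) (pow_le_pow_left₀ (by norm_num) hZ2 10)
    rw [div_eq_mul_inv, ← mul_inv, show Z ^ 20 = Z ^ 10 * Z ^ 10 by ring]
    gcongr
  have hlx : l ≤ Cx⁻¹ := hl.trans (hinv (by linarith) (by linarith))
  have hly : l ≤ Cy⁻¹ := hl.trans (hinv (by linarith) (by linarith))
  have hlb : l ≤ Cb⁻¹ := hl.trans (hinv (by linarith) (by linarith))
  have hKy : Kr d ρ (q0 d) l ≤ Cy⁻¹ := hK.trans (hinv (by linarith) (by linarith))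
  have hZx : Cx ≤ Z := by linarith
  obtain ⟨-, hB0, hB1, hB2, -⟩ := hbr ρ (q0 d) l hc hlb hO L hL0
  obtain ⟨-, -, hBy, -, -⟩ := hbr ρ (q0 d) l hc hlb hO y hy0
  have hLK : 0 ≤ (1 + L) * Kr d ρ (q0 d) l := by positivity
  have hyK : 0 ≤ (1 + y) * Kr d ρ (q0 d) l := by positivity
  have ht1 : 1 - Kr d ρ (q0 d) l * Br d ρ (q0 d) l L ≤ 1 := by
    have := mul_nonneg hK0 hB0
    linarith
  have ht0 : 0 ≤ 1 - Kr d ρ (q0 d) l * Br d ρ (q0 d) l L := by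
    have := mul_le_mul_of_nonneg_left hB1 hK0
    nlinarith
  have hA : ∀ n, 0 ≤ Ar d ρ (q0 d) l n := fun n => ENNReal.toReal_nonneg
  rw [abs_le]
  constructor
  · have h1 := (abs_le.1 (hb1a ρ (q0 d) l (L + y) m₀ hc hly hO hKy (by linarith)
      (by nlinarith))).1
    have h2 := hbox ρ l Z (Real.exp (L + y)) 0 m₀ m hc hlx hZx hSc hOO (Real.exp_pos _).le le_rfl
      ha₀ (ha₀.trans hmm) (hlm₀.trans hlm) (by
        rw [Real.exp_add, hey, ← heL]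
        have : 0 ≤ Cx * Real.exp L := by positivity
        nlinarith)
    have h3 := gb1_real hd hc hO (by positivity) (by positivity) (by positivity) h2
    rw [ENNReal.ofReal_zero] at h3
    have h4 := (hB2 (L + y) (by linarith)).2
    have h5 : Kr d ρ (q0 d) l * Br d ρ (q0 d) l (L + y) ≤
        Kr d ρ (q0 d) l * Br d ρ (q0 d) l L + e := by
      have := mul_le_mul_of_nonneg_left h4 hK0
      nlinarith
    have h6 := mul_le_mul_of_nonneg_right h5 (hA m₀)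
    have := gb1_low (A := Ar d ρ (q0 d) l m) (A₀ := Ar d ρ (q0 d) l m₀)
      (X₀ := (KK d ρ (q0 d) l * XX ρ (q0 d) l (ENNReal.ofReal (Real.exp (L + y)))
        (phi d m₀)).toReal) he0 he2 (by positivity) hlm₀ (hA m₀) ht1 hq0 hw hw₂ (by linarith) h3
    linarith
  · have h1 := (abs_le.1 (hb1a ρ (q0 d) l y m hc hly hO hKy hy0 (by nlinarith))).1
    have h2 := hbox ρ l Z (Real.exp y) (Real.exp L) m m₀ hc hlx hZx hSc hOO (Real.exp_pos _).le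
      (Real.exp_pos _).le (ha₀.trans hmm) ha₀ hlm (by
        rw [hey, ← heL]
        have a1 : Cx * (1 + Real.exp L) ≤ (1 + 2 * Cx) * Real.exp L := by nlinarith
        have := mul_le_mul_of_nonneg_right a1 hP0.le
        linarith)
    have h3 := gb1_real hd hc hO (by positivity) (by positivity) (by positivity) h2
    have h4 := (abs_le.1 (hb1a ρ (q0 d) l L m₀ hc hly hO hKy hL0 (by nlinarith))).2
    have h5 : Kr d ρ (q0 d) l * Br d ρ (q0 d) l y ≤ e := by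
      have := mul_le_mul_of_nonneg_left hBy hK0
      linarith
    have h6 := mul_le_mul_of_nonneg_right h5 (hA m)
    have := gb1_up (A := Ar d ρ (q0 d) l m) (A₀ := Ar d ρ (q0 d) l m₀) he0 he1 he2
      (by positivity) hlm₀ (hA m₀) (hA m) ht0 ht1 hq0 hw hw₂ (by linarith) h3 (by linarith)
    linarith

end Pool.Agent.Lib.MP_153faa_pr
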