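import Mathlib
import Pool.Agent.Lib.MP_153faa_pr.GLoc3
import Pool.Agent.Lib.MP_153faa_pr.GHK3
import Pool.Agent.Lib.MP_153faa_pr.GRen

set_option autoImplicit false

open MeasureTheory Filter Topology
open scoped ENNReal NNReal

namespace Pool.Agent.Lib.MP_153faa_pr

variable {d : ℕ} {ρ : Measure ℝ≥0} [IsProbabilityMeasure ρ] {p l l' : ℝ}

/-- Jensen inequality for random initial profiles. -/
theorem gb2_jensen {X : Type} [MeasurableSpace X] (μ : Measure X) [IsProbabilityMeasure μ]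
    (hp : 1 ≤ p) {F : X → Prof d} (hF : Measurable F) :
    HH ρ p l (fun z => ∫⁻ x, F x z ∂μ) ≤ ∫⁻ x, HH ρ p l (F x) ∂μ := by
  simp only [HH_lin]
  have hm : ∀ n, Measurable fun q : X × (ℕ → Layer d) => lin (AW n q.2) (F q.1) ^ p := fun n =>
    (measurable_lin2.comp (((measurable_AW n).comp measurable_snd).prodMk
      (hF.comp measurable_fst))).pow_const p
  rw [lintegral_tsum fun n => ((hm n).lintegral_prod_right'.const_mul _).aemeasurable]
  refine ENNReal.tsum_le_tsum fun n => ?_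
  rw [lintegral_const_mul _ (hm n).lintegral_prod_right',
    lintegral_lintegral_swap (f := fun x ω => lin (AW n ω) (F x) ^ p) (hm n).aemeasurable]
  refine mul_le_mul_right (lintegral_mono fun ω => ?_) _
  have hz : ∀ z, Measurable fun x => F x z := fun z => (measurable_pi_apply z).comp hF
  have e : lin (AW n ω) (fun z => ∫⁻ x, F x z ∂μ) = ∫⁻ x, lin (AW n ω) (F x) ∂μ := by
    unfold lin
    rw [lintegral_tsum fun z => ((hz z).mul_const _).aemeasurable]
    exact tsum_congr fun z => (lintegral_mul_const _ (hz z)).symm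
  rw [e]
  exact jensen_convex μ (measurable_lin2.comp (measurable_const.prodMk hF)).aemeasurable hp

/-- Removing a part of small mass. -/
theorem gb2_split (hp : 1 ≤ p) (hp2 : p ≤ 2) {s : ℝ} (hs : 0 < s) (f g : Prof d)
    (hg : mass g ≠ ⊤) :
    HH ρ p l (f + g) ≤ HH ρ p l f +
      (ENNReal.ofReal (s ^ (1 - p)) * OO d ρ p l + ENNReal.ofReal (2 * s) * HH ρ p l (f + g)) *
        mass g := by
  have hF := fn_HH (d := d) (ρ := ρ) (l := l) hp
  by_cases h0 : mass g = 0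
  · have : g = 0 := funext fun y => le_antisymm ((le_mass g y).trans h0.le) zero_le
    rw [this, add_zero]
    exact le_self_add
  obtain ⟨w, hw, hgw⟩ : ∃ w : ℝ, 0 < w ∧ mass g = ENNReal.ofReal w :=
    ⟨(mass g).toReal, ENNReal.toReal_pos h0 hg, (ENNReal.ofReal_toReal hg).symm⟩
  have ht : 0 < s * w := mul_pos hs hw
  have e2 : ENNReal.ofReal (2 * s) * HH ρ p l (f + g) * mass g =
      ENNReal.ofReal (2 * (s * w)) * HH ρ p l (f + g) := by
    rw [hgw, mul_right_comm, ← ENNReal.ofReal_mul (by positivity), mul_assoc]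
  rw [add_mul, e2]
  rcases le_total (1 / 2) (s * w) with h | h
  · refine le_add_left (le_add_left ?_)
    exact le_mul_of_one_le_left zero_le (ENNReal.one_le_ofReal.2 (by linarith))
  have h1 := ghk3_two hF ht.le (by linarith) (sca (ENNReal.ofReal (1 - s * w)⁻¹) f)
    (sca (ENNReal.ofReal (s * w)⁻¹) g)
  have e : (fun x => ENNReal.ofReal (1 - s * w) * sca (ENNReal.ofReal (1 - s * w)⁻¹) f x +
      ENNReal.ofReal (s * w) * sca (ENNReal.ofReal (s * w)⁻¹) g x) = f + g := by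
    funext x
    simp only [sca, Pi.add_apply]
    rw [ghk3_cancel (by linarith), ghk3_cancel ht]
  rw [e] at h1
  have h2 : ENNReal.ofReal (1 - s * w) * HH ρ p l (sca (ENNReal.ofReal (1 - s * w)⁻¹) f) ≤
      HH ρ p l f + ENNReal.ofReal (2 * (s * w)) * HH ρ p l (f + g) := by
    refine (ghk3_scale hF hp2 (by linarith) (by linarith) f).trans ?_
    calc _ ≤ ENNReal.ofReal (1 + 2 * (s * w)) * HH ρ p l f := by
          refine mul_le_mul_left (ENNReal.ofReal_le_ofReal ?_) _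
          rw [inv_le_iff_one_le_mul₀ (by linarith)]
          nlinarith
      _ = HH ρ p l f + ENNReal.ofReal (2 * (s * w)) * HH ρ p l f := by
          rw [ENNReal.ofReal_add zero_le_one (by positivity), ENNReal.ofReal_one, add_mul, one_mul]
      _ ≤ _ := add_le_add le_rfl (mul_le_mul_right (hF.mono _ _ fun x => le_self_add) _)
  have h3 : ENNReal.ofReal (s * w) * HH ρ p l (sca (ENNReal.ofReal (s * w)⁻¹) g) ≤
      ENNReal.ofReal (s ^ (1 - p)) * OO d ρ p l * mass g := by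
    rw [HH_sca (by linarith)]
    refine (mul_le_mul_right (mul_le_mul_right (HH_le hp g) _) _).trans (le_of_eq ?_)
    rw [mq, hgw, ENNReal.ofReal_rpow_of_pos hw, ENNReal.ofReal_rpow_of_pos (inv_pos.2 ht)]
    have e3 : s * w * ((s * w)⁻¹ ^ p * w ^ p) = s ^ (1 - p) * w := by
      rw [Real.inv_rpow ht.le, Real.mul_rpow hs.le hw.le, Real.rpow_sub hs, Real.rpow_one]
      have := Real.rpow_pos_of_pos hs p
      have := Real.rpow_pos_of_pos hw p
      field_simp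
    calc _ = ENNReal.ofReal (s * w) * (ENNReal.ofReal ((s * w)⁻¹ ^ p) * ENNReal.ofReal (w ^ p)) *
          OO d ρ p l := by ring
      _ = ENNReal.ofReal (s ^ (1 - p) * w) * OO d ρ p l := by
          rw [← ENNReal.ofReal_mul (by positivity), ← ENNReal.ofReal_mul ht.le, e3]
      _ = _ := by rw [ENNReal.ofReal_mul (by positivity)]; ring
  calc _ ≤ _ := h1
    _ ≤ _ := add_le_add h2 h3
    _ = _ := by ring

/-- The deterministic evolution against the evolution killed on `S`. -/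
theorem gb2_det (hd : 1 ≤ d) (hm : Mean1 ρ) (hp : 1 ≤ p) (hp2 : p ≤ 2) (h0 : 0 < l) (h1 : l < 1)
    {S : Set (Prof d)} (hS : MeasurableSet S) {s : ℝ} (hs : 0 < s) {f : Prof d}
    (hf : mass f ≠ ⊤) {B : ℝ≥0∞} (hB : ∀ n, HH ρ p l' (avg^[n] f) ≤ B) :
    Det l (HH ρ p l') f ≤ U ρ l S (fun _ => 0) (HH ρ p l') f +
      (ENNReal.ofReal (s ^ (1 - p)) * OO d ρ p l' + ENNReal.ofReal (2 * s) * B) *
        U ρ l S mass (fun _ => 0) f := by
  classical
  have e0 : (mass : Prof d → ℝ≥0∞) = Res ρ l mass := funext fun g => (Res_mass hd hm h0 h1 g).symm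
  rw [U_zero_eq hS h0 h1 measurable_HH, e0, U_Res_eq hS h0 h1 measurable_mass, Det,
    ← ENNReal.tsum_mul_left, ← ENNReal.tsum_add]
  refine ENNReal.tsum_le_tsum fun n => ?_
  rw [mul_left_comm, ← mul_add]
  refine mul_le_mul_right ?_ _
  have hE := gres1_meas_hitset (S := S) hS n f
  let F : (ℕ → Layer d) → Prof d := fun ω => if ∃ k ≤ n, ev k ω f ∈ S then 0 else ev n ω f
  let G : (ℕ → Layer d) → Prof d := fun ω => if ∃ k ≤ n, ev k ω f ∈ S then ev n ω f else 0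
  have mF : Measurable F := Measurable.ite hE measurable_const (measurable_ev n f)
  have mG : Measurable G := Measurable.ite hE (measurable_ev n f) measurable_const
  have mF' : ∀ z, Measurable fun ω => F ω z := fun z => (measurable_pi_apply z).comp mF
  have mG' : ∀ z, Measurable fun ω => G ω z := fun z => (measurable_pi_apply z).comp mG
  have e1 : avg^[n] f = (fun z => ∫⁻ ω, F ω z ∂env d ρ) + fun z => ∫⁻ ω, G ω z ∂env d ρ := by
    funext z
    have hz : ∀ g : Prof d, ∑' x, dlt z x * g x = g z := fun g => by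
      rw [tsum_eq_single z (fun x hx => by simp [dlt, hx])]
      simp [dlt]
    have h2 := T_iter_lin hm n (dlt z) f
    simp only [hz] at h2
    rw [← h2, T_iter_eq n (measurable_pi_apply z), Pi.add_apply,
      ← lintegral_add_left (mF' z)]
    refine lintegral_congr fun ω => ?_
    simp only [F, G]
    split_ifs <;> simp
  have e2 : mass (fun z => ∫⁻ ω, G ω z ∂env d ρ) = Th ρ S mass n f := by
    rw [Th_env hS measurable_mass, mass,
      ← lintegral_tsum fun z => (mG' z).aemeasurable]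
    refine lintegral_congr fun ω => ?_
    simp only [G]
    split_ifs <;> simp [mass]
  have e3 : ∫⁻ ω, HH ρ p l' (F ω) ∂env d ρ = Tk ρ S (HH ρ p l') n f := by
    rw [Tk_env hS measurable_HH]
    refine lintegral_congr fun ω => ?_
    simp only [F]
    split_ifs
    · exact (fn_HH hp).zero
    · rfl
  have h4 : mass (fun z => ∫⁻ ω, G ω z ∂env d ρ) ≠ ⊤ := by
    refine ne_top_of_le_ne_top hf ?_
    rw [← mass_avg_iter hd n f, e1, mass_add]
    exact le_add_self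
  have h5 := gb2_split (ρ := ρ) (l := l') hp hp2 hs (fun z => ∫⁻ ω, F ω z ∂env d ρ) _ h4
  rw [← e1, e2] at h5
  refine h5.trans (add_le_add ((gb2_jensen _ hp mF).trans e3.le) ?_)
  gcongr
  exact hB n

section
variable {χ : ℝ≥0∞} {f : Prof d}

theorem gb2_exit (hd : 1 ≤ d) (hm : Mean1 ρ) (hχ : mom ρ 2 = 1 + χ) (hχt : χ ≠ ⊤) (h0 : 0 < l)
    (h1 : l < 1) (hp : 0 ≤ p) (hp2 : p ≤ 2) (hf : Nice f) (hw : mass f = 1) :
    U ρ l (lev d 2) (mq p) (fun _ => 0) f ≤ 4 * χ * II ρ l 2 f := by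
  have hr : mr f = 1 := by rw [mr, hw, ENNReal.toReal_one]
  refine (gloc2_exit hd hm hχ hχt h0 h1 hp hp2 two_pos hf (by rw [hr]; norm_num)).trans ?_
  refine mul_le_of_le_one_left zero_le (ENNReal.ofReal_le_one.2 ?_)
  exact Real.rpow_le_one_of_one_le_of_nonpos (by norm_num) (by linarith)

theorem gb2_exit_mass (hd : 1 ≤ d) (hm : Mean1 ρ) (hχ : mom ρ 2 = 1 + χ) (hχt : χ ≠ ⊤)
    (h0 : 0 < l) (h1 : l < 1) (hf : Nice f) (hw : mass f = 1) :
    U ρ l (lev d 2) mass (fun _ => 0) f ≤ 4 * χ * II ρ l 2 f := by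
  have e : (mass : Prof d → ℝ≥0∞) = mq 1 := funext fun g => by simp [mq]
  rw [e]
  exact gb2_exit hd hm hχ hχt h0 h1 zero_le_one one_le_two hf hw

theorem gb2_HX (hd : 1 ≤ d) (hm : Mean1 ρ) (h0 : 0 < l) (h1 : l < 1) (hp : 1 ≤ p)
    (hw : mass f = 1) : XX ρ p l 0 f + 1 =
      U ρ l (lev d 2) (HH ρ p l) (fun _ => 0) f + U ρ l (lev d 2) (fun _ => 0) (mq p) f := by
  have hS := measurableSet_lev (d := d) 2
  have e : mq p f = 1 := by simp [mq, hw]
  rw [← e, XX_zero_add hd hm hp h0 h1, ← U_split hS measurable_HH (measurable_mq p)]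
  exact Res_eq_U hS h0 h1 (measurable_mq p) f

theorem gb2_X_le (hd : 1 ≤ d) (hm : Mean1 ρ) (hχ : mom ρ 2 = 1 + χ) (hχt : χ ≠ ⊤) (h0 : 0 < l)
    (h1 : l < 1) (hp : 1 ≤ p) (hp2 : p ≤ 2) (hf : Nice f) (hw : mass f = 1) :
    XX ρ p l 0 f ≤ U ρ l (lev d 2) (HH ρ p l) (fun _ => 0) f + χ * II ρ l 2 f := by
  have hS := measurableSet_lev (d := d) 2
  have hr : mr f = 1 := by rw [mr, hw, ENNReal.toReal_one]
  have e : mq p f = 1 := by simp [mq, hw]
  have h2 := gloc2_up hd hm hχ hχt h0 h1 hp hp2 2 hf (by rw [hr]; norm_num)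
  rw [e, hr, Real.one_rpow, ENNReal.ofReal_one, one_mul,
    U_split hS (measurable_mq p) (measurable_mq p)] at h2
  rw [← ENNReal.add_le_add_iff_right ENNReal.one_ne_top, gb2_HX hd hm h0 h1 hp hw, add_assoc,
    add_comm _ 1]
  exact add_le_add le_rfl (le_add_self.trans h2)

theorem gb2_le_X (hd : 1 ≤ d) (hm : Mean1 ρ) (hχ : mom ρ 2 = 1 + χ) (hχt : χ ≠ ⊤) (h0 : 0 < l)
    (h1 : l < 1) (hp : 1 ≤ p) (hp2 : p ≤ 2) (hf : Nice f) (hw : mass f = 1) :
    U ρ l (lev d 2) (HH ρ p l) (fun _ => 0) f ≤ XX ρ p l 0 f + 4 * χ * II ρ l 2 f := by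
  have hS := measurableSet_lev (d := d) 2
  have e : mq p f = 1 := by simp [mq, hw]
  have h2 := gloc2_sub hd hm hp h0 h1 2 hf
  rw [e, U_split hS (measurable_mq p) (measurable_mq p)] at h2
  have h3 := gb2_exit hd hm hχ hχt h0 h1 (p := p) (by linarith) hp2 hf hw
  rw [← ENNReal.add_le_add_iff_right ENNReal.one_ne_top, add_right_comm,
    gb2_HX hd hm h0 h1 hp hw, add_assoc, add_comm (U ρ l _ (fun _ => 0) _ f)]
  exact add_le_add le_rfl (h2.trans (add_le_add h3 le_rfl))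

/-- Comparison of exit rewards. -/
theorem gb2_cmp (hd : 1 ≤ d) (hm : Mean1 ρ) (hχ : mom ρ 2 = 1 + χ) (hχt : χ ≠ ⊤) (h0 : 0 < l)
    (h1 : l < 1) (hp : 0 ≤ p) (hp2 : p ≤ 2) (hf : Nice f) (hw : mass f = 1)
    {Φ Ψ : Prof d → ℝ≥0∞} (hΦ : Measurable Φ) (hΨ : Measurable Ψ) {a b c : ℝ≥0∞}
    (h : ∀ g, Nice g → a * Φ g ≤ b * Ψ g + c * mq p g) :
    a * U ρ l (lev d 2) Φ (fun _ => 0) f ≤
      b * U ρ l (lev d 2) Ψ (fun _ => 0) f + c * (4 * χ * II ρ l 2 f) := by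
  have hS := measurableSet_lev (d := d) 2
  rw [← gloc3_U_exit_mul hS hΦ, ← gloc3_U_exit_mul hS hΨ]
  refine (U_mono hd (fun g hg _ => h g hg) (fun _ _ _ => le_rfl) hf).trans ?_
  rw [gloc3_U_add_exit hS (hΨ.const_mul b) (measurable_mq p) measurable_const]
  exact add_le_add le_rfl (mul_le_mul_right (gb2_exit hd hm hχ hχt h0 h1 hp hp2 hf hw) _)

end

theorem gb2_OO (hd : 1 ≤ d) (hm : Mean1 ρ) (hp : 1 ≤ p) (h0 : 0 < l) (h1 : l < 1) {C : ℝ}
    (hC : 0 < C) (h : Kr d ρ p l ≤ C⁻¹) : ENNReal.ofReal C ≤ OO d ρ p l := by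
  have h2 : KK d ρ p l ≤ (ENNReal.ofReal C)⁻¹ := by
    rw [← ofReal_Kr hd hm hp h0 h1, ← ENNReal.ofReal_inv_of_pos hC]
    exact ENNReal.ofReal_le_ofReal h
  exact ENNReal.inv_le_inv.1 h2

/-- The two-stage moment split at the level `2`. -/
theorem gb2_Gr (hd : 1 ≤ d) (hm : Mean1 ρ) (hp : 1 ≤ p) (h0 : 0 < l') (h : l' < l) (h1 : l < 1)
    (hO : OO d ρ p l' ≠ ⊤) (m : ℕ) :
    KK d ρ p l' * Det l (HH ρ p l') (phi d m) + ENNReal.ofReal (Gr d ρ p l l' m) =
      KK d ρ p l' * U ρ l (lev d 2) (Res ρ l (HH ρ p l')) (fun _ => 0) (phi d m) +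
        KK d ρ p l' * U ρ l (lev d 2) (fun _ => 0) (HH ρ p l') (phi d m) := by
  have hS := measurableSet_lev (d := d) 2
  rw [← (Gr_spec hd hm hp h0 h h1 hO m).1, ← mul_add,
    ← U_split hS (measurable_Res measurable_HH) measurable_HH,
    ← Res_eq_U hS (h0.trans h) h1 measurable_HH]

/-- The occupation integral from the heat kernel profile. -/
theorem gb2_II (hd : 3 ≤ d) {κ M : ℝ} (hκ : 0 < κ) : ∃ C : ℝ, 1 ≤ C ∧
    ∀ (ρ : Measure ℝ≥0) [IsProbabilityMeasure ρ] (p l : ℝ), Ctx d κ M ρ p l → l ≤ C⁻¹ →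
      OO d ρ p l ≠ ⊤ → Kr d ρ p l ≤ C⁻¹ → ∀ m : ℕ, ∃ i : ℝ, 0 ≤ i ∧
        II ρ l 2 (phi d m) = ENNReal.ofReal i ∧ i ≤ C * (Ar d ρ p l m + l ^ (1 / 4 : ℝ)) := by
  obtain ⟨C, hC, H⟩ := t1 (M := M) hd hκ
  refine ⟨2 * C, by linarith, fun ρ _ p l hc hl hO hK m => ?_⟩
  have hd1 : 1 ≤ d := by omega
  have hp := (hc.one_lt hd).1.le
  have hm := hc.good.1
  have hi : (2 * C)⁻¹ ≤ C⁻¹ := inv_anti₀ (by linarith) (by linarith)
  have hr : mr (phi d m) = 1 := by rw [mr, mass_phi hd1, ENNReal.toReal_one]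
  have h1 := H ρ p l hc (hl.trans hi) hO
    (gb2_OO hd1 hm hp hc.l0 hc.l1 (by linarith) (hK.trans hi)) (phi d m) 2 (nice_phi hd1 m)
    two_pos (by rw [hr]; norm_num)
  have hA : 0 ≤ Ar d ρ p l m := ENNReal.toReal_nonneg
  have hl4 : 0 ≤ l ^ (1 / 4 : ℝ) := Real.rpow_nonneg hc.l0.le _
  have h2 : (2 : ℝ) ^ (2 - p) ≤ 2 := by
    have : (2 : ℝ) ^ (2 - p) ≤ 2 ^ (1 : ℝ) :=
      Real.rpow_le_rpow_of_exponent_le (by norm_num) (by linarith)
    simpa using this
  rw [(Kr_add_Ar hd1 hm hp hc.l0 hc.l1 hO m).2.2, hr, ← ENNReal.ofReal_mul (by positivity),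
    ← ENNReal.ofReal_add (by positivity) (by positivity)] at h1
  have hfin : II ρ l 2 (phi d m) ≠ ⊤ := ne_top_of_le_ne_top ENNReal.ofReal_ne_top h1
  refine ⟨(II ρ l 2 (phi d m)).toReal, ENNReal.toReal_nonneg,
    (ENNReal.ofReal_toReal hfin).symm, ?_⟩
  refine (ENNReal.toReal_le_of_le_ofReal (by positivity) h1).trans ?_
  have h3 : C * 2 ^ (2 - p) * Ar d ρ p l m ≤ C * 2 * Ar d ρ p l m := by gcongr
  have h4 : 0 ≤ C * l ^ (1 / 4 : ℝ) := by positivity
  nlinarith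

end Pool.Agent.Lib.MP_153faa_pr
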