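import Mathlib

set_option autoImplicit false

namespace Pool.Agent.Lib.MP_153faa_pr

/-- Choice of the intermediate scales. -/
theorem gb2_par {d a₁ a₂ a : ℕ} (hd : 3 ≤ d) (ha : a = 2 * a₁ + a₂ + d + 4) {l Z L : ℝ}
    {m n j : ℕ} (h0 : 0 < l) (h1 : l < 1) (hZ : 6 ≤ Z) (hj : (j : ℝ) ≤ l ^ (-(1 / (2 * d : ℝ))))
    (hm : Z ^ a / l ≤ m) (hlm : l * m ≤ l ^ (-(1 / 16) : ℝ)) (hL : 2 ≤ L) (hn : 1 ≤ n)
    (hnL : l * n * Real.exp L * Z ^ a ≤ 1) :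
    ∃ j₀ s : ℕ, l * j₀ * Z ^ a₁ ≤ 1 ∧ j₀ ≤ m ∧ Even s ∧ (s + 1) * Z ^ a₁ ≤ j₀ ∧ j ≤ j₀ ∧ n ≤ j₀ ∧
      l * s ≤ 1 ∧ n * Real.exp L * Z ^ 2 ≤ s ∧ Z ≤ l ^ (-(1 / (4 * d : ℝ))) ∧ Z ^ a₂ / l ≤ m ∧
      (d : ℝ) ≤ Real.log (m / n) ∧ l * m * l ^ (1 / 4 : ℝ) ≤ (Z ^ 10)⁻¹ ∧ 0 < l * m := by
  have hZ1 : 1 ≤ Z := by linarith
  have hZ0 : 0 < Z := by linarith
  have hd3 : (3 : ℝ) ≤ d := by exact_mod_cast hd
  have hn1 : (1 : ℝ) ≤ n := by exact_mod_cast hn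
  have hE : 1 ≤ Real.exp L := Real.one_le_exp (by linarith)
  have hpow : ∀ b, b ≤ a → Z ^ b ≤ Z ^ a := fun b hb => pow_le_pow_right₀ hZ1 hb
  have hZa : Z ^ a ≤ l * m := by rwa [div_le_iff₀ h0, mul_comm] at hm
  have hZa1 : 1 ≤ Z ^ a := one_le_pow₀ hZ1
  have hP1 : 1 ≤ Z ^ a₁ := one_le_pow₀ hZ1
  have hW : 0 < l * Z ^ a₁ := by positivity
  set q := n * Real.exp L * Z ^ 2 with hq
  have hZ2 : 1 ≤ Z ^ 2 := one_le_pow₀ hZ1
  have hnq : (n : ℝ) ≤ q := by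
    rw [hq, mul_assoc]
    exact le_mul_of_one_le_right (by linarith) (one_le_mul_of_one_le_of_one_le hE hZ2)
  have hs1 : q ≤ ⌈q⌉₊ := Nat.le_ceil q
  have hs2 : (⌈q⌉₊ : ℝ) < q + 1 := Nat.ceil_lt_add_one (by linarith)
  have hj1 : (⌊1 / (l * Z ^ a₁)⌋₊ : ℝ) ≤ 1 / (l * Z ^ a₁) := Nat.floor_le (by positivity)
  have hj2 : 1 / (l * Z ^ a₁) < (⌊1 / (l * Z ^ a₁)⌋₊ : ℝ) + 1 := Nat.lt_floor_add_one _
  have k1 : l * (⌊1 / (l * Z ^ a₁)⌋₊ : ℝ) * Z ^ a₁ ≤ 1 := by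
    rw [le_div_iff₀ hW] at hj1
    linarith
  have k2 : 6 * q * Z ^ a₁ ≤ 1 / (l * Z ^ a₁) := by
    rw [le_div_iff₀ hW]
    calc 6 * q * Z ^ a₁ * (l * Z ^ a₁) ≤ Z * q * Z ^ a₁ * (l * Z ^ a₁) := by gcongr
      _ = l * n * Real.exp L * Z ^ (2 * a₁ + 3) := by rw [hq]; ring
      _ ≤ l * n * Real.exp L * Z ^ a := by gcongr; omega
      _ ≤ 1 := hnL
  have k3 : (((2 * ⌈q⌉₊ : ℕ) : ℝ) + 1) * Z ^ a₁ ≤ (⌊1 / (l * Z ^ a₁)⌋₊ : ℝ) := by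
    push_cast
    have h5 : (2 * (⌈q⌉₊ : ℝ) + 1) * Z ^ a₁ ≤ 5 * q * Z ^ a₁ := by gcongr; linarith
    have h6 : 1 ≤ q * Z ^ a₁ := one_le_mul_of_one_le_of_one_le (by linarith) hP1
    linarith
  have k4 : ((2 * ⌈q⌉₊ : ℕ) : ℝ) ≤ (⌊1 / (l * Z ^ a₁)⌋₊ : ℝ) := by
    refine le_trans ?_ k3
    have : (0 : ℝ) ≤ ((2 * ⌈q⌉₊ : ℕ) : ℝ) := Nat.cast_nonneg _
    nlinarith
  have k5 : q ≤ ((2 * ⌈q⌉₊ : ℕ) : ℝ) := by
    push_cast
    linarith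
  have k6 : l * (⌊1 / (l * Z ^ a₁)⌋₊ : ℝ) ≤ 1 :=
    (le_mul_of_one_le_right (by positivity) hP1).trans k1
  have hln : l * n ≤ 1 := by
    refine le_trans ?_ hnL
    rw [mul_assoc (l * n)]
    exact le_mul_of_one_le_right (by positivity) (one_le_mul_of_one_le_of_one_le hE hZa1)
  refine ⟨⌊1 / (l * Z ^ a₁)⌋₊, 2 * ⌈q⌉₊, k1, ?_, even_two_mul _, k3, ?_, ?_, ?_, k5, ?_, ?_, ?_,
    ?_, by linarith⟩
  · have : l * (⌊1 / (l * Z ^ a₁)⌋₊ : ℝ) ≤ l * m := by linarith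
    exact_mod_cast le_of_mul_le_mul_left this h0
  · refine Nat.le_floor ?_
    rw [le_div_iff₀ hW]
    have h5 : Z ^ a₁ ≤ l ^ (-(1 / 16) : ℝ) := ((hpow a₁ (by omega)).trans hZa).trans hlm
    have h6 : 1 / (2 * d : ℝ) ≤ 1 / 6 := one_div_le_one_div_of_le (by norm_num) (by linarith)
    calc (j : ℝ) * (l * Z ^ a₁) ≤ l ^ (-(1 / (2 * d : ℝ))) * (l ^ (1 : ℝ) * l ^ (-(1 / 16) : ℝ)) := by
          rw [Real.rpow_one]
          gcongr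
      _ = l ^ (-(1 / (2 * d : ℝ)) + (1 + -(1 / 16))) := by
          rw [Real.rpow_add h0, Real.rpow_add h0]
      _ ≤ 1 := Real.rpow_le_one h0.le h1.le (by linarith)
  · exact_mod_cast (hnq.trans k5).trans k4
  · exact (mul_le_mul_of_nonneg_left k4 h0.le).trans k6
  · have h5 : Z ^ d ≤ (l ^ (-(1 / (4 * d : ℝ)))) ^ d := by
      refine (((hpow d (by omega)).trans hZa).trans hlm).trans ?_
      rw [← Real.rpow_natCast, ← Real.rpow_mul h0.le]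
      refine Real.rpow_le_rpow_of_exponent_ge h0 h1.le ?_
      have : -(1 / (4 * d : ℝ)) * d = -(1 / 4) := by field_simp
      rw [this]
      norm_num
    exact (pow_le_pow_iff_left₀ hZ0.le (Real.rpow_nonneg h0.le _) (by omega)).1 h5
  · exact le_trans (div_le_div_of_nonneg_right (hpow a₂ (by omega)) h0.le) hm
  · have hm0 : (0 : ℝ) < m := by
      have : 0 < l * m := by linarith
      exact (mul_pos_iff_of_pos_left h0).1 this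
    rw [Real.le_log_iff_exp_le (by positivity)]
    have h5 : Real.exp d ≤ Z ^ d := by
      rw [← Real.exp_one_pow]
      exact pow_le_pow_left₀ (Real.exp_pos 1).le (by linarith [Real.exp_one_lt_d9]) d
    refine (h5.trans ((hpow d (by omega)).trans hZa)).trans ?_
    rw [le_div_iff₀ (by linarith)]
    nlinarith
  · have ht : 0 < l ^ (1 / 16 : ℝ) := Real.rpow_pos_of_pos h0 _
    have e1 : l ^ (-(1 / 16) : ℝ) = (l ^ (1 / 16 : ℝ))⁻¹ := Real.rpow_neg h0.le _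
    have e2 : l ^ (1 / 4 : ℝ) = (l ^ (1 / 16 : ℝ)) ^ 4 := by
      rw [← Real.rpow_natCast, ← Real.rpow_mul h0.le]
      norm_num
    rw [e1] at hlm
    rw [e2]
    generalize l ^ (1 / 16 : ℝ) = t at ht hlm
    have h5 : Z ^ a * t ≤ 1 := by
      have := hZa.trans hlm
      rwa [← one_div, le_div_iff₀ ht] at this
    have h6 : Z ^ 10 ≤ (Z ^ a) ^ 3 := by
      rw [← pow_mul]
      exact pow_le_pow_right₀ hZ1 (by omega)
    rw [← one_div, le_div_iff₀ (by positivity)]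
    calc l * m * t ^ 4 * Z ^ 10 ≤ t⁻¹ * t ^ 4 * (Z ^ a) ^ 3 := by gcongr
      _ = (Z ^ a * t) ^ 3 := by field_simp
      _ ≤ 1 := pow_le_one₀ (by positivity) h5

/-- The exponentially small remainder. -/
theorem gb2_exp {l Z y C : ℝ} {m : ℕ} (h0 : 0 < l) (h1 : l < 1) (hZ : 2 ^ 12 * 479001600 ≤ Z)
    (hl : Real.log l ^ 2 ≤ Z) (hlm : l * m ≤ l ^ (-(1 / 16) : ℝ)) (hm : 0 < l * m)
    (hy : y ≤ 1 / 2) (hC : C ≤ Z) : C * (m : ℝ) ^ y * Real.exp (-Z) ≤ (Z ^ 10)⁻¹ := by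
  have hZ0 : 0 < Z := by linarith
  have hm0 : (0 : ℝ) < m := (mul_pos_iff_of_pos_left h0).1 hm
  have hm1 : (1 : ℝ) ≤ m := by exact_mod_cast Nat.cast_pos.1 hm0
  have h2 : -Real.log l ≤ Z / 2 := by
    refine (neg_le_abs _).trans (abs_le_of_sq_le_sq' ?_ (by linarith)).2
    rw [sq_abs]
    nlinarith
  have h3 : (m : ℝ) ≤ l⁻¹ ^ 2 := by
    have h4 : l ^ (-(1 / 16) : ℝ) ≤ l ^ (-1 : ℝ) :=
      Real.rpow_le_rpow_of_exponent_ge h0 h1.le (by norm_num)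
    rw [Real.rpow_neg_one] at h4
    have h5 := mul_le_mul_of_nonneg_left (hlm.trans h4) (inv_pos.2 h0).le
    rwa [← mul_assoc, inv_mul_cancel₀ h0.ne', one_mul, ← sq] at h5
  have h4 : (m : ℝ) ^ y ≤ Real.exp (Z / 2) := by
    calc (m : ℝ) ^ y ≤ (m : ℝ) ^ (1 / 2 : ℝ) := Real.rpow_le_rpow_of_exponent_le hm1 hy
      _ ≤ (l⁻¹ ^ 2) ^ (1 / 2 : ℝ) := Real.rpow_le_rpow hm0.le h3 (by norm_num)
      _ = l⁻¹ := by
          rw [← Real.rpow_natCast, ← Real.rpow_mul (inv_pos.2 h0).le]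
          norm_num
      _ = Real.exp (-Real.log l) := by rw [Real.exp_neg, Real.exp_log h0]
      _ ≤ _ := Real.exp_le_exp.2 h2
  have h5 : Z ^ 11 ≤ Real.exp (Z / 2) := by
    refine le_trans ?_ (Real.pow_div_factorial_le_exp (Z / 2) (by linarith) 12)
    rw [le_div_iff₀ (by positivity)]
    have : ((Nat.factorial 12 : ℕ) : ℝ) = 479001600 := by norm_num [Nat.factorial]
    rw [this]
    have h6 : 0 < Z ^ 11 := by positivity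
    calc Z ^ 11 * 479001600 ≤ Z ^ 11 * (Z / 2 ^ 12) := by
          gcongr
          rw [le_div_iff₀ (by norm_num)]
          linarith
      _ = (Z / 2) ^ 12 := by ring
  have h6 : Real.exp (Z / 2) * Real.exp (Z / 2) * Real.exp (-Z) = 1 := by
    rw [← Real.exp_add, ← Real.exp_add]
    simp
  rw [← one_div, le_div_iff₀ (by positivity)]
  calc C * (m : ℝ) ^ y * Real.exp (-Z) * Z ^ 10 ≤ Z * Real.exp (Z / 2) * Real.exp (-Z) * Z ^ 10 := by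
        gcongr
    _ = Z ^ 11 * Real.exp (Z / 2) * Real.exp (-Z) := by ring
    _ ≤ Real.exp (Z / 2) * Real.exp (Z / 2) * Real.exp (-Z) := by gcongr
    _ = 1 := h6

/-- The ratio of the two scales. -/
theorem gb2_ratio {l D : ℝ} {m n : ℕ} (h0 : 0 < l) (hm : 0 < l * m) (hn : 1 ≤ n)
    (hlog : 0 < Real.log (m / n)) :
    l * m * (l⁻¹ * (m : ℝ) ^ (-1 + D * (Real.log (m / n))⁻¹ / 2)) =
        (m : ℝ) ^ (D * (Real.log (m / n))⁻¹ / 2) ∧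
      (m : ℝ) ^ (D * (Real.log (m / n))⁻¹ / 2) * (n : ℝ) ^ (-(D * (Real.log (m / n))⁻¹ / 2)) =
        Real.exp (D / 2) := by
  have hm0 : (0 : ℝ) < m := (mul_pos_iff_of_pos_left h0).1 hm
  have hn0 : (0 : ℝ) < n := by exact_mod_cast hn
  constructor
  · rw [Real.rpow_add hm0, Real.rpow_neg_one]
    field_simp
  · rw [Real.rpow_neg hn0.le, ← div_eq_mul_inv, ← Real.div_rpow hm0.le hn0.le,
      Real.rpow_def_of_pos (div_pos hm0 hn0)]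
    congr 1
    field_simp

end Pool.Agent.Lib.MP_153faa_pr
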