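import Mathlib
import Pool.Agent.Lib.MP_153faa_pr.GRes2
import Pool.Agent.Lib.MP_153faa_pr.GHK1

/-!
Near and far parts of the smoothed backward partition function.
-/

set_option autoImplicit false

open MeasureTheory Filter Topology
open scoped ENNReal NNReal

namespace Pool.Agent.Lib.MP_153faa_pr

variable {d : ℕ}

/-- The part of the heat kernel below a threshold. -/
noncomputable def gb2aE (d j : ℕ) (θ : ℝ) : Prof d := fun x => if ph d j x < θ then phi d j x else 0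

/-- The part of the heat kernel above a threshold. -/
noncomputable def gb2aN (d j : ℕ) (θ : ℝ) : Prof d := fun x => if ph d j x < θ then 0 else phi d j x

theorem gb2a_E_le (j : ℕ) (θ : ℝ) : gb2aE d j θ ≤ phi d j := fun x => by
  unfold gb2aE; split_ifs <;> simp

theorem gb2a_N_le (j : ℕ) (θ : ℝ) : gb2aN d j θ ≤ phi d j := fun x => by
  unfold gb2aN; split_ifs <;> simp

theorem gb2a_avg_eq (j : ℕ) (A : Prof d) (z : Site d) : avg^[j] A z = lin A (sh z (phi d j)) := by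
  rw [avg_iter_eq_phi]
  refine tsum_congr fun y => ?_
  rw [mul_comm, ← phi_neg, neg_sub]; rfl

theorem gb2a_split (j : ℕ) (θ : ℝ) (A : Prof d) (z : Site d) :
    avg^[j] A z = lin A (sh z (gb2aN d j θ)) + lin A (sh z (gb2aE d j θ)) := by
  rw [gb2a_avg_eq]
  unfold lin sh gb2aN gb2aE
  rw [← ENNReal.tsum_add]
  refine tsum_congr fun y => ?_
  split_ifs <;> simp

theorem gb2a_mass (hd : 1 ≤ d) : ∃ C : ℝ, 1 ≤ C ∧ ∀ (δ : ℝ) (j : ℕ), 0 < δ → δ ≤ 1 → 1 ≤ j →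
    mass (gb2aE d j (δ ^ 2 * (j : ℝ) ^ (-(d : ℝ) / 2))) ≤ ENNReal.ofReal (C * δ) := by
  have hd' : (1 : ℝ) ≤ d := by exact_mod_cast hd
  refine ⟨2 ^ d * d.factorial * Real.exp 3 + 2 * d, by
    have : (0 : ℝ) ≤ 2 ^ d * d.factorial * Real.exp 3 := by positivity
    linarith, fun δ j h0 h1 hj => ?_⟩
  have hj' : (1 : ℝ) ≤ j := by exact_mod_cast hj
  set t := -Real.log δ with ht
  have ht0 : 0 ≤ t := neg_nonneg.2 (Real.log_nonpos h0.le h1)
  have het : Real.exp (-t) = δ := by rw [ht, neg_neg, Real.exp_log h0]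
  have hs1 : 1 ≤ √(j : ℝ) := Real.one_le_sqrt.2 hj'
  have hss : √(j : ℝ) ^ 2 = j := Real.sq_sqrt (by linarith)
  set R := ⌈√(j : ℝ) * (t + 1)⌉₊ with hR
  have hR1 : √(j : ℝ) * (t + 1) ≤ R := Nat.le_ceil _
  have hR2 : (R : ℝ) ≤ √(j : ℝ) * (t + 1) + 1 := (Nat.ceil_lt_add_one (by positivity)).le
  set θ := δ ^ 2 * (j : ℝ) ^ (-(d : ℝ) / 2) with hθ
  have hθ0 : 0 ≤ θ := by positivity
  have e1 : mass (gb2aE d j θ) ≤ ∑' x, (if x ∈ box d R then ENNReal.ofReal θ else 0) +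
      mass (fun x => if x ∈ box d R then 0 else phi d j x) := by
    unfold mass
    rw [← ENNReal.tsum_add]
    refine ENNReal.tsum_le_tsum fun x => ?_
    unfold gb2aE
    split_ifs with h h'
    · rw [← ofReal_ph hd, add_zero]; exact ENNReal.ofReal_le_ofReal h.le
    all_goals simp
  have e2 : ∑' x, (if x ∈ box d R then ENNReal.ofReal θ else 0) =
      ENNReal.ofReal ((2 * R + 1 : ℝ) ^ d * θ) := by
    rw [tsum_eq_sum (s := box d R) fun x hx => if_neg hx, Finset.sum_ite_of_true fun x hx => hx,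
      Finset.sum_const, card_box, nsmul_eq_mul,
      ENNReal.ofReal_mul (p := (2 * R + 1 : ℝ) ^ d) (by positivity), ← ENNReal.ofReal_natCast]
    push_cast; rfl
  have e3 : (2 * R + 1 : ℝ) ^ d * θ ≤ 2 ^ d * d.factorial * Real.exp 3 * δ := by
    have a1 : (2 * R + 1 : ℝ) ≤ 2 * √(j : ℝ) * (t + 3) := by nlinarith
    have a2 : (2 * R + 1 : ℝ) ^ d ≤ 2 ^ d * (j : ℝ) ^ ((d : ℝ) / 2) * (t + 3) ^ d := by
      rw [← ghk1_sqrt_pow (by linarith), ← mul_pow, ← mul_pow]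
      exact pow_le_pow_left₀ (by positivity) a1 d
    have a3 : (t + 3) ^ d ≤ d.factorial * Real.exp (t + 3) := by
      have := Real.pow_div_factorial_le_exp (t + 3) (by linarith) d
      rwa [div_le_iff₀' (by positivity)] at this
    have a4 : (j : ℝ) ^ ((d : ℝ) / 2) * (j : ℝ) ^ (-(d : ℝ) / 2) = 1 := by
      rw [← Real.rpow_add (by linarith)]; simp [neg_div]
    have a5 : Real.exp (t + 3) * δ = Real.exp 3 := by
      rw [← het, ← Real.exp_add]; congr 1; ring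
    calc _ ≤ 2 ^ d * (j : ℝ) ^ ((d : ℝ) / 2) * (d.factorial * Real.exp (t + 3)) * θ := by
          refine mul_le_mul_of_nonneg_right (a2.trans ?_) hθ0
          exact mul_le_mul_of_nonneg_left a3 (by positivity)
      _ = 2 ^ d * d.factorial * (Real.exp (t + 3) * δ) * δ *
          ((j : ℝ) ^ ((d : ℝ) / 2) * (j : ℝ) ^ (-(d : ℝ) / 2)) := by rw [hθ]; ring
      _ = _ := by rw [a4, a5, mul_one]
  have e4 : 2 * d * Real.exp (-(R : ℝ) ^ 2 / (2 * j)) ≤ 2 * d * δ := by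
    refine mul_le_mul_of_nonneg_left ?_ (by positivity)
    rw [← het, Real.exp_le_exp, neg_div, neg_le_neg_iff, le_div_iff₀ (by positivity)]
    have : (√(j : ℝ) * (t + 1)) ^ 2 ≤ (R : ℝ) ^ 2 := pow_le_pow_left₀ (by positivity) hR1 2
    rw [mul_pow, hss] at this
    nlinarith [sq_nonneg t]
  refine e1.trans ((add_le_add e2.le (hk_escape hd le_rfl hj)).trans ?_)
  rw [← ENNReal.ofReal_add (by positivity) (by positivity)]
  exact ENNReal.ofReal_le_ofReal (by linarith)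

theorem gb2a_reg (hd : 1 ≤ d) : ∃ C : ℝ, 1 ≤ C ∧ ∀ (δ : ℝ) (j s : ℕ), 0 < δ → δ ≤ 1 → Even s →
    C * (s + 1) ≤ δ ^ 4 * j → s + 1 ≤ j ∧ ∀ v ∈ box d s.sqrt, par v = 0 → ∀ w,
      gb2aN d j (δ ^ 2 * (j : ℝ) ^ (-(d : ℝ) / 2)) (w + v) ≤ 2 * phi d (j - s) w := by
  obtain ⟨C, hC, h⟩ := hk_reg hd
  set B := 4 * C * 2 ^ ((d : ℝ) / 2) with hB
  have h2 : (1 : ℝ) ≤ 2 ^ ((d : ℝ) / 2) := Real.one_le_rpow (by norm_num) (by positivity)
  have hB1 : 4 ≤ B := by nlinarith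
  refine ⟨2 * B ^ 2, by nlinarith, fun δ j s h0 h1 hs hj => ?_⟩
  have hδ2 : δ ^ 2 ≤ 1 := pow_le_one₀ h0.le h1
  have hδ4 : δ ^ 4 ≤ 1 := pow_le_one₀ h0.le h1
  have hs0 : (0 : ℝ) ≤ s := by positivity
  have hj0 : (0 : ℝ) ≤ j := by positivity
  have hB2 : 16 ≤ B ^ 2 := by nlinarith
  have hj1 : 2 * ((s : ℝ) + 1) ≤ j := by nlinarith
  have hj2 : 2 * (s + 1) ≤ j := by exact_mod_cast hj1
  refine ⟨by omega, fun v hv hp w => ?_⟩
  obtain ⟨k, hk⟩ := hs
  have h3 := h (j - s) k s.sqrt w v (by omega) hv hp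
  rw [show j - s + 2 * k = j by omega] at h3
  set n := j - s with hn
  have hn1 : (n : ℝ) = j - s := by rw [hn, Nat.cast_sub (by omega)]
  have hn2 : (j : ℝ) ≤ 2 * n := by linarith
  have hn0 : (0 : ℝ) < n := by linarith
  have hk' : (s : ℝ) = 2 * k := by rw [hk]; push_cast; ring
  have a1 : (k : ℝ) / n ≤ δ ^ 2 / B := by
    rw [div_le_div_iff₀ hn0 (by linarith)]
    have : δ ^ 4 ≤ δ ^ 2 := by nlinarith [sq_nonneg δ]
    have : B ≤ B ^ 2 := by nlinarith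
    have hk0 : (0 : ℝ) ≤ k := by positivity
    nlinarith [mul_le_mul_of_nonneg_left hn2 (show 0 ≤ δ ^ 4 by positivity)]
  have a2 : (s.sqrt : ℝ) / √n ≤ δ ^ 2 / B := by
    rw [div_le_div_iff₀ (Real.sqrt_pos.2 hn0) (by linarith)]
    refine abs_le_of_sq_le_sq' ?_ (by positivity) |>.2
    have b1 : (s.sqrt : ℝ) ^ 2 ≤ s := by exact_mod_cast Nat.sqrt_le' s
    rw [mul_pow, mul_pow (δ ^ 2), Real.sq_sqrt hn0.le]
    nlinarith [mul_le_mul_of_nonneg_left hn2 (show 0 ≤ δ ^ 4 by positivity)]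
  have a3 : (n : ℝ) ^ (-(d : ℝ) / 2) ≤ 2 ^ ((d : ℝ) / 2) * (j : ℝ) ^ (-(d : ℝ) / 2) :=
    ghk1_scale (by linarith) (by norm_num) hn2
  have a4 : C * (k / n + s.sqrt / √n) * (n : ℝ) ^ (-(d : ℝ) / 2) ≤
      δ ^ 2 * (j : ℝ) ^ (-(d : ℝ) / 2) / 2 := by
    calc _ ≤ C * (δ ^ 2 / B + δ ^ 2 / B) * (2 ^ ((d : ℝ) / 2) * (j : ℝ) ^ (-(d : ℝ) / 2)) := by
          gcongr
      _ = _ := by rw [hB]; field_simp; ring
  unfold gb2aN
  split_ifs with hlt
  · exact zero_le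
  · rw [← ofReal_ph hd, ← ofReal_ph hd, ← ENNReal.ofReal_ofNat, ← ENNReal.ofReal_mul (by norm_num)]
    refine ENNReal.ofReal_le_ofReal ?_
    linarith [(abs_le.1 h3).1, not_lt.1 hlt]

theorem gb2a_low {j s : ℕ} (hj : s ≤ j) {N : Prof d}
    (h : ∀ v ∈ box d s.sqrt, par v = 0 → ∀ w, N (w + v) ≤ 2 * phi d (j - s) w)
    (A μ : Prof d) (z : Site d) :
    2⁻¹ * lin A (sh z N) * lin (sh z (cube d s.sqrt)) (avg^[s + 1] μ) ≤
      lin A (avg^[j + 1] μ) := by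
  rw [show j + 1 = (j - s) + (s + 1) by omega, Function.iterate_add_apply avg (j - s),
    lin_avg_iter (j - s)]
  rw [lin.eq_1 (sh z (cube d s.sqrt)), lin.eq_1 (avg^[j - s] A), ← ENNReal.tsum_mul_left]
  refine ENNReal.tsum_le_tsum fun y => ?_
  rw [mul_left_comm]
  refine mul_le_mul_right ?_ _
  unfold sh cube
  split_ifs with hy
  · rw [mul_one, gb2a_avg_eq, lin, lin, ← ENNReal.tsum_mul_left]
    refine ENNReal.tsum_le_tsum fun x => ?_
    rw [← mul_assoc]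
    refine mul_le_mul_left ?_ _
    have := h _ hy.1 hy.2 (x - y)
    rw [sub_add_sub_cancel] at this
    calc _ ≤ 2⁻¹ * (2 * phi d (j - s) (x - y)) := mul_le_mul_right this _
      _ = _ := by rw [← mul_assoc, ENNReal.inv_mul_cancel (by norm_num) (by norm_num), one_mul]; rfl
  · simp

theorem gb2a_alg (hd : 3 ≤ d) {p a : ℝ} (hp : 1 + 1 / d ≤ p) (hp2 : p ≤ 2) (ha : 0 < a)
    {M L u n e : ℝ≥0∞} (hn : n ≠ ⊤) (he : e ≠ ⊤) (h1 : u * (n + e) ≤ M) (h2 : 2⁻¹ * n * L ≤ M) :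
    vf p (ENNReal.ofReal a + M) (u * (n + e)) ≤ ENNReal.ofReal (256 * d) *
      (u ^ 2 * ENNReal.ofReal (a ^ p) + vf p L u * ENNReal.ofReal (br p 1 a + br p 1 (n + e).toReal)
        + u ^ p * e ^ p) := by
  have hd' : (3 : ℝ) ≤ d := by exact_mod_cast hd
  have hd1 : 0 < 1 / (d : ℝ) := by positivity
  have hp1 : 1 ≤ p := by linarith
  have hc : ∀ c : ℝ, c ≤ 256 * d → ENNReal.ofReal c ≤ ENNReal.ofReal (256 * d) := fun c h =>
    ENNReal.ofReal_le_ofReal h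
  have h2' : (2 : ℝ≥0∞) = ENNReal.ofReal 2 := by simp
  rw [mul_add u n e, mul_add (ENNReal.ofReal _)]
  refine (vf_add _ _ _).trans (add_le_add ?_ ?_)
  swap
  · rw [← ENNReal.mul_rpow_of_nonneg _ _ (by linarith)]
    refine mul_le_mul' (h2' ▸ hc _ (by linarith)) (vf_le hp1 hp2 ?_)
    exact le_add_left (le_trans (mul_le_mul_right le_add_self _) h1)
  lift n to ℝ≥0 using hn
  lift e to ℝ≥0 using he
  rcases le_or_gt (n : ℝ) (4 * a) with h | h
  · have a1 : (n : ℝ≥0∞) ≤ ENNReal.ofReal (4 * a) := by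
      rw [← ENNReal.ofReal_coe_nnreal]; exact ENNReal.ofReal_le_ofReal h
    have a2 : vf p (ENNReal.ofReal a) (u * ENNReal.ofReal (4 * a)) =
        ENNReal.ofReal 16 * (u ^ 2 * ENNReal.ofReal (a ^ p)) := by
      unfold vf
      rw [mul_pow, ENNReal.ofReal_rpow_of_pos ha, ← ENNReal.ofReal_pow (by linarith), mul_assoc,
        ← ENNReal.ofReal_mul (by positivity), mul_left_comm, ← ENNReal.ofReal_mul (by norm_num)]
      congr 2
      rw [Real.rpow_sub ha, Real.rpow_two]; field_simp; norm_num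
    refine (mul_le_mul_right (vf_mono hp2 le_self_add (mul_le_mul_right a1 u)) 2).trans ?_
    rw [a2, ← mul_assoc, h2', ← ENNReal.ofReal_mul (by norm_num)]
    exact mul_le_mul' (hc _ (by linarith)) le_self_add
  · have hn0 : (0 : ℝ) < n := by linarith
    have hn0' : (n : ℝ≥0∞) ≠ 0 := by simpa using hn0.ne'
    have a1 : vf p (ENNReal.ofReal a + M) (u * n) ≤ vf p (2⁻¹ * n * L) (n * u) :=
      vf_mono hp2 (le_add_left h2) (mul_comm u _).le
    have a2 : (2⁻¹ * n : ℝ≥0∞) = ENNReal.ofReal (n / 2) := by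
      rw [ENNReal.ofReal_div_of_pos (by norm_num), ENNReal.ofReal_coe_nnreal, div_eq_mul_inv,
        mul_comm]; simp
    rw [vf_mul (by simpa using hn0') (by finiteness), a2, ENNReal.ofReal_rpow_of_pos (by linarith),
      ← ENNReal.ofReal_coe_nnreal (p := n), ← ENNReal.ofReal_pow hn0.le,
      ← ENNReal.ofReal_mul (by positivity)] at a1
    have a3 : (n : ℝ) ^ 2 * ((n : ℝ) / 2) ^ (p - 2) ≤ 2 * (n : ℝ) ^ p := by
      have b1 : (2 : ℝ) ^ (-1 : ℝ) ≤ 2 ^ (p - 2) :=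
        Real.rpow_le_rpow_of_exponent_le (by norm_num) (by linarith)
      rw [Real.rpow_neg_one] at b1
      rw [Real.div_rpow hn0.le (by norm_num), Real.rpow_sub hn0, Real.rpow_two, ← mul_div_assoc,
        mul_div_cancel₀ _ (by positivity), div_le_iff₀ (by positivity)]
      nlinarith [Real.rpow_pos_of_pos hn0 p]
    have hne : ((n : ℝ≥0∞) + e).toReal = n + e := by
      rw [← ENNReal.coe_add, ENNReal.coe_toReal, NNReal.coe_add]
    have he0 : (0 : ℝ) ≤ e := e.2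
    have b1 := br_nonneg hp1 zero_le_one ha.le
    have b2 := br_nonneg hp1 zero_le_one (show (0 : ℝ) ≤ n + e by linarith)
    have hdp : 1 ≤ d * (p - 1) := by
      have : d * (1 / (d : ℝ)) = 1 := by field_simp
      nlinarith
    have a4 : (n : ℝ) ^ p ≤ 64 * d * (br p 1 a + br p 1 (n + e)) := by
      rcases le_or_gt 2 (n : ℝ) with h' | h'
      · have c1 := br_ge_big hp1 hp2 zero_le_one (show 2 * 1 ≤ (n : ℝ) + e by linarith)
        have c2 : (n : ℝ) ^ p ≤ (n + e : ℝ) ^ p :=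
          Real.rpow_le_rpow hn0.le (by linarith) (by linarith)
        have c3 : 0 ≤ (n + e : ℝ) ^ p := by positivity
        nlinarith [mul_le_mul_of_nonneg_left c1 (show (0 : ℝ) ≤ 16 * d by positivity),
          mul_le_mul_of_nonneg_right hdp c3]
      · have c1 := br_ge_small (M := 1) (η := 1 / 2) hp1 hp2 (by norm_num) ha.le (by linarith)
          zero_le_one
        rw [Real.one_rpow] at c1
        have c2 : (n : ℝ) ^ p ≤ 4 := by
          calc (n : ℝ) ^ p ≤ 2 ^ p := Real.rpow_le_rpow hn0.le h'.le (by linarith)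
            _ ≤ 2 ^ (2 : ℝ) := Real.rpow_le_rpow_of_exponent_le (by norm_num) hp2
            _ = 4 := by norm_num
        nlinarith [mul_le_mul_of_nonneg_left c1 (show (0 : ℝ) ≤ 64 * d by positivity)]
    rw [← ENNReal.ofReal_coe_nnreal (p := n)]
    refine (mul_le_mul_right a1 2).trans (le_trans ?_ (mul_le_mul_right le_add_self _))
    rw [ENNReal.ofReal_coe_nnreal (p := n), hne, ← mul_assoc, mul_comm (vf p L u), ← mul_assoc, h2',
      ← ENNReal.ofReal_mul (by norm_num), ← ENNReal.ofReal_mul (by positivity)]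
    exact mul_le_mul_left (ENNReal.ofReal_le_ofReal (by linarith)) _

theorem gb2a_pt (hd : 3 ≤ d) : ∃ C : ℝ, 1 ≤ C ∧ ∀ (δ : ℝ) (j s : ℕ), 0 < δ → δ ≤ 1 → Even s →
    C * (s + 1) ≤ δ ^ 4 * j → ∃ e : Prof d, e ≤ phi d j ∧
      mass e ≤ ENNReal.ofReal (C * δ) ∧
      ∀ (p : ℝ) (A μ : Prof d) (a : ℝ) (z : Site d), 1 + 1 / d ≤ p → p ≤ 2 → Nice μ →
        (∀ x, A x ≠ ⊤) → 0 < a →
        vf p (ENNReal.ofReal a + lin A (avg^[j + 1] μ)) (avg μ z * avg^[j] A z) ≤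
          ENNReal.ofReal C * (avg μ z ^ 2 * ENNReal.ofReal (a ^ p) +
            vf p (lin (sh z (cube d s.sqrt)) (avg^[s + 1] μ)) (avg μ z) *
              ENNReal.ofReal (br p 1 a + br p 1 (avg^[j] A z).toReal) +
            avg μ z ^ p * lin A (sh z e) ^ p) := by
  have hd1 : 1 ≤ d := by omega
  obtain ⟨C1, hC1, h1⟩ := gb2a_mass hd1
  obtain ⟨C2, hC2, h2⟩ := gb2a_reg hd1
  have hd0 : (0 : ℝ) ≤ 256 * d := by positivity
  refine ⟨C1 + C2 + 256 * d, by linarith, fun δ j s h0 hδ hs hj => ?_⟩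
  obtain ⟨h3, h4⟩ := h2 δ j s h0 hδ hs (le_trans (by gcongr; linarith) hj)
  refine ⟨_, gb2a_E_le j _, (h1 δ j h0 hδ (by omega)).trans
    (ENNReal.ofReal_le_ofReal (by gcongr; linarith)), fun p A μ a z hp hp2 _ hA ha => ?_⟩
  have h5 : avg μ z * avg^[j] A z ≤ lin A (avg^[j + 1] μ) := by
    rw [← gres2_lin_succ]; exact ENNReal.le_tsum z
  rw [gb2a_split j (δ ^ 2 * (j : ℝ) ^ (-(d : ℝ) / 2))] at h5 ⊢
  refine (gb2a_alg hd hp hp2 ha ?_ ?_ h5 (gb2a_low (by omega) h4 A μ z)).trans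
    (mul_le_mul_left (ENNReal.ofReal_le_ofReal (by linarith)) _)
  · exact (((nice_phi hd1 j).of_le (gb2a_N_le j _)).of_sh z).lin_ne_top hA
  · exact (((nice_phi hd1 j).of_le (gb2a_E_le j _)).of_sh z).lin_ne_top hA

end Pool.Agent.Lib.MP_153faa_pr
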