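import Mathlib
import Pool.Agent.Lib.MP_153faa_pr.GLoc2
import Pool.Agent.Lib.MP_153faa_pr.GCont
import Pool.Agent.Lib.MP_153faa_pr.GHK1
import Pool.Agent.Lib.MP_153faa_pr.GB2a1

set_option autoImplicit false

open MeasureTheory Filter Topology
open scoped ENNReal NNReal

namespace Pool.Agent.Lib.MP_153faa_pr

variable {d : ℕ}

/-- Occupation integral of the `p`-th powers started from a heat kernel profile. -/
theorem occ_nq (hd : 3 ≤ d) {κ M : ℝ} (hκ : 0 < κ) : ∃ C : ℝ, 1 ≤ C ∧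
    ∀ (ρ : Measure ℝ≥0) [IsProbabilityMeasure ρ] (p l Z : ℝ), Ctx d κ M ρ p l → C ≤ Z →
      Sc d ρ p l Z → ∀ f : Prof d,
        ∑' i, ENNReal.ofReal ((1 - l) ^ (i + 1)) * (T ρ)^[i] (fun g => nq p (avg g)) f ≤
          ENNReal.ofReal (Z ^ 4 / l) * nq p f := by
  have hd1 : 1 ≤ d := by omega
  refine ⟨2 * |M| + 1, by linarith [abs_nonneg M], fun ρ _ p l Z hc hZ hs f => ?_⟩
  obtain ⟨hp1, hp2⟩ := hc.one_lt hd
  obtain ⟨hM, hmom, -⟩ := hc.good.basic hd hκ
  have h0 := hc.l0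
  have h1 := hc.l1
  rw [abs_of_nonneg (by linarith)] at hZ
  have hle : ∀ i : ℕ, ENNReal.ofReal ((1 - l) ^ (i + 1)) ≤ ENNReal.ofReal ((1 - l) ^ i) := fun i =>
    ENNReal.ofReal_le_ofReal (pow_le_pow_of_le_one (by linarith) (by linarith) (by omega))
  have hS : ∑' n, ENNReal.ofReal ((1 - l) ^ n) * Mom d ρ p n ≤ ENNReal.ofReal (Z / l) := by
    have := hs.1
    rw [gcont_OO_eq' p h0.le] at this
    rw [ENNReal.ofReal_div_of_pos h0, ENNReal.le_div_iff_mul_le (.inl (by simpa using h0))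
      (.inl ENNReal.ofReal_ne_top), mul_comm]
    exact this
  rw [tsum_eq_zero_add' ENNReal.summable]
  have a0 : ENNReal.ofReal ((1 - l) ^ (0 + 1)) * (T ρ)^[0] (fun g => nq p (avg g)) f ≤
      1 * nq p f := mul_le_mul' ((hle 0).trans (by simp)) (nq_avg_le hd1 hp1.le f)
  have a1 : ∑' i, ENNReal.ofReal ((1 - l) ^ (i + 1 + 1)) *
      (T ρ)^[i + 1] (fun g => nq p (avg g)) f ≤
      ENNReal.ofReal (2 * M) * ENNReal.ofReal (Z / l) * nq p f := by
    calc _ ≤ ∑' i, ENNReal.ofReal (2 * M) * (ENNReal.ofReal ((1 - l) ^ i) * Mom d ρ p i) *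
          nq p f := ENNReal.tsum_le_tsum fun i => by
            refine (mul_le_mul' ((hle _).trans (hle _)) ((T_iter_mono _ (nq_avg_le hd1 hp1.le)
              f).trans (T_iter_nq_le_rev hd1 hp1.le i f))).trans ?_
            rw [← mul_assoc, mul_left_comm]
            gcongr
            exact hmom p (by linarith) (by linarith)
      _ ≤ _ := by
        rw [ENNReal.tsum_mul_right, ENNReal.tsum_mul_left]
        gcongr
  refine (add_le_add a0 a1).trans ?_
  have hZ0 : 0 < Z := by linarith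
  rw [← add_mul, ← ENNReal.ofReal_mul (by linarith), ← ENNReal.ofReal_one,
    ← ENNReal.ofReal_add zero_le_one (by positivity)]
  refine mul_le_mul_left (ENNReal.ofReal_le_ofReal ?_) _
  rw [le_div_iff₀ h0, add_mul, mul_assoc, div_mul_cancel₀ _ h0.ne']
  have hZ1 : 1 ≤ Z := by linarith
  have : Z ^ 2 ≤ Z ^ 4 := pow_le_pow_right₀ hZ1 (by norm_num)
  nlinarith

/-- Near and far parts of the smoothed backward partition function. -/
theorem b2a_pt (hd : 3 ≤ d) : ∃ C : ℝ, 1 ≤ C ∧ ∀ (δ : ℝ) (j s : ℕ), 0 < δ → δ ≤ 1 → Even s →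
    C * (s + 1) ≤ δ ^ 4 * j → ∃ e : Prof d, e ≤ phi d j ∧
      mass e ≤ ENNReal.ofReal (C * δ) ∧
      ∀ (p : ℝ) (A μ : Prof d) (a : ℝ) (z : Site d), 1 + 1 / d ≤ p → p ≤ 2 → Nice μ →
        (∀ x, A x ≠ ⊤) → 0 < a →
        vf p (ENNReal.ofReal a + lin A (avg^[j + 1] μ)) (avg μ z * avg^[j] A z) ≤
          ENNReal.ofReal C * (avg μ z ^ 2 * ENNReal.ofReal (a ^ p) +
            vf p (lin (sh z (cube d s.sqrt)) (avg^[s + 1] μ)) (avg μ z) *
              ENNReal.ofReal (br p 1 a + br p 1 (avg^[j] A z).toReal) +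
            avg μ z ^ p * lin A (sh z e) ^ p) := gb2a_pt hd

section
variable {ρ : Measure ℝ≥0} [IsProbabilityMeasure ρ] {S : Set (Prof d)} {p l l' : ℝ}

theorem gb2a_meas_left (F : Prof d) : Measurable fun A : Prof d => lin A F :=
  measurable_lin2.comp (measurable_id.prodMk measurable_const)

theorem gb2a_meas_right (A : Prof d) : Measurable fun g : Prof d => lin A g :=
  measurable_lin2.comp (measurable_const.prodMk measurable_id)

theorem gb2a_meas_br (F : Prof d) :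
    Measurable fun A : Prof d => ENNReal.ofReal (br p 1 (lin A F).toReal) :=
  ((measurable_br p).comp (measurable_const.prodMk (gb2a_meas_left F).ennreal_toReal)).ennreal_ofReal

theorem gb2a_meas_Lam (a : ℝ) (A : Prof d) (r : ℕ) :
    Measurable fun g : Prof d => ENNReal.ofReal (Lam p a (lin A (avg^[r] g)).toReal) := by
  have := ((gb2a_meas_right A).comp (measurable_avg_iter r)).ennreal_toReal
  unfold Lam
  exact (((this.sub_const a).pow_const 2).mul ((this.add_const a).pow_const _)).ennreal_ofReal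

theorem gb2a_meas_avg (z : Site d) : Measurable fun g : Prof d => avg g z :=
  (measurable_pi_apply z).comp measurable_avg

theorem gb2a_Tk_zero (Φ : Prof d → ℝ≥0∞) (f : Prof d) : Tk ρ S Φ 0 f ≤ Φ f := by
  by_cases hf : f ∈ S
  · rw [gres1_Tk_mem Φ 0 hf]; exact zero_le
  · rw [gres1_Tk_zero Φ hf]

theorem gb2a_Tk_le (hS : MeasurableSet S) {Φ : Prof d → ℝ≥0∞} (hΦ : Measurable Φ) (n : ℕ)
    (f : Prof d) : Tk ρ S Φ n f ≤ (T ρ)^[n] Φ f := by
  rw [← Tk_add_Th hS hΦ]; exact le_self_add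

theorem gb2a_tele (hd : 1 ≤ d) (hS : MeasurableSet S) (hm : Mean1 ρ) {χ : ℝ≥0∞}
    (hχ : mom ρ 2 = 1 + χ) (hχt : χ ≠ ⊤) (hp : 1 ≤ p) (hp2 : p ≤ 2) {a : ℝ} (ha : 0 < a)
    {A : Prof d} (hA : ∀ x, A x ≠ ⊤) {G : ℕ → Prof d → ℝ≥0∞} (mG : ∀ r, Measurable (G r))
    (hG : ∀ r g, Nice g → ∑' x, vf p (ENNReal.ofReal a + lin A (avg^[r + 1] g))
      (avg g x * avg^[r] A x) ≤ G r g) {f : Prof d} (hf : Nice f) (i r : ℕ) :
    Tk ρ S (fun g => ENNReal.ofReal (Lam p a (lin A (avg^[r] g)).toReal)) i f ≤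
      ENNReal.ofReal (Lam p a (lin A (avg^[r + i] f)).toReal) +
        64 * χ * ∑ t ∈ Finset.range i, Tk ρ S (G (r + i - 1 - t)) t f := by
  induction i generalizing r with
  | zero => exact (gb2a_Tk_zero _ f).trans le_self_add
  | succ i ih =>
    rw [Tk_succ']
    refine (Tk_mono hd (Ψ := fun g => ENNReal.ofReal (Lam p a (lin A (avg^[r + 1] g)).toReal) +
      64 * χ * G r g) (fun g hg _ => ?_) i hf).trans ?_
    · refine (T_mono (gb2a_Tk_zero _) g).trans ?_
      have h1 := lay_Lam hm hχ hχt hp hp2 ha (fun x => avg g x * avg^[r] A x)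
        (by rw [gres2_lin_succ]; exact (hg.of_avg_iter hd _).lin_ne_top hA)
      rw [gres2_lin_succ] at h1
      refine le_trans (le_of_eq ?_) (h1.trans (by gcongr; exact hG r g hg))
      exact lintegral_congr fun ξ => by simp only [lin_avg_iter, lin_step]
    · rw [Tk_add hS (gb2a_meas_Lam a A _) ((mG r).const_mul _), Tk_const_mul hS (mG r),
        Finset.sum_range_succ, mul_add, ← add_assoc, show r + (i + 1) - 1 - i = r by omega,
        show r + (i + 1) = r + 1 + i by omega]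
      exact add_le_add (ih (r + 1)) le_rfl

theorem gb2a_T_lin (hm : Mean1 ρ) (A : Prof d) (n : ℕ) (f : Prof d) :
    (T ρ)^[n] (lin A) f = lin A (avg^[n] f) := by
  have : lin A = fun g => ∑' x, A x * g x := funext fun g => tsum_congr fun x => mul_comm _ _
  rw [this, T_iter_lin hm]

theorem gb2a_fix (hd : 1 ≤ d) (hS : MeasurableSet S) (hm : Mean1 ρ) {χ : ℝ≥0∞}
    (hχ : mom ρ 2 = 1 + χ) (hχt : χ ≠ ⊤) (hp : 1 ≤ p) (hp2 : p ≤ 2)
    {A : Prof d} (hA : ∀ x, A x ≠ ⊤) {f : Prof d} (hf : Nice f) (n : ℕ)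
    {G : ℕ → Prof d → ℝ≥0∞} (mG : ∀ r, Measurable (G r))
    (hG : 0 < (lin A (avg^[n] f)).toReal → ∀ r g, Nice g →
      ∑' x, vf p (ENNReal.ofReal (lin A (avg^[n] f)).toReal + lin A (avg^[r + 1] g))
        (avg g x * avg^[r] A x) ≤ G r g) :
    Tk ρ S (fun g => lin A g ^ p) n f ≤ lin A (avg^[n] f) ^ p * (1 + Th ρ S (fun _ => 1) n f) +
      512 * χ * ∑ t ∈ Finset.range n, Tk ρ S (G (n - 1 - t)) t f := by
  have mL := gb2a_meas_right A
  have hat : lin A (avg^[n] f) ≠ ⊤ := (hf.of_avg_iter hd _).lin_ne_top hA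
  by_cases h0 : lin A (avg^[n] f) = 0
  · refine le_trans ?_ zero_le
    refine (gb2a_Tk_le hS (mL.pow_const p) n f).trans ((T_iter_mono n
      (Ψ := fun g => ⊤ * lin A g) (fun g => ?_) f).trans ?_)
    · by_cases h : lin A g = 0
      · rw [h, ENNReal.zero_rpow_of_pos (by linarith)]; exact zero_le
      · rw [ENNReal.top_mul h]; exact le_top
    · rw [T_iter_const_mul n _ mL, gb2a_T_lin hm, h0, mul_zero]
  set a := (lin A (avg^[n] f)).toReal with ha
  have ha0 : 0 < a := ENNReal.toReal_pos h0 hat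
  have hae : lin A (avg^[n] f) = ENNReal.ofReal a := (ENNReal.ofReal_toReal hat).symm
  have h1 := gb2a_tele hd hS hm hχ hχt hp hp2 ha0 hA mG (hG ha0) hf n 0
  simp only [zero_add, Function.iterate_zero, id] at h1
  rw [← ha, show Lam p a a = 0 by simp [Lam], ENNReal.ofReal_zero, zero_add] at h1
  have hpow : a ^ (p - 1) * a = a ^ p := by
    rw [Real.rpow_sub_one ha0.ne']; field_simp
  have hp0 : 0 ≤ p - 1 := by linarith
  set c := ENNReal.ofReal ((p - 1) * a ^ p) with hc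
  have h2 := Tk_mono (ρ := ρ) (S := S) hd (Φ := fun g => lin A g ^ p + c * 1)
    (Ψ := fun g => ENNReal.ofReal (p * a ^ (p - 1)) * lin A g +
      8 * ENNReal.ofReal (Lam p a (lin A g).toReal)) (fun g hg _ => by
      have hgt := hg.lin_ne_top hA
      have hx : 0 ≤ (lin A g).toReal := ENNReal.toReal_nonneg
      have := br_le_Lam hp hp2 ha0 hx
      have hL := Lam_nonneg (p := p) ha0.le hx
      rw [← ENNReal.ofReal_toReal hgt, ENNReal.toReal_ofReal hx, mul_one, hc,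
        ENNReal.ofReal_rpow_of_nonneg hx (by linarith), ← ENNReal.ofReal_ofNat,
        ← ENNReal.ofReal_mul (by positivity), ← ENNReal.ofReal_mul (by positivity),
        ← ENNReal.ofReal_add (by positivity) (by positivity),
        ← ENNReal.ofReal_add (by positivity) (by positivity)]
      refine ENNReal.ofReal_le_ofReal ?_
      unfold br at this
      rw [← hpow] at this ⊢
      linarith) n hf
  have mLam := gb2a_meas_Lam (p := p) a A 0
  simp only [Function.iterate_zero, id] at mLam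
  rw [Tk_add hS (mL.pow_const p) measurable_const,
    Tk_const_mul hS measurable_const, Tk_add hS (mL.const_mul _) (mLam.const_mul _),
    Tk_const_mul hS mL, Tk_const_mul hS mLam] at h2
  have h3 := Tk_add_Th (ρ := ρ) hS (Φ := fun _ => 1) measurable_const n f
  rw [T_iter_const] at h3
  have h4 : ENNReal.ofReal (p * a ^ (p - 1)) * Tk ρ S (lin A) n f ≤
      ENNReal.ofReal (a ^ p) + c := by
    refine (mul_le_mul_right (gb2a_Tk_le hS mL n f) _).trans ?_
    rw [gb2a_T_lin hm, hae, hc, ← ENNReal.ofReal_mul (by positivity),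
      ← ENNReal.ofReal_add (by positivity) (by positivity)]
    refine ENNReal.ofReal_le_ofReal (le_of_eq ?_)
    rw [← hpow]; ring
  have h5 : c ≤ ENNReal.ofReal (a ^ p) := ENNReal.ofReal_le_ofReal
    (mul_le_of_le_one_left (by positivity) (by linarith))
  have h6 : c * Tk ρ S (fun _ => 1) n f ≠ ⊤ := ENNReal.mul_ne_top ENNReal.ofReal_ne_top
    (ne_top_of_le_ne_top ENNReal.one_ne_top (le_self_add.trans_eq h3))
  refine ENNReal.le_of_add_le_add_right h6 (h2.trans ?_)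
  rw [hae, ENNReal.ofReal_rpow_of_pos ha0]
  calc _ ≤ ENNReal.ofReal (a ^ p) + c * (Tk ρ S (fun _ => 1) n f + Th ρ S (fun _ => 1) n f) +
        8 * (64 * χ * ∑ t ∈ Finset.range n, Tk ρ S (G (n - 1 - t)) t f) := by
        rw [h3, mul_one]; exact add_le_add h4 (mul_le_mul_right h1 _)
    _ = ENNReal.ofReal (a ^ p) + c * Th ρ S (fun _ => 1) n f +
        512 * χ * ∑ t ∈ Finset.range n, Tk ρ S (G (n - 1 - t)) t f +
          c * Tk ρ S (fun _ => 1) n f := by ring
    _ ≤ _ := by rw [mul_add (ENNReal.ofReal _), mul_one]; gcongr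

/-- The law of the backward partition function at a geometric time. -/
noncomputable def gb2aM (d : ℕ) (ρ : Measure ℝ≥0) [IsProbabilityMeasure ρ] (l : ℝ) :
    Measure (Prof d) := Measure.sum fun k => wt l k • (env d ρ).map (AW k)

instance : SFinite (gb2aM d ρ l) := by unfold gb2aM; infer_instance

theorem gb2a_int {F : Prof d → ℝ≥0∞} (hF : Measurable F) :
    ∫⁻ A, F A ∂gb2aM d ρ l = ∑' k, wt l k * ∫⁻ ω, F (AW k ω) ∂env d ρ := by
  unfold gb2aM
  rw [lintegral_sum_measure]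
  refine tsum_congr fun k => ?_
  rw [lintegral_smul_measure, lintegral_map hF (measurable_AW k), smul_eq_mul]

theorem gb2a_ae (hd : 1 ≤ d) : ∀ᵐ A ∂gb2aM d ρ l, ∀ x, A x ≠ ⊤ := by
  unfold gb2aM
  refine Measure.ae_sum_iff.2 fun k => Measure.ae_smul_measure ?_ _
  refine (ae_map_iff (measurable_AW k).aemeasurable ?_).2 (.of_forall (AW_ne_top hd k))
  rw [Set.ofPred_forall]
  exact MeasurableSet.iInter fun x => ((measurable_pi_apply x) (measurableSet_singleton ⊤)).compl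

theorem gb2a_H (g : Prof d) : ∫⁻ A, lin A g ^ p ∂gb2aM d ρ l = HH ρ p l g := by
  rw [gb2a_int ((gb2a_meas_left g).pow_const p), HH_lin]

theorem gb2a_X (hd : 1 ≤ d) (hm : Mean1 ρ) (hp : 1 < p) (h0 : 0 < l) (h1 : l < 1) {g : Prof d}
    (hg : Nice g) (hg1 : mass g = 1) :
    ∫⁻ A, ENNReal.ofReal (br p 1 (lin A g).toReal) ∂gb2aM d ρ l = XX ρ p l 0 g := by
  have h := XX_br hd hm hp h0 h1 le_rfl hg
  have hbr : Measurable fun u : Prof d => ENNReal.ofReal (br p (0 + mr g) (0 + mr u)) :=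
    ((measurable_br p).comp (measurable_const.prodMk (measurable_mr.const_add 0))).ennreal_ofReal
  rw [ENNReal.ofReal_zero, Res_env hbr] at h
  rw [gb2a_int (gb2a_meas_br g), h]
  simp only [lin_AW, mr, hg1, zero_add, ENNReal.toReal_one]

theorem gb2a_fam (hS : MeasurableSet S) {u w : Site d → Prof d → ℝ≥0∞}
    (hu : ∀ z, Measurable (u z)) (hw : ∀ z, Measurable (w z)) (μ : Measure (Prof d)) {W : ℝ≥0∞}
    (hW : ∀ z, ∫⁻ A, w z A ∂μ ≤ W) (t : ℕ) (f : Prof d) :
    (Measurable fun A => Tk ρ S (fun g => ∑' z, w z A * u z g) t f) ∧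
      ∫⁻ A, Tk ρ S (fun g => ∑' z, w z A * u z g) t f ∂μ ≤
        W * Tk ρ S (fun g => ∑' z, u z g) t f := by
  have e : (fun A => Tk ρ S (fun g => ∑' z, w z A * u z g) t f) =
      fun A => ∑' z, w z A * Tk ρ S (u z) t f := funext fun A => by
    rw [Tk_tsum hS fun z => (hu z).const_mul _]
    exact tsum_congr fun z => Tk_const_mul hS (hu z) _ _ _
  rw [e]
  refine ⟨Measurable.tsum fun z => (hw z).mul_const _, ?_⟩
  rw [lintegral_tsum fun z => ((hw z).mul_const _).aemeasurable, Tk_tsum hS hu,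
    ← ENNReal.tsum_mul_left]
  refine ENNReal.tsum_le_tsum fun z => ?_
  rw [lintegral_mul_const _ (hw z)]
  exact mul_le_mul_left (hW z) _

theorem gb2a_swap (h1 : l < 1) (c τ : ℕ → ℝ≥0∞) :
    ∑' n, wt l n * ∑ t ∈ Finset.range n, c (n - 1 - t) * τ t =
      (∑' r, wt l r * c r) * ∑' t, ENNReal.ofReal ((1 - l) ^ (t + 1)) * τ t := by
  have e : (∑' r, wt l r * c r) * ∑' t, ENNReal.ofReal ((1 - l) ^ (t + 1)) * τ t =
      ∑' t, ∑' r, wt l (t + r + 1) * (c r * τ t) := by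
    rw [← ENNReal.tsum_mul_left]
    refine tsum_congr fun t => ?_
    rw [← ENNReal.tsum_mul_right]
    refine tsum_congr fun r => ?_
    rw [show t + r + 1 = r + (t + 1) by omega, wt_add h1]; ring
  rw [e.trans (gres2_tsum_anti fun q : ℕ × ℕ => wt l (q.1 + q.2 + 1) * (c q.2 * τ q.1)),
    tsum_eq_zero_add' ENNReal.summable, Finset.range_zero, Finset.sum_empty, mul_zero, zero_add]
  refine tsum_congr fun n => ?_
  rw [Finset.Nat.sum_antidiagonal_eq_sum_range_succ_mk, Finset.mul_sum]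
  refine Finset.sum_congr rfl fun t ht => ?_
  have := Finset.mem_range.1 ht
  rw [show t + (n - t) + 1 = n + 1 by omega, show n + 1 - 1 - t = n - t by omega]

theorem gb2a_step (hd : 1 ≤ d) (hS : MeasurableSet S) (hm : Mean1 ρ) {χ : ℝ≥0∞}
    (hχ : mom ρ 2 = 1 + χ) (hχt : χ ≠ ⊤) (hp : 1 < p) (hp2 : p ≤ 2) (h0 : 0 < l') (h1 : l' < 1)
    {m j s : ℕ} (hjm : j ≤ m) {C ε : ℝ≥0∞} {e : ℕ → Prof d}
    (he : ∀ r, j ≤ r → C * mq p (e r) ≤ ε ∧ ∀ (A μ : Prof d) (a : ℝ) (z : Site d), Nice μ →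
      (∀ x, A x ≠ ⊤) → 0 < a →
        vf p (ENNReal.ofReal a + lin A (avg^[r + 1] μ)) (avg μ z * avg^[r] A z) ≤
          C * (avg μ z ^ 2 * ENNReal.ofReal (a ^ p) +
            vf p (lin (sh z (cube d s.sqrt)) (avg^[s + 1] μ)) (avg μ z) *
              ENNReal.ofReal (br p 1 a + br p 1 (avg^[r] A z).toReal) +
            avg μ z ^ p * lin A (sh z (e r)) ^ p)) (n : ℕ) :
    Tk ρ S (HH ρ p l') n (phi d m) ≤ HH ρ p l' (avg^[n] (phi d m)) +
      HH ρ p l' (phi d j) * Th ρ S (fun _ => 1) n (phi d m) + 512 * χ * ∑ t ∈ Finset.range n,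
        (C * HH ρ p l' (phi d j) * Tk ρ S (fun g => nq 2 (avg g)) t (phi d m) +
          C * (2 * XX ρ p l' 0 (phi d j)) * Tk ρ S (Vloc p s) t (phi d m) +
          OO d ρ p l' * ((if n - 1 - t < j then 1 else 0) + ε) *
            Tk ρ S (fun g => nq p (avg g)) t (phi d m)) := by
  set F := avg^[n] (phi d m) with hF
  have hFe : F = phi d (m + n) := avg_iter_phi m n
  have hFn : Nice F := hFe ▸ nice_phi hd _
  have hHF : HH ρ p l' F ≤ HH ρ p l' (phi d j) := hFe ▸ HH_phi_anti hd hp.le (by omega)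
  let u1 : Site d → Prof d → ℝ≥0∞ := fun z g => avg g z ^ (2 : ℝ)
  let u2 : Site d → Prof d → ℝ≥0∞ := fun z g =>
    vf p (lin (sh z (cube d s.sqrt)) (avg^[s + 1] g)) (avg g z)
  let u3 : Site d → Prof d → ℝ≥0∞ := fun z g => avg g z ^ p
  let w1 : Site d → Prof d → ℝ≥0∞ := fun _ A => C * lin A F ^ p
  let w2 : ℕ → Site d → Prof d → ℝ≥0∞ := fun r z A => C * (ENNReal.ofReal (br p 1 (lin A F).toReal)
    + ENNReal.ofReal (br p 1 (lin A (sh z (phi d (max r j)))).toReal))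
  let w3 : ℕ → Site d → Prof d → ℝ≥0∞ := fun r z A =>
    if r < j then lin A (sh z (phi d r)) ^ p else C * lin A (sh z (e r)) ^ p
  have mu1 : ∀ z, Measurable (u1 z) := fun z => (gb2a_meas_avg z).pow_const _
  have mu2 : ∀ z, Measurable (u2 z) := fun z => (measurable_vf p).comp
    (((gb2a_meas_right _).comp (measurable_avg_iter _)).prodMk (gb2a_meas_avg z))
  have mu3 : ∀ z, Measurable (u3 z) := fun z => (gb2a_meas_avg z).pow_const _
  have mw1 : ∀ z, Measurable (w1 z) := fun z => ((gb2a_meas_left _).pow_const _).const_mul _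
  have mw2 : ∀ r z, Measurable (w2 r z) := fun r z =>
    ((gb2a_meas_br _).add (gb2a_meas_br _)).const_mul _
  have mw3 : ∀ r z, Measurable (w3 r z) := fun r z => by
    simp only [w3]
    split_ifs
    · exact (gb2a_meas_left _).pow_const _
    · exact ((gb2a_meas_left _).pow_const _).const_mul _
  have iw1 : ∀ z, ∫⁻ A, w1 z A ∂gb2aM d ρ l' ≤ C * HH ρ p l' (phi d j) := fun z => by
    rw [lintegral_const_mul _ ((gb2a_meas_left _).pow_const _), gb2a_H]
    exact mul_le_mul_right hHF _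
  have iw2 : ∀ r z, ∫⁻ A, w2 r z A ∂gb2aM d ρ l' ≤ C * (2 * XX ρ p l' 0 (phi d j)) := fun r z => by
    rw [lintegral_const_mul _ ((gb2a_meas_br _).fun_add (gb2a_meas_br _)),
      lintegral_add_left (gb2a_meas_br _), gb2a_X hd hm hp h0 h1 hFn (hFe ▸ mass_phi hd _),
      gb2a_X hd hm hp h0 h1 ((nice_phi hd _).of_sh z) (by rw [mass_sh, mass_phi hd]), XX_sh,
      two_mul, hFe]
    exact mul_le_mul_right (add_le_add (XX_phi_anti hd hp.le (by omega))
      (XX_phi_anti hd hp.le (le_max_right _ _))) _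
  have iw3 : ∀ r z, ∫⁻ A, w3 r z A ∂gb2aM d ρ l' ≤
      OO d ρ p l' * ((if r < j then 1 else 0) + ε) := fun r z => by
    simp only [w3]
    split_ifs with h
    · rw [gb2a_H]
      refine (HH_le hp.le _).trans (mul_le_mul_right ?_ _)
      rw [mq_sh, gres2_mq_of (mass_phi hd _)]
      exact le_self_add
    · rw [lintegral_const_mul _ ((gb2a_meas_left _).pow_const _), gb2a_H, zero_add]
      refine (mul_le_mul_right (HH_le hp.le _) _).trans ?_
      rw [mul_left_comm, mq_sh]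
      exact mul_le_mul_right (he r (not_lt.1 h)).1 _
  have mS : ∀ (u : Site d → Prof d → ℝ≥0∞) (w : Site d → ℝ≥0∞), (∀ z, Measurable (u z)) →
      Measurable fun g => ∑' z, w z * u z g := fun u w hu =>
    Measurable.tsum fun z => (hu z).const_mul _
  have f1 := fun t => gb2a_fam (ρ := ρ) hS mu1 mw1 _ iw1 t (phi d m)
  have f2 := fun r t => gb2a_fam (ρ := ρ) hS mu2 (mw2 r) _ (iw2 r) t (phi d m)
  have f3 := fun r t => gb2a_fam (ρ := ρ) hS mu3 (mw3 r) _ (iw3 r) t (phi d m)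
  have e1 : Tk ρ S (HH ρ p l') n (phi d m) =
      ∫⁻ A, Tk ρ S (fun g => lin A g ^ p) n (phi d m) ∂gb2aM d ρ l' := by
    rw [← Tk_lintegral hS _ (measurable_lin2.pow_const p)]
    simp only [gb2a_H]
  have e2 : ∀ A : Prof d, (∀ x, A x ≠ ⊤) → Tk ρ S (fun g => lin A g ^ p) n (phi d m) ≤
      lin A F ^ p * (1 + Th ρ S (fun _ => 1) n (phi d m)) + 512 * χ * ∑ t ∈ Finset.range n,
        (Tk ρ S (fun g => ∑' z, w1 z A * u1 z g) t (phi d m) +
          Tk ρ S (fun g => ∑' z, w2 (n - 1 - t) z A * u2 z g) t (phi d m) +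
          Tk ρ S (fun g => ∑' z, w3 (n - 1 - t) z A * u3 z g) t (phi d m)) := fun A hA => by
    refine (gb2a_fix hd hS hm hχ hχt hp.le hp2 hA (nice_phi hd m) n
      (G := fun r g => ∑' z, w1 z A * u1 z g + ∑' z, w2 r z A * u2 z g + ∑' z, w3 r z A * u3 z g)
      (fun r => ((mS _ _ mu1).add (mS _ _ mu2)).add (mS _ _ mu3)) fun ha r g hg => ?_).trans
      (le_of_eq ?_)
    · rw [← ENNReal.tsum_add, ← ENNReal.tsum_add]
      refine ENNReal.tsum_le_tsum fun z => ?_
      rcases lt_or_ge r j with h | h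
      · refine le_add_left ((vf_le hp.le hp2 (le_add_left ?_)).trans (le_of_eq ?_))
        · rw [← gres2_lin_succ]; exact ENNReal.le_tsum z
        · simp only [w3, u3, if_pos h]
          rw [ENNReal.mul_rpow_of_nonneg _ _ (by linarith), gb2a_avg_eq, mul_comm]
      · refine ((he r h).2 A g _ z hg hA ha).trans ?_
        simp only [w1, w2, w3, u1, u2, u3, if_neg (not_lt.2 h), max_eq_left h]
        rw [← ENNReal.ofReal_rpow_of_pos ha, ENNReal.ofReal_toReal (hFn.lin_ne_top hA),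
          gb2a_avg_eq, ENNReal.rpow_two]
        refine (mul_le_mul_right (add_le_add (add_le_add le_rfl (mul_le_mul_right
          ENNReal.ofReal_add_le _)) le_rfl) _).trans (le_of_eq ?_)
        ring
    · congr 2
      refine Finset.sum_congr rfl fun t _ => ?_
      rw [Tk_add hS ((mS _ _ mu1).fun_add (mS _ _ mu2)) (mS _ _ mu3), Tk_add hS (mS _ _ mu1)
        (mS _ _ mu2)]
  rw [e1]
  refine (lintegral_mono_ae ((gb2a_ae hd).mono e2)).trans ?_
  have mT := fun t => ((f1 t).1.fun_add (f2 (n - 1 - t) t).1).fun_add (f3 (n - 1 - t) t).1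
  rw [lintegral_add_left (((gb2a_meas_left _).pow_const _).mul_const _),
    lintegral_mul_const _ ((gb2a_meas_left _).pow_const _), gb2a_H,
    lintegral_const_mul _ (Finset.measurable_fun_sum _ fun t _ => mT t),
    lintegral_finsetSum _ fun t _ => mT t, mul_add, mul_one]
  refine add_le_add (add_le_add le_rfl (mul_le_mul_left hHF _))
    (mul_le_mul_right (Finset.sum_le_sum fun t _ => ?_) _)
  rw [lintegral_add_left ((f1 t).1.fun_add (f2 (n - 1 - t) t).1), lintegral_add_left (f1 t).1]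
  exact add_le_add (add_le_add (f1 t).2 (f2 _ t).2) (f3 _ t).2

theorem gb2a_ind (h0 : 0 < l) (h1 : l < 1) (j : ℕ) (O ε : ℝ≥0∞) :
    ∑' r, wt l r * (O * ((if r < j then 1 else 0) + ε)) ≤ O * (ENNReal.ofReal (l * j) + ε) := by
  simp only [mul_left_comm _ O, mul_add, ENNReal.tsum_mul_left, ENNReal.tsum_add,
    ENNReal.tsum_mul_right, wt_tsum h0 h1, one_mul]
  gcongr
  rw [tsum_eq_sum (s := Finset.range j) fun r hr => by rw [if_neg (by simpa using hr), mul_zero]]
  refine (Finset.sum_le_card_nsmul _ _ (ENNReal.ofReal l) fun r hr => ?_).trans (le_of_eq ?_)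
  · rw [if_pos (Finset.mem_range.1 hr), mul_one]
    exact ENNReal.ofReal_le_ofReal (mul_le_of_le_one_right h0.le
      (pow_le_one₀ (by linarith) (by linarith)))
  · rw [Finset.card_range, nsmul_eq_mul, ENNReal.ofReal_mul h0.le, ENNReal.ofReal_natCast, mul_comm]

theorem gb2a_core (hd : 1 ≤ d) (hm : Mean1 ρ) {χ : ℝ≥0∞}
    (hχ : mom ρ 2 = 1 + χ) (hχt : χ ≠ ⊤) (h0 : 0 < l) (h1 : l < 1)
    {m j s : ℕ} {C ε : ℝ≥0∞} (hC : 1 ≤ C)
    (h : ∀ n, Tk ρ (lev d 2) (HH ρ p l') n (phi d m) ≤ HH ρ p l' (avg^[n] (phi d m)) +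
      HH ρ p l' (phi d j) * Th ρ (lev d 2) (fun _ => 1) n (phi d m) +
        512 * χ * ∑ t ∈ Finset.range n,
        (C * HH ρ p l' (phi d j) * Tk ρ (lev d 2) (fun g => nq 2 (avg g)) t (phi d m) +
          C * (2 * XX ρ p l' 0 (phi d j)) * Tk ρ (lev d 2) (Vloc p s) t (phi d m) +
          OO d ρ p l' * ((if n - 1 - t < j then 1 else 0) + ε) *
            Tk ρ (lev d 2) (fun g => nq p (avg g)) t (phi d m))) :
    U ρ l (lev d 2) (fun _ => 0) (HH ρ p l') (phi d m) ≤ Det l (HH ρ p l') (phi d m) +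
      516 * χ * C * HH ρ p l' (phi d j) * II ρ l 2 (phi d m) +
      1024 * χ * C * XX ρ p l' 0 (phi d j) * Occ ρ l (lev d 2) (Vloc p s) (phi d m) +
      512 * χ * (OO d ρ p l' * (ENNReal.ofReal (l * j) + ε)) *
        Occ ρ l (lev d 2) (fun g => nq p (avg g)) (phi d m) := by
  have hS := measurableSet_lev (d := d) 2
  rw [U_zero_eq hS h0 h1 measurable_HH]
  refine (ENNReal.tsum_le_tsum fun n => mul_le_mul_right (h n) _).trans ?_
  have e1 : ∑' n, wt l n * Th ρ (lev d 2) (fun _ => 1) n (phi d m) ≤ 4 * χ * II ρ l 2 (phi d m) := by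
    simp only [Th_one]
    rw [← U_hit_eq hS h0 h1]
    refine (gloc2_U_mono (fun g hg => ?_) (fun _ _ => le_rfl) _).trans
      (U_sq_exit hd hm hχ hχt h0 h1 (nice_phi hd m) (by simp [mr, mass_phi hd]))
    exact ENNReal.one_le_rpow (le_trans (by simp) hg) (by norm_num)
  have e2 := gb2a_swap h1 (fun _ => C * HH ρ p l' (phi d j))
    fun t => Tk ρ (lev d 2) (fun g => nq 2 (avg g)) t (phi d m)
  have e3 := gb2a_swap h1 (fun _ => C * (2 * XX ρ p l' 0 (phi d j)))
    fun t => Tk ρ (lev d 2) (Vloc p s) t (phi d m)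
  have e4 := (gb2a_swap h1 (fun r => OO d ρ p l' * ((if r < j then 1 else 0) + ε))
    fun t => Tk ρ (lev d 2) (fun g => nq p (avg g)) t (phi d m)).trans_le
    (mul_le_mul_left (gb2a_ind h0 h1 j _ _) _)
  rw [ENNReal.tsum_mul_right, wt_tsum h0 h1, one_mul] at e2 e3
  simp only [Finset.sum_add_distrib, mul_add (wt l _), mul_left_comm (wt l _) (512 * χ),
    mul_left_comm (wt l _) (HH ρ p l' (phi d j)), ENNReal.tsum_add, ENNReal.tsum_mul_left]
  rw [e2, e3]
  calc _ ≤ Det l (HH ρ p l') (phi d m) + HH ρ p l' (phi d j) * (C * (4 * χ * II ρ l 2 (phi d m))) +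
        512 * χ * (C * HH ρ p l' (phi d j) * II ρ l 2 (phi d m) +
          C * (2 * XX ρ p l' 0 (phi d j)) * Occ ρ l (lev d 2) (Vloc p s) (phi d m) +
          OO d ρ p l' * (ENNReal.ofReal (l * j) + ε) *
            Occ ρ l (lev d 2) (fun g => nq p (avg g)) (phi d m)) :=
        add_le_add (add_le_add le_rfl (mul_le_mul_right (e1.trans
          (le_mul_of_one_le_left zero_le hC)) _)) (mul_le_mul_right (add_le_add le_rfl e4) _)
    _ = _ := by ring

end

/-- The part of the two-stage gain that does not come from a localisation in the first stage. -/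
theorem b2a (hd : 3 ≤ d) {κ M : ℝ} (hκ : 0 < κ) : ∃ (a : ℕ) (C : ℝ), 1 ≤ C ∧
    ∀ (ρ : Measure ℝ≥0) [IsProbabilityMeasure ρ] (l l' Z : ℝ) (m j s : ℕ),
      Ctx d κ M ρ (q0 d) l → l ≤ C⁻¹ → C ≤ Z → Sc d ρ (q0 d) l Z → 0 < l' → l' < 1 →
      OO d ρ (q0 d) l' ≠ ⊤ → l * j * Z ^ a ≤ 1 → j ≤ m → Even s → (s + 1) * Z ^ a ≤ j →
        KK d ρ (q0 d) l' * U ρ l (lev d 2) (fun _ => 0) (HH ρ (q0 d) l') (phi d m) ≤
          KK d ρ (q0 d) l' * Det l (HH ρ (q0 d) l') (phi d m) +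
          ENNReal.ofReal (C * (Kr d ρ (q0 d) l' + Ar d ρ (q0 d) l' j)) * II ρ l 2 (phi d m) +
          ENNReal.ofReal (C * Ar d ρ (q0 d) l' j) *
            Occ ρ l (lev d 2) (Vloc (q0 d) s) (phi d m) +
          ENNReal.ofReal ((Z ^ 10)⁻¹ / (l * m)) := by
  have hd1 : 1 ≤ d := by omega
  have hd0 : (d : ℝ) ≠ 0 := by positivity
  obtain ⟨Cp, hCp, hpt⟩ := b2a_pt hd
  obtain ⟨Co, hCo, hoc⟩ := occ_nq (M := M) hd hκ
  obtain ⟨Ch, hCh, hnq⟩ := hk_nq hd1
  set B := 2 * max M 1 with hB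
  have hB2 : 2 ≤ B := by linarith [le_max_right M 1]
  have c1 : 0 ≤ 512 * B * (1 + Cp ^ 3) * Ch := by positivity
  have c2 : Cp ≤ 516 * B * Cp := by nlinarith
  have c3 : 516 * B * Cp ≤ 1024 * B * Cp := by nlinarith
  refine ⟨61, Co + 1024 * B * Cp + 512 * B * (1 + Cp ^ 3) * Ch, by linarith,
    fun ρ _ l l' Z m j s hc _ hZ hs h0' h1' hO hlj hjm hse hsj => ?_⟩
  set C := Co + 1024 * B * Cp + 512 * B * (1 + Cp ^ 3) * Ch with hCdef
  obtain ⟨hp1, hp2⟩ := hc.one_lt hd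
  obtain ⟨χ, hχ, hχt, hχB, -⟩ := gloc2_chi hd hκ hc.good
  have hm := hc.good.1
  have h0 := hc.l0
  have h1 := hc.l1
  have hZ1 : 1 ≤ Z := by linarith
  have hZ0 : 0 < Z := by linarith
  set δ := (Z ^ 15)⁻¹ with hδ
  have hδ0 : 0 < δ := by positivity
  have hδ1 : δ ≤ 1 := inv_le_one_of_one_le₀ (one_le_pow₀ hZ1)
  have hs0 : (0 : ℝ) ≤ s := by positivity
  have hj1 : (1 : ℝ) ≤ j := le_trans (one_le_mul_of_one_le_of_one_le (by linarith)
    (one_le_pow₀ hZ1)) hsj
  have hm1 : 1 ≤ m := le_trans (by exact_mod_cast hj1) hjm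
  have hm0 : (0 : ℝ) < m := by exact_mod_cast hm1
  have hδj : Cp * (s + 1) ≤ δ ^ 4 * j := by
    rw [hδ, inv_pow, ← pow_mul, le_inv_mul_iff₀ (by positivity)]
    refine le_trans ?_ hsj
    calc _ = (s + 1) * (Z ^ 60 * Cp) := by ring
      _ ≤ (s + 1) * (Z ^ 60 * Z) := by gcongr; linarith
      _ = _ := by ring
  choose! e he using fun r (hr : j ≤ r) => hpt δ r s hδ0 hδ1 hse
    (hδj.trans (by gcongr))
  have hcore := gb2a_core hd1 hm hχ hχt h0 h1 (C := ENNReal.ofReal Cp)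
    (ε := ENNReal.ofReal (Cp ^ 3 * δ)) (ENNReal.one_le_ofReal.2 hCp)
    (gb2a_step (s := s) hd1 (measurableSet_lev 2) hm hχ hχt hp1 hp2.le h0' h1' hjm (e := e)
      fun r hr => ⟨?_, fun A μ a z => (he r hr).2.2 _ A μ a z hc.p1 hp2.le⟩)
  swap
  · refine (mul_le_mul_right (ENNReal.rpow_le_rpow (he r hr).2.1 (by linarith)) _).trans ?_
    rw [ENNReal.ofReal_rpow_of_pos (by positivity), ← ENNReal.ofReal_mul (by linarith),
      Real.mul_rpow (by linarith) hδ0.le]
    refine ENNReal.ofReal_le_ofReal ?_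
    have a1 : Cp ^ q0 d ≤ Cp ^ 2 := by
      rw [← Real.rpow_two]; exact Real.rpow_le_rpow_of_exponent_le hCp hp2.le
    have a2 : δ ^ q0 d ≤ δ := by
      simpa using Real.rpow_le_rpow_of_exponent_ge hδ0 hδ1 hp1.le
    calc _ ≤ Cp * (Cp ^ 2 * δ) := by gcongr
      _ = _ := by ring
  obtain ⟨k1, -, k2⟩ := Kr_add_Ar hd1 hm hp1.le h0' h1' hO j
  have hA0 : 0 ≤ Ar d ρ (q0 d) l' j := ENNReal.toReal_nonneg
  have hK0 : 0 ≤ Kr d ρ (q0 d) l' := Kr_nonneg
  have k3 : KK d ρ (q0 d) l' * OO d ρ (q0 d) l' ≤ 1 := ENNReal.inv_mul_le_one _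
  have k4 : Occ ρ l (lev d 2) (fun g => nq (q0 d) (avg g)) (phi d m) ≤
      ENNReal.ofReal (Z ^ 4 / l) * ENNReal.ofReal (Ch * (m : ℝ)⁻¹) := by
    have mN : Measurable fun g : Prof d => nq (q0 d) (avg g) := (measurable_nq _).comp measurable_avg
    refine (ENNReal.tsum_le_tsum fun i => mul_le_mul_right
      (gb2a_Tk_le (measurableSet_lev 2) mN i _) _).trans
      ((hoc ρ _ l Z hc (by linarith) hs _).trans (mul_le_mul_right ?_ _))
    have := hnq m (q0 d) hm1 hp1.le hp2.le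
    rwa [show -(d * (q0 d - 1) / 2) = -1 by unfold q0; field_simp; ring, Real.rpow_neg_one] at this
  have k5 : ∀ c : ℝ, 0 ≤ c → c * B * Cp ≤ C →
      ENNReal.ofReal c * χ * ENNReal.ofReal Cp ≤ ENNReal.ofReal C := fun c hc0 hcC => by
    refine le_trans ?_ (ENNReal.ofReal_le_ofReal hcC)
    rw [ENNReal.ofReal_mul (by positivity), ENNReal.ofReal_mul hc0]
    gcongr
  have k6 := k5 516 (by norm_num) (by linarith)
  have k7 := k5 1024 (by norm_num) (by linarith)
  rw [ENNReal.ofReal_ofNat] at k6 k7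
  have k8 : ENNReal.ofReal (l * j) + ENNReal.ofReal (Cp ^ 3 * δ) ≤
      ENNReal.ofReal ((1 + Cp ^ 3) * δ) := by
    rw [← ENNReal.ofReal_add (by positivity) (by positivity)]
    refine ENNReal.ofReal_le_ofReal ?_
    have : l * j ≤ δ := by
      rw [hδ, le_inv_comm₀ (by positivity) (by positivity), ← one_div, le_div_iff₀' (by positivity)]
      exact le_trans (by gcongr; norm_num) hlj
    linarith
  refine (mul_le_mul_right hcore _).trans ?_
  rw [mul_add, mul_add, mul_add]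
  refine add_le_add (add_le_add (add_le_add le_rfl ?_) ?_) ?_
  · rw [← mul_assoc, mul_left_comm, k1, ENNReal.ofReal_mul (by linarith)]
    gcongr
  · rw [← mul_assoc, mul_left_comm, k2, ENNReal.ofReal_mul (by linarith)]
    gcongr
  · rw [← mul_assoc, mul_left_comm, ← mul_assoc (KK d ρ (q0 d) l')]
    calc _ ≤ 512 * ENNReal.ofReal B * (1 * ENNReal.ofReal ((1 + Cp ^ 3) * δ)) *
          (ENNReal.ofReal (Z ^ 4 / l) * ENNReal.ofReal (Ch * (m : ℝ)⁻¹)) := by gcongr
      _ = ENNReal.ofReal (512 * B * (1 + Cp ^ 3) * Ch * (δ * Z ^ 4 / (l * m))) := by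
        rw [one_mul, ← ENNReal.ofReal_ofNat, ← ENNReal.ofReal_mul (by positivity),
          ← ENNReal.ofReal_mul (by positivity), ← ENNReal.ofReal_mul (by positivity),
          ← ENNReal.ofReal_mul (by positivity)]
        congr 1
        field_simp
      _ ≤ ENNReal.ofReal (Z * (δ * Z ^ 4 / (l * m))) := by gcongr; nlinarith
      _ = _ := by
        congr 1
        rw [hδ]
        field_simp

end Pool.Agent.Lib.MP_153faa_pr
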