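import Mathlib
import Pool.Agent.Lib.MP_153faa_pr.GLoc4
import Pool.Agent.Lib.MP_153faa_pr.GOne3

/-!
The local quadratic form: time reversal and the deterministic estimate.
-/

set_option autoImplicit false

open MeasureTheory Filter Topology
open scoped ENNReal NNReal

namespace Pool.Agent.Lib.MP_153faa_pr

variable {d : ℕ}

/-- The function `vf` cut off at background two. -/
noncomputable def gb2bV (p : ℝ) (a u : ℝ≥0∞) : ℝ≥0∞ := if a ≤ 2 then vf p a u else 0

theorem gb2b_meas (p : ℝ) : Measurable (Function.uncurry (gb2bV p)) :=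
  Measurable.ite (measurableSet_le measurable_fst measurable_const) (measurable_vf p)
    measurable_const

theorem gb2bV_le (p : ℝ) (a u : ℝ≥0∞) : gb2bV p a u ≤ vf p a u := by
  unfold gb2bV
  split_ifs
  · exact le_rfl
  · exact zero_le

theorem gb2b_exp {p q : ℝ} (hqp : q ≤ p) (hp2 : p < 2) (h : p - q ≤ 1) {a : ℝ≥0∞} (ha : a ≤ 2)
    (u : ℝ≥0∞) : vf p a u ≤ 2 * vf q a u := by
  unfold vf
  rcases eq_or_ne a 0 with rfl | h0
  · rw [ENNReal.zero_rpow_of_neg (by linarith), ENNReal.zero_rpow_of_neg (by linarith)]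
    exact le_mul_of_one_le_left zero_le one_le_two
  have ht : a ≠ ⊤ := ne_top_of_le_ne_top ENNReal.ofNat_ne_top ha
  have e : a ^ (p - 2) = a ^ (p - q) * a ^ (q - 2) := by
    rw [← ENNReal.rpow_add _ _ h0 ht]; congr 1; ring
  rw [e, mul_left_comm]
  refine mul_le_mul_left ?_ _
  calc a ^ (p - q) ≤ 2 ^ (p - q) := ENNReal.rpow_le_rpow ha (by linarith)
    _ ≤ 2 ^ (1 : ℝ) := ENNReal.rpow_le_rpow_of_exponent_le one_le_two h
    _ = 2 := ENNReal.rpow_one _

theorem gb2b_scale {q : ℝ} (hq : 1 ≤ q) (hq2 : q ≤ 2) {a L u A W : ℝ≥0∞} (hat : a ≠ ⊤)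
    (hu : u ≤ 2 * a * W) (hL : a * A ≤ 4 * L) : vf q L u ≤ 16 * a ^ q * vf q A W := by
  rcases eq_or_ne a 0 with rfl | h0
  · have : u = 0 := by simpa using hu
    simp [this, vf]
  have h4 : (4 : ℝ≥0∞)⁻¹ ≠ 0 := by simp
  have h4t : (4 : ℝ≥0∞)⁻¹ ≠ ⊤ := by simp
  have e1 : a * (4⁻¹ * A) ≤ L := by
    calc a * (4⁻¹ * A) = 4⁻¹ * (a * A) := by ring
      _ ≤ 4⁻¹ * (4 * L) := by gcongr
      _ = L := by rw [← mul_assoc, ENNReal.inv_mul_cancel (by simp) (by simp), one_mul]
  have e2 : (4 : ℝ≥0∞)⁻¹ ^ (q - 2) ≤ 4 := by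
    rw [ENNReal.inv_rpow, ← ENNReal.rpow_neg]
    calc (4 : ℝ≥0∞) ^ (-(q - 2)) ≤ 4 ^ (1 : ℝ) :=
          ENNReal.rpow_le_rpow_of_exponent_le (by norm_num) (by linarith)
      _ = 4 := ENNReal.rpow_one _
  calc vf q L u ≤ vf q (a * (4⁻¹ * A)) (a * (2 * W)) :=
        vf_mono hq2 e1 (hu.trans_eq (by ring))
    _ = a ^ q * (2 ^ 2 * 4⁻¹ ^ (q - 2) * vf q A W) := by
        rw [vf_mul h0 hat, vf_mul h4 h4t, gone3_sq_mul q h0 hat]
    _ ≤ a ^ q * (2 ^ 2 * 4 * vf q A W) := by gcongr
    _ = _ := by ring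

theorem gb2b_pt {p q : ℝ} (hq : 1 ≤ q) (hqp : q ≤ p) (hp2 : p < 2)
    {L ui uo a W A c δ : ℝ≥0∞} (hc : 1 ≤ c) (hat : a ≠ ⊤) (hu : ui + uo ≤ c * L)
    (hB : a < 2 * δ → ui ≤ 3 * δ * W) (hA : 2 * δ ≤ a → ui ≤ 2 * a * W ∧ a * A ≤ 4 * L) :
    gb2bV p L (ui + uo) ≤ 64 * a ^ q * vf q A W + 2 * c * ((3 * δ * W) ^ (p - 1) * (ui + uo)) +
      2 * c * uo ^ p := by
  unfold gb2bV
  split_ifs with hL
  swap
  · exact zero_le
  have hp : 1 ≤ p := hq.trans hqp
  refine (vf_add _ _ _).trans (add_le_add ?_ ?_)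
  · rcases lt_or_ge a (2 * δ) with h | h
    · refine le_add_left ?_
      rw [mul_assoc]
      refine mul_le_mul_right ((vf_le' hp hp2.le hc (le_self_add.trans hu)).trans
        (mul_le_mul_right ?_ _)) _
      rw [← gone3_mul_pred hp ui, mul_comm]
      exact mul_le_mul' (ENNReal.rpow_le_rpow (hB h) (by linarith)) le_self_add
    · refine le_add_right ?_
      calc 2 * vf p L ui ≤ 2 * (2 * vf q L ui) :=
            mul_le_mul_right (gb2b_exp hqp hp2 (by linarith) hL ui) _
        _ ≤ 2 * (2 * (16 * a ^ q * vf q A W)) := by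
            gcongr
            exact gb2b_scale hq (by linarith) hat (hA h).1 (hA h).2
        _ = _ := by ring
  · rw [mul_assoc]
    exact mul_le_mul_right (vf_le' hp hp2.le hc (le_add_self.trans hu)) _

theorem gb2b_sum {φ : Prof d} (hφ : mass φ = 1) (g : Prof d) :
    ∑' z, ∑' v, g v * φ (v + z) = mass g := by
  rw [ENNReal.tsum_comm]
  refine tsum_congr fun v => ?_
  rw [ENNReal.tsum_mul_left]
  simp only [add_comm v]
  rw [tsum_shift φ v]
  exact (congrArg (g v * ·) hφ).trans (mul_one _)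

theorem gb2b_split (B : Finset (Site d)) (g h : Prof d) :
    ∑' v, g v * h v = ∑' v, (if v ∈ B then 1 else 0) * g v * h v +
      ∑' v, (if v ∈ B then 0 else 1) * g v * h v := by
  rw [← ENNReal.tsum_add]
  exact tsum_congr fun v => by split_ifs <;> simp

/-- The deterministic estimate. -/
theorem gb2b_det {p q : ℝ} (hq : 1 ≤ q) (hqp : q ≤ p) (hp2 : p < 2) {φ w G : Prof d}
    {c δ : ℝ≥0∞} (B : Finset (Site d)) (hc : 1 ≤ c) (hφ : mass φ = 1)
    (hreg : ∀ z v v', v ∈ B → v' ∈ B → par v = par v' → φ (v + z) ≤ φ (v' + z) + δ)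
    (hw : ∀ v, w v ≤ c * G v) {b : ZMod 2} (hb : ∀ v, G v ≠ 0 → par v = b) :
    ∑' z, gb2bV p (∑' v, G v * φ (v + z)) (∑' v, w v * φ (v + z)) ≤
      64 * nq q φ * vf q (mass G) (mass w) + 2 * c * (3 * δ) ^ (p - 1) * mass w ^ p +
        2 * c * (2 * c) ^ p * (∑' v, (if v ∈ B then 0 else 1) * G v) ^ p := by
  have hp : 1 ≤ p := hq.trans hqp
  have hp0 : 0 ≤ p := by linarith
  set Go := ∑' v, (if v ∈ B then 0 else 1) * G v with hGo
  set Gi := ∑' v, (if v ∈ B then 1 else 0) * G v with hGi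
  have hG : mass G = Gi + Go := by simpa [mass, hGi, hGo] using gb2b_split B G fun _ => 1
  have hu : ∀ z, ∑' v, w v * φ (v + z) ≤ c * ∑' v, G v * φ (v + z) := fun z => by
    rw [← ENNReal.tsum_mul_left]
    exact ENNReal.tsum_le_tsum fun v => by rw [← mul_assoc]; exact mul_le_mul_left (hw v) _
  have hW : mass w ≤ c * mass G := by
    rw [← mass_smul]; exact mass_mono hw
  rcases le_or_gt Gi Go with h | h
  · refine le_add_left ?_
    calc ∑' z, gb2bV p (∑' v, G v * φ (v + z)) (∑' v, w v * φ (v + z))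
        ≤ ∑' z, c * (∑' v, w v * φ (v + z)) ^ p :=
          ENNReal.tsum_le_tsum fun z => (gb2bV_le _ _ _).trans (vf_le' hp hp2.le hc (hu z))
      _ ≤ c * mass w ^ p := by
          rw [ENNReal.tsum_mul_left, ← gb2b_sum hφ w]
          exact mul_le_mul_right (tsum_rpow_ge hp _) _
      _ ≤ (2 * c) * (2 * c * Go) ^ p := by
          refine mul_le_mul' (le_mul_of_one_le_left zero_le one_le_two)
            (ENNReal.rpow_le_rpow (hW.trans ?_) hp0)
          rw [hG, mul_comm 2 c, mul_assoc, two_mul]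
          gcongr
      _ = _ := by rw [ENNReal.mul_rpow_of_nonneg _ _ hp0, mul_assoc (2 * c)]
  obtain ⟨e, he⟩ : ∃ e, (if e ∈ B then 1 else 0) * G e ≠ 0 := by
    by_contra hn
    push Not at hn
    rw [hGi, ENNReal.tsum_eq_zero.2 hn] at h
    exact not_lt_zero h
  have heB : e ∈ B := by
    by_contra hn
    simp [hn] at he
  have heG : par e = b := hb e (right_ne_zero_of_mul he)
  have hφt : ∀ y, φ y ≠ ⊤ := fun y => ne_top_of_le_ne_top (by simp [hφ]) (le_mass φ y)
  have hwb : ∀ v, w v ≠ 0 → par v = b := fun v hv => hb v fun h0 => hv (by simpa [h0] using hw v)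
  have hin : ∀ (z : Site d) (t : ℝ≥0∞), φ (e + z) + δ ≤ t →
      ∑' v, (if v ∈ B then 1 else 0) * w v * φ (v + z) ≤ t * mass w := fun z t ht => by
    rw [← mass_smul]
    refine ENNReal.tsum_le_tsum fun v => ?_
    by_cases hv : v ∈ B
    · by_cases h0 : w v = 0
      · simp [h0]
      · rw [if_pos hv, one_mul, mul_comm]
        exact mul_le_mul_left ((hreg z v e hv heB ((hwb v h0).trans heG.symm)).trans ht) _
    · simp [hv]
  have key : ∀ z, gb2bV p (∑' v, G v * φ (v + z)) (∑' v, w v * φ (v + z)) ≤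
      64 * φ (e + z) ^ q * vf q (mass G) (mass w) +
        2 * c * ((3 * δ * mass w) ^ (p - 1) * ∑' v, w v * φ (v + z)) +
        2 * c * (∑' v, (if v ∈ B then 0 else 1) * w v * φ (v + z)) ^ p := fun z => by
    have h1 := hu z
    rw [gb2b_split B w] at h1 ⊢
    refine gb2b_pt hq hqp hp2 hc (hφt _) h1 (fun ha => hin z _ ?_) fun ha => ⟨hin z _ ?_, ?_⟩
    · calc φ (e + z) + δ ≤ 2 * δ + δ := by gcongr
        _ = 3 * δ := by ring
    · rw [two_mul]
      exact add_le_add_right ((le_mul_of_one_le_left zero_le one_le_two).trans ha) _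
    · calc φ (e + z) * mass G ≤ φ (e + z) * (2 * Gi) := by
            rw [hG, two_mul]; gcongr
        _ = 2 * ∑' v, (if v ∈ B then 1 else 0) * G v * φ (e + z) := by
            rw [ENNReal.tsum_mul_right]; ring
        _ ≤ 2 * ∑' v, 2 * (G v * φ (v + z)) := by
            refine mul_le_mul_right (ENNReal.tsum_le_tsum fun v => ?_) _
            by_cases hv : v ∈ B
            · by_cases h0 : G v = 0
              · simp [h0]
              · rw [if_pos hv, one_mul, mul_left_comm]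
                refine mul_le_mul_right ?_ _
                have h2 := hreg z e v heB hv (heG.trans (hb v h0).symm)
                refine ENNReal.le_of_add_le_add_right (hφt (e + z)) ?_
                calc φ (e + z) + φ (e + z) ≤ (φ (v + z) + δ) + (φ (v + z) + δ) := add_le_add h2 h2
                  _ = 2 * φ (v + z) + 2 * δ := by ring
                  _ ≤ _ := by gcongr
            · simp [hv]
        _ = _ := by rw [ENNReal.tsum_mul_left]; ring
  refine (ENNReal.tsum_le_tsum key).trans ?_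
  rw [ENNReal.tsum_add, ENNReal.tsum_add]
  refine add_le_add (add_le_add ?_ ?_) ?_
  · rw [ENNReal.tsum_mul_right, ENNReal.tsum_mul_left]
    simp only [add_comm e]
    rw [tsum_shift (fun y => φ y ^ q) e]
    exact le_rfl
  · rw [ENNReal.tsum_mul_left, ENNReal.tsum_mul_left, gb2b_sum hφ w,
      ENNReal.mul_rpow_of_nonneg _ _ (by linarith : 0 ≤ p - 1), ← gone3_mul_pred hp (mass w)]
    exact le_of_eq (by ring)
  · rw [ENNReal.tsum_mul_left, mul_assoc (2 * c), ← ENNReal.mul_rpow_of_nonneg _ _ hp0]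
    refine mul_le_mul_right ((tsum_rpow_ge hp _).trans (ENNReal.rpow_le_rpow ?_ hp0)) _
    rw [gb2b_sum hφ fun v => (if v ∈ B then 0 else 1) * w v]
    calc mass (fun v => (if v ∈ B then 0 else 1) * w v) ≤ c * Go := by
          rw [hGo, ← ENNReal.tsum_mul_left]
          exact ENNReal.tsum_le_tsum fun v => by
            rw [mul_left_comm]; exact mul_le_mul_right (hw v) _
      _ ≤ _ := mul_le_mul_left (le_mul_of_one_le_left zero_le one_le_two) _

theorem gb2b_dual (n : ℕ) (ω : ℕ → Layer d) (f g : Prof d) (z : Site d) :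
    ∑' x, avg (ev n ω f) x * sh z g x =
      ∑' v, avg (ev n (fun k x => (if k < n then ω (n - 1 - k) else ω k) (x + z)) g) v *
        f (v + z) := by
  rw [conv_dual n ω (fun k => if k < n then ω (n - 1 - k) else ω k) (fun k hk => if_pos hk),
    ev_sh, avg_sh, ← tsum_shift _ z]
  exact tsum_congr fun v => by simp [sh, mul_comm]

/-- Time reversal. -/
theorem gb2b_rev {ρ : Measure ℝ≥0} [IsProbabilityMeasure ρ] {H : ℝ≥0∞ → ℝ≥0∞ → ℝ≥0∞}
    (hH : Measurable (Function.uncurry H)) (n s : ℕ) (K f : Prof d) :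
    (T ρ)^[n] (fun g => ∑' z, H (lin (sh z K) (avg^[s + 1] g)) (avg g z)) f =
      ∫⁻ η, ∑' z, H (∑' v, avg (ev n η (avg^[s] K)) v * f (v + z))
        (∑' v, avg (ev n η (dlt 0)) v * f (v + z)) ∂env d ρ := by
  have m1 : ∀ z, Measurable fun g : Prof d => H (lin (sh z K) (avg^[s + 1] g)) (avg g z) :=
    fun z => hH.comp ((measurable_lin2.comp (measurable_const.prodMk
      (measurable_avg_iter (s + 1)))).prodMk ((measurable_pi_apply z).comp measurable_avg))
  have m0 : ∀ (z : Site d) (g : Prof d),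
      Measurable fun η : ℕ → Layer d => ∑' v, avg (ev n η g) v * f (v + z) := fun z g =>
    Measurable.tsum fun v => ((measurable_pi_apply v).comp
      (measurable_avg.comp (measurable_ev n g))).mul_const _
  have m2 : ∀ z, Measurable fun η : ℕ → Layer d => H (∑' v, avg (ev n η (avg^[s] K)) v * f (v + z))
      (∑' v, avg (ev n η (dlt 0)) v * f (v + z)) := fun z => hH.comp ((m0 z _).prodMk (m0 z _))
  rw [T_iter_tsum m1, lintegral_tsum fun z => (m2 z).aemeasurable]
  refine tsum_congr fun z => ?_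
  have ms : Measurable fun (ω : ℕ → Layer d) (k : ℕ) (x : Site d) => ω k (x + z) := by fun_prop
  rw [T_iter_eq n (m1 z), ← conv_env_sh (m2 z) z]
  refine Eq.trans ?_ (lintegral_env_rev ((m2 z).comp ms) n)
  refine lintegral_congr fun ω => ?_
  simp only [Function.comp]
  rw [← gb2b_dual, ← gb2b_dual, Function.iterate_succ_apply, lin_avg_iter, avg_iter_sh, sh_dlt]
  congr 1
  simp [dlt]

end Pool.Agent.Lib.MP_153faa_pr
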