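import Mathlib
import Pool.Agent.Lib.MP_153faa_pr.GB2b1

/-!
The local quadratic form: probabilistic and numerical estimates.
-/

set_option autoImplicit false

open MeasureTheory Filter Topology
open scoped ENNReal NNReal

namespace Pool.Agent.Lib.MP_153faa_pr

variable {d : ℕ}

theorem gb2b_num0 {C Z D : ℝ} (hC : 1 ≤ C) (hZ : 1 ≤ Z) (hD : 1 ≤ D) :
    C * Z ^ 2 * (min 1 (D * Real.exp (-(Z ^ 4 / 4))) ^ (1 / (C * Z ^ 2)) + Real.exp (-(Z / 10))) ≤
      C * (800 * (D * Real.exp (C / 100) + 1)) * Real.exp (-(Z / 20)) := by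
  have hC0 : 0 < C := by linarith
  have hZ0 : 0 < Z := by linarith
  have hZ2 : 1 ≤ Z ^ 2 := one_le_pow₀ hZ
  set E := D * Real.exp (-(Z ^ 4 / 4)) with hE
  have hE0 : 0 < E := by positivity
  have a0 : 1 / (C * Z ^ 2) ≤ 1 := by
    rw [div_le_one (by positivity)]; exact one_le_mul_of_one_le_of_one_le hC hZ2
  have a1 : min 1 E ^ (1 / (C * Z ^ 2)) ≤ D * Real.exp (C / 100) * Real.exp (-(Z / 10)) := by
    calc min 1 E ^ (1 / (C * Z ^ 2)) ≤ E ^ (1 / (C * Z ^ 2)) :=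
          Real.rpow_le_rpow (le_min zero_le_one hE0.le) (min_le_right _ _) (by positivity)
      _ = D ^ (1 / (C * Z ^ 2)) * Real.exp (-(Z ^ 4 / 4) * (1 / (C * Z ^ 2))) := by
          rw [hE, Real.mul_rpow (by positivity) (by positivity), Real.exp_mul]
      _ ≤ D ^ (1 : ℝ) * Real.exp (C / 100 + -(Z / 10)) := by
          refine mul_le_mul (Real.rpow_le_rpow_of_exponent_le hD a0)
            (Real.exp_le_exp.2 ?_) (by positivity) (by positivity)
          have b1 : -(Z ^ 4 / 4) * (1 / (C * Z ^ 2)) = -(Z ^ 2 / (4 * C)) := by field_simp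
          have b2 : Z / 10 - C / 100 ≤ Z ^ 2 / (4 * C) := by
            rw [le_div_iff₀ (by positivity)]
            nlinarith [sq_nonneg (Z - C / 5)]
          rw [b1]; linarith
      _ = _ := by rw [Real.rpow_one, Real.exp_add]; ring
  have a2 : Z ^ 2 * Real.exp (-(Z / 10)) ≤ 800 * Real.exp (-(Z / 20)) := by
    have b1 := Real.quadratic_le_exp_of_nonneg (show 0 ≤ Z / 20 by positivity)
    have b2 : Real.exp (Z / 20) * Real.exp (-(Z / 10)) = Real.exp (-(Z / 20)) := by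
      rw [← Real.exp_add]; ring_nf
    have b3 : Z ^ 2 ≤ 800 * Real.exp (Z / 20) := by nlinarith
    calc Z ^ 2 * Real.exp (-(Z / 10)) ≤ 800 * Real.exp (Z / 20) * Real.exp (-(Z / 10)) := by gcongr
      _ = _ := by rw [mul_assoc, b2]
  calc C * Z ^ 2 * (min 1 E ^ (1 / (C * Z ^ 2)) + Real.exp (-(Z / 10)))
      ≤ C * Z ^ 2 * (D * Real.exp (C / 100) * Real.exp (-(Z / 10)) + Real.exp (-(Z / 10))) := by
        gcongr
    _ = C * (D * Real.exp (C / 100) + 1) * (Z ^ 2 * Real.exp (-(Z / 10))) := by ring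
    _ ≤ C * (D * Real.exp (C / 100) + 1) * (800 * Real.exp (-(Z / 20))) := by gcongr
    _ = _ := by ring

/-- Confinement of the smoothed cube. -/
theorem gb2b_out (hd : 3 ≤ d) {κ M : ℝ} (hκ : 0 < κ) : ∃ C : ℝ, 1 ≤ C ∧
    ∀ (ρ : Measure ℝ≥0) [IsProbabilityMeasure ρ] (p l : ℝ), Ctx d κ M ρ p l → l ≤ C⁻¹ →
      ∀ Z : ℝ, 1 ≤ Z → OO d ρ p l ≤ ENNReal.ofReal Z → ∀ (s r R : ℕ), l * s ≤ 1 →
        2 * Z ^ 3 / √l ≤ R →
        ∑' n, wt l n * ∫⁻ ω, (∑' v, (if v ∈ box d (r + R) then 0 else 1) *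
            avg (ev n ω (avg^[s] (cube d r))) v) ^ p ∂env d ρ ≤
          ENNReal.ofReal (C * Real.exp (-(Z / 20))) * mass (cube d r) ^ p := by
  obtain ⟨C, hC, H⟩ := interp hd (M := M) hκ
  have hdR : (3 : ℝ) ≤ d := by exact_mod_cast hd
  have hD1 : 1 ≤ 2 * d * Real.exp (C / 100) + 1 := le_add_of_nonneg_left (by positivity)
  have hCD : C ≤ C * (800 * (2 * d * Real.exp (C / 100) + 1)) :=
    le_mul_of_one_le_right (by linarith) (by linarith)
  refine ⟨_, hC.trans hCD, ?_⟩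
  intro ρ _ p l hc hl Z hZ hO s r R hs hR
  have hd1 : 1 ≤ d := by omega
  have hm : Mean1 ρ := hc.good.1
  have h0 := hc.l0
  have h1 := hc.l1
  have hZ0 : 0 < Z := by linarith
  have hZ2 : 1 ≤ Z ^ 2 := one_le_pow₀ hZ
  have hsl : 0 < √l := Real.sqrt_pos.2 h0
  set I : Prof d := fun v => if v ∈ box d (r + R) then 0 else 1 with hI
  have e0 : ∀ g : Prof d, ∑' v, I v * avg g v = ∑' v, avg I v * g v := fun g =>
    (tsum_avg_mul I g).symm
  have eI : ∀ g : Prof d, ∑' v, I v * g v ≤ mass g := fun g =>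
    ENNReal.tsum_le_tsum fun x => by simp only [hI]; split_ifs <;> simp
  have mc : Measurable fun g : Prof d => ∑' x, avg I x * g x :=
    Measurable.tsum fun x => (measurable_pi_apply x).const_mul _
  have hZl : 1 ≤ Z ^ 2 / l := by rw [le_div_iff₀ h0]; linarith
  set N := ⌈Z ^ 2 / l⌉₊ with hN
  have hN1 : Z ^ 2 / l ≤ N := Nat.le_ceil _
  have hN2 : (N : ℝ) ≤ 2 * (Z ^ 2 / l) := by
    have := Nat.ceil_lt_add_one (show 0 ≤ Z ^ 2 / l by positivity)
    linarith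
  have hs2 : (s : ℝ) ≤ Z ^ 2 / l := by rw [le_div_iff₀ h0]; linarith
  have hN0 : (0 : ℝ) < N := by linarith
  have hN0' : 0 < N := by exact_mod_cast hN0
  set E : ℝ := 2 * d * Real.exp (-(Z ^ 4 / 4)) with hE
  have hE0 : 0 < E := by positivity
  have key := H ρ p l hc (hl.trans (inv_anti₀ (by linarith) hCD)) Z hZ hO (avg^[s] (cube d r))
    (fun n ω => ∑' x, avg I x * ev n ω (avg^[s] (cube d r)) x) (min 1 E) N
    ((nice_cube r).of_avg_iter hd1 s) (fun n => mc.comp (measurable_ev n _))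
    (fun n ω => by rw [← e0, ← mass_avg hd1]; exact eI _)
    (lt_min one_pos hE0) (min_le_left _ _) hN1 (fun n hn => by
      rw [← T_iter_eq n mc, T_iter_lin hm, ← e0, ← Function.iterate_succ_apply' avg,
        ← Function.iterate_add_apply, mass_avg_iter hd1]
      rcases le_total 1 E with h | h
      · rw [min_eq_left h, ENNReal.ofReal_one, one_mul, ← mass_avg_iter hd1 (n.succ + s)]
        exact eI _
      · rw [min_eq_right h]
        refine (gloc4_out hd1 (r := r) (R' := R) (L := N + s) (fun x hx => ?_) (by omega)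
          (by omega)).trans (mul_le_mul_left (ENNReal.ofReal_le_ofReal ?_) _)
        · by_contra hb
          simp [cube, hb] at hx
        refine mul_le_mul_of_nonneg_left (Real.exp_le_exp.2 ?_) (by positivity)
        push_cast
        rw [neg_div, neg_le_neg_iff, le_div_iff₀ (by positivity)]
        have a1 : (2 * Z ^ 3 / √l) ^ 2 ≤ (R : ℝ) ^ 2 := pow_le_pow_left₀ (by positivity) hR 2
        rw [div_pow, Real.sq_sqrt h0.le] at a1
        calc Z ^ 4 / 4 * (2 * (N + s)) ≤ Z ^ 4 / 4 * (2 * (8 * (Z ^ 2 / l))) := by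
              gcongr; linarith
          _ = (2 * Z ^ 3) ^ 2 / l := by ring
          _ ≤ _ := a1)
  simp only [mq, mass_avg_iter hd1, ← e0] at key
  exact key.trans (mul_le_mul_left (ENNReal.ofReal_le_ofReal
    (gb2b_num0 hC hZ (by linarith))) _)

theorem gb2b_num1 {C Z l m R : ℝ} {k : ℕ} (hC : 1 ≤ C) (hZ : 8 * C ≤ Z) (h0 : 0 < l)
    (hm : Z ^ (2 * (k + 4)) / l ≤ m) (hR : R ≤ 4 * Z ^ 3 / √l) :
    C * (2 * R / √m) ≤ (Z ^ k)⁻¹ := by
  have hZ0 : 0 < Z := by linarith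
  have hsl : 0 < √l := Real.sqrt_pos.2 h0
  have a1 : Z ^ (k + 4) / √l ≤ √m := by
    refine Real.le_sqrt_of_sq_le ?_
    rwa [div_pow, Real.sq_sqrt h0.le, ← pow_mul, mul_comm]
  calc C * (2 * R / √m) ≤ (Z / 8) * (2 * (4 * Z ^ 3 / √l) / (Z ^ (k + 4) / √l)) := by
        rcases le_or_gt R 0 with h | h
        · exact le_trans (mul_nonpos_of_nonneg_of_nonpos (by linarith)
            (div_nonpos_of_nonpos_of_nonneg (by linarith) (Real.sqrt_nonneg _))) (by positivity)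
        · gcongr
          linarith
    _ = _ := by field_simp; ring

theorem gb2b_num2 (hd : 3 ≤ d) {Z m : ℝ} (hZ : 0 < Z) (hm : 0 < m) :
    (3 * ((Z ^ (7 * d))⁻¹ * m ^ (-(d : ℝ) / 2))) ^ (q0 d - 1) ≤ 3 * ((Z ^ 14)⁻¹ * m⁻¹) := by
  have hdR : (3 : ℝ) ≤ d := by exact_mod_cast hd
  have e : q0 d - 1 = 2 / d := by simp [q0]
  rw [e, Real.mul_rpow (by norm_num) (by positivity), Real.mul_rpow (by positivity) (by positivity),
    Real.inv_rpow (by positivity), ← Real.rpow_natCast, ← Real.rpow_mul hZ.le,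
    ← Real.rpow_mul hm.le, show ((7 * d : ℕ) : ℝ) * (2 / d) = (14 : ℕ) by push_cast; field_simp; ring,
    show -(d : ℝ) / 2 * (2 / d) = -1 by field_simp, Real.rpow_neg_one, Real.rpow_natCast]
  refine mul_le_mul_of_nonneg_right ?_ (by positivity)
  calc (3 : ℝ) ^ (2 / (d : ℝ)) ≤ 3 ^ (1 : ℝ) := Real.rpow_le_rpow_of_exponent_le (by norm_num)
        (by rw [div_le_one (by linarith)]; linarith)
    _ = 3 := Real.rpow_one _

theorem gb2b_num3 {A Z l m : ℝ} (hA : 0 ≤ A) (h0 : 0 < l) (h1 : l < 1) (hm0 : 0 < m)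
    (hZ : (20 * (d + 22 + 2 * A * 9 ^ d)) ^ 2 ≤ Z) (hl : Real.log l ^ 2 ≤ Z)
    (hm : l * m ≤ l ^ (-(1 / 16) : ℝ)) :
    A * Real.exp (-(Z / 20)) * (9 / l) ^ d ≤ (Z ^ 10)⁻¹ / (2 * m) := by
  set B : ℝ := 2 * A * 9 ^ d with hB
  have hB0 : 0 ≤ B := by positivity
  have hd0 : (0 : ℝ) ≤ d := Nat.cast_nonneg d
  have hZ0 : 0 < Z := lt_of_lt_of_le (by positivity) hZ
  set t := √Z with ht
  have t1 : 20 * (d + 22 + B) ≤ t := Real.le_sqrt_of_sq_le hZ
  have t2 : t ^ 2 = Z := Real.sq_sqrt hZ0.le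
  have t0 : 1 ≤ t := by linarith
  have l1 : l⁻¹ ≤ Real.exp t := by
    rw [← Real.exp_log (inv_pos.2 h0), Real.log_inv]
    exact Real.exp_le_exp.2 (Real.le_sqrt_of_sq_le (by rwa [neg_sq]))
  have m1 : m ≤ Real.exp t ^ 2 := by
    have b1 : l ^ (-(1 / 16) : ℝ) ≤ l ^ (-1 : ℝ) :=
      Real.rpow_le_rpow_of_exponent_ge h0 h1.le (by norm_num)
    rw [Real.rpow_neg_one] at b1
    calc m = l⁻¹ * (l * m) := by field_simp
      _ ≤ l⁻¹ * l⁻¹ := by gcongr; linarith
      _ ≤ Real.exp t * Real.exp t := by gcongr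
      _ = _ := by ring
  have z1 : Z ^ 10 ≤ Real.exp t ^ 20 := by
    rw [← t2, ← pow_mul]
    exact pow_le_pow_left₀ (by linarith) (by linarith [Real.add_one_le_exp t]) _
  rw [le_div_iff₀ (by positivity), inv_eq_one_div, le_div_iff₀ (by positivity)]
  calc A * Real.exp (-(Z / 20)) * (9 / l) ^ d * (2 * m) * Z ^ 10
      = B * Real.exp (-(Z / 20)) * l⁻¹ ^ d * m * Z ^ 10 := by
        rw [hB, div_eq_mul_inv 9, mul_pow]; ring
    _ ≤ Real.exp B * Real.exp (-(Z / 20)) * Real.exp t ^ d * Real.exp t ^ 2 *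
          Real.exp t ^ 20 := by
        gcongr
        linarith [Real.add_one_le_exp B]
    _ = Real.exp (B + -(Z / 20) + d * t + 2 * t + 20 * t) := by
        simp only [Real.exp_add, ← Real.exp_nat_mul]
        norm_num
    _ ≤ 1 := by
        refine Real.exp_le_one_iff.2 ?_
        nlinarith

theorem gb2b_cube {l : ℝ} (h0 : 0 < l) (h1 : l < 1) {s : ℕ} (hs : l * s ≤ 1) {p : ℝ}
    (hp : 0 ≤ p) (hp2 : p ≤ 2) :
    (s.sqrt : ℝ) ≤ 1 / √l ∧ mass (cube d s.sqrt) ^ p ≤ ENNReal.ofReal ((9 / l) ^ d) := by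
  have hsl : 0 < √l := Real.sqrt_pos.2 h0
  have hl1 : √l ≤ 1 := Real.sqrt_le_one.2 h1.le
  have a1 : (s.sqrt : ℝ) ≤ 1 / √l := by
    refine (Real.nat_sqrt_le_real_sqrt).trans ?_
    rw [le_div_iff₀ hsl, ← Real.sqrt_mul (Nat.cast_nonneg s)]
    exact Real.sqrt_le_one.2 (by linarith)
  refine ⟨a1, ?_⟩
  have a2 : 1 ≤ 1 / √l := by rw [le_div_iff₀ hsl]; linarith
  have a3 : mass (cube d s.sqrt) ≤ ENNReal.ofReal ((3 / √l) ^ d) := by
    calc mass (cube d s.sqrt) ≤ ∑ x ∈ box d s.sqrt, (1 : ℝ≥0∞) := by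
          rw [mass, tsum_eq_sum (s := box d s.sqrt) fun x hx => by simp [cube, hx]]
          exact Finset.sum_le_sum fun x _ => by unfold cube; split_ifs <;> simp
      _ = ENNReal.ofReal (((2 * s.sqrt + 1) ^ d : ℕ) : ℝ) := by
          rw [ENNReal.ofReal_natCast, Finset.sum_const, card_box]; simp
      _ ≤ _ := by
          refine ENNReal.ofReal_le_ofReal ?_
          push_cast
          refine pow_le_pow_left₀ (by positivity) ?_ _
          rw [show 3 / √l = 3 * (1 / √l) by ring]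
          linarith
  have a4 : 1 ≤ (3 / √l) ^ d := one_le_pow₀ (by rw [le_div_iff₀ hsl]; linarith)
  calc mass (cube d s.sqrt) ^ p ≤ ENNReal.ofReal ((3 / √l) ^ d) ^ p := ENNReal.rpow_le_rpow a3 hp
    _ ≤ ENNReal.ofReal ((3 / √l) ^ d) ^ (2 : ℝ) :=
        ENNReal.rpow_le_rpow_of_exponent_le (ENNReal.one_le_ofReal.2 a4) hp2
    _ = _ := by
        rw [ENNReal.rpow_two, ← ENNReal.ofReal_pow (by positivity), ← pow_mul, mul_comm, pow_mul,
          div_pow, Real.sq_sqrt h0.le]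
        norm_num

theorem gb2b_reg (hd : 1 ≤ d) : ∃ C : ℝ, 1 ≤ C ∧ ∀ (m R : ℕ) (δ : ℝ), 1 ≤ m →
    C * (2 * R / √m) ≤ δ → ∀ z v v' : Site d, v ∈ box d R → v' ∈ box d R → par v = par v' →
      phi d m (v + z) ≤ phi d m (v' + z) + ENNReal.ofReal (δ * (m : ℝ) ^ (-(d : ℝ) / 2)) := by
  obtain ⟨C, hC, H⟩ := hk_reg hd
  refine ⟨C, hC, fun m R δ hm hδ z v v' hv hv' hp => ?_⟩
  have hb : v - v' ∈ box d (2 * R) := heat_mem_box.2 fun i => by
    have h1 := heat_mem_box.1 hv i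
    have h2 := heat_mem_box.1 hv' i
    simp only [Pi.sub_apply]
    push_cast
    constructor <;> linarith [h1.1, h1.2, h2.1, h2.2]
  have h := H m 0 (2 * R) (v' + z) (v - v') hm hb (by rw [par_sub, hp, sub_self])
  rw [show v' + z + (v - v') = v + z by abel] at h
  simp only [mul_zero, add_zero, Nat.cast_zero, zero_div, zero_add] at h
  push_cast at h
  rw [← ofReal_ph hd, ← ofReal_ph hd]
  refine le_trans (ENNReal.ofReal_le_ofReal ?_) ENNReal.ofReal_add_le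
  have h3 := mul_le_mul_of_nonneg_right hδ (show 0 ≤ (m : ℝ) ^ (-(d : ℝ) / 2) by positivity)
  linarith [(abs_le.1 h).1]

theorem gb2b_occ (hd : 1 ≤ d) {ρ : Measure ℝ≥0} [IsProbabilityMeasure ρ] {l : ℝ} (h0 : 0 < l)
    (h1 : l < 1) (p : ℝ) (s : ℕ) {f : Prof d} (hf : Nice f) :
    Occ ρ l (lev d 2) (Vloc p s) f ≤ ENNReal.ofReal l⁻¹ * ∑' n, wt l n *
      ∫⁻ η, ∑' z, gb2bV p (∑' v, avg (ev n η (avg^[s] (cube d s.sqrt))) v * f (v + z))
        (∑' v, avg (ev n η (dlt 0)) v * f (v + z)) ∂env d ρ := by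
  rw [← ENNReal.tsum_mul_left]
  refine ENNReal.tsum_le_tsum fun n => ?_
  rw [← mul_assoc, ← gb2b_rev (gb2b_meas p)]
  have m1 : Measurable fun g : Prof d =>
      ∑' z, gb2bV p (lin (sh z (cube d s.sqrt)) (avg^[s + 1] g)) (avg g z) :=
    Measurable.tsum fun z => (gb2b_meas p).comp ((measurable_lin2.comp (measurable_const.prodMk
      (measurable_avg_iter (s + 1)))).prodMk ((measurable_pi_apply z).comp measurable_avg))
  refine mul_le_mul' ?_ ?_
  · rw [wt, ← ENNReal.ofReal_mul (by positivity), ← mul_assoc, inv_mul_cancel₀ h0.ne', one_mul]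
    exact ENNReal.ofReal_le_ofReal (pow_le_pow_of_le_one (by linarith) (by linarith) (by omega))
  · rw [← Tk_add_Th (measurableSet_lev 2) m1]
    refine le_add_right (Tk_mono hd (fun g _ hg => ?_) n hf)
    refine ENNReal.tsum_le_tsum fun z => le_of_eq (if_pos ?_).symm
    calc lin (sh z (cube d s.sqrt)) (avg^[s + 1] g) ≤ mass (avg^[s + 1] g) :=
          ENNReal.tsum_le_tsum fun x => by unfold sh cube; split_ifs <;> simp
      _ = mass g := mass_avg_iter hd _ _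
      _ ≤ 2 := by simpa using gloc1_off hg

theorem gb2b_main (hd : 3 ≤ d) {κ M : ℝ} (hκ : 0 < κ) : ∃ (a : ℕ) (C : ℝ), 1 ≤ C ∧
    ∀ (ρ : Measure ℝ≥0) [IsProbabilityMeasure ρ] (l Z x : ℝ) (m s : ℕ),
      Ctx d κ M ρ (q0 d) l → l ≤ C⁻¹ → C ≤ Z → Sc d ρ (q0 d) l Z → 0 ≤ x → x ≤ 1 / d →
      Z ^ a / l ≤ m → l * m ≤ l ^ (-(1 / 16) : ℝ) → Even s → l * s ≤ 1 →
        Occ ρ l (lev d 2) (Vloc (q0 d) s) (phi d m) ≤
          ENNReal.ofReal (C / l * (m : ℝ) ^ (-1 + d * x / 2)) * vv d ρ (q0 d - x) l s +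
            ENNReal.ofReal ((Z ^ 10)⁻¹ / (l * m)) := by
  have hd1 : 1 ≤ d := by omega
  have hdR : (3 : ℝ) ≤ d := by exact_mod_cast hd
  obtain ⟨c, hc, Hc⟩ := hk_cube hd1
  obtain ⟨C₁, hC₁, H₁⟩ := gb2b_reg hd1
  obtain ⟨C₂, hC₂, H₂⟩ := hk_nq hd1
  obtain ⟨C₃, hC₃, H₃⟩ := gb2b_out hd (M := M) hκ
  set D : ℝ := (20 * (d + 22 + 2 * ((2 * c) ^ 3 * C₃) * 9 ^ d)) ^ 2 with hD
  have hD0 : 0 ≤ D := by positivity
  refine ⟨2 * (7 * d + 4), 64 * C₂ + C₃ + 8 * C₁ + 12 * c + D, by linarith, ?_⟩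
  intro ρ _ l Z x m s hx hl hZ hS x0 x1 hm hlm hs hls
  obtain ⟨hp1, hp2⟩ := hx.one_lt hd
  have h0 := hx.l0
  have h1 := hx.l1
  have hZ1 : 1 ≤ Z := by linarith
  have hZ0 : 0 < Z := by linarith
  have hsl : 0 < √l := Real.sqrt_pos.2 h0
  have hsl1 : √l ≤ 1 := Real.sqrt_le_one.2 h1.le
  have hm1 : (1 : ℝ) ≤ m := le_trans (by
    rw [le_div_iff₀ h0]; linarith [one_le_pow₀ (n := 2 * (7 * d + 4)) hZ1]) hm
  have hm1' : 1 ≤ m := by exact_mod_cast hm1
  have hq : 1 ≤ q0 d - x := by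
    have : (0 : ℝ) ≤ 1 / d := by positivity
    rw [q0, show (2 : ℝ) / d = 1 / d + 1 / d by ring]; linarith
  obtain ⟨k1, k2⟩ := gb2b_cube (d := d) h0 h1 hls (by linarith : 0 ≤ q0 d) hp2.le
  set R := ⌈2 * Z ^ 3 / √l⌉₊ with hR
  have hZ3 : 1 ≤ Z ^ 3 := one_le_pow₀ hZ1
  have hR2 : ((s.sqrt + R : ℕ) : ℝ) ≤ 4 * Z ^ 3 / √l := by
    have a1 := Nat.ceil_lt_add_one (show 0 ≤ 2 * Z ^ 3 / √l by positivity)
    have a2 : 1 / √l ≤ Z ^ 3 / √l := by gcongr
    have a3 : 1 ≤ 1 / √l := by rw [le_div_iff₀ hsl]; linarith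
    push_cast
    rw [show 4 * Z ^ 3 / √l = 2 * Z ^ 3 / √l + Z ^ 3 / √l + Z ^ 3 / √l by ring]
    linarith
  have hreg := H₁ m (s.sqrt + R) _ hm1' (gb2b_num1 hC₁ (by linarith) h0 hm hR2)
  have hout := H₃ ρ _ l hx (hl.trans (inv_anti₀ (by linarith) (by linarith))) Z hZ1 hS.1 s s.sqrt R
    hls (Nat.le_ceil _)
  set ψ := avg^[s] (cube d s.sqrt) with hψ
  have hψn : Nice ψ := (nice_cube _).of_avg_iter hd1 s
  have hcψ : dlt 0 ≤ fun y => ENNReal.ofReal c * ψ y := fun y => by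
    unfold dlt
    split_ifs with hy
    · have := Hc s 0 0 hs (by simp) (by simp [heat_mem_box]) (by simp [par])
      rw [hy]
      refine le_trans (le_of_eq ?_) (mul_le_mul_right this _)
      rw [← ENNReal.ofReal_mul (by linarith), mul_inv_cancel₀ (by linarith), ENNReal.ofReal_one]
    · exact zero_le
  have hc' : 1 ≤ ENNReal.ofReal c := ENNReal.one_le_ofReal.2 hc
  set a₁ := 64 * nq (q0 d - x) (phi d m) with ha₁
  set a₂ := 2 * ENNReal.ofReal c *
    (3 * ENNReal.ofReal ((Z ^ (7 * d))⁻¹ * (m : ℝ) ^ (-(d : ℝ) / 2))) ^ (q0 d - 1) with ha₂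
  set a₃ := 2 * ENNReal.ofReal c * (2 * ENNReal.ofReal c) ^ q0 d with ha₃
  have mA : ∀ n, Measurable fun η : ℕ → Layer d => AW n η 0 := fun n =>
    (measurable_pi_apply 0).comp (measurable_AW n)
  have mV : ∀ n, Measurable fun η : ℕ → Layer d => vf (q0 d - x) (lin (AW n η) ψ) (AW n η 0) :=
    fun n => (measurable_vf _).comp ((measurable_lin2.comp ((measurable_AW n).prodMk
      measurable_const)).prodMk (mA n))
  have mO : ∀ n, Measurable fun η : ℕ → Layer d =>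
      (∑' v, (if v ∈ box d (s.sqrt + R) then 0 else 1) * avg (ev n η ψ) v) ^ q0 d := fun n =>
    (Measurable.tsum fun v => ((measurable_pi_apply v).comp
      (measurable_avg.comp (measurable_ev n ψ))).const_mul _).pow_const _
  have key : ∀ n, ∫⁻ η, ∑' z, gb2bV (q0 d) (∑' v, avg (ev n η ψ) v * phi d m (v + z))
      (∑' v, avg (ev n η (dlt 0)) v * phi d m (v + z)) ∂env d ρ ≤
      a₁ * ∫⁻ η, vf (q0 d - x) (lin (AW n η) ψ) (AW n η 0) ∂env d ρ + a₂ * Mom d ρ (q0 d) n +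
        a₃ * ∫⁻ η, (∑' v, (if v ∈ box d (s.sqrt + R) then 0 else 1) * avg (ev n η ψ) v) ^ q0 d
          ∂env d ρ := fun n => by
    have mW : Measurable fun η : ℕ → Layer d => mass (ev n η (dlt 0)) ^ q0 d := (mA n).pow_const _
    rw [← lintegral_mq_dlt _ n 0, ← lintegral_const_mul _ (mV n), ← lintegral_const_mul _ mW,
      ← lintegral_const_mul _ (mO n), ← lintegral_add_left ((mV n).const_mul _),
      ← lintegral_add_right _ ((mO n).const_mul _)]
    refine lintegral_mono fun η => ?_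
    obtain ⟨-, -, b, hb⟩ := (hψn.of_ev hd1 n η).of_avg hd1
    have hw : ∀ v, avg (ev n η (dlt 0)) v ≤ ENNReal.ofReal c * avg (ev n η ψ) v := fun v => by
      have := avg_mono (ev_mono n η hcψ) v
      rwa [ev_smul, avg_smul] at this
    have := gb2b_det hq (by linarith) hp2 (box d (s.sqrt + R)) hc' (mass_phi hd1 m) hreg hw hb
    rw [mass_avg hd1, mass_avg hd1, ← lin_AW] at this
    exact this
  refine (gb2b_occ hd1 h0 h1 _ s (nice_phi hd1 m)).trans ((mul_le_mul_right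
    (ENNReal.tsum_le_tsum fun n => mul_le_mul_right (key n) _) _).trans ?_)
  simp only [mul_add, mul_left_comm (wt l _), ENNReal.tsum_add, ENNReal.tsum_mul_left]
  rw [add_assoc, ← gcont_OO_eq]
  refine add_le_add ?_ ?_
  · rw [← mul_assoc]
    refine mul_le_mul_left ?_ _
    have := H₂ m (q0 d - x) hm1' hq (by linarith)
    rw [show -(d * (q0 d - x - 1) / 2) = -1 + d * x / 2 by rw [q0]; field_simp; ring] at this
    calc ENNReal.ofReal l⁻¹ * a₁
        ≤ ENNReal.ofReal l⁻¹ * (ENNReal.ofReal 64 *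
            ENNReal.ofReal (C₂ * (m : ℝ) ^ (-1 + d * x / 2))) := by
          rw [ENNReal.ofReal_ofNat, ha₁]; gcongr
      _ ≤ _ := by
          rw [← ENNReal.ofReal_mul (by norm_num), ← ENNReal.ofReal_mul (by positivity)]
          refine ENNReal.ofReal_le_ofReal ?_
          rw [← mul_assoc (64 : ℝ), ← mul_assoc, mul_comm l⁻¹, ← div_eq_mul_inv]
          gcongr
          linarith
  · have e2 : a₂ * OO d ρ (q0 d) l ≤ ENNReal.ofReal ((Z ^ 10)⁻¹ / (2 * m)) := by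
      calc a₂ * OO d ρ (q0 d) l ≤ ENNReal.ofReal 2 * ENNReal.ofReal c *
            ENNReal.ofReal (3 * ((Z ^ 14)⁻¹ * (m : ℝ)⁻¹)) * ENNReal.ofReal Z := by
            rw [ENNReal.ofReal_ofNat]
            refine mul_le_mul' (mul_le_mul_right ?_ _) hS.1
            rw [← ENNReal.ofReal_ofNat 3, ← ENNReal.ofReal_mul (by norm_num),
              ENNReal.ofReal_rpow_of_nonneg (by positivity) (by linarith)]
            exact ENNReal.ofReal_le_ofReal (gb2b_num2 hd hZ0 (by linarith))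
        _ ≤ _ := by
            rw [← ENNReal.ofReal_mul (by norm_num), ← ENNReal.ofReal_mul (by positivity),
              ← ENNReal.ofReal_mul (by positivity)]
            refine ENNReal.ofReal_le_ofReal ?_
            have b1 : 12 * c ≤ Z ^ 3 := le_trans (by linarith) (le_self_pow₀ hZ1 (by norm_num))
            calc 2 * c * (3 * ((Z ^ 14)⁻¹ * (m : ℝ)⁻¹)) * Z
                = 12 * c * ((Z ^ 13)⁻¹ / (2 * m)) := by field_simp; ring
              _ ≤ Z ^ 3 * ((Z ^ 13)⁻¹ / (2 * m)) := by gcongr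
              _ = _ := by field_simp
    have e3 : a₃ ≤ ENNReal.ofReal ((2 * c) ^ 3) := by
      rw [ENNReal.ofReal_pow (by linarith), ENNReal.ofReal_mul (by norm_num), ENNReal.ofReal_ofNat,
        pow_succ', ← ENNReal.rpow_two]
      exact mul_le_mul_right (ENNReal.rpow_le_rpow_of_exponent_le
        (one_le_mul one_le_two hc') hp2.le) _
    rw [← mul_add]
    refine (mul_le_mul_right (add_le_add e2 (mul_le_mul' e3
      (hout.trans (mul_le_mul_right k2 _)))) _).trans ?_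
    rw [← ENNReal.ofReal_mul (by positivity), ← ENNReal.ofReal_mul (by positivity),
      ← ENNReal.ofReal_add (by positivity) (by positivity), ← ENNReal.ofReal_mul (by positivity)]
    refine ENNReal.ofReal_le_ofReal ?_
    have b2 := gb2b_num3 (d := d) (A := (2 * c) ^ 3 * C₃) (by positivity) h0 h1
      (by linarith : (0 : ℝ) < m) (by linarith) hS.2 hlm
    calc l⁻¹ * ((Z ^ 10)⁻¹ / (2 * m) + (2 * c) ^ 3 * (C₃ * Real.exp (-(Z / 20)) * (9 / l) ^ d))
        ≤ l⁻¹ * ((Z ^ 10)⁻¹ / (2 * m) + (Z ^ 10)⁻¹ / (2 * m)) := by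
          gcongr
          linarith
      _ = _ := by field_simp; ring

end Pool.Agent.Lib.MP_153faa_pr
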