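import Mathlib
import Pool.Agent.Lib.MP_153faa_pr.GB2a
import Pool.Agent.Lib.MP_153faa_pr.GLoc4
import Pool.Agent.Lib.MP_153faa_pr.GB2b2

set_option autoImplicit false

open MeasureTheory Filter Topology
open scoped ENNReal NNReal

namespace Pool.Agent.Lib.MP_153faa_pr

variable {d : ℕ}

/-- The local quadratic form, by time reversal. -/
theorem b2b (hd : 3 ≤ d) {κ M : ℝ} (hκ : 0 < κ) : ∃ (a : ℕ) (C : ℝ), 1 ≤ C ∧
    ∀ (ρ : Measure ℝ≥0) [IsProbabilityMeasure ρ] (l Z x : ℝ) (m s : ℕ),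
      Ctx d κ M ρ (q0 d) l → l ≤ C⁻¹ → C ≤ Z → Sc d ρ (q0 d) l Z → 0 ≤ x → x ≤ 1 / d →
      Z ^ a / l ≤ m → l * m ≤ l ^ (-(1 / 16) : ℝ) → Even s → l * s ≤ 1 →
        Occ ρ l (lev d 2) (Vloc (q0 d) s) (phi d m) ≤
          ENNReal.ofReal (C / l * (m : ℝ) ^ (-1 + d * x / 2)) * vv d ρ (q0 d - x) l s +
            ENNReal.ofReal ((Z ^ 10)⁻¹ / (l * m)) :=
  gb2b_main hd hκ

end Pool.Agent.Lib.MP_153faa_pr
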