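import Mathlib
import Pool.Agent.Lib.MP_153faa_pr.GRes2
import Pool.Agent.Lib.MP_153faa_pr.GHK1

set_option autoImplicit false

open MeasureTheory Filter Topology
open scoped ENNReal NNReal

namespace Pool.Agent.Lib.MP_153faa_pr

variable {d : ℕ}

theorem gb2c_pt {p : ℝ} (hp : 1 ≤ p) (hp2 : p ≤ 2) {c L A Λ E u : ℝ≥0∞} (hc : 1 ≤ c)
    (hct : c ≠ ⊤) (h1 : Λ ≤ c * L + E) (h2 : A ≤ c * u) (h3 : A ≤ c * L) :
    vf p L A ≤ 2 * c ^ 3 * vf p Λ u + c * E ^ p := by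
  rcases le_total E (c * L) with h | h
  · refine le_trans ?_ le_self_add
    have c0 : 2 * c ≠ 0 := mul_ne_zero two_ne_zero (zero_lt_one.trans_le hc).ne'
    have ct : 2 * c ≠ ⊤ := ENNReal.mul_ne_top ENNReal.ofNat_ne_top hct
    have a1 : Λ ≤ 2 * c * L := by
      rw [mul_assoc, two_mul]
      exact h1.trans (add_le_add le_rfl h)
    have a2 : vf p (2 * c * L) (1 * A) ≤ vf p (1 * Λ) (c * u) := by
      rw [one_mul, one_mul]
      exact vf_mono hp2 a1 h2
    rw [vf_mul c0 ct, vf_mul one_ne_zero ENNReal.one_ne_top, one_pow, one_mul, ENNReal.one_rpow,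
      mul_one] at a2
    have a3 : 1 ≤ 2 * c * (2 * c) ^ (p - 2) := by
      have e : 2 * c * (2 * c) ^ (p - 2) = (2 * c) ^ (p - 1) := by
        rw [show p - 1 = 1 + (p - 2) by ring, ENNReal.rpow_add _ _ c0 ct, ENNReal.rpow_one]
      rw [e]
      calc (1 : ℝ≥0∞) = 1 ^ (p - 1) := (ENNReal.one_rpow _).symm
        _ ≤ _ := ENNReal.rpow_le_rpow (one_le_mul one_le_two hc) (by linarith)
    calc vf p L A = 1 * vf p L A := (one_mul _).symm
      _ ≤ 2 * c * (2 * c) ^ (p - 2) * vf p L A := by gcongr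
      _ = 2 * c * ((2 * c) ^ (p - 2) * vf p L A) := by ring
      _ ≤ 2 * c * (c ^ 2 * vf p Λ u) := by gcongr
      _ = _ := by ring
  · refine le_trans ?_ le_add_self
    refine (vf_le' hp hp2 hc h3).trans ?_
    gcongr
    exact h3.trans h

theorem gb2c_box {R r : ℕ} {y z : Site d} (hy : y ∈ box d R) (hz : z ∈ box d r) :
    y - z ∈ box d (R + r) := by
  rw [heat_mem_box] at *
  intro i
  have := hy i
  have := hz i
  simp only [Pi.sub_apply]
  push_cast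
  constructor <;> linarith

theorem gb2c_meas (m : ℕ) (f : Prof d) : Measurable fun ω : ℕ → Layer d => lin (AW m ω) f :=
  measurable_lin2.comp ((measurable_AW m).prodMk measurable_const)

theorem gb2c_measA (m : ℕ) (z : Site d) : Measurable fun ω : ℕ → Layer d => AW m ω z :=
  (measurable_pi_apply z).comp (measurable_AW m)

theorem gb2c_measV (p : ℝ) (m : ℕ) (f : Prof d) (c : ℝ≥0∞) (z : Site d) :
    Measurable fun ω : ℕ → Layer d => vf p (lin (AW m ω) f) (c * AW m ω z) :=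
  (measurable_vf p).comp ((gb2c_meas m f).prodMk ((gb2c_measA m z).const_mul c))

theorem gb2c_shift (ρ : Measure ℝ≥0) [IsProbabilityMeasure ρ] (p : ℝ) (m : ℕ) (G : Prof d)
    (z : Site d) : ∫⁻ ω, vf p (lin (AW m ω) G) (AW m ω 0) ∂env d ρ =
      ∫⁻ ω, vf p (lin (AW m ω) (sh z G)) (AW m ω z) ∂env d ρ := by
  have hF : Measurable fun ω : ℕ → Layer d => vf p (lin (AW m ω) G) (AW m ω 0) := by
    simpa using gb2c_measV p m G 1 0
  rw [← conv_env_sh hF z]
  refine lintegral_congr fun ω => ?_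
  have e : lin (AW m fun k x => ω k (x + z)) G = lin (AW m ω) (sh z G) := by
    unfold lin sh
    rw [← tsum_shift (fun x => G (x - z) * AW m ω x) z]
    simp only [AW_sh, add_sub_cancel_right]
  rw [e, AW_sh, zero_add]

/-- One scale: a bulk set of sites `S`, a heat kernel profile `φ` and its outer part `o`. -/
theorem gb2c_scale (ρ : Measure ℝ≥0) [IsProbabilityMeasure ρ] {p : ℝ} (l : ℝ) (hp : 1 ≤ p)
    (hp2 : p ≤ 2) {c τ : ℝ≥0∞} (hc : 1 ≤ c) (hct : c ≠ ⊤) (τ0 : τ ≠ 0) (τt : τ ≠ ⊤)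
    {G φ o : Prof d} (S : Finset (Site d)) (h0 : 1 ≤ c * G 0)
    (h1 : ∀ z ∈ S, ∀ y, φ y ≤ c * τ * G (y - z) + o y) (h2 : ∀ z ∈ S, τ ≤ c * φ z) :
    S.card * (τ ^ p * ∑' m, wt l m * ∫⁻ ω, vf p (lin (AW m ω) G) (AW m ω 0) ∂env d ρ) ≤
      2 * c ^ 3 * VV ρ p l φ + S.card * (c * HH ρ p l o) := by
  have key : ∀ z ∈ S, ∀ (A : Prof d), τ ^ p * vf p (lin A (sh z G)) (A z) ≤
      2 * c ^ 3 * vf p (lin A φ) (φ z * A z) + c * lin A o ^ p := by
    intro z hz A
    rw [← gone3_sq_mul p τ0 τt, ← vf_mul τ0 τt]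
    refine gb2c_pt hp hp2 hc hct ?_ ?_ ?_
    · unfold lin sh
      rw [← ENNReal.tsum_mul_left, ← ENNReal.tsum_mul_left, ← ENNReal.tsum_add]
      refine ENNReal.tsum_le_tsum fun y => ?_
      calc φ y * A y ≤ (c * τ * G (y - z) + o y) * A y := by gcongr; exact h1 z hz y
        _ = _ := by ring
    · rw [← mul_assoc]
      gcongr
      exact h2 z hz
    · have a : G 0 * A z ≤ lin A (sh z G) := by
        have := ENNReal.le_tsum (f := fun y => sh z G y * A y) z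
        simpa only [lin, sh, sub_self] using this
      calc τ * A z = τ * (1 * A z) := by rw [one_mul]
        _ ≤ τ * (c * G 0 * A z) := by gcongr
        _ = c * (τ * (G 0 * A z)) := by ring
        _ ≤ _ := by gcongr
  have step : ∀ m, S.card * (τ ^ p * ∫⁻ ω, vf p (lin (AW m ω) G) (AW m ω 0) ∂env d ρ) ≤
      2 * c ^ 3 * ∫⁻ ω, ∑' z, vf p (lin (AW m ω) φ) (φ z * AW m ω z) ∂env d ρ +
        S.card * (c * ∫⁻ ω, lin (AW m ω) o ^ p ∂env d ρ) := by
    intro m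
    have a : ∀ z ∈ S, τ ^ p * ∫⁻ ω, vf p (lin (AW m ω) G) (AW m ω 0) ∂env d ρ ≤
        2 * c ^ 3 * ∫⁻ ω, vf p (lin (AW m ω) φ) (φ z * AW m ω z) ∂env d ρ +
          c * ∫⁻ ω, lin (AW m ω) o ^ p ∂env d ρ := by
      intro z hz
      have hF : Measurable fun ω : ℕ → Layer d => vf p (lin (AW m ω) (sh z G)) (AW m ω z) := by
        simpa using gb2c_measV p m (sh z G) 1 z
      rw [gb2c_shift ρ p m G z, ← lintegral_const_mul _ hF,
        ← lintegral_const_mul _ (gb2c_measV p m φ (φ z) z),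
        ← lintegral_const_mul _ ((gb2c_meas m o).pow_const p),
        ← lintegral_add_left ((gb2c_measV p m φ (φ z) z).const_mul _)]
      exact lintegral_mono fun ω => key z hz (AW m ω)
    have b := Finset.sum_le_sum a
    rw [Finset.sum_const, nsmul_eq_mul, Finset.sum_add_distrib, Finset.sum_const, nsmul_eq_mul,
      ← Finset.mul_sum] at b
    refine b.trans ?_
    gcongr
    rw [lintegral_tsum fun z => (gb2c_measV p m φ (φ z) z).aemeasurable]
    exact ENNReal.sum_le_tsum S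
  rw [HH_lin, VV, ← ENNReal.tsum_mul_left, ← ENNReal.tsum_mul_left, ← ENNReal.tsum_mul_left,
    ← ENNReal.tsum_mul_left, ← ENNReal.tsum_mul_left, ← ENNReal.tsum_add]
  refine ENNReal.tsum_le_tsum fun m => ?_
  calc _ = wt l m * (S.card * (τ ^ p * ∫⁻ ω, vf p (lin (AW m ω) G) (AW m ω 0) ∂env d ρ)) := by
        ring
    _ ≤ wt l m * (2 * c ^ 3 * ∫⁻ ω, ∑' z, vf p (lin (AW m ω) φ) (φ z * AW m ω z) ∂env d ρ +
        S.card * (c * ∫⁻ ω, lin (AW m ω) o ^ p ∂env d ρ)) := by gcongr; exact step m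
    _ = _ := by ring

/-- The geometric input at one scale. -/
theorem gb2c_geo (hd : 1 ≤ d) : ∃ c : ℝ, 1 ≤ c ∧ ∀ (k s : ℕ) (Z : ℝ), 1 ≤ k → Even s →
    4 * c ≤ Z → k * Z ^ 2 ≤ s → ∃ (S : Finset (Site d)) (o : Prof d),
      (k : ℝ) ^ ((d : ℝ) / 2) ≤ c * S.card ∧
      1 ≤ ENNReal.ofReal c * avg^[s] (cube d s.sqrt) 0 ∧
      (∀ z ∈ S, ∀ y, phi d k y ≤ ENNReal.ofReal c * ENNReal.ofReal ((k : ℝ) ^ (-(d : ℝ) / 2)) *
        avg^[s] (cube d s.sqrt) (y - z) + o y) ∧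
      (∀ z ∈ S, ENNReal.ofReal ((k : ℝ) ^ (-(d : ℝ) / 2)) ≤ ENNReal.ofReal c * phi d k z) ∧
      mass o ≤ 1 ∧ mass o ≤ ENNReal.ofReal (2 * d * Real.exp (-(Z ^ 2 / (32 * c ^ 2)))) := by
  obtain ⟨C1, h1, H1⟩ := hk_sup hd
  obtain ⟨C2, h2, H2⟩ := hk_bulk hd
  obtain ⟨C3, h3, H3⟩ := hk_cube hd
  have c13 : 1 ≤ C1 * C3 := one_le_mul_of_one_le_of_one_le h1 h3
  have c2 : C2 ≤ C1 * C3 * C2 := le_mul_of_one_le_left (by linarith) c13
  have c4 : C1 * C3 ≤ C1 * C3 * C2 := le_mul_of_one_le_right (by linarith) h2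
  have c3 : C3 ≤ C1 * C3 * C2 := (le_mul_of_one_le_left (by linarith) h1).trans c4
  refine ⟨C1 * C3 * C2, h2.trans c2, ?_⟩
  generalize C1 * C3 * C2 = c at c2 c3 c4
  intro k s Z hk hs hZ hks
  have hc : 1 ≤ c := h2.trans c2
  obtain ⟨S, s1, s2, s3⟩ := H2 k hk
  have k1 : (1 : ℝ) ≤ k := by exact_mod_cast hk
  have q1 : 1 ≤ √(k : ℝ) := Real.one_le_sqrt.2 k1
  have q2 : √(k : ℝ) ^ 2 = k := Real.sq_sqrt (by linarith)
  have q3 : Z * √(k : ℝ) ≤ √(s : ℝ) := Real.le_sqrt_of_sq_le (by rw [mul_pow, q2]; linarith)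
  have q4 : (k.sqrt : ℝ) ≤ √(k : ℝ) := Real.nat_sqrt_le_real_sqrt
  set R := ⌊Z * √(k : ℝ) / (2 * c)⌋₊ with hR
  have r1 : (R : ℝ) ≤ Z * √(k : ℝ) / (2 * c) := Nat.floor_le (by
    have : 0 ≤ Z := by linarith
    positivity)
  have r2 : Z * √(k : ℝ) / (2 * c) < R + 1 := Nat.lt_floor_add_one _
  rw [le_div_iff₀ (by positivity)] at r1
  rw [div_lt_iff₀ (by positivity)] at r2
  have r3 : Z * √(k : ℝ) ≤ 4 * c * R := by nlinarith
  have r4 : C3 * ((R + k.sqrt : ℕ) : ℝ) ≤ √(s : ℝ) := by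
    push_cast
    have : C3 * ((R : ℝ) + k.sqrt) ≤ c * (R + √(k : ℝ)) := by gcongr
    nlinarith
  have hG : ∀ y ∈ box d (R + k.sqrt), par y = 0 →
      1 ≤ ENNReal.ofReal C3 * avg^[s] (cube d s.sqrt) y := by
    intro y hy hp
    calc (1 : ℝ≥0∞) = ENNReal.ofReal C3 * ENNReal.ofReal C3⁻¹ := by
          rw [← ENNReal.ofReal_mul (by linarith), mul_inv_cancel₀ (by linarith),
            ENNReal.ofReal_one]
      _ ≤ _ := by gcongr; exact H3 s _ y hs r4 hy hp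
  have t0 : 0 < (k : ℝ) ^ (-(d : ℝ) / 2) := by positivity
  have hS : ∀ z ∈ S,
      ENNReal.ofReal ((k : ℝ) ^ (-(d : ℝ) / 2)) ≤ ENNReal.ofReal c * phi d k z := by
    intro z hz
    rw [← ofReal_ph hd, ← ENNReal.ofReal_mul (by linarith)]
    refine ENNReal.ofReal_le_ofReal ?_
    have a := s3 z hz
    rw [inv_mul_le_iff₀ (by linarith)] at a
    exact a.trans (mul_le_mul_of_nonneg_right c2 ENNReal.toReal_nonneg)
  refine ⟨S, fun y => if y ∈ box d R then 0 else phi d k y, ?_, ?_, ?_, hS, ?_, ?_⟩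
  · rw [inv_mul_le_iff₀ (by linarith)] at s1
    exact s1.trans (mul_le_mul_of_nonneg_right c2 (Nat.cast_nonneg _))
  · refine (hG 0 (heat_mem_box.2 fun i => by simp; positivity) (by simp [par])).trans ?_
    gcongr
  · intro z hz y
    by_cases hy : y ∈ box d R
    · by_cases h0 : phi d k y = 0
      · rw [h0]; exact zero_le
      have hz0 : phi d k z ≠ 0 := by
        intro e
        have := hS z hz
        rw [e, mul_zero, nonpos_iff_eq_zero, ENNReal.ofReal_eq_zero] at this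
        linarith
      have a := hG (y - z) (gb2c_box hy (s2 hz)) (by
        rw [par_sub, phi_par k h0, phi_par k hz0, sub_self])
      refine le_trans ?_ le_self_add
      calc phi d k y = ENNReal.ofReal (ph d k y) * 1 := by rw [ofReal_ph hd, mul_one]
        _ ≤ ENNReal.ofReal (C1 * (k : ℝ) ^ (-(d : ℝ) / 2)) *
            (ENNReal.ofReal C3 * avg^[s] (cube d s.sqrt) (y - z)) := by
          gcongr
          exact H1 k y hk
        _ = ENNReal.ofReal (C1 * C3) * ENNReal.ofReal ((k : ℝ) ^ (-(d : ℝ) / 2)) *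
            avg^[s] (cube d s.sqrt) (y - z) := by
          rw [ENNReal.ofReal_mul (by linarith), ENNReal.ofReal_mul (by linarith)]
          ring
        _ ≤ _ := by gcongr
    · simp only [hy, if_false]
      exact le_add_self
  · rw [← mass_phi hd k]
    refine ENNReal.tsum_le_tsum fun y => ?_
    split_ifs
    · exact zero_le
    · exact le_rfl
  · refine (hk_escape hd le_rfl hk).trans (ENNReal.ofReal_le_ofReal ?_)
    have a : Z ^ 2 * k ≤ (4 * c * R) ^ 2 := by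
      rw [← q2, ← mul_pow]
      exact pow_le_pow_left₀ (by nlinarith) r3 2
    have b : Z ^ 2 / (32 * c ^ 2) ≤ (R : ℝ) ^ 2 / (2 * k) := by
      rw [div_le_div_iff₀ (by positivity) (by positivity)]
      nlinarith
    gcongr
    rw [neg_div]
    linarith

theorem gb2c_err {c Z l k p : ℝ} (hc : 1 ≤ c) (hZ : 32 * c ^ 2 * (2 * d * c + d + 1) ≤ Z)
    (l0 : 0 < l) (hl : Real.log l ^ 2 ≤ Z) (k1 : 1 ≤ k) (hk : l * k ≤ 1) (hp : p ≤ 2) :
    k ^ ((d : ℝ) / 2 * p) * (c * (Z * (2 * d * Real.exp (-(Z ^ 2 / (32 * c ^ 2)))))) ≤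
      Real.exp (-Z) := by
  have d0 : (0 : ℝ) ≤ d := Nat.cast_nonneg d
  have a0 : 1 ≤ 32 * c ^ 2 := by nlinarith
  have a1 : 1 ≤ 2 * d * c + d + 1 := by nlinarith [mul_nonneg d0 (zero_le_one.trans hc)]
  have Z1 : 1 ≤ Z := (one_le_mul_of_one_le_of_one_le a0 a1).trans hZ
  have a2 : Real.log k ≤ Z := by
    have b1 : Real.log l + Real.log k ≤ 0 := by
      rw [← Real.log_mul l0.ne' (by linarith)]
      exact Real.log_nonpos (by positivity) hk
    nlinarith [sq_nonneg (Real.log l + 1)]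
  have a3 : k ^ ((d : ℝ) / 2 * p) ≤ Real.exp (d * Z) := by
    rw [Real.rpow_def_of_pos (by linarith)]
    refine Real.exp_le_exp.2 ?_
    have b1 := Real.log_nonneg k1
    have b2 : (d : ℝ) / 2 * p ≤ d := by nlinarith
    nlinarith [mul_le_mul_of_nonneg_left b2 b1, mul_le_mul_of_nonneg_left a2 d0]
  have a4 : 2 * d * c * Z ≤ Real.exp (2 * d * c * Z) := by
    linarith [Real.add_one_le_exp (2 * d * c * Z)]
  have a5 : (2 * d * c + d + 1) * Z ≤ Z ^ 2 / (32 * c ^ 2) := by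
    rw [le_div_iff₀ (by positivity)]
    nlinarith
  calc _ = k ^ ((d : ℝ) / 2 * p) * (2 * d * c * Z) * Real.exp (-(Z ^ 2 / (32 * c ^ 2))) := by ring
    _ ≤ Real.exp (d * Z) * Real.exp (2 * d * c * Z) * Real.exp (-(Z ^ 2 / (32 * c ^ 2))) := by
      gcongr
    _ ≤ _ := by
      rw [← Real.exp_add, ← Real.exp_add]
      exact Real.exp_le_exp.2 (by linarith)

/-- One scale, in final form. -/
theorem gb2c_one (hd : 1 ≤ d) : ∃ C : ℝ, 1 ≤ C ∧
    ∀ (ρ : Measure ℝ≥0) [IsProbabilityMeasure ρ] (p l Z : ℝ) (k s : ℕ), 1 ≤ p → p ≤ 2 → 0 < l →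
      C ≤ Z → Sc d ρ p l Z → 1 ≤ k → Even s → k * Z ^ 2 ≤ s → l * k ≤ 1 →
        vv d ρ p l s ≤ ENNReal.ofReal (C * (k : ℝ) ^ ((d : ℝ) / 2 * (p - 1))) *
          VV ρ p l (phi d k) + ENNReal.ofReal (Real.exp (-Z)) := by
  obtain ⟨c, hc, H⟩ := gb2c_geo hd
  have d0 : (0 : ℝ) ≤ d := Nat.cast_nonneg d
  have c4 : 1 ≤ c ^ 4 := one_le_pow₀ hc
  have c5 : 0 ≤ 32 * c ^ 2 * (2 * d * c + d + 1) := by positivity
  refine ⟨2 * c ^ 4 + 4 * c + 32 * c ^ 2 * (2 * d * c + d + 1), by linarith, ?_⟩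
  intro ρ _ p l Z k s hp hp2 l0 hZ hS hk hs hks hlk
  obtain ⟨S, o, g1, g2, g3, g4, g5, g6⟩ := H k s Z hk hs (by linarith) hks
  have k1 : (1 : ℝ) ≤ k := by exact_mod_cast hk
  have t0 : 0 < (k : ℝ) ^ (-(d : ℝ) / 2) := by positivity
  have hc' : 1 ≤ ENNReal.ofReal c := ENNReal.one_le_ofReal.2 hc
  have a := gb2c_scale ρ l hp hp2 hc' ENNReal.ofReal_ne_top (ENNReal.ofReal_pos.2 t0).ne'
    ENNReal.ofReal_ne_top S g2 g3 g4
  have Z0 : 0 ≤ Z := by linarith
  have b : HH ρ p l o ≤ ENNReal.ofReal (Z * (2 * d * Real.exp (-(Z ^ 2 / (32 * c ^ 2))))) := by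
    refine (HH_le hp o).trans ?_
    rw [ENNReal.ofReal_mul Z0]
    refine mul_le_mul' hS.1 (le_trans ?_ g6)
    have := ENNReal.rpow_le_rpow_of_exponent_ge g5 hp
    rwa [ENNReal.rpow_one] at this
  have n0 : (0 : ℝ) < S.card := by
    have : 0 < (k : ℝ) ^ ((d : ℝ) / 2) := by positivity
    by_contra h
    nlinarith [not_lt.1 h]
  set w : ℝ := (k : ℝ) ^ ((d : ℝ) / 2 * p) with hw
  have w0 : 0 < w := by positivity
  have e1 : w * ((k : ℝ) ^ (-(d : ℝ) / 2)) ^ p = 1 := by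
    rw [hw, ← Real.rpow_mul (by linarith), ← Real.rpow_add (by linarith)]
    simp [neg_div]
  have e2 : w = (k : ℝ) ^ ((d : ℝ) / 2 * (p - 1)) * (k : ℝ) ^ ((d : ℝ) / 2) := by
    rw [hw, ← Real.rpow_add (by linarith)]
    congr 1
    ring
  have e3 : ENNReal.ofReal (w / S.card) * S.card = ENNReal.ofReal w := by
    rw [← ENNReal.ofReal_natCast, ← ENNReal.ofReal_mul (by positivity), div_mul_cancel₀ _ n0.ne']
  calc vv d ρ p l s = ENNReal.ofReal (w / S.card) *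
        (S.card * (ENNReal.ofReal ((k : ℝ) ^ (-(d : ℝ) / 2)) ^ p * vv d ρ p l s)) := by
        rw [← mul_assoc, e3, ← mul_assoc, ENNReal.ofReal_rpow_of_pos t0,
          ← ENNReal.ofReal_mul w0.le, e1, ENNReal.ofReal_one, one_mul]
    _ ≤ ENNReal.ofReal (w / S.card) * (2 * ENNReal.ofReal c ^ 3 * VV ρ p l (phi d k) +
        S.card * (ENNReal.ofReal c * HH ρ p l o)) := by gcongr; exact a
    _ = ENNReal.ofReal (w / S.card * (2 * c ^ 3)) * VV ρ p l (phi d k) +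
        ENNReal.ofReal w * (ENNReal.ofReal c * HH ρ p l o) := by
        rw [← e3, ENNReal.ofReal_mul (by positivity), ENNReal.ofReal_mul (by positivity),
          ENNReal.ofReal_pow (by linarith), ENNReal.ofReal_ofNat]
        ring
    _ ≤ _ := by
      refine add_le_add (mul_le_mul' (ENNReal.ofReal_le_ofReal ?_) le_rfl) ?_
      · rw [div_mul_eq_mul_div, div_le_iff₀ n0, e2]
        have u0 : 0 ≤ (k : ℝ) ^ ((d : ℝ) / 2 * (p - 1)) := by positivity
        calc _ ≤ (k : ℝ) ^ ((d : ℝ) / 2 * (p - 1)) * (c * S.card) * (2 * c ^ 3) := by gcongr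
          _ = 2 * c ^ 4 * (k : ℝ) ^ ((d : ℝ) / 2 * (p - 1)) * S.card := by ring
          _ ≤ _ := by gcongr; linarith
      · refine (mul_le_mul' le_rfl (mul_le_mul' le_rfl b)).trans ?_
        rw [← ENNReal.ofReal_mul (by linarith), ← ENNReal.ofReal_mul w0.le]
        exact ENNReal.ofReal_le_ofReal (gb2c_err hc (by linarith) l0 hS.2 k1 hlk hp2)

/-- A point on a smooth background is controlled by the gain over a range of scales. -/
theorem b2c (hd : 3 ≤ d) {κ M : ℝ} (hκ : 0 < κ) : ∃ C : ℝ, 1 ≤ C ∧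
    ∀ (ρ : Measure ℝ≥0) [IsProbabilityMeasure ρ] (l Z x L : ℝ) (n s : ℕ),
      Ctx d κ M ρ (q0 d - x) l → C ≤ Z → Sc d ρ (q0 d - x) l Z → 2 ≤ L → 1 ≤ n → Even s →
      n * Real.exp L * Z ^ 2 ≤ s → l * s ≤ 1 →
        vv d ρ (q0 d - x) l s ≤
          ENNReal.ofReal (C / L * (n : ℝ) ^ (-(d * x / 2))) * XX ρ (q0 d - x) l 0 (phi d n) +
            ENNReal.ofReal (Real.exp (-Z)) := by
  have hd1 : 1 ≤ d := by omega
  obtain ⟨C1, h1, H1⟩ := gb2c_one hd1
  obtain ⟨C2, h2, H2⟩ := JJ_ge (M := M) hd hκ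
  have c1 : C1 ≤ C1 * C2 := le_mul_of_one_le_right (by linarith) h2
  refine ⟨4 * (C1 * C2), by linarith, ?_⟩
  intro ρ _ l Z x L n s hx hZ hS hL hn hs hns hls
  obtain ⟨hp, hp2⟩ := hx.one_lt hd
  have x0 : 0 ≤ x := by linarith [hx.p2]
  have l0 := hx.l0
  have l1 := hx.l1
  have d0 : (0 : ℝ) < d := by exact_mod_cast hd1
  have n1 : (1 : ℝ) ≤ n := by exact_mod_cast hn
  have hO : OO d ρ (q0 d - x) l ≠ ⊤ := ne_top_of_le_ne_top ENNReal.ofReal_ne_top hS.1
  set N := ⌊n * Real.exp L⌋₊ with hN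
  have eL : 1 ≤ Real.exp L := Real.one_le_exp (by linarith)
  have N1 : (N : ℝ) ≤ n * Real.exp L := Nat.floor_le (by positivity)
  have N2 : n * Real.exp L < N + 1 := Nat.lt_floor_add_one _
  have N3 : n ≤ N := Nat.le_floor (le_mul_of_one_le_right (by linarith) eL)
  have Z2 : 2 ≤ Z ^ 2 := by nlinarith
  have N4 : (N : ℝ) * Z ^ 2 ≤ s := le_trans (by gcongr) hns
  have N5 : l * N ≤ 1 / 2 := by
    have a : l * (N * 2) ≤ l * s := by
      gcongr
      exact le_trans (by gcongr) N4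
    linarith
  set V := vv d ρ (q0 d - x) l s
  set u : ℝ := (n : ℝ) ^ (-(d * x / 2)) with hu
  have u0 : 0 ≤ u := by positivity
  have one : ∀ i ∈ Finset.range (N - n), ENNReal.ofReal (1 / ((n : ℝ) + 1 + i)) * V ≤
      ENNReal.ofReal (2 * (C1 * C2) * u) * (ENNReal.ofReal ((1 - l) ^ (i + 1)) *
        JJ ρ (q0 d - x) l (avg^[i] (phi d n))) +
      ENNReal.ofReal (1 / ((n : ℝ) + 1 + i)) * ENNReal.ofReal (Real.exp (-Z)) := by
    intro i hi
    have hi' : n + i + 1 ≤ N := by have := Finset.mem_range.1 hi; omega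
    have k1 : ((n + i + 1 : ℕ) : ℝ) ≤ N := by exact_mod_cast hi'
    have i0 : (0 : ℝ) ≤ i := Nat.cast_nonneg i
    have ke : ((n + i + 1 : ℕ) : ℝ) = n + 1 + i := by push_cast; ring
    have a := H1 ρ _ l Z (n + i + 1) s hp.le hp2.le l0 (by linarith) hS (by omega) hs
      (le_trans (by gcongr) N4) (by nlinarith)
    have b := H2 ρ _ l hx hO _ ((nice_phi hd1 n).of_avg_iter hd1 i)
    rw [← Function.iterate_succ_apply' avg, avg_iter_phi] at b
    rw [ke] at a k1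
    have e1 : (d : ℝ) / 2 * (q0 d - x - 1) = 1 + -(d * x / 2) := by
      unfold q0
      field_simp
      ring
    have e2 : ((n : ℝ) + 1 + i) ^ (-(d * x / 2)) ≤ u :=
      Real.rpow_le_rpow_of_nonpos (by linarith) (by linarith) (by
        have : 0 ≤ d * x / 2 := by positivity
        linarith)
    have e3 : 1 / 2 ≤ (1 - l) ^ (i + 1) := by
      have := one_add_mul_le_pow (a := -l) (by linarith) (i + 1)
      push_cast at this
      have : l * (i + 1) ≤ l * N := by gcongr; linarith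
      rw [sub_eq_add_neg]
      nlinarith
    have e4 : 1 / ((n : ℝ) + 1 + i) * (C1 * ((n : ℝ) + 1 + i) ^ ((d : ℝ) / 2 * (q0 d - x - 1))) ≤
        2 * (C1 * C2) * u * ((1 - l) ^ (i + 1) * C2⁻¹) := by
      rw [e1, Real.rpow_add (by linarith), Real.rpow_one]
      calc _ = 2 * C1 * ((n : ℝ) + 1 + i) ^ (-(d * x / 2)) * (1 / 2) := by field_simp
        _ ≤ 2 * C1 * u * (1 - l) ^ (i + 1) := by gcongr
        _ = _ := by field_simp
    refine (mul_le_mul' le_rfl a).trans ?_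
    rw [mul_add, ← mul_assoc, ← ENNReal.ofReal_mul (by positivity)]
    refine add_le_add ((mul_le_mul' (ENNReal.ofReal_le_ofReal e4) le_rfl).trans ?_) le_rfl
    rw [ENNReal.ofReal_mul (p := 2 * (C1 * C2) * u) (by positivity),
      ENNReal.ofReal_mul (p := (1 - l) ^ (i + 1)) (by linarith), mul_assoc]
    exact mul_le_mul' le_rfl ((mul_assoc _ _ _).trans_le (mul_le_mul' le_rfl b))
  have all := Finset.sum_le_sum one
  rw [Finset.sum_add_distrib, ← Finset.sum_mul, ← Finset.sum_mul, ← Finset.mul_sum,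
    ← ENNReal.ofReal_sum_of_nonneg fun i _ => by positivity] at all
  have hX := (ENNReal.sum_le_tsum (Finset.range (N - n))).trans
    (XX_tele hd1 hx.good.1 hp.le l0 l1 hO (nice_phi hd1 n)).ge
  have hH := ghk1_harm_ge (x := (n : ℝ) + 1) (by linarith) (N - n)
  set Hs := ∑ i ∈ Finset.range (N - n), 1 / ((n : ℝ) + 1 + i)
  have hL2 : L / 2 ≤ Hs := by
    refine le_trans ?_ hH
    rw [Real.le_log_iff_exp_le (by positivity), le_div_iff₀ (by linarith), Nat.cast_sub N3]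
    have a : Real.exp L = Real.exp (L / 2) * Real.exp (L / 2) := by
      rw [← Real.exp_add]; congr 1; ring
    have b : 2 ≤ Real.exp (L / 2) := by linarith [Real.add_one_le_exp (L / 2)]
    have c : Real.exp (L / 2) * (n + 1) ≤ n * (Real.exp (L / 2) * Real.exp (L / 2)) := by
      nlinarith [mul_le_mul_of_nonneg_left b (by linarith : (0 : ℝ) ≤ n)]
    rw [← a] at c
    linarith
  have H0 : 0 < Hs := by linarith
  have e : ENNReal.ofReal Hs⁻¹ * ENNReal.ofReal Hs = 1 := by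
    rw [← ENNReal.ofReal_mul (by positivity), inv_mul_cancel₀ H0.ne', ENNReal.ofReal_one]
  calc V = ENNReal.ofReal Hs⁻¹ * (ENNReal.ofReal Hs * V) := by rw [← mul_assoc, e, one_mul]
    _ ≤ ENNReal.ofReal Hs⁻¹ * (ENNReal.ofReal (2 * (C1 * C2) * u) *
        XX ρ (q0 d - x) l 0 (phi d n) + ENNReal.ofReal Hs * ENNReal.ofReal (Real.exp (-Z))) :=
      mul_le_mul' le_rfl (all.trans (add_le_add (mul_le_mul' le_rfl hX) le_rfl))
    _ ≤ _ := by
      rw [mul_add, ← mul_assoc, ← mul_assoc (ENNReal.ofReal Hs⁻¹), e, one_mul,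
        ← ENNReal.ofReal_mul (by positivity)]
      refine add_le_add (mul_le_mul' (ENNReal.ofReal_le_ofReal ?_) le_rfl) le_rfl
      have a : Hs⁻¹ ≤ 2 / L := by
        rw [← inv_div]
        exact inv_anti₀ (by linarith) hL2
      calc Hs⁻¹ * (2 * (C1 * C2) * u) ≤ 2 / L * (2 * (C1 * C2) * u) := by gcongr
        _ = _ := by ring

end Pool.Agent.Lib.MP_153faa_pr
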