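import Mathlib
import Pool.Agent.Lib.MP_153faa_pr.GB2b
import Pool.Agent.Lib.MP_153faa_pr.GB2c
import Pool.Agent.Lib.MP_153faa_pr.GFun1
import Pool.Agent.Lib.MP_153faa_pr.GB21
import Pool.Agent.Lib.MP_153faa_pr.GB22

set_option autoImplicit false

open MeasureTheory Filter Topology
open scoped ENNReal NNReal

namespace Pool.Agent.Lib.MP_153faa_pr

variable {d : ℕ}

theorem gb2_Y {χ I : ℝ≥0∞} {X i : ℝ} (hX : 0 ≤ X) (hχ : χ ≤ ENNReal.ofReal X)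
    (hI : I = ENNReal.ofReal i) : χ * I ≤ ENNReal.ofReal (X * i) := by
  rw [hI, ENNReal.ofReal_mul hX]
  exact mul_le_mul_left hχ _

/-- The local quadratic form in terms of the gain at the scale `n`. -/
theorem gb2_occ (hd : 3 ≤ d) {κ M : ℝ} (hκ : 0 < κ) : ∃ (a : ℕ) (C₁ : ℝ), 1 ≤ C₁ ∧
    ∃ C : ℝ, 1 ≤ C ∧ ∀ (ρ : Measure ℝ≥0) [IsProbabilityMeasure ρ] (l Z L : ℝ) (m n s : ℕ),
      Ctx d κ M ρ (q0 d) l → l ≤ C⁻¹ → C ≤ Z → Sc d ρ (q0 d) l Z → Kr d ρ (q0 d) l ≤ C⁻¹ →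
      Z ^ a / l ≤ m → l * m ≤ l ^ (-(1 / 16) : ℝ) → 0 < l * m → 2 ≤ L → 1 ≤ n → Even s →
      l * s ≤ 1 → n * Real.exp L * Z ^ 2 ≤ s → (d : ℝ) ≤ Real.log (m / n) →
      ∃ o : ℝ, 0 ≤ o ∧ Occ ρ l (lev d 2) (Vloc (q0 d) s) (phi d m) ≤ ENNReal.ofReal o ∧
        l * m * o ≤ C₁ * (Ar d ρ (q0 d) l n + l ^ (1 / 4 : ℝ)) * Real.log (m / n) / L +
          2 * (Z ^ 10)⁻¹ := by
  obtain ⟨a, Cb, hCb, Hb⟩ := b2b (M := M) hd hκ
  obtain ⟨Cc, hCc, Hc⟩ := b2c (M := M) hd hκ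
  obtain ⟨Co, hCo, Ho⟩ := opx (M := M) hd hκ
  obtain ⟨Ct, hCt, Ht⟩ := trans (M := M) hd hκ
  have hE : 1 ≤ Real.exp (d / 2) := Real.one_le_exp (by positivity)
  refine ⟨a, Cb * Cc * Co * Ct * Real.exp (d / 2), ?_, Cb + Cc + Co + Ct + 2 ^ 12 * 479001600,
    by linarith, fun ρ _ l Z L m n s hc hl hZ hS hK hm hlm hlm0 hL hn hs hls hns hlog => ?_⟩
  · exact one_le_mul_of_one_le_of_one_le (one_le_mul_of_one_le_of_one_le
      (one_le_mul_of_one_le_of_one_le (one_le_mul_of_one_le_of_one_le hCb hCc) hCo) hCt) hE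
  have hd1 : 1 ≤ d := by omega
  have hd3 : (3 : ℝ) ≤ d := by exact_mod_cast hd
  have hp := (hc.one_lt hd).1.le
  have hM := hc.good.1
  have h0 := hc.l0
  have h1 := hc.l1
  have inv : ∀ C' : ℝ, 1 ≤ C' → C' ≤ Cb + Cc + Co + Ct + 2 ^ 12 * 479001600 →
      (Cb + Cc + Co + Ct + 2 ^ 12 * 479001600)⁻¹ ≤ C'⁻¹ :=
    fun C' h h' => inv_anti₀ (by linarith) h'
  have hO : OO d ρ (q0 d) l ≠ ⊤ := ne_top_of_le_ne_top ENNReal.ofReal_ne_top hS.1
  have hlg : 0 < Real.log (m / n) := by linarith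
  set x := (Real.log (m / n))⁻¹ with hx
  have hx0 : 0 < x := inv_pos.2 hlg
  have hxd : x ≤ 1 / d := by
    rw [one_div]
    exact inv_anti₀ (by linarith) hlog
  have hd' : 1 / (d : ℝ) ≤ 1 := by
    rw [div_le_one (by linarith)]
    linarith
  have hc' : Ctx d κ M ρ (q0 d - x) l :=
    ⟨hc.good, by
      have : (2 : ℝ) / d = 1 / d + 1 / d := by ring
      unfold q0
      linarith, by linarith, h0, h1⟩
  have hp' := (hc'.one_lt hd).1.le
  have hOO := OO_mono_p (ρ := ρ) (l := l) (p := q0 d) hd1 hM hp' (by linarith) h0 h1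
  have hO' : OO d ρ (q0 d - x) l ≠ ⊤ := ne_top_of_le_ne_top hO hOO
  have k1 := Hb ρ l Z x m s hc (hl.trans (inv _ hCb (by linarith))) (by linarith) hS hx0.le hxd
    hm hlm hs hls
  have k2 := Hc ρ l Z x L n s hc' (by linarith) ⟨hOO.trans hS.1, hS.2⟩ hL hn hs hns hls
  have k3 := Ho ρ (q0 d) l hc (hl.trans (inv _ hCo (by linarith))) hO x hx0 (by linarith)
  have k4 := Ht ρ ρ (q0 d - x) (q0 d) l hc' hc (CxLe.refl ρ) (hl.trans (inv _ hCt (by linarith)))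
    hO (gb2_OO hd1 hM hp h0 h1 (by linarith) (hK.trans (inv _ hCt (by linarith)))) n
  have hA : 0 ≤ Ar d ρ (q0 d) l n := ENNReal.toReal_nonneg
  have hl4 : 0 ≤ l ^ (1 / 4 : ℝ) := Real.rpow_nonneg h0.le _
  set B := Ar d ρ (q0 d) l n + l ^ (1 / 4 : ℝ) with hB
  have hB0 : 0 ≤ B := by positivity
  have k5 : XX ρ (q0 d - x) l 0 (phi d n) ≤ ENNReal.ofReal (Co / x * (Ct * B)) := by
    have hO0 : OO d ρ (q0 d - x) l ≠ 0 :=
      (zero_lt_one.trans_le (one_le_OO hd1 hM hp' h0 h1)).ne'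
    have e : XX ρ (q0 d - x) l 0 (phi d n) =
        OO d ρ (q0 d - x) l * (KK d ρ (q0 d - x) l * XX ρ (q0 d - x) l 0 (phi d n)) := by
      rw [← mul_assoc, KK, ENNReal.mul_inv_cancel hO0 hO', one_mul]
    rw [e, (Kr_add_Ar hd1 hM hp' h0 h1 hO' n).2.2, ENNReal.ofReal_mul (by positivity)]
    exact mul_le_mul' k3 (ENNReal.ofReal_le_ofReal k4)
  have hZ0 : 0 < Z := by linarith
  have hL0 : 0 < L := by linarith
  obtain ⟨r1, r2⟩ := gb2_ratio (D := d) h0 hlm0 hn hlg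
  rw [← hx] at r1 r2
  have r3 := gb2_exp (C := Cb) (y := d * x / 2) h0 h1 (by linarith) hS.2 hlm hlm0 (by
    rw [le_div_iff₀ (by linarith)] at hxd
    linarith) (by linarith)
  refine ⟨Cb / l * (m : ℝ) ^ (-1 + d * x / 2) *
    (Cc / L * (n : ℝ) ^ (-(d * x / 2)) * (Co / x * (Ct * B)) + Real.exp (-Z)) +
      (Z ^ 10)⁻¹ / (l * m), by positivity, k1.trans ?_, ?_⟩
  · rw [ENNReal.ofReal_add (by positivity) (by positivity),
      ENNReal.ofReal_mul (p := Cb / l * _) (by positivity),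
      ENNReal.ofReal_add (by positivity) (by positivity),
      ENNReal.ofReal_mul (p := Cc / L * _) (by positivity)]
    exact add_le_add (mul_le_mul_right (k2.trans (add_le_add (mul_le_mul_right k5 _) le_rfl)) _)
      le_rfl
  · generalize (m : ℝ) ^ (-1 + d * x / 2) = u at r1
    generalize (m : ℝ) ^ (d * x / 2) = v at r1 r2 r3
    generalize (n : ℝ) ^ (-(d * x / 2)) = w at r2
    have e : l * m * (Cb / l * u * (Cc / L * w * (Co / x * (Ct * B)) + Real.exp (-Z)) +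
        (Z ^ 10)⁻¹ / (l * m)) = Cb * Cc * Co * Ct * (l * m * (l⁻¹ * u) * w) * B * x⁻¹ / L +
          Cb * (l * m * (l⁻¹ * u)) * Real.exp (-Z) + (Z ^ 10)⁻¹ := by
      rw [mul_add, mul_div_cancel₀ _ hlm0.ne']
      ring
    rw [e, r1, r2, hx, inv_inv]
    linarith

/-- Two-stage gain: upper bound. -/
theorem b2_up (hd : 3 ≤ d) {κ M : ℝ} (hκ : 0 < κ) : ∃ (a : ℕ) (C₁ : ℝ), 1 ≤ C₁ ∧
    ∀ η : ℝ, 0 < η → ∃ C : ℝ, 1 ≤ C ∧
      ∀ (ρ : Measure ℝ≥0) [IsProbabilityMeasure ρ] (l l' Z L : ℝ) (m n j : ℕ),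
        Ctx d κ M ρ (q0 d) l → l ≤ C⁻¹ → C ≤ Z → Sc d ρ (q0 d) l Z → Kr d ρ (q0 d) l ≤ C⁻¹ →
        0 < l' → C * l' ≤ l → OO d ρ (q0 d) l' ≠ ⊤ → (j : ℝ) ≤ l ^ (-(1 / (2 * d : ℝ))) →
        Kr d ρ (q0 d) l' + Ar d ρ (q0 d) l' j ≤ C⁻¹ →
        Z ^ a / l ≤ m → l * m ≤ l ^ (-(1 / 16) : ℝ) → 2 ≤ L → 1 ≤ n →
        l * n * Real.exp L * Z ^ a ≤ 1 →
        l * m * Gr d ρ (q0 d) l l' m ≤ (1 + η) * (l * m * Ar d ρ (q0 d) l m) +
          C₁ * Ar d ρ (q0 d) l' n * (Ar d ρ (q0 d) l n + l ^ (1 / 4 : ℝ)) * Real.log (m / n) / L +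
          (Z ^ 9)⁻¹ := by
  obtain ⟨a₁, Ca, hCa, Ha⟩ := b2a (M := M) hd hκ
  obtain ⟨a₂, Co, hCo, Cb, hCb, Hb⟩ := gb2_occ (M := M) hd hκ
  obtain ⟨Ci, hCi, Hi⟩ := gb2_II (M := M) hd hκ
  refine ⟨2 * a₁ + a₂ + d + 4, Ca * Co, one_le_mul_of_one_le_of_one_le hCa hCo, fun η hη => ?_⟩
  obtain ⟨X, hX⟩ : ∃ X, X = 2 * max M 1 := ⟨_, rfl⟩
  have hX0 : 0 < X := by
    have := le_max_right M 1
    linarith
  have hμ : 0 < min η 1 := lt_min hη one_pos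
  obtain ⟨e, he⟩ : ∃ e, e = min η 1 / ((8 * X + Ca) * Ci) := ⟨_, rfl⟩
  have he0 : 0 < e := by rw [he]; positivity
  have hei := inv_pos.2 he0
  obtain ⟨Cf, hCf, Hf⟩ := fun_br (M := M) hd hκ e he0
  refine ⟨Ca + Cb + Ci + Cf + e⁻¹ + 6, by linarith,
    fun ρ _ l l' Z L m n j hc hl hZ hS hK h0' hll hO' hj hA hm hlm hL hn hnL => ?_⟩
  have inv : ∀ C' : ℝ, 0 < C' → C' ≤ Ca + Cb + Ci + Cf + e⁻¹ + 6 →
      (Ca + Cb + Ci + Cf + e⁻¹ + 6)⁻¹ ≤ C'⁻¹ := fun C' h h' => inv_anti₀ h h'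
  have ia := inv Ca (by linarith) (by linarith)
  have ib := inv Cb (by linarith) (by linarith)
  have ii := inv Ci (by linarith) (by linarith)
  have iF := inv Cf (by linarith) (by linarith)
  have ie := inv e⁻¹ hei (by linarith)
  rw [inv_inv] at ie
  have hd1 : 1 ≤ d := by omega
  have hp := (hc.one_lt hd).1.le
  have hp2 := (hc.one_lt hd).2.le
  have hM := hc.good.1
  have h0 := hc.l0
  have h1 := hc.l1
  have hlt : l' < l := by nlinarith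
  have h1' : l' < 1 := hlt.trans h1
  have hO : OO d ρ (q0 d) l ≠ ⊤ := ne_top_of_le_ne_top ENNReal.ofReal_ne_top hS.1
  obtain ⟨j₀, s, p1, p2, p3, p4, p5, p6, p7, p8, p9, p10, p11, p12, p13⟩ :=
    gb2_par hd rfl h0 h1 (by linarith) hj hm hlm hL hn hnL
  obtain ⟨χ, hχ, hχt, hχX, -⟩ := gloc2_chi hd hκ hc.good
  rw [← hX] at hχX
  obtain ⟨i, hi0, hi, hiA⟩ := Hi ρ (q0 d) l hc (hl.trans ii) hO (hK.trans ii) m
  obtain ⟨o, ho0, ho, hoA⟩ := Hb ρ l Z L m n s hc (hl.trans ib) (by linarith) hS (hK.trans ib)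
    p10 hlm p13 hL hn p3 p7 p8 p11
  have k1 := Ha ρ l l' Z m j₀ s hc (hl.trans ia) (by linarith) hS h0' h1' hO' p1 p2 p3 p4
  have k2 := gb2_cmp hd1 hM hχ hχt h0 h1 (by linarith) hp2 (nice_phi hd1 m) (mass_phi hd1 m)
    (measurable_Res measurable_HH) measurable_HH fun g hg =>
      (Hf ρ (q0 d) l l' j hc (hl.trans iF) (hK.trans iF)
        (hS.1.trans (ENNReal.ofReal_le_ofReal p9)) h0' (by nlinarith) hO' hj (hA.trans iF) g hg).1
  have k3 := gb2_le_X hd1 hM hχ hχt h0 h1 hp hp2 (nice_phi hd1 m) (mass_phi hd1 m)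
  have k4 := gb2_Gr hd1 hM hp h0' hlt h1 hO' m
  have k5 := gb2_Y hX0.le hχX hi
  have hD : KK d ρ (q0 d) l' * Det l (HH ρ (q0 d) l') (phi d m) ≠ ⊤ :=
    ne_top_of_le_ne_top ENNReal.one_ne_top (Gr_spec hd1 hM hp h0' hlt h1 hO' m).2.1
  have hKe : KK d ρ (q0 d) l ≤ ENNReal.ofReal e := by
    rw [← ofReal_Kr hd1 hM hp h0 h1]
    exact ENNReal.ofReal_le_ofReal (hK.trans ie)
  have hanti := Ar_anti (ρ := ρ) (l := l') hd1 hM hp h0' h1'
  have hK' : 0 ≤ Kr d ρ (q0 d) l' := Kr_nonneg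
  have hA0 : 0 ≤ Ar d ρ (q0 d) l' j₀ := ENNReal.toReal_nonneg
  have hAm : 0 ≤ Ar d ρ (q0 d) l m := ENNReal.toReal_nonneg
  have hAn : 0 ≤ Ar d ρ (q0 d) l n := ENNReal.toReal_nonneg
  have hA1 := hanti p5
  have hA2 := hanti p6
  have hZ0 : 0 < Z := by linarith
  have h4 : 4 * χ * II ρ l 2 (phi d m) ≤ ENNReal.ofReal (4 * (X * i)) := by
    rw [mul_assoc, ENNReal.ofReal_mul (by norm_num), ENNReal.ofReal_ofNat]
    exact mul_le_mul_right k5 _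
  have k6 : ENNReal.ofReal (Gr d ρ (q0 d) l l' m) ≤ ENNReal.ofReal (Ar d ρ (q0 d) l m +
      e * (4 * (X * i)) + e * (4 * (X * i)) + (Ca * e * i + Ca * Ar d ρ (q0 d) l' j₀ * o +
        (Z ^ 10)⁻¹ / (l * m))) := by
    rw [← ENNReal.add_le_add_iff_left hD, k4, add_comm (KK d ρ (q0 d) l' * Det _ _ _),
      ENNReal.ofReal_add (by positivity) (by positivity), add_assoc]
    refine add_le_add (k2.trans ?_) (k1.trans ?_)
    · rw [ENNReal.ofReal_add (by positivity) (by positivity),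
        ENNReal.ofReal_add (by positivity) (by positivity), ENNReal.ofReal_mul he0.le,
        ← (Kr_add_Ar hd1 hM hp h0 h1 hO m).2.2]
      refine add_le_add ((mul_le_mul_right k3 _).trans ?_) (mul_le_mul_right h4 _)
      rw [mul_add]
      exact add_le_add le_rfl (mul_le_mul' hKe h4)
    · rw [add_assoc, add_assoc, add_comm, ← add_assoc,
        ENNReal.ofReal_add (by positivity) (by positivity),
        ENNReal.ofReal_add (by positivity) (by positivity),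
        ENNReal.ofReal_mul (q := i) (by positivity), ENNReal.ofReal_mul (q := o) (by positivity), hi]
      refine add_le_add (add_le_add (add_le_add (mul_le_mul_left (ENNReal.ofReal_le_ofReal ?_) _)
        (mul_le_mul_right ho _)) le_rfl) le_rfl
      exact mul_le_mul_of_nonneg_left (by linarith) (by linarith)
  rw [ENNReal.ofReal_le_ofReal_iff (by positivity)] at k6
  have hl4 : 0 ≤ l ^ (1 / 4 : ℝ) := Real.rpow_nonneg h0.le _
  have k7 : (8 * X + Ca) * e * i ≤ η * Ar d ρ (q0 d) l m + l ^ (1 / 4 : ℝ) := by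
    have e1 : (8 * X + Ca) * e * Ci = min η 1 := by
      rw [he]
      field_simp
    calc _ ≤ (8 * X + Ca) * e * (Ci * (Ar d ρ (q0 d) l m + l ^ (1 / 4 : ℝ))) := by gcongr
      _ = min η 1 * Ar d ρ (q0 d) l m + min η 1 * l ^ (1 / 4 : ℝ) := by rw [← e1]; ring
      _ ≤ η * Ar d ρ (q0 d) l m + 1 * l ^ (1 / 4 : ℝ) := by
          gcongr
          exacts [min_le_left _ _, min_le_right _ _]
      _ = _ := by ring
  have k8 : Ca * Ar d ρ (q0 d) l' j₀ ≤ 1 := by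
    have : Ar d ρ (q0 d) l' j₀ ≤ Ca⁻¹ := by linarith
    rwa [← one_div, le_div_iff₀ (by linarith), mul_comm] at this
  have hlog : 0 ≤ Real.log (m / n) := le_trans (Nat.cast_nonneg d) p11
  have hz : 0 < (Z ^ 10)⁻¹ := by positivity
  have k9 : Ca * Ar d ρ (q0 d) l' j₀ * (l * m * o) ≤ Ca * Co * Ar d ρ (q0 d) l' n *
      (Ar d ρ (q0 d) l n + l ^ (1 / 4 : ℝ)) * Real.log (m / n) / L + 2 * (Z ^ 10)⁻¹ := by
    refine (mul_le_mul_of_nonneg_left hoA (by positivity)).trans ?_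
    rw [mul_add]
    refine add_le_add ?_ (mul_le_of_le_one_left (by positivity) k8)
    calc _ ≤ Ca * Ar d ρ (q0 d) l' n *
          (Co * (Ar d ρ (q0 d) l n + l ^ (1 / 4 : ℝ)) * Real.log (m / n) / L) := by
          have hL0 : 0 < L := by linarith
          gcongr
      _ = _ := by ring
  have k10 : 4 * (Z ^ 10)⁻¹ ≤ (Z ^ 9)⁻¹ := by
    have : (Z ^ 9)⁻¹ = Z * (Z ^ 10)⁻¹ := by field_simp
    rw [this]
    gcongr
    linarith
  have k11 := mul_le_mul_of_nonneg_left k6 p13.le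
  have k12 := mul_le_mul_of_nonneg_left k7 p13.le
  have e2 : l * m * ((Z ^ 10)⁻¹ / (l * m)) = (Z ^ 10)⁻¹ := mul_div_cancel₀ _ p13.ne'
  simp only [mul_add] at k11
  rw [e2] at k11
  linarith

/-- Two-stage gain: lower bound. -/
theorem b2_low (hd : 3 ≤ d) {κ M : ℝ} (hκ : 0 < κ) (η : ℝ) (hη : 0 < η) : ∃ C : ℝ, 1 ≤ C ∧
    ∀ (ρ : Measure ℝ≥0) [IsProbabilityMeasure ρ] (p l l' : ℝ) (m j : ℕ),
      Ctx d κ M ρ p l → l ≤ C⁻¹ → OO d ρ p l ≤ ENNReal.ofReal (l ^ (-(1 / (4 * d : ℝ)))) →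
      Kr d ρ p l ≤ C⁻¹ → 0 < l' → C * l' ≤ l → OO d ρ p l' ≠ ⊤ →
      (j : ℝ) ≤ l ^ (-(1 / (2 * d : ℝ))) → Kr d ρ p l' + Ar d ρ p l' j ≤ C⁻¹ → j ≤ m →
        (1 - η) * Ar d ρ p l m - l ^ (1 / 4 : ℝ) ≤ Gr d ρ p l l' m := by
  obtain ⟨Ci, hCi, Hi⟩ := gb2_II (M := M) hd hκ
  obtain ⟨X, hX⟩ : ∃ X, X = 2 * max M 1 := ⟨_, rfl⟩
  have hX1 : 1 ≤ X := by
    have := le_max_right M 1
    linarith
  have hμ : 0 < min η 1 := lt_min hη one_pos
  obtain ⟨e, he⟩ : ∃ e, e = min η 1 / (17 * X * Ci) := ⟨_, rfl⟩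
  have he0 : 0 < e := by rw [he]; positivity
  have e1 : 17 * X * e * Ci = min η 1 := by
    rw [he]
    field_simp
  have he1 : e ≤ 1 := by
    rw [he, div_le_one (by positivity)]
    have := min_le_right η 1
    nlinarith
  have hei : 1 ≤ e⁻¹ := (one_le_inv₀ he0).2 he1
  obtain ⟨s, hs⟩ : ∃ s, s = e⁻¹ ^ d := ⟨_, rfl⟩
  have hs1 : 1 ≤ s := hs ▸ one_le_pow₀ hei
  have hse : 0 < s / e := by positivity
  obtain ⟨Cf, hCf, Hf⟩ := fun_br (M := M) hd hκ e he0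
  refine ⟨Ci + Cf + s / e, by linarith, fun ρ _ p l l' m j hc hl hOl hK h0' hll hO' hj hA hjm => ?_⟩
  have inv : ∀ C' : ℝ, 0 < C' → C' ≤ Ci + Cf + s / e → (Ci + Cf + s / e)⁻¹ ≤ C'⁻¹ :=
    fun C' h h' => inv_anti₀ h h'
  have ii := inv Ci (by linarith) (by linarith)
  have iF := inv Cf (by linarith) (by linarith)
  have ie := inv (s / e) hse (by linarith)
  rw [inv_div] at ie
  have ie' : e / s ≤ e := div_le_self he0.le hs1
  have hd1 : 1 ≤ d := by omega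
  have hd3 : (3 : ℝ) ≤ d := by exact_mod_cast hd
  have hp := (hc.one_lt hd).1.le
  have hp2 := (hc.one_lt hd).2.le
  have hM := hc.good.1
  have h0 := hc.l0
  have h1 := hc.l1
  have hlt : l' < l := by nlinarith
  have h1' : l' < 1 := hlt.trans h1
  have hO : OO d ρ p l ≠ ⊤ := ne_top_of_le_ne_top ENNReal.ofReal_ne_top hOl
  obtain ⟨χ, hχ, hχt, hχX, -⟩ := gloc2_chi hd hκ hc.good
  rw [← hX] at hχX
  obtain ⟨i, hi0, hi, hiA⟩ := Hi ρ p l hc (hl.trans ii) hO (hK.trans ii) m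
  have k1 := gb2_det (ρ := ρ) (l' := l') hd1 hM hp hp2 h0 h1 (measurableSet_lev 2) (s := s)
    (by linarith) (nice_phi hd1 m).mass_ne_top (B := HH ρ p l' (phi d j)) fun n => by
      rw [avg_iter_phi]
      exact HH_phi_anti hd1 hp (hjm.trans (Nat.le_add_right m n))
  have k2 := gb2_cmp hd1 hM hχ hχt h0 h1 (by linarith) hp2 (nice_phi hd1 m) (mass_phi hd1 m)
    measurable_HH (measurable_Res measurable_HH) fun g hg =>
      (Hf ρ p l l' j hc (hl.trans iF) (hK.trans iF) hOl h0' (by nlinarith) hO' hj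
        (hA.trans iF) g hg).2
  have k3 := gb2_X_le hd1 hM hχ hχt h0 h1 hp hp2 (nice_phi hd1 m) (mass_phi hd1 m)
  have k4 := gb2_Gr hd1 hM hp h0' hlt h1 hO' m
  have k5 := gb2_Y (by linarith) hχX hi
  have k6 := gb2_exit_mass hd1 hM hχ hχt h0 h1 (nice_phi hd1 m) (mass_phi hd1 m)
  obtain ⟨-, hD1, hG⟩ := Gr_spec hd1 hM hp h0' hlt h1 hO' m
  have hD := ne_top_of_le_ne_top ENNReal.one_ne_top hD1
  have hKe : KK d ρ p l ≤ ENNReal.ofReal e := by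
    rw [← ofReal_Kr hd1 hM hp h0 h1]
    exact ENNReal.ofReal_le_ofReal (hK.trans (ie.trans ie'))
  have hc1 : KK d ρ p l' * (ENNReal.ofReal (s ^ (1 - p)) * OO d ρ p l' +
      ENNReal.ofReal (2 * s) * HH ρ p l' (phi d j)) ≤ 3 * ENNReal.ofReal e := by
    have a1 : s ^ (1 - p) ≤ e := by
      have a2 : s ^ (1 - p) ≤ s ^ (-(1 / d : ℝ)) :=
        Real.rpow_le_rpow_of_exponent_le hs1 (by linarith [hc.p1])
      refine a2.trans (le_of_eq ?_)
      rw [hs, ← Real.rpow_natCast, ← Real.rpow_mul (by positivity)]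
      have : (d : ℝ) * -(1 / d) = -1 := by field_simp
      rw [this, Real.rpow_neg_one, inv_inv]
    have a3 : 2 * s * (Kr d ρ p l' + Ar d ρ p l' j) ≤ 2 * e := by
      have := hA.trans ie
      rw [le_div_iff₀ (by linarith)] at this
      linarith
    have hO0 : OO d ρ p l' ≠ 0 := (zero_lt_one.trans_le (one_le_OO hd1 hM hp h0' h1')).ne'
    rw [mul_add, mul_left_comm, mul_left_comm (KK d ρ p l'), (Kr_add_Ar hd1 hM hp h0' h1' hO' j).1,
      ← ENNReal.ofReal_mul (by linarith), KK, ENNReal.inv_mul_cancel hO0 hO', mul_one]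
    refine (add_le_add (ENNReal.ofReal_le_ofReal a1) (ENNReal.ofReal_le_ofReal a3)).trans ?_
    rw [ENNReal.ofReal_mul (by norm_num), ENNReal.ofReal_ofNat]
    exact le_of_eq (by ring)
  have k7 : ENNReal.ofReal (Ar d ρ p l m) ≤ ENNReal.ofReal (Gr d ρ p l l' m + 17 * e * (X * i)) := by
    rw [← ENNReal.add_le_add_iff_left hD, ENNReal.ofReal_add hG (by positivity), ← add_assoc, k4,
      ← (Kr_add_Ar hd1 hM hp h0 h1 hO m).2.2, ENNReal.ofReal_mul (by positivity),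
      ENNReal.ofReal_mul (by norm_num), ENNReal.ofReal_ofNat]
    have b1 := mul_le_mul_right k1 (KK d ρ p l')
    rw [mul_add, ← mul_assoc] at b1
    have b2 := mul_le_mul_right k3 (KK d ρ p l)
    rw [mul_add] at b2
    rw [mul_assoc] at k2 k6
    calc _ ≤ _ := add_le_add
          (b1.trans (add_le_add le_rfl (mul_le_mul' hc1 (k6.trans (mul_le_mul_right k5 _)))))
          (b2.trans (add_le_add (k2.trans (add_le_add le_rfl
            (mul_le_mul_right (mul_le_mul_right k5 _) _))) (mul_le_mul' hKe k5)))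
      _ = _ := by ring
  rw [ENNReal.ofReal_le_ofReal_iff (by positivity)] at k7
  have hl4 : 0 ≤ l ^ (1 / 4 : ℝ) := Real.rpow_nonneg h0.le _
  have hAm : 0 ≤ Ar d ρ p l m := ENNReal.toReal_nonneg
  have k8 : 17 * X * e * i ≤ η * Ar d ρ p l m + l ^ (1 / 4 : ℝ) := by
    calc _ ≤ 17 * X * e * (Ci * (Ar d ρ p l m + l ^ (1 / 4 : ℝ))) := by gcongr
      _ = min η 1 * Ar d ρ p l m + min η 1 * l ^ (1 / 4 : ℝ) := by rw [← e1]; ring
      _ ≤ η * Ar d ρ p l m + 1 * l ^ (1 / 4 : ℝ) := by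
          gcongr
          exacts [min_le_left _ _, min_le_right _ _]
      _ = _ := by ring
  linarith

end Pool.Agent.Lib.MP_153faa_pr
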