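import Mathlib
import Pool.Agent.Lib.MP_153faa_pr.GB1
import Pool.Agent.Lib.MP_153faa_pr.GB2
import Pool.Agent.Lib.MP_153faa_pr.GA1

set_option autoImplicit false

open MeasureTheory Filter Topology
open scoped ENNReal NNReal

namespace Pool.Agent.Lib.MP_153faa_pr

variable {d : ℕ}

theorem gifa_q0 (hd : 3 ≤ d) : 1 ≤ q0 d := by
  have : (0 : ℝ) ≤ 2 / d := by positivity
  unfold q0
  linarith

theorem gifa_lt_one {s : ℝ} (hs : 0 < s) : Real.exp (-s) < 1 :=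
  Real.exp_lt_one_iff.2 (by linarith)

theorem gifa_ctx (hd : 3 ≤ d) {κ M : ℝ} {ρ : Measure ℝ≥0} (hg : Good d κ M ρ) {s : ℝ}
    (hs : 0 < s) : Ctx d κ M ρ (q0 d) (Real.exp (-s)) := by
  refine ⟨hg, ?_, le_rfl, Real.exp_pos _, gifa_lt_one hs⟩
  have hd' : (0 : ℝ) < d := by exact_mod_cast (by omega : 0 < d)
  unfold q0
  gcongr
  norm_num

theorem gifa_le_exp {C t : ℝ} (h : C ≤ t) : C ≤ Real.exp t := by
  have := Real.add_one_le_exp t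
  linarith

theorem gifa_exp_le_inv {C s : ℝ} (hC : 1 ≤ C) (h : C ≤ s) : Real.exp (-s) ≤ C⁻¹ := by
  rw [Real.exp_neg]
  exact inv_anti₀ (by linarith) (gifa_le_exp h)

theorem gifa_div (s t : ℝ) (a : ℕ) :
    Real.exp t ^ a / Real.exp (-s) = Real.exp (s + a * t) := by
  rw [← Real.exp_nat_mul, ← Real.exp_sub]
  congr 1
  ring

theorem gifa_inv (t : ℝ) (a : ℕ) : (Real.exp t ^ a)⁻¹ = Real.exp (-(a * t)) := by
  rw [← Real.exp_nat_mul, Real.exp_neg]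

theorem gifa_rpow (s c : ℝ) : Real.exp (-s) ^ (-c) = Real.exp (s * c) := by
  rw [← Real.exp_mul]
  congr 1
  ring

theorem gifa_mul_le {s x : ℝ} {m : ℕ} (h : (m : ℝ) ≤ Real.exp x) :
    Real.exp (-s) * m ≤ Real.exp (x - s) := by
  calc Real.exp (-s) * m ≤ Real.exp (-s) * Real.exp x := by gcongr
    _ = Real.exp (x - s) := by rw [← Real.exp_add]; congr 1; ring

theorem gifa_ceil {x : ℝ} (hx : 0 ≤ x) : (⌈Real.exp x⌉₊ : ℝ) ≤ Real.exp (x + 1) := by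
  have h1 := Nat.ceil_lt_add_one (Real.exp_pos x).le
  have h2 : 1 ≤ Real.exp x := Real.one_le_exp hx
  have h3 : (2 : ℝ) ≤ Real.exp 1 := by
    have := Real.add_one_le_exp (1 : ℝ)
    linarith
  rw [Real.exp_add]
  nlinarith

theorem gifa_floor {x : ℝ} (hx : 0 ≤ x) : Real.exp (x - 1) ≤ (⌊Real.exp x⌋₊ : ℝ) := by
  have h1 := Nat.lt_floor_add_one (Real.exp x)
  have h2 : 1 ≤ Real.exp x := Real.one_le_exp hx
  have h3 : (2 : ℝ) ≤ Real.exp 1 := by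
    have := Real.add_one_le_exp (1 : ℝ)
    linarith
  have h4 : (1 : ℝ) ≤ (⌊Real.exp x⌋₊ : ℝ) := by
    exact_mod_cast (Nat.one_le_floor_iff _).2 h2
  rw [Real.exp_sub, div_le_iff₀ (Real.exp_pos 1)]
  nlinarith

theorem gifa_poly {t : ℝ} (ht : 2000000 ≤ t) : 4 * t ^ 8 ≤ Real.exp t := by
  have h := Real.pow_div_factorial_le_exp t (by linarith) 9
  have h8 : 0 ≤ t ^ 8 := by positivity
  have e : ((Nat.factorial 9 : ℕ) : ℝ) = 362880 := by norm_num [Nat.factorial]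
  rw [e] at h
  have : t ^ 9 = t * t ^ 8 := by ring
  nlinarith

section
variable {ρ : Measure ℝ≥0} [IsProbabilityMeasure ρ]

theorem gifa_hor (hd : 3 ≤ d) (hm : Mean1 ρ) {s s' : ℝ} (hs : 0 < s) (h : s ≤ s') :
    OO d ρ (q0 d) (Real.exp (-s)) ≤ OO d ρ (q0 d) (Real.exp (-s')) :=
  OO_horizon (by omega) hm (gifa_q0 hd) (Real.exp_pos _) (Real.exp_le_exp.2 (by linarith))
    (gifa_lt_one hs)

theorem gifa_anti (hd : 3 ≤ d) (hm : Mean1 ρ) {s s' : ℝ} (hs : 0 < s) (h : s ≤ s') :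
    kk d ρ s' ≤ kk d ρ s := by
  unfold kk Kr KK
  refine ENNReal.toReal_mono ?_ (ENNReal.inv_le_inv.2 (gifa_hor hd hm hs h))
  exact ne_top_of_le_ne_top ENNReal.one_ne_top
    (gres2_KK_le (by omega) hm (gifa_q0 hd) (Real.exp_pos _) (gifa_lt_one hs))

theorem gifa_kk_le (hd : 3 ≤ d) (hm : Mean1 ρ) {s : ℝ} (hs : 0 < s) : kk d ρ s ≤ 1 :=
  Kr_le_one (by omega) hm (gifa_q0 hd) (Real.exp_pos _) (gifa_lt_one hs)

theorem gifa_OO_le (hd : 3 ≤ d) (hm : Mean1 ρ) {s x : ℝ} (hs : 0 < s)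
    (h : Real.exp (-x) ≤ kk d ρ s) :
    OO d ρ (q0 d) (Real.exp (-s)) ≤ ENNReal.ofReal (Real.exp x) := by
  have h1 := ENNReal.ofReal_le_ofReal h
  unfold kk at h1
  rw [ofReal_Kr (by omega) hm (gifa_q0 hd) (Real.exp_pos _) (gifa_lt_one hs), Real.exp_neg,
    ENNReal.ofReal_inv_of_pos (Real.exp_pos _)] at h1
  exact ENNReal.inv_le_inv.1 h1

end

theorem gifa_low (hd : 3 ≤ d) {κ M : ℝ} (hκ : 0 < κ) : ∃ (a : ℕ) (C : ℝ), 1 ≤ C ∧
    ∀ (ρ : Measure ℝ≥0) [IsProbabilityMeasure ρ] (s s' t : ℝ) (m : ℕ), Good d κ M ρ →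
      C ≤ s → C ≤ t → OO d ρ (q0 d) (Real.exp (-s)) ≤ ENNReal.ofReal (Real.exp t) →
      OO d ρ (q0 d) (Real.exp (-s')) ≠ ⊤ → Real.exp (s + a * t) ≤ m →
      (m : ℝ) ≤ Real.exp (s' - 20 * t) →
        kk d ρ s' + Ar d ρ (q0 d) (Real.exp (-s')) m ≤ kk d ρ s * (1 + Real.exp (-(10 * t))) := by
  obtain ⟨a, C, hC, h⟩ := a1_low (M := M) hd hκ
  refine ⟨a, C, hC, fun ρ _ s s' t m hg hs ht hO hO' hm hm' => ?_⟩
  have h1 := h ρ (q0 d) (Real.exp (-s)) (Real.exp (-s')) (Real.exp t) m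
    (gifa_ctx hd hg (by linarith)) (gifa_exp_le_inv hC hs) (gifa_le_exp ht) hO (Real.exp_pos _) hO'
    (by rwa [gifa_div]) (by
      calc Real.exp (-s') * m * Real.exp t ^ 20
          ≤ Real.exp (s' - 20 * t - s') * Real.exp t ^ 20 := by
            gcongr
            exact gifa_mul_le hm'
        _ = 1 := by
            rw [← Real.exp_nat_mul, ← Real.exp_add, ← Real.exp_zero]
            congr 1
            push_cast
            ring)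
  rw [gifa_inv] at h1
  exact_mod_cast h1

theorem gifa_up (hd : 3 ≤ d) {κ M : ℝ} (hκ : 0 < κ) : ∃ (a : ℕ) (C : ℝ), 1 ≤ C ∧
    ∀ (ρ : Measure ℝ≥0) [IsProbabilityMeasure ρ] (s s' t x : ℝ) (m : ℕ), Good d κ M ρ →
      C ≤ s → C ≤ t → OO d ρ (q0 d) (Real.exp (-s)) ≤ ENNReal.ofReal (Real.exp t) →
      s ^ 2 ≤ Real.exp t → s ≤ s' → OO d ρ (q0 d) (Real.exp (-s')) ≠ ⊤ → 1 ≤ m →
      (m : ℝ) ≤ Real.exp x →
        kk d ρ s ≤ kk d ρ s' + Ar d ρ (q0 d) (Real.exp (-s')) m + Real.exp (x - s + a * t) := by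
  obtain ⟨a, C, hC, h⟩ := a1_up (M := M) hd hκ
  refine ⟨a, C, hC, fun ρ _ s s' t x m hg hs ht hO hsq hss hO' hm hm' => ?_⟩
  have h1 := h ρ (Real.exp (-s)) (Real.exp (-s')) (Real.exp t) m
    (gifa_ctx hd hg (by linarith)) (gifa_exp_le_inv hC hs) (gifa_le_exp ht)
    ⟨hO, by rwa [Real.log_exp, neg_sq]⟩ (Real.exp_pos _) (Real.exp_le_exp.2 (by linarith)) hO' hm
  refine h1.trans (add_le_add le_rfl ?_)
  rw [Real.exp_add, ← Real.exp_nat_mul]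
  gcongr
  exact gifa_mul_le hm'

theorem gifa_b1 (hd : 3 ≤ d) {κ M : ℝ} (hκ : 0 < κ) : ∃ (a : ℕ) (C₁ : ℝ), 1 ≤ C₁ ∧
    ∀ η : ℝ, 0 < η → ∃ C : ℝ, 1 ≤ C ∧
      ∀ (ρ : Measure ℝ≥0) [IsProbabilityMeasure ρ] (s t : ℝ) (m₀ m : ℕ), Good d κ M ρ →
        C ≤ s → C ≤ t → OO d ρ (q0 d) (Real.exp (-(s + 2 * t))) ≤ ENNReal.ofReal (Real.exp t) →
        s ^ 2 ≤ Real.exp t → kk d ρ s ≤ C⁻¹ → Real.exp (s + a * t) ≤ m₀ → m₀ ≤ m →
        (m : ℝ) ≤ Real.exp (s + s / 16) →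
        C₁ * (1 + d / 2 * Real.log (m / m₀)) * kk d ρ s ≤ 1 →
        |Real.exp (-s) * m * Ar d ρ (q0 d) (Real.exp (-s)) m -
            (1 - kk d ρ s * Br d ρ (q0 d) (Real.exp (-s)) (d / 2 * Real.log (m / m₀))) *
              (Real.exp (-s) * m₀ * Ar d ρ (q0 d) (Real.exp (-s)) m₀)| ≤
          η * (Real.exp (-s) * m₀ * Ar d ρ (q0 d) (Real.exp (-s)) m₀) +
            Real.exp (-(10 * t)) := by
  obtain ⟨a, C₁, hC₁, h⟩ := b1 (M := M) hd hκ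
  refine ⟨a, C₁, hC₁, fun η hη => ?_⟩
  obtain ⟨C, hC, h⟩ := h η hη
  refine ⟨C, hC, fun ρ _ s t m₀ m hg hs ht hO hsq hK hm₀ hm hm' hy => ?_⟩
  have e : Real.exp (-s) / Real.exp t ^ 2 = Real.exp (-(s + 2 * t)) := by
    rw [← Real.exp_nat_mul, ← Real.exp_sub]
    congr 1
    push_cast
    ring
  have h1 := h ρ (Real.exp (-s)) (Real.exp t) m₀ m
    (gifa_ctx hd hg (by linarith)) (gifa_exp_le_inv hC hs) (gifa_le_exp ht)
    ⟨(gifa_hor hd hg.1 (by linarith) (by linarith)).trans hO, by rwa [Real.log_exp, neg_sq]⟩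
    (by rwa [e]) hK (by rwa [gifa_div]) hm (by
      rw [gifa_rpow]
      exact (gifa_mul_le hm').trans (Real.exp_le_exp.2 (by linarith))) hy
  rw [gifa_inv] at h1
  exact_mod_cast h1

theorem gifa_b2_up (hd : 3 ≤ d) {κ M : ℝ} (hκ : 0 < κ) : ∃ (a : ℕ) (C₁ : ℝ), 1 ≤ C₁ ∧
    ∀ η : ℝ, 0 < η → ∃ C : ℝ, 1 ≤ C ∧
      ∀ (ρ : Measure ℝ≥0) [IsProbabilityMeasure ρ] (s Δ t : ℝ) (m n j : ℕ), Good d κ M ρ →
        C ≤ s → C ≤ t → OO d ρ (q0 d) (Real.exp (-(s + Δ))) ≤ ENNReal.ofReal (Real.exp t) →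
        s ^ 2 ≤ Real.exp t → kk d ρ s ≤ C⁻¹ → C ≤ Δ → 2 ≤ Δ → (j : ℝ) ≤ Real.exp (s / (2 * d)) →
        kk d ρ (s + Δ) + Ar d ρ (q0 d) (Real.exp (-(s + Δ))) j ≤ C⁻¹ →
        Real.exp (s + a * t) ≤ m → (m : ℝ) ≤ Real.exp (s + s / 16) → 1 ≤ n →
        (n : ℝ) ≤ Real.exp (s - Δ - a * t) →
        Real.exp (-s) * m * Gr d ρ (q0 d) (Real.exp (-s)) (Real.exp (-(s + Δ))) m ≤
          (1 + η) * (Real.exp (-s) * m * Ar d ρ (q0 d) (Real.exp (-s)) m) +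
          C₁ * Ar d ρ (q0 d) (Real.exp (-(s + Δ))) n *
            (Ar d ρ (q0 d) (Real.exp (-s)) n + Real.exp (-(s / 4))) * Real.log (m / n) / Δ +
          Real.exp (-(9 * t)) := by
  obtain ⟨a, C₁, hC₁, h⟩ := b2_up (M := M) hd hκ
  refine ⟨a, C₁, hC₁, fun η hη => ?_⟩
  obtain ⟨C, hC, h⟩ := h η hη
  refine ⟨C, hC, fun ρ _ s Δ t m n j hg hs ht hO hsq hK hΔ hΔ2 hj hA hm hm' hn hn' => ?_⟩
  have h1 := h ρ (Real.exp (-s)) (Real.exp (-(s + Δ))) (Real.exp t) Δ m n j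
    (gifa_ctx hd hg (by linarith)) (gifa_exp_le_inv hC hs) (gifa_le_exp ht)
    ⟨(gifa_hor hd hg.1 (by linarith) (by linarith)).trans hO, by rwa [Real.log_exp, neg_sq]⟩
    hK (Real.exp_pos _) (by
      calc C * Real.exp (-(s + Δ)) ≤ Real.exp Δ * Real.exp (-(s + Δ)) := by
            gcongr
            exact gifa_le_exp hΔ
        _ = Real.exp (-s) := by rw [← Real.exp_add]; congr 1; ring)
    (ne_top_of_le_ne_top ENNReal.ofReal_ne_top hO)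
    (by rw [gifa_rpow]; rwa [mul_one_div]) hA (by rwa [gifa_div]) (by
      rw [gifa_rpow]
      exact (gifa_mul_le hm').trans (Real.exp_le_exp.2 (by linarith))) hΔ2 hn (by
      calc Real.exp (-s) * n * Real.exp Δ * Real.exp t ^ a
          ≤ Real.exp (s - Δ - a * t - s) * Real.exp Δ * Real.exp t ^ a := by
            gcongr
            exact gifa_mul_le hn'
        _ = 1 := by
            rw [← Real.exp_nat_mul, ← Real.exp_add, ← Real.exp_add, ← Real.exp_zero]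
            congr 1
            ring)
  have e : Real.exp (-s) ^ (1 / 4 : ℝ) = Real.exp (-(s / 4)) := by
    rw [← Real.exp_mul]
    congr 1
    ring
  rw [gifa_inv, e] at h1
  exact_mod_cast h1

theorem gifa_b2_low (hd : 3 ≤ d) {κ M : ℝ} (hκ : 0 < κ) (η : ℝ) (hη : 0 < η) : ∃ C : ℝ, 1 ≤ C ∧
    ∀ (ρ : Measure ℝ≥0) [IsProbabilityMeasure ρ] (s Δ t : ℝ) (m j : ℕ), Good d κ M ρ →
      C ≤ s → OO d ρ (q0 d) (Real.exp (-(s + Δ))) ≤ ENNReal.ofReal (Real.exp t) →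
      t ≤ s / (4 * d) → kk d ρ s ≤ C⁻¹ → C ≤ Δ → (j : ℝ) ≤ Real.exp (s / (2 * d)) →
      kk d ρ (s + Δ) + Ar d ρ (q0 d) (Real.exp (-(s + Δ))) j ≤ C⁻¹ → j ≤ m →
        (1 - η) * Ar d ρ (q0 d) (Real.exp (-s)) m - Real.exp (-(s / 4)) ≤
          Gr d ρ (q0 d) (Real.exp (-s)) (Real.exp (-(s + Δ))) m := by
  obtain ⟨C, hC, h⟩ := b2_low (M := M) hd hκ η hη
  refine ⟨C, hC, fun ρ _ s Δ t m j hg hs hO ht hK hΔ hj hA hm => ?_⟩
  have h1 := h ρ (q0 d) (Real.exp (-s)) (Real.exp (-(s + Δ))) m j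
    (gifa_ctx hd hg (by linarith)) (gifa_exp_le_inv hC hs) (by
      rw [gifa_rpow, mul_one_div]
      exact ((gifa_hor hd hg.1 (by linarith) (by linarith)).trans hO).trans
        (ENNReal.ofReal_le_ofReal (Real.exp_le_exp.2 ht)))
    hK (Real.exp_pos _) (by
      calc C * Real.exp (-(s + Δ)) ≤ Real.exp Δ * Real.exp (-(s + Δ)) := by
            gcongr
            exact gifa_le_exp hΔ
        _ = Real.exp (-s) := by rw [← Real.exp_add]; congr 1; ring)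
    (ne_top_of_le_ne_top ENNReal.ofReal_ne_top hO)
    (by rw [gifa_rpow]; rwa [mul_one_div]) hA hm
  have e : Real.exp (-s) ^ (1 / 4 : ℝ) = Real.exp (-(s / 4)) := by
    rw [← Real.exp_mul]
    congr 1
    ring
  rwa [e] at h1

theorem gifa_err {C t : ℝ} (h : 32 * C ≤ t) (h4 : 4 ≤ t) :
    32 * C * Real.exp (-(10 * t)) ^ 2 + 2 * Real.exp (-(10 * t)) + Real.exp (-(9 * t)) ≤
      Real.exp (-t) ^ 2 := by
  have hu : 0 < Real.exp (-t) := Real.exp_pos _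
  have h1 : t * Real.exp (-t) ≤ 1 := by
    have := gifa_le_exp (le_refl t)
    calc t * Real.exp (-t) ≤ Real.exp t * Real.exp (-t) := by gcongr
      _ = 1 := by rw [← Real.exp_add, add_neg_cancel, Real.exp_zero]
  have h3 : Real.exp (-(9 * t)) ≤ Real.exp (-t) ^ 3 := by
    rw [← Real.exp_nat_mul]
    exact Real.exp_le_exp.2 (by push_cast; linarith)
  have h10 : Real.exp (-(10 * t)) ≤ Real.exp (-t) ^ 3 := by
    rw [← Real.exp_nat_mul]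
    exact Real.exp_le_exp.2 (by push_cast; linarith)
  have h11 : Real.exp (-(10 * t)) ≤ Real.exp (-t) := Real.exp_le_exp.2 (by linarith)
  have h0 : 0 < Real.exp (-(10 * t)) := Real.exp_pos _
  generalize Real.exp (-(10 * t)) = x at *
  generalize Real.exp (-(9 * t)) = z at *
  generalize Real.exp (-t) = u at *
  have h5 : 32 * C * x ^ 2 ≤ u ^ 3 := by
    calc 32 * C * x ^ 2 = 32 * C * x * x := by ring
      _ ≤ t * u * u ^ 3 := by gcongr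
      _ ≤ 1 * u ^ 3 := by gcongr
      _ = u ^ 3 := one_mul _
  have h6 : 4 * u ^ 3 ≤ u ^ 2 := by
    calc 4 * u ^ 3 = 4 * u * u ^ 2 := by ring
      _ ≤ t * u * u ^ 2 := by gcongr
      _ ≤ 1 * u ^ 2 := by gcongr
      _ = u ^ 2 := one_mul _
  linarith

theorem gifa_five {G X g b η' η C₂ C₁ A' A r L Δ D e e' e'' : ℝ} (hg : 0 ≤ g) (hb : 0 ≤ b)
    (h0 : 0 < η') (h1 : η' ≤ 1) (h3 : 3 * η' ≤ η) (he : 0 ≤ e)
    (hX : X ≤ (1 - b) * g + (η' * g + e))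
    (hG : G ≤ (1 + η') * X + C₂ * A' * (A + r) * L / Δ + e') (hA' : 0 ≤ A') (hA'2 : A' ≤ D + e)
    (hA : 0 ≤ A) (hA2 : A ≤ D + e) (hr : 0 ≤ r) (hr2 : r ≤ e) (hL : L ≤ 4 * Δ) (hΔ : 0 < Δ)
    (hC₂ : 0 ≤ C₂) (hC : 8 * C₂ ≤ C₁) (herr : 32 * C₂ * e ^ 2 + 2 * e + e' ≤ e'') :
    G ≤ (1 - b + η) * g + C₁ * D ^ 2 + e'' := by
  have a1 : (1 + η') * X ≤ (1 - b + η) * g + 2 * e := by
    have b1 : (1 + η') * X ≤ (1 + η') * ((1 - b) * g + (η' * g + e)) := by gcongr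
    have b2 : 0 ≤ η' * (b * g) := by positivity
    have b3 : η' * (η' * g) ≤ 1 * (η' * g) := by gcongr
    have b4 : η' * e ≤ 1 * e := by gcongr
    have b5 : 3 * η' * g ≤ η * g := by gcongr
    nlinarith
  have a2 : C₂ * A' * (A + r) * L / Δ ≤ C₁ * D ^ 2 + 32 * C₂ * e ^ 2 := by
    rw [div_le_iff₀ hΔ]
    have b1 : A' * (A + r) ≤ (D + 2 * e) * (D + 2 * e) := by
      exact mul_le_mul (by linarith) (by linarith) (by positivity) (by linarith)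
    have b2 : (D + 2 * e) * (D + 2 * e) ≤ 2 * D ^ 2 + 8 * e ^ 2 := by
      nlinarith [sq_nonneg (D - 2 * e)]
    have b3 : 8 * C₂ * D ^ 2 ≤ C₁ * D ^ 2 := by gcongr
    calc C₂ * A' * (A + r) * L ≤ C₂ * A' * (A + r) * (4 * Δ) := by gcongr
      _ = 4 * C₂ * (A' * (A + r)) * Δ := by ring
      _ ≤ 4 * C₂ * (2 * D ^ 2 + 8 * e ^ 2) * Δ := by gcongr; exact b1.trans b2
      _ = (8 * C₂ * D ^ 2 + 32 * C₂ * e ^ 2) * Δ := by ring
      _ ≤ (C₁ * D ^ 2 + 32 * C₂ * e ^ 2) * Δ := by gcongr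
  linarith

theorem gifa_seven {G A w g b η' η r e e'' : ℝ} (hg : 0 ≤ g) (hb : 0 ≤ b) (hw : 0 ≤ w)
    (h0 : 0 < η') (h1 : η' ≤ 1) (h3 : 3 * η' ≤ η) (he : 0 ≤ e)
    (hX : (1 - b) * g - (η' * g + e) ≤ w * A) (hG : (1 - η') * A - r ≤ G) (hr : w * r ≤ e)
    (herr : 2 * e ≤ e'') : (1 - b - η) * g - e'' ≤ w * G := by
  have a1 : w * ((1 - η') * A - r) ≤ w * G := by gcongr
  have a2 : (1 - η') * ((1 - b) * g - (η' * g + e)) ≤ (1 - η') * (w * A) :=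
    mul_le_mul_of_nonneg_left hX (by linarith)
  have b2 : 0 ≤ η' * (b * g) := by positivity
  have b3 : 0 ≤ η' * (η' * g) := by positivity
  have b4 : 0 ≤ η' * e := by positivity
  have b5 : 3 * η' * g ≤ η * g := by gcongr
  have b6 : 0 ≤ η' * g := by positivity
  nlinarith

theorem gifa_scale {T σ : ℝ} (hT : 1 ≤ T) (h : T ^ 4 ≤ σ) :
    T ≤ σ ^ (1 / 4 : ℝ) ∧ √σ = (σ ^ (1 / 4 : ℝ)) ^ 2 ∧ σ = (σ ^ (1 / 4 : ℝ)) ^ 4 ∧
      σ ^ (1 / 5 : ℝ) ≤ σ ^ (1 / 4 : ℝ) := by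
  have h1 : 1 ≤ σ := (one_le_pow₀ hT).trans h
  have h0 : 0 ≤ σ := by linarith
  have h4 : (σ ^ (1 / 4 : ℝ)) ^ 4 = σ := by
    rw [← Real.rpow_natCast, ← Real.rpow_mul h0]
    norm_num
  have ht : 0 ≤ σ ^ (1 / 4 : ℝ) := Real.rpow_nonneg h0 _
  refine ⟨?_, ?_, h4.symm, Real.rpow_le_rpow_of_exponent_le h1 (by norm_num)⟩
  · exact le_of_pow_le_pow_left₀ (n := 4) (by norm_num) ht (by rwa [h4])
  · rw [Real.sqrt_eq_iff_mul_self_eq h0 (by positivity)]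
    calc _ = (σ ^ (1 / 4 : ℝ)) ^ 4 := h4.symm
      _ = _ := by ring

/-- All estimates at one scale, in the variables of the flow. -/
theorem if_setup (hd : 3 ≤ d) {κ M : ℝ} (hκ : 0 < κ) : ∃ a₀ : ℕ, 1 ≤ a₀ ∧ ∀ a : ℕ, a₀ ≤ a →
    ∃ C₁ : ℝ, 1 ≤ C₁ ∧ ∀ η : ℝ, 0 < η → ∃ σ₀ k₀ : ℝ, 1 ≤ σ₀ ∧ 0 < k₀ ∧
      ∀ (ρ : Measure ℝ≥0) [IsProbabilityMeasure ρ] (σ₁ σ Δ : ℝ), Good d κ M ρ → σ₀ ≤ σ₁ →
        kk d ρ σ₁ ≤ k₀ → Adm C₁ (4 * d * σ₁) (kk d ρ) σ Δ →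
        OO d ρ (q0 d) (Real.exp (-(σ + Δ))) ≠ ⊤ ∧
        kk d ρ (σ + Δ) + Ar d ρ (q0 d) (Real.exp (-(σ + Δ)))
            ⌈Real.exp (σ + a * σ ^ (1 / 4 : ℝ))⌉₊ ≤ kk d ρ σ + tiny σ ^ 2 ∧
        kk d ρ (σ + √σ) ≤ kk d ρ (σ + Δ) + Ar d ρ (q0 d) (Real.exp (-(σ + Δ)))
            ⌈Real.exp (σ + a * σ ^ (1 / 4 : ℝ))⌉₊ + tiny σ ^ 2 ∧
        ∀ (m : ℕ) (y : ℝ), ⌈Real.exp (σ + a * σ ^ (1 / 4 : ℝ))⌉₊ ≤ m →
          (m : ℝ) ≤ Real.exp (σ + 2 * Δ) →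
          y = d / 2 * Real.log (m / (⌈Real.exp (σ + a * σ ^ (1 / 4 : ℝ))⌉₊ : ℝ)) →
          0 ≤ Br d ρ (q0 d) (Real.exp (-σ)) y ∧
          2 * (kk d ρ σ * Br d ρ (q0 d) (Real.exp (-σ)) y) ≤ C₁ * kk d ρ σ * Δ ∧
          (∀ y', 0 ≤ y' → y' ≤ y →
            Br d ρ (q0 d) (Real.exp (-σ)) y' ≤ Br d ρ (q0 d) (Real.exp (-σ)) y) ∧
          (∀ y', y ≤ y' →
            Br d ρ (q0 d) (Real.exp (-σ)) y ≤ Br d ρ (q0 d) (Real.exp (-σ)) y') ∧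
          Real.exp (-σ) * m * Gr d ρ (q0 d) (Real.exp (-σ)) (Real.exp (-(σ + Δ))) m ≤
            (1 - kk d ρ σ * Br d ρ (q0 d) (Real.exp (-σ)) y + η) * gg d ρ a σ +
              C₁ * (kk d ρ (σ - 2 * Δ) - kk d ρ (σ + Δ)) ^ 2 + tiny σ ^ 2 ∧
          Real.exp (-σ) * m * Ar d ρ (q0 d) (Real.exp (-σ)) m ≤
            (1 - kk d ρ σ * Br d ρ (q0 d) (Real.exp (-σ)) y + η) * gg d ρ a σ + tiny σ ^ 2 ∧
          (1 - kk d ρ σ * Br d ρ (q0 d) (Real.exp (-σ)) y - η) * gg d ρ a σ - tiny σ ^ 2 ≤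
            Real.exp (-σ) * m * Gr d ρ (q0 d) (Real.exp (-σ)) (Real.exp (-(σ + Δ))) m := by
  obtain ⟨aL, CL, hCL, hlow⟩ := gifa_low (M := M) hd hκ
  obtain ⟨aU, CU, hCU, hup⟩ := gifa_up (M := M) hd hκ
  obtain ⟨a1, C1, hC1, hb1⟩ := gifa_b1 (M := M) hd hκ
  obtain ⟨a2, C2, hC2, hb2⟩ := gifa_b2_up (M := M) hd hκ
  obtain ⟨Cb, hCb, hbr⟩ := br_lin (M := M) hd hκ
  have hd3 : (3 : ℝ) ≤ d := by exact_mod_cast hd
  refine ⟨aL + a1 + a2 + 1, by omega, fun a ha => ⟨4 * d * Cb + 2 * d * C1 + 8 * C2, ?_, ?_⟩⟩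
  · have : 0 ≤ 4 * d * Cb + 2 * d * C1 := by positivity
    linarith
  intro η hη
  obtain ⟨η', hη0, hη1, hη3⟩ : ∃ η' : ℝ, 0 < η' ∧ η' ≤ 1 ∧ 3 * η' ≤ η :=
    ⟨min 1 (η / 3), by positivity, min_le_left _ _, by
      have := min_le_right 1 (η / 3)
      linarith⟩
  obtain ⟨E1, hE1, hb1⟩ := hb1 η' hη0
  obtain ⟨E2, hE2, hb2⟩ := hb2 η' hη0
  obtain ⟨E3, hE3, hb3⟩ := gifa_b2_low (M := M) hd hκ η' hη0
  obtain ⟨S, hS⟩ : ∃ S : ℝ, S = CL + CU + Cb + E1 + E2 + E3 + 32 * C2 := ⟨_, rfl⟩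
  obtain ⟨T, hT⟩ : ∃ T : ℝ, T = 2000000 + 4 * d * (aL + 1) + (a + aL + aU + a2) + S := ⟨_, rfl⟩
  have hS1 : 1 ≤ S := by linarith
  have hn1 : (0 : ℝ) ≤ 4 * d * (aL + 1) := by positivity
  have hn2 : (0 : ℝ) ≤ a + aL + aU + a2 := by positivity
  have hT1 : 1 ≤ T := by linarith
  have hT4 : T ≤ T ^ 4 := le_self_pow₀ hT1 (by norm_num)
  refine ⟨T ^ 4, (2 * S)⁻¹, one_le_pow₀ hT1, by positivity, ?_⟩
  rintro ρ _ σ₁ σ Δ hg hσ₁ hk₀ ⟨had1, had2, had3, had4, had5⟩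
  have hm1 : Mean1 ρ := hg.1
  have hσ₁T : T ≤ σ₁ := hT4.trans hσ₁
  have hσσ : σ₁ ≤ σ := by
    have b1 : 0 ≤ (4 * d - 1) * σ₁ := mul_nonneg (by linarith) (by linarith)
    linarith only [b1, had1]
  obtain ⟨htT, hsq, h4, h5⟩ := gifa_scale hT1 (hσ₁.trans hσσ)
  unfold gg tiny
  rw [hsq] at had2 ⊢
  generalize σ ^ (1 / 4 : ℝ) = t at *
  have ht0 : 0 ≤ t := by linarith
  have htb : 2000000 ≤ t := by linarith
  have hSt : S ≤ t := by linarith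
  have hTt : T * t ≤ t ^ 2 := by rw [sq]; gcongr
  have n1 : (0 : ℝ) ≤ a * t := by positivity
  have n2 : (0 : ℝ) ≤ aL * t := by positivity
  have n3 : (0 : ℝ) ≤ aU * t := by positivity
  have n4 : (0 : ℝ) ≤ a2 * t := by positivity
  have n5 : (0 : ℝ) ≤ S * t := by positivity
  have n6 : (0 : ℝ) ≤ 4 * d * ((aL + 1) * t) := by positivity
  have hexp : T * t =
      2000000 * t + 4 * d * ((aL + 1) * t) + (a * t + aL * t + aU * t + a2 * t) + S * t := by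
    rw [hT]; ring
  have hA : 2000000 * t + a * t + aL * t + aU * t + a2 * t ≤ t ^ 2 := by linarith
  have hB : aL * t + t ≤ σ / (4 * d) := by
    rw [le_div_iff₀ (by positivity)]
    linarith
  have hB1 : σ₁ ≤ σ / (4 * d) := by
    rw [le_div_iff₀ (by positivity)]
    linarith
  have hσ0 : 0 < σ := by linarith
  have hB2 : σ / (2 * d) = 2 * (σ / (4 * d)) := by
    field_simp
    ring
  have hB3 : σ / (4 * d) ≤ σ / 12 := by
    gcongr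
    linarith
  have ha1 : (a1 : ℝ) * t ≤ a * t := by
    gcongr
    omega
  have ha2 : (a2 : ℝ) * t ≤ a * t := by
    gcongr
    omega
  have ha3 : (aL : ℝ) * t ≤ a * t := by
    gcongr
    omega
  have hpoly : ∀ s : ℝ, 0 ≤ s → s ≤ 2 * σ → s ^ 2 ≤ Real.exp t := fun s h0 hs => by
    refine le_trans ?_ (gifa_poly htb)
    calc s ^ 2 ≤ (2 * σ) ^ 2 := by gcongr
      _ = 4 * t ^ 8 := by rw [h4]; ring
  have hO' : OO d ρ (q0 d) (Real.exp (-(σ + Δ))) ≤ ENNReal.ofReal (Real.exp t) :=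
    (gifa_OO_le hd hm1 (by linarith) had5).trans
      (ENNReal.ofReal_le_ofReal (Real.exp_le_exp.2 h5))
  have hO : ∀ s : ℝ, 0 < s → s ≤ σ + Δ →
      OO d ρ (q0 d) (Real.exp (-s)) ≤ ENNReal.ofReal (Real.exp t) :=
    fun s h0 hs => (gifa_hor hd hm1 h0 hs).trans hO'
  have hOt : ∀ s : ℝ, 0 < s → s ≤ σ + Δ → OO d ρ (q0 d) (Real.exp (-s)) ≠ ⊤ :=
    fun s h0 hs => ne_top_of_le_ne_top ENNReal.ofReal_ne_top (hO s h0 hs)
  have hm₀l : Real.exp (σ + a * t) ≤ (⌈Real.exp (σ + a * t)⌉₊ : ℝ) := Nat.le_ceil _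
  have hm₀u : (⌈Real.exp (σ + a * t)⌉₊ : ℝ) ≤ Real.exp (σ + a * t + 1) := gifa_ceil (by linarith)
  generalize ⌈Real.exp (σ + a * t)⌉₊ = m₀ at *
  have hm₀p : (0 : ℝ) < m₀ := (Real.exp_pos _).trans_le hm₀l
  have e0 : 0 < Real.exp (-(10 * t)) := Real.exp_pos _
  have e9 : 0 < Real.exp (-(9 * t)) := Real.exp_pos _
  have e1 : Real.exp (-(10 * t)) ≤ 1 := Real.exp_le_one_iff.2 (by linarith)
  have herr := gifa_err (C := C2) (t := t) (by linarith) (by linarith)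
  have herr2 : 2 * Real.exp (-(10 * t)) ≤ Real.exp (-t) ^ 2 := by
    have : 0 ≤ 32 * C2 * Real.exp (-(10 * t)) ^ 2 := by positivity
    linarith
  have hlow' : ∀ (s s' : ℝ) (m : ℕ), t ≤ s → s ≤ σ + Δ → 0 < s' → s' ≤ σ + Δ →
      Real.exp (s + aL * t) ≤ m → (m : ℝ) ≤ Real.exp (s' - 20 * t) →
      kk d ρ s' + Ar d ρ (q0 d) (Real.exp (-s')) m ≤ kk d ρ s + Real.exp (-(10 * t)) := by
    intro s s' m h1 h2 h3 h4 h5 h6
    refine (hlow ρ s s' t m hg (by linarith) (by linarith) (hO s (by linarith) h2) (hOt s' h3 h4)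
      h5 h6).trans ?_
    have b1 := mul_le_mul_of_nonneg_right (gifa_kk_le hd hm1 (s := s) (by linarith)) e0.le
    linarith only [b1]
  have hK0 : 0 ≤ kk d ρ σ := Kr_nonneg
  have hinv : ∀ E : ℝ, 1 ≤ E → E ≤ S → 2 * (2 * S)⁻¹ ≤ E⁻¹ := fun E h1 h2 => by
    rw [mul_inv, ← mul_assoc, mul_inv_cancel₀ two_ne_zero, one_mul]
    exact inv_anti₀ (by linarith) h2
  have hS0 : 0 < (2 * S)⁻¹ := by positivity
  have hK : ∀ E : ℝ, 1 ≤ E → E ≤ S → kk d ρ σ ≤ E⁻¹ := fun E h1 h2 => by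
    have := gifa_anti hd hm1 (s := σ₁) (s' := σ) (by linarith) hσσ
    have := hinv E h1 h2
    linarith
  refine ⟨hOt _ (by linarith) le_rfl, ?_, ?_, ?_⟩
  · have := hlow' σ (σ + Δ) m₀ (by linarith) (by linarith) (by linarith) le_rfl
      ((Real.exp_le_exp.2 (by linarith)).trans hm₀l)
      (hm₀u.trans (Real.exp_le_exp.2 (by linarith)))
    linarith
  · have := hup ρ (σ + t ^ 2) (σ + Δ) t (σ + a * t + 1) m₀ hg (by linarith) (by linarith)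
      (hO _ (by linarith) (by linarith)) (hpoly _ (by linarith) (by linarith)) (by linarith)
      (hOt _ (by linarith) le_rfl) (by exact_mod_cast hm₀p) hm₀u
    refine this.trans (add_le_add le_rfl ?_)
    rw [← Real.exp_nat_mul]
    exact Real.exp_le_exp.2 (by push_cast; linarith)
  intro m y hm hmu hy
  have hmr : (m₀ : ℝ) ≤ m := by exact_mod_cast hm
  have hmp : (0 : ℝ) < m := hm₀p.trans_le hmr
  have hΔ1 : 1 ≤ Δ := by linarith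
  have hlogm : Real.log m ≤ σ + 2 * Δ := (Real.log_le_iff_le_exp hmp).2 hmu
  have hy0 : 0 ≤ y := by
    rw [hy]
    exact mul_nonneg (by positivity) (Real.log_nonneg ((one_le_div hm₀p).2 hmr))
  have hy1 : 1 + y ≤ 2 * d * Δ := by
    have b1 : σ + a * t ≤ Real.log m₀ := (Real.le_log_iff_exp_le hm₀p).2 hm₀l
    have b2 : Real.log (m / m₀) ≤ 2 * Δ := by
      rw [Real.log_div hmp.ne' hm₀p.ne']
      linarith only [b1, hlogm, n1]
    have b3 : (d : ℝ) / 2 * Real.log (m / m₀) ≤ d / 2 * (2 * Δ) := by gcongr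
    have b4 : (3 : ℝ) * 1 ≤ d * Δ := by gcongr
    rw [hy]
    linarith only [b3, b4]
  have hx := gifa_ctx hd hg hσ0
  have hbr' := hbr ρ (q0 d) (Real.exp (-σ)) hx (gifa_exp_le_inv hCb (by linarith))
    (hOt σ hσ0 (by linarith))
  obtain ⟨-, hB0, hBu, hBm, -⟩ := hbr' y hy0
  have hKΔ : 0 ≤ kk d ρ σ * Δ := by positivity
  have hm16 : (m : ℝ) ≤ Real.exp (σ + σ / 16) := hmu.trans (Real.exp_le_exp.2 (by linarith))
  have r1 := hb1 ρ σ t m₀ m hg (by linarith) (by linarith) (hO _ (by linarith) (by linarith))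
    (hpoly σ hσ0.le (by linarith)) (hK E1 hE1 (by linarith))
    ((Real.exp_le_exp.2 (by linarith)).trans hm₀l) hm hm16 (by
      rw [← hy]
      refine le_trans ?_ had4
      have b1 : 0 ≤ (4 * d * Cb + 8 * C2) * (kk d ρ σ * Δ) := by positivity
      calc C1 * (1 + y) * kk d ρ σ ≤ C1 * (2 * d * Δ) * kk d ρ σ := by gcongr
        _ ≤ _ := by linarith only [b1])
  rw [← hy] at r1
  obtain ⟨r1l, r1u⟩ := abs_le.1 r1
  have hg0 : 0 ≤ Real.exp (-σ) * m₀ * Ar d ρ (q0 d) (Real.exp (-σ)) m₀ :=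
    mul_nonneg (by positivity) ENNReal.toReal_nonneg
  have hKB : 0 ≤ kk d ρ σ * Br d ρ (q0 d) (Real.exp (-σ)) y := mul_nonneg hK0 hB0
  -- the short reference age
  obtain ⟨j, hjl, hju⟩ : ∃ j : ℕ, Real.exp (σ₁ + aL * t) ≤ j ∧
      (j : ℝ) ≤ Real.exp (σ / (2 * d)) :=
    ⟨⌈Real.exp (σ₁ + aL * t)⌉₊, Nat.le_ceil _,
      (gifa_ceil (by linarith)).trans (Real.exp_le_exp.2 (by linarith))⟩
  have hjA : kk d ρ (σ + Δ) + Ar d ρ (q0 d) (Real.exp (-(σ + Δ))) j ≤ 2 * (2 * S)⁻¹ := by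
    refine (hlow ρ σ₁ (σ + Δ) t j hg (by linarith) (by linarith) (hO _ (by linarith) (by linarith))
      (hOt _ (by linarith) le_rfl) hjl (hju.trans (Real.exp_le_exp.2 (by linarith)))).trans ?_
    calc kk d ρ σ₁ * (1 + Real.exp (-(10 * t))) ≤ (2 * S)⁻¹ * (1 + 1) := by gcongr
      _ = 2 * (2 * S)⁻¹ := by ring
  have hjm : j ≤ m := by
    have : (j : ℝ) ≤ m :=
      hju.trans (((Real.exp_le_exp.2 (by linarith)).trans hm₀l).trans hmr)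
    exact_mod_cast this
  -- the intermediate age
  obtain ⟨n, hnl, hnu⟩ : ∃ n : ℕ, Real.exp (σ - Δ - a2 * t - 1) ≤ n ∧
      (n : ℝ) ≤ Real.exp (σ - Δ - a2 * t) :=
    ⟨⌊Real.exp (σ - Δ - a2 * t)⌋₊, gifa_floor (by linarith), Nat.floor_le (Real.exp_pos _).le⟩
  have hnp : (0 : ℝ) < n := (Real.exp_pos _).trans_le hnl
  have hn2' : Real.exp (σ - 2 * Δ + aL * t) ≤ n := (Real.exp_le_exp.2 (by linarith)).trans hnl
  have r2 := hlow' (σ - 2 * Δ) (σ + Δ) n (by linarith) (by linarith) (by linarith) le_rfl hn2'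
    (hnu.trans (Real.exp_le_exp.2 (by linarith)))
  have r3 := hlow' (σ - 2 * Δ) σ n (by linarith) (by linarith) hσ0 (by linarith) hn2'
    (hnu.trans (Real.exp_le_exp.2 (by linarith)))
  have r4 := gifa_anti hd hm1 (s := σ) (s' := σ + Δ) hσ0 (by linarith)
  have hL : Real.log (m / n) ≤ 4 * Δ := by
    have b1 : σ - Δ - a2 * t - 1 ≤ Real.log n := (Real.le_log_iff_exp_le hnp).2 hnl
    rw [Real.log_div hmp.ne' hnp.ne']
    linarith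
  have r5 := hb2 ρ σ Δ t m n j hg (by linarith) (by linarith) hO' (hpoly σ hσ0.le (by linarith))
    (hK E2 hE2 (by linarith)) (by linarith) (by linarith) hju
    (hjA.trans (hinv E2 hE2 (by linarith)))
    (((Real.exp_le_exp.2 (by linarith)).trans hm₀l).trans hmr) hm16 (by exact_mod_cast hnp) hnu
  have r6 := hb3 ρ σ Δ t m j hg (by linarith) hO' (by linarith) (hK E3 hE3 (by linarith))
    (by linarith) hju (hjA.trans (hinv E3 hE3 (by linarith))) hjm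
  refine ⟨hB0, ?_, fun y' h0 h1 => ((hbr' y' h0).2.2.2.1 y h1).1, fun y' h1 => (hBm y' h1).1,
    ?_, ?_, ?_⟩
  · have b1 : 0 ≤ (2 * d * C1 + 8 * C2) * (kk d ρ σ * Δ) := by positivity
    have b2 : Cb * (1 + y) ≤ Cb * (2 * d * Δ) := by gcongr
    have b3 : kk d ρ σ * Br d ρ (q0 d) (Real.exp (-σ)) y ≤ kk d ρ σ * (Cb * (2 * d * Δ)) :=
      mul_le_mul_of_nonneg_left (hBu.trans b2) hK0
    linarith only [b1, b3]
  · refine gifa_five hg0 hKB hη0 hη1 hη3 e0.le (by linarith only [r1u]) r5 ENNReal.toReal_nonneg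
      (by linarith only [r2]) ENNReal.toReal_nonneg (by linarith only [r3, r4])
      (Real.exp_pos _).le (Real.exp_le_exp.2 (by linarith)) hL (by linarith) (by linarith) ?_ herr
    have : 0 ≤ 4 * d * Cb + 2 * d * C1 := by positivity
    linarith only [this]
  · have b1 : η' * (Real.exp (-σ) * m₀ * Ar d ρ (q0 d) (Real.exp (-σ)) m₀) ≤
        η * (Real.exp (-σ) * m₀ * Ar d ρ (q0 d) (Real.exp (-σ)) m₀) :=
      mul_le_mul_of_nonneg_right (by linarith only [hη0, hη3]) hg0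
    linarith only [b1, r1u, herr2, e0]
  · refine gifa_seven hg0 hKB (by positivity) hη0 hη1 hη3 e0.le (by linarith only [r1l]) r6 ?_ herr2
    calc Real.exp (-σ) * m * Real.exp (-(σ / 4))
        ≤ Real.exp (σ + 2 * Δ - σ) * Real.exp (-(σ / 4)) := by
          gcongr
          exact gifa_mul_le hmu
      _ ≤ _ := by
          rw [← Real.exp_add]
          exact Real.exp_le_exp.2 (by linarith)

end Pool.Agent.Lib.MP_153faa_pr
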