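import Mathlib
import Pool.Agent.Lib.MP_153faa_pr.GHK1

/-!
Elementary real estimates for the flow inequalities.
-/

set_option autoImplicit false

open Filter Topology

namespace Pool.Agent.Lib.MP_153faa_pr

/-- Numerical facts about the scales of one step of the flow. -/
structure GifbNum (s Δ ε τ l l' : ℝ) (m₀ m₁ N : ℕ) : Prop where
  l0 : 0 < l'
  ll : l' < l
  l1 : l < 1
  inv : 1 / (1 - l) ≤ 1 + ε
  rat : l' / l ≤ ε
  m1 : 1 ≤ m₀
  lm : 1 ≤ l * m₀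
  lm' : l' * m₀ ≤ 1
  logu : Real.log (1 / (l' * m₀)) + 3 ≤ Δ - 1
  logl : (1 - ε) * Δ ≤ Real.log (1 / (l' * m₀)) - 3
  mm : m₀ ≤ m₁
  top : (m₁ : ℝ) + N ≤ Real.exp (s + 2 * Δ)
  N1 : 1 ≤ N
  Nl : 1 / l' ≤ N
  Nm : (m₁ : ℝ) + N ≤ (1 + ε) * m₁
  tail : l / (l' * (1 - l)) * (1 - l') ^ N ≤ τ ^ 2
  tail' : l' * m₁ * (l / (l' * (1 - l)) * (1 - l') ^ N) ≤ τ ^ 2
  pw : (1 - l') ^ N ≤ ε
  ylow : ∀ m : ℕ, m₁ ≤ m → Δ - 1 ≤ Real.log (m / (m₀ : ℝ))
  yup : ∀ m : ℕ, m₀ ≤ m → (m : ℝ) ≤ m₁ + N → Real.log (m / (m₀ : ℝ)) ≤ (1 + ε) * Δ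
  t0 : 0 < τ
  t1 : τ ≤ 1 / 4
  D1 : 1 ≤ Δ

theorem gifb_ceil {x : ℝ} (hx : 0 ≤ x) :
    Real.exp x ≤ (⌈Real.exp x⌉₊ : ℝ) ∧ (⌈Real.exp x⌉₊ : ℝ) ≤ Real.exp (x + 1) := by
  refine ⟨Nat.le_ceil _, ?_⟩
  have h1 : 1 ≤ Real.exp x := Real.one_le_exp hx
  have h2 := (Nat.ceil_lt_add_one (Real.exp_pos x).le).le
  have h3 : (2 : ℝ) ≤ Real.exp 1 := by
    have := Real.add_one_le_exp (1 : ℝ)
    linarith
  rw [Real.exp_add]
  nlinarith

theorem gifb_num {s Δ t t' a ε : ℝ} (ht : t ^ 4 = s) (ht' : t' ^ 4 = s + Δ) (ht0 : 0 ≤ t')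
    (hΔ1 : t ^ 2 ≤ Δ) (hΔ2 : 64 * Δ ≤ s) (ha : 1 ≤ a) (h30 : 30 ≤ t) (hat : 2 * a + 2 ≤ t)
    (hε : a * t + 5 ≤ ε * t ^ 2) (hε1 : ε ≤ 1) (hε2 : (t ^ 8 + 1) * Real.exp (-t) ≤ ε) :
    GifbNum s Δ ε (Real.exp (-t)) (Real.exp (-s)) (Real.exp (-(s + Δ)))
      ⌈Real.exp (s + a * t)⌉₊ ⌈Real.exp (s + Δ + a * t')⌉₊ ⌈s ^ 2 * Real.exp (s + Δ)⌉₊ := by
  have t0 : 0 < t := by linarith
  have ht2 : 30 * t ≤ t ^ 2 := by nlinarith
  have ht2' : (2 * a + 2) * t ≤ t ^ 2 := by nlinarith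
  have hΔ0 : 900 ≤ Δ := by linarith
  have hts : t ≤ s := by linarith
  have hs0 : 900 ≤ s := by linarith
  have hs3 : 900 * s ≤ s ^ 2 := by
    rw [sq]
    exact mul_le_mul_of_nonneg_right hs0 (by linarith)
  have hat0 : t ≤ a * t := le_mul_of_one_le_left t0.le ha
  have hatΔ : 2 * (a * t) + 2 * t ≤ Δ := by linarith
  have htt : t ≤ t' := by
    by_contra hc
    push Not at hc
    have := pow_lt_pow_left₀ hc ht0 (show (4 : ℕ) ≠ 0 by norm_num)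
    linarith
  have htt' : t' ≤ 2 * t := by
    by_contra hc
    push Not at hc
    have := pow_lt_pow_left₀ hc (by linarith) (show (4 : ℕ) ≠ 0 by norm_num)
    rw [mul_pow, ht, ht'] at this
    linarith
  have hat' : a * t ≤ a * t' := mul_le_mul_of_nonneg_left htt (by linarith)
  have hat'' : a * t' ≤ 2 * (a * t) := by
    have := mul_le_mul_of_nonneg_left htt' (show 0 ≤ a by linarith)
    linarith
  have hs2 : s ^ 2 = t ^ 8 := by rw [← ht]; ring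
  have e1 : Real.exp (-t) ≤ ε / 2 := by
    have h1 : (1 : ℝ) ≤ t ^ 8 := one_le_pow₀ (by linarith)
    have h2 := mul_le_mul_of_nonneg_right h1 (Real.exp_pos (-t)).le
    linarith
  have ε0 : 0 < ε := by linarith [Real.exp_pos (-t)]
  have e2 : Real.exp (-s) ≤ ε / 2 := (Real.exp_le_exp.2 (by linarith)).trans e1
  have e3 : Real.exp (-Δ) ≤ ε / 2 := (Real.exp_le_exp.2 (by linarith)).trans e1
  have εΔ : a * t + 5 ≤ ε * Δ := hε.trans (mul_le_mul_of_nonneg_left hΔ1 ε0.le)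
  obtain ⟨a1, a2⟩ := gifb_ceil (x := s + a * t) (by linarith)
  obtain ⟨b1, b2⟩ := gifb_ceil (x := s + Δ + a * t') (by linarith)
  have c1 : s ^ 2 * Real.exp (s + Δ) ≤ (⌈s ^ 2 * Real.exp (s + Δ)⌉₊ : ℝ) := Nat.le_ceil _
  have hE1 : 1 ≤ Real.exp (s + Δ) := Real.one_le_exp (by linarith)
  have c2 : (⌈s ^ 2 * Real.exp (s + Δ)⌉₊ : ℝ) ≤ (s ^ 2 + 1) * Real.exp (s + Δ) := by
    have := (Nat.ceil_lt_add_one (show 0 ≤ s ^ 2 * Real.exp (s + Δ) by positivity)).le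
    linarith
  generalize ⌈Real.exp (s + a * t)⌉₊ = m₀ at a1 a2 ⊢
  generalize ⌈Real.exp (s + Δ + a * t')⌉₊ = m₁ at b1 b2 ⊢
  generalize ⌈s ^ 2 * Real.exp (s + Δ)⌉₊ = N at c1 c2 ⊢
  have m0p : (0 : ℝ) < m₀ := (Real.exp_pos _).trans_le a1
  have m1p : (0 : ℝ) < m₁ := (Real.exp_pos _).trans_le b1
  have hl1 : Real.exp (-s) ≤ 1 / 2 := by linarith
  have hl0 := Real.exp_pos (-s)
  have hl'0 := Real.exp_pos (-(s + Δ))
  have hll : Real.exp (-(s + Δ)) < Real.exp (-s) := Real.exp_lt_exp.2 (by linarith)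
  have hrat : Real.exp (-(s + Δ)) / Real.exp (-s) = Real.exp (-Δ) := by
    rw [← Real.exp_sub]; ring_nf
  have p1 : Real.exp (a * t - Δ) ≤ Real.exp (-(s + Δ)) * m₀ := by
    have : Real.exp (a * t - Δ) = Real.exp (-(s + Δ)) * Real.exp (s + a * t) := by
      rw [← Real.exp_add]; ring_nf
    rw [this]; gcongr
  have p2 : Real.exp (-(s + Δ)) * m₀ ≤ Real.exp (a * t - Δ + 1) := by
    have : Real.exp (a * t - Δ + 1) = Real.exp (-(s + Δ)) * Real.exp (s + a * t + 1) := by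
      rw [← Real.exp_add]; ring_nf
    rw [this]; gcongr
  have q1 : Real.log (1 / (Real.exp (-(s + Δ)) * m₀)) ≤ Δ - a * t := by
    rw [one_div, Real.log_inv]
    have := Real.log_le_log (Real.exp_pos _) p1
    rw [Real.log_exp] at this
    linarith
  have q2 : Δ - a * t - 1 ≤ Real.log (1 / (Real.exp (-(s + Δ)) * m₀)) := by
    rw [one_div, Real.log_inv]
    have := Real.log_le_log (by positivity) p2
    rw [Real.log_exp] at this
    linarith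
  have hmm : (m₀ : ℝ) ≤ m₁ := a2.trans ((Real.exp_le_exp.2 (by linarith)).trans b1)
  have hN : (N : ℝ) ≤ ε * m₁ := by
    have h1 : Real.exp (s + Δ) = Real.exp (-t) * Real.exp (s + Δ + t) := by
      rw [← Real.exp_add]; ring_nf
    have h2 : Real.exp (s + Δ + t) ≤ m₁ := (Real.exp_le_exp.2 (by linarith)).trans b1
    calc (N : ℝ) ≤ (s ^ 2 + 1) * Real.exp (s + Δ) := c2
      _ = (t ^ 8 + 1) * Real.exp (-t) * Real.exp (s + Δ + t) := by rw [hs2, h1]; ring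
      _ ≤ ε * m₁ := by gcongr
  have two : (2 : ℝ) ≤ Real.exp 1 := by
    have := Real.add_one_le_exp (1 : ℝ)
    linarith
  have hmN : (m₁ : ℝ) + N ≤ Real.exp (s + Δ + a * t' + 2) := by
    have : Real.exp (s + Δ + a * t' + 2) = Real.exp 1 * Real.exp (s + Δ + a * t' + 1) := by
      rw [← Real.exp_add]; ring_nf
    rw [this]
    have h1 : ε * (m₁ : ℝ) ≤ m₁ := mul_le_of_le_one_left m1p.le hε1
    have h2 := mul_le_mul_of_nonneg_right two (Real.exp_pos (s + Δ + a * t' + 1)).le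
    linarith
  have hpw : (1 - Real.exp (-(s + Δ))) ^ N ≤ Real.exp (-s ^ 2) := by
    have h1 : 1 - Real.exp (-(s + Δ)) ≤ Real.exp (-Real.exp (-(s + Δ))) := by
      have := Real.add_one_le_exp (-Real.exp (-(s + Δ)))
      linarith
    have h2 : s ^ 2 ≤ Real.exp (-(s + Δ)) * N := by
      have : s ^ 2 = Real.exp (-(s + Δ)) * (s ^ 2 * Real.exp (s + Δ)) := by
        rw [mul_left_comm, ← Real.exp_add]; simp
      rw [this]; gcongr
    calc (1 - Real.exp (-(s + Δ))) ^ N ≤ Real.exp (-Real.exp (-(s + Δ))) ^ N :=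
          pow_le_pow_left₀ (by linarith) h1 N
      _ = Real.exp (-(Real.exp (-(s + Δ)) * N)) := by rw [← Real.exp_nat_mul]; ring_nf
      _ ≤ _ := Real.exp_le_exp.2 (by linarith)
  have hq : Real.exp (-s) / (Real.exp (-(s + Δ)) * (1 - Real.exp (-s))) ≤ Real.exp (Δ + 1) := by
    rw [div_le_iff₀ (mul_pos hl'0 (by linarith))]
    have : Real.exp (Δ + 1) * (Real.exp (-(s + Δ)) * (1 - Real.exp (-s))) =
        Real.exp (-s) * (Real.exp 1 * (1 - Real.exp (-s))) := by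
      rw [← mul_assoc, ← mul_assoc, ← Real.exp_add, ← Real.exp_add]; ring_nf
    rw [this]
    have h1 := mul_le_mul two (show 1 / 2 ≤ 1 - Real.exp (-s) by linarith) (by norm_num)
      (Real.exp_pos _).le
    exact le_mul_of_one_le_right hl0.le (by linarith)
  have htl : Real.exp (-s) / (Real.exp (-(s + Δ)) * (1 - Real.exp (-s))) *
      (1 - Real.exp (-(s + Δ))) ^ N ≤ Real.exp (Δ + 1 - s ^ 2) := by
    rw [sub_eq_add_neg (Δ + 1), Real.exp_add (Δ + 1)]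
    exact mul_le_mul hq hpw (pow_nonneg (by linarith) _) (Real.exp_pos _).le
  have hτ : Real.exp (-t) ^ 2 = Real.exp (-(2 * t)) := by
    rw [← Real.exp_nat_mul]; ring_nf
  have hlm1 : Real.exp (-(s + Δ)) * m₁ ≤ Real.exp (a * t' + 1) := by
    have : Real.exp (a * t' + 1) = Real.exp (-(s + Δ)) * Real.exp (s + Δ + a * t' + 1) := by
      rw [← Real.exp_add]; ring_nf
    rw [this]; gcongr
  refine ⟨hl'0, hll, by linarith, ?_, ?_, ?_, ?_, ?_, by linarith, by linarith, ?_, ?_, ?_, ?_,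
    by linarith, ?_, ?_, ?_, ?_, ?_, Real.exp_pos _, ?_, by linarith⟩
  · rw [div_le_iff₀ (by linarith)]
    have := mul_le_mul_of_nonneg_right hε1 hl0.le
    linarith
  · rw [hrat]; linarith
  · have : (0 : ℝ) < m₀ := m0p
    exact_mod_cast this
  · have : Real.exp (a * t) = Real.exp (-s) * Real.exp (s + a * t) := by
      rw [← Real.exp_add]; ring_nf
    calc (1 : ℝ) ≤ Real.exp (a * t) := Real.one_le_exp (by linarith)
      _ ≤ _ := by rw [this]; gcongr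
  · exact p2.trans (Real.exp_le_one_iff.2 (by linarith))
  · exact_mod_cast hmm
  · exact hmN.trans (Real.exp_le_exp.2 (by linarith))
  · have : (0 : ℝ) < N := lt_of_lt_of_le (by positivity) c1
    exact_mod_cast this
  · rw [one_div, ← Real.exp_neg, neg_neg]
    exact le_trans (le_mul_of_one_le_left (Real.exp_pos _).le (by linarith)) c1
  · rw [hτ]
    exact htl.trans (Real.exp_le_exp.2 (by linarith))
  · rw [hτ]
    refine (mul_le_mul hlm1 htl ?_ (Real.exp_pos _).le).trans ?_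
    · exact mul_nonneg (div_nonneg hl0.le (mul_nonneg hl'0.le (by linarith)))
        (pow_nonneg (by linarith) _)
    · rw [← Real.exp_add]
      exact Real.exp_le_exp.2 (by linarith)
  · exact hpw.trans ((Real.exp_le_exp.2 (by linarith)).trans (e2.trans (by linarith)))
  · intro m hm
    have hm' : (m₁ : ℝ) ≤ m := by exact_mod_cast hm
    rw [Real.le_log_iff_exp_le (div_pos (by linarith) m0p), le_div_iff₀ m0p]
    calc Real.exp (Δ - 1) * m₀ ≤ Real.exp (Δ - 1) * Real.exp (s + a * t + 1) := by gcongr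
      _ = Real.exp (s + Δ + a * t) := by rw [← Real.exp_add]; ring_nf
      _ ≤ Real.exp (s + Δ + a * t') := Real.exp_le_exp.2 (by linarith)
      _ ≤ m := b1.trans hm'
  · intro m hm hm2
    have hm' : (m₀ : ℝ) ≤ m := by exact_mod_cast hm
    rw [Real.log_le_iff_le_exp (div_pos (by linarith) m0p), div_le_iff₀ m0p]
    calc (m : ℝ) ≤ Real.exp (s + Δ + a * t' + 2) := hm2.trans hmN
      _ ≤ Real.exp ((1 + ε) * Δ + (s + a * t)) := Real.exp_le_exp.2 (by linarith)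
      _ = Real.exp ((1 + ε) * Δ) * Real.exp (s + a * t) := Real.exp_add _ _
      _ ≤ _ := by gcongr
  · have h1 := Real.add_one_le_exp t
    rw [Real.exp_neg, inv_le_comm₀ (Real.exp_pos _) (by norm_num)]
    linarith

theorem gifb_ev {a ε : ℝ} (ha : 1 ≤ a) (hε : 0 < ε) (hε1 : ε ≤ 1) : ∃ s₀ : ℝ, 1 ≤ s₀ ∧
    ∀ s Δ : ℝ, s₀ ≤ s → √s ≤ Δ → 64 * Δ ≤ s →
      GifbNum s Δ ε (Real.exp (-s ^ (1 / 4 : ℝ))) (Real.exp (-s)) (Real.exp (-(s + Δ)))
        ⌈Real.exp (s + a * s ^ (1 / 4 : ℝ))⌉₊ ⌈Real.exp (s + Δ + a * (s + Δ) ^ (1 / 4 : ℝ))⌉₊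
        ⌈s ^ 2 * Real.exp (s + Δ)⌉₊ := by
  have h1 : Tendsto (fun t : ℝ => (t ^ 8 + 1) * Real.exp (-t)) atTop (𝓝 0) := by
    have := (Real.tendsto_pow_mul_exp_neg_atTop_nhds_zero 8).add
      Real.tendsto_exp_neg_atTop_nhds_zero
    rw [add_zero] at this
    refine this.congr fun t => ?_
    ring
  have h2 : ∀ᶠ t : ℝ in atTop, 30 ≤ t ∧ 2 * a + 2 ≤ t ∧ (a + 5) / ε ≤ t ∧
      (t ^ 8 + 1) * Real.exp (-t) ≤ ε :=
    (eventually_ge_atTop _).and ((eventually_ge_atTop _).and ((eventually_ge_atTop _).and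
      (h1.eventually (ge_mem_nhds hε))))
  have h3 := (tendsto_rpow_atTop (show (0 : ℝ) < 1 / 4 by norm_num)).eventually h2
  obtain ⟨s₀, hs₀⟩ := eventually_atTop.1 h3
  refine ⟨max s₀ 1, le_max_right _ _, fun s Δ hs h4 h5 => ?_⟩
  have s1 : 1 ≤ s := (le_max_right _ _).trans hs
  obtain ⟨k1, k2, k3, k4⟩ := hs₀ s ((le_max_left _ _).trans hs)
  have hΔ : 0 ≤ Δ := (Real.sqrt_nonneg s).trans h4
  have r4 : ∀ x : ℝ, 0 ≤ x → (x ^ (1 / 4 : ℝ)) ^ 4 = x := fun x hx => by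
    rw [← Real.rpow_natCast, ← Real.rpow_mul hx]; norm_num
  refine gifb_num (r4 s (by linarith)) (r4 _ (by linarith)) (Real.rpow_nonneg (by linarith) _)
    ?_ h5 ha k1 k2 ?_ hε1 k4
  · refine le_trans (Real.le_sqrt_of_sq_le ?_) h4
    rw [← pow_mul]
    exact (r4 s (by linarith)).le
  · rw [div_le_iff₀ hε] at k3
    nlinarith

section
variable {s Δ ε τ l l' : ℝ} {m₀ m₁ N : ℕ}

theorem gifb_up1 (h : GifbNum s Δ ε τ l l' m₀ m₁ N) {Γ A : ℝ} (hΓ : 0 ≤ Γ)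
    (hA : A ≤ Γ / (l * ((m₀ + 0 : ℕ) : ℝ)) + (l - l') / (1 - l) *
      ∑ i ∈ Finset.range N, (1 - l') ^ i * (Γ / (l * ((m₀ + i : ℕ) : ℝ))) +
      l / (l' * (1 - l)) * (1 - l') ^ N) : A ≤ (1 + ε) * Γ * Δ + τ ^ 2 := by
  have l0 : 0 < l := h.l0.trans h.ll
  have l1 : 0 < 1 - l := sub_pos.2 h.l1
  have hs := sum_log_le h.l0 (h.ll.trans h.l1) h.m1 h.lm' N
  have e1 : ∑ i ∈ Finset.range N, (1 - l') ^ i * (Γ / (l * ((m₀ + i : ℕ) : ℝ))) =
      Γ / l * ∑ i ∈ Finset.range N, (1 - l') ^ i / ((m₀ : ℝ) + i) := by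
    rw [Finset.mul_sum]
    refine Finset.sum_congr rfl fun i _ => ?_
    push_cast
    simp only [div_eq_mul_inv, mul_inv]
    ring
  have e2 : Γ / (l * ((m₀ + 0 : ℕ) : ℝ)) ≤ Γ := by
    rw [add_zero]
    exact div_le_self hΓ h.lm
  have e3 : (l - l') / (1 - l) * (Γ / l) ≤ (1 + ε) * Γ := by
    have : (l - l') / (1 - l) * (Γ / l) = 1 / (1 - l) * ((l - l') / l * Γ) := by
      field_simp
    rw [this]
    refine mul_le_mul h.inv ?_ (mul_nonneg (div_nonneg (sub_pos.2 h.ll).le l0.le) hΓ) ?_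
    · exact mul_le_of_le_one_left hΓ ((div_le_one l0).2 (by linarith [h.l0]))
    · exact le_trans (by positivity) h.inv
  have e0 : 1 ≤ 1 + ε := le_trans (one_le_one_div l1 (by linarith)) h.inv
  have e4 : (l - l') / (1 - l) * (Γ / l * ∑ i ∈ Finset.range N, (1 - l') ^ i / ((m₀ : ℝ) + i)) ≤
      (1 + ε) * Γ * (Δ - 1) := by
    rw [← mul_assoc]
    refine mul_le_mul e3 (hs.trans h.logu) (Finset.sum_nonneg fun i _ => ?_) (by positivity)
    exact div_nonneg (pow_nonneg (by linarith [h.ll, h.l1]) _) (by positivity)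
  rw [e1] at hA
  have e5 : Γ ≤ (1 + ε) * Γ := le_mul_of_one_le_left hΓ e0
  have := h.tail
  linarith

theorem gifb_low1 (h : GifbNum s Δ ε τ l l' m₀ m₁ N) (hε : ε ≤ 1) {γ A : ℝ} {G : ℕ → ℝ}
    (hG0 : ∀ m, 0 ≤ G m) (hG : ∀ i < N, γ ≤ l * ((m₀ + i : ℕ) : ℝ) * G (m₀ + i))
    (hA : (1 - l' / l) ^ 2 * ∑ i ∈ Finset.range N, l * (1 - l') ^ i * G (m₀ + i) ≤ A) :
    (1 - ε) ^ 3 * γ * Δ ≤ A := by
  have l0 : 0 < l := h.l0.trans h.ll
  have l1 : 0 ≤ 1 - l' := by linarith [h.ll, h.l1]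
  have m1 : (1 : ℝ) ≤ m₀ := by exact_mod_cast h.m1
  have D0 : 0 ≤ Δ := by linarith [h.D1]
  have hs := sum_log_ge h.l0 (h.ll.trans h.l1) h.m1 h.Nl
  have e1 : max γ 0 * ∑ i ∈ Finset.range N, (1 - l') ^ i / ((m₀ : ℝ) + i) ≤
      ∑ i ∈ Finset.range N, l * (1 - l') ^ i * G (m₀ + i) := by
    rw [Finset.mul_sum]
    refine Finset.sum_le_sum fun i hi => ?_
    have h1 := hG i (Finset.mem_range.1 hi)
    have h2 := hG0 (m₀ + i)
    push_cast at h1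
    have h3 : max γ 0 ≤ l * ((m₀ : ℝ) + i) * G (m₀ + i) := max_le h1 (by positivity)
    have h4 : (0 : ℝ) < m₀ + i := by positivity
    calc max γ 0 * ((1 - l') ^ i / ((m₀ : ℝ) + i))
        ≤ l * ((m₀ : ℝ) + i) * G (m₀ + i) * ((1 - l') ^ i / ((m₀ : ℝ) + i)) := by gcongr
      _ = _ := by field_simp
  have e2 : (1 - ε) ^ 2 ≤ (1 - l' / l) ^ 2 :=
    pow_le_pow_left₀ (by linarith) (by linarith [h.rat]) 2
  have e3 : max γ 0 * ((1 - ε) * Δ) ≤ ∑ i ∈ Finset.range N, l * (1 - l') ^ i * G (m₀ + i) :=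
    le_trans (mul_le_mul_of_nonneg_left (h.logl.trans hs) (le_max_right _ _)) e1
  have e0 : 0 ≤ 1 - ε := by linarith
  have e4 : 0 ≤ max γ 0 := le_max_right _ _
  calc (1 - ε) ^ 3 * γ * Δ ≤ (1 - ε) ^ 3 * max γ 0 * Δ := by gcongr; exact le_max_left _ _
    _ = (1 - ε) ^ 2 * (max γ 0 * ((1 - ε) * Δ)) := by ring
    _ ≤ _ := le_trans (mul_le_mul e2 e3 (by positivity) (by positivity)) hA

theorem gifb_geom {x : ℝ} (hx : x ≠ 0) (N : ℕ) :
    ∑ i ∈ Finset.range N, (1 - x) ^ i = (1 - (1 - x) ^ N) / x := by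
  rw [eq_div_iff hx]
  have := geom_sum_mul_neg (1 - x) N
  rwa [sub_sub_cancel] at this

theorem gifb_up2 (h : GifbNum s Δ ε τ l l' m₀ m₁ N) {Γ A : ℝ} (hΓ : 0 ≤ Γ)
    (hA : A ≤ Γ / (l * m₁) + (l - l') / (1 - l) *
      ∑ i ∈ Finset.range N, (1 - l') ^ i * (Γ / (l * m₁)) +
      l / (l' * (1 - l)) * (1 - l') ^ N) : l' * m₁ * A ≤ (1 + ε) * Γ + τ ^ 2 := by
  have l'0 := h.l0
  have l0 : 0 < l := h.l0.trans h.ll
  have l1 : 0 < 1 - l := sub_pos.2 h.l1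
  have l2 : 0 < l - l' := sub_pos.2 h.ll
  have m1 : (1 : ℝ) ≤ m₁ := by exact_mod_cast h.m1.trans h.mm
  have e1 : ∑ i ∈ Finset.range N, (1 - l') ^ i * (Γ / (l * m₁)) ≤ 1 / l' * (Γ / (l * m₁)) := by
    rw [← Finset.sum_mul, gifb_geom l'0.ne']
    have : 0 ≤ (1 - l') ^ N := pow_nonneg (by linarith) _
    gcongr
    linarith
  have e2 : l' * m₁ * (Γ / (l * m₁) + (l - l') / (1 - l) * (1 / l' * (Γ / (l * m₁)))) =
      1 / (1 - l) * ((1 - l') * Γ) := by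
    field_simp
    ring
  have e3 : 1 / (1 - l) * ((1 - l') * Γ) ≤ (1 + ε) * Γ :=
    mul_le_mul h.inv (mul_le_of_le_one_left hΓ (by linarith))
      (mul_nonneg (by linarith) hΓ) (le_trans (by positivity) h.inv)
  have e4 : A ≤ Γ / (l * m₁) + (l - l') / (1 - l) * (1 / l' * (Γ / (l * m₁))) +
      l / (l' * (1 - l)) * (1 - l') ^ N := by
    refine hA.trans ?_
    gcongr
  have e5 := mul_le_mul_of_nonneg_left e4 (show 0 ≤ l' * m₁ by positivity)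
  rw [mul_add, e2] at e5
  linarith [h.tail']

theorem gifb_low2 (h : GifbNum s Δ ε τ l l' m₀ m₁ N) (hε : ε ≤ 1) {γ A : ℝ}
    {G : ℕ → ℝ} (hG0 : ∀ m, 0 ≤ G m) (hG : ∀ i < N, γ ≤ l * ((m₁ + i : ℕ) : ℝ) * G (m₁ + i))
    (hA : (1 - l' / l) ^ 2 * ∑ i ∈ Finset.range N, l * (1 - l') ^ i * G (m₁ + i) ≤ A) :
    (1 - ε) ^ 4 * γ ≤ l' * m₁ * A := by
  have l'0 := h.l0
  have l0 : 0 < l := h.l0.trans h.ll
  have l1 : 0 ≤ 1 - l' := by linarith [h.ll, h.l1]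
  have m1 : (1 : ℝ) ≤ m₁ := by exact_mod_cast h.m1.trans h.mm
  have e0 : 0 ≤ 1 - ε := by linarith
  have e4 : 0 ≤ max γ 0 := le_max_right _ _
  have e1 : (1 - ε) * max γ 0 / m₁ * ∑ i ∈ Finset.range N, (1 - l') ^ i ≤
      ∑ i ∈ Finset.range N, l * (1 - l') ^ i * G (m₁ + i) := by
    rw [Finset.mul_sum]
    refine Finset.sum_le_sum fun i hi => ?_
    have hi' : (i : ℝ) ≤ N := by exact_mod_cast (Finset.mem_range.1 hi).le
    have h1 := hG i (Finset.mem_range.1 hi)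
    have h2 := hG0 (m₁ + i)
    push_cast at h1
    have h3 : max γ 0 ≤ l * ((m₁ : ℝ) + i) * G (m₁ + i) := max_le h1 (by positivity)
    have h4 : (1 - ε) * ((m₁ : ℝ) + i) ≤ m₁ := by
      have h5 : (m₁ : ℝ) + i ≤ (1 + ε) * m₁ := by linarith [h.Nm]
      calc (1 - ε) * ((m₁ : ℝ) + i) ≤ (1 - ε) * ((1 + ε) * m₁) := by gcongr
        _ = (1 - ε ^ 2) * m₁ := by ring
        _ ≤ m₁ := mul_le_of_le_one_left (by linarith) (by nlinarith)
    have h6 : (1 - ε) * max γ 0 / m₁ ≤ l * G (m₁ + i) := by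
      rw [div_le_iff₀ (by linarith)]
      calc (1 - ε) * max γ 0 ≤ (1 - ε) * (l * ((m₁ : ℝ) + i) * G (m₁ + i)) := by gcongr
        _ = l * G (m₁ + i) * ((1 - ε) * ((m₁ : ℝ) + i)) := by ring
        _ ≤ _ := by gcongr
    calc (1 - ε) * max γ 0 / m₁ * (1 - l') ^ i ≤ l * G (m₁ + i) * (1 - l') ^ i := by gcongr
      _ = _ := by ring
  have e2 : (1 - ε) ^ 2 ≤ (1 - l' / l) ^ 2 :=
    pow_le_pow_left₀ (by linarith) (by linarith [h.rat]) 2
  have e3 : (1 - ε) * max γ 0 / m₁ * ((1 - ε) / l') ≤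
      ∑ i ∈ Finset.range N, l * (1 - l') ^ i * G (m₁ + i) := by
    refine le_trans ?_ e1
    rw [gifb_geom l'0.ne']
    have := h.pw
    gcongr
  have e5 : (1 - ε) ^ 2 * ((1 - ε) * max γ 0 / m₁ * ((1 - ε) / l')) ≤ A :=
    le_trans (mul_le_mul e2 e3 (by positivity) (by positivity)) hA
  calc (1 - ε) ^ 4 * γ ≤ (1 - ε) ^ 4 * max γ 0 := by gcongr; exact le_max_left _ _
    _ = l' * m₁ * ((1 - ε) ^ 2 * ((1 - ε) * max γ 0 / m₁ * ((1 - ε) / l'))) := by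
        field_simp
    _ ≤ _ := by gcongr

end

end Pool.Agent.Lib.MP_153faa_pr
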