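import Mathlib
import Pool.Agent.Lib.MP_153faa_pr.GIfA
import Pool.Agent.Lib.MP_153faa_pr.GRen
import Pool.Agent.Lib.MP_153faa_pr.GCont
import Pool.Agent.Lib.MP_153faa_pr.GIfB1

set_option autoImplicit false

open MeasureTheory Filter Topology
open scoped ENNReal NNReal

namespace Pool.Agent.Lib.MP_153faa_pr

variable {d : ℕ}

theorem gifb_core (hd : 1 ≤ d) {ρ : Measure ℝ≥0} [IsProbabilityMeasure ρ] (hm : Mean1 ρ)
    {p s Δ ε τ l l' C₁ g K E : ℝ} {m₀ m₁ N : ℕ} (hp : 1 ≤ p)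
    (hn : GifbNum s Δ ε τ l l' m₀ m₁ N) (hε0 : 0 ≤ ε) (hε : ε ≤ 1) (hO : OO d ρ p l' ≠ ⊤)
    (hg : 0 ≤ g) (hK : 0 ≤ K) (hE : 0 ≤ C₁ * E) (hC : C₁ * K * Δ ≤ 1) {B : ℝ → ℝ}
    (H : ∀ (m : ℕ) (y : ℝ), m₀ ≤ m → (m : ℝ) ≤ Real.exp (s + 2 * Δ) →
      y = d / 2 * Real.log (m / (m₀ : ℝ)) → 0 ≤ B y ∧ 2 * (K * B y) ≤ C₁ * K * Δ ∧
      (∀ y', 0 ≤ y' → y' ≤ y → B y' ≤ B y) ∧ (∀ y', y ≤ y' → B y ≤ B y') ∧
      l * m * Gr d ρ p l l' m ≤ (1 - K * B y + ε) * g + C₁ * E + τ ^ 2 ∧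
      l * m * Ar d ρ p l m ≤ (1 - K * B y + ε) * g + τ ^ 2 ∧
      (1 - K * B y - ε) * g - τ ^ 2 ≤ l * m * Gr d ρ p l l' m) :
    Ar d ρ p l' m₀ ≤ (1 + ε) * ((1 + ε) * g + C₁ * E + τ ^ 2) * Δ + τ ^ 2 ∧
    (1 - ε) ^ 3 * ((1 - C₁ * K * Δ / 2 - ε) * g - τ ^ 2) * Δ ≤ Ar d ρ p l' m₀ ∧
    l' * m₁ * Ar d ρ p l' m₁ ≤
      (1 + ε) * ((1 - K * B (d / 2 * (Δ - 1)) + ε) * g + C₁ * E + τ ^ 2) + τ ^ 2 ∧
    (1 - ε) ^ 4 * ((1 - K * B (d / 2 * ((1 + ε) * Δ)) - ε) * g - τ ^ 2) ≤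
      l' * m₁ * Ar d ρ p l' m₁ := by
  have l0 : 0 < l := hn.l0.trans hn.ll
  have m1 : (1 : ℝ) ≤ m₀ := by exact_mod_cast hn.m1
  have mm : (m₀ : ℝ) ≤ m₁ := by exact_mod_cast hn.mm
  have d0 : (0 : ℝ) ≤ d / 2 := by positivity
  have hG0 : ∀ m, 0 ≤ Gr d ρ p l l' m := fun m => ENNReal.toReal_nonneg
  have r0 : ∀ i < N, ((m₀ + i : ℕ) : ℝ) ≤ Real.exp (s + 2 * Δ) := fun i hi => by
    have : (i : ℝ) ≤ N := by exact_mod_cast hi.le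
    push_cast
    linarith [hn.top]
  have r1 : ∀ i ≤ N, ((m₁ + i : ℕ) : ℝ) ≤ m₁ + N := fun i hi => by
    have : (i : ℝ) ≤ N := by exact_mod_cast hi
    push_cast
    linarith
  have r2 : ∀ i, m₀ ≤ m₁ + i := fun i => hn.mm.trans (Nat.le_add_right _ _)
  have p0 : ∀ i : ℕ, 0 < l * ((m₀ + i : ℕ) : ℝ) := fun i => by
    push_cast
    positivity
  have p1 : 0 < l * (m₁ : ℝ) := mul_pos l0 (by linarith)
  have τ2 : 0 ≤ τ ^ 2 := sq_nonneg _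
  refine ⟨?_, ?_, ?_, ?_⟩
  · refine gifb_up1 hn (by positivity) (ren_up hd hm hp hn.l0 hn.ll hn.l1 hO m₀ N hn.N1
      (fun i => ((1 + ε) * g + C₁ * E + τ ^ 2) / (l * ((m₀ + i : ℕ) : ℝ))) fun i hi => ?_)
    obtain ⟨b0, -, -, -, u1, u2, -⟩ := H (m₀ + i) _ (Nat.le_add_right _ _) (r0 i hi) rfl
    have := mul_nonneg (mul_nonneg hK b0) hg
    constructor
    · rw [le_div_iff₀' (p0 i)]
      linarith
    · rw [le_div_iff₀' (p0 i)]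
      linarith
  · refine gifb_low1 hn hε hG0 (fun i hi => ?_) (ren_low hd hm hp hn.l0 hn.ll hn.l1 hO m₀ N)
    obtain ⟨-, b1, -, -, -, -, u3⟩ := H (m₀ + i) _ (Nat.le_add_right _ _) (r0 i hi) rfl
    have := mul_le_mul_of_nonneg_right b1 hg
    linarith
  · have y0 : 0 ≤ (d : ℝ) / 2 * (Δ - 1) := mul_nonneg d0 (by linarith [hn.D1])
    have key : ∀ i ≤ N, K * B (d / 2 * (Δ - 1)) ≤
        K * B (d / 2 * Real.log (((m₁ + i : ℕ) : ℝ) / (m₀ : ℝ))) := fun i hi => by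
      obtain ⟨-, -, b2, -⟩ := H (m₁ + i) _ (r2 i) ((r1 i hi).trans hn.top) rfl
      exact mul_le_mul_of_nonneg_left (b2 _ y0
        (mul_le_mul_of_nonneg_left (hn.ylow _ (Nat.le_add_right _ _)) d0)) hK
    have hΓ : 0 ≤ (1 - K * B (d / 2 * (Δ - 1)) + ε) * g + C₁ * E + τ ^ 2 := by
      obtain ⟨-, b1, -⟩ := H (m₁ + 0) _ (r2 0) ((r1 0 (Nat.zero_le _)).trans hn.top) rfl
      have h1 := key 0 (Nat.zero_le _)
      have h2 : 0 ≤ (1 - K * B (d / 2 * (Δ - 1)) + ε) * g := mul_nonneg (by linarith) hg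
      linarith
    refine gifb_up2 hn hΓ (ren_up hd hm hp hn.l0 hn.ll hn.l1 hO m₁ N hn.N1
      (fun _ => ((1 - K * B (d / 2 * (Δ - 1)) + ε) * g + C₁ * E + τ ^ 2) / (l * m₁))
      fun i hi => ?_)
    obtain ⟨-, -, -, -, u1, u2, -⟩ := H (m₁ + i) _ (r2 i) ((r1 i hi.le).trans hn.top) rfl
    have h1 := mul_le_mul_of_nonneg_right (key i hi.le) hg
    have h2 : l * (m₁ : ℝ) ≤ l * ((m₁ + i : ℕ) : ℝ) := by
      push_cast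
      exact mul_le_mul_of_nonneg_left (le_add_of_nonneg_right (Nat.cast_nonneg _)) l0.le
    have h3 := mul_le_mul_of_nonneg_right h2 (hG0 (m₁ + i))
    have h4 := mul_le_mul_of_nonneg_right h2
      (show 0 ≤ Ar d ρ p l (m₁ + i) from ENNReal.toReal_nonneg)
    constructor
    · rw [le_div_iff₀' p1]
      linarith
    · rw [le_div_iff₀' p1]
      linarith
  · refine gifb_low2 hn hε hG0 (fun i hi => ?_) (ren_low hd hm hp hn.l0 hn.ll hn.l1 hO m₁ N)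
    obtain ⟨-, -, -, b3, -, -, u3⟩ := H (m₁ + i) _ (r2 i) ((r1 i hi.le).trans hn.top) rfl
    have h1 := b3 _ (mul_le_mul_of_nonneg_left (hn.yup _ (r2 i) (r1 i hi.le)) d0)
    have h2 := mul_le_mul_of_nonneg_right (mul_le_mul_of_nonneg_left h1 hK) hg
    linarith

theorem gifb_tau {τ Δ c : ℝ} (t0 : 0 < τ) (t1 : τ ≤ 1 / 4) (D1 : 1 ≤ Δ) (hc : c ≤ 2) :
    c * τ ^ 2 * Δ + 2 * τ ^ 2 ≤ τ * Δ := by
  have h1 : 4 * τ ^ 2 ≤ τ := by nlinarith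
  have h2 : τ ^ 2 ≤ τ ^ 2 * Δ := le_mul_of_one_le_right (sq_nonneg _) D1
  have h3 : c * (τ ^ 2 * Δ) ≤ 2 * (τ ^ 2 * Δ) :=
    mul_le_mul_of_nonneg_right hc (mul_nonneg (sq_nonneg _) (by linarith))
  have h4 : 4 * τ ^ 2 * Δ ≤ τ * Δ := mul_le_mul_of_nonneg_right h1 (by linarith)
  linarith

theorem gifb_fin1 {A X g E C₁ C ε η τ Δ : ℝ} (hg : 0 ≤ g) (hE : 0 ≤ E) (hC₁ : 0 ≤ C₁)
    (hC : 2 * C₁ ≤ C) (e0 : 0 ≤ ε) (e1 : ε ≤ 1) (e2 : 6 * ε ≤ η) (t0 : 0 < τ) (t1 : τ ≤ 1 / 4)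
    (D1 : 1 ≤ Δ) (hA : A ≤ (1 + ε) * ((1 + ε) * g + C₁ * E + τ ^ 2) * Δ + τ ^ 2)
    (hX : X ≤ A + τ ^ 2) : X ≤ ((1 + η) * g + C * E + τ) * Δ := by
  have h1 := gifb_tau (c := 1 + ε) t0 t1 D1 (by linarith)
  have h2 : (1 + ε) * (1 + ε) * g ≤ (1 + η) * g :=
    mul_le_mul_of_nonneg_right (by nlinarith) hg
  have h3 : (1 + ε) * C₁ * E ≤ C * E := mul_le_mul_of_nonneg_right (by nlinarith) hE
  have h4 := mul_le_mul_of_nonneg_right (add_le_add h2 h3) (show 0 ≤ Δ by linarith)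
  linarith

theorem gifb_fin2 {A X g x x₁ ε η τ Δ : ℝ} (hg : 0 ≤ g) (x0 : 0 ≤ x) (x1 : x ≤ 1) (hx : x₁ ≤ x)
    (e0 : 0 ≤ ε) (e1 : ε ≤ 1 / 2) (e2 : 6 * ε ≤ η) (t0 : 0 < τ) (t1 : τ ≤ 1 / 4)
    (D1 : 1 ≤ Δ) (hA : (1 - ε) ^ 3 * ((1 - x₁ / 2 - ε) * g - τ ^ 2) * Δ ≤ A)
    (hX : A - τ ^ 2 ≤ X) : ((1 - η) * (1 - x) * g - τ) * Δ ≤ X := by
  have c0 : 0 ≤ 1 - ε := by linarith
  have c1 : (1 - ε) ^ 3 ≤ 1 := pow_le_one₀ c0 (by linarith)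
  have h1 := gifb_tau (c := (1 - ε) ^ 3) t0 t1 D1 (by linarith)
  have h2 : (1 - ε) * (1 - x) ≤ 1 - x₁ / 2 - ε := by nlinarith
  have h3 : 1 - η ≤ (1 - ε) ^ 4 := by
    have := one_add_mul_le_pow (a := -ε) (by linarith) 4
    rw [← sub_eq_add_neg] at this
    push_cast at this
    linarith
  have h4 : (1 - η) * (1 - x) ≤ (1 - ε) ^ 3 * (1 - x₁ / 2 - ε) :=
    calc (1 - η) * (1 - x) ≤ (1 - ε) ^ 4 * (1 - x) :=
          mul_le_mul_of_nonneg_right h3 (by linarith)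
      _ = (1 - ε) ^ 3 * ((1 - ε) * (1 - x)) := by ring
      _ ≤ _ := mul_le_mul_of_nonneg_left h2 (pow_nonneg c0 _)
  have h5 := mul_le_mul_of_nonneg_right (mul_le_mul_of_nonneg_right h4 hg)
    (show 0 ≤ Δ by linarith)
  have := sq_nonneg τ
  linarith

theorem gifb_fin3 {Y g E C₁ C ε η τ w z : ℝ} (hg : 0 ≤ g) (hE : 0 ≤ E) (hC₁ : 0 ≤ C₁)
    (hC : 2 * C₁ ≤ C) (e0 : 0 ≤ ε) (e1 : ε ≤ 1) (e2 : 6 * ε ≤ η) (t0 : 0 < τ) (t1 : τ ≤ 1 / 4)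
    (w0 : 0 ≤ w) (hw : z - ε ≤ w)
    (hY : Y ≤ (1 + ε) * ((1 - w + ε) * g + C₁ * E + τ ^ 2) + τ ^ 2) :
    Y ≤ g * (1 + η - z) + C * E + τ := by
  have h1 := gifb_tau (c := 1 + ε) t0 t1 le_rfl (by linarith)
  have h2 : (1 + ε) * (1 - w + ε) * g ≤ (1 + η - z) * g :=
    mul_le_mul_of_nonneg_right (by nlinarith) hg
  have h3 : (1 + ε) * C₁ * E ≤ C * E := mul_le_mul_of_nonneg_right (by nlinarith) hE
  have := sq_nonneg τ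
  linarith

theorem gifb_fin4 {Y g ε η τ w z : ℝ} (hg : 0 ≤ g) (e0 : 0 ≤ ε) (e1 : ε ≤ 1) (e2 : 6 * ε ≤ η)
    (t0 : 0 < τ) (t1 : τ ≤ 1 / 4) (w0 : 0 ≤ w) (hw : w ≤ z + ε)
    (hY : (1 - ε) ^ 4 * ((1 - w - ε) * g - τ ^ 2) ≤ Y) : g * (1 - η - z) - τ ≤ Y := by
  have c0 : 0 ≤ 1 - ε := by linarith
  have c1 : (1 - ε) ^ 4 ≤ 1 := pow_le_one₀ c0 (by linarith)
  have h1 := gifb_tau (c := (1 - ε) ^ 4) t0 t1 le_rfl (by linarith)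
  have h3 : 1 - 4 * ε ≤ (1 - ε) ^ 4 := by
    have := one_add_mul_le_pow (a := -ε) (by linarith) 4
    rw [← sub_eq_add_neg] at this
    push_cast at this
    linarith
  have h2 : (1 - η - z) * g ≤ (1 - ε) ^ 4 * (1 - w - ε) * g := by
    refine mul_le_mul_of_nonneg_right ?_ hg
    have : (1 - ε) ^ 4 * (w + ε) ≤ w + ε := mul_le_of_le_one_left (by linarith) c1
    linarith
  have := sq_nonneg τ
  linarith

theorem gifb_blow {B b η₁ η D C₀ C K Δ ε n : ℝ} (hK : 0 ≤ K) (D1 : 1 ≤ Δ) (hn : 0 ≤ n)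
    (h0 : 0 ≤ η₁) (h1 : η₁ * n ≤ η) (hC₀ : 0 ≤ C₀) (hC : n ^ 2 * C₀ ≤ C)
    (hD : K * (b * n / 2 + |D|) ≤ ε)
    (hB : (b - η₁) * (n / 2 * (Δ - 1)) - D - C₀ * K * (n / 2 * (Δ - 1)) ^ 2 ≤ B) :
    (b * n / 2 - η) * K * Δ - C * (K * Δ) ^ 2 - ε ≤ K * B := by
  have a1 := mul_le_mul_of_nonneg_left hB hK
  have a2 : K * D ≤ K * |D| := mul_le_mul_of_nonneg_left (le_abs_self D) hK
  have x0 : 0 ≤ K * Δ := mul_nonneg hK (by linarith)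
  have a3 : (K * (n / 2 * (Δ - 1))) ^ 2 ≤ (n * (K * Δ)) ^ 2 := by
    refine pow_le_pow_left₀ (mul_nonneg hK (mul_nonneg (by linarith) (by linarith))) ?_ 2
    have := mul_nonneg hn x0
    have := mul_nonneg hn hK
    linarith
  have a4 := mul_le_mul_of_nonneg_left a3 hC₀
  have a5 := mul_le_mul_of_nonneg_right hC (sq_nonneg (K * Δ))
  have a6 := mul_le_mul_of_nonneg_right h1 x0
  have a7 := mul_nonneg (mul_nonneg h0 hn) hK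
  have a8 := mul_nonneg (mul_nonneg h0 hn) x0
  linarith

theorem gifb_bup {B b η₁ η D C₀ C K Δ ε n : ℝ} (hK : 0 ≤ K) (D1 : 1 ≤ Δ) (hn : 0 ≤ n)
    (h0 : 0 ≤ η₁) (h1 : 2 * (η₁ * n) ≤ η) (hC₀ : 0 ≤ C₀) (hC : n ^ 2 * C₀ ≤ C)
    (hD : K * |D| ≤ ε) (e0 : 0 ≤ ε) (e1 : ε ≤ 1) (e2 : ε * (b * n) ≤ η)
    (hB : B ≤ (b + η₁) * (n / 2 * ((1 + ε) * Δ)) + D + C₀ * K * (n / 2 * ((1 + ε) * Δ)) ^ 2) :
    K * B ≤ (b * n / 2 + η) * K * Δ + C * (K * Δ) ^ 2 + ε := by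
  have a1 := mul_le_mul_of_nonneg_left hB hK
  have a2 : K * D ≤ K * |D| := mul_le_mul_of_nonneg_left (le_abs_self D) hK
  have x0 : 0 ≤ K * Δ := mul_nonneg hK (by linarith)
  have a3 : (K * (n / 2 * ((1 + ε) * Δ))) ^ 2 ≤ (n * (K * Δ)) ^ 2 := by
    refine pow_le_pow_left₀ (mul_nonneg hK (mul_nonneg (by linarith)
      (mul_nonneg (by linarith) (by linarith)))) ?_ 2
    have := mul_le_mul_of_nonneg_right e1 (mul_nonneg hn x0)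
    linarith
  have a4 := mul_le_mul_of_nonneg_left a3 hC₀
  have a5 := mul_le_mul_of_nonneg_right hC (sq_nonneg (K * Δ))
  have a6 := mul_le_mul_of_nonneg_right h1 x0
  have a7 := mul_le_mul_of_nonneg_right e2 x0
  have a8 := mul_le_mul_of_nonneg_right e1 (mul_nonneg (mul_nonneg h0 hn) x0)
  linarith

/-- The flow inequalities. -/
theorem iface (hd : 3 ≤ d) {κ M : ℝ} (hκ : 0 < κ) : ∃ a₀ : ℕ, ∀ a : ℕ, a₀ ≤ a →
    ∀ b C₀ : ℝ, 0 < b → 1 ≤ C₀ → ∃ C : ℝ, 1 ≤ C ∧ ∀ η : ℝ, 0 < η → ∃ η₁ : ℝ, 0 < η₁ ∧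
      ∀ D : ℝ, ∃ σ₀ k₀ : ℝ, 1 ≤ σ₀ ∧ 0 < k₀ ∧
        ∀ (ρ : Measure ℝ≥0) [IsProbabilityMeasure ρ] (σ₁ : ℝ), Good d κ M ρ → σ₀ ≤ σ₁ →
          kk d ρ σ₁ ≤ k₀ →
          (BLow d ρ b η₁ D C₀ σ₁ → FlowU (b * d / 2) C η (4 * d * σ₁) (kk d ρ) (gg d ρ a)) ∧
          (BUp d ρ b η₁ D C₀ σ₁ → FlowL (b * d / 2) C η (4 * d * σ₁) (kk d ρ) (gg d ρ a)) := by
  obtain ⟨a₀, ha₀, H⟩ := if_setup (M := M) hd hκ
  refine ⟨a₀, fun a ha b C₀ hb hC₀ => ?_⟩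
  obtain ⟨C₁, hC₁, H⟩ := H a ha
  have d3 : (3 : ℝ) ≤ d := by exact_mod_cast hd
  have hd1 : 1 ≤ d := by omega
  have a1 : (1 : ℝ) ≤ a := by exact_mod_cast ha₀.trans ha
  have dC : 0 ≤ (d : ℝ) ^ 2 * C₀ := by positivity
  have dC' : (d : ℝ) * C₀ ≤ (d : ℝ) ^ 2 * C₀ :=
    mul_le_mul_of_nonneg_right (by nlinarith) (by linarith)
  obtain ⟨C, c1, c2⟩ : ∃ C : ℝ, 2 * C₁ ≤ C ∧ (d : ℝ) ^ 2 * C₀ ≤ C :=
    ⟨2 * C₁ + (d : ℝ) ^ 2 * C₀, by linarith, by linarith⟩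
  refine ⟨C, by linarith, fun η hη => ⟨η / (2 * d), by positivity, fun D => ?_⟩⟩
  have hη₁ : 2 * (η / (2 * d) * d) = η := by field_simp
  have hη₀ : 0 ≤ η / (2 * d) := by positivity
  generalize η / (2 * d) = η₁ at hη₁ hη₀ ⊢
  have bd : 0 < b * d := by positivity
  obtain ⟨ε, e0, e1, e2, e3⟩ : ∃ ε : ℝ, 0 < ε ∧ ε ≤ 1 / 2 ∧ 6 * ε ≤ η ∧ ε * (b * d) ≤ η := by
    have h1 : min (1 / 2) (η / (b * d + 6)) * (b * d + 6) ≤ η :=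
      (le_div_iff₀ (by linarith)).1 (min_le_right _ _)
    have h2 : 0 < min (1 / 2) (η / (b * d + 6)) := lt_min (by norm_num) (by positivity)
    have h3 := mul_pos h2 bd
    exact ⟨_, h2, min_le_left _ _, by linarith, by linarith⟩
  obtain ⟨σ₀, k₀, s1, k0, H⟩ := H ε e0
  obtain ⟨s₀, -, hnum⟩ := gifb_ev a1 e0 (by linarith)
  have aD := abs_nonneg D
  refine ⟨max σ₀ s₀, min k₀ (ε / (b * d / 2 + |D|)), le_max_of_le_left s1,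
    lt_min k0 (by positivity), fun ρ _ σ₁ hG hσ hk => ?_⟩
  have hσ0 : σ₀ ≤ σ₁ := (le_max_left _ _).trans hσ
  have hm : Mean1 ρ := hG.1
  have hp : 1 ≤ q0 d := by unfold q0; exact le_add_of_nonneg_right (by positivity)
  obtain ⟨-, anti, kn, gn⟩ := reg_kk hd1 hm a
  have main : ∀ s Δ, Adm C (4 * d * σ₁) (kk d ρ) s Δ → σ₁ ≤ s ∧ 0 < tiny s ∧ tiny s ≤ 1 / 4 ∧
      1 ≤ Δ ∧ kk d ρ s * (b * d / 2 + |D|) ≤ ε ∧ OO d ρ (q0 d) (Real.exp (-s)) ≠ ⊤ ∧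
      (∀ y, y ≤ d * Δ → C₀ * y * kk d ρ s ≤ 1) ∧
      kk d ρ (s + √s) - kk d ρ (s + Δ) ≤
        ((1 + η) * gg d ρ a s + C * (kk d ρ (s - 2 * Δ) - kk d ρ (s + Δ)) ^ 2 + tiny s) * Δ ∧
      ((1 - η) * (1 - C * kk d ρ s * Δ) * gg d ρ a s - tiny s) * Δ ≤ kk d ρ s - kk d ρ (s + Δ) ∧
      gg d ρ a (s + Δ) ≤ (1 + ε) * ((1 - kk d ρ s *
        Br d ρ (q0 d) (Real.exp (-s)) (d / 2 * (Δ - 1)) + ε) * gg d ρ a s +
        C₁ * (kk d ρ (s - 2 * Δ) - kk d ρ (s + Δ)) ^ 2 + tiny s ^ 2) + tiny s ^ 2 ∧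
      (1 - ε) ^ 4 * ((1 - kk d ρ s * Br d ρ (q0 d) (Real.exp (-s)) (d / 2 * ((1 + ε) * Δ)) - ε) *
        gg d ρ a s - tiny s ^ 2) ≤ gg d ρ a (s + Δ) := by
    intro s Δ hA
    obtain ⟨A1, A2, A3, A4, A5⟩ := hA
    have hs : σ₁ ≤ s := le_trans (by nlinarith) A1
    have hn := hnum s Δ (((le_max_right _ _).trans hσ).trans hs) A2 A3
    have K0 := kn s
    have x0 : 0 ≤ kk d ρ s * Δ := mul_nonneg K0 (by linarith [hn.D1])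
    have x1 : C₁ * kk d ρ s * Δ ≤ C * kk d ρ s * Δ := by
      have := mul_le_mul_of_nonneg_right (show C₁ ≤ C by linarith) x0
      linarith
    have x2 : 0 ≤ C * kk d ρ s * Δ := by
      have := mul_nonneg (show 0 ≤ C by linarith) x0
      linarith
    obtain ⟨hO, i1, i2, HH⟩ := H ρ σ₁ s Δ hG hσ0 (hk.trans (min_le_left _ _))
      ⟨A1, A2, A3, x1.trans A4, A5⟩
    obtain ⟨j1, j2, j3, j4⟩ := gifb_core hd1 hm hp hn e0.le (by linarith) hO (gn s) K0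
      (mul_nonneg (by linarith) (sq_nonneg _)) (x1.trans A4) HH
    refine ⟨hs, hn.t0, hn.t1, hn.D1, ?_, ?_, fun y hy => ?_, ?_, ?_, j3, j4⟩
    · refine (le_div_iff₀ (by linarith)).1 (le_trans ?_ (hk.trans (min_le_right _ _)))
      exact anti (show (0 : ℝ) < σ₁ by linarith) (show (0 : ℝ) < s by linarith) hs
    · exact ne_top_of_le_ne_top hO (OO_horizon hd1 hm hp hn.l0 hn.ll.le hn.l1)
    · have h1 := mul_le_mul_of_nonneg_right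
        (mul_le_mul_of_nonneg_left hy (show 0 ≤ C₀ by linarith)) K0
      have h2 := mul_le_mul_of_nonneg_right (dC'.trans c2) x0
      linarith
    · exact gifb_fin1 (gn s) (sq_nonneg _) (by linarith) c1 e0.le (by linarith) e2 hn.t0 hn.t1
        hn.D1 j1 (by linarith)
    · exact gifb_fin2 (gn s) x2 A4 x1 e0.le e1 e2 hn.t0 hn.t1 hn.D1 j2 (by linarith)
  constructor
  · intro hB s Δ hA
    obtain ⟨hs, t0, t1, D1, hK, hO, hy, f1, f2, f3, -⟩ := main s Δ hA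
    refine ⟨f1, f2, ?_⟩
    have b1 := hB s hs hO (d / 2 * (Δ - 1)) (mul_nonneg (by linarith) (by linarith))
      (hy _ (by nlinarith))
    have b2 := gifb_blow (η := η) (kn s) D1 (by linarith) hη₀ (by linarith) (by linarith) c2 hK b1
    have b3 := gifb_fin3 (gn s) (sq_nonneg _) (by linarith) c1 e0.le (by linarith) e2 t0 t1
      (mul_nonneg (kn s) ENNReal.toReal_nonneg) b2 f3
    linarith
  · intro hB s Δ hA
    obtain ⟨hs, t0, t1, D1, hK, hO, hy, -, -, -, f4⟩ := main s Δ hA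
    have y1 : (d : ℝ) / 2 * ((1 + ε) * Δ) ≤ d * Δ := by
      have := mul_le_mul_of_nonneg_right (show ε ≤ 1 by linarith)
        (mul_nonneg (show (0 : ℝ) ≤ d by linarith) (show 0 ≤ Δ by linarith))
      linarith
    have b1 := hB s hs hO (d / 2 * ((1 + ε) * Δ))
      (mul_nonneg (by linarith) (mul_nonneg (by linarith) (by linarith))) (hy _ y1)
    have hK' : kk d ρ s * |D| ≤ ε := by
      have := mul_nonneg (kn s) bd.le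
      linarith
    have b2 := gifb_bup (η := η) (kn s) D1 (by linarith) hη₀ hη₁.le (by linarith) c2 hK' e0.le
      (by linarith) e3 b1
    have b3 := gifb_fin4 (gn s) e0.le (by linarith) e2 t0 t1
      (mul_nonneg (kn s) ENNReal.toReal_nonneg) b2 f4
    linarith

end Pool.Agent.Lib.MP_153faa_pr
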