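import Mathlib
import Pool.Agent.Lib.MP_153faa_pr.GDefs

set_option autoImplicit false

open MeasureTheory Filter Topology
open scoped ENNReal NNReal

namespace Pool.Agent.Lib.MP_153faa_pr

/-- Strong induction along a half line with unit gaps. -/
theorem godec1_ind (x : ℝ) (Q : ℝ → Prop)
    (h : ∀ z, x ≤ z → (∀ w, x ≤ w → w ≤ z - 1 → Q w) → Q z) : ∀ z, x ≤ z → Q z := by
  have key : ∀ n : ℕ, ∀ z, x ≤ z → z < x + n → Q z := by
    intro n
    induction n with
    | zero => intro z h1 h2; simp at h2; linarith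
    | succ n ih =>
      intro z h1 h2
      refine h z h1 fun w hw1 hw2 => ih w hw1 ?_
      push_cast at h2
      linarith
  intro z hz
  obtain ⟨n, hn⟩ := exists_nat_gt (z - x)
  exact key n z hz (by linarith)

/-- The one step bound at the point `w`. -/
def godec1S (A : ℝ) (k : ℝ → ℝ) (w : ℝ) : Prop :=
  0 < k w ∧ ∀ z, w ≤ z → z ≤ w + √w / 2 → k w - k z ≤ A * (k w * √w + 1 / √w) * k w

theorem godec1_back {x z : ℝ} (hx : 16 ≤ x) (hz : x + √x / 2 ≤ z) :
    x ≤ z - √z / 4 ∧ z - √z / 4 ≤ z - 1 ∧ z ≤ (z - √z / 4) + √(z - √z / 4) / 2 ∧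
      √(z - √z / 4) ≤ √z ∧ √x ≤ √z := by
  have hx0 : 0 ≤ x := by linarith
  have ha : 4 ≤ √x := by
    rw [Real.le_sqrt (by norm_num) hx0]; linarith
  have ha2 : √x * √x = x := Real.mul_self_sqrt hx0
  have hxz : x ≤ z := by linarith
  have hz0 : 0 ≤ z := by linarith
  have hc2 : √z * √z = z := Real.mul_self_sqrt hz0
  have hac : √x ≤ √z := Real.sqrt_le_sqrt hxz
  have h1 : x ≤ z - √z / 4 := by
    by_contra hcon
    push Not at hcon
    have : 2 * √x < √z := by linarith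
    nlinarith
  refine ⟨h1, by linarith, ?_, Real.sqrt_le_sqrt (by linarith), hac⟩
  have : √z / 2 ≤ √(z - √z / 4) := by
    rw [Real.le_sqrt (by positivity) (by linarith)]
    nlinarith
  linarith

/-- Small relative drop on short windows. -/
theorem godec1_R {A ε x y : ℝ} {k : ℝ → ℝ} (hk : AntitoneOn k (Set.Ioi 0)) (hx : 16 ≤ x)
    (hε : ∀ w, x ≤ w → A * (k w * √w + 1 / √w) ≤ ε) (hε0 : 0 ≤ ε)
    (hS0 : godec1S A k x) (hS : ∀ w, x ≤ w → w ≤ y - 1 → godec1S A k w) :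
    ∀ z, x ≤ z → z ≤ y → k x - k z ≤ ε * k x * (1 + 4 * (z - x) / √x) := by
  have hx0 : 0 < x := by linarith
  have hsx : 0 < √x := Real.sqrt_pos.mpr hx0
  refine godec1_ind x (fun z => z ≤ y → k x - k z ≤ ε * k x * (1 + 4 * (z - x) / √x)) ?_
  intro z hz ih hzy
  have hkx := hS0.1
  by_cases hc : z ≤ x + √x / 2
  · have h1 := hS0.2 z hz hc
    have h2 : A * (k x * √x + 1 / √x) * k x ≤ ε * k x :=
      mul_le_mul_of_nonneg_right (hε x le_rfl) hkx.le
    have h3 : 0 ≤ 4 * (z - x) / √x := div_nonneg (by linarith) hsx.le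
    have h4 : 0 ≤ ε * k x := mul_nonneg hε0 hkx.le
    nlinarith
  · push Not at hc
    obtain ⟨b1, b2, b3, b4, b5⟩ := godec1_back hx hc.le
    set w := z - √z / 4 with hw
    have ihw := ih w b1 b2 (by linarith)
    have hSw := hS w b1 (by linarith)
    have h1 := hSw.2 z (by linarith) b3
    have h2 : A * (k w * √w + 1 / √w) * k w ≤ ε * k w :=
      mul_le_mul_of_nonneg_right (hε w b1) hSw.1.le
    have h3 : k w ≤ k x := hk hx0 (show (0:ℝ) < w by linarith) b1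
    have h4 : ε * k w ≤ ε * k x := mul_le_mul_of_nonneg_left h3 hε0
    have h5 : 4 * (w - x) / √x + 1 ≤ 4 * (z - x) / √x := by
      rw [div_add_one hsx.ne', div_le_div_iff_of_pos_right hsx]
      linarith
    have h6 : 0 ≤ ε * k x := mul_nonneg hε0 hkx.le
    nlinarith

/-- Polynomial envelope for the inverse. -/
theorem godec1_E {A x y : ℝ} {k : ℝ → ℝ} {m : ℕ} (hA : 0 ≤ A) (hm : 16 * A ≤ m) (hm1 : 1 ≤ m)
    (hx : 16 ≤ x)
    (hε : ∀ w, x ≤ w → A * (k w * √w + 1 / √w) ≤ 1 / 2)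
    (hS0 : godec1S A k x) (hS : ∀ w, x ≤ w → w ≤ y - 1 → godec1S A k w) :
    ∀ z, x ≤ z → z ≤ y → 0 < k z ∧ 1 / k z ≤ (2 / k x + x) * (z / x) ^ m := by
  have hx0 : 0 < x := by linarith
  have hkx := hS0.1
  refine godec1_ind x (fun z => z ≤ y → 0 < k z ∧ 1 / k z ≤ (2 / k x + x) * (z / x) ^ m) ?_
  intro z hz ih hzy
  have hzx : 1 ≤ z / x := by rw [le_div_iff₀ hx0]; linarith
  by_cases hc : z ≤ x + √x / 2
  · have h1 := hS0.2 z hz hc
    have h2 : A * (k x * √x + 1 / √x) * k x ≤ 1 / 2 * k x :=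
      mul_le_mul_of_nonneg_right (hε x le_rfl) hkx.le
    have h3 : k x / 2 ≤ k z := by linarith
    have hkz : 0 < k z := by linarith
    refine ⟨hkz, ?_⟩
    have h4 : 1 / k z ≤ 2 / k x := by
      rw [div_le_div_iff₀ hkz hkx]; linarith
    have h5 : 1 ≤ (z / x) ^ m := one_le_pow₀ hzx
    have h6 : 0 < 2 / k x := by positivity
    nlinarith
  · push Not at hc
    obtain ⟨b1, b2, b3, b4, b5⟩ := godec1_back hx hc.le
    set w := z - √z / 4 with hw
    obtain ⟨hkw, ihw⟩ := ih w b1 b2 (by linarith)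
    have hSw := hS w b1 (by linarith)
    have h1 := hSw.2 z (by linarith) b3
    have hw0 : 0 < w := by linarith
    have hsw : 0 < √w := Real.sqrt_pos.mpr hw0
    have hww : √w * √w = w := Real.mul_self_sqrt hw0.le
    set e := A * (k w * √w + 1 / √w) with he
    have he1 : e ≤ 1 / 2 := hε w b1
    have he0 : 0 ≤ e := by positivity
    have hkz : 0 < k z := by nlinarith
    refine ⟨hkz, ?_⟩
    set M := (2 / k x + x) * (w / x) ^ m with hM
    have hwx : 1 ≤ w / x := by rw [le_div_iff₀ hx0]; linarith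
    have hMw : w ≤ M := by
      have h5 : w / x ≤ (w / x) ^ m := le_self_pow₀ hwx (by omega)
      have h6 : 0 < 2 / k x := by positivity
      have h7 : x * (w / x) = w := by field_simp
      have h8 : 0 ≤ (w / x) ^ m := by positivity
      nlinarith
    have h2 : 1 / k z ≤ 1 / k w * (1 + 2 * e) := by
      rw [div_mul_eq_mul_div, one_mul, div_le_div_iff₀ hkz hkw]
      nlinarith [mul_nonneg he0 (sub_nonneg.mpr he1), mul_nonneg hkw.le he0]
    have h3 : 1 / k w * (1 + 2 * e) = 1 / k w + 2 * A * √w + 2 * A * (1 / k w) / √w := by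
      rw [he]; field_simp; ring
    have h4 : 2 * A * √w ≤ 2 * A * M / √w := by
      rw [le_div_iff₀ hsw]
      nlinarith
    have h5 : 2 * A * (1 / k w) / √w ≤ 2 * A * M / √w := by
      gcongr
    have h6 : (z / x) ^ m = (w / x) ^ m * (z / w) ^ m := by
      rw [← mul_pow]; congr 1; field_simp
    have h7 : 1 + 4 * A / √w ≤ (z / w) ^ m := by
      have h8 : z / w = 1 + (z - w) / w := by field_simp; ring
      have h9 : 0 ≤ (z - w) / w := div_nonneg (by linarith) hw0.le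
      have h10 := one_add_mul_le_pow (show (-2:ℝ) ≤ (z - w) / w by linarith) m
      rw [h8]
      refine le_trans ?_ h10
      have h11 : 1 / (4 * √w) ≤ (z - w) / w := by
        rw [div_le_div_iff₀ (by positivity) hw0]
        have : z - w = √z / 4 := by rw [hw]; ring
        rw [this]
        nlinarith
      have h12 : 4 * A / √w = 16 * A * (1 / (4 * √w)) := by field_simp; ring
      rw [h12]
      have h13 : 0 ≤ 1 / (4 * √w) := by positivity
      nlinarith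
    have hM0 : 0 ≤ M := by linarith
    have h14 : M * (1 + 4 * A / √w) = M + 2 * A * M / √w + 2 * A * M / √w := by
      field_simp; ring
    calc 1 / k z ≤ M * (1 + 4 * A / √w) := by linarith
      _ ≤ M * (z / w) ^ m := mul_le_mul_of_nonneg_left h7 hM0
      _ = (2 / k x + x) * (z / x) ^ m := by rw [h6, hM]; ring

/-- Linear drop bound. -/
theorem godec1_lin {A v x : ℝ} {k : ℝ → ℝ} (hk : AntitoneOn k (Set.Ioi 0)) (hA : 0 ≤ A)
    (hv : 0 < v) (hx : 16 ≤ x) (hS : ∀ w, x ≤ w → godec1S A k w)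
    (hl : ∀ w, x ≤ w → v / w ≤ k w) :
    ∀ z, x ≤ z → k x - k z ≤ 4 * (A * (1 + 1 / v)) * (z - x + √x) * k x ^ 2 := by
  have hx0 : 0 < x := by linarith
  set B := A * (1 + 1 / v) with hB
  have hB0 : 0 ≤ B := by positivity
  have one : ∀ w, x ≤ w → ∀ z, w ≤ z → z ≤ w + √w / 2 → k w - k z ≤ B * √w * k x ^ 2 := by
    intro w hw z h1 h2
    have hw0 : 0 < w := by linarith
    have hsw : 0 < √w := Real.sqrt_pos.mpr hw0
    have hww : √w * √w = w := Real.mul_self_sqrt hw0.le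
    have hkw := (hS w hw).1
    have h3 := (hS w hw).2 z h1 h2
    have h4 : 1 / √w ≤ k w * √w * (1 / v) := by
      have h5 := hl w hw
      rw [div_le_iff₀ hw0] at h5
      rw [mul_one_div, div_le_div_iff₀ hsw hv]
      nlinarith
    have h6 : k w ≤ k x := hk hx0 hw0 hw
    have h7 : A * (k w * √w + 1 / √w) * k w ≤ B * √w * k w ^ 2 := by
      have : A * (k w * √w + 1 / √w) ≤ A * (k w * √w + k w * √w * (1 / v)) := by gcongr
      calc A * (k w * √w + 1 / √w) * k w ≤ A * (k w * √w + k w * √w * (1 / v)) * k w := by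
            gcongr
        _ = B * √w * k w ^ 2 := by rw [hB]; ring
    have h8 : B * √w * k w ^ 2 ≤ B * √w * k x ^ 2 := by gcongr
    linarith
  refine godec1_ind x (fun z => k x - k z ≤ 4 * B * (z - x + √x) * k x ^ 2) ?_
  intro z hz ih
  have hsx : 0 ≤ √x := Real.sqrt_nonneg x
  have hk2 : 0 ≤ B * k x ^ 2 := by positivity
  by_cases hc : z ≤ x + √x / 2
  · have h1 := one x le_rfl z hz hc
    nlinarith [mul_nonneg hk2 (sub_nonneg.mpr hz), mul_nonneg hk2 hsx]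
  · push Not at hc
    obtain ⟨b1, b2, b3, b4, b5⟩ := godec1_back hx hc.le
    have ihw := ih _ b1 b2
    have h1 := one _ b1 z (by linarith) b3
    nlinarith [mul_le_mul_of_nonneg_left b4 hk2]

theorem godec1_pow {α β : ℝ} (c : ℝ) (h : α < β) :
    ∀ᶠ x : ℝ in atTop, c * x ^ α ≤ x ^ β := by
  have h1 := (tendsto_rpow_atTop (sub_pos.mpr h)).eventually_ge_atTop c
  filter_upwards [h1, eventually_gt_atTop 0] with x hx hx0
  have : x ^ β = x ^ (β - α) * x ^ α := by rw [← Real.rpow_add hx0]; ring_nf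
  rw [this]
  exact mul_le_mul_of_nonneg_right hx (Real.rpow_nonneg hx0.le _)

theorem godec1_le_exp {x : ℝ} (hx : 1 ≤ x) : x ≤ Real.exp (6 * x ^ (1 / 6 : ℝ)) := by
  have h1 := Real.log_le_rpow_div (show 0 ≤ x by linarith) (show (0:ℝ) < 1 / 6 by norm_num)
  calc x = Real.exp (Real.log x) := (Real.exp_log (by linarith)).symm
    _ ≤ _ := Real.exp_le_exp.mpr (by linarith)

theorem godec1_asA (m : ℕ) : ∀ᶠ σ : ℝ in atTop,
    2 * ((2 * Real.exp ((4 * σ) ^ (1 / 6 : ℝ)) + 2 * σ) * (2 * σ) ^ m) ≤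
      Real.exp (σ ^ (1 / 5 : ℝ)) := by
  filter_upwards [godec1_pow (8 * (m:ℝ) + 20) (show (1 / 6 : ℝ) < 1 / 5 by norm_num),
    eventually_ge_atTop 1] with σ h1 h2
  set t := σ ^ (1 / 6 : ℝ) with ht
  have ht1 : 1 ≤ t := Real.one_le_rpow h2 (by norm_num)
  have h3 : (4 * σ) ^ (1 / 6 : ℝ) ≤ 4 * t := by
    rw [Real.mul_rpow (by norm_num) (by linarith)]
    have : (4:ℝ) ^ (1 / 6 : ℝ) ≤ 4 := by
      calc (4:ℝ) ^ (1 / 6 : ℝ) ≤ 4 ^ (1:ℝ) :=
            Real.rpow_le_rpow_of_exponent_le (by norm_num) (by norm_num)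
        _ = 4 := by simp
    exact mul_le_mul_of_nonneg_right this (by linarith)
  have h4 : σ ≤ Real.exp (6 * t) := godec1_le_exp h2
  have h5 : (2:ℝ) ≤ Real.exp t := by linarith [Real.add_one_le_exp t]
  have h6 : 2 * σ ≤ Real.exp (7 * t) := by
    calc 2 * σ ≤ Real.exp t * Real.exp (6 * t) := by gcongr
      _ = _ := by rw [← Real.exp_add]; ring_nf
  have h7 : 2 * Real.exp ((4 * σ) ^ (1 / 6 : ℝ)) ≤ Real.exp (7 * t) := by
    calc 2 * Real.exp ((4 * σ) ^ (1 / 6 : ℝ)) ≤ Real.exp t * Real.exp (4 * t) := by gcongr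
      _ = Real.exp (5 * t) := by rw [← Real.exp_add]; ring_nf
      _ ≤ _ := Real.exp_le_exp.mpr (by linarith)
  have h8 : (2 * σ) ^ m ≤ Real.exp (7 * t * m) := by
    calc (2 * σ) ^ m ≤ Real.exp (7 * t) ^ m := by gcongr
      _ = _ := by rw [← Real.exp_nat_mul]; ring_nf
  have hm : (0:ℝ) ≤ m := Nat.cast_nonneg m
  calc 2 * ((2 * Real.exp ((4 * σ) ^ (1 / 6 : ℝ)) + 2 * σ) * (2 * σ) ^ m)
      ≤ Real.exp t * ((Real.exp t * Real.exp (7 * t)) * Real.exp (7 * t * m)) := by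
        gcongr
        nlinarith [Real.exp_pos (7 * t)]
    _ = Real.exp (9 * t + 7 * t * m) := by
        rw [← Real.exp_add, ← Real.exp_add, ← Real.exp_add]; ring_nf
    _ ≤ _ := Real.exp_le_exp.mpr (by nlinarith)

theorem godec1_asB : ∀ᶠ σ : ℝ in atTop, tiny σ ≤ Real.exp (-σ ^ (1 / 5 : ℝ)) ^ 2 ∧
    2048 * σ * tiny σ ≤ Real.exp (-σ ^ (1 / 5 : ℝ)) := by
  filter_upwards [godec1_pow 2 (show (1 / 5 : ℝ) < 1 / 4 by norm_num),
    godec1_pow 12 (show (1 / 6 : ℝ) < 1 / 5 by norm_num), eventually_ge_atTop 2048] with σ h1 h2 h3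
  have h4 : tiny σ ≤ Real.exp (-σ ^ (1 / 5 : ℝ)) ^ 2 := by
    rw [tiny, ← Real.exp_nat_mul]
    exact Real.exp_le_exp.mpr (by push_cast; linarith)
  refine ⟨h4, ?_⟩
  have h5 : σ ≤ Real.exp (6 * σ ^ (1 / 6 : ℝ)) := godec1_le_exp (by linarith)
  have h6 : 2048 * σ ≤ Real.exp (σ ^ (1 / 5 : ℝ)) := by
    calc 2048 * σ ≤ Real.exp (6 * σ ^ (1 / 6 : ℝ)) * Real.exp (6 * σ ^ (1 / 6 : ℝ)) := by
          gcongr; linarith
      _ = Real.exp (12 * σ ^ (1 / 6 : ℝ)) := by rw [← Real.exp_add]; ring_nf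
      _ ≤ _ := Real.exp_le_exp.mpr h2
  calc 2048 * σ * tiny σ ≤ Real.exp (σ ^ (1 / 5 : ℝ)) * Real.exp (-σ ^ (1 / 5 : ℝ)) ^ 2 := by
        gcongr; exact (Real.exp_pos _).le
    _ = _ := by rw [sq, ← mul_assoc, ← Real.exp_add]; simp

theorem godec1_small {k : ℝ → ℝ} (h0 : ∀ σ, 0 ≤ k σ)
    (h1 : ∀ᶠ σ in atTop, k σ ≤ σ ^ (-(3 / 4) : ℝ)) (A : ℝ) {ε : ℝ} (hε : 0 < ε) :
    ∀ᶠ w : ℝ in atTop, A * (k w * √w + 1 / √w) ≤ ε := by
  have t1 : Tendsto (fun w : ℝ => k w * √w) atTop (𝓝 0) := by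
    refine squeeze_zero' (Eventually.of_forall fun w => mul_nonneg (h0 w) (Real.sqrt_nonneg w))
      ?_ (tendsto_rpow_neg_atTop (show (0:ℝ) < 1 / 4 by norm_num))
    filter_upwards [h1, eventually_gt_atTop 0] with w hw hw0
    calc k w * √w ≤ w ^ (-(3 / 4) : ℝ) * √w := by gcongr
      _ = w ^ (-(1 / 4) : ℝ) := by
        rw [Real.sqrt_eq_rpow, ← Real.rpow_add hw0]; norm_num
  have t2 : Tendsto (fun w : ℝ => 1 / √w) atTop (𝓝 0) :=
    tendsto_const_nhds.div_atTop Real.tendsto_sqrt_atTop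
  have t3 : Tendsto (fun w : ℝ => A * (k w * √w + 1 / √w)) atTop (𝓝 0) := by
    simpa using (t1.add t2).const_mul A
  exact (t3.eventually (ge_mem_nhds hε))

end Pool.Agent.Lib.MP_153faa_pr
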