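import Mathlib
import Pool.Agent.Lib.MP_153faa_pr.GDefs
import Pool.Agent.Lib.MP_153faa_pr.GOdeC1a

set_option autoImplicit false

open MeasureTheory Filter Topology
open scoped ENNReal NNReal

namespace Pool.Agent.Lib.MP_153faa_pr

variable {d : ℕ}

/-- The admissibility bound near `x`. -/
def godec1Low (k : ℝ → ℝ) (x : ℝ) : Prop :=
  ∀ σ, x / 2 ≤ σ → 2 * Real.exp (-σ ^ (1 / 5 : ℝ)) ≤ k x

theorem godec1_step {b C η σ₀ : ℝ} (hC : 1 ≤ C) {k g : ℝ → ℝ} (hr : Reg k g) (hη : η ≤ 1)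
    (hU : FlowU b C η σ₀ k g)
    (h5 : ∃ σ₀, ∀ σ, σ₀ ≤ σ → Real.exp (-σ ^ (1 / 5 : ℝ)) ≤ k σ →
      g σ ≤ C * (k σ ^ 2 + k σ / σ))
    (h1 : ∀ᶠ σ in atTop, k σ ≤ σ ^ (-(3 / 4) : ℝ)) :
    ∀ᶠ x in atTop, godec1Low k x → k (x - 5 * √x) ≤ 2 * k x → godec1S (26 * C) k x := by
  obtain ⟨σ₅, h5⟩ := h5
  obtain ⟨hcont, hk, hk0, hg0⟩ := hr
  obtain ⟨σ₆, h6⟩ := eventually_atTop.mp godec1_asB
  filter_upwards [godec1_small hk0 h1 (26 * C) (show (0:ℝ) < 1 / 4 by norm_num),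
    eventually_ge_atTop (2 * σ₀), eventually_ge_atTop (2 * σ₅), eventually_ge_atTop (2 * σ₆),
    eventually_ge_atTop (256 ^ 2)] with x hε hx0 hx5 hx6 hx hlow hrat
  have hxp : 0 < x := by linarith
  have ha : 256 ≤ √x := by
    rw [Real.le_sqrt (by norm_num) hxp.le]; exact hx
  have haa : √x * √x = x := Real.mul_self_sqrt hxp.le
  obtain ⟨r, hr0, hrr⟩ : ∃ r : ℝ, 0 ≤ r ∧ r * r + r = x := by
    have h4 : 1 ≤ √(1 + 4 * x) := by
      rw [Real.le_sqrt (by norm_num) (by linarith)]; linarith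
    have h4' : √(1 + 4 * x) * √(1 + 4 * x) = 1 + 4 * x := Real.mul_self_sqrt (by linarith)
    exact ⟨(√(1 + 4 * x) - 1) / 2, by linarith, by nlinarith⟩
  have hra : r ≤ √x := by nlinarith
  have har : √x ≤ 2 * r := by nlinarith
  have hsq : √(r * r) = r := Real.sqrt_mul_self hr0
  have hσx : x / 2 ≤ r * r := by nlinarith
  have hkx : 0 < k x := by
    have := hlow (r * r) hσx
    linarith [Real.exp_pos (-(r * r) ^ (1 / 5 : ℝ))]
  have hback : 0 < x - 5 * √x := by nlinarith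
  have main : ∀ z, x ≤ z → z ≤ x + √x / 2 → k x / 2 ≤ k z →
      k x - k z ≤ 26 * C * (k x * √x + 1 / √x) * k x := by
    intro z hz1 hz2 hz3
    have hl := hlow (r * r) hσx
    have hΔ1 : r ≤ z - r * r := by linarith
    have hΔ2 : z - r * r ≤ 2 * r := by linarith
    have hσ0 : 0 < r * r := by linarith
    have hkσ : k (r * r) ≤ 2 * k x :=
      le_trans (hk hback hσ0 (by linarith)) hrat
    have hkσ' : k x ≤ k (r * r) := hk hσ0 hxp (by linarith)
    have hz' : r * r + (z - r * r) = z := by ring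
    have hka : 26 * C * (k x * √x) ≤ 1 / 4 := by
      have : 0 ≤ 1 / √x := by positivity
      nlinarith
    have hadm : Adm C σ₀ k (r * r) (z - r * r) := by
      refine ⟨by linarith, by rw [hsq]; exact hΔ1, by nlinarith, ?_, by rw [hz']; linarith⟩
      calc C * k (r * r) * (z - r * r) ≤ C * (2 * k x) * (2 * √x) := by
            gcongr
            · linarith
            · linarith
        _ ≤ 1 := by nlinarith
    have hI := (hU _ _ hadm).1
    rw [hsq, hz', hrr] at hI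
    have hg := h5 (r * r) (by linarith) (by linarith)
    have ht := (h6 (r * r) (by linarith)).1
    have ht' : tiny (r * r) ≤ k x ^ 2 := by
      refine le_trans ht ?_
      have := Real.exp_pos (-(r * r) ^ (1 / 5 : ℝ))
      gcongr
      linarith
    have hb2 : 0 < r * r - 2 * (z - r * r) := by nlinarith
    have hd1 : k (r * r - 2 * (z - r * r)) ≤ 2 * k x :=
      le_trans (hk hback hb2 (by linarith)) hrat
    have hd2 : k z ≤ k (r * r - 2 * (z - r * r)) :=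
      hk hb2 (show (0:ℝ) < z by linarith) (by linarith)
    have hd3 : (k (r * r - 2 * (z - r * r)) - k z) ^ 2 ≤ (2 * k x) ^ 2 := by
      have := hk0 z
      exact pow_le_pow_left₀ (by linarith) (by linarith) 2
    have hg2 : g (r * r) ≤ C * (4 * k x ^ 2 + 4 * k x / x) := by
      refine le_trans hg ?_
      have e1 : k (r * r) ^ 2 ≤ (2 * k x) ^ 2 := by
        have := hk0 (r * r)
        gcongr
      have e2 : k (r * r) / (r * r) ≤ 4 * k x / x := by
        rw [div_le_div_iff₀ hσ0 hxp]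
        nlinarith
      gcongr
      linarith
    have hE : (1 + η) * g (r * r) + C * (k (r * r - 2 * (z - r * r)) - k z) ^ 2 + tiny (r * r)
        ≤ 13 * C * (k x ^ 2 + k x / x) := by
      have e1 : (1 + η) * g (r * r) ≤ 2 * g (r * r) :=
        mul_le_mul_of_nonneg_right (by linarith) (hg0 _)
      have e2 : C * (k (r * r - 2 * (z - r * r)) - k z) ^ 2 ≤ C * (2 * k x) ^ 2 := by
        gcongr
      have e3 : 0 ≤ k x / x := by positivity
      have e4 : 4 * k x / x = 4 * (k x / x) := by ring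
      have e5 : k x ^ 2 ≤ C * k x ^ 2 := by nlinarith [sq_nonneg (k x)]
      rw [e4] at hg2
      nlinarith
    have hE0 : 0 ≤ 13 * C * (k x ^ 2 + k x / x) := by positivity
    calc k x - k z ≤ _ := hI
      _ ≤ 13 * C * (k x ^ 2 + k x / x) * (z - r * r) :=
        mul_le_mul_of_nonneg_right hE (by linarith)
      _ ≤ 13 * C * (k x ^ 2 + k x / x) * (2 * √x) :=
        mul_le_mul_of_nonneg_left (by linarith) hE0
      _ = 26 * C * (k x * √x + 1 / √x) * k x := by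
        have hs : √x ≠ 0 := by positivity
        have : k x / x = k x / (√x * √x) := by rw [haa]
        rw [this]
        field_simp
        ring
  refine ⟨hkx, fun z hz1 hz2 => ?_⟩
  by_cases hc : k x / 2 ≤ k z
  · exact main z hz1 hz2 hc
  · exfalso
    push Not at hc
    have hsub : Set.Icc x z ⊆ Set.Ioi 0 := fun t ht => lt_of_lt_of_le hxp ht.1
    obtain ⟨t, ht, htk⟩ := intermediate_value_Icc' hz1 (hcont.mono hsub)
      (show k x / 2 ∈ Set.Icc (k z) (k x) from ⟨hc.le, by linarith⟩)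
    have := main t ht.1 (by linarith [ht.2]) htk.ge
    have h7 : 26 * C * (k x * √x + 1 / √x) * k x ≤ 1 / 4 * k x :=
      mul_le_mul_of_nonneg_right hε hkx.le
    linarith

theorem godec1_start {k g : ℝ → ℝ} (hr : Reg k g)
    (h1 : ∀ᶠ σ in atTop, k σ ≤ σ ^ (-(3 / 4) : ℝ))
    (h2 : ∀ τ₁, ∃ τ, τ₁ ≤ τ ∧ Real.exp (-τ ^ (1 / 6 : ℝ)) ≤ k τ) (X : ℝ) :
    ∃ x, X ≤ x ∧ k (x - 5 * √x) ≤ 3 / 2 * k x ∧ Real.exp (-(2 * x) ^ (1 / 6 : ℝ)) ≤ k x := by
  obtain ⟨hcont, hk, hk0, hg0⟩ := hr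
  obtain ⟨Y, hY⟩ := eventually_atTop.mp (h1.and (eventually_gt_atTop 1))
  obtain ⟨Z, hZ⟩ := eventually_atTop.mp
    (godec1_pow 40 (show (1 / 6 : ℝ) < 1 / 2 by norm_num))
  obtain ⟨τ, hτ, hkτ⟩ := h2 (max (max (2 * X) (2 * Y)) (max Z 1))
  have hτX : 2 * X ≤ τ := le_trans (le_trans (le_max_left _ _) (le_max_left _ _)) hτ
  have hτY : 2 * Y ≤ τ := le_trans (le_trans (le_max_right _ _) (le_max_left _ _)) hτ
  have hτZ : Z ≤ τ := le_trans (le_trans (le_max_left _ _) (le_max_right _ _)) hτ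
  have hτ1 : 1 ≤ τ := le_trans (le_trans (le_max_right _ _) (le_max_right _ _)) hτ
  have hτ0 : 0 < τ := by linarith
  have hz := hZ τ hτZ
  rw [← Real.sqrt_eq_rpow] at hz
  set t := τ ^ (1 / 6 : ℝ) with ht
  have ht1 : 1 ≤ t := Real.one_le_rpow hτ1 (by norm_num)
  have haa : √τ * √τ = τ := Real.mul_self_sqrt hτ0.le
  have ha0 : 0 ≤ √τ := Real.sqrt_nonneg τ
  by_contra hcon
  push Not at hcon
  have key : ∀ j : ℕ, 10 * (j:ℝ) ≤ √τ → (3 / 2) ^ j * k τ ≤ k (τ - 5 * j * √τ) := by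
    intro j
    induction j with
    | zero => intro _; simp
    | succ j ih =>
      intro hj
      push_cast at hj ⊢
      have hj0 : (0:ℝ) ≤ j := Nat.cast_nonneg j
      have ih' := ih (by linarith)
      set x := τ - 5 * j * √τ with hx
      have hx1 : τ / 2 ≤ x - 5 * √τ := by rw [hx]; nlinarith
      have hx2 : x ≤ τ := by rw [hx]; nlinarith
      have hx0 : 0 < x := by linarith
      have hkx : k τ ≤ k x := hk hx0 hτ0 hx2
      have hsx : √x ≤ √τ := Real.sqrt_le_sqrt hx2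
      have e1 : Real.exp (-(2 * x) ^ (1 / 6 : ℝ)) ≤ k x := by
        refine le_trans (Real.exp_le_exp.mpr ?_) (le_trans hkτ hkx)
        have : τ ^ (1 / 6 : ℝ) ≤ (2 * x) ^ (1 / 6 : ℝ) :=
          Real.rpow_le_rpow hτ0.le (by linarith) (by norm_num)
        linarith
      have e2 : 3 / 2 * k x < k (x - 5 * √x) := by
        by_contra h
        push Not at h
        exact absurd (hcon x (by linarith) h) (not_lt.mpr e1)
      have e3 : k (x - 5 * √x) ≤ k (x - 5 * √τ) :=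
        hk (show (0:ℝ) < x - 5 * √τ by linarith) (show (0:ℝ) < x - 5 * √x by linarith)
          (by linarith)
      have e4 : τ - 5 * ((j:ℝ) + 1) * √τ = x - 5 * √τ := by rw [hx]; ring
      rw [e4, pow_succ]
      linarith
  set j := ⌈3 * t⌉₊ with hj
  have hj1 : 3 * t ≤ j := Nat.le_ceil _
  have hj2 : (j:ℝ) < 3 * t + 1 := Nat.ceil_lt_add_one (by linarith)
  have hj3 : 10 * (j:ℝ) ≤ √τ := by linarith
  have e1 := key j hj3
  have hj0 : (0:ℝ) ≤ j := Nat.cast_nonneg j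
  have e2 : τ / 2 ≤ τ - 5 * j * √τ := by nlinarith
  obtain ⟨e3, e4⟩ := hY (τ - 5 * j * √τ) (by linarith)
  have e5 : (τ - 5 * j * √τ) ^ (-(3 / 4) : ℝ) < 1 :=
    Real.rpow_lt_one_of_one_lt_of_neg e4 (by norm_num)
  have e6 : Real.exp (1 / 3) ≤ 3 / 2 := by
    have h := Real.add_one_le_exp (-(1 / 3))
    have h' : Real.exp (1 / 3) * Real.exp (-(1 / 3)) = 1 := by rw [← Real.exp_add]; simp
    nlinarith [Real.exp_pos (1 / 3)]
  have e7 : Real.exp t ≤ (3 / 2) ^ j := by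
    calc Real.exp t ≤ Real.exp (j * (1 / 3)) := Real.exp_le_exp.mpr (by linarith)
      _ = Real.exp (1 / 3) ^ j := Real.exp_nat_mul _ _
      _ ≤ _ := by gcongr
  have e8 : Real.exp t * Real.exp (-t) ≤ (3 / 2) ^ j * k τ := by gcongr
  rw [← Real.exp_add] at e8
  simp at e8
  linarith

theorem godec1_all {C : ℝ} (hC : 1 ≤ C) {k g : ℝ → ℝ} (hr : Reg k g)
    (hstep : ∀ᶠ x in atTop, godec1Low k x → k (x - 5 * √x) ≤ 2 * k x → godec1S (26 * C) k x)
    (h1 : ∀ᶠ σ in atTop, k σ ≤ σ ^ (-(3 / 4) : ℝ))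
    (h2 : ∀ τ₁, ∃ τ, τ₁ ≤ τ ∧ Real.exp (-τ ^ (1 / 6 : ℝ)) ≤ k τ) :
    ∀ᶠ x in atTop, godec1Low k x ∧ godec1S (26 * C) k x := by
  obtain ⟨m, hm⟩ := exists_nat_ge (16 * (26 * C))
  have hm1 : 1 ≤ m := by
    have : (1:ℝ) ≤ m := by linarith
    exact_mod_cast this
  obtain ⟨X, hX⟩ := eventually_atTop.mp (hstep.and
    ((godec1_small hr.2.2.1 h1 (26 * C) (show (0:ℝ) < 1 / 100 by norm_num)).and
      (eventually_ge_atTop 400)))
  obtain ⟨Y, hY⟩ := eventually_atTop.mp (godec1_asA m)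
  obtain ⟨x, hx, hx1, hx2⟩ := godec1_start hr h1 h2 (max X (2 * Y))
  have hxX : X ≤ x := le_trans (le_max_left _ _) hx
  have hxY : 2 * Y ≤ x := le_trans (le_max_right _ _) hx
  obtain ⟨hcont, hk, hk0, hg0⟩ := hr
  have hx400 : 400 ≤ x := (hX x hxX).2.2
  have hx0 : 0 < x := by linarith
  have hkx : 0 < k x := lt_of_lt_of_le (Real.exp_pos _) hx2
  have low : ∀ z, x ≤ z → 0 < k z → 1 / k z ≤ (2 / k x + x) * (z / x) ^ m → godec1Low k z := by
    intro z hz hkz hb σ hσ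
    have e1 := hY σ (by linarith)
    have e2 : 2 / k x ≤ 2 * Real.exp ((4 * σ) ^ (1 / 6 : ℝ)) := by
      rw [div_le_iff₀ hkx]
      have e3 : Real.exp (-(4 * σ) ^ (1 / 6 : ℝ)) ≤ k x := by
        refine le_trans (Real.exp_le_exp.mpr ?_) hx2
        have : (2 * x) ^ (1 / 6 : ℝ) ≤ (4 * σ) ^ (1 / 6 : ℝ) :=
          Real.rpow_le_rpow (by linarith) (by linarith) (by norm_num)
        linarith
      have e4 : Real.exp ((4 * σ) ^ (1 / 6 : ℝ)) * Real.exp (-(4 * σ) ^ (1 / 6 : ℝ)) = 1 := by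
        rw [← Real.exp_add]; simp
      nlinarith [Real.exp_pos ((4 * σ) ^ (1 / 6 : ℝ))]
    have e5 : z / x ≤ 2 * σ := by
      rw [div_le_iff₀ hx0]; nlinarith
    have e6 : (2 / k x + x) * (z / x) ^ m ≤
        (2 * Real.exp ((4 * σ) ^ (1 / 6 : ℝ)) + 2 * σ) * (2 * σ) ^ m := by
      have : 0 ≤ z / x := div_nonneg (by linarith) hx0.le
      have : 0 ≤ σ := by linarith
      gcongr
      linarith
    have e7 : 2 * (1 / k z) ≤ Real.exp (σ ^ (1 / 5 : ℝ)) := by linarith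
    rw [mul_one_div, div_le_iff₀ hkz] at e7
    have e8 : Real.exp (σ ^ (1 / 5 : ℝ)) * Real.exp (-σ ^ (1 / 5 : ℝ)) = 1 := by
      rw [← Real.exp_add]; simp
    nlinarith [Real.exp_pos (-σ ^ (1 / 5 : ℝ))]
  have hε : ∀ w, x ≤ w → 26 * C * (k w * √w + 1 / √w) ≤ 1 / 100 :=
    fun w hw => (hX w (by linarith)).2.1
  have hS0 : godec1S (26 * C) k x := by
    refine (hX x hxX).1 (low x le_rfl hkx ?_) (by linarith)
    rw [div_self hx0.ne', one_pow, mul_one]
    have : 1 / k x ≤ 2 / k x := by gcongr; norm_num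
    linarith
  have hE : ∀ z, x ≤ z → (∀ w, x ≤ w → w ≤ z - 1 → godec1S (26 * C) k w) → godec1Low k z := by
    intro z hz ih
    obtain ⟨e1, e2⟩ := godec1_E (by linarith) hm hm1 (by linarith)
      (fun w hw => le_trans (hε w hw) (by norm_num)) hS0 ih z hz le_rfl
    exact low z hz e1 e2
  have hall : ∀ z, x ≤ z → godec1S (26 * C) k z := by
    refine godec1_ind x _ fun z hz ih => (hX z (by linarith)).1 (hE z hz ih) ?_
    have hz0 : 0 < z := by linarith
    have hc : 20 ≤ √z := by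
      rw [Real.le_sqrt (by norm_num) hz0.le]; linarith
    have hcc : √z * √z = z := Real.mul_self_sqrt hz0.le
    have rat : ∀ y, x ≤ y → y ≤ z → z - 5 * √z ≤ y → godec1S (26 * C) k y →
        k y ≤ 4 / 3 * k z := by
      intro y hy1 hy2 hy3 hSy
      have hy0 : 0 < y := by linarith
      have hsy : 0 < √y := Real.sqrt_pos.mpr hy0
      have e1 := godec1_R hk (show 16 ≤ y by linarith) (fun w hw => hε w (by linarith))
        (by norm_num) hSy (fun w hw hw' => ih w (by linarith) hw') z hy2 le_rfl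
      have e2 : 5 / 6 * √z ≤ √y := by
        rw [Real.le_sqrt (by positivity) hy0.le]
        nlinarith
      have e3 : 4 * (z - y) / √y ≤ 24 := by
        rw [div_le_iff₀ hsy]; linarith
      have := hSy.1
      nlinarith
    by_cases hw : x ≤ z - 5 * √z
    · have := rat _ hw (by linarith) le_rfl (ih _ hw (by linarith))
      linarith [hk0 z]
    · push Not at hw
      have e1 := rat x le_rfl hz hw.le hS0
      have ha : 20 ≤ √x := by
        rw [Real.le_sqrt (by norm_num) hx0.le]; linarith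
      have haa : √x * √x = x := Real.mul_self_sqrt hx0.le
      have hac : √x ≤ √z := Real.sqrt_le_sqrt hz
      have e2 : x - 5 * √x ≤ z - 5 * √z := by nlinarith
      have e3 : 0 < x - 5 * √x := by nlinarith
      have e4 : k (z - 5 * √z) ≤ k (x - 5 * √x) :=
        hk e3 (show (0:ℝ) < z - 5 * √z by linarith) e2
      linarith
  filter_upwards [eventually_ge_atTop x] with z hz
  exact ⟨hE z hz fun w hw _ => hall w hw, hall z hz⟩

theorem godec1_fwd {b C σ₀ X v σ : ℝ} (hb : 0 < b) (hC : 1 ≤ C) {k g : ℝ → ℝ} (hr : Reg k g)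
    (hL : FlowL b C (1 / 512) σ₀ k g)
    (hX : ∀ s, X ≤ s → σ₀ ≤ s ∧ 64 ^ 2 ≤ s ∧ godec1Low k s ∧
      2048 * s * tiny s ≤ Real.exp (-s ^ (1 / 5 : ℝ)))
    (n : ℕ) (hσ : X ≤ σ) (hv : 2 ^ n * (σ * k σ) ≤ v) (hv1 : (b + 1 + C) * v ≤ 1 / 512)
    (hg : k σ / 4 ≤ g σ * σ) :
    ∀ j : ℕ, j ≤ n → k σ / 4 * (1 + j / 256) ≤ g ((65 / 64) ^ j * σ) * ((65 / 64) ^ j * σ) := by
  obtain ⟨hcont, hk, hk0, hg0⟩ := hr
  have hσ0 : 0 < σ := by linarith [(hX σ hσ).2.1]
  intro j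
  induction j with
  | zero => intro _; simpa using hg
  | succ j ih =>
    intro hj
    have ih' := ih (by omega)
    set s := (65 / 64 : ℝ) ^ j * σ with hs
    have hp1 : (1:ℝ) ≤ (65 / 64) ^ j := one_le_pow₀ (by norm_num)
    have hp2 : (65 / 64 : ℝ) ^ j ≤ 2 ^ n :=
      le_trans (pow_le_pow_left₀ (by norm_num) (by norm_num) j)
        (pow_le_pow_right₀ (by norm_num) (by omega))
    have hσs : σ ≤ s := by rw [hs]; nlinarith
    have hs0 : 0 < s := by linarith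
    obtain ⟨a1, a2, a3, a4⟩ := hX s (by linarith)
    have hks : k s ≤ k σ := hk hσ0 hs0 hσs
    have hkσ := hk0 σ
    have ha : s * k s ≤ v := by
      calc s * k s ≤ (2 ^ n * σ) * k σ := by
            have := hk0 s
            gcongr
            rw [hs]; gcongr
        _ ≤ v := by linarith
    have ha0 : 0 ≤ s * k s := mul_nonneg hs0.le (hk0 s)
    have hv2 : v ≤ 1 / 512 := by nlinarith
    have hsq : 64 ≤ √s := by
      rw [Real.le_sqrt (by norm_num) hs0.le]; exact a2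
    have hss : √s * √s = s := Real.mul_self_sqrt hs0.le
    have hl2 := (hX (s + s / 64) (by linarith)).2.2.1 s (by linarith)
    have hl1 := a3 s (by linarith)
    have hex := Real.exp_pos (-s ^ (1 / 5 : ℝ))
    have hadm : Adm C σ₀ k s (s / 64) := by
      refine ⟨a1, by nlinarith, by linarith, by nlinarith, by linarith⟩
    have hI := hL _ _ hadm
    set a := k s * (s / 64) with hadef
    have ha1 : a ≤ v := by rw [hadef]; nlinarith
    have ha2 : 0 ≤ a := by rw [hadef]; nlinarith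
    have hf : 1 - 2 / 512 ≤ 1 - 1 / 512 - (b + 1 / 512) * k s * (s / 64) - C * a ^ 2 := by
      have e1 : (b + 1 / 512) * k s * (s / 64) = (b + 1 / 512) * a := by rw [hadef]; ring
      have e2 : a ^ 2 ≤ v := by nlinarith
      have e3 : C * a ^ 2 ≤ C * v := by gcongr
      have e4 : (b + 1 / 512) * a ≤ (b + 1) * v := by gcongr; norm_num
      rw [e1]
      linarith
    have hg1 : g s * (1 - 2 / 512) - tiny s ≤ g (s + s / 64) := by
      have := mul_le_mul_of_nonneg_left hf (hg0 s)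
      linarith
    have hs' : (65 / 64 : ℝ) ^ (j + 1) * σ = s + s / 64 := by rw [hs, pow_succ]; ring
    rw [hs']
    push_cast
    have e5 : (g s * (1 - 2 / 512) - tiny s) * (s + s / 64) ≤ g (s + s / 64) * (s + s / 64) :=
      mul_le_mul_of_nonneg_right hg1 (by linarith)
    have hj0 : (0:ℝ) ≤ j := Nat.cast_nonneg j
    have e6 : 0 ≤ k σ * j := mul_nonneg hkσ hj0
    have e7 : 0 ≤ s * tiny s := mul_nonneg hs0.le (Real.exp_pos _).le
    nlinarith

theorem godec1_key {b C : ℝ} (hb : 0 < b) (hC : 1 ≤ C) {k g : ℝ → ℝ} (hr : Reg k g) {σ₀ σ₁ : ℝ}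
    (hU : FlowU b C (1 / 512) σ₀ k g) (hL : FlowL b C (1 / 512) σ₁ k g)
    (h5 : ∃ σ₀, ∀ σ, σ₀ ≤ σ → Real.exp (-σ ^ (1 / 5 : ℝ)) ≤ k σ →
      g σ ≤ C * (k σ ^ 2 + k σ / σ))
    (h1 : ∀ᶠ σ in atTop, k σ ≤ σ ^ (-(3 / 4) : ℝ))
    (hall : ∀ᶠ x in atTop, godec1Low k x ∧ godec1S (26 * C) k x) :
    ∃ v : ℝ, 0 < v ∧ ∀ᶠ σ in atTop, (σ + σ / 64) * k (σ + σ / 64) ≤ v →
      σ * k σ ≤ (σ + σ / 64) * k (σ + σ / 64) := by
  obtain ⟨σ₅, h5⟩ := h5
  obtain ⟨m, hm⟩ := exists_nat_ge (16 * (26 * C))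
  have hm1 : 1 ≤ m := by
    have : (1:ℝ) ≤ m := by linarith
    exact_mod_cast this
  obtain ⟨n, hn⟩ := exists_nat_ge (2048 * C)
  set P : ℝ := 2 ^ m with hP
  set N : ℝ := 2 ^ n with hN
  have hP1 : 1 ≤ P := one_le_pow₀ (by norm_num)
  have hN1 : 1 ≤ N := one_le_pow₀ (by norm_num)
  set v₁ : ℝ := 1 / (512 * (b + 1 + C) * N * P) with hv₁
  have hv₁0 : 0 < v₁ := by positivity
  have hv₁1 : v₁ * (512 * (b + 1 + C) * N * P) = 1 := by rw [hv₁]; field_simp
  obtain ⟨X, hX⟩ := eventually_atTop.mp ((hall.and godec1_asB).and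
    ((godec1_small hr.2.2.1 h1 (26 * C) (show (0:ℝ) < 1 / 1000 by norm_num)).and
      ((eventually_ge_atTop (64 ^ 2)).and ((eventually_ge_atTop σ₀).and
        ((eventually_ge_atTop σ₁).and (eventually_ge_atTop σ₅))))))
  refine ⟨v₁ / (4 * P), by positivity, ?_⟩
  filter_upwards [eventually_ge_atTop (2 * X), eventually_ge_atTop X] with σ hσ2 hσ hv
  by_contra hcon
  push Not at hcon
  have hr' := hr
  obtain ⟨hcont, hk, hk0, hg0⟩ := hr'
  obtain ⟨⟨⟨a1, a2⟩, a3, a4⟩, a5, a6, a7, a8, a9⟩ := hX σ hσ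
  have hσ0 : 0 < σ := by linarith
  have hkσ := a2.1
  set y := σ - 2 * (σ / 64) with hy
  have hyX : X ≤ y := by rw [hy]; linarith
  have hy16 : 16 ≤ y := by rw [hy]; linarith
  have hy0 : 0 < y := by linarith
  have hky : 0 < k y := (hX y hyX).1.1.2.1
  have hE : ∀ z, y ≤ z → z ≤ 2 * y → 0 < k z ∧ 1 / k z ≤ (2 / k y + σ) * P := by
    intro z hz1 hz2
    obtain ⟨e1, e2⟩ := godec1_E (by linarith) hm hm1 hy16
      (fun w hw => le_trans (hX w (by linarith)).2.1 (by norm_num)) (hX y hyX).1.1.2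
      (fun w hw _ => (hX w (by linarith)).1.1.2) z hz1 le_rfl
    refine ⟨e1, le_trans e2 ?_⟩
    have e3 : z / y ≤ 2 := by rw [div_le_iff₀ hy0]; linarith
    have e4 : 0 ≤ z / y := div_nonneg (by linarith) hy0.le
    have e5 : 0 < 2 / k y := by positivity
    rw [hP]
    gcongr
    rw [hy]; linarith
  obtain ⟨hkz, e1⟩ := hE (σ + σ / 64) (by rw [hy]; linarith) (by rw [hy]; linarith)
  obtain ⟨-, e2⟩ := hE σ (by rw [hy]; linarith) (by rw [hy]; linarith)
  have hNP : 1 ≤ N * P := by nlinarith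
  have hv₁2 : 512 * (b + 1 + C) * v₁ ≤ 1 := by
    have : 0 ≤ 512 * (b + 1 + C) * v₁ := by positivity
    nlinarith
  have hv₁3 : v₁ ≤ 1 := by nlinarith
  have hay : σ * k y ≤ v₁ := by
    rw [div_le_iff₀ hkz] at e1
    rw [le_div_iff₀ (by positivity)] at hv
    have e3 : (2 / k y + σ) * P * k (σ + σ / 64) * (σ * k y) =
        (2 + σ * k y) * (P * (σ * k (σ + σ / 64))) := by field_simp
    have e4 : P * (σ * k (σ + σ / 64)) ≤ v₁ / 4 := by nlinarith [mul_pos hσ0 hkz]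
    have e5 : 0 < σ * k y := by positivity
    have e6 : σ * k y ≤ (2 + σ * k y) * (v₁ / 4) := by
      calc σ * k y = 1 * (σ * k y) := by ring
        _ ≤ (2 / k y + σ) * P * k (σ + σ / 64) * (σ * k y) := by gcongr
        _ = _ := e3
        _ ≤ _ := by gcongr
    nlinarith
  have hky2 : k y ≤ 3 * P * k σ := by
    rw [div_le_iff₀ hkσ] at e2
    have e3 : (2 / k y + σ) * P * k σ * k y = (2 + σ * k y) * (P * k σ) := by field_simp
    calc k y = 1 * k y := by ring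
      _ ≤ (2 / k y + σ) * P * k σ * k y := by gcongr
      _ = _ := e3
      _ ≤ 3 * (P * k σ) := by gcongr; linarith
      _ = _ := by ring
  have hkσy : k σ ≤ k y := hk hy0 hσ0 (by rw [hy]; linarith)
  have haσ : σ * k σ ≤ v₁ := le_trans (by gcongr) hay
  have hsq : 64 ≤ √σ := by
    rw [Real.le_sqrt (by norm_num) hσ0.le]; exact a6
  have hss : √σ * √σ = σ := Real.mul_self_sqrt hσ0.le
  have hl2 := (hX (σ + σ / 64) (by linarith)).1.1.1 σ (by linarith)
  have hl1 := a1 σ (by linarith)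
  have hex := Real.exp_pos (-σ ^ (1 / 5 : ℝ))
  have hadm : Adm C σ₀ k σ (σ / 64) := by
    refine ⟨a7, by nlinarith, by linarith, by nlinarith, by linarith⟩
  have hI := (hU _ _ hadm).1
  rw [← hy] at hI
  have hR := godec1_R hk (show 16 ≤ σ by linarith) (fun w hw => (hX w (by linarith)).2.1)
    (by norm_num) a2 (fun w hw _ => (hX w (by linarith)).1.1.2) (σ + √σ) (by linarith) le_rfl
  have e3 : 4 * (σ + √σ - σ) / √σ = 4 := by field_simp; ring
  rw [e3] at hR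
  have e4 : C * (k y - k (σ + σ / 64)) ^ 2 * (σ / 64) ≤ k σ / 1000 := by
    have e5 : k (σ + σ / 64) ≤ k y :=
      hk hy0 (show (0:ℝ) < σ + σ / 64 by linarith) (by rw [hy]; linarith)
    have e6 : (k y - k (σ + σ / 64)) ^ 2 ≤ k y ^ 2 :=
      pow_le_pow_left₀ (by linarith) (by linarith) 2
    have e7 : 512 * C * P * v₁ ≤ 1 := by
      have e8 : C * 1 ≤ (b + 1 + C) * N := by gcongr; linarith
      have : 0 ≤ 512 * P * v₁ := by positivity
      nlinarith
    calc C * (k y - k (σ + σ / 64)) ^ 2 * (σ / 64) ≤ C * k y ^ 2 * (σ / 64) := by gcongr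
      _ = C / 64 * k y * (σ * k y) := by ring
      _ ≤ C / 64 * (3 * P * k σ) * v₁ := by gcongr
      _ = 3 / 64 / 512 * (512 * C * P * v₁) * k σ := by ring
      _ ≤ 3 / 64 / 512 * 1 * k σ := by gcongr
      _ ≤ _ := by linarith
  have e5 : 65 * k (σ + σ / 64) < 64 * k σ := by nlinarith
  have hg : k σ / 4 ≤ g σ * σ := by
    have e6 : 0 ≤ g σ * σ := mul_nonneg (hg0 σ) hσ0.le
    nlinarith
  have hF := godec1_fwd (X := X) (v := N * v₁) hb hC hr hL
    (fun s hs => ⟨(hX s hs).2.2.2.2.1, (hX s hs).2.2.1, (hX s hs).1.1.1, (hX s hs).1.2.2⟩) n hσ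
    (by rw [← hN]; gcongr)
    (by
      have : 0 ≤ 512 * (b + 1 + C) * N * v₁ := by positivity
      nlinarith) hg n le_rfl
  set s := (65 / 64 : ℝ) ^ n * σ with hs
  have hp1 : (1:ℝ) ≤ (65 / 64) ^ n := one_le_pow₀ (by norm_num)
  have hp2 : (65 / 64 : ℝ) ^ n ≤ N := pow_le_pow_left₀ (by norm_num) (by norm_num) n
  have hσs : σ ≤ s := by rw [hs]; nlinarith
  have hs0 : 0 < s := by linarith
  have hks : k s ≤ k σ := hk hσ0 hs0 hσs
  have hks0 := hk0 s
  have e6 := h5 s (by linarith) (by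
    have := (hX s (by linarith)).1.1.1 s (by linarith)
    linarith [Real.exp_pos (-s ^ (1 / 5 : ℝ))])
  have e7 : s * k s ≤ 1 := by
    calc s * k s ≤ (N * σ) * k σ := by
          gcongr
          rw [hs]; gcongr
      _ = N * (σ * k σ) := by ring
      _ ≤ N * v₁ := by gcongr
      _ ≤ 1 := by
        have e8 : 1 * 1 ≤ 512 * (b + 1 + C) * P := by gcongr; linarith
        have : 0 ≤ N * v₁ := by positivity
        nlinarith
  have e8 : g s * s ≤ 2 * C * k σ := by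
    calc g s * s ≤ C * (k s ^ 2 + k s / s) * s := by gcongr
      _ = C * k s * (s * k s + 1) := by field_simp
      _ ≤ C * k σ * (1 + 1) := by gcongr
      _ = _ := by ring
  nlinarith

/-- A priori bounds on the critical trajectory. -/
theorem ode_apriori {b C : ℝ} (hb : 0 < b) (hC : 1 ≤ C) {k g : ℝ → ℝ} (hr : Reg k g)
    (hU : ∀ η, 0 < η → ∃ σ₀, FlowU b C η σ₀ k g) (hL : ∀ η, 0 < η → ∃ σ₀, FlowL b C η σ₀ k g)
    (h5 : ∃ σ₀, ∀ σ, σ₀ ≤ σ → Real.exp (-σ ^ (1 / 5 : ℝ)) ≤ k σ →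
      g σ ≤ C * (k σ ^ 2 + k σ / σ))
    (h1 : ∀ᶠ σ in atTop, k σ ≤ σ ^ (-(3 / 4) : ℝ))
    (h2 : ∀ τ₁, ∃ τ, τ₁ ≤ τ ∧ Real.exp (-τ ^ (1 / 6 : ℝ)) ≤ k τ) :
    ∃ v D : ℝ, 0 < v ∧ 1 ≤ D ∧ ∀ᶠ σ in atTop, v / σ ≤ k σ ∧
      ∀ Δ, 0 ≤ Δ → D * k σ * Δ ≤ 1 → k σ - k (σ + Δ) ≤ D * (Δ + √σ) * k σ ^ 2 := by
  obtain ⟨σ₀, hU⟩ := hU (1 / 512) (by norm_num)
  obtain ⟨σ₁, hL⟩ := hL (1 / 512) (by norm_num)
  have hall := godec1_all hC hr (godec1_step hC hr (by norm_num) hU h5 h1) h1 h2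
  obtain ⟨v, hv, hkey⟩ := godec1_key hb hC hr hU hL h5 h1 hall
  obtain ⟨X, hX⟩ := eventually_atTop.mp ((hall.and hkey).and (eventually_ge_atTop 100))
  have hk := hr.2.1
  have hX0 : 100 ≤ X := (hX X le_rfl).2
  have hk2 : 0 < k (2 * X) := (hX (2 * X) (by linarith)).1.1.2.1
  set u := min v (X * k (2 * X)) with hu
  have hu0 : 0 < u := lt_min hv (by positivity)
  have hlow : ∀ z, X ≤ z → u ≤ z * k z := by
    refine godec1_ind X _ fun z hz ih => ?_
    by_cases hc : z ≤ 2 * X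
    · refine le_trans (min_le_right _ _) ?_
      have : k (2 * X) ≤ k z :=
        hk (show (0:ℝ) < z by linarith) (show (0:ℝ) < 2 * X by linarith) hc
      gcongr
      linarith
    · push Not at hc
      have e1 := ih (64 / 65 * z) (by linarith) (by linarith)
      have e2 := (hX (64 / 65 * z) (by linarith)).1.2
      have e3 : 64 / 65 * z + 64 / 65 * z / 64 = z := by ring
      rw [e3] at e2
      by_cases hv' : z * k z ≤ v
      · exact le_trans e1 (e2 hv')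
      · push Not at hv'
        exact le_trans (min_le_left _ _) hv'.le
  have hlow' : ∀ z, X ≤ z → u / z ≤ k z := by
    intro z hz
    rw [div_le_iff₀ (by linarith)]
    linarith [hlow z hz]
  refine ⟨u, 4 * (26 * C * (1 + 1 / u)), hu0, ?_, ?_⟩
  · have : 0 < 1 / u := by positivity
    nlinarith
  · filter_upwards [eventually_ge_atTop X] with σ hσ
    refine ⟨hlow' σ hσ, fun Δ hΔ _ => ?_⟩
    have := godec1_lin hk (show 0 ≤ 26 * C by linarith) hu0 (show 16 ≤ σ by linarith)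
      (fun w hw => (hX w (by linarith)).1.1.2) (fun w hw => hlow' w (by linarith))
      (σ + Δ) (by linarith)
    simpa using this

end Pool.Agent.Lib.MP_153faa_pr
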