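import Mathlib
import Pool.Agent.Lib.MP_153faa_pr.GDefs

set_option autoImplicit false

open MeasureTheory Filter Topology

namespace Pool.Agent.Lib.MP_153faa_pr

lemma godec2_seq (a G : ℕ → ℝ) (ha : Antitone a) (hG : ∀ i, 0 ≤ G i) (n : ℕ) {Δ β w τ : ℝ}
    (hΔ : 0 < Δ) (hβ : 0 < β) (hw : 0 ≤ w)
    (h1 : ∀ i < n, a (i + 5) - a (i + 6) ≤ (2 * G i + w * (a i - a (i + 6)) + τ) * (2 * Δ))
    (h3 : ∀ i < n, G (i + 1) ≤ (1 - β) * G i + w * (a i - a (i + 6)) + τ) :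
    a 5 - a (n + 5) ≤ 4 * Δ / β * G 0 + (2 * Δ + 4 * Δ / β) * (6 * w * (a 0 - a (n + 5)) + n * τ) := by
  set l : ℝ := 4 * Δ / β with hl
  have hl0 : 0 < l := by positivity
  have hlβ : l * β = 4 * Δ := by rw [hl]; field_simp
  have key : ∀ m, m ≤ n → a 5 - a (m + 5) + l * G m ≤ l * G 0 + (2 * Δ + l) *
      (w * ((a 0 + a 1 + a 2 + a 3 + a 4 + a 5) -
        (a m + a (m + 1) + a (m + 2) + a (m + 3) + a (m + 4) + a (m + 5))) + m * τ) := by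
    intro m
    induction m with
    | zero => intro _; simp
    | succ m ih =>
      intro hm
      have i1 := ih (by omega)
      have i2 := h1 m (by omega)
      have i3 := mul_le_mul_of_nonneg_left (h3 m (by omega)) hl0.le
      have e1 : m + 1 + 1 = m + 2 := rfl
      have e2 : m + 1 + 2 = m + 3 := rfl
      have e3 : m + 1 + 3 = m + 4 := rfl
      have e4 : m + 1 + 4 = m + 5 := rfl
      have e5 : m + 1 + 5 = m + 6 := rfl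
      rw [e1, e2, e3, e4, e5]
      push_cast
      have e : l * ((1 - β) * G m + w * (a m - a (m + 6)) + τ) =
          l * G m - 4 * Δ * G m + l * (w * (a m - a (m + 6)) + τ) := by
        rw [← hlβ]; ring
      rw [e] at i3
      nlinarith
  have k := key n le_rfl
  have b1 : a 1 ≤ a 0 := ha (by omega)
  have b2 : a 2 ≤ a 0 := ha (by omega)
  have b3 : a 3 ≤ a 0 := ha (by omega)
  have b4 : a 4 ≤ a 0 := ha (by omega)
  have b5 : a 5 ≤ a 0 := ha (by omega)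
  have c0 : a (n + 5) ≤ a n := ha (by omega)
  have c1 : a (n + 5) ≤ a (n + 1) := ha (by omega)
  have c2 : a (n + 5) ≤ a (n + 2) := ha (by omega)
  have c3 : a (n + 5) ≤ a (n + 3) := ha (by omega)
  have c4 : a (n + 5) ≤ a (n + 4) := ha (by omega)
  have s1 : w * ((a 0 + a 1 + a 2 + a 3 + a 4 + a 5) -
        (a n + a (n + 1) + a (n + 2) + a (n + 3) + a (n + 4) + a (n + 5))) ≤
      6 * w * (a 0 - a (n + 5)) := by
    have : (a 0 + a 1 + a 2 + a 3 + a 4 + a 5) -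
        (a n + a (n + 1) + a (n + 2) + a (n + 3) + a (n + 4) + a (n + 5)) ≤
        6 * (a 0 - a (n + 5)) := by linarith
    nlinarith
  have s2 := mul_le_mul_of_nonneg_left (add_le_add_left s1 (n * τ))
    (by positivity : (0 : ℝ) ≤ 2 * Δ + l)
  have s3 := mul_nonneg hl0.le (hG n)
  linarith

lemma godec2_esc (f φ : ℝ → ℝ) {s c B γ : ℝ} (hγ : 0 < γ) (hφ : ∀ σ, s ≤ σ → s ≤ φ σ)
    (hB : ∀ σ, s ≤ σ → f σ ≤ B) (hstep : ∀ σ, s ≤ σ → c ≤ f σ → f σ + γ ≤ f (φ σ)) :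
    ∀ σ, s ≤ σ → f σ < c := by
  intro σ hσ
  by_contra h
  push Not at h
  have key : ∀ n : ℕ, ∃ t, s ≤ t ∧ c + n * γ ≤ f t := by
    intro n
    induction n with
    | zero => exact ⟨σ, hσ, by simpa using h⟩
    | succ n ih =>
      obtain ⟨t, ht, h'⟩ := ih
      have : (0 : ℝ) ≤ n * γ := by positivity
      refine ⟨φ t, hφ t ht, ?_⟩
      have := hstep t ht (by linarith)
      push_cast
      linarith
  obtain ⟨n, hn⟩ := exists_nat_gt ((B - c) / γ)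
  obtain ⟨t, ht, h'⟩ := key n
  have := hB t ht
  rw [div_lt_iff₀ hγ] at hn
  linarith

lemma godec2_grid (φ : ℝ → ℝ) (P : ℝ → Prop) {s γ : ℝ} (hγ : 0 < γ)
    (hφ : ∀ σ, s ≤ σ → σ + γ ≤ φ σ) (h0 : P s) (hP : ∀ σ, s ≤ σ → P σ → P (φ σ)) :
    ∀ t, s ≤ t → ∃ σ, s ≤ σ ∧ σ ≤ t ∧ t ≤ φ σ ∧ P σ := by
  have key : ∀ n : ℕ, ∀ σ, s ≤ σ → P σ → ∀ t, σ ≤ t → t ≤ σ + n * γ →
      ∃ σ', s ≤ σ' ∧ σ' ≤ t ∧ t ≤ φ σ' ∧ P σ' := by
    intro n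
    induction n with
    | zero =>
      intro σ hσ hp t h1 h2
      have := hφ σ hσ
      exact ⟨σ, hσ, h1, by simp at h2; linarith, hp⟩
    | succ n ih =>
      intro σ hσ hp t h1 h2
      by_cases h : t ≤ φ σ
      · exact ⟨σ, hσ, h1, h, hp⟩
      · push Not at h
        have := hφ σ hσ
        refine ih (φ σ) (by linarith) (hP σ hσ hp) t h.le ?_
        push_cast at h2
        linarith
  intro t ht
  obtain ⟨n, hn⟩ := exists_nat_gt ((t - s) / γ)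
  rw [div_lt_iff₀ hγ] at hn
  exact key n s le_rfl h0 t ht (by linarith)

lemma godec2_alg {b X M : ℝ} (hb : 0 ≤ b) (hX : 0 ≤ X) (hM : 0 ≤ M) :
    ∃ M' : ℝ, 0 < M' ∧ ∀ ε x0 x1 ρ y : ℝ, 0 < ε → ε ≤ 1 → 0 ≤ x0 → x0 ≤ X → 0 ≤ x1 → x1 ≤ X →
      |ρ - ε * x0| ≤ M * ε ^ 2 → |y - x0 * (1 - b * ε)| ≤ M * ε ^ 2 → x1 * (1 - ρ) ^ 2 = y →
      |x1 - x0 - ε * x0 * (2 * x0 - b)| ≤ M' * ε ^ 2 := by
  obtain ⟨R, hR⟩ : ∃ R, R = X + M := ⟨_, rfl⟩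
  obtain ⟨M1, hM1⟩ : ∃ M1, M1 = b * X + M + 2 * X * R + X * R ^ 2 := ⟨_, rfl⟩
  have hR0 : 0 ≤ R := by rw [hR]; positivity
  have hM10 : 0 ≤ M1 := by rw [hM1]; positivity
  refine ⟨M + 2 * X * M + 2 * X * M1 + X * R ^ 2 + 1, by positivity, ?_⟩
  intro ε x0 x1 ρ y hε hε1 h0 h0X h1 h1X e1 e2 e3
  have hε2 : ε ^ 2 ≤ ε := by nlinarith
  have hMε : M * ε ^ 2 ≤ M * ε := mul_le_mul_of_nonneg_left hε2 hM
  have a0 : |x0| ≤ X := by rw [abs_of_nonneg h0]; exact h0X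
  have a1 : |x1| ≤ X := by rw [abs_of_nonneg h1]; exact h1X
  have aε : |ε| = ε := abs_of_pos hε
  have hρ : |ρ| ≤ R * ε := by
    have : ρ = (ρ - ε * x0) + ε * x0 := by ring
    rw [this]
    refine (abs_add_le _ _).trans ?_
    rw [abs_mul, aε, hR]
    have := mul_le_mul_of_nonneg_left a0 hε.le
    linarith
  have hρ2 : |ρ ^ 2| ≤ R ^ 2 * ε ^ 2 := by
    rw [abs_pow, ← mul_pow]
    exact pow_le_pow_left₀ (abs_nonneg _) hρ 2
  have t4 : |x1 * ρ ^ 2| ≤ X * (R ^ 2 * ε ^ 2) := by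
    rw [abs_mul]; exact mul_le_mul a1 hρ2 (abs_nonneg _) hX
  have d1 : |x1 - x0| ≤ M1 * ε := by
    have : x1 - x0 = -(b * ε * x0) + (y - x0 * (1 - b * ε)) + 2 * (x1 * ρ) - x1 * ρ ^ 2 := by
      rw [← e3]; ring
    rw [this]
    have t1 : |b * ε * x0| ≤ b * ε * X := by
      rw [abs_mul, abs_of_nonneg (by positivity : 0 ≤ b * ε)]
      exact mul_le_mul_of_nonneg_left a0 (by positivity)
    have t3 : |x1 * ρ| ≤ X * (R * ε) := by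
      rw [abs_mul]; exact mul_le_mul a1 hρ (abs_nonneg _) hX
    have t5 : X * (R ^ 2 * ε ^ 2) ≤ X * (R ^ 2 * ε) := by gcongr
    rw [abs_le] at t1 t3 t4 e2 ⊢
    rw [hM1]
    constructor <;> linarith [t1.1, t1.2, t3.1, t3.2, t4.1, t4.2, e2.1, e2.2]
  have : x1 - x0 - ε * x0 * (2 * x0 - b) = (y - x0 * (1 - b * ε)) + 2 * (x1 * (ρ - ε * x0)) +
      2 * (ε * (x0 * (x1 - x0))) - x1 * ρ ^ 2 := by
    rw [← e3]; ring
  rw [this]
  have t2 : |x1 * (ρ - ε * x0)| ≤ X * (M * ε ^ 2) := by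
    rw [abs_mul]; exact mul_le_mul a1 e1 (abs_nonneg _) hX
  have t3 : |ε * (x0 * (x1 - x0))| ≤ ε * (X * (M1 * ε)) := by
    rw [abs_mul, aε, abs_mul]
    exact mul_le_mul_of_nonneg_left (mul_le_mul a0 d1 (abs_nonneg _) hX) hε.le
  have hp : 0 < ε ^ 2 := by positivity
  rw [abs_le] at t2 t3 t4 e2 ⊢
  constructor <;> linarith [t2.1, t2.2, t3.1, t3.2, t4.1, t4.2, e2.1, e2.2]

lemma godec2_exp {a c : ℝ} (ha : 0 < a) (hc : 0 < c) (n : ℕ) :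
    ∀ᶠ σ : ℝ in atTop, Real.exp (-σ ^ a) ≤ c / σ ^ n := by
  have h1 := (tendsto_rpow_mul_exp_neg_mul_atTop_nhds_zero (n / a) 1 one_pos).comp
    (tendsto_rpow_atTop ha)
  filter_upwards [h1.eventually (ge_mem_nhds hc), eventually_gt_atTop 0] with σ h hσ
  simp only [Function.comp] at h
  rw [← Real.rpow_mul hσ.le, mul_div_cancel₀ _ ha.ne', Real.rpow_natCast, neg_mul, one_mul] at h
  rw [le_div_iff₀ (by positivity), mul_comm]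
  exact h

lemma godec2_sqrt {τ : ℝ} (hτ : 0 < τ) :
    ∀ᶠ σ : ℝ in atTop, √σ * σ ^ (-(3 / 4) : ℝ) ≤ τ := by
  have h1 := tendsto_rpow_neg_atTop (by norm_num : (0 : ℝ) < 1 / 4)
  filter_upwards [h1.eventually (ge_mem_nhds hτ), eventually_gt_atTop 0] with σ h hσ
  rw [Real.sqrt_eq_rpow, ← Real.rpow_add hσ]
  norm_num at h ⊢
  exact h

/-- The late regime. -/
structure GodeGd (v D X τ s : ℝ) (k g : ℝ → ℝ) : Prop where
  one : 1 ≤ s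
  low : ∀ σ, s ≤ σ → v / σ ≤ k σ
  drop : ∀ σ, s ≤ σ → ∀ Δ, 0 ≤ Δ → D * k σ * Δ ≤ 1 → k σ - k (σ + Δ) ≤ D * (Δ + √σ) * k σ ^ 2
  sq : ∀ σ, s ≤ σ → √σ * k σ ≤ τ
  tin : ∀ σ, s ≤ σ → tiny σ ≤ τ * k σ ^ 3
  le1 : ∀ σ, s ≤ σ → k σ ≤ 1
  gle : ∀ σ, s ≤ σ → g σ ≤ X * k σ ^ 2
  ex : ∀ σ, s ≤ σ → Real.exp (-σ ^ (1 / 5 : ℝ)) ≤ v / (2 * σ)

lemma godec2_gd {C v D : ℝ} (hC : 1 ≤ C) (hv : 0 < v) {k g : ℝ → ℝ}
    (ha : ∀ᶠ σ in atTop, v / σ ≤ k σ ∧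
      ∀ Δ, 0 ≤ Δ → D * k σ * Δ ≤ 1 → k σ - k (σ + Δ) ≤ D * (Δ + √σ) * k σ ^ 2)
    (h5 : ∃ σ₀, ∀ σ, σ₀ ≤ σ → Real.exp (-σ ^ (1 / 5 : ℝ)) ≤ k σ →
      g σ ≤ C * (k σ ^ 2 + k σ / σ))
    (h1 : ∀ᶠ σ in atTop, k σ ≤ σ ^ (-(3 / 4) : ℝ)) {τ : ℝ} (hτ : 0 < τ) (s0 : ℝ) :
    ∃ s, s0 ≤ s ∧ GodeGd v D (C * (1 + 1 / v)) τ s k g := by
  obtain ⟨σ₀, h5⟩ := h5
  have e1 := godec2_exp (a := 1 / 5) (c := v / 2) (by norm_num) (by positivity) 1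
  have e2 := godec2_exp (a := 1 / 4) (c := τ * v ^ 3) (by norm_num) (by positivity) 3
  have all : ∀ᶠ σ in atTop, (v / σ ≤ k σ ∧
      ∀ Δ, 0 ≤ Δ → D * k σ * Δ ≤ 1 → k σ - k (σ + Δ) ≤ D * (Δ + √σ) * k σ ^ 2) ∧
      √σ * k σ ≤ τ ∧ tiny σ ≤ τ * k σ ^ 3 ∧ k σ ≤ 1 ∧ g σ ≤ C * (1 + 1 / v) * k σ ^ 2 ∧
      Real.exp (-σ ^ (1 / 5 : ℝ)) ≤ v / (2 * σ) := by
    filter_upwards [ha, h1, e1, e2, godec2_sqrt hτ, eventually_ge_atTop 1, eventually_ge_atTop σ₀]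
      with σ a1 a2 a3 a4 a5 a6 a7
    have hσ : 0 < σ := by linarith
    have hvσ : 0 < v / σ := by positivity
    have hk : 0 < k σ := hvσ.trans_le a1.1
    have b3 : Real.exp (-σ ^ (1 / 5 : ℝ)) ≤ v / (2 * σ) := by
      refine a3.trans_eq ?_
      field_simp
    refine ⟨a1, (mul_le_mul_of_nonneg_left a2 (Real.sqrt_nonneg _)).trans a5, ?_,
      a2.trans (Real.rpow_le_one_of_one_le_of_nonpos a6 (by norm_num)), ?_, b3⟩
    · refine a4.trans ?_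
      have : τ * v ^ 3 / σ ^ 3 = τ * (v / σ) ^ 3 := by field_simp
      rw [this]
      have := a1.1
      gcongr
    · have b4 : v / (2 * σ) ≤ v / σ := by gcongr; linarith
      refine (h5 σ a7 (b3.trans (b4.trans a1.1))).trans ?_
      have b5 : k σ / σ ≤ 1 / v * k σ ^ 2 := by
        have : k σ / σ = 1 / v * (k σ * (v / σ)) := by field_simp
        rw [this, sq]
        have := a1.1
        gcongr
      nlinarith
  obtain ⟨s, hs⟩ := eventually_atTop.1 all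
  refine ⟨max (max s s0) 1, le_max_of_le_left (le_max_right _ _), le_max_right _ _, ?_, ?_, ?_,
    ?_, ?_, ?_, ?_⟩ <;> intro σ hσ <;>
    have h := hs σ ((le_max_of_le_left (le_max_left _ _)).trans hσ)
  exacts [h.1.1, h.1.2, h.2.1, h.2.2.1, h.2.2.2.1, h.2.2.2.2.1, h.2.2.2.2.2]

section
variable {v D X τ s : ℝ} {k g : ℝ → ℝ}

lemma GodeGd.pos (h : GodeGd v D X τ s k g) (hv : 0 < v) {σ : ℝ} (hσ : s ≤ σ) : 0 < k σ := by
  have := h.one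
  have : 0 < v / σ := div_pos hv (by linarith)
  exact this.trans_le (h.low σ hσ)

lemma GodeGd.anti (h : GodeGd v D X τ s k g) (hr : Reg k g) {x y : ℝ} (hx : s ≤ x) (hxy : x ≤ y) :
    k y ≤ k x := by
  have := h.one
  exact hr.2.1 (Set.mem_Ioi.2 (by linarith)) (Set.mem_Ioi.2 (by linarith)) hxy

lemma GodeGd.win (h : GodeGd v D X τ s k g) (hr : Reg k g) (hD : 1 ≤ D) {a κ L : ℝ} (ha : s ≤ a)
    (hκ : k a ≤ 2 * κ) (hL : 0 ≤ L) (h1 : D * (2 * κ) * L ≤ 1) :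
    k a - k (a + L) ≤ D * (L + √a) * (2 * κ) ^ 2 := by
  have h0 := hr.2.2.1 a
  have := Real.sqrt_nonneg a
  refine (h.drop a ha L hL (le_trans ?_ h1)).trans ?_
  · gcongr
  · gcongr

lemma GodeGd.back (h : GodeGd v D X τ s k g) (hr : Reg k g) (hv : 0 < v) (hD : 1 ≤ D) {σ L : ℝ}
    (hL : 0 ≤ L) (hs : s ≤ σ - L) (h1 : 4 * D * (L + √σ) * k σ < 1) : k (σ - L) ≤ 2 * k σ := by
  by_contra hc
  push Not at hc
  have hone := h.one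
  have hk := h.pos hv (σ := σ) (by linarith)
  have hcont : ContinuousOn k (Set.Icc (σ - L) σ) :=
    hr.1.mono fun x hx => Set.mem_Ioi.2 (by linarith [hx.1])
  obtain ⟨t, ht, e⟩ := intermediate_value_Icc' (by linarith) hcont
    (show 2 * k σ ∈ Set.Icc (k σ) (k (σ - L)) from ⟨by linarith, hc.le⟩)
  have hsq := Real.sqrt_nonneg σ
  have hst : √t ≤ √σ := Real.sqrt_le_sqrt ht.2
  have h2 : 0 ≤ σ - t := by linarith [ht.2]
  have h3 : σ - t ≤ L := by linarith [ht.1]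
  have hDk : 0 < D * k σ := by positivity
  have w := h.win hr hD (a := t) (κ := k σ) (L := σ - t) (by linarith [ht.1]) e.le h2 (by nlinarith)
  rw [e, add_sub_cancel] at w
  have w2 : D * (σ - t + √t) * (2 * k σ) ^ 2 ≤ D * (L + √σ) * (2 * k σ) ^ 2 := by gcongr
  nlinarith

lemma GodeGd.adm (h : GodeGd v D X τ s k g) {C σ₀ σ Δ : ℝ} (hv : 0 < v) (h0 : σ₀ ≤ σ) (hs : s ≤ σ)
    (h1 : √σ ≤ Δ) (h2 : 64 * Δ ≤ σ) (h3 : C * k σ * Δ ≤ 1) : Adm C σ₀ k σ Δ := by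
  have hone := h.one
  have := Real.sqrt_nonneg σ
  refine ⟨h0, h1, h2, h3, (h.ex σ hs).trans (le_trans ?_ (h.low (σ + Δ) (by linarith)))⟩
  gcongr
  · linarith
  · linarith

end

end Pool.Agent.Lib.MP_153faa_pr
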