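import Mathlib
import Pool.Agent.Lib.MP_153faa_pr.GOdeC2A

set_option autoImplicit false

open MeasureTheory Filter Topology

namespace Pool.Agent.Lib.MP_153faa_pr

section
variable {b C v D X τ s σ₁ σ₂ ε : ℝ} {k g : ℝ → ℝ}

lemma godec2_step (hC : 1 ≤ C) (hv : 0 < v) (hD : 1 ≤ D) (hr : Reg k g)
    (h : GodeGd v D X τ s k g) (hU : FlowU b C (ε ^ 2) σ₁ k g) (hL : FlowL b C (ε ^ 2) σ₂ k g)
    (hε : 0 < ε) (hεv : 128 * ε ≤ v) (hεC : C * ε ≤ 1) (hεD : 20 * D * ε < 1)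
    (hτ : 2 * D * τ ≤ ε ^ 2) {σ : ℝ} (hσ : 2 * s ≤ σ) (h1 : σ₁ ≤ σ) (h2 : σ₂ ≤ σ) :
    |(k σ - k (σ + ε / k σ)) / k σ - ε * (g σ / k σ ^ 2)| ≤
        (X * (2 + C) + 256 * C * D ^ 2 + 2) * ε ^ 2 ∧
      |g (σ + ε / k σ) / k σ ^ 2 - g σ / k σ ^ 2 * (1 - b * ε)| ≤
        (X * (2 + C) + 256 * C * D ^ 2 + 2) * ε ^ 2 := by
  have hone := h.one
  have hs : s ≤ σ := by linarith
  have hκ := h.pos hv hs
  have hε1 : ε ≤ 1 := by nlinarith
  have hε2 : ε ^ 2 ≤ ε := by nlinarith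
  have hsq := h.sq σ hs
  have hsq0 := Real.sqrt_nonneg σ
  have hτ0 : 0 ≤ τ := le_trans (by positivity) hsq
  have hτε : τ ≤ ε ^ 2 := by nlinarith
  obtain ⟨Δ, hΔ⟩ : ∃ Δ, Δ = ε / k σ := ⟨_, rfl⟩
  rw [← hΔ]
  have hΔ0 : 0 < Δ := by rw [hΔ]; positivity
  have hκΔ : k σ * Δ = ε := by rw [hΔ]; field_simp
  have a1 : √σ ≤ Δ := by
    rw [hΔ, le_div_iff₀ hκ]; linarith
  have a2 : 128 * Δ ≤ σ := by
    have l := h.low σ hs
    rw [div_le_iff₀ (by linarith)] at l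
    rw [hΔ, ← mul_div_assoc, div_le_iff₀ hκ]; linarith
  have adm1 : Adm C σ₁ k σ Δ := h.adm hv h1 hs a1 (by linarith) (by rw [mul_assoc, hκΔ]; exact hεC)
  have adm2 : Adm C σ₂ k σ Δ := h.adm hv h2 hs a1 (by linarith) (by rw [mul_assoc, hκΔ]; exact hεC)
  obtain ⟨I1, I2, I3⟩ := hU σ Δ adm1
  have I4 := hL σ Δ adm2
  have hDε : 0 < D * ε := by positivity
  have bk : k (σ - 2 * Δ) ≤ 2 * k σ := h.back hr hv hD (by linarith) (by linarith) (by
    have : 4 * D * (2 * Δ + √σ) * k σ ≤ 4 * D * (2 * Δ + Δ) * k σ := by gcongr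
    have e : 4 * D * (2 * Δ + Δ) * k σ = 12 * (D * ε) := by rw [← hκΔ]; ring
    linarith)
  have w := h.win hr hD (a := σ - 2 * Δ) (κ := k σ) (L := 3 * Δ) (by linarith) bk (by linarith) (by
    have e : D * (2 * k σ) * (3 * Δ) = 6 * (D * ε) := by rw [← hκΔ]; ring
    linarith)
  have e0 : σ - 2 * Δ + 3 * Δ = σ + Δ := by ring
  rw [e0] at w
  have w1 : √(σ - 2 * Δ) ≤ Δ := (Real.sqrt_le_sqrt (by linarith)).trans a1
  have w2 : k (σ - 2 * Δ) - k (σ + Δ) ≤ 16 * D * ε * k σ := by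
    refine w.trans ?_
    have : D * (3 * Δ + √(σ - 2 * Δ)) * (2 * k σ) ^ 2 ≤ D * (3 * Δ + Δ) * (2 * k σ) ^ 2 := by
      gcongr
    refine this.trans_eq ?_
    rw [← hκΔ]; ring
  have w3 : 0 ≤ k (σ - 2 * Δ) - k (σ + Δ) :=
    sub_nonneg.2 (h.anti hr (by linarith) (by linarith))
  have E : C * (k (σ - 2 * Δ) - k (σ + Δ)) ^ 2 ≤ 256 * C * D ^ 2 * ε ^ 2 * k σ ^ 2 := by
    have : C * (k (σ - 2 * Δ) - k (σ + Δ)) ^ 2 ≤ C * (16 * D * ε * k σ) ^ 2 := by gcongr
    refine this.trans_eq (by ring)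
  have E0 : 0 ≤ C * (k (σ - 2 * Δ) - k (σ + Δ)) ^ 2 := by positivity
  have T : tiny σ ≤ ε ^ 2 * k σ ^ 2 := by
    refine (h.tin σ hs).trans ?_
    have l := h.le1 σ hs
    have : k σ ^ 3 ≤ k σ ^ 2 := pow_le_pow_of_le_one hκ.le l (by norm_num)
    gcongr
  have off : k σ - k (σ + √σ) ≤ ε ^ 2 * k σ := by
    have hDs : D * (√σ * k σ) ≤ D * τ := by gcongr
    refine (h.drop σ hs √σ hsq0 (by nlinarith)).trans ?_
    have : D * (√σ + √σ) * k σ ^ 2 = 2 * (D * (√σ * k σ)) * k σ := by ring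
    rw [this]
    gcongr
    linarith
  obtain ⟨x, hx⟩ : ∃ x, x = g σ / k σ ^ 2 := ⟨_, rfl⟩
  obtain ⟨y, hy⟩ : ∃ y, y = g (σ + Δ) / k σ ^ 2 := ⟨_, rfl⟩
  obtain ⟨ρ, hρ⟩ : ∃ ρ, ρ = (k σ - k (σ + Δ)) / k σ := ⟨_, rfl⟩
  rw [← hx, ← hy, ← hρ]
  have ex : g σ = x * k σ ^ 2 := by rw [hx]; field_simp
  have ey : g (σ + Δ) = y * k σ ^ 2 := by rw [hy]; field_simp
  have eρ : k σ - k (σ + Δ) = ρ * k σ := by rw [hρ]; field_simp
  have hx0 : 0 ≤ x := by rw [hx]; exact div_nonneg (hr.2.2.2 σ) (by positivity)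
  have hκ2 : 0 < k σ ^ 2 := by positivity
  have hxX : x ≤ X := by rw [hx, div_le_iff₀ hκ2]; exact h.gle σ hs
  obtain ⟨A, hA⟩ : ∃ A, A = 256 * C * D ^ 2 := ⟨_, rfl⟩
  rw [← hA] at E ⊢
  have hA0 : 0 ≤ A := by rw [hA]; positivity
  have J1 : ρ ≤ ((1 + ε ^ 2) * x + A * ε ^ 2 + ε ^ 2) * ε + ε ^ 2 := by
    refine le_of_mul_le_mul_right ?_ hκ
    have : ((1 + ε ^ 2) * g σ + C * (k (σ - 2 * Δ) - k (σ + Δ)) ^ 2 + tiny σ) * Δ ≤
        ((1 + ε ^ 2) * g σ + A * ε ^ 2 * k σ ^ 2 + ε ^ 2 * k σ ^ 2) * Δ := by gcongr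
    have e : ((1 + ε ^ 2) * g σ + A * ε ^ 2 * k σ ^ 2 + ε ^ 2 * k σ ^ 2) * Δ =
        ((1 + ε ^ 2) * x + A * ε ^ 2 + ε ^ 2) * (k σ * Δ) * k σ := by rw [ex]; ring
    rw [e, hκΔ] at this
    linarith
  have J2 : ((1 - ε ^ 2) * (1 - C * ε) * x - ε ^ 2) * ε ≤ ρ := by
    refine le_of_mul_le_mul_right ?_ hκ
    rw [mul_assoc C, hκΔ] at I2
    have : ((1 - ε ^ 2) * (1 - C * ε) * g σ - ε ^ 2 * k σ ^ 2) * Δ ≤
        ((1 - ε ^ 2) * (1 - C * ε) * g σ - tiny σ) * Δ := by gcongr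
    have e : ((1 - ε ^ 2) * (1 - C * ε) * g σ - ε ^ 2 * k σ ^ 2) * Δ =
        ((1 - ε ^ 2) * (1 - C * ε) * x - ε ^ 2) * (k σ * Δ) * k σ := by rw [ex]; ring
    rw [e, hκΔ] at this
    linarith
  have J3 : y ≤ x * (1 + ε ^ 2 - (b - ε ^ 2) * ε + C * ε ^ 2) + A * ε ^ 2 + ε ^ 2 := by
    refine le_of_mul_le_mul_right ?_ hκ2
    rw [mul_assoc (b - ε ^ 2), hκΔ, ex, ey] at I3
    linarith
  have J4 : x * (1 - ε ^ 2 - (b + ε ^ 2) * ε - C * ε ^ 2) - ε ^ 2 ≤ y := by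
    refine le_of_mul_le_mul_right ?_ hκ2
    rw [mul_assoc (b + ε ^ 2), hκΔ, ex, ey] at I4
    linarith
  have p2 : 0 < ε ^ 2 := by positivity
  have p3 : ε ^ 3 ≤ ε ^ 2 := pow_le_pow_of_le_one hε.le hε1 (by norm_num)
  have p3' : 0 < ε ^ 3 := by positivity
  have q1 : x * ε ^ 2 ≤ X * ε ^ 2 := by gcongr
  have q2 : x * ε ^ 3 ≤ X * ε ^ 2 := mul_le_mul hxX p3 p3'.le (hx0.trans hxX)
  have q3 : C * (x * ε ^ 2) ≤ C * (X * ε ^ 2) := by gcongr
  have q4 : A * ε ^ 3 ≤ A * ε ^ 2 := by gcongr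
  have q5 : 0 ≤ C * (x * ε ^ 4) := by positivity
  have q6 : 0 ≤ A * ε ^ 2 := by positivity
  have q7 : 0 ≤ X * ε ^ 2 := mul_nonneg (hx0.trans hxX) p2.le
  have q8 : 0 ≤ C * (X * ε ^ 2) := by positivity
  constructor <;> rw [abs_le] <;> constructor <;> linarith

set_option maxHeartbeats 1000000 in
lemma godec2_low (hb : 0 < b) (hC : 1 ≤ C) (hv : 0 < v) (hD : 1 ≤ D) (hr : Reg k g)
    (h : GodeGd v D X τ s k g) (hU : FlowU b C (ε ^ 2) σ₁ k g)
    (hε : 0 < ε) (hεv : 128 * ε ≤ v) (hεb : (2 + C) * ε ≤ b / 4)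
    (hεD : 448 * C * D * (2 + 16 / b) * ε ≤ 1)
    (hτ : 2 * τ ≤ ε) (hτ' : 16 * (2 + 16 / (b * ε)) * τ ≤ 1) {σ : ℝ} (hσ : 2 * s ≤ σ)
    (h1 : σ₁ ≤ σ) : b / 256 * k σ ^ 2 < g σ := by
  by_contra hc
  push Not at hc
  have hone := h.one
  have hs : s ≤ σ := by linarith
  have hκ := h.pos hv hs
  have hb16 : 0 < 16 / b := by positivity
  have hCD : 1 ≤ C * D := one_le_mul_of_one_le_of_one_le hC hD
  have hCDε : 896 * (C * D * ε) ≤ 1 := by
    have : 0 ≤ 448 * (C * D) * (16 / b) * ε := by positivity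
    linarith
  have hDε : D * ε ≤ C * D * ε := by nlinarith [mul_pos (by linarith : (0 : ℝ) < D) hε]
  have hCε : C * ε ≤ C * D * ε := by nlinarith [mul_pos (by linarith : (0 : ℝ) < C) hε]
  have hεε : ε ≤ C * D * ε := by nlinarith
  have hε1 : ε ≤ 1 := by linarith
  have hτ0 : 0 ≤ τ := le_trans (by positivity) (h.sq σ hs)
  obtain ⟨κ, hκe⟩ : ∃ κ, κ = k σ := ⟨_, rfl⟩
  rw [← hκe] at hc hκ
  obtain ⟨Δ, hΔ⟩ : ∃ Δ, Δ = ε / κ := ⟨_, rfl⟩
  have hΔ0 : 0 < Δ := by rw [hΔ]; positivity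
  have hκΔ : κ * Δ = ε := by rw [hΔ]; field_simp
  have a2 : 128 * Δ ≤ σ := by
    have l := h.low σ hs
    rw [div_le_iff₀ (by linarith), ← hκe] at l
    rw [hΔ, ← mul_div_assoc, div_le_iff₀ hκ]; linarith
  -- square root bound as long as `k ≥ κ / 2`
  have sq : ∀ t, σ ≤ t → κ / 2 ≤ k t → √t ≤ Δ := by
    intro t ht hk
    have l := h.sq t (hs.trans ht)
    have := mul_le_mul_of_nonneg_left hk (Real.sqrt_nonneg t)
    rw [hΔ, le_div_iff₀ hκ]; linarith
  have sq0 : √σ ≤ Δ := sq σ le_rfl (by rw [← hκe]; linarith)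
  have bk : k (σ - 4 * Δ) ≤ 2 * κ := by
    rw [hκe]
    refine h.back hr hv hD (by linarith) (by linarith) ?_
    rw [← hκe]
    have : 4 * D * (4 * Δ + √σ) * κ ≤ 4 * D * (4 * Δ + Δ) * κ := by gcongr
    have e : 4 * D * (4 * Δ + Δ) * κ = 20 * (D * ε) := by rw [← hκΔ]; ring
    linarith
  obtain ⟨a, ha⟩ : ∃ a : ℕ → ℝ, ∀ j, a j = k (σ + ((j : ℝ) - 4) * Δ) := ⟨_, fun _ => rfl⟩
  obtain ⟨G, hG⟩ : ∃ G : ℕ → ℝ, ∀ j, G j = g (σ + j * Δ) := ⟨_, fun _ => rfl⟩
  have pt : ∀ j : ℕ, σ - 4 * Δ ≤ σ + ((j : ℝ) - 4) * Δ := fun j => by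
    have : (0 : ℝ) ≤ j * Δ := by positivity
    linarith
  have anti : Antitone a := by
    intro i j hij
    rw [ha, ha]
    have : (i : ℝ) ≤ j := by exact_mod_cast hij
    exact h.anti hr (by linarith [pt i]) (by nlinarith)
  have a4 : ∀ i : ℕ, a (i + 4) = k (σ + i * Δ) := fun i => by
    rw [ha]; push_cast; congr 1; ring
  have a5 : ∀ i : ℕ, a (i + 5) = k (σ + i * Δ + Δ) := fun i => by
    rw [ha]; push_cast; congr 1; ring
  have a6 : ∀ i : ℕ, a (i + 6) = k (σ + i * Δ + 2 * Δ) := fun i => by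
    rw [ha]; push_cast; congr 1; ring
  have a0 : ∀ i : ℕ, a i = k (σ + i * Δ - 2 * (2 * Δ)) := fun i => by
    rw [ha]; congr 1; ring
  have a2' : ∀ i : ℕ, a (i + 2) = k (σ + i * Δ - 2 * Δ) := fun i => by
    rw [ha]; push_cast; congr 1; ring
  have aκ : a 4 = κ := by rw [hκe, ha]; simp
  have ω : ∀ i : ℕ, κ / 2 ≤ a (i + 4) → a i - a (i + 6) ≤ 28 * D * ε * κ := by
    intro i hi
    have p : (0 : ℝ) ≤ i * Δ := by positivity
    have l : a i ≤ 2 * κ := (anti (Nat.zero_le i)).trans (by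
      rw [ha]; refine le_trans (le_of_eq ?_) bk; congr 1; simp; ring)
    rw [a0] at l
    have w := h.win hr hD (a := σ + i * Δ - 2 * (2 * Δ)) (κ := κ) (L := 6 * Δ) (by linarith) l
      (by linarith) (by
        have e : D * (2 * κ) * (6 * Δ) = 12 * (D * ε) := by rw [← hκΔ]; ring
        linarith)
    have e0 : σ + i * Δ - 2 * (2 * Δ) + 6 * Δ = σ + i * Δ + 2 * Δ := by ring
    rw [e0, ← a0, ← a6] at w
    rw [a4] at hi
    have w1 : √(σ + i * Δ - 2 * (2 * Δ)) ≤ Δ :=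
      (Real.sqrt_le_sqrt (by linarith)).trans (sq _ (by linarith) hi)
    refine w.trans ?_
    have : D * (6 * Δ + √(σ + i * Δ - 2 * (2 * Δ))) * (2 * κ) ^ 2 ≤
        D * (6 * Δ + Δ) * (2 * κ) ^ 2 := by gcongr
    refine this.trans_eq ?_
    rw [← hκΔ]; ring
  have tin : ∀ t, σ ≤ t → tiny t ≤ τ * κ ^ 3 := by
    intro t ht
    refine le_trans ?_ (hκe ▸ h.tin σ hs)
    unfold tiny
    have : σ ^ (1 / 4 : ℝ) ≤ t ^ (1 / 4 : ℝ) := Real.rpow_le_rpow (by linarith) ht (by norm_num)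
    exact Real.exp_le_exp.2 (by linarith)
  have main : ∀ n : ℕ, κ / 2 ≤ a (n + 4) := by
    intro n
    induction n with
    | zero => rw [zero_add, aκ]; linarith
    | succ n ih =>
      have hi : ∀ i < n, κ / 2 ≤ a (i + 4) := fun i hi => ih.trans (anti (by omega))
      have fl : ∀ i < n, ∀ L, Δ ≤ L → L ≤ 2 * Δ → Adm C σ₁ k (σ + i * Δ) L := by
        intro i hi' L hL1 hL2
        have p : (0 : ℝ) ≤ i * Δ := by positivity
        have l := hi i hi'
        rw [a4] at l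
        refine h.adm hv (by linarith) (by linarith) ((sq _ (by linarith) l).trans hL1)
          (by linarith) ?_
        have l2 : k (σ + i * Δ) ≤ κ := hκe ▸ h.anti hr hs (by linarith)
        have : C * k (σ + i * Δ) * L ≤ C * κ * (2 * Δ) := by gcongr; linarith
        have e : C * κ * (2 * Δ) = 2 * (C * ε) := by rw [← hκΔ]; ring
        linarith
      have sqd : ∀ i < n, C * (a i - a (i + 6)) ^ 2 ≤ C * (28 * D * ε * κ) * (a i - a (i + 6)) := by
        intro i hi'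
        have l := ω i (hi i hi')
        have l0 : 0 ≤ a i - a (i + 6) := sub_nonneg.2 (anti (by omega))
        rw [pow_two, mul_assoc C]
        gcongr
      have key := godec2_seq a G anti (fun i => by rw [hG]; exact hr.2.2.2 _) n (Δ := Δ)
        (β := b * ε / 4) (w := C * (28 * D * ε * κ)) (τ := τ * κ ^ 3) hΔ0 (by positivity)
        (by positivity) (by
          intro i hi'
          have p : (0 : ℝ) ≤ i * Δ := by positivity
          have I1 := (hU _ _ (fl i hi' (2 * Δ) (by linarith) le_rfl)).1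
          rw [← a0, ← a6, ← hG] at I1
          have l := hi i hi'
          rw [a4] at l
          have l1 : a (i + 5) ≤ k (σ + i * Δ + √(σ + i * Δ)) := by
            rw [a5]
            have := Real.sqrt_nonneg (σ + i * Δ)
            exact h.anti hr (by linarith) (by linarith [sq _ (by linarith) l])
          have l2 := sqd i hi'
          have l3 := tin (σ + i * Δ) (by linarith)
          have l4 : (1 + ε ^ 2) * G i ≤ 2 * G i := by
            have : 0 ≤ G i := by rw [hG]; exact hr.2.2.2 _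
            have : ε ^ 2 ≤ 1 := pow_le_one₀ hε.le hε1
            gcongr; linarith
          have : ((1 + ε ^ 2) * G i + C * (a i - a (i + 6)) ^ 2 + tiny (σ + i * Δ)) * (2 * Δ) ≤
              (2 * G i + C * (28 * D * ε * κ) * (a i - a (i + 6)) + τ * κ ^ 3) * (2 * Δ) := by
            gcongr
          linarith) (by
          intro i hi'
          have p : (0 : ℝ) ≤ i * Δ := by positivity
          have I3 := (hU _ _ (fl i hi' Δ le_rfl (by linarith))).2.2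
          have e : G (i + 1) = g (σ + i * Δ + Δ) := by rw [hG]; push_cast; congr 1; ring
          rw [← a2', ← a5, ← e, ← hG, ← a4, mul_assoc (b - ε ^ 2)] at I3
          have l := hi i hi'
          have l' : a (i + 4) ≤ κ := aκ ▸ anti (by omega)
          have m1 : ε / 2 ≤ a (i + 4) * Δ := by
            have := mul_le_mul_of_nonneg_right l hΔ0.le
            linarith
          have m2 : a (i + 4) * Δ ≤ ε := by
            have := mul_le_mul_of_nonneg_right l' hΔ0.le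
            linarith
          obtain ⟨e', he'⟩ : ∃ e', e' = a (i + 4) * Δ := ⟨_, rfl⟩
          rw [← he'] at I3 m1 m2
          have m3 : 1 + ε ^ 2 - (b - ε ^ 2) * e' + C * e' ^ 2 ≤ 1 - b * ε / 4 := by
            have n1 : C * e' ^ 2 ≤ C * ε ^ 2 := by gcongr; linarith
            have n2 : ε ^ 2 * e' ≤ ε ^ 2 * 1 := by gcongr; linarith
            have n3 : b * (ε / 2) ≤ b * e' := by gcongr
            have n4 := mul_le_mul_of_nonneg_right hεb hε.le
            linarith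
          have hG0 : 0 ≤ G i := by rw [hG]; exact hr.2.2.2 _
          have m4 := mul_le_mul_of_nonneg_left m3 hG0
          have l2 := sqd i hi'
          have l3 := tin (σ + i * Δ) (by linarith)
          have l5 : C * (a (i + 2) - a (i + 5)) ^ 2 ≤ C * (a i - a (i + 6)) ^ 2 := by
            have u1 : a (i + 5) ≤ a (i + 2) := anti (by omega)
            have u2 : a (i + 2) ≤ a i := anti (by omega)
            have u3 : a (i + 6) ≤ a (i + 5) := anti (by omega)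
            gcongr C * ?_
            exact pow_le_pow_left₀ (by linarith) (by linarith) 2
          linarith)
      have e5 : n + 1 + 4 = n + 5 := rfl
      rw [e5]
      have G0 : G 0 = g σ := by rw [hG]; simp
      have eq1 : 4 * Δ / (b * ε / 4) = 16 / b / κ := by rw [hΔ]; field_simp; norm_num
      have t1 : 4 * Δ / (b * ε / 4) * G 0 ≤ κ / 16 := by
        rw [eq1, G0]
        have : 16 / b / κ * g σ ≤ 16 / b / κ * (b / 256 * κ ^ 2) := by gcongr
        refine this.trans_eq ?_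
        field_simp; norm_num
      have P0 : 0 ≤ a 0 - a (n + 5) := sub_nonneg.2 (anti (by omega))
      have t2 : (2 * Δ + 4 * Δ / (b * ε / 4)) * (6 * (C * (28 * D * ε * κ)) * (a 0 - a (n + 5))) ≤
          1 / 2 * (a 0 - a (n + 5)) := by
        rw [← mul_assoc]
        gcongr
        have e : (2 * Δ + 4 * Δ / (b * ε / 4)) * (6 * (C * (28 * D * ε * κ))) =
            168 * (C * D) * (2 * ε + 16 / b) * ε := by
          rw [eq1, hΔ]; field_simp; norm_num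
        rw [e]
        have : 168 * (C * D) * (2 * ε + 16 / b) * ε ≤ 168 * (C * D) * (2 * 1 + 16 / b) * ε := by
          gcongr
        have p : 0 ≤ C * D * (2 + 16 / b) * ε := by positivity
        linarith
      have t3 : (2 * Δ + 4 * Δ / (b * ε / 4)) * (n * (τ * κ ^ 3)) ≤ κ / 16 := by
        have p : (0 : ℝ) ≤ n * Δ := by positivity
        have l := ih
        rw [a4] at l
        have l1 := sq _ (by linarith) l
        have l2 : σ + n * Δ ≤ Δ ^ 2 := by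
          have := Real.sqrt_le_iff.1 l1
          exact this.2
        have l3 : n * Δ * κ ^ 2 ≤ 1 := by
          have u : n * Δ * κ ^ 2 ≤ Δ ^ 2 * κ ^ 2 := by gcongr; linarith
          have u2 : Δ ^ 2 * κ ^ 2 = ε ^ 2 := by rw [← hκΔ]; ring
          have : ε ^ 2 ≤ 1 := pow_le_one₀ hε.le hε1
          linarith
        have e : (2 * Δ + 4 * Δ / (b * ε / 4)) * (n * (τ * κ ^ 3)) =
            (n * Δ * κ ^ 2) * ((2 + 16 / (b * ε)) * τ * κ) := by
          field_simp; ring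
        rw [e]
        have u3 : (2 + 16 / (b * ε)) * τ * κ ≤ 1 / 16 * κ := by gcongr; linarith
        have u4 : 0 ≤ (2 + 16 / (b * ε)) * τ * κ := by positivity
        have u5 := mul_le_mul_of_nonneg_right l3 u4
        linarith
      have t4 := ω 0 (by rw [zero_add, aκ]; linarith)
      have t5 : a (0 + 6) ≤ a 5 := anti (by omega)
      have t6 : κ ≤ a 0 := aκ ▸ anti (by omega)
      have t7 : 28 * D * ε * κ ≤ 1 / 16 * κ := by gcongr; linarith
      rw [mul_add] at key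
      linarith
  obtain ⟨n, hn⟩ := exists_nat_gt Δ
  have l := main n
  rw [a4] at l
  have p : (0 : ℝ) ≤ n * Δ := by positivity
  have l2 := (Real.sqrt_le_iff.1 (sq _ (by linarith) l)).2
  have l3 := mul_lt_mul_of_pos_right hn hΔ0
  linarith

end

end Pool.Agent.Lib.MP_153faa_pr
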