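import Mathlib
import Pool.Agent.Lib.MP_153faa_pr.GOdeC1
import Pool.Agent.Lib.MP_153faa_pr.GOdeC2B

set_option autoImplicit false

open MeasureTheory Filter Topology
open scoped ENNReal NNReal

namespace Pool.Agent.Lib.MP_153faa_pr

variable {d : ℕ}

lemma godec2_small (K : ℝ) {c : ℝ} (hc : 0 < c) : ∀ᶠ ε : ℝ in 𝓝[>] 0, K * ε < c := by
  have : Tendsto (fun ε : ℝ => K * ε) (𝓝 0) (𝓝 (K * 0)) := (continuous_const_mul K).tendsto 0
  rw [mul_zero] at this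
  exact (this.eventually (gt_mem_nhds hc)).filter_mono nhdsWithin_le_nhds

/-- From the one-step estimates and `g / k ^ 2 → b / 2` to the asymptotics of `k`. -/
lemma godec2_ces {b v M : ℝ} (hb : 0 < b) (hv : 0 < v) (hM : 0 ≤ M) {k x : ℝ → ℝ}
    (hx : Tendsto x atTop (𝓝 (b / 2)))
    (hs : ∀ᶠ ε : ℝ in 𝓝[>] 0, ∃ s, 1 ≤ s ∧ (∀ σ t, s ≤ σ → σ ≤ t → k t ≤ k σ) ∧ ∀ σ, s ≤ σ →
      v / σ ≤ k σ ∧ k σ ≤ 1 ∧ |(k σ - k (σ + ε / k σ)) / k σ - ε * x σ| ≤ M * ε ^ 2) :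
    Tendsto (fun σ => (σ * k σ)⁻¹) atTop (𝓝 (b / 2)) := by
  have base : ∀ᶠ ε : ℝ in 𝓝[>] 0, 0 < ε ∧ ε < 1 ∧ 0 ≤ b / 2 - ε - M * ε ∧ ∃ s, 1 ≤ s ∧
      (∀ σ t, s ≤ σ → σ ≤ t → (k σ)⁻¹ ≤ (k t)⁻¹) ∧ ∀ σ, s ≤ σ → 0 < k σ ∧ ε ≤ ε / k σ ∧
        ε / k σ ≤ ε / v * σ ∧
        (b / 2 - ε - M * ε) * (ε / k σ) ≤ (k (σ + ε / k σ))⁻¹ - (k σ)⁻¹ ∧
        (k (σ + ε / k σ))⁻¹ - (k σ)⁻¹ ≤
          (b / 2 + ε + M * ε) * (1 + 2 * (b / 2 + 1 + M) * ε) * (ε / k σ) := by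
    filter_upwards [hs, self_mem_nhdsWithin, godec2_small 1 one_pos,
      godec2_small (1 + M) (half_pos hb), godec2_small (2 * (b / 2 + 1 + M)) one_pos]
      with ε ⟨s, hs1, anti, hs⟩ hε e1 e2 e3
    replace hε : 0 < ε := hε
    obtain ⟨s', hs'⟩ := eventually_atTop.1 (hx.eventually (Icc_mem_nhds
      (show b / 2 - ε < b / 2 by linarith) (show b / 2 < b / 2 + ε by linarith)))
    have pos : ∀ σ, s ≤ σ → 0 < k σ := fun σ hσ =>
      (div_pos hv (by linarith)).trans_le (hs σ hσ).1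
    refine ⟨hε, by linarith, by linarith, max s s', le_max_of_le_left hs1, ?_, ?_⟩
    · intro σ t hσ ht
      have := (le_max_left _ _).trans hσ
      exact inv_anti₀ (pos t (this.trans ht)) (anti σ t this ht)
    intro σ hσ
    have hσ1 := (le_max_left _ _).trans hσ
    have hσ2 := hs' σ ((le_max_right _ _).trans hσ)
    obtain ⟨l1, l2, l3⟩ := hs σ hσ1
    have p0 := pos σ hσ1
    have hΔ : 0 < ε / k σ := by positivity
    have p1 := pos (σ + ε / k σ) (by linarith)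
    have an := anti σ (σ + ε / k σ) hσ1 (by linarith)
    refine ⟨p0, by rw [le_div_iff₀ p0]; nlinarith, ?_, ?_⟩
    · have hσ0 : 0 < σ := by linarith
      have : ε / v * σ = ε / (v / σ) := by field_simp
      rw [this]
      gcongr
    obtain ⟨ρ, hρ⟩ : ∃ ρ, ρ = (k σ - k (σ + ε / k σ)) / k σ := ⟨_, rfl⟩
    obtain ⟨u0, hu0⟩ : ∃ u, u = (k σ)⁻¹ := ⟨_, rfl⟩
    obtain ⟨u1, hu1⟩ : ∃ u, u = (k (σ + ε / k σ))⁻¹ := ⟨_, rfl⟩
    have f1 : u1 - u0 = ρ * u1 := by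
      rw [hu0, hu1, hρ]
      generalize k (σ + ε / k σ) = k1 at p1 ⊢
      field_simp
    have f2 : ε / k σ = ε * u0 := by rw [hu0]; field_simp
    have f3 : 0 ≤ ρ := by rw [hρ]; exact div_nonneg (by linarith) p0.le
    have f4 : 0 < u0 := by rw [hu0]; positivity
    have f5 : u0 ≤ u1 := by rw [hu0, hu1]; exact inv_anti₀ p1 an
    rw [← hρ, abs_le] at l3
    rw [← hu0, ← hu1, f2]
    have g1 := mul_le_mul_of_nonneg_left hσ2.1 hε.le
    have g2 := mul_le_mul_of_nonneg_left hσ2.2 hε.le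
    have r1 : (b / 2 - ε - M * ε) * ε ≤ ρ := by linarith [l3.1]
    have r2 : ρ ≤ (b / 2 + ε + M * ε) * ε := by linarith [l3.2]
    have r3 : ρ ≤ (b / 2 + 1 + M) * ε := by
      refine r2.trans ?_
      have : M * ε ≤ M * 1 := by gcongr; linarith
      gcongr
      · linarith
      · linarith
    constructor
    · have := mul_le_mul_of_nonneg_right r1 f4.le
      have := mul_le_mul_of_nonneg_left f5 f3
      linarith
    · have r4 : u1 ≤ (1 + 2 * (b / 2 + 1 + M) * ε) * u0 := by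
        have t1 : ρ * u1 ≤ 1 / 2 * u1 := by gcongr <;> linarith
        have t2 : u1 ≤ 2 * u0 := by linarith
        have t3 : ρ * u1 ≤ (b / 2 + 1 + M) * ε * (2 * u0) := by gcongr; linarith
        linarith
      have t4 : ρ * u1 ≤ (b / 2 + ε + M * ε) * ε * ((1 + 2 * (b / 2 + 1 + M) * ε) * u0) := by
        gcongr; linarith
      linarith
  rw [tendsto_order]
  constructor
  · intro a ha
    have c : Tendsto (fun ε : ℝ => (b / 2 - ε - M * ε) * (1 - ε / v)) (𝓝 0)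
        (𝓝 ((b / 2 - 0 - M * 0) * (1 - 0 / v))) := by
      apply Continuous.tendsto; fun_prop
    simp only [sub_zero, mul_zero, zero_div, mul_one] at c
    obtain ⟨ε, ⟨hε, -, hc, s, hs1, mono, hs⟩, e⟩ := (base.and
      ((c.eventually (lt_mem_nhds ha)).filter_mono nhdsWithin_le_nhds)).exists
    obtain ⟨c2, hc2⟩ : ∃ c, c = b / 2 - ε - M * ε := ⟨_, rfl⟩
    rw [← hc2] at hc hs e
    have gr := godec2_grid (fun σ => σ + ε / k σ) (fun σ => c2 * (σ - s) ≤ (k σ)⁻¹) (s := s) hε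
      (fun σ hσ => by linarith [(hs σ hσ).2.1]) (by simpa using (hs s le_rfl).1.le)
      (fun σ hσ hp => by linarith [(hs σ hσ).2.2.2.1])
    have lim : Tendsto (fun t : ℝ => c2 * (1 - ε / v) - c2 * s / t) atTop
        (𝓝 (c2 * (1 - ε / v) - 0)) :=
      tendsto_const_nhds.sub (tendsto_const_nhds.div_atTop tendsto_id)
    rw [sub_zero] at lim
    filter_upwards [lim.eventually (lt_mem_nhds e), eventually_ge_atTop s] with t h1 ht
    obtain ⟨σ, h2, h3, h4, h5⟩ := gr t ht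
    have ht0 : 0 < t := by linarith
    refine h1.trans_le ?_
    have m := mono σ t h2 h3
    have l := (hs σ h2).2.2.1
    have l2 : ε / v * σ ≤ ε / v * t := by gcongr
    have l3 : c2 * (t - ε / v * t - s) ≤ c2 * (σ - s) := by gcongr; linarith
    rw [mul_inv, ← div_eq_inv_mul, le_div_iff₀ ht0]
    have : (c2 * (1 - ε / v) - c2 * s / t) * t = c2 * (t - ε / v * t - s) := by field_simp
    linarith
  · intro a ha
    have c : Tendsto (fun ε : ℝ => (b / 2 + ε + M * ε) * (1 + 2 * (b / 2 + 1 + M) * ε) *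
        (1 + ε / v)) (𝓝 0) (𝓝 ((b / 2 + 0 + M * 0) * (1 + 2 * (b / 2 + 1 + M) * 0) *
        (1 + 0 / v))) := by
      apply Continuous.tendsto; fun_prop
    simp only [add_zero, mul_zero, zero_div, mul_one] at c
    obtain ⟨ε, ⟨hε, -, -, s, hs1, mono, hs⟩, e⟩ := (base.and
      ((c.eventually (gt_mem_nhds ha)).filter_mono nhdsWithin_le_nhds)).exists
    obtain ⟨c1, hc1⟩ : ∃ c, c = (b / 2 + ε + M * ε) * (1 + 2 * (b / 2 + 1 + M) * ε) := ⟨_, rfl⟩
    have hc : 0 ≤ c1 := by rw [hc1]; positivity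
    rw [← hc1] at hs e
    have st : ∀ σ, s ≤ σ → (k σ)⁻¹ ≤ (k s)⁻¹ + c1 * (σ - s) →
        (k (σ + ε / k σ))⁻¹ ≤ (k s)⁻¹ + c1 * (σ + ε / k σ - s) :=
      fun σ hσ hp => by linarith [(hs σ hσ).2.2.2.2]
    have gr := godec2_grid (fun σ => σ + ε / k σ) (fun σ => (k σ)⁻¹ ≤ (k s)⁻¹ + c1 * (σ - s))
      (s := s) hε (fun σ hσ => by linarith [(hs σ hσ).2.1]) (by simp) st
    have lim : Tendsto (fun t : ℝ => c1 * (1 + ε / v) + (k s)⁻¹ / t) atTop
        (𝓝 (c1 * (1 + ε / v) + 0)) :=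
      tendsto_const_nhds.add (tendsto_const_nhds.div_atTop tendsto_id)
    rw [add_zero] at lim
    filter_upwards [lim.eventually (gt_mem_nhds e), eventually_ge_atTop s] with t h1 ht
    obtain ⟨σ, h2, h3, h4, h5⟩ := gr t ht
    have ht0 : 0 < t := by linarith
    refine lt_of_le_of_lt ?_ h1
    have m := mono t _ ht h4
    have h6 := st σ h2 h5
    have l := (hs σ h2).2.2.1
    have l2 : ε / v * σ ≤ ε / v * t := by gcongr
    have l3 : c1 * (σ + ε / k σ - s) ≤ c1 * (t + ε / v * t) := by gcongr c1 * ?_; linarith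
    rw [mul_inv, ← div_eq_inv_mul, div_le_iff₀ ht0]
    have : (c1 * (1 + ε / v) + (k s)⁻¹ / t) * t = c1 * (t + ε / v * t) + (k s)⁻¹ := by field_simp
    linarith

/-- The critical trajectory. -/
theorem ode_crit {b C : ℝ} (hb : 0 < b) (hC : 1 ≤ C) {k g : ℝ → ℝ} (hr : Reg k g)
    (hU : ∀ η, 0 < η → ∃ σ₀, FlowU b C η σ₀ k g) (hL : ∀ η, 0 < η → ∃ σ₀, FlowL b C η σ₀ k g)
    (h5 : ∃ σ₀, ∀ σ, σ₀ ≤ σ → Real.exp (-σ ^ (1 / 5 : ℝ)) ≤ k σ →
      g σ ≤ C * (k σ ^ 2 + k σ / σ))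
    (h1 : ∀ᶠ σ in atTop, k σ ≤ σ ^ (-(3 / 4) : ℝ))
    (h2 : ∀ τ₁, ∃ τ, τ₁ ≤ τ ∧ Real.exp (-τ ^ (1 / 6 : ℝ)) ≤ k τ) :
    Tendsto (fun σ => σ * k σ) atTop (𝓝 (2 / b)) ∧ ∀ᶠ σ in atTop, 1 / (b * σ ^ 2) ≤ g σ := by
  obtain ⟨v, D, hv, hD, ha⟩ := ode_apriori hb hC hr hU hL h5 h1 h2
  obtain ⟨X, hX⟩ : ∃ X, X = C * (1 + 1 / v) := ⟨_, rfl⟩
  have hX0 : 0 ≤ X := by rw [hX]; positivity
  obtain ⟨M, hM⟩ : ∃ M, M = X * (2 + C) + 256 * C * D ^ 2 + 2 := ⟨_, rfl⟩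
  have hM0 : 0 ≤ M := by rw [hM]; positivity
  have gd : ∀ τ, 0 < τ → ∀ s0, ∃ s, s0 ≤ s ∧ GodeGd v D X τ s k g := fun τ hτ s0 =>
    hX ▸ godec2_gd hC hv ha h5 h1 hτ s0
  have low : ∃ s, ∀ σ, s ≤ σ → b / 256 * k σ ^ 2 < g σ := by
    obtain ⟨ε, hε, e1, e2, e3⟩ := ((eventually_mem_nhdsWithin (s := Set.Ioi (0 : ℝ))).and
      ((godec2_small 128 hv).and ((godec2_small (2 + C) (by positivity : 0 < b / 4)).and
      (godec2_small (448 * C * D * (2 + 16 / b)) one_pos)))).exists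
    replace hε : 0 < ε := hε
    obtain ⟨τ, hτ, t1, t2⟩ := ((eventually_mem_nhdsWithin (s := Set.Ioi (0 : ℝ))).and
      ((godec2_small 2 hε).and (godec2_small (16 * (2 + 16 / (b * ε))) one_pos))).exists
    obtain ⟨σ₁, hU'⟩ := hU (ε ^ 2) (by positivity)
    obtain ⟨s, -, h⟩ := gd τ hτ 0
    exact ⟨max (2 * s) σ₁, fun σ hσ => godec2_low hb hC hv hD hr h hU' hε e1.le e2.le e3.le t1.le
      t2.le ((le_max_left _ _).trans hσ) ((le_max_right _ _).trans hσ)⟩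
  have step : ∀ᶠ ε : ℝ in 𝓝[>] 0, ∀ s0, ∃ s τ, s0 ≤ s ∧ GodeGd v D X τ s k g ∧ ∀ σ, 2 * s ≤ σ →
      |(k σ - k (σ + ε / k σ)) / k σ - ε * (g σ / k σ ^ 2)| ≤ M * ε ^ 2 ∧
      |g (σ + ε / k σ) / k σ ^ 2 - g σ / k σ ^ 2 * (1 - b * ε)| ≤ M * ε ^ 2 := by
    filter_upwards [self_mem_nhdsWithin, godec2_small 128 hv, godec2_small C one_pos,
      godec2_small (20 * D) one_pos] with ε hε e1 e2 e3 s0
    replace hε : 0 < ε := hε
    obtain ⟨σ₁, hU'⟩ := hU (ε ^ 2) (by positivity)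
    obtain ⟨σ₂, hL'⟩ := hL (ε ^ 2) (by positivity)
    obtain ⟨s, hs, h⟩ := gd (ε ^ 2 / (2 * D)) (by positivity) (max s0 (max σ₁ σ₂))
    have := h.one
    simp only [max_le_iff] at hs
    refine ⟨s, _, hs.1, h, fun σ hσ => ?_⟩
    rw [hM]
    exact godec2_step hC hv hD hr h hU' hL' hε e1.le e2.le e3 (le_of_eq (by field_simp)) hσ
      (by linarith [hs.2.1]) (by linarith [hs.2.2])
  have hx : Tendsto (fun σ => g σ / k σ ^ 2) atTop (𝓝 (b / 2)) := by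
    obtain ⟨M', hM', alg⟩ := godec2_alg hb.le hX0 hM0
    obtain ⟨s0, low⟩ := low
    rw [Metric.tendsto_atTop]
    intro δ hδ
    obtain ⟨ε, hε, e1, e2, st⟩ := ((eventually_mem_nhdsWithin (s := Set.Ioi (0 : ℝ))).and
      ((godec2_small 1 one_pos).and ((godec2_small M' (by positivity : 0 < δ * b / 256)).and
      step))).exists
    replace hε : 0 < ε := hε
    obtain ⟨s, τ, hs0, h, st⟩ := st s0
    have hone := h.one
    have pos : ∀ σ, 2 * s ≤ σ → 0 < k σ := fun σ hσ => h.pos hv (by linarith)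
    have φ : ∀ σ, 2 * s ≤ σ → 2 * s ≤ σ + ε / k σ := fun σ hσ => by
      have := div_pos hε (pos σ hσ)
      linarith
    have xl : ∀ σ, 2 * s ≤ σ → b / 256 < g σ / k σ ^ 2 := fun σ hσ => by
      rw [lt_div_iff₀ (pow_pos (pos σ hσ) 2)]; exact low σ (by linarith)
    have xu : ∀ σ, 2 * s ≤ σ → g σ / k σ ^ 2 ≤ X := fun σ hσ => by
      rw [div_le_iff₀ (pow_pos (pos σ hσ) 2)]; exact h.gle σ (by linarith)
    have b0 : 0 < b / 256 := by positivity
    have dyn : ∀ σ, 2 * s ≤ σ → |g (σ + ε / k σ) / k (σ + ε / k σ) ^ 2 - g σ / k σ ^ 2 -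
        ε * (g σ / k σ ^ 2) * (2 * (g σ / k σ ^ 2) - b)| ≤ δ * b / 256 * ε := by
      intro σ hσ
      have p0 := pos σ hσ
      have p1 := pos _ (φ σ hσ)
      refine (alg ε _ _ _ _ hε (by linarith) (b0.trans (xl σ hσ)).le (xu σ hσ)
        (b0.trans (xl _ (φ σ hσ))).le (xu _ (φ σ hσ)) (st σ hσ).1 (st σ hσ).2 ?_).trans ?_
      · generalize k (σ + ε / k σ) = k1 at p1 ⊢
        generalize g (σ + ε / k σ) = g1
        field_simp; ring
      · have := mul_le_mul_of_nonneg_right e2.le hε.le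
        linarith
    have γ : 0 < δ * b / 256 * ε := by positivity
    have up := godec2_esc (fun σ => g σ / k σ ^ 2) (fun σ => σ + ε / k σ) (s := 2 * s)
      (c := b / 2 + δ) (B := X) γ φ xu (by
        intro σ hσ hc
        have l := (abs_le.1 (dyn σ hσ)).1
        have : ε * (b / 2) * (2 * δ) ≤ ε * (g σ / k σ ^ 2) * (2 * (g σ / k σ ^ 2) - b) :=
          mul_le_mul (mul_le_mul_of_nonneg_left (by linarith) hε.le) (by linarith) (by positivity)
            (mul_nonneg hε.le (by linarith))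
        linarith)
    have dn := godec2_esc (fun σ => -(g σ / k σ ^ 2)) (fun σ => σ + ε / k σ) (s := 2 * s)
      (c := -(b / 2 - δ)) (B := 0) γ φ (fun σ hσ => by linarith [xl σ hσ]) (by
        intro σ hσ hc
        have l := (abs_le.1 (dyn σ hσ)).2
        have l2 := xl σ hσ
        have : ε * (b / 256) * (2 * δ) ≤ ε * (g σ / k σ ^ 2) * (b - 2 * (g σ / k σ ^ 2)) :=
          mul_le_mul (mul_le_mul_of_nonneg_left l2.le hε.le) (by linarith) (by positivity)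
            (mul_nonneg hε.le (by linarith))
        linarith)
    refine ⟨2 * s, fun σ hσ => ?_⟩
    rw [Real.dist_eq, abs_lt]
    have := up σ hσ
    have := dn σ hσ
    constructor <;> linarith
  have ces := godec2_ces hb hv hM0 hx (k := k) (by
    filter_upwards [step] with ε st
    obtain ⟨s, τ, -, h, st⟩ := st 0
    have := h.one
    exact ⟨2 * s, by linarith, fun σ t hσ ht => h.anti hr (by linarith) ht, fun σ hσ =>
      ⟨h.low σ (by linarith), h.le1 σ (by linarith), (st σ hσ).1⟩⟩)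
  have lim : Tendsto (fun σ => σ * k σ) atTop (𝓝 (2 / b)) := by
    have := ces.inv₀ (by positivity)
    simpa using this
  refine ⟨lim, ?_⟩
  have l2 := hx.mul (lim.pow 2)
  have e : b / 2 * (2 / b) ^ 2 = 2 / b := by field_simp
  rw [e] at l2
  have l3 : 1 / b < 2 / b := by gcongr; norm_num
  filter_upwards [l2.eventually (lt_mem_nhds l3), ha, eventually_gt_atTop 0] with σ h h' hσ
  have p : 0 < k σ := (div_pos hv hσ).trans_le h'.1
  have e2 : g σ / k σ ^ 2 * (σ * k σ) ^ 2 = g σ * σ ^ 2 := by field_simp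
  rw [e2, div_lt_iff₀ hb] at h
  rw [div_le_iff₀ (by positivity)]
  linarith

end Pool.Agent.Lib.MP_153faa_pr
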