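import Mathlib
import Pool.Agent.Lib.MP_153faa_pr.GIfB
import Pool.Agent.Lib.MP_153faa_pr.GBC
import Pool.Agent.Lib.MP_153faa_pr.GFL
import Pool.Agent.Lib.MP_153faa_pr.GAp
import Pool.Agent.Lib.MP_153faa_pr.GOdeC2

set_option autoImplicit false

open MeasureTheory Filter Topology
open scoped ENNReal NNReal

namespace Pool.Agent.Lib.MP_153faa_pr

variable {d : ℕ}

theorem gcrit_adm {C C' σ₀ : ℝ} {k g : ℝ → ℝ} (hr : Reg k g) (hC : C ≤ C') {σ Δ : ℝ}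
    (h : Adm C' σ₀ k σ Δ) : Adm C σ₀ k σ Δ := by
  obtain ⟨h1, h2, h3, h4, h5⟩ := h
  have hΔ : 0 ≤ Δ := (Real.sqrt_nonneg σ).trans h2
  refine ⟨h1, h2, h3, le_trans ?_ h4, h5⟩
  exact mul_le_mul_of_nonneg_right (mul_le_mul_of_nonneg_right hC (hr.2.2.1 σ)) hΔ

theorem gcrit_flowU {b C C' η σ₀ : ℝ} {k g : ℝ → ℝ} (hr : Reg k g) (hC : C ≤ C') (h0 : 0 < σ₀)
    (h : FlowU b C η σ₀ k g) : FlowU b C' η σ₀ k g := by
  intro σ Δ hA
  obtain ⟨a1, a2, a3⟩ := h σ Δ (gcrit_adm hr hC hA)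
  have hΔ : 0 ≤ Δ := (Real.sqrt_nonneg σ).trans hA.2.1
  have hσ : 0 < σ := h0.trans_le hA.1
  have hk := hr.2.2.1 σ
  have hg := hr.2.2.2 σ
  have hs := mul_le_mul_of_nonneg_right hC (sq_nonneg (k (σ - 2 * Δ) - k (σ + Δ)))
  refine ⟨a1.trans (mul_le_mul_of_nonneg_right (by linarith) hΔ), ?_, a3.trans ?_⟩
  · rcases le_total η 1 with hη | hη
    · refine le_trans (mul_le_mul_of_nonneg_right (sub_le_sub_right
        (mul_le_mul_of_nonneg_right (mul_le_mul_of_nonneg_left ?_ (by linarith)) hg) _) hΔ) a2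
      have := mul_le_mul_of_nonneg_right (mul_le_mul_of_nonneg_right hC hk) hΔ
      linarith
    · have h1 : k (σ + Δ) ≤ k σ := hr.2.1 hσ (show 0 < σ + Δ by linarith) (by linarith)
      have h2 : (1 - η) * (1 - C' * k σ * Δ) * g σ ≤ 0 :=
        mul_nonpos_of_nonpos_of_nonneg
          (mul_nonpos_of_nonpos_of_nonneg (by linarith) (by linarith [hA.2.2.2.1])) hg
      have h3 : 0 < tiny σ := Real.exp_pos _
      have h4 : ((1 - η) * (1 - C' * k σ * Δ) * g σ - tiny σ) * Δ ≤ 0 :=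
        mul_nonpos_of_nonpos_of_nonneg (by linarith) hΔ
      linarith
  · have h1 := mul_le_mul_of_nonneg_left
      (mul_le_mul_of_nonneg_right hC (sq_nonneg (k σ * Δ))) hg
    linarith

theorem gcrit_flowL {b C C' η σ₀ : ℝ} {k g : ℝ → ℝ} (hr : Reg k g) (hC : C ≤ C')
    (h : FlowL b C η σ₀ k g) : FlowL b C' η σ₀ k g := by
  intro σ Δ hA
  refine le_trans ?_ (h σ Δ (gcrit_adm hr hC hA))
  have h1 := mul_le_mul_of_nonneg_left
    (mul_le_mul_of_nonneg_right hC (sq_nonneg (k σ * Δ))) (hr.2.2.2 σ)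
  linarith

/-- The critical trajectory and the flow inequalities near the critical point. -/
theorem crit_pack (hd : 3 ≤ d) {ν : Measure ℝ} [IsProbabilityMeasure ν]
    (hν : ∀ β : ℝ, Integrable (fun t => Real.exp (β * t)) ν)
    (hne : ∃ β : ℝ, 0 ≤ β ∧ freeEnergy d ν β < 0) {κ M ε₀ : ℝ} (hκ : 0 < κ) (hε : 0 < ε₀)
    (h3 : 3 * ε₀ ≤ betaC d ν)
    (hG : ∀ β ∈ Set.Icc (betaC d ν - ε₀) (betaC d ν + ε₀), Good d κ M (rho ν β)) (a₁ : ℕ) :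
    ∃ (a : ℕ) (b C : ℝ), a₁ ≤ a ∧ 0 < b ∧ 1 ≤ C ∧
      (∀ σ : ℝ, 0 < σ → OO d (rho ν (betaC d ν)) (q0 d) (Real.exp (-σ)) ≠ ⊤) ∧
      Tendsto (fun σ => σ * kk d (rho ν (betaC d ν)) σ) atTop (𝓝 (2 / b)) ∧
      (∀ᶠ σ in atTop, 1 / (b * σ ^ 2) ≤ gg d (rho ν (betaC d ν)) a σ) ∧
      ∀ η : ℝ, 0 < η → ∃ σ₀ ε₁ : ℝ, 1 ≤ σ₀ ∧ 0 < ε₁ ∧ ε₁ ≤ ε₀ ∧
        ∀ β ∈ Set.Icc (betaC d ν - ε₁) (betaC d ν + ε₁),
          FlowU b C η σ₀ (kk d (rho ν β)) (gg d (rho ν β) a) := by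
  obtain ⟨hbc, hno⟩ := no_dec hd hν hne
  have hd1 : 1 ≤ d := by omega
  have hd3 : (3 : ℝ) ≤ d := by exact_mod_cast hd
  have hGc : Good d κ M (rho ν (betaC d ν)) := hG _ ⟨by linarith, by linarith⟩
  have h1 := ap1 hd hν hne hκ hε hG
  have h2 := ap2 hd hκ hGc hno
  have hr := fun a => reg_kk hd1 hGc.1 a
  have hpos : ∀ σ : ℝ, 0 < σ → 0 < kk d (rho ν (betaC d ν)) σ := by
    intro σ hσ
    obtain ⟨τ, hτ, h⟩ := h2 σ
    exact ((Real.exp_pos _).trans_le h).trans_le ((hr 0).2.1 hσ (hσ.trans_le hτ) hτ)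
  have hfin : ∀ σ : ℝ, 0 < σ → OO d (rho ν (betaC d ν)) (q0 d) (Real.exp (-σ)) ≠ ⊤ := by
    intro σ hσ h
    have := hpos σ hσ
    simp [kk, Kr, KK, h] at this
  have hk : Tendsto (kk d (rho ν (betaC d ν))) atTop (𝓝 0) :=
    squeeze_zero' (Eventually.of_forall (hr 0).2.2.1) h1 (tendsto_rpow_neg_atTop (by norm_num))
  obtain ⟨b, C₀, hb, hC₀, Hb⟩ := b_crit hd hν hκ hε (by linarith) hG hfin hk
  obtain ⟨a₀, Hi⟩ := iface (M := M) hd hκ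
  obtain ⟨a₀', C₁, hC₁, Hf⟩ := fl_flow (M := M) hd hκ
  set a := a₁ + a₀ + a₀' with ha
  obtain ⟨C, hC, Hi⟩ := Hi a (by omega) b C₀ hb hC₀
  obtain ⟨σf, hσf, Hf⟩ := Hf a (by omega)
  have key : ∀ η : ℝ, 0 < η → ∃ σ₀ ε₁ : ℝ, 1 ≤ σ₀ ∧ 0 < ε₁ ∧ ε₁ ≤ ε₀ ∧
      FlowL (b * d / 2) C η σ₀ (kk d (rho ν (betaC d ν))) (gg d (rho ν (betaC d ν)) a) ∧
      ∀ β ∈ Set.Icc (betaC d ν - ε₁) (betaC d ν + ε₁),
        FlowU (b * d / 2) C η σ₀ (kk d (rho ν β)) (gg d (rho ν β) a) := by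
    intro η hη
    obtain ⟨η₁, hη₁, Hi⟩ := Hi η hη
    obtain ⟨D, σb, ε₁, hε₁, hε₁', Hup, Hlow⟩ := Hb η₁ hη₁
    obtain ⟨σ₀, k₀, hσ₀, hk₀, Hi⟩ := Hi D
    obtain ⟨σ₁, h3, h4, h5⟩ := ((hk.eventually (gt_mem_nhds hk₀)).and
      ((eventually_ge_atTop σ₀).and (eventually_ge_atTop σb))).exists
    have hσ₁ : 0 < σ₁ := by linarith
    have hq : 1 ≤ q0 d := by
      rw [q0]
      exact le_add_of_nonneg_right (by positivity)
    have hc : ContinuousAt (fun β => kk d (rho ν β) σ₁) (betaC d ν) := by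
      have c1 := OO_cont hd1 hν hq (Real.exp_pos (-σ₁))
        (Real.exp_lt_one_iff.2 (by linarith)) (hfin σ₁ hσ₁)
      refine ContinuousAt.comp (g := ENNReal.toReal) (ENNReal.continuousAt_toReal ?_) c1.inv
      intro h
      have := hpos σ₁ hσ₁
      rw [kk, Kr, h] at this
      simp at this
    obtain ⟨ε₂, hε₂, h6⟩ := Metric.eventually_nhds_iff.1 (hc.eventually (gt_mem_nhds h3))
    refine ⟨4 * d * σ₁, min ε₁ (ε₂ / 2), by nlinarith, by positivity,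
      (min_le_left _ _).trans hε₁', (Hi _ σ₁ hGc h4 h3.le).2 fun σ hσ => Hup σ (h5.trans hσ),
      fun β hβ => ?_⟩
    have m1 := min_le_left ε₁ (ε₂ / 2)
    have m2 := min_le_right ε₁ (ε₂ / 2)
    refine (Hi _ σ₁ (hG β ⟨by linarith [hβ.1], by linarith [hβ.2]⟩) h4 (h6 ?_).le).1
      fun σ hσ => Hlow β ⟨by linarith [hβ.1], by linarith [hβ.2]⟩ σ (h5.trans hσ)
    rw [Real.dist_eq, abs_lt]
    constructor <;> linarith [hβ.1, hβ.2]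
  have hb' : 0 < b * d / 2 := by positivity
  have hsm : ∀ᶠ σ in atTop, C₁ * kk d (rho ν (betaC d ν)) σ ^ 2 < 1 := by
    have := (hk.pow 2).const_mul C₁
    exact this.eventually (gt_mem_nhds (by simp))
  obtain ⟨σ₅, h5⟩ := eventually_atTop.1 (h1.and (hsm.and (eventually_ge_atTop σf)))
  obtain ⟨o1, o2⟩ := ode_crit hb' (hC.trans (le_max_left C C₁)) (hr a)
    (fun η hη => by
      obtain ⟨σ₀, ε₁, s1, s2, -, -, s3⟩ := key η hη
      exact ⟨σ₀, gcrit_flowU (hr a) (le_max_left _ _) (by linarith)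
        (s3 _ ⟨by linarith, by linarith⟩)⟩)
    (fun η hη => by
      obtain ⟨σ₀, ε₁, -, -, -, s3, -⟩ := key η hη
      exact ⟨σ₀, gcrit_flowL (hr a) (le_max_left _ _) s3⟩)
    ⟨σ₅, fun σ hσ he => by
      obtain ⟨s1, s2, s3⟩ := h5 σ hσ
      have hσ1 : 1 ≤ σ := hσf.trans s3
      have hk0 := (hr a).2.2.1 σ
      have s4 : gg d (rho ν (betaC d ν)) a σ ≤ C₁ * kk d (rho ν (betaC d ν)) σ ^ 2 :=
        not_lt.1 fun hlt => hno _ (Hf _ σ _ hGc s3 he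
          (s1.trans (Real.rpow_le_rpow_of_exponent_le hσ1 (by norm_num))) s2.le hlt.le le_rfl)
      refine s4.trans (mul_le_mul (le_max_right _ _) (le_add_of_nonneg_right (by positivity))
        (sq_nonneg _) (by linarith [le_max_left C C₁]))⟩ h1 h2
  refine ⟨a, b * d / 2, C, by omega, hb', hC, hfin, o1, o2, fun η hη => ?_⟩
  obtain ⟨σ₀, ε₁, s1, s2, s3, -, s4⟩ := key η hη
  exact ⟨σ₀, ε₁, s1, s2, s3, s4⟩

end Pool.Agent.Lib.MP_153faa_pr
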