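import Mathlib
import Pool.Agent.Lib.MP_153faa_pr.Core

/-!
Definitions for the comparison of the polymer with a disordered renewal process.
-/

set_option autoImplicit false

open MeasureTheory
open scoped ENNReal NNReal

namespace Pool.Agent.Lib.MP_153faa_pr.S0

/-- All boolean words of length `n`. -/
def LS : ℕ → Finset (List Bool)
  | 0 => {[]}
  | n + 1 => (LS n).image (List.cons true) ∪ (LS n).image (List.cons false)

/-- Uniform average over the words of length `n`. -/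
noncomputable def Ew (n : ℕ) (F : List Bool → ℝ≥0∞) : ℝ≥0∞ := 2⁻¹ ^ n * ∑ l ∈ LS n, F l

/-- The marks `1 + s` and `1 - s`. -/
noncomputable def mk (s : ℝ) (b : Bool) : ℝ≥0∞ := ENNReal.ofReal (if b then 1 + s else 1 - s)

/-- Pairing of two sequences. -/
noncomputable def pl (f g : ℕ → ℝ≥0∞) : ℝ≥0∞ := ∑' c, f c * g c

/-- Free partition function of the marked renewal whose next point is at time `c`; the weight of
a gap of length `c + 1` is `k c`. -/
noncomputable def Hp (k : ℕ → ℝ≥0∞) (s : ℝ) : List Bool → ℕ → ℝ≥0∞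
  | [], _ => 0
  | b :: l, 0 => mk s b * (1 + pl k (Hp k s l))
  | _ :: l, c + 1 => Hp k s l c

/-- Forward evolution of the weight of the next renewal point. -/
noncomputable def Fp (k : ℕ → ℝ≥0∞) (s : ℝ) : List Bool → (ℕ → ℝ≥0∞) → ℕ → ℝ≥0∞
  | [], f => f
  | b :: l, f => Fp k s l fun c => f (c + 1) + mk s b * f 0 * k c

/-- Expectation of the product of the marks along the renewal whose next point is at time `c`. -/
noncomputable def Mp (k : ℕ → ℝ≥0∞) (s : ℝ) : List Bool → ℕ → ℝ≥0∞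
  | [], _ => 1
  | b :: l, 0 => mk s b * pl k (Mp k s l)
  | _ :: l, c + 1 => Mp k s l c

/-- Probability of a renewal point at time `r` when the first point is at time `c`. -/
noncomputable def up (k : ℕ → ℝ≥0∞) : ℕ → ℕ → ℝ≥0∞
  | 0, c => if c = 0 then 1 else 0
  | r + 1, 0 => pl k (up k r)
  | r + 1, c + 1 => up k r c

/-- The renewal function as a real sequence. -/
noncomputable def ur (k : ℕ → ℝ≥0∞) (r : ℕ) : ℝ := (up k r 0).toReal

/-- Expected number of renewal points before time `n`. -/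
noncomputable def Uu (k : ℕ → ℝ≥0∞) (n : ℕ) : ℝ≥0∞ := ∑ a ∈ Finset.range n, up k a 0

/-- Truncated mean of the gap. -/
noncomputable def mu (k : ℕ → ℝ≥0∞) (L : ℕ) : ℝ≥0∞ := ∑' c, k c * (min (c + 1) L : ℕ)

/-- Probability that the indicator word of the renewal with first point `c` starts with `l`. -/
noncomputable def wp (k : ℕ → ℝ≥0∞) : List Bool → ℕ → ℝ≥0∞
  | [], _ => 1
  | b :: l, 0 => if b then pl k (wp k l) else 0
  | b :: l, c + 1 => if b then 0 else wp k l c

/-- Product of the marks of the second word over the positions selected by the first word. -/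
noncomputable def pr (s : ℝ) : List Bool → List Bool → ℝ≥0∞
  | i :: τ, b :: l => (if i then mk s b else 1) * pr s τ l
  | _, _ => 1

/-- Sign of a letter. -/
def sg (b : Bool) : ℝ := if b then 1 else -1

/-- Indicator of a letter. -/
def ind (b : Bool) : ℝ := if b then 1 else 0

/-- The two-body statistic of the marks. -/
noncomputable def Xs (u : ℕ → ℝ) (m n : ℕ) (l : List Bool) : ℝ :=
  ∑ a ∈ Finset.range n, ∑ r ∈ Finset.range m,
    u (r + 1) * sg (l.getD a false) * sg (l.getD (a + r + 1) false)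

/-- The two-body functional of the renewal set. -/
noncomputable def Ys (u : ℕ → ℝ) (m n : ℕ) (τ : List Bool) : ℝ :=
  ∑ a ∈ Finset.range n, ∑ r ∈ Finset.range m,
    u (r + 1) * ind (τ.getD a false) * ind (τ.getD (a + r + 1) false)

/-- Number of renewal points before time `n`. -/
def Ns (n : ℕ) (τ : List Bool) : ℕ := (τ.take n).count true

/-- Partial sums of squares. -/
noncomputable def Vs (u : ℕ → ℝ) (m : ℕ) : ℝ := ∑ r ∈ Finset.range m, u (r + 1) ^ 2

/-- Probability kernels with regular decay of order at least `3 / 2`. -/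
def Dk (K : ℕ → ℝ≥0∞) (C : ℝ) : Prop := 1 ≤ C ∧ ∑' c, K c = 1 ∧ ∀ c c' : ℕ, c ≤ c' →
  K c' ≤ ENNReal.ofReal (C * (((c : ℝ) + 1) / ((c' : ℝ) + 1)) ^ (3 / 2 : ℝ)) * K c

/-- Collision probabilities. -/
noncomputable def rr (d c : ℕ) : ℝ≥0∞ := nq 2 (avg^[c + 1] (dlt (0 : Site d)))

/-- One-site comparison of the size-biased law with a two-point law. -/
def Two (ρ : Measure ℝ≥0) (χ : ℝ≥0∞) (s θ : ℝ) : Prop := ∀ A B : ℝ≥0∞,
  ∫⁻ t, (t : ℝ≥0∞) * (A + B * t) ^ θ ∂ρ ≤
    2⁻¹ * ((A + B * (1 + χ * mk s true)) ^ θ + (A + B * (1 + χ * mk s false)) ^ θ)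

theorem mem_LS {n : ℕ} {l : List Bool} : l ∈ LS n ↔ l.length = n := by
  induction n generalizing l with
  | zero => simp [LS]
  | succ n ih =>
    cases l with
    | nil => simp [LS]
    | cons b l => cases b <;> simp [LS, ih]

theorem sum_LS_zero {M : Type*} [AddCommMonoid M] (F : List Bool → M) :
    ∑ l ∈ LS 0, F l = F [] := by simp [LS]

theorem sum_LS_succ {M : Type*} [AddCommMonoid M] (n : ℕ) (F : List Bool → M) :
    ∑ l ∈ LS (n + 1), F l = ∑ l ∈ LS n, F (true :: l) + ∑ l ∈ LS n, F (false :: l) := by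
  rw [LS, Finset.sum_union, Finset.sum_image, Finset.sum_image]
  · intro a _ b _ h; exact List.tail_eq_of_cons_eq h
  · intro a _ b _ h; exact List.tail_eq_of_cons_eq h
  · rw [Finset.disjoint_left]
    intro a ha hb
    obtain ⟨x, -, rfl⟩ := Finset.mem_image.1 ha
    obtain ⟨y, -, hy⟩ := Finset.mem_image.1 hb
    simp at hy

theorem sum_LS_add {M : Type*} [AddCommMonoid M] (m n : ℕ) (F : List Bool → M) :
    ∑ l ∈ LS (m + n), F l = ∑ l₁ ∈ LS m, ∑ l₂ ∈ LS n, F (l₁ ++ l₂) := by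
  induction m generalizing F with
  | zero => simp [LS]
  | succ m ih =>
    rw [show m + 1 + n = m + n + 1 by omega, sum_LS_succ, sum_LS_succ, ih, ih]
    simp

theorem sum_LS_ofFn {M : Type*} [AddCommMonoid M] (n : ℕ) (F : List Bool → M) :
    ∑ l ∈ LS n, F l = ∑ ε : Fin n → Bool, F (List.ofFn ε) := by
  symm
  refine Finset.sum_bij (fun ε _ => List.ofFn ε) ?_ ?_ ?_ ?_
  · intro ε _; simp [mem_LS]
  · intro a _ b _ h; exact List.ofFn_injective h
  · intro l hl
    have h := mem_LS.1 hl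
    subst h
    exact ⟨l.get, Finset.mem_univ _, List.ofFn_get l⟩
  · intro _ _; rfl

theorem card_LS (n : ℕ) : (LS n).card = 2 ^ n := by
  induction n with
  | zero => simp [LS]
  | succ n ih =>
    have h := sum_LS_succ n (fun _ => (1 : ℕ))
    simp only [Finset.sum_const, smul_eq_mul, mul_one] at h
    rw [h, ih]; ring

theorem Ew_zero (F : List Bool → ℝ≥0∞) : Ew 0 F = F [] := by simp [Ew, LS]

theorem Ew_succ (n : ℕ) (F : List Bool → ℝ≥0∞) :
    Ew (n + 1) F = 2⁻¹ * (Ew n (fun l => F (true :: l)) + Ew n fun l => F (false :: l)) := by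
  simp only [Ew, sum_LS_succ]; ring

theorem Ew_append (m n : ℕ) (F : List Bool → ℝ≥0∞) :
    Ew (m + n) F = Ew m fun l₁ => Ew n fun l₂ => F (l₁ ++ l₂) := by
  simp only [Ew, sum_LS_add, ← Finset.mul_sum]; ring

theorem Ew_mono {n : ℕ} {F G : List Bool → ℝ≥0∞} (h : ∀ l, l.length = n → F l ≤ G l) :
    Ew n F ≤ Ew n G := by
  unfold Ew
  gcongr with l hl
  exact h l (mem_LS.1 hl)

theorem Ew_congr {n : ℕ} {F G : List Bool → ℝ≥0∞} (h : ∀ l, l.length = n → F l = G l) :
    Ew n F = Ew n G :=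
  le_antisymm (Ew_mono fun l hl => (h l hl).le) (Ew_mono fun l hl => (h l hl).ge)

theorem Ew_add (n : ℕ) (F G : List Bool → ℝ≥0∞) :
    Ew n (fun l => F l + G l) = Ew n F + Ew n G := by
  simp only [Ew, Finset.sum_add_distrib]; ring

theorem Ew_const_mul (n : ℕ) (c : ℝ≥0∞) (F : List Bool → ℝ≥0∞) :
    Ew n (fun l => c * F l) = c * Ew n F := by
  simp only [Ew, ← Finset.mul_sum]; ring

theorem Ew_mul_const (n : ℕ) (c : ℝ≥0∞) (F : List Bool → ℝ≥0∞) :
    Ew n (fun l => F l * c) = Ew n F * c := by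
  simp only [Ew, ← Finset.sum_mul]; ring

theorem Ew_weight (n : ℕ) : (2⁻¹ : ℝ≥0∞) ^ n * 2 ^ n = 1 := by
  rw [← mul_pow, ENNReal.inv_mul_cancel (by norm_num) (by norm_num), one_pow]

theorem Ew_const (n : ℕ) (c : ℝ≥0∞) : Ew n (fun _ => c) = c := by
  simp only [Ew, Finset.sum_const, card_LS, nsmul_eq_mul]
  push_cast
  rw [← mul_assoc, Ew_weight, one_mul]

theorem Ew_tsum {ι : Type*} (n : ℕ) (F : ι → List Bool → ℝ≥0∞) :
    Ew n (fun l => ∑' i, F i l) = ∑' i, Ew n (F i) := by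
  simp only [Ew]
  rw [ENNReal.tsum_mul_left, Summable.tsum_finsetSum fun _ _ => ENNReal.summable]

theorem Ew_sum {ι : Type*} (n : ℕ) (S : Finset ι) (F : ι → List Bool → ℝ≥0∞) :
    Ew n (fun l => ∑ i ∈ S, F i l) = ∑ i ∈ S, Ew n (F i) := by
  simp only [Ew]
  rw [Finset.sum_comm, Finset.mul_sum]

theorem Ew_comm (m n : ℕ) (F : List Bool → List Bool → ℝ≥0∞) :
    Ew m (fun l₁ => Ew n fun l₂ => F l₁ l₂) = Ew n fun l₂ => Ew m fun l₁ => F l₁ l₂ := by
  simp only [Ew, Finset.mul_sum]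
  rw [Finset.sum_comm]
  refine Finset.sum_congr rfl fun _ _ => Finset.sum_congr rfl fun _ _ => by ring

/-- Jensen inequality for a concave power. -/
theorem Ew_rpow_le (n : ℕ) {θ : ℝ} (h0 : 0 < θ) (h1 : θ ≤ 1) (F : List Bool → ℝ≥0∞) :
    Ew n (fun l => F l ^ θ) ≤ Ew n F ^ θ := by
  have hw : ∑ _l ∈ LS n, (2⁻¹ : ℝ≥0∞) ^ n = 1 := by
    rw [Finset.sum_const, card_LS, nsmul_eq_mul]
    push_cast
    rw [mul_comm, Ew_weight]
  have hp : 1 ≤ 1 / θ := by rw [le_div_iff₀ h0]; linarith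
  have h := ENNReal.rpow_arith_mean_le_arith_mean_rpow (LS n) (fun _ => (2⁻¹ : ℝ≥0∞) ^ n)
    (fun l => F l ^ θ) hw hp
  have e : ∀ l, (F l ^ θ) ^ (1 / θ) = F l := fun l => by
    rw [← ENNReal.rpow_mul, mul_one_div_cancel h0.ne', ENNReal.rpow_one]
  simp only [e] at h
  have h2 := ENNReal.rpow_le_rpow h h0.le
  rw [← ENNReal.rpow_mul, one_div_mul_cancel h0.ne', ENNReal.rpow_one] at h2
  simpa only [Ew, Finset.mul_sum] using h2

theorem mk_avg {s : ℝ} (h0 : 0 ≤ s) (h1 : s ≤ 1) : 2⁻¹ * (mk s true + mk s false) = 1 := by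
  simp only [mk, if_true, Bool.false_eq_true, if_false]
  rw [← ENNReal.ofReal_add (by linarith) (by linarith),
    show 1 + s + (1 - s) = (2 : ℝ) by ring, ENNReal.ofReal_ofNat,
    ENNReal.inv_mul_cancel (by norm_num) (by norm_num)]

theorem mk_ne_top (s : ℝ) (b : Bool) : mk s b ≠ ⊤ := ENNReal.ofReal_ne_top

theorem Ns_eq (n : ℕ) (τ : List Bool) :
    (Ns n τ : ℝ) = ∑ a ∈ Finset.range n, ind (τ.getD a false) := by
  induction n generalizing τ with
  | zero => simp [Ns]
  | succ n ih =>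
    cases τ with
    | nil => simp [Ns, ind]
    | cons b τ =>
      rw [Finset.sum_range_succ']
      simp only [List.getD_cons_succ, List.getD_cons_zero, ← ih]
      cases b <;> simp [Ns, ind]

theorem gsum_eq (d : ℕ) : gsum d = ∑' c, rr d c := rfl

end Pool.Agent.Lib.MP_153faa_pr.S0
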