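import Mathlib
import Pool.Agent.Lib.MP_153faa_pr.S0Defs

set_option autoImplicit false

open MeasureTheory
open scoped ENNReal NNReal

namespace Pool.Agent.Lib.MP_153faa_pr.S0

theorem s0ch_nil (s : ℝ) (l : List Bool) : pr s [] l = 1 := by cases l <;> rfl

theorem s0ch_nil' (s : ℝ) (τ : List Bool) : pr s τ [] = 1 := by cases τ <;> rfl

theorem s0ch_cons (s : ℝ) (τ : List Bool) (b : Bool) (l : List Bool) :
    pr s τ (b :: l) = (if τ.getD 0 false then mk s b else 1) * pr s τ.tail l := by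
  cases τ with
  | nil => simp [s0ch_nil]
  | cons i τ => rfl

theorem pr_ne_top (s : ℝ) (τ l : List Bool) : pr s τ l ≠ ⊤ := by
  induction l generalizing τ with
  | nil => rw [s0ch_nil']; exact ENNReal.one_ne_top
  | cons b l ih =>
    rw [s0ch_cons]
    refine ENNReal.mul_ne_top ?_ (ih _)
    split_ifs
    exacts [mk_ne_top s b, ENNReal.one_ne_top]

theorem Ew_pr {s : ℝ} (h0 : 0 ≤ s) (h1 : s ≤ 1) (n : ℕ) (τ : List Bool) :
    Ew n (fun l => pr s τ l) = 1 := by
  induction n generalizing τ with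
  | zero => rw [Ew_zero, s0ch_nil']
  | succ n ih =>
    simp only [Ew_succ, s0ch_cons, Ew_const_mul, ih, mul_one]
    split_ifs
    · exact mk_avg h0 h1
    · rw [one_add_one_eq_two, ENNReal.inv_mul_cancel (by norm_num) (by norm_num)]

/-- Real weights of a letter. -/
noncomputable def s0chW (s : ℝ) (i b : Bool) : ℝ := if i then (if b then 1 + s else 1 - s) else 1

/-- Expectation under the tilted law. -/
noncomputable def s0chE (s : ℝ) (N : ℕ) (τ : List Bool) (F : List Bool → ℝ) : ℝ :=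
  2⁻¹ ^ N * ∑ l ∈ LS N, (pr s τ l).toReal * F l

/-- `F` does not depend on the letter `j`. -/
def s0chN (j : ℕ) (F : List Bool → ℝ) : Prop := ∀ l b, F (l.set j b) = F l

/-- The centred letter. -/
noncomputable def s0chZ (s : ℝ) (τ : List Bool) (j : ℕ) (l : List Bool) : ℝ :=
  sg (l.getD j false) - s * ind (τ.getD j false)

variable {s : ℝ} {N : ℕ} {τ : List Bool}

theorem s0chE_succ (h0 : 0 ≤ s) (h1 : s ≤ 1) (F : List Bool → ℝ) :
    s0chE s (N + 1) τ F = 2⁻¹ * (s0chW s (τ.getD 0 false) true *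
      s0chE s N τ.tail (fun l => F (true :: l)) + s0chW s (τ.getD 0 false) false *
      s0chE s N τ.tail (fun l => F (false :: l))) := by
  have e : ∀ i b : Bool, (if i then mk s b else 1 : ℝ≥0∞).toReal = s0chW s i b := fun i b => by
    cases i
    · simp [s0chW]
    · simp only [s0chW, mk, if_true]
      exact ENNReal.toReal_ofReal (by split_ifs <;> linarith)
  simp only [s0chE, sum_LS_succ, s0ch_cons, ENNReal.toReal_mul, e, mul_assoc, ← Finset.mul_sum]
  ring

theorem s0chE_mono {F G : List Bool → ℝ} (h : ∀ l, F l ≤ G l) :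
    s0chE s N τ F ≤ s0chE s N τ G := by
  unfold s0chE
  gcongr with l _
  exact h l

theorem s0chE_add (F G : List Bool → ℝ) :
    s0chE s N τ (fun l => F l + G l) = s0chE s N τ F + s0chE s N τ G := by
  simp only [s0chE, mul_add, Finset.sum_add_distrib]

theorem s0chE_mul (c : ℝ) (F : List Bool → ℝ) :
    s0chE s N τ (fun l => c * F l) = c * s0chE s N τ F := by
  simp only [s0chE, Finset.mul_sum]
  exact Finset.sum_congr rfl fun _ _ => by ring

theorem s0chE_sum (S : Finset ℕ) (F : ℕ → List Bool → ℝ) :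
    s0chE s N τ (fun l => ∑ i ∈ S, F i l) = ∑ i ∈ S, s0chE s N τ (F i) := by
  simp only [s0chE, Finset.mul_sum]
  exact Finset.sum_comm

theorem s0chE_const (h0 : 0 ≤ s) (h1 : s ≤ 1) (c : ℝ) : s0chE s N τ (fun _ => c) = c := by
  induction N generalizing τ with
  | zero => simp [s0chE, LS, s0ch_nil']
  | succ N ih =>
    simp only [s0chE_succ h0 h1, ih]
    cases τ.getD 0 false <;> simp [s0chW] <;> ring

theorem s0ch_ind (h0 : 0 ≤ s) (h1 : s ≤ 1) (g : Bool → ℝ) {j : ℕ} {F : List Bool → ℝ}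
    (hj : j < N) (hF : s0chN j F) : s0chE s N τ (fun l => g (l.getD j false) * F l) =
      2⁻¹ * (s0chW s (τ.getD j false) true * g true + s0chW s (τ.getD j false) false * g false) *
        s0chE s N τ F := by
  induction j generalizing N τ F with
  | zero =>
    obtain ⟨N, rfl⟩ := Nat.exists_eq_succ_of_ne_zero hj.ne'
    have e : (fun l => F (false :: l)) = fun l => F (true :: l) :=
      funext fun l => hF (true :: l) false
    simp only [s0chE_succ h0 h1, List.getD_cons_zero, s0chE_mul, e]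
    cases τ.getD 0 false <;> simp only [s0chW] <;> simp <;> ring
  | succ j ih =>
    obtain ⟨N, rfl⟩ := Nat.exists_eq_succ_of_ne_zero (by omega : N ≠ 0)
    have e : τ.tail.getD j false = τ.getD (j + 1) false := by cases τ <;> simp
    have hb : ∀ b, s0chN j fun l => F (b :: l) := fun b l c => hF (b :: l) c
    simp only [s0chE_succ h0 h1, List.getD_cons_succ, ih (by omega : j < N) (hb _), e]
    ring

theorem s0chN_Z {j a : ℕ} (h : j ≠ a) : s0chN j (s0chZ s τ a) := fun l b => by
  simp only [s0chZ, List.getD_eq_getElem?_getD, List.getElem?_set_ne h]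

/-- Orthogonality of the increments. -/
theorem s0ch_orth (h0 : 0 ≤ s) (h1 : s ≤ 1) (k t : ℕ) (P : ℕ → List Bool → ℝ) (hk : k + t ≤ N)
    (hP : ∀ a a', a ≤ a' → s0chN (a + t) (P a')) :
    s0chE s N τ (fun l => (∑ a ∈ Finset.range k, s0chZ s τ (a + t) l * P a l) ^ 2) ≤
      ∑ a ∈ Finset.range k, s0chE s N τ (fun l => P a l ^ 2) := by
  induction k generalizing t P with
  | zero => simp [s0chE]
  | succ k ih =>
    have IH := ih (t + 1) (fun a => P (a + 1)) (by omega) fun a a' h => by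
      rw [show a + (t + 1) = a + 1 + t by omega]; exact hP _ _ (by omega)
    set S : List Bool → ℝ := fun l => ∑ a ∈ Finset.range k, s0chZ s τ (a + (t + 1)) l * P (a + 1) l
      with hS
    have p0 : ∀ a, s0chN t (P a) := fun a => by simpa using hP 0 a a.zero_le
    have n1 : s0chN t fun l => 2 * (P 0 l * S l) := fun l b => by
      simp only [hS, p0 _ l b]
      rw [Finset.sum_congr rfl fun a _ => by rw [s0chN_Z (by omega : t ≠ a + (t + 1)) l b]]
    have n2 : s0chN t fun l => P 0 l ^ 2 := fun l b => by simp only [p0 _ l b]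
    have e1 := s0ch_ind (τ := τ) h0 h1 (fun b => sg b - s * ind (τ.getD t false))
      (by omega : t < N) n1
    have e2 := s0ch_ind (τ := τ) h0 h1 (fun b => (sg b - s * ind (τ.getD t false)) ^ 2)
      (by omega : t < N) n2
    have p : 0 ≤ s0chE s N τ fun l => P 0 l ^ 2 :=
      (s0chE_const h0 h1 0).ge.trans (s0chE_mono fun _ => sq_nonneg _)
    have c1 : ∀ i : Bool, s0chW s i true * (sg true - s * ind i) +
        s0chW s i false * (sg false - s * ind i) = 0 := fun i => by
      cases i <;> simp [s0chW, sg, ind]; ring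
    have c2 : ∀ i : Bool, 2⁻¹ * (s0chW s i true * (sg true - s * ind i) ^ 2 +
        s0chW s i false * (sg false - s * ind i) ^ 2) ≤ 1 := fun i => by
      cases i <;> simp [s0chW, sg, ind] <;> nlinarith [sq_nonneg s]
    rw [c1, mul_zero, zero_mul] at e1
    have e : (fun l => (∑ a ∈ Finset.range (k + 1), s0chZ s τ (a + t) l * P a l) ^ 2) = fun l =>
        S l ^ 2 + ((sg (l.getD t false) - s * ind (τ.getD t false)) * (2 * (P 0 l * S l)) +
          (sg (l.getD t false) - s * ind (τ.getD t false)) ^ 2 * P 0 l ^ 2) := funext fun l => by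
      rw [Finset.sum_range_succ', zero_add, hS]
      simp only [add_assoc, add_comm 1 t, s0chZ]
      ring
    rw [e, s0chE_add, s0chE_add, e1, e2, Finset.sum_range_succ', zero_add]
    exact add_le_add IH (mul_le_of_le_one_left p (c2 _))

theorem s0ch_lin (h0 : 0 ≤ s) (h1 : s ≤ 1) (k t : ℕ) (c : ℕ → ℝ) (hk : k + t ≤ N) :
    s0chE s N τ (fun l => (∑ a ∈ Finset.range k, s0chZ s τ (a + t) l * c a) ^ 2) ≤
      ∑ a ∈ Finset.range k, c a ^ 2 := by
  simpa only [s0chE_const h0 h1] using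
    s0ch_orth (τ := τ) h0 h1 k t (fun a _ => c a) hk fun _ _ _ _ _ => rfl

theorem s0ch_Ns (h0 : 0 ≤ s) (h1 : s ≤ 1) {v : ℝ} (v0 : 0 ≤ v) (v1 : v ≤ 1) {k t : ℕ}
    (hk : k + t ≤ N) : ∑ a ∈ Finset.range k, (s * v * ind (τ.getD (a + t) false)) ^ 2 ≤ Ns N τ := by
  have i0 : ∀ b, 0 ≤ ind b := fun b => by cases b <;> simp [ind]
  have : s * v ≤ 1 := mul_le_one₀ h1 v0 v1
  have := mul_nonneg h0 v0
  rw [Ns_eq]
  calc _ ≤ ∑ a ∈ Finset.range k, ind (τ.getD (a + t) false) := Finset.sum_le_sum fun a _ => by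
        cases τ.getD (a + t) false
        · simp [ind]
        · simp only [ind, if_true]; nlinarith
    _ = ∑ a ∈ Finset.Ico (0 + t) (k + t), ind (τ.getD a false) := by
        rw [Finset.range_eq_Ico, Finset.sum_Ico_add' fun a => ind (τ.getD a false)]
    _ ≤ _ := Finset.sum_le_sum_of_subset_of_nonneg (fun a h => by
        rw [Finset.mem_Ico] at h; rw [Finset.mem_range]; omega) fun _ _ _ => i0 _

/-- Second moment of the two-body statistic under the tilted law. -/
theorem s0_cheb {s : ℝ} (h0 : 0 ≤ s) (h1 : s ≤ 1) {u : ℕ → ℝ} (hu0 : ∀ r, 0 ≤ u r)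
    (hu1 : ∀ r, u r ≤ 1) (m n : ℕ) (τ : List Bool) (hτ : τ.length = n + m) :
    (2⁻¹ : ℝ) ^ (n + m) * ∑ l ∈ LS (n + m),
      (pr s τ l).toReal * (Xs u m n l - s ^ 2 * Ys u m n τ) ^ 2 ≤
      2 * n * Vs u m + 16 * (m : ℝ) ^ 3 * Ns (n + m) τ := by
  set P : ℕ → List Bool → ℝ := fun a l =>
    ∑ r ∈ Finset.range m, s0chZ s τ (r + (a + 1)) l * u (r + 1) with hP
  set A : ℕ → List Bool → ℝ := fun r l => ∑ a ∈ Finset.range n,
    s0chZ s τ (a + 0) l * (s * u (r + 1) * ind (τ.getD (a + (r + 1)) false)) with hA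
  set B : ℕ → List Bool → ℝ := fun r l => ∑ a ∈ Finset.range n,
    s0chZ s τ (a + (r + 1)) l * (s * u (r + 1) * ind (τ.getD (a + 0) false)) with hB
  have e : ∀ l, Xs u m n l - s ^ 2 * Ys u m n τ = ∑ a ∈ Finset.range n,
      s0chZ s τ (a + 0) l * P a l + ∑ r ∈ Finset.range m, (A r l + B r l) := fun l => by
    simp only [hP, hA, hB, Xs, Ys, Finset.mul_sum, ← Finset.sum_add_distrib]
    rw [Finset.sum_comm (s := Finset.range m), ← Finset.sum_add_distrib, ← Finset.sum_sub_distrib]
    refine Finset.sum_congr rfl fun a _ => ?_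
    rw [← Finset.sum_add_distrib, ← Finset.sum_sub_distrib]
    refine Finset.sum_congr rfl fun r _ => ?_
    rw [show r + (a + 1) = a + r + 1 by omega, ← add_assoc, add_zero]
    simp only [s0chZ]
    ring
  have b0 := (s0ch_orth (N := n + m) (τ := τ) h0 h1 n 0 P (by omega) fun a a' h l b => by
    simp only [hP]
    exact Finset.sum_congr rfl fun r _ => by
      rw [s0chN_Z (by omega : a + 0 ≠ r + (a' + 1)) l b]).trans
    (Finset.sum_le_sum fun a ha => s0ch_lin h0 h1 m (a + 1) (fun r => u (r + 1)) (by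
      rw [Finset.mem_range] at ha; omega))
  have b1 : ∀ r ∈ Finset.range m, s0chE s (n + m) τ (fun l => 2 * A r l ^ 2 + 2 * B r l ^ 2) ≤
      4 * Ns (n + m) τ := fun r hr => by
    rw [Finset.mem_range] at hr
    have a1 := (s0ch_lin (N := n + m) (τ := τ) h0 h1 n 0 _ (by omega)).trans
      (s0ch_Ns (N := n + m) (τ := τ) h0 h1 (hu0 (r + 1)) (hu1 _) (by omega : n + (r + 1) ≤ _))
    have a2 := (s0ch_lin (N := n + m) (τ := τ) h0 h1 n (r + 1) _ (by omega)).trans
      (s0ch_Ns (N := n + m) (τ := τ) h0 h1 (hu0 (r + 1)) (hu1 _) (by omega : n + 0 ≤ _))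
    rw [s0chE_add, s0chE_mul, s0chE_mul]
    simp only [hA, hB]
    linarith
  have b2 := Finset.sum_le_sum b1
  rw [Finset.sum_const, Finset.card_range, nsmul_eq_mul] at b0 b2
  rw [← s0chE_sum] at b2
  have key : s0chE s (n + m) τ (fun l => (Xs u m n l - s ^ 2 * Ys u m n τ) ^ 2) ≤
      s0chE s (n + m) τ fun l => 2 * (∑ a ∈ Finset.range n, s0chZ s τ (a + 0) l * P a l) ^ 2 +
        2 * m * ∑ r ∈ Finset.range m, (2 * A r l ^ 2 + 2 * B r l ^ 2) := s0chE_mono fun l => by
    have c1 := sq_sum_le_card_mul_sum_sq (s := Finset.range m) (f := fun r => A r l + B r l)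
    have c2 : ∑ r ∈ Finset.range m, (A r l + B r l) ^ 2 ≤
        ∑ r ∈ Finset.range m, (2 * A r l ^ 2 + 2 * B r l ^ 2) :=
      Finset.sum_le_sum fun r _ => by nlinarith [sq_nonneg (A r l - B r l)]
    rw [Finset.card_range] at c1
    have c3 := c1.trans (mul_le_mul_of_nonneg_left c2 m.cast_nonneg)
    rw [e]
    nlinarith [sq_nonneg (∑ a ∈ Finset.range n, s0chZ s τ (a + 0) l * P a l -
      ∑ r ∈ Finset.range m, (A r l + B r l))]
  rw [s0chE_add, s0chE_mul, s0chE_mul] at key
  refine key.trans ?_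
  have m0 : (0 : ℝ) ≤ m := m.cast_nonneg
  have m1 : (m : ℝ) ^ 2 ≤ (m : ℝ) ^ 3 := by
    rcases m.eq_zero_or_pos with h | h
    · simp [h]
    · exact pow_le_pow_right₀ (by exact_mod_cast h) (by norm_num)
  have n0 : (0 : ℝ) ≤ Ns (n + m) τ := Nat.cast_nonneg _
  have b3 := mul_le_mul_of_nonneg_left b2 m0
  have b4 := mul_le_mul_of_nonneg_right m1 n0
  have b5 := mul_nonneg (pow_nonneg m0 3) n0
  unfold Vs
  nlinarith

/-- Second moment of the two-body statistic under the uniform law. -/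
theorem s0_null {u : ℕ → ℝ} (hu0 : ∀ r, 0 ≤ u r) (hu1 : ∀ r, u r ≤ 1) (m n : ℕ) :
    (2⁻¹ : ℝ) ^ (n + m) * ∑ l ∈ LS (n + m), Xs u m n l ^ 2 ≤ 2 * n * Vs u m := by
  have h := s0_cheb le_rfl zero_le_one hu0 hu1 m n (List.replicate (n + m) false) (by simp)
  have e : ∀ τ l, pr 0 τ l = 1 := fun τ l => by
    induction l generalizing τ with
    | nil => exact s0ch_nil' _ _
    | cons b l ih => rw [s0ch_cons, ih]; simp [mk]
  have z : Ns (n + m) (List.replicate (n + m) false) = 0 := by simp [Ns, List.count_replicate]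
  simpa [e, z] using h

end Pool.Agent.Lib.MP_153faa_pr.S0
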