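import Mathlib
import Pool.Agent.Lib.MP_153faa_pr.S0Defs

set_option autoImplicit false

open MeasureTheory
open scoped ENNReal NNReal

namespace Pool.Agent.Lib.MP_153faa_pr.S0

variable {K : ℕ → ℝ≥0∞} {C : ℝ}

theorem up_eq (r c : ℕ) : up K r c = if c ≤ r then up K (r - c) 0 else 0 := by
  induction r generalizing c with
  | zero => cases c <;> simp [up]
  | succ r ih =>
    cases c with
    | zero => simp
    | succ c =>
      rw [up, ih]
      simp

theorem up_le_one (hK : ∑' c, K c = 1) (r c : ℕ) : up K r c ≤ 1 := by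
  induction r generalizing c with
  | zero =>
    rw [up]
    split_ifs <;> simp
  | succ r ih =>
    cases c with
    | zero =>
      rw [up, pl, ← hK]
      exact ENNReal.tsum_le_tsum fun c => mul_le_of_le_one_right' (ih c)
    | succ c =>
      rw [up]
      exact ih c

theorem ur_nonneg (r : ℕ) : 0 ≤ ur K r := ENNReal.toReal_nonneg

theorem ur_le_one (hK : ∑' c, K c = 1) (r : ℕ) : ur K r ≤ 1 := by
  have := ENNReal.toReal_mono ENNReal.one_ne_top (up_le_one hK r 0)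
  simpa [ur] using this

theorem s0ren_succ_succ (n c : ℕ) :
    ∑ a ∈ Finset.range (n + 1), up K a (c + 1) = ∑ a ∈ Finset.range n, up K a c := by
  rw [Finset.sum_range_succ']
  simp [up]

theorem s0ren_succ_zero (n : ℕ) :
    ∑ a ∈ Finset.range (n + 1), up K a 0 =
      ∑' c, K c * (∑ a ∈ Finset.range n, up K a c) + 1 := by
  rw [Finset.sum_range_succ']
  simp only [up, pl, if_true, Finset.mul_sum]
  rw [Summable.tsum_finsetSum fun _ _ => ENNReal.summable]

theorem s0ren_Uu_mono {n n' : ℕ} (h : n ≤ n') : Uu K n ≤ Uu K n' :=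
  Finset.sum_le_sum_of_subset (Finset.range_mono h)

theorem sum_up_le (n c : ℕ) : ∑ a ∈ Finset.range n, up K a c ≤ Uu K n := by
  induction c generalizing n with
  | zero => exact le_rfl
  | succ c ih =>
    cases n with
    | zero => simp
    | succ n =>
      rw [s0ren_succ_succ]
      exact (ih n).trans (s0ren_Uu_mono (Nat.le_succ n))

theorem Uu_le (hK : ∑' c, K c = 1) (n : ℕ) : Uu K n ≤ n := by
  have := Finset.sum_le_sum (s := Finset.range n) fun a _ => up_le_one hK a 0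
  simpa [Uu] using this

theorem s0ren_const (hK : ∑' c, K c = 1) (x : ℝ≥0∞) : ∑' c, K c * x = x := by
  rw [ENNReal.tsum_mul_right, hK, one_mul]

theorem mu_le_self (hK : ∑' c, K c = 1) (L : ℕ) : mu K L ≤ L := by
  rw [← s0ren_const hK (L : ℝ≥0∞), mu]
  refine ENNReal.tsum_le_tsum fun c => ?_
  gcongr
  exact min_le_right _ _

theorem s0ren_step (n L : ℕ) :
    (∑ a ∈ Finset.range (n + 1), up K a 0) * mu K L =
      ∑' c, K c * ((∑ a ∈ Finset.range n, up K a c) * mu K L + (min (c + 1) L : ℕ)) := by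
  rw [s0ren_succ_zero, add_mul, one_mul, ← ENNReal.tsum_mul_right]
  simp only [mul_add, ENNReal.tsum_add, mul_assoc]
  rfl

theorem s0ren_lower (hK : ∑' c, K c = 1) (L n : ℕ) (hn : n ≤ L) (c : ℕ) :
    ((n - c : ℕ) : ℝ≥0∞) ≤ (∑ a ∈ Finset.range n, up K a c) * mu K L := by
  induction n generalizing c with
  | zero => simp
  | succ n ih =>
    cases c with
    | succ c =>
      rw [s0ren_succ_succ, Nat.add_sub_add_right]
      exact ih (by omega) c
    | zero =>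
      rw [s0ren_step, ← s0ren_const hK ((n + 1 - 0 : ℕ) : ℝ≥0∞)]
      refine ENNReal.tsum_le_tsum fun c => ?_
      gcongr
      refine le_trans ?_ (add_le_add (ih (by omega) c) le_rfl)
      rw [← Nat.cast_add, Nat.cast_le]
      omega

theorem le_Uu_mul_mu (hK : ∑' c, K c = 1) (L : ℕ) : (L : ℝ≥0∞) ≤ Uu K L * mu K L := by
  simpa [Uu] using s0ren_lower hK L L le_rfl 0

theorem s0ren_upper (hK : ∑' c, K c = 1) (L n c : ℕ) :
    (∑ a ∈ Finset.range n, up K a c) * mu K L ≤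
      ((if c < n then n - c + L else 0 : ℕ) : ℝ≥0∞) := by
  induction n generalizing c with
  | zero => simp
  | succ n ih =>
    cases c with
    | succ c =>
      rw [s0ren_succ_succ, Nat.add_sub_add_right]
      simpa only [Nat.add_lt_add_iff_right] using ih c
    | zero =>
      rw [s0ren_step, ← s0ren_const hK ((if 0 < n + 1 then n + 1 - 0 + L else 0 : ℕ) : ℝ≥0∞)]
      refine ENNReal.tsum_le_tsum fun c => ?_
      gcongr
      refine le_trans (add_le_add (ih c) le_rfl) ?_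
      rw [← Nat.cast_add, Nat.cast_le]
      split_ifs <;> omega

theorem Uu_mul_mu_le (hK : ∑' c, K c = 1) (n L : ℕ) : Uu K n * mu K L ≤ n + L := by
  refine (s0ren_upper hK L n 0).trans ?_
  rw [← Nat.cast_add, Nat.cast_le]
  split_ifs <;> omega

theorem s0ren_rpow (x : ℝ) (hx : 0 ≤ x) : x ^ (3 / 2 : ℝ) = x * √x := by
  rw [Real.sqrt_eq_rpow, show (3 / 2 : ℝ) = 1 + 1 / 2 by norm_num,
    Real.rpow_add' hx (by norm_num), Real.rpow_one]

/-- Tail estimate. -/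
theorem Uu_mul_K_le (h : Dk K C) {k c : ℕ} (hk : 1 ≤ k) (hc : k ≤ c + 1) :
    Uu K (2 * k) * K c ≤ ENNReal.ofReal (3 * C * √k * ((c : ℝ) + 1) ^ (-(3 / 2) : ℝ)) := by
  obtain ⟨hC, hK, hD⟩ := h
  set w : ℝ := C * √k * ((c : ℝ) + 1) ^ (-(3 / 2) : ℝ) with hw
  have hw0 : 0 ≤ w := by positivity
  have h1 : ∀ j ∈ Finset.range k, K c ≤ ENNReal.ofReal w * (K j * (min (j + 1) k : ℕ)) := by
    intro j hj
    have hj' := Finset.mem_range.1 hj
    refine (hD j c (by omega)).trans ?_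
    rw [min_eq_left (by omega), mul_comm (K j), ← mul_assoc]
    gcongr
    rw [← ENNReal.ofReal_natCast, ← ENNReal.ofReal_mul hw0]
    refine ENNReal.ofReal_le_ofReal ?_
    rw [Real.div_rpow (by positivity) (by positivity), s0ren_rpow _ (by positivity), hw,
      Real.rpow_neg (by positivity)]
    push_cast
    have h2 : √((j : ℝ) + 1) ≤ √k := Real.sqrt_le_sqrt (by exact_mod_cast hj')
    calc C * (((j : ℝ) + 1) * √((j : ℝ) + 1) / ((c : ℝ) + 1) ^ (3 / 2 : ℝ))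
        ≤ C * (((j : ℝ) + 1) * √k / ((c : ℝ) + 1) ^ (3 / 2 : ℝ)) := by gcongr
      _ = _ := by ring
  have h2 : (k : ℝ≥0∞) * K c ≤ ENNReal.ofReal w * mu K k := by
    have h3 := Finset.sum_le_sum h1
    rw [Finset.sum_const, Finset.card_range, nsmul_eq_mul, ← Finset.mul_sum] at h3
    refine h3.trans ?_
    gcongr
    exact ENNReal.sum_le_tsum _
  have h3 := Uu_mul_mu_le hK (2 * k) k
  have hk0 : (k : ℝ≥0∞) ≠ 0 := by exact_mod_cast (by omega : k ≠ 0)
  have h4 : (k : ℝ≥0∞) * (Uu K (2 * k) * K c) ≤ k * (3 * ENNReal.ofReal w) :=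
    calc (k : ℝ≥0∞) * (Uu K (2 * k) * K c) = Uu K (2 * k) * (k * K c) := by ring
      _ ≤ Uu K (2 * k) * (ENNReal.ofReal w * mu K k) := by gcongr
      _ = ENNReal.ofReal w * (Uu K (2 * k) * mu K k) := by ring
      _ ≤ ENNReal.ofReal w * ((2 * k : ℕ) + k) := by gcongr
      _ = _ := by
        push_cast
        ring
  have h5 := (ENNReal.mul_le_mul_iff_right hk0 (ENNReal.natCast_ne_top k)).1 h4
  refine h5.trans (le_of_eq ?_)
  rw [← ENNReal.ofReal_ofNat 3, ← ENNReal.ofReal_mul (by norm_num)]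
  congr 1
  rw [hw]
  ring

theorem s0ren_sum (L : ℕ) (hL : 1 ≤ L) (N : ℕ) :
    ∑ c ∈ Finset.range N, ((min (c + 1) L : ℕ) : ℝ) / (((c : ℝ) + 1) * √((c : ℝ) + 1)) ≤
      if N ≤ L then 2 * √N else 4 * √L - 2 * L / √N := by
  induction N with
  | zero => simp
  | succ N ih =>
    rw [Finset.sum_range_succ]
    have ht : 0 < √((N : ℝ) + 1) := Real.sqrt_pos.2 (by positivity)
    have ht2 : √((N : ℝ) + 1) * √((N : ℝ) + 1) = N + 1 := Real.mul_self_sqrt (by positivity)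
    have hs2 : √(N : ℝ) * √(N : ℝ) = N := Real.mul_self_sqrt (by positivity)
    have hs0 : 0 ≤ √(N : ℝ) := Real.sqrt_nonneg _
    have hst : √(N : ℝ) ≤ √((N : ℝ) + 1) := Real.sqrt_le_sqrt (by linarith)
    by_cases h1 : N + 1 ≤ L
    · rw [if_pos (by omega)] at ih
      rw [if_pos h1, min_eq_left h1, Nat.cast_succ N]
      have : ((N : ℝ) + 1) / (((N : ℝ) + 1) * √((N : ℝ) + 1)) ≤
          2 * √((N : ℝ) + 1) - 2 * √(N : ℝ) := by
        rw [div_mul_cancel_left₀ (by positivity), inv_le_iff_one_le_mul₀ ht]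
        nlinarith [sq_nonneg (√((N : ℝ) + 1) - √(N : ℝ))]
      linarith
    · have hN : L ≤ N := by omega
      have hN1 : (1 : ℝ) ≤ N := by exact_mod_cast (by omega : 1 ≤ N)
      have hs : 0 < √(N : ℝ) := Real.sqrt_pos.2 (by linarith)
      have ih' : ∑ c ∈ Finset.range N, ((min (c + 1) L : ℕ) : ℝ) /
          (((c : ℝ) + 1) * √((c : ℝ) + 1)) ≤ 4 * √L - 2 * L / √N := by
        split_ifs at ih with h2
        · obtain rfl : N = L := by omega
          have : 2 * (N : ℝ) / √N = 2 * √N := by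
            rw [div_eq_iff hs.ne']
            linarith
          linarith
        · exact ih
      rw [if_neg h1, min_eq_right (by omega), Nat.cast_succ N]
      have e : 1 / (((N : ℝ) + 1) * √((N : ℝ) + 1)) ≤ 2 / √(N : ℝ) - 2 / √((N : ℝ) + 1) := by
        set s := √(N : ℝ)
        set t := √((N : ℝ) + 1)
        rw [← ht2, div_sub_div _ _ hs.ne' ht.ne', div_le_div_iff₀ (by positivity) (by positivity)]
        have h3 : 1 ≤ 2 * (t - s) * t := by nlinarith [sq_nonneg (t - s)]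
        have h4 : s * t ≤ t * t := by gcongr
        calc 1 * (s * t) ≤ (2 * (t - s) * t) * (t * t) := by gcongr
          _ = _ := by ring
      have hL0 : (0 : ℝ) ≤ L := by positivity
      have e2 := mul_le_mul_of_nonneg_left e hL0
      have e3 : (L : ℝ) * (1 / (((N : ℝ) + 1) * √((N : ℝ) + 1))) =
          L / (((N : ℝ) + 1) * √((N : ℝ) + 1)) := by ring
      have e4 : (L : ℝ) * (2 / √(N : ℝ) - 2 / √((N : ℝ) + 1)) =
          2 * L / √N - 2 * L / √((N : ℝ) + 1) := by ring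
      linarith

theorem s0ren_mu_le (h : Dk K C) (L : ℕ) (hL : 1 ≤ L) : (mu K L).toReal ≤ 4 * C * √L := by
  obtain ⟨hC, hK, hD⟩ := h
  refine ENNReal.toReal_le_of_le_ofReal (by positivity) ?_
  rw [mu]
  refine ENNReal.tsum_le_of_sum_range_le fun N => ?_
  have hK0 : K 0 ≤ 1 := hK ▸ ENNReal.le_tsum 0
  have h1 : ∀ c ∈ Finset.range N, K c * (min (c + 1) L : ℕ) ≤
      ENNReal.ofReal (C * (((min (c + 1) L : ℕ) : ℝ) / (((c : ℝ) + 1) * √((c : ℝ) + 1)))) := by
    intro c _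
    have h2 : K c ≤ ENNReal.ofReal (C * (1 / (((c : ℝ) + 1) * √((c : ℝ) + 1)))) := by
      refine (hD 0 c (Nat.zero_le c)).trans ((mul_le_of_le_one_right' hK0).trans (le_of_eq ?_))
      rw [Real.div_rpow (by positivity) (by positivity), s0ren_rpow ((c : ℝ) + 1) (by positivity)]
      simp
    refine (mul_le_mul_left h2 _).trans (le_of_eq ?_)
    rw [← ENNReal.ofReal_natCast, ← ENNReal.ofReal_mul (by positivity)]
    congr 1
    ring
  refine (Finset.sum_le_sum h1).trans ?_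
  rw [← ENNReal.ofReal_sum_of_nonneg fun c _ => by positivity, ← Finset.mul_sum]
  refine ENNReal.ofReal_le_ofReal ?_
  have h3 := s0ren_sum L hL N
  have h4 : (if N ≤ L then 2 * √(N : ℝ) else 4 * √L - 2 * L / √N) ≤ 4 * √(L : ℝ) := by
    split_ifs with h5
    · have : √(N : ℝ) ≤ √L := Real.sqrt_le_sqrt (by exact_mod_cast h5)
      have := Real.sqrt_nonneg (L : ℝ)
      linarith
    · have : 0 ≤ 2 * (L : ℝ) / √N := by positivity
      linarith
  calc _ ≤ C * (4 * √L) := by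
        gcongr
        exact h3.trans h4
    _ = _ := by ring

theorem s0ren_one_le_mu (hK : ∑' c, K c = 1) (L : ℕ) (hL : 1 ≤ L) : 1 ≤ (mu K L).toReal := by
  have h1 : (1 : ℝ≥0∞) ≤ mu K L := by
    rw [← s0ren_const hK 1, mu]
    refine ENNReal.tsum_le_tsum fun c => ?_
    gcongr
    exact_mod_cast (by omega : 1 ≤ min (c + 1) L)
  have h2 : mu K L ≠ ⊤ := ne_top_of_le_ne_top (ENNReal.natCast_ne_top L) (mu_le_self hK L)
  simpa using ENNReal.toReal_mono h2 h1

theorem s0ren_Uu_real (hK : ∑' c, K c = 1) (n : ℕ) :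
    (Uu K n).toReal = ∑ a ∈ Finset.range n, ur K a := by
  rw [Uu, ENNReal.toReal_sum fun a _ => ne_top_of_le_ne_top ENNReal.one_ne_top (up_le_one hK a 0)]
  rfl

theorem s0ren_lower_real (hK : ∑' c, K c = 1) (L : ℕ) :
    (L : ℝ) ≤ (Uu K L).toReal * (mu K L).toReal := by
  have h1 : Uu K L ≠ ⊤ := ne_top_of_le_ne_top (ENNReal.natCast_ne_top L) (Uu_le hK L)
  have h2 : mu K L ≠ ⊤ := ne_top_of_le_ne_top (ENNReal.natCast_ne_top L) (mu_le_self hK L)
  have := ENNReal.toReal_mono (ENNReal.mul_ne_top h1 h2) (le_Uu_mul_mu hK L)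
  simpa using this

theorem s0ren_upper_real (hK : ∑' c, K c = 1) (n L : ℕ) :
    (Uu K n).toReal * (mu K L).toReal ≤ n + L := by
  have := ENNReal.toReal_mono
    (ENNReal.add_ne_top.2 ⟨ENNReal.natCast_ne_top n, ENNReal.natCast_ne_top L⟩)
    (Uu_mul_mu_le hK n L)
  rw [ENNReal.toReal_add (ENNReal.natCast_ne_top n) (ENNReal.natCast_ne_top L)] at this
  simpa using this

theorem s0ren_big (x : ℝ) (N : ℕ) : ∃ L : ℕ, N ≤ L ∧ 1 ≤ L ∧ x ≤ √L := by
  obtain ⟨L, hL⟩ := exists_nat_ge (x ^ 2)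
  refine ⟨L + N + 1, by omega, by omega, Real.le_sqrt_of_sq_le ?_⟩
  push_cast
  have : (0 : ℝ) ≤ N := by positivity
  linarith

theorem s0ren_Vs_step (h : Dk K C) (N : ℕ) :
    ∃ L : ℕ, Vs (ur K) N + 1 / (64 * C ^ 2) ≤ Vs (ur K) L := by
  have hC := h.1
  have hK := h.2.1
  obtain ⟨L, hNL, hL, hx⟩ := s0ren_big (8 * C * (N + 1)) N
  refine ⟨L, ?_⟩
  have hs : 0 < √(L : ℝ) := Real.sqrt_pos.2 (by exact_mod_cast hL)
  have hs2 : √(L : ℝ) * √(L : ℝ) = L := Real.mul_self_sqrt (by positivity)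
  have h1 := s0ren_lower_real hK L
  have h2 := s0ren_mu_le h L hL
  have hU0 : 0 ≤ (Uu K L).toReal := ENNReal.toReal_nonneg
  have h3 : √(L : ℝ) ≤ 4 * C * (Uu K L).toReal := by
    have h4 : √(L : ℝ) * √(L : ℝ) ≤ (4 * C * (Uu K L).toReal) * √(L : ℝ) := by
      rw [hs2]
      refine h1.trans ((mul_le_mul_of_nonneg_left h2 hU0).trans (le_of_eq (by ring)))
    exact le_of_mul_le_mul_right h4 hs
  have h4 : (Uu K L).toReal ≤ (N + 1) + ∑ r ∈ Finset.Ico N L, ur K (r + 1) := by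
    have e1 : (Uu K L).toReal ≤ ∑ a ∈ Finset.range (L + 1), ur K a := by
      rw [s0ren_Uu_real hK, Finset.sum_range_succ]
      linarith [ur_nonneg (K := K) L]
    rw [Finset.sum_range_succ', ← Finset.sum_range_add_sum_Ico _ hNL] at e1
    have e2 : ∑ r ∈ Finset.range N, ur K (r + 1) ≤ N := by
      have := Finset.sum_le_sum (s := Finset.range N) fun r _ => ur_le_one hK (r + 1)
      simpa using this
    linarith [ur_le_one hK 0]
  set S := ∑ r ∈ Finset.Ico N L, ur K (r + 1) with hS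
  have h5 : √(L : ℝ) ≤ 8 * C * S := by nlinarith
  have h6 : S ^ 2 ≤ L * ∑ r ∈ Finset.Ico N L, ur K (r + 1) ^ 2 := by
    refine (sq_sum_le_card_mul_sum_sq (s := Finset.Ico N L) (f := fun r => ur K (r + 1))).trans ?_
    gcongr
    rw [Nat.card_Ico]
    omega
  have h7 : Vs (ur K) L = Vs (ur K) N + ∑ r ∈ Finset.Ico N L, ur K (r + 1) ^ 2 := by
    rw [Vs, Vs, Finset.sum_range_add_sum_Ico _ hNL]
  rw [h7]
  have hL0 : (0 : ℝ) < L := by exact_mod_cast hL
  have h8 : (L : ℝ) ≤ (8 * C * S) ^ 2 := by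
    rw [← hs2, ← sq]
    gcongr
  have h9 : (L : ℝ) * 1 ≤ L * (64 * C ^ 2 * ∑ r ∈ Finset.Ico N L, ur K (r + 1) ^ 2) :=
    calc (L : ℝ) * 1 ≤ 64 * C ^ 2 * S ^ 2 := by
          linarith [show (8 * C * S) ^ 2 = 64 * C ^ 2 * S ^ 2 by ring]
      _ ≤ 64 * C ^ 2 * (L * ∑ r ∈ Finset.Ico N L, ur K (r + 1) ^ 2) := by gcongr
      _ = _ := by ring
  have h10 := le_of_mul_le_mul_left h9 hL0
  have h11 : 1 / (64 * C ^ 2) ≤ ∑ r ∈ Finset.Ico N L, ur K (r + 1) ^ 2 := by
    rw [div_le_iff₀ (by positivity)]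
    linarith
  linarith

theorem s0ren_Vs_unbdd (h : Dk K C) (B : ℝ) : ∃ m : ℕ, B ≤ Vs (ur K) m := by
  have hC := h.1
  have h1 : ∀ j : ℕ, ∃ m : ℕ, j * (1 / (64 * C ^ 2)) ≤ Vs (ur K) m := by
    intro j
    induction j with
    | zero => exact ⟨0, by simp [Vs]⟩
    | succ j ih =>
      obtain ⟨N, hN⟩ := ih
      obtain ⟨L, hL⟩ := s0ren_Vs_step h N
      refine ⟨L, ?_⟩
      push_cast
      linarith
  obtain ⟨j, hj⟩ := exists_nat_ge (B * (64 * C ^ 2))
  obtain ⟨m, hm⟩ := h1 j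
  refine ⟨m, le_trans ?_ hm⟩
  rw [mul_one_div, le_div_iff₀ (by positivity)]
  exact hj

/-- Choice of the parameters of the change of measure. -/
theorem s0_param (h : Dk K C) {δ : ℝ} (hδ : 0 < δ) : ∃ m k J : ℕ, m < k ∧ 1 ≤ J ∧
    0 < Vs (ur K) m ∧ J * (mu K (k - m)).toReal ≤ δ * ((k : ℝ) - m) ∧
    (k : ℝ) ≤ δ * Vs (ur K) m * J ^ 2 ∧
    (m : ℝ) ^ 3 * (Uu K (2 * k)).toReal ≤ δ * Vs (ur K) m ^ 2 * J ^ 2 := by
  have hC := h.1
  have hK := h.2.1
  obtain ⟨m, hm⟩ := s0ren_Vs_unbdd h (128 * C ^ 2 / δ ^ 3)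
  set V := Vs (ur K) m with hV
  have hV0 : 0 < V := lt_of_lt_of_le (by positivity) hm
  have hV1 : 128 * C ^ 2 ≤ V * δ ^ 3 := by rwa [div_le_iff₀ (by positivity)] at hm
  obtain ⟨L, hmL, hL, hx⟩ := s0ren_big (4 * C * (1 / δ + 20 * m ^ 3 / (δ ^ 3 * V ^ 2))) m
  have hs : 0 < √(L : ℝ) := Real.sqrt_pos.2 (by exact_mod_cast hL)
  have hs2 : √(L : ℝ) * √(L : ℝ) = L := Real.mul_self_sqrt (by positivity)
  have h1 := s0ren_one_le_mu hK L hL
  have h2 := s0ren_mu_le h L hL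
  set μ := (mu K L).toReal with hμ
  set y : ℝ := L / μ with hy
  have hyμ : y * μ = L := div_mul_cancel₀ _ (by positivity)
  have hy0 : 0 ≤ y := by positivity
  have h3 : √(L : ℝ) ≤ 4 * C * y := by
    have h4 : √(L : ℝ) * √(L : ℝ) ≤ (4 * C * y) * √(L : ℝ) := by
      rw [hs2, ← hyμ]
      refine (mul_le_mul_of_nonneg_left h2 hy0).trans (le_of_eq ?_)
      rw [hyμ]
      ring
    exact le_of_mul_le_mul_right h4 hs
  have h4 : 1 / δ + 20 * m ^ 3 / (δ ^ 3 * V ^ 2) ≤ y :=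
    le_of_mul_le_mul_left (hx.trans h3) (by positivity)
  have h5 : 1 ≤ δ * y := by
    have : 1 / δ ≤ y := le_trans (le_add_of_nonneg_right (by positivity)) h4
    rw [div_le_iff₀ hδ] at this
    linarith
  have h6 : 20 * (m : ℝ) ^ 3 ≤ y * (δ ^ 3 * V ^ 2) := by
    have : 20 * m ^ 3 / (δ ^ 3 * V ^ 2) ≤ y := le_trans (le_add_of_nonneg_left (by positivity)) h4
    rwa [div_le_iff₀ (by positivity)] at this
  have hJ1 : 1 ≤ ⌊δ * y⌋₊ := Nat.le_floor (by exact_mod_cast h5)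
  have hJ1' : (1 : ℝ) ≤ ⌊δ * y⌋₊ := by exact_mod_cast hJ1
  have hJ2 : (⌊δ * y⌋₊ : ℝ) ≤ δ * y := Nat.floor_le (by positivity)
  have hJ3 : δ * y / 2 ≤ ⌊δ * y⌋₊ := by
    have := Nat.lt_floor_add_one (δ * y)
    linarith
  have hJ4 : (δ * y / 2) ^ 2 ≤ (⌊δ * y⌋₊ : ℝ) ^ 2 := by gcongr
  have hmL' : (m : ℝ) ≤ L := by exact_mod_cast hmL
  refine ⟨m, m + L, ⌊δ * y⌋₊, by omega, hJ1, hV0, ?_, ?_, ?_⟩
  · rw [Nat.add_sub_cancel_left, ← hμ]
    push_cast
    calc (⌊δ * y⌋₊ : ℝ) * μ ≤ δ * y * μ := by gcongr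
      _ = δ * (m + L - m) := by rw [mul_assoc, hyμ]; ring
  · push_cast
    have h7 : (L : ℝ) ≤ (4 * C * y) ^ 2 := by
      rw [← hs2, ← sq]
      gcongr
    calc (m : ℝ) + L ≤ 2 * (4 * C * y) ^ 2 := by linarith
      _ = 128 * C ^ 2 * (y ^ 2 / 4) := by ring
      _ ≤ V * δ ^ 3 * (y ^ 2 / 4) := by gcongr
      _ = δ * V * (δ * y / 2) ^ 2 := by ring
      _ ≤ _ := by gcongr
  · have h7 := s0ren_upper_real hK (2 * (m + L)) L
    rw [← hμ] at h7
    push_cast at h7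
    have h8 : (Uu K (2 * (m + L))).toReal ≤ 5 * y := by
      have : (Uu K (2 * (m + L))).toReal * μ ≤ 5 * y * μ := by
        rw [mul_assoc, hyμ]
        linarith
      exact le_of_mul_le_mul_right this (by positivity)
    calc (m : ℝ) ^ 3 * (Uu K (2 * (m + L))).toReal ≤ m ^ 3 * (5 * y) := by gcongr
      _ = 20 * m ^ 3 * (y / 4) := by ring
      _ ≤ y * (δ ^ 3 * V ^ 2) * (y / 4) := by gcongr
      _ = δ * V ^ 2 * (δ * y / 2) ^ 2 := by ring
      _ ≤ _ := by gcongr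

end Pool.Agent.Lib.MP_153faa_pr.S0
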