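import Mathlib
import Pool.Agent.Lib.MP_153faa_pr.S0Ren

set_option autoImplicit false

open MeasureTheory
open scoped ENNReal NNReal

namespace Pool.Agent.Lib.MP_153faa_pr.S0

variable {K : ℕ → ℝ≥0∞}

theorem s0w_sum_pl {ι : Type*} (S : Finset ι) (F : ι → ℕ → ℝ≥0∞) :
    ∑ i ∈ S, pl K (F i) = pl K fun c => ∑ i ∈ S, F i c := by
  simp only [pl, Finset.mul_sum]
  rw [Summable.tsum_finsetSum fun _ _ => ENNReal.summable]

theorem s0w_pl_mul (g : ℕ → ℝ≥0∞) (x : ℝ≥0∞) : pl K g * x = pl K fun c => g c * x := by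
  simp only [pl, ← mul_assoc]
  rw [ENNReal.tsum_mul_right]

theorem s0w_pl_const (hK : ∑' c, K c = 1) (x : ℝ≥0∞) : pl K (fun _ => x) = x := by
  simp only [pl]
  rw [ENNReal.tsum_mul_right, hK, one_mul]

theorem s0w_pl_add (f g : ℕ → ℝ≥0∞) : pl K (fun c => f c + g c) = pl K f + pl K g := by
  simp only [pl, mul_add]
  rw [ENNReal.tsum_add]

theorem s0w_pl_mono {f g : ℕ → ℝ≥0∞} (h : ∀ c, f c ≤ g c) : pl K f ≤ pl K g :=
  ENNReal.tsum_le_tsum fun c => mul_le_mul_right (h c) _

theorem s0w_t0 (l : List Bool) : wp K (true :: l) 0 = pl K (wp K l) := by simp [wp]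

theorem s0w_f0 (l : List Bool) : wp K (false :: l) 0 = 0 := by simp [wp]

theorem s0w_ts (l : List Bool) (c : ℕ) : wp K (true :: l) (c + 1) = 0 := by simp [wp]

theorem s0w_fs (l : List Bool) (c : ℕ) : wp K (false :: l) (c + 1) = wp K l c := by simp [wp]

theorem s0w_nil (c : ℕ) : wp K [] c = 1 := by simp [wp]

/-- First step decomposition of an expectation, start at a renewal point. -/
theorem s0w_step0 (n : ℕ) (F : List Bool → ℝ≥0∞) :
    ∑ τ ∈ LS (n + 1), wp K τ 0 * F τ =
      pl K fun c => ∑ τ ∈ LS n, wp K τ c * F (true :: τ) := by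
  rw [sum_LS_succ]
  simp only [s0w_t0, s0w_f0, zero_mul, Finset.sum_const_zero, add_zero, s0w_pl_mul]
  rw [s0w_sum_pl]

/-- First step decomposition of an expectation, start before the next renewal point. -/
theorem s0w_steps (n c : ℕ) (F : List Bool → ℝ≥0∞) :
    ∑ τ ∈ LS (n + 1), wp K τ (c + 1) * F τ = ∑ τ ∈ LS n, wp K τ c * F (false :: τ) := by
  rw [sum_LS_succ]
  simp only [s0w_ts, s0w_fs, zero_mul, Finset.sum_const_zero, zero_add]

theorem wp_total (hK : ∑' c, K c = 1) (n c : ℕ) : ∑ τ ∈ LS n, wp K τ c = 1 := by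
  induction n generalizing c with
  | zero => rw [sum_LS_zero, s0w_nil]
  | succ n ih =>
    cases c with
    | zero =>
      have h := s0w_step0 (K := K) n fun _ => 1
      simp only [mul_one, ih] at h
      rw [h, s0w_pl_const hK]
    | succ c =>
      have h := s0w_steps (K := K) n c fun _ => 1
      simp only [mul_one, ih] at h
      exact h

theorem wp_marg (hK : ∑' c, K c = 1) (n : ℕ) (l₁ : List Bool) (c : ℕ) :
    ∑ l₂ ∈ LS n, wp K (l₁ ++ l₂) c = wp K l₁ c := by
  induction l₁ generalizing c with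
  | nil => simp only [List.nil_append, wp_total hK, s0w_nil]
  | cons b l₁ ih =>
    cases c with
    | zero =>
      cases b with
      | false => simp only [List.cons_append, s0w_f0, Finset.sum_const_zero]
      | true =>
        simp only [List.cons_append, s0w_t0]
        rw [s0w_sum_pl]
        simp only [ih]
    | succ c =>
      cases b with
      | false => simp only [List.cons_append, s0w_fs, ih]
      | true => simp only [List.cons_append, s0w_ts, Finset.sum_const_zero]

theorem wp_le_one (hK : ∑' c, K c = 1) (τ : List Bool) (c : ℕ) : wp K τ c ≤ 1 := by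
  rw [← wp_total hK τ.length c]
  exact Finset.single_le_sum (f := fun τ => wp K τ c) (fun _ _ => bot_le) (mem_LS.2 rfl)

theorem s0w_ne_top (hK : ∑' c, K c = 1) (τ : List Bool) (c : ℕ) : wp K τ c ≠ ⊤ :=
  ne_top_of_le_ne_top ENNReal.one_ne_top (wp_le_one hK τ c)

theorem wp_ren (hK : ∑' c, K c = 1) (l₁ l₂ : List Bool) (c : ℕ) :
    wp K (l₁ ++ true :: l₂) c = wp K (l₁ ++ [true]) c * wp K (true :: l₂) 0 := by
  induction l₁ generalizing c with
  | nil =>
    cases c with
    | zero =>
      have h : wp K [] = fun _ => 1 := funext s0w_nil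
      simp only [List.nil_append]
      rw [s0w_t0 [], h, s0w_pl_const hK, one_mul]
    | succ c => simp only [List.nil_append, s0w_ts, zero_mul]
  | cons b l₁ ih =>
    cases c with
    | zero =>
      cases b with
      | false => simp only [List.cons_append, s0w_f0, zero_mul]
      | true =>
        simp only [List.cons_append]
        rw [s0w_t0 (l₁ ++ true :: l₂), s0w_t0 (l₁ ++ [true]), s0w_pl_mul]
        congr 1
        exact funext ih
    | succ c =>
      cases b with
      | false => simp only [List.cons_append, s0w_fs, ih]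
      | true => simp only [List.cons_append, s0w_ts, zero_mul]

theorem wp_ind (hK : ∑' c, K c = 1) {n a : ℕ} (ha : a < n) (c : ℕ) :
    ∑ τ ∈ LS n, wp K τ c * (if τ.getD a false then 1 else 0) = up K a c := by
  induction a generalizing n c with
  | zero =>
    obtain ⟨n, rfl⟩ : ∃ n', n = n' + 1 := ⟨n - 1, by omega⟩
    cases c with
    | zero =>
      rw [s0w_step0]
      simp only [List.getD_cons_zero, if_true, mul_one, wp_total hK, s0w_pl_const hK, up]
    | succ c =>
      rw [s0w_steps]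
      simp [up]
  | succ a ih =>
    obtain ⟨n, rfl⟩ : ∃ n', n = n' + 1 := ⟨n - 1, by omega⟩
    have ha' : a < n := by omega
    cases c with
    | zero =>
      rw [s0w_step0]
      simp only [List.getD_cons_succ, ih ha', up]
    | succ c =>
      rw [s0w_steps]
      simp only [List.getD_cons_succ, ih ha', up]

theorem s0w_total_real (hK : ∑' c, K c = 1) (n c : ℕ) :
    ∑ τ ∈ LS n, (wp K τ c).toReal = 1 := by
  rw [← ENNReal.toReal_sum fun τ _ => s0w_ne_top hK τ c, wp_total hK, ENNReal.toReal_one]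

theorem s0w_ind_real (hK : ∑' c, K c = 1) {n a : ℕ} (ha : a < n) (c : ℕ) :
    ∑ τ ∈ LS n, (wp K τ c).toReal * ind (τ.getD a false) = (up K a c).toReal := by
  rw [← wp_ind hK ha c, ENNReal.toReal_sum]
  · refine Finset.sum_congr rfl fun τ _ => ?_
    cases τ.getD a false <;> simp [ind]
  · intro τ _
    cases τ.getD a false <;> simp [s0w_ne_top hK]

theorem s0w_sum_up_real (hK : ∑' c, K c = 1) (n c : ℕ) :
    ∑ a ∈ Finset.range n, (up K a c).toReal ≤ (Uu K n).toReal := by
  rw [← ENNReal.toReal_sum fun a _ => ne_top_of_le_ne_top ENNReal.one_ne_top (up_le_one hK a c)]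
  exact ENNReal.toReal_mono (ne_top_of_le_ne_top (ENNReal.natCast_ne_top n) (Uu_le hK n))
    (sum_up_le n c)

theorem wp_Ns (hK : ∑' c, K c = 1) {n n' : ℕ} (h : n' ≤ n) (c : ℕ) :
    ∑ τ ∈ LS n, (wp K τ c).toReal * Ns n' τ ≤ (Uu K n').toReal := by
  simp only [Ns_eq, Finset.mul_sum]
  rw [Finset.sum_comm]
  refine le_trans (le_of_eq ?_) (s0w_sum_up_real hK n' c)
  refine Finset.sum_congr rfl fun a ha => s0w_ind_real hK ?_ c
  have := Finset.mem_range.1 ha
  omega

theorem Mp_eq (s : ℝ) (hK : ∑' c, K c = 1) (l : List Bool) (c : ℕ) :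
    Mp K s l c = ∑ τ ∈ LS l.length, wp K τ c * pr s τ l := by
  have _ := hK
  induction l generalizing c with
  | nil => simp [Mp, sum_LS_zero, wp, pr]
  | cons b l ih =>
    rw [List.length_cons]
    cases c with
    | zero =>
      rw [s0w_step0]
      simp only [Mp, pr, if_true]
      rw [mul_comm, s0w_pl_mul]
      congr 1
      funext c
      rw [ih, Finset.sum_mul]
      exact Finset.sum_congr rfl fun τ _ => by ring
    | succ c =>
      rw [s0w_steps]
      simp only [Mp, pr, Bool.false_eq_true, if_false, one_mul, ih]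

theorem s0w_Ns_true (n : ℕ) (l : List Bool) : Ns (n + 1) (true :: l) = Ns n l + 1 := by
  simp [Ns]

theorem s0w_Ns_false (n : ℕ) (l : List Bool) : Ns (n + 1) (false :: l) = Ns n l := by
  simp [Ns]

theorem s0w_few (hK : ∑' c, K c = 1) (L n' : ℕ) : ∀ n c J : ℕ, n' ≤ n →
    (∑ τ ∈ LS n, wp K τ c * if Ns n' τ ≤ J then 1 else 0) * L ≤
      (min (c + L - n') L : ℕ) + J * mu K L := by
  induction n' with
  | zero =>
    intro n c J _
    have h1 : (∑ τ ∈ LS n, wp K τ c * if Ns 0 τ ≤ J then 1 else 0) = 1 := by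
      simp [Ns, wp_total hK]
    rw [h1, one_mul, show min (c + L - 0) L = L by omega]
    exact le_self_add
  | succ n' ih =>
    intro n c J h
    obtain ⟨n, rfl⟩ : ∃ n', n = n' + 1 := ⟨n - 1, by omega⟩
    have h' : n' ≤ n := by omega
    cases c with
    | succ c =>
      rw [s0w_steps, show c + 1 + L - (n' + 1) = c + L - n' by omega]
      simp only [s0w_Ns_false]
      exact ih n c J h'
    | zero =>
      rw [s0w_step0]
      simp only [s0w_Ns_true]
      cases J with
      | zero => simp [pl]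
      | succ J =>
        simp only [Nat.add_le_add_iff_right]
        rw [s0w_pl_mul]
        refine (s0w_pl_mono (g := fun c => (((min (0 + L - (n' + 1)) L : ℕ) : ℝ≥0∞) +
          J * mu K L) + ((min (c + 1) L : ℕ) : ℝ≥0∞)) fun c => ?_).trans (le_of_eq ?_)
        · refine (ih n c J h').trans ?_
          rw [add_right_comm, ← Nat.cast_add]
          gcongr
          omega
        · rw [s0w_pl_add, s0w_pl_const hK]
          have : (pl K fun c => ((min (c + 1) L : ℕ) : ℝ≥0∞)) = mu K L := rfl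
          rw [this]
          push_cast
          ring

/-- Few renewal points are unlikely. -/
theorem wp_few (hK : ∑' c, K c = 1) {n n' L c : ℕ} (h : n' ≤ n) (hc : c + L ≤ n') (J : ℕ) :
    (∑ τ ∈ LS n, if Ns n' τ ≤ J then wp K τ c else 0) * L ≤ J * mu K L := by
  have h1 := s0w_few hK L n' n c J h
  rw [show min (c + L - n') L = 0 by omega] at h1
  simpa using h1

/-- The centred contribution of one renewal point. -/
noncomputable def s0wG (u : ℕ → ℝ) (m a : ℕ) (τ : List Bool) : ℝ :=
  ind (τ.getD a false) *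
    (∑ r ∈ Finset.range m, u (r + 1) * ind (τ.getD (a + r + 1) false) - Vs u m)

theorem s0w_sum_G (u : ℕ → ℝ) (m n : ℕ) (τ : List Bool) :
    Ys u m n τ - Vs u m * Ns n τ = ∑ a ∈ Finset.range n, s0wG u m a τ := by
  rw [Ns_eq, Ys, Finset.mul_sum, ← Finset.sum_sub_distrib]
  refine Finset.sum_congr rfl fun a _ => ?_
  rw [s0wG, mul_sub, Finset.mul_sum]
  congr 1
  · exact Finset.sum_congr rfl fun r _ => by ring
  · ring

theorem s0w_ind_nonneg (b : Bool) : 0 ≤ ind b := by cases b <;> simp [ind]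

theorem s0w_ind_le (b : Bool) : ind b ≤ 1 := by cases b <;> simp [ind]

theorem s0w_abs_G {u : ℕ → ℝ} (h0 : ∀ r, 0 ≤ u r) (h1 : ∀ r, u r ≤ 1) (m a : ℕ) (τ : List Bool) :
    |s0wG u m a τ| ≤ ind (τ.getD a false) * m := by
  rw [s0wG, abs_mul, abs_of_nonneg (s0w_ind_nonneg _)]
  refine mul_le_mul_of_nonneg_left ?_ (s0w_ind_nonneg _)
  rw [Vs, ← Finset.sum_sub_distrib]
  refine (Finset.abs_sum_le_sum_abs _ _).trans ?_
  refine (Finset.sum_le_card_nsmul _ _ 1 fun r _ => ?_).trans (by simp)
  have a0 := h0 (r + 1)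
  have a1 := h1 (r + 1)
  have b0 := s0w_ind_nonneg (τ.getD (a + r + 1) false)
  have b1 := s0w_ind_le (τ.getD (a + r + 1) false)
  rw [abs_le]
  constructor <;> nlinarith [mul_nonneg a0 b0, mul_le_one₀ a1 b0 b1]

theorem s0w_G_init (u : ℕ → ℝ) {m a : ℕ} (l₁ l₂ : List Bool) (h : a + m < l₁.length) :
    s0wG u m a (l₁ ++ l₂) = s0wG u m a l₁ := by
  rw [s0wG, s0wG, List.getD_append _ _ _ _ (by omega)]
  congr 2
  refine Finset.sum_congr rfl fun r hr => ?_
  have := Finset.mem_range.1 hr
  rw [List.getD_append _ _ _ _ (by omega)]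

theorem s0w_G_shift (u : ℕ → ℝ) (m : ℕ) (l₁ l₂ : List Bool) :
    s0wG u m l₁.length (l₁ ++ l₂) = s0wG u m 0 l₂ := by
  rw [s0wG, s0wG, List.getD_append_right _ _ _ _ le_rfl, Nat.sub_self]
  congr 2
  refine Finset.sum_congr rfl fun r _ => ?_
  rw [List.getD_append_right _ _ _ _ (by omega),
    show l₁.length + r + 1 - l₁.length = 0 + r + 1 by omega]

theorem s0w_mean_zero (hK : ∑' c, K c = 1) {m k : ℕ} (hk : m ≤ k) :
    ∑ l ∈ LS k, (wp K (true :: l) 0).toReal * s0wG (ur K) m 0 (true :: l) = 0 := by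
  have h1 : ∑ l ∈ LS k, (wp K (true :: l) 0).toReal = 1 := by
    have h := s0w_total_real hK (k + 1) 0
    rw [sum_LS_succ] at h
    simpa [s0w_f0] using h
  have h2 : ∀ r < m, ∑ l ∈ LS k, (wp K (true :: l) 0).toReal * ind (l.getD r false) =
      ur K (r + 1) := by
    intro r hr
    have h := s0w_ind_real hK (show r + 1 < k + 1 by omega) 0
    rw [sum_LS_succ] at h
    simp only [s0w_f0, ENNReal.toReal_zero, zero_mul, Finset.sum_const_zero, add_zero,
      List.getD_cons_succ] at h
    exact h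
  have h3 : ∀ l : List Bool, (wp K (true :: l) 0).toReal * s0wG (ur K) m 0 (true :: l) =
      ∑ r ∈ Finset.range m, ur K (r + 1) * ((wp K (true :: l) 0).toReal * ind (l.getD r false)) -
        Vs (ur K) m * (wp K (true :: l) 0).toReal := by
    intro l
    simp only [s0wG, List.getD_cons_zero, zero_add, List.getD_cons_succ]
    rw [show ind true = 1 by simp [ind], one_mul, mul_sub, Finset.mul_sum]
    congr 1
    · exact Finset.sum_congr rfl fun r _ => by ring
    · ring
  simp only [h3]
  rw [Finset.sum_sub_distrib, Finset.sum_comm, ← Finset.mul_sum, h1, mul_one, sub_eq_zero, Vs]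
  refine Finset.sum_congr rfl fun r hr => ?_
  rw [← Finset.mul_sum, h2 r (Finset.mem_range.1 hr), sq]

theorem s0w_orth (hK : ∑' c, K c = 1) {m n a a' : ℕ} (c : ℕ) (h : a + m ≤ a') (ha : a' < n) :
    ∑ τ ∈ LS (n + m), (wp K τ c).toReal * (s0wG (ur K) m a τ * s0wG (ur K) m a' τ) = 0 := by
  obtain ⟨k, hk, hm⟩ : ∃ k, n + m = a' + (k + 1) ∧ m ≤ k := ⟨n + m - a' - 1, by omega, by omega⟩
  rw [hk, sum_LS_add]
  refine Finset.sum_eq_zero fun l₁ hl₁ => ?_
  have hl := mem_LS.1 hl₁
  subst hl
  rw [sum_LS_succ]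
  simp only [s0w_G_shift]
  have hf : ∀ l : List Bool, s0wG (ur K) m 0 (false :: l) = 0 := fun l => by simp [s0wG, ind]
  have ht : ∀ l : List Bool, (wp K (l₁ ++ true :: l) c).toReal *
      (s0wG (ur K) m a (l₁ ++ true :: l) * s0wG (ur K) m 0 (true :: l)) =
      ((wp K (l₁ ++ [true]) c).toReal * s0wG (ur K) m a (l₁ ++ [true])) *
        ((wp K (true :: l) 0).toReal * s0wG (ur K) m 0 (true :: l)) := by
    intro l
    rw [wp_ren hK, ENNReal.toReal_mul,
      show l₁ ++ true :: l = (l₁ ++ [true]) ++ l by simp,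
      s0w_G_init _ _ _ (by simp; omega)]
    ring
  simp only [hf, ht, mul_zero, Finset.sum_const_zero, add_zero]
  rw [← Finset.mul_sum, s0w_mean_zero hK hm, mul_zero]

/-- Law of large numbers for the two-body functional. -/
theorem wp_lln (hK : ∑' c, K c = 1) (m n c : ℕ) :
    ∑ τ ∈ LS (n + m), (wp K τ c).toReal * (Ys (ur K) m n τ - Vs (ur K) m * Ns n τ) ^ 2 ≤
      2 * (m : ℝ) ^ 3 * (Uu K n).toReal := by
  have hG := s0w_abs_G (u := ur K) ur_nonneg (ur_le_one hK) m
  simp only [s0w_sum_G, sq]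
  simp only [Finset.sum_mul_sum]
  simp only [Finset.mul_sum]
  rw [Finset.sum_comm]
  refine le_trans (Finset.sum_le_sum fun a ha => ?_)
    ((le_of_eq (Finset.mul_sum _ _ _).symm).trans (mul_le_mul_of_nonneg_left
      (s0w_sum_up_real hK n c) (by positivity)))
  have han := Finset.mem_range.1 ha
  rw [Finset.sum_comm]
  have hpt : ∀ a' ∈ Finset.range n,
      ∑ τ ∈ LS (n + m), (wp K τ c).toReal * (s0wG (ur K) m a τ * s0wG (ur K) m a' τ) ≤
        if a' ∈ Finset.Ico (a - m) (a + m) then (m : ℝ) ^ 2 * (up K a c).toReal else 0 := by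
    intro a' ha'
    have ha'n := Finset.mem_range.1 ha'
    split_ifs with hmem
    · rw [← s0w_ind_real hK (show a < n + m by omega) c, Finset.mul_sum]
      refine Finset.sum_le_sum fun τ _ => ?_
      rw [mul_left_comm ((m : ℝ) ^ 2)]
      refine mul_le_mul_of_nonneg_left ?_ ENNReal.toReal_nonneg
      refine (le_abs_self _).trans ?_
      rw [abs_mul]
      have h1 := hG a τ
      have h2 : |s0wG (ur K) m a' τ| ≤ m :=
        (hG a' τ).trans (mul_le_of_le_one_left (Nat.cast_nonneg m) (s0w_ind_le _))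
      have h3 := s0w_ind_nonneg (τ.getD a false)
      calc _ ≤ (ind (τ.getD a false) * m) * m :=
            mul_le_mul h1 h2 (abs_nonneg _) (by positivity)
        _ = _ := by ring
    · rw [Finset.mem_Ico] at hmem
      rcases le_or_gt (a + m) a' with h | h
      · exact (s0w_orth hK c h ha'n).le
      · have h' : a' + m ≤ a := by omega
        simp only [mul_comm (s0wG (ur K) m a _)]
        exact (s0w_orth hK c h' han).le
  refine (Finset.sum_le_sum hpt).trans ?_
  rw [← Finset.sum_filter, Finset.sum_const, nsmul_eq_mul]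
  have hc : ((Finset.range n).filter fun a' => a' ∈ Finset.Ico (a - m) (a + m)).card ≤ 2 * m := by
    refine (Finset.card_le_card (t := Finset.Ico (a - m) (a + m)) fun x hx =>
      (Finset.mem_filter.1 hx).2).trans ?_
    rw [Nat.card_Ico]
    omega
  have hc' : ((((Finset.range n).filter fun a' => a' ∈ Finset.Ico (a - m) (a + m)).card : ℕ) : ℝ)
      ≤ 2 * m := by exact_mod_cast hc
  have hu : 0 ≤ (up K a c).toReal := ENNReal.toReal_nonneg
  calc _ ≤ (2 * (m : ℝ)) * ((m : ℝ) ^ 2 * (up K a c).toReal) :=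
        mul_le_mul_of_nonneg_right hc' (by positivity)
    _ = _ := by ring

end Pool.Agent.Lib.MP_153faa_pr.S0
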