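import Mathlib
import Pool.Agent.Lib.MP_153faa_pr.S0W
import Pool.Agent.Lib.MP_153faa_pr.S0CH

set_option autoImplicit false

open MeasureTheory
open scoped ENNReal NNReal

namespace Pool.Agent.Lib.MP_153faa_pr.S0

variable {K : ℕ → ℝ≥0∞} {C : ℝ}

theorem s0core_ofReal (n : ℕ) (g : List Bool → ℝ) (hg : ∀ l, 0 ≤ g l) :
    Ew n (fun l => ENNReal.ofReal (g l)) = ENNReal.ofReal (2⁻¹ ^ n * ∑ l ∈ LS n, g l) := by
  rw [Ew, ENNReal.ofReal_mul (by positivity), ENNReal.ofReal_sum_of_nonneg fun l _ => hg l,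
    ENNReal.ofReal_pow (by norm_num), ENNReal.ofReal_inv_of_pos (by norm_num),
    ENNReal.ofReal_ofNat]

theorem s0core_pr {s : ℝ} (h0 : 0 ≤ s) (h1 : s ≤ 1) (n : ℕ) (τ : List Bool) :
    (2⁻¹ : ℝ) ^ n * ∑ l ∈ LS n, (pr s τ l).toReal = 1 := by
  have h := Ew_pr h0 h1 n τ
  have e : (fun l => pr s τ l) = fun l => ENNReal.ofReal (pr s τ l).toReal :=
    funext fun l => (ENNReal.ofReal_toReal (pr_ne_top s τ l)).symm
  rw [e, s0core_ofReal n _ fun _ => ENNReal.toReal_nonneg] at h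
  exact ENNReal.ofReal_eq_one.1 h

theorem s0core_wp_ne (hK : ∑' c, K c = 1) (τ : List Bool) (c : ℕ) : wp K τ c ≠ ⊤ :=
  ne_top_of_le_ne_top ENNReal.one_ne_top (wp_le_one hK τ c)

theorem s0core_total (hK : ∑' c, K c = 1) (n c : ℕ) : ∑ τ ∈ LS n, (wp K τ c).toReal = 1 := by
  rw [← ENNReal.toReal_sum fun τ _ => s0core_wp_ne hK τ c, wp_total hK, ENNReal.toReal_one]

theorem s0core_few (hK : ∑' c, K c = 1) {n n' L c : ℕ} (h : n' ≤ n) (hc : c + L ≤ n') (J : ℕ) :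
    (∑ τ ∈ LS n, (wp K τ c).toReal * if Ns n' τ ≤ J then 1 else 0) * L ≤
      J * (mu K L).toReal := by
  have hmu : mu K L ≠ ⊤ := ne_top_of_le_ne_top (ENNReal.natCast_ne_top L) (mu_le_self hK L)
  have h1 := ENNReal.toReal_mono (ENNReal.mul_ne_top (ENNReal.natCast_ne_top J) hmu)
    (wp_few hK h hc J)
  rw [ENNReal.toReal_mul, ENNReal.toReal_mul, ENNReal.toReal_natCast, ENNReal.toReal_natCast,
    ENNReal.toReal_sum fun τ _ => by
      split_ifs
      exacts [s0core_wp_ne hK τ c, ENNReal.zero_ne_top]] at h1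
  refine le_of_eq_of_le ?_ h1
  congr 1
  refine Finset.sum_congr rfl fun τ _ => ?_
  split_ifs <;> simp

theorem s0core_ind {s V J N X Y : ℝ} (hs : 0 < s) (hV : 0 < V) (hJ : 0 < J) (hN : J ≤ N)
    (hX : X < s ^ 2 * V * J / 2) :
    1 ≤ 16 / (V * J) ^ 2 * (Y - V * N) ^ 2 + 16 / (s ^ 2 * V * J) ^ 2 * (X - s ^ 2 * Y) ^ 2 := by
  have hp : 0 < V * J := by positivity
  have hq : 0 < s ^ 2 * V * J := by positivity
  have h1 : 0 ≤ 16 / (V * J) ^ 2 * (Y - V * N) ^ 2 := by positivity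
  have h2 : 0 ≤ 16 / (s ^ 2 * V * J) ^ 2 * (X - s ^ 2 * Y) ^ 2 := by positivity
  by_cases hY : Y ≤ V * N - V * J / 4
  · have : 1 ≤ 16 / (V * J) ^ 2 * (Y - V * N) ^ 2 := by
      rw [div_mul_eq_mul_div, le_div_iff₀ (by positivity)]
      nlinarith
    linarith
  · have h3 : V * J ≤ V * N := by gcongr
    have h4 : s ^ 2 * (V * J * (3 / 4)) ≤ s ^ 2 * Y := by gcongr; linarith
    have h5 : s ^ 2 * V * J / 4 ≤ s ^ 2 * Y - X := by nlinarith
    have : 1 ≤ 16 / (s ^ 2 * V * J) ^ 2 * (X - s ^ 2 * Y) ^ 2 := by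
      rw [div_mul_eq_mul_div, le_div_iff₀ (by positivity)]
      nlinarith
    linarith

theorem s0core_Uu (hK : ∑' c, K c = 1) {n n' : ℕ} (h : n ≤ n') :
    (Uu K n).toReal ≤ (Uu K n').toReal := by
  refine ENNReal.toReal_mono (ne_top_of_le_ne_top (ENNReal.natCast_ne_top n') (Uu_le hK n')) ?_
  exact Finset.sum_le_sum_of_subset (Finset.range_mono h)

/-- The tilted estimate, in real numbers. -/
theorem s0core_tilt (hK : ∑' c, K c = 1) {s : ℝ} (h0 : 0 < s) (h1 : s ≤ 1) {ε : ℝ} (hε : 0 < ε)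
    {m n k J c : ℕ} (hn : n + m = 2 * k) (hm : m < k) (hc : c < k) (hJ : 1 ≤ J)
    (hV : 0 < Vs (ur K) m) (p1 : J * (mu K (k - m)).toReal ≤ ε * ((k : ℝ) - m))
    (p2 : (k : ℝ) ≤ ε * Vs (ur K) m * J ^ 2)
    (p3 : (m : ℝ) ^ 3 * (Uu K (2 * k)).toReal ≤ ε * Vs (ur K) m ^ 2 * J ^ 2) :
    (2⁻¹ : ℝ) ^ (n + m) * ∑ l ∈ LS (n + m),
      (if s ^ 2 * Vs (ur K) m * J / 2 ≤ Xs (ur K) m n l then 0
        else ∑ τ ∈ LS (n + m), (wp K τ c).toReal * (pr s τ l).toReal) ≤ 400 * ε / s ^ 4 := by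
  set V := Vs (ur K) m with hVdef
  set U := (Uu K (2 * k)).toReal with hU
  have hJ' : (0 : ℝ) < J := by exact_mod_cast hJ
  set a : ℝ := 16 / (V * J) ^ 2 with ha
  set b : ℝ := 16 / (s ^ 2 * V * J) ^ 2 with hb
  have ha0 : 0 ≤ a := by positivity
  have hb0 : 0 ≤ b := by positivity
  set G : List Bool → ℝ := fun τ =>
    (if Ns n τ ≤ J then 1 else 0) + a * (Ys (ur K) m n τ - V * Ns n τ) ^ 2 with hG
  set D : List Bool → List Bool → ℝ := fun τ l =>
    (Xs (ur K) m n l - s ^ 2 * Ys (ur K) m n τ) ^ 2 with hD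
  have step1 : ∀ l, (if s ^ 2 * V * J / 2 ≤ Xs (ur K) m n l then 0
      else ∑ τ ∈ LS (n + m), (wp K τ c).toReal * (pr s τ l).toReal) ≤
      ∑ τ ∈ LS (n + m), (wp K τ c).toReal * (pr s τ l).toReal * (G τ + b * D τ l) := by
    intro l
    split_ifs with hl
    · refine Finset.sum_nonneg fun τ _ => ?_
      simp only [hG, hD]
      positivity
    · refine Finset.sum_le_sum fun τ _ => le_mul_of_one_le_right (by positivity) ?_
      simp only [hG, hD]
      split_ifs with hN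
      · have : 0 ≤ a * (Ys (ur K) m n τ - V * Ns n τ) ^ 2 +
          b * (Xs (ur K) m n l - s ^ 2 * Ys (ur K) m n τ) ^ 2 := by positivity
        linarith
      · have hN' : (J : ℝ) ≤ Ns n τ := by exact_mod_cast (not_le.1 hN).le
        have := s0core_ind (Y := Ys (ur K) m n τ) h0 hV hJ' hN' (not_le.1 hl)
        linarith
  have step2 : (2⁻¹ : ℝ) ^ (n + m) * ∑ l ∈ LS (n + m), ∑ τ ∈ LS (n + m),
      (wp K τ c).toReal * (pr s τ l).toReal * (G τ + b * D τ l) =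
      ∑ τ ∈ LS (n + m), (wp K τ c).toReal * (G τ +
        b * ((2⁻¹ : ℝ) ^ (n + m) * ∑ l ∈ LS (n + m), (pr s τ l).toReal * D τ l)) := by
    rw [Finset.sum_comm, Finset.mul_sum]
    refine Finset.sum_congr rfl fun τ _ => ?_
    have e : ∑ l ∈ LS (n + m), (wp K τ c).toReal * (pr s τ l).toReal * (G τ + b * D τ l) =
        (wp K τ c).toReal * G τ * ∑ l ∈ LS (n + m), (pr s τ l).toReal +
          (wp K τ c).toReal * b * ∑ l ∈ LS (n + m), (pr s τ l).toReal * D τ l := by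
      rw [Finset.mul_sum, Finset.mul_sum, ← Finset.sum_add_distrib]
      exact Finset.sum_congr rfl fun l _ => by ring
    have e2 := s0core_pr h0.le h1 (n + m) τ
    rw [e]
    linear_combination (wp K τ c).toReal * G τ * e2
  have step3 : ∑ τ ∈ LS (n + m), (wp K τ c).toReal * (G τ +
      b * ((2⁻¹ : ℝ) ^ (n + m) * ∑ l ∈ LS (n + m), (pr s τ l).toReal * D τ l)) ≤
      ∑ τ ∈ LS (n + m), (wp K τ c).toReal * (G τ +
        b * (2 * n * V + 16 * (m : ℝ) ^ 3 * Ns (n + m) τ)) := by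
    refine Finset.sum_le_sum fun τ hτ => ?_
    have := s0_cheb h0.le h1 (ur_nonneg (K := K)) (ur_le_one hK) m n τ (mem_LS.1 hτ)
    gcongr
  have step4 : ∑ τ ∈ LS (n + m), (wp K τ c).toReal * (G τ +
      b * (2 * n * V + 16 * (m : ℝ) ^ 3 * Ns (n + m) τ)) =
      (∑ τ ∈ LS (n + m), (wp K τ c).toReal * if Ns n τ ≤ J then 1 else 0) +
      a * (∑ τ ∈ LS (n + m), (wp K τ c).toReal * (Ys (ur K) m n τ - V * Ns n τ) ^ 2) +
      b * (2 * n * V) * (∑ τ ∈ LS (n + m), (wp K τ c).toReal) +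
      b * (16 * (m : ℝ) ^ 3) * ∑ τ ∈ LS (n + m), (wp K τ c).toReal * Ns (n + m) τ := by
    simp only [Finset.mul_sum, ← Finset.sum_add_distrib, hG]
    exact Finset.sum_congr rfl fun τ _ => by ring
  have hL : (0 : ℝ) < (k : ℝ) - m := by
    have : (m : ℝ) < k := by exact_mod_cast hm
    linarith
  have t1 : (∑ τ ∈ LS (n + m), (wp K τ c).toReal * if Ns n τ ≤ J then 1 else 0) ≤ ε := by
    have h := s0core_few hK (n := n + m) (n' := n) (L := k - m) (c := c) (by omega) (by omega) J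
    rw [Nat.cast_sub hm.le] at h
    exact le_of_mul_le_mul_right (h.trans p1) hL
  have hm3 : (0 : ℝ) ≤ (m : ℝ) ^ 3 := by positivity
  have t2 : a * (∑ τ ∈ LS (n + m), (wp K τ c).toReal * (Ys (ur K) m n τ - V * Ns n τ) ^ 2) ≤
      32 * ε := by
    have h := wp_lln hK m n c
    have h' : (Uu K n).toReal ≤ U := s0core_Uu hK (by omega)
    have h2 : 2 * (m : ℝ) ^ 3 * (Uu K n).toReal ≤ 2 * (ε * V ^ 2 * J ^ 2) := by nlinarith
    calc _ ≤ a * (2 * (ε * V ^ 2 * J ^ 2)) := mul_le_mul_of_nonneg_left (h.trans h2) ha0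
      _ = 32 * ε := by rw [ha]; field_simp; ring
  have t3 : b * (2 * n * V) ≤ 64 * ε / s ^ 4 := by
    have h : (n : ℝ) ≤ 2 * k := by exact_mod_cast (by omega : n ≤ 2 * k)
    have h2 : 2 * n * V ≤ 4 * (ε * V * J ^ 2) * V := by nlinarith
    calc _ ≤ b * (4 * (ε * V * J ^ 2) * V) := mul_le_mul_of_nonneg_left h2 hb0
      _ = 64 * ε / s ^ 4 := by rw [hb]; field_simp; ring
  have t4 : b * (16 * (m : ℝ) ^ 3) * ∑ τ ∈ LS (n + m), (wp K τ c).toReal * Ns (n + m) τ ≤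
      256 * ε / s ^ 4 := by
    have h := wp_Ns hK (le_refl (n + m)) c
    rw [show Uu K (n + m) = Uu K (2 * k) by rw [hn]] at h
    calc _ ≤ b * (16 * (m : ℝ) ^ 3) * U := mul_le_mul_of_nonneg_left h (by positivity)
      _ = b * 16 * ((m : ℝ) ^ 3 * U) := by ring
      _ ≤ b * 16 * (ε * V ^ 2 * J ^ 2) := by gcongr
      _ = 256 * ε / s ^ 4 := by rw [hb]; field_simp; ring
  have t5 : ε ≤ ε / s ^ 4 := by
    rw [le_div_iff₀ (by positivity)]
    exact mul_le_of_le_one_right hε.le (pow_le_one₀ h0.le h1)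
  have t6 : 0 ≤ ε / s ^ 4 := by positivity
  refine (mul_le_mul_of_nonneg_left (Finset.sum_le_sum fun l _ => step1 l)
    (by positivity)).trans ?_
  rw [step2]
  refine step3.trans ?_
  rw [step4, s0core_total hK, mul_one]
  rw [mul_div_assoc] at t3 t4 ⊢
  linarith

/-- A rare event of the marks that is typical under the size-biased laws. -/
theorem s0_event (h : Dk K C) {s : ℝ} (h0 : 0 < s) (h1 : s ≤ 1) {δ : ℝ} (hδ : 0 < δ) :
    ∃ k : ℕ, 1 ≤ k ∧ ∃ A : List Bool → Bool,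
      Ew (2 * k) (fun l => if A l then 1 else 0) ≤ ENNReal.ofReal δ ∧
      ∀ c, c < k → Ew (2 * k) (fun l => if A l then 0 else Mp K s l c) ≤ ENNReal.ofReal δ := by
  have hK := h.2.1
  have hε : 0 < δ * s ^ 4 / 400 := by positivity
  obtain ⟨m, k, J, hm, hJ, hV, p1, p2, p3⟩ := s0_param h hε
  obtain ⟨n, hn⟩ : ∃ n, n + m = 2 * k := ⟨2 * k - m, by omega⟩
  have hJ' : (0 : ℝ) < J := by exact_mod_cast hJ
  refine ⟨k, by omega, fun l => decide (s ^ 2 * Vs (ur K) m * J / 2 ≤ Xs (ur K) m n l), ?_, ?_⟩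
  · set V := Vs (ur K) m with hVdef
    have ht : 0 < s ^ 2 * V * J / 2 := by positivity
    have e : Ew (2 * k) (fun l => if decide (s ^ 2 * V * J / 2 ≤ Xs (ur K) m n l) then 1 else 0) ≤
        Ew (2 * k) (fun l => ENNReal.ofReal (Xs (ur K) m n l ^ 2 / (s ^ 2 * V * J / 2) ^ 2)) := by
      refine Ew_mono fun l _ => ?_
      split_ifs with hl
      · rw [decide_eq_true_iff] at hl
        refine ENNReal.one_le_ofReal.2 ?_
        rw [le_div_iff₀ (by positivity), one_mul]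
        gcongr
      · exact zero_le
    refine e.trans ?_
    rw [s0core_ofReal _ _ fun _ => by positivity, ← hn]
    refine ENNReal.ofReal_le_ofReal ?_
    rw [← Finset.sum_div, ← mul_div_assoc, div_le_iff₀ (by positivity)]
    refine (s0_null (ur_nonneg (K := K)) (ur_le_one hK) m n).trans ?_
    have h3 : (n : ℝ) ≤ 2 * k := by exact_mod_cast (by omega : n ≤ 2 * k)
    have h4 : 2 * n * V ≤ 4 * (δ * s ^ 4 / 400 * V * J ^ 2) * V := by nlinarith
    have h5 : 0 ≤ δ * s ^ 4 * V ^ 2 * J ^ 2 := by positivity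
    nlinarith
  · intro c hc
    have e : Ew (2 * k) (fun l =>
        if decide (s ^ 2 * Vs (ur K) m * J / 2 ≤ Xs (ur K) m n l) then 0 else Mp K s l c) =
        Ew (2 * k) (fun l => ENNReal.ofReal (if s ^ 2 * Vs (ur K) m * J / 2 ≤ Xs (ur K) m n l
          then 0 else ∑ τ ∈ LS (n + m), (wp K τ c).toReal * (pr s τ l).toReal)) := by
      refine Ew_congr fun l hl => ?_
      simp only [decide_eq_true_iff]
      split_ifs
      · simp
      · rw [Mp_eq s hK, hl, ← hn, ENNReal.ofReal_sum_of_nonneg fun τ _ => by positivity]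
        refine Finset.sum_congr rfl fun τ _ => ?_
        rw [← ENNReal.toReal_mul, ENNReal.ofReal_toReal
          (ENNReal.mul_ne_top (s0core_wp_ne hK τ c) (pr_ne_top s τ l))]
    rw [e, s0core_ofReal _ _ fun l => by
      split_ifs
      exacts [le_rfl, Finset.sum_nonneg fun τ _ => by positivity], ← hn]
    refine ENNReal.ofReal_le_ofReal
      ((s0core_tilt hK h0 h1 hε hn hm hc hJ hV p1 p2 p3).trans_eq ?_)
    field_simp

theorem Ew_Mp (hK : ∑' c, K c = 1) {s : ℝ} (h0 : 0 ≤ s) (h1 : s ≤ 1) (n c : ℕ) :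
    Ew n (fun l => Mp K s l c) = 1 := by
  have e : Ew n (fun l => Mp K s l c) = Ew n fun l => ∑ τ ∈ LS n, wp K τ c * pr s τ l :=
    Ew_congr fun l hl => by rw [Mp_eq s hK, hl]
  rw [e, Ew_sum, ← wp_total hK n c]
  exact Finset.sum_congr rfl fun τ _ => by rw [Ew_const_mul, Ew_pr h0 h1, mul_one]

theorem s0core_pow {a : ℝ≥0∞} (ha : a ≠ 0) (ha' : a ≠ ⊤) (x : ℝ≥0∞) :
    x ^ (3 / 4 : ℝ) ≤ a ^ (3 / 4 : ℝ) + a ^ (3 / 4 : ℝ) * a⁻¹ * x := by
  rcases le_total x a with hx | hx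
  · exact (ENNReal.rpow_le_rpow hx (by norm_num)).trans le_self_add
  · have h1 : 1 ≤ a⁻¹ * x := by
      rw [← ENNReal.inv_mul_cancel ha ha']; gcongr
    have h2 : x = a * (a⁻¹ * x) := by
      rw [← mul_assoc, ENNReal.mul_inv_cancel ha ha', one_mul]
    have h3 := ENNReal.rpow_le_rpow_of_exponent_le h1 (by norm_num : (3 / 4 : ℝ) ≤ 1)
    rw [ENNReal.rpow_one] at h3
    calc x ^ (3 / 4 : ℝ) = a ^ (3 / 4 : ℝ) * (a⁻¹ * x) ^ (3 / 4 : ℝ) := by
          rw [← ENNReal.mul_rpow_of_nonneg _ _ (by norm_num), ← h2]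
      _ ≤ a ^ (3 / 4 : ℝ) * (a⁻¹ * x) := by gcongr
      _ ≤ _ := by rw [← mul_assoc]; exact le_add_self

/-- The fractional moment of the mass is small after one window. -/
theorem s0_core (h : Dk K C) {s : ℝ} (h0 : 0 < s) (h1 : s ≤ 1) {δ : ℝ} (hδ : 0 < δ) :
    ∃ k : ℕ, 1 ≤ k ∧ ∀ f : ℕ → ℝ≥0∞, (∀ c, k ≤ c → f c = 0) →
      Ew (2 * k) (fun l => pl f (Mp K s l) ^ (3 / 4 : ℝ)) ≤
        ENNReal.ofReal δ * (∑' c, f c) ^ (3 / 4 : ℝ) := by
  have hK := h.2.1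
  have hρ : 0 < min (δ / 3) 1 := lt_min (by positivity) one_pos
  obtain ⟨k, hk, A, hA, hB⟩ := s0_event h h0 h1 (pow_pos hρ 4)
  refine ⟨k, hk, fun f hf => ?_⟩
  rw [ENNReal.ofReal_pow hρ.le] at hA
  simp only [ENNReal.ofReal_pow hρ.le] at hB
  set r := ENNReal.ofReal (min (δ / 3) 1) with hr
  have hr0 : r ≠ 0 := (ENNReal.ofReal_pos.2 hρ).ne'
  have hr1 : r ≤ 1 := ENNReal.ofReal_le_one.2 (min_le_right _ _)
  have hrt : r ≠ ⊤ := ENNReal.ofReal_ne_top
  have hr3 : r + r + r ≤ ENNReal.ofReal δ := by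
    rw [hr, ← ENNReal.ofReal_add hρ.le hρ.le, ← ENNReal.ofReal_add (by positivity) hρ.le]
    exact ENNReal.ofReal_le_ofReal (by linarith [min_le_left (δ / 3) 1])
  set w := ∑' c, f c with hw
  by_cases hwt : w = ⊤
  · rw [hwt, ENNReal.top_rpow_of_pos (by norm_num),
      ENNReal.mul_top (ENNReal.ofReal_pos.2 hδ).ne']
    exact le_top
  by_cases hw0 : w = 0
  · have hf0 : ∀ c, f c = 0 := ENNReal.tsum_eq_zero.1 hw0
    have : ∀ l, pl f (Mp K s l) ^ (3 / 4 : ℝ) = 0 := fun l => by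
      simp [pl, hf0]
    simp only [this, Ew_const]
    exact zero_le
  have hp : (r ^ 4) ^ (3 / 4 : ℝ) = r ^ 3 := by
    rw [← ENNReal.rpow_natCast, ← ENNReal.rpow_mul, ← ENNReal.rpow_natCast]
    norm_num
  have h40 : r ^ 4 ≠ 0 := pow_ne_zero _ hr0
  have h4t : r ^ 4 ≠ ⊤ := ENNReal.pow_ne_top hrt
  have h30 : r ^ 3 ≠ 0 := pow_ne_zero _ hr0
  have h3t : r ^ 3 ≠ ⊤ := ENNReal.pow_ne_top hrt
  set a := w * (r ^ 4)⁻¹ with ha
  have ha0 : a ≠ 0 := mul_ne_zero hw0 (ENNReal.inv_ne_zero.2 h4t)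
  have hat : a ≠ ⊤ := ENNReal.mul_ne_top hwt (ENNReal.inv_ne_top.2 h40)
  have hap : a ^ (3 / 4 : ℝ) * r ^ 4 = r * w ^ (3 / 4 : ℝ) := by
    rw [ha, ENNReal.mul_rpow_of_nonneg _ _ (by norm_num), ENNReal.inv_rpow, hp, pow_succ r 3,
      mul_assoc, ← mul_assoc (r ^ 3)⁻¹, ENNReal.inv_mul_cancel h30 h3t, one_mul, mul_comm]
  have hai : a⁻¹ * w = r ^ 4 := by
    rw [ha, ENNReal.mul_inv (Or.inl hw0) (Or.inl hwt), inv_inv, mul_right_comm,
      ENNReal.inv_mul_cancel hw0 hwt, one_mul]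
  have e1 : Ew (2 * k) (fun l => pl f (Mp K s l)) = w := by
    simp only [pl]
    rw [Ew_tsum]
    exact tsum_congr fun c => by rw [Ew_const_mul, Ew_Mp hK h0.le h1, mul_one]
  have e2 : Ew (2 * k) (fun l => if A l then 0 else pl f (Mp K s l)) ≤ w * r ^ 4 := by
    have : (fun l => if A l then 0 else pl f (Mp K s l)) =
        fun l => ∑' c, f c * if A l then 0 else Mp K s l c := by
      funext l
      split_ifs <;> simp [pl]
    rw [this, Ew_tsum, hw, ← ENNReal.tsum_mul_right]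
    refine ENNReal.tsum_le_tsum fun c => ?_
    rw [Ew_const_mul]
    rcases lt_or_ge c k with hc | hc
    · exact mul_le_mul_right (hB c hc) _
    · simp [hf c hc]
  have e3 : Ew (2 * k) (fun l => (if A l then 0 else pl f (Mp K s l)) ^ (3 / 4 : ℝ)) ≤
      r * w ^ (3 / 4 : ℝ) := by
    refine (Ew_rpow_le _ (by norm_num) (by norm_num) _).trans
      ((ENNReal.rpow_le_rpow e2 (by norm_num)).trans ?_)
    rw [ENNReal.mul_rpow_of_nonneg _ _ (by norm_num), hp, mul_comm]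
    gcongr
    exact pow_le_of_le_one (zero_le) hr1 (by norm_num)
  calc Ew (2 * k) (fun l => pl f (Mp K s l) ^ (3 / 4 : ℝ))
      ≤ Ew (2 * k) (fun l => (if A l then 0 else pl f (Mp K s l)) ^ (3 / 4 : ℝ) +
          a ^ (3 / 4 : ℝ) * (if A l then 1 else 0) +
          a ^ (3 / 4 : ℝ) * a⁻¹ * pl f (Mp K s l)) := by
        refine Ew_mono fun l _ => ?_
        split_ifs
        · rw [mul_one, add_assoc]
          exact (s0core_pow ha0 hat _).trans le_add_self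
        · rw [add_assoc]
          exact le_self_add
    _ ≤ r * w ^ (3 / 4 : ℝ) + a ^ (3 / 4 : ℝ) * r ^ 4 + a ^ (3 / 4 : ℝ) * a⁻¹ * w := by
        rw [Ew_add, Ew_add, Ew_const_mul, Ew_const_mul, e1]
        gcongr
    _ = (r + r + r) * w ^ (3 / 4 : ℝ) := by
        rw [mul_assoc, hai, hap]; ring
    _ ≤ _ := by gcongr

end Pool.Agent.Lib.MP_153faa_pr.S0
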