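import Mathlib
import Pool.Agent.Lib.MP_153faa_pr.S0Core
import Pool.Agent.Lib.MP_153faa_pr.Heat

set_option autoImplicit false

open MeasureTheory
open scoped ENNReal NNReal

namespace Pool.Agent.Lib.MP_153faa_pr.S0

variable {K : ℕ → ℝ≥0∞} {C : ℝ}

theorem s0win_pl (f g : ℕ → ℝ≥0∞) (x : ℝ≥0∞) :
    pl (fun c => f (c + 1) + x * K c) g = ∑' c, f (c + 1) * g c + x * pl K g := by
  simp only [pl, add_mul, ENNReal.tsum_add, mul_assoc, ENNReal.tsum_mul_left]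

theorem s0win_split (f g : ℕ → ℝ≥0∞) : pl f g = f 0 * g 0 + ∑' c, f (c + 1) * g (c + 1) :=
  tsum_eq_zero_add' ENNReal.summable

theorem s0win_dual (s : ℝ) (l : List Bool) (f : ℕ → ℝ≥0∞) :
    ∑' c, Fp K s l f c = pl f (Mp K s l) := by
  induction l generalizing f with
  | nil => simp [Fp, Mp, pl]
  | cons b l ih =>
    rw [Fp, ih, s0win_pl, s0win_split f]
    simp only [Mp]
    ring

theorem s0win_mean {s : ℝ} (h0 : 0 ≤ s) (h1 : s ≤ 1) {c : ℕ} {b : ℝ≥0∞}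
    (hb : ∀ x, c ≤ x → K x ≤ b) (n : ℕ) (f : ℕ → ℝ≥0∞) :
    Ew n (fun l => Fp K s l f c) ≤ f (c + n) + (∑ a ∈ Finset.range n, pl f (up K a)) * b := by
  induction n generalizing f with
  | zero => simp [Ew_zero, Fp]
  | succ n ih =>
    set X := f (c + n + 1) + (∑ a ∈ Finset.range n, ∑' x, f (x + 1) * up K a x) * b with hX
    set Y := f 0 * b + (∑ a ∈ Finset.range n, f 0 * pl K (up K a)) * b with hY
    have key : ∀ e : Bool, Ew n (fun l => Fp K s (e :: l) f c) ≤ X + mk s e * Y := fun e => by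
      simp only [Fp]
      refine (ih _).trans ?_
      simp only [s0win_pl, Finset.sum_add_distrib]
      have h2 : mk s e * f 0 * K (c + n) ≤ mk s e * f 0 * b :=
        mul_le_mul_right (hb _ (by omega)) _
      refine (add_le_add_left (add_le_add_right h2 _) _).trans (le_of_eq ?_)
      rw [hX, hY, ← Finset.mul_sum, ← Finset.mul_sum]
      ring
    have e1 : ∑ a ∈ Finset.range (n + 1), pl f (up K a) = f 0 +
        (∑ a ∈ Finset.range n, f 0 * pl K (up K a) +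
          ∑ a ∈ Finset.range n, ∑' x, f (x + 1) * up K a x) := by
      rw [Finset.sum_range_succ', add_comm, ← Finset.sum_add_distrib]
      congr 1
      · rw [s0win_split]; simp [up]
      · exact Finset.sum_congr rfl fun a _ => by rw [s0win_split]; simp only [up]
    have e2 : 2⁻¹ * (X + mk s true * Y + (X + mk s false * Y)) = X + Y := by
      have e3 : (2⁻¹ : ℝ≥0∞) * 2 = 1 := ENNReal.inv_mul_cancel (by norm_num) (by norm_num)
      calc _ = 2⁻¹ * 2 * X + 2⁻¹ * (mk s true + mk s false) * Y := by ring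
        _ = _ := by rw [e3, mk_avg h0 h1, one_mul, one_mul]
    rw [Ew_succ]
    refine (mul_le_mul_right (add_le_add (key true) (key false)) _).trans (le_of_eq ?_)
    rw [e2, e1, hX, hY, ← add_assoc c n 1]
    ring

theorem s0win_up (n : ℕ) (f : ℕ → ℝ≥0∞) :
    ∑ a ∈ Finset.range n, pl f (up K a) ≤ (∑' c, f c) * Uu K n := by
  simp only [pl]
  rw [← Summable.tsum_finsetSum fun _ _ => ENNReal.summable, ← ENNReal.tsum_mul_right]
  refine ENNReal.tsum_le_tsum fun c => ?_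
  rw [← Finset.mul_sum]
  exact mul_le_mul_right (sum_up_le n c) _

theorem s0win_real {k r x : ℝ} (hC : 0 ≤ C) (hk : 0 < k) (hr : 0 < r) (hx : r * k ≤ x) :
    k * (3 * C * √k * x ^ (-(3 / 2) : ℝ)) ≤ 3 * C * r ^ (-(3 / 2) : ℝ) := by
  have h1 : x ^ (-(3 / 2) : ℝ) ≤ (r * k) ^ (-(3 / 2) : ℝ) :=
    Real.rpow_le_rpow_of_nonpos (by positivity) hx (by norm_num)
  have h2 : k * √k * k ^ (-(3 / 2) : ℝ) = 1 := by
    rw [Real.sqrt_eq_rpow, ← Real.rpow_one_add' hk.le (by norm_num), ← Real.rpow_add hk]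
    norm_num
  rw [Real.mul_rpow hr.le hk.le] at h1
  calc _ ≤ k * (3 * C * √k * (r ^ (-(3 / 2) : ℝ) * k ^ (-(3 / 2) : ℝ))) := by gcongr
    _ = 3 * C * r ^ (-(3 / 2) : ℝ) * (k * √k * k ^ (-(3 / 2) : ℝ)) := by ring
    _ = _ := by rw [h2, mul_one]

/-- The mean of a far block. -/
theorem s0win_block (h : Dk K C) {s : ℝ} (h0 : 0 ≤ s) (h1 : s ≤ 1) {k r : ℕ} (hk : 1 ≤ k)
    (hr : 1 ≤ r) {f : ℕ → ℝ≥0∞} (hf : ∀ c, k ≤ c → f c = 0) :
    Ew (2 * k) (fun l => ∑ c ∈ Finset.range k, Fp K s l f (r * k + c)) ≤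
      ENNReal.ofReal (3 * C * (r : ℝ) ^ (-(3 / 2) : ℝ)) * ∑' c, f c := by
  set b : ℝ≥0∞ := ⨆ x : {x // r * k ≤ x}, K x with hb
  have hC : 0 ≤ C := zero_le_one.trans h.1
  have h2 : k * (Uu K (2 * k) * b) ≤ ENNReal.ofReal (3 * C * (r : ℝ) ^ (-(3 / 2) : ℝ)) := by
    rw [hb, ENNReal.mul_iSup, ENNReal.mul_iSup]
    refine iSup_le fun x => ?_
    have h3 : k ≤ (x : ℕ) + 1 := by
      have := x.2
      have := Nat.mul_le_mul_right k hr
      omega
    refine (mul_le_mul_right (Uu_mul_K_le h hk h3) _).trans ?_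
    rw [← ENNReal.ofReal_natCast, ← ENNReal.ofReal_mul (Nat.cast_nonneg _)]
    refine ENNReal.ofReal_le_ofReal (s0win_real hC (by exact_mod_cast hk) (by exact_mod_cast hr) ?_)
    have : ((r * k : ℕ) : ℝ) ≤ (x : ℕ) := by exact_mod_cast x.2
    push_cast at this
    linarith
  have h4 : ∀ c ∈ Finset.range k, Ew (2 * k) (fun l => Fp K s l f (r * k + c)) ≤
      (∑' c, f c) * Uu K (2 * k) * b := fun c _ => by
    refine (s0win_mean h0 h1 (b := b) (fun x hx => ?_) _ f).trans ?_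
    · exact le_iSup (fun x : {x // r * k ≤ x} => K x) ⟨x, by omega⟩
    · rw [hf _ (by omega), zero_add]
      exact mul_le_mul_left (s0win_up _ f) _
  rw [Ew_sum]
  refine (Finset.sum_le_sum h4).trans ?_
  rw [Finset.sum_const, Finset.card_range, nsmul_eq_mul]
  calc _ = k * (Uu K (2 * k) * b) * ∑' c, f c := by ring
    _ ≤ _ := mul_le_mul_left h2 _

theorem s0win_pow {r : ℝ} (hC : 1 ≤ C) (hr : 0 < r) :
    ENNReal.ofReal (3 * C * r ^ (-(3 / 2) : ℝ)) ^ (3 / 4 : ℝ) ≤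
      ENNReal.ofReal (3 * C) * ENNReal.ofReal (r ^ (-1 - 1 / 8 : ℝ)) := by
  rw [ENNReal.ofReal_rpow_of_nonneg (by positivity) (by norm_num),
    ← ENNReal.ofReal_mul (by positivity), Real.mul_rpow (by positivity) (by positivity),
    ← Real.rpow_mul hr.le]
  refine ENNReal.ofReal_le_ofReal ?_
  have h1 : (3 * C) ^ (3 / 4 : ℝ) ≤ 3 * C := Real.rpow_le_self_of_one_le (by linarith) (by norm_num)
  rw [show (-(3 / 2) * (3 / 4) : ℝ) = -1 - 1 / 8 by norm_num]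
  gcongr

theorem s0win_tail (hC : 1 ≤ C) : ∃ m : ℕ, 1 ≤ m ∧
    3 * C * ((m : ℝ) ^ (-(1 / 8) : ℝ) / (1 / 8)) ≤ 8⁻¹ := by
  obtain ⟨m, hm⟩ := exists_nat_ge ((192 * C) ^ 8)
  have h1 : (1 : ℝ) ≤ (192 * C) ^ 8 := one_le_pow₀ (by linarith)
  refine ⟨m, by exact_mod_cast h1.trans hm, ?_⟩
  have h2 : (m : ℝ) ^ (-(1 / 8) : ℝ) ≤ ((192 * C) ^ 8) ^ (-(1 / 8) : ℝ) :=
    Real.rpow_le_rpow_of_nonpos (by positivity) hm (by norm_num)
  rw [← Real.rpow_natCast, ← Real.rpow_mul (by positivity),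
    show ((8 : ℕ) : ℝ) * -(1 / 8) = -1 by norm_num, Real.rpow_neg_one] at h2
  calc _ ≤ 3 * C * ((192 * C)⁻¹ / (1 / 8)) := by gcongr
    _ = _ := by field_simp; norm_num

/-- Contraction of the fractional block masses over one window. -/
theorem s0_window (h : Dk K C) {s : ℝ} (h0 : 0 < s) (h1 : s ≤ 1) :
    ∃ k : ℕ, 1 ≤ k ∧ ∀ f : ℕ → ℝ≥0∞, (∀ c, k ≤ c → f c = 0) →
      ∑' r : ℕ, Ew (2 * k)
          (fun l => (∑ c ∈ Finset.range k, Fp K s l f (r * k + c)) ^ (3 / 4 : ℝ)) ≤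
        4⁻¹ * (∑' c, f c) ^ (3 / 4 : ℝ) := by
  have hC := h.1
  obtain ⟨m, hm, hm'⟩ := s0win_tail hC
  obtain ⟨k, hk, hc⟩ := s0_core h h0 h1 (δ := 8⁻¹ / ((m + 1 : ℕ) : ℝ)) (by positivity)
  refine ⟨k, hk, fun f hf => ?_⟩
  set w := (∑' c, f c) ^ (3 / 4 : ℝ) with hw
  set G : ℕ → ℝ≥0∞ := fun r => Ew (2 * k)
    (fun l => (∑ c ∈ Finset.range k, Fp K s l f (r * k + c)) ^ (3 / 4 : ℝ)) with hG
  have a1 : ∀ r ∈ Finset.range (m + 1), G r ≤ ENNReal.ofReal (8⁻¹ / ((m + 1 : ℕ) : ℝ)) * w :=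
    fun r _ => by
      refine le_trans (Ew_mono fun l _ => ENNReal.rpow_le_rpow ?_ (by norm_num)) (hc f hf)
      rw [← s0win_dual]
      exact (ENNReal.sum_le_tsum _).trans
        (ENNReal.tsum_comp_le_tsum_of_injective (add_right_injective (r * k)) _)
  have a2 : ∑ r ∈ Finset.range (m + 1), G r ≤ ENNReal.ofReal 8⁻¹ * w := by
    refine (Finset.sum_le_sum a1).trans (le_of_eq ?_)
    rw [Finset.sum_const, Finset.card_range, nsmul_eq_mul, ← mul_assoc, ← ENNReal.ofReal_natCast,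
      ← ENNReal.ofReal_mul (Nat.cast_nonneg _), mul_div_cancel₀ _ (by positivity)]
  have a3 : ∀ i, G (i + (m + 1)) ≤ ENNReal.ofReal (3 * C) *
      ENNReal.ofReal ((((i + m : ℕ) : ℝ) + 1) ^ (-1 - 1 / 8 : ℝ)) * w := fun i => by
    refine (Ew_rpow_le _ (by norm_num) (by norm_num) _).trans ?_
    refine (ENNReal.rpow_le_rpow (s0win_block h h0.le h1 hk (by omega) hf) (by norm_num)).trans ?_
    rw [ENNReal.mul_rpow_of_nonneg _ _ (by norm_num),
      show ((i + (m + 1) : ℕ) : ℝ) = ((i + m : ℕ) : ℝ) + 1 by push_cast; ring]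
    exact mul_le_mul_left (s0win_pow hC (by positivity)) _
  have a4 : ∑' i, G (i + (m + 1)) ≤ ENNReal.ofReal 8⁻¹ * w := by
    refine (ENNReal.tsum_le_tsum a3).trans ?_
    rw [ENNReal.tsum_mul_right, ENNReal.tsum_mul_left]
    refine mul_le_mul_left ((mul_le_mul_right (tail_sum (by norm_num) hm) _).trans ?_) _
    rw [← ENNReal.ofReal_mul (by positivity)]
    exact ENNReal.ofReal_le_ofReal hm'
  rw [← Summable.sum_add_tsum_nat_add' (f := G) (k := m + 1) ENNReal.summable]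
  refine (add_le_add a2 a4).trans (le_of_eq ?_)
  rw [← add_mul, ← ENNReal.ofReal_add (by norm_num) (by norm_num),
    show (8⁻¹ + 8⁻¹ : ℝ) = 4⁻¹ by norm_num, ENNReal.ofReal_inv_of_pos (by norm_num),
    ENNReal.ofReal_ofNat]

end Pool.Agent.Lib.MP_153faa_pr.S0
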