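import Mathlib
import Pool.Agent.Lib.MP_153faa_pr.S0Once
import Pool.Agent.Lib.MP_153faa_pr.S0Win
import Pool.Agent.Lib.MP_153faa_pr.OneA

set_option autoImplicit false

open MeasureTheory
open scoped ENNReal NNReal

namespace Pool.Agent.Lib.MP_153faa_pr.S0

variable {K : ℕ → ℝ≥0∞} {C : ℝ}

theorem s0cg_pl_split (f g : ℕ → ℝ≥0∞) :
    pl f g = f 0 * g 0 + ∑' c, f (c + 1) * g (c + 1) :=
  tsum_eq_zero_add' ENNReal.summable

theorem s0cg_append (k : ℕ → ℝ≥0∞) (s : ℝ) (l₁ l₂ : List Bool) (f : ℕ → ℝ≥0∞) :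
    pl f (Hp k s (l₁ ++ l₂)) = pl f (Hp k s l₁) + pl (Fp k s l₁ f) (Hp k s l₂) := by
  induction l₁ generalizing f with
  | nil => simp [pl, Hp, Fp]
  | cons b l ih =>
    have e : ∀ l' : List Bool, pl f (Hp k s (b :: l')) =
        mk s b * f 0 + pl (fun c => f (c + 1) + mk s b * f 0 * k c) (Hp k s l') := by
      intro l'
      rw [s0cg_pl_split]
      simp only [Hp, pl, add_mul, ENNReal.tsum_add, mul_assoc, ENNReal.tsum_mul_left]
      ring
    rw [List.cons_append, e, e, ih, Fp, add_assoc]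

theorem s0cg_Hp_drop (k : ℕ → ℝ≥0∞) (s : ℝ) (l : List Bool) (j c : ℕ) :
    Hp k s l (j + c) = Hp k s (l.drop j) c := by
  induction j generalizing l with
  | zero => simp
  | succ j ih =>
    cases l with
    | nil => simp [Hp]
    | cons b l => rw [show j + 1 + c = j + c + 1 by omega, Hp, ih, List.drop_succ_cons]

theorem s0cg_Ew_drop (n j : ℕ) (G : List Bool → ℝ≥0∞) :
    Ew n (fun l => G (l.drop j)) = Ew (n - j) G := by
  induction j generalizing n with
  | zero => simp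
  | succ j ih =>
    cases n with
    | zero => simp [Ew_zero]
    | succ n =>
      rw [Ew_succ]
      simp only [List.drop_succ_cons, ih, Nat.add_sub_add_right]
      rw [← two_mul, ← mul_assoc, ENNReal.inv_mul_cancel (by norm_num) (by norm_num), one_mul]

theorem s0cg_Fp_le {k : ℕ → ℝ≥0∞} {h : ℝ≥0∞} (h1 : 1 ≤ h) (hk : ∀ c, k c ≤ h * K c) (s : ℝ)
    (l : List Bool) (a : ℝ≥0∞) {f g : ℕ → ℝ≥0∞} (hf : ∀ c, f c ≤ a * g c) (c : ℕ) :
    Fp k s l f c ≤ a * h ^ l.length * Fp K s l g c := by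
  induction l generalizing a f g with
  | nil => simpa [Fp] using hf c
  | cons b l ih =>
    rw [Fp, Fp, List.length_cons, pow_succ', ← mul_assoc]
    refine ih (a * h) fun c => ?_
    calc f (c + 1) + mk s b * f 0 * k c ≤ a * 1 * g (c + 1) + mk s b * (a * g 0) * (h * K c) := by
          rw [mul_one]
          exact add_le_add (hf _) (mul_le_mul' (mul_le_mul' le_rfl (hf 0)) (hk c))
      _ ≤ a * h * g (c + 1) + mk s b * (a * g 0) * (h * K c) := by gcongr
      _ = _ := by ring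

theorem s0cg_Ew_Hp (hK : ∑' c, K c = 1) {k : ℕ → ℝ≥0∞} {h : ℝ≥0∞} (h1 : 1 ≤ h)
    (hk : ∀ c, k c ≤ h * K c) {s : ℝ} (s0 : 0 ≤ s) (s1 : s ≤ 1) (n c : ℕ) :
    Ew n (fun l => Hp k s l c) ≤ n * h ^ n := by
  induction n generalizing c with
  | zero => simp [Ew_zero, Hp]
  | succ n ih =>
    have hmono : (n : ℝ≥0∞) * h ^ n ≤ (n + 1 : ℕ) * h ^ (n + 1) := by
      push_cast
      exact mul_le_mul' le_self_add (pow_le_pow_right₀ h1 (Nat.le_succ n))
    rw [Ew_succ]
    cases c with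
    | succ c =>
      simp only [Hp]
      rw [← two_mul, ← mul_assoc, ENNReal.inv_mul_cancel (by norm_num) (by norm_num), one_mul]
      exact (ih c).trans hmono
    | zero =>
      simp only [Hp]
      rw [Ew_const_mul, Ew_const_mul, ← add_mul, ← mul_assoc, mk_avg s0 s1, one_mul, Ew_add,
        Ew_const]
      have e : Ew n (fun l => pl k (Hp k s l)) ≤ h * (n * h ^ n) := by
        unfold pl
        rw [Ew_tsum]
        calc ∑' c, Ew n (fun l => k c * Hp k s l c) ≤ ∑' c, K c * (h * (n * h ^ n)) := by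
              refine ENNReal.tsum_le_tsum fun c => ?_
              rw [Ew_const_mul]
              calc k c * Ew n (fun l => Hp k s l c) ≤ h * K c * (n * h ^ n) :=
                    mul_le_mul' (hk c) (ih c)
                _ = _ := by ring
          _ = _ := by rw [ENNReal.tsum_mul_right, hK, one_mul]
      have e2 : (1 : ℝ≥0∞) ≤ h ^ (n + 1) := one_le_pow₀ h1
      calc 1 + Ew n (fun l => pl k (Hp k s l)) ≤ h ^ (n + 1) + h * (n * h ^ n) := add_le_add e2 e
        _ = _ := by push_cast; ring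

theorem s0cg_short (hK : ∑' c, K c = 1) {k : ℕ → ℝ≥0∞} {h : ℝ≥0∞} (h1 : 1 ≤ h)
    (hk : ∀ c, k c ≤ h * K c) {s : ℝ} (s0 : 0 ≤ s) (s1 : s ≤ 1) {N n : ℕ} (hn : n ≤ N)
    (hh : h ^ N ≤ 2) (f : ℕ → ℝ≥0∞) :
    Ew n (fun l => pl f (Hp k s l) ^ (3 / 4 : ℝ)) ≤
      (2 * N) ^ (3 / 4 : ℝ) * (∑' c, f c) ^ (3 / 4 : ℝ) := by
  refine (Ew_rpow_le n (by norm_num) (by norm_num) _).trans ?_
  rw [← ENNReal.mul_rpow_of_nonneg _ _ (by norm_num)]
  refine ENNReal.rpow_le_rpow ?_ (by norm_num)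
  unfold pl
  rw [Ew_tsum, ← ENNReal.tsum_mul_left]
  refine ENNReal.tsum_le_tsum fun c => ?_
  rw [Ew_const_mul, mul_comm]
  refine mul_le_mul' ((s0cg_Ew_Hp hK h1 hk s0 s1 n c).trans ?_) le_rfl
  rw [mul_comm]
  exact mul_le_mul' ((pow_le_pow_right₀ h1 hn).trans hh) (by exact_mod_cast hn)

theorem s0cg_blocks {k : ℕ} (hk : 1 ≤ k) (F : ℕ → ℝ≥0∞) :
    ∑' c, F c = ∑' r : ℕ, ∑ c ∈ Finset.range k, F (r * k + c) := by
  have : NeZero k := ⟨by omega⟩
  rw [← (Nat.divModEquiv k).symm.tsum_eq, ENNReal.tsum_prod']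
  refine tsum_congr fun r => ?_
  rw [tsum_fintype, Finset.sum_range]
  rfl

/-- Bounded fractional moments slightly beyond the annealed critical point. -/
theorem s0_pin (h : Dk K C) {s : ℝ} (h0 : 0 < s) (h1 : s ≤ 1) :
    ∃ κ : ℝ, 0 < κ ∧ ∃ B : ℝ≥0∞, B ≠ ⊤ ∧ ∀ k : ℕ → ℝ≥0∞,
      (∀ c, k c ≤ (1 + ENNReal.ofReal κ) * K c) → ∀ n,
        Ew n (fun l => (1 + pl k (Hp k s l)) ^ (3 / 4 : ℝ)) ≤ B := by
  obtain ⟨m, hm1, hwin⟩ := s0_window h h0 h1
  have hK := h.2.1
  have hmR : (0 : ℝ) < m := by exact_mod_cast hm1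
  set κ : ℝ := 1 / (4 * m) with hκ
  have hκ0 : 0 < κ := by positivity
  set B₀ : ℝ≥0∞ := (2 * (2 * m : ℕ)) ^ (3 / 4 : ℝ) with hB₀
  have hB₀t : B₀ ≠ ⊤ :=
    ENNReal.rpow_ne_top_of_nonneg (by norm_num) (ENNReal.mul_ne_top (by norm_num) (ENNReal.natCast_ne_top _))
  refine ⟨κ, hκ0, 2 * (2 * B₀), ENNReal.mul_ne_top (by norm_num)
    (ENNReal.mul_ne_top (by norm_num) hB₀t), fun k hk => ?_⟩
  set g : ℝ≥0∞ := 1 + ENNReal.ofReal κ with hg
  have hg1 : 1 ≤ g := le_self_add
  have hg2 : g ^ (2 * m) ≤ 2 := by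
    rw [hg, ← ENNReal.ofReal_one, ← ENNReal.ofReal_add zero_le_one hκ0.le,
      ← ENNReal.ofReal_pow (by linarith), ← ENNReal.ofReal_ofNat]
    refine ENNReal.ofReal_le_ofReal ?_
    have a1 : 1 + κ ≤ Real.exp κ := by linarith [Real.add_one_le_exp κ]
    have a2 : (1 + κ) ^ (2 * m) ≤ Real.exp κ ^ (2 * m) := by gcongr
    rw [← Real.exp_nat_mul] at a2
    have a3 : ((2 * m : ℕ) : ℝ) * κ = 1 / 2 := by rw [hκ]; push_cast; field_simp; norm_num
    rw [a3] at a2
    refine a2.trans ?_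
    have a4 : Real.exp (1 / 2) ^ 2 = Real.exp 1 := by rw [← Real.exp_nat_mul]; norm_num
    have a5 := Real.exp_one_lt_d9
    nlinarith [Real.exp_pos (1 / 2)]
  have main : ∀ n : ℕ, ∀ f : ℕ → ℝ≥0∞, (∀ c, m ≤ c → f c = 0) →
      Ew n (fun l => pl f (Hp k s l) ^ (3 / 4 : ℝ)) ≤ 2 * B₀ * (∑' c, f c) ^ (3 / 4 : ℝ) := by
    intro n
    induction n using Nat.strong_induction_on with
    | _ n ih =>
      intro f hf
      by_cases hn : n ≤ 2 * m
      · refine (s0cg_short hK hg1 hk h0.le h1 hn hg2 f).trans ?_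
        rw [two_mul B₀]
        exact mul_le_mul' le_self_add le_rfl
      · obtain ⟨n', rfl⟩ : ∃ n', n = 2 * m + n' := ⟨n - 2 * m, by omega⟩
        rw [Ew_append]
        have step : ∀ l₁ : List Bool, l₁.length = 2 * m →
            Ew n' (fun l₂ => pl f (Hp k s (l₁ ++ l₂)) ^ (3 / 4 : ℝ)) ≤
              pl f (Hp k s l₁) ^ (3 / 4 : ℝ) + 2 * B₀ * 2 * ∑' r : ℕ,
                (∑ c ∈ Finset.range m, Fp K s l₁ f (r * m + c)) ^ (3 / 4 : ℝ) := by
          intro l₁ hl₁
          set F := Fp k s l₁ f with hF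
          have a1 : ∀ l₂ : List Bool, pl f (Hp k s (l₁ ++ l₂)) ^ (3 / 4 : ℝ) ≤
              pl f (Hp k s l₁) ^ (3 / 4 : ℝ) + ∑' r : ℕ,
                pl (fun c => if c < m then F (r * m + c) else 0)
                  (Hp k s (l₂.drop (r * m))) ^ (3 / 4 : ℝ) := by
            intro l₂
            rw [s0cg_append]
            refine (ENNReal.rpow_add_le_add_rpow _ _ (by norm_num) (by norm_num)).trans ?_
            refine add_le_add le_rfl (le_trans (le_of_eq ?_)
              (tsum_rpow_le _ (by norm_num) (by norm_num)))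
            congr 1
            unfold pl
            rw [s0cg_blocks hm1]
            refine tsum_congr fun r => ?_
            rw [tsum_eq_sum (s := Finset.range m) fun c hc => by
              beta_reduce
              rw [if_neg (by simpa using hc), zero_mul]]
            refine Finset.sum_congr rfl fun c hc => ?_
            beta_reduce
            rw [if_pos (Finset.mem_range.1 hc), s0cg_Hp_drop]
          refine (Ew_mono fun l₂ _ => a1 l₂).trans ?_
          rw [Ew_add, Ew_const, Ew_tsum, ← ENNReal.tsum_mul_left]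
          refine add_le_add le_rfl (ENNReal.tsum_le_tsum fun r => ?_)
          rw [s0cg_Ew_drop n' (r * m) fun l => pl (fun c => if c < m then F (r * m + c) else 0)
            (Hp k s l) ^ (3 / 4 : ℝ)]
          refine (ih _ (by omega) _ fun c hc => if_neg (by omega)).trans ?_
          rw [mul_assoc (2 * B₀)]
          refine mul_le_mul' le_rfl ?_
          have a2 : (∑' c, if c < m then F (r * m + c) else 0) ≤
              2 * ∑ c ∈ Finset.range m, Fp K s l₁ f (r * m + c) := by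
            rw [tsum_eq_sum (s := Finset.range m) fun c hc => if_neg (by simpa using hc),
              Finset.mul_sum]
            refine Finset.sum_le_sum fun c hc => ?_
            rw [if_pos (Finset.mem_range.1 hc)]
            refine (s0cg_Fp_le hg1 hk s l₁ 1 (g := f) (fun c => by rw [one_mul]) _).trans ?_
            rw [one_mul, hl₁]
            exact mul_le_mul' hg2 le_rfl
          refine (ENNReal.rpow_le_rpow a2 (by norm_num)).trans ?_
          rw [ENNReal.mul_rpow_of_nonneg _ _ (by norm_num)]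
          refine mul_le_mul' ?_ le_rfl
          calc (2 : ℝ≥0∞) ^ (3 / 4 : ℝ) ≤ 2 ^ (1 : ℝ) :=
                ENNReal.rpow_le_rpow_of_exponent_le (by norm_num) (by norm_num)
            _ = 2 := ENNReal.rpow_one _
        refine (Ew_mono step).trans ?_
        rw [Ew_add, Ew_const_mul, Ew_tsum]
        refine (add_le_add (s0cg_short hK hg1 hk h0.le h1 le_rfl hg2 f)
          (mul_le_mul' le_rfl (hwin f hf))).trans (le_of_eq ?_)
        have e4 : (2 : ℝ≥0∞) * 2 * 4⁻¹ = 1 := by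
          rw [show (2 : ℝ≥0∞) * 2 = 4 by norm_num]
          exact ENNReal.mul_inv_cancel (by norm_num) (by norm_num)
        calc B₀ * (∑' c, f c) ^ (3 / 4 : ℝ) + 2 * B₀ * 2 * (4⁻¹ * (∑' c, f c) ^ (3 / 4 : ℝ))
            = B₀ * (∑' c, f c) ^ (3 / 4 : ℝ) +
              (2 * 2 * 4⁻¹) * (B₀ * (∑' c, f c) ^ (3 / 4 : ℝ)) := by ring
          _ = _ := by rw [e4]; ring
  intro n
  have a1 := main (n + 1) (fun c => if c = 0 then 1 else 0) fun c hc => if_neg (by omega)
  have e1 : ∀ l : List Bool, pl (fun c => if c = 0 then 1 else 0) (Hp k s l) = Hp k s l 0 := by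
    intro l
    rw [s0cg_pl_split]; simp
  simp only [e1, tsum_ite_eq, ENNReal.one_rpow, mul_one] at a1
  rw [Ew_succ] at a1
  have a2 : Ew n (fun l => (1 + pl k (Hp k s l)) ^ (3 / 4 : ℝ)) ≤
      Ew n fun l => Hp k s (true :: l) 0 ^ (3 / 4 : ℝ) := by
    refine Ew_mono fun l _ => ENNReal.rpow_le_rpow ?_ (by norm_num)
    rw [Hp]
    refine le_mul_of_one_le_left zero_le ?_
    simp only [mk, if_true]
    rw [← ENNReal.ofReal_one]
    exact ENNReal.ofReal_le_ofReal (by linarith)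
  calc _ ≤ Ew n fun l => Hp k s (true :: l) 0 ^ (3 / 4 : ℝ) := a2
    _ = 2 * (2⁻¹ * Ew n fun l => Hp k s (true :: l) 0 ^ (3 / 4 : ℝ)) := by
        rw [← mul_assoc, ENNReal.mul_inv_cancel (by norm_num) (by norm_num), one_mul]
    _ ≤ 2 * (2 * B₀) := mul_le_mul' le_rfl (le_trans (mul_le_mul' le_rfl le_self_add) a1)

end Pool.Agent.Lib.MP_153faa_pr.S0
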