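import Mathlib
import Pool.Agent.Lib.MP_153faa_pr.S0Defs
import Pool.Agent.Lib.MP_153faa_pr.GreenQ

set_option autoImplicit false

open MeasureTheory
open scoped ENNReal NNReal

namespace Pool.Agent.Lib.MP_153faa_pr.S0

open Pool.Agent.Lib.MP_a3b629_pr (srw pE)

variable {d : ℕ}

theorem s0_gsum_ne_zero (hd : 1 ≤ d) : gsum d ≠ 0 := fun e => by
  have : mass (avg (dlt (0 : Site d))) = 0 := ENNReal.tsum_eq_zero.2 fun x => by
    simpa using ENNReal.tsum_eq_zero.1 (ENNReal.tsum_eq_zero.1 e 0) x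
  simp [mass_avg hd, mass_dlt] at this

theorem s0ker_rr (hd : 1 ≤ d) (c : ℕ) : rr d c = ENNReal.ofReal (srw d (c + 1 + (c + 1)) 0) := by
  rw [rr, nq, heat_pE hd]
  simp only [ENNReal.rpow_two, sq]
  exact heat_sq hd _

theorem s0ker_low (hd : 1 ≤ d) {n : ℕ} (hn : 1 ≤ n) :
    1 ≤ 4 * (17 * d : ℝ) ^ d * (n : ℝ) ^ ((d : ℝ) / 2) * srw d (n + n) 0 := by
  have hd' : (1 : ℝ) ≤ d := by exact_mod_cast hd
  have hn' : (1 : ℝ) ≤ n := by exact_mod_cast hn
  set R : ℕ := 4 * d * (n.sqrt + 1) with hR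
  have s1 : (n : ℝ) ≤ ((n.sqrt : ℝ) + 1) ^ 2 := by
    exact_mod_cast (Nat.lt_succ_sqrt' n).le
  have s2 : (n.sqrt : ℝ) ≤ √n := Real.nat_sqrt_le_real_sqrt
  have s3 : 1 ≤ √(n : ℝ) := Real.one_le_sqrt.2 hn'
  have h1 : 2 * d * Real.exp (-(R : ℝ) ^ 2 / (2 * n)) ≤ 1 / 2 := by
    have a1 : -(R : ℝ) ^ 2 / (2 * n) ≤ -(8 * d ^ 2) := by
      rw [div_le_iff₀ (by positivity), hR]
      push_cast
      nlinarith [mul_le_mul_of_nonneg_left s1 (by positivity : (0 : ℝ) ≤ 16 * d ^ 2)]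
    have a2 := Real.add_one_le_exp (8 * (d : ℝ) ^ 2)
    have a3 : Real.exp (-(8 * (d : ℝ) ^ 2)) * Real.exp (8 * d ^ 2) = 1 := by
      rw [← Real.exp_add]; simp
    have a4 := Real.exp_le_exp.2 a1
    have a5 := Real.exp_pos (-(8 * (d : ℝ) ^ 2))
    have a6 : Real.exp (-(8 * (d : ℝ) ^ 2)) * (4 * d) ≤ 1 := by
      rw [← a3]
      exact mul_le_mul_of_nonneg_left (by nlinarith) a5.le
    nlinarith
  have h0 := fun x : Site d => MP_a3b629_pr.srw_nonneg d n x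
  have h2 : 1 / 2 ≤ ∑ x ∈ box d R, srw d n x := by
    have a0 := escape hd R (le_refl n) hn
    rw [heat_pE hd] at a0
    have a1 : (1 : ℝ≥0∞) ≤ ∑ x ∈ box d R, pE d n x + ENNReal.ofReal (1 / 2) := by
      refine le_trans ?_ (add_le_add_right (a0.trans (ENNReal.ofReal_le_ofReal h1)) _)
      refine (MP_a3b629_pr.tsum_pE hd n).symm.trans_le ?_
      rw [sum_eq_tsum_indicator, ← ENNReal.tsum_add]
      refine ENNReal.tsum_le_tsum fun x => ?_
      by_cases hx : x ∈ box d R <;> simp [hx]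
    have a2 : 0 ≤ ∑ x ∈ box d R, srw d n x := Finset.sum_nonneg fun x _ => h0 x
    unfold pE at a1
    rw [← ENNReal.ofReal_sum_of_nonneg (fun x _ => h0 x),
      ← ENNReal.ofReal_add a2 (by norm_num), ENNReal.one_le_ofReal] at a1
    linarith
  have h3 : ∑ x ∈ box d R, srw d n x ^ 2 ≤ srw d (n + n) 0 := by
    have a1 := (ENNReal.sum_le_tsum (f := fun y => pE d n y * pE d n y) (box d R)).trans_eq
      (heat_sq hd n)
    unfold pE at a1
    simp only [← ENNReal.ofReal_mul (h0 _)] at a1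
    rw [← ENNReal.ofReal_sum_of_nonneg fun x _ => mul_self_nonneg _,
      ENNReal.ofReal_le_ofReal_iff (MP_a3b629_pr.srw_nonneg _ _ _)] at a1
    simpa only [sq] using a1
  have h4 := sq_sum_le_card_mul_sum_sq (s := box d R) (f := srw d n)
  have h5 : ((box d R).card : ℝ) ≤ (17 * d : ℝ) ^ d * (n : ℝ) ^ ((d : ℝ) / 2) := by
    have e : √(n : ℝ) ^ d = (n : ℝ) ^ ((d : ℝ) / 2) := by
      rw [Real.sqrt_eq_rpow, ← Real.rpow_natCast, ← Real.rpow_mul (by positivity)]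
      congr 1
      ring
    rw [card_box, ← e, ← mul_pow]
    push_cast
    refine pow_le_pow_left₀ (by positivity) ?_ d
    rw [hR]
    push_cast
    nlinarith
  have a1 := mul_le_mul h5 h3 (Finset.sum_nonneg fun x _ => sq_nonneg _) (by positivity)
  nlinarith

/-- The normalised collision probabilities have regular decay. -/
theorem s0_ker (hd : 3 ≤ d) : ∃ C : ℝ, Dk (fun c => rr d c * (gsum d)⁻¹) C := by
  have hd1 : 1 ≤ d := by omega
  have hd' : (3 : ℝ) ≤ d := by exact_mod_cast hd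
  obtain ⟨C, hC, h⟩ := heat_dlt hd1
  have hB : (1 : ℝ) ≤ 4 * (17 * d : ℝ) ^ d := by
    have := one_le_pow₀ (by linarith : (1 : ℝ) ≤ 17 * d) (n := d)
    linarith
  refine ⟨C * (4 * (17 * d : ℝ) ^ d), one_le_mul_of_one_le_of_one_le hC hB, ?_, fun c c' hc => ?_⟩
  · rw [ENNReal.tsum_mul_right]
    exact ENNReal.mul_inv_cancel (s0_gsum_ne_zero hd1) (gsum_ne_top hd)
  · beta_reduce
    rw [← mul_assoc, s0ker_rr hd1, s0ker_rr hd1, ← ENNReal.ofReal_mul (by positivity)]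
    refine mul_le_mul_left ?_ _
    have h1 := h (c' + 1 + (c' + 1)) 0
    rw [heat_pE hd1, pE] at h1
    refine h1.trans (ENNReal.ofReal_le_ofReal ?_)
    have h2 := s0ker_low hd1 (n := c + 1) (by omega)
    have h3 := MP_a3b629_pr.srw_nonneg d (c + 1 + (c + 1)) 0
    have hc' : (c : ℝ) ≤ c' := by exact_mod_cast hc
    have h4 : (((c' + 1 + (c' + 1) : ℕ) : ℝ) + 1) ^ (-(d : ℝ) / 2) ≤
        ((c' : ℝ) + 1) ^ (-(d : ℝ) / 2) :=
      Real.rpow_le_rpow_of_nonpos (by positivity)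
        (by push_cast; linarith [Nat.cast_nonneg (α := ℝ) c']) (by linarith)
    have h5 : (((c : ℝ) + 1) / ((c' : ℝ) + 1)) ^ ((d : ℝ) / 2) ≤
        (((c : ℝ) + 1) / ((c' : ℝ) + 1)) ^ (3 / 2 : ℝ) :=
      Real.rpow_le_rpow_of_exponent_ge (by positivity)
        ((div_le_one (by positivity)).2 (by linarith)) (by linarith)
    rw [Real.div_rpow (by positivity) (by positivity), div_eq_mul_inv,
      ← Real.rpow_neg (by positivity), ← neg_div] at h5
    push_cast at h2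
    calc _ ≤ C * ((c' : ℝ) + 1) ^ (-(d : ℝ) / 2) * 1 := by
          rw [mul_one]
          exact mul_le_mul_of_nonneg_left h4 (by linarith)
      _ ≤ C * ((c' : ℝ) + 1) ^ (-(d : ℝ) / 2) * (4 * (17 * d : ℝ) ^ d *
          ((c : ℝ) + 1) ^ ((d : ℝ) / 2) * srw d (c + 1 + (c + 1)) 0) :=
          mul_le_mul_of_nonneg_left h2 (by positivity)
      _ = C * (4 * (17 * d : ℝ) ^ d) * (((c : ℝ) + 1) ^ ((d : ℝ) / 2) *
          ((c' : ℝ) + 1) ^ (-(d : ℝ) / 2)) * srw d (c + 1 + (c + 1)) 0 := by ring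
      _ ≤ _ := by gcongr

end Pool.Agent.Lib.MP_153faa_pr.S0
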