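import Mathlib
import Pool.Agent.Lib.MP_153faa_pr.S0Defs
import Pool.Agent.Lib.MP_153faa_pr.OneB1

set_option autoImplicit false

open MeasureTheory
open scoped ENNReal NNReal

namespace Pool.Agent.Lib.MP_153faa_pr.S0

theorem s0one_pt {A B m σ θ : ℝ} (hA : 0 ≤ A) (hB : 0 ≤ B) (hσ : 0 < σ)
    (hpos : 0 < A + B * (m - σ)) (hθ0 : 0 ≤ θ) (hθ : θ ≤ 1) : ∃ β γ : ℝ, 0 ≤ γ ∧ ∀ t : ℝ, 0 ≤ t →
      (A + B * t) ^ θ ≤ ((A + B * (m + σ)) ^ θ + (A + B * (m - σ)) ^ θ) / 2 + β * (t - m) +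
        γ * (2 * σ - |t - m|) := by
  have hpos' : 0 < A + B * (m + σ) := by nlinarith
  set g₁ := θ * (A + B * (m + σ)) ^ (θ - 1) * B with hg₁
  set g₂ := θ * (A + B * (m - σ)) ^ (θ - 1) * B with hg₂
  have t1 : ∀ y, 0 ≤ A + B * y →
      (A + B * y) ^ θ ≤ (A + B * (m + σ)) ^ θ + g₁ * (y - (m + σ)) := fun y hy =>
    (oneb_tan' hpos' hy hθ0 hθ).trans (le_of_eq (by rw [hg₁]; ring))
  have t2 : ∀ y, 0 ≤ A + B * y →
      (A + B * y) ^ θ ≤ (A + B * (m - σ)) ^ θ + g₂ * (y - (m - σ)) := fun y hy =>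
    (oneb_tan' hpos hy hθ0 hθ).trans (le_of_eq (by rw [hg₂]; ring))
  have a1 := t1 _ hpos.le
  have a2 := t2 _ hpos'.le
  have a3 : g₁ ≤ g₂ := by nlinarith
  refine ⟨(g₁ + g₂) / 2, (g₂ - g₁) / 2, by linarith, fun t ht => ?_⟩
  have hy : 0 ≤ A + B * t := by positivity
  rcases le_total m t with h | h
  · rw [abs_of_nonneg (by linarith)]
    nlinarith [t1 t hy]
  · rw [abs_of_nonpos (by linarith)]
    nlinarith [t2 t hy]

theorem s0one_low {m t l : ℝ} (hm : 0 ≤ m) (ht : 0 < t) (hl : 0 < l) :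
    m - t ≤ l * (t * |t - m|) + (1 + m * t⁻¹) / (4 * l) := by
  have h1 : m - t ≤ |t - m| := by rw [abs_sub_comm]; exact le_abs_self _
  have h2 : |t - m| ≤ t + m := abs_le.2 ⟨by linarith, by linarith⟩
  have h0 := abs_nonneg (t - m)
  set u := |t - m|
  have h3 : 1 ≤ l * t + 1 / (4 * l * t) := by
    have hp : 0 < l * t := by positivity
    have e : l * t + 1 / (4 * l * t) - 1 = (2 * (l * t) - 1) ^ 2 / (4 * l * t) := by
      field_simp
      ring
    have : 0 ≤ (2 * (l * t) - 1) ^ 2 / (4 * l * t) := by positivity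
    linarith
  have h4 : u * (1 / (4 * l * t)) ≤ (1 + m * t⁻¹) / (4 * l) := by
    calc u * (1 / (4 * l * t)) ≤ (t + m) * (1 / (4 * l * t)) := by gcongr
      _ = (1 + m * t⁻¹) / (4 * l) := by field_simp
  nlinarith [mul_le_mul_of_nonneg_left h3 h0]

theorem s0one_int {ρ : Measure ℝ≥0} {g : ℝ≥0 → ℝ≥0∞} (hg : Measurable g)
    (h : ∫⁻ t, g t ∂ρ ≠ ⊤) : Integrable (fun t => (g t).toReal) ρ ∧
      ∫ t, (g t).toReal ∂ρ = (∫⁻ t, g t ∂ρ).toReal :=
  ⟨integrable_toReal_of_lintegral_ne_top hg.aemeasurable h,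
    integral_toReal hg.aemeasurable (ae_lt_top hg h)⟩

/-- One-site comparison with a two-point law, uniformly over laws with a negative moment. -/
theorem s0_two {M a b : ℝ} (ha : 0 < a) : ∃ s : ℝ, 0 < s ∧ s ≤ 1 ∧
    ∀ (ρ : Measure ℝ≥0) [IsProbabilityMeasure ρ], Mean1 ρ → mom ρ (-1) ≤ ENNReal.ofReal M →
      ∀ χ : ℝ≥0∞, mom ρ 2 = 1 + χ → ENNReal.ofReal a ≤ χ → χ ≤ ENNReal.ofReal b →
      ∀ θ : ℝ, 0 < θ → θ ≤ 1 → Two ρ χ s θ := by
  set M' := max M 0 with hM'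
  set b' := max b 0 with hb'
  have hM0 : 0 ≤ M' := le_max_right _ _
  have hb0 : 0 ≤ b' := le_max_right _ _
  set s := min 1 (a / (2 * (1 + (1 + b') * M'))) with hs
  have hs0 : 0 < s := lt_min one_pos (by positivity)
  have hs1 : s ≤ 1 := min_le_left _ _
  refine ⟨s, hs0, hs1, fun ρ _ h1 hneg χ h2 haχ hχb θ hθ0 hθ A B => ?_⟩
  have hχ : χ ≠ ⊤ := ne_top_of_le_ne_top ENNReal.ofReal_ne_top hχb
  lift χ to ℝ≥0 using hχ with x
  have hax : a ≤ x := by
    rwa [ENNReal.ofReal_le_iff_le_toReal ENNReal.coe_ne_top, ENNReal.coe_toReal] at haχ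
  have hxb : (x : ℝ) ≤ b' := by
    have := ENNReal.toReal_mono ENNReal.ofReal_ne_top hχb
    rwa [ENNReal.coe_toReal, ENNReal.toReal_ofReal'] at this
  have hx0 : (0 : ℝ) < x := ha.trans_le hax
  rcases eq_or_ne A ⊤ with rfl | hA
  · simp [ENNReal.top_rpow_of_pos hθ0]
  rcases eq_or_ne B ⊤ with rfl | hB
  · simp [ENNReal.top_rpow_of_pos hθ0]
  lift A to ℝ≥0 using hA
  lift B to ℝ≥0 using hB
  by_cases hAB : A = 0 ∧ B = 0
  · obtain ⟨rfl, rfl⟩ := hAB
    simp [ENNReal.zero_rpow_of_pos hθ0]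
  set m : ℝ := 1 + x with hm
  set σ : ℝ := s * x with hσ
  have hσ0 : 0 < σ := by positivity
  have hmσ : 1 ≤ m - σ := by nlinarith
  have hA0 : (0 : ℝ) ≤ A := A.2
  have hB0 : (0 : ℝ) ≤ B := B.2
  have hpos : 0 < (A : ℝ) + B * (m - σ) := by
    rcases not_and_or.1 hAB with h | h
    · have : (0 : ℝ) < A := lt_of_le_of_ne hA0 fun e => h (NNReal.coe_eq_zero.1 e.symm)
      positivity
    · have : (0 : ℝ) < B := lt_of_le_of_ne hB0 fun e => h (NNReal.coe_eq_zero.1 e.symm)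
      positivity
  obtain ⟨β, γ, hγ, hpt⟩ := s0one_pt hA0 hB0 hσ0 hpos hθ0.le hθ
  obtain ⟨i1, e1⟩ := s0one_int (ρ := ρ) (g := fun t => (t : ℝ≥0∞)) (by fun_prop)
    (by rw [h1]; exact ENNReal.one_ne_top)
  obtain ⟨i2, e2⟩ := s0one_int (ρ := ρ) (g := fun t => (t : ℝ≥0∞) ^ (2 : ℝ)) (by fun_prop)
    (by change mom ρ 2 ≠ ⊤; rw [h2]; simp)
  have hn : mom ρ (-1) ≠ ⊤ := ne_top_of_le_ne_top ENNReal.ofReal_ne_top hneg
  obtain ⟨i3, e3⟩ := s0one_int (ρ := ρ) (g := fun t => (t : ℝ≥0∞) ^ (-1 : ℝ)) (by fun_prop) hn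
  have hae : ∀ᵐ t ∂ρ, (0 : ℝ) < (t : ℝ≥0) := by
    filter_upwards [ae_lt_top (μ := ρ) (f := fun t : ℝ≥0 => (t : ℝ≥0∞) ^ (-1 : ℝ)) (by fun_prop) hn]
      with t ht
    refine lt_of_le_of_ne t.2 fun e => ?_
    have : t = 0 := NNReal.coe_eq_zero.1 e.symm
    simp [this] at ht
  rw [h1] at e1
  change _ = (mom ρ 2).toReal at e2
  change _ = (mom ρ (-1)).toReal at e3
  rw [h2, ENNReal.toReal_add ENNReal.one_ne_top ENNReal.coe_ne_top] at e2
  simp only [← ENNReal.toReal_rpow, ENNReal.coe_toReal, ENNReal.toReal_one, Real.rpow_two,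
    Real.rpow_neg_one] at i1 i2 i3 e1 e2 e3
  have e3' : ∫ t : ℝ≥0, (t : ℝ)⁻¹ ∂ρ ≤ M' := by
    rw [e3]
    have := ENNReal.toReal_mono ENNReal.ofReal_ne_top hneg
    rwa [ENNReal.toReal_ofReal'] at this
  have i4 : Integrable (fun t : ℝ≥0 => (t : ℝ) * |(t : ℝ) - m|) ρ := by
    refine (i2.sub (i1.const_mul m)).abs.congr (Filter.Eventually.of_forall fun t => ?_)
    change |(t : ℝ) ^ 2 - m * t| = t * |(t : ℝ) - m|
    rw [show (t : ℝ) ^ 2 - m * t = t * (t - m) by ring, abs_mul, abs_of_nonneg t.coe_nonneg]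
  set e := ∫ t : ℝ≥0, (t : ℝ) * |(t : ℝ) - m| ∂ρ with he
  have hD : 0 < 1 + m * M' := by positivity
  have hlow : 2 * σ ≤ e := by
    set l := (1 + m * M') / (2 * x) with hl
    have hl0 : 0 < l := by positivity
    have j1 : Integrable (fun t : ℝ≥0 => (1 + m * (t : ℝ)⁻¹) / (4 * l)) ρ :=
      ((integrable_const 1).add (i3.const_mul m)).div_const _
    have c1 := integral_mono_ae (μ := ρ) (f := fun t : ℝ≥0 => m - t)
      (g := fun t : ℝ≥0 => l * ((t : ℝ) * |(t : ℝ) - m|) + (1 + m * (t : ℝ)⁻¹) / (4 * l))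
      ((integrable_const m).sub i1) ((i4.const_mul l).add j1)
      (by filter_upwards [hae] with t ht using s0one_low (by positivity) ht hl0)
    rw [integral_sub (integrable_const m) i1, integral_add (i4.const_mul l) j1, integral_const_mul,
      integral_div, integral_add (integrable_const 1) (i3.const_mul m), integral_const_mul,
      e1, ← he] at c1
    simp only [integral_const, probReal_univ, smul_eq_mul, one_mul] at c1
    have c2 : (1 + m * ∫ t : ℝ≥0, (t : ℝ)⁻¹ ∂ρ) / (4 * l) ≤ x / 2 := by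
      calc _ ≤ (1 + m * M') / (4 * l) := by gcongr
        _ = x / 2 := by rw [hl]; field_simp; ring
    have c3 : (x : ℝ) / 2 ≤ l * e := by linarith
    have c4 : s * (2 * (1 + m * M')) ≤ x := by
      have d1 : s ≤ a / (2 * (1 + (1 + b') * M')) := min_le_right _ _
      rw [le_div_iff₀ (by positivity)] at d1
      have d2 : s * (2 * (1 + m * M')) ≤ s * (2 * (1 + (1 + b') * M')) := by
        rw [hm]; gcongr
      linarith
    have c5 : l * (2 * σ) ≤ l * e := by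
      refine le_trans (le_of_eq_of_le ?_ (show s * (2 * (1 + m * M')) / 2 ≤ x / 2 by linarith)) c3
      rw [hl, hσ]; field_simp
    exact le_of_mul_le_mul_left c5 hl0
  set P := (((A : ℝ) + B * (m + σ)) ^ θ + ((A : ℝ) + B * (m - σ)) ^ θ) / 2 with hP
  have j2 : Integrable (fun t : ℝ≥0 => (P - β * m + γ * (2 * σ)) * (t : ℝ)) ρ := i1.const_mul _
  have j3 : Integrable (fun t : ℝ≥0 => β * (t : ℝ) ^ 2) ρ := i2.const_mul _
  have j4 : Integrable (fun t : ℝ≥0 => γ * ((t : ℝ) * |(t : ℝ) - m|)) ρ := i4.const_mul _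
  have hle : ∀ t : ℝ≥0, (t : ℝ) * ((A : ℝ) + B * t) ^ θ ≤
      (P - β * m + γ * (2 * σ)) * (t : ℝ) + β * (t : ℝ) ^ 2 - γ * ((t : ℝ) * |(t : ℝ) - m|) :=
    fun t => (mul_le_mul_of_nonneg_left (hpt t t.2) t.2).trans (le_of_eq (by
      change (t : ℝ) * _ = _
      ring))
  have hmk : ∀ c : Bool, (A : ℝ≥0∞) + B * (1 + x * mk s c) =
      ENNReal.ofReal (A + B * (if c then m + σ else m - σ)) := fun c => by
    have h0 : 0 ≤ (if c then 1 + s else 1 - s) := by split_ifs <;> linarith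
    have h3 : (if c then m + σ else m - σ) = 1 + x * (if c then 1 + s else 1 - s) := by
      split_ifs <;> ring
    rw [h3, ENNReal.ofReal_add hA0 (by positivity), ENNReal.ofReal_mul hB0,
      ENNReal.ofReal_add zero_le_one (by positivity), ENNReal.ofReal_mul hx0.le]
    simp [mk]
  calc ∫⁻ t, (t : ℝ≥0∞) * ((A : ℝ≥0∞) + B * t) ^ θ ∂ρ
      ≤ ∫⁻ t, ENNReal.ofReal ((P - β * m + γ * (2 * σ)) * (t : ℝ) + β * (t : ℝ) ^ 2 -
          γ * ((t : ℝ) * |(t : ℝ) - m|)) ∂ρ := by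
        refine lintegral_mono fun t => le_trans (le_of_eq ?_) (ENNReal.ofReal_le_ofReal (hle t))
        rw [ENNReal.ofReal_mul t.coe_nonneg, ← ENNReal.ofReal_rpow_of_nonneg (by positivity) hθ0.le,
          ENNReal.ofReal_add hA0 (by positivity), ENNReal.ofReal_mul hB0]
        simp
    _ = ENNReal.ofReal (P + γ * (2 * σ - e)) := by
        have j5 : Integrable (fun t : ℝ≥0 => (P - β * m + γ * (2 * σ)) * (t : ℝ) +
          β * (t : ℝ) ^ 2) ρ := j2.add j3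
        have j6 : Integrable (fun t : ℝ≥0 => (P - β * m + γ * (2 * σ)) * (t : ℝ) +
          β * (t : ℝ) ^ 2 - γ * ((t : ℝ) * |(t : ℝ) - m|)) ρ := j5.sub j4
        rw [← ofReal_integral_eq_lintegral_ofReal j6
          (Filter.Eventually.of_forall fun t => le_trans (by positivity) (hle t))]
        congr 1
        rw [integral_sub j5 j4, integral_add j2 j3, integral_const_mul, integral_const_mul,
          integral_const_mul, e1, e2, ← he]
        ring
    _ ≤ ENNReal.ofReal P := ENNReal.ofReal_le_ofReal (by nlinarith)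
    _ = _ := by
        have hpos' : 0 ≤ (A : ℝ) + B * (m + σ) := by positivity
        rw [hmk, hmk, if_pos rfl, if_neg (by simp), ENNReal.ofReal_rpow_of_nonneg hpos' hθ0.le,
          ENNReal.ofReal_rpow_of_nonneg hpos.le hθ0.le,
          ← ENNReal.ofReal_add (by positivity) (by positivity), hP, div_eq_inv_mul,
          ENNReal.ofReal_mul (by norm_num), ENNReal.ofReal_inv_of_pos two_pos]
        simp

end Pool.Agent.Lib.MP_153faa_pr.S0
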