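import Mathlib
import Pool.Agent.Lib.MP_153faa_pr.S0Once
import Pool.Agent.Lib.MP_153faa_pr.S0Defs
import Pool.Agent.Lib.MP_153faa_pr.Conv

set_option autoImplicit false

open MeasureTheory
open scoped ENNReal NNReal

namespace Pool.Agent.Lib.MP_153faa_pr.S0

variable {d : ℕ}

/-- Weighted overlap of the profile `f` with the walk started at `x`. -/
noncomputable def s0spine_ph (χ : ℝ≥0∞) (f : Prof d) (x : Site d) (c : ℕ) : ℝ≥0∞ :=
  χ * ∑' y, avg^[c + 1] f y * avg^[c + 1] (dlt x) y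

theorem s0spine_left (χ : ℝ≥0∞) (f : Prof d) (x : Site d) (H : ℕ → ℝ≥0∞) :
    mass f + pl (s0spine_ph χ f x) H = ∑' y, f y * (1 + pl (s0spine_ph χ (dlt y) x) H) := by
  simp only [mul_add, mul_one, ENNReal.tsum_add, pl, ← ENNReal.tsum_mul_left]
  rw [ENNReal.tsum_comm]
  refine congrArg _ (tsum_congr fun c => ?_)
  simp only [s0spine_ph, avg_iter_eq_tsum (c + 1) f, ← ENNReal.tsum_mul_left,
    ← ENNReal.tsum_mul_right]
  rw [ENNReal.tsum_comm]
  exact tsum_congr fun y => tsum_congr fun z => by ring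

theorem s0spine_diag (χ : ℝ≥0∞) (x : Site d) :
    s0spine_ph χ (dlt x) x = fun c => χ * rr d c := by
  funext c
  rw [s0spine_ph, rr, ← nq_sh 2 x, ← avg_iter_sh, sh_dlt, nq]
  simp only [ENNReal.rpow_two, sq]

theorem s0spine_succ (χ : ℝ≥0∞) (f : Prof d) (x : Site d) (c : ℕ) :
    s0spine_ph χ f x (c + 1) = ∑' x', avg (dlt x) x' * s0spine_ph χ (avg f) x' c := by
  simp only [s0spine_ph, Function.iterate_succ_apply avg (c + 1),
    avg_iter_eq_tsum (c + 1) (avg (dlt x)), ← ENNReal.tsum_mul_left]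
  rw [ENNReal.tsum_comm]
  exact tsum_congr fun y => tsum_congr fun z => by ring

theorem s0spine_sum (hd : 1 ≤ d) (χ : ℝ≥0∞) (s : ℝ) (k : ℕ → ℝ≥0∞) (f : Prof d) (x : Site d)
    (b : Bool) (l : List Bool) :
    ∑' x', avg (dlt x) x' * (mass f + pl (s0spine_ph χ (avg f) x') (Hp k s l) +
      avg f x' * (1 + pl k (Hp k s l)) * (χ * mk s b)) =
      mass f + pl (s0spine_ph χ f x) (Hp k s (b :: l)) := by
  have h1 : ∑' x', avg (dlt x) x' = 1 := (mass_avg hd _).trans (mass_dlt x)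
  simp only [mul_add _ (_ + _), mul_add _ (mass f), ENNReal.tsum_add, ENNReal.tsum_mul_right, h1,
    one_mul]
  rw [add_assoc, pl.eq_1 _ (Hp k s (b :: l)), tsum_eq_zero_add' ENNReal.summable, add_comm (_ * _)]
  refine congrArg _ (congrArg₂ _ ?_ ?_)
  · simp only [pl, Hp, s0spine_succ, ← ENNReal.tsum_mul_left, ← ENNReal.tsum_mul_right]
    rw [ENNReal.tsum_comm]
    exact tsum_congr fun y => tsum_congr fun z => by ring
  · simp only [Hp, s0spine_ph, ← ENNReal.tsum_mul_left, ← ENNReal.tsum_mul_right, zero_add,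
      Function.iterate_one]
    exact tsum_congr fun y => by ring

theorem s0spine_jensen {ι : Type} [Countable ι] (w g : ι → ℝ≥0∞) (hw : ∑' i, w i = 1) {θ : ℝ}
    (h0 : 0 < θ) (hθ : θ ≤ 1) : ∑' i, w i * g i ^ θ ≤ (∑' i, w i * g i) ^ θ := by
  have h := onea_holder (fun i => w i * g i) w h0.le (sub_nonneg.2 hθ) (by ring)
  rw [hw, ENNReal.one_rpow, mul_one] at h
  refine le_of_eq_of_le (tsum_congr fun i => ?_) h
  rw [ENNReal.mul_rpow_of_nonneg _ _ h0.le, mul_right_comm,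
    ← ENNReal.rpow_add_of_nonneg _ _ h0.le (sub_nonneg.2 hθ), add_sub_cancel, ENNReal.rpow_one]

theorem s0spine_site {ρ : Measure ℝ≥0} [IsProbabilityMeasure ρ] (h1 : Mean1 ρ)
    {χ : ℝ≥0∞} {s θ : ℝ} (h0 : 0 < θ) (hθ : θ ≤ 1) (h : Two ρ χ s θ) (c : Site d → ℝ≥0∞)
    (x₀ : Site d) :
    ∫⁻ ξ, (ξ x₀ : ℝ≥0∞) * (∑' x, c x * (ξ x : ℝ≥0∞)) ^ θ ∂lay d ρ ≤
      2⁻¹ * ((∑' x, c x + c x₀ * (χ * mk s true)) ^ θ +
        (∑' x, c x + c x₀ * (χ * mk s false)) ^ θ) := by
  set c' : Site d → ℝ≥0∞ := fun x => if x = x₀ then 0 else c x with hc'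
  have e2 : ∀ (ξ : Layer d) (t : ℝ≥0), ∑' x, c x * (Function.update ξ x₀ t x : ℝ≥0∞) =
      ∑' x, c' x * (ξ x : ℝ≥0∞) + c x₀ * t := by
    intro ξ t
    rw [ENNReal.tsum_eq_add_tsum_ite x₀, add_comm, Function.update_self]
    refine congrArg (· + _) (tsum_congr fun x => ?_)
    by_cases hx : x = x₀ <;> simp [hc', hx]
  have e1 : ∑' x, c x = ∑' x, c' x + c x₀ := by simpa using e2 1 1
  rw [lintegral_update ((measurable_pi_apply x₀).coe_nnreal_ennreal.fun_mul
    ((measurable_lin c).pow_const θ)) x₀]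
  simp only [e2, Function.update_self]
  refine (lintegral_mono fun t => ?_).trans ((h (∑' x, c' x) (c x₀)).trans_eq ?_)
  · have hm : Measurable fun ξ : Layer d => ∑' x, c' x * (ξ x : ℝ≥0∞) + c x₀ * t :=
      (measurable_lin c').add measurable_const
    rw [lintegral_const_mul _ (hm.pow_const θ)]
    refine mul_le_mul_right ((jensen_concave (lay d ρ) hm.aemeasurable h0 hθ).trans_eq ?_) _
    rw [lintegral_add_right _ measurable_const, lintegral_lin h1 c']
    simp
  · simp only [e1, mul_add (c x₀), mul_one, add_assoc]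

theorem s0spine_Ew {X : Type} [MeasurableSpace X] (μ : Measure X) (n : ℕ)
    {F : X → List Bool → ℝ≥0∞} (hF : ∀ l, Measurable fun x => F x l) :
    ∫⁻ x, Ew n (F x) ∂μ = Ew n fun l => ∫⁻ x, F x l ∂μ := by
  simp only [Ew]
  rw [lintegral_const_mul _ (Finset.measurable_sum _ fun l _ => hF l),
    lintegral_finsetSum _ fun l _ => hF l]

theorem s0spine_main (hd : 1 ≤ d) (ρ : Measure ℝ≥0) [IsProbabilityMeasure ρ] (h1 : Mean1 ρ)
    {χ : ℝ≥0∞} {s θ : ℝ} (h0 : 0 < θ) (hθ : θ ≤ 1) (h : Two ρ χ s θ) (n : ℕ) (x : Site d)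
    (f : Prof d) : ∫⁻ ω, mass (ev n ω (dlt x)) * mass (ev n ω f) ^ θ ∂env d ρ ≤ Ew n fun l =>
      (mass f + pl (s0spine_ph χ f x) (Hp (fun c => χ * rr d c) s l)) ^ θ := by
  set k : ℕ → ℝ≥0∞ := fun c => χ * rr d c with hk
  have hm : ∀ (n : ℕ) (f g : Prof d), Measurable fun ω : ℕ → Layer d =>
      mass (ev n ω g) * mass (ev n ω f) ^ θ := fun n f g =>
    (measurable_mass.comp (measurable_ev n g)).mul
      ((measurable_mass.comp (measurable_ev n f)).pow_const θ)
  induction n generalizing x f with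
  | zero => simp [Ew_zero, mass_dlt, pl, Hp]
  | succ n ih =>
    let cc : List Bool → Site d → Site d → ℝ≥0∞ := fun l x' y =>
      avg f y * (1 + pl (s0spine_ph χ (dlt y) x') (Hp k s l))
    have hc : ∀ l x', Measurable fun ξ : Layer d =>
        (ξ x' : ℝ≥0∞) * (∑' y, cc l x' y * (ξ y : ℝ≥0∞)) ^ θ := fun l x' =>
      (measurable_pi_apply x').coe_nnreal_ennreal.mul ((measurable_lin _).pow_const θ)
    let G : Bool → List Bool → Site d → ℝ≥0∞ := fun b l x' =>
      mass f + pl (s0spine_ph χ (avg f) x') (Hp k s l) +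
        avg f x' * (1 + pl k (Hp k s l)) * (χ * mk s b)
    rw [lintegral_env (hm _ _ _)]
    calc _ ≤ ∫⁻ ξ : Layer d, ∑' x', avg (dlt x) x' * Ew n (fun l =>
            (ξ x' : ℝ≥0∞) * (∑' y, cc l x' y * (ξ y : ℝ≥0∞)) ^ θ) ∂lay d ρ := by
          refine lintegral_mono fun ξ => ?_
          change ∫⁻ ω, mass (ev n ω (step (dlt x) ξ)) * mass (ev n ω (step f ξ)) ^ θ ∂env d ρ ≤ _
          simp only [mass_ev_eq_tsum n _ (step (dlt x) ξ), ← ENNReal.tsum_mul_right, mul_assoc]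
          rw [lintegral_tsum fun x' => ((hm _ _ _).const_mul _).aemeasurable]
          refine ENNReal.tsum_le_tsum fun x' => ?_
          rw [lintegral_const_mul _ (hm _ _ _), Ew_const_mul, step, mul_comm (ξ x' : ℝ≥0∞),
            mul_assoc]
          refine mul_le_mul_right (mul_le_mul_right ((ih x' _).trans_eq
            (Ew_congr fun l _ => ?_)) _) _
          rw [s0spine_left]
          exact congrArg (· ^ θ) (tsum_congr fun y => by simp only [step, cc]; ring)
      _ ≤ ∑' x', avg (dlt x) x' * Ew n fun l => 2⁻¹ * (G true l x' ^ θ + G false l x' ^ θ) := by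
          have hE : ∀ x', Measurable fun ξ : Layer d => Ew n fun l =>
              (ξ x' : ℝ≥0∞) * (∑' y, cc l x' y * (ξ y : ℝ≥0∞)) ^ θ := fun x' =>
            (Finset.measurable_sum _ fun l _ => hc l x').const_mul _
          rw [lintegral_tsum fun x' => ((hE x').const_mul _).aemeasurable]
          refine ENNReal.tsum_le_tsum fun x' => ?_
          rw [lintegral_const_mul _ (hE x'), s0spine_Ew _ _ fun l => hc l x']
          refine mul_le_mul_right (Ew_mono fun l _ =>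
            (s0spine_site h1 h0 hθ h _ x').trans_eq ?_) _
          simp only [cc, G, ← s0spine_left, mass_avg hd, s0spine_diag, hk]
      _ ≤ _ := by
          rw [Ew_succ, ← Ew_add, ← Ew_const_mul]
          simp only [← Ew_const_mul]
          rw [← Ew_tsum]
          refine Ew_mono fun l _ => ?_
          simp only [mul_left_comm _ (2⁻¹ : ℝ≥0∞), ENNReal.tsum_mul_left, mul_add (avg _ _),
            ENNReal.tsum_add]
          rw [← s0spine_sum hd, ← s0spine_sum hd χ s k f x false]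
          have hw : ∑' x', avg (dlt x) x' = 1 := (mass_avg hd _).trans (mass_dlt x)
          exact mul_le_mul_right (add_le_add (s0spine_jensen _ _ hw h0 hθ)
            (s0spine_jensen _ _ hw h0 hθ)) _

/-- Size-biasing: a moment of order `1 + θ` of the polymer is bounded by a fractional moment of
the marked renewal. -/
theorem s0_spine (hd : 1 ≤ d) (ρ : Measure ℝ≥0) [IsProbabilityMeasure ρ] (h1 : Mean1 ρ)
    {χ : ℝ≥0∞} {s θ : ℝ} (h0 : 0 < θ) (hθ : θ ≤ 1) (h : Two ρ χ s θ) (n : ℕ) :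
    Mom d ρ (1 + θ) n ≤ Ew n fun l =>
      (1 + pl (fun c => χ * rr d c) (Hp (fun c => χ * rr d c) s l)) ^ θ := by
  have := s0spine_main hd ρ h1 h0 hθ h n 0 (dlt 0)
  rw [s0spine_diag, mass_dlt] at this
  rw [← lintegral_mq_dlt _ _ 0]
  refine le_of_eq_of_le (lintegral_congr fun ω => ?_) this
  rw [ENNReal.rpow_add_of_nonneg _ _ zero_le_one h0.le, ENNReal.rpow_one]

end Pool.Agent.Lib.MP_153faa_pr.S0
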