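import Mathlib
import Pool.Agent.Lib.MP_153faa_pr.GDefs
import Pool.Agent.Lib.MP_153faa_pr.S0One
import Pool.Agent.Lib.MP_153faa_pr.S0Spine
import Pool.Agent.Lib.MP_153faa_pr.S0Ker
import Pool.Agent.Lib.MP_153faa_pr.S0CG

set_option autoImplicit false

open MeasureTheory Filter Topology
open scoped ENNReal NNReal

namespace Pool.Agent.Lib.MP_153faa_pr

variable {d : ℕ}

theorem gstep0_neg {ρ : Measure ℝ≥0} [IsProbabilityMeasure ρ] {M : ℝ}
    (h : mom ρ (-4) ≤ ENNReal.ofReal M) : mom ρ (-1) ≤ ENNReal.ofReal (1 + max M 0) := by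
  calc mom ρ (-1) ≤ ∫⁻ t, (1 + (t : ℝ≥0∞) ^ (-4 : ℝ)) ∂ρ := by
        refine lintegral_mono fun t => ?_
        by_cases ht : (t : ℝ≥0∞) ≤ 1
        · refine le_trans ?_ le_add_self
          exact ENNReal.rpow_le_rpow_of_exponent_ge ht (by norm_num)
        · refine le_trans ?_ le_self_add
          exact ENNReal.rpow_le_one_of_one_le_of_neg (not_le.1 ht).le (by norm_num)
    _ = 1 + mom ρ (-4) := by
        rw [lintegral_add_left measurable_const]; simp [mom]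
    _ ≤ 1 + ENNReal.ofReal (max M 0) :=
        add_le_add le_rfl (h.trans (ENNReal.ofReal_le_ofReal (le_max_left _ _)))
    _ = _ := by rw [ENNReal.ofReal_add zero_le_one (le_max_right _ _), ENNReal.ofReal_one]

/-- Bounded moments slightly beyond the `L²` regime. -/
theorem step0_gap (hd : 3 ≤ d) (M : ℝ) : ∃ κ : ℝ, 0 < κ ∧
    ∀ (ρ : Measure ℝ≥0) [IsProbabilityMeasure ρ], Mean1 ρ → mom ρ 8 ≤ ENNReal.ofReal M →
      mom ρ (-4) ≤ ENNReal.ofReal M → ∀ χ : ℝ≥0∞, mom ρ 2 = 1 + χ →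
      χ * gsum d ≤ 1 + ENNReal.ofReal κ →
      ∃ q : ℝ, 1 < q ∧ q < 2 ∧ ∃ B : ℝ≥0∞, B ≠ ⊤ ∧ ∀ n, Mom d ρ q n ≤ B := by
  have hd1 : 1 ≤ d := by omega
  have hgt := gsum_ne_top hd
  have hg0 := S0.s0_gsum_ne_zero hd1
  set G := (gsum d).toReal with hG
  have hG0 : 0 < G := ENNReal.toReal_pos hg0 hgt
  have hGe : gsum d = ENNReal.ofReal G := (ENNReal.ofReal_toReal hgt).symm
  obtain ⟨C, hC⟩ := S0.s0_ker hd
  obtain ⟨s, hs0, hs1, htwo⟩ := S0.s0_two (M := 1 + max M 0) (a := 1 / G) (b := 2 / G)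
    (by positivity)
  obtain ⟨κ, hκ, B, hB, hpin⟩ := S0.s0_pin hC hs0 hs1
  refine ⟨min κ 1, lt_min hκ one_pos, fun ρ _ h1 _ hm4 χ hχ hχg => ⟨1 + 3 / 4, by norm_num,
    by norm_num, ?_⟩⟩
  by_cases hlt : χ * gsum d < 1
  · obtain ⟨M', hM', hb⟩ := L2_bdd hd h1 hχ hlt
    refine ⟨1 + M', ENNReal.add_ne_top.2 ⟨ENNReal.one_ne_top, hM'⟩, fun n => ?_⟩
    calc Mom d ρ (1 + 3 / 4) n ≤ (T ρ)^[n] (fun g => 1 + mq 2 g) (dlt (0 : Site d)) := by
          refine T_iter_mono n (fun g => ?_) _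
          unfold mq
          by_cases hg : mass g ≤ 1
          · exact (ENNReal.rpow_le_one hg (by norm_num)).trans le_self_add
          · exact (ENNReal.rpow_le_rpow_of_exponent_le (not_le.1 hg).le (by norm_num)).trans
              le_add_self
      _ = 1 + Mom d ρ 2 n := by rw [T_iter_add n measurable_const, T_iter_const]; rfl
      _ ≤ _ := add_le_add le_rfl (hb n)
  · have hinv : gsum d * (gsum d)⁻¹ = 1 := ENNReal.mul_inv_cancel hg0 hgt
    have hGi : (gsum d)⁻¹ = ENNReal.ofReal (1 / G) := by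
      rw [hGe, one_div, ENNReal.ofReal_inv_of_pos hG0]
    have e : χ = χ * gsum d * (gsum d)⁻¹ := by rw [mul_assoc, hinv, mul_one]
    have hlo : ENNReal.ofReal (1 / G) ≤ χ := by
      rw [e, ← hGi]
      exact le_mul_of_one_le_left zero_le (not_lt.1 hlt)
    have hhi : χ ≤ ENNReal.ofReal (2 / G) := by
      rw [e, hGi, show 2 / G = 2 * (1 / G) by ring, ENNReal.ofReal_mul (by norm_num)]
      refine mul_le_mul' (hχg.trans ?_) le_rfl
      rw [show (2 : ℝ) = 1 + 1 by norm_num, ENNReal.ofReal_add zero_le_one zero_le_one,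
        ENNReal.ofReal_one]
      exact add_le_add le_rfl (ENNReal.ofReal_le_one.2 (min_le_right _ _))
    have h2 := htwo ρ h1 (gstep0_neg hm4) χ hχ hlo hhi (3 / 4) (by norm_num) (by norm_num)
    refine ⟨B, hB, fun n => (S0.s0_spine hd1 ρ h1 (by norm_num) (by norm_num) h2 n).trans
      (hpin _ (fun c => ?_) n)⟩
    calc χ * S0.rr d c = χ * gsum d * (S0.rr d c * (gsum d)⁻¹) := by
          rw [mul_comm (S0.rr d c), ← mul_assoc, ← e]
      _ ≤ _ := mul_le_mul' (hχg.trans (add_le_add le_rfl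
          (ENNReal.ofReal_le_ofReal (min_le_left _ _)))) le_rfl

/-- The critical point lies strictly beyond the `L²` threshold. -/
theorem step0 (hd : 3 ≤ d) (ν : Measure ℝ) [IsProbabilityMeasure ν]
    (hν : ∀ β : ℝ, Integrable (fun t => Real.exp (β * t)) ν)
    (hne : ∃ β : ℝ, 0 ≤ β ∧ freeEnergy d ν β < 0) :
    ∃ κ M ε₀ : ℝ, 0 < κ ∧ 0 < ε₀ ∧ 3 * ε₀ ≤ betaC d ν ∧
      ∀ β ∈ Set.Icc (betaC d ν - ε₀) (betaC d ν + ε₀), Good d κ M (rho ν β) := by
  have hd1 : 1 ≤ d := by omega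
  have hgt := gsum_ne_top hd
  set G := (gsum d).toReal with hG
  have hG0 : 0 ≤ G := ENNReal.toReal_nonneg
  have hGe : gsum d = ENNReal.ofReal G := (ENNReal.ofReal_toReal hgt).symm
  set b := betaC d ν with hb
  have hbdd : BddBelow {β | 0 ≤ β ∧ freeEnergy d ν β < 0} := ⟨0, fun _ h => h.1⟩
  have hb0 : 0 ≤ b := le_csInf hne fun _ h => h.1
  have hlam := onec_cont hν
  have hcont : ∀ r : ℝ, Continuous fun β => Real.exp (lam ν (r * β) - r * lam ν β) := by
    intro r; fun_prop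
  obtain ⟨M₁, hM₁⟩ := (isCompact_Icc (a := b - 1) (b := b + 1)).bddAbove_image
    (hcont 8).continuousOn
  obtain ⟨M₂, hM₂⟩ := (isCompact_Icc (a := b - 1) (b := b + 1)).bddAbove_image
    (hcont (-4)).continuousOn
  have hM : ∀ β ∈ Set.Icc (b - 1) (b + 1), mom (rho ν β) 8 ≤ ENNReal.ofReal (max M₁ M₂) ∧
      mom (rho ν β) (-4) ≤ ENNReal.ofReal (max M₁ M₂) := by
    intro β hβ
    rw [onec_mom hν, onec_mom hν]
    exact ⟨ENNReal.ofReal_le_ofReal ((hM₁ ⟨β, hβ, rfl⟩).trans (le_max_left _ _)),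
      ENNReal.ofReal_le_ofReal ((hM₂ ⟨β, hβ, rfl⟩).trans (le_max_right _ _))⟩
  obtain ⟨κ, hκ, hgap⟩ := step0_gap hd (max M₁ M₂)
  set x : ℝ → ℝ := fun β => Real.exp (lam ν (2 * β) - 2 * lam ν β) - 1 with hx
  have hxc : Continuous fun β => x β * G := ((hcont 2).sub continuous_const).mul continuous_const
  have hx0 : ∀ β, 0 ≤ x β := by
    intro β
    have := one_le_mom_two (mean1_rho hν β)
    rw [onec_mom hν, ENNReal.one_le_ofReal] at this
    simp only [hx]; linarith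
  have hxm : ∀ β, mom (rho ν β) 2 = 1 + ENNReal.ofReal (x β) := by
    intro β
    rw [onec_mom hν, ← ENNReal.ofReal_one, ← ENNReal.ofReal_add zero_le_one (hx0 β)]
    congr 1
    simp only [hx]; ring
  have key : 1 + κ ≤ x b * G := by
    by_contra hlt
    have hev : ∀ᶠ β in 𝓝 b, x β * G < 1 + κ :=
      hxc.continuousAt.eventually (gt_mem_nhds (not_le.1 hlt))
    obtain ⟨δ, hδ, hδ'⟩ := Metric.eventually_nhds_iff.1 hev
    obtain ⟨β, ⟨hβ0, hβf⟩, hβlt⟩ := exists_lt_of_csInf_lt hne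
      (show sInf {β | 0 ≤ β ∧ freeEnergy d ν β < 0} < b + min δ 1 from
        lt_add_of_pos_right _ (lt_min hδ one_pos))
    have hβc : b ≤ β := csInf_le hbdd ⟨hβ0, hβf⟩
    have hm1 := min_le_left δ 1
    have hm2 := min_le_right δ 1
    obtain ⟨h8, h4⟩ := hM β ⟨by linarith, by linarith⟩
    have hl := hδ' (y := β) (by rw [Real.dist_eq, abs_lt]; constructor <;> linarith)
    obtain ⟨q, hq, -, B, hB, hmom⟩ := hgap (rho ν β) (mean1_rho hν β) h8 h4 _ (hxm β) (by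
      rw [hGe, ← ENNReal.ofReal_mul (hx0 β), ← ENNReal.ofReal_one,
        ← ENNReal.ofReal_add zero_le_one hκ.le]
      exact ENNReal.ofReal_le_ofReal hl.le)
    exact absurd (freeEnergy_nonneg hd1 hν hβ0 hq hB hmom) (not_le.2 hβf)
  have hbpos : 0 < b := by
    refine lt_of_le_of_ne hb0 fun h => ?_
    have e : x b = 0 := by
      rw [← h]
      simp [hx, lam]
    rw [e, zero_mul] at key
    linarith
  have hev : ∀ᶠ β in 𝓝 b, 1 + κ / 2 < x β * G :=
    hxc.continuousAt.eventually (lt_mem_nhds (by linarith))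
  obtain ⟨δ, hδ, hδ'⟩ := Metric.eventually_nhds_iff.1 hev
  have hm1 := min_le_left (δ / 2) (min 1 (b / 3))
  have hm2 := (min_le_right (δ / 2) (min 1 (b / 3))).trans (min_le_left _ _)
  have hm3 := (min_le_right (δ / 2) (min 1 (b / 3))).trans (min_le_right _ _)
  refine ⟨κ / 2, max M₁ M₂, min (δ / 2) (min 1 (b / 3)), by positivity, by positivity,
    by linarith, fun β hβ => ?_⟩
  obtain ⟨hβ1, hβ2⟩ := hβ
  obtain ⟨h8, h4⟩ := hM β ⟨by linarith, by linarith⟩
  have hl := hδ' (y := β) (by rw [Real.dist_eq, abs_lt]; constructor <;> linarith)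
  refine ⟨mean1_rho hν β, h8, h4, _, hxm β, ?_⟩
  rw [hGe, ← ENNReal.ofReal_mul (hx0 β), ← ENNReal.ofReal_one,
    ← ENNReal.ofReal_add zero_le_one (by positivity)]
  exact ENNReal.ofReal_le_ofReal hl.le

end Pool.Agent.Lib.MP_153faa_pr
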