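import Mathlib
import Pool.Agent.Lib.MP_153faa_pr.GDefs

set_option autoImplicit false

open MeasureTheory Filter Topology
open scoped ENNReal NNReal

namespace Pool.Agent.Lib.MP_153faa_pr

variable {d : ℕ}

section
variable {ρ : Measure ℝ≥0} [IsProbabilityMeasure ρ]

theorem glink_mom (hd : 1 ≤ d) (hm : Mean1 ρ) {p l : ℝ} (hp : 1 ≤ p) (h0 : 0 < l) (h1 : l < 1)
    (n : ℕ) : ENNReal.ofReal ((1 - l) ^ n) * Mom d ρ p n ≤ OO d ρ p l := by
  have hs : ∑' k : ℕ, wt l (k + n) = ENNReal.ofReal ((1 - l) ^ n) := by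
    have hg := hasSum_geometric_of_lt_one (r := 1 - l) (by linarith) (by linarith)
    have h2 := hg.mul_left (l * (1 - l) ^ n)
    have e : l * (1 - l) ^ n * (1 - (1 - l))⁻¹ = (1 - l) ^ n := by
      rw [show 1 - (1 - l) = l by ring]; field_simp
    rw [e] at h2
    have hp0 : 0 ≤ 1 - l := by linarith
    rw [← h2.tsum_eq, ENNReal.ofReal_tsum_of_nonneg (fun k => by positivity) h2.summable]
    refine tsum_congr fun k => ?_
    unfold wt
    congr 1
    ring
  rw [← hs, ← ENNReal.tsum_mul_right]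
  calc ∑' k : ℕ, wt l (k + n) * Mom d ρ p n ≤ ∑' k : ℕ, wt l (k + n) * Mom d ρ p (k + n) :=
        ENNReal.tsum_le_tsum fun k => by
          gcongr
          exact Mom_mono hd hm hp (Nat.le_add_left n k)
    _ ≤ ∑' k : ℕ, wt l k * Mom d ρ p k :=
        ENNReal.tsum_comp_le_tsum_of_injective (f := fun k : ℕ => k + n)
          (add_left_injective n) fun k => wt l k * Mom d ρ p k
    _ = OO d ρ p l := rfl

theorem glink_escape (hd : 1 ≤ d) (h1 : Mean1 ρ) {q : ℝ} (hq : 1 < q) {m : ℝ} (hm1 : 1 ≤ m)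
    {n : ℕ} (h : Mom d ρ q n ≤ ENNReal.ofReal m) {b : ℝ} (hb : b = (4 * m) ^ (q - 1)⁻¹) :
    hit ρ (negmom_Dr d) n (dlt (0 : Site d)) ≤ ENNReal.ofReal (1 - 1 / (2 * b)) := by
  have hq0 : 0 < q - 1 := by linarith
  have hb1 : 1 ≤ b := hb ▸ Real.one_le_rpow (by linarith) (by positivity)
  have hbq : b ^ (q - 1) = 4 * m := hb ▸ Real.rpow_inv_rpow (by linarith) hq0.ne'
  have key := negmom_hit hd h1 hq (B := ENNReal.ofReal b) ENNReal.ofReal_ne_top n
    (dlt (0 : Site d))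
  have hD1 := hit_le_one (ρ := ρ) (negmom_Dr d) n (dlt (0 : Site d))
  have hDt : hit ρ (negmom_Dr d) n (dlt (0 : Site d)) ≠ ⊤ := ne_top_of_le_ne_top (by simp) hD1
  obtain ⟨D, hD0, hD⟩ : ∃ D : ℝ, 0 ≤ D ∧
      hit ρ (negmom_Dr d) n (dlt (0 : Site d)) = ENNReal.ofReal D :=
    ⟨_, ENNReal.toReal_nonneg, (ENNReal.ofReal_toReal hDt).symm⟩
  rw [hD] at key ⊢
  rw [mass_dlt] at key
  have h3 : ENNReal.ofReal b ^ (-(q - 1)) * (T ρ)^[n] (mq q) (dlt (0 : Site d)) ≤
      ENNReal.ofReal (1 / 4) := by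
    have h4 : (T ρ)^[n] (mq q) (dlt (0 : Site d)) ≤ ENNReal.ofReal m := h
    refine (mul_le_mul' le_rfl h4).trans (le_of_eq ?_)
    rw [ENNReal.ofReal_rpow_of_pos (by linarith), ← ENNReal.ofReal_mul (by positivity),
      Real.rpow_neg (by linarith), hbq]
    congr 1
    field_simp
  have h5 : (4 : ℝ≥0∞)⁻¹ = ENNReal.ofReal (1 / 4) := by
    rw [one_div, ENNReal.ofReal_inv_of_pos (by norm_num)]; simp
  have h6 := key.trans (add_le_add le_rfl h3)
  rw [h5, ← ENNReal.ofReal_one, ← ENNReal.ofReal_mul (by linarith),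
    ← ENNReal.ofReal_add (by norm_num) (by positivity),
    ← ENNReal.ofReal_add (by norm_num) (by positivity),
    ← ENNReal.ofReal_add (by positivity) (by positivity),
    ENNReal.ofReal_le_ofReal_iff (by positivity)] at h6
  refine ENNReal.ofReal_le_ofReal ?_
  have : D ≤ (b - 1 / 2) / b := by rw [le_div_iff₀ (by linarith)]; linarith
  refine this.trans (le_of_eq ?_)
  field_simp

theorem glink_neg (hd : 1 ≤ d) (h1 : Mean1 ρ) {K c : ℝ} (hK1 : 1 ≤ K)
    (hK : mom ρ (-1) ≤ ENNReal.ofReal K) (hc0 : 0 < c) (hc1 : c ≤ 1) {n : ℕ}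
    (hc : hit ρ (negmom_Dr d) n (dlt (0 : Site d)) ≤ ENNReal.ofReal (1 - c)) :
    Mom d ρ (-(c ^ 2 / (272 * K * √(n + 1)))) n ≤ ENNReal.ofReal (8 / c) := by
  have hKt : mom ρ (-1) ≠ ⊤ := ne_top_of_le_ne_top ENNReal.ofReal_ne_top hK
  set a : ℝ := 17 * K / c with ha
  have ha1 : 1 ≤ a := by rw [ha, le_div_iff₀ hc0]; linarith
  have hn1 : (1 : ℝ) ≤ n + 1 := by
    have : (0 : ℝ) ≤ n := n.cast_nonneg
    linarith
  have hs : 1 ≤ √(n + 1) := Real.one_le_sqrt.2 hn1
  set θ : ℝ := c ^ 2 / (272 * K * √(n + 1)) with hθ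
  have hθ0 : 0 < θ := by positivity
  have hθ1 : θ ≤ 1 := by
    rw [hθ, div_le_one (by positivity)]
    have : c ^ 2 ≤ 1 := pow_le_one₀ hc0.le hc1
    nlinarith
  set A : ℝ := a * (n + 1) with hA
  have hA0 : 0 < A := by positivity
  have hAθ : A ^ θ ≤ 1 + c / 4 := by
    rw [Real.rpow_def_of_pos hA0, ← Real.exp_log (show 0 < 1 + c / 4 by linarith)]
    refine Real.exp_le_exp.2 ?_
    have hsA : √A = √a * √(n + 1) := Real.sqrt_mul (by linarith) _
    have hlog : Real.log A ≤ 2 * √A := by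
      have h2 := Real.log_le_sub_one_of_pos (Real.sqrt_pos.2 hA0)
      rw [Real.log_sqrt hA0.le] at h2
      linarith
    have hsa : √a ≤ a := Real.sqrt_le_self_iff.2 (Or.inr ha1)
    have hl : c / 8 ≤ Real.log (1 + c / 4) := by
      have h2 := Real.one_sub_inv_le_log_of_pos (show 0 < 1 + c / 4 by linarith)
      refine le_trans ?_ h2
      rw [le_sub_comm, inv_le_comm₀ (by linarith) (by linarith), inv_eq_one_div,
        div_le_iff₀ (by linarith)]
      nlinarith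
    calc Real.log A * θ ≤ 2 * (a * √(n + 1)) * θ := by
          rw [hsA] at hlog
          exact mul_le_mul_of_nonneg_right (hlog.trans (by gcongr)) hθ0.le
      _ = c / 8 := by rw [hθ, ha]; field_simp; norm_num
      _ ≤ _ := hl
  have hnK : n * (A⁻¹ * (4 * K)) ≤ c / 4 := by
    have h2 : 16 * K / c * n ≤ A := by
      rw [hA]
      have : 16 * K / c ≤ a := by rw [ha]; gcongr; norm_num
      have h3 : 0 ≤ 16 * K / c := by positivity
      have h4 : (0 : ℝ) ≤ n := n.cast_nonneg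
      nlinarith
    have h3 : n * (A⁻¹ * (4 * K)) = c / 4 * (16 * K / c * n / A) := by field_simp; ring
    rw [h3]
    have h4 : 16 * K / c * n / A ≤ 1 := (div_le_one hA0).2 h2
    nlinarith
  have key := negmom_rec hd h1 hKt hθ0 hθ1 (A := ENNReal.ofReal A)
    (ENNReal.ofReal_pos.2 hA0).ne' ENNReal.ofReal_ne_top n n le_rfl negmom_dlt
  obtain ⟨N, hN0, hN⟩ : ∃ N : ℝ, 0 ≤ N ∧ Mom d ρ (-θ) n = ENNReal.ofReal N :=
    ⟨_, ENNReal.toReal_nonneg, (ENNReal.ofReal_toReal (Mom_neg_ne_top hd hKt hθ0 hθ1 n)).symm⟩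
  change Mom d ρ (-θ) n ≤ _ at key
  rw [hN] at key ⊢
  have h7 : ENNReal.ofReal A ^ θ ≤ ENNReal.ofReal (1 + c / 4) := by
    rw [ENNReal.ofReal_rpow_of_pos hA0]; exact ENNReal.ofReal_le_ofReal hAθ
  have h8 : (n : ℝ≥0∞) * ((ENNReal.ofReal A)⁻¹ * (4 * mom ρ (-1))) ≤ ENNReal.ofReal (c / 4) := by
    refine le_trans ?_ (ENNReal.ofReal_le_ofReal hnK)
    rw [ENNReal.ofReal_mul n.cast_nonneg, ENNReal.ofReal_mul (inv_nonneg.2 hA0.le),
      ENNReal.ofReal_mul (show (0 : ℝ) ≤ 4 by norm_num), ENNReal.ofReal_inv_of_pos hA0,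
      ENNReal.ofReal_natCast, ENNReal.ofReal_ofNat]
    gcongr
  have h9 := key.trans (add_le_add le_rfl
    (mul_le_mul' (mul_le_mul' le_rfl h7) (add_le_add hc h8)))
  have h4 : (4 : ℝ≥0∞) = ENNReal.ofReal 4 := by simp
  rw [h4, ← ENNReal.ofReal_add (by linarith) (by positivity), ← ENNReal.ofReal_mul hN0,
    ← ENNReal.ofReal_mul (by positivity),
    ← ENNReal.ofReal_add (by norm_num) (mul_nonneg (by positivity) (by linarith)),
    ENNReal.ofReal_le_ofReal_iff
      (add_nonneg (by norm_num) (mul_nonneg (by positivity) (by linarith)))] at h9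
  refine ENNReal.ofReal_le_ofReal ?_
  rw [le_div_iff₀ hc0]
  nlinarith [mul_nonneg hN0 (mul_pos hc0 hc0).le]

theorem glink_T_neg {θ : ℝ} (h0 : 0 < θ) (n : ℕ) (f : Prof d) (hft : mass f ≠ ⊤)
    (hn : Mom d ρ (-θ) n ≠ 0) :
    (T ρ)^[n] (mq (-θ)) f ≤ mass f ^ (-θ) * Mom d ρ (-θ) n := by
  by_cases hf0 : mass f = 0
  · rw [hf0, ENNReal.zero_rpow_of_neg (by linarith), ENNReal.top_mul hn]
    exact le_top
  · exact T_iter_mq_neg_le h0 n hf0 hft

theorem glink_mass_ne_top (hd : 1 ≤ d) (n : ℕ) (ω : ℕ → Layer d) :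
    mass (ev n ω (dlt (0 : Site d))) ≠ ⊤ := by
  have _ := hd
  rw [bridge_mass]
  refine ENNReal.mul_ne_top (ENNReal.pow_ne_top (ENNReal.inv_ne_top.2 ?_)) ?_
  · have : (d : ℝ≥0∞) ≠ 0 := by
      have : d ≠ 0 := by omega
      exact_mod_cast this
    exact mul_ne_zero (by norm_num) this
  · exact ENNReal.sum_ne_top.2 fun s _ => ENNReal.prod_ne_top fun j _ => ENNReal.coe_ne_top

theorem glink_submul (hd : 1 ≤ d) (h1 : Mean1 ρ) {θ : ℝ} (h0 : 0 < θ) (m n : ℕ) :
    Mom d ρ (-θ) (m + n) ≤ Mom d ρ (-θ) m * Mom d ρ (-θ) n := by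
  have hn : Mom d ρ (-θ) n ≠ 0 := by
    have : 1 ≤ Mom d ρ (-θ) n := by
      rw [← Mom_zero (d := d) (ρ := ρ) (-θ)]
      exact Mom_neg_mono hd h1 h0 (Nat.zero_le n)
    exact (lt_of_lt_of_le one_pos this).ne'
  have hm := measurable_mq (d := d) (-θ)
  have hm2 : Measurable fun ω : ℕ → Layer d => mq (-θ) (ev m ω (dlt 0)) :=
    hm.comp (measurable_ev m _)
  unfold Mom
  rw [Function.iterate_add_apply, T_iter_eq m (measurable_T_iter n hm), T_iter_eq m hm,
    ← lintegral_mul_const _ hm2]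
  exact lintegral_mono fun ω => glink_T_neg h0 n _ (glink_mass_ne_top hd m ω) hn

theorem glink_pow (hd : 1 ≤ d) (h1 : Mean1 ρ) {θ : ℝ} (h0 : 0 < θ) (n k : ℕ) :
    Mom d ρ (-θ) (k * n) ≤ Mom d ρ (-θ) n ^ k := by
  induction k with
  | zero => simp [Mom_zero]
  | succ k ih =>
    rw [Nat.succ_mul, pow_succ]
    exact (glink_submul hd h1 h0 _ _).trans (by gcongr)

end

theorem glink_block (hd : 1 ≤ d) {ν : Measure ℝ} [IsProbabilityMeasure ν]
    (hν : ∀ β : ℝ, Integrable (fun t => Real.exp (β * t)) ν) (β : ℝ) {θ c : ℝ} (h0 : 0 < θ)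
    (hc : 0 < c) {n : ℕ} (hn : 1 ≤ n) (h : Mom d (rho ν β) (-θ) n ≤ ENNReal.ofReal c) :
    -(Real.log c / (θ * n)) ≤ freeEnergy d ν β := by
  have hn' : (0 : ℝ) < n := by exact_mod_cast hn
  have up : ∀ n : ℕ, (∫ ω, Real.log (W ν β n ω) ∂envLaw d ν) / n ≤ 0 := by
    intro n
    have a1 := bridge_log hd hν β n (r := 1) (c := 1) one_pos (by rw [bridge_mom_one hd hν]; simp)
    rw [one_mul, Real.log_one] at a1
    exact div_nonpos_of_nonpos_of_nonneg a1 (Nat.cast_nonneg n)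
  unfold freeEnergy
  refine Filter.le_limsup_of_frequently_le ?_ (Filter.isBoundedUnder_of ⟨0, up⟩)
  rw [Filter.frequently_atTop]
  intro N
  refine ⟨(N + 1) * n, by nlinarith, ?_⟩
  have a1 := bridge_log hd hν β ((N + 1) * n) (r := -θ) (c := c ^ (N + 1)) (by positivity)
    ((glink_pow hd (mean1_rho hν β) h0 n (N + 1)).trans (by
      rw [ENNReal.ofReal_pow hc.le]; gcongr))
  rw [Real.log_pow] at a1
  have hN : (0 : ℝ) < (N : ℝ) + 1 := by positivity
  push_cast at a1 ⊢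
  rw [le_div_iff₀ (by positivity)]
  have e : -(Real.log c / (θ * n)) * ((N + 1) * n) = -(((N : ℝ) + 1) * Real.log c) / θ := by
    field_simp
  rw [e, div_le_iff₀ h0]
  linarith

/-- A moment bound up to the horizon `1 / l` bounds the free energy from below. -/
theorem link_a (hd : 3 ≤ d) (κ M : ℝ) : ∃ C : ℝ, 1 ≤ C ∧
    ∀ (ν : Measure ℝ) [IsProbabilityMeasure ν],
      (∀ β : ℝ, Integrable (fun t => Real.exp (β * t)) ν) → ∀ β l Y : ℝ,
      Good d κ M (rho ν β) → 0 < l → l < 1 → 1 ≤ Y →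
      OO d (rho ν β) (q0 d) l ≤ ENNReal.ofReal Y →
      -(C * Y ^ C * l ^ C⁻¹) ≤ freeEnergy d ν β := by
  have hd1 : 1 ≤ d := by omega
  have hdR : (3 : ℝ) ≤ d := by exact_mod_cast hd
  set K : ℝ := 1 + max M 0 with hK
  have hK1 : 1 ≤ K := by rw [hK]; linarith [le_max_right M 0]
  set C : ℝ := 60000 * K * 8 ^ (2 * d) + 2 * d with hC
  have h8 : (1 : ℝ) ≤ 8 ^ (2 * d) := one_le_pow₀ (by norm_num)
  have hK8 : K ≤ K * 8 ^ (2 * d) := le_mul_of_one_le_right (by linarith) h8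
  have hC2 : 2 * d ≤ C := by rw [hC]; nlinarith
  have hC1 : 1 ≤ C := by linarith
  refine ⟨C, hC1, fun ν _ hν β l Y hG hl0 hl1 hY hO => ?_⟩
  have h1 := hG.1
  have hm1 : mom (rho ν β) (-1) ≤ ENNReal.ofReal K := by
    calc mom (rho ν β) (-1) ≤ ∫⁻ t, (1 + (t : ℝ≥0∞) ^ (-4 : ℝ)) ∂rho ν β := by
          refine lintegral_mono fun t => ?_
          by_cases ht : (t : ℝ≥0∞) ≤ 1
          · refine le_trans ?_ le_add_self
            exact ENNReal.rpow_le_rpow_of_exponent_ge ht (by norm_num)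
          · refine le_trans ?_ le_self_add
            exact ENNReal.rpow_le_one_of_one_le_of_neg (not_le.1 ht).le (by norm_num)
      _ = 1 + mom (rho ν β) (-4) := by
          rw [lintegral_add_left measurable_const]; simp [mom]
      _ ≤ 1 + ENNReal.ofReal (max M 0) :=
          add_le_add le_rfl (hG.2.2.1.trans (ENNReal.ofReal_le_ofReal (le_max_left _ _)))
      _ = ENNReal.ofReal K := by
          rw [hK, ENNReal.ofReal_add zero_le_one (le_max_right _ _), ENNReal.ofReal_one]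
  have hYC : Y ^ (2 * d) ≤ Y ^ C := by
    rw [← Real.rpow_natCast]
    exact Real.rpow_le_rpow_of_exponent_le hY (by push_cast; exact hC2)
  have hY2 : 1 ≤ Y ^ (2 * d) := one_le_pow₀ hY
  have hlC : √l ≤ l ^ C⁻¹ := by
    rw [Real.sqrt_eq_rpow]
    refine Real.rpow_le_rpow_of_exponent_ge hl0 hl1.le ?_
    rw [one_div]
    exact inv_anti₀ (by norm_num) (by linarith)
  have hsl : 0 < √l := Real.sqrt_pos.2 hl0
  refine le_trans (neg_le_neg (a := 60000 * K * 8 ^ (2 * d) * Y ^ (2 * d) * √l) ?_) ?_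
  · gcongr
    rw [hC]; linarith
  by_cases hl : 1 / 4 ≤ l
  · have a1 := glink_block hd1 hν β one_pos (c := K) (by linarith) le_rfl
      ((Mom_neg_one_le hd1 1).trans (by rw [pow_one]; exact hm1))
    refine le_trans (neg_le_neg ?_) a1
    have a2 := Real.log_le_sub_one_of_pos (show 0 < K by linarith)
    have a3 : 1 / 2 ≤ √l := by
      rw [show (1 / 2 : ℝ) = √(1 / 4) by
        rw [show (1 / 4 : ℝ) = (1 / 2) ^ 2 by norm_num, Real.sqrt_sq (by norm_num)]]
      exact Real.sqrt_le_sqrt hl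
    have a4 : K * 1 * (1 / 2) ≤ K * 8 ^ (2 * d) * Y ^ (2 * d) * √l := by
      gcongr
    simp only [Nat.cast_one, mul_one, div_one]
    nlinarith
  · replace hl := not_le.1 hl
    set n := ⌊1 / (2 * l)⌋₊ with hn
    have hn1 : (n : ℝ) ≤ 1 / (2 * l) := Nat.floor_le (by positivity)
    have hn2 : 1 / (2 * l) < n + 1 := Nat.lt_floor_add_one _
    have hl2 : 2 ≤ 1 / (2 * l) := by rw [le_div_iff₀ (by positivity)]; linarith
    have hnR : (1 : ℝ) < n := by linarith
    have hnN : 1 ≤ n := by exact_mod_cast hnR.le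
    have hnl : n * l ≤ 1 / 2 := by
      rw [le_div_iff₀ (by positivity)] at hn1; linarith
    have hnl' : 1 / 4 ≤ n * l := by
      rw [div_lt_iff₀ (by positivity)] at hn2; linarith
    have hb : 1 / 2 ≤ (1 - l) ^ n := by
      have := one_add_mul_le_pow (show (-2 : ℝ) ≤ -l by linarith) n
      rw [← sub_eq_add_neg] at this
      linarith
    have hq : 1 < q0 d := by
      unfold q0
      have : (0 : ℝ) < 2 / d := by positivity
      linarith
    have hM : Mom d (rho ν β) (q0 d) n ≤ ENNReal.ofReal (2 * Y) := by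
      have a1 := (glink_mom hd1 h1 hq.le hl0 hl1 n).trans hO
      have a2 : ENNReal.ofReal (1 / 2) * Mom d (rho ν β) (q0 d) n ≤ ENNReal.ofReal Y :=
        le_trans (by gcongr) a1
      calc Mom d (rho ν β) (q0 d) n
          = ENNReal.ofReal 2 * (ENNReal.ofReal (1 / 2) * Mom d (rho ν β) (q0 d) n) := by
            rw [← mul_assoc, ← ENNReal.ofReal_mul (by norm_num)]; norm_num
        _ ≤ ENNReal.ofReal 2 * ENNReal.ofReal Y := by gcongr
        _ = _ := (ENNReal.ofReal_mul (by norm_num)).symm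
    set b : ℝ := (4 * (2 * Y)) ^ (q0 d - 1)⁻¹ with hbdef
    have hb1 : 1 ≤ b := Real.one_le_rpow (by linarith) (by positivity [sub_pos.2 hq])
    have hb3 : b ^ 3 ≤ 8 ^ (2 * d) * Y ^ (2 * d) := by
      rw [← mul_pow, hbdef, ← Real.rpow_natCast, ← Real.rpow_natCast,
        ← Real.rpow_mul (by linarith), show 4 * (2 * Y) = 8 * Y by ring]
      refine Real.rpow_le_rpow_of_exponent_le (by linarith) ?_
      rw [show q0 d - 1 = 2 / d by unfold q0; ring, inv_div]
      push_cast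
      linarith
    have hesc := glink_escape hd1 h1 hq (by linarith) hM hbdef
    set c : ℝ := 1 / (2 * b) with hc
    have hc0 : 0 < c := by positivity
    have hc1 : c ≤ 1 := by rw [hc, div_le_one (by positivity)]; linarith
    have hneg := glink_neg hd1 h1 hK1 hm1 hc0 hc1 hesc
    have a1 := glink_block hd1 hν β (by positivity) (by positivity) hnN hneg
    refine le_trans (neg_le_neg ?_) a1
    have a2 := Real.log_le_sub_one_of_pos (show 0 < 8 / c by positivity)
    have a3 : √(n + 1) ≤ 3 * √l * n := by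
      rw [Real.sqrt_le_left (by positivity), mul_pow, mul_pow, Real.sq_sqrt hl0.le]
      nlinarith
    calc Real.log (8 / c) / (c ^ 2 / (272 * K * √(n + 1)) * n)
        ≤ 8 / c / (c ^ 2 / (272 * K * √(n + 1)) * n) := by gcongr; linarith
      _ = 17408 * K * b ^ 3 * (√(n + 1) / n) := by rw [hc]; field_simp; norm_num
      _ ≤ 17408 * K * (8 ^ (2 * d) * Y ^ (2 * d)) * (3 * √l) := by
          gcongr
          rw [div_le_iff₀ (by linarith)]; exact a3
      _ ≤ _ := by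
          have : 0 ≤ K * 8 ^ (2 * d) * Y ^ (2 * d) * √l := by positivity
          nlinarith

/-- Decay of a fractional moment bounds the free energy from above. -/
theorem link_b (hd : 3 ≤ d) (ν : Measure ℝ) [IsProbabilityMeasure ν]
    (hν : ∀ β : ℝ, Integrable (fun t => Real.exp (β * t)) ν) {β L : ℝ} (hβ : 0 ≤ β)
    (h : Dec d (rho ν β) L) : freeEnergy d ν β ≤ -(1 / (2 * L)) := by
  obtain ⟨n, hn1, hnL, θ, h0, h1, hm⟩ := h
  refine (freeEnergy_le (by omega) hν hβ h0 h1 hn1 hm).trans (neg_le_neg ?_)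
  have hn : (0 : ℝ) < n := by exact_mod_cast hn1
  have h2 := Real.log_two_gt_d9
  calc 1 / (2 * L) ≤ 1 / (2 * n) := by gcongr
    _ = (1 / 2) / n := by field_simp
    _ ≤ _ := by gcongr; linarith

end Pool.Agent.Lib.MP_153faa_pr
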