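import Mathlib

/-! A scale-free form of the flow inequalities and the escape from the critical trajectory. -/

set_option autoImplicit false

namespace Pool.Agent.Lib.MP_153faa_pr

/-- The rescaled flow inequalities on the window `[1, L]`. -/
structure godelHyp (K L ε : ℝ) (w h : ℝ → ℝ) : Prop where
  anti : ∀ x y, 1 ≤ x → x ≤ y → y ≤ L → w y ≤ w x
  lo : ∀ x, 1 ≤ x → x ≤ L → 9 / 5 ≤ x * w x
  hi : ∀ x, 1 ≤ x → x ≤ L → x * w x ≤ 11 / 5
  h0 : ∀ x, 0 ≤ h x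
  a1 : ∀ x δ, 1 ≤ x → ε ≤ δ → 64 * K * δ ≤ 1 → x + δ ≤ L →
    w (x + ε) - w (x + δ) ≤ ((1 + ε) * h x + K * (w (x - 2 * δ) - w (x + δ)) ^ 2 + ε) * δ
  a2 : ∀ x δ, 1 ≤ x → ε ≤ δ → 64 * K * δ ≤ 1 → x + δ ≤ L →
    ((1 - ε) * (1 - K * w x * δ) * h x - ε) * δ ≤ w x - w (x + δ)
  a3 : ∀ x δ, 1 ≤ x → ε ≤ δ → 64 * K * δ ≤ 1 → x + δ ≤ L →
    h (x + δ) ≤ h x * (1 + ε - w x * δ + ε * K * (w x * δ) + K * (w x * δ) ^ 2) +
      K * (w (x - 2 * δ) - w (x + δ)) ^ 2 + ε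

namespace godelHyp

variable {K L ε : ℝ} {w h : ℝ → ℝ} (H : godelHyp K L ε w h)

include H

theorem w_pos {x : ℝ} (h1 : 1 ≤ x) (h2 : x ≤ L) : 0 < w x := by
  have := H.lo x h1 h2
  by_contra hc
  nlinarith

theorem w_le {x : ℝ} (h1 : 1 ≤ x) (h2 : x ≤ L) : w x ≤ 11 / 5 := by
  have := H.hi x h1 h2
  have := H.w_pos h1 h2
  nlinarith

theorem h_le (hK : 1 ≤ K) (e0 : 0 ≤ ε) (e1 : 128 * K * ε ≤ 1) {x : ℝ} (h1 : 1 ≤ x)
    (h2 : x + 1 ≤ L) : h x ≤ 600 * K := by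
  have K0 : 0 < K := by linarith
  set δ : ℝ := 1 / (64 * K) with hδ
  have d1 : 64 * K * δ = 1 := by rw [hδ]; field_simp
  have d0 : 0 < δ := by positivity
  have d2 : δ ≤ 1 := by nlinarith
  have e2 : ε ≤ δ := by nlinarith
  have e3 : ε ≤ 1 / 2 := by nlinarith
  have a := H.a2 x δ h1 e2 d1.le (by linarith)
  have w1 := H.w_le h1 (by linarith)
  have w0 := H.w_pos h1 (by linarith : x ≤ L)
  have w2 := H.w_pos (x := x + δ) (by linarith) (by linarith)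
  have h0 := H.h0 x
  have b1 : 1 / 2 ≤ 1 - K * w x * δ := by nlinarith
  have b2 : 1 / 4 ≤ (1 - ε) * (1 - K * w x * δ) := by nlinarith
  have b3 : (h x / 4 - ε) * δ ≤ 11 / 5 := by
    refine le_trans (mul_le_mul_of_nonneg_right ?_ d0.le) (a.trans (by linarith))
    nlinarith
  have b4 : (h x / 4 - ε) * δ * (64 * K) ≤ 11 / 5 * (64 * K) :=
    mul_le_mul_of_nonneg_right b3 (by positivity)
  have b5 : (h x / 4 - ε) * δ * (64 * K) = h x / 4 - ε := by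
    rw [mul_assoc, mul_comm δ, d1, mul_one]
  linarith

theorem lip (hK : 1 ≤ K) (e0 : 0 ≤ ε) (e1 : 128 * K * ε ≤ 1) {x u : ℝ} (h1 : 2 ≤ x)
    (h2 : x + 1 ≤ L) (u0 : 0 ≤ u) (u1 : 128 * K * u ≤ 1) :
    w x - w (x + u) ≤ 1300 * K * (u + ε) := by
  have e3 : ε ≤ 1 / 128 := by nlinarith
  have u3 : u ≤ 1 / 128 := by nlinarith
  have a := H.a1 (x - ε) (u + ε) (by linarith) (by linarith) (by linarith) (by linarith)
  rw [sub_add_cancel, show x - ε + (u + ε) = x + u by ring] at a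
  refine a.trans (mul_le_mul_of_nonneg_right ?_ (by linarith))
  have b1 := H.h_le hK e0 e1 (x := x - ε) (by linarith) (by linarith)
  have b0 := H.h0 (x - ε)
  have w1 := H.w_le (x := x - ε - 2 * (u + ε)) (by linarith) (by linarith)
  have w2 := H.w_pos (x := x + u) (by linarith) (by linarith)
  have w3 := H.anti (x - ε - 2 * (u + ε)) (x + u) (by linarith) (by linarith) (by linarith)
  have b2 : (w (x - ε - 2 * (u + ε)) - w (x + u)) ^ 2 ≤ 5 := by nlinarith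
  nlinarith

/-- The conserved quantity of the model is almost increasing. -/
theorem stepJ (hK : 1 ≤ K) (e0 : 0 ≤ ε) {δ : ℝ} (d0 : 0 < δ) (d1 : 384 * K * δ ≤ 1)
    (e1 : ε ≤ δ ^ 2) {x : ℝ} (h1 : 3 ≤ x) (h2 : x + 2 ≤ L) :
    w x ^ 2 - 2 * h x - 10 ^ 9 * K ^ 3 * δ ^ 2 ≤ w (x + δ) ^ 2 - 2 * h (x + δ) := by
  have d2 : δ ≤ 1 / 384 := by nlinarith
  have e2 : ε ≤ δ := by nlinarith
  have e3 : 128 * K * ε ≤ 1 := by nlinarith
  have a1 := H.a1 x δ (by linarith) e2 (by nlinarith) (by linarith)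
  have a3 := H.a3 x δ (by linarith) e2 (by nlinarith) (by linarith)
  have l1 := H.lip hK e0 e3 (x := x - 2 * δ) (u := 3 * δ) (by linarith) (by linarith)
    (by linarith) (by linarith)
  rw [show x - 2 * δ + 3 * δ = x + δ by ring] at l1
  have l2 := H.lip hK e0 e3 (x := x) (u := ε) (by linarith) (by linarith) e0 e3
  have l3 := H.anti (x - 2 * δ) (x + δ) (by linarith) (by linarith) (by linarith)
  have hx := H.h_le hK e0 e3 (x := x) (by linarith) (by linarith)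
  have h0 := H.h0 x
  have w1 := H.w_le (x := x) (by linarith) (by linarith)
  have w0 := (H.w_pos (x := x) (by linarith) (by linarith)).le
  have K0 : 0 < K := by linarith
  have K2 : K ≤ K ^ 2 := by nlinarith
  have K3 : K ^ 2 ≤ K ^ 3 := by nlinarith
  have q1 : K * (w (x - 2 * δ) - w (x + δ)) ^ 2 ≤ 27040000 * (K ^ 3 * δ ^ 2) := by
    have : (w (x - 2 * δ) - w (x + δ)) ^ 2 ≤ (5200 * K * δ) ^ 2 :=
      pow_le_pow_left₀ (by linarith) (by nlinarith) 2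
    nlinarith
  generalize K * (w (x - 2 * δ) - w (x + δ)) ^ 2 = Q at a1 a3 q1
  have s0 : 0 ≤ δ ^ 2 := by positivity
  have k1 : δ ^ 2 ≤ K ^ 3 * δ ^ 2 := by nlinarith
  have k2 : K * δ ^ 2 ≤ K ^ 3 * δ ^ 2 := by nlinarith
  have k3 : K ^ 2 * δ ^ 2 ≤ K ^ 3 * δ ^ 2 := by nlinarith
  have m1 : K * ε ≤ K * δ ^ 2 := by gcongr
  have m2 : ε * h x ≤ 600 * (K * δ ^ 2) := by nlinarith
  have P0 : 0 ≤ K ^ 3 * δ ^ 2 := by positivity
  have b1 : w x - w (x + δ) ≤ h x * δ + 80000 * (K ^ 3 * δ ^ 2) := by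
    have : (ε * h x + Q + ε) * δ ≤ (27040601 * (K ^ 3 * δ ^ 2)) * (1 / 384) :=
      mul_le_mul (by linarith) d2 d0.le (by positivity)
    nlinarith
  have y0 : 0 ≤ w x * δ := by positivity
  have y1 : w x * δ ≤ 11 / 5 * δ := by gcongr
  have b2 : ε * K * (w x * δ) + K * (w x * δ) ^ 2 ≤ 6 * (K * δ ^ 2) := by
    have t1 : (w x * δ) ^ 2 ≤ (11 / 5 * δ) ^ 2 := pow_le_pow_left₀ y0 y1 2
    have t2 : ε * K * (w x * δ) ≤ K * δ ^ 2 * 1 :=
      mul_le_mul (by linarith) (by linarith) y0 (by positivity)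
    nlinarith
  have b3 : h x * (ε * K * (w x * δ) + K * (w x * δ) ^ 2) ≤ 600 * K * (6 * (K * δ ^ 2)) :=
    mul_le_mul hx b2 (by positivity) (by positivity)
  have b4 : h (x + δ) ≤ h x - h x * (w x * δ) + 27050000 * (K ^ 3 * δ ^ 2) := by nlinarith
  have b5 : w x * (w x - w (x + δ)) ≤ w x * (h x * δ) + 11 / 5 * (80000 * (K ^ 3 * δ ^ 2)) := by
    have := mul_le_mul_of_nonneg_left b1 w0
    have := mul_le_mul_of_nonneg_right w1 (show 0 ≤ 80000 * (K ^ 3 * δ ^ 2) by positivity)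
    nlinarith
  nlinarith [sq_nonneg (w x - w (x + δ))]

theorem iterJ (hK : 1 ≤ K) (e0 : 0 ≤ ε) {δ : ℝ} (d0 : 0 < δ) (d1 : 384 * K * δ ≤ 1)
    (e1 : ε ≤ δ ^ 2) {x : ℝ} (h1 : 3 ≤ x) (n : ℕ) (h2 : x + n * δ + 2 ≤ L) :
    w x ^ 2 - 2 * h x - 10 ^ 9 * K ^ 3 * δ * (n * δ) ≤ w (x + n * δ) ^ 2 - 2 * h (x + n * δ) := by
  induction n with
  | zero => simp
  | succ n ih =>
    push_cast at h2 ⊢
    have n0 : 0 ≤ n * δ := by positivity
    have := H.stepJ hK e0 d0 d1 e1 (x := x + n * δ) (by linarith) (by linarith)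
    rw [show x + (n + 1) * δ = x + n * δ + δ by ring]
    have := ih (by linarith)
    linarith

/-- Growth of the reciprocal when the conserved quantity is small. -/
theorem stepW (hK : 1 ≤ K) (e0 : 0 ≤ ε) {δ : ℝ} (d0 : 0 < δ) (d1 : 384 * K * δ ≤ 1)
    (e1 : ε ≤ δ ^ 2) {x j S : ℝ} (h1 : 3 ≤ x) (h2 : x + 2 ≤ L) (hS : x ≤ S) (j0 : 0 ≤ j)
    (hj : w x ^ 2 - 2 * h x ≤ j) :
    (w x)⁻¹ + (1 / 2 - (j / 2 + 2000 * K ^ 2 * δ) * S ^ 2 / 3) * δ ≤ (w (x + δ))⁻¹ := by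
  have d2 : δ ≤ 1 / 384 := by nlinarith
  have e2 : ε ≤ δ := by nlinarith
  have e3 : 128 * K * ε ≤ 1 := by nlinarith
  have a2 := H.a2 x δ (by linarith) e2 (by nlinarith) (by linarith)
  have hx := H.h_le hK e0 e3 (x := x) (by linarith) (by linarith)
  have h0 := H.h0 x
  have w1 := H.w_le (x := x) (by linarith) (by linarith)
  have w0 := H.w_pos (x := x) (by linarith) (by linarith)
  have w2 := H.w_pos (x := x + δ) (by linarith) (by linarith)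
  have w3 := H.anti x (x + δ) (by linarith) (by linarith) (by linarith)
  have lo := H.lo x (by linarith) (by linarith)
  have K0 : 0 < K := by linarith
  have y0 : 0 ≤ K * w x * δ := by positivity
  have y1 : K * w x * δ ≤ K * (11 / 5) * δ := by gcongr
  have kd : δ ≤ K * δ := by nlinarith
  have b1 : 1 - 16 / 5 * (K * δ) ≤ (1 - ε) * (1 - K * w x * δ) := by nlinarith
  have b2 : h x - 16 / 5 * (K * δ) * (600 * K) ≤ (1 - ε) * (1 - K * w x * δ) * h x := by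
    have := mul_le_mul_of_nonneg_right b1 h0
    have := mul_le_mul_of_nonneg_left hx (show 0 ≤ 16 / 5 * (K * δ) by positivity)
    nlinarith
  have kd2 : K * δ ≤ K ^ 2 * δ := by nlinarith
  set c := j / 2 + 2000 * K ^ 2 * δ with hc
  have c0 : 0 ≤ c := by positivity
  have b3 : (w x ^ 2 / 2 - c) * δ ≤ w x - w (x + δ) := by
    refine le_trans (mul_le_mul_of_nonneg_right ?_ d0.le) a2
    nlinarith
  have b4 : 3 ≤ S ^ 2 * w x ^ 2 := by
    have : 9 / 5 ≤ S * w x := lo.trans (by gcongr)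
    nlinarith
  have b5 : (1 / 2 - c * S ^ 2 / 3) * δ * w x ^ 2 ≤ w x - w (x + δ) := by
    refine le_trans ?_ b3
    have : c * 3 ≤ c * (S ^ 2 * w x ^ 2) := by gcongr
    nlinarith
  have b6 : (w x - w (x + δ)) / w x ^ 2 ≤ (w (x + δ))⁻¹ - (w x)⁻¹ := by
    rw [inv_sub_inv w2.ne' w0.ne']
    exact div_le_div_of_nonneg_left (by linarith) (by positivity) (by nlinarith)
  have b7 := (le_div_iff₀ (show 0 < w x ^ 2 by positivity)).2 b5
  linarith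

end godelHyp

theorem godel_main {K R : ℝ} (hK : 1 ≤ K) (hR : 4 ≤ R) : ∃ ε : ℝ, 0 < ε ∧ ε ≤ 1 ∧
    ∀ w h : ℝ → ℝ, godelHyp K (R ^ 4) ε w h → R ^ 3 * w (R ^ 3) < (1 + 80 / R ^ 2) * 2 := by
  have K0 : 0 < K := by linarith
  have R0 : 0 < R := by linarith
  have R2 : 16 ≤ R ^ 2 := by nlinarith
  have R3 : 64 ≤ R ^ 3 := by nlinarith
  have R4 : 4 * R ^ 3 ≤ R ^ 4 := by nlinarith
  obtain ⟨δ, d0, d1⟩ : ∃ δ : ℝ, 0 < δ ∧ 10 ^ 9 * K ^ 3 * δ * R ^ 4 * R ^ 8 = 1 :=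
    ⟨1 / (10 ^ 9 * K ^ 3 * R ^ 4 * R ^ 8), by positivity, by field_simp⟩
  have K2 : K ≤ K ^ 2 := by nlinarith
  have K3 : K ^ 2 ≤ K ^ 3 := by nlinarith
  have R8 : 1 ≤ R ^ 8 := one_le_pow₀ (by linarith)
  have d2 : 2000 * K ^ 2 * δ ≤ 10 ^ 9 * K ^ 3 * δ * R ^ 4 := by
    have : K ^ 2 * δ ≤ K ^ 3 * δ := by gcongr
    have t : 0 ≤ K ^ 3 * δ := by positivity
    nlinarith
  have d3 : 10 ^ 9 * K ^ 3 * δ * R ^ 4 ≤ 1 := by
    have t : 0 ≤ 10 ^ 9 * K ^ 3 * δ * R ^ 4 := by positivity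
    nlinarith
  have d4 : 384 * K * δ ≤ 1 := by nlinarith
  have d5 : δ ≤ 1 := by nlinarith
  refine ⟨δ ^ 2, by positivity, by nlinarith, fun w h H => ?_⟩
  by_contra hc
  rw [not_lt] at hc
  have e0 : 0 ≤ δ ^ 2 := by positivity
  set E := 10 ^ 9 * K ^ 3 * δ with hE
  have E0 : 0 ≤ E := by positivity
  have u0 : 0 < (R ^ 8)⁻¹ := by positivity
  have EL : E * R ^ 4 = (R ^ 8)⁻¹ := eq_inv_of_mul_eq_one_left d1
  rcases le_total (40 * (R ^ 8)⁻¹) (w (R ^ 3) ^ 2 - 2 * h (R ^ 3)) with hJ | hJ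
  · obtain ⟨n, n1, n2⟩ : ∃ n : ℕ, R ^ 4 / 2 ≤ R ^ 3 + n * δ ∧ R ^ 3 + n * δ ≤ R ^ 4 / 2 + 1 := by
      have t0 : 0 ≤ (R ^ 4 / 2 - R ^ 3) / δ := div_nonneg (by linarith) d0.le
      have t1 := (div_le_iff₀ d0).1 (Nat.le_ceil ((R ^ 4 / 2 - R ^ 3) / δ))
      have t2 := (lt_div_iff₀ d0).1 (sub_lt_iff_lt_add.2 (Nat.ceil_lt_add_one t0))
      exact ⟨⌈(R ^ 4 / 2 - R ^ 3) / δ⌉₊, by linarith, by linarith⟩
    have a := H.iterJ hK e0 d0 d4 le_rfl (x := R ^ 3) (by linarith) n (by linarith)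
    have a1 : E * (n * δ) ≤ E * R ^ 4 := mul_le_mul_of_nonneg_left (by linarith) E0
    have a2 := H.hi (R ^ 3 + n * δ) (by linarith) (by linarith)
    have a3 := H.w_pos (x := R ^ 3 + n * δ) (by linarith) (by linarith)
    have a4 := H.h0 (R ^ 3 + n * δ)
    have a5 : R ^ 4 * w (R ^ 3 + n * δ) ≤ 22 / 5 := by nlinarith
    have a6 : (R ^ 4 * w (R ^ 3 + n * δ)) ^ 2 ≤ (22 / 5) ^ 2 :=
      pow_le_pow_left₀ (by positivity) a5 2
    have a7 : 39 * (R ^ 8)⁻¹ * R ^ 8 ≤ w (R ^ 3 + n * δ) ^ 2 * R ^ 8 :=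
      mul_le_mul_of_nonneg_right (by linarith) (by positivity)
    rw [mul_assoc, inv_mul_cancel₀ (by positivity)] at a7
    nlinarith
  · obtain ⟨n, n1, n2⟩ : ∃ n : ℕ, 3 ≤ R ^ 3 - n * δ ∧ R ^ 3 - n * δ ≤ 4 := by
      have t0 : 0 ≤ (R ^ 3 - 3) / δ := div_nonneg (by linarith) d0.le
      have t1 := (le_div_iff₀ d0).1 (Nat.floor_le t0)
      have t2 := (div_lt_iff₀ d0).1 (Nat.lt_floor_add_one ((R ^ 3 - 3) / δ))
      exact ⟨⌊(R ^ 3 - 3) / δ⌋₊, by linarith, by linarith⟩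
    set x := R ^ 3 - n * δ with hx
    have key : ∀ m : ℕ, m ≤ n → (1 / 2 - 8 / R ^ 2) * (m * δ) ≤ (w (x + m * δ))⁻¹ := by
      intro m
      induction m with
      | zero => exact fun _ => by simpa using (H.w_pos (x := x) (by linarith) (by linarith)).le
      | succ m ih =>
        intro hm
        obtain ⟨r, hr⟩ : ∃ r : ℕ, n = m + r := ⟨n - m, by omega⟩
        have m0 : 0 ≤ m * δ := by positivity
        have r0 : 0 ≤ r * δ := by positivity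
        have e1 : x + m * δ + r * δ = R ^ 3 := by rw [hx, hr]; push_cast; ring
        have a := H.iterJ hK e0 d0 d4 le_rfl (x := x + m * δ) (by linarith) r (by linarith)
        rw [e1] at a
        have a1 : E * (r * δ) ≤ E * R ^ 4 := mul_le_mul_of_nonneg_left (by linarith) E0
        have b := H.stepW hK e0 d0 d4 le_rfl (x := x + m * δ) (j := 41 * (R ^ 8)⁻¹) (S := R ^ 3)
          (by linarith) (by linarith) (by linarith) (by positivity) (by linarith)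
        have b1 : (41 * (R ^ 8)⁻¹ / 2 + 2000 * K ^ 2 * δ) * (R ^ 3) ^ 2 / 3 ≤ 8 / R ^ 2 := by
          calc _ ≤ (24 * (R ^ 8)⁻¹) * (R ^ 3) ^ 2 / 3 := by gcongr; linarith
            _ = _ := by field_simp; norm_num
        have b2 := mul_le_mul_of_nonneg_right b1 d0.le
        have := ih (by omega)
        push_cast
        rw [show x + (m + 1) * δ = x + m * δ + δ by ring]
        nlinarith
    have k1 := key n le_rfl
    rw [hx, sub_add_cancel] at k1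
    have w0 := H.w_pos (x := R ^ 3) (by linarith) (by linarith)
    have w1 := H.hi (R ^ 3) (by linarith) (by linarith)
    have t1 : 80 / R ^ 2 = 10 * (8 / R ^ 2) := by ring
    have t2 : R ^ 3 * (8 / R ^ 2) = 8 * R := by field_simp
    have t0 : 0 < 8 / R ^ 2 := by positivity
    rw [t1] at hc
    generalize 8 / R ^ 2 = θ at *
    have θ1 : θ ≤ 1 / 100 := by linarith
    have k2 : (1 / 2 - θ) * (R ^ 3 - 4) * w (R ^ 3) ≤ 1 := by
      rw [← le_div_iff₀ w0, one_div (w _)]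
      exact le_trans (mul_le_mul_of_nonneg_left (by linarith) (by linarith)) k1
    have k3 : (1 / 2 - θ) * (R ^ 3 - 4) * ((1 + 10 * θ) * 2) ≤
        (1 / 2 - θ) * (R ^ 3 - 4) * (R ^ 3 * w (R ^ 3)) :=
      mul_le_mul_of_nonneg_left hc (mul_nonneg (by linarith) (by linarith))
    have k4 : R ^ 3 * ((1 / 2 - θ) * (R ^ 3 - 4) * w (R ^ 3)) ≤ R ^ 3 * 1 :=
      mul_le_mul_of_nonneg_left k2 (by positivity)
    have k5 : 1 + 7 * θ ≤ (1 / 2 - θ) * ((1 + 10 * θ) * 2) := by nlinarith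
    have k6 : (1 + 7 * θ) * (R ^ 3 - 4) ≤ (1 / 2 - θ) * ((1 + 10 * θ) * 2) * (R ^ 3 - 4) :=
      mul_le_mul_of_nonneg_right k5 (by linarith)
    nlinarith

end Pool.Agent.Lib.MP_153faa_pr
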