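import Mathlib
import Pool.Agent.Lib.MP_153faa_pr.GDefs
import Pool.Agent.Lib.MP_153faa_pr.GOdeL1

set_option autoImplicit false

open MeasureTheory Filter Topology
open scoped ENNReal NNReal

namespace Pool.Agent.Lib.MP_153faa_pr

variable {d : ℕ}

theorem godel_small {p c : ℝ} (hp : 0 < p) (hc : 0 < c) (n : ℕ) :
    ∀ᶠ a : ℝ in atTop, a ^ n * Real.exp (-a ^ p) ≤ c := by
  have h := (tendsto_rpow_mul_exp_neg_mul_atTop_nhds_zero (n / p) 1 one_pos).comp
    (tendsto_rpow_atTop hp)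
  filter_upwards [h.eventually (ge_mem_nhds hc), eventually_ge_atTop 0] with a h1 h2
  simp only [Function.comp, neg_mul, one_mul] at h1
  rwa [← Real.rpow_mul h2, mul_div_cancel₀ _ hp.ne', Real.rpow_natCast] at h1

/-- A trajectory slightly above the critical one leaves it. -/
theorem ode_low {b C : ℝ} (hb : 0 < b) (hC : 1 ≤ C) : ∃ D : ℝ, 1 ≤ D ∧ ∀ R : ℝ, 4 ≤ R →
    ∃ η s₀ : ℝ, 0 < η ∧ ∀ (σ₀ s : ℝ) (k g : ℝ → ℝ), Reg k g → FlowU b C η σ₀ k g → s₀ ≤ s →
      R ^ 3 * σ₀ ≤ s → (∀ τ ∈ Set.Icc (s / R ^ 3) (R * s), 9 / 10 * (2 / b) ≤ τ * k τ) →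
      (1 + D / R ^ 2) * (2 / b) ≤ s * k s →
      ∃ τ ∈ Set.Icc (s / R ^ 3) (R * s), 11 / 10 * (2 / b) ≤ τ * k τ := by
  refine ⟨80, by norm_num, fun R hR => ?_⟩
  have R0 : 0 < R := by linarith
  obtain ⟨β, hβ, β0⟩ : ∃ β : ℝ, b * β = 1 ∧ 0 < β := ⟨b⁻¹, mul_inv_cancel₀ hb.ne', by positivity⟩
  have hb2 : 2 / b = 2 * β := by rw [div_eq_iff hb.ne']; linarith
  obtain ⟨K, K1, K2, K3, K4⟩ : ∃ K : ℝ, 1 ≤ K ∧ C * β ≤ K ∧ C * β ^ 2 ≤ K ∧ β ≤ K :=
    ⟨C * (1 + β) ^ 2, by nlinarith, mul_le_mul_of_nonneg_left (by nlinarith) (by linarith),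
      by nlinarith, by nlinarith⟩
  obtain ⟨ε, e0, e1, hmain⟩ := godel_main K1 hR
  obtain ⟨a₀, ha₀⟩ := eventually_atTop.1
    ((godel_small (p := 1 / 5) (c := β / R ^ 4) (by norm_num) (by positivity) 1).and
      ((godel_small (p := 1 / 4) (c := β * ε) (by norm_num) (by positivity) 2).and
        ((eventually_ge_atTop (R ^ 4 / ε ^ 2)).and (eventually_gt_atTop 0))))
  refine ⟨ε, R ^ 3 * a₀, e0, fun σ₀ s k g hr hF hs hσ hlo hs' => ?_⟩
  by_contra hc
  push Not at hc
  obtain ⟨a, rfl⟩ : ∃ a, s = R ^ 3 * a := ⟨s / R ^ 3, by field_simp⟩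
  have R3 : 0 < R ^ 3 := by positivity
  obtain ⟨t1, t2, t3, a0⟩ := ha₀ a (le_of_mul_le_mul_left hs R3)
  have σa : σ₀ ≤ a := le_of_mul_le_mul_left hσ R3
  rw [div_le_iff₀ (by positivity)] at t3
  rw [mul_div_cancel_left₀ _ R3.ne', hb2] at hlo hc
  rw [hb2] at hs'
  have mem : ∀ x, 1 ≤ x → x ≤ R ^ 4 → a * x ∈ Set.Icc a (R * (R ^ 3 * a)) := fun x h1 h2 =>
    ⟨by nlinarith, by nlinarith⟩
  have lo : ∀ x, 1 ≤ x → x ≤ R ^ 4 → 9 / 5 ≤ x * (a * b * k (a * x)) := fun x h1 h2 => by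
    have := mul_le_mul_of_nonneg_left (hlo _ (mem x h1 h2)) hb.le
    nlinarith
  have hi : ∀ x, 1 ≤ x → x ≤ R ^ 4 → x * (a * b * k (a * x)) ≤ 11 / 5 := fun x h1 h2 => by
    have := mul_le_mul_of_nonneg_left (hc _ (mem x h1 h2)).le hb.le
    nlinarith
  have sq : ∀ x, 1 ≤ x → x ≤ R ^ 4 → √(a * x) ≤ a * ε := fun x h1 h2 =>
    Real.sqrt_le_iff.2 ⟨by positivity, by nlinarith⟩
  have ti : ∀ x, 1 ≤ x → a ^ 2 * b * tiny (a * x) ≤ ε := fun x h1 => by
    have h2 : tiny (a * x) ≤ Real.exp (-a ^ (1 / 4 : ℝ)) := Real.exp_le_exp.2 (neg_le_neg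
      (Real.rpow_le_rpow a0.le (by nlinarith) (by norm_num)))
    have h3 := mul_le_mul_of_nonneg_left t2 hb.le
    have h4 := mul_le_mul_of_nonneg_left h2 (show 0 ≤ a ^ 2 * b by positivity)
    rw [← mul_assoc b β, hβ] at h3
    linarith
  have adm : ∀ x δ, 1 ≤ x → ε ≤ δ → 64 * K * δ ≤ 1 → x + δ ≤ R ^ 4 →
      Adm C σ₀ k (a * x) (a * δ) := fun x δ h1 h2 h3 h4 => by
    have d0 : 0 < δ := by linarith
    refine ⟨by nlinarith, (sq x h1 (by linarith)).trans (by gcongr), ?_, ?_, ?_⟩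
    · have : 64 * δ ≤ x := by nlinarith
      nlinarith
    · have h5 := hi x h1 (by linarith)
      have h6 : 0 ≤ a * b * k (a * x) := mul_nonneg (by positivity) (hr.2.2.1 _)
      have h7 : a * b * k (a * x) ≤ 11 / 5 := by nlinarith
      have h8 : C * β * δ * (a * b * k (a * x)) ≤ K * δ * (11 / 5) :=
        mul_le_mul (by gcongr) h7 h6 (by positivity)
      have h9 : C * β * δ * (a * b * k (a * x)) = C * k (a * x) * (a * δ) * (b * β) := by ring
      rw [hβ] at h9
      linarith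
    · have h5 := lo (x + δ) (by linarith) h4
      have h6 : 0 ≤ a * b * k (a * (x + δ)) := mul_nonneg (by positivity) (hr.2.2.1 _)
      have h7 : 1 ≤ R ^ 4 * (a * b * k (a * (x + δ))) := by nlinarith
      have h8 : Real.exp (-(a * x) ^ (1 / 5 : ℝ)) ≤ Real.exp (-a ^ (1 / 5 : ℝ)) :=
        Real.exp_le_exp.2 (neg_le_neg (Real.rpow_le_rpow a0.le (by nlinarith) (by norm_num)))
      rw [← mul_add]
      refine h8.trans (le_of_mul_le_mul_left ?_ (show 0 < a * R ^ 4 by positivity))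
      rw [pow_one, le_div_iff₀ (by positivity)] at t1
      have h9 := mul_le_mul_of_nonneg_left h7 β0.le
      have h10 : β * (R ^ 4 * (a * b * k (a * (x + δ)))) =
          a * R ^ 4 * k (a * (x + δ)) * (b * β) := by ring
      rw [hβ] at h10
      linarith
  have ab : 0 ≤ a * b := by positivity
  have dr : ∀ u : ℝ, a ^ 2 * b * (C * u ^ 2) ≤ K * (a * b * u) ^ 2 := fun u => by
    have h1 : a ^ 2 * b * (C * u ^ 2) * (b * β) = C * β * (a * b * u) ^ 2 := by ring
    rw [hβ, mul_one] at h1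
    rw [h1]
    gcongr
  have := hmain (fun x => a * b * k (a * x)) (fun x => a ^ 2 * b * g (a * x))
    { anti := fun x y h1 h2 _ => mul_le_mul_of_nonneg_left (hr.2.1
        (show 0 < a * x by positivity) (show 0 < a * y from mul_pos a0 (by linarith))
        (by gcongr)) ab
      lo := lo
      hi := hi
      h0 := fun x => mul_nonneg (by positivity) (hr.2.2.2 _)
      a1 := fun x δ h1 h2 h3 h4 => by
        have d0 : 0 < δ := by linarith
        have f := mul_le_mul_of_nonneg_left (hF _ _ (adm x δ h1 h2 h3 h4)).1 ab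
        have f1 : k (a * (x + ε)) ≤ k (a * x + √(a * x)) := hr.2.1
          (show 0 < a * x + √(a * x) by positivity) (show 0 < a * (x + ε) by positivity)
          (by linarith [sq x h1 (by linarith)])
        have f2 := mul_le_mul_of_nonneg_left f1 ab
        have f3 := mul_le_mul_of_nonneg_right
          (add_le_add (dr (k (a * x - 2 * (a * δ)) - k (a * x + a * δ))) (ti x h1)) d0.le
        rw [show a * (x - 2 * δ) = a * x - 2 * (a * δ) by ring, mul_add a x δ]
        linarith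
      a2 := fun x δ h1 h2 h3 h4 => by
        have d0 : 0 < δ := by linarith
        have f := mul_le_mul_of_nonneg_left (hF _ _ (adm x δ h1 h2 h3 h4)).2.1 ab
        have f3 := mul_le_mul_of_nonneg_right (ti x h1) d0.le
        have k0 := hr.2.2.1 (a * x)
        have g0 := hr.2.2.2 (a * x)
        have f4 : C * β * (a * b * k (a * x) * δ) ≤ K * (a * b * k (a * x) * δ) := by gcongr
        have f5 : C * β * (a * b * k (a * x) * δ) = C * k (a * x) * (a * δ) * (b * β) := by ring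
        rw [hβ] at f5
        have f6 := mul_le_mul_of_nonneg_right (f5.symm.trans_le f4)
          (show 0 ≤ (1 - ε) * (a ^ 2 * b * g (a * x)) * δ from
            mul_nonneg (mul_nonneg (by linarith) (by positivity)) d0.le)
        rw [mul_add a x δ]
        linarith
      a3 := fun x δ h1 h2 h3 h4 => by
        have d0 : 0 < δ := by linarith
        have f := mul_le_mul_of_nonneg_left (hF _ _ (adm x δ h1 h2 h3 h4)).2.2
          (show 0 ≤ a ^ 2 * b by positivity)
        have f3 := add_le_add (dr (k (a * x - 2 * (a * δ)) - k (a * x + a * δ))) (ti x h1)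
        have k0 := hr.2.2.1 (a * x)
        have g0 := hr.2.2.2 (a * x)
        have f4 : ε * β * (a * b * k (a * x) * δ) + C * β ^ 2 * (a * b * k (a * x) * δ) ^ 2 ≤
            ε * K * (a * b * k (a * x) * δ) + K * (a * b * k (a * x) * δ) ^ 2 := by gcongr
        have f5 : ε * β * (a * b * k (a * x) * δ) + C * β ^ 2 * (a * b * k (a * x) * δ) ^ 2 =
            ε * (k (a * x) * (a * δ)) * (b * β) + C * (k (a * x) * (a * δ)) ^ 2 * (b * β) ^ 2 := by
          ring
        rw [hβ] at f5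
        have f6 := mul_le_mul_of_nonneg_left (f5.symm.trans_le f4)
          (show 0 ≤ a ^ 2 * b * g (a * x) by positivity)
        rw [show a * (x - 2 * δ) = a * x - 2 * (a * δ) by ring, mul_add a x δ]
        linarith }
  have h1 := mul_le_mul_of_nonneg_left hs' hb.le
  have h2 : b * ((1 + 80 / R ^ 2) * (2 * β)) = (1 + 80 / R ^ 2) * 2 * (b * β) := by ring
  rw [hβ, mul_comm (R ^ 3) a] at *
  linarith

end Pool.Agent.Lib.MP_153faa_pr
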