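import Mathlib
import Pool.Agent.Lib.MP_153faa_pr.GOdeL

/-!
Real-variable core of the separation of subcritical trajectories from the critical one.
-/

set_option autoImplicit false

open MeasureTheory Filter Topology
open scoped ENNReal NNReal

namespace Pool.Agent.Lib.MP_153faa_pr

theorem gmainl_le_iff {b o c t : ℝ} (hb : 0 < b) (ho : 0 < o) :
    c * (2 / b) ≤ t * o⁻¹ ↔ c * o ≤ b * t / 2 := by
  rw [← div_eq_mul_inv, ← mul_div_assoc, div_le_div_iff₀ hb ho]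
  constructor <;> intro h <;> linarith

theorem gmainl_ge_iff {b o c t : ℝ} (hb : 0 < b) (ho : 0 < o) :
    t * o⁻¹ ≤ c * (2 / b) ↔ b * t / 2 ≤ c * o := by
  rw [← div_eq_mul_inv, ← mul_div_assoc, div_le_div_iff₀ ho hb]
  constructor <;> intro h <;> linarith

theorem gmainl_scale {D δ : ℝ} (hD : 1 ≤ D) (hδ : 0 < δ) :
    ∃ R : ℝ, 8 ≤ R ∧ D / R ^ 2 < 1 ∧ R * (D / R ^ 2) ^ (1 / 2 + δ / 2) ≤ 1 := by
  have h1 : Tendsto (fun R : ℝ => D ^ (1 / 2 + δ / 2) * R ^ (-δ)) atTop (𝓝 0) := by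
    simpa using (tendsto_rpow_neg_atTop hδ).const_mul (D ^ (1 / 2 + δ / 2))
  obtain ⟨R, hR1, hR2, hR3⟩ := ((h1.eventually (ge_mem_nhds one_pos)).and
    ((eventually_ge_atTop (8 : ℝ)).and (eventually_gt_atTop D))).exists
  have hR0 : 0 < R := by linarith
  refine ⟨R, hR2, ?_, ?_⟩
  · rw [div_lt_one (by positivity)]
    nlinarith
  · have e : R * (D / R ^ 2) ^ (1 / 2 + δ / 2) = D ^ (1 / 2 + δ / 2) * R ^ (-δ) := by
      rw [Real.div_rpow (by linarith) (by positivity), ← Real.rpow_natCast,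
        ← Real.rpow_mul hR0.le, Real.rpow_neg hR0.le]
      have : ((2 : ℕ) : ℝ) * (1 / 2 + δ / 2) = 1 + δ := by push_cast; ring
      rw [this, Real.rpow_add hR0, Real.rpow_one]
      have := Real.rpow_pos_of_pos hR0 δ
      field_simp
    rw [e]
    exact hR1

theorem gmainl_final {R θ t₀ c δ : ℝ} (hR : 0 < R) (hθ : 0 < θ) (hθ1 : θ < 1) (ht : 0 < t₀)
    (hc : 0 < c) (hδ : 0 < δ) (h : R * θ ^ (1 / 2 + δ / 2) ≤ 1) :
    ∃ ε₁ : ℝ, 0 < ε₁ ∧ ∀ ε : ℝ, 0 < ε → ε < ε₁ → ∃ n : ℕ, θ ^ n ≤ c * ε ∧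
      R ^ n * t₀ ≤ ε ^ (-(1 / 2 + δ)) := by
  set γ : ℝ := 1 / 2 + δ / 2 with hγ
  have hγ0 : 0 < γ := by positivity
  set K : ℝ := R * t₀ * (c ^ γ)⁻¹ with hK
  have hcγ : 0 < c ^ γ := Real.rpow_pos_of_pos hc γ
  have hK0 : 0 < K := by positivity
  refine ⟨min c⁻¹ (K⁻¹ ^ (2 / δ)), lt_min (by positivity) (Real.rpow_pos_of_pos (by positivity) _),
    fun ε h0 h1 => ?_⟩
  have h2 : c * ε ≤ 1 := by
    have := (h1.trans_le (min_le_left _ _)).le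
    calc c * ε ≤ c * c⁻¹ := by gcongr
      _ = 1 := mul_inv_cancel₀ hc.ne'
  obtain ⟨n, hn1, hn2⟩ := exists_nat_pow_near_of_lt_one (mul_pos hc h0) h2 hθ hθ1
  refine ⟨n + 1, hn1.le, ?_⟩
  have h3 : ε ^ (δ / 2) ≤ K⁻¹ := by
    have := Real.rpow_le_rpow h0.le (h1.trans_le (min_le_right _ _)).le (half_pos hδ).le
    rwa [← Real.rpow_mul (by positivity), show 2 / δ * (δ / 2) = 1 by field_simp,
      Real.rpow_one] at this
  have h4 : R ^ n * (c ^ γ * ε ^ γ) ≤ 1 := by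
    rw [← Real.mul_rpow hc.le h0.le]
    calc R ^ n * (c * ε) ^ γ ≤ R ^ n * (θ ^ n) ^ γ := by gcongr
      _ = (R * θ ^ γ) ^ n := by
        rw [mul_pow, ← Real.rpow_natCast θ n, ← Real.rpow_mul hθ.le, mul_comm (n : ℝ),
          Real.rpow_mul hθ.le, Real.rpow_natCast]
      _ ≤ 1 := pow_le_one₀ (by positivity) h
  have hεγ : 0 < ε ^ γ := Real.rpow_pos_of_pos h0 γ
  have hεδ : 0 < ε ^ (δ / 2) := Real.rpow_pos_of_pos h0 _
  have e : ε ^ (-(1 / 2 + δ)) = (ε ^ γ * ε ^ (δ / 2))⁻¹ := by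
    rw [← Real.rpow_add h0, Real.rpow_neg h0.le]
    congr 2
    rw [hγ]; ring
  rw [e, ← one_div, le_div_iff₀ (by positivity)]
  have h5 : K * ε ^ (δ / 2) ≤ 1 := by
    calc K * ε ^ (δ / 2) ≤ K * K⁻¹ := by gcongr
      _ = 1 := mul_inv_cancel₀ hK0.ne'
  have e2 : R ^ (n + 1) * t₀ * (ε ^ γ * ε ^ (δ / 2)) =
      (R ^ n * (c ^ γ * ε ^ γ)) * (K * ε ^ (δ / 2)) := by
    rw [hK, pow_succ]; field_simp
  rw [e2]
  exact mul_le_one₀ h4 (by positivity) h5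

theorem gmainl_abs {b C Q ε₀ δ S v : ℝ} (hb : 0 < b) (hC : 1 ≤ C) (hQ : 1 ≤ Q) (hε : 0 < ε₀)
    (hδ : 0 < δ) (hv : 0 < v) (kL gL kR o : ℝ → ℝ → ℝ) (oc : ℝ → ℝ)
    (hreg : ∀ e, Reg (kL e) (gL e))
    (hanti : ∀ x, AntitoneOn (kR x) (Set.Ioi 0)) (hnn : ∀ x t, 0 ≤ kR x t)
    (hko : ∀ e t, 0 < e → e ≤ ε₀ → 0 < t → 1 ≤ o e t ∧ o e t ≤ oc t ∧ kL e t = (o e t)⁻¹)
    (hA : ∀ e e' t, 0 < e' → e' ≤ e → e ≤ ε₀ → 0 < t →
      e' * (oc t - o e t) ≤ Q * e * (oc t - o e' t))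
    (hB : ∀ e t, 0 < e → e ≤ ε₀ → 0 < t → e * (o e t * (o e t - 1)) ≤ Q * (oc t - o e t))
    (hR : ∀ e x t, 0 < e → e ≤ ε₀ → 0 < x → x ≤ ε₀ → 0 < t →
      kR x t * x * (oc t - o e t) ≤ Q * e)
    (hpos : ∀ t, 0 < t → ∃ x, 0 < x ∧ x ≤ ε₀ ∧ 0 < kR x t)
    (hk : Tendsto (fun σ => σ * (oc σ)⁻¹) atTop (𝓝 (2 / b)))
    (hU : ∀ η : ℝ, 0 < η → ∃ σ₀ ε₁ : ℝ, 1 ≤ σ₀ ∧ 0 < ε₁ ∧
      ∀ e, 0 < e → e ≤ ε₁ → FlowU b C η σ₀ (kL e) (gL e)) :
    ∃ ε₁ : ℝ, 0 < ε₁ ∧ ∀ ε : ℝ, 0 < ε → ε < ε₁ →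
      ∃ τ, S ≤ τ ∧ τ ≤ ε ^ (-(1 / 2 + δ)) ∧ τ * kR ε τ ≤ v := by
  obtain ⟨D, hD, hode⟩ := ode_low hb hC
  have hD' : 1 ≤ 75 * Q * D := by nlinarith [one_le_mul_of_one_le_of_one_le hQ hD]
  obtain ⟨R, hR8, hθ1, hRθ⟩ := gmainl_scale hD' hδ
  have hR0 : 0 < R := by linarith
  set θ : ℝ := 75 * Q * D / R ^ 2 with hθ
  have hθ0 : 0 < θ := by positivity
  obtain ⟨η, s₀, hη, hode⟩ := hode R (by linarith)
  obtain ⟨σ₀, ε₁, hσ₀, hε₁, hU⟩ := hU η hη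
  have h2b : 0 < 2 / b := by positivity
  have hζ0 : 0 < 1 / R ^ 2 := by positivity
  have hζ1 : 1 / R ^ 2 ≤ 1 / 64 := by
    apply one_div_le_one_div_of_le (by norm_num); nlinarith
  have hoc : ∀ t, 0 < t → 1 ≤ oc t := fun t ht =>
    (hko ε₀ t hε le_rfl ht).1.trans (hko ε₀ t hε le_rfl ht).2.1
  obtain ⟨S₀, hS₀1, hS₀⟩ : ∃ S₀ : ℝ, 1 ≤ S₀ ∧ ∀ t, S₀ ≤ t →
      oc t ≤ (1 + 2 * (1 / R ^ 2)) * (b * t / 2) ∧ b * t / 2 ≤ 51 / 50 * oc t := by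
    have e1 : ∀ᶠ σ in atTop, (1 - 1 / R ^ 2) * (2 / b) ≤ σ * (oc σ)⁻¹ :=
      hk.eventually (le_mem_nhds (by nlinarith))
    have e2 : ∀ᶠ σ in atTop, σ * (oc σ)⁻¹ ≤ 51 / 50 * (2 / b) :=
      hk.eventually (ge_mem_nhds (by nlinarith))
    obtain ⟨S₀, hS₀⟩ := eventually_atTop.1 (e1.and e2)
    refine ⟨max 1 S₀, le_max_left _ _, fun t ht => ?_⟩
    have ht0 : 0 < t := by linarith [le_max_left 1 S₀]
    have ho := hoc t ht0
    obtain ⟨h1, h2⟩ := hS₀ t ((le_max_right _ _).trans ht)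
    rw [gmainl_le_iff hb (by linarith)] at h1
    rw [gmainl_ge_iff hb (by linarith)] at h2
    refine ⟨?_, h2⟩
    set ζ : ℝ := 1 / R ^ 2
    have h3 : 0 ≤ ζ * (1 - 2 * ζ) * oc t := by
      have : 0 ≤ 1 - 2 * ζ := by linarith
      positivity
    nlinarith
  set S₁ : ℝ := max (max s₀ (R ^ 3 * σ₀)) (max (R ^ 3 * S₀) S) with hS₁
  have hR3 : 1 ≤ R ^ 3 := one_le_pow₀ (by linarith)
  have hS₁a : s₀ ≤ S₁ := (le_max_left _ _).trans (le_max_left _ _)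
  have hS₁b : R ^ 3 * σ₀ ≤ S₁ := (le_max_right _ _).trans (le_max_left _ _)
  have hS₁c : R ^ 3 * S₀ ≤ S₁ := (le_max_left _ _).trans (le_max_right _ _)
  have hS₁d : S ≤ S₁ := (le_max_right _ _).trans (le_max_right _ _)
  have hS₀₁ : S₀ ≤ S₁ := by nlinarith
  have hS₁0 : 0 < S₁ := by linarith
  obtain ⟨x₁, hx₁, hx₁', hk₁⟩ := hpos S₁ hS₁0
  set e₁ : ℝ := min (min ε₀ ε₁) (kR x₁ S₁ * x₁ * b / (60 * Q)) with he₁
  have hQ0 : 0 < Q := by linarith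
  have he₁0 : 0 < e₁ := lt_min (lt_min hε hε₁) (by positivity)
  have he₁a : e₁ ≤ ε₀ := (min_le_left _ _).trans (min_le_left _ _)
  have he₁b : e₁ ≤ ε₁ := (min_le_left _ _).trans (min_le_right _ _)
  have he₁c : e₁ * (60 * Q) ≤ kR x₁ S₁ * x₁ * b := by
    rw [← le_div_iff₀ (by positivity)]; exact min_le_right _ _
  -- a separated point has a large gap
  have gap : ∀ e t, S₀ ≤ t → 11 / 10 * o e t ≤ b * t / 2 → b * t / 30 ≤ oc t - o e t := by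
    intro e t ht h
    have := (hS₀ t ht).2
    have : 0 ≤ b * t := by have : 0 < t := by linarith
                           positivity
    linarith
  -- no separation at bounded times
  have nosep : ∀ e t, 0 < e → e ≤ e₁ → S₀ ≤ t → 11 / 10 * o e t ≤ b * t / 2 → S₁ ≤ t := by
    intro e t he0 he ht h
    by_contra hlt
    have ht0 : 0 < t := by linarith
    have h1 := gap e t ht h
    have h2 := hR e x₁ t he0 (he.trans he₁a) hx₁ hx₁' ht0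
    have h3 : kR x₁ S₁ ≤ kR x₁ t := hanti x₁ ht0 hS₁0 (not_le.1 hlt).le
    have h4 : b / 30 ≤ oc t - o e t := by
      have : b * 1 ≤ b * t := by gcongr; linarith
      linarith
    have h5 : kR x₁ S₁ * x₁ * (b / 30) ≤ kR x₁ t * x₁ * (oc t - o e t) := by
      have := hnn x₁ t
      gcongr
    have h6 : Q * e ≤ Q * e₁ := by gcongr
    have h7 : 0 < Q * e₁ := by positivity
    linarith
  -- one step of the iteration
  have step : ∀ e t, 0 < e → e ≤ e₁ → S₁ ≤ t → 11 / 10 * o e t ≤ b * t / 2 →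
      ∃ t', S₁ ≤ t' ∧ t' ≤ R * t ∧ 11 / 10 * o (θ * e) t' ≤ b * t' / 2 := by
    intro e t he0 he ht h
    have ht0 : 0 < t := by linarith
    have he'0 : 0 < θ * e := by positivity
    have he'e : θ * e ≤ e := by nlinarith
    have he'1 : θ * e ≤ e₁ := he'e.trans he
    have he'ε : θ * e ≤ ε₀ := he'1.trans he₁a
    have hlow : ∀ τ ∈ Set.Icc (t / R ^ 3) (R * t), S₀ ≤ τ := fun τ hτ => by
      refine le_trans ?_ hτ.1
      rw [le_div_iff₀ (by positivity)]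
      linarith
    have h1 := gap e t (hS₀₁.trans ht) h
    have h2 := hA e (θ * e) t he'0 he'e (he.trans he₁a) ht0
    have h3 : θ * (b * t / 30) ≤ Q * (oc t - o (θ * e) t) := by
      have h4 : θ * e * (b * t / 30) ≤ θ * e * (oc t - o e t) := by gcongr
      have h5 : e * (θ * (b * t / 30)) ≤ e * (Q * (oc t - o (θ * e) t)) := by linarith
      exact le_of_mul_le_mul_left h5 he0
    have h4 : 5 * D * (1 / R ^ 2) * (b * t / 2) ≤ oc t - o (θ * e) t := by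
      have h5 : Q * (5 * D * (1 / R ^ 2) * (b * t / 2)) = θ * (b * t / 30) := by
        rw [hθ]; ring
      exact le_of_mul_le_mul_left (h5.le.trans h3) hQ0
    obtain ⟨k1, k2, k3⟩ := hko (θ * e) t he'0 he'ε ht0
    obtain ⟨τ, hτ, hτ'⟩ := hode σ₀ t (kL (θ * e)) (gL (θ * e)) (hreg _)
      (hU _ he'0 (he'1.trans he₁b)) (hS₁a.trans ht) (hS₁b.trans ht) (fun τ hτ => by
        have hτ0 := hlow τ hτ
        have hτ1 : 0 < τ := by linarith
        obtain ⟨j1, j2, j3⟩ := hko (θ * e) τ he'0 he'ε hτ1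
        rw [j3, gmainl_le_iff hb (by linarith)]
        have := (hS₀ τ hτ0).1
        have hu : 0 < b * τ / 2 := by positivity
        nlinarith) (by
        rw [k3, gmainl_le_iff hb (by linarith), div_eq_mul_one_div D]
        have h6 := (hS₀ t (hS₀₁.trans ht)).1
        set ζ : ℝ := 1 / R ^ 2
        set u : ℝ := b * t / 2
        have hu : 0 < u := by positivity
        have h7 : ζ * u ≤ D * ζ * u := by
          have : 0 < ζ * u := by positivity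
          nlinarith
        have h8 : 0 ≤ D * ζ * u := by positivity
        have h9 : o (θ * e) t ≤ (1 - D * ζ) * u := by nlinarith
        have h10 : 0 ≤ D * ζ := by positivity
        calc (1 + D * ζ) * o (θ * e) t ≤ (1 + D * ζ) * ((1 - D * ζ) * u) := by gcongr
          _ = u - (D * ζ) ^ 2 * u := by ring
          _ ≤ u := sub_le_self _ (by positivity))
    have hτ0 := hlow τ hτ
    obtain ⟨j1, j2, j3⟩ := hko (θ * e) τ he'0 he'ε (by linarith)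
    rw [j3, gmainl_le_iff hb (by linarith)] at hτ'
    exact ⟨τ, nosep _ τ he'0 he'1 hτ0 hτ', hτ.2, hτ'⟩
  -- the seed
  obtain ⟨t₀, ht₀, hseed⟩ : ∃ t₀, S₁ ≤ t₀ ∧ 11 / 10 * o e₁ t₀ ≤ b * t₀ / 2 := by
    set t₀ : ℝ := max S₁ (max (22 / b) (20 * Q / (e₁ * b))) with ht₀
    have h1 : S₁ ≤ t₀ := le_max_left _ _
    have h2 : 22 ≤ t₀ * b := by
      rw [← div_le_iff₀ hb]; exact (le_max_left _ _).trans (le_max_right _ _)
    have h3 : 20 * Q ≤ t₀ * (e₁ * b) := by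
      rw [← div_le_iff₀ (by positivity)]; exact (le_max_right _ _).trans (le_max_right _ _)
    refine ⟨t₀, h1, ?_⟩
    by_contra hlt
    have hlt := not_le.1 hlt
    have ht0 : 0 < t₀ := by linarith
    have h4 := hB e₁ t₀ he₁0 he₁a ht0
    have h5 := (hS₀ t₀ (hS₀₁.trans h1)).1
    obtain ⟨k1, -, -⟩ := hko e₁ t₀ he₁0 he₁a ht0
    set u : ℝ := b * t₀ / 2 with hu
    have hu1 : 11 ≤ u := by rw [hu]; linarith
    have hu2 : 10 * Q ≤ e₁ * u := by rw [hu]; linarith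
    have h6 : oc t₀ - o e₁ t₀ ≤ 2 * u := by nlinarith
    have h7 : 7 / 10 * u * u ≤ o e₁ t₀ * (o e₁ t₀ - 1) := by
      have a1 : 10 / 11 * u ≤ o e₁ t₀ := by linarith
      have a2 : 4 / 5 * u ≤ o e₁ t₀ - 1 := by linarith
      calc 7 / 10 * u * u ≤ (10 / 11 * u) * (4 / 5 * u) := by nlinarith
        _ ≤ _ := by gcongr
    have h8 : e₁ * (7 / 10 * u * u) ≤ e₁ * (o e₁ t₀ * (o e₁ t₀ - 1)) := by gcongr
    have h9 : Q * (oc t₀ - o e₁ t₀) ≤ Q * (2 * u) := by gcongr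
    have h10 : 10 * Q * u ≤ e₁ * u * u := by gcongr
    have h11 : 0 < Q * u := by positivity
    nlinarith
  have iter : ∀ n : ℕ, ∃ t, S₁ ≤ t ∧ t ≤ R ^ n * t₀ ∧ 11 / 10 * o (θ ^ n * e₁) t ≤ b * t / 2 := by
    intro n
    induction n with
    | zero => exact ⟨t₀, ht₀, by simp, by simpa using hseed⟩
    | succ n ih =>
      obtain ⟨t, h1, h2, h3⟩ := ih
      have h4 : θ ^ n ≤ 1 := pow_le_one₀ hθ0.le hθ1.le
      obtain ⟨t', k1, k2, k3⟩ := step (θ ^ n * e₁) t (by positivity) (by nlinarith) h1 h3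
      refine ⟨t', k1, ?_, ?_⟩
      · calc t' ≤ R * t := k2
          _ ≤ R * (R ^ n * t₀) := by gcongr
          _ = _ := by ring
      · rwa [show θ ^ (n + 1) * e₁ = θ * (θ ^ n * e₁) by ring]
  obtain ⟨ε₂, hε₂, hfin⟩ := gmainl_final (t₀ := t₀) (c := v * b / (30 * Q * e₁)) hR0 hθ0 hθ1
    (by linarith) (by positivity) hδ hRθ
  refine ⟨min ε₂ ε₀, lt_min hε₂ hε, fun ε h0 h1 => ?_⟩
  obtain ⟨n, hn1, hn2⟩ := hfin ε h0 (h1.trans_le (min_le_left _ _))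
  obtain ⟨t, k1, k2, k3⟩ := iter n
  refine ⟨t, hS₁d.trans k1, k2.trans hn2, ?_⟩
  have ht0 : 0 < t := by linarith
  have h4 : θ ^ n ≤ 1 := pow_le_one₀ hθ0.le hθ1.le
  have h5 := hR (θ ^ n * e₁) ε t (by positivity) (le_trans (by nlinarith) he₁a) h0
    (h1.le.trans (min_le_right _ _)) ht0
  have h6 := gap _ t (hS₀₁.trans k1) k3
  have h7 : kR ε t * ε * (b * t / 30) ≤ kR ε t * ε * (oc t - o (θ ^ n * e₁) t) := by
    have := hnn ε t
    gcongr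
  have h8 : Q * (θ ^ n * e₁) ≤ Q * (v * b / (30 * Q * e₁) * ε * e₁) := by gcongr
  have h9 : Q * (v * b / (30 * Q * e₁) * ε * e₁) = ε * b / 30 * v := by field_simp
  have h10 : ε * b / 30 * (t * kR ε t) ≤ ε * b / 30 * v := by linarith
  exact le_of_mul_le_mul_left h10 (by positivity)

end Pool.Agent.Lib.MP_153faa_pr
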