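import Mathlib
import Pool.Agent.Lib.MP_153faa_pr.GDefs

/-!
One-site comparison of the gains at two inverse temperatures.
-/

set_option autoImplicit false

open MeasureTheory Filter Topology
open scoped ENNReal NNReal

namespace Pool.Agent.Lib.MP_153faa_pr

theorem gqc1_exp_up (u v : ℝ) :
    |Real.exp u - Real.exp v| ≤ |u - v| * (Real.exp u + Real.exp v) := by
  wlog h : v ≤ u generalizing u v
  · have := this v u (le_of_not_ge h)
    rwa [abs_sub_comm, abs_sub_comm v u, add_comm] at this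
  have h1 : Real.exp v ≤ Real.exp u := Real.exp_le_exp.2 h
  have h2 : v - u + 1 ≤ Real.exp (v - u) := Real.add_one_le_exp _
  have h3 : Real.exp v = Real.exp u * Real.exp (v - u) := by rw [← Real.exp_add]; congr 1; ring
  have h4 := Real.exp_pos u
  have h5 := Real.exp_pos v
  rw [abs_of_nonneg (by linarith), abs_of_nonneg (by linarith)]
  have h6 : Real.exp u * (v - u + 1) ≤ Real.exp v := by
    rw [h3]; exact mul_le_mul_of_nonneg_left h2 h4.le
  nlinarith [mul_nonneg (sub_nonneg.2 h) h5.le]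

theorem gqc1_exp_low {u v m : ℝ} (h : v ≤ u) (hm : m ≤ Real.exp v) :
    m * (u - v) ≤ Real.exp u - Real.exp v := by
  have h2 : u - v + 1 ≤ Real.exp (u - v) := Real.add_one_le_exp _
  have h3 : Real.exp u = Real.exp v * Real.exp (u - v) := by rw [← Real.exp_add]; congr 1; ring
  have h5 := Real.exp_pos v
  have h6 : Real.exp v * (u - v + 1) ≤ Real.exp u := by
    rw [h3]; exact mul_le_mul_of_nonneg_left h2 h5.le
  nlinarith [mul_le_mul_of_nonneg_right hm (sub_nonneg.2 h)]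

theorem gqc1_abs {u r : ℝ} (hu : 0 < u) (hr0 : 0 ≤ r) (hr : r ≤ 1) : |u ^ r - 1| ≤ |u - 1| := by
  rcases le_total u 1 with h | h
  · have h1 : u ^ r ≤ 1 := Real.rpow_le_one hu.le h hr0
    have h2 : u ^ (1 : ℝ) ≤ u ^ r := Real.rpow_le_rpow_of_exponent_ge hu h hr
    rw [Real.rpow_one] at h2
    rw [abs_of_nonpos (by linarith), abs_of_nonpos (by linarith)]
    linarith
  · have h1 : 1 ≤ u ^ r := Real.one_le_rpow h hr0
    have h2 : u ^ r ≤ u ^ (1 : ℝ) := Real.rpow_le_rpow_of_exponent_le h hr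
    rw [Real.rpow_one] at h2
    rw [abs_of_nonneg (by linarith), abs_of_nonneg (by linarith)]
    linarith

theorem gqc1_diff {x y r D : ℝ} (hr0 : 0 ≤ r) (hr : r ≤ 1) (hy : 0 < y) (hyx : y ≤ x)
    (hD1 : 1 ≤ D) (hD : x ≤ D) : r * (x - y) / D ≤ x ^ r - y ^ r := by
  have hx0 : 0 < x := by linarith
  have hD0 : 0 < D := by linarith
  have h := oneb_tan' hx0 hy.le hr0 hr
  have h1 : D ^ (r - 1) ≤ x ^ (r - 1) :=
    Real.rpow_le_rpow_of_nonpos hx0 hD (by linarith)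
  have h2 : D ^ (-1 : ℝ) ≤ D ^ (r - 1) := Real.rpow_le_rpow_of_exponent_le hD1 (by linarith)
  rw [Real.rpow_neg_one] at h2
  have h3 : 0 ≤ r * (x - y) := mul_nonneg hr0 (by linarith)
  have h4 := mul_le_mul_of_nonneg_left (h2.trans h1) h3
  rw [div_eq_mul_inv]
  nlinarith

theorem gqc1_aff_pos {s t : ℝ} (hs0 : 0 ≤ s) (hs : s ≤ 1) (ht : 0 < t) : 0 < 1 - s + s * t := by
  rcases eq_or_lt_of_le hs0 with h | h
  · rw [← h]; norm_num
  · have := mul_pos h ht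
    linarith

/-- Pointwise upper bound. -/
theorem gqc1_pt_up {s p t t' : ℝ} (hs0 : 0 ≤ s) (hs : s ≤ 1) (hp : 1 ≤ p) (hp2 : p ≤ 2)
    (ht : 0 < t) (ht' : 0 < t') :
    (1 - s + s * t') ^ p ≤ (1 - s + s * t) ^ p + p * s * (t' - t) +
      2 * s ^ 2 * ((t' + 1) * |t' - t|) := by
  have hu := gqc1_aff_pos hs0 hs ht
  have hu' := gqc1_aff_pos hs0 hs ht'
  have h1 := oneb_tan hu' hu.le hp
  have h2 := gqc1_abs hu' (show 0 ≤ p - 1 by linarith) (show p - 1 ≤ 1 by linarith)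
  set w := (1 - s + s * t') ^ (p - 1) with hw
  have h3 : |1 - s + s * t' - 1| ≤ s * (t' + 1) := by
    rw [abs_le]; constructor <;> nlinarith [mul_nonneg hs0 ht'.le]
  have h4 : |(w - 1) * (t' - t)| ≤ s * (t' + 1) * |t' - t| := by
    rw [abs_mul]
    exact mul_le_mul_of_nonneg_right (h2.trans h3) (abs_nonneg _)
  have h5 : (w - 1) * (t' - t) ≤ s * (t' + 1) * |t' - t| := (le_abs_self _).trans h4
  have h6 : 0 ≤ s * (t' + 1) * |t' - t| := by positivity
  have h7 : p * s * ((w - 1) * (t' - t)) ≤ p * s * (s * (t' + 1) * |t' - t|) :=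
    mul_le_mul_of_nonneg_left h5 (mul_nonneg (by linarith) hs0)
  have h8 : p * s * (s * (t' + 1) * |t' - t|) ≤ 2 * s * (s * (t' + 1) * |t' - t|) :=
    mul_le_mul_of_nonneg_right (mul_le_mul_of_nonneg_right hp2 hs0) h6
  nlinarith

/-- Pointwise lower bound. -/
theorem gqc1_pt_low {s p t t' w g : ℝ} (hs0 : 0 ≤ s) (hs : s ≤ 1) (hp : 1 ≤ p)
    (ht : 0 < t) (ht' : 0 < t')
    (hg : g ≤ ((1 - s + s * t) ^ (p - 1) - (1 - s + s * w) ^ (p - 1)) * (t' - t)) :
    (1 - s + s * t) ^ p + p * s * (1 - s + s * w) ^ (p - 1) * (t' - t) + p * s * g ≤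
      (1 - s + s * t') ^ p := by
  have hu := gqc1_aff_pos hs0 hs ht
  have hu' := gqc1_aff_pos hs0 hs ht'
  have h1 := oneb_tan hu hu'.le hp
  have h2 := mul_le_mul_of_nonneg_left hg (mul_nonneg (show 0 ≤ p by linarith) hs0)
  nlinarith

theorem gqc1_mono {s r t w : ℝ} (hs0 : 0 ≤ s) (hs : s ≤ 1) (hr : 0 ≤ r) (hw : 0 < w)
    (h : w ≤ t) : (1 - s + s * w) ^ r ≤ (1 - s + s * t) ^ r :=
  Real.rpow_le_rpow (gqc1_aff_pos hs0 hs hw).le (by nlinarith) hr

theorem gqc1_gap {s r t w D e : ℝ} (hs0 : 0 ≤ s) (hs : s ≤ 1) (hr : 0 ≤ r) (hr1 : r ≤ 1)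
    (hw : 0 < w) (he : 0 ≤ e) (h : e ≤ t - w) (hD1 : 1 ≤ D) (hD : t ≤ D) :
    r * s * e / D ≤ (1 - s + s * t) ^ r - (1 - s + s * w) ^ r := by
  have h1 := gqc1_diff (x := 1 - s + s * t) (y := 1 - s + s * w) (D := D) hr hr1
    (gqc1_aff_pos hs0 hs hw) (by nlinarith) hD1 (by nlinarith)
  refine le_trans ?_ h1
  refine div_le_div_of_nonneg_right ?_ (by linarith)
  have := mul_le_mul_of_nonneg_left h (mul_nonneg hr hs0)
  nlinarith

variable {ν : Measure ℝ} [IsProbabilityMeasure ν]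

/-- The weight at inverse temperature `β`. -/
noncomputable def gqc1Z (ν : Measure ℝ) (β x : ℝ) : ℝ := Real.exp (β * x - lam ν β)

theorem gqc1_z_pos (β x : ℝ) : 0 < gqc1Z ν β x := Real.exp_pos _

theorem gqc1_z_int (hν : ∀ β : ℝ, Integrable (fun t => Real.exp (β * t)) ν) (β : ℝ) :
    Integrable (gqc1Z ν β) ν ∧ ∫ x, gqc1Z ν β x ∂ν = 1 := by
  have e : gqc1Z ν β = fun x => Real.exp (β * x) * Real.exp (-lam ν β) := by
    funext x; rw [gqc1Z, ← Real.exp_add, sub_eq_add_neg]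
  rw [e]
  refine ⟨(hν β).mul_const _, ?_⟩
  rw [integral_mul_const, Real.exp_neg, lam, Real.exp_log (onec_pos hν β)]
  exact mul_inv_cancel₀ (onec_pos hν β).ne'

theorem gqc1_z_meas (β : ℝ) : Measurable (gqc1Z ν β) := by
  unfold gqc1Z; fun_prop

theorem gqc1_lint (β : ℝ) {F : ℝ≥0 → ℝ≥0∞} (hF : Measurable F) :
    ∫⁻ t, F t ∂rho ν β = ∫⁻ x, F (gqc1Z ν β x).toNNReal ∂ν := by
  rw [rho, lintegral_map hF (by fun_prop)]
  rfl

/-- The law is not concentrated at one point. -/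
theorem gqc1_nondeg (hν : ∀ β : ℝ, Integrable (fun t => Real.exp (β * t)) ν) {β : ℝ} (hβ : 0 < β)
    (h2 : mom (rho ν β) 2 ≠ 1) : ∃ x₁ η R m : ℝ, 0 < η ∧ 0 ≤ R ∧ 0 < m ∧
      m ≤ ν.real (Set.Icc (x₁ + η) R ∩ Set.Icc (-R) R) ∧
      m ≤ ν.real (Set.Icc (-R) (x₁ - η) ∩ Set.Icc (-R) R) := by
  obtain ⟨iz, ez⟩ := gqc1_z_int hν β
  have key : ¬ (∀ᵐ x ∂ν, gqc1Z ν β x = 1) := by
    intro h
    apply h2
    rw [mom, gqc1_lint β (by fun_prop)]
    rw [lintegral_congr_ae (g := fun _ => 1) (by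
      filter_upwards [h] with x hx
      simp [hx])]
    simp
  set x₁ := lam ν β / β with hx₁
  have hx : ∀ x, β * x - lam ν β = β * (x - x₁) := fun x => by
    rw [hx₁]; field_simp
  have hup : ¬ (∀ᵐ x ∂ν, x ≤ x₁) := by
    intro h
    apply key
    have h0 : 0 ≤ᵐ[ν] fun x => 1 - gqc1Z ν β x := by
      filter_upwards [h] with x hx'
      have : gqc1Z ν β x ≤ 1 := by
        rw [gqc1Z, hx, Real.exp_le_one_iff]
        exact mul_nonpos_of_nonneg_of_nonpos hβ.le (by linarith)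
      simpa using this
    have h1 := (integral_eq_zero_iff_of_nonneg_ae h0 ((integrable_const 1).sub iz)).1 (by
      rw [integral_sub (integrable_const 1) iz, ez]; simp)
    filter_upwards [h1] with x hx'
    simp only [Pi.zero_apply] at hx'
    linarith
  have hlow : ¬ (∀ᵐ x ∂ν, x₁ ≤ x) := by
    intro h
    apply key
    have h0 : 0 ≤ᵐ[ν] fun x => gqc1Z ν β x - 1 := by
      filter_upwards [h] with x hx'
      have : 1 ≤ gqc1Z ν β x := by
        rw [gqc1Z, hx]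
        exact Real.one_le_exp (mul_nonneg hβ.le (by linarith))
      simpa using this
    have h1 := (integral_eq_zero_iff_of_nonneg_ae h0 (iz.sub (integrable_const 1))).1 (by
      rw [integral_sub iz (integrable_const 1), ez]; simp)
    filter_upwards [h1] with x hx'
    simp only [Pi.zero_apply] at hx'
    linarith
  have cover : ∀ x : ℝ, x ≠ x₁ → ∃ n : ℕ, 1 / ((n : ℝ) + 1) ≤ |x - x₁| ∧ |x| ≤ n := by
    intro x hx'
    have hpos : 0 < |x - x₁| := abs_pos.2 (sub_ne_zero.2 hx')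
    obtain ⟨n₁, hn₁⟩ := exists_nat_one_div_lt hpos
    obtain ⟨n₂, hn₂⟩ := exists_nat_ge |x|
    refine ⟨max n₁ n₂, le_trans ?_ hn₁.le, hn₂.trans (by exact_mod_cast le_max_right _ _)⟩
    refine one_div_le_one_div_of_le (by positivity) ?_
    have : (n₁ : ℝ) ≤ (max n₁ n₂ : ℕ) := by exact_mod_cast le_max_left _ _
    linarith
  obtain ⟨n₁, hn₁⟩ : ∃ n : ℕ, ν (Set.Icc (x₁ + 1 / ((n : ℝ) + 1)) n ∩ Set.Icc (-(n : ℝ)) n) ≠ 0 := by
    by_contra hc
    push Not at hc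
    apply hup
    have h0 := measure_iUnion_null hc
    refine measure_mono_null (fun x hx' => ?_) h0
    have hx'' : x₁ < x := not_le.1 hx'
    obtain ⟨n, h1, h2⟩ := cover x hx''.ne'
    rw [abs_of_pos (by linarith)] at h1
    exact Set.mem_iUnion.2 ⟨n, ⟨by linarith, (abs_le.1 h2).2⟩, abs_le.1 h2⟩
  obtain ⟨n₂, hn₂⟩ : ∃ n : ℕ,
      ν (Set.Icc (-(n : ℝ)) (x₁ - 1 / ((n : ℝ) + 1)) ∩ Set.Icc (-(n : ℝ)) n) ≠ 0 := by
    by_contra hc
    push Not at hc
    apply hlow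
    have h0 := measure_iUnion_null hc
    refine measure_mono_null (fun x hx' => ?_) h0
    have hx'' : x < x₁ := not_le.1 hx'
    obtain ⟨n, h1, h2⟩ := cover x hx''.ne
    rw [abs_of_neg (by linarith)] at h1
    exact Set.mem_iUnion.2 ⟨n, ⟨(abs_le.1 h2).1, by linarith⟩, abs_le.1 h2⟩
  set n := max n₁ n₂ with hn
  have l₁ : (n₁ : ℝ) ≤ n := by exact_mod_cast le_max_left _ _
  have l₂ : (n₂ : ℝ) ≤ n := by exact_mod_cast le_max_right _ _
  have k₁ : 1 / ((n : ℝ) + 1) ≤ 1 / ((n₁ : ℝ) + 1) :=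
    one_div_le_one_div_of_le (by positivity) (by linarith)
  have k₂ : 1 / ((n : ℝ) + 1) ≤ 1 / ((n₂ : ℝ) + 1) :=
    one_div_le_one_div_of_le (by positivity) (by linarith)
  have p₁ : 0 < ν.real (Set.Icc (x₁ + 1 / ((n : ℝ) + 1)) n ∩ Set.Icc (-(n : ℝ)) n) := by
    refine ENNReal.toReal_pos (fun h => hn₁ (measure_mono_null ?_ h)) (measure_ne_top _ _)
    rintro x ⟨⟨a1, a2⟩, a3, a4⟩
    exact ⟨⟨by linarith, by linarith⟩, by linarith, by linarith⟩
  have p₂ : 0 < ν.real (Set.Icc (-(n : ℝ)) (x₁ - 1 / ((n : ℝ) + 1)) ∩ Set.Icc (-(n : ℝ)) n) := by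
    refine ENNReal.toReal_pos (fun h => hn₂ (measure_mono_null ?_ h)) (measure_ne_top _ _)
    rintro x ⟨⟨a1, a2⟩, a3, a4⟩
    exact ⟨⟨by linarith, by linarith⟩, by linarith, by linarith⟩
  exact ⟨x₁, 1 / ((n : ℝ) + 1), n, min _ _, by positivity, by positivity, lt_min p₁ p₂,
    min_le_left _ _, min_le_right _ _⟩

theorem gqc1_bound (hν : ∀ β : ℝ, Integrable (fun t => Real.exp (β * t)) ν) (β₁ β₂ : ℝ) :
    ∃ Λ : ℝ, 0 ≤ Λ ∧ ∀ β, β₁ ≤ β → β ≤ β₂ → |lam ν β| ≤ Λ := by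
  have hc := onec_cont hν
  obtain ⟨K, hK⟩ := (isCompact_Icc (a := β₁) (b := β₂)).bddAbove_image
    (f := fun β => |lam ν β|) (by fun_prop)
  exact ⟨max 0 K, le_max_left _ _, fun β h1 h2 =>
    (hK ⟨β, ⟨h1, h2⟩, rfl⟩).trans (le_max_right _ _)⟩

omit [IsProbabilityMeasure ν] in
theorem gqc1_h_int (hν : ∀ β : ℝ, Integrable (fun t => Real.exp (β * t)) ν) (B : ℝ) (k : ℕ) :
    Integrable (fun x => Real.exp (B * |x|) ^ k) ν := by
  have h := ProbabilityTheory.integrable_exp_mul_abs (X := fun t : ℝ => t) (μ := ν) (t := k * B)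
    (hν _) (hν _)
  refine h.congr (Eventually.of_forall fun x => ?_)
  simp only
  rw [← Real.exp_nat_mul, mul_assoc]

omit [IsProbabilityMeasure ν] in
theorem gqc1_z_le {β B Λ : ℝ} (h0 : 0 ≤ β) (hB : β ≤ B) (hΛ : |lam ν β| ≤ Λ) (x : ℝ) :
    gqc1Z ν β x ≤ Real.exp Λ * Real.exp ((B + 1) * |x|) := by
  rw [gqc1Z, ← Real.exp_add, Real.exp_le_exp]
  have h1 : β * x ≤ β * |x| := mul_le_mul_of_nonneg_left (le_abs_self x) h0
  have h2 : β * |x| ≤ (B + 1) * |x| := mul_le_mul_of_nonneg_right (by linarith) (abs_nonneg x)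
  linarith [(abs_le.1 hΛ).1]

theorem gqc1_abs_le {B : ℝ} (hB : 0 ≤ B) (x : ℝ) :
    |x| ≤ Real.exp ((B + 1) * |x|) ∧ 1 ≤ Real.exp ((B + 1) * |x|) := by
  have h1 := Real.add_one_le_exp ((B + 1) * |x|)
  have h2 := abs_nonneg x
  constructor <;> nlinarith [mul_nonneg hB h2]

theorem gqc1_lip (hν : ∀ β : ℝ, Integrable (fun t => Real.exp (β * t)) ν) {β₁ β₂ : ℝ}
    (h1 : 0 < β₁) : ∃ K : ℝ, 0 ≤ K ∧ ∀ a b, β₁ ≤ a → a ≤ b → b ≤ β₂ →
      |lam ν b - lam ν a| ≤ K * (b - a) := by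
  obtain ⟨Λ, hΛ0, hΛ⟩ := gqc1_bound hν β₁ β₂
  have ih := gqc1_h_int hν (β₂ + 1) 2
  set K := Real.exp Λ * ∫ x, Real.exp ((β₂ + 1) * |x|) ^ 2 ∂ν with hK
  have hK0 : 0 ≤ K := mul_nonneg (Real.exp_pos _).le (integral_nonneg fun x => by positivity)
  have hzx : ∀ β, β₁ ≤ β → β ≤ β₂ → Integrable (fun x => gqc1Z ν β x * x) ν ∧
      |∫ x, gqc1Z ν β x * x ∂ν| ≤ K := by
    intro β hb1 hb2
    have hpt : ∀ x, ‖gqc1Z ν β x * x‖ ≤ Real.exp Λ * Real.exp ((β₂ + 1) * |x|) ^ 2 := by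
      intro x
      have a1 := gqc1_z_le (ν := ν) (by linarith) hb2 (hΛ β hb1 hb2) x
      have a2 := (gqc1_abs_le (B := β₂) (by linarith) x).1
      rw [Real.norm_eq_abs, abs_mul, abs_of_pos (gqc1_z_pos β x), pow_two, ← mul_assoc]
      exact mul_le_mul a1 a2 (abs_nonneg _) (by positivity)
    refine ⟨(ih.const_mul _).mono' ((gqc1_z_meas β).mul measurable_id).aestronglyMeasurable
      (Eventually.of_forall hpt), ?_⟩
    rw [hK, ← integral_const_mul, ← Real.norm_eq_abs]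
    exact norm_integral_le_of_norm_le (ih.const_mul _) (Eventually.of_forall hpt)
  have key : ∀ a b, β₁ ≤ a → a ≤ β₂ →
      (b - a) * ∫ x, gqc1Z ν a x * x ∂ν ≤ lam ν b - lam ν a := by
    intro a b ha1 ha2
    obtain ⟨ia, ea⟩ := gqc1_z_int hν a
    obtain ⟨ib, eb⟩ := gqc1_z_int hν b
    have ix := (hzx a ha1 ha2).1
    have hpt : ∀ x, (1 - (lam ν b - lam ν a)) * gqc1Z ν a x + (b - a) * (gqc1Z ν a x * x) ≤
        gqc1Z ν b x := by
      intro x
      have e : gqc1Z ν b x = gqc1Z ν a x * Real.exp ((b - a) * x - (lam ν b - lam ν a)) := by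
        rw [gqc1Z, gqc1Z, ← Real.exp_add]; congr 1; ring
      have h2 := mul_le_mul_of_nonneg_left
        (Real.add_one_le_exp ((b - a) * x - (lam ν b - lam ν a))) (gqc1_z_pos (ν := ν) a x).le
      rw [e]
      linarith
    have h3 := integral_mono ((ia.const_mul _).add (ix.const_mul _)) ib hpt
    rw [integral_add' (ia.const_mul _) (ix.const_mul _), integral_const_mul, integral_const_mul,
      ea, eb] at h3
    linarith
  refine ⟨K, hK0, fun a b ha hab hb => ?_⟩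
  have k1 := key a b ha (hab.trans hb)
  have k2 := key b a (ha.trans hab) hb
  have k3 := abs_le.1 (hzx a ha (hab.trans hb)).2
  have k4 := abs_le.1 (hzx b (ha.trans hab) hb).2
  have h0 : 0 ≤ b - a := by linarith
  rw [abs_le]
  constructor <;> nlinarith [mul_le_mul_of_nonneg_left k3.1 h0, mul_le_mul_of_nonneg_left k4.2 h0]

theorem gqc1_up (hν : ∀ β : ℝ, Integrable (fun t => Real.exp (β * t)) ν) {β₁ β₂ : ℝ}
    (h1 : 0 < β₁) : ∃ C : ℝ, 0 ≤ C ∧ ∀ a b, β₁ ≤ a → a ≤ b → b ≤ β₂ →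
      Integrable (fun x => (gqc1Z ν b x + 1) * |gqc1Z ν b x - gqc1Z ν a x|) ν ∧
      ∫ x, (gqc1Z ν b x + 1) * |gqc1Z ν b x - gqc1Z ν a x| ∂ν ≤ C * (b - a) := by
  obtain ⟨Λ, hΛ0, hΛ⟩ := gqc1_bound hν β₁ β₂
  obtain ⟨K, hK0, hK⟩ := gqc1_lip (β₂ := β₂) hν h1
  have ih := gqc1_h_int hν (β₂ + 1) 3
  set A := Real.exp Λ with hA
  have hA0 : 0 < A := Real.exp_pos _
  set H := ∫ x, Real.exp ((β₂ + 1) * |x|) ^ 3 ∂ν with hH
  have hH0 : 0 ≤ H := integral_nonneg fun x => by positivity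
  refine ⟨(A + 1) * (1 + K) * (2 * A) * H, by positivity, fun a b ha hab hb => ?_⟩
  have h0 : 0 ≤ b - a := by linarith
  have hpt : ∀ x, (gqc1Z ν b x + 1) * |gqc1Z ν b x - gqc1Z ν a x| ≤
      (A + 1) * (1 + K) * (2 * A) * (b - a) * Real.exp ((β₂ + 1) * |x|) ^ 3 := by
    intro x
    have a1 := gqc1_z_le (ν := ν) (by linarith) (hab.trans hb) (hΛ a ha (hab.trans hb)) x
    have a2 := gqc1_z_le (ν := ν) (by linarith) hb (hΛ b (ha.trans hab) hb) x
    obtain ⟨a3, a4⟩ := gqc1_abs_le (B := β₂) (by linarith) x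
    set h := Real.exp ((β₂ + 1) * |x|) with hh
    have a5 := gqc1_exp_up (b * x - lam ν b) (a * x - lam ν a)
    have a6 : |b * x - lam ν b - (a * x - lam ν a)| ≤ (1 + K) * (b - a) * h := by
      have e : b * x - lam ν b - (a * x - lam ν a) = (b - a) * x - (lam ν b - lam ν a) := by ring
      rw [e]
      refine (abs_sub _ _).trans ?_
      rw [abs_mul, abs_of_nonneg h0]
      have b1 := hK a b ha hab hb
      have b2 := mul_le_mul_of_nonneg_left a3 h0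
      have b3 := mul_le_mul_of_nonneg_left a4 (mul_nonneg hK0 h0)
      nlinarith
    have a7 : |gqc1Z ν b x - gqc1Z ν a x| ≤ (1 + K) * (b - a) * h * (2 * A * h) := by
      refine a5.trans (mul_le_mul a6 ?_ (by positivity) (by positivity))
      change gqc1Z ν b x + gqc1Z ν a x ≤ _
      linarith
    have a8 : gqc1Z ν b x + 1 ≤ (A + 1) * h := by linarith
    refine (mul_le_mul a8 a7 (abs_nonneg _) (by positivity)).trans (le_of_eq ?_)
    ring
  have hnn : ∀ x, 0 ≤ (gqc1Z ν b x + 1) * |gqc1Z ν b x - gqc1Z ν a x| := fun x => by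
    have := gqc1_z_pos (ν := ν) b x
    positivity
  have hi : Integrable (fun x => (gqc1Z ν b x + 1) * |gqc1Z ν b x - gqc1Z ν a x|) ν := by
    refine (ih.const_mul _).mono' ?_ (Eventually.of_forall fun x => by
      rw [Real.norm_eq_abs, abs_of_nonneg (hnn x)]; exact hpt x)
    exact (((gqc1_z_meas b).add_const 1).mul
      ((gqc1_z_meas b).sub (gqc1_z_meas a)).abs).aestronglyMeasurable
  refine ⟨hi, (integral_mono hi (ih.const_mul _) hpt).trans (le_of_eq ?_)⟩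
  rw [integral_const_mul, ← hH]
  ring

theorem gqc1_pow_int (hν : ∀ β : ℝ, Integrable (fun t => Real.exp (β * t)) ν) {β s p : ℝ}
    (hβ : 0 ≤ β) (hs0 : 0 ≤ s) (hs : s ≤ 1) (hp : 0 ≤ p) (hp2 : p ≤ 2) :
    Integrable (fun x => (1 - s + s * gqc1Z ν β x) ^ p) ν := by
  have ih := gqc1_h_int hν (β + 1) 2
  refine (ih.const_mul ((1 + Real.exp |lam ν β|) ^ 2)).mono' ?_ (Eventually.of_forall fun x => ?_)
  · exact ((((gqc1_z_meas β).const_mul s).const_add _).pow_const p).aestronglyMeasurable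
  · have a1 := gqc1_z_le (ν := ν) hβ le_rfl le_rfl x
    have a2 := (gqc1_abs_le hβ x).2
    have a3 := gqc1_aff_pos hs0 hs (gqc1_z_pos (ν := ν) β x)
    have a4 := gqc1_z_pos (ν := ν) β x
    have a5 := Real.exp_pos |lam ν β|
    set h := Real.exp ((β + 1) * |x|) with hh
    have a6 : 1 - s + s * gqc1Z ν β x ≤ (1 + Real.exp |lam ν β|) * h := by nlinarith
    have a7 : 1 ≤ (1 + Real.exp |lam ν β|) * h := by nlinarith
    rw [Real.norm_eq_abs, abs_of_nonneg (Real.rpow_nonneg a3.le _), ← mul_pow, ← Real.rpow_two]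
    exact (Real.rpow_le_rpow a3.le a6 hp).trans (Real.rpow_le_rpow_of_exponent_le a7 hp2)

theorem gqc1_core_up (hν : ∀ β : ℝ, Integrable (fun t => Real.exp (β * t)) ν) {β₁ β₂ : ℝ}
    (h1 : 0 < β₁) : ∃ C : ℝ, 0 ≤ C ∧ ∀ a b, β₁ ≤ a → a ≤ b → b ≤ β₂ → ∀ p s : ℝ, 1 ≤ p → p ≤ 2 →
      0 ≤ s → s ≤ 1 → ∫ x, (1 - s + s * gqc1Z ν b x) ^ p ∂ν ≤
        ∫ x, (1 - s + s * gqc1Z ν a x) ^ p ∂ν + C * (b - a) * s ^ 2 := by
  obtain ⟨C, hC0, hC⟩ := gqc1_up (β₂ := β₂) hν h1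
  refine ⟨2 * C, by positivity, fun a b ha hab hb p s hp hp2 hs0 hs => ?_⟩
  obtain ⟨i1, e1⟩ := hC a b ha hab hb
  obtain ⟨ia, ea⟩ := gqc1_z_int hν a
  obtain ⟨ib, eb⟩ := gqc1_z_int hν b
  have ja := gqc1_pow_int hν (β := a) (by linarith) hs0 hs (show 0 ≤ p by linarith) hp2
  have jb := gqc1_pow_int hν (β := b) (by linarith) hs0 hs (show 0 ≤ p by linarith) hp2
  have i2 : Integrable (fun x => p * s * (gqc1Z ν b x - gqc1Z ν a x)) ν := (ib.sub ia).const_mul _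
  have i3 := i1.const_mul (2 * s ^ 2)
  have h3 := integral_mono jb ((ja.add i2).add i3) fun x =>
    gqc1_pt_up hs0 hs hp hp2 (gqc1_z_pos a x) (gqc1_z_pos b x)
  rw [integral_add' (ja.add i2) i3, integral_add' ja i2, integral_const_mul, integral_const_mul,
    integral_sub ib ia, ea, eb] at h3
  have h4 := mul_le_mul_of_nonneg_left e1 (show 0 ≤ 2 * s ^ 2 by positivity)
  nlinarith

theorem gqc1_core_low (hν : ∀ β : ℝ, Integrable (fun t => Real.exp (β * t)) ν) {β₁ β₂ p₀ : ℝ}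
    (h1 : 0 < β₁) (hp₀ : 1 < p₀) (h2 : mom (rho ν β₁) 2 ≠ 1) :
    ∃ c : ℝ, 0 < c ∧ ∀ a b, β₁ ≤ a → a ≤ b → b ≤ β₂ → ∀ p s : ℝ, p₀ ≤ p → p ≤ 2 →
      0 ≤ s → s ≤ 1 → ∫ x, (1 - s + s * gqc1Z ν a x) ^ p ∂ν + c * (b - a) * s ^ 2 ≤
        ∫ x, (1 - s + s * gqc1Z ν b x) ^ p ∂ν := by
  obtain ⟨Λ, hΛ0, hΛ⟩ := gqc1_bound hν β₁ β₂
  obtain ⟨K, hK0, hK⟩ := gqc1_lip (β₂ := β₂) hν h1
  obtain ⟨x₁, η, R, m, hη, hR, hm, m1, m2⟩ := gqc1_nondeg hν h1 h2
  set q := Real.exp (-(β₂ * (R + K)) - Λ) with hq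
  set D := Real.exp (|β₂| * (R + K) + Λ) with hD
  have hq0 : 0 < q := Real.exp_pos _
  have hD1 : 1 ≤ D := Real.one_le_exp (by positivity)
  have hp₀' : 0 < p₀ - 1 := by linarith
  refine ⟨(p₀ - 1) * (q * β₁ * η) / D * (q * η) * m, by positivity,
    fun a b ha hab hb p s hp hp2 hs0 hs => ?_⟩
  rcases eq_or_lt_of_le hab with rfl | hab'
  · simp
  have hδ : 0 < b - a := by linarith
  have ha0 : 0 < a := by linarith
  set x₀ := (lam ν b - lam ν a) / (b - a) with hx₀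
  have hx₀K : |x₀| ≤ K := by
    rw [hx₀, abs_div, abs_of_pos hδ, div_le_iff₀ hδ]
    exact hK a b ha hab hb
  have ex : ∀ x, b * x - lam ν b - (a * x - lam ν a) = (b - a) * (x - x₀) := fun x => by
    rw [hx₀]; field_simp; ring
  have hzl : ∀ β x, β₁ ≤ β → β ≤ β₂ → |x| ≤ R + K → q ≤ gqc1Z ν β x ∧ gqc1Z ν β x ≤ D := by
    intro β x hb1 hb2 hx
    have hβ0 : 0 ≤ β := by linarith
    have a1 := abs_le.1 (hΛ β hb1 hb2)
    have a2 := abs_le.1 hx
    have a3 : β * (R + K) ≤ β₂ * (R + K) := mul_le_mul_of_nonneg_right hb2 (by positivity)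
    have a4 : β₂ * (R + K) ≤ |β₂| * (R + K) :=
      mul_le_mul_of_nonneg_right (le_abs_self _) (by positivity)
    have a5 := mul_le_mul_of_nonneg_left a2.1 hβ0
    have a6 := mul_le_mul_of_nonneg_left a2.2 hβ0
    rw [hq, hD, gqc1Z, Real.exp_le_exp, Real.exp_le_exp]
    constructor <;> linarith
  set w := gqc1Z ν a x₀ with hw
  have hw0 : 0 < w := gqc1_z_pos a x₀
  have hwb := hzl a x₀ ha (hab.trans hb) (by linarith)
  set r := p - 1 with hr
  have hr0 : 0 ≤ r := by linarith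
  have hr1 : r ≤ 1 := by linarith
  set γ := r * s * (q * β₁ * η) / D * (q * η * (b - a)) with hγ
  have hγ0 : 0 ≤ γ := by positivity
  have sign : ∀ x, 0 ≤ ((1 - s + s * gqc1Z ν a x) ^ r - (1 - s + s * w) ^ r) *
      (gqc1Z ν b x - gqc1Z ν a x) := by
    intro x
    rcases le_total x₀ x with h | h
    · refine mul_nonneg (sub_nonneg.2 (gqc1_mono hs0 hs hr0 hw0 ?_)) (sub_nonneg.2 ?_)
      · exact Real.exp_le_exp.2 (by nlinarith)
      · refine Real.exp_le_exp.2 ?_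
        have := ex x
        nlinarith [mul_nonneg hδ.le (sub_nonneg.2 h)]
    · refine mul_nonneg_of_nonpos_of_nonpos
        (sub_nonpos.2 (gqc1_mono hs0 hs hr0 (gqc1_z_pos a x) ?_)) (sub_nonpos.2 ?_)
      · exact Real.exp_le_exp.2 (by nlinarith)
      · refine Real.exp_le_exp.2 ?_
        have := ex x
        nlinarith [mul_nonneg hδ.le (sub_nonneg.2 h)]
  have e0 : 0 ≤ q * β₁ * η := by positivity
  have gapR : ∀ x, |x| ≤ R → x₀ + η ≤ x →
      γ ≤ ((1 - s + s * gqc1Z ν a x) ^ r - (1 - s + s * w) ^ r) *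
        (gqc1Z ν b x - gqc1Z ν a x) := by
    intro x hx h
    have hxa := hzl a x ha (hab.trans hb) (by linarith)
    have b1 := gqc1_exp_low (u := a * x - lam ν a) (v := a * x₀ - lam ν a) (m := q)
      (by nlinarith) hwb.1
    have b2 : q * β₁ * η ≤ gqc1Z ν a x - w := by
      refine le_trans ?_ b1
      have : β₁ * η ≤ a * (x - x₀) := mul_le_mul ha (by linarith) hη.le ha0.le
      nlinarith [mul_le_mul_of_nonneg_left this hq0.le]
    have b3 := gqc1_gap hs0 hs hr0 hr1 hw0 e0 b2 hD1 hxa.2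
    have b4 := gqc1_exp_low (u := b * x - lam ν b) (v := a * x - lam ν a) (m := q)
      (by have := ex x; nlinarith [mul_nonneg hδ.le (show 0 ≤ x - x₀ by linarith)]) hxa.1
    have b5 : q * η * (b - a) ≤ gqc1Z ν b x - gqc1Z ν a x := by
      refine le_trans ?_ b4
      rw [ex]
      have : (b - a) * η ≤ (b - a) * (x - x₀) := mul_le_mul_of_nonneg_left (by linarith) hδ.le
      nlinarith [mul_le_mul_of_nonneg_left this hq0.le]
    exact mul_le_mul b3 b5 (by positivity) (le_trans (by positivity) b3)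
  have gapL : ∀ x, |x| ≤ R → x ≤ x₀ - η →
      γ ≤ ((1 - s + s * gqc1Z ν a x) ^ r - (1 - s + s * w) ^ r) *
        (gqc1Z ν b x - gqc1Z ν a x) := by
    intro x hx h
    have hxa := hzl a x ha (hab.trans hb) (by linarith)
    have hxb := hzl b x (ha.trans hab) hb (by linarith)
    have b1 := gqc1_exp_low (u := a * x₀ - lam ν a) (v := a * x - lam ν a) (m := q)
      (by nlinarith) hxa.1
    have b2 : q * β₁ * η ≤ w - gqc1Z ν a x := by
      refine le_trans ?_ b1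
      have : β₁ * η ≤ a * (x₀ - x) := mul_le_mul ha (by linarith) hη.le ha0.le
      nlinarith [mul_le_mul_of_nonneg_left this hq0.le]
    have b3 := gqc1_gap hs0 hs hr0 hr1 (gqc1_z_pos a x) e0 b2 hD1 hwb.2
    have b4 := gqc1_exp_low (u := a * x - lam ν a) (v := b * x - lam ν b) (m := q)
      (by have := ex x; nlinarith [mul_nonneg hδ.le (show 0 ≤ x₀ - x by linarith)]) hxb.1
    have b5 : q * η * (b - a) ≤ gqc1Z ν a x - gqc1Z ν b x := by
      refine le_trans ?_ b4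
      have e1 : a * x - lam ν a - (b * x - lam ν b) = (b - a) * (x₀ - x) := by
        have := ex x; linarith
      rw [e1]
      have : (b - a) * η ≤ (b - a) * (x₀ - x) := mul_le_mul_of_nonneg_left (by linarith) hδ.le
      nlinarith [mul_le_mul_of_nonneg_left this hq0.le]
    have := mul_le_mul b3 b5 (by positivity) (le_trans (by positivity) b3)
    rw [hγ]
    linarith
  obtain ⟨I, hI, hIm, hIγ⟩ : ∃ I : Set ℝ, MeasurableSet I ∧ m ≤ ν.real I ∧ ∀ x ∈ I,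
      γ ≤ ((1 - s + s * gqc1Z ν a x) ^ r - (1 - s + s * w) ^ r) *
        (gqc1Z ν b x - gqc1Z ν a x) := by
    rcases le_total x₀ x₁ with h | h
    · exact ⟨_, measurableSet_Icc.inter measurableSet_Icc, m1, fun x hx =>
        gapR x (abs_le.2 hx.2) (by linarith [hx.1.1])⟩
    · exact ⟨_, measurableSet_Icc.inter measurableSet_Icc, m2, fun x hx =>
        gapL x (abs_le.2 hx.2) (by linarith [hx.1.2])⟩
  obtain ⟨ia, ea⟩ := gqc1_z_int hν a
  obtain ⟨ib, eb⟩ := gqc1_z_int hν b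
  have hp1 : 1 ≤ p := by linarith
  have ja := gqc1_pow_int hν (β := a) (by linarith) hs0 hs (show 0 ≤ p by linarith) hp2
  have jb := gqc1_pow_int hν (β := b) (by linarith) hs0 hs (show 0 ≤ p by linarith) hp2
  have i2 : Integrable (fun x => p * s * (1 - s + s * w) ^ r * (gqc1Z ν b x - gqc1Z ν a x)) ν :=
    (ib.sub ia).const_mul _
  have i3 : Integrable (fun x => p * s * I.indicator (fun _ => γ) x) ν :=
    ((integrable_const γ).indicator hI).const_mul _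
  have h3 := integral_mono ((ja.add i2).add i3) jb fun x =>
    gqc1_pt_low (w := w) (g := I.indicator (fun _ => γ) x) hs0 hs hp1 (gqc1_z_pos a x)
      (gqc1_z_pos b x) (by
        by_cases hx : x ∈ I
        · rw [Set.indicator_of_mem hx]; exact hIγ x hx
        · rw [Set.indicator_of_notMem hx]; exact sign x)
  rw [integral_add' (ja.add i2) i3, integral_add' ja i2, integral_const_mul, integral_const_mul,
    integral_sub ib ia, ea, eb, integral_indicator_const _ hI, smul_eq_mul] at h3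
  have h4 : (p₀ - 1) * (q * β₁ * η) / D * (q * η) * m * (b - a) * s ^ 2 ≤
      p * s * (ν.real I * γ) := by
    have c1 : s * (m * γ) ≤ p * s * (ν.real I * γ) :=
      mul_le_mul (by nlinarith) (mul_le_mul_of_nonneg_right hIm hγ0) (by positivity)
        (by positivity)
    refine le_trans ?_ c1
    have c2 : (p₀ - 1) * (s * (q * β₁ * η) / D * (q * η * (b - a)) * m * s) ≤
        r * (s * (q * β₁ * η) / D * (q * η * (b - a)) * m * s) :=
      mul_le_mul_of_nonneg_right (by linarith) (by positivity)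
    refine le_trans (le_of_eq ?_) (c2.trans (le_of_eq ?_))
    · ring
    · rw [hγ]; ring
  linarith

theorem gqc1_scale (hν : ∀ β : ℝ, Integrable (fun t => Real.exp (β * t)) ν) {β p : ℝ}
    (hβ : 0 ≤ β) (hp : 0 ≤ p) (hp2 : p ≤ 2) (α c : ℝ≥0) (hS : 0 < (α : ℝ) + c) :
    ∫⁻ t, ((α : ℝ≥0∞) + c * t) ^ p ∂rho ν β = ((α + c : ℝ≥0) : ℝ≥0∞) ^ p *
      ENNReal.ofReal (∫ x, (1 - c / (α + c) + c / (α + c) * gqc1Z ν β x) ^ p ∂ν) := by
  have hs0 : 0 ≤ (c : ℝ) / (α + c) := by positivity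
  have hs : (c : ℝ) / (α + c) ≤ 1 := by rw [div_le_one hS]; linarith [α.2]
  rw [gqc1_lint β (by fun_prop)]
  simp only [oneb_scale α c _ hS hp, Real.coe_toNNReal _ (gqc1_z_pos _ _).le]
  rw [lintegral_const_mul' _ _ (ENNReal.rpow_ne_top_of_nonneg hp ENNReal.coe_ne_top),
    ofReal_integral_eq_lintegral_ofReal (gqc1_pow_int hν hβ hs0 hs hp hp2)
      (Eventually.of_forall fun x =>
        Real.rpow_nonneg (gqc1_aff_pos hs0 hs (gqc1_z_pos β x)).le _)]

theorem gqc1_vf (p : ℝ) (α c : ℝ≥0) (hS : 0 < (α : ℝ) + c) :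
    vf p ((α : ℝ≥0∞) + c) c =
      ((α + c : ℝ≥0) : ℝ≥0∞) ^ p * ENNReal.ofReal (((c : ℝ) / (α + c)) ^ 2) := by
  have e : ((α + c : ℝ≥0) : ℝ≥0∞) = ENNReal.ofReal ((α : ℝ) + c) := by
    rw [← NNReal.coe_add, ENNReal.ofReal_coe_nnreal]
  rw [vf, ← ENNReal.coe_add, e, ENNReal.ofReal_rpow_of_pos hS, ENNReal.ofReal_rpow_of_pos hS,
    ← ENNReal.ofReal_coe_nnreal (p := c), ← ENNReal.ofReal_pow c.coe_nonneg,
    ← ENNReal.ofReal_mul (by positivity), ← ENNReal.ofReal_mul (by positivity)]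
  congr 1
  rw [Real.rpow_sub hS, Real.rpow_two]
  field_simp

theorem gqc1_site {d : ℕ} (hd : 3 ≤ d)
    (hν : ∀ β : ℝ, Integrable (fun t => Real.exp (β * t)) ν) {κ M β₁ β₂ : ℝ}
    (h1 : 0 < β₁) (hG : ∀ β ∈ Set.Icc β₁ β₂, Good d κ M (rho ν β)) :
    ∃ C : ℝ, 1 ≤ C ∧ ∀ a b, β₁ ≤ a → a ≤ b → b ≤ β₂ → ∀ p : ℝ, 1 + 1 / d ≤ p → p ≤ 2 →
      ∀ α c : ℝ≥0∞, α ≠ ⊤ → c ≠ ⊤ →
        ∫⁻ t, (α + c * t) ^ p ∂rho ν a + ENNReal.ofReal (C⁻¹ * (b - a)) * vf p (α + c) c ≤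
          ∫⁻ t, (α + c * t) ^ p ∂rho ν b ∧
        ∫⁻ t, (α + c * t) ^ p ∂rho ν b ≤
          ∫⁻ t, (α + c * t) ^ p ∂rho ν a + ENNReal.ofReal (C * (b - a)) * vf p (α + c) c := by
  rcases lt_or_ge β₂ β₁ with hlt | hle
  · exact ⟨1, le_rfl, fun a b ha hab hb => absurd (ha.trans (hab.trans hb)) (not_le.2 hlt)⟩
  have hne : mom (rho ν β₁) 2 ≠ 1 := by
    obtain ⟨-, -, -, χ, hχ, hκ⟩ := hG β₁ ⟨le_rfl, hle⟩
    intro h
    have hχ0 : χ = 0 := by
      rw [h] at hχ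
      by_contra hc
      exact (ENNReal.lt_add_right ENNReal.one_ne_top hc).ne hχ
    rw [hχ0, zero_mul] at hκ
    simp at hκ
  have hd0 : (0 : ℝ) < d := by exact_mod_cast (show 0 < d by omega)
  have hp₀ : (1 : ℝ) < 1 + 1 / d := by have : (0 : ℝ) < 1 / d := by positivity
                                       linarith
  obtain ⟨C₁, hC₁, hup⟩ := gqc1_core_up (β₂ := β₂) hν h1
  obtain ⟨c₁, hc₁, hlow⟩ := gqc1_core_low (β₂ := β₂) hν h1 hp₀ hne
  set C := max 1 (max C₁ c₁⁻¹) with hC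
  have hC1 : 1 ≤ C := le_max_left _ _
  have hCu : C₁ ≤ C := (le_max_left _ _).trans (le_max_right _ _)
  have hCl : C⁻¹ ≤ c₁ := by
    rw [inv_le_comm₀ (by linarith) hc₁]
    exact (le_max_right _ _).trans (le_max_right _ _)
  refine ⟨C, hC1, fun a b ha hab hb p hp hp2 α c hα hc => ?_⟩
  lift α to ℝ≥0 using hα
  lift c to ℝ≥0 using hc
  have hp0 : 0 < p := by linarith
  rcases eq_or_lt_of_le (show 0 ≤ (α : ℝ) + c by positivity) with hS | hS
  · have hα0 : α = 0 := NNReal.eq (by have := α.2; have := c.2; simp only [NNReal.coe_zero]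
                                      change (0 : ℝ) ≤ α at *; linarith)
    have hc0 : c = 0 := NNReal.eq (by have := α.2; have := c.2; simp only [NNReal.coe_zero]
                                      change (0 : ℝ) ≤ c at *; linarith)
    subst hα0 hc0
    simp [vf, ENNReal.zero_rpow_of_pos hp0]
  have hs0 : 0 ≤ (c : ℝ) / (α + c) := by positivity
  have hs : (c : ℝ) / (α + c) ≤ 1 := by rw [div_le_one hS]; linarith [α.2]
  have hδ : 0 ≤ b - a := by linarith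
  rw [gqc1_scale hν (β := a) (by linarith) hp0.le hp2 α c hS,
    gqc1_scale hν (β := b) (by linarith) hp0.le hp2 α c hS, gqc1_vf p α c hS]
  set s := (c : ℝ) / (α + c) with hsdef
  have hn : 0 ≤ ∫ x, (1 - s + s * gqc1Z ν a x) ^ p ∂ν := integral_nonneg fun x =>
    Real.rpow_nonneg (gqc1_aff_pos hs0 hs (gqc1_z_pos a x)).le _
  have k1 := hup a b ha hab hb p s (by linarith) hp2 hs0 hs
  have k2 := hlow a b ha hab hb p s hp hp2 hs0 hs
  have hds : 0 ≤ (b - a) * s ^ 2 := by positivity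
  have hCi : 0 ≤ C⁻¹ := by positivity
  constructor
  · rw [mul_left_comm, ← mul_add, ← ENNReal.ofReal_mul (by positivity),
      ← ENNReal.ofReal_add hn (by positivity)]
    gcongr
    nlinarith [mul_le_mul_of_nonneg_right hCl hds]
  · rw [mul_left_comm, ← mul_add, ← ENNReal.ofReal_mul (by positivity),
      ← ENNReal.ofReal_add hn (by positivity)]
    gcongr
    nlinarith [mul_le_mul_of_nonneg_right hCu hds]

end Pool.Agent.Lib.MP_153faa_pr
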