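import Mathlib
import Pool.Agent.Lib.MP_153faa_pr.GFlat
import Pool.Agent.Lib.MP_153faa_pr.GLayer
import Pool.Agent.Lib.MP_153faa_pr.GQC1a

set_option autoImplicit false

open MeasureTheory Filter Topology
open scoped ENNReal NNReal

namespace Pool.Agent.Lib.MP_153faa_pr

variable {d : ℕ}

/-- One-site two-sided comparison of the gains at two inverse temperatures. -/
theorem qc_site (hd : 3 ≤ d) {ν : Measure ℝ} [IsProbabilityMeasure ν]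
    (hν : ∀ β : ℝ, Integrable (fun t => Real.exp (β * t)) ν) {κ M β₁ β₂ : ℝ} (hκ : 0 < κ)
    (h1 : 0 < β₁) (h2 : β₂ ≤ 2 * β₁) (hG : ∀ β ∈ Set.Icc β₁ β₂, Good d κ M (rho ν β)) :
    ∃ C : ℝ, 1 ≤ C ∧ ∀ a b, β₁ ≤ a → a ≤ b → b ≤ β₂ → ∀ p : ℝ, 1 + 1 / d ≤ p → p ≤ 2 →
      ∀ α c : ℝ≥0∞, α ≠ ⊤ → c ≠ ⊤ →
        ∫⁻ t, (α + c * t) ^ p ∂rho ν a + ENNReal.ofReal (C⁻¹ * (b - a)) * vf p (α + c) c ≤
          ∫⁻ t, (α + c * t) ^ p ∂rho ν b ∧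
        ∫⁻ t, (α + c * t) ^ p ∂rho ν b ≤
          ∫⁻ t, (α + c * t) ^ p ∂rho ν a + ENNReal.ofReal (C * (b - a)) * vf p (α + c) c :=
  gqc1_site hd hν h1 hG

end Pool.Agent.Lib.MP_153faa_pr
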