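import Mathlib
import Pool.Agent.Lib.MP_153faa_pr.GQC1
import Pool.Agent.Lib.MP_153faa_pr.GRes2

set_option autoImplicit false

open MeasureTheory Filter Topology
open scoped ENNReal NNReal

namespace Pool.Agent.Lib.MP_153faa_pr

variable {d : ℕ}

/-! ### Switching the sites of a multi-affine functional one by one -/

/-- Finite measurable multi-affine functionals of finitely many coordinates. -/
structure Gqc2MA {ι : Type} [DecidableEq ι] (s : Finset ι) (W : (ι → ℝ≥0) → ℝ≥0∞) : Prop where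
  meas : Measurable W
  fin : ∀ ω, W ω ≠ ⊤
  dep : DepOn s W
  aff : ∀ ω i, ∃ α c : ℝ≥0∞, ∀ t : ℝ≥0, W (Function.update ω i t) = α + c * t

/-- The coefficient of the coordinate `i`. -/
noncomputable def gqc2c {ι : Type} [DecidableEq ι] (W : (ι → ℝ≥0) → ℝ≥0∞) (i : ι)
    (ω : ι → ℝ≥0) : ℝ≥0∞ := W (Function.update ω i 1) - W (Function.update ω i 0)

/-- The one-site gain. -/
noncomputable def gqc2G {ι : Type} [DecidableEq ι] (p : ℝ) (W : (ι → ℝ≥0) → ℝ≥0∞) (i : ι)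
    (ω : ι → ℝ≥0) : ℝ≥0∞ := vf p (W (Function.update ω i 1)) (gqc2c W i ω)

section Switch

variable {ι : Type} [DecidableEq ι] {s : Finset ι} {W : (ι → ℝ≥0) → ℝ≥0∞}

theorem Gqc2MA.eq (h : Gqc2MA s W) (ω : ι → ℝ≥0) (i : ι) (t : ℝ≥0) :
    W (Function.update ω i t) = W (Function.update ω i 0) + gqc2c W i ω * t := by
  obtain ⟨α, c, hc⟩ := h.aff ω i
  have h0 : W (Function.update ω i 0) = α := by simpa using hc 0
  have h1 : W (Function.update ω i 1) = α + c := by simpa using hc 1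
  have hα : α ≠ ⊤ := h0 ▸ h.fin _
  rw [hc t, gqc2c, h0, h1, ENNReal.add_sub_cancel_left hα]

theorem Gqc2MA.one (h : Gqc2MA s W) (ω : ι → ℝ≥0) (i : ι) :
    W (Function.update ω i 1) = W (Function.update ω i 0) + gqc2c W i ω := by
  simpa using h.eq ω i 1

theorem Gqc2MA.c_ne_top (h : Gqc2MA s W) (ω : ι → ℝ≥0) (i : ι) : gqc2c W i ω ≠ ⊤ :=
  ENNReal.sub_ne_top (h.fin _)

theorem Gqc2MA.lin (h : Gqc2MA s W) (ω : ι → ℝ≥0) (j : ι) (x y a b : ℝ≥0) (hab : a + b = 1) :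
    W (Function.update ω j (a * x + b * y)) =
      a * W (Function.update ω j x) + b * W (Function.update ω j y) := by
  obtain ⟨α, c, hc⟩ := h.aff ω j
  have hab' : (a : ℝ≥0∞) + b = 1 := by exact_mod_cast hab
  rw [hc, hc, hc]
  push_cast
  calc α + c * (a * x + b * y) = (a + b) * α + c * (a * x + b * y) := by rw [hab', one_mul]
    _ = _ := by ring

theorem Gqc2MA.meas_upd (h : Gqc2MA s W) (i : ι) (t : ℝ≥0) :
    Measurable fun ω => W (Function.update ω i t) :=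
  h.meas.comp measurable_update_left

theorem Gqc2MA.meas_G (h : Gqc2MA s W) (p : ℝ) (i : ι) : Measurable (gqc2G p W i) :=
  (measurable_vf p).comp ((h.meas_upd i 1).prodMk ((h.meas_upd i 1).sub (h.meas_upd i 0)))

theorem Gqc2MA.dep_upd (h : Gqc2MA s W) (i : ι) (t : ℝ≥0) :
    DepOn s fun ω => W (Function.update ω i t) := fun ω ω' hω => h.dep _ _ fun j hj => by
  by_cases hji : j = i
  · subst hji; simp
  · simp [Function.update_of_ne hji, hω j hj]

theorem Gqc2MA.dep_G (h : Gqc2MA s W) (p : ℝ) (i : ι) : DepOn s (gqc2G p W i) := fun ω ω' hω => by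
  have h1 := h.dep_upd i 1 ω ω' hω
  have h0 := h.dep_upd i 0 ω ω' hω
  simp only at h0 h1
  simp only [gqc2G, gqc2c, h0, h1]

theorem Gqc2MA.G_eq_zero (h : Gqc2MA s W) (p : ℝ) {i : ι} (hi : i ∉ s) (ω : ι → ℝ≥0) :
    gqc2G p W i ω = 0 := by
  have : W (Function.update ω i 1) = W (Function.update ω i 0) := h.dep _ _ fun j hj => by
    have hji : j ≠ i := fun e => hi (e ▸ hj)
    simp [Function.update_of_ne hji]
  simp [gqc2G, gqc2c, vf, this]

theorem Gqc2MA.cvx_G (h : Gqc2MA s W) {p : ℝ} (hp : 1 ≤ p) (hp2 : p ≤ 2) (i : ι)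
    (ω : ι → ℝ≥0) (j : ι) (x y a b : ℝ≥0) (hab : a + b = 1) :
    gqc2G p W i (Function.update ω j (a * x + b * y)) ≤
      a * gqc2G p W i (Function.update ω j x) + b * gqc2G p W i (Function.update ω j y) := by
  have hab' : (a : ℝ≥0∞) + b = 1 := by exact_mod_cast hab
  by_cases hji : j = i
  · subst hji
    simp only [gqc2G, gqc2c, Function.update_idem]
    rw [← add_mul, hab', one_mul]
  · have e : ∀ u t : ℝ≥0, Function.update (Function.update ω j u) i t =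
        Function.update (Function.update ω i t) j u := fun u t => Function.update_comm hji _ _ _
    have l1 := h.lin (Function.update ω i 1) j x y a b hab
    have l0 := h.lin (Function.update ω i 0) j x y a b hab
    simp only [← e] at l0 l1
    have hc : gqc2c W i (Function.update ω j (a * x + b * y)) =
        a * gqc2c W i (Function.update ω j x) + b * gqc2c W i (Function.update ω j y) := by
      rw [gqc2c, l1, l0, h.one (Function.update ω j x), h.one (Function.update ω j y)]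
      have hf : (a : ℝ≥0∞) * W (Function.update (Function.update ω j x) i 0) +
          b * W (Function.update (Function.update ω j y) i 0) ≠ ⊤ :=
        ENNReal.add_ne_top.2 ⟨ENNReal.mul_ne_top ENNReal.coe_ne_top (h.fin _),
          ENNReal.mul_ne_top ENNReal.coe_ne_top (h.fin _)⟩
      rw [← ENNReal.add_sub_cancel_left (b := a * gqc2c W i (Function.update ω j x) +
        b * gqc2c W i (Function.update ω j y)) hf]
      congr 1
      ring
    unfold gqc2G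
    rw [hc, l1]
    exact vf_convex hp hp2 _ _ _ _ (h.fin _) (h.fin _) a b hab

theorem gqc2_congr (μ μ' : ι → Measure ℝ≥0) [∀ i, IsProbabilityMeasure (μ i)]
    [∀ i, IsProbabilityMeasure (μ' i)] (hμ : ∀ i ∈ s, μ i = μ' i) {F : (ι → ℝ≥0) → ℝ≥0∞}
    (hF : Measurable F) (hs : DepOn s F) :
    ∫⁻ ω, F ω ∂Measure.infinitePi μ = ∫⁻ ω, F ω ∂Measure.infinitePi μ' := by
  let g : (∀ i : s, ℝ≥0) → ℝ≥0∞ := fun y => F (Function.updateFinset (fun _ => 0) s y)
  have hg : Measurable g := hF.comp measurable_updateFinset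
  have e : ∀ y : ι → ℝ≥0, F y = g (s.restrict y) := fun y => hs _ _ fun i hi => by
    simp [Function.updateFinset, hi]
  have e' : (fun i : s => μ i) = fun i : s => μ' i := funext fun i => hμ i i.2
  simp only [e]
  rw [lintegral_restrict_infinitePi μ hg, lintegral_restrict_infinitePi μ' hg, e']

/-- Hybrid family of one-site laws. -/
noncomputable def gqc2hyb (ρ₁ ρ₂ : Measure ℝ≥0) (A : Finset ι) : ι → Measure ℝ≥0 :=
  fun i => if i ∈ A then ρ₂ else ρ₁

instance gqc2hyb_prob (ρ₁ ρ₂ : Measure ℝ≥0) [IsProbabilityMeasure ρ₁] [IsProbabilityMeasure ρ₂]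
    (A : Finset ι) (i : ι) : IsProbabilityMeasure (gqc2hyb ρ₁ ρ₂ A i) := by
  unfold gqc2hyb; split_ifs <;> infer_instance

theorem gqc2_switch [Countable ι] (h : Gqc2MA s W) {p : ℝ} (hp : 1 ≤ p) (hp2 : p ≤ 2)
    {ρ₁ ρ₂ : Measure ℝ≥0} [IsProbabilityMeasure ρ₁] [IsProbabilityMeasure ρ₂] (hcx : CxLe ρ₁ ρ₂)
    {c₁ c₂ : ℝ≥0∞} (hs : ∀ α c : ℝ≥0∞, α ≠ ⊤ → c ≠ ⊤ →
      ∫⁻ t, (α + c * t) ^ p ∂ρ₁ + c₁ * vf p (α + c) c ≤ ∫⁻ t, (α + c * t) ^ p ∂ρ₂ ∧
      ∫⁻ t, (α + c * t) ^ p ∂ρ₂ ≤ ∫⁻ t, (α + c * t) ^ p ∂ρ₁ + c₂ * vf p (α + c) c)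
    (A : Finset ι) :
    ∫⁻ ω, W ω ^ p ∂Measure.infinitePi (fun _ : ι => ρ₁) +
        c₁ * ∑ i ∈ A, ∫⁻ ω, gqc2G p W i ω ∂Measure.infinitePi (fun _ : ι => ρ₁) ≤
      ∫⁻ ω, W ω ^ p ∂Measure.infinitePi (gqc2hyb ρ₁ ρ₂ A) ∧
    ∫⁻ ω, W ω ^ p ∂Measure.infinitePi (gqc2hyb ρ₁ ρ₂ A) ≤
      ∫⁻ ω, W ω ^ p ∂Measure.infinitePi (fun _ : ι => ρ₁) +
        c₂ * ∑ i ∈ A, ∫⁻ ω, gqc2G p W i ω ∂Measure.infinitePi (fun _ : ι => ρ₂) := by
  induction A using Finset.induction_on with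
  | empty =>
    have : gqc2hyb ρ₁ ρ₂ (∅ : Finset ι) = fun _ => ρ₁ := by funext i; simp [gqc2hyb]
    simp [this]
  | insert i A hi ih =>
    have hF : Measurable fun ω => W ω ^ p := h.meas.pow_const p
    have e1 : Function.update (gqc2hyb ρ₁ ρ₂ A) i ρ₁ = gqc2hyb ρ₁ ρ₂ A := by
      funext j
      by_cases hj : j = i
      · subst hj; simp [gqc2hyb, hi]
      · simp [Function.update_of_ne hj]
    have e2 : Function.update (gqc2hyb ρ₁ ρ₂ A) i ρ₂ = gqc2hyb ρ₁ ρ₂ (insert i A) := by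
      funext j
      by_cases hj : j = i
      · subst hj; simp [gqc2hyb]
      · simp [gqc2hyb, hj]
    have : ∀ j, IsProbabilityMeasure (Function.update (gqc2hyb ρ₁ ρ₂ A) i ρ₁ j) := by
      rw [e1]; infer_instance
    have : ∀ j, IsProbabilityMeasure (Function.update (gqc2hyb ρ₁ ρ₂ A) i ρ₂ j) := by
      rw [e2]; infer_instance
    have u1 := lintegral_update_flat (gqc2hyb ρ₁ ρ₂ A) hF i ρ₁
    have u2 := lintegral_update_flat (gqc2hyb ρ₁ ρ₂ A) hF i ρ₂
    rw [e1] at u1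
    rw [e2] at u2
    have hm : Measurable fun ω : ι → ℝ≥0 => ∫⁻ t, W (Function.update ω i t) ^ p ∂ρ₁ :=
      (hF.comp measurable_update').lintegral_prod_right'
    have hpt : ∀ ω : ι → ℝ≥0,
        ∫⁻ t, W (Function.update ω i t) ^ p ∂ρ₁ + c₁ * gqc2G p W i ω ≤
          ∫⁻ t, W (Function.update ω i t) ^ p ∂ρ₂ ∧
        ∫⁻ t, W (Function.update ω i t) ^ p ∂ρ₂ ≤
          ∫⁻ t, W (Function.update ω i t) ^ p ∂ρ₁ + c₂ * gqc2G p W i ω := fun ω => by
      have := hs _ _ (h.fin (Function.update ω i 0)) (h.c_ne_top ω i)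
      simp only [← h.eq ω i, ← h.one ω i] at this
      exact this
    have lo : ∫⁻ ω, gqc2G p W i ω ∂Measure.infinitePi (fun _ : ι => ρ₁) ≤
        ∫⁻ ω, gqc2G p W i ω ∂Measure.infinitePi (gqc2hyb ρ₁ ρ₂ A) := by
      refine cx_flat _ _ (fun j => ?_) (h.meas_G p i) (h.dep_G p i) (h.cvx_G hp hp2 i)
      unfold gqc2hyb; split_ifs
      · exact hcx
      · exact CxLe.refl _
    have hi' : ∫⁻ ω, gqc2G p W i ω ∂Measure.infinitePi (gqc2hyb ρ₁ ρ₂ A) ≤
        ∫⁻ ω, gqc2G p W i ω ∂Measure.infinitePi (fun _ : ι => ρ₂) := by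
      refine cx_flat _ _ (fun j => ?_) (h.meas_G p i) (h.dep_G p i) (h.cvx_G hp hp2 i)
      unfold gqc2hyb; split_ifs
      · exact CxLe.refl _
      · exact hcx
    have s1 : ∫⁻ ω, W ω ^ p ∂Measure.infinitePi (gqc2hyb ρ₁ ρ₂ A) +
        c₁ * ∫⁻ ω, gqc2G p W i ω ∂Measure.infinitePi (gqc2hyb ρ₁ ρ₂ A) ≤
        ∫⁻ ω, W ω ^ p ∂Measure.infinitePi (gqc2hyb ρ₁ ρ₂ (insert i A)) := by
      rw [u2, u1, ← lintegral_const_mul _ (h.meas_G p i), ← lintegral_add_left hm]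
      exact lintegral_mono fun ω => (hpt ω).1
    have s2 : ∫⁻ ω, W ω ^ p ∂Measure.infinitePi (gqc2hyb ρ₁ ρ₂ (insert i A)) ≤
        ∫⁻ ω, W ω ^ p ∂Measure.infinitePi (gqc2hyb ρ₁ ρ₂ A) +
        c₂ * ∫⁻ ω, gqc2G p W i ω ∂Measure.infinitePi (gqc2hyb ρ₁ ρ₂ A) := by
      rw [u2, u1, ← lintegral_const_mul _ (h.meas_G p i), ← lintegral_add_left hm]
      exact lintegral_mono fun ω => (hpt ω).2
    rw [Finset.sum_insert hi, Finset.sum_insert hi]
    constructor
    · refine le_trans ?_ s1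
      rw [mul_add, add_comm (c₁ * _), ← add_assoc]
      exact add_le_add ih.1 (by gcongr)
    · refine s2.trans ?_
      rw [mul_add, add_comm (c₂ * _) (c₂ * _), ← add_assoc]
      exact add_le_add ih.2 (by gcongr)

theorem gqc2_all [Countable ι] (h : Gqc2MA s W) {p : ℝ} (hp : 1 ≤ p) (hp2 : p ≤ 2)
    {ρ₁ ρ₂ : Measure ℝ≥0} [IsProbabilityMeasure ρ₁] [IsProbabilityMeasure ρ₂] (hcx : CxLe ρ₁ ρ₂)
    {c₁ c₂ : ℝ≥0∞} (hs : ∀ α c : ℝ≥0∞, α ≠ ⊤ → c ≠ ⊤ →
      ∫⁻ t, (α + c * t) ^ p ∂ρ₁ + c₁ * vf p (α + c) c ≤ ∫⁻ t, (α + c * t) ^ p ∂ρ₂ ∧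
      ∫⁻ t, (α + c * t) ^ p ∂ρ₂ ≤ ∫⁻ t, (α + c * t) ^ p ∂ρ₁ + c₂ * vf p (α + c) c) :
    ∫⁻ ω, W ω ^ p ∂Measure.infinitePi (fun _ : ι => ρ₁) +
        c₁ * ∑' i, ∫⁻ ω, gqc2G p W i ω ∂Measure.infinitePi (fun _ : ι => ρ₁) ≤
      ∫⁻ ω, W ω ^ p ∂Measure.infinitePi (fun _ : ι => ρ₂) ∧
    ∫⁻ ω, W ω ^ p ∂Measure.infinitePi (fun _ : ι => ρ₂) ≤
      ∫⁻ ω, W ω ^ p ∂Measure.infinitePi (fun _ : ι => ρ₁) +
        c₂ * ∑' i, ∫⁻ ω, gqc2G p W i ω ∂Measure.infinitePi (fun _ : ι => ρ₂) := by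
  have key := gqc2_switch h hp hp2 hcx hs s
  have e : ∫⁻ ω, W ω ^ p ∂Measure.infinitePi (gqc2hyb ρ₁ ρ₂ s) =
      ∫⁻ ω, W ω ^ p ∂Measure.infinitePi (fun _ : ι => ρ₂) :=
    gqc2_congr (s := s) _ _ (fun i hi => by simp [gqc2hyb, hi]) (h.meas.pow_const p)
      fun ω ω' hω => by simp only [h.dep ω ω' hω]
  have t1 : ∀ μ : Measure (ι → ℝ≥0),
      ∑' i, ∫⁻ ω, gqc2G p W i ω ∂μ = ∑ i ∈ s, ∫⁻ ω, gqc2G p W i ω ∂μ := fun μ =>
    tsum_eq_sum fun i hi => by simp [h.G_eq_zero p hi]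
  rw [t1, t1, ← e]
  exact key

theorem gqc2_mono [Countable ι] (h : Gqc2MA s W) {p : ℝ} (hp : 1 ≤ p) (hp2 : p ≤ 2)
    {ρ₁ ρ₂ : Measure ℝ≥0} [IsProbabilityMeasure ρ₁] [IsProbabilityMeasure ρ₂] (hcx : CxLe ρ₁ ρ₂)
    (i : ι) : ∫⁻ ω, gqc2G p W i ω ∂Measure.infinitePi (fun _ : ι => ρ₁) ≤
      ∫⁻ ω, gqc2G p W i ω ∂Measure.infinitePi (fun _ : ι => ρ₂) :=
  cx_flat _ _ (fun _ => hcx) (h.meas_G p i) (h.dep_G p i) (h.cvx_G hp hp2 i)

end Switch

/-! ### The partition function as a multi-affine functional -/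

/-- The partition function as a function of the space-time weights. -/
noncomputable def gqc2W (d n : ℕ) (ω : ℕ × Site d → ℝ≥0) : ℝ≥0∞ :=
  mass (ev n (Function.curry ω) (dlt 0))

theorem gqc2_meas_curry :
    Measurable (Function.curry : (ℕ × Site d → ℝ≥0) → ℕ → Layer d) :=
  measurable_pi_lambda _ fun k => measurable_pi_lambda _ fun x => measurable_pi_apply (k, x)

theorem gqc2_MA (hd : 1 ≤ d) (n : ℕ) : ∃ s, Gqc2MA s (gqc2W d n) := by
  obtain ⟨s, hs⟩ := ev_dep (nice_dlt (0 : Site d)) n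
  refine ⟨s, measurable_mass.comp ((measurable_ev n _).comp gqc2_meas_curry),
    fun ω => ((nice_dlt _).of_ev hd n _).mass_ne_top, fun ω ω' h => ?_, fun ω i => ?_⟩
  · unfold gqc2W
    rw [hs (Function.curry ω) (Function.curry ω') fun i hi => h i hi]
  · obtain ⟨α, β, h⟩ := ev_affine n ω i (dlt (0 : Site d))
    refine ⟨mass α, mass β, fun t => ?_⟩
    simp only [gqc2W, mass, h, ENNReal.tsum_add, ENNReal.tsum_mul_right]

variable {ρ : Measure ℝ≥0} [IsProbabilityMeasure ρ]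

theorem gqc2_Mom (p : ℝ) (n : ℕ) :
    Mom d ρ p n = ∫⁻ ω, gqc2W d n ω ^ p ∂Measure.infinitePi fun _ : ℕ × Site d => ρ := by
  unfold Mom
  rw [T_iter_eq n (measurable_mq p), lintegral_env_flat (F := fun ω => mq p (ev n ω (dlt 0)))
    ((measurable_mq p).comp (measurable_ev n _))]
  rfl

/-- The derivative proxy. -/
noncomputable def gqc2J (d : ℕ) (ρ : Measure ℝ≥0) (p l : ℝ) : ℝ≥0∞ :=
  ∑' n, wt l n * ∑' i, ∫⁻ ω, gqc2G p (gqc2W d n) i ω ∂Measure.infinitePi fun _ : ℕ × Site d => ρ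

theorem gqc2_ev_time (k m : ℕ) (ω : ℕ → Layer d) (f : Prof d) :
    ev (m + k) ω f = ev m (fun j => ω (j + k)) (ev k ω f) := by
  induction m with
  | zero => simp
  | succ m ih => rw [Nat.add_right_comm, ev_succ', ev_succ', ih]

theorem gqc2_ev_congr (k : ℕ) {ω ω' : ℕ → Layer d} (h : ∀ j < k, ω j = ω' j) (f : Prof d) :
    ev k ω f = ev k ω' f := by
  induction k with
  | zero => rfl
  | succ k ih => rw [ev_succ', ev_succ', ih fun j hj => h j (by omega), h k (by omega)]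

theorem gqc2W_upd (k m : ℕ) (z : Site d) (ω : ℕ × Site d → ℝ≥0) (t : ℝ≥0) :
    gqc2W d (m + (k + 1)) (Function.update ω (k, z) t) =
      lin (AW m fun j => Function.curry ω (j + 1 + k))
        (step (ev k (Function.curry ω) (dlt 0)) (Function.update (Function.curry ω k) z t)) := by
  have e1 : (fun j => Function.curry (Function.update ω (k, z) t) (j + (k + 1))) =
      fun j => Function.curry ω (j + 1 + k) := by
    funext j x
    have : (j + (k + 1), x) ≠ (k, z) := fun e => by have := (Prod.mk.inj e).1; omega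
    simp only [Function.curry, Function.update_of_ne this]
    congr 2; omega
  have e2 : Function.curry (Function.update ω (k, z) t) k =
      Function.update (Function.curry ω k) z t := by
    funext x
    by_cases hx : x = z
    · subst hx; simp [Function.curry]
    · have : (k, x) ≠ (k, z) := fun e => hx (Prod.mk.inj e).2
      simp [Function.curry, Function.update_of_ne this, Function.update_of_ne hx]
  have e3 : ev k (Function.curry (Function.update ω (k, z) t)) (dlt (0 : Site d)) =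
      ev k (Function.curry ω) (dlt 0) := gqc2_ev_congr k (fun j hj => by
    funext x
    have : (j, x) ≠ (k, z) := fun e => by have := (Prod.mk.inj e).1; omega
    simp only [Function.curry, Function.update_of_ne this]) _
  rw [gqc2W, gqc2_ev_time, e1, ev_succ', e2, e3, lin_AW]

theorem gqc2_lin_upd (g f : Prof d) (ξ : Layer d) (z : Site d) :
    lin g (step f (Function.update ξ z 1)) =
      lin g (step f (Function.update ξ z 0)) + avg f z * g z := by
  rw [lin_step, lin_step]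
  have : ∀ x, avg f x * g x * ((Function.update ξ z 1 x : ℝ≥0) : ℝ≥0∞) =
      avg f x * g x * ((Function.update ξ z 0 x : ℝ≥0) : ℝ≥0∞) +
        if x = z then avg f z * g z else 0 := fun x => by
    by_cases hx : x = z
    · subst hx; simp
    · simp [hx]
  simp only [this, ENNReal.tsum_add, tsum_ite_eq]

/-- The one-site gain seen from the profile `f` just before the layer of the site. -/
noncomputable def gqc2F (p : ℝ) (m : ℕ) (z : Site d) (f : Prof d) (ξ : Layer d)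
    (η : ℕ → Layer d) : ℝ≥0∞ :=
  vf p (lin (AW m η) (step f (Function.update ξ z 1))) (avg f z * AW m η z)

theorem gqc2G_eq (hd : 1 ≤ d) (p : ℝ) (k m : ℕ) (z : Site d) (ω : ℕ × Site d → ℝ≥0) :
    gqc2G p (gqc2W d (m + (k + 1))) (k, z) ω =
      gqc2F p m z (ev k (Function.curry ω) (dlt 0)) (Function.curry ω k)
        fun j => Function.curry ω (j + 1 + k) := by
  unfold gqc2G gqc2c gqc2F
  rw [gqc2W_upd, gqc2W_upd]
  congr 1
  rw [gqc2_lin_upd, ENNReal.add_sub_cancel_left]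
  exact (((nice_dlt _).of_ev hd k _).of_step hd _).lin_ne_top (AW_ne_top hd _ _)

theorem gqc2_meas_F (p : ℝ) (m : ℕ) (z : Site d) {X : Type} [MeasurableSpace X] {f : X → Prof d}
    {ξ : X → Layer d} {η : X → ℕ → Layer d} (hf : Measurable f) (hξ : Measurable ξ)
    (hη : Measurable η) : Measurable fun x => gqc2F p m z (f x) (ξ x) (η x) := by
  have hA : Measurable fun x => AW m (η x) := (measurable_AW m).comp hη
  have hS : Measurable fun x => step (f x) (Function.update (ξ x) z 1) :=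
    measurable_step2.comp (hf.prodMk (measurable_update_left.comp hξ))
  exact (measurable_vf p).comp ((measurable_lin2.comp (hA.prodMk hS)).prodMk
    (((measurable_pi_apply z).comp (measurable_avg.comp hf)).mul
      ((measurable_pi_apply z).comp hA)))

theorem gqc2_env (hd : 1 ≤ d) (p : ℝ) (k m : ℕ) (z : Site d) :
    ∫⁻ ω, gqc2G p (gqc2W d (m + (k + 1))) (k, z) ω ∂Measure.infinitePi (fun _ : ℕ × Site d => ρ) =
      ∫⁻ ω, ∫⁻ ξ, ∫⁻ η, gqc2F p m z (ev k ω (dlt 0)) ξ η ∂env d ρ ∂lay d ρ ∂env d ρ := by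
  have hsh : Measurable fun η : ℕ → Layer d => fun j => η (j + 1) :=
    measurable_pi_lambda _ fun j => measurable_pi_apply _
  have hm : Measurable (Function.uncurry fun ω η : ℕ → Layer d =>
      gqc2F p m z (ev k ω (dlt 0)) (η 0) fun j => η (j + 1)) :=
    gqc2_meas_F p m z ((measurable_ev k _).comp measurable_fst)
      ((measurable_pi_apply 0).comp measurable_snd) (hsh.comp measurable_snd)
  have h1 := lintegral_env_split (ρ := ρ) hm k fun ω ω' η h => by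
    simp only [gqc2_ev_congr k h]
  have hm2 : Measurable fun ω : ℕ → Layer d =>
      gqc2F p m z (ev k ω (dlt 0)) (ω k) fun j => ω (j + 1 + k) :=
    gqc2_meas_F p m z (measurable_ev k _) (measurable_pi_apply k)
      (measurable_pi_lambda _ fun j => measurable_pi_apply _)
  simp only [gqc2G_eq hd]
  rw [← lintegral_env_flat hm2]
  simp only [zero_add] at h1
  rw [h1]
  refine lintegral_congr fun ω => ?_
  exact lintegral_env (F := fun η => gqc2F p m z (ev k ω (dlt 0)) (η 0) fun j => η (j + 1))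
    (gqc2_meas_F p m z measurable_const (measurable_pi_apply 0) hsh)

/-! ### The seed inequality -/

theorem gqc2_hold {X : Type*} [MeasurableSpace X] (μ : Measure X) {p : ℝ} (hp : 1 ≤ p)
    (hp2 : p ≤ 2) {a u : X → ℝ≥0∞} (ha : Measurable a) (hu : Measurable u) (hat : ∀ x, a x ≠ ⊤)
    (hle : ∀ x, u x ≤ a x) {A K a₀ u₀ : ℝ≥0∞} (hA : A ≠ ⊤) (hK : 1 ≤ K) (ha₀ : a₀ ≠ ⊤) (hua : u₀ ≤ a₀)
    (h1 : A * u₀ ^ p ≤ ∫⁻ x, u x ^ p ∂μ) (h2 : ∫⁻ x, a x ^ p ∂μ ≤ K * (A * a₀ ^ p)) :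
    A * vf p a₀ u₀ ≤ K * ∫⁻ x, vf p (a x) (u x) ∂μ := by
  have hp0 : 0 < p := by linarith
  rcases eq_or_ne A 0 with rfl | hA0
  · simp
  rcases eq_or_ne a₀ 0 with rfl | ha0
  · simp [vf, le_zero_iff.1 hua]
  set V := ∫⁻ x, vf p (a x) (u x) ∂μ
  have e : 0 ≤ 1 - p / 2 := by linarith
  have h3 : A * u₀ ^ p ≤ V ^ (p / 2) * (K * (A * a₀ ^ p)) ^ (1 - p / 2) :=
    h1.trans ((vf_holder μ hp hp2 ha hu hat fun x hx => le_zero_iff.1 (hx ▸ hle x)).trans
      (by gcongr))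
  have r0 : 0 ≤ 2 / p := by positivity
  have h4 := ENNReal.rpow_le_rpow h3 r0
  have q1 : p * (2 / p) = (2 : ℕ) := by push_cast; field_simp
  have q2 : p / 2 * (2 / p) = 1 := by field_simp
  have q3 : (1 - p / 2) * (2 / p) = 2 / p - 1 := by field_simp
  have q4 : p * (2 / p - 1) = 2 - p := by field_simp
  have r1 : 0 ≤ 2 / p - 1 := by rw [← q3]; positivity
  have r2 : 2 / p - 1 ≤ 1 := by
    have : 2 / p ≤ 2 := by rw [div_le_iff₀ hp0]; linarith
    linarith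
  rw [ENNReal.mul_rpow_of_nonneg _ _ r0, ENNReal.mul_rpow_of_nonneg _ _ r0, ← ENNReal.rpow_mul,
    ← ENNReal.rpow_mul, ← ENNReal.rpow_mul, q1, q2, q3, ENNReal.rpow_natCast, ENNReal.rpow_one,
    ENNReal.mul_rpow_of_nonneg _ _ r1, ENNReal.mul_rpow_of_nonneg _ _ r1, ← ENNReal.rpow_mul,
    q4] at h4
  have k1 : K ^ (2 / p - 1) ≤ K := by
    conv_rhs => rw [← ENNReal.rpow_one K]
    exact ENNReal.rpow_le_rpow_of_exponent_le hK r2
  have b1 : A ^ (2 / p) * A ^ (1 - 2 / p) = A := by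
    rw [← ENNReal.rpow_add _ _ hA0 hA]; simp
  have b2 : A ^ (2 / p - 1) * A ^ (1 - 2 / p) = 1 := by
    rw [← ENNReal.rpow_add _ _ hA0 hA]; simp
  have b3 : a₀ ^ (2 - p) * a₀ ^ (p - 2) = 1 := by
    rw [← ENNReal.rpow_add _ _ ha0 ha₀]; simp
  calc A * vf p a₀ u₀ = (A ^ (2 / p) * u₀ ^ 2) * (A ^ (1 - 2 / p) * a₀ ^ (p - 2)) := by
        conv_lhs => rw [← b1]
        unfold vf; ring
    _ ≤ (V * (K ^ (2 / p - 1) * (A ^ (2 / p - 1) * a₀ ^ (2 - p)))) *
          (A ^ (1 - 2 / p) * a₀ ^ (p - 2)) := by gcongr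
    _ = K ^ (2 / p - 1) * V * (A ^ (2 / p - 1) * A ^ (1 - 2 / p)) *
          (a₀ ^ (2 - p) * a₀ ^ (p - 2)) := by ring
    _ ≤ K * V := by rw [b2, b3, mul_one, mul_one]; gcongr

theorem gqc2_inner (hd : 1 ≤ d) (h1 : Mean1 ρ) (hK : mom ρ 2 ≠ ⊤) {p : ℝ} (hp : 1 ≤ p)
    (hp2 : p ≤ 2) (m : ℕ) (z : Site d) {g : Prof d} (hg : Nice g) :
    Mom d ρ p m * vf p (mass g) (g z) ≤
      ∫⁻ η, vf p (lin (AW m η) g) (g z * AW m η z) ∂env d ρ := by
  have hp0 : 0 ≤ p := by linarith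
  have hz : Measurable fun η : ℕ → Layer d => AW m η z :=
    (measurable_pi_apply z).comp (measurable_AW m)
  have := gqc2_hold (env d ρ) hp hp2 (a := fun η => lin (AW m η) g) (u := fun η => g z * AW m η z)
    (measurable_lin2.comp ((measurable_AW m).prodMk measurable_const)) (hz.const_mul _)
    (fun η => hg.lin_ne_top (AW_ne_top hd m η))
    (fun η => ENNReal.le_tsum (f := fun x => g x * AW m η x) z) (Mom_ne_top hd h1 hK hp hp2 m) le_rfl
    hg.mass_ne_top (le_mass g z) ?_ ?_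
  · simpa using this
  · simp only [ENNReal.mul_rpow_of_nonneg _ _ hp0]
    rw [lintegral_const_mul _ (hz.pow_const p), mul_comm]
    exact le_of_eq (by rw [← lintegral_mq_dlt p m z]; rfl)
  · simp only [lin_AW, one_mul]
    have h := T_iter_mq_le (ρ := ρ) hp m g
    rw [T_iter_eq m (measurable_mq p), mul_comm] at h
    exact h

theorem gqc2_layer (hd : 1 ≤ d) (h1 : Mean1 ρ) {χ : ℝ≥0∞} (hχ : mom ρ 2 = 1 + χ) {p : ℝ}
    (hp : 1 ≤ p) (hp2 : p ≤ 2) (z : Site d) {f : Prof d} (hf : Nice f) :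
    vf p (mass f) (avg f z) ≤
      (4 + χ) * ∫⁻ ξ, vf p (mass (step f (Function.update ξ z 1))) (avg f z) ∂lay d ρ := by
  have hp0 : 0 ≤ p := by linarith
  have hma : ∑' x, avg f x = mass f := mass_avg hd f
  have hle : ∀ x, avg f x ≤ mass f := fun x => (le_mass _ x).trans (mass_avg hd f).le
  have := gqc2_hold (lay d ρ) hp hp2 (a := fun ξ => mass (step f (Function.update ξ z 1)))
    (u := fun _ => avg f z) (A := 1) (K := 4 + χ)
    (measurable_mass.comp ((measurable_step f).comp measurable_update_left)) measurable_const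
    (fun ξ => (hf.of_step hd _).mass_ne_top)
    (fun ξ => le_trans (by simp [step]) (le_mass _ z)) ENNReal.one_ne_top
    (le_add_right (by norm_num)) hf.mass_ne_top (hle z) (by simp) ?_
  · simpa using this
  · have hpt : ∀ ξ : Layer d, mass (step f (Function.update ξ z 1)) ≤
        mass f + ∑' x, avg f x * (ξ x : ℝ≥0∞) := fun ξ => by
      rw [← lin_one, gqc2_lin_upd, lin_one, mul_one, add_comm, mass_step]
      refine add_le_add (hle z) (ENNReal.tsum_le_tsum fun x => ?_)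
      by_cases hx : x = z
      · subst hx; simp
      · simp [Function.update_of_ne hx]
    refine (lintegral_mono fun ξ => ENNReal.rpow_le_rpow (hpt ξ) hp0).trans
      ((lay_up h1 hχ hp hp2 _ _).trans ?_)
    rw [hma, one_mul, add_mul]
    refine add_le_add ?_ ?_
    · rw [← two_mul, ENNReal.mul_rpow_of_nonneg _ _ hp0]
      gcongr
      calc (2 : ℝ≥0∞) ^ p ≤ 2 ^ (2 : ℝ) := ENNReal.rpow_le_rpow_of_exponent_le (by norm_num) hp2
        _ = 4 := by norm_num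
    · gcongr
      calc ∑' x, vf p (mass f + mass f) (avg f x) ≤ ∑' x, avg f x ^ p :=
            ENNReal.tsum_le_tsum fun x => vf_le hp hp2 ((hle x).trans le_self_add)
        _ ≤ (∑' x, avg f x) ^ p := tsum_rpow_ge hp _
        _ = mass f ^ p := by rw [hma]

theorem gqc2_site (hd : 1 ≤ d) (h1 : Mean1 ρ) {χ : ℝ≥0∞} (hχ : mom ρ 2 = 1 + χ) (hχt : χ ≠ ⊤)
    {p : ℝ} (hp : 1 ≤ p) (hp2 : p ≤ 2) (m : ℕ) (z : Site d) {f : Prof d} (hf : Nice f) :
    Mom d ρ p m * vf p (mass f) (avg f z) ≤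
      (4 + χ) * ∫⁻ ξ, ∫⁻ η, gqc2F p m z f ξ η ∂env d ρ ∂lay d ρ := by
  have hK : mom ρ 2 ≠ ⊤ := by rw [hχ]; exact ENNReal.add_ne_top.2 ⟨by simp, hχt⟩
  have hm : Measurable fun ξ : Layer d => vf p (mass (step f (Function.update ξ z 1))) (avg f z) :=
    (measurable_vf p).comp ((measurable_mass.comp
      ((measurable_step f).comp measurable_update_left)).prodMk measurable_const)
  calc Mom d ρ p m * vf p (mass f) (avg f z)
      ≤ Mom d ρ p m * ((4 + χ) *
        ∫⁻ ξ, vf p (mass (step f (Function.update ξ z 1))) (avg f z) ∂lay d ρ) := by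
        gcongr; exact gqc2_layer hd h1 hχ hp hp2 z hf
    _ = (4 + χ) * ∫⁻ ξ, Mom d ρ p m *
        vf p (mass (step f (Function.update ξ z 1))) (avg f z) ∂lay d ρ := by
        rw [lintegral_const_mul _ hm]; ring
    _ ≤ _ := by
        gcongr with ξ
        have := gqc2_inner hd h1 hK hp hp2 m z (hf.of_step hd (Function.update ξ z 1))
        have e : step f (Function.update ξ z 1) z = avg f z := by simp [step]
        rw [e] at this
        exact this

/-- The local quadratic form of one layer. -/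
noncomputable def gqc2A (p : ℝ) (f : Prof d) : ℝ≥0∞ := ∑' z, vf p (mass f) (avg f z)

theorem gqc2_meas_A1 (p : ℝ) (z : Site d) :
    Measurable fun f : Prof d => vf p (mass f) (avg f z) :=
  (measurable_vf p).comp (measurable_mass.prodMk ((measurable_pi_apply z).comp measurable_avg))

theorem gqc2_meas_A (p : ℝ) : Measurable (gqc2A p : Prof d → ℝ≥0∞) :=
  Measurable.tsum (gqc2_meas_A1 p)

theorem gqc2_row (hd : 1 ≤ d) (h1 : Mean1 ρ) {χ : ℝ≥0∞} (hχ : mom ρ 2 = 1 + χ) (hχt : χ ≠ ⊤)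
    {p : ℝ} (hp : 1 ≤ p) (hp2 : p ≤ 2) (k m : ℕ) :
    Mom d ρ p m * (T ρ)^[k] (gqc2A p) (dlt (0 : Site d)) ≤ (4 + χ) * ∑' z,
      ∫⁻ ω, gqc2G p (gqc2W d (m + (k + 1))) (k, z) ω
        ∂Measure.infinitePi (fun _ : ℕ × Site d => ρ) := by
  have h4 : (4 + χ) ≠ ⊤ := ENNReal.add_ne_top.2 ⟨by simp, hχt⟩
  have hm : ∀ z : Site d, Measurable fun ω : ℕ → Layer d =>
      vf p (mass (ev k ω (dlt 0))) (avg (ev k ω (dlt 0)) z) := fun z =>
    (gqc2_meas_A1 p z).comp (measurable_ev k _)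
  rw [T_iter_eq k (gqc2_meas_A p)]
  unfold gqc2A
  rw [lintegral_tsum fun z => (hm z).aemeasurable,
    ← ENNReal.tsum_mul_left, ← ENNReal.tsum_mul_left]
  refine ENNReal.tsum_le_tsum fun z => ?_
  rw [gqc2_env hd, ← lintegral_const_mul' _ _ h4, ← lintegral_const_mul _ (hm z)]
  exact lintegral_mono fun ω => gqc2_site hd h1 hχ hχt hp hp2 m z ((nice_dlt _).of_ev hd k ω)

theorem gqc2_J_ge (hd : 1 ≤ d) (h1 : Mean1 ρ) {χ : ℝ≥0∞} (hχ : mom ρ 2 = 1 + χ) (hχt : χ ≠ ⊤)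
    {p l : ℝ} (hp : 1 ≤ p) (hp2 : p ≤ 2) (hl : l < 1) :
    OO d ρ p l * ∑' k, ENNReal.ofReal ((1 - l) ^ (k + 1)) * (T ρ)^[k] (gqc2A p) (dlt (0 : Site d))
      ≤ (4 + χ) * gqc2J d ρ p l := by
  unfold gqc2J
  simp only [ENNReal.tsum_prod']
  simp only [← ENNReal.tsum_mul_left (a := wt l _)]
  rw [ENNReal.tsum_comm, ← ENNReal.tsum_mul_left, ← ENNReal.tsum_mul_left]
  refine ENNReal.tsum_le_tsum fun k => ?_
  simp only [ENNReal.tsum_mul_left (a := wt l _)]
  rw [OO_eq, ← ENNReal.tsum_mul_right, ← ENNReal.tsum_mul_left]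
  refine le_trans (ENNReal.tsum_le_tsum fun m => ?_)
    (ENNReal.tsum_comp_le_tsum_of_injective (add_left_injective (k + 1)) _)
  have := gqc2_row hd h1 hχ hχt hp hp2 k m
  rw [wt_add hl]
  calc wt l m * Mom d ρ p m * (ENNReal.ofReal ((1 - l) ^ (k + 1)) * (T ρ)^[k] (gqc2A p) (dlt 0))
      = ENNReal.ofReal ((1 - l) ^ (k + 1)) * wt l m *
        (Mom d ρ p m * (T ρ)^[k] (gqc2A p) (dlt 0)) := by ring
    _ ≤ ENNReal.ofReal ((1 - l) ^ (k + 1)) * wt l m * ((4 + χ) * ∑' z,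
      ∫⁻ ω, gqc2G p (gqc2W d (m + (k + 1))) (k, z) ω
        ∂Measure.infinitePi (fun _ : ℕ × Site d => ρ)) := by gcongr
    _ = _ := by ring

theorem gqc2_O_le (hd : 1 ≤ d) (h1 : Mean1 ρ) {χ : ℝ≥0∞} (hχ : mom ρ 2 = 1 + χ)
    {p l : ℝ} (hp : 1 ≤ p) (hp2 : p ≤ 2) (h0 : 0 < l) (hl : l < 1) :
    OO d ρ p l ≤ 1 + χ *
      ∑' k, ENNReal.ofReal ((1 - l) ^ (k + 1)) * (T ρ)^[k] (gqc2A p) (dlt (0 : Site d)) := by
  have hM : ∀ n, Mom d ρ p n ≤ 1 + χ * ∑' k,
      if k < n then (T ρ)^[k] (gqc2A p) (dlt (0 : Site d)) else 0 := fun n => by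
    have h := telescope_up (ρ := ρ) (A := fun _ => 0) (B := fun f => χ * gqc2A p f)
      (measurable_mq p) (fun f => by
        have := lay_up h1 hχ hp hp2 0 (avg f)
        have hma : ∑' x, avg f x = mass f := mass_avg hd f
        simp only [zero_add, hma] at this
        rw [add_zero]
        unfold T mq
        simp only [mass_step]
        exact this) n (dlt (0 : Site d))
    refine le_trans (le_self_add.trans h) (le_of_eq ?_)
    simp only [T_iter_const_mul _ _ (gqc2_meas_A p), ← Finset.mul_sum]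
    rw [tsum_eq_sum (s := Finset.range n) fun k hk => if_neg (by simpa using hk),
      Finset.sum_congr rfl fun k hk => if_pos (Finset.mem_range.1 hk)]
    simp [mq, mass_dlt]
  rw [OO_eq]
  refine (ENNReal.tsum_le_tsum fun n => mul_le_mul_right (hM n) _).trans (le_of_eq ?_)
  simp only [mul_add, mul_one, ENNReal.tsum_add, wt_tsum h0 hl, mul_left_comm _ χ,
    ENNReal.tsum_mul_left]
  congr 2
  simp only [← ENNReal.tsum_mul_left (a := wt l _)]
  rw [ENNReal.tsum_comm]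
  refine tsum_congr fun k => ?_
  rw [← ENNReal.summable.sum_add_tsum_nat_add' (k := k + 1), Finset.sum_eq_zero, zero_add,
    ← wt_tail h0 hl, ← ENNReal.tsum_mul_right]
  · exact tsum_congr fun n => by rw [if_pos (by omega)]
  · intro n hn
    rw [if_neg (by have := Finset.mem_range.1 hn; omega), mul_zero]

theorem gqc2_seed (hd : 1 ≤ d) (h1 : Mean1 ρ) {χ : ℝ≥0∞} (hχ : mom ρ 2 = 1 + χ) (hχt : χ ≠ ⊤)
    {p l : ℝ} (hp : 1 ≤ p) (hp2 : p ≤ 2) (h0 : 0 < l) (hl : l < 1) :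
    OO d ρ p l * (OO d ρ p l - 1) ≤ χ * (4 + χ) * gqc2J d ρ p l := by
  have h2 := tsub_le_iff_left.2 (gqc2_O_le hd h1 hχ hp hp2 h0 hl)
  refine (mul_le_mul_right h2 _).trans ?_
  rw [mul_left_comm, mul_assoc]
  exact mul_le_mul_right (gqc2_J_ge hd h1 hχ hχt hp hp2 hl) _

/-- Quasi-convexity of the moment in the inverse temperature. -/
theorem qc (hd : 3 ≤ d) {ν : Measure ℝ} [IsProbabilityMeasure ν]
    (hν : ∀ β : ℝ, Integrable (fun t => Real.exp (β * t)) ν) {κ M β₁ β₂ : ℝ} (hκ : 0 < κ)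
    (h1 : 0 < β₁) (h2 : β₂ ≤ 2 * β₁) (hG : ∀ β ∈ Set.Icc β₁ β₂, Good d κ M (rho ν β)) :
    ∃ C : ℝ, 1 ≤ C ∧ ∀ l : ℝ, 0 < l → l < 1 → ∃ J : ℝ → ℝ≥0∞, MonotoneOn J (Set.Icc β₁ β₂) ∧
      (∀ a b, β₁ ≤ a → a ≤ b → b ≤ β₂ →
        OO d (rho ν a) (q0 d) l + ENNReal.ofReal (C⁻¹ * (b - a)) * J a ≤ OO d (rho ν b) (q0 d) l ∧
        OO d (rho ν b) (q0 d) l ≤ OO d (rho ν a) (q0 d) l + ENNReal.ofReal (C * (b - a)) * J b) ∧
      ∀ a ∈ Set.Icc β₁ β₂, OO d (rho ν a) (q0 d) l * (OO d (rho ν a) (q0 d) l - 1) ≤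
        ENNReal.ofReal C * J a := by
  obtain ⟨C, hC, hs⟩ := qc_site hd hν hκ h1 h2 hG
  have hd1 : 1 ≤ d := by omega
  have hd3 : (3 : ℝ) ≤ d := by exact_mod_cast hd
  have hd0 : (0 : ℝ) < d := by linarith
  have hq1 : 1 + 1 / (d : ℝ) ≤ q0 d := by unfold q0; gcongr; norm_num
  have hq2 : q0 d ≤ 2 := by
    have : 2 / (d : ℝ) ≤ 1 := by rw [div_le_one hd0]; linarith
    unfold q0; linarith
  have hq : 1 ≤ q0 d := le_trans (le_add_of_nonneg_right (by positivity)) hq1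
  set C' := max C (2 * M * (4 + 2 * M)) with hC'
  have hCC : C ≤ C' := le_max_left _ _
  refine ⟨C', hC.trans hCC, fun l h0 hl => ⟨fun β => gqc2J d (rho ν β) (q0 d) l, ?_, ?_, ?_⟩⟩
  · intro a ha b _ hab
    refine ENNReal.tsum_le_tsum fun n => mul_le_mul_right (ENNReal.tsum_le_tsum fun i => ?_) _
    obtain ⟨s, h⟩ := gqc2_MA hd1 n
    exact gqc2_mono h hq hq2 (cx_rho hν (h1.trans_le ha.1) hab) i
  · intro a b ha hab hb
    have hba : 0 ≤ b - a := by linarith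
    have c1 : ENNReal.ofReal (C'⁻¹ * (b - a)) ≤ ENNReal.ofReal (C⁻¹ * (b - a)) :=
      ENNReal.ofReal_le_ofReal (by gcongr)
    have c2 : ENNReal.ofReal (C * (b - a)) ≤ ENNReal.ofReal (C' * (b - a)) :=
      ENNReal.ofReal_le_ofReal (by gcongr)
    have key := fun n => gqc2_all (gqc2_MA hd1 n).choose_spec hq hq2
      (cx_rho hν (h1.trans_le ha) hab) (hs a b ha hab hb (q0 d) hq1 hq2)
    simp only [← gqc2_Mom] at key
    simp only [OO_eq, gqc2J, ← ENNReal.tsum_mul_left (a := ENNReal.ofReal _), ← ENNReal.tsum_add]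
    constructor
    · refine ENNReal.tsum_le_tsum fun n => ?_
      rw [mul_left_comm, ← mul_add]
      gcongr
      exact le_trans (by gcongr) (key n).1
    · refine ENNReal.tsum_le_tsum fun n => ?_
      rw [mul_left_comm, ← mul_add]
      gcongr
      exact (key n).2.trans (by gcongr)
  · intro a ha
    obtain ⟨hM, hmom, -⟩ := (hG a ha).basic hd hκ
    obtain ⟨hm1, -, -, χ, hχ, -⟩ := hG a ha
    have hχM : χ ≤ ENNReal.ofReal (2 * M) :=
      le_add_self.trans (hχ.symm.le.trans (hmom 2 (by norm_num) (by norm_num)))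
    refine (gqc2_seed hd1 hm1 hχ (ne_top_of_le_ne_top ENNReal.ofReal_ne_top hχM) hq hq2 h0
      hl).trans ?_
    gcongr
    refine le_trans ?_ (ENNReal.ofReal_le_ofReal (le_max_right _ _))
    rw [ENNReal.ofReal_mul (by linarith), ENNReal.ofReal_add (by norm_num) (by linarith),
      ENNReal.ofReal_ofNat]
    gcongr

end Pool.Agent.Lib.MP_153faa_pr
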