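import Mathlib
import Pool.Agent.Lib.MP_153faa_pr.GCrit
import Pool.Agent.Lib.MP_153faa_pr.GQC2
import Pool.Agent.Lib.MP_153faa_pr.GOdeL
import Pool.Agent.Lib.MP_153faa_pr.GMainL1

set_option autoImplicit false

open MeasureTheory Filter Topology
open scoped ENNReal NNReal

namespace Pool.Agent.Lib.MP_153faa_pr

variable {d : ℕ}

theorem gmainl_lo {A B J : ℝ≥0∞} {c : ℝ} (hc : 0 < c) (hB : B ≠ ⊤)
    (h : A + ENNReal.ofReal c * J ≤ B) :
    A ≠ ⊤ ∧ J ≠ ⊤ ∧ A.toReal + c * J.toReal ≤ B.toReal := by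
  have hA : A ≠ ⊤ := ne_top_of_le_ne_top hB (le_self_add.trans h)
  have hcJ : ENNReal.ofReal c * J ≠ ⊤ := ne_top_of_le_ne_top hB (le_add_self.trans h)
  have hJ : J ≠ ⊤ := by
    rintro rfl
    rw [ENNReal.mul_top (by simpa using hc)] at hcJ
    exact hcJ rfl
  refine ⟨hA, hJ, ?_⟩
  have := ENNReal.toReal_mono hB h
  rwa [ENNReal.toReal_add hA hcJ, ENNReal.toReal_mul, ENNReal.toReal_ofReal hc.le] at this

theorem gmainl_up {A B J : ℝ≥0∞} {c : ℝ} (hc : 0 ≤ c) (hA : A ≠ ⊤) (hJ : J ≠ ⊤)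
    (h : B ≤ A + ENNReal.ofReal c * J) : B.toReal ≤ A.toReal + c * J.toReal := by
  have hcJ : ENNReal.ofReal c * J ≠ ⊤ := ENNReal.mul_ne_top ENNReal.ofReal_ne_top hJ
  have := ENNReal.toReal_mono (ENNReal.add_ne_top.2 ⟨hA, hcJ⟩) h
  rwa [ENNReal.toReal_add hA hcJ, ENNReal.toReal_mul, ENNReal.toReal_ofReal hc] at this

theorem gmainl_qc {O J : ℝ → ℝ≥0∞} {C β₀ ε₀ : ℝ} (hC : 1 ≤ C) (hfin : O β₀ ≠ ⊤)
    (h1 : ∀ β, 1 ≤ O β)
    (h : ∀ a b, β₀ - ε₀ ≤ a → a ≤ b → b ≤ β₀ + ε₀ →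
      O a + ENNReal.ofReal (C⁻¹ * (b - a)) * J a ≤ O b ∧
      O b ≤ O a + ENNReal.ofReal (C * (b - a)) * J b)
    (hs : ∀ a ∈ Set.Icc (β₀ - ε₀) (β₀ + ε₀), O a * (O a - 1) ≤ ENNReal.ofReal C * J a) :
    (∀ e, 0 < e → e ≤ ε₀ → 1 ≤ (O (β₀ - e)).toReal ∧ (O (β₀ - e)).toReal ≤ (O β₀).toReal) ∧
    (∀ e e', 0 < e' → e' ≤ e → e ≤ ε₀ → e' * ((O β₀).toReal - (O (β₀ - e)).toReal) ≤
      C ^ 2 * e * ((O β₀).toReal - (O (β₀ - e')).toReal)) ∧
    (∀ e, 0 < e → e ≤ ε₀ → e * ((O (β₀ - e)).toReal * ((O (β₀ - e)).toReal - 1)) ≤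
      C ^ 2 * ((O β₀).toReal - (O (β₀ - e)).toReal)) ∧
    (∀ e x, 0 < e → e ≤ ε₀ → 0 < x → x ≤ ε₀ →
      (O (β₀ + x)).toReal⁻¹ * x * ((O β₀).toReal - (O (β₀ - e)).toReal) ≤ C ^ 2 * e) := by
  have hC0 : 0 < C := by linarith
  have base : ∀ e, 0 < e → e ≤ ε₀ → O (β₀ - e) ≠ ⊤ ∧ J (β₀ - e) ≠ ⊤ ∧
      e * (J (β₀ - e)).toReal ≤ C * ((O β₀).toReal - (O (β₀ - e)).toReal) := by
    intro e h0 he
    have h2 := (h (β₀ - e) β₀ (by linarith) (by linarith) (by linarith)).1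
    rw [sub_sub_cancel] at h2
    obtain ⟨k1, k2, k3⟩ := gmainl_lo (by positivity) hfin h2
    refine ⟨k1, k2, ?_⟩
    have k4 : C⁻¹ * e * (J (β₀ - e)).toReal ≤ (O β₀).toReal - (O (β₀ - e)).toReal := by linarith
    calc e * (J (β₀ - e)).toReal = C * (C⁻¹ * e * (J (β₀ - e)).toReal) := by field_simp
      _ ≤ _ := by gcongr
  have one : ∀ β, O β ≠ ⊤ → 1 ≤ (O β).toReal := fun β hβ => by
    simpa using ENNReal.toReal_mono hβ (h1 β)
  have gap0 : ∀ e, 0 < e → e ≤ ε₀ → 0 ≤ (O β₀).toReal - (O (β₀ - e)).toReal := fun e h0 he => by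
    have k3 := (base e h0 he).2.2
    have : 0 ≤ e * (J (β₀ - e)).toReal := by positivity
    exact le_of_mul_le_mul_left (by linarith) hC0
  refine ⟨fun e h0 he => ⟨one _ (base e h0 he).1, by linarith [gap0 e h0 he]⟩,
    fun e e' h0 hee he => ?_, fun e h0 he => ?_, fun e x h0 he hx0 hx => ?_⟩
  · obtain ⟨k1, k2, k3⟩ := base e' h0 (hee.trans he)
    have h2 := (h (β₀ - e) (β₀ - e') (by linarith) (by linarith) (by linarith)).2
    have h3 := gmainl_up (mul_nonneg hC0.le (by linarith)) (base e (by linarith) he).1 k2 h2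
    have h4 := gap0 e' h0 (hee.trans he)
    set g := (O β₀).toReal - (O (β₀ - e')).toReal with hg
    set j := (J (β₀ - e')).toReal
    have h5 : (O β₀).toReal - (O (β₀ - e)).toReal ≤ g + C * (e - e') * j := by
      rw [hg]
      have : β₀ - e' - (β₀ - e) = e - e' := by ring
      rw [this] at h3
      linarith
    have h6 : C * (e - e') * (e' * j) ≤ C * (e - e') * (C * g) := by
      have : 0 ≤ e - e' := by linarith
      gcongr
    have h7 : e' * g ≤ C ^ 2 * (e' * g) :=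
      le_mul_of_one_le_left (by positivity) (one_le_pow₀ hC)
    calc e' * ((O β₀).toReal - (O (β₀ - e)).toReal) ≤ e' * (g + C * (e - e') * j) := by gcongr
      _ = e' * g + C * (e - e') * (e' * j) := by ring
      _ ≤ C ^ 2 * (e' * g) + C * (e - e') * (C * g) := by gcongr
      _ = C ^ 2 * e * g := by ring
  · obtain ⟨k1, k2, k3⟩ := base e h0 he
    have h2 := ENNReal.toReal_mono (ENNReal.mul_ne_top ENNReal.ofReal_ne_top k2)
      (hs (β₀ - e) ⟨by linarith, by linarith⟩)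
    rw [ENNReal.toReal_mul, ENNReal.toReal_mul, ENNReal.toReal_ofReal hC0.le,
      ENNReal.toReal_sub_of_le (h1 _) k1, ENNReal.toReal_one] at h2
    calc e * ((O (β₀ - e)).toReal * ((O (β₀ - e)).toReal - 1))
        ≤ e * (C * (J (β₀ - e)).toReal) := by gcongr
      _ = C * (e * (J (β₀ - e)).toReal) := by ring
      _ ≤ C * (C * ((O β₀).toReal - (O (β₀ - e)).toReal)) := by gcongr
      _ = _ := by ring
  · by_cases ht : O (β₀ + x) = ⊤
    · rw [ht]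
      simp only [ENNReal.toReal_top, inv_zero, zero_mul]
      positivity
    have h2 := (h β₀ (β₀ + x) (by linarith) (by linarith) (by linarith)).1
    rw [add_sub_cancel_left] at h2
    obtain ⟨-, k2, k3⟩ := gmainl_lo (by positivity) ht h2
    have h3 := (h (β₀ - e) β₀ (by linarith) (by linarith) (by linarith)).2
    rw [sub_sub_cancel] at h3
    have h4 := gmainl_up (by positivity) (base e h0 he).1 k2 h3
    have h5 := one _ ht
    have h6 : x * (J β₀).toReal ≤ C * (O (β₀ + x)).toReal := by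
      have k4 : C⁻¹ * x * (J β₀).toReal ≤ (O (β₀ + x)).toReal := by
        linarith [ENNReal.toReal_nonneg (a := O β₀)]
      calc x * (J β₀).toReal = C * (C⁻¹ * x * (J β₀).toReal) := by field_simp
        _ ≤ _ := by gcongr
    rw [mul_assoc, inv_mul_le_iff₀ (by linarith)]
    calc x * ((O β₀).toReal - (O (β₀ - e)).toReal) ≤ x * (C * e * (J β₀).toReal) := by
          gcongr; linarith
      _ = C * e * (x * (J β₀).toReal) := by ring
      _ ≤ C * e * (C * (O (β₀ + x)).toReal) := by gcongr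
      _ = _ := by ring

theorem gmainl_kk (ρ : Measure ℝ≥0) [IsProbabilityMeasure ρ] (σ : ℝ) :
    kk d ρ σ = (OO d ρ (q0 d) (Real.exp (-σ))).toReal⁻¹ := by
  rw [kk, Kr, KK, ENNReal.toReal_inv]

theorem gmainl_q0 : 1 ≤ q0 d := by unfold q0; exact le_add_of_nonneg_right (by positivity)

theorem gmainl_exp {σ : ℝ} (hσ : 0 < σ) : Real.exp (-σ) < 1 :=
  Real.exp_lt_one_iff.2 (by linarith)

theorem gmainl_cont (hd : 1 ≤ d) {ν : Measure ℝ} [IsProbabilityMeasure ν]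
    (hν : ∀ β : ℝ, Integrable (fun t => Real.exp (β * t)) ν) {β₀ σ : ℝ} (hσ : 0 < σ)
    (hfin : OO d (rho ν β₀) (q0 d) (Real.exp (-σ)) ≠ ⊤) :
    ContinuousAt (fun β => kk d (rho ν β) σ) β₀ ∧ 0 < kk d (rho ν β₀) σ := by
  have h1 := one_le_OO hd (mean1_rho hν β₀) (gmainl_q0 (d := d)) (Real.exp_pos (-σ)) (gmainl_exp hσ)
  have h2 : 0 < (OO d (rho ν β₀) (q0 d) (Real.exp (-σ))).toReal :=
    ENNReal.toReal_pos (by rintro h; rw [h] at h1; simp at h1) hfin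
  simp only [gmainl_kk]
  refine ⟨ContinuousAt.inv₀ ?_ h2.ne', inv_pos.2 h2⟩
  exact (ENNReal.tendsto_toReal hfin).comp
    (OO_cont hd hν gmainl_q0 (Real.exp_pos (-σ)) (gmainl_exp hσ) hfin)

/-- Below the critical point the trajectory separates from the critical one. -/
theorem main_sep (hd : 3 ≤ d) {ν : Measure ℝ} [IsProbabilityMeasure ν]
    (hν : ∀ β : ℝ, Integrable (fun t => Real.exp (β * t)) ν) {κ M ε₀ β₀ b C : ℝ} {a : ℕ}
    (hκ : 0 < κ) (hε : 0 < ε₀) (h3 : 3 * ε₀ ≤ β₀)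
    (hG : ∀ β ∈ Set.Icc (β₀ - ε₀) (β₀ + ε₀), Good d κ M (rho ν β)) (hb : 0 < b) (hC : 1 ≤ C)
    (hfin : ∀ σ : ℝ, 0 < σ → OO d (rho ν β₀) (q0 d) (Real.exp (-σ)) ≠ ⊤)
    (hk : Tendsto (fun σ => σ * kk d (rho ν β₀) σ) atTop (𝓝 (2 / b)))
    (hU : ∀ η : ℝ, 0 < η → ∃ σ₀ ε₁ : ℝ, 1 ≤ σ₀ ∧ 0 < ε₁ ∧ ε₁ ≤ ε₀ ∧
      ∀ β ∈ Set.Icc (β₀ - ε₁) (β₀ + ε₁), FlowU b C η σ₀ (kk d (rho ν β)) (gg d (rho ν β) a))
    {δ : ℝ} (hδ : 0 < δ) (S v : ℝ) (hv : 0 < v) : ∃ ε₁ : ℝ, 0 < ε₁ ∧ ∀ ε : ℝ, 0 < ε → ε < ε₁ →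
      ∃ τ, S ≤ τ ∧ τ ≤ ε ^ (-(1 / 2 + δ)) ∧ τ * kk d (rho ν (β₀ + ε)) τ ≤ v := by
  have hd1 : 1 ≤ d := by omega
  obtain ⟨Cq, hCq, hqc⟩ := qc hd hν hκ (β₁ := β₀ - ε₀) (β₂ := β₀ + ε₀) (by linarith)
    (by linarith) hG
  have key := fun (t : ℝ) (ht : 0 < t) =>
    (hqc (Real.exp (-t)) (Real.exp_pos _) (gmainl_exp ht)).elim fun J hJ =>
      gmainl_qc (O := fun β => OO d (rho ν β) (q0 d) (Real.exp (-t))) (J := J) hCq (hfin t ht)
        (fun β => one_le_OO hd1 (mean1_rho hν β) gmainl_q0 (Real.exp_pos _) (gmainl_exp ht))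
        hJ.2.1 hJ.2.2
  refine gmainl_abs (Q := Cq ^ 2) hb hC (one_le_pow₀ hCq) hε hδ hv
    (fun e => kk d (rho ν (β₀ - e))) (fun e => gg d (rho ν (β₀ - e)) a)
    (fun x => kk d (rho ν (β₀ + x)))
    (fun e t => (OO d (rho ν (β₀ - e)) (q0 d) (Real.exp (-t))).toReal)
    (fun t => (OO d (rho ν β₀) (q0 d) (Real.exp (-t))).toReal)
    (fun e => reg_kk hd1 (mean1_rho hν _) a) (fun x => (reg_kk hd1 (mean1_rho hν _) a).2.1)
    (fun x => (reg_kk hd1 (mean1_rho hν _) a).2.2.1)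
    (fun e t h0 he ht => ⟨((key t ht).1 e h0 he).1, ((key t ht).1 e h0 he).2, gmainl_kk _ _⟩)
    (fun e e' t h0 hee he ht => (key t ht).2.1 e e' h0 hee he)
    (fun e t h0 he ht => (key t ht).2.2.1 e h0 he)
    (fun e x t h0 he hx0 hx ht => ?_) (fun t ht => ?_) ?_ (fun η hη => ?_)
  · rw [gmainl_kk]
    exact (key t ht).2.2.2 e x h0 he hx0 hx
  · obtain ⟨h1, h2⟩ := gmainl_cont hd1 hν ht (hfin t ht)
    obtain ⟨r, hr, h4⟩ := Metric.eventually_nhds_iff.1 (h1.eventually (lt_mem_nhds h2))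
    have h5 : 0 < min ε₀ (r / 2) := lt_min hε (half_pos hr)
    refine ⟨min ε₀ (r / 2), h5, min_le_left _ _, h4 ?_⟩
    rw [Real.dist_eq, add_sub_cancel_left, abs_of_pos h5]
    linarith [min_le_right ε₀ (r / 2)]
  · simpa only [gmainl_kk] using hk
  · obtain ⟨σ₀, ε₁, h1, h2, -, h4⟩ := hU η hη
    exact ⟨σ₀, ε₁, h1, h2, fun e h0 he => h4 _ ⟨by linarith, by linarith⟩⟩

theorem gmainl_ev1 (a K : ℝ) : ∀ᶠ t : ℝ in atTop,
    K * t ^ 2 * Real.exp (a * t ^ (1 / 4 : ℝ)) * Real.exp (-(t / 4)) ≤ 1 := by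
  have h1 : Tendsto (fun t : ℝ => a * t ^ (-(3 / 4) : ℝ)) atTop (𝓝 0) := by
    simpa using (tendsto_rpow_neg_atTop (y := 3 / 4) (by norm_num)).const_mul a
  have h2 : Tendsto (fun t : ℝ => K * (t ^ (2 : ℝ) * Real.exp (-(1 / 8) * t))) atTop (𝓝 0) := by
    simpa using (tendsto_rpow_mul_exp_neg_mul_atTop_nhds_zero 2 (1 / 8) (by norm_num)).const_mul K
  have h3 : Tendsto (fun t : ℝ => |K * (t ^ (2 : ℝ) * Real.exp (-(1 / 8) * t))|) atTop (𝓝 0) := by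
    simpa using h2.abs
  filter_upwards [h1.eventually (ge_mem_nhds (show (0 : ℝ) < 1 / 8 by norm_num)),
    h3.eventually (ge_mem_nhds one_pos), eventually_gt_atTop 0] with t k1 k2 k3
  have e1 : t ^ (1 / 4 : ℝ) = t ^ (-(3 / 4) : ℝ) * t := by
    rw [← Real.rpow_add_one k3.ne']; norm_num
  have k4 : a * t ^ (1 / 4 : ℝ) ≤ t / 8 := by
    rw [e1, ← mul_assoc]; nlinarith
  rw [abs_mul, abs_of_nonneg (a := _ * _) (by positivity), Real.rpow_two] at k2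
  calc K * t ^ 2 * Real.exp (a * t ^ (1 / 4 : ℝ)) * Real.exp (-(t / 4))
      ≤ |K| * t ^ 2 * Real.exp (t / 8) * Real.exp (-(t / 4)) := by
        gcongr; exact le_abs_self K
    _ = |K| * (t ^ 2 * Real.exp (-(1 / 8) * t)) := by
        rw [mul_assoc, ← Real.exp_add, mul_assoc]; congr 3; ring
    _ ≤ 1 := k2

theorem gmainl_ev2 {v : ℝ} (hv : 0 < v) : ∀ᶠ t : ℝ in atTop,
    Real.exp (-t ^ (1 / 5 : ℝ)) ≤ v / t := by
  have h1 := (Real.tendsto_pow_mul_exp_neg_atTop_nhds_zero 5).comp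
    (tendsto_rpow_atTop (y := 1 / 5) (by norm_num))
  filter_upwards [h1.eventually (ge_mem_nhds hv), eventually_gt_atTop 0] with t k1 k2
  simp only [Function.comp] at k1
  rw [← Real.rpow_natCast, ← Real.rpow_mul k2.le] at k1
  norm_num at k1
  rw [le_div_iff₀ k2, mul_comm]
  simpa using k1

theorem gmainl_ev3 (C : ℝ) {K v r : ℝ} (hK : 0 < K) (hv : 0 < v) (hr : 1 < r) :
    ∀ᶠ t : ℝ in atTop, C * (t + (1 - Real.log (1 / (K * t ^ 2))) / (v / t)) + 1 ≤ t ^ r := by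
  have hr0 : 0 < r - 1 := by linarith
  have h1 : Tendsto (fun t : ℝ => t ^ (-(r - 1))) atTop (𝓝 0) := tendsto_rpow_neg_atTop hr0
  have h2 : Tendsto (fun t : ℝ => Real.log t / t ^ (r - 1)) atTop (𝓝 0) :=
    (isLittleO_log_rpow_atTop hr0).tendsto_div_nhds_zero
  have h3 : Tendsto (fun t : ℝ => (C * (1 + (1 + Real.log K) / v) + 1) * t ^ (-(r - 1)) +
      2 * C / v * (Real.log t / t ^ (r - 1))) atTop (𝓝 0) := by
    simpa using (h1.const_mul (C * (1 + (1 + Real.log K) / v) + 1)).add (h2.const_mul (2 * C / v))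
  filter_upwards [h3.eventually (ge_mem_nhds one_pos), eventually_ge_atTop 1] with t k1 k2
  have ht : 0 < t := by linarith
  have hp : 0 < t ^ (r - 1) := Real.rpow_pos_of_pos ht _
  have e1 : t ^ r = t ^ (r - 1) * t := by rw [← Real.rpow_add_one ht.ne']; norm_num
  have e2 : Real.log (1 / (K * t ^ 2)) = -(Real.log K + 2 * Real.log t) := by
    rw [one_div, Real.log_inv, Real.log_mul hK.ne' (by positivity), Real.log_pow]; norm_num
  have k3 : C * (1 + (1 + Real.log K) / v) + 1 + 2 * C / v * Real.log t ≤ t ^ (r - 1) := by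
    rw [Real.rpow_neg ht.le] at k1
    have := mul_le_mul_of_nonneg_right k1 hp.le
    rw [one_mul] at this
    refine le_trans (le_of_eq ?_) this
    field_simp
  rw [e1, e2]
  calc C * (t + (1 - -(Real.log K + 2 * Real.log t)) / (v / t)) + 1
      ≤ C * (t + (1 - -(Real.log K + 2 * Real.log t)) / (v / t)) + t := by gcongr
    _ = (C * (1 + (1 + Real.log K) / v) + 1 + 2 * C / v * Real.log t) * t := by
        field_simp; ring
    _ ≤ _ := by gcongr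

/-- Upper bound for the free energy near the critical point. -/
theorem main_low (hd : 3 ≤ d) {ν : Measure ℝ} [IsProbabilityMeasure ν]
    (hν : ∀ β : ℝ, Integrable (fun t => Real.exp (β * t)) ν)
    (hne : ∃ β : ℝ, 0 ≤ β ∧ freeEnergy d ν β < 0) {κ M ε₀ : ℝ} (hκ : 0 < κ) (hε : 0 < ε₀)
    (h3 : 3 * ε₀ ≤ betaC d ν)
    (hG : ∀ β ∈ Set.Icc (betaC d ν - ε₀) (betaC d ν + ε₀), Good d κ M (rho ν β))
    {δ : ℝ} (hδ : 0 < δ) : ∃ ε₁ : ℝ, 0 < ε₁ ∧ ∀ ε : ℝ, 0 < ε → ε < ε₁ →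
      freeEnergy d ν (betaC d ν + ε) ≤ -Real.exp (-ε ^ (-(1 / 2 + δ))) := by
  have hd1 : 1 ≤ d := by omega
  have hdR : (1 : ℝ) ≤ d := by exact_mod_cast hd1
  obtain ⟨a₀, C₁, hC₁, hfl⟩ := fl_flow (M := M) hd hκ
  obtain ⟨C₂, hC₂, htr⟩ := trans (M := M) hd hκ
  obtain ⟨a, b, C, ha, hb, hC, hfin, hk, hg, hU⟩ := crit_pack hd hν hne hκ hε h3 hG a₀
  obtain ⟨σ₀, hσ₀, hfl⟩ := hfl a ha
  set β₀ := betaC d ν with hβ₀
  set K : ℝ := 2 * C₂ * b with hK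
  have hK0 : 0 < K := by positivity
  set v : ℝ := min (min 1 (1 / b)) (1 / (C₁ * K)) with hvdef
  have hv : 0 < v := lt_min (lt_min one_pos (by positivity)) (by positivity)
  have hv1 : v ≤ 1 := (min_le_left _ _).trans (min_le_left _ _)
  have hv2 : v ≤ 1 / b := (min_le_left _ _).trans (min_le_right _ _)
  have hv3 : v * (C₁ * K) ≤ 1 := by
    rw [← le_div_iff₀ (by positivity)]; exact min_le_right _ _
  set r : ℝ := (1 / 2 + δ) / (1 / 2 + δ / 2) with hr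
  have hr1 : 1 < r := by rw [hr, one_lt_div (by positivity)]; linarith
  have e1 : ∀ᶠ σ in atTop, 1 / b < σ * kk d (rho ν β₀) σ := hk.eventually (lt_mem_nhds (by
    rw [div_lt_div_iff_of_pos_right hb]; norm_num))
  obtain ⟨S, hS⟩ := eventually_atTop.1 (e1.and (hg.and ((gmainl_ev1 a (2 * K)).and
    ((gmainl_ev2 hv).and ((gmainl_ev3 C₁ hK0 hv hr1).and
      (eventually_ge_atTop (max (max σ₀ C₂) K⁻¹)))))))
  have hSmax := (hS S le_rfl).2.2.2.2.2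
  have hS0 : 0 < S := by
    linarith [(le_max_left σ₀ C₂).trans ((le_max_left _ _).trans hSmax)]
  obtain ⟨ε₁, hε₁, hsep⟩ := main_sep hd hν hκ hε h3 hG hb hC hfin hk hU (half_pos hδ) S v hv
  obtain ⟨hc, -⟩ := gmainl_cont hd1 hν hS0 (hfin S hS0)
  obtain ⟨ε₂, hε₂, hnear⟩ := Metric.eventually_nhds_iff.1
    ((hc.const_mul S).eventually (lt_mem_nhds (hS S le_rfl).1))
  refine ⟨min ε₁ (min ε₂ ε₀), lt_min hε₁ (lt_min hε₂ hε), fun ε h0 h1 => ?_⟩
  have hεa : ε < ε₁ := h1.trans_le (min_le_left _ _)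
  have hεb : ε < ε₂ := h1.trans_le ((min_le_right _ _).trans (min_le_left _ _))
  have hεc : ε < ε₀ := h1.trans_le ((min_le_right _ _).trans (min_le_right _ _))
  obtain ⟨τ, hτ1, hτ2, hτ3⟩ := hsep ε h0 hεa
  have hGβ := hG (β₀ + ε) ⟨by linarith, by linarith⟩
  have hG0 := hG β₀ ⟨by linarith, by linarith⟩
  have hreg := reg_kk hd1 (mean1_rho hν (β₀ + ε)) a
  have hSv : v ≤ S * kk d (rho ν (β₀ + ε)) S := by
    have := hnear (y := β₀ + ε) (by rwa [Real.dist_eq, add_sub_cancel_left, abs_of_pos h0])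
    exact hv2.trans this.le
  obtain ⟨t, ⟨ht1, ht2⟩, ht3⟩ : ∃ t ∈ Set.Icc S τ, t * kk d (rho ν (β₀ + ε)) t = v :=
    intermediate_value_Icc' hτ1 (f := fun t => t * kk d (rho ν (β₀ + ε)) t)
      (continuousOn_id.mul (hreg.1.mono fun x hx => hS0.trans_le hx.1)) ⟨hτ3, hSv⟩
  obtain ⟨-, k2, k3, k4, k5, k6⟩ := hS t ht1
  have ht0 : 0 < t := hS0.trans_le ht1
  have k7 : σ₀ ≤ t := (le_max_left _ _).trans ((le_max_left _ _).trans k6)
  have k8 : C₂ ≤ t := (le_max_right _ _).trans ((le_max_left _ _).trans k6)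
  have k9 : 1 ≤ K * t := by
    have := (le_max_right _ _).trans k6
    rwa [inv_le_iff_one_le_mul₀' hK0] at this
  have ht1' : 1 ≤ t := hσ₀.trans k7
  have hkt : kk d (rho ν (β₀ + ε)) t = v / t := by rw [eq_div_iff ht0.ne', mul_comm, ht3]
  have hO : (OO d (rho ν (β₀ + ε)) (q0 d) (Real.exp (-t))).toReal = t / v := by
    rw [gmainl_kk] at hkt
    rw [← inv_inv (ENNReal.toReal _), hkt, inv_div]
  have hOtop : OO d (rho ν (β₀ + ε)) (q0 d) (Real.exp (-t)) ≠ ⊤ := by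
    intro h
    rw [h, ENNReal.toReal_top] at hO
    exact absurd hO (by positivity : (0 : ℝ) < t / v).ne
  have hp1 : 1 + 1 / (d : ℝ) ≤ q0 d := by
    unfold q0
    gcongr
    norm_num
  have hl : Real.exp (-t) ≤ C₂⁻¹ := by
    rw [Real.exp_neg]
    exact inv_anti₀ (by linarith) (by linarith [Real.add_one_le_exp t])
  have hAr := htr (rho ν β₀) (rho ν (β₀ + ε)) (q0 d) (q0 d) (Real.exp (-t))
    ⟨hG0, hp1, le_rfl, Real.exp_pos _, gmainl_exp ht0⟩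
    ⟨hGβ, hp1, le_rfl, Real.exp_pos _, gmainl_exp ht0⟩
    (cx_rho hν (by linarith) (by linarith)) hl hOtop (by
      rw [← ENNReal.ofReal_toReal hOtop, hO]
      refine ENNReal.ofReal_le_ofReal (k8.trans ?_)
      rw [le_div_iff₀ hv]
      nlinarith) ⌈Real.exp (t + a * t ^ (1 / 4 : ℝ))⌉₊
  have hγ : 1 / (K * t ^ 2) ≤ gg d (rho ν (β₀ + ε)) a t := by
    unfold gg at k2 ⊢
    set m : ℝ := (⌈Real.exp (t + a * t ^ (1 / 4 : ℝ))⌉₊ : ℝ) with hm
    set A₁ := Ar d (rho ν β₀) (q0 d) (Real.exp (-t)) ⌈Real.exp (t + a * t ^ (1 / 4 : ℝ))⌉₊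
    set A₂ := Ar d (rho ν (β₀ + ε)) (q0 d) (Real.exp (-t)) ⌈Real.exp (t + a * t ^ (1 / 4 : ℝ))⌉₊
    have hm0 : 0 ≤ m := Nat.cast_nonneg _
    have hm1 : Real.exp (-t) * m ≤ 2 * Real.exp (a * t ^ (1 / 4 : ℝ)) := by
      have j1 : m ≤ Real.exp (t + a * t ^ (1 / 4 : ℝ)) + 1 :=
        (Nat.ceil_lt_add_one (Real.exp_pos _).le).le
      have j2 : 1 ≤ Real.exp (t + a * t ^ (1 / 4 : ℝ)) := Real.one_le_exp (by positivity)
      calc Real.exp (-t) * m ≤ Real.exp (-t) * (2 * Real.exp (t + a * t ^ (1 / 4 : ℝ))) := by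
            gcongr; linarith
        _ = 2 * (Real.exp (-t) * Real.exp (t + a * t ^ (1 / 4 : ℝ))) := by ring
        _ = _ := by rw [← Real.exp_add]; congr 2; ring
    have e2 : Real.exp (-t) ^ (1 / 4 : ℝ) = Real.exp (-(t / 4)) := by
      rw [← Real.exp_mul]; congr 1; ring
    rw [e2] at hAr
    have j3 : Real.exp (-t) * m * Real.exp (-(t / 4)) ≤ 1 / (K * t ^ 2) := by
      rw [le_div_iff₀ (by positivity)]
      calc Real.exp (-t) * m * Real.exp (-(t / 4)) * (K * t ^ 2)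
          ≤ 2 * Real.exp (a * t ^ (1 / 4 : ℝ)) * Real.exp (-(t / 4)) * (K * t ^ 2) := by gcongr
        _ = 2 * K * t ^ 2 * Real.exp (a * t ^ (1 / 4 : ℝ)) * Real.exp (-(t / 4)) := by ring
        _ ≤ 1 := k3
    have j4 : Real.exp (-t) * m * A₁ ≤ Real.exp (-t) * m * (C₂ * (A₂ + Real.exp (-(t / 4)))) := by
      gcongr
    have j5 : 1 / (b * t ^ 2) = C₂ * (2 * (1 / (K * t ^ 2))) := by rw [hK]; field_simp
    have j6 : C₂ * (2 * (1 / (K * t ^ 2))) ≤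
        C₂ * (Real.exp (-t) * m * A₂ + Real.exp (-t) * m * Real.exp (-(t / 4))) := by
      rw [← j5]; linarith
    have j7 := le_of_mul_le_mul_left j6 (by linarith)
    linarith
  have hdec := hfl (rho ν (β₀ + ε)) t (1 / (K * t ^ 2)) hGβ k7 (hkt ▸ k4) (by
      rw [hkt]
      calc v / t ≤ 1 / t := by gcongr
        _ = t ^ (-1 : ℝ) := by rw [Real.rpow_neg_one, one_div]
        _ ≤ _ := Real.rpow_le_rpow_of_exponent_le ht1' (by norm_num))
    (by rw [div_le_one (by positivity)]; nlinarith) hγ (by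
      rw [hkt, div_pow, ← mul_div_assoc, div_le_div_iff₀ (by positivity) (by positivity)]
      have j1 : v * (v * (C₁ * K)) ≤ 1 := mul_le_one₀ hv1 (by positivity) hv3
      have j2 : 0 < t ^ 2 := by positivity
      nlinarith)
  refine (dec_free hd1 hν (by linarith) hdec).trans (neg_le_neg ?_)
  rw [hkt]
  set F := C₁ * (t + (1 - Real.log (1 / (K * t ^ 2))) / (v / t))
  have j1 : t ^ r ≤ ε ^ (-(1 / 2 + δ)) := by
    have := Real.rpow_le_rpow ht0.le (ht2.trans hτ2) (by linarith : 0 ≤ r)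
    rwa [← Real.rpow_mul h0.le, show -(1 / 2 + δ / 2) * r = -(1 / 2 + δ) by
      rw [hr]; field_simp] at this
  rw [le_div_iff₀ (Real.exp_pos _), ← Real.exp_add]
  calc Real.exp (-ε ^ (-(1 / 2 + δ)) + F) ≤ Real.exp (-1) := Real.exp_le_exp.2 (by linarith)
    _ ≤ Real.log 2 := by
      have := Real.exp_neg_one_lt_d9
      have := Real.log_two_gt_d9
      linarith

end Pool.Agent.Lib.MP_153faa_pr
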