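import Mathlib

/-!
Discrete estimates for the normalised flow near the critical trajectory.
-/

set_option autoImplicit false

namespace Pool.Agent.Lib.MP_153faa_pr

/-- One step of the forward propagation. -/
lemma godeu_step {w w' G G' h e m K θ κ : ℝ} (hh : 0 < h) (he : 0 ≤ e) (hm : 0 < m)
    (h1 : w' ≤ w) (h2 : w - w' ≤ (G + e) * h) (h3 : G' ≤ G - w * G * h + e * h)
    (h4 : m ≤ w') (h5 : w ≤ 17) (h6 : G ≤ K) (hθ : 0 ≤ θ) (h7 : 2 * G ≤ w ^ 2 + θ)
    (hκ : (K + e) * h / (2 * m) + (θ / 2 + e) / m ^ 2 ≤ κ) :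
    2 * G' ≤ w' ^ 2 + θ + 36 * e * h ∧ 1 / w' ≤ 1 / w + h * (1 / 2 + κ) := by
  have hw' : 0 < w' := lt_of_lt_of_le hm h4
  have hw : 0 < w := lt_of_lt_of_le hw' h1
  have heh : 0 ≤ e * h := by positivity
  constructor
  · have a1 : w * (w - w') ≤ w * ((G + e) * h) := mul_le_mul_of_nonneg_left h2 hw.le
    have a2 : w * (e * h) ≤ 17 * (e * h) := mul_le_mul_of_nonneg_right h5 heh
    nlinarith [sq_nonneg (w - w')]
  · have b1 : w - w' ≤ (K + e) * h := h2.trans (by gcongr)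
    have b2 : w - w' ≤ (w ^ 2 / 2 + (θ / 2 + e)) * h :=
      h2.trans (mul_le_mul_of_nonneg_right (by linarith) hh.le)
    have b3 : w / w' ≤ 1 + (K + e) * h / m := by
      have : w / w' = 1 + (w - w') / w' := by field_simp; ring
      rw [this]
      have : (w - w') / w' ≤ (K + e) * h / m :=
        div_le_div₀ ((sub_nonneg.mpr h1).trans b1) b1 hm h4
      linarith
    have b4 : 1 / (w * w') ≤ 1 / m ^ 2 := by
      apply one_div_le_one_div_of_le (by positivity)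
      nlinarith
    have b5 : 1 / w' - 1 / w = (w - w') * (1 / (w * w')) := by field_simp
    have b6 : (w - w') * (1 / (w * w')) ≤ (w ^ 2 / 2 + (θ / 2 + e)) * h * (1 / (w * w')) := by
      gcongr
    have b7 : (w ^ 2 / 2 + (θ / 2 + e)) * h * (1 / (w * w')) =
        h * (w / w' / 2 + (θ / 2 + e) * (1 / (w * w'))) := by field_simp
    have b8 : (θ / 2 + e) * (1 / (w * w')) ≤ (θ / 2 + e) / m ^ 2 := by
      rw [div_eq_mul_one_div (θ / 2 + e)]
      gcongr
    have b9 : (K + e) * h / (2 * m) = (K + e) * h / m / 2 := by field_simp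
    have b10 : w / w' / 2 + (θ / 2 + e) * (1 / (w * w')) ≤ 1 / 2 + κ := by linarith
    have := mul_le_mul_of_nonneg_left b10 hh.le
    linarith

/-- Forward propagation along a grid. -/
lemma godeu_fwd {w G : ℕ → ℝ} {j₀ M : ℕ} {h e m K θ κ R : ℝ} (hh : 0 < h) (he : 0 ≤ e)
    (hm : 0 < m) (hθ : 0 ≤ θ) (hM : M * h ≤ R)
    (h1 : ∀ j, j < M → w (j + 1) ≤ w j ∧ w j - w (j + 1) ≤ (G j + e) * h ∧
      G (j + 1) ≤ G j - w j * G j * h + e * h ∧ m ≤ w (j + 1) ∧ w j ≤ 17 ∧ G j ≤ K)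
    (h0 : 2 * G j₀ ≤ w j₀ ^ 2 + θ)
    (hκ : (K + e) * h / (2 * m) + (θ / 2 + 18 * e * R + e) / m ^ 2 ≤ κ) (n : ℕ)
    (hn : j₀ + n ≤ M) : 2 * G (j₀ + n) ≤ w (j₀ + n) ^ 2 + θ + 36 * e * h * n ∧
      1 / w (j₀ + n) ≤ 1 / w j₀ + n * h * (1 / 2 + κ) := by
  induction n with
  | zero => simpa using h0
  | succ n ih =>
    obtain ⟨i1, i2⟩ := ih (by omega)
    obtain ⟨a1, a2, a3, a4, a5, a6⟩ := h1 (j₀ + n) (by omega)
    have hnM : (n : ℝ) ≤ M := by exact_mod_cast (by omega : n ≤ M)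
    have hnh : n * h ≤ R := le_trans (by gcongr) hM
    have hb : (θ + 36 * e * h * n) / 2 + e ≤ θ / 2 + 18 * e * R + e := by
      have := mul_le_mul_of_nonneg_left hnh he
      nlinarith
    obtain ⟨c1, c2⟩ := godeu_step (θ := θ + 36 * e * h * n) (κ := κ) hh he hm a1 a2 a3 a4 a5 a6
      (by positivity) (by linarith) (le_trans (by gcongr) hκ)
    rw [← add_assoc]
    push_cast
    constructor <;> linarith

/-- Existence of a good starting point. -/
lemma godeu_start {a w G : ℕ → ℝ} {N : ℕ} {h e ε θ : ℝ} (hh : 0 < h) (hh' : h ≤ 1 / 2)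
    (hε : 0 ≤ ε) (hε' : ε ≤ 1 / 2) (hN : 1 / 8 ≤ N * h)
    (h1 : ∀ j, j < N → (G j - e) * h ≤ a j - a (j + 1) ∧
      2 * (1 - ε) ≤ (1 / 2 + (j + 1) * h) * w j)
    (h2 : a 0 ≤ 4 * (1 + ε)) (h3 : 2 * (1 - ε) ≤ (1 / 2 + N * h) * a N)
    (hθ : 96 * ε + 64 * h < θ / 2 - e) : ∃ j, j < N ∧ 2 * G j ≤ w j ^ 2 + θ := by
  by_contra hc
  push Not at hc
  set l := (1 - ε) ^ 2 * (1 - 2 * h) with hl
  have key : ∀ j, j ≤ N → a j - 2 * l / (1 / 2 + j * h) + j * h * (θ / 2 - e) ≤ a 0 - 4 * l := by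
    intro j hj
    induction j with
    | zero => simp only [Nat.cast_zero, zero_mul, add_zero]; linarith
    | succ j ih =>
      have i1 := ih (by omega)
      obtain ⟨b1, b2⟩ := h1 j (by omega)
      have b3 := hc j (by omega)
      push_cast
      set x := 1 / 2 + j * h with hx
      have hx0 : 1 / 2 ≤ x := by have : 0 ≤ j * h := by positivity
                                 linarith
      have e1 : 1 / 2 + ((j : ℝ) + 1) * h = x + h := by rw [hx]; ring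
      rw [e1] at b2 ⊢
      have hxh : 0 < x + h := by linarith
      have b4 : 2 * (1 - ε) / (x + h) ≤ w j := by rw [div_le_iff₀ hxh]; linarith
      have b5 : (2 * (1 - ε) / (x + h)) ^ 2 ≤ w j ^ 2 :=
        pow_le_pow_left₀ (div_nonneg (by linarith) hxh.le) b4 2
      have b6 : 2 * l / x - 2 * l / (x + h) ≤ (2 * (1 - ε) / (x + h)) ^ 2 / 2 * h := by
        have e2 : 2 * l / x - 2 * l / (x + h) =
            2 * (1 - ε) ^ 2 * h / (x + h) * ((1 - 2 * h) / x) := by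
          rw [hl]; field_simp; ring
        have e3 : (2 * (1 - ε) / (x + h)) ^ 2 / 2 * h =
            2 * (1 - ε) ^ 2 * h / (x + h) * (1 / (x + h)) := by field_simp
        rw [e2, e3]
        refine mul_le_mul_of_nonneg_left ?_ (by positivity)
        rw [div_le_div_iff₀ (by linarith) hxh]
        nlinarith
      have b7 : (2 * (1 - ε) / (x + h)) ^ 2 / 2 * h + θ / 2 * h ≤ G j * h := by
        rw [← add_mul]
        exact mul_le_mul_of_nonneg_right (by linarith) hh.le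
      nlinarith
  have k1 := key N le_rfl
  have hx0 : 0 < 1 / 2 + N * h := by positivity
  have hl1 : l ≤ 1 - ε := by
    have : (1 - ε) ^ 2 ≤ 1 - ε := by nlinarith
    have h' : 0 ≤ (1 - ε) ^ 2 * (2 * h) := by positivity
    rw [hl]; nlinarith
  have hl2 : 1 - 2 * ε - 2 * h ≤ l := by
    have h' : 0 ≤ ε * h * (2 - ε) := mul_nonneg (by positivity) (by linarith)
    rw [hl]; nlinarith [sq_nonneg ε]
  have k2 : 2 * l / (1 / 2 + N * h) ≤ a N := by
    rw [div_le_iff₀ hx0]; linarith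
  have k3 : 1 / 8 * (θ / 2 - e) ≤ N * h * (θ / 2 - e) :=
    mul_le_mul_of_nonneg_right hN (by linarith)
  linarith

/-- The normalised flow inequalities up to time `T`. -/
def GodeuNF (A η t ω T : ℝ) (u v : ℝ → ℝ) : Prop :=
  ∀ x h, 1 / 8 ≤ x → ω ≤ h → 64 * h ≤ x → 34 * A * h ≤ 1 → x + h ≤ T →
    u (x + ω) - u (x + h) ≤ ((1 + η) * v x + A * (u (x - 2 * h) - u (x + h)) ^ 2 + t) * h ∧
    ((1 - η) * (1 - A * u x * h) * v x - t) * h ≤ u x - u (x + h) ∧
    v (x + h) ≤ v x * (1 + η - (1 - A * η) * u x * h + A * (u x * h) ^ 2) +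
      A * (u (x - 2 * h) - u (x + h)) ^ 2 + t

section
variable {A η t ω T : ℝ} {u v : ℝ → ℝ}

lemma godeu_sq {x y : ℝ} (hu : ∀ x, 1 / 8 ≤ x → 0 ≤ u x ∧ u x ≤ 17) (hx : 1 / 8 ≤ x)
    (hy : 1 / 8 ≤ y) : (u x - u y) ^ 2 ≤ 289 := by
  obtain ⟨a1, a2⟩ := hu x hx
  obtain ⟨b1, b2⟩ := hu y hy
  nlinarith

lemma godeu_crude (hA : 1 ≤ A) (hF : GodeuNF A η t ω T u v) (hη0 : 0 ≤ η) (hη : 2 * A * η ≤ 1)
    (ht : t ≤ 1) (hω : 1000 * A * ω ≤ 1) (hu : ∀ x, 1 / 8 ≤ x → 0 ≤ u x ∧ u x ≤ 17)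
    (hv : ∀ x, 0 ≤ v x) {x : ℝ} (hx : 1 / 4 ≤ x) (hxT : x ≤ T) : v x ≤ 300000 * A := by
  have hA0 : 0 < A := by linarith
  set h := 1 / (1000 * A) with hh
  have hh0 : 0 < h := by positivity
  have hAh : A * h = 1 / 1000 := by rw [hh]; field_simp
  have hh1 : h ≤ 1 / 1000 := by nlinarith
  have hωh : ω ≤ h := by rw [hh, le_div_iff₀ (by positivity)]; linarith
  obtain ⟨-, f2, f3⟩ := hF (x - h) h (by linarith) hωh (by linarith) (by linarith) (by linarith)
  rw [sub_add_cancel] at f2 f3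
  obtain ⟨a1, a2⟩ := hu (x - h) (by linarith)
  obtain ⟨b1, b2⟩ := hu x (by linarith)
  have hη1 : η ≤ 1 / 2 := by nlinarith
  have c0 : A * u (x - h) * h = u (x - h) / 1000 := by
    rw [mul_right_comm, hAh]; ring
  have c1 : 1 / 4 ≤ (1 - η) * (1 - A * u (x - h) * h) := by
    rw [c0]; nlinarith
  have c2 : 1 / 4 * v (x - h) ≤ (1 - η) * (1 - A * u (x - h) * h) * v (x - h) :=
    mul_le_mul_of_nonneg_right c1 (hv _)
  have c3 : (1 / 4 * v (x - h) - 1) * h ≤ 17 :=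
    le_trans (mul_le_mul_of_nonneg_right (by linarith) hh0.le) (f2.trans (by linarith))
  have c4 : v (x - h) ≤ 70000 * A := by
    have := mul_le_mul_of_nonneg_left c3 hA0.le
    have e : A * ((1 / 4 * v (x - h) - 1) * h) = (1 / 4 * v (x - h) - 1) / 1000 := by
      rw [mul_left_comm, hAh]; ring
    rw [e] at this
    linarith
  have c5 : A * (u (x - h) * h) ^ 2 ≤ 1 := by
    have e : A * (u (x - h) * h) ^ 2 = (A * u (x - h) * h) * (u (x - h) * h) := by ring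
    rw [e, c0]
    have : u (x - h) * h ≤ 17 * (1 / 1000) := by gcongr
    have h0 : 0 ≤ u (x - h) * h := by positivity
    nlinarith
  have c6 : 0 ≤ (1 - A * η) * u (x - h) * h :=
    mul_nonneg (mul_nonneg (by linarith) a1) hh0.le
  have c7 : v (x - h) * (1 + η - (1 - A * η) * u (x - h) * h + A * (u (x - h) * h) ^ 2) ≤
      v (x - h) * 3 := mul_le_mul_of_nonneg_left (by linarith) (hv _)
  have c8 := godeu_sq (x := x - h - 2 * h) (y := x) hu (by linarith) (by linarith)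
  have c9 := mul_le_mul_of_nonneg_left c8 hA0.le
  linarith

lemma godeu_lip (hA : 1 ≤ A) (hF : GodeuNF A η t ω T u v) (hη : η ≤ 1) (ht : t ≤ 1)
    (hω : 0 ≤ ω) (anti : AntitoneOn u (Set.Ici (1 / 8)))
    (hu : ∀ x, 1 / 8 ≤ x → 0 ≤ u x ∧ u x ≤ 17) (hv : ∀ x, 0 ≤ v x) {K : ℝ} (hK : 300 * A ≤ K)
    (hvK : ∀ x, 1 / 4 ≤ x → x ≤ T → v x ≤ K) {x h : ℝ} (hx : 1 / 2 ≤ x) (hωh : ω ≤ h)
    (hh : 2000 * A * h ≤ 1) (hxT : x + h ≤ T) :
    (u (x - 2 * h) - u (x + h)) ^ 2 ≤ 144 * K ^ 2 * h ^ 2 := by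
  have hh0 : 0 ≤ h := hω.trans hωh
  have hh1 : h ≤ 1 / 2000 := by nlinarith
  obtain ⟨f1, -, -⟩ := hF (x - 3 * h) (4 * h) (by linarith) (by linarith) (by linarith)
    (by linarith) (by linarith)
  have e : x - 3 * h + 4 * h = x + h := by ring
  rw [e] at f1
  have a1 : u (x - 2 * h) ≤ u (x - 3 * h + ω) :=
    anti (by simp only [Set.mem_Ici]; linarith) (by simp only [Set.mem_Ici]; linarith)
      (by linarith)
  have a2 : u (x + h) ≤ u (x - 2 * h) :=
    anti (by simp only [Set.mem_Ici]; linarith) (by simp only [Set.mem_Ici]; linarith)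
      (by linarith)
  have a3 := godeu_sq (x := x - 3 * h - 2 * (4 * h)) (y := x + h) hu (by linarith) (by linarith)
  have a4 := mul_le_mul_of_nonneg_left a3 (by linarith : 0 ≤ A)
  have a5 := hvK (x - 3 * h) (by linarith) (by linarith)
  have a6 : (1 + η) * v (x - 3 * h) ≤ 2 * K :=
    mul_le_mul (by linarith) a5 (hv _) (by norm_num)
  have a7 : u (x - 2 * h) - u (x + h) ≤ 3 * K * (4 * h) :=
    le_trans (by linarith) (f1.trans (mul_le_mul_of_nonneg_right (by linarith) (by linarith)))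
  calc (u (x - 2 * h) - u (x + h)) ^ 2 ≤ (3 * K * (4 * h)) ^ 2 :=
        pow_le_pow_left₀ (by linarith) a7 2
    _ = 144 * K ^ 2 * h ^ 2 := by ring

end

end Pool.Agent.Lib.MP_153faa_pr
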