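import Mathlib
import Pool.Agent.Lib.MP_153faa_pr.GOdeU1

/-!
The normalised flow stays close to the critical trajectory.
-/

set_option autoImplicit false

namespace Pool.Agent.Lib.MP_153faa_pr

variable {A η t ω T : ℝ} {u v : ℝ → ℝ}

/-- The flow inequalities with all errors collected in one constant. -/
lemma godeu_clean (hA : 1 ≤ A) (hF : GodeuNF A η t ω T u v) {K z : ℝ} (hK : 300 * A ≤ K)
    (hz0 : 0 < z) (hz : 4000 * A * z ≤ 1) (hη0 : 0 ≤ η) (hη : η ≤ z ^ 2)
    (ht : t ≤ z ^ 2) (hω0 : 0 ≤ ω) (hω : 2 * ω ≤ z ^ 2)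
    (anti : AntitoneOn u (Set.Ici (1 / 8)))
    (hu : ∀ x, 1 / 8 ≤ x → 0 ≤ u x ∧ u x ≤ 17) (hv : ∀ x, 0 ≤ v x)
    (hvK : ∀ x, 1 / 4 ≤ x → x ≤ T → v x ≤ K) {x h : ℝ} (hx : 1 / 2 ≤ x) (hh1 : z ≤ 2 * h)
    (hh2 : h ≤ z) (hxT : x + h + ω ≤ T) :
    u (x + ω) - u (x + h + ω) ≤ (v x + 500 * A * K ^ 2 * z) * h ∧
    v (x + h) ≤ v x - u (x + ω) * v x * h + 500 * A * K ^ 2 * z * h ∧
    (v x - 500 * A * K ^ 2 * z) * h ≤ u x - u (x + h) := by
  have hA0 : 0 < A := by linarith
  have hz1 : z ≤ 1 / 4000 := by linarith [le_mul_of_one_le_left hz0.le hA]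
  have hzz : z ^ 2 ≤ z / 4000 := by linarith [mul_le_mul_of_nonneg_left hz1 hz0.le]
  have hh0 : 0 < h := by linarith
  have hzh : z ^ 2 ≤ 2 * (z * h) := by linarith [mul_le_mul_of_nonneg_left hh1 hz0.le]
  have hωh : ω ≤ h := by linarith
  have hK1 : 300 ≤ K := by linarith
  have hK0 : 0 < K := by linarith
  have hAh : A * h ≤ A * z := by gcongr
  have hAω : A * ω ≤ A * z := by gcongr; linarith
  obtain ⟨f1, -, -⟩ := hF x (h + ω) (by linarith) (by linarith) (by linarith)
    (by linarith) (by linarith)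
  obtain ⟨-, f2, f3⟩ := hF x h (by linarith) hωh (by linarith) (by linarith) (by linarith)
  have l1 := godeu_lip hA hF (by linarith) (by linarith) hω0 anti hu hv hK hvK (x := x)
    (h := h + ω) hx (by linarith) (by linarith) (by linarith)
  have l2 := godeu_lip hA hF (by linarith) (by linarith) hω0 anti hu hv hK hvK (x := x)
    (h := h) hx hωh (by linarith) (by linarith)
  obtain ⟨u0, u1⟩ := hu x (by linarith)
  have v0 := hv x
  have v1 := hvK x (by linarith) (by linarith)
  have a1 : u (x + ω) ≤ u x :=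
    anti (by simp only [Set.mem_Ici]; linarith) (by simp only [Set.mem_Ici]; linarith)
      (by linarith)
  set Q := A * K ^ 2 * z with hQ
  have hQ0 : 0 < Q := by positivity
  have q1 : A * K * z ≤ Q := by
    rw [hQ]; gcongr; exact le_self_pow₀ (by linarith) (by norm_num)
  have q2 : K * z ≤ A * K * z := by
    gcongr; exact le_mul_of_one_le_left hK0.le hA
  have q3 : z ≤ K * z := le_mul_of_one_le_left hz0.le (by linarith)
  have e5 : 500 * A * K ^ 2 * z = 500 * Q := by rw [hQ]; ring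
  rw [e5]
  have hzhQ : z * h ≤ Q * h := by gcongr; linarith
  have hKzh : K * (z * h) ≤ Q * h := by rw [← mul_assoc]; gcongr; linarith
  refine ⟨?_, ?_, ?_⟩
  · rw [add_assoc]
    refine f1.trans ?_
    have b1 : A * (u (x - 2 * (h + ω)) - u (x + (h + ω))) ^ 2 ≤ Q := by
      refine (mul_le_mul_of_nonneg_left l1 hA0.le).trans ?_
      have : (h + ω) ^ 2 ≤ z / 1000 := by
        have := pow_le_pow_left₀ (by positivity) (by linarith : h + ω ≤ 2 * z) 2
        linarith
      calc A * (144 * K ^ 2 * (h + ω) ^ 2) ≤ A * (144 * K ^ 2 * (z / 1000)) := by gcongr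
        _ = 144 / 1000 * Q := by rw [hQ]; ring
        _ ≤ Q := by linarith
    have b2 : η * v x ≤ Q := by
      calc η * v x ≤ z * K := mul_le_mul (by linarith) v1 v0 hz0.le
        _ ≤ Q := by linarith
    have b3 : v x * ω ≤ Q * h := by
      calc v x * ω ≤ K * (z * h) := mul_le_mul v1 (by linarith) hω0 hK0.le
        _ ≤ Q * h := hKzh
    have b4 : (1 + η) * v x + A * (u (x - 2 * (h + ω)) - u (x + (h + ω))) ^ 2 + t ≤
        v x + 3 * Q := by linarith
    have b5 : Q * ω ≤ Q * h := by gcongr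
    have b6 : 0 ≤ Q * h := by positivity
    calc _ ≤ (v x + 3 * Q) * (h + ω) := mul_le_mul_of_nonneg_right b4 (by linarith)
      _ = v x * h + v x * ω + 3 * (Q * h) + 3 * (Q * ω) := by ring
      _ ≤ v x * h + 500 * (Q * h) := by linarith
      _ = (v x + 500 * Q) * h := by ring
  · refine f3.trans ?_
    have b1 : A * (u (x - 2 * h) - u (x + h)) ^ 2 ≤ 144 * (Q * h) := by
      refine (mul_le_mul_of_nonneg_left l2 hA0.le).trans ?_
      have : h ^ 2 ≤ z * h := by linarith [mul_le_mul_of_nonneg_right hh2 hh0.le]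
      calc A * (144 * K ^ 2 * h ^ 2) ≤ A * (144 * K ^ 2 * (z * h)) := by gcongr
        _ = 144 * (Q * h) := by rw [hQ]; ring
    have b2 : v x * η ≤ 2 * (Q * h) := by
      calc v x * η ≤ K * (2 * (z * h)) := mul_le_mul v1 (by linarith) hη0 hK0.le
        _ ≤ 2 * (Q * h) := by linarith
    have b3 : v x * (A * η * u x * h) ≤ 17 * (Q * h) := by
      calc v x * (A * η * u x * h) ≤ K * (A * z * 17 * h) := by gcongr; linarith
        _ = 17 * (A * K * z * h) := by ring
        _ ≤ 17 * (Q * h) := by gcongr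
    have b4 : v x * (A * (u x * h) ^ 2) ≤ 289 * (Q * h) := by
      have : (u x * h) ^ 2 ≤ 289 * (z * h) := by
        have h1 : u x * h ≤ 17 * h := by gcongr
        have h2 := pow_le_pow_left₀ (by positivity) h1 2
        linarith [mul_le_mul_of_nonneg_right hh2 hh0.le]
      calc v x * (A * (u x * h) ^ 2) ≤ K * (A * (289 * (z * h))) := by gcongr
        _ = 289 * (A * K * z * h) := by ring
        _ ≤ 289 * (Q * h) := by gcongr
    have b5 : u (x + ω) * v x * h ≤ u x * v x * h := by gcongr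
    have b6 : 0 ≤ Q * h := by positivity
    have e : v x * (1 + η - (1 - A * η) * u x * h + A * (u x * h) ^ 2) =
        v x + v x * η - u x * v x * h + v x * (A * η * u x * h) + v x * (A * (u x * h) ^ 2) := by
      ring
    rw [e]
    linarith
  · refine le_trans (mul_le_mul_of_nonneg_right ?_ hh0.le) f2
    have b2 : η * v x ≤ Q := by
      calc η * v x ≤ z * K := mul_le_mul (by linarith) v1 v0 hz0.le
        _ ≤ Q := by linarith
    have b3 : A * u x * h * v x ≤ 17 * Q := by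
      calc A * u x * h * v x ≤ A * 17 * z * K := by gcongr
        _ = 17 * (A * K * z) := by ring
        _ ≤ 17 * Q := by gcongr
    have b4 : 0 ≤ η * (A * u x * h * v x) := by positivity
    have e : (1 - η) * (1 - A * u x * h) * v x =
        v x - η * v x - A * u x * h * v x + η * (A * u x * h * v x) := by ring
    rw [e]
    linarith

/-- The step size. -/
noncomputable def godeuZ (A R : ℝ) : ℝ := 1 / (10 ^ 7 * A * (300000 * A) ^ 2 * R ^ 3)

lemma godeuZ_pos {A R : ℝ} (hA : 1 ≤ A) (hR : 2 ≤ R) : 0 < godeuZ A R := by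
  have : 0 < A := by linarith
  have : 0 < R := by linarith
  unfold godeuZ
  positivity

lemma godeu_core {R : ℝ} (hA : 1 ≤ A) (hR : 2 ≤ R) (hT : 1 ≤ T) (hTR : T ≤ R)
    (hF : GodeuNF A η t ω T u v) (hη0 : 0 ≤ η) (hη : η ≤ godeuZ A R ^ 2)
    (ht : t ≤ godeuZ A R ^ 2) (hω0 : 0 ≤ ω) (hω : 2 * ω ≤ godeuZ A R ^ 2)
    (anti : AntitoneOn u (Set.Ici (1 / 8))) (hu0 : ∀ x, 0 ≤ u x) (hv : ∀ x, 0 ≤ v x)
    (init : ∀ x ∈ Set.Icc (1 / 8 : ℝ) 1, 2 * (1 - 1 / 1000 / R ^ 2) ≤ x * u x ∧
      x * u x ≤ 2 * (1 + 1 / 1000 / R ^ 2))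
    (low : ∀ x ∈ Set.Icc 1 T, 9 / 5 ≤ x * u x) : 9 / 5 < T * u T := by
  have hA0 : 0 < A := by linarith
  have hR0 : 0 < R := by linarith
  set ε := 1 / 1000 / R ^ 2 with hε
  have hε0 : 0 < ε := by positivity
  have hεR : ε * R ^ 2 = 1 / 1000 := by rw [hε]; field_simp
  have hR2 : 4 ≤ R ^ 2 := by nlinarith
  have hε1 : ε ≤ 1 / 4000 := by linarith [mul_le_mul_of_nonneg_left hR2 hε0.le]
  set z := godeuZ A R with hzdef
  set K := 300000 * A with hKdef
  have hz0 : 0 < z := godeuZ_pos hA hR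
  have hK1 : 300000 ≤ K := by linarith
  have hzQ : A * K ^ 2 * z * R ^ 3 = 1 / 10 ^ 7 := by
    rw [hzdef, godeuZ, ← hKdef]; field_simp
  have hR3 : 1 ≤ R ^ 3 := one_le_pow₀ (by linarith)
  have hRR3 : R ^ 2 ≤ R ^ 3 := pow_le_pow_right₀ (by linarith) (by norm_num)
  have hRR1 : R ≤ R ^ 3 := le_self_pow₀ (by linarith) (by norm_num)
  set Q := A * K ^ 2 * z with hQ
  have hQ0 : 0 < Q := by positivity
  have hQ1 : Q ≤ 1 / 10 ^ 7 := by linarith [mul_le_mul_of_nonneg_left hR3 hQ0.le]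
  have hAz : 300000 * (A * z) ≤ Q := by
    rw [hQ]
    have : 300000 ≤ K ^ 2 := hK1.trans (le_self_pow₀ (by linarith) (by norm_num))
    calc 300000 * (A * z) ≤ K ^ 2 * (A * z) := by gcongr
      _ = A * K ^ 2 * z := by ring
  have hKz : K * z ≤ Q := by
    rw [hQ]
    have : K ≤ A * K ^ 2 :=
      (le_self_pow₀ (by linarith) (by norm_num)).trans (le_mul_of_one_le_left (sq_nonneg K) hA)
    gcongr
  have hzA : z ≤ A * z := le_mul_of_one_le_left hz0.le hA
  have hz1 : z ≤ 1 / 10 ^ 7 := by linarith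
  have hzz : z ^ 2 ≤ z := by linarith [mul_le_mul_of_nonneg_left hz1 hz0.le]
  have hu : ∀ x, 1 / 8 ≤ x → 0 ≤ u x ∧ u x ≤ 17 := by
    intro x hx
    refine ⟨hu0 x, ?_⟩
    have h1 := anti (a := 1 / 8) (by simp) hx hx
    have h2 := (init (1 / 8) ⟨le_rfl, by norm_num⟩).2
    linarith
  have hAη : A * η ≤ A * z := by gcongr; linarith
  have hAω : A * ω ≤ A * z := by gcongr; linarith
  have hvK : ∀ x, 1 / 4 ≤ x → x ≤ T → v x ≤ K := fun x hx hxT =>
    godeu_crude hA hF hη0 (by linarith) (by linarith) (by linarith) hu hv hx hxT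
  have hlow : ∀ x, 1 / 8 ≤ x → x ≤ T → 9 / 5 ≤ x * u x := by
    intro x hx hxT
    rcases le_total x 1 with h | h
    · linarith [(init x ⟨hx, h⟩).1]
    · exact low x ⟨h, hxT⟩
  -- the grid
  set L := T - ω - 1 / 2 with hL
  have hL1 : 1 / 4 ≤ L := by linarith
  set M := ⌈L / z⌉₊ with hM
  have hM1 : L / z ≤ M := Nat.le_ceil _
  have hM2 : (M : ℝ) < L / z + 1 := Nat.ceil_lt_add_one (by positivity)
  have hM0 : (0 : ℝ) < M := lt_of_lt_of_le (by positivity) hM1
  set h := L / M with hh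
  have hMh : M * h = L := by rw [hh]; field_simp
  have hh0 : 0 < h := by positivity
  have hh2 : h ≤ z := by
    rw [hh, div_le_iff₀ hM0]
    rw [div_le_iff₀ hz0] at hM1
    linarith
  have hh1 : z ≤ 2 * h := by
    have h1 : M * z < L + z := by
      have := mul_lt_mul_of_pos_right hM2 hz0
      rwa [add_mul, div_mul_cancel₀ _ hz0.ne', one_mul] at this
    have h2 : M * z ≤ M * (2 * h) := by linarith
    exact le_of_mul_le_mul_left h2 hM0
  have hωh : ω ≤ h := by linarith
  have clean : ∀ j : ℕ, j < M → _ := fun j hj => godeu_clean hA hF (K := K) (z := z) (by linarith)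
    hz0 (by linarith) hη0 hη ht hω0 hω anti hu hv hvK (x := 1 / 2 + j * h) (h := h)
    (by have : 0 ≤ j * h := by positivity
        linarith) hh1 hh2 (by
      have : ((j : ℝ) + 1) * h ≤ M * h := by
        gcongr; exact_mod_cast hj
      linarith)
  have e5 : 500 * A * K ^ 2 * z = 500 * Q := by rw [hQ]; ring
  have e6 : ∀ j : ℕ, 1 / 2 + ((j + 1 : ℕ) : ℝ) * h = 1 / 2 + j * h + h := by
    intro j; push_cast; ring
  -- the starting point
  set N := ⌈1 / 8 / h⌉₊ with hN
  have hN1 : 1 / 8 ≤ N * h := by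
    have : 1 / 8 / h ≤ N := Nat.le_ceil _
    rwa [div_le_iff₀ hh0] at this
  have hN2 : N * h ≤ 1 / 8 + h := by
    have h1 : (N : ℝ) < 1 / 8 / h + 1 := Nat.ceil_lt_add_one (by positivity)
    have := mul_lt_mul_of_pos_right h1 hh0
    rw [add_mul, div_mul_cancel₀ _ hh0.ne', one_mul] at this
    exact this.le
  have hNM : N ≤ M := by
    have h1 : (N : ℝ) * h ≤ M * h := by linarith
    exact_mod_cast le_of_mul_le_mul_right h1 hh0
  obtain ⟨j₀, hj₀, hst⟩ := godeu_start (a := fun j => u (1 / 2 + j * h))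
    (w := fun j => u (1 / 2 + j * h + ω)) (G := fun j => v (1 / 2 + j * h)) (N := N) (h := h)
    (e := 500 * Q) (ε := ε) (θ := 2 * (500 * Q + 100 * ε + 70 * z)) hh0 (by linarith) hε0.le
    (by linarith) hN1 (by
      intro j hj
      have c := (clean j (by omega)).2.2
      rw [e5] at c
      refine ⟨by simpa only [e6] using c, ?_⟩
      have hj0 : 0 ≤ j * h := by positivity
      have hjN : (j : ℝ) * h ≤ N * h := by gcongr
      have i1 := (init (1 / 2 + j * h + ω) ⟨by linarith, by linarith⟩).1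
      refine i1.trans (mul_le_mul_of_nonneg_right (by linarith) (hu0 _)))
    (by
      have i1 := (init (1 / 2) ⟨by norm_num, by norm_num⟩).2
      simp only [Nat.cast_zero, zero_mul, add_zero]
      linarith)
    (init _ ⟨by linarith, by linarith⟩).1 (by linarith)
  -- forward propagation
  have hm0 : 0 < 9 / 5 / R := by positivity
  obtain ⟨-, hf⟩ := godeu_fwd (w := fun j => u (1 / 2 + j * h + ω))
    (G := fun j => v (1 / 2 + j * h)) (j₀ := j₀) (M := M) (h := h) (e := 500 * Q)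
    (m := 9 / 5 / R) (K := K) (θ := 2 * (500 * Q + 100 * ε + 70 * z)) (κ := 1 / 20) (R := R)
    hh0 (by positivity) hm0 (by positivity) (by linarith) (by
      intro j hj
      obtain ⟨c1, c2, -⟩ := clean j hj
      rw [e5] at c1 c2
      have hj0 : 0 ≤ j * h := by positivity
      have hjM : ((j : ℝ) + 1) * h ≤ M * h := by gcongr; exact_mod_cast hj
      simp only [e6]
      refine ⟨anti (by simp only [Set.mem_Ici]; linarith) (by simp only [Set.mem_Ici]; linarith)
        (by linarith), c1, c2, ?_, (hu _ (by linarith)).2, hvK _ (by linarith) (by linarith)⟩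
      have i1 := hlow (1 / 2 + j * h + h + ω) (by linarith) (by linarith)
      rw [div_le_iff₀ hR0, mul_comm]
      exact i1.trans (mul_le_mul_of_nonneg_right (by linarith) (hu0 _))) hst (by
      have e1 : (K + 500 * Q) * h / (2 * (9 / 5 / R)) = 5 / 18 * ((K + 500 * Q) * h * R) := by
        field_simp; ring
      have e2 : (2 * (500 * Q + 100 * ε + 70 * z) / 2 + 18 * (500 * Q) * R + 500 * Q) /
          (9 / 5 / R) ^ 2 = 25 / 81 * (1000 * (Q * R ^ 2) + 100 * (ε * R ^ 2) + 70 * (z * R ^ 2) +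
            9000 * (Q * R ^ 3)) := by
        field_simp; ring
      have d1 : Q * R ^ 2 ≤ Q * R ^ 3 := by gcongr
      have d2 : z * R ^ 2 ≤ Q * R ^ 3 := by gcongr; linarith
      have d3 : (K + 500 * Q) * h * R ≤ 2 * (Q * R ^ 3) := by
        calc (K + 500 * Q) * h * R ≤ (2 * K) * z * R ^ 3 := by gcongr; linarith
          _ = 2 * (K * z * R ^ 3) := by ring
          _ ≤ 2 * (Q * R ^ 3) := by gcongr
      rw [e1, e2, hεR]
      rw [hzQ] at d1 d2 d3
      rw [hzQ]
      linarith) (M - j₀) (by omega)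
  have e7 : j₀ + (M - j₀) = M := by omega
  have e8 : ((M - j₀ : ℕ) : ℝ) = M - j₀ := by rw [Nat.cast_sub (by omega)]
  simp only [e7, e8] at hf
  have e9 : 1 / 2 + M * h + ω = T := by linarith
  rw [e9] at hf
  have hj0 : 0 ≤ j₀ * h := by positivity
  have hjN : (j₀ : ℝ) * h ≤ N * h := by gcongr
  set y := 1 / 2 + j₀ * h + ω with hy
  have i1 := (init y ⟨by linarith, by linarith⟩).1
  have hy0 : 0 < y := by linarith
  have huy : 0 < u y := by
    by_contra hc
    have : y * u y ≤ 0 := mul_nonpos_of_nonneg_of_nonpos hy0.le (not_lt.mp hc)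
    linarith
  have i2 : 1 / u y ≤ y * (1 / 2 + 1 / 20) := by
    rw [div_le_iff₀ huy]; linarith
  have e10 : (M - j₀) * h = T - y := by linarith
  rw [e10] at hf
  have huT : 0 < u T := by
    have := hlow T (by linarith) le_rfl
    by_contra hc
    have : T * u T ≤ 0 := mul_nonpos_of_nonneg_of_nonpos (by linarith) (not_lt.mp hc)
    linarith
  have i3 : 1 / u T ≤ T * (1 / 2 + 1 / 20) := by linarith
  rw [div_le_iff₀ huT] at i3
  linarith

end Pool.Agent.Lib.MP_153faa_pr
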