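import Mathlib
import Pool.Agent.Lib.MP_153faa_pr.GDefs
import Pool.Agent.Lib.MP_153faa_pr.GOdeU2

set_option autoImplicit false

open MeasureTheory Filter Topology
open scoped ENNReal NNReal

namespace Pool.Agent.Lib.MP_153faa_pr

variable {d : ℕ}

lemma godeu_decay (a n : ℝ) (ha : 0 < a) :
    Tendsto (fun s : ℝ => (s / 8) ^ n * Real.exp (-(s / 8) ^ a)) atTop (𝓝 0) := by
  have h1 : Tendsto (fun s : ℝ => (s / 8) ^ a) atTop atTop :=
    (tendsto_rpow_atTop ha).comp (tendsto_id.atTop_div_const (by norm_num))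
  have h2 := (tendsto_rpow_mul_exp_neg_mul_atTop_nhds_zero (n / a) 1 one_pos).comp h1
  refine h2.congr' ?_
  filter_upwards [eventually_gt_atTop (0 : ℝ)] with s hs
  simp only [Function.comp]
  rw [← Real.rpow_mul (by positivity), mul_div_cancel₀ _ ha.ne', neg_mul, one_mul]

lemma godeu_large (b R : ℝ) {δ : ℝ} (hδ : 0 < δ) : ∃ s₀ : ℝ, ∀ s, s₀ ≤ s →
    0 < s ∧ s ^ 2 * b * tiny (s / 8) ≤ δ ∧ 2 * √(R / s) ≤ δ ∧
      s * b * R * Real.exp (-(s / 8) ^ (1 / 5 : ℝ)) ≤ 1 := by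
  have h1 := (godeu_decay (1 / 4) 2 (by norm_num)).const_mul (64 * b)
  have h2 := (godeu_decay (1 / 5) 1 (by norm_num)).const_mul (8 * b * R)
  have h3 : Tendsto (fun s : ℝ => 2 * √(R / s)) atTop (𝓝 (2 * √0)) :=
    ((tendsto_const_nhds.div_atTop tendsto_id).sqrt).const_mul 2
  rw [mul_zero] at h1 h2
  rw [Real.sqrt_zero, mul_zero] at h3
  have h4 := (((eventually_gt_atTop (0 : ℝ)).and (h1.eventually (ge_mem_nhds hδ))).and
    (h2.eventually (ge_mem_nhds one_pos))).and (h3.eventually (ge_mem_nhds hδ))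
  obtain ⟨s₀, hs₀⟩ := eventually_atTop.mp h4
  refine ⟨s₀, fun s hs => ?_⟩
  obtain ⟨⟨⟨a1, a2⟩, a3⟩, a4⟩ := hs₀ s hs
  refine ⟨a1, ?_, a4, ?_⟩
  · rw [Real.rpow_two] at a2
    rw [tiny]
    linarith
  · rw [Real.rpow_one] at a3
    linarith

lemma godeu_norm {b C R s σ₀ η T A : ℝ} {k g : ℝ → ℝ} (hb : 0 < b) (hs : 0 < s) (hr : Reg k g)
    (hF : FlowU b C η σ₀ k g) (hσ : 16 * σ₀ ≤ s) (hη0 : 0 ≤ η) (hη1 : η ≤ 1) (hC : 1 ≤ C)
    (hA1 : C / b ≤ A) (hA2 : C / b ^ 2 ≤ A) (hA3 : 1 / b ≤ A) (hTR : T ≤ R)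
    (hu : ∀ x, 1 / 8 ≤ x → s * b * k (s * x) ≤ 17)
    (hlow : ∀ x, 1 / 8 ≤ x → x ≤ T → 9 / 5 ≤ x * (s * b * k (s * x)))
    (hexp : s * b * R * Real.exp (-(s / 8) ^ (1 / 5 : ℝ)) ≤ 1) :
    GodeuNF A η (s ^ 2 * b * tiny (s / 8)) √(R / s) T (fun x => s * b * k (s * x))
      (fun x => s ^ 2 * b * g (s * x)) := by
  intro x h hx hω h64 hAh hxT
  obtain ⟨-, anti, k0, g0⟩ := hr
  have hω0 : 0 ≤ √(R / s) := Real.sqrt_nonneg _
  have hh0 : 0 ≤ h := hω0.trans hω
  have hx0 : 0 < x := by linarith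
  have hxR : x + h ≤ R := hxT.trans hTR
  have hsx : s / 8 ≤ s * x := by nlinarith
  have hsq : √(s * x) ≤ s * √(R / s) := by
    rw [Real.sqrt_le_left (by positivity), mul_pow, Real.sq_sqrt (by
      apply div_nonneg _ hs.le; linarith)]
    have : s ^ 2 * (R / s) = s * R := by field_simp
    rw [this]
    gcongr
    linarith
  have hA0 : 0 < A := lt_of_lt_of_le (by positivity) hA3
  have hsb : 0 < s * b := by positivity
  have hux := hu x hx
  have kx := k0 (s * x)
  have gx := g0 (s * x)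
  have e1 : C * k (s * x) * (s * h) = C / b * (s * b * k (s * x)) * h := by field_simp
  have c1 : C * k (s * x) * (s * h) ≤ A * (s * b * k (s * x)) * h := by
    rw [e1]; gcongr
  have c2 : A * (s * b * k (s * x)) * h ≤ 1 / 2 := by
    calc A * (s * b * k (s * x)) * h ≤ A * 17 * h := by gcongr
      _ ≤ 1 / 2 := by linarith
  have hadm : Adm C σ₀ k (s * x) (s * h) := by
    refine ⟨by linarith, hsq.trans (by gcongr), by nlinarith, by linarith, ?_⟩
    have a1 := hlow (x + h) (by linarith) hxT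
    have a2 : Real.exp (-(s * x) ^ (1 / 5 : ℝ)) ≤ Real.exp (-(s / 8) ^ (1 / 5 : ℝ)) := by
      apply Real.exp_le_exp.mpr
      apply neg_le_neg
      exact Real.rpow_le_rpow (by positivity) hsx (by norm_num)
    refine a2.trans ?_
    have a3 : (x + h) * (s * b * k (s * (x + h))) ≤ R * (s * b * k (s * (x + h))) :=
      mul_le_mul_of_nonneg_right hxR (mul_nonneg hsb.le (k0 _))
    have hR0 : 0 < R := by linarith
    rw [← mul_add]
    refine le_of_mul_le_mul_left (a := s * b * R) ?_ (by positivity)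
    linarith
  obtain ⟨f1, f2, f3⟩ := hF _ _ hadm
  have e2 : s * x - 2 * (s * h) = s * (x - 2 * h) := by ring
  rw [← mul_add, e2] at f1 f3
  rw [← mul_add] at f2
  have t1 : tiny (s * x) ≤ tiny (s / 8) := by
    apply Real.exp_le_exp.mpr
    apply neg_le_neg
    exact Real.rpow_le_rpow (by positivity) hsx (by norm_num)
  have t2 : s ^ 2 * b * tiny (s * x) ≤ s ^ 2 * b * tiny (s / 8) := by gcongr
  set D := k (s * (x - 2 * h)) - k (s * (x + h)) with hD
  have e3 : s * b * k (s * (x - 2 * h)) - s * b * k (s * (x + h)) = s * b * D := by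
    rw [hD]; ring
  have d1 : s ^ 2 * b * (C * D ^ 2) ≤ A * (s * b * D) ^ 2 := by
    have : s ^ 2 * b * (C * D ^ 2) = C / b * (s * b * D) ^ 2 := by field_simp
    rw [this]; gcongr
  simp only [e3]
  refine ⟨?_, ?_, ?_⟩
  · have a1 : k (s * (x + √(R / s))) ≤ k (s * x + √(s * x)) := by
      apply anti
      · simp only [Set.mem_Ioi]; positivity
      · simp only [Set.mem_Ioi]; positivity
      · rw [mul_add]; linarith
    have a2 := mul_le_mul_of_nonneg_left ((sub_le_sub_right a1 _).trans f1) hsb.le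
    have a3 : s * b * (((1 + η) * g (s * x) + C * D ^ 2 + tiny (s * x)) * (s * h)) =
        ((1 + η) * (s ^ 2 * b * g (s * x)) + s ^ 2 * b * (C * D ^ 2) + s ^ 2 * b * tiny (s * x)) *
          h := by ring
    rw [a3, mul_sub] at a2
    exact a2.trans (mul_le_mul_of_nonneg_right (by linarith) hh0)
  · have a2 := mul_le_mul_of_nonneg_left f2 hsb.le
    have a3 : s * b * (((1 - η) * (1 - C * k (s * x) * (s * h)) * g (s * x) - tiny (s * x)) *
        (s * h)) = ((1 - η) * (1 - C * k (s * x) * (s * h)) * (s ^ 2 * b * g (s * x)) -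
          s ^ 2 * b * tiny (s * x)) * h := by ring
    rw [a3, mul_sub (s * b)] at a2
    refine le_trans (mul_le_mul_of_nonneg_right ?_ hh0) a2
    have a4 : (1 - η) * (1 - A * (s * b * k (s * x)) * h) * (s ^ 2 * b * g (s * x)) ≤
        (1 - η) * (1 - C * k (s * x) * (s * h)) * (s ^ 2 * b * g (s * x)) :=
      mul_le_mul_of_nonneg_right (mul_le_mul_of_nonneg_left (by linarith) (by linarith))
        (by positivity)
    linarith
  · have a2 := mul_le_mul_of_nonneg_left f3 (by positivity : 0 ≤ s ^ 2 * b)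
    have a4 : 1 + η - (b - η) * k (s * x) * (s * h) + C * (k (s * x) * (s * h)) ^ 2 ≤
        1 + η - (1 - A * η) * (s * b * k (s * x)) * h + A * (s * b * k (s * x) * h) ^ 2 := by
      have b1 : (b - η) * k (s * x) * (s * h) = (1 - 1 / b * η) * (s * b * k (s * x) * h) := by
        field_simp
      have b2 : C * (k (s * x) * (s * h)) ^ 2 = C / b ^ 2 * (s * b * k (s * x) * h) ^ 2 := by
        field_simp
      have b3 : (1 - A * η) * (s * b * k (s * x) * h) ≤
          (1 - 1 / b * η) * (s * b * k (s * x) * h) := by gcongr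
      have b4 : C / b ^ 2 * (s * b * k (s * x) * h) ^ 2 ≤ A * (s * b * k (s * x) * h) ^ 2 := by
        gcongr
      rw [b1, b2, mul_assoc (1 - A * η)]
      linarith
    have a5 := mul_le_mul_of_nonneg_left a4 (by positivity : 0 ≤ s ^ 2 * b * g (s * x))
    linarith

/-- A trajectory close to the critical one stays close for a long time. -/
theorem ode_up {b C : ℝ} (hb : 0 < b) (hC : 1 ≤ C) : ∃ c : ℝ, 0 < c ∧ ∀ R : ℝ, 2 ≤ R →
    ∃ η s₀ : ℝ, 0 < η ∧ ∀ (σ₀ s : ℝ) (k g : ℝ → ℝ), Reg k g → FlowU b C η σ₀ k g → s₀ ≤ s →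
      16 * σ₀ ≤ s →
      (∀ τ ∈ Set.Icc (s / 8) s, (1 - c / R ^ 2) * (2 / b) ≤ τ * k τ ∧
        τ * k τ ≤ (1 + c / R ^ 2) * (2 / b)) →
      ∀ τ ∈ Set.Icc s (R * s), 9 / 10 * (2 / b) ≤ τ * k τ := by
  refine ⟨1 / 1000, by norm_num, fun R hR => ?_⟩
  set A := C / b + C / b ^ 2 + 1 / b + 1 with hA
  have p1 : 0 < C / b := by positivity
  have p2 : 0 < C / b ^ 2 := by positivity
  have p3 : 0 < 1 / b := by positivity
  have hA1 : 1 ≤ A := by linarith
  have hz := godeuZ_pos hA1 hR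
  have hR0 : 0 < R := by linarith
  obtain ⟨s₀, hs₀⟩ := godeu_large b R (δ := godeuZ A R ^ 2) (by positivity)
  refine ⟨min 1 (godeuZ A R ^ 2), s₀, by positivity, fun σ₀ s k g hr hF hs hσ init => ?_⟩
  obtain ⟨hs0, l1, l2, l3⟩ := hs₀ s hs
  set u : ℝ → ℝ := fun x => s * b * k (s * x) with hu
  have eu : ∀ x, x * u x = b * (s * x * k (s * x)) := fun x => by simp only [hu]; ring
  have hε : 1 / 1000 / R ^ 2 ≤ 1 / 4000 := by
    rw [div_le_iff₀ (by positivity)]; nlinarith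
  have init' : ∀ x ∈ Set.Icc (1 / 8 : ℝ) 1, 2 * (1 - 1 / 1000 / R ^ 2) ≤ x * u x ∧
      x * u x ≤ 2 * (1 + 1 / 1000 / R ^ 2) := by
    intro x hx
    obtain ⟨i1, i2⟩ := init (s * x) ⟨by nlinarith [hx.1], by nlinarith [hx.2]⟩
    have j1 := mul_le_mul_of_nonneg_left i1 hb.le
    have j2 := mul_le_mul_of_nonneg_left i2 hb.le
    have e : ∀ y : ℝ, b * (y * (2 / b)) = 2 * y := fun y => by field_simp
    rw [e] at j1 j2
    rw [eu]
    exact ⟨j1, j2⟩
  have anti : AntitoneOn u (Set.Ici (1 / 8)) := by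
    intro x hx y hy hxy
    have hx' : (1 / 8 : ℝ) ≤ x := hx
    have hy' : (1 / 8 : ℝ) ≤ y := hy
    refine mul_le_mul_of_nonneg_left (hr.2.1 ?_ ?_ (by gcongr)) (by positivity)
    · simp only [Set.mem_Ioi]; positivity
    · simp only [Set.mem_Ioi]; positivity
  have hu17 : ∀ x, 1 / 8 ≤ x → u x ≤ 17 := by
    intro x hx
    have h1 := anti (a := 1 / 8) (by simp) hx hx
    have h2 := (init' (1 / 8) ⟨le_rfl, by norm_num⟩).2
    linarith
  have hcont : ContinuousOn (fun x => x * u x) (Set.Ioi 0) := by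
    refine continuousOn_id.mul (continuousOn_const.mul (hr.1.comp (by fun_prop) ?_))
    intro x hx
    exact mul_pos hs0 hx
  have key : Set.Icc 1 R ⊆ {x | 9 / 5 ≤ x * u x} := by
    apply IsClosed.Icc_subset_of_forall_mem_nhdsGT_of_Icc_subset
    · rw [Set.inter_comm]
      exact (hcont.mono fun x hx => lt_of_lt_of_le one_pos hx.1).preimage_isClosed_of_isClosed
        isClosed_Icc isClosed_Ici
    · have := (init' 1 ⟨by norm_num, le_rfl⟩).1
      simp only [Set.mem_ofPred_eq]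
      linarith
    · intro T hT hsub
      have hlow : ∀ x, 1 / 8 ≤ x → x ≤ T → 9 / 5 ≤ x * u x := by
        intro x hx hxT
        rcases le_total x 1 with h | h
        · linarith [(init' x ⟨hx, h⟩).1]
        · exact hsub ⟨h, hxT⟩
      have hNF := godeu_norm (A := A) (T := T) hb hs0 hr hF hσ (by positivity) (min_le_left _ _) hC
        (by linarith) (by linarith) (by linarith) hT.2.le hu17 hlow l3
      have hlt := godeu_core hA1 hR hT.1 hT.2.le hNF (by positivity) (min_le_right _ _)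
        l1 (Real.sqrt_nonneg _) l2 anti
        (fun x => mul_nonneg (by positivity) (hr.2.2.1 _))
        (fun x => mul_nonneg (by positivity) (hr.2.2.2 _)) init' fun x hx => hsub hx
      have hc : ContinuousAt (fun x => x * u x) T :=
        hcont.continuousAt (Ioi_mem_nhds (lt_of_lt_of_le one_pos hT.1))
      exact mem_nhdsWithin_of_mem_nhds (hc.eventually (le_mem_nhds hlt))
  intro τ hτ
  have h1 : τ / s ∈ Set.Icc 1 R :=
    ⟨by rw [le_div_iff₀ hs0]; linarith [hτ.1], by rw [div_le_iff₀ hs0]; exact hτ.2⟩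
  have h2 : 9 / 5 ≤ τ / s * u (τ / s) := key h1
  rw [eu, mul_div_cancel₀ _ hs0.ne'] at h2
  have e : 9 / 10 * (2 / b) = 9 / 5 / b := by ring
  rw [e, div_le_iff₀ hb]
  linarith

end Pool.Agent.Lib.MP_153faa_pr
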