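import Mathlib
import Pool.Agent.Lib.MP_153faa_pr.GCrit
import Pool.Agent.Lib.MP_153faa_pr.GCont
import Pool.Agent.Lib.MP_153faa_pr.GQC2
import Pool.Agent.Lib.MP_153faa_pr.GOdeU
import Pool.Agent.Lib.MP_153faa_pr.GLink

set_option autoImplicit false

open MeasureTheory Filter Topology
open scoped ENNReal NNReal

namespace Pool.Agent.Lib.MP_153faa_pr

variable {d : ℕ}

theorem gmainu_inv_le {O : ℝ≥0∞} {X : ℝ} (hX : 0 < X) (h1 : 1 ≤ O) (h : O ≤ ENNReal.ofReal X) :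
    X⁻¹ ≤ (O⁻¹).toReal := by
  rw [← ENNReal.ofReal_le_iff_le_toReal (ENNReal.inv_ne_top.2 (zero_lt_one.trans_le h1).ne'),
    ENNReal.ofReal_inv_of_pos hX]
  exact ENNReal.inv_le_inv.2 h

theorem gmainu_le_of_inv {O : ℝ≥0∞} {X : ℝ} (hX : 0 < X) (h : X⁻¹ ≤ (O⁻¹).toReal) :
    O ≤ ENNReal.ofReal X := by
  have := ENNReal.ofReal_le_of_le_toReal h
  rw [ENNReal.ofReal_inv_of_pos hX] at this
  exact ENNReal.inv_le_inv.1 this

theorem gmainu_gap {Oc O' O J : ℝ≥0∞} {C e E θ X Y : ℝ} (hC : 1 ≤ C) (he : 0 < e) (hE : 0 < E)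
    (hθ : θ ≤ 1 / 2) (h : e ≤ θ * E) (hX : 0 ≤ X) (hY : 0 ≤ Y)
    (h1 : O' ≤ Oc + ENNReal.ofReal (C * e) * J) (h2 : O' + ENNReal.ofReal (C⁻¹ * (E - e)) * J ≤ O)
    (h3 : Oc ≤ ENNReal.ofReal X) (h4 : O ≤ ENNReal.ofReal Y) :
    O' ≤ ENNReal.ofReal (X + 2 * C ^ 2 * θ * Y) := by
  have hθ0 : 0 < θ := by
    by_contra hc
    nlinarith
  have hC0 : 0 < C := by linarith
  have h5 : C * e ≤ 2 * C ^ 2 * θ * (C⁻¹ * (E - e)) := by
    have : 2 * C ^ 2 * θ * (C⁻¹ * (E - e)) = C * (2 * θ * (E - e)) := by field_simp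
    rw [this]
    gcongr
    nlinarith
  rw [ENNReal.ofReal_add hX (by positivity), ENNReal.ofReal_mul (by positivity)]
  refine h1.trans (add_le_add h3 ?_)
  calc ENNReal.ofReal (C * e) * J
      ≤ ENNReal.ofReal (2 * C ^ 2 * θ * (C⁻¹ * (E - e))) * J := by gcongr
    _ = ENNReal.ofReal (2 * C ^ 2 * θ) * (ENNReal.ofReal (C⁻¹ * (E - e)) * J) := by
        rw [ENNReal.ofReal_mul (by positivity), mul_assoc]
    _ ≤ _ := by gcongr; exact (le_add_self.trans h2).trans h4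

theorem gmainu_exp {C b : ℝ} (hC : 1 ≤ C) (hb : 0 < b) : ∀ᶠ s : ℝ in atTop,
    C * (b * s + 1) ^ C * Real.exp (-s) ^ C⁻¹ ≤ Real.exp (-(s / (2 * C))) := by
  have hC0 : 0 < C := by linarith
  have h := (tendsto_rpow_mul_exp_neg_mul_atTop_nhds_zero C (1 / (2 * C))
    (by positivity)).const_mul (C * (b + 1) ^ C)
  rw [mul_zero] at h
  filter_upwards [h.eventually (gt_mem_nhds one_pos), eventually_ge_atTop 1] with s h1 h2
  have e1 : Real.exp (-s) ^ C⁻¹ = Real.exp (-(1 / (2 * C)) * s) * Real.exp (-(s / (2 * C))) := by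
    rw [← Real.exp_mul, ← Real.exp_add]
    congr 1
    field_simp
    ring
  have e2 : (b * s + 1) ^ C ≤ (b + 1) ^ C * s ^ C := by
    rw [← Real.mul_rpow (by positivity) (by positivity)]
    gcongr
    linarith
  rw [e1]
  calc C * (b * s + 1) ^ C * (Real.exp (-(1 / (2 * C)) * s) * Real.exp (-(s / (2 * C))))
      ≤ C * ((b + 1) ^ C * s ^ C) *
        (Real.exp (-(1 / (2 * C)) * s) * Real.exp (-(s / (2 * C)))) := by gcongr
    _ = C * (b + 1) ^ C * (s ^ C * Real.exp (-(1 / (2 * C)) * s)) * Real.exp (-(s / (2 * C))) := by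
        ring
    _ ≤ 1 * Real.exp (-(s / (2 * C))) := by gcongr
    _ = _ := one_mul _

theorem gmainu_R {c α : ℝ} (hc : 0 < c) (hα : α < 1 / 2) :
    ∃ R : ℝ, 8 ≤ R ∧ c / R ^ 2 ≤ 1 / 2 ∧ (c / R ^ 2) ^ (-α) ≤ R / 2 := by
  obtain ⟨R, h1, h2, h3⟩ := ((eventually_ge_atTop 8).and ((eventually_ge_atTop c).and
    ((tendsto_rpow_atTop (show 0 < 1 - 2 * α by linarith)).eventually_ge_atTop
      (2 * c ^ (-α))))).exists
  have h0 : 0 < R := by linarith
  refine ⟨R, h1, by rw [div_le_iff₀ (by positivity)]; nlinarith, ?_⟩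
  have e1 : R ^ (1 - 2 * α) * (R ^ 2) ^ α = R := by
    rw [← Real.rpow_natCast, ← Real.rpow_mul h0.le, ← Real.rpow_add h0]
    norm_num
  rw [Real.div_rpow hc.le (by positivity), Real.rpow_neg (sq_nonneg R), div_inv_eq_mul]
  have : 0 ≤ (R ^ 2) ^ α := by positivity
  nlinarith

theorem gmainu_scale {θ R α e₁ K : ℝ} (h0 : 0 < θ) (h1 : θ < 1) (hα : 0 ≤ α) (he : 0 < e₁)
    (hK : 0 < K) (hR : θ ^ (-α) ≤ R / 2) : ∃ e₂ : ℝ, 0 < e₂ ∧ ∀ e, 0 < e → e < e₂ →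
      ∃ n : ℕ, e ≤ e₁ * θ ^ n ∧ e ^ (-α) ≤ R ^ n * K := by
  obtain ⟨N, hN⟩ := pow_unbounded_of_one_lt ((e₁ * θ) ^ (-α) / K) (one_lt_two (α := ℝ))
  refine ⟨e₁ * θ ^ N, by positivity, fun e h2 h3 => ?_⟩
  have h4 : e / e₁ < θ ^ N := by rwa [div_lt_iff₀' he]
  obtain ⟨n, h5, h6⟩ := exists_nat_pow_near_of_lt_one (div_pos h2 he)
    (h4.le.trans (pow_le_one₀ h0.le h1.le)) h0 h1
  have h7 : N ≤ n := Nat.lt_succ_iff.1 ((pow_lt_pow_iff_right_of_lt_one₀ h0 h1).1 (h5.trans h4))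
  refine ⟨n, (div_le_iff₀' he).1 h6, ?_⟩
  have h8 : e₁ * θ * θ ^ n ≤ e := by
    rw [lt_div_iff₀' he] at h5
    calc e₁ * θ * θ ^ n = e₁ * θ ^ (n + 1) := by ring
      _ ≤ e := h5.le
  have h9 : 0 ≤ θ ^ (-α) := by positivity
  rw [div_lt_iff₀ hK] at hN
  calc e ^ (-α) ≤ (e₁ * θ * θ ^ n) ^ (-α) :=
        Real.rpow_le_rpow_of_nonpos (by positivity) h8 (by linarith)
    _ = (e₁ * θ) ^ (-α) * (θ ^ (-α)) ^ n := by
        rw [Real.mul_rpow (by positivity) (by positivity), ← Real.rpow_natCast,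
          ← Real.rpow_natCast, ← Real.rpow_mul h0.le, ← Real.rpow_mul h0.le, mul_comm (n : ℝ)]
    _ ≤ (2 ^ n * K) * (R / 2) ^ n := by
        gcongr
        exact hN.le.trans (by gcongr; norm_num)
    _ = R ^ n * K := by rw [div_pow]; field_simp

/-- Lower bound for the free energy near the critical point. -/
theorem main_up (hd : 3 ≤ d) {ν : Measure ℝ} [IsProbabilityMeasure ν]
    (hν : ∀ β : ℝ, Integrable (fun t => Real.exp (β * t)) ν)
    (hne : ∃ β : ℝ, 0 ≤ β ∧ freeEnergy d ν β < 0) {κ M ε₀ : ℝ} (hκ : 0 < κ) (hε : 0 < ε₀)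
    (h3 : 3 * ε₀ ≤ betaC d ν)
    (hG : ∀ β ∈ Set.Icc (betaC d ν - ε₀) (betaC d ν + ε₀), Good d κ M (rho ν β))
    {δ : ℝ} (hδ : 0 < δ) : ∃ ε₁ : ℝ, 0 < ε₁ ∧ ∀ ε : ℝ, 0 < ε → ε < ε₁ →
      -Real.exp (-ε ^ (-(1 / 2 - δ))) ≤ freeEnergy d ν (betaC d ν + ε) := by
  obtain ⟨a, b, C, -, hb, hC, hfin, hlim, -, hflow⟩ := crit_pack hd hν hne hκ hε h3 hG 0
  obtain ⟨c, hc, hode⟩ := ode_up hb hC
  obtain ⟨Cq, hCq, hqc⟩ := qc hd hν hκ (β₁ := betaC d ν - ε₀) (β₂ := betaC d ν + ε₀)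
    (by linarith) (by linarith) hG
  obtain ⟨CL, hCL, hlink⟩ := link_a hd κ M
  generalize betaC d ν = β₀ at *
  have hd1 : 1 ≤ d := by omega
  have hq : 1 ≤ q0 d := le_add_of_nonneg_right (by positivity)
  have hl1 : ∀ {t : ℝ}, 0 < t → Real.exp (-t) < 1 := fun ht => Real.exp_lt_one_iff.2 (by linarith)
  have hGe : ∀ {e : ℝ}, 0 ≤ e → e ≤ ε₀ → Good d κ M (rho ν (β₀ + e)) := fun h1 h2 =>
    hG _ ⟨by linarith, by linarith⟩
  have hG0 : Good d κ M (rho ν β₀) := hG _ ⟨by linarith, by linarith⟩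
  obtain ⟨α, hα⟩ : ∃ α, α = 1 / 2 - min δ (1 / 4) := ⟨_, rfl⟩
  have hα0 : 0 ≤ α := by linarith [min_le_right δ (1 / 4)]
  have hα1 : α < 1 / 2 := by linarith [lt_min hδ (show (0 : ℝ) < 1 / 4 by norm_num)]
  have hα2 : 1 / 2 - δ ≤ α := by linarith [min_le_left δ (1 / 4)]
  obtain ⟨R, hR, hθ, hθR⟩ := gmainu_R (c := c / (5 * Cq ^ 2)) (by positivity) hα1
  obtain ⟨θ, hθe⟩ : ∃ θ, θ = c / (5 * Cq ^ 2) / R ^ 2 := ⟨_, rfl⟩
  rw [← hθe] at hθ hθR
  have hθ0 : 0 < θ := by rw [hθe]; positivity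
  obtain ⟨η, s₀, hη, hode⟩ := hode R (by linarith)
  obtain ⟨σ₀, ε₁, hσ₀, hε₁, hε₁', hflow⟩ := hflow η hη
  obtain ⟨u, hu⟩ : ∃ u, u = c / R ^ 2 := ⟨_, rfl⟩
  rw [← hu] at hode
  have hu0 : 0 < u := by rw [hu]; positivity
  have huθ : 5 * Cq ^ 2 * θ = u := by rw [hu, hθe]; field_simp
  -- the critical trajectory
  have hcrit : ∀ v : ℝ, 0 < v → ∀ᶠ t : ℝ in atTop,
      OO d (rho ν β₀) (q0 d) (Real.exp (-t)) ≤ ENNReal.ofReal ((1 + v) * (b * t / 2)) := by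
    intro v hv
    have h1 : 2 / b / (1 + v) < 2 / b := div_lt_self (by positivity) (by linarith)
    filter_upwards [hlim.eventually (lt_mem_nhds h1), eventually_gt_atTop 0] with t h2 ht
    refine gmainu_le_of_inv (by positivity) ?_
    change _ ≤ kk d (rho ν β₀) t
    rw [← mul_le_mul_iff_right₀ ht]
    refine le_trans (le_of_eq ?_) h2.le
    field_simp
  obtain ⟨T, hT⟩ := eventually_atTop.1 ((hcrit (u / 2) (by linarith)).and ((hcrit (1 / 20)
    (by norm_num)).and ((hlim.eventually (gt_mem_nhds (show 2 / b < (1 + u) * (2 / b) from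
      lt_mul_of_one_lt_left (by positivity) (by linarith)))).and (gmainu_exp hCL hb))))
  obtain ⟨S, hS⟩ : ∃ S, S = max (max (8 * T) s₀) (16 * σ₀) := ⟨_, rfl⟩
  have hS1 : 8 * T ≤ S := hS ▸ (le_max_left _ _).trans (le_max_left _ _)
  have hS2 : s₀ ≤ S := hS ▸ (le_max_right _ _).trans (le_max_left _ _)
  have hS3 : 16 * σ₀ ≤ S := hS ▸ le_max_right _ _
  have hgap : ∀ {t e E θ' X Y : ℝ}, 0 < t → 0 < e → 0 < E → E ≤ ε₀ → θ' ≤ 1 / 2 → e ≤ θ' * E →
      0 ≤ X → 0 ≤ Y → OO d (rho ν β₀) (q0 d) (Real.exp (-t)) ≤ ENNReal.ofReal X →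
      OO d (rho ν (β₀ + E)) (q0 d) (Real.exp (-t)) ≤ ENNReal.ofReal Y →
      OO d (rho ν (β₀ + e)) (q0 d) (Real.exp (-t)) ≤
        ENNReal.ofReal (X + 2 * Cq ^ 2 * θ' * Y) := by
    intro t e E θ' X Y ht he hE hE' hθ' heE hX hY h1 h2
    obtain ⟨J, -, hJ, -⟩ := hqc _ (Real.exp_pos (-t)) (hl1 ht)
    have heE' : e ≤ E := by nlinarith
    have j1 := (hJ β₀ (β₀ + e) (by linarith) (by linarith) (by linarith)).2
    have j2 := (hJ (β₀ + e) (β₀ + E) (by linarith) (by linarith) (by linarith)).1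
    rw [add_sub_cancel_left] at j1
    rw [add_sub_add_left_eq_sub] at j2
    exact gmainu_gap hCq he hE hθ' heE hX hY j1 j2 h1 h2
  let P : ℝ → ℝ → Prop := fun e s => ∀ t ∈ Set.Icc (s / 8) s,
    OO d (rho ν (β₀ + e)) (q0 d) (Real.exp (-t)) ≤ ENNReal.ofReal (5 / 9 * b * t)
  have hstep : ∀ e E s, 0 < e → 0 < E → E ≤ ε₁ → e ≤ θ * E → S ≤ s → P E s → P e (R * s) := by
    intro e E s he hE hE' heE hs hP t ht
    have he1 : e ≤ ε₁ := by nlinarith
    have hg := hGe he.le (he1.trans hε₁')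
    have hs0 : 0 < s := by linarith
    have ht0 : s ≤ t := by nlinarith [ht.1]
    have key := hode σ₀ s _ _ (reg_kk hd1 hg.1 a) (hflow (β₀ + e) ⟨by linarith, by linarith⟩)
      (hS2.trans hs) (hS3.trans hs) (fun τ hτ => ?_) t ⟨ht0, ht.2⟩
    · refine gmainu_le_of_inv (by have := hs0.trans_le ht0; positivity) ?_
      change _ ≤ kk d (rho ν (β₀ + e)) t
      have ht1 := hs0.trans_le ht0
      rw [← mul_le_mul_iff_right₀ ht1]
      refine le_trans (le_of_eq ?_) key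
      field_simp
      norm_num
    · have hτ0 : 0 < τ := by linarith [hτ.1]
      obtain ⟨t1, -, t3, -⟩ := hT τ (by linarith [hτ.1])
      have o1 := one_le_OO hd1 hG0.1 hq (Real.exp_pos (-τ)) (hl1 hτ0)
      have o2 : OO d (rho ν β₀) (q0 d) (Real.exp (-τ)) ≤
          OO d (rho ν (β₀ + e)) (q0 d) (Real.exp (-τ)) :=
        cx_OO hd1 (cx_rho hν (by linarith) (by linarith)) hq _
      constructor
      · have g1 := hgap hτ0 he hE (hE'.trans hε₁') hθ heE (by positivity) (by positivity) t1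
          (hP τ hτ)
        have g2 : (1 + u / 2) * (b * τ / 2) + 2 * Cq ^ 2 * θ * (5 / 9 * b * τ) ≤
            (1 + u) * (b * τ / 2) := by
          have : 2 * Cq ^ 2 * θ * (5 / 9 * b * τ) = 2 / 9 * u * (b * τ) := by rw [← huθ]; ring
          rw [this]
          nlinarith [mul_pos hu0 (mul_pos hb hτ0)]
        have g3 : ((1 + u) * (b * τ / 2))⁻¹ ≤ kk d (rho ν (β₀ + e)) τ :=
          gmainu_inv_le (by positivity) (o1.trans o2) (g1.trans (ENNReal.ofReal_le_ofReal g2))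
        refine le_trans ?_ (mul_le_mul_of_nonneg_left g3 hτ0.le)
        have : τ * ((1 + u) * (b * τ / 2))⁻¹ = (1 + u)⁻¹ * (2 / b) := by field_simp
        rw [this]
        gcongr
        rw [← one_div, le_div_iff₀ (by linarith)]
        nlinarith
      · refine le_trans (mul_le_mul_of_nonneg_left ?_ hτ0.le) t3.le
        exact ENNReal.toReal_mono (ENNReal.inv_ne_top.2 (zero_lt_one.trans_le o1).ne')
          (ENNReal.inv_le_inv.2 o2)
  have hS0 : 0 < S := by linarith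
  -- the start
  obtain ⟨e₁, he₁, he₁', hstart⟩ : ∃ e₁, 0 < e₁ ∧ e₁ ≤ ε₁ ∧ ∀ e, 0 < e → e ≤ e₁ → P e S := by
    have c1 := OO_cont hd1 hν hq (Real.exp_pos (-S)) (hl1 hS0) (hfin S hS0)
    have c2 : OO d (rho ν β₀) (q0 d) (Real.exp (-S)) < ENNReal.ofReal (b * S) :=
      (hT S (by linarith)).2.1.trans_lt ((ENNReal.ofReal_lt_ofReal_iff (by positivity)).2 (by
        nlinarith [mul_pos hb hS0]))
    obtain ⟨r, hr, c3⟩ := Metric.eventually_nhds_iff.1 (c1.eventually (gt_mem_nhds c2))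
    obtain ⟨E, hE⟩ : ∃ E, E = min (r / 2) ε₁ := ⟨_, rfl⟩
    have hE0 : 0 < E := hE ▸ lt_min (by linarith) hε₁
    have hE1 : E ≤ ε₁ := hE ▸ min_le_right _ _
    have hE2 : E ≤ r / 2 := hE ▸ min_le_left _ _
    have c4 := c3 (y := β₀ + E) (by rw [Real.dist_eq, add_sub_cancel_left, abs_of_pos hE0]; linarith)
    have hθ1 : 1 / (600 * Cq ^ 2) ≤ 1 / 2 := by gcongr; nlinarith
    refine ⟨1 / (600 * Cq ^ 2) * E, by positivity, by nlinarith, fun e he heE t ht => ?_⟩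
    have ht0 : 0 < t := by linarith [ht.1]
    have g1 := hgap ht0 he hE0 (hE1.trans hε₁') hθ1 heE (by positivity) (by positivity)
      (hT t (by linarith [ht.1])).2.1 ((OO_horizon hd1 (hGe hE0.le (hE1.trans hε₁')).1 hq
        (Real.exp_pos (-S)) (Real.exp_le_exp.2 (by linarith [ht.2])) (hl1 ht0)).trans c4.le)
    refine g1.trans (ENNReal.ofReal_le_ofReal ?_)
    have : 2 * Cq ^ 2 * (1 / (600 * Cq ^ 2)) * (b * S) = b * S / 300 := by field_simp; norm_num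
    rw [this]
    nlinarith [mul_pos hb ht0, mul_le_mul_of_nonneg_left ht.1 hb.le]
  have hRn : ∀ n : ℕ, S ≤ R ^ n * S := fun n =>
    le_mul_of_one_le_left hS0.le (one_le_pow₀ (by linarith))
  have hind : ∀ n : ℕ, ∀ e, 0 < e → e ≤ e₁ * θ ^ n → P e (R ^ n * S) := by
    intro n
    induction n with
    | zero => intro e h1 h2; simpa using hstart e h1 (by simpa using h2)
    | succ n ih =>
      intro e h1 h2
      have h4 : e₁ * θ ^ n ≤ e₁ := mul_le_of_le_one_right he₁.le (pow_le_one₀ hθ0.le (by linarith))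
      rw [show R ^ (n + 1) * S = R * (R ^ n * S) by ring]
      exact hstep e (e₁ * θ ^ n) _ h1 (by positivity) (h4.trans he₁')
        (h2.trans_eq (by ring)) (hRn n) (ih _ (by positivity) le_rfl)
  obtain ⟨e₂, he₂, hsc⟩ := gmainu_scale (K := S / (2 * CL)) hθ0 (by linarith) hα0 he₁
    (by positivity) hθR
  refine ⟨min e₂ 1, lt_min he₂ one_pos, fun e he h => ?_⟩
  obtain ⟨n, h1, h2⟩ := hsc e he (h.trans_le (min_le_left _ _))
  have h4 : e ≤ ε₀ := by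
    have : e₁ * θ ^ n ≤ e₁ := mul_le_of_le_one_right he₁.le (pow_le_one₀ hθ0.le (by linarith))
    linarith
  have h5 := hRn n
  have h6 := hind n e he h1
  rw [← mul_div_assoc] at h2
  generalize R ^ n * S = s at h2 h5 h6
  have hs0 : 0 < s := by linarith
  have h7 := hlink ν hν (β₀ + e) (Real.exp (-s)) (b * s + 1) (hGe he.le h4) (Real.exp_pos _)
    (hl1 hs0) (by nlinarith [mul_pos hb hs0]) ((h6 s ⟨by linarith, le_rfl⟩).trans
      (ENNReal.ofReal_le_ofReal (by nlinarith [mul_pos hb hs0])))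
  refine le_trans (neg_le_neg ((hT s (by linarith)).2.2.2.trans (Real.exp_le_exp.2
    (neg_le_neg (le_trans ?_ h2))))) h7
  exact Real.rpow_le_rpow_of_exponent_ge he (h.le.trans (min_le_right _ _)) (by linarith)

end Pool.Agent.Lib.MP_153faa_pr
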