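import Mathlib
import Pool.Agent.Lib.MP_153faa_pr.GMainU
import Pool.Agent.Lib.MP_153faa_pr.GMainL
import Pool.Agent.Lib.MP_153faa_pr.GStep0

set_option autoImplicit false

open MeasureTheory Filter Topology
open scoped ENNReal NNReal

namespace Pool.Agent.Lib.MP_153faa_pr

variable {d : ℕ}

theorem gmain_real {f : ℝ → ℝ} {c : ℝ}
    (hu : ∀ δ : ℝ, 0 < δ → ∃ ε₁ : ℝ, 0 < ε₁ ∧ ∀ ε : ℝ, 0 < ε → ε < ε₁ →
      -Real.exp (-ε ^ (-(1 / 2 - δ))) ≤ f (c + ε))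
    (hl : ∀ δ : ℝ, 0 < δ → ∃ ε₁ : ℝ, 0 < ε₁ ∧ ∀ ε : ℝ, 0 < ε → ε < ε₁ →
      f (c + ε) ≤ -Real.exp (-ε ^ (-(1 / 2 + δ)))) :
    Tendsto (fun β => Real.log (-Real.log |f β|) / Real.log (1 / (β - c))) (𝓝[>] c)
      (𝓝 (1 / 2)) := by
  refine Metric.tendsto_nhds.2 fun η hη => ?_
  obtain ⟨e1, h1, hu⟩ := hu (η / 2) (by linarith)
  obtain ⟨e2, h2, hl⟩ := hl (η / 2) (by linarith)
  have h0 : c < c + min (min e1 e2) 1 := by
    have : 0 < min (min e1 e2) 1 := by positivity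
    linarith
  filter_upwards [Ioo_mem_nhdsGT h0] with β hβ
  obtain ⟨ε, rfl⟩ : ∃ ε, β = c + ε := ⟨β - c, by ring⟩
  have hε : 0 < ε := by linarith [hβ.1]
  have hm : ε < min (min e1 e2) 1 := by linarith [hβ.2]
  simp only [lt_min_iff] at hm
  have a1 := hu ε hε hm.1.1
  have a2 := hl ε hε hm.1.2
  have hneg : f (c + ε) < 0 := a2.trans_lt (neg_lt_zero.2 (Real.exp_pos _))
  have hL : 0 < -Real.log ε := neg_pos.2 (Real.log_neg hε hm.2)
  have b1 : ε ^ (-(1 / 2 - η / 2)) ≤ -Real.log (-f (c + ε)) :=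
    le_neg.1 ((Real.log_le_iff_le_exp (neg_pos.2 hneg)).2 (neg_le.1 a1))
  have b2 : -Real.log (-f (c + ε)) ≤ ε ^ (-(1 / 2 + η / 2)) :=
    neg_le.1 ((Real.le_log_iff_exp_le (neg_pos.2 hneg)).2 (le_neg.1 a2))
  have p1 := Real.rpow_pos_of_pos hε (-(1 / 2 - η / 2))
  have c1 := Real.log_le_log p1 b1
  have c2 := Real.log_le_log (p1.trans_le b1) b2
  rw [Real.log_rpow hε] at c1 c2
  rw [add_sub_cancel_left, abs_of_neg hneg, one_div ε, Real.log_inv, Real.dist_eq, abs_lt,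
    lt_sub_iff_add_lt, sub_lt_iff_lt_add, lt_div_iff₀ hL, div_lt_iff₀ hL]
  constructor <;> nlinarith [mul_pos hη hL]

/-- The stretched exponent of the free energy at the critical point is one half. -/
theorem main_half (hd : 3 ≤ d) (ν : Measure ℝ) [IsProbabilityMeasure ν]
    (hν : ∀ β : ℝ, Integrable (fun t => Real.exp (β * t)) ν)
    (hne : ∃ β : ℝ, 0 ≤ β ∧ freeEnergy d ν β < 0) :
    Tendsto (fun β => Real.log (-Real.log |freeEnergy d ν β|) / Real.log (1 / (β - betaC d ν)))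
      (𝓝[>] betaC d ν) (𝓝 (1 / 2)) := by
  obtain ⟨κ, M, ε₀, hκ, hε, h3, hG⟩ := step0 hd ν hν hne
  exact gmain_real (fun _ hδ => main_up hd hν hne hκ hε h3 hG hδ)
    fun _ hδ => main_low hd hν hne hκ hε h3 hG hδ

end Pool.Agent.Lib.MP_153faa_pr
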